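import Pool.Agent.Lib.MP_d61fbb_ag.MT.A4

/-! The action of a field automorphism on the theta function of Mumford. -/

noncomputable section

namespace Pool.Agent.MT

open Matrix Complex Sum Filter

section
variable {V A : Type*} [AddCommGroup V] [AddCommGroup A] {r : V → A}

/-- the third difference -/
def d3 (r : V → A) (t x y z : V) : A := r (t + x + y + z) + r (t + x) + r (t + y) + r (t + z) -
  r (t + x + y) - r (t + x + z) - r (t + y + z) - r t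

lemma d3_split (t x y z w : V) : d3 r t x y z = d3 r t w y z + d3 r (t + w) (x - w) y z := by
  simp only [d3, show t + w + (x - w) = t + x by abel]
  abel

lemma d3_cyc (t x y z : V) : d3 r t x y z = d3 r t y z x := by
  simp only [d3, add_right_comm _ x]
  abel

lemma d3_split2 (t x y z w : V) : d3 r t x y z = d3 r t x w z + d3 r (t + w) x (y - w) z := by
  rw [d3_cyc, d3_split _ _ _ _ w, ← d3_cyc, ← d3_cyc _ x]

lemma d3_split3 (t x y z w : V) : d3 r t x y z = d3 r t x y w + d3 r (t + w) x y (z - w) := by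
  rw [← d3_cyc, d3_split _ _ _ _ w, d3_cyc, d3_cyc _ (z - w)]

lemma d3_zero {N : V → Prop}
    (gen : ∀ c : Fin 8 → V, ∃ w, ∀ i, N (c i + w) ∧ N (c i + w + w) ∧ N (c i + w + w + w))
    (s2 : ∀ t x y z, N t → N (t + x + y) → N (t + x + z) → N (t + y + z) → d3 r t x y z = 0)
    (t x y z : V) : d3 r t x y z = 0 := by
  have n : ∀ {p q}, N p → p = q → N q := fun h e => e ▸ h
  have s1 : ∀ t x y z, N (t + x + y + z) → N (t + x) → N (t + y) → N (t + z) → d3 r t x y z = 0 := by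
    intro t x y z h1 h2 h3 h4
    have := s2 (t + x + y + z) (-x) (-y) (-z) h1 (n h4 (by abel)) (n h3 (by abel)) (n h2 (by abel))
    rw [← neg_eq_zero, ← this, d3, d3, show t + x + y + z + -x = t + y + z by abel,
      show t + x + y + z + -y = t + x + z by abel, show t + y + z + -y = t + z by abel]
    simp only [add_neg_cancel_right]
    abel
  obtain ⟨w, h⟩ := gen ![t, t + x, t + y, t + z, t + x + y, t + x + z, t + y + z, t + x + y + z]
  have h0 : N (t + w) ∧ N (t + w + w) ∧ N (t + w + w + w) := h 0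
  have h1 : N (t + x + w) ∧ N (t + x + w + w) ∧ _ := h 1
  have h2 : N (t + y + w) ∧ N (t + y + w + w) ∧ _ := h 2
  have h3 : N (t + z + w) ∧ N (t + z + w + w) ∧ _ := h 3
  have h4 : N (t + x + y + w) := (h 4).1
  have h5 : N (t + x + z + w) := (h 5).1
  have h6 : N (t + y + z + w) := (h 6).1
  rw [d3_split t x y z w, d3_split2 t w y z w, d3_split2 (t + w) _ y z w, d3_split3 t w w z w,
    d3_split3 (t + w) w _ z w, d3_split3 (t + w) _ w z w, d3_split3 (t + w + w) _ _ z w,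
    s1 t w w w h0.2.2 h0.1 h0.1 h0.1,
    s2 (t + w) w w (z - w) h0.1 h0.2.2 (n h3.1 (by abel)) (n h3.1 (by abel)),
    s2 (t + w) w (y - w) w h0.1 (n h2.1 (by abel)) h0.2.2 (n h2.1 (by abel)),
    s2 (t + w) (x - w) w w h0.1 (n h1.1 (by abel)) (n h1.1 (by abel)) h0.2.2,
    s1 (t + w + w) w (y - w) (z - w) (n h6 (by abel)) h0.2.2 (n h2.1 (by abel)) (n h3.1 (by abel)),
    s1 (t + w + w) (x - w) w (z - w) (n h5 (by abel)) (n h1.1 (by abel)) h0.2.2 (n h3.1 (by abel)),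
    s1 (t + w + w) (x - w) (y - w) w (n h4 (by abel)) (n h1.1 (by abel)) (n h2.1 (by abel)) h0.2.2,
    s2 (t + w + w + w) (x - w) (y - w) (z - w) h0.2.2 (n h4 (by abel)) (n h5 (by abel))
      (n h6 (by abel))]
  simp

lemma const_of_d3 [Module ℚ V] {Λ : AddSubgroup V} (h3 : ∀ x y z, d3 r 0 x y z = 0) (he : ∀ x, r (-x) = r x)
    (hΛ : ∀ x, ∃ N : ℕ, N ≠ 0 ∧ N • x ∈ Λ)
    (alt : ∀ (N : ℕ) x y, N • x ∈ Λ → N • y ∈ Λ →
      r (x + 2 • N • y) - r x + (r (y + 2 • N • x) - r y) = 0) (x : V) : r x = r 0 := by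
  let B : V →+ V →+ A := AddMonoidHom.mk' (fun x => AddMonoidHom.mk'
    (fun y => r (x + y) - r x - r y + r 0) fun y z => by
      have := h3 x y z
      simp only [d3, zero_add, add_assoc x] at this
      rw [← sub_eq_zero, ← this]; abel) fun x y => AddMonoidHom.ext fun z => by
      have := h3 x y z
      simp only [d3, zero_add] at this
      simp only [AddMonoidHom.mk'_apply, AddMonoidHom.add_apply]
      rw [← sub_eq_zero, ← this]; abel
  have hB : ∀ x y, B x y = r (x + y) - r x - r y + r 0 := fun _ _ => rfl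
  have hs : ∀ x y, B x y = B y x := fun x y => by rw [hB, hB, add_comm x]; abel
  have half : ∀ (n : ℕ) (x : V), n ≠ 0 → ∃ y, x = n • y := fun n x h => ⟨(n : ℚ)⁻¹ • x, by
    rw [← Nat.cast_smul_eq_nsmul ℚ, smul_inv_smul₀ (by exact_mod_cast h)]⟩
  have h0 : ∀ x y, B x y = 0 := fun x y => by
    obtain ⟨M, hM, h1⟩ := hΛ x
    obtain ⟨N, hN, h2⟩ := hΛ y
    obtain ⟨u, rfl⟩ := half (4 * (M * N)) x (by positivity)
    obtain ⟨v, rfl⟩ := half (4 * (M * N)) y (by positivity)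
    generalize hK : M * N * (4 * (M * N)) = K
    have h4 : K • u ∈ Λ := by
      convert nsmul_mem h1 N using 1; rw [← hK, smul_smul, smul_smul, mul_comm N]
    have h5 : K • v ∈ Λ := by
      convert nsmul_mem h2 M using 1; rw [← hK, smul_smul, smul_smul]
    have k : ∀ w, K • w ∈ Λ → r (2 • K • w) = r 0 := fun w h => by
      simpa [sub_eq_zero] using alt K 0 w (by simp) h
    have : B u (2 • K • v) + B v (2 • K • u) = 0 := by
      rw [hB, hB, k _ h4, k _ h5, ← alt K u v h4 h5]; abel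
    simp only [map_nsmul, AddMonoidHom.nsmul_apply, hs v, ← add_smul, smul_smul] at this ⊢
    rw [← this, ← hK]; congr 1; ring
  obtain ⟨y, rfl⟩ := half 2 x two_ne_zero
  have h1 := h0 y y
  have h2 := h0 y (-y)
  rw [hB] at h1 h2
  rw [add_neg_cancel, he] at h2
  rw [two_smul, ← sub_eq_zero, ← sub_self (0 : A)]
  nth_rw 1 [← h1, ← h2]
  abel

end

variable {g : ℕ} {τ : Matrix (Fin g) (Fin g) ℂ}

/-- normalised coordinates of the point `a` -/
def Yc (τ : Matrix (Fin g) (Fin g) ℂ) (a : I2 g → ℂ) (η : I2 g → ZMod 2) : ℂ :=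
  ee (Ef (hv η) a) * Th τ ((2 : ℂ) • a + hv η)

/-- the coordinates `θ[η](2 (τ a₁ + a₂), τ)` of the point `a` -/
def Xc (τ : Matrix (Fin g) (Fin g) ℂ) (a : I2 g → ℂ) (η : I2 g → ZMod 2) : ℂ :=
  T τ (hv η ∘ inl) ((2 : ℂ) • (τ *ᵥ (a ∘ inl) + a ∘ inr) + hv η ∘ inr)

@[simp] lemma hv_zero {ι : Type} : hv (0 : ι → ZMod 2) = 0 := by funext i; simp [hv, vz, zc]

lemma Yc_zero (a : I2 g → ℂ) : Yc τ a 0 = Th τ ((2 : ℂ) • a) := by simp [Yc]

lemma Xc_eq (h : τᵀ = τ) (a : I2 g → ℂ) : ∃ κ ≠ 0, ∀ η,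
    Xc τ a η = κ * ee (Qf (hv η) / 2) * Yc τ a η := by
  refine ⟨_, ee_ne (-(2 * (a ∘ inl) ⬝ᵥ (τ *ᵥ (a ∘ inl) + a ∘ inr))), fun η => ?_⟩
  rw [Yc, Th, Pi.add_comp, add_comm _ (hv η ∘ inl), T_shift h, Xc]
  simp only [← mul_assoc, ← ee_add, Pi.add_comp, Pi.smul_comp, mulVec_smul, smul_add, Qf, Ef]
  rw [add_right_comm ((2 : ℂ) • a ∘ inr), add_comm ((2 : ℂ) • a ∘ inr) ((2 : ℂ) • _), eq_comm]
  convert one_mul _ using 2
  rw [← ee_zero]; congr 1
  simp only [add_dotProduct, dotProduct_add, smul_dotProduct, dotProduct_smul, smul_eq_mul,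
    dotProduct_comm (hv η ∘ inr)]
  ring

lemma two_hv {ι : Type} (η : ι → ZMod 2) : (2 : ℂ) • hv η = zc (vz η) := by
  rw [hv, smul_smul]; norm_num

lemma Yc_int (a : I2 g → ℂ) (m : I2 g → ℤ) (η : I2 g → ZMod 2) :
    Yc τ (a + zc m) η = ee (2 * Ef a (zc m)) * Yc τ a η := by
  rw [Yc, Yc, show (2 : ℂ) • (a + zc m) + hv η = (2 : ℂ) • a + hv η + zc (m + m) by
    rw [zc_add]; module, Th_int]
  simp only [← mul_assoc, ← ee_add]
  congr 1
  refine ee_congr (Ef (vz η) m + 2 * Qf m) ?_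
  have : Qf (zc m + zc m) = 4 * Qf (zc m) := by
    simp only [Qf, Pi.add_comp, add_dotProduct, dotProduct_add]; ring
  rw [zc_add, this]
  push_cast
  simp only [← Ef_zc, ← Qf_zc, ← two_hv, Ef_add_left, Ef_add_right, Ef_smul_left]
  ring

lemma Yc_neg (a : I2 g → ℂ) (η : I2 g → ZMod 2) :
    Yc τ (-a) η = ee (2 * Qf (hv η)) * Yc τ a η := by
  rw [Yc, Yc, ← Th_neg, show -((2 : ℂ) • -a + hv η) = (2 : ℂ) • a + hv η + zc (-vz η) by
    rw [zc_neg, ← two_hv]; module, Th_int]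
  simp only [← mul_assoc, ← ee_add]
  congr 2
  have : Qf (-((2 : ℂ) • hv η)) = 4 * Qf (hv η) := by
    simp only [Qf, Pi.neg_comp, Pi.smul_comp, neg_dotProduct, dotProduct_neg, smul_dotProduct,
      dotProduct_smul, smul_eq_mul]; ring
  simp only [zc_neg, ← two_hv, this, Ef_add_left, Ef_neg_right, Ef_smul_left, Ef_smul_right, Ef_self,
    Ef_swap a]
  ring

lemma Sieg.Yc_ne (h : Sieg τ) (a : I2 g → ℂ) : ∃ η, Yc τ a η ≠ 0 :=
  let ⟨η, hη⟩ := h.exists_ne ((2 : ℂ) • a)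
  ⟨η, mul_ne_zero (ee_ne _) hη⟩

theorem Sieg.riemannY (h : Sieg τ) (a b c d : I2 g → ℂ) :
    2 ^ g * (Th τ (a + b + c + d) * Th τ (a + b - c - d) * Th τ (a - b + c - d) *
      Th τ (a - b - c + d)) =
    ∑ η, ee (2 * Qf (hv η)) * (Yc τ a η * Yc τ b η * Yc τ c η * Yc τ d η) := by
  rw [h.riemann']
  refine Finset.sum_congr rfl fun η _ => ?_
  rw [show (1 / 2 : ℂ) • (a + b + c + d + (a + b - c - d) + (a - b + c - d) + (a - b - c + d)) =
      (2 : ℂ) • a by module,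
    show (1 / 2 : ℂ) • (a + b + c + d + (a + b - c - d) - (a - b + c - d) - (a - b - c + d)) =
      (2 : ℂ) • b by module,
    show (1 / 2 : ℂ) • (a + b + c + d - (a + b - c - d) + (a - b + c - d) - (a - b - c + d)) =
      (2 : ℂ) • c by module,
    show (1 / 2 : ℂ) • (a + b + c + d - (a + b - c - d) - (a - b + c - d) + (a - b - c + d)) =
      (2 : ℂ) • d by module]
  simp only [Yc, Ef_add_right, ee_add]
  ring

lemma ee_sign (η : I2 g → ZMod 2) : ∃ k : ℤ, ee (2 * Qf (hv η)) = (-1) ^ k := by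
  refine ⟨Qf (vz η), ?_⟩
  rw [← ee_half, ee, ee, ← exp_int_mul, ← Qf_zc, ← two_hv]
  simp only [Qf, Pi.smul_comp, smul_dotProduct, dotProduct_smul, smul_eq_mul]
  congr 1; ring

/-- the action of an integral matrix on rational vectors -/
def ga {ι : Type} [Fintype ι] (γ : Matrix ι ι ℤ) (x : ι → ℚ) : ι → ℂ := γ.map (↑) *ᵥ qc x

lemma qc_add {ι : Type} (x y : ι → ℚ) : qc (x + y) = qc x + qc y := by funext i; simp [qc]
lemma qc_sub {ι : Type} (x y : ι → ℚ) : qc (x - y) = qc x - qc y := by funext i; simp [qc]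
lemma qc_neg {ι : Type} (x : ι → ℚ) : qc (-x) = -qc x := by funext i; simp [qc]
lemma qc_smul {ι : Type} (c : ℚ) (x : ι → ℚ) : qc (c • x) = (c : ℂ) • qc x := by funext i; simp [qc]

lemma exists_den {ι : Type} [Finite ι] (x : ι → ℚ) :
    ∃ N : ℕ, N ≠ 0 ∧ ∃ m : ι → ℤ, (fun i => (m i : ℚ)) = N • x := by
  have := Fintype.ofFinite ι
  refine ⟨∏ i, (x i).den, Finset.prod_ne_zero_iff.2 fun i _ => (x i).den_nz, ?_⟩
  have : ∀ i, ∃ m : ℤ, (m : ℚ) = (∏ i, (x i).den) • x i := fun i => by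
    obtain ⟨k, hk⟩ := Finset.dvd_prod_of_mem (fun i => (x i).den) (Finset.mem_univ i)
    exact ⟨k * (x i).num, by
      rw [hk, Int.cast_mul, ← Rat.mul_den_eq_num, nsmul_eq_mul, Nat.cast_mul, Int.cast_natCast]; ring⟩
  choose m hm using this
  exact ⟨m, funext hm⟩

lemma zc_mulVec {ι : Type} [Fintype ι] (γ : Matrix ι ι ℤ) (m : ι → ℤ) :
    zc (γ *ᵥ m) = γ.map (↑) *ᵥ zc m := by funext i; simp [zc, mulVec, dotProduct]

/-- filters of integral matrices that converge modulo every integer -/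
def Conv {ι : Type} (F : Filter (Matrix ι ι ℤ)) : Prop :=
  ∀ M : ℕ, M ≠ 0 → ∃ γ₀ : Matrix ι ι ℤ, ∀ᶠ γ in F, ∃ δ, γ = γ₀ + M • δ

lemma qc_int {ι : Type} (m : ι → ℤ) : qc (fun i => (m i : ℚ)) = zc m := by funext i; simp [qc, zc]

lemma qc_nsmul {ι : Type} (c : ℕ) (x : ι → ℚ) : qc (c • x) = (c : ℂ) • qc x := by
  funext i; simp [qc]

lemma ga_add {ι : Type} [Fintype ι] (γ : Matrix ι ι ℤ) (x y : ι → ℚ) :
    ga γ (x + y) = ga γ x + ga γ y := by rw [ga, qc_add, mulVec_add, ga, ga]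

lemma ga_smul {ι : Type} [Fintype ι] (γ : Matrix ι ι ℤ) (c : ℚ) (x : ι → ℚ) :
    ga γ (c • x) = (c : ℂ) • ga γ x := by rw [ga, qc_smul, mulVec_smul, ga]

lemma ga_neg {ι : Type} [Fintype ι] (γ : Matrix ι ι ℤ) (x : ι → ℚ) : ga γ (-x) = -ga γ x := by
  rw [ga, qc_neg, mulVec_neg, ga]

lemma ga_sub {ι : Type} [Fintype ι] (γ : Matrix ι ι ℤ) (x y : ι → ℚ) :
    ga γ (x - y) = ga γ x - ga γ y := by rw [ga, qc_sub, mulVec_sub, ga, ga]

lemma ga_int {ι : Type} [Fintype ι] (γ : Matrix ι ι ℤ) (m : ι → ℤ) :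
    ga γ (fun i => (m i : ℚ)) = zc (γ *ᵥ m) := by rw [ga, qc_int, zc_mulVec]

lemma Conv.Yc {F : Filter (Matrix (I2 g) (I2 g) ℤ)} (hF : Conv F) (a : I2 g → ℚ) :
    ∃ y, ∀ᶠ γ in F, Yc τ (ga γ a) = y := by
  obtain ⟨N, hN, m, hm⟩ := exists_den a
  obtain ⟨γ₀, h⟩ := hF (N * N) (by positivity)
  have h1 : ∀ γ : Matrix (I2 g) (I2 g) ℤ, zc (γ *ᵥ m) = (N : ℂ) • ga γ a := fun γ => by
    rw [← ga_int, hm, ← Nat.cast_smul_eq_nsmul ℚ, ga_smul, Rat.cast_natCast]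
  refine ⟨MT.Yc τ (ga γ₀ a), h.mono ?_⟩
  rintro _ ⟨δ, rfl⟩
  have h2 : zc (N • δ *ᵥ m) = (N : ℂ) • zc (δ *ᵥ m) := by funext i; simp [zc]
  have : ga (γ₀ + (N * N) • δ) a = ga γ₀ a + zc (N • δ *ᵥ m) := by
    rw [h2, h1, smul_smul, ga, ga, ga, ← smul_mulVec, ← add_mulVec]
    congr 1; ext i j; simp [-nsmul_eq_mul, Matrix.smul_apply]
  funext η
  rw [this, Yc_int, ee_congr (y := 0) (2 * Ef (γ₀ *ᵥ m) (δ *ᵥ m)), ee_zero, one_mul]
  rw [h2, Ef_smul_right, ← Ef_smul_left, ← h1, Ef_zc]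
  simp

theorem Sieg.galoisY (h : Sieg τ) (σ : ℂ →+* ℂ) {F : Filter (Matrix (I2 g) (I2 g) ℤ)} [F.NeBot]
    (hF : Conv F) (H : ∀ a, ∀ᶠ γ in F, ∃ c, ∀ η, σ (Yc τ (qc a) η) = c * Yc τ (ga γ a) η) :
    (∃ c ≠ 0, ∀ a, ∀ᶠ γ in F, ∀ η, σ (Yc τ (qc a) η) = c * Yc τ (ga γ a) η) ∧
      ∀ x y, ∀ᶠ γ in F, σ (ee (Ef (qc x) (qc y))) = ee (Ef (ga γ x) (ga γ y)) := by
  have h1 : ∀ a, ∃ c : ℂˣ, ∀ᶠ γ in F, ∀ η, σ (Yc τ (qc a) η) = c * Yc τ (ga γ a) η := fun a => by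
    obtain ⟨y, hy⟩ := hF.Yc (τ := τ) a
    obtain ⟨γ, ⟨c, h1⟩, h2⟩ := ((H a).and hy).exists
    obtain ⟨η, hη⟩ := h.Yc_ne (qc a)
    exact ⟨Units.mk0 c fun e => hη (by simpa [e] using h1 η), hy.mono fun γ' e η => by
      rw [Units.val_mk0, h1, h2, e]⟩
  choose l hl using h1
  have hs : ∀ η : I2 g → ZMod 2, σ (ee (2 * Qf (hv η))) = ee (2 * Qf (hv η)) := fun η => by
    obtain ⟨k, hk⟩ := ee_sign η
    simp [hk]
  have key : ∀ {a b : I2 g → ℚ} {γ} {u v : (I2 g → ZMod 2) → ℂ},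
      (∀ η, σ (Yc τ (qc a) η) = l a * Yc τ (ga γ a) η) →
      (∀ η, σ (Yc τ (qc b) η) = l b * Yc τ (ga γ b) η) → (∀ η, Yc τ (qc b) η = u η * Yc τ (qc a) η) →
      (∀ η, Yc τ (ga γ b) η = v η * Yc τ (ga γ a) η) → ∃ η, σ (u η) * l a = l b * v η := by
    intro a b γ u v h1 h2 h3 h4
    obtain ⟨η, hη⟩ := h.Yc_ne (ga γ a)
    refine ⟨η, mul_right_cancel₀ hη ?_⟩
    rw [mul_assoc, mul_assoc, ← h4, ← h2, h3, map_mul, h1]
  have sh : ∀ a (m : I2 g → ℤ), ∀ᶠ γ in F, σ (ee (2 * Ef (qc a) (zc m))) * l a =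
      l (a + fun i => (m i : ℚ)) * ee (2 * Ef (ga γ a) (zc (γ *ᵥ m))) := fun a m => by
    filter_upwards [hl a, hl (a + fun i => (m i : ℚ))] with γ h1 h2
    exact (key h1 h2 (fun η => by rw [qc_add, qc_int, Yc_int])
      fun η => by rw [ga_add, ga_int, Yc_int]).choose_spec
  have he : ∀ a, l (-a) = l a := fun a => by
    obtain ⟨γ, h1, h2⟩ := ((hl a).and (hl (-a))).exists
    obtain ⟨η, h3⟩ := key h1 h2 (fun η => by rw [qc_neg, Yc_neg]) fun η => by rw [ga_neg, Yc_neg]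
    rw [hs, mul_comm] at h3
    exact Units.ext (mul_right_cancel₀ (ee_ne _) h3).symm
  let Λ : AddSubgroup (I2 g → ℚ) := ((Int.castAddHom ℚ).compLeft _).range
  have hc : ∀ a, l a = l 0 := const_of_d3 (r := fun a => Additive.ofMul (l a)) (Λ := Λ)
    (d3_zero (N := fun a => Yc τ (qc a) 0 ≠ 0) (fun c => ?_) (fun t x y z h1 h2 h3 h4 => ?_) 0)
    (fun a => congrArg _ (he a)) exists_den fun N x y ⟨m, hm⟩ ⟨n, hn⟩ => ?_
  · refine ⟨⟨l 0, (l 0).ne_zero, fun a => hc a ▸ hl a⟩, fun x y => ?_⟩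
    obtain ⟨N, hN, m, hm⟩ := exists_den y
    filter_upwards [sh ((2 * N : ℚ)⁻¹ • x) m] with γ e
    rw [hc, hc (_ + _), mul_comm (l 0 : ℂ), ← ga_int, ← qc_int, hm, ← Nat.cast_smul_eq_nsmul ℚ] at e
    have : (N : ℂ) ≠ 0 := by exact_mod_cast hN
    have k : ∀ s : ℂ, 2 * ((N : ℚ) * (((2 * N : ℚ)⁻¹ : ℚ) * s)) = s := fun s => by
      push_cast; field_simp
    simpa only [qc_smul, ga_smul, Ef_smul_left, Ef_smul_right, k] using
      mul_right_cancel₀ (l 0).ne_zero e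
  · obtain ⟨q, hq⟩ := h.generic (ι := Fin 8 × Fin 3) (fun i => (2 : ℂ) • qc (c i.1))
      (fun i => 2 * (i.2 + 1)) fun i => by norm_cast
    refine ⟨q, fun i => ⟨?_, ?_, ?_⟩⟩ <;> simp only [Yc_zero, qc_add]
    · convert hq (i, 0) using 2; simp
    · convert hq (i, 1) using 2; simp; module
    · convert hq (i, 2) using 2; simp; module
  · obtain ⟨γ, ⟨⟨k1, k2⟩, k3, k4⟩, ⟨k5, k6⟩, k7, k8⟩ := ((((hl (t + x + y + z)).and (hl (-(t + x)))).and
      ((hl (-(t + y))).and (hl (-(t + z))))).and (((hl (-t)).and (hl (t + y + z))).and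
      ((hl (t + x + z)).and (hl (t + x + y))))).exists
    have R : ∀ t x y z : I2 g → ℂ, 2 ^ g * (Yc τ (-t) 0 * Yc τ (t + y + z) 0 * Yc τ (t + x + z) 0 *
        Yc τ (t + x + y) 0) = ∑ η, ee (2 * Qf (hv η)) * (Yc τ (t + x + y + z) η * Yc τ (-(t + x)) η *
          Yc τ (-(t + y)) η * Yc τ (-(t + z)) η) := fun t x y z => by
      rw [← h.riemannY]
      simp only [Yc_zero]
      congr 5 <;> module
    have e := congrArg σ (R (qc t) (qc x) (qc y) (qc z))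
    have e' := R (ga γ t) (ga γ x) (ga γ y) (ga γ z)
    simp only [← qc_add, ← qc_neg, ← ga_add, ← ga_neg] at e e'
    have n : σ (2 ^ g * (Yc τ (qc (-t)) 0 * Yc τ (qc (t + y + z)) 0 * Yc τ (qc (t + x + z)) 0 *
        Yc τ (qc (t + x + y)) 0)) ≠ 0 := by
      rw [qc_neg, Yc_neg]; simp [h1, h2, h3, h4, ee_ne]
    simp only [map_mul, map_sum, map_pow, map_ofNat, hs, k1, k2, k3, k4, k5, k6, k7, k8, he] at e n
    have : l (t + x + y + z) * l (t + x) * l (t + y) * l (t + z) =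
        l (t + x + y) * l (t + x + z) * l (t + y + z) * l t := by
      refine Units.ext (mul_right_cancel₀ (b := 2 ^ g * (Yc τ (ga γ (-t)) 0 * Yc τ (ga γ (t + y + z)) 0 *
        Yc τ (ga γ (t + x + z)) 0 * Yc τ (ga γ (t + x + y)) 0)) (by simp at n ⊢; tauto) ?_)
      push_cast
      conv_lhs => rw [e', Finset.mul_sum]
      exact ((Finset.sum_congr rfl fun _ _ => by ring).trans e.symm).trans (by ring)
    have := congrArg Additive.ofMul this
    simp only [ofMul_mul] at this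
    simp only [d3, this]
    abel
  · obtain ⟨γ, h1, h2⟩ := ((sh x (n + n)).and (sh y (m + m))).exists
    have e : ∀ {m : I2 g → ℤ} {x : I2 g → ℚ}, (Int.castAddHom ℚ).compLeft _ m = N • x →
        (fun i => ((m + m) i : ℚ)) = 2 • N • x := fun h => by
      rw [← h]; funext i; simp [two_mul]
    rw [← ga_int, ← qc_int, e hn] at h1
    rw [← ga_int, ← qc_int, e hm] at h2
    have : l (x + 2 • N • y) * l (y + 2 • N • x) = l x * l y := by
      refine Units.ext ?_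
      simp only [← Nat.cast_smul_eq_nsmul ℚ, qc_smul, ga_smul, Ef_smul_right] at h1 h2 ⊢
      rw [Ef_swap (qc y), Ef_swap (ga γ y)] at h2
      simp only [mul_neg] at h2
      have h3 := congrArg σ (ee_neg_mul (2 * (((2 : ℕ) : ℚ) * ((N : ℚ) * Ef (qc x) (qc y)))))
      have h4 := ee_neg_mul (2 * (((2 : ℕ) : ℚ) * ((N : ℚ) * Ef (ga γ x) (ga γ y))))
      rw [map_mul, map_one] at h3
      push_cast
      have h5 := congrArg₂ (· * ·) h1 h2
      rw [mul_mul_mul_comm, mul_comm (σ _), h3, mul_mul_mul_comm _ (ee _), mul_comm (ee _), h4] at h5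
      simpa using h5.symm
    have := congrArg Additive.ofMul this
    simp only [ofMul_mul] at this
    rw [← sub_self (Additive.ofMul (l x) + _), ← this]
    nth_rw 2 [this]
    abel

lemma ee_eighth {σ : ℂ →+* ℂ} (h8 : σ (ee (1 / 8)) = ee (1 / 8)) (η : I2 g → ZMod 2) :
    σ (ee (Qf (hv η) / 2)) = ee (Qf (hv η) / 2) := by
  have : ee (Qf (hv η) / 2) = ee (1 / 8) ^ Qf (vz η) := by
    rw [ee, ee, ← exp_int_mul, ← Qf_zc, ← two_hv]
    simp only [Qf, Pi.smul_comp, smul_dotProduct, dotProduct_smul, smul_eq_mul]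
    congr 1; ring
  rw [this, map_zpow₀, h8]

/-- an automorphism that acts on the torsion points acts on the theta function and respects the
pairing of Weil -/
theorem Sieg.galois (h : Sieg τ) (σ : ℂ →+* ℂ) (h8 : σ (ee (1 / 8)) = ee (1 / 8))
    {F : Filter (Matrix (I2 g) (I2 g) ℤ)} [F.NeBot] (hF : Conv F)
    (H : ∀ a, ∀ᶠ γ in F, ∃ c, ∀ η, σ (Xc τ (qc a) η) = c * Xc τ (ga γ a) η) :
    (∃ c ≠ 0, ∀ x, ∀ᶠ γ in F, σ (Th τ (qc x)) = c * Th τ (ga γ x)) ∧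
      ∀ x y, ∀ᶠ γ in F, σ (ee (Ef (qc x) (qc y))) = ee (Ef (ga γ x) (ga γ y)) := by
  obtain ⟨⟨c, h0, hc⟩, h2⟩ := h.galoisY σ hF fun a => (H a).mono fun γ ⟨c, hc⟩ => by
    obtain ⟨κ, k0, hκ⟩ := Xc_eq h.symm (qc a)
    obtain ⟨κ', -, hκ'⟩ := Xc_eq h.symm (ga γ a)
    refine ⟨c * κ' / σ κ, fun η => mul_left_cancel₀ (mul_ne_zero ((map_ne_zero σ).2 k0)
      (ee_ne (Qf (hv η) / 2))) ?_⟩
    have := (map_ne_zero σ).2 k0
    have e := hc η
    rw [hκ, hκ', map_mul, map_mul, ee_eighth h8] at e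
    rw [e]; field_simp
  refine ⟨⟨c, h0, fun x => (hc ((1 / 2 : ℚ) • x)).mono fun γ e => ?_⟩, h2⟩
  simpa [Yc_zero, qc_smul, ga_smul, smul_smul] using e 0

end Pool.Agent.MT
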