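import Pool.Agent.Lib.MP_d61fbb_ag.MT.H2
import Pool.Agent.Lib.MP_d61fbb_ag.MT.A5

/-! The Galois action on the theta function of the adelic space. -/

noncomputable section

namespace Pool.Agent.MT

open Matrix Complex Filter

variable {g : ℕ} {τ : Matrix (Fin g) (Fin g) ℂ} {α : Type} [Fintype α]

/-- functions of two adelic vectors that are locally constant -/
def LC2 (f : (α → AF) → (α → AF) → ℂ) : Prop := ∀ x y, ∃ N : ℕ, N ≠ 0 ∧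
  ∀ m ∈ Lam α, ∀ n ∈ Lam α, f (x + N • m) (y + N • n) = f x y

lemma lam_mulVec {ρ : Matrix α α AF} (hρ : ∀ i j, ρ i j ∈ Zh) {m : α → AF} (hm : m ∈ Lam α) :
    ρ *ᵥ m ∈ Lam α :=
  mem_Lam.2 fun i => Zh.sum_mem fun j _ => Zh.mul_mem (hρ i j) (mem_Lam.1 hm j)

/-- a sequence of integral matrices that converges to `ρ` -/
def Apx (ρ : Matrix α α AF) (γ : ℕ → Matrix α α ℤ) : Prop := ∀ M : ℕ, M ≠ 0 → ∀ᶠ n in atTop,
  ∃ δ : Matrix α α AF, (∀ i j, δ i j ∈ Zh) ∧ ρ = (γ n).map (↑) + M • δ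

omit [Fintype α] in
lemma exists_apx {ρ : Matrix α α AF} (hρ : ∀ i j, ρ i j ∈ Zh) : ∃ γ, Apx ρ γ := by
  choose γ δ h1 h2 using fun (n : ℕ) i j => Zh_div (hρ i j) _ n.factorial_ne_zero
  refine ⟨fun n => of (γ n), fun M hM => (eventually_ge_atTop M).mono fun n hn => ?_⟩
  obtain ⟨k, hk⟩ := Nat.dvd_factorial (Nat.pos_of_ne_zero hM) hn
  refine ⟨k • of (δ n), fun i j => nsmul_mem (h1 n i j) k, ?_⟩
  ext1 i j
  rw [h2 n i j, hk]; simp [-nsmul_eq_mul, ← nsmul_eq_mul]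

omit [Fintype α] in
lemma Apx.conv {ρ : Matrix α α AF} {γ : ℕ → Matrix α α ℤ} (h : Apx ρ γ) :
    Conv (map γ atTop) := fun M hM => by
  obtain ⟨n, δ, h1, h2⟩ := (h M hM).exists
  refine ⟨γ n, eventually_map.2 ((h M hM).mono fun k ⟨δ', h3, h4⟩ => ?_)⟩
  have h0 : (M : ℚ) ≠ 0 := by exact_mod_cast hM
  have : ∀ i j, ∃ z : ℤ, γ k i j = γ n i j + M • z := fun i j => by
    have e := congrFun (congrFun (h2.symm.trans h4) i) j
    simp only [Matrix.add_apply, map_apply, Matrix.smul_apply, nsmul_eq_mul] at e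
    have e1 : (M : AF) * qa (M : ℚ)⁻¹ = 1 := by
      rw [← map_natCast (algebraMap ℚ AF), ← map_mul, mul_inv_cancel₀ h0, map_one]
    obtain ⟨z, hz⟩ := (qa_mem_Zh (q := (γ k i j - γ n i j) * (M : ℚ)⁻¹)).1 (by
      convert Zh.sub_mem (h1 i j) (h3 i j) using 1
      rw [qa, map_mul, map_sub, map_intCast, map_intCast]
      linear_combination -qa (M : ℚ)⁻¹ * e + (δ i j - δ' i j) * e1)
    refine ⟨z, ?_⟩
    rw [mul_inv_eq_iff_eq_mul₀ h0, sub_eq_iff_eq_add', mul_comm] at hz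
    rw [nsmul_eq_mul]
    exact_mod_cast hz
  choose z hz using this
  exact ⟨of z, Matrix.ext hz⟩

lemma qv'_mulVec (γ : Matrix α α ℤ) (a : α → ℚ) :
    qv' (γ.map (↑) *ᵥ a) = γ.map (↑) *ᵥ qv' a := by
  funext i; simp [qv', mulVec, dotProduct]

lemma ga_eq (γ : Matrix α α ℤ) (a : α → ℚ) : ga γ a = qc (γ.map (↑) *ᵥ a) := by
  funext i; simp [ga, qc, mulVec, dotProduct]

lemma Apx.vec {ρ : Matrix α α AF} {γ : ℕ → Matrix α α ℤ} (h : Apx ρ γ) (a : α → ℚ) {N : ℕ}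
    (hN : N ≠ 0) : ∀ᶠ n in atTop, ∃ m ∈ Lam α, ρ *ᵥ qv' a = qv' ((γ n).map (↑) *ᵥ a) + N • m := by
  obtain ⟨D, hD, h1⟩ := vec_den (qv' a)
  refine (h _ (mul_ne_zero hN hD)).mono fun n ⟨δ, h2, h3⟩ => ⟨_, lam_mulVec h2 h1, ?_⟩
  rw [h3, add_mulVec, qv'_mulVec, mulVec_smul, smul_mulVec, mul_smul]

lemma Apx.ext {ρ : Matrix α α AF} (hρ : ∀ i j, ρ i j ∈ Zh) {γ : ℕ → Matrix α α ℤ} (h : Apx ρ γ)
    {f k : (α → AF) → (α → AF) → ℂ} (hf : LC2 f) (hk : LC2 k) (H : ∀ a b : α → ℚ, ∀ᶠ n in atTop,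
      f (qv' a) (qv' b) = k (qv' ((γ n).map (↑) *ᵥ a)) (qv' ((γ n).map (↑) *ᵥ b))) (x y : α → AF) :
    f x y = k (ρ *ᵥ x) (ρ *ᵥ y) := by
  obtain ⟨M, hM, h1⟩ := hf x y
  obtain ⟨N, hN, h2⟩ := hk (ρ *ᵥ x) (ρ *ᵥ y)
  obtain ⟨a, m, hm, ha⟩ := vec_approx x (mul_ne_zero hM hN)
  obtain ⟨b, n, hn, hb⟩ := vec_approx y (mul_ne_zero hM hN)
  obtain ⟨t, h3, ⟨m', hm', h4⟩, n', hn', h5⟩ := ((H a b).and ((h.vec a hN).and (h.vec b hN))).exists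
  rw [← h1 _ (neg_mem (nsmul_mem hm N)) _ (neg_mem (nsmul_mem hn N)),
    ← h2 _ (neg_mem (add_mem hm' (nsmul_mem (lam_mulVec hρ hm) M))) _
      (neg_mem (add_mem hn' (nsmul_mem (lam_mulVec hρ hn) M)))]
  convert h3 using 1 <;> congr 1
  · rw [ha]; module
  · rw [hb]; module
  · rw [ha, mulVec_add, h4, mulVec_smul]; module
  · rw [hb, mulVec_add, h5, mulVec_smul]; module

lemma lc2_psi {ι : Type} [Fintype ι] : LC2 fun x y : VV ι => psi (Ef x y) := fun x y => by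
  obtain ⟨M, hM, h1⟩ := vec_den x
  obtain ⟨N, hN, h2⟩ := vec_den y
  refine ⟨M * N, mul_ne_zero hM hN, fun m hm n hn => psi_congr ?_⟩
  convert Zh.add_mem (Zh.add_mem (Ef_mem h1 (nsmul_mem hn N)) (Ef_mem (nsmul_mem hm M) h2))
    (Ef_mem (nsmul_mem hm (M * N)) (nsmul_mem hn (M * N))) using 1
  simp only [← Nat.cast_smul_eq_nsmul AF, Ef_smul_left, Ef_smul_right, Ef_add_left, Ef_add_right]
  push_cast; ring

lemma Smooth.lc2 {ι : Type} [Fintype ι] {f : VV ι → ℂ} (hf : Smooth 1 f) :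
    LC2 fun x _ : VV ι => f x := fun x _ => by
  obtain ⟨M, hM, h1⟩ := vec_den x
  obtain ⟨N, hN, h2⟩ := hf
  refine ⟨N * (2 * M), by positivity, fun m hm _ _ => ?_⟩
  have := congrFun (h2 _ (nsmul_mem hm (2 * M))) x
  rw [UU_apply, ← mul_smul, eps, psi_eq_one_iff.2, one_mul] at this
  · exact this
  · convert Ef_mem (nsmul_mem hm N) h1 using 1
    rw [← half_two (Ef (N • m) _)]
    simp only [← Nat.cast_smul_eq_nsmul AF, Ef_smul_left, Ef_smul_right]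
    congr 1; push_cast; ring

lemma UU_hq (η : I2 g → ZMod 2) (a : I2 g → ℚ) :
    UU 1 (qv' (hq η)) (Theta τ) (qv' a) = Yc τ (qc ((1 / 2 : ℚ) • a)) η := by
  rw [UU_apply, ← qv'_add, Theta_qv, eps_qv, Yc, qc_add, qc_hq, qc_smul, Ef_smul_right, smul_smul]
  norm_num

/-- the Galois action on the adelic theta function -/
theorem Sieg.galoisA (h : Sieg τ) (σ : ℂ →+* ℂ) (h8 : σ (ee (1 / 8)) = ee (1 / 8))
    {ρ : Matrix (I2 g) (I2 g) AF} (hρ : ∀ i j, ρ i j ∈ Zh)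
    (H : ∀ a b : I2 g → ℚ, ρ *ᵥ qv' a - qv' b ∈ Lam _ →
      ∃ c, ∀ η, σ (Xc τ (qc a) η) = c * Xc τ (qc b) η) :
    (∃ c ≠ 0, ∀ η x, σ (UU 1 (qv' (hq η)) (Theta τ) x) =
      c * UU 1 (qv' (hq η)) (Theta τ) (ρ *ᵥ x)) ∧
    ∀ x y, σ (psi (Ef x y)) = psi (Ef (ρ *ᵥ x) (ρ *ᵥ y)) := by
  obtain ⟨γ, hγ⟩ := exists_apx hρ
  obtain ⟨⟨c, h0, hc⟩, h2⟩ := h.galoisY σ hγ.conv fun a => eventually_map.2
    ((hγ.vec a one_ne_zero).mono fun n ⟨m, hm, e⟩ => by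
      obtain ⟨c, hc⟩ := H a ((γ n).map (↑) *ᵥ a) (by simpa [e] using hm)
      obtain ⟨κ, k0, hκ⟩ := Xc_eq h.symm (qc a)
      obtain ⟨κ', -, hκ'⟩ := Xc_eq h.symm (ga (γ n) a)
      refine ⟨c * κ' / σ κ, fun η => mul_left_cancel₀ (mul_ne_zero ((map_ne_zero σ).2 k0)
        (ee_ne (Qf (hv η) / 2))) ?_⟩
      have := (map_ne_zero σ).2 k0
      have e := hc η
      rw [← ga_eq, hκ, hκ', map_mul, map_mul, ee_eighth h8] at e
      rw [e]; field_simp)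
  refine ⟨⟨c, h0, fun η x => ?_⟩, hγ.ext hρ (fun x y => (lc2_psi x y).imp fun N e =>
    ⟨e.1, fun m hm n hn => congrArg σ (e.2 m hm n hn)⟩) lc2_psi fun a b => ?_⟩
  · have hs := (HH_UU (Theta_mem h) (qv' (hq η))).1.lc2
    refine hγ.ext hρ (f := fun x _ => σ (UU 1 _ _ x)) (k := fun x _ => c * UU 1 _ _ x)
      (fun x y => (hs x y).imp fun N e => ⟨e.1, fun m hm n hn => congrArg σ (e.2 m hm n hn)⟩)
      (fun x y => (hs x y).imp fun N e => ⟨e.1, fun m hm n hn => congrArg (c * ·) (e.2 m hm n hn)⟩)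
      (fun a _ => (eventually_map.1 (hc ((1 / 2 : ℚ) • a))).mono fun n e => ?_) x 0
    rw [UU_hq, UU_hq, e, ga_eq, mulVec_smul]
  · refine (eventually_map.1 (h2 a b)).mono fun n e => ?_
    have k : ∀ x y : I2 g → ℚ, psi (Ef (qv' x) (qv' y)) = ee (Ef (qc x) (qc y)) := fun x y => by
      rw [Ef_qv, psi_qa]; exact congrArg ee (Ef_map x y (Rat.castHom ℂ))
    rw [k, k, e, ga_eq, ga_eq]

end Pool.Agent.MT
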