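import Mathlib

/-! The lemma of Siegel with rational integer unknowns and conditions in varying number fields. -/

namespace Pool.Agent.MT

open Finset NumberField

/-- pigeonhole: small values of real linear forms at a small integer point -/
theorem pigeon_real {ι T : Type*} [Fintype ι] [Nonempty ι] [Fintype T] (c : T → ι → ℝ)
    (hc : ∀ t i, |c t i| ≤ 1) (M : ℕ) (hM : 1 ≤ M) (hN : 2 * Fintype.card T ≤ Fintype.card ι) :
    ∃ x : ι → ℤ, x ≠ 0 ∧ (∀ i, |x i| ≤ (2 * M * Fintype.card ι : ℕ)) ∧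
      ∀ t, |∑ i, (x i : ℝ) * c t i| < 1 / M := by
  classical
  set N := Fintype.card ι with hNdef
  have hN1 : 1 ≤ N := Fintype.card_pos
  set B : ℕ := 2 * M * N with hB
  have hB1 : 1 ≤ B := by rw [hB]; nlinarith
  set R : ℕ := M * N * B with hR
  let S : Finset (ι → ℤ) := Fintype.piFinset fun _ => Finset.Icc (0 : ℤ) B
  let U : Finset (T → ℤ) := Fintype.piFinset fun _ => Finset.Icc (-(R : ℤ)) R
  let f : (ι → ℤ) → (T → ℤ) := fun x t => ⌊(M : ℝ) * ∑ i, (x i : ℝ) * c t i⌋
  have hS : S.card = (B + 1) ^ N := by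
    simp [S, Fintype.card_piFinset, hNdef]
  have hU : U.card = (2 * R + 1) ^ Fintype.card T := by
    simp only [U, Fintype.card_piFinset, Int.card_Icc, prod_const, card_univ]
    congr 1
    omega
  have hlt : U.card < S.card := by
    rw [hS, hU]
    have h2 : 2 * R + 1 < (B + 1) ^ 2 := by
      have : 2 * R = B * B := by rw [hR, hB]; ring
      rw [this]; nlinarith
    rcases Nat.eq_zero_or_pos (Fintype.card T) with h0 | h0
    · rw [h0, pow_zero]
      exact Nat.one_lt_pow (by omega) (by omega)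
    · calc (2 * R + 1) ^ Fintype.card T < ((B + 1) ^ 2) ^ Fintype.card T :=
            Nat.pow_lt_pow_left h2 (by omega)
        _ = (B + 1) ^ (2 * Fintype.card T) := by rw [← pow_mul]
        _ ≤ (B + 1) ^ N := Nat.pow_le_pow_right (by omega) hN
  have hmaps : Set.MapsTo f S U := by
    intro x hx
    simp only [S, Fintype.coe_piFinset, Set.mem_pi, Set.mem_univ, coe_Icc, Set.mem_Icc,
      forall_const] at hx
    simp only [U, Fintype.coe_piFinset, Set.mem_pi, Set.mem_univ, coe_Icc, Set.mem_Icc,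
      forall_const]
    intro t
    have hb : |∑ i, (x i : ℝ) * c t i| ≤ N * B := by
      calc |∑ i, (x i : ℝ) * c t i| ≤ ∑ i, |(x i : ℝ) * c t i| := abs_sum_le_sum_abs _ _
        _ ≤ ∑ _i : ι, (B : ℝ) := by
          refine sum_le_sum fun i _ => ?_
          rw [abs_mul]
          have h1 : |(x i : ℝ)| ≤ B := by
            rw [abs_le]
            have h3 : (0 : ℝ) ≤ x i := by exact_mod_cast (hx i).1
            have h4 : (x i : ℝ) ≤ B := by exact_mod_cast (hx i).2
            constructor <;> linarith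
          calc |(x i : ℝ)| * |c t i| ≤ B * 1 :=
                mul_le_mul h1 (hc t i) (abs_nonneg _) (by positivity)
            _ = B := mul_one _
        _ = N * B := by simp [hNdef]
    have hMr : (0 : ℝ) ≤ M := by positivity
    have hRr : (R : ℝ) = M * (N * B) := by rw [hR]; push_cast; ring
    have hb2 : |(M : ℝ) * ∑ i, (x i : ℝ) * c t i| ≤ R := by
      rw [abs_mul, abs_of_nonneg hMr, hRr]
      exact mul_le_mul_of_nonneg_left hb hMr
    rw [abs_le] at hb2
    constructor
    · exact Int.le_floor.2 (by push_cast; exact hb2.1)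
    · have : (f x t : ℝ) ≤ R := (Int.floor_le _).trans hb2.2
      exact_mod_cast this
  obtain ⟨x, hx, y, hy, hxy, hf⟩ := Finset.exists_ne_map_eq_of_card_lt_of_maps_to hlt hmaps
  simp only [S, Fintype.mem_piFinset, mem_Icc] at hx hy
  refine ⟨x - y, sub_ne_zero.2 hxy, fun i => ?_, fun t => ?_⟩
  · rw [Pi.sub_apply, abs_le]
    have := hx i
    have := hy i
    constructor <;> omega
  · have h1 := Int.abs_sub_lt_one_of_floor_eq_floor (congrFun hf t)
    have hMr : (0 : ℝ) < M := by exact_mod_cast hM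
    have h2 : (M : ℝ) * ∑ i, (x i : ℝ) * c t i - M * ∑ i, (y i : ℝ) * c t i
        = M * ∑ i, (((x - y) i : ℤ) : ℝ) * c t i := by
      rw [← mul_sub, ← sum_sub_distrib]
      congr 1
      refine sum_congr rfl fun i _ => ?_
      simp only [Pi.sub_apply, Int.cast_sub]
      ring
    rw [h2, abs_mul, abs_of_pos hMr] at h1
    rw [lt_div_iff₀ hMr]
    linarith

/-- pigeonhole for complex linear forms, relative to the largest coefficient -/
theorem pigeon_complex {ι T : Type*} [Fintype ι] [Nonempty ι] [Fintype T] (b : T → ι → ℂ)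
    (M : ℕ) (hM : 1 ≤ M) (hN : 4 * Fintype.card T ≤ Fintype.card ι) :
    ∃ x : ι → ℤ, x ≠ 0 ∧ (∀ i, |x i| ≤ (2 * M * Fintype.card ι : ℕ)) ∧
      ∀ t, ‖∑ i, (x i : ℂ) * b t i‖ ≤ 2 / M * ⨆ i, ‖b t i‖ := by
  classical
  let s : T → ℝ := fun t => ⨆ i, ‖b t i‖
  have hs : ∀ t i, ‖b t i‖ ≤ s t := fun t i => Finite.le_ciSup (fun i => ‖b t i‖) i
  have hs0 : ∀ t, 0 ≤ s t := fun t => (norm_nonneg _).trans (hs t (Classical.arbitrary ι))
  let c : T ⊕ T → ι → ℝ := fun u i =>
    Sum.elim (fun t => (b t i).re / s t) (fun t => (b t i).im / s t) u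
  have hc : ∀ u i, |c u i| ≤ 1 := by
    rintro (t | t) i
    · simp only [c, Sum.elim_inl, abs_div, abs_of_nonneg (hs0 t)]
      exact div_le_one_of_le₀ ((Complex.abs_re_le_norm _).trans (hs t i)) (hs0 t)
    · simp only [c, Sum.elim_inr, abs_div, abs_of_nonneg (hs0 t)]
      exact div_le_one_of_le₀ ((Complex.abs_im_le_norm _).trans (hs t i)) (hs0 t)
  obtain ⟨x, hx0, hxB, hx⟩ := pigeon_real c hc M hM (by rw [Fintype.card_sum]; omega)
  refine ⟨x, hx0, hxB, fun t => ?_⟩
  change _ ≤ 2 / M * s t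
  rcases (hs0 t).eq_or_lt with h0 | h0
  · have hb : ∀ i, b t i = 0 := fun i => norm_le_zero_iff.1 (by rw [h0]; exact hs t i)
    simp [hb, ← h0]
  · have h1 := hx (Sum.inl t)
    have h2 := hx (Sum.inr t)
    simp only [c, Sum.elim_inl, Sum.elim_inr, ← mul_div_assoc, ← sum_div, abs_div,
      abs_of_pos h0] at h1 h2
    rw [div_lt_iff₀ h0] at h1 h2
    have h3 : (∑ i, (x i : ℂ) * b t i).re = ∑ i, (x i : ℝ) * (b t i).re := by
      rw [Complex.re_sum]; simp
    have h4 : (∑ i, (x i : ℂ) * b t i).im = ∑ i, (x i : ℝ) * (b t i).im := by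
      rw [Complex.im_sum]; simp
    have h5 := Complex.norm_le_abs_re_add_abs_im (∑ i, (x i : ℂ) * b t i)
    rw [h3, h4] at h5
    have h6 : (2 : ℝ) / M * s t = 1 / M * s t + 1 / M * s t := by ring
    linarith

theorem finite_sup {K ι : Type*} [Field K] [NumberField K] [Finite ι] {a : ι → K} (ha : a ≠ 0) :
    (fun v : FinitePlace K => ⨆ i, v (a i)).HasFiniteMulSupport := by
  classical
  obtain ⟨i0, hi0⟩ : ∃ i, a i ≠ 0 := Function.ne_iff.mp ha
  have : Nonempty ι := ⟨i0⟩
  have hfin : (⋃ i : {j // a j ≠ 0}, Function.mulSupport fun v : FinitePlace K => v (a i)).Finite :=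
    Set.finite_iUnion fun i => FinitePlace.hasFiniteMulSupport i.2
  refine hfin.subset fun v hv => ?_
  by_contra hcon
  simp only [Set.mem_iUnion, Function.mem_mulSupport, not_exists, not_not] at hcon
  apply hv
  refine le_antisymm (ciSup_le fun j => ?_) ?_
  · by_cases hj : a j = 0
    · simp [hj]
    · exact (hcon ⟨j, hj⟩).le
  · exact Finite.le_ciSup_of_le i0 (hcon ⟨i0, hi0⟩).ge

/-- the inequality of Liouville with gains at chosen places -/
theorem liouville_gen {K ι : Type*} [Field K] [NumberField K] [Finite ι] {a : ι → K} (ha : a ≠ 0)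
    {s : K} (hs : s ≠ 0) (ε : InfinitePlace K → ℝ) (δ : FinitePlace K → ℝ)
    (hδ : δ.HasFiniteMulSupport)
    (harch : ∀ w : InfinitePlace K, w s ≤ ε w * ⨆ i, w (a i))
    (hfin : ∀ v : FinitePlace K, v s ≤ δ v * ⨆ i, v (a i)) :
    1 ≤ (∏ w : InfinitePlace K, ε w ^ w.mult) * (∏ᶠ v, δ v) * Height.mulHeight a := by
  rw [NumberField.mulHeight_eq ha, ← prod_abs_eq_one hs, mul_mul_mul_comm,
    ← finprod_mul_distrib hδ (finite_sup ha), ← prod_mul_distrib]
  have h1 : ∏ w : InfinitePlace K, w s ^ w.mult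
      ≤ ∏ w : InfinitePlace K, ε w ^ w.mult * (⨆ i, w (a i)) ^ w.mult := by
    refine prod_le_prod (fun w _ => by positivity) fun w _ => ?_
    rw [← mul_pow]
    exact pow_le_pow_left₀ (apply_nonneg _ _) (harch w) _
  have h2 : ∏ᶠ v : FinitePlace K, v s ≤ ∏ᶠ v : FinitePlace K, δ v * ⨆ i, v (a i) :=
    finprod_le_finprod (FinitePlace.hasFiniteMulSupport hs) (fun v => apply_nonneg _ _)
      (hδ.mul (finite_sup ha)) hfin
  exact mul_le_mul h1 h2 (finprod_nonneg fun v => apply_nonneg _ _)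
    ((prod_nonneg fun w _ => by positivity).trans h1)

/-- integer combinations do not grow at finite places -/
theorem finite_sum_le {K ι : Type*} [Field K] [NumberField K] [Fintype ι] (a : ι → K)
    (x : ι → ℤ) (v : FinitePlace K) : v (∑ i, (x i : K) * a i) ≤ ⨆ i, v (a i) := by
  classical
  have h0 : 0 ≤ ⨆ i, v (a i) := Real.iSup_nonneg fun i => apply_nonneg _ _
  have key : ∀ S : Finset ι, v (∑ i ∈ S, (x i : K) * a i) ≤ ⨆ i, v (a i) := by
    intro S
    induction S using Finset.induction_on with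
    | empty => simpa using h0
    | insert j S hj ih =>
      rw [sum_insert hj]
      refine (FinitePlace.add_le v _ _).trans (max_le ?_ ih)
      rw [map_mul]
      have h1 : v (x j : K) ≤ 1 := by
        have hna' : IsNonarchimedean v.val := fun y z => FinitePlace.add_le v y z
        exact hna'.apply_intCast_le_one
      calc v (x j : K) * v (a j) ≤ 1 * v (a j) :=
            mul_le_mul_of_nonneg_right h1 (apply_nonneg _ _)
        _ = v (a j) := one_mul _
        _ ≤ _ := Finite.le_ciSup (fun i => v (a i)) j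
  exact key univ

/-- an integer combination that is small at every complex embedding vanishes -/
theorem liouville_zero {K ι : Type*} [Field K] [NumberField K] [Fintype ι] (a : ι → K)
    (x : ι → ℤ) {H ε : ℝ} (hε : 0 ≤ ε) (hH : 0 ≤ H) (hεH : ε * H < 1)
    (hh : Height.mulHeight a ≤ H ^ Module.finrank ℚ K)
    (hsm : ∀ σ : K →+* ℂ, ‖∑ i, (x i : ℂ) * σ (a i)‖ ≤ ε * ⨆ i, ‖σ (a i)‖) :
    ∑ i, (x i : K) * a i = 0 := by
  by_contra hs
  have ha : a ≠ 0 := by
    rintro rfl
    simp at hs
  have h := liouville_gen ha hs (fun _ => ε) (fun _ => 1) (by simp [Function.HasFiniteMulSupport])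
    (fun w => by
      have := hsm w.embedding
      simp only [InfinitePlace.norm_embedding_eq] at this
      rw [← InfinitePlace.norm_embedding_eq, map_sum]
      simpa using this)
    (fun v => by rw [one_mul]; exact finite_sum_le a x v)
  rw [prod_pow_eq_pow_sum, InfinitePlace.sum_mult_eq, finprod_one, mul_one] at h
  have h2 : ε ^ Module.finrank ℚ K * Height.mulHeight a ≤ (ε * H) ^ Module.finrank ℚ K := by
    rw [mul_pow]
    exact mul_le_mul_of_nonneg_left hh (by positivity)
  have h3 : (ε * H) ^ Module.finrank ℚ K < 1 :=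
    pow_lt_one₀ (by positivity) hεH Module.finrank_pos.ne'
  linarith

/-- The lemma of Siegel. `b t` are the conjugate points (up to scalars); one integer vector `x` of
size at most `10 H card ι` kills every tuple of height at most `H` per degree all of whose complex
conjugates are proportional to one of the `b t`. -/
theorem siegel_proj {ι T : Type*} [Fintype ι] [Nonempty ι] [Fintype T] (b : T → ι → ℂ)
    (hN : 4 * Fintype.card T ≤ Fintype.card ι) {H : ℝ} (hH : 1 ≤ H) :
    ∃ x : ι → ℤ, x ≠ 0 ∧ (∀ i, ((|x i| : ℤ) : ℝ) ≤ 10 * H * Fintype.card ι) ∧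
      ∀ (K : Type) [Field K] [NumberField K] (a : ι → K),
        (∀ σ : K →+* ℂ, ∃ (t : T) (c : ℂ), ∀ i, σ (a i) = c * b t i) →
        Height.mulHeight a ≤ H ^ Module.finrank ℚ K → ∑ i, (x i : K) * a i = 0 := by
  have hM4 : 4 * H ≤ (⌈4 * H⌉₊ : ℝ) := Nat.le_ceil _
  have hM5 : (⌈4 * H⌉₊ : ℝ) ≤ 5 * H := by
    have := (Nat.ceil_lt_add_one (show 0 ≤ 4 * H by linarith)).le
    linarith
  have hM1 : 1 ≤ ⌈4 * H⌉₊ := Nat.ceil_pos.2 (by linarith)
  obtain ⟨x, hx0, hxB, hx⟩ := pigeon_complex b ⌈4 * H⌉₊ hM1 hN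
  refine ⟨x, hx0, fun i => ?_, fun K _ _ a hconj hh => ?_⟩
  · have h1 : ((|x i| : ℤ) : ℝ) ≤ ((2 * ⌈4 * H⌉₊ * Fintype.card ι : ℕ) : ℝ) := by
      exact_mod_cast hxB i
    push_cast at h1 ⊢
    have h2 : (0 : ℝ) ≤ Fintype.card ι := by positivity
    nlinarith
  · have hpos : (0 : ℝ) < ⌈4 * H⌉₊ := by linarith
    refine liouville_zero a x (ε := 2 / ⌈4 * H⌉₊) (by positivity) (by linarith) ?_ hh fun σ => ?_
    · rw [div_mul_eq_mul_div, div_lt_one hpos]
      linarith
    · obtain ⟨t, c, hc⟩ := hconj σ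
      simp only [hc, norm_mul]
      have h1 : ∑ i, (x i : ℂ) * (c * b t i) = c * ∑ i, (x i : ℂ) * b t i := by
        rw [mul_sum]
        exact sum_congr rfl fun i _ => by ring
      rw [h1, norm_mul, ← Real.mul_iSup_of_nonneg (norm_nonneg c)]
      have := mul_le_mul_of_nonneg_left (hx t) (norm_nonneg c)
      linarith

end Pool.Agent.MT
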