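import Pool.Agent.Lib.MP_d61fbb_ag.MT.ENorm
import Pool.Agent.Lib.MP_d61fbb_ag.MT.FSiegel

/-! Finite places as size functions, and the lemma of Siegel for tuples of algebraic integers. -/

namespace Pool.Agent.MT

open Finset Polynomial

/-- an algebraic integer all of whose conjugates lie in the open unit disc is zero -/
theorem eq_zero_of_house {y : ℂ} (hy : IsIntegral ℤ y) (h : ∀ σ : ℂ ≃+* ℂ, ‖σ y‖ < 1) :
    y = 0 := by
  by_contra hy0
  have hq : IsIntegral ℚ y := hy.tower_top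
  obtain ⟨n, hn0, hn⟩ := prod_conjs hy hy0
  have h1 : (1 : ℝ) ≤ ∏ r ∈ conjs y, ‖r‖ := by
    rw [← norm_prod, hn, Complex.norm_intCast]
    exact_mod_cast Int.one_le_abs hn0
  have hlt : ∀ r ∈ conjs y, ‖r‖ < 1 := fun r hr => by
    obtain ⟨σ, rfl⟩ := (mem_conjs hq).1 hr
    exact h σ
  have hmem : y ∈ conjs y := (mem_conjs hq).2 ⟨RingEquiv.refl _, rfl⟩
  classical
  rw [← mul_prod_erase _ _ hmem] at h1
  have h2 : ∏ r ∈ (conjs y).erase y, ‖r‖ ≤ 1 :=
    prod_le_one (fun r _ => norm_nonneg _) fun r hr => (hlt r (mem_of_mem_erase hr)).le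
  have h3 := mul_le_mul_of_nonneg_left h2 (norm_nonneg y)
  have h4 := hlt y hmem
  linarith

/-- coset representatives of the automorphisms over `K` -/
theorem en2_reps (K : Subfield ℂ) :
    ∃ t : (K →+* ℂ) → (ℂ ≃+* ℂ), ∀ σ : ℂ ≃+* ℂ, ∃ (φ : K →+* ℂ) (τ : ℂ ≃+* ℂ),
      (∀ c ∈ K, τ c = c) ∧ ∀ z, σ z = t φ (τ z) := by
  let res : (ℂ ≃+* ℂ) → (K →+* ℂ) := fun σ => σ.toRingHom.comp K.subtype
  have ht : ∀ φ : K →+* ℂ, ∃ τ : ℂ ≃+* ℂ, (∃ σ, res σ = φ) → res τ = φ := fun φ => by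
    by_cases h : ∃ σ, res σ = φ
    · exact ⟨h.choose, fun _ => h.choose_spec⟩
    · exact ⟨RingEquiv.refl _, fun h' => absurd h' h⟩
  choose t ht using ht
  refine ⟨t, fun σ => ⟨res σ, σ.trans (t (res σ)).symm, fun c hc => ?_, fun z => by simp⟩⟩
  have h2 : res (t (res σ)) ⟨c, hc⟩ = res σ ⟨c, hc⟩ := by rw [ht _ ⟨σ, rfl⟩]
  rw [RingEquiv.trans_apply, RingEquiv.symm_apply_eq]
  exact h2.symm

/-- The lemma of Siegel for a finite family of tuples of algebraic integers that is permuted, up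
to scalars, by the automorphisms over `K`. -/
theorem siegel_int (K : Subfield ℂ) [Module.Finite ℚ K] {ι X : Type*} [Fintype ι] [Nonempty ι]
    [Fintype X] (a : X → ι → ℂ) (hint : ∀ x i, IsIntegral ℤ (a x i)) {H : ℝ} (hH : 1 ≤ H)
    (hhouse : ∀ (σ : ℂ ≃+* ℂ) x i, ‖σ (a x i)‖ ≤ H)
    (hperm : ∀ σ : ℂ ≃+* ℂ, (∀ c ∈ K, σ c = c) → ∀ x, ∃ (x' : X) (c : ℂ),
      ∀ i, σ (a x i) = c * a x' i)
    (hN : 4 * (Module.finrank ℚ K * Fintype.card X) ≤ Fintype.card ι) :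
    ∃ z : ι → ℤ, z ≠ 0 ∧ (∀ i, ((|z i| : ℤ) : ℝ) ≤ 8 * H * Fintype.card ι) ∧
      ∀ x, ∑ i, (z i : ℂ) * a x i = 0 := by
  classical
  have : NumberField K := {}
  obtain ⟨t, ht⟩ := en2_reps K
  have hM3 : 3 * H ≤ (⌈3 * H⌉₊ : ℝ) := Nat.le_ceil _
  have hM4 : (⌈3 * H⌉₊ : ℝ) ≤ 4 * H := by
    have := (Nat.ceil_lt_add_one (show 0 ≤ 3 * H by linarith)).le
    linarith
  have hM1 : 1 ≤ ⌈3 * H⌉₊ := Nat.ceil_pos.2 (by linarith)
  obtain ⟨z, hz0, hzB, hz⟩ := pigeon_complex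
    (fun (p : (K →+* ℂ) × X) i => t p.1 (a p.2 i)) ⌈3 * H⌉₊ hM1
    (by rw [Fintype.card_prod, NumberField.Embeddings.card K ℂ]; exact hN)
  refine ⟨z, hz0, fun i => ?_, fun x => ?_⟩
  · have h1 : ((|z i| : ℤ) : ℝ) ≤ ((2 * ⌈3 * H⌉₊ * Fintype.card ι : ℕ) : ℝ) := by
      exact_mod_cast hzB i
    push_cast at h1 ⊢
    have h2 : (0 : ℝ) ≤ Fintype.card ι := by positivity
    nlinarith
  · refine eq_zero_of_house (IsIntegral.sum _ fun i _ => isIntegral_algebraMap.mul (hint x i))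
      fun σ => ?_
    obtain ⟨φ, τ, hτ, hσ⟩ := ht σ
    obtain ⟨x', c, hc⟩ := hperm τ hτ x
    have h1 : ∀ i, σ (a x i) = t φ c * t φ (a x' i) := fun i => by rw [hσ, hc, map_mul]
    have h2 : σ (∑ i, (z i : ℂ) * a x i) = t φ c * ∑ i, (z i : ℂ) * t φ (a x' i) := by
      rw [map_sum, mul_sum]
      exact sum_congr rfl fun i _ => by rw [map_mul, map_intCast, h1]; ring
    have h3 : ‖t φ c‖ * ⨆ i, ‖t φ (a x' i)‖ ≤ H := by
      rw [Real.mul_iSup_of_nonneg (norm_nonneg _)]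
      exact ciSup_le fun i => by rw [← norm_mul, ← h1]; exact hhouse σ x i
    have h4 := mul_le_mul_of_nonneg_left (hz (φ, x')) (norm_nonneg (t φ c))
    have hpos : (0 : ℝ) < ⌈3 * H⌉₊ := by linarith
    have h5 : 2 / (⌈3 * H⌉₊ : ℝ) * H < 1 := by
      rw [div_mul_eq_mul_div, div_lt_one hpos]
      linarith
    have h6 := mul_le_mul_of_nonneg_left h3 (show 0 ≤ 2 / (⌈3 * H⌉₊ : ℝ) by positivity)
    rw [h2, norm_mul]
    dsimp only at h4
    linarith

/-- a nonarchimedean absolute value is at most one on integral elements -/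
theorem abv_le_one_of_isIntegral {Ω : Type*} [CommRing Ω] [Nontrivial Ω]
    (v : AbsoluteValue Ω ℝ) (hv : IsNonarchimedean v) {y : Ω} (hy : IsIntegral ℤ y) :
    v y ≤ 1 := by
  by_contra hlt
  rw [not_le] at hlt
  obtain ⟨p, hp, hpy⟩ := hy
  have h1 : y ^ p.natDegree = -∑ i ∈ range p.natDegree, (p.coeff i : Ω) * y ^ i := by
    rw [eval₂_eq_sum_range, sum_range_succ, hp.coeff_natDegree] at hpy
    simp only [map_one, one_mul, algebraMap_int_eq, eq_intCast] at hpy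
    linear_combination hpy
  have key : ∀ n : ℕ, v (∑ i ∈ range n, (p.coeff i : Ω) * y ^ i) < v y ^ n := by
    intro n
    induction n with
    | zero => simp
    | succ n ih =>
      rw [sum_range_succ]
      have h2 : v y ^ n < v y ^ (n + 1) := pow_lt_pow_right₀ hlt (Nat.lt_succ_self n)
      refine (hv _ _).trans_lt (max_lt (ih.trans h2) (lt_of_le_of_lt ?_ h2))
      rw [map_mul, map_pow]
      exact mul_le_of_le_one_left (by positivity) hv.apply_intCast_le_one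
  have h3 := key p.natDegree
  rw [← v.map_neg, ← h1, map_pow] at h3
  exact lt_irrefl _ h3

/-- integers prime to `p` are units for an absolute value with `v p < 1` -/
theorem abv_int_eq_one {Ω : Type*} [CommRing Ω] [Nontrivial Ω] (v : AbsoluteValue Ω ℝ)
    (hv : IsNonarchimedean v) {p : ℕ} (hp1 : v p < 1) {m : ℤ} (hm : IsCoprime m p) :
    v m = 1 := by
  obtain ⟨a, b, hab⟩ := hm
  have h1 : (a : Ω) * m + (b : Ω) * p = 1 := by exact_mod_cast congrArg (Int.cast : ℤ → Ω) hab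
  have h2 := hv ((a : Ω) * m) ((b : Ω) * p)
  rw [h1, map_one, map_mul, map_mul] at h2
  have ha : v a ≤ 1 := hv.apply_intCast_le_one
  have hb : v b ≤ 1 := hv.apply_intCast_le_one
  refine le_antisymm hv.apply_intCast_le_one ?_
  rcases le_max_iff.1 h2 with h | h
  · exact h.trans (mul_le_of_le_one_left (v.nonneg _) ha)
  · exact absurd (h.trans (mul_le_of_le_one_left (v.nonneg _) hb)) (not_le.2 hp1)

theorem one_le_abs_mul_abv {Ω : Type*} [CommRing Ω] [Nontrivial Ω] (v : AbsoluteValue Ω ℝ)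
    (hv : IsNonarchimedean v) {p : ℕ} (hp : p.Prime) (hp1 : v p < 1) (hp2 : 1 ≤ (p : ℝ) * v p)
    (n : ℤ) (hn : n ≠ 0) : 1 ≤ |(n : ℝ)| * v n := by
  obtain ⟨k, m, hm, rfl⟩ := WfDvdMonoid.max_power_factor hn
    (Nat.prime_iff_prime_int.1 hp).irreducible
  have hcop : IsCoprime m (p : ℤ) :=
    ((Nat.prime_iff_prime_int.1 hp).irreducible.coprime_iff_not_dvd.2 hm).symm
  have hm0 : m ≠ 0 := right_ne_zero_of_mul hn
  have h1 : (1 : ℝ) ≤ |(m : ℝ)| := by exact_mod_cast Int.one_le_abs hm0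
  push_cast
  rw [map_mul, map_pow, abv_int_eq_one v hv hp1 hcop, abs_mul, abs_pow, Nat.abs_cast, mul_one,
    mul_right_comm, ← mul_pow]
  exact one_le_mul_of_one_le_of_one_le (one_le_pow₀ hp2) h1

/-- A nonarchimedean absolute value over `p` on a ring that receives the algebraic integers gives
a size function. -/
theorem finSize_of_abv {Ω : Type*} [CommRing Ω] [Nontrivial Ω] (v : AbsoluteValue Ω ℝ)
    (hv : IsNonarchimedean v) {p : ℕ} (hp : p.Prime) (hp1 : v p < 1) (hp2 : 1 ≤ (p : ℝ) * v p)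
    (A : Subring ℂ) (hA : ∀ y, IsIntegral ℤ y → y ∈ A) (j : A →+* Ω) (w : ℂ → ℝ)
    (hw : ∀ y : A, w y = v (j y)) : FinSize w := by
  have hi : ∀ y (hy : IsIntegral ℤ y), IsIntegral ℤ (j ⟨y, hA y hy⟩) := fun y hy =>
    IsIntegral.map j.toIntAlgHom
      ((isIntegral_algHom_iff A.subtype.toIntAlgHom Subtype.val_injective).1 hy)
  refine ⟨fun y hy => ?_, fun y hy => ?_, fun y z hy hz => ?_, fun n hn => ?_⟩
  · rw [hw ⟨y, hA y hy⟩]; exact v.nonneg _
  · rw [hw ⟨y, hA y hy⟩]; exact abv_le_one_of_isIntegral v hv (hi y hy)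
  · rw [hw ⟨y, hA y hy⟩, hw ⟨z, hA z hz⟩, ← map_mul, ← map_mul, ← hw]
    exact le_rfl
  · have h1 := hw (n : A)
    rw [map_intCast, SubringClass.coe_intCast] at h1
    rw [h1]
    exact one_le_abs_mul_abv v hv hp hp1 hp2 n hn

/-- the case of an absolute value on the complex numbers themselves -/
theorem finSize_abv (v : AbsoluteValue ℂ ℝ) (hv : IsNonarchimedean v) {p : ℕ} (hp : p.Prime)
    (hp1 : v p < 1) (hp2 : 1 ≤ (p : ℝ) * v p) : FinSize v :=
  finSize_of_abv v hv hp hp1 hp2 ⊤ (fun _ _ => trivial) (Subring.subtype ⊤) v fun _ => rfl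

end Pool.Agent.MT
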