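import Pool.Agent.Lib.MP_d61fbb_ag.MT.C0
import Pool.Agent.Lib.MP_d61fbb_ag.MT.ENorm2
import Pool.Agent.Lib.MP_696deb_nt.B2.B3a

/-! Inertia groups of places of the algebraic numbers, and the passage to the complex numbers. -/

open scoped NNReal Classical

namespace Pool.Agent.MT

open Pool.Agent.Lib.MP_696deb_nt.B2 Finset

/-- If invariants of size below one are divisible by `p`, then the group moves a primitive root of
unity of order `p ^ n` to every other one. -/
theorem exists_act_root {Ω : Type*} [Field Ω] {v : AbsoluteValue Ω ℝ} (hv : IsNonarchimedean v)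
    {p : ℕ} (hp : p.Prime) (hp0 : (p : Ω) ≠ 0) (hp1 : v (p : Ω) < 1) {I : Type*} [Group I]
    (act : I →* (Ω ≃+* Ω)) (hfix : ∀ x, (∀ σ, act σ x = x) → v x < 1 → v x ≤ v (p : Ω))
    {n : ℕ} {ζ μ : Ω} (hζ : IsPrimitiveRoot ζ (p ^ n)) (hμ : IsPrimitiveRoot μ (p ^ n)) :
    ∃ σ, act σ ζ = μ := by
  have := Fact.mk hp
  rcases n with _ | n
  · rw [pow_zero, IsPrimitiveRoot.one_right_iff] at hζ hμ
    exact ⟨1, by rw [hζ, hμ, map_one (act 1)]⟩
  have hpos : 0 < p ^ (n + 1) := pow_pos hp.pos _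
  by_contra hne
  rw [not_exists] at hne
  let R := primitiveRoots (p ^ (n + 1)) Ω
  let S := R.filter fun x => ∃ σ, act σ ζ = x
  have hR : ∀ x, x ∈ R ↔ IsPrimitiveRoot x (p ^ (n + 1)) := fun x => mem_primitiveRoots hpos
  have hlt : ∀ x ∈ R, v (1 - x) < 1 := fun x hx => by
    rw [AbsoluteValue.map_sub]
    have h1 : x ^ p ^ (n + 1) = 1 := ((hR x).1 hx).pow_eq_one
    have h2 : v x = 1 := by
      have h3 := congrArg v h1
      rw [map_pow, map_one] at h3
      exact (pow_eq_one_iff_of_nonneg (v.nonneg x) hpos.ne').1 h3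
    exact MTC.sub_one_lt_of_pow hv hp hp1 h2.le (n + 1) (by rw [h1, sub_self, map_zero]; exact one_pos)
  have hall : ∏ x ∈ R, (1 - x) = (p : Ω) := by
    have h1 := Polynomial.eval_one_cyclotomic_prime_pow (R := Ω) (p := p) n
    rw [Polynomial.cyclotomic_eq_prod_X_sub_primitiveRoots hζ, Polynomial.eval_prod] at h1
    simpa using h1
  have hS : ∀ σ, ∀ x ∈ S, act σ x ∈ S := fun σ x hx => by
    obtain ⟨h1, τ, rfl⟩ := mem_filter.1 hx
    exact mem_filter.2 ⟨(hR _).2 (((hR _).1 h1).map_of_injective (act σ).injective),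
      σ * τ, by rw [map_mul]; rfl⟩
  have hinv : ∀ σ, act σ (∏ x ∈ S, (1 - x)) = ∏ x ∈ S, (1 - x) := fun σ => by
    rw [map_prod]
    refine prod_bij (fun x _ => act σ x) (hS σ) (fun a _ b _ h => (act σ).injective h)
      (fun b hb => ⟨act σ⁻¹ b, hS _ b hb, ?_⟩) fun a _ => by rw [map_sub, map_one]
    change (act σ * act σ⁻¹) b = b
    rw [← map_mul, mul_inv_cancel, map_one]
    rfl
  have small : ∀ T : Finset Ω, T ⊆ R → T.Nonempty → v (∏ x ∈ T, (1 - x)) < 1 := by
    rintro T hT ⟨a, ha⟩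
    rw [← mul_prod_erase _ _ ha]
    exact MTC.mul_lt_of_le_one_right (hlt a (hT ha))
      (MTC.prod_le_one _ _ fun x hx => (hlt x (hT (mem_of_mem_erase hx))).le)
  have h1 := hfix _ hinv (small S (filter_subset _ _)
    ⟨ζ, mem_filter.2 ⟨(hR _).2 hζ, 1, by rw [map_one]; rfl⟩⟩)
  have h2 := small (R.filter fun x => ¬ ∃ σ, act σ ζ = x) (filter_subset _ _)
    ⟨μ, mem_filter.2 ⟨(hR _).2 hμ, fun ⟨σ, h⟩ => hne σ h⟩⟩
  have h3 := congrArg v hall
  rw [← prod_filter_mul_prod_filter_not R fun x => ∃ σ, act σ ζ = x, map_mul] at h3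
  have h4 : 0 < v (p : Ω) := v.pos hp0
  have h5 := mul_le_mul_of_nonneg_right h1
    (v.nonneg (∏ x ∈ R.filter fun x => ¬ ∃ σ, act σ ζ = x, (1 - x)))
  have h6 := mul_lt_mul_of_pos_left h2 h4
  simp only [S] at h5
  linarith

/-- the cyclotomic character of such a group is onto at every finite level -/
theorem exists_act_pow {Ω : Type*} [Field Ω] {v : AbsoluteValue Ω ℝ} (hv : IsNonarchimedean v)
    {p : ℕ} (hp : p.Prime) (hp0 : (p : Ω) ≠ 0) (hp1 : v (p : Ω) < 1) {I : Type*} [Group I]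
    (act : I →* (Ω ≃+* Ω)) (hfix : ∀ x, (∀ σ, act σ x = x) → v x < 1 → v x ≤ v (p : Ω))
    {n : ℕ} {ζ : Ω} (hζ : IsPrimitiveRoot ζ (p ^ n)) {c : ℕ} (hc : ¬ p ∣ c) :
    ∃ σ, ∀ x : Ω, x ^ p ^ n = 1 → act σ x = x ^ c := by
  have : NeZero (p ^ n) := ⟨(pow_pos hp.pos n).ne'⟩
  obtain ⟨σ, hσ⟩ := exists_act_root hv hp hp0 hp1 act hfix hζ (hζ.pow_of_coprime c
    ((hp.coprime_iff_not_dvd.2 hc).symm.pow_right n))
  refine ⟨σ, fun x hx => ?_⟩
  obtain ⟨i, -, rfl⟩ := hζ.eq_pow_of_pow_eq_one hx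
  rw [map_pow, hσ, ← pow_mul, ← pow_mul, mul_comm]

/-- the absolute value of a place -/
noncomputable def abv (w : Plc) : AbsoluteValue Qbar ℝ where
  toFun x := (w.V x : ℝ)
  map_mul' x y := by simp
  nonneg' x := NNReal.coe_nonneg _
  eq_zero' x := by simp
  add_le' x y := by
    have h : w.V (x + y) ≤ w.V x + w.V y :=
      (w.V.map_add x y).trans (max_le le_self_add le_add_self)
    exact_mod_cast h

theorem abv_apply (w : Plc) (x : Qbar) : abv w x = (w.V x : ℝ) := rfl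

theorem abv_na (w : Plc) : IsNonarchimedean (abv w) := fun x y => by
  have h := w.V.map_add x y
  rw [abv_apply, abv_apply, abv_apply]
  exact_mod_cast h

theorem abv_p (w : Plc) : abv w (w.p : Qbar) = (w.p : ℝ)⁻¹ := by
  rw [abv_apply, w.hV]
  simp

theorem abv_p_lt (w : Plc) : abv w (w.p : Qbar) < 1 := by
  rw [abv_p]
  exact inv_lt_one_of_one_lt₀ (by exact_mod_cast w.prime.one_lt)

theorem abv_dec {w : Plc} {g : Gam} (hg : g ∈ Dec w) (x : Qbar) : abv w (g x) = abv w x := by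
  rw [abv_apply, abv_apply, mem_Dec.1 hg]

theorem abv_ine {w : Plc} {g : Gam} (hg : g ∈ Ine w) {x : Qbar} (hx : abv w x ≤ 1) :
    abv w (g x - x) < 1 := by
  rw [abv_apply] at hx ⊢
  exact_mod_cast hg.2 x (by exact_mod_cast hx)

theorem abv_frob {w : Plc} {n : ℕ} {g : Gam} (hg : IsFrob w n g) {x : Qbar} (hx : abv w x ≤ 1) :
    abv w (g x - x ^ n) < 1 := by
  rw [abv_apply] at hx ⊢
  exact_mod_cast hg.2 x (by exact_mod_cast hx)

/-- invariants of the inertia group of size below one are divisible by `p` -/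
theorem abv_fix (w : Plc) {x : Qbar} (hx : ∀ g ∈ Ine w, g x = x) (h1 : abv w x < 1) :
    abv w x ≤ abv w (w.p : Qbar) := by
  rcases eq_or_ne x 0 with rfl | h0
  · rw [map_zero]; exact (abv w).nonneg _
  obtain ⟨k, hk⟩ := V_of_fx_ine hx h0
  have hp : (1 : ℝ) < w.p := by exact_mod_cast w.prime.one_lt
  have h2 : abv w x = (w.p : ℝ) ^ (-k) := by
    rw [abv_apply, hk, zpow_neg]
    simp
  rw [h2] at h1 ⊢
  rw [abv_p, ← zpow_neg_one]
  have h3 := (zpow_lt_one_iff_right₀ hp).1 h1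
  exact zpow_le_zpow_right₀ hp.le (by omega)

/-- the action of a subgroup of the absolute Galois group by ring automorphisms -/
noncomputable def galAct (H : Subgroup Gam) : H →* (Qbar ≃+* Qbar) where
  toFun g := (g : Gam).toRingEquiv
  map_one' := rfl
  map_mul' _ _ := rfl

theorem galAct_apply (H : Subgroup Gam) (g : H) (x : Qbar) : galAct H g x = (g : Gam) x := rfl

/-- the cyclotomic character of the inertia group at `p` is onto at every finite level -/
theorem exists_ine_pow (w : Plc) (n : ℕ) {c : ℕ} (hc : ¬ w.p ∣ c) :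
    ∃ σ ∈ Ine w, ∀ x : Qbar, x ^ w.p ^ n = 1 → σ x = x ^ c := by
  have : NeZero ((w.p ^ n : ℕ) : Qbar) := ⟨by exact_mod_cast (pow_pos w.prime.pos n).ne'⟩
  obtain ⟨ζ, hζ⟩ := HasEnoughRootsOfUnity.exists_primitiveRoot Qbar (w.p ^ n)
  obtain ⟨σ, hσ⟩ := exists_act_pow (abv_na w) w.prime (by exact_mod_cast w.prime.ne_zero)
    (abv_p_lt w) (galAct (Ine w)) (fun x hx => abv_fix w fun g hg => hx ⟨g, hg⟩) hζ hc
  exact ⟨σ, σ.2, hσ⟩

/-- almost all places are unramified in a number field -/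
theorem exists_ine_fix (T : Finset Qbar) :
    ∃ s : Finset ℕ, ∀ w : Plc, w.p ∉ s → ∀ σ ∈ Ine w, ∀ x ∈ T, σ x = x := by
  choose s hs using b2b_fix
  exact ⟨T.biUnion s, fun w hw σ hσ x hx =>
    hs x w (fun h => hw (mem_biUnion.2 ⟨x, hx, h⟩)) σ hσ⟩

section
variable (j : Qbar →+* ℂ)

theorem mem_range_of_alg {y : ℂ} (hy : IsIntegral ℚ y) : ∃ x, j x = y := by
  let _ : Algebra Qbar ℂ := j.toAlgebra
  have : IsScalarTower ℚ Qbar ℂ := IsScalarTower.of_algebraMap_eq fun q => by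
    change _ = j _
    simp
  have h1 : IsIntegral Qbar y := hy.tower_top
  exact minpoly.mem_range_of_degree_eq_one Qbar y
    (IsAlgClosed.degree_eq_one_of_irreducible Qbar (minpoly.irreducible h1))

theorem isIntegral_j (x : Qbar) : IsIntegral ℚ (j x) :=
  (Algebra.IsIntegral.isIntegral (R := ℚ) x).map j.toRatAlgHom

/-- the size function on the complex numbers attached to a place; zero on transcendental numbers -/
noncomputable def szC (w : Plc) (y : ℂ) : ℝ := if h : ∃ x, j x = y then abv w h.choose else 0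

theorem szC_j (w : Plc) (x : Qbar) : szC j w (j x) = abv w x := by
  have h : ∃ x', j x' = j x := ⟨x, rfl⟩
  rw [szC, dif_pos h, j.injective h.choose_spec]

theorem szC_nonneg (w : Plc) (y : ℂ) : 0 ≤ szC j w y := by
  unfold szC
  split_ifs
  · exact (abv w).nonneg _
  · exact le_rfl

theorem finSize_szC (w : Plc) : FinSize (szC j w) := by
  let e : Qbar ≃+* j.range := RingEquiv.ofBijective j.rangeRestrict
    ⟨fun a b h => j.injective (congrArg Subtype.val h), j.rangeRestrict_surjective⟩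
  refine finSize_of_abv (abv w) (abv_na w) w.prime (abv_p_lt w) ?_ j.range
    (fun y hy => mem_range_of_alg j hy.tower_top) e.symm.toRingHom _ fun y => ?_
  · rw [abv_p, mul_inv_cancel₀ (by exact_mod_cast w.prime.ne_zero)]
  · obtain ⟨x, rfl⟩ := e.surjective y
    have h1 : e.symm.toRingHom (e x) = x := e.symm_apply_apply x
    rw [h1]
    exact szC_j j w x

theorem exists_res (σ : ℂ ≃+* ℂ) : ∃ g : Gam, ∀ x, j (g x) = σ (j x) := by
  let _ : Algebra Qbar ℂ := j.toAlgebra
  have : IsScalarTower ℚ Qbar ℂ := IsScalarTower.of_algebraMap_eq fun q => by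
    change _ = j _
    simp
  let σ' : ℂ ≃ₐ[ℚ] ℂ := AlgEquiv.ofRingEquiv (f := σ) fun q => by simp
  exact ⟨σ'.restrictNormal Qbar, fun x => AlgEquiv.restrictNormal_commutes σ' Qbar x⟩

/-- restriction of automorphisms of the complex numbers to the algebraic numbers -/
noncomputable def resQ : (ℂ ≃+* ℂ) →* Gam :=
  MonoidHom.mk' (fun σ => (exists_res j σ).choose) fun σ τ => by
    ext x
    apply j.injective
    rw [(exists_res j (σ * τ)).choose_spec, AlgEquiv.mul_apply, (exists_res j σ).choose_spec,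
      (exists_res j τ).choose_spec]
    rfl

theorem j_resQ (σ : ℂ ≃+* ℂ) (x : Qbar) : j (resQ j σ x) = σ (j x) :=
  (exists_res j σ).choose_spec x

theorem resQ_surjective : Function.Surjective (resQ j) := fun g => by
  have : Countable Qbar := Cardinal.mk_le_aleph0_iff.1
    ((Algebra.IsAlgebraic.cardinalMk_le_max ℚ Qbar).trans (max_le Cardinal.mk_le_aleph0 le_rfl))
  obtain ⟨σ, hσ⟩ := WT.d2_inj j (j.comp g.toRingEquiv.toRingHom) j.injective
    (j.injective.comp g.injective)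
  refine ⟨σ, AlgEquiv.ext fun x => j.injective ?_⟩
  rw [j_resQ, hσ]
  rfl

end

end Pool.Agent.MT
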