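import Pool.Agent.Lib.MP_d61fbb_ag.MT.H3

/-! Theta functions of frames with integral values of bounded size. -/

noncomputable section

namespace Pool.Agent.MT

open Matrix Complex Sum

variable {ι : Type} [Fintype ι] {r s : ℚ} {f h : VV ι → ℂ} {g : ℕ}

lemma gz_mem_Lam {α : Type} {x : α → AF} : x ∈ Lam α ↔ ∀ i, x i ∈ Zh :=
  ⟨fun h i => h i trivial, fun h i _ => h i⟩

lemma gz_Ef {x y : VV ι} (hx : x ∈ Lam _) (hy : y ∈ Lam _) : Ef x y ∈ Zh :=
  Zh.sub_mem (sum_mem fun _ _ => Zh.mul_mem (hx _ trivial) (hy _ trivial))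
    (sum_mem fun _ _ => Zh.mul_mem (hx _ trivial) (hy _ trivial))

lemma gz_Qf {x : VV ι} (hx : x ∈ Lam _) : Qf x ∈ Zh :=
  sum_mem fun _ _ => Zh.mul_mem (hx _ trivial) (hx _ trivial)

lemma gz_Ef_left (c : ℚ) (x y : VV ι) : Ef (c • x) y = c • Ef x y := by
  rw [← algebraMap_smul AF, Ef_smul_left, Algebra.smul_def]

lemma gz_Ef_right (c : ℚ) (x y : VV ι) : Ef x (c • y) = c • Ef x y := by
  rw [← algebraMap_smul AF, Ef_smul_right, Algebra.smul_def]

lemma gz_Qf_two (x : VV ι) : (1 / 2 : ℚ) • Qf (x + x) = Qf x + Qf x := by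
  have : Qf (x + x) = (2 : ℚ) • (Qf x + Qf x) := by
    rw [Qf_add, Ef_self, dotProduct_comm, two_smul]; simp only [Qf]; ring
  rw [this, smul_smul]; norm_num

lemma gz_UU_mul (m : VV ι) (f h : VV ι → ℂ) : UU (r + s) m (f * h) = UU r m f * UU s m h := by
  funext x
  show eps _ _ _ * (_ * _) = eps _ _ _ * _ * (eps _ _ _ * _)
  rw [eps, add_div, add_smul, AddChar.map_add_eq_mul, mul_mul_mul_comm, eps, eps]

lemma gz_UU_scale (c : ℚ) (m : VV ι) (f : VV ι → ℂ) :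
    UU (c ^ 2 * s) m (fun x => f (c • x)) = fun x => UU s (c • m) f (c • x) := by
  funext x
  show eps _ _ _ * f (c • (x + m)) = eps _ _ _ * f (c • x + c • m)
  rw [eps, eps, gz_Ef_left, gz_Ef_right, smul_smul, smul_smul, smul_add]
  congr 3; ring

lemma House.UU {C : ℝ} (hf : ∀ x, House C (f x)) (y x : VV ι) : House C (UU r y f x) := by
  have := (house_psi ((r / 2) • Ef y x)).mul (hf (x + y))
  rwa [one_mul] at this

lemma Frame.chi_ne (φ : Frame r ι) (m : VV ι) : φ.chi m ≠ 0 := psi_ne _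

lemma Frame.chi_two (φ : Frame r ι) {m : VV ι} (hm : m ∈ φ.L) : φ.chi (m + m) = 1 := by
  rw [Frame.chi, psi_eq_one_iff, map_add, ← mul_smul_comm, gz_Qf_two]
  exact Zh.mul_mem (φ.u : Zh).2 (Zh.add_mem (gz_Qf hm) (gz_Qf hm))

/-- the average over a lattice modulo a sublattice -/
theorem gz_avg {L M : AddSubgroup (VV ι)} {χ : VV ι → ℂ} [Fintype (L ⧸ M.addSubgroupOf L)]
    (h0 : h ≠ 0) (eh : Eig r L χ h) (hχ : ∀ m, χ m ≠ 0) (h1 : ∀ m ∈ M, χ m = 1)
    (ef : ∀ m ∈ M, UU r m f = f) :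
    Eig r L χ (∑ c : L ⧸ M.addSubgroupOf L, (χ c.out)⁻¹ • UU r c.out f) := by
  have co : ∀ m ∈ L, ∀ m' ∈ L, UU r m ((χ m')⁻¹ • UU r m' f) =
      χ m • (χ (m + m'))⁻¹ • UU r (m + m') f := fun m hm m' hm' => by
    have e := UU_UU r m m' h
    rw [eh m' hm', map_smul, eh m hm, eh _ (L.add_mem hm hm'), smul_smul, smul_smul] at e
    have e' := smul_left_injective ℂ h0 e
    rw [map_smul, UU_UU, smul_smul, smul_smul]
    congr 1
    have := hχ m'; have := hχ (m + m')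
    field_simp
    linear_combination -e'
  intro m hm
  rw [map_sum, ← Equiv.sum_comp (Equiv.addLeft ((⟨m, hm⟩ : L) : L ⧸ M.addSubgroupOf L))
    fun c => (χ c.out)⁻¹ • UU r c.out f, Finset.smul_sum]
  refine Finset.sum_congr rfl fun c _ => ?_
  rw [co m hm _ c.out.2, Equiv.coe_addLeft]
  set d := (((⟨m, hm⟩ : L) : L ⧸ M.addSubgroupOf L) + c).out with hd
  have e : (d : L ⧸ M.addSubgroupOf L) = (⟨m, hm⟩ + c.out : L) := by
    rw [hd, QuotientAddGroup.out_eq', QuotientAddGroup.mk_add, QuotientAddGroup.out_eq']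
  have hk : ((-d + (⟨m, hm⟩ + c.out) : L) : VV ι) ∈ M :=
    AddSubgroup.mem_addSubgroupOf.1 (QuotientAddGroup.eq.1 e)
  have := co d d.2 _ (-d + (⟨m, hm⟩ + c.out) : L).2
  rw [h1 _ hk, ef _ hk, inv_one, one_smul, ← AddSubgroup.coe_add, add_neg_cancel_left] at this
  rw [this, inv_smul_smul₀ (hχ _)]
  rfl

omit [Fintype ι] in
lemma gz_card {L M : AddSubgroup (VV ι)} {c : ℚ} {n : ℕ} (hn : n ≠ 0)
    (hL : ∀ m ∈ L, c • m ∈ Lam _) (hM : ∀ x, (c / n) • x ∈ Lam _ → x ∈ M) :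
    ∃ j : L ⧸ M.addSubgroupOf L → ι ⊕ ι → ZMod n, Function.Injective j := by
  choose k z hz e using fun (m : L) i => Zh_div (hL m m.2 i trivial) n hn
  refine ⟨fun q i => k q.out i, fun q q' hq => ?_⟩
  rw [← q.out_eq', ← q'.out_eq', QuotientAddGroup.eq]
  refine hM _ fun i _ => ?_
  obtain ⟨t, ht⟩ := (ZMod.intCast_eq_intCast_iff_dvd_sub _ _ _).1 (congrFun hq i)
  have h1 : c • ((-q.out + q'.out : L) : VV ι) i = (n : ℚ) • (t + z q'.out i - z q.out i) := by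
    have ht' : (k q'.out i : AF) - k q.out i = n * t := by exact_mod_cast congrArg (Int.cast : ℤ → AF) ht
    have a := e q.out i; have b := e q'.out i
    simp only [Pi.smul_apply] at a b
    rw [Nat.cast_smul_eq_nsmul, nsmul_eq_mul, AddSubgroup.coe_add, AddSubgroup.coe_neg, Pi.add_apply,
      Pi.neg_apply, smul_add, smul_neg, a, b]
    linear_combination ht'
  show (c / n) • ((-q.out + q'.out : L) : VV ι) i ∈ Zh
  rw [div_eq_inv_mul, mul_smul, h1, inv_smul_smul₀ (Nat.cast_ne_zero.2 hn)]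
  exact Zh.sub_mem (Zh.add_mem (intCast_mem _ _) (hz _ _)) (hz _ _)

/-- From a nonzero function that is invariant under a small lattice to a theta function. -/
theorem Frame.exists_avg {τ : Matrix ι ι ℂ} (hτ : SiegI τ) (hr : 0 < r) (φ : Frame r ι)
    {M : AddSubgroup (VV ι)} [Fintype (φ.L ⧸ M.addSubgroupOf φ.L)]
    (hM : ∀ m ∈ M, ∃ k ∈ φ.L, m = k + k) (hf : f ∈ HH τ r) (f0 : f ≠ 0)
    (ef : ∀ m ∈ M, UU r m f = f) : ∃ y, φ.IsTh τ
      (∑ c : φ.L ⧸ M.addSubgroupOf φ.L, (φ.chi c.out)⁻¹ • UU r c.out (UU r y f)) := by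
  obtain ⟨h, hh⟩ := φ.exists_th hτ hr
  have h1 : ∀ m ∈ M, φ.chi m = 1 := fun m hm => by
    obtain ⟨k, hk, rfl⟩ := hM m hm
    exact φ.chi_two hk
  have hle : M ≤ φ.L := fun m hm => by
    obtain ⟨k, hk, rfl⟩ := hM m hm
    exact add_mem hk hk
  let A : (VV ι → ℂ) →ₗ[ℂ] VV ι → ℂ :=
    ∑ c : φ.L ⧸ M.addSubgroupOf φ.L, (φ.chi c.out)⁻¹ • UU r c.out
  have hA : ∀ G, A G = ∑ c : φ.L ⧸ M.addSubgroupOf φ.L, (φ.chi c.out)⁻¹ • UU r c.out G :=
    fun G => by simp only [A, LinearMap.sum_apply, LinearMap.smul_apply]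
  have : ∃ y ∈ perp r M, A (UU r y f) ≠ 0 := by
    by_contra! hc
    have h2 := HH_span hτ hr hh.mem hf f0 (fun m hm => hh.eig m (hle hm))
      fun m hm => by rw [h1 m hm, one_smul, ef m hm]
    have h3 : h ∈ LinearMap.ker A := Submodule.span_le.2 (by
      rintro _ ⟨y, hy, rfl⟩; exact hc y hy) h2
    rw [LinearMap.mem_ker, hA, Finset.sum_congr rfl fun c _ => by
      rw [hh.eig _ c.out.2, inv_smul_smul₀ (φ.chi_ne _)], Finset.sum_const,
      ← Nat.cast_smul_eq_nsmul ℂ, smul_eq_zero, Nat.cast_eq_zero] at h3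
    exact h3.elim Fintype.card_ne_zero hh.ne
  obtain ⟨y, hy, h2⟩ := this
  refine ⟨y, sum_mem fun c _ => Submodule.smul_mem _ _ (HH_UU (HH_UU hf y) _), hA _ ▸ h2,
    gz_avg hh.ne hh.eig φ.chi_ne h1 fun m hm => ?_⟩
  rw [UU_comm, ef m hm, Ef_swap, smul_neg, psi_eq_one_iff.2 (Zh.neg_mem (hy m hm)), one_smul]

end Pool.Agent.MT
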