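import Pool.Agent.Lib.MP_d61fbb_ag.MT.H3

/-! The relation of Riemann for the theta function of a frame. -/

noncomputable section

namespace Pool.Agent.MT

open Matrix Complex Sum

variable {ι : Type} [Fintype ι] [DecidableEq ι] {τ : Matrix ι ι ℂ} {r : ℚ} {f : VV ι → ℂ}
  {φ : Frame r ι}

/-- the half periods of a frame -/
def Frame.hp (φ : Frame r ι) (η : ι ⊕ ι → ZMod 2) : VV ι := φ.γ (qv' (hq η))

section
omit [DecidableEq ι]

lemma h4_addl (r : ℚ) (x y z : VV ι) : eps r (x + y) z = eps r x z * eps r y z := by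
  rw [eps, Ef_add_left, smul_add, AddChar.map_add_eq_mul, eps, eps]

lemma h4_addr (r : ℚ) (x y z : VV ι) : eps r x (y + z) = eps r x y * eps r x z := by
  rw [eps, Ef_add_right, smul_add, AddChar.map_add_eq_mul, eps, eps]

lemma h4_self (r : ℚ) (x : VV ι) : eps r x x = 1 := by simp [eps]

lemma h4_swap (r : ℚ) (x y : VV ι) : eps r x y * eps r y x = 1 := by
  rw [eps, eps, ← AddChar.map_add_eq_mul, ← smul_add, Ef_swap x y]; simp

lemma h4_negl (r : ℚ) (x y : VV ι) : eps r (-x) y * eps r x y = 1 := by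
  rw [← h4_addl]; simp [eps]

lemma h4_negneg (r : ℚ) (x y : VV ι) : eps r (-x) (-y) = eps r x y := by
  rw [eps, Ef_neg_left, Ef_neg_right, neg_neg, eps]

lemma h4_two (r : ℚ) (x y : VV ι) : eps r (2 • x) y = eps r x (2 • y) := by
  rw [two_nsmul, two_nsmul, h4_addl, h4_addr]

lemma h4_sq {m n : VV ι} (hm : m ∈ φ.L) (hn : n ∈ φ.L) : eps r m n * eps r m n = 1 := by
  have h : n ∈ perp r φ.L := φ.perp_eq.symm ▸ hn
  rw [eps, ← AddChar.map_add_eq_mul, ← add_smul, add_halves]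
  exact psi_eq_one_iff.2 (h m hm)

lemma h4_chisq {m : VV ι} (hm : m ∈ φ.L) : φ.chi m * φ.chi m = 1 := by
  rw [Frame.chi, ← AddChar.map_add_eq_mul, ← add_smul, add_halves, one_smul]
  refine psi_eq_one_iff.2 (Zh.mul_mem (φ.u : Zh).2 (Zh.sum_mem fun i _ => Zh.mul_mem ?_ ?_))
  · exact hm _ (Set.mem_univ _)
  · exact hm _ (Set.mem_univ _)

lemma h4_chineg (m : VV ι) : φ.chi (-m) = φ.chi m := by
  simp [Frame.chi, Qf, Pi.neg_comp]

lemma h4_tr (hf : φ.IsTh τ f) {m : VV ι} (hm : m ∈ φ.L) (x : VV ι) :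
    f (x + m) = φ.chi m * eps r x m * f x := by
  have h : eps r m x * f (x + m) = φ.chi m * f x := congrFun (hf.eig m hm) x
  linear_combination eps r x m * h - f (x + m) * h4_swap r m x

lemma h4_chiadd (hf : φ.IsTh τ f) {m n : VV ι} (hm : m ∈ φ.L) (hn : n ∈ φ.L) :
    φ.chi (m + n) = φ.chi m * φ.chi n * eps r m n := by
  obtain ⟨x, hx⟩ := Function.ne_iff.1 hf.ne
  have a := h4_tr hf (add_mem hm hn) x
  rw [← add_assoc, h4_tr hf hn, h4_tr hf hm, h4_addl, h4_addr] at a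
  have b : eps r x m * eps r x n * f x ≠ 0 := mul_ne_zero (mul_ne_zero (psi_ne _) (psi_ne _)) hx
  refine mul_right_cancel₀ b ?_
  linear_combination -a

lemma h4_mem (φ : Frame r ι) {n : VV ι} (hn : n ∈ Lam (ι ⊕ ι)) : φ.γ n ∈ φ.L := by
  show φ.γ.symm (φ.γ n) ∈ Lam _
  rwa [φ.γ.symm_apply_apply]

lemma h4_int (n : ι ⊕ ι → ℤ) : (fun i => (n i : AF)) ∈ Lam (ι ⊕ ι) :=
  fun i _ => intCast_mem Zh (n i)

lemma h4_hq (η : ι ⊕ ι → ZMod 2) : 2 • qv' (hq η) = fun i => ((vz η i : ℤ) : AF) := by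
  funext i
  rw [Pi.smul_apply, qv', qa, ← map_nsmul, hq, vz, nsmul_eq_mul, Nat.cast_ofNat,
    mul_div_cancel₀ _ two_ne_zero, map_natCast, Int.cast_natCast]

end

lemma h4_hp (φ : Frame r ι) (η : ι ⊕ ι → ZMod 2) : 2 • φ.hp η ∈ φ.L := by
  rw [Frame.hp, ← map_nsmul, h4_hq]; exact h4_mem φ (h4_int _)

lemma h4_half (x : VV ι) : 2 • (1 / 2 : ℚ) • x = x := by
  rw [← Nat.cast_smul_eq_nsmul ℚ, smul_smul]; norm_num

lemma h4_inj {x y : VV ι} (h : 2 • x = 2 • y) : x = y := by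
  rw [← h4_half x, smul_comm, h, smul_comm, h4_half]

lemma h4_shift {m : VV ι} (hm : m ∈ φ.L) : ∃ δ, ∀ η, ∃ l ∈ φ.L,
    φ.hp η + (1 / 2 : ℚ) • m = φ.hp (η + δ) + l := by
  have h1 : ∀ i, ∃ n : ℤ, ∃ z ∈ Zh, φ.γ.symm m i = n + (2 : ℕ) * z := fun i =>
    Zh_div (hm i (Set.mem_univ _)) 2 two_ne_zero
  choose n z hz e using h1
  refine ⟨fun i => n i, fun η => ?_⟩
  have h2 : ∀ i, ∃ k : ℤ, vz η i + n i = vz (η + fun i => (n i : ZMod 2)) i + 2 * k := fun i => by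
    obtain ⟨k, hk⟩ := (ZMod.intCast_eq_intCast_iff_dvd_sub
      (vz (η + fun i => (n i : ZMod 2)) i) (vz η i + n i) 2).1 (by simp [vz])
    exact ⟨k, by push_cast at hk; linarith⟩
  choose k hk using h2
  refine ⟨φ.γ ((fun i => (k i : AF)) + z), h4_mem φ (add_mem (h4_int k) fun i _ => hz i),
    h4_inj ?_⟩
  rw [smul_add, smul_add, h4_half, Frame.hp, Frame.hp, ← map_nsmul, ← map_nsmul, ← map_nsmul, h4_hq,
    h4_hq, ← map_add, ← φ.γ.apply_symm_apply m, ← map_add]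
  congr 1
  funext i
  have := congrArg (Int.cast : ℤ → AF) (hk i)
  simp only [Pi.add_apply, e i, two_nsmul]
  push_cast at this ⊢
  linear_combination this

theorem Frame.IsTh.parity (hτ : SiegI τ) (hr : 0 < r) (hf : φ.IsTh τ f) :
    ∃ c : ℂ, c ^ 2 = 1 ∧ ∀ x, f (-x) = c * f x := by
  have h1 : (fun x => f (-x)) ∈ HH τ r := by
    convert HH_scale hf.mem (-1) using 3
    · norm_num
    · module
  obtain ⟨c, hc⟩ := hf.uniq hτ hr h1 fun m hm => funext fun x => by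
    show eps r m x * f (-(x + m)) = φ.chi m * f (-x)
    rw [neg_add, h4_tr hf (neg_mem hm), h4_negneg, h4_chineg]
    linear_combination φ.chi m * f (-x) * h4_swap r m x
  have h2 : ∀ x, f (-x) = c * f x := congrFun hc
  obtain ⟨x, hx⟩ := Function.ne_iff.1 hf.ne
  refine ⟨c, mul_right_cancel₀ hx ?_, h2⟩
  have a := h2 (-x)
  rw [neg_neg, h2] at a
  linear_combination -a

/-- one term of the relation -/
def h4T (φ : Frame r ι) (f : VV ι → ℂ) (h a b c d : VV ι) : ℂ :=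
  φ.chi (2 • h) * eps r (2 • h) a *
    (f ((1 / 2 : ℚ) • (a + b + c + d) + h) * f ((1 / 2 : ℚ) • (a + b - c - d) + h) *
    f ((1 / 2 : ℚ) • (a - b + c - d) + h) * f ((1 / 2 : ℚ) • (a - b - c + d) + h))

lemma h4T_per (hf : φ.IsTh τ f) {h l : VV ι} (hh : 2 • h ∈ φ.L) (hl : l ∈ φ.L) (a b c d : VV ι) :
    h4T φ f (h + l) a b c d = h4T φ f h a b c d := by
  have e : eps r ((1 / 2 : ℚ) • (a + b + c + d) + h) l * eps r ((1 / 2 : ℚ) • (a + b - c - d) + h) l *
      eps r ((1 / 2 : ℚ) • (a - b + c - d) + h) l * eps r ((1 / 2 : ℚ) • (a - b - c + d) + h) l =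
      eps r a l * eps r a l * (eps r (2 • h) l * eps r (2 • h) l) := by
    simp only [← h4_addl]; congr 1; module
  simp only [h4T, ← add_assoc, h4_tr hf hl]
  rw [smul_add, two_nsmul l, h4_addl, h4_addl, ← add_assoc, h4_chiadd hf (add_mem hh hl) hl,
    h4_chiadd hf hh hl, h4_addl, h4_self]
  have s := h4_swap r l a
  have t := h4_sq hh hl
  have u := h4_chisq hl
  rw [t] at e
  set P := f ((1 / 2 : ℚ) • (a + b + c + d) + h) * f ((1 / 2 : ℚ) • (a + b - c - d) + h) *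
    f ((1 / 2 : ℚ) • (a - b + c - d) + h) * f ((1 / 2 : ℚ) • (a - b - c + d) + h) with hP
  calc _ = φ.chi (2 • h) * eps r (2 • h) a * P * (φ.chi l * φ.chi l) ^ 3 *
        (eps r (2 • h) l * eps r (2 • h) l) * (eps r l a * eps r l a) * (eps r a l * eps r a l * 1) := by
        rw [← e, hP]; ring
    _ = φ.chi (2 • h) * eps r (2 • h) a * P * (eps r l a * eps r a l) ^ 2 := by rw [t, u]; ring
    _ = _ := by rw [s]; ring

lemma h4T_tr (hf : φ.IsTh τ f) {h m : VV ι} (hh : 2 • h ∈ φ.L) (hm : m ∈ φ.L) (a b c d : VV ι) :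
    eps r m a * h4T φ f h (a + m) b c d = φ.chi m * h4T φ f (h + (1 / 2 : ℚ) • m) a b c d := by
  have e1 : (1 / 2 : ℚ) • (a + m + b + c + d) + h =
    (1 / 2 : ℚ) • (a + b + c + d) + (h + (1 / 2 : ℚ) • m) := by module
  have e2 : (1 / 2 : ℚ) • (a + m + b - c - d) + h =
    (1 / 2 : ℚ) • (a + b - c - d) + (h + (1 / 2 : ℚ) • m) := by module
  have e3 : (1 / 2 : ℚ) • (a + m - b + c - d) + h =
    (1 / 2 : ℚ) • (a - b + c - d) + (h + (1 / 2 : ℚ) • m) := by module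
  have e4 : (1 / 2 : ℚ) • (a + m - b - c + d) + h =
    (1 / 2 : ℚ) • (a - b - c + d) + (h + (1 / 2 : ℚ) • m) := by module
  rw [h4T, h4T, e1, e2, e3, e4, nsmul_add h, h4_half, h4_chiadd hf hh hm, h4_addl, h4_addr]
  set P := _ * f ((1 / 2 : ℚ) • (a - b - c + d) + (h + (1 / 2 : ℚ) • m))
  linear_combination (-φ.chi (2 • h) * eps r (2 • h) m * eps r (2 • h) a * eps r m a * P) *
    h4_chisq hm

lemma h4T_mem (hf : φ.IsTh τ f) (h b c d : VV ι) : (fun a => h4T φ f h a b c d) ∈ HH τ r := by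
  have h1 := HH_scale (HH_mul (HH_mul (HH_mul
    (HH_UU hf.mem ((1 / 2 : ℚ) • (b + c + d) + h)) (HH_UU hf.mem ((1 / 2 : ℚ) • (b - c - d) + h)))
    (HH_UU hf.mem ((1 / 2 : ℚ) • (-b + c - d) + h)))
    (HH_UU hf.mem ((1 / 2 : ℚ) • (-b - c + d) + h))) (1 / 2)
  rw [show (1 / 2 : ℚ) ^ 2 * (r + r + r + r) = r by ring] at h1
  convert (HH τ r).smul_mem (φ.chi (2 • h)) h1 using 1
  funext a
  have e : eps r (2 • h) a = eps r ((1 / 2 : ℚ) • (b + c + d) + h) ((1 / 2 : ℚ) • a) *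
      eps r ((1 / 2 : ℚ) • (b - c - d) + h) ((1 / 2 : ℚ) • a) *
      eps r ((1 / 2 : ℚ) • (-b + c - d) + h) ((1 / 2 : ℚ) • a) *
      eps r ((1 / 2 : ℚ) • (-b - c + d) + h) ((1 / 2 : ℚ) • a) := by
    simp only [← h4_addl]
    conv_lhs => rw [← h4_half a, ← h4_two]
    congr 1; module
  have e1 : (1 / 2 : ℚ) • (a + b + c + d) + h =
    (1 / 2 : ℚ) • a + ((1 / 2 : ℚ) • (b + c + d) + h) := by module
  have e2 : (1 / 2 : ℚ) • (a + b - c - d) + h =
    (1 / 2 : ℚ) • a + ((1 / 2 : ℚ) • (b - c - d) + h) := by module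
  have e3 : (1 / 2 : ℚ) • (a - b + c - d) + h =
    (1 / 2 : ℚ) • a + ((1 / 2 : ℚ) • (-b + c - d) + h) := by module
  have e4 : (1 / 2 : ℚ) • (a - b - c + d) + h =
    (1 / 2 : ℚ) • a + ((1 / 2 : ℚ) • (-b - c + d) + h) := by module
  rw [h4T, e, e1, e2, e3, e4]
  simp only [Pi.smul_apply, Pi.mul_apply, smul_eq_mul, UU, LinearMap.coe_mk, AddHom.coe_mk]
  ring

lemma h4T_swap (hf : φ.IsTh τ f) {k : ℂ} (hk : k ^ 2 = 1) (p : ∀ x, f (-x) = k * f x) {h : VV ι}
    (hh : 2 • h ∈ φ.L) (a b c d : VV ι) : h4T φ f h b a c d = h4T φ f h a b c d := by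
  have e3 : (1 / 2 : ℚ) • (a - b + c - d) + h =
    -((1 / 2 : ℚ) • (b - a - c + d) + h) + 2 • h := by module
  have e4 : (1 / 2 : ℚ) • (a - b - c + d) + h =
    -((1 / 2 : ℚ) • (b - a + c - d) + h) + 2 • h := by module
  have e : eps r (2 • h) a * eps r (-((1 / 2 : ℚ) • (b - a - c + d) + h)) (2 • h) *
      eps r (-((1 / 2 : ℚ) • (b - a + c - d) + h)) (2 • h) = eps r (2 • h) b := by
    have e' : -((1 / 2 : ℚ) • (b - a - c + d) + h) + -((1 / 2 : ℚ) • (b - a + c - d) + h) =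
      a + -b + -(2 • h) := by module
    have s := h4_swap r b (2 • h)
    have t := h4_negl r b (2 • h)
    have u := h4_negl r (2 • h) (2 • h)
    rw [h4_self, mul_one] at u
    rw [mul_assoc, ← h4_addl, e', h4_addl, h4_addl, u, mul_one, ← mul_assoc, h4_swap, one_mul]
    linear_combination eps r (2 • h) b * t - eps r (-b) (2 • h) * s
  rw [h4T, h4T, e3, e4, h4_tr hf hh, h4_tr hf hh, p, p, add_comm b a, ← e]
  set P := f ((1 / 2 : ℚ) • (a + b + c + d) + h) * f ((1 / 2 : ℚ) • (a + b - c - d) + h)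
  calc _ = φ.chi (2 • h) * eps r (2 • h) a * (P * (φ.chi (2 • h) * φ.chi (2 • h)) * k ^ 2 *
      eps r (-((1 / 2 : ℚ) • (b - a - c + d) + h)) (2 • h) *
      eps r (-((1 / 2 : ℚ) • (b - a + c - d) + h)) (2 • h) *
      f ((1 / 2 : ℚ) • (b - a + c - d) + h) * f ((1 / 2 : ℚ) • (b - a - c + d) + h)) := by
        rw [hk, h4_chisq hh]; ring
    _ = _ := by ring

lemma h4T_bc (h a b c d : VV ι) : h4T φ f h a c b d = h4T φ f h a b c d := by
  rw [h4T, h4T, show a + c + b + d = a + b + c + d by abel, show a + c - b - d = a - b + c - d by abel,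
    show a - c + b - d = a + b - c - d by abel, show a - c - b + d = a - b - c + d by abel]
  ring

lemma h4T_cd (h a b c d : VV ι) : h4T φ f h a b d c = h4T φ f h a b c d := by
  rw [h4T, h4T, show a + b + d + c = a + b + c + d by abel, show a + b - d - c = a + b - c - d by abel,
    show a - b + d - c = a - b - c + d by abel, show a - b - d + c = a - b + c - d by abel]
  ring

lemma h4_prop (hτ : SiegI τ) (hr : 0 < r) (hf : φ.IsTh τ f) :
    ∃ κ : ℂ, ∀ a b c d, ∑ η, h4T φ f (φ.hp η) a b c d = κ * (f a * f b * f c * f d) := by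
  obtain ⟨k, hk, p⟩ := hf.parity hτ hr
  obtain ⟨x, hx⟩ := Function.ne_iff.1 hf.ne
  replace hx : f x ≠ 0 := hx
  let R := fun a b c d => ∑ η, h4T φ f (φ.hp η) a b c d
  have h1 : ∀ a b c d, R a b c d = f a / f x * R x b c d := fun a b c d => by
    have m1 : (fun a => R a b c d) ∈ HH τ r := by
      convert (HH τ r).sum_mem fun η (_ : η ∈ Finset.univ) => h4T_mem hf (φ.hp η) b c d using 1
      funext a; simp only [R, Finset.sum_apply]
    obtain ⟨s, hs⟩ := hf.uniq hτ hr m1 fun m hm => funext fun a => by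
      show eps r m a * R (a + m) b c d = φ.chi m * R a b c d
      obtain ⟨δ, hδ⟩ := h4_shift hm
      simp only [R, Finset.mul_sum, h4T_tr hf (h4_hp φ _) hm]
      rw [← Equiv.sum_comp (Equiv.addRight δ) fun η => φ.chi m * h4T φ f (φ.hp η) a b c d]
      refine Finset.sum_congr rfl fun η _ => ?_
      obtain ⟨l, hl, e⟩ := hδ η
      rw [e, h4T_per hf (h4_hp φ _) hl, Equiv.coe_addRight]
    have hs' : ∀ a, R a b c d = s * f a := congrFun hs
    rw [hs', hs']; field_simp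
  have s1 : ∀ a b c d, R b a c d = R a b c d := fun a b c d =>
    Finset.sum_congr rfl fun η _ => h4T_swap hf hk p (h4_hp φ _) a b c d
  have s2 : ∀ a b c d, R a c b d = R a b c d := fun a b c d =>
    Finset.sum_congr rfl fun η _ => h4T_bc _ a b c d
  have s3 : ∀ a b c d, R a b d c = R a b c d := fun a b c d =>
    Finset.sum_congr rfl fun η _ => h4T_cd _ a b c d
  refine ⟨R x x x x / f x ^ 4, fun a b c d => ?_⟩
  show R a b c d = _
  rw [h1, s1, h1 b, s2, s1, h1 c, s3, s2, s1, h1 d]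
  field_simp

lemma h4_sign (φ : Frame r ι) (δ : ι ⊕ ι → ZMod 2) :
    ∑ η, eps r (2 • φ.hp δ) (2 • φ.hp η) = if δ = 0 then (2 : ℂ) ^ (2 * Fintype.card ι) else 0 := by
  have h0 : ∀ δ η, eps r (2 • φ.hp δ) (2 • φ.hp η) =
      psi ((1 / 2 : ℚ) • (((φ.u : Zh) : AF) * (Ef (vz δ) (vz η) : ℤ))) := fun δ η => by
    rw [eps, Frame.hp, Frame.hp, ← map_nsmul, ← map_nsmul, h4_hq, h4_hq, div_eq_inv_mul, mul_smul,
      φ.sim, one_div]
    congr 3
    exact (Ef_map _ _ (Int.castRingHom AF)).symm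
  split_ifs with h
  · have : vz (0 : ι ⊕ ι → ZMod 2) = 0 := by funext i; simp [vz]
    simp only [h0, h, this]
    simp [two_mul, pow_add]
  have h1 : ∃ n : ι ⊕ ι → ℤ, Ef (vz δ) n = 1 := by
    obtain ⟨i, hi⟩ := Function.ne_iff.1 h
    have hv : vz δ i = 1 := by
      have : ∀ z : ZMod 2, z ≠ 0 → z.val = 1 := by decide
      simp [vz, this _ hi]
    rcases i with i | i
    · exact ⟨Pi.single (inr i) 1, by
        simp [Ef, dotProduct, Pi.single_apply, hv]⟩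
    · exact ⟨-Pi.single (inl i) 1, by
        simp [Ef, dotProduct, Pi.single_apply, hv]⟩
  obtain ⟨n, hn⟩ := h1
  have hm := h4_mem φ (h4_int n)
  have h2 : eps r (2 • φ.hp δ) (φ.γ fun i => (n i : AF)) = -1 := by
    have a := h4_sq (h4_hp φ δ) hm
    refine (mul_self_eq_one_iff.1 a).resolve_left fun b => ?_
    rw [eps, Frame.hp, ← map_nsmul, h4_hq, div_eq_inv_mul, mul_smul, φ.sim,
      show Ef (fun i => ((vz δ i : ℤ) : AF)) (fun i => (n i : AF)) = (Ef (vz δ) n : ℤ) from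
        (Ef_map _ _ (Int.castRingHom AF)).symm, hn, Int.cast_one, mul_one, psi_eq_one_iff] at b
    have c := Zh.mul_mem b ((φ.u⁻¹ : Zhˣ) : Zh).2
    rw [smul_mul_assoc, ← Subring.coe_mul, Units.mul_inv, Subring.coe_one,
      ← Algebra.algebraMap_eq_smul_one, qa_mem_Zh] at c
    obtain ⟨k, hk⟩ := c
    have : (1 : ℚ) = 2 * k := by rw [← hk]; norm_num
    have : (1 : ℤ) = 2 * k := by exact_mod_cast this
    omega
  obtain ⟨ε, hε⟩ := h4_shift hm
  have h3 := Equiv.sum_comp (Equiv.addRight ε) fun η => eps r (2 • φ.hp δ) (2 • φ.hp η)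
  have h4 : ∀ η, eps r (2 • φ.hp δ) (2 • φ.hp (η + ε)) = -eps r (2 • φ.hp δ) (2 • φ.hp η) :=
    fun η => by
      obtain ⟨l, hl, e⟩ := hε η
      have a := congrArg (fun y => eps r (2 • φ.hp δ) (2 • y)) e
      simp only [smul_add, h4_half, h4_addr, h2, two_nsmul l, h4_sq (h4_hp φ δ) hl] at a
      linear_combination -a
  simp only [Equiv.coe_addRight, h4, Finset.sum_neg_distrib] at h3
  linear_combination (-1 / 2 : ℂ) * h3

theorem Frame.IsTh.riemann (hτ : SiegI τ) (hr : 0 < r) (hf : φ.IsTh τ f) :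
    ∃ k : ℂ, k ^ 2 = 1 ∧ ∀ a b c d : VV ι, 2 ^ Fintype.card ι * (f a * f b * f c * f d) =
      k * ∑ η, φ.chi (2 • φ.hp η) * eps r (2 • φ.hp η) a *
        (f ((1 / 2 : ℚ) • (a + b + c + d) + φ.hp η) * f ((1 / 2 : ℚ) • (a + b - c - d) + φ.hp η) *
        f ((1 / 2 : ℚ) • (a - b + c - d) + φ.hp η) * f ((1 / 2 : ℚ) • (a - b - c + d) + φ.hp η)) := by
  obtain ⟨κ, hκ⟩ := h4_prop hτ hr hf
  obtain ⟨x, hx⟩ := Function.ne_iff.1 hf.ne
  replace hx : f x ≠ 0 := hx
  have h1 : ∀ η, κ * h4T φ f (φ.hp η) x x x x = ∑ δ, eps r (2 • φ.hp δ) (2 • φ.hp η) *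
      (φ.chi (2 • φ.hp δ) * eps r (2 • φ.hp δ) (2 • x) * f (x + φ.hp δ) ^ 4) := fun η => by
    rw [h4T, mul_left_comm, ← hκ, Finset.mul_sum]
    refine Finset.sum_congr rfl fun δ _ => ?_
    set h := φ.hp η
    set h' := φ.hp δ
    have hh : 2 • h ∈ φ.L := h4_hp φ η
    rw [h4T, show (1 / 2 : ℚ) • ((1 / 2 : ℚ) • (x + x + x + x) + h + ((1 / 2 : ℚ) • (x + x - x - x) + h) +
        ((1 / 2 : ℚ) • (x - x + x - x) + h) + ((1 / 2 : ℚ) • (x - x - x + x) + h)) + h' =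
        x + h' + 2 • h by module,
      show (1 / 2 : ℚ) • ((1 / 2 : ℚ) • (x + x + x + x) + h + ((1 / 2 : ℚ) • (x + x - x - x) + h) -
        ((1 / 2 : ℚ) • (x - x + x - x) + h) - ((1 / 2 : ℚ) • (x - x - x + x) + h)) + h' =
        x + h' by module,
      show (1 / 2 : ℚ) • ((1 / 2 : ℚ) • (x + x + x + x) + h - ((1 / 2 : ℚ) • (x + x - x - x) + h) +
        ((1 / 2 : ℚ) • (x - x + x - x) + h) - ((1 / 2 : ℚ) • (x - x - x + x) + h)) + h' =
        x + h' by module,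
      show (1 / 2 : ℚ) • ((1 / 2 : ℚ) • (x + x + x + x) + h - ((1 / 2 : ℚ) • (x + x - x - x) + h) -
        ((1 / 2 : ℚ) • (x - x + x - x) + h) + ((1 / 2 : ℚ) • (x - x - x + x) + h)) + h' =
        x + h' by module,
      show (1 / 2 : ℚ) • (x + x + x + x) = 2 • x by module, h4_tr hf hh, h4_addr, h4_addl,
      two_nsmul h', h4_addl r h' h' (2 • h), ← two_nsmul h', h4_two r h' h]
    calc _ = (φ.chi (2 • h) * φ.chi (2 • h)) * (eps r (2 • h) x * eps r x (2 • h)) *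
        (eps r h' (2 • h) * eps r h' (2 • h) *
        (φ.chi (2 • h') * eps r (2 • h') (2 • x) * f (x + h') ^ 4)) := by ring
      _ = _ := by rw [h4_chisq hh, h4_swap, one_mul, one_mul]
  have h0 : φ.hp 0 = 0 := by
    rw [Frame.hp, show qv' (hq (0 : ι ⊕ ι → ZMod 2)) = 0 by funext i; simp [hq], map_zero]
  have h2 : κ ^ 2 = (2 ^ Fintype.card ι) ^ 2 := by
    refine mul_right_cancel₀ (pow_ne_zero 4 hx) ?_
    have a := congrArg (κ * ·) (hκ x x x x)
    simp only [Finset.mul_sum, h1] at a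
    rw [Finset.sum_comm] at a
    simp only [← Finset.sum_mul, h4_sign, ite_mul, zero_mul, Finset.sum_ite_eq', Finset.mem_univ,
      if_true, h0, smul_zero, add_zero] at a
    have c0 : φ.chi 0 = 1 := by simp [Frame.chi, Qf]
    have e0 : eps r 0 (2 • x) = 1 := by simp [eps]
    rw [c0, e0] at a
    linear_combination -a
  have h3 : κ ≠ 0 := fun e => by
    rw [e] at h2
    exact pow_ne_zero 2 (pow_ne_zero _ two_ne_zero) (h2.symm.trans (by norm_num))
  refine ⟨2 ^ Fintype.card ι / κ, by rw [div_pow, ← h2, div_self (pow_ne_zero _ h3)], fun a b c d => ?_⟩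
  have := hκ a b c d
  simp only [h4T] at this
  rw [this]; field_simp

theorem Frame.IsTh.exists_ne (hτ : SiegI τ) (hr : 0 < r) (hf : φ.IsTh τ f) (x : VV ι) :
    ∃ η, f (x + φ.hp η) ≠ 0 := by
  obtain ⟨c, hc, p⟩ := hf.parity hτ hr
  obtain ⟨k, -, hk⟩ := hf.riemann hτ hr
  have h1 : UU r x f ≠ 0 := fun e => hf.ne (funext fun y => by
    have : eps r x (y - x) * f (y - x + x) = 0 := congrFun e (y - x)
    rw [sub_add_cancel] at this
    exact (mul_eq_zero.1 this).resolve_left (psi_ne _))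
  obtain ⟨q, hq⟩ := HH_generic (τ := τ) (r := fun _ : Bool => r)
    (f := fun b => cond b f (UU r x f))
    (fun b => by cases b; exacts [HH_UU hf.mem x, hf.mem]) fun b => by cases b; exacts [h1, hf.ne]
  have a : f (qv' q) ≠ 0 := hq true
  have b : f (qv' q + x) ≠ 0 := right_ne_zero_of_mul (hq false)
  have c0 : c ≠ 0 := fun e => by simp [e] at hc
  have d : f (-qv' q) ≠ 0 := by rw [p]; exact mul_ne_zero c0 a
  by_contra hn
  push Not at hn
  have := hk (qv' q + x) (qv' q + x) (-qv' q) (-qv' q)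
  rw [show (1 / 2 : ℚ) • (qv' q + x + (qv' q + x) + -qv' q + -qv' q) = x by module] at this
  simp only [hn, zero_mul, mul_zero, Finset.sum_const_zero] at this
  exact mul_ne_zero (pow_ne_zero _ two_ne_zero)
    (mul_ne_zero (mul_ne_zero (mul_ne_zero b b) d) d) this

end Pool.Agent.MT
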