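import Pool.Agent.Lib.MP_d61fbb_ag.MT.AGH
import Pool.Agent.Lib.MP_d61fbb_ag.MT.GZ
import Pool.Agent.Lib.MP_d61fbb_ag.MT.H4
import Pool.Agent.Lib.MP_d61fbb_ag.MT.CIn
import Pool.Agent.Lib.MP_d61fbb_ag.MT.AFin

/-! The theta system with algebraic values. -/

set_option autoImplicit false

noncomputable section

namespace Pool.Agent.MT

open Matrix Sum
open Pool.Agent.Lib.MP_696deb_nt.B2 (Qbar jC)

/-- the standard frame -/
def Frame.std (ι : Type) [Fintype ι] : Frame 1 ι :=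
  ⟨LinearEquiv.refl _ _, 1, fun x y => by simp⟩

/-- the frame of the doubled lattice -/
def Frame.dbl (ι : Type) [Fintype ι] : Frame (1 / 4) ι :=
  ⟨LinearEquiv.smulOfUnit (Units.map (algebraMap ℚ AF).toMonoidHom (Units.mk0 2 two_ne_zero)), 1,
    fun x y => by
      show (1 / 4 : ℚ) • Ef (qa 2 • x) (qa 2 • y) = _
      rw [algebraMap_smul, algebraMap_smul, gz_Ef_left, gz_Ef_right, smul_smul, smul_smul]
      norm_num⟩

lemma Frame.mem_dbl {ι : Type} [Fintype ι] {t : VV ι} (ht : t ∈ (Frame.dbl ι).L) :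
    ∃ s ∈ Lam (ι ⊕ ι), t = (2 : ℚ) • s :=
  ⟨_, ht, ((Frame.dbl ι).γ.apply_symm_apply t).symm.trans (algebraMap_smul AF (2 : ℚ) _)⟩

lemma std_chi {ι : Type} [Fintype ι] (m : VV ι) : (Frame.std ι).chi m = chi0 m := by
  simp [Frame.chi, Frame.std, chi0]

lemma std_isTh {g : ℕ} {τ : Matrix (Fin g) (Fin g) ℂ} (h : Sieg τ) :
    (Frame.std (Fin g)).IsTh τ (Theta τ) :=
  ⟨Theta_mem h, Theta_ne h, fun m hm => by rw [Theta_eig τ m hm, std_chi]⟩

lemma psi_sgn {a : AF} (ha : a ∈ Zh) :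
    psi (sg ⟨2, Nat.prime_two⟩ 1 * (1 / 2 : ℚ) • a) = psi ((1 / 2 : ℚ) • a) := by
  refine psi_congr fun l => ?_
  show ‖(Pi.single (⟨2, Nat.prime_two⟩ : Pr) (1 : ℚ_[2]) : ∀ l : Pr, ℚ_[l]) l *
    ((1 / 2 : ℚ) • a.1 l) - (1 / 2 : ℚ) • a.1 l‖ ≤ 1
  rcases eq_or_ne l ⟨2, Nat.prime_two⟩ with rfl | hl
  · rw [Pi.single_eq_same, one_mul, sub_self, norm_zero]; exact zero_le_one
  · have h2 : ‖(2 : ℚ_[l])‖ = 1 := by exact_mod_cast padic_norm_prime_ne hl
    rw [Pi.single_eq_of_ne hl, zero_mul, zero_sub, norm_neg, Rat.smul_def, norm_mul]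
    simpa [h2] using ha l

/-- the relation of Riemann at adelic points -/
theorem Theta_riemann {g : ℕ} {τ : Matrix (Fin g) (Fin g) ℂ} (h : Sieg τ) (a b c d : VV (Fin g)) :
    2 ^ g * (Theta τ a * Theta τ b * Theta τ c * Theta τ d) =
      ∑ η : I2 g → ZMod 2, psi ((2 : ℚ) • Qf (qv' (hq η))) * psi (Ef (qv' (hq η)) a) *
        (Theta τ ((1 / 2 : ℚ) • (a + b + c + d) + qv' (hq η)) *
        Theta τ ((1 / 2 : ℚ) • (a + b - c - d) + qv' (hq η)) *
        Theta τ ((1 / 2 : ℚ) • (a - b + c - d) + qv' (hq η)) *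
        Theta τ ((1 / 2 : ℚ) • (a - b - c + d) + qv' (hq η))) := by
  obtain ⟨k, -, hk⟩ := (std_isTh h).riemann (siegI_iff.2 h) one_pos
  have e5 : ∀ η : I2 g → ZMod 2, (Frame.std (Fin g)).hp η = qv' (hq η) := fun _ => rfl
  have e1 : ∀ η : I2 g → ZMod 2, (Frame.std (Fin g)).chi (2 • (Frame.std (Fin g)).hp η) =
      psi ((2 : ℚ) • Qf (qv' (hq η))) := fun η => by
    rw [std_chi, chi0, e5, two_nsmul, gz_Qf_two, two_smul]
  have e2 : ∀ (η : I2 g → ZMod 2) a, eps 1 (2 • (Frame.std (Fin g)).hp η) a =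
      psi (Ef (qv' (hq η)) a) := fun η a => by
    rw [eps, e5, two_nsmul, Ef_add_left, ← two_mul, half_two]
  simp only [e1, e2, Fintype.card_fin] at hk
  obtain ⟨η₀, h0⟩ := h.exists_ne 0
  rw [zero_add, ← qc_hq] at h0
  generalize hq η₀ = x at h0
  have e3 : ∀ η : I2 g → ZMod 2, (1 / 2 : ℚ) • (qv' x + qv' x + qv' x + qv' x) +
      (Frame.std (Fin g)).hp η = qv' (x + x + hq η) := fun η => by
    rw [qv'_add, qv'_add, e5]; module
  have e4 : ∀ η : I2 g → ZMod 2, qc (x + x + hq η) =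
      (1 / 2 : ℂ) • (qc x + qc x + qc x + qc x) + hv η := fun η => by
    rw [qc_add, qc_add, qc_hq]; module
  have h1 := hk (qv' x) (qv' x) (qv' x) (qv' x)
  have h2 := h.riemann' (qc x) (qc x) (qc x) (qc x)
  simp only [e3] at h1
  simp only [add_sub_cancel_right, sub_self, zero_add, zero_sub, neg_add_cancel, smul_zero, e5,
    Theta_qv, e4, Qf_qa, Ef_qv, Algebra.smul_def (2 : ℚ), ← map_mul, psi_qa, Rat.cast_mul,
    Rat.cast_ofNat, ← Ef_qc, ← Qf_qc, qc_hq] at h1 h2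
  rw [← h2] at h1
  have h3 : k = 1 := (mul_eq_right₀ (by simpa using h0)).1 h1.symm
  simpa only [h3, one_mul, e5] using hk a b c d

section
variable {τ : Matrix (Fin 4) (Fin 4) ℂ} {e : AddChar AF Qbar} {Θ : W → Qbar}

lemma jC_gen_inv (he : ∀ a, jC (e a) = psi a) {y : W}
    (hΘ : ∀ c : ℤ, UU 1 ((c : ℚ) • y) (fun x => jC (Θ x)) = fun x => jC (Θ x))
    (L : Multiset (ℤ × W)) : UU (wt L) y (fun x => jC (gen e Θ L x)) =
      psi (Ef (cl L) y) • fun x => jC (gen e Θ L x) := by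
  induction L using Multiset.induction_on with
  | empty => funext x; simp [wt, gen, cl, UU_apply, eps]
  | cons c L ih =>
    have h0 : ∀ x : W, (c.1 : ℚ) • x = c.1 • x := fun x => Int.cast_smul_eq_zsmul ℚ c.1 x
    have h1 : (fun x => jC (gen e Θ (c ::ₘ L) x)) =
        (fun x => UU 1 c.2 (fun x => jC (Θ x)) ((c.1 : ℚ) • x)) * fun x => jC (gen e Θ L x) := by
      funext x
      rw [gen_cons, Pi.mul_apply, map_mul, Pi.mul_apply, h0, ← Nat.cast_one (R := ℚ), ← jC_Rt he]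
    have h2 : cl (c ::ₘ L) = c.1 • c.2 + cl L := by
      simp only [cl, Multiset.map_cons, Multiset.sum_cons]
    rw [h1, wt_cons, Int.cast_add, Int.cast_pow, UU_mul, ih, ← mul_one (_ ^ 2), gz_UU_scale,
      UU_comm, hΘ, h2, Ef_add_left, AddChar.map_add_eq_mul, ← h0, gz_Ef_left, gz_Ef_right, one_smul]
    funext x
    simp only [Pi.mul_apply, Pi.smul_apply, smul_eq_mul]
    ring

lemma jC_span_sub (N : Submodule ℂ (W → ℂ)) {s : Set (W → Qbar)}
    (hs : ∀ f ∈ s, (fun x => jC (f x)) ∈ N)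
    {f : W → Qbar} (hf : f ∈ Submodule.span Qbar s) : (fun x => jC (f x)) ∈ N := by
  induction hf using Submodule.span_induction with
  | mem f hf => exact hs f hf
  | zero => simp only [Pi.zero_apply, map_zero]; exact N.zero_mem
  | add f g _ _ hf hg => simp only [Pi.add_apply, map_add]; exact N.add_mem hf hg
  | smul c f _ hf => simp only [Pi.smul_apply, smul_eq_mul, map_mul]; exact N.smul_mem (jC c) hf

lemma jC_indep {α β : Type} [Fintype β] {f : β → α → Qbar} (hf : LinearIndependent Qbar f) :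
    LinearIndependent ℂ fun i x => jC (f i x) := by
  let _ : Algebra Qbar ℂ := jC.toAlgebra
  obtain ⟨π, hπ⟩ := (Algebra.linearMap Qbar ℂ).exists_leftInverse_of_injective
    (LinearMap.ker_eq_bot.2 jC.injective)
  have h1 : ∀ (c : ℂ) (a : Qbar), π (c * jC a) = π c * a := fun c a => by
    rw [mul_comm, mul_comm (π c), ← smul_eq_mul a, ← map_smul]; rfl
  have h2 : π 1 = 1 := by simpa using LinearMap.congr_fun hπ 1
  rw [Fintype.linearIndependent_iff] at hf ⊢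
  intro c hc i
  by_contra h
  have := hf (fun j => π ((c i)⁻¹ * c j)) (funext fun x => by
    have := congrArg (fun z => π ((c i)⁻¹ * z)) (congrFun hc x)
    simpa [Finset.sum_apply, Finset.mul_sum, ← mul_assoc, h1] using this) i
  rw [inv_mul_cancel₀ h, h2] at this
  exact one_ne_zero this

end

theorem asys {τ : Matrix (Fin 4) (Fin 4) ℂ} (h : Sieg τ) (η0 : I2 4 → ZMod 2)
    (h0 : Th τ (hv η0) ≠ 0) (ha : ∀ η, IsAlgebraic ℚ (Th τ (hv η) / Th τ (hv η0))) :
    ∃ S : TSys Qbar 0, S.Θ (hw η0) = 1 ∧ (∀ x, Th τ (hv η0) * jC (S.Θ x) = Theta τ x) ∧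
      (∀ a, jC (S.e a) = psi a) ∧ (∃ C : ℝ, ∀ (φ : Qbar →+* ℂ) x, ‖φ (S.Θ x)‖ ≤ C) ∧
      ∃ D : ℕ, D ≠ 0 ∧ ∀ x, IsIntegral ℤ ((D : Qbar) * S.Θ x) := by
  set c := Th τ (hv η0) with hc
  obtain ⟨D, hD, C, -, hC⟩ := h.house c⁻¹ fun η => by rw [← div_eq_inv_mul]; exact ha η
  have hD' : (D : ℂ) ≠ 0 := Nat.cast_ne_zero.2 hD.ne'
  have hH : ∀ x, House C (D * (c⁻¹ * Theta τ x)) := fun x => by
    have := (house_psi ((1 / 2 : ℚ) • (Qf (x - qv' (apx x)) +
      Ef (qv' (apx x)) (x - qv' (apx x))))).mul (hC (apx x))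
    rwa [one_mul, mul_left_comm, mul_left_comm (psi _)] at this
  choose e0 he0 using fun a => mem_range_of_alg jC (house_psi a).int.tower_top
  choose Θ0 hΘ0 using fun x => mem_range_of_alg jC (hH x).int.tower_top
  let e : AddChar AF Qbar := ⟨e0, jC.injective (by rw [he0, map_one, AddChar.map_zero_eq_one]),
    fun a b => jC.injective (by rw [map_mul, he0, he0, he0, AddChar.map_add_eq_mul])⟩
  have he : ∀ a, jC (e a) = psi a := he0
  let Θ : W → Qbar := fun x => (D : Qbar)⁻¹ * Θ0 x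
  have hΘ : ∀ x, jC (Θ x) = c⁻¹ * Theta τ x := fun x => by
    rw [map_mul, hΘ0, map_inv₀, map_natCast, inv_mul_cancel_left₀ hD']
  have hF : (fun x => jC (Θ x)) = c⁻¹ • Theta τ := funext hΘ
  have hR : ∀ t x, jC (Rt e 1 t Θ x) = c⁻¹ * UU 1 t (Theta τ) x := fun t x => by
    have := congrFun (jC_Rt he 1 t Θ) x
    rwa [hF, Nat.cast_one, map_smul] at this
  refine ⟨⟨e, Θ, inferInstance, two_ne_zero, fun x => ?_, fun t ht => ?_, fun x => ?_,
    fun a b c' d => ?_, fun a => ?_, fun m hm n f hf hl => ?_⟩, ?_, fun x => ?_, he,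
    ⟨C, fun φ x => ?_⟩, D, hD.ne', fun x => ?_⟩
  · rw [← jC.injective.eq_iff, he, map_one, psi_eq_one_iff]
    exact ⟨fun h l _ => h l, fun h l => h l l.2.ne_zero⟩
  · funext x
    apply jC.injective
    rw [hR, Theta_eig τ t ht, Pi.smul_apply, Pi.smul_apply, smul_eq_mul, smul_eq_mul, map_mul, hΘ,
      sgn, he, psi_sgn (gz_Qf ht), chi0, mul_left_comm]
  · exact jC.injective (by rw [hΘ, hΘ, Theta_neg])
  · apply jC.injective
    have := Theta_riemann h a b c' d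
    simp only [map_mul, map_sum, hR, hΘ, he, map_ofNat, UU_apply]
    rw [show ∀ x y z w : ℂ, 16 * (c⁻¹ * x * (c⁻¹ * y) * (c⁻¹ * z) * (c⁻¹ * w)) =
      c⁻¹ ^ 4 * (2 ^ 4 * (x * y * z * w)) from fun x y z w => by ring, this, Finset.mul_sum]
    refine Finset.sum_congr rfl fun η _ => ?_
    have h1 : psi (Ef (qv' (hq η)) a) = eps 1 (hw η) ((1 / 2 : ℚ) • (a + b + c' + d)) *
        eps 1 (hw η) ((1 / 2 : ℚ) • (a + b - c' - d)) * eps 1 (hw η) ((1 / 2 : ℚ) • (a - b + c' - d)) *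
        eps 1 (hw η) ((1 / 2 : ℚ) • (a - b - c' + d)) := by
      rw [← eps_add_right, ← eps_add_right, ← eps_add_right, eps, ← gz_Ef_right]
      congr 2; module
    rw [h1, hw]; ring
  · obtain ⟨η, hη⟩ := (std_isTh h).exists_ne (siegI_iff.2 h) one_pos a
    exact ⟨η, fun h1 => by
      have := hΘ (a + hw η)
      rw [h1, map_zero] at this
      exact mul_ne_zero (inv_ne_zero h0) hη this.symm⟩
  · have hm' : 0 < 4 * m := by omega
    have e1 : ((4 * m : ℕ) : ℚ) * (1 / 4) = m := by push_cast; ring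
    have h1 : (fun x => jC (Θ x)) ∈ HH τ 1 := hF ▸ (HH τ 1).smul_mem _ (Theta_mem h)
    have := (Frame.dbl (Fin 4)).dim_le (χ := fun _ => 1) (siegI_iff.2 h) (by norm_num) hm'
      (fun i x => jC (f i x)) (fun i => ?_) (fun i t ht => ?_) (jC_indep hl)
    · simpa using this
    · rw [e1]
      refine jC_span_mem ?_ (hf i)
      rintro _ ⟨L, hL, -, rfl⟩
      have := jC_gen_mem he h1 L
      rwa [hL, Int.cast_natCast] at this
    · rw [e1, one_smul]
      refine jC_span_sub (LinearMap.eqLocus (UU m t) LinearMap.id) ?_ (hf i)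
      rintro _ ⟨L, hL, h2, rfl⟩
      obtain ⟨s, hs, rfl⟩ := Frame.mem_dbl ht
      have := jC_gen_inv he (Θ := Θ) (y := (2 : ℚ) • s) (fun k => by
        have h3 : (k : ℚ) • s ∈ Lam _ := by
          rw [Int.cast_smul_eq_zsmul ℚ k s]; exact zsmul_mem hs k
        rw [hF, map_smul, smul_comm (k : ℚ), two_smul, Theta_eig τ _ (add_mem h3 h3), chi0,
          gz_Qf_two, psi_eq_one_iff.2 (add_mem (gz_Qf h3) (gz_Qf h3)), one_smul]) L
      rw [hL, Int.cast_natCast, gz_Ef_right, ← gz_Ef_left, psi_eq_one_iff.2 (gz_Ef (by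
        rw [two_smul]; rwa [two_zsmul] at h2) hs), one_smul] at this
      exact this
  · exact jC.injective (by rw [hΘ, hw, Theta_qv, qc_hq, inv_mul_cancel₀ h0, map_one])
  · exact (congrArg (c * ·) (hΘ x)).trans (mul_inv_cancel_left₀ h0 _)
  · have : Countable Qbar := Cardinal.mk_le_aleph0_iff.1
      ((Algebra.IsAlgebraic.cardinalMk_le_max ℚ Qbar).trans (by simp))
    obtain ⟨σ, hσ⟩ := WT.d2_inj jC φ jC.injective φ.injective
    have h1 := (hH x).le σ.toRingHom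
    rw [← hΘ0] at h1
    show ‖φ ((D : Qbar)⁻¹ * Θ0 x)‖ ≤ C
    rw [map_mul, norm_mul, ← hσ (Θ0 x)]
    refine le_trans (mul_le_of_le_one_left (norm_nonneg _) ?_) h1
    rw [map_inv₀, map_natCast, norm_inv, Complex.norm_natCast]
    exact inv_le_one_of_one_le₀ (by exact_mod_cast hD)
  · show IsIntegral ℤ ((D : Qbar) * ((D : Qbar)⁻¹ * Θ0 x))
    rw [mul_inv_cancel_left₀ (Nat.cast_ne_zero.2 hD.ne')]
    obtain ⟨p, hp, h1⟩ := (hH x).int
    refine ⟨p, hp, jC.injective ?_⟩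
    rw [Polynomial.hom_eval₂, hΘ0, map_zero, ← h1]
    congr 1
    exact RingHom.ext_int _ _

theorem t_a : T_A := t_a_of fun _ h η0 h0 ha => asys h η0 h0 ha

end Pool.Agent.MT
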