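import Pool.Agent.Lib.MP_d61fbb_ag.MT.A4

/-! The action of the symplectic group on the Siegel upper half space. -/

noncomputable section

namespace Pool.Agent.MT

open Matrix Complex Sum Filter Topology ComplexConjugate

variable {g : ℕ} {τ : Matrix (Fin g) (Fin g) ℂ}

section
variable {R : Type*} [CommRing R] {ν μ : R} {γ δ : Matrix (I2 g) (I2 g) R}

/-- symplectic similitudes of multiplier `ν` -/
def GS (ν : R) (γ : Matrix (I2 g) (I2 g) R) : Prop := ∀ x y, Ef (γ *ᵥ x) (γ *ᵥ y) = ν * Ef x y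

/-- the conjugate `J γ J⁻¹` -/
def dl (γ : Matrix (I2 g) (I2 g) R) : Matrix (I2 g) (I2 g) R :=
  fromBlocks γ.toBlocks₂₂ (-γ.toBlocks₂₁) (-γ.toBlocks₁₂) γ.toBlocks₁₁

lemma Ef_eq (x y : I2 g → R) : Ef x y = -(x ⬝ᵥ J (Fin g) R *ᵥ y) := by
  rw [J, fromBlocks_mulVec, ← Sum.elim_comp_inl_inr x, sumElim_dotProduct_sumElim]
  simp [Ef, neg_mulVec]; ring

lemma gs_iff : GS ν γ ↔ γᵀ * J (Fin g) R * γ = ν • J (Fin g) R := by
  have e : ∀ x y, Ef (γ *ᵥ x) (γ *ᵥ y) = -(x ⬝ᵥ (γᵀ * J (Fin g) R * γ) *ᵥ y) := fun x y => by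
    rw [Ef_eq, ← mulVec_mulVec, ← mulVec_mulVec, dotProduct_mulVec x, vecMul_transpose]
  refine ⟨fun h => ?_, fun h x y => by rw [e, h, Ef_eq, smul_mulVec, dotProduct_smul]; simp⟩
  ext i j
  have := h (Pi.single i 1) (Pi.single j 1)
  rw [e, Ef_eq] at this
  simpa using this

lemma gs_one_iff : GS 1 γ ↔ γ ∈ symplecticGroup (Fin g) R := by
  rw [gs_iff, SymplecticGroup.mem_iff', one_smul]

lemma GS.mul (h : GS ν γ) (h' : GS μ δ) : GS (ν * μ) (γ * δ) := fun x y => by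
  rw [← mulVec_mulVec, ← mulVec_mulVec, h, h', mul_assoc]

lemma gs_one : GS (1 : R) (1 : Matrix (I2 g) (I2 g) R) := fun x y => by simp

lemma GS.smul (h : GS ν γ) (c : R) : GS (c ^ 2 * ν) (c • γ) := fun x y => by
  rw [smul_mulVec, smul_mulVec, Ef_smul_left, Ef_smul_right, h]; ring

lemma GS.map {S : Type*} [CommRing S] (h : GS ν γ) (φ : R →+* S) : GS (φ ν) (γ.map φ) := by
  rw [gs_iff] at h ⊢
  rw [← map_J _ φ, ← transpose_map, ← Matrix.map_mul, ← Matrix.map_mul, h]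
  ext i j; simp only [map_apply, Matrix.smul_apply, smul_eq_mul, _root_.map_mul]

lemma dl_eq (γ : Matrix (I2 g) (I2 g) R) : dl γ = J (Fin g) R * γ * -J (Fin g) R := by
  conv_rhs => rw [← fromBlocks_toBlocks γ]
  simp [dl, J, fromBlocks_neg, fromBlocks_multiply]

lemma dl_mul (γ δ : Matrix (I2 g) (I2 g) R) : dl (γ * δ) = dl γ * dl δ := by
  have : -J (Fin g) R * J (Fin g) R = 1 := by rw [neg_mul, J_squared, neg_neg]
  simp only [dl_eq, Matrix.mul_assoc]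
  rw [← Matrix.mul_assoc (-J _ _), this, Matrix.one_mul]

@[simp] lemma dl_dl (γ : Matrix (I2 g) (I2 g) R) : dl (dl γ) = γ := by
  ext (i | i) (j | j) <;> simp [dl, toBlocks₁₁, toBlocks₁₂, toBlocks₂₁, toBlocks₂₂]

@[simp] lemma dl_one : dl (1 : Matrix (I2 g) (I2 g) R) = 1 := by
  rw [dl_eq, Matrix.mul_one, mul_neg, J_squared, neg_neg]

lemma dl_add (γ δ : Matrix (I2 g) (I2 g) R) : dl (γ + δ) = dl γ + dl δ := by
  simp only [dl_eq, mul_add, add_mul]

lemma dl_smul (c : R) (γ : Matrix (I2 g) (I2 g) R) : dl (c • γ) = c • dl γ := by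
  simp only [dl_eq, mul_smul_comm, smul_mul_assoc]

lemma dl_map {S : Type*} [CommRing S] (φ : R →+* S) (γ : Matrix (I2 g) (I2 g) R) :
    (dl γ).map φ = dl (γ.map φ) := by
  ext (i | i) (j | j) <;> simp [dl, toBlocks₁₁, toBlocks₁₂, toBlocks₂₁, toBlocks₂₂]

lemma GS.dl (h : GS ν γ) : GS ν (dl γ) := by
  have h1 := SymplecticGroup.J_mem (Fin g) R
  simpa [dl_eq] using ((gs_one_iff.2 h1).mul h).mul (gs_one_iff.2 (SymplecticGroup.neg_mem h1))

/-- `dl γ` is the contragredient matrix -/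
lemma GS.transpose_mul_dl (h : GS ν γ) : γᵀ * MT.dl γ = ν • (1 : Matrix (I2 g) (I2 g) R) := by
  rw [dl_eq, ← Matrix.mul_assoc, ← Matrix.mul_assoc, gs_iff.1 h, smul_mul_assoc, mul_neg, J_squared,
    neg_neg]
end

/-- the factor of automorphy `C τ + D` -/
def cj (γ : Matrix (I2 g) (I2 g) ℂ) (τ : Matrix (Fin g) (Fin g) ℂ) : Matrix (Fin g) (Fin g) ℂ :=
  γ.toBlocks₂₁ * τ + γ.toBlocks₂₂

/-- the action `(A τ + B) (C τ + D)⁻¹` -/
def act (γ : Matrix (I2 g) (I2 g) ℂ) (τ : Matrix (Fin g) (Fin g) ℂ) : Matrix (Fin g) (Fin g) ℂ :=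
  (γ.toBlocks₁₁ * τ + γ.toBlocks₁₂) * (cj γ τ)⁻¹

/-- the kernel of the period map `x ↦ τ x₁ + x₂` -/
def kv (τ : Matrix (Fin g) (Fin g) ℂ) (u : Fin g → ℂ) : I2 g → ℂ := Sum.elim u (-(τ *ᵥ u))

/-- real symplectic similitudes with a positive multiplier -/
structure RS (ν : ℝ) (γ : Matrix (I2 g) (I2 g) ℂ) : Prop where
  pos : 0 < ν
  real : ∀ i j, conj (γ i j) = γ i j
  gs : GS (ν : ℂ) γ

/-- the imaginary part -/
def imM (τ : Matrix (Fin g) (Fin g) ℂ) : Matrix (Fin g) (Fin g) ℝ := τ.map im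

variable {ν μ : ℝ} {γ δ : Matrix (I2 g) (I2 g) ℂ}

lemma RS.mul (h : RS ν γ) (h' : RS μ δ) : RS (ν * μ) (γ * δ) :=
  ⟨mul_pos h.1 h'.1, fun i j => by simp [mul_apply, h.2, h'.2], by simpa using h.3.mul h'.3⟩

lemma RS.dl (h : RS ν γ) : RS ν (dl γ) :=
  ⟨h.1, by rintro (i | i) (j | j) <;>
    simp [MT.dl, toBlocks₁₁, toBlocks₁₂, toBlocks₂₁, toBlocks₂₂, h.2], h.3.dl⟩

lemma GS.rs_real {γ : Matrix (I2 g) (I2 g) ℝ} (h : GS ν γ) (hν : 0 < ν) : RS ν (γ.map (↑)) :=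
  ⟨hν, fun _ _ => conj_ofReal _, h.map ofRealHom⟩

lemma GS.rs_rat {ν : ℚ} {γ : Matrix (I2 g) (I2 g) ℚ} (h : GS ν γ) (hν : 0 < ν) :
    RS ν (γ.map (↑)) :=
  ⟨by exact_mod_cast hν, fun _ _ => by simp, by simpa using h.map (Rat.castHom ℂ)⟩

lemma GS.rs_int {ν : ℤ} {γ : Matrix (I2 g) (I2 g) ℤ} (h : GS ν γ) (hν : 0 < ν) :
    RS ν (γ.map (↑)) :=
  ⟨by exact_mod_cast hν, fun _ _ => by simp, by simpa using h.map (Int.castRingHom ℂ)⟩

lemma dl_kv_aux (γ : Matrix (I2 g) (I2 g) ℂ) (u : Fin g → ℂ) : dl γ *ᵥ kv τ u =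
    Sum.elim (cj γ τ *ᵥ u) (-((γ.toBlocks₁₁ * τ + γ.toBlocks₁₂) *ᵥ u)) := by
  simp [dl, kv, cj, fromBlocks_mulVec, add_mulVec, neg_mulVec, mulVec_neg, add_comm]

lemma dl_kv (h : (cj γ τ).det ≠ 0) (u : Fin g → ℂ) :
    dl γ *ᵥ kv τ u = kv (act γ τ) (cj γ τ *ᵥ u) := by
  rw [dl_kv_aux, kv, act, mulVec_mulVec, nonsing_inv_mul_cancel_right _ _ h.isUnit]

lemma Ef_kv (h : τᵀ = τ) (u v : Fin g → ℂ) : Ef (kv τ u) (kv τ v) = 0 := by
  simp [Ef, kv, dot_symm h u, dotProduct_comm v]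

lemma Ef_star_kv (h : τᵀ = τ) (u v : Fin g → ℂ) :
    Ef (star (kv τ u)) (kv τ v) = -(2 * I) * (star u ⬝ᵥ (imM τ).map (↑) *ᵥ v) := by
  have e : ∀ i j, conj (τ i j) = τ j i - 2 * I * (τ j i).im := fun i j => by
    rw [← congrFun (congrFun h j) i]; apply Complex.ext <;> simp; ring
  simp only [Ef, kv, dotProduct, mulVec, Function.comp, Pi.star_apply, elim_inl, elim_inr, imM,
    Pi.neg_apply, star_neg, star_sum, star_mul', map_apply, star_def, e, Finset.mul_sum,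
    Finset.sum_mul, neg_mul, mul_neg, Finset.sum_neg_distrib]
  rw [Finset.sum_comm (f := fun i j => (τ j i - _) * _ * _)]
  simp only [neg_sub_neg, ← Finset.sum_sub_distrib, ← Finset.sum_neg_distrib]
  exact Finset.sum_congr rfl fun i _ => Finset.sum_congr rfl fun j _ => by ring

lemma im_dot (y : Fin g → ℝ) : (rc y ⬝ᵥ τ *ᵥ rc y).im = y ⬝ᵥ imM τ *ᵥ y := by
  simp [dotProduct, mulVec, imM, Finset.mul_sum]

lemma Sieg.posDef (h : Sieg τ) : (imM τ).PosDef :=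
  PosDef.of_dotProduct_mulVec_pos (by
    ext i j; simp [imM, ← congrFun (congrFun h.symm i) j]) fun y hy => by
      simpa [im_dot] using h.pos y hy

lemma Sieg.pos' (h : Sieg τ) {u : Fin g → ℂ} (hu : u ≠ 0) :
    0 < (star u ⬝ᵥ (imM τ).map (↑) *ᵥ u).re := by
  have e : (star u ⬝ᵥ (imM τ).map (↑) *ᵥ u).re = (fun i => (u i).re) ⬝ᵥ imM τ *ᵥ (fun i => (u i).re)
      + (fun i => (u i).im) ⬝ᵥ imM τ *ᵥ (fun i => (u i).im) := by
    simp [dotProduct, mulVec, Finset.mul_sum, Finset.sum_add_distrib]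
  have h1 := fun y => h.posDef.posSemidef.dotProduct_mulVec_nonneg y
  have h2 := fun y (hy : y ≠ 0) => h.posDef.dotProduct_mulVec_pos hy
  simp only [star_trivial] at h1 h2
  rw [e]
  by_cases h3 : (fun i => (u i).re) = 0
  · exact add_pos_of_nonneg_of_pos (h1 _) (h2 _ fun h4 => hu (funext fun i =>
      Complex.ext (congrFun h3 i) (congrFun h4 i)))
  · exact add_pos_of_pos_of_nonneg (h2 _ h3) (h1 _)

lemma RS.Ef_star (h : RS ν γ) (x y : I2 g → ℂ) :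
    Ef (star (γ *ᵥ x)) (γ *ᵥ y) = ν * Ef (star x) y := by
  rw [← h.gs]; congr 1; funext i; simp [mulVec, dotProduct, h.real]

theorem RS.det_ne (h : RS ν γ) (hτ : Sieg τ) : (cj γ τ).det ≠ 0 := fun h0 => by
  obtain ⟨u, hu, e⟩ := exists_mulVec_eq_zero_iff.2 h0
  have h1 := h.dl.Ef_star (kv τ u) (kv τ u)
  rw [Ef_star_kv hτ.symm, dl_kv_aux, e] at h1
  have h2 : (ν : ℂ) ≠ 0 := by exact_mod_cast h.pos.ne'
  have : star u ⬝ᵥ (imM τ).map (↑) *ᵥ u = 0 := by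
    simpa [Ef, dotProduct, h2] using h1
  simpa [this] using hτ.pos' hu

lemma GS.act_symm {ν : ℂ} (h : GS ν γ) (hτ : τᵀ = τ) : (act γ τ)ᵀ = act γ τ := by
  by_cases h0 : (cj γ τ).det = 0
  · simp [act, nonsing_inv_apply_not_isUnit, h0]
  ext i j
  have := h.dl (kv τ ((cj γ τ)⁻¹ *ᵥ Pi.single i 1)) (kv τ ((cj γ τ)⁻¹ *ᵥ Pi.single j 1))
  simp only [dl_kv h0, mulVec_mulVec, mul_nonsing_inv _ (Ne.isUnit h0), one_mulVec, Ef_kv hτ] at this
  exact Eq.symm (by simpa [Ef, kv, neg_add_eq_zero] using this)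

lemma RS.im_act (h : RS ν γ) (hτ : Sieg τ) (u v : Fin g → ℂ) :
    star (cj γ τ *ᵥ u) ⬝ᵥ (imM (act γ τ)).map (↑) *ᵥ cj γ τ *ᵥ v =
      ν * (star u ⬝ᵥ (imM τ).map (↑) *ᵥ v) := by
  have h1 := h.dl.Ef_star (kv τ u) (kv τ v)
  rw [dl_kv (h.det_ne hτ), dl_kv (h.det_ne hτ), Ef_star_kv hτ.symm,
    Ef_star_kv (h.gs.act_symm hτ.symm)] at h1
  exact mul_left_cancel₀ (a := -(2 * I)) (by simp) (by rw [h1]; ring)

theorem RS.sieg (h : RS ν γ) (hτ : Sieg τ) : Sieg (act γ τ) :=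
  ⟨h.gs.act_symm hτ.symm, fun y hy => by
    have e : cj γ τ *ᵥ (cj γ τ)⁻¹ *ᵥ rc y = rc y := by
      rw [mulVec_mulVec, mul_nonsing_inv _ (h.det_ne hτ).isUnit, one_mulVec]
    have h1 := congrArg re (h.im_act hτ ((cj γ τ)⁻¹ *ᵥ rc y) ((cj γ τ)⁻¹ *ᵥ rc y))
    rw [e, re_ofReal_mul] at h1
    refine (mul_pos h.pos (hτ.pos' fun h0 => hy ?_)).trans_eq (h1.symm.trans ?_)
    · rw [h0, mulVec_zero] at e
      exact funext fun i => by simpa using (congrFun e i).symm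
    · simp [dotProduct, mulVec, imM, Finset.mul_sum]⟩

theorem RS.det_im (h : RS ν γ) (hτ : Sieg τ) :
    ‖(cj γ τ).det‖ ^ 2 * (imM (act γ τ)).det = ν ^ g * (imM τ).det := by
  have e : (cj γ τ)ᴴ * (imM (act γ τ)).map (↑) * cj γ τ = (ν : ℂ) • (imM τ).map (↑) := by
    ext i j
    have := h.im_act hτ (Pi.single i 1) (Pi.single j 1)
    rw [star_mulVec, ← dotProduct_mulVec, mulVec_mulVec, mulVec_mulVec] at this
    simpa [Pi.star_single] using this
  have := congrArg det e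
  rw [det_mul, det_mul, det_smul, det_conjTranspose, Fintype.card_fin, mul_right_comm, star_def,
    ← normSq_eq_conj_mul_self, normSq_eq_norm_sq] at this
  have k : ∀ Y : Matrix (Fin g) (Fin g) ℝ, (Y.map ((↑) : ℝ → ℂ)).det = Y.det := fun Y =>
    (ofRealHom.map_det Y).symm
  rw [k, k] at this
  exact_mod_cast this

lemma kv_inj {τ' : Matrix (Fin g) (Fin g) ℂ} {u v : Fin g → ℂ} (h : kv τ u = kv τ' v) :
    u = v ∧ τ *ᵥ u = τ' *ᵥ v :=
  ⟨funext fun i => congrFun h (inl i), neg_injective (funext fun i => congrFun h (inr i))⟩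

lemma cj_mul (h : (cj δ τ).det ≠ 0) : cj (γ * δ) τ = cj γ (act δ τ) * cj δ τ := by
  refine ext_of_mulVec_single fun i => funext fun k => ?_
  have := congrFun (dl_kv_aux (τ := τ) (γ * δ) (Pi.single i 1)) (inl k)
  rw [dl_mul, ← mulVec_mulVec, dl_kv h, dl_kv_aux, mulVec_mulVec] at this
  exact this.symm

theorem act_mul (h : (cj δ τ).det ≠ 0) (h' : (cj γ (act δ τ)).det ≠ 0) :
    act (γ * δ) τ = act γ (act δ τ) := by
  have h1 : (cj (γ * δ) τ).det ≠ 0 := by rw [cj_mul h, det_mul]; exact mul_ne_zero h' h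
  refine ext_of_mulVec_single fun i => ?_
  have := dl_kv h1 ((cj (γ * δ) τ)⁻¹ *ᵥ Pi.single i 1)
  rw [dl_mul, ← mulVec_mulVec, dl_kv h, dl_kv h', mulVec_mulVec _ (cj γ _), ← mulVec_mulVec,
    mulVec_mulVec _ (cj γ _), ← cj_mul h, mulVec_mulVec, mul_nonsing_inv _ h1.isUnit,
    one_mulVec] at this
  exact (kv_inj this).2.symm

theorem RS.act_mul (h : RS ν γ) (h' : RS μ δ) (hτ : Sieg τ) : act (γ * δ) τ = act γ (act δ τ) :=
  MT.act_mul (h'.det_ne hτ) (h.det_ne (h'.sieg hτ))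

@[simp] lemma act_one : act 1 τ = τ := by
  simp [act, cj, ← fromBlocks_one]

lemma act_smul {c : ℂ} (hc : c ≠ 0) : act (c • γ) τ = act γ τ := by
  have e : cj (c • γ) τ = c • cj γ τ := by
    ext i j; simp [cj, toBlocks₂₁, toBlocks₂₂, mul_apply, mul_add, Finset.mul_sum]
  have e' : (c • γ).toBlocks₁₁ * τ + (c • γ).toBlocks₁₂ = c • (γ.toBlocks₁₁ * τ + γ.toBlocks₁₂) := by
    ext i j; simp [toBlocks₁₁, toBlocks₁₂, mul_apply, mul_add, Finset.mul_sum]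
  by_cases h0 : (cj γ τ).det = 0
  · simp [act, e, nonsing_inv_apply_not_isUnit, h0]
  let := invertibleOfNonzero hc
  rw [act, act, e, e', inv_smul _ c (Ne.isUnit h0), smul_mul_smul_comm, mul_invOf_self, one_smul]

section
variable {X : Type} [NormedAddCommGroup X] [NormedSpace ℂ X] {x : X}

lemma det_diffAt {M : X → Matrix (Fin g) (Fin g) ℂ}
    (h : ∀ i j, DifferentiableAt ℂ (fun y => M y i j) x) :
    DifferentiableAt ℂ (fun y => (M y).det) x := by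
  simp only [det_apply']
  exact DifferentiableAt.fun_sum fun s _ => (HasFDerivAt.finsetProd fun i _ =>
    (h _ i).hasFDerivAt).differentiableAt.const_mul _

lemma act_diffAt {t : X → Fin g → Fin g → ℂ} (ht : DifferentiableAt ℂ t x)
    (h0 : (cj γ (of (t x))).det ≠ 0) :
    DifferentiableAt ℂ (fun y => of.symm (act γ (of (t y)))) x := by
  have h1 : ∀ i j, DifferentiableAt ℂ (fun y => cj γ (of (t y)) i j) x := fun i j => by
    simp only [cj, Matrix.add_apply, mul_apply, of_apply]; fun_prop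
  have h2 : ∀ i j, DifferentiableAt ℂ (fun y => (cj γ (of (t y)))⁻¹ i j) x := fun i j => by
    simp only [Matrix.inv_def, Matrix.smul_apply, Ring.inverse_eq_inv', adjugate_apply, smul_eq_mul]
    refine ((det_diffAt h1).inv h0).mul (det_diffAt fun a b => ?_)
    simp only [updateRow_apply]
    split_ifs
    exacts [differentiableAt_const _, h1 _ _]
  refine differentiableAt_pi.2 fun i => differentiableAt_pi.2 fun j => ?_
  simp only [of_symm_apply, act, Matrix.add_apply, mul_apply, of_apply]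
  exact DifferentiableAt.fun_sum fun k _ => DifferentiableAt.mul (by fun_prop) (h2 k j)

omit [NormedSpace ℂ X] in
lemma Sieg.eventually {t : X → Fin g → Fin g → ℂ} (h : Sieg (of (t x)))
    (hs : ∀ y, (of (t y))ᵀ = of (t y)) (ht : ContinuousAt t x) : ∀ᶠ y in 𝓝 x, Sieg (of (t y)) := by
  have h1 : ContinuousAt (fun y i j => -I * t y i j) x :=
    (show Continuous fun (p : Fin g → Fin g → ℂ) i j => -I * p i j by fun_prop).continuousAt.comp ht
  filter_upwards [h1.eventually (WT.isOpen_posRe.mem_nhds h.posRe)] with y hy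
  refine ⟨hs y, fun v hv => (hy v hv).trans_eq ?_⟩
  simp only [dotProduct, mulVec, Finset.mul_sum, im_sum, re_sum]
  exact Finset.sum_congr rfl fun i _ => Finset.sum_congr rfl fun j _ => by simp; ring
end

end Pool.Agent.MT
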