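import Pool.Agent.Lib.MP_d61fbb_ag.MT.DMat

/-! The type norm as an element of an algebra in which the Weil polynomial has a root. -/

set_option autoImplicit false

open Matrix Polynomial NumberField

namespace Pool.Agent.MT

theorem aeval_of_dvd {A : Type*} [Ring A] [Algebra ℚ A] {π : A} {Q g h : ℚ[X]}
    (hπ : aeval π Q = 0) (hd : Q ∣ g - h) : aeval π g = aeval π h := by
  obtain ⟨r, hr⟩ := hd
  rw [← sub_eq_zero, ← map_sub, hr, map_mul, hπ, zero_mul]

theorem aeval_adj {n K : Type*} [Fintype n] [DecidableEq n] [CommRing K] [Algebra ℚ K]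
    {x y J : Matrix n n K} (h : xᵀ * J = J * y) (g : ℚ[X]) :
    (aeval x g)ᵀ * J = J * aeval y g := by
  induction g using Polynomial.induction_on with
  | C a => simp [Algebra.algebraMap_eq_smul_one]
  | add p q hp hq => rw [map_add, map_add, transpose_add, add_mul, mul_add, hp, hq]
  | monomial k a ih =>
    rw [pow_succ', mul_left_comm, map_mul, transpose_mul, aeval_X, Matrix.mul_assoc, h,
      ← Matrix.mul_assoc, ih, mul_comm X, map_mul _ _ X, aeval_X, Matrix.mul_assoc]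

/-- Integer polynomials in integral matrices are integral. -/
theorem aeval_int_map {n R K : Type*} [Fintype n] [DecidableEq n] [CommRing R] [CommRing K]
    [Algebra ℚ K] (φ : R →+* K) (x : Matrix n n R) (G : ℤ[X]) :
    aeval (x.map φ) (G.map (Int.castRingHom ℚ)) = (aeval x G).map φ := by
  have e1 := hom_aeval φ.mapMatrix x G
  change Matrix.map _ _ = aeval (Matrix.map _ _) G at e1
  rw [e1, ← algebraMap_int_eq, aeval_map_algebraMap]

/-- The Cayley-Hamilton theorem in the form used below. -/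
theorem aeval_of_charpoly {n R K : Type*} [Fintype n] [DecidableEq n] [CommRing R] [CommRing K]
    [Algebra ℚ K] (φ : R →+* K) {x : Matrix n n R} {P : ℤ[X]}
    (h : x.charpoly = P.map (Int.castRingHom R)) :
    aeval (x.map φ) (P.map (Int.castRingHom ℚ)) = 0 := by
  rw [aeval_int_map, ← aeval_map_algebraMap R, algebraMap_int_eq, ← h, aeval_self_charpoly,
    Matrix.map_zero _ (map_zero φ)]

namespace DF

variable {P : ℤ[X]} {p : ℕ} {E : Type} [Field E] [NumberField E] (F : DF P p E)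

theorem cO_coe (a : 𝓞 E) : ((F.cO a : 𝓞 E) : E) = F.c a := rfl

theorem cO_cO (a : 𝓞 E) : F.cO (F.cO a) = a := RingOfIntegers.ext (F.cc a)

include F in
theorem exists_inv : ∃ r : ℚ[X], P.map (Int.castRingHom ℚ) ∣ X * r - 1 := by
  have h0 : Algebra.norm ℚ (1 + F.U) ≠ 0 := Algebra.norm_ne_zero_iff.2 fun e => F.cne (by
    rw [eq_neg_of_add_eq_zero_right e, map_neg, map_one])
  refine ⟨C (Algebra.norm ℚ (1 + F.U))⁻¹ * (C ((psm P 1 : ℚ) / p) * F.f (F.c (1 + F.U))), ?_⟩
  have := (F.f_cj (1 + F.U)).mul_left (C (Algebra.norm ℚ (1 + F.U))⁻¹)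
  rw [mul_sub, ← C_mul, inv_mul_cancel₀ h0, C_1, F.f_one] at this
  convert this using 2
  ring

/-- One denominator for the integers. -/
theorem exists_int (a : 𝓞 E) : ∃ G : ℤ[X], C (F.D : ℚ) * F.f a = G.map (Int.castRingHom ℚ) := by
  obtain ⟨G, h⟩ := F.int 0 a 1 isIntegral_zero a.isIntegral_coe
  have h0 := F.f_rat 0
  rw [Rat.cast_zero] at h0
  exact ⟨G, by simpa [h0] using h⟩

/-- The congruence between the type norms of congruent integers. -/
theorem exists_cong {a β : 𝓞 E} {M : ℤ} (h : ((F.D ^ 2 * M : ℤ) : 𝓞 E) ∣ β - a) : ∃ G : ℤ[X],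
    P.map (Int.castRingHom ℚ) ∣ F.f β * F.f (F.c a) -
      (C ((Algebra.norm ℤ a : ℤ) : ℚ) + C (M : ℚ) * G.map (Int.castRingHom ℚ)) := by
  obtain ⟨k, hk⟩ := h
  obtain ⟨G, h1⟩ := F.int a k (F.D ^ 2 * M) a.isIntegral_coe k.isIntegral_coe
  obtain ⟨G', h2⟩ := F.exists_int (F.cO a)
  have e : (a : E) + (F.D ^ 2 * M : ℤ) * k = β := by
    have := congrArg (algebraMap (𝓞 E) E) hk
    rw [map_sub, map_mul, map_intCast] at this
    exact (eq_add_of_sub_eq' this).symm
  have hD : (C (F.D : ℚ) : ℚ[X]) ≠ 0 := C_ne_zero.2 (Int.cast_ne_zero.2 F.D0)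
  rw [e, Int.cast_mul, Int.cast_pow, C_mul, C_pow] at h1
  have h3 : F.f β - F.f a = C (F.D : ℚ) * C (M : ℚ) * G.map (Int.castRingHom ℚ) :=
    mul_left_cancel₀ hD (by rw [h1]; ring)
  refine ⟨G * G', ?_⟩
  rw [Algebra.coe_norm_int, Polynomial.map_mul, ← h2, eq_add_of_sub_eq h3, cO_coe]
  convert F.f_cj a using 1
  ring

section alg

variable {A : Type*} [Ring A] [Algebra ℚ A]

/-- The type norm. -/
noncomputable def nu (π : A) (a : E) : A := aeval π (F.f a)

theorem nu_rat (π : A) (q : ℚ) : F.nu π q = algebraMap ℚ A (q ^ 3) := by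
  rw [nu, F.f_rat, aeval_C]

theorem nu_one (π : A) : F.nu π 1 = 1 := by simpa using F.nu_rat π 1

theorem nu_comm (π : A) (a b : E) : F.nu π a * F.nu π b = F.nu π b * F.nu π a := by
  rw [nu, nu, ← map_mul, mul_comm, map_mul]

theorem nu_comm_self (π : A) (a : E) : F.nu π a * π = π * F.nu π a := by
  have := map_mul (aeval π) (F.f a) X
  rw [mul_comm, map_mul, aeval_X] at this
  exact this.symm

theorem map_nu {B : Type*} [Ring B] [Algebra ℚ B] (φ : A →+* B) (π : A) (a : E) :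
    φ (F.nu π a) = F.nu (φ π) a := hom_aeval φ π _

theorem nu_int (a : 𝓞 E) : ∃ G : ℤ[X], ∀ π : A,
    F.D • F.nu π a = aeval π (G.map (Int.castRingHom ℚ)) := by
  obtain ⟨G, h⟩ := F.exists_int a
  exact ⟨G, fun π => by rw [← h, map_mul, aeval_C, map_intCast, zsmul_eq_mul, nu]⟩

variable {π : A} (hπ : aeval π (P.map (Int.castRingHom ℚ)) = 0)

include hπ

theorem nu_mul (a b : E) : F.nu π (a * b) = F.nu π a * F.nu π b :=
  (aeval_of_dvd hπ (F.f_mul a b)).trans (map_mul _ _ _)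

theorem nu_cj (a : E) : F.nu π a * F.nu π (F.c a) = algebraMap ℚ A (Algebra.norm ℚ a) :=
  ((map_mul _ _ _).symm.trans (aeval_of_dvd hπ (F.f_cj a))).trans (aeval_C _ _)

theorem nu_isUnit {a : E} (ha : a ≠ 0) : IsUnit (F.nu π a) := by
  have h1 := F.nu_mul hπ a a⁻¹
  have h2 := F.nu_mul hπ a⁻¹ a
  rw [mul_inv_cancel₀ ha, nu_one] at h1
  rw [inv_mul_cancel₀ ha, nu_one] at h2
  exact ⟨⟨_, _, h1.symm, h2.symm⟩, rfl⟩

end alg

theorem nu_cong {a β : 𝓞 E} {M : ℤ} (h : ((F.D ^ 2 * M : ℤ) : 𝓞 E) ∣ β - a) : ∃ G : ℤ[X],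
    ∀ (A : Type) [Ring A] [Algebra ℚ A] (π : A), aeval π (P.map (Int.castRingHom ℚ)) = 0 →
      F.nu π β * F.nu π (F.c a) =
        (Algebra.norm ℤ a : ℤ) + M • aeval π (G.map (Int.castRingHom ℚ)) := by
  obtain ⟨G, hG⟩ := F.exists_cong h
  refine ⟨G, fun A _ _ π hπ => ?_⟩
  have := aeval_of_dvd hπ hG
  rwa [map_mul, map_add, map_mul, aeval_C, aeval_C, map_intCast, map_intCast, ← zsmul_eq_mul]
    at this

variable {n K : Type*} [Fintype n] [DecidableEq n] [CommRing K] [Algebra ℚ K]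
  {π J : Matrix n n K} (hπ : aeval π (P.map (Int.castRingHom ℚ)) = 0)
  (hJ : πᵀ * J * π = (p : K) • J)

include hπ hJ

/-- The adjoint of the type norm is the type norm of the conjugate. -/
theorem nu_adj (a : E) : (F.nu π a)ᵀ * J = J * F.nu π (F.c a) := by
  obtain ⟨r, hr⟩ := F.exists_inv
  have h1 := aeval_of_dvd hπ hr
  rw [map_mul, aeval_X, map_one] at h1
  have h2 : πᵀ * J = J * aeval π (C (p : ℚ) * r) := by
    rw [map_mul, aeval_C, map_natCast, ← nsmul_eq_mul, mul_smul_comm, ← smul_mul_assoc,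
      ← Nat.cast_smul_eq_nsmul K, ← hJ, Matrix.mul_assoc _ π, h1, Matrix.mul_one]
  rw [nu, aeval_adj h2, ← aeval_comp]
  refine congrArg _ (aeval_of_dvd hπ (F.dvd _ fun z hz => ?_))
  have h3 := aeval_of_dvd (π := z) (by rwa [← algebraMap_int_eq, aeval_map_algebraMap]) hr
  rw [map_mul, aeval_X, map_one] at h3
  rw [map_sub, aeval_comp, F.f_adj a ℂ z hz, map_mul, aeval_C, map_natCast,
    eq_inv_of_mul_eq_one_right h3, div_eq_mul_inv, sub_self]

/-- The type norm is a similitude whose multiplier is the norm. -/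
theorem nu_sim (a : E) :
    (F.nu π a)ᵀ * J * F.nu π a = algebraMap ℚ K (Algebra.norm ℚ a) • J := by
  rw [F.nu_adj hπ hJ, Matrix.mul_assoc, nu_comm, F.nu_cj hπ, IsScalarTower.algebraMap_apply ℚ K,
    Algebra.algebraMap_eq_smul_one, Matrix.mul_smul, Matrix.mul_one]

end DF

end Pool.Agent.MT
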