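import Pool.Agent.Lib.MP_d61fbb_ag.MT.I1
import Pool.Agent.Lib.MP_d61fbb_ag.MT.A6
import Pool.Agent.Lib.MP_d61fbb_ag.MT.GL1
import Pool.Agent.Lib.MP_696deb_nt.B2.B2a

/-! The group of adelic similitudes, the Galois representation and the type norm in it. -/

set_option autoImplicit false

noncomputable section

namespace Pool.Agent.MT

open Matrix Polynomial Sum NumberField
open Pool.Agent.Lib.MP_696deb_nt.B2 (Qbar Gam Plc Dec Ine IsFrob Op jC)

section sim
variable {R : Type} [CommRing R]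

theorem gn_Ef_base : Ef (Pi.single (inl 0) 1 : I2 4 → R) (Pi.single (inr 0) 1) = 1 := by
  simp [Ef, dotProduct, Pi.single_apply]

theorem gn_map_smul {S F m n : Type} [CommRing S] [FunLike F R S] [RingHomClass F R S] (φ : F)
    (μ : R) (g : Matrix m n R) : (μ • g).map φ = φ μ • g.map φ := by
  ext i j
  simp

/-- the group of symplectic similitudes -/
def GSp (R : Type) [CommRing R] : Subgroup (M8 R)ˣ where
  carrier := {g | ∃ μ : Rˣ, GS (μ : R) g.val}
  one_mem' := ⟨1, gs_one⟩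
  mul_mem' := by
    rintro g h ⟨μ, hμ⟩ ⟨ν, hν⟩
    exact ⟨μ * ν, hμ.mul hν⟩
  inv_mem' := by
    rintro g ⟨μ, hμ⟩
    refine ⟨μ⁻¹, fun x y => ?_⟩
    rw [Units.eq_inv_mul_iff_mul_eq, ← hμ, mulVec_mulVec, mulVec_mulVec, Units.mul_inv,
      one_mulVec, one_mulVec]

theorem mem_GSp {g : (M8 R)ˣ} {μ : R} (h : GS μ g.val) : g ∈ GSp R := by
  have := h ((g⁻¹).val *ᵥ Pi.single (inl 0) 1) ((g⁻¹).val *ᵥ Pi.single (inr 0) 1)
  rw [mulVec_mulVec, mulVec_mulVec, Units.mul_inv, one_mulVec, one_mulVec, gn_Ef_base] at this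
  exact ⟨Units.mkOfMulEqOne μ _ this.symm, h⟩

/-- the underlying matrix -/
def gm : GSp R →* M8 R := (Units.coeHom _).comp (GSp R).subtype

theorem gm_inj : Function.Injective (gm : GSp R → M8 R) := fun _ _ h => Subtype.ext (Units.ext h)

theorem gm_isUnit (g : GSp R) : IsUnit (gm g) := g.1.isUnit

theorem mult_uniq {g : M8 R} {μ ν : R} (h : GS μ g) (h' : GS ν g) : μ = ν := by
  simpa [gn_Ef_base] using (h (Pi.single (inl 0) 1) (Pi.single (inr 0) 1)).symm.trans (h' _ _)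

/-- the multiplier -/
def mulG : GSp R →* Rˣ := MonoidHom.mk' (fun g => g.2.choose) fun g h =>
  Units.ext (mult_uniq (g * h).2.choose_spec (g.2.choose_spec.mul h.2.choose_spec))

theorem mulG_spec (g : GSp R) : GS (mulG g : R) (gm g) := g.2.choose_spec

theorem mulG_eq {g : GSp R} {μ : R} (h : GS μ (gm g)) : (mulG g : R) = μ :=
  mult_uniq (mulG_spec g) h

end sim

/-! ### Components -/

theorem gn_ext {x y : AF} (h : ∀ l, cp l x = cp l y) : x = y := Subtype.ext (funext h)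

theorem gn_mat_ext {m n : Type} {x y : Matrix m n AF} (h : ∀ l, x.map (cp l) = y.map (cp l)) :
    x = y := by
  ext i j : 1
  exact gn_ext fun l => congrFun (congrFun (h l) i) j

theorem gn_cp_sg (l : Pr) (a : ℚ_[l]) : cp l (sg l a) = a := Pi.single_eq_same _ _

theorem gn_cp_sg_ne {l l' : Pr} (h : l' ≠ l) (a : ℚ_[l]) : cp l' (sg l a) = 0 :=
  Pi.single_eq_of_ne h _

theorem gn_cp_zA (l : Pr) (x : ∀ l : Pr, ℤ_[l]) : cp l (zA x) = x l := rfl

theorem gn_cp_mA (l : Pr) (g : ∀ l : Pr, GL (I2 4) ℤ_[l]) :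
    (mA g).map (cp l) = (g l).val.map (↑) := rfl

/-- components of matrices -/
abbrev cpM (l : Pr) : M8 AF →+* M8 ℚ_[l] := (cp l).toRingHom.mapMatrix

/-- the adelic group -/
abbrev GG : Type := GSp AF

/-- the component of an element of the adelic group -/
def cpG (l : Pr) : GG →* M8 ℚ_[l] := (cpM l).toMonoidHom.comp gm

theorem cpG_eq (l : Pr) (g : GG) : cpG l g = (gm g).map (cp l) := rfl

theorem GG_ext {g g' : GG} (h : ∀ l, cpG l g = cpG l g') : g = g' := gm_inj (gn_mat_ext h)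

theorem cpG_sim (l : Pr) (g : GG) : GS (cp l (mulG g)) (cpG l g) :=
  (mulG_spec g).map (cp l).toRingHom

theorem gs_of_cp {g : M8 AF} {μ : AF} (h : ∀ l, GS (cp l μ) (g.map (cp l))) : GS μ g :=
  gs_iff.2 (gn_mat_ext fun l => by
    rw [Matrix.map_mul, Matrix.map_mul, transpose_map, gn_map_smul]
    have e : (J (Fin 4) AF).map (cp l) = J (Fin 4) ℚ_[l] := map_J _ (cp l).toRingHom
    rw [e, gs_iff.1 (h l)])

theorem gn_mul_sg (l : Pr) (b : AF) (t : ℚ_[l]) : b * sg l t = sg l (cp l b * t) :=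
  gn_ext fun l' => by
    by_cases h : l' = l
    · subst h; rw [map_mul, gn_cp_sg, gn_cp_sg]
    · rw [map_mul, gn_cp_sg_ne h, gn_cp_sg_ne h, mul_zero]

theorem gn_eq_zero {l : Pr} {b : ℚ_[l]} (h : ∀ t, ‖b * t‖ ≤ 1) : b = 0 := by
  by_contra hb
  have := h (b⁻¹ * ((l : ℕ) : ℚ_[l])⁻¹)
  rw [mul_inv_cancel_left₀ hb, norm_inv, Padic.norm_p, inv_inv] at this
  exact absurd l.2.one_lt (not_lt.2 (by exact_mod_cast this))

namespace TSys
variable {k : Type} [Field k] {q : ℕ} (S : TSys k q)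

theorem gn_e_sg {l : Pr} {t : ℚ_[l]} (h : ‖t‖ ≤ 1) : S.e (sg l t) = 1 :=
  (S.ker _).2 fun l' _ => by
    by_cases e : l' = l
    · subst e; rwa [gn_cp_sg]
    · rw [gn_cp_sg_ne e, norm_zero]; exact zero_le_one

theorem gn_e_pow (l : Pr) (t : ℚ_[l]) : ∃ n : ℕ, S.e (sg l t) ^ (l : ℕ) ^ n = 1 := by
  obtain ⟨n, hn⟩ := pow_unbounded_of_one_lt ‖t‖
    (show (1 : ℝ) < (l : ℕ) by exact_mod_cast l.2.one_lt)
  refine ⟨n, ?_⟩
  rw [← AddChar.map_nsmul_eq_pow, ← map_nsmul]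
  refine S.gn_e_sg ?_
  rw [nsmul_eq_mul, Nat.cast_pow, norm_mul, norm_pow, Padic.norm_p, inv_pow,
    inv_mul_le_iff₀ (by have := l.2.pos; positivity)]
  simpa using hn.le

theorem gn_cp_eq {a b : AF} {l : Pr} (hl : (l : ℕ) ≠ q)
    (h : ∀ t, S.e (a * sg l t) = S.e (b * sg l t)) : cp l a = cp l b := by
  refine sub_eq_zero.1 (gn_eq_zero fun t => ?_)
  have h1 : S.e ((a - b) * sg l t) = 1 := by
    rw [sub_mul, AddChar.map_sub_eq_div, h, ← AddChar.map_sub_eq_div, sub_self,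
      AddChar.map_zero_eq_one]
  have := (S.ker _).1 h1 l hl
  rwa [map_mul, gn_cp_sg, map_sub] at this

end TSys

/-! ### The Galois representation -/

/-- families of integral matrices as adelic matrices -/
def mAh : (∀ l : Pr, GL (I2 4) ℤ_[l]) →* M8 AF where
  toFun := mA
  map_one' := gn_mat_ext fun l => by
    rw [gn_cp_mA, Matrix.map_one _ (map_zero _) (map_one _)]
    exact Matrix.map_one _ rfl rfl
  map_mul' g h := gn_mat_ext fun l => by
    rw [Matrix.map_mul, gn_cp_mA, gn_cp_mA, gn_cp_mA]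
    exact Matrix.map_mul (f := PadicInt.Coe.ringHom)

section
variable {τ : Matrix (Fin 4) (Fin 4) ℂ} {K : IntermediateField ℚ ℂ} {M : MumfordType τ K}
  (A : AR M)

theorem AR.sim (σ : ℂ ≃ₐ[K] ℂ) : ∃ μ : AF,
    GS μ (mA (M.ρ σ)) ∧ ∀ a, A.res σ (A.S.e a) = A.S.e (μ * a) := by
  have h : ∀ t x y, A.res σ (A.S.e (t * Ef x y)) =
      A.S.e (t * Ef (mA (M.ρ σ) *ᵥ x) (mA (M.ρ σ) *ᵥ y)) := fun t x y => by
    rw [← Ef_smul_left, A.gale, mulVec_smul, Ef_smul_left]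
  have h1 := fun t => h t (Pi.single (inl 0) 1) (Pi.single (inr 0) 1)
  simp only [gn_Ef_base, mul_one] at h1
  refine ⟨_, fun x y => gn_ext fun l => A.S.gn_cp_eq l.2.ne_zero fun t => ?_,
    fun a => (h1 a).trans (by rw [mul_comm])⟩
  rw [mul_comm, ← h, h1]
  congr 1
  ring

/-- the Galois representation with values in the adelic group -/
def rhoG : (ℂ ≃ₐ[K] ℂ) →* GG :=
  (mAh.toHomUnits.comp M.ρ).codRestrict (GSp AF) fun σ => mem_GSp (A.sim σ).choose_spec.1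

theorem gm_rhoG (σ : ℂ ≃ₐ[K] ℂ) : gm (rhoG A σ) = mA (M.ρ σ) := rfl

theorem cpG_rhoG (l : Pr) (σ : ℂ ≃ₐ[K] ℂ) : cpG l (rhoG A σ) = (M.ρ σ l).val.map (↑) := rfl

/-- the multiplier is the cyclotomic character -/
theorem res_e (σ : ℂ ≃ₐ[K] ℂ) (a : AF) : A.res σ (A.S.e a) = A.S.e (mulG (rhoG A σ) * a) := by
  rw [mulG_eq (g := rhoG A σ) (A.sim σ).choose_spec.1]
  exact (A.sim σ).choose_spec.2 a

theorem mulG_rhoG_mem (σ : ℂ ≃ₐ[K] ℂ) : (mulG (rhoG A σ) : AF) ∈ Zh := fun l => by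
  have h := res_e A σ (sg l 1)
  rw [A.S.gn_e_sg (by simp), map_one, gn_mul_sg, mul_one] at h
  have := (A.S.ker _).1 h.symm l l.2.ne_zero
  rwa [gn_cp_sg] at this

theorem norm_mulG_rhoG (σ : ℂ ≃ₐ[K] ℂ) (l : Pr) : ‖cp l (mulG (rhoG A σ))‖ = 1 := by
  have h1 : ‖cp l (mulG (rhoG A σ))‖ ≤ 1 := mulG_rhoG_mem A σ l
  have h2 : ‖cp l (mulG (rhoG A σ⁻¹))‖ ≤ 1 := mulG_rhoG_mem A σ⁻¹ l
  have h3 : ‖cp l (mulG (rhoG A σ))‖ * ‖cp l (mulG (rhoG A σ⁻¹))‖ = 1 := by
    rw [← norm_mul, ← map_mul, ← Units.val_mul, ← map_mul, ← map_mul, mul_inv_cancel, map_one,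
      map_one, Units.val_one, map_one, norm_one]
  exact le_antisymm h1 (h3.ge.trans (mul_le_of_le_one_right (norm_nonneg _) h2))

variable {A}

/-- the multiplier of the Frobenius element is `p` away from `p` -/
theorem Frb.mulG_eq (v : Frb A) {l : Pr} (hl : l ≠ v.p) :
    cp l (mulG (rhoG A v.φ)) = ((v.p : ℕ) : ℚ_[l]) := by
  rw [← map_natCast (cp l)]
  refine A.S.gn_cp_eq l.2.ne_zero fun t => ?_
  have hp : ∀ n, ¬ v.w.p ∣ (l : ℕ) ^ n := fun n h => hl (Subtype.ext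
    ((Nat.prime_dvd_prime_iff_eq v.w.prime l.2).1 (v.w.prime.dvd_of_dvd_pow h) ▸ v.hp))
  have h1 : ∀ s, v.w.V (A.S.e (sg l s)) = 1 := fun s =>
    (A.S.gn_e_pow l s).elim fun n h => v.w.V_root_of_unity (pow_ne_zero _ l.2.ne_zero) h
  have h2 := v.frob.2 _ (h1 t).le
  rw [res_e, ← AddChar.map_nsmul_eq_pow, nsmul_eq_mul, gn_mul_sg, gn_mul_sg] at h2
  rw [gn_mul_sg, gn_mul_sg]
  generalize cp l (mulG (rhoG A v.φ)) * t = a at *
  generalize cp l ((v.p : ℕ) : AF) * t = b at *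
  have e : A.S.e (sg l a) = A.S.e (sg l (a - b)) * A.S.e (sg l b) := by
    rw [← AddChar.map_add_eq_mul, ← map_add, sub_add_cancel]
  rw [e, ← sub_one_mul, map_mul, h1, mul_one] at h2
  obtain ⟨n, hn⟩ := A.S.gn_e_pow l (a - b)
  rw [e, v.w.eq_one_of_root (hp n) hn h2, one_mul]

end

/-! ### The type norm -/

/-- A family of matrices with characteristic polynomial `P` and multiplier `p` away from `p`. -/
structure FrD (p : Pr) (π : ∀ l : Pr, GL (I2 4) ℤ_[l]) (P : ℤ[X]) : Prop where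
  ch : IsCh p π P
  sim : ∀ l ≠ p, GS ((p : ℕ) : ℚ_[l]) ((π l).val.map ((↑) : ℤ_[l] → ℚ_[l]))

theorem Frb.frD {τ : Matrix (Fin 4) (Fin 4) ℂ} {K : IntermediateField ℚ ℂ} {M : MumfordType τ K}
    {A : AR M} (v : Frb A) {P : ℤ[X]} (h : IsCh v.p (M.ρ v.φ) P) : FrD v.p (M.ρ v.φ) P :=
  ⟨h, fun l hl => by rw [← v.mulG_eq hl]; exact cpG_sim l (rhoG A v.φ)⟩

section
variable {p : Pr} {π : ∀ l : Pr, GL (I2 4) ℤ_[l]} {P : ℤ[X]} {E : Type} [Field E] [NumberField E]

theorem FrD.root (H : FrD p π P) {l : Pr} (hl : l ≠ p) :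
    aeval ((π l).val.map ((↑) : ℤ_[l] → ℚ_[l])) (P.map (Int.castRingHom ℚ)) = 0 :=
  aeval_of_charpoly PadicInt.Coe.ringHom (H.ch l hl)

/-- the adele with component one at `p` that agrees with `b` elsewhere -/
def off (p : Pr) (b : AF) : AF := (1 - sg p 1) * b + sg p 1

theorem cp_off_self (b : AF) : cp p (off p b) = 1 := by simp [off, gn_cp_sg]

theorem cp_off_ne {l : Pr} (h : l ≠ p) (b : AF) : cp l (off p b) = cp l b := by
  simp [off, gn_cp_sg_ne h]

/-- the matrix with component one at `p` that agrees with `g` elsewhere -/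
def offM (p : Pr) (g : M8 AF) : M8 AF := (1 - sg p 1) • g + sg p 1 • (1 : M8 AF)

theorem cp_offM_self (g : M8 AF) : (offM p g).map (cp p) = 1 := by
  rw [offM, Matrix.map_add _ (map_add _), gn_map_smul, gn_map_smul, map_sub, map_one, gn_cp_sg,
    sub_self, zero_smul, zero_add, one_smul, Matrix.map_one _ (map_zero _) (map_one _)]

theorem cp_offM_ne {l : Pr} (h : l ≠ p) (g : M8 AF) : (offM p g).map (cp l) = g.map (cp l) := by
  rw [offM, Matrix.map_add _ (map_add _), gn_map_smul, gn_map_smul, map_sub, map_one, gn_cp_sg_ne h,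
    sub_zero, zero_smul, add_zero, one_smul]

variable (d : DF P p E)

theorem cp_nu (l : Pr) (a : E) :
    (d.nu (mA π) a).map (cp l) = d.nu ((π l).val.map ((↑) : ℤ_[l] → ℚ_[l])) a :=
  d.map_nu (cpM l) (mA π) a

theorem nuA_eq (a : 𝓞 E) : nuA d π a = d.nu (mA π) a := rfl

variable (H : FrD p π P)
include H

theorem offM_nu_mul (a b : E) :
    offM p (d.nu (mA π) (a * b)) = offM p (d.nu (mA π) a) * offM p (d.nu (mA π) b) :=
  gn_mat_ext fun l => by
    rw [Matrix.map_mul]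
    by_cases h : l = p
    · subst h; rw [cp_offM_self, cp_offM_self, cp_offM_self, mul_one]
    · rw [cp_offM_ne h, cp_offM_ne h, cp_offM_ne h, cp_nu, cp_nu, cp_nu, d.nu_mul (H.root h)]

omit H in
theorem offM_nu_one : offM p (d.nu (mA π) 1) = 1 := by
  rw [d.nu_one, offM, ← add_smul, sub_add_cancel, one_smul]

theorem offM_nu_sim (a : E) : GS (off p (qa (Algebra.norm ℚ a))) (offM p (d.nu (mA π) a)) :=
  gs_of_cp fun l => by
    by_cases h : l = p
    · subst h; rw [cp_offM_self, cp_off_self]; exact gs_one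
    · rw [cp_offM_ne h, cp_off_ne h, cp_nu, gs_iff, d.nu_sim (H.root h) (gs_iff.1 (H.sim l h)),
        AlgHom.commutes]

/-- the type norm on the multiplicative group -/
def nuU : Eˣ →* GG :=
  (MonoidHom.toHomUnits
    { toFun := fun a : Eˣ => offM p (d.nu (mA π) a)
      map_one' := offM_nu_one d
      map_mul' := fun a b => offM_nu_mul d H a b }).codRestrict (GSp AF)
    fun a => mem_GSp (offM_nu_sim d H a)

open Classical in
/-- the type norm away from `p` as an element of the adelic group -/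
def nuG (a : 𝓞 E) : GG :=
  if h : a = 0 then 1 else nuU d H (Units.mk0 a (RingOfIntegers.coe_ne_zero_iff.2 h))

variable {a b : 𝓞 E}

theorem gm_nuG (ha : a ≠ 0) : gm (nuG d H a) = offM p (nuA d π a) := by
  rw [nuG, dif_neg ha]; rfl

theorem nuG_mul (ha : a ≠ 0) (hb : b ≠ 0) : nuG d H (a * b) = nuG d H a * nuG d H b :=
  gm_inj (by
    rw [map_mul, gm_nuG d H ha, gm_nuG d H hb, gm_nuG d H (mul_ne_zero ha hb)]
    exact offM_nu_mul d H a b)

theorem cpG_nuG (ha : a ≠ 0) {l : Pr} (hl : l ≠ p) :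
    cpG l (nuG d H a) = d.nu ((π l).val.map ((↑) : ℤ_[l] → ℚ_[l])) a := by
  rw [cpG_eq, gm_nuG d H ha, cp_offM_ne hl, nuA_eq, cp_nu]

theorem cpG_nuG_self (a : 𝓞 E) : cpG p (nuG d H a) = 1 := by
  by_cases ha : a = 0
  · rw [nuG, dif_pos ha, map_one]
  · rw [cpG_eq, gm_nuG d H ha, cp_offM_self]

theorem mulG_nuG (ha : a ≠ 0) :
    (mulG (nuG d H a) : AF) = off p (qa (Algebra.norm ℚ (a : E))) :=
  mulG_eq (by rw [gm_nuG d H ha]; exact offM_nu_sim d H a)

/-- on vectors with zero component at `p` the two type norms agree -/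
theorem gm_nuG_mulVec (ha : a ≠ 0) {x : W} (hx : x ∈ Wp p) :
    gm (nuG d H a) *ᵥ x = nuA d π a *ᵥ x := by
  have h : sg p 1 • x = 0 := funext fun i => by
    rw [Pi.smul_apply, smul_eq_mul, mul_comm, gn_mul_sg, hx i p rfl, zero_mul, map_zero,
      Pi.zero_apply]
  rw [gm_nuG d H ha, offM, add_mulVec, smul_mulVec, smul_mulVec, one_mulVec, h, add_zero,
    ← mulVec_smul, (sub_smul (1 : AF) (sg p 1) x).trans (by rw [h, one_smul, sub_zero])]

end

end Pool.Agent.MT
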