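import Pool.Agent.Lib.MP_d61fbb_ag.MT.I1

/-! The shape of the assembly: every line is proved by the owner in a file of its own. -/

set_option autoImplicit false

namespace Pool.Agent.MT

def T_A : Prop := INJ → AStmt
def T_GH : Prop := GH
def T_B0 : Prop := IRR ∧ UNIQ ∧ GENP ∧ INJ
def T_VAN : Prop := IRR → UNIQ → GENP → INJ → VAN
def T_WEIL : Prop := IRR → UNIQ → GENP → INJ → VAN → WEIL
def T_ALPHA : Prop := IRR → UNIQ → GENP → INJ → VAN → ALPHA
def T_RED : Prop := IRR → UNIQ → GENP → INJ → GH → REDS ∧ LAT ∧ REDG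
def T_ORD : Prop := IRR → UNIQ → GENP → INJ → GH → VAN → LAT → REDG → ORD
def T_DPL : Prop := REDS → WEIL → DPL
def T_CM : Prop := IRR → UNIQ → GENP → INJ → GH → VAN → ALPHA → REDS → LAT → REDG → ORD → CM
def T_ZL : Prop := AStmt → GH → DPL → CM → ZL
def T_S1 : Prop := ZL → Stage1
def T_S2 : Prop := ZL → Stage2

theorem zl_of (a : T_A) (gh : T_GH) (b0 : T_B0) (van : T_VAN) (weil : T_WEIL) (al : T_ALPHA)
    (red : T_RED) (ord : T_ORD) (dpl : T_DPL) (cm : T_CM) (zl : T_ZL) : ZL := by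
  obtain ⟨h1, h2, h3, h4⟩ := b0
  have hv := van h1 h2 h3 h4
  obtain ⟨r1, r2, r3⟩ := red h1 h2 h3 h4 gh
  exact zl (a h4) gh (dpl r1 (weil h1 h2 h3 h4 hv))
    (cm h1 h2 h3 h4 gh hv (al h1 h2 h3 h4 hv) r1 r2 r3 (ord h1 h2 h3 h4 gh hv r2 r3))

end Pool.Agent.MT
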