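import Pool.Agent.Lib.MP_d61fbb_ag.MT.T3
import Pool.Agent.Lib.MP_d61fbb_ag.MT.T4
import Pool.Agent.Lib.MP_d61fbb_ag.MT.Top

namespace Pool.Agent.MT

theorem t_b0 : T_B0 := ⟨irr_of, uniq_of, genp_of, inj_of genp_of⟩

end Pool.Agent.MT
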