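import Mathlib

/-! Block B of the MT project: the translates by half periods have no common zero at a place. -/

namespace MTB

variable {V : Type*} [AddCommGroup V]

/-- A positive function that satisfies the multiplicative parallelogram law and is one on a
subgroup with torsion quotient, under which it is periodic, is one. -/
theorem eq_one_of_par (Λ : AddSubgroup V) (m : V → ℝ) (pos : ∀ x, 0 < m x)
    (per : ∀ x, ∀ t ∈ Λ, m (x + t) = m x) (h0 : m 0 = 1)
    (par : ∀ u w, m (u + w) * m (u - w) = m u ^ 2 * m w ^ 2)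
    (tors : ∀ x, ∃ n : ℕ, n ≠ 0 ∧ n • x ∈ Λ) (x : V) : m x = 1 := by
  have key : ∀ n : ℕ, m (n • x) = m x ^ (n ^ 2) ∧ m ((n + 1) • x) = m x ^ ((n + 1) ^ 2) := by
    intro n
    induction n with
    | zero => simp [h0]
    | succ n ih =>
      refine ⟨ih.2, ?_⟩
      have h := par ((n + 1) • x) x
      rw [← succ_nsmul, show (n + 1) • x - x = n • x by rw [succ_nsmul, add_sub_cancel_right],
        ih.1, ih.2] at h
      refine mul_right_cancel₀ (pow_pos (pos x) (n ^ 2)).ne' (h.trans ?_)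
      rw [← pow_mul, ← pow_add, ← pow_add]
      congr 1
      ring
  obtain ⟨n, hn, hx⟩ := tors x
  have h1 := per 0 _ hx
  rw [zero_add, h0, (key n).1] at h1
  exact (pow_eq_one_iff_of_nonneg (pos x).le (pow_ne_zero 2 hn)).1 h1

variable {J : Type*} [Finite J] [Nonempty J]

/-- The size `a` of a theta function at a nonarchimedean place where the theta constants are units
or zero is bounded by one, and the bound is attained among the translates by half periods. -/
theorem nv_val (Λ : AddSubgroup V) (a : V → ℝ) (h : J → V) (nn : ∀ x, 0 ≤ a x)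
    (per : ∀ x, ∀ t ∈ Λ, a (x + t) = a x) (h2 : ∀ j, h j + h j ∈ Λ)
    (hadd : ∀ i j, ∃ l, h i + h j - h l ∈ Λ) (h00 : ∃ j, h j ∈ Λ)
    (ri : ∀ s₁ s₂ s₃ s₄ : V, ∃ j, a (s₁ + s₂) * a (s₁ - s₂) * a (s₃ + s₄) * a (s₃ - s₄) ≤
      a (s₁ + s₃ + h j) * a (s₁ - s₃ + h j) * a (s₂ + s₄ + h j) * a (s₂ - s₄ + h j))
    (half : ∀ x : V, ∃ y, y + y = x)
    (nv : ∀ x, ∃ j, a (x + h j) ≠ 0) (unit : ∀ j, a (h j) = 0 ∨ a (h j) = 1)
    (tors : ∀ x, ∃ n : ℕ, n ≠ 0 ∧ n • x ∈ Λ) (x : V) :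
    a x ≤ 1 ∧ ∃ j, a (x + h j) = 1 := by
  choose jm hjm using fun z => Finite.exists_max fun j => a (z + h j)
  let m : V → ℝ := fun z => a (z + h (jm z))
  let HP : V → Prop := fun t => ∃ j, t - h j ∈ Λ
  have hh : ∀ j, HP (h j) := fun j => ⟨j, by simp⟩
  have hA : ∀ {s t}, HP s → HP t → HP (s + t) := by
    rintro s t ⟨i, hi⟩ ⟨j, hj⟩
    obtain ⟨l, hl⟩ := hadd i j
    exact ⟨l, by convert Λ.add_mem (Λ.add_mem hi hj) hl using 1; abel⟩
  have hN : ∀ {s}, HP s → HP (-s) := by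
    rintro s ⟨i, hi⟩
    exact ⟨i, by convert Λ.sub_mem (Λ.neg_mem hi) (h2 i) using 1; abel⟩
  have hZ : HP 0 := let ⟨j, hj⟩ := h00; ⟨j, by simpa using hj⟩
  have le : ∀ {y} z t, HP t → y = z + t → a y ≤ m z := by
    rintro _ z t ⟨j, hj⟩ rfl
    rw [show z + t = z + h j + (t - h j) by abel, per _ _ hj]
    exact hjm z j
  have un : ∀ t, HP t → a t = 0 ∨ a t = 1 := by
    rintro t ⟨j, hj⟩
    rw [show t = h j + (t - h j) by abel, per _ _ hj]
    exact unit j
  have l1 : ∀ t, HP t → a t ≤ 1 := fun t ht => (un t ht).elim (fun e => by simp [e]) le_of_eq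
  have pos : ∀ z, 0 < m z := fun z =>
    let ⟨j, hj⟩ := nv z; ((nn _).lt_of_ne' hj).trans_le (hjm z j)
  have mp : ∀ z, ∀ t ∈ Λ, m (z + t) ≤ m z := fun z t ht =>
    le z (t + h (jm (z + t))) ⟨jm (z + t), by simpa using ht⟩ (by abel)
  have sqq : ∀ u w, ∃ j, m u ^ 2 * m w ^ 2 ≤
      a (u + w + (h (jm u) + h (jm w) + h j)) * a (u - w + (h (jm u) - h (jm w) + h j)) := by
    intro u w
    obtain ⟨j, hj⟩ := ri (u + h (jm u)) 0 (w + h (jm w)) 0
    refine ⟨j, ?_⟩
    simp only [add_zero, sub_zero, zero_add] at hj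
    rw [show u + w + (h (jm u) + h (jm w) + h j) = u + h (jm u) + (w + h (jm w)) + h j by abel,
      show u - w + (h (jm u) - h (jm w) + h j) = u + h (jm u) - (w + h (jm w)) + h j by abel]
    refine le_trans (le_of_eq (by simp only [m]; ring)) (hj.trans ?_)
    exact (mul_le_of_le_one_right (mul_nonneg (mul_nonneg (nn _) (nn _)) (nn _)) (l1 _ (hh j))).trans
      (mul_le_of_le_one_right (mul_nonneg (nn _) (nn _)) (l1 _ (hh j)))
  have h1 : m x = 1 := by
    refine eq_one_of_par Λ m pos (fun z t ht => le_antisymm (mp z t ht) ?_) ?_ (fun u w => ?_) tors x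
    · simpa using mp (z + t) (-t) (Λ.neg_mem ht)
    · exact (un (0 + h (jm 0)) (hA hZ (hh _))).resolve_left (pos 0).ne'
    refine le_antisymm ?_ ?_
    · obtain ⟨y, hy⟩ := half (h (jm (u + w)) + h (jm (u - w)))
      obtain ⟨e, he⟩ : ∃ e, h (jm (u + w)) = y + e := ⟨h (jm (u + w)) - y, by abel⟩
      have he' : h (jm (u - w)) = y - e := by
        rw [← add_right_inj (h (jm (u + w))), ← hy, he]; abel
      have Hp : HP (y + e) := he ▸ hh _
      have Hm : HP (y - e) := he' ▸ hh _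
      obtain ⟨i, hi⟩ := sqq y e
      obtain ⟨κ, hκ⟩ : ∃ κ, κ = h (jm y) + h (jm e) + h i := ⟨_, rfl⟩
      have Hκ : HP κ := hκ ▸ hA (hA (hh _) (hh _)) (hh _)
      rw [← hκ, ← per (y - e + _) _ (h2 (jm e)),
        show y - e + (h (jm y) - h (jm e) + h i) + (h (jm e) + h (jm e)) = y - e + κ by
          rw [hκ]; abel] at hi
      have hp := ((mul_pos (pow_pos (pos y) 2) (pow_pos (pos e) 2)).trans_le hi).ne'
      have u1 := (un _ (hA Hp Hκ)).resolve_left (left_ne_zero_of_mul hp)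
      have u2 := (un _ (hA Hm Hκ)).resolve_left (right_ne_zero_of_mul hp)
      obtain ⟨j, hj⟩ := ri (u + y) (w + e) (y + κ) e
      rw [show y + κ + e = y + e + κ by abel, show y + κ - e = y - e + κ by abel, u1, u2, mul_one,
        mul_one, show u + y + (w + e) = u + w + (y + e) by abel,
        show u + y - (w + e) = u - w + (y - e) by abel, ← he, ← he'] at hj
      refine hj.trans ?_
      rw [sq, sq, ← mul_assoc]
      refine mul_le_mul (mul_le_mul (mul_le_mul ?_ ?_ (nn _) (pos _).le) ?_ (nn _)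
        (mul_pos (pos _) (pos _)).le) ?_ (nn _) (mul_pos (mul_pos (pos _) (pos _)) (pos _)).le
      · exact le u _ (hA (hA (hA Hp Hm) Hκ) (hh j)) (by abel)
      · exact le u _ (hA (hN Hκ) (hh j)) (by abel)
      · exact le w _ (hA (hA Hp (hN Hm)) (hh j)) (by abel)
      · exact le w _ (hh j) (by abel)
    · obtain ⟨j, hj⟩ := sqq u w
      exact hj.trans (mul_le_mul (le _ _ (hA (hA (hh _) (hh _)) (hh j)) rfl)
        (le _ _ (hA (hA (hh _) (hN (hh _))) (hh j)) (by rw [sub_eq_add_neg (h _)])) (nn _) (pos _).le)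
  exact ⟨h1 ▸ le x 0 hZ (add_zero x).symm, jm x, h1⟩

end MTB
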