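import Mathlib

/-! Reduction of functions modulo a valuation: residue map, independence, averaging. -/

noncomputable section

namespace MTB

open IsLocalRing Finset

variable {Ω : Type*} [Field Ω] (O : ValuationSubring Ω)

open Classical in
/-- the residue map, extended by zero -/
def rd (x : Ω) : ResidueField O := if h : x ∈ O then residue O ⟨x, h⟩ else 0

variable {O} {x y : Ω}

theorem rd_of (h : x ∈ O) : rd O x = residue O ⟨x, h⟩ := dif_pos h

theorem rd_coe (x : O) : rd O x = residue O x := rd_of x.2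

theorem rd_add (hx : x ∈ O) (hy : y ∈ O) : rd O (x + y) = rd O x + rd O y := by
  rw [rd_of hx, rd_of hy, rd_of (add_mem hx hy), ← map_add]; rfl

theorem rd_mul (hx : x ∈ O) (hy : y ∈ O) : rd O (x * y) = rd O x * rd O y := by
  rw [rd_of hx, rd_of hy, rd_of (mul_mem hx hy), ← map_mul]; rfl

theorem rd_neg (hx : x ∈ O) : rd O (-x) = -rd O x := by
  rw [rd_of hx, rd_of (neg_mem hx), ← map_neg]; rfl

theorem rd_sub (hx : x ∈ O) (hy : y ∈ O) : rd O (x - y) = rd O x - rd O y := by
  rw [sub_eq_add_neg, rd_add hx (neg_mem hy), rd_neg hy, sub_eq_add_neg]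

@[simp] theorem rd_zero : rd O 0 = 0 := by rw [rd_of (zero_mem O)]; exact map_zero (residue O)

@[simp] theorem rd_one : rd O 1 = 1 := by rw [rd_of (one_mem O)]; exact map_one (residue O)

theorem rd_pow (hx : x ∈ O) (n : ℕ) : rd O (x ^ n) = rd O x ^ n := by
  induction n with
  | zero => simp
  | succ n ih => rw [pow_succ, rd_mul (pow_mem hx n) hx, ih, pow_succ]

theorem rd_sum {ι : Type*} (s : Finset ι) {f : ι → Ω} (h : ∀ i ∈ s, f i ∈ O) :
    rd O (∑ i ∈ s, f i) = ∑ i ∈ s, rd O (f i) := by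
  classical
  induction s using Finset.induction_on with
  | empty => simp
  | insert a s ha ih =>
    rw [sum_insert ha, sum_insert ha, rd_add (h a (by simp))
      (sum_mem fun i hi => h i (by simp [hi])), ih fun i hi => h i (by simp [hi])]

theorem rd_prod {ι : Type*} (s : Finset ι) {f : ι → Ω} (h : ∀ i ∈ s, f i ∈ O) :
    rd O (∏ i ∈ s, f i) = ∏ i ∈ s, rd O (f i) := by
  classical
  induction s using Finset.induction_on with
  | empty => simp
  | insert a s ha ih =>
    rw [prod_insert ha, prod_insert ha, rd_mul (h a (by simp))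
      (prod_mem fun i hi => h i (by simp [hi])), ih fun i hi => h i (by simp [hi])]

@[simp] theorem rd_natCast (n : ℕ) : rd O n = n := by
  rw [rd_of (natCast_mem O n)]; exact map_natCast (residue O) n

@[simp] theorem rd_intCast (n : ℤ) : rd O n = n := by
  rw [rd_of (intCast_mem O n)]; exact map_intCast (residue O) n

theorem exists_rd (c : ResidueField O) : ∃ x ∈ O, rd O x = c := by
  obtain ⟨x, rfl⟩ := residue_surjective c
  exact ⟨x, x.2, rd_coe x⟩

theorem mem_iff : x ∈ O ↔ O.valuation x ≤ 1 := (O.valuation_le_one_iff x).symm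

theorem rd_eq_zero (hx : x ∈ O) : rd O x = 0 ↔ O.valuation x < 1 := by
  rw [rd_of hx, residue_eq_zero_iff, ValuationSubring.valuation_lt_one_iff]

theorem rd_ne_zero (hx : x ∈ O) : rd O x ≠ 0 ↔ O.valuation x = 1 := by
  rw [Ne, rd_eq_zero hx, not_lt]
  exact ⟨fun h => le_antisymm (mem_iff.1 hx) h, fun h => h.ge⟩

theorem rd_eq_iff (hx : x ∈ O) (hy : y ∈ O) : rd O x = rd O y ↔ O.valuation (x - y) < 1 := by
  rw [← rd_eq_zero (sub_mem hx hy), rd_sub hx hy, sub_eq_zero]

theorem inv_mem (hx : x ∈ O) (h : rd O x ≠ 0) : x⁻¹ ∈ O := by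
  rw [mem_iff, map_inv₀, (rd_ne_zero hx).1 h, inv_one]

theorem ne_zero_of_rd (h : rd O x ≠ 0) : x ≠ 0 := fun h0 => h (by rw [h0, rd_zero])

theorem rd_inv (hx : x ∈ O) (h : rd O x ≠ 0) : rd O x⁻¹ = (rd O x)⁻¹ :=
  eq_inv_of_mul_eq_one_left (by
    rw [← rd_mul (inv_mem hx h) hx, inv_mul_cancel₀ (ne_zero_of_rd h), rd_one])

theorem val_of_pow {n : ℕ} (hn : n ≠ 0) (h : x ^ n = 1) : O.valuation x = 1 := by
  have := congrArg O.valuation h
  rw [map_pow, map_one] at this
  exact (pow_eq_one_iff_of_nonneg zero_le hn).1 this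

theorem mem_of_pow {n : ℕ} (hn : n ≠ 0) (h : x ^ n = 1) : x ∈ O := mem_iff.2 (val_of_pow hn h).le

theorem rd_ne_of_pow {n : ℕ} (hn : n ≠ 0) (h : x ^ n = 1) : rd O x ≠ 0 :=
  (rd_ne_zero (mem_of_pow hn h)).2 (val_of_pow hn h)

/-- roots of unity of order invertible in the residue field inject -/
theorem eq_one_of_rd {n : ℕ} (hn : (n : ResidueField O) ≠ 0) (h : x ^ n = 1) (h1 : rd O x = 1) :
    x = 1 := by
  have hn0 : n ≠ 0 := fun h0 => hn (by rw [h0, Nat.cast_zero])
  have hx := mem_of_pow (O := O) hn0 h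
  by_contra hne
  have h2 : ∑ i ∈ range n, x ^ i = 0 := by
    have := mul_geom_sum x n
    rw [h, sub_self] at this
    exact (mul_eq_zero.1 this).resolve_left (sub_ne_zero.2 hne)
  have h3 := congrArg (rd O) h2
  rw [rd_sum _ fun i _ => pow_mem hx i, rd_zero] at h3
  simp only [rd_pow hx, h1, one_pow, sum_const, card_range, nsmul_eq_mul, mul_one] at h3
  exact hn h3

/-- roots of unity of `p`-power order reduce to one -/
theorem rd_of_pow_char {p : ℕ} [Fact p.Prime] [CharP (ResidueField O) p] {n : ℕ}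
    (h : x ^ p ^ n = 1) : rd O x = 1 := by
  have hx := mem_of_pow (O := O) (pow_ne_zero n (Fact.out : p.Prime).ne_zero) h
  have h1 : rd O x ^ p ^ n = 1 := by rw [← rd_pow hx, h, rd_one]
  have h2 : (rd O x - 1) ^ p ^ n = 0 := by rw [sub_pow_char_pow, h1, one_pow, sub_self]
  exact sub_eq_zero.1 (pow_eq_zero_iff (pow_ne_zero n (Fact.out : p.Prime).ne_zero) |>.1 h2)

theorem charP_of {p : ℕ} (hp : p.Prime) (h : O.valuation p < 1) : CharP (ResidueField O) p := by
  have := Fact.mk hp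
  exact (CharP.charP_iff_prime_eq_zero hp).2 (by
    rw [← rd_natCast]; exact (rd_eq_zero (natCast_mem O p)).2 h)

theorem infinite_res [IsAlgClosed Ω] : Infinite (ResidueField O) := by
  classical
  by_contra hf
  rw [not_infinite_iff_finite] at hf
  have := Fintype.ofFinite (ResidueField O)
  choose l hl hl' using exists_rd (O := O)
  let f : Polynomial Ω := ∏ c, (Polynomial.X - Polynomial.C (l c))
  have hd : f.degree = Fintype.card (ResidueField O) := by
    simp [f, Polynomial.degree_prod]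
  have hpos : 0 < f.degree := by rw [hd]; exact_mod_cast Fintype.card_pos
  obtain ⟨z, hz⟩ := IsAlgClosed.exists_root (f + 1) (by
    rw [Polynomial.degree_add_eq_left_of_degree_lt (by simpa using hpos)]; exact hpos.ne')
  have h1 : ∏ c, (z - l c) = -1 := by
    have := hz.eq_zero
    simp only [f, Polynomial.eval_add, Polynomial.eval_prod, Polynomial.eval_sub, Polynomial.eval_X,
      Polynomial.eval_C, Polynomial.eval_one] at this
    exact eq_neg_of_add_eq_zero_left this
  by_cases hz1 : z ∈ O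
  · have h2 := congrArg (rd O) h1
    rw [rd_prod _ fun c _ => sub_mem hz1 (hl c), rd_neg (one_mem O), rd_one,
      prod_eq_zero (mem_univ (rd O z)) (by rw [rd_sub hz1 (hl _), hl', sub_self])] at h2
    exact one_ne_zero (neg_eq_zero.1 h2.symm)
  · have h2 := congrArg O.valuation h1
    have h3 : 1 < O.valuation z := not_le.1 fun h => hz1 (mem_iff.2 h)
    rw [map_prod, Valuation.map_neg, map_one, prod_congr rfl fun c _ =>
      O.valuation.map_sub_eq_of_lt_left ((mem_iff.1 (hl c)).trans_lt h3), prod_const] at h2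
    exact absurd h2 (one_lt_pow₀ h3 Fintype.card_pos.ne').ne'

/-- a valuation ring extends to every larger field -/
theorem exists_ext {L : Type*} [Field L] (j : Ω →+* L) (O : ValuationSubring Ω) :
    ∃ O' : ValuationSubring L, (∀ x, j x ∈ O' ↔ x ∈ O) ∧
      ∀ x, O'.valuation (j x) < 1 ↔ O.valuation x < 1 := by
  let e := O.toSubring.equivMapOfInjective j j.injective
  obtain ⟨B, h1, h2⟩ := Ideal.image_subset_nonunits_valuationSubring
    ((maximalIdeal O).comap e.symm.toRingHom) (Ideal.comap_ne_top _ (maximalIdeal.isMaximal O).ne_top)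
  have a : ∀ x ∈ O, j x ∈ B := fun x hx => h1 ⟨x, hx, rfl⟩
  have b : ∀ x, O.valuation x < 1 → B.valuation (j x) < 1 := fun x hx => by
    have hx' : x ∈ O := mem_iff.2 hx.le
    refine B.mem_nonunits_iff.1 (h2 ⟨e ⟨x, hx'⟩, ?_, rfl⟩)
    change e.symm (e _) ∈ maximalIdeal O
    rw [e.symm_apply_apply]
    exact (ValuationSubring.valuation_lt_one_iff O ⟨x, hx'⟩).2 hx
  refine ⟨B, fun x => ⟨fun h => ?_, a x⟩, fun x => ⟨fun h => ?_, b x⟩⟩
  · by_contra hx
    have h3 : 1 < O.valuation x := not_le.1 fun h => hx (mem_iff.2 h)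
    have h4 := b x⁻¹ (by rw [map_inv₀]; exact inv_lt_one_of_one_lt₀ h3)
    have h0 : x ≠ 0 := fun h0 => hx (h0 ▸ zero_mem O)
    rw [map_inv₀, map_inv₀, inv_lt_one₀ (zero_lt_iff.2 (by simpa using h0))] at h4
    exact absurd (mem_iff.1 h) (not_le.2 h4)
  · by_contra hx
    rw [not_lt] at hx
    have h0 : x ≠ 0 := fun h0 => by simp [h0] at hx
    have h4 := mem_iff.1 (a x⁻¹ (mem_iff.2 (by rw [map_inv₀]; exact inv_le_one_of_one_le₀ hx)))
    rw [map_inv₀, map_inv₀, inv_le_one₀ (zero_lt_iff.2 (by simpa using h0))] at h4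
    exact absurd h (not_lt.2 h4)

variable {V W : Type*}

/-- Functions with independent reductions are independent. -/
theorem indep {ι : Type*} (inc : W → V) {F : ι → V → Ω} (hF : ∀ i x, F i x ∈ O)
    (h : LinearIndependent (ResidueField O) fun i w => rd O (F i (inc w))) :
    LinearIndependent Ω F := by
  classical
  rw [linearIndependent_iff'] at h ⊢
  intro s c hc i hi
  by_contra hne
  obtain ⟨m, hm, hmax⟩ := exists_max_image s (fun i => O.valuation (c i)) ⟨i, hi⟩
  have hm0 : c m ≠ 0 := fun h0 => hne (by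
    have := hmax i hi
    rw [h0, map_zero, le_zero_iff] at this
    exact (map_eq_zero _).1 this)
  have hq : ∀ a ∈ s, c a / c m ∈ O := fun a ha => by
    rw [mem_iff, map_div₀]
    exact div_le_one_of_le₀ (hmax a ha) zero_le
  have := h s (fun a => rd O (c a / c m)) (by
    funext w
    have h1 := congrFun hc (inc w)
    simp only [Finset.sum_apply, Pi.smul_apply, smul_eq_mul, Pi.zero_apply] at h1 ⊢
    rw [← sum_congr rfl fun a ha => rd_mul (hq a ha) (hF a _),
      ← rd_sum _ fun a ha => mul_mem (hq a ha) (hF a _)]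
    simp only [div_mul_eq_mul_div]
    rw [← sum_div, h1, zero_div, rd_zero]) m hm
  simp [div_self hm0] at this

/-- the reductions of a module of integral functions -/
def redSub (inc : W → V) (H : Submodule O (V → Ω)) (hH : ∀ F ∈ H, ∀ x, F x ∈ O) :
    Submodule (ResidueField O) (W → ResidueField O) where
  carrier := {f | ∃ F ∈ H, f = fun w => rd O (F (inc w))}
  zero_mem' := ⟨0, zero_mem H, funext fun _ => rd_zero.symm⟩
  add_mem' := by
    rintro _ _ ⟨F, hF, rfl⟩ ⟨G, hG, rfl⟩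
    exact ⟨F + G, add_mem hF hG, funext fun _ => (rd_add (hH F hF _) (hH G hG _)).symm⟩
  smul_mem' := by
    rintro c _ ⟨F, hF, rfl⟩
    obtain ⟨a, ha, rfl⟩ := exists_rd c
    exact ⟨(⟨a, ha⟩ : O) • F, H.smul_mem _ hF, funext fun _ => (rd_mul ha (hH F hF _)).symm⟩

section avg

variable {G : Type*} [AddCommGroup G] {E : Type*} [AddCommMonoid E]

/-- the sum over the cosets of a subgroup that fixes a vector is invariant -/
theorem sum_inv (T : G → E →+ E) (hT : ∀ a b f, T (a + b) f = T a (T b f)) (K : AddSubgroup G)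
    [Fintype (G ⧸ K)] {F : E} (hK : ∀ a ∈ K, T a F = F) (g : G) :
    T g (∑ q : G ⧸ K, T q.out F) = ∑ q : G ⧸ K, T q.out F := by
  rw [map_sum]
  refine Fintype.sum_equiv (Equiv.addLeft (g : G ⧸ K)) _ _ fun q => ?_
  have h : -((g : G ⧸ K) + q).out + (g + q.out) ∈ K := QuotientAddGroup.eq.1 (by simp)
  rw [← hT, Equiv.coe_addLeft, ← add_neg_cancel_left ((g : G ⧸ K) + q).out (g + q.out), hT, hK _ h]

variable (T : G → (V → Ω) →ₗ[Ω] V → Ω) (H : Submodule O (V → Ω))

/-- An integral function with invariant reduction has an invariant lift. -/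
theorem lift_inv (inc : W → V) (hT : ∀ a b f, T (a + b) f = T a (T b f))
    (hH : ∀ F ∈ H, ∀ x, F x ∈ O) (hTH : ∀ g, ∀ F ∈ H, T g F ∈ H) (K : AddSubgroup G)
    (hi : (K.index : ResidueField O) ≠ 0) {F : V → Ω} (hF : F ∈ H) (hK : ∀ a ∈ K, T a F = F)
    (hr : ∀ g w, rd O (T g F (inc w)) = rd O (F (inc w))) :
    ∃ F' ∈ H, (∀ g, T g F' = F') ∧ (∀ w, rd O (F' (inc w)) = rd O (F (inc w))) ∧
      F' ∈ Submodule.span Ω (Set.range fun g => T g F) := by
  have : K.FiniteIndex := ⟨fun h => hi (by rw [h, Nat.cast_zero])⟩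
  have := Fintype.ofFinite (G ⧸ K)
  have h1 : rd O (K.index : Ω) ≠ 0 := by rwa [rd_natCast]
  have h2 := inv_mem (natCast_mem O _) h1
  refine ⟨(K.index : Ω)⁻¹ • ∑ q : G ⧸ K, T q.out F,
    H.smul_mem (⟨_, h2⟩ : O) (sum_mem fun q _ => hTH _ _ hF), fun g => ?_, fun w => ?_,
    Submodule.smul_mem _ _ (sum_mem fun q _ => Submodule.subset_span ⟨_, rfl⟩)⟩
  · rw [map_smul]
    exact congrArg _ (sum_inv (fun g => (T g).toAddMonoidHom) hT K hK g)
  · have h3 := fun q : G ⧸ K => hH _ (hTH q.out _ hF) (inc w)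
    rw [Pi.smul_apply, Finset.sum_apply, smul_eq_mul, rd_mul h2 (sum_mem fun q _ => h3 q),
      rd_sum _ fun q _ => h3 q, rd_inv (natCast_mem O _) h1, rd_natCast]
    simp only [hr, sum_const, card_univ, nsmul_eq_mul]
    rw [← Nat.card_eq_fintype_card, ← AddSubgroup.index_eq_card, inv_mul_cancel_left₀ hi]

/-- Decomposition into eigenvectors inside a module over the valuation ring. -/
theorem exists_dec (hT : ∀ a b f, T (a + b) f = T a (T b f)) (hTH : ∀ g, ∀ F ∈ H, T g F ∈ H)
    (K : AddSubgroup G) [Fintype (G ⧸ K)] (hi : (K.index : ResidueField O) ≠ 0) {F : V → Ω}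
    (hF : F ∈ H) (hK : ∀ a ∈ K, T a F = F) (ω : G → G → Ω) (hω : ∀ y g, ω y g ∈ O)
    (hl : ∀ y z g, ω (y + z) g = ω y g * ω z g) (hr : ∀ y a b, ω y (a + b) = ω y a * ω y b)
    (h1 : ∀ y, ∀ a ∈ K, ω y a = 1) (h2 : ∀ y ∈ K, ∀ a, ω y a = 1)
    (hn : ∀ g, (∀ y, ω y g = 1) → g ∈ K) :
    ∃ Φ : G ⧸ K → V → Ω, (∀ y, Φ y ∈ H ∧ ∀ g, ω y.out g • T g (Φ y) = Φ y) ∧ ∑ y, Φ y = F := by
  classical
  have h3 : rd O (K.index : Ω) ≠ 0 := by rwa [rd_natCast]
  have h4 := inv_mem (natCast_mem O _) h3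
  have h5 : (0 : G ⧸ K).out ∈ K := (QuotientAddGroup.eq_zero_iff _).1 (by simp)
  refine ⟨fun y => (K.index : Ω)⁻¹ • ∑ q : G ⧸ K, ω y.out q.out • T q.out F, fun y =>
    ⟨H.smul_mem (⟨_, h4⟩ : O) (sum_mem fun q _ => H.smul_mem (⟨_, hω _ _⟩ : O) (hTH _ _ hF)),
      fun g => ?_⟩, ?_⟩
  · rw [map_smul, smul_comm]
    exact congrArg _ (sum_inv (fun g => (ω y.out g • T g).toAddMonoidHom) (fun a b f => by
      simp [hr, hT, smul_smul, mul_comm]) K (fun a ha => by simp [h1 _ a ha, hK a ha]) g)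
  · rw [← smul_sum, sum_comm, sum_eq_single (0 : G ⧸ K)]
    · simp only [h1 _ _ h5, hK _ h5, one_smul, sum_const, card_univ]
      rw [← Nat.card_eq_fintype_card, ← AddSubgroup.index_eq_card, ← Nat.cast_smul_eq_nsmul Ω,
        inv_smul_smul₀ (ne_zero_of_rd h3)]
    · intro q _ hq
      have h : q.out ∉ K := fun h => hq (by
        rw [← (QuotientAddGroup.eq_zero_iff _).2 h]; simp)
      have h6 : ∀ y z : G, (y : G ⧸ K) = z → ω y q.out = ω z q.out := fun y z e => by
        rw [← add_neg_cancel_left y z, hl, h2 _ (QuotientAddGroup.eq.1 e), mul_one]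
      let χ : AddChar (G ⧸ K) Ω := ⟨fun y => ω y.out q.out, h2 _ h5 _, fun y z => by
        rw [← hl]; exact h6 _ _ (by simp)⟩
      have h7 : ∑ y, χ y = 0 := AddChar.sum_eq_zero_of_ne_one fun h8 =>
        h (hn _ fun y => (h6 y (y : G ⧸ K).out (by simp)).trans (DFunLike.congr_fun h8 _))
      rw [← sum_smul]
      exact smul_eq_zero_of_left h7 _
    · simp

/-- the index of a subgroup that contains all multiples of `N` -/
theorem index_ne {k : Type*} [Field k] (K : AddSubgroup G) [K.FiniteIndex] {N : ℕ}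
    (hN : (N : k) ≠ 0) (h : ∀ g : G, N • g ∈ K) : (K.index : k) ≠ 0 := by
  intro h0
  obtain ⟨p, hp⟩ := CharP.exists k
  have h1 : p ∣ K.index := (CharP.cast_eq_zero_iff k p _).1 h0
  rcases CharP.char_is_prime_or_zero k p with h2 | rfl
  · have := Fact.mk h2
    obtain ⟨q, hq⟩ := exists_prime_addOrderOf_dvd_card' (G := G ⧸ K) p h1
    obtain ⟨g, rfl⟩ := QuotientAddGroup.mk_surjective q
    refine hN ((CharP.cast_eq_zero_iff k p _).2 (hq ▸ addOrderOf_dvd_of_nsmul_eq_zero ?_))
    exact (QuotientAddGroup.eq_zero_iff _).2 (h g)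
  · exact AddSubgroup.FiniteIndex.index_ne_zero (zero_dvd_iff.1 h1)

end avg

end MTB
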