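import Pool.Agent.Lib.MP_d61fbb_ag.MT.I1
import Pool.Agent.Lib.MP_d61fbb_ag.MT.BRed0
import Pool.Agent.Lib.MP_d61fbb_ag.MT.BNv

/-! Block B of the MT project: the reduction of the theta system at a good place. -/

set_option autoImplicit false

noncomputable section

namespace Pool.Agent.MT

open Matrix Polynomial Sum
open Pool.Agent.Lib.MP_696deb_nt.B2 (Qbar Gam Plc Dec Ine IsFrob Op jC)
open scoped NNReal Classical

theorem closed_res {Ω : Type*} [Field Ω] [IsAlgClosed Ω] (O : ValuationSubring Ω) :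
    IsAlgClosed (IsLocalRing.ResidueField O) := by
  refine IsAlgClosed.of_exists_root _ fun f hf hi => ?_
  obtain ⟨g, rfl, -, hg⟩ := lifts_and_degree_eq_and_monic
    (mem_lifts_of_surjective IsLocalRing.residue_surjective f) hf
  have hd : (g.map (algebraMap O Ω)).degree ≠ 0 := by
    rw [hg.degree_map, ← hg.degree_map (IsLocalRing.residue O)]
    exact (degree_pos_of_irreducible hi).ne'
  obtain ⟨x, hx⟩ := IsAlgClosed.exists_root _ hd
  have hx' : aeval x g = 0 := by rwa [IsRoot, eval_map_algebraMap] at hx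
  obtain ⟨y, rfl⟩ := IsIntegrallyClosed.isIntegral_iff.1 (⟨g, hg, hx'⟩ : IsIntegral O x)
  refine ⟨IsLocalRing.residue O y, ?_⟩
  rw [aeval_algebraMap_apply, map_eq_zero_iff _ Subtype.val_injective, coe_aeval_eq_eval] at hx'
  rw [eval_map, eval₂_at_apply, hx', map_zero]

section
variable (w : Plc) {x y : Qbar}

theorem rd_eq : rd w = MTB.rd w.V.valuationSubring := rfl

theorem plc_lt : w.V.valuationSubring.valuation x < 1 ↔ w.V x < 1 :=
  (Valuation.isEquiv_valuation_valuationSubring w.V).lt_one_iff_lt_one.symm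

theorem plc_eq : w.V.valuationSubring.valuation x = 1 ↔ w.V x = 1 :=
  (Valuation.isEquiv_valuation_valuationSubring w.V).eq_one_iff_eq_one.symm

theorem rd_zero_iff (hx : w.V x ≤ 1) : rd w x = 0 ↔ w.V x < 1 :=
  (MTB.rd_eq_zero hx).trans (plc_lt w)

theorem rd_ne_iff (hx : w.V x ≤ 1) : rd w x ≠ 0 ↔ w.V x = 1 :=
  (MTB.rd_ne_zero hx).trans (plc_eq w)

theorem rd_eq_rd (hx : w.V x ≤ 1) (hy : w.V y ≤ 1) : rd w x = rd w y ↔ w.V (x - y) < 1 :=
  (MTB.rd_eq_iff hx hy).trans (plc_lt w)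

theorem charP_kk : CharP (kk w) w.p := MTB.charP_of w.prime ((plc_lt w).2 (by
  rw [w.hV]; exact inv_lt_one_of_one_lt₀ (by exact_mod_cast w.prime.one_lt)))

theorem rd_frob {n : ℕ} {g : Gam} (hg : IsFrob w n g) (hx : w.V x ≤ 1) :
    rd w (g x) = rd w x ^ n := by
  rw [rd_eq, ← MTB.rd_pow hx]
  refine (rd_eq_rd w ?_ (pow_mem (show x ∈ w.V.valuationSubring from hx) n)).2 (hg.2 x hx)
  rwa [Pool.Agent.Lib.MP_696deb_nt.B2.mem_Dec.1 hg.1]

end

section
variable {k : Type} [Field k] {q : ℕ} (S : TSys k q)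

theorem TSys.e_pow (x : AF) : ∃ n : ℕ, n ≠ 0 ∧ S.e x ^ n = 1 := by
  obtain ⟨n, hn, h⟩ := af_den x
  exact ⟨n, hn, by rw [← AddChar.map_nsmul_eq_pow, nsmul_eq_mul]; exact (S.ker _).2 fun l _ => h l⟩

end

theorem exists_nsmul_L0 (x : W) : ∃ n : ℕ, n ≠ 0 ∧ n • x ∈ L0 := by
  choose n hn h using fun i => af_den (x i)
  refine ⟨∏ i, n i, Finset.prod_ne_zero_iff.2 fun i _ => hn i, fun i _ => ?_⟩
  obtain ⟨c, hc⟩ := Finset.dvd_prod_of_mem n (Finset.mem_univ i)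
  rw [hc, mul_comm, mul_smul, Pi.smul_apply, Pi.smul_apply, nsmul_eq_mul (n i)]
  exact nsmul_mem (h i) c

theorem hw_add_sub (a b : I2 4 → ZMod 2) : hw a + hw b - hw (a + b) ∈ L0 := fun i _ => by
  have : ∀ x y : ZMod 2, ∃ m : ℤ, ((x.val : ℚ) / 2 + (y.val : ℚ) / 2 - ((x + y).val : ℚ) / 2) = m := by
    intro x y
    have h : ∃ m : ℤ, (x.val : ℤ) + y.val - (x + y).val = 2 * m := by
      revert x y
      simp only [← dvd_def]
      decide
    obtain ⟨m, hm⟩ := h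
    have : (x.val : ℚ) + y.val - (x + y).val = 2 * m := by exact_mod_cast hm
    exact ⟨m, by linarith⟩
  have h := qa_mem_Zh.2 (this (a i) (b i))
  rw [qa, map_sub, map_add] at h
  exact h

theorem hw_at_zero : hw 0 = 0 := funext fun i => by simp [hw, hq]

theorem hw_add_self (a : I2 4 → ZMod 2) : hw a + hw a ∈ L0 := by
  have := hw_add_sub a a
  rwa [show a + a = 0 from funext fun i => CharTwo.add_self_eq_zero (a i), hw_at_zero,
    sub_zero] at this

variable {τ : Matrix (Fin 4) (Fin 4) ℂ} {K : IntermediateField ℚ ℂ} {M : MumfordType τ K}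
  {A : AR M} (v : Frb A)

theorem Frb.e_val (x : AF) : v.w.V (A.S.e x) = 1 :=
  let ⟨_, hn, h⟩ := A.S.e_pow x; (plc_eq _).1 (MTB.val_of_pow hn h)

theorem Frb.nat_ne {n : ℕ} (h : ¬ (v.p : ℕ) ∣ n) : (n : kk v.w) ≠ 0 := by
  have := charP_kk v.w
  rwa [Ne, CharP.cast_eq_zero_iff _ v.w.p, v.hp]

theorem Frb.nat_val {n : ℕ} (h : ¬ (v.p : ℕ) ∣ n) : v.w.V (n : Qbar) = 1 := by
  rw [← rd_ne_iff _ (natCast_mem v.w.V.valuationSubring n), rd_eq, MTB.rd_natCast]
  exact v.nat_ne h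

theorem Frb.not_dvd_two : ¬ (v.p : ℕ) ∣ 2 := fun h => by
  have := Nat.le_of_dvd two_pos h
  have := v.big
  omega

/-- the theta function is integral, and its translates by half periods have no common zero -/
theorem Frb.nv (x : W) : v.w.V (A.S.Θ x) ≤ 1 ∧ ∃ η, v.w.V (A.S.Θ (x + hw η)) = 1 := by
  have h16 : v.w.V (16 : Qbar) = 1 := by
    rw [show (16 : Qbar) = (2 : ℕ) ^ 4 by norm_num, map_pow, v.nat_val v.not_dvd_two, one_pow]
  have := MTB.nv_val L0 (fun x => (v.w.V (A.S.Θ x) : ℝ)) hw (fun _ => NNReal.coe_nonneg _)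
    (fun x t ht => ?_) hw_add_self (fun a b => ⟨_, hw_add_sub a b⟩) ⟨0, hw_at_zero ▸ zero_mem _⟩
    (fun s₁ s₂ s₃ s₄ => ?_) (fun x => ⟨(1 / 2 : ℚ) • x, by module⟩)
    (fun x => by simpa using A.S.bpf x) (fun η => by simpa using v.unit η) exists_nsmul_L0 x
  · exact_mod_cast this
  · have := congrArg v.w.V (congrFun (A.S.per t ht) x)
    simp only [Rt, sgn, Pi.smul_apply, smul_eq_mul, map_mul, v.e_val, one_mul] at this
    rw [this]
  · have h := congrArg v.w.V (A.S.ri (s₁ + s₂) (s₁ - s₂) (s₃ + s₄) (s₃ - s₄))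
    rw [show (1 / 2 : ℚ) • (s₁ + s₂ + (s₁ - s₂) + (s₃ + s₄) + (s₃ - s₄)) = s₁ + s₃ by module,
      show (1 / 2 : ℚ) • (s₁ + s₂ + (s₁ - s₂) - (s₃ + s₄) - (s₃ - s₄)) = s₁ - s₃ by module,
      show (1 / 2 : ℚ) • (s₁ + s₂ - (s₁ - s₂) + (s₃ + s₄) - (s₃ - s₄)) = s₂ + s₄ by module,
      show (1 / 2 : ℚ) • (s₁ + s₂ - (s₁ - s₂) - (s₃ + s₄) + (s₃ - s₄)) = s₂ - s₄ by module,
      map_mul, h16, one_mul] at h
    obtain ⟨η, hη⟩ := Finite.exists_max fun η => v.w.V (A.S.Θ (s₁ + s₃ + hw η) *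
      A.S.Θ (s₁ - s₃ + hw η) * A.S.Θ (s₂ + s₄ + hw η) * A.S.Θ (s₂ - s₄ + hw η))
    refine ⟨η, ?_⟩
    have h2 := h.trans_le (v.w.V.map_sum_le fun η' _ => le_trans (le_of_eq (by
      simp only [Rt, map_mul, v.e_val, one_mul])) (hη η'))
    simp only [map_mul] at h2
    exact_mod_cast h2

/-- the reduced character -/
def Frb.eb : AddChar AF (kk v.w) where
  toFun x := rd v.w (A.S.e x)
  map_zero_eq_one' := by rw [AddChar.map_zero_eq_one, rd_eq, MTB.rd_one]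
  map_add_eq_mul' x y := by
    rw [AddChar.map_add_eq_mul, rd_eq, MTB.rd_mul (v.e_val x).le (v.e_val y).le]

theorem Frb.eb_ker (x : AF) : v.eb x = 1 ↔ ∀ l : Pr, (l : ℕ) ≠ v.p → ‖cp l x‖ ≤ 1 := by
  obtain ⟨N, hN, hx⟩ := af_den x
  obtain ⟨a, n, hn, rfl⟩ := Nat.exists_eq_pow_mul_and_not_dvd hN v.p v.p.2.ne_one
  have hc : CharP (kk v.w) v.p := v.hp ▸ charP_kk v.w
  have u1 : ∀ l : Pr, (l : ℕ) ≠ v.p → ‖(((v.p : ℕ) ^ a : ℕ) : ℚ_[l])‖ = 1 := fun l hl => by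
    rw [Nat.cast_pow, norm_pow, padic_norm_prime_ne fun e => hl (congrArg _ e), one_pow]
  have hy : ∀ l : Pr, ‖cp l (((v.p : ℕ) ^ a) • x)‖ = ‖(((v.p : ℕ) ^ a : ℕ) : ℚ_[l])‖ * ‖cp l x‖ :=
    fun l => by rw [map_nsmul, nsmul_eq_mul, norm_mul]
  constructor
  · intro h l hl
    have h1 : A.S.e (((v.p : ℕ) ^ a) • x) = 1 := by
      refine MTB.eq_one_of_rd (O := v.w.V.valuationSubring) (v.nat_ne hn) ?_ ?_
      · rw [← AddChar.map_nsmul_eq_pow, ← mul_smul, mul_comm, nsmul_eq_mul]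
        exact (A.S.ker _).2 fun l _ => hx l
      · exact (v.eb.map_nsmul_eq_pow _ x).trans (by rw [h, one_pow])
    have := (A.S.ker _).1 h1 l l.2.ne_zero
    rwa [hy, u1 l hl, one_mul] at this
  · intro h
    refine MTB.rd_of_pow_char (p := v.p) (n := a) ?_
    rw [← AddChar.map_nsmul_eq_pow]
    refine (A.S.ker _).2 fun l _ => ?_
    by_cases hl : (l : ℕ) = v.p
    · have h2 : ‖cp l (((((v.p : ℕ) ^ a * n : ℕ)) : AF) * x)‖ ≤ 1 := hx l
      rwa [mul_comm _ n, Nat.cast_mul, mul_assoc, map_mul, map_natCast, norm_mul,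
        Padic.norm_natCast_eq_one_iff.2 ((Nat.Prime.coprime_iff_not_dvd l.2).2 (hl ▸ hn)), one_mul,
        ← nsmul_eq_mul] at h2
    · rw [hy, u1 l hl, one_mul]; exact h l hl

theorem Frb.rt_int (m : ℕ) (t : W) {f : W → Qbar} (hf : ∀ x, v.w.V (f x) ≤ 1) (x : W) :
    v.w.V (Rt A.S.e m t f x) ≤ 1 := by
  rw [Rt, map_mul, v.e_val, one_mul]; exact hf _

theorem Frb.rd_rt (m : ℕ) (t : W) {f : W → Qbar} (hf : ∀ x, v.w.V (f x) ≤ 1) (x : W) :
    rd v.w (Rt A.S.e m t f x) = Rt v.eb m t (fun x => rd v.w (f x)) x :=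
  MTB.rd_mul (v.e_val _).le (hf _)

theorem Frb.gen_red (L : Multiset (ℤ × W)) (x : W) : v.w.V (gen A.S.e A.S.Θ L x) ≤ 1 ∧
    rd v.w (gen A.S.e A.S.Θ L x) = gen v.eb (fun x => rd v.w (A.S.Θ x)) L x := by
  induction L using Multiset.induction_on with
  | empty => simp [gen, rd_eq]
  | cons c L ih =>
    have h := v.rt_int 1 c.2 (fun x => (v.nv x).1) (c.1 • x)
    simp only [gen, Multiset.map_cons, Multiset.prod_cons] at ih ⊢
    refine ⟨by rw [map_mul]; exact mul_le_one' h ih.1, ?_⟩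
    rw [← ih.2, ← v.rd_rt 1 c.2 fun x => (v.nv x).1]
    exact MTB.rd_mul h ih.1

/-- elements of a span of reduced products lift to integral elements -/
theorem Frb.lift (p : Multiset (ℤ × W) → Prop) {f : W → kk v.w}
    (hf : f ∈ Submodule.span (kk v.w)
      {f | ∃ L, p L ∧ f = gen v.eb (fun x => rd v.w (A.S.Θ x)) L}) :
    ∃ F ∈ Submodule.span Qbar {f | ∃ L, p L ∧ f = gen A.S.e A.S.Θ L},
      (∀ x, v.w.V (F x) ≤ 1) ∧ ∀ x, rd v.w (F x) = f x := by
  induction hf using Submodule.span_induction with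
  | mem f hf =>
    obtain ⟨L, hL, rfl⟩ := hf
    exact ⟨_, Submodule.subset_span ⟨L, hL, rfl⟩, fun x => (v.gen_red L x).1,
      fun x => (v.gen_red L x).2⟩
  | zero => exact ⟨0, zero_mem _, fun _ => by simp, fun _ => MTB.rd_zero⟩
  | add f g _ _ hf hg =>
    obtain ⟨F, hF, a, b⟩ := hf
    obtain ⟨G, hG, c, d⟩ := hg
    exact ⟨F + G, add_mem hF hG, fun x => v.w.V.map_add_le (a x) (c x), fun x =>
      (MTB.rd_add (a x) (c x)).trans (congrArg₂ _ (b x) (d x))⟩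
  | smul c f _ hf =>
    obtain ⟨F, hF, a, b⟩ := hf
    obtain ⟨y, hy, rfl⟩ := MTB.exists_rd c
    exact ⟨y • F, Submodule.smul_mem _ _ hF, fun x => mul_mem hy (a x), fun x =>
      (MTB.rd_mul hy (a x)).trans (congrArg _ (b x))⟩

/-- the reduced system -/
def Frb.red : FSys (kk v.w) v.p where
  e := v.eb
  Θ x := rd v.w (A.S.Θ x)
  char := v.hp ▸ charP_kk v.w
  two := by exact_mod_cast v.nat_ne v.not_dvd_two
  ker := v.eb_ker
  per t ht := funext fun x => by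
    rw [← v.rd_rt 1 t fun x => (v.nv x).1, A.S.per t ht]
    exact MTB.rd_mul (v.e_val _).le (v.nv x).1
  ev x := by rw [A.S.ev]
  ri a b c d := by
    have i := fun x => (v.nv x).1
    have j := fun t => v.rt_int 1 t i
    have m4 : ∀ {a b c d : Qbar}, v.w.V a ≤ 1 → v.w.V b ≤ 1 → v.w.V c ≤ 1 → v.w.V d ≤ 1 →
        a * b * c * d ∈ v.w.V.valuationSubring ∧
        rd v.w (a * b * c * d) = rd v.w a * rd v.w b * rd v.w c * rd v.w d := by
      intro a b c d ha hb hc hd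
      have h2 := mul_mem (show a ∈ v.w.V.valuationSubring from ha) hb
      have h3 := mul_mem h2 hc
      exact ⟨mul_mem h3 hd, by rw [rd_eq, MTB.rd_mul h3 hd, MTB.rd_mul h2 hc, MTB.rd_mul ha hb]⟩
    have h := congrArg (rd v.w) (A.S.ri a b c d)
    rw [rd_eq, MTB.rd_mul (ofNat_mem _ 16) (m4 (i _) (i _) (i _) (i _)).1,
      MTB.rd_sum _ fun η _ => mul_mem (v.e_val _).le (m4 (j _ _) (j _ _) (j _ _) (j _ _)).1,
      ← rd_eq, (m4 (i _) (i _) (i _) (i _)).2,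
      show rd v.w 16 = 16 by exact_mod_cast MTB.rd_natCast (O := v.w.V.valuationSubring) 16] at h
    refine h.trans (Finset.sum_congr rfl fun η _ => ?_)
    rw [rd_eq, MTB.rd_mul (v.e_val _).le (m4 (j _ _) (j _ _) (j _ _) (j _ _)).1, ← rd_eq,
      (m4 (j _ _) (j _ _) (j _ _) (j _ _)).2]
    simp only [v.rd_rt _ _ i]
    rfl
  bpf a := let ⟨η, h⟩ := (v.nv a).2; ⟨η, (rd_ne_iff _ h.le).2 h⟩
  dim m hm n f hf hl := by
    choose F hF a b using fun i => v.lift (fun L => wt L = m ∧ (2 : ℤ) • cl L ∈ L0) (f := f i)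
      (by simpa only [and_assoc, Sp] using hf i)
    refine A.S.dim m hm n F (fun i => by simpa only [and_assoc, Sp] using hF i)
      (MTB.indep (O := v.w.V.valuationSubring) id a ?_)
    convert hl using 2 with i
    exact funext (b i)
  closed := closed_res _
  π := M.ρ v.φ
  frob η x := by
    have i := fun x => (v.nv x).1
    have h := rd_frob v.w v.frob (v.rt_int 1 (hw η) i x)
    rw [v.rd_rt _ _ i] at h
    exact ((v.rd_rt 1 (hw η) i _).symm.trans (congrArg _ (A.gal v.φ η x).symm)).trans h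
  frobe x y := (congrArg _ (A.gale v.φ x y).symm).trans (rd_frob v.w v.frob (v.e_val _).le)

theorem reds : REDS := fun _ _ _ _ v =>
  ⟨v.red, fun x => (v.nv x).1, rfl, fun _ => rfl, fun _ => rfl⟩

end Pool.Agent.MT
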