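import Pool.Agent.Lib.MP_d61fbb_ag.MT.I0

/-! Abstract theta systems: the algebra of translations. -/

set_option autoImplicit false

noncomputable section

namespace Pool.Agent.MT

open Matrix Sum

/-- adeles that are integral away from `q` -/
def Zq (q : ℕ) : Subring AF where
  carrier := {x | ∀ l : Pr, (l : ℕ) ≠ q → ‖cp l x‖ ≤ 1}
  zero_mem' := fun l _ => by simp
  one_mem' := fun l _ => by simp
  add_mem' := fun {x y} hx hy l h => by
    rw [map_add]; exact (Padic.nonarchimedean _ _).trans (max_le (hx l h) (hy l h))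
  neg_mem' := fun {x} hx l h => by simpa using hx l h
  mul_mem' := fun {x y} hx hy l h => by
    rw [map_mul, norm_mul]; exact mul_le_one₀ (hx l h) (norm_nonneg _) (hy l h)

lemma Zq_zero {q : ℕ} {x : AF} (h : x ∈ Zq 0) : x ∈ Zq q := fun l _ => h l l.2.ne_zero

lemma mem_L0q {x : W} : x ∈ L0 ↔ ∀ i, x i ∈ Zq 0 :=
  ⟨fun h i l _ => mem_L0.1 h i l, fun h => mem_L0.2 fun i l => h i l l.2.ne_zero⟩

lemma zA_mem (x : ∀ l : Pr, ℤ_[l]) : zA x ∈ Zq 0 := fun l _ => (x l).2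

lemma ad_ext {x y : AF} (h : ∀ l, cp l x = cp l y) : x = y := Subtype.ext (funext h)

lemma cp_sg (l : Pr) (a : ℚ_[l]) : cp l (sg l a) = a :=
  Pi.single_eq_same (M := fun l : Pr => ℚ_[l]) l a

lemma cp_sg_ne {l l' : Pr} (h : l' ≠ l) (a : ℚ_[l]) : cp l' (sg l a) = 0 :=
  Pi.single_eq_of_ne (M := fun l : Pr => ℚ_[l]) h a

lemma sg_mem {l : Pr} {a : ℚ_[l]} (h : ‖a‖ ≤ 1) : sg l a ∈ Zq 0 := fun l' _ => by
  by_cases e : l' = l
  · subst e; rwa [cp_sg]
  · simp [cp_sg_ne e]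

lemma Ef_memR {R : Subring AF} {x y : W} (hx : ∀ i, x i ∈ R) (hy : ∀ i, y i ∈ R) : Ef x y ∈ R :=
  sub_mem (sum_mem fun _ _ => mul_mem (hx _) (hy _)) (sum_mem fun _ _ => mul_mem (hx _) (hy _))

lemma Qf_memR {R : Subring AF} {x : W} (hx : ∀ i, x i ∈ R) : Qf x ∈ R :=
  sum_mem (t := Finset.univ) fun i _ => mul_mem (hx (inl i)) (hx (inr i))

/-- the idempotent that kills the component at `q` -/
def iq (q : ℕ) : AF := zA fun l => if (l : ℕ) = q then 0 else 1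

lemma cp_iq (q : ℕ) (l : Pr) : cp l (iq q) = if (l : ℕ) = q then 0 else 1 := by
  change ((if (l : ℕ) = q then 0 else 1 : ℤ_[l]) : ℚ_[l]) = _
  split_ifs <;> simp

lemma iq_mem (q : ℕ) (x : W) : iq q • x ∈ Wp q := fun i l h => by
  simp [cp_iq, h]

lemma iq_smul {q : ℕ} {x : W} (hx : x ∈ Wp q) : iq q • x = x := funext fun i => ad_ext fun l => by
  by_cases h : (l : ℕ) = q
  · simp [cp_iq, h, hx i l h]
  · simp [cp_iq, h]

lemma iq_L0 (q : ℕ) {x : W} (hx : x ∈ L0) : iq q • x ∈ L0 :=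
  mem_L0q.2 fun i => mul_mem (zA_mem _) (mem_L0q.1 hx i)

lemma sub_iq {q : ℕ} {x : W} (hx : ∀ i (l : Pr), (l : ℕ) = q → ‖cp l (x i)‖ ≤ 1) :
    x - iq q • x ∈ L0 := mem_L0.2 fun i l => by
  by_cases h : (l : ℕ) = q
  · simpa [cp_iq, h] using hx i l h
  · simp [cp_iq, h]

lemma iq_sub_mem (q : ℕ) (a b : AF) : (1 - iq q) * a * b ∈ Zq q := fun l h => by simp [cp_iq, h]

lemma Wp_L0 {q : ℕ} {x : W} (h : x ∈ Wp q) (h' : ∀ i, x i ∈ Zq q) : x ∈ L0 :=
  mem_L0.2 fun i l => by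
  by_cases e : (l : ℕ) = q
  · simp [h i l e]
  · exact h' i l e

lemma Wp_qsmul {q : ℕ} {x : W} (c : ℚ) (h : x ∈ Wp q) : c • x ∈ Wp q :=
  (Wp q).smul_of_tower_mem c h

lemma exists_den_W (x : W) : ∃ N : ℕ, N ≠ 0 ∧ N • x ∈ L0 := by
  choose N hN h using fun i => (x i).2
  refine ⟨∏ i, N i, Finset.prod_ne_zero_iff.2 fun i _ => hN i, mem_L0.2 fun i l => ?_⟩
  rw [← Finset.prod_erase_mul _ _ (Finset.mem_univ i), Pi.smul_apply, map_nsmul, nsmul_eq_mul,
    Nat.cast_mul, mul_assoc, norm_mul]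
  exact mul_le_one₀ (IsUltrametricDist.norm_natCast_le_one _ _) (norm_nonneg _) (h i l)

section
variable (x y : W)
lemma zs_add (c : ℤ) : c • (x + y) = c • x + c • y := by module
lemma zs_neg (c : ℤ) : c • (-x) = -(c • x) := by module
lemma Ef_q_left (c : ℚ) : Ef (c • x) y = c • Ef x y := by
  rw [← algebraMap_smul AF, Ef_smul_left, Algebra.smul_def]
lemma Ef_q_right (c : ℚ) : Ef x (c • y) = c • Ef x y := by
  rw [← algebraMap_smul AF, Ef_smul_right, Algebra.smul_def]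
lemma Ef_z_left (c : ℤ) : Ef (c • x) y = (c : ℚ) • Ef x y := by
  rw [← Ef_q_left, Int.cast_smul_eq_zsmul ℚ c x]
lemma Ef_z_right (c : ℤ) : Ef x (c • y) = (c : ℚ) • Ef x y := by
  rw [← Ef_q_right, Int.cast_smul_eq_zsmul ℚ c y]
lemma Ef_n_left (c : ℕ) : Ef (c • x) y = (c : ℚ) • Ef x y := by
  rw [← Ef_q_left, Nat.cast_smul_eq_nsmul]
lemma Ef_n_right (c : ℕ) : Ef x (c • y) = (c : ℚ) • Ef x y := by
  rw [← Ef_q_right, Nat.cast_smul_eq_nsmul]
lemma Qf_q (c : ℚ) : Qf (c • x) = (c * c) • Qf x := by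
  simp only [Qf, Pi.smul_comp, smul_dotProduct, dotProduct_smul, smul_smul]
end

/-- the form is perfect on the lattice -/
lemma mem_of_Ef {q : ℕ} {x : W} (h : ∀ t ∈ L0, t ∈ Wp q → Ef t x ∈ Zq q) (i : I2 4) :
    x i ∈ Zq q := by
  have key : ∀ j : I2 4, iq q * Ef (Pi.single j 1) x ∈ Zq q := fun j => by
    rw [← Ef_smul_left]
    refine h _ (iq_L0 q (mem_L0q.2 fun i => ?_)) (iq_mem q _)
    by_cases e : i = j
    · subst e; simp
    · simp [e]
  have k2 : ∀ a : AF, iq q * a ∈ Zq q → a ∈ Zq q := fun a ha => by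
    have := add_mem ha (iq_sub_mem q a 1)
    rwa [show iq q * a + (1 - iq q) * a * 1 = a by ring] at this
  rcases i with i | i
  · have := k2 _ (key (inr i))
    simpa [Ef, dotProduct, Pi.single_apply] using this
  · have := k2 _ (key (inl i))
    simpa [Ef, dotProduct, Pi.single_apply] using this

variable {k : Type} [Field k] {e : AddChar AF k}

lemma e_ne (e : AddChar AF k) (x : AF) : e x ≠ 0 := (e.val_isUnit x).ne_zero

/-- the translation as a linear map -/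
def RtL (e : AddChar AF k) (m : ℕ) (t : W) : (W → k) →ₗ[k] W → k where
  toFun := Rt e m t
  map_add' _ _ := funext fun _ => mul_add _ _ _
  map_smul' _ _ := funext fun _ => mul_left_comm _ _ _

@[simp] lemma RtL_apply (m : ℕ) (t : W) (f : W → k) : RtL e m t f = Rt e m t f := rfl

lemma Rt_smul (m : ℕ) (t : W) (c : k) (f : W → k) : Rt e m t (c • f) = c • Rt e m t f :=
  map_smul (RtL e m t) c f

@[simp] lemma Rt_zero (m : ℕ) (f : W → k) : Rt e m 0 f = f := by funext x; simp [Rt]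

lemma Rt_Rt (m : ℕ) (s t : W) (f : W → k) :
    Rt e m s (Rt e m t f) = e (((m : ℚ) / 2) • Ef t s) • Rt e m (s + t) f := by
  funext x
  simp only [Rt, Pi.smul_apply, smul_eq_mul, ← mul_assoc, ← AddChar.map_add_eq_mul, add_assoc]
  congr 2
  simp only [Ef_add_left, Ef_add_right]
  module

lemma Rt_neg_Rt (m : ℕ) (t : W) (f : W → k) : Rt e m (-t) (Rt e m t f) = f := by
  simp [Rt_Rt, Ef_neg_right]

lemma Rt_Rt_neg (m : ℕ) (t : W) (f : W → k) : Rt e m t (Rt e m (-t) f) = f := by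
  simp [Rt_Rt, Ef_neg_left]

lemma Rt_ne {m : ℕ} (t : W) {f : W → k} (h : f ≠ 0) : Rt e m t f ≠ 0 := fun h' =>
  h (by rw [← Rt_neg_Rt (e := e) m t f, h']; exact map_zero (RtL e m (-t)))

lemma Rt_comm (m : ℕ) (s t : W) (f : W → k) :
    Rt e m s (Rt e m t f) = e ((m : ℚ) • Ef t s) • Rt e m t (Rt e m s f) := by
  rw [Rt_Rt, Rt_Rt, smul_smul, ← AddChar.map_add_eq_mul, add_comm t s, Ef_swap s t]
  congr 2
  module

lemma Rt_mul (m n : ℕ) (t : W) (f g : W → k) :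
    Rt e (m + n) t (f * g) = Rt e m t f * Rt e n t g := by
  funext x
  simp only [Rt, Pi.mul_apply]
  rw [mul_mul_mul_comm, ← AddChar.map_add_eq_mul, ← add_smul, ← add_div, Nat.cast_add]

variable {Θ : W → k}

lemma gen_add (L L' : Multiset (ℤ × W)) : gen e Θ (L + L') = gen e Θ L * gen e Θ L' := by
  funext x; simp [gen]

lemma wt_add (L L' : Multiset (ℤ × W)) : wt (L + L') = wt L + wt L' := by simp [wt]

lemma cl_add (L L' : Multiset (ℤ × W)) : cl (L + L') = cl L + cl L' := by simp [cl]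

/-- the translated list -/
def shf (t : W) (L : Multiset (ℤ × W)) : Multiset (ℤ × W) := L.map fun c => (c.1, c.2 + c.1 • t)

lemma wt_shf (t : W) (L : Multiset (ℤ × W)) : wt (shf t L) = wt L := by simp [wt, shf]

lemma cl_shf (t : W) (L : Multiset (ℤ × W)) : cl (shf t L) = cl L + wt L • t := by
  induction L using Multiset.induction_on with
  | empty => simp [cl, wt, shf]
  | cons c L ih =>
    simp only [cl, wt, shf, Multiset.map_cons, Multiset.sum_cons] at ih ⊢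
    rw [ih]; module

lemma gen_shf (t x : W) (L : Multiset (ℤ × W)) :
    e (((wt L : ℚ) / 2) • Ef t x) * gen e Θ L (x + t) =
      e ((1 / 2 : ℚ) • Ef (cl L) t) * gen e Θ (shf t L) x := by
  induction L using Multiset.induction_on with
  | empty => simp [cl, wt, shf, gen]
  | cons c L ih =>
    simp only [cl, wt, shf, gen, Multiset.map_cons, Multiset.sum_cons, Multiset.prod_cons] at ih ⊢
    have h : e ((((c.1 ^ 2 : ℤ) : ℚ) / 2) • Ef t x) * Rt e 1 c.2 Θ (c.1 • (x + t)) =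
        e ((1 / 2 : ℚ) • Ef (c.1 • c.2) t) * Rt e 1 (c.2 + c.1 • t) Θ (c.1 • x) := by
      simp only [Rt, ← mul_assoc, ← AddChar.map_add_eq_mul]
      congr 2
      · simp only [Ef_add_left, Ef_add_right, Ef_z_left, Ef_z_right, smul_add]
        push_cast
        module
      · module
    rw [Int.cast_add, add_div, add_smul, Ef_add_left, smul_add, AddChar.map_add_eq_mul,
      AddChar.map_add_eq_mul, mul_mul_mul_comm, h, ih, mul_mul_mul_comm]

lemma Rt_gen {m : ℕ} {L : Multiset (ℤ × W)} (h : wt L = m) (t : W) :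
    Rt e m t (gen e Θ L) = e ((1 / 2 : ℚ) • Ef (cl L) t) • gen e Θ (shf t L) := by
  funext x
  have := gen_shf (e := e) (Θ := Θ) t x L
  rw [h, Int.cast_natCast] at this
  exact this

lemma gen_single (t : W) : gen e Θ {(1, t)} = Rt e 1 t Θ := by funext x; simp [gen]

lemma span_mul_mem {A B : Set (W → k)} {C : Submodule k (W → k)} (h : ∀ f ∈ A, ∀ g ∈ B, f * g ∈ C)
    {f g : W → k} (hf : f ∈ Submodule.span k A) (hg : g ∈ Submodule.span k B) : f * g ∈ C := by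
  have := Submodule.mul_mem_mul hf hg
  rw [Submodule.span_mul_span] at this
  refine Submodule.span_le.2 ?_ this
  rintro _ ⟨a, ha, b, hb, rfl⟩
  exact h a ha b hb

lemma span_Rt_mem {A : Set (W → k)} {C : Submodule k (W → k)} {m : ℕ} {t : W}
    (h : ∀ f ∈ A, Rt e m t f ∈ C) {f : W → k} (hf : f ∈ Submodule.span k A) : Rt e m t f ∈ C :=
  (Submodule.span_le (p := C.comap (RtL e m t))).2 h hf

lemma Sp_mul {m n : ℕ} {f g : W → k} (hf : f ∈ Sp e Θ m) (hg : g ∈ Sp e Θ n) :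
    f * g ∈ Sp e Θ (m + n) := by
  refine span_mul_mem ?_ hf hg
  rintro _ ⟨L, a, b, rfl⟩ _ ⟨L', a', b', rfl⟩
  exact Submodule.subset_span ⟨L + L', by rw [wt_add, a, a', Nat.cast_add],
    by rw [cl_add, zs_add]; exact add_mem b b', (gen_add _ _).symm⟩

lemma Gs_mul {q m n : ℕ} {f g : W → k} (hf : f ∈ Gs q e Θ m) (hg : g ∈ Gs q e Θ n) :
    f * g ∈ Gs q e Θ (m + n) := by
  refine span_mul_mem ?_ hf hg
  rintro _ ⟨L, a, b, rfl⟩ _ ⟨L', a', b', rfl⟩
  refine Submodule.subset_span ⟨L + L', by rw [wt_add, a, a', Nat.cast_add], fun i l h => ?_,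
    (gen_add _ _).symm⟩
  rw [cl_add, Pi.add_apply, map_add]
  exact (Padic.nonarchimedean _ _).trans (max_le (b i l h) (b' i l h))

lemma Sp_Rt {m : ℕ} {t : W} (ht : (2 * m : ℕ) • t ∈ L0) {f : W → k} (hf : f ∈ Sp e Θ m) :
    Rt e m t f ∈ Sp e Θ m := by
  refine span_Rt_mem ?_ hf
  rintro _ ⟨L, a, b, rfl⟩
  rw [Rt_gen a]
  refine Submodule.smul_mem _ _ (Submodule.subset_span ⟨_, (wt_shf _ _).trans a, ?_, rfl⟩)
  rw [cl_shf, a, zs_add]
  exact add_mem b (by convert ht using 1; module)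

lemma Gs_Rt {q m : ℕ} {t : W} (ht : t ∈ Wp q) {f : W → k} (hf : f ∈ Gs q e Θ m) :
    Rt e m t f ∈ Gs q e Θ m := by
  refine span_Rt_mem ?_ hf
  rintro _ ⟨L, a, b, rfl⟩
  rw [Rt_gen a]
  refine Submodule.smul_mem _ _ (Submodule.subset_span ⟨_, (wt_shf _ _).trans a, ?_, rfl⟩)
  intro i l h
  simpa [cl_shf, ht i l h] using b i l h

/-- every generator is a translate of a function of level two -/
lemma gen_eq {q m : ℕ} (hm : m ≠ 0) {L : Multiset (ℤ × W)} (a : wt L = m)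
    (b : ∀ i (l : Pr), (l : ℕ) = q → ‖cp l (cl L i)‖ ≤ 1) :
    ∃ g ∈ Sp e Θ m, gen e Θ L = Rt e m ((m : ℚ)⁻¹ • iq q • cl L) g := by
  refine ⟨Rt e m (-((m : ℚ)⁻¹ • iq q • cl L)) (gen e Θ L), ?_, (Rt_Rt_neg _ _ _).symm⟩
  rw [Rt_gen a]
  refine Submodule.smul_mem _ _ (Submodule.subset_span ⟨_, (wt_shf _ _).trans a, ?_, rfl⟩)
  refine zsmul_mem ?_ _
  have h : ((m : ℕ) : ℤ) • ((m : ℚ)⁻¹ • iq q • cl L) = iq q • cl L := by
    rw [natCast_zsmul, ← Nat.cast_smul_eq_nsmul ℚ, smul_inv_smul₀ (by exact_mod_cast hm)]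
  rw [cl_shf, a, zs_neg, h, ← sub_eq_add_neg]
  exact sub_iq b

lemma hw_two (η : I2 4 → ZMod 2) : (2 : ℤ) • hw η ∈ L0 := mem_L0q.2 fun i => by
  have : ((2 : ℤ) • hw η) i = ((vz η i : ℤ) : AF) := by
    simp only [hw, hq, Pi.smul_apply, ← map_zsmul, ← map_intCast (algebraMap ℚ AF)]
    congr 1
    rw [zsmul_eq_mul, vz]; push_cast; ring
  rw [this]; exact intCast_mem _ _

namespace TSys
variable {q : ℕ} (S : TSys k q)

lemma e_one {x : AF} (h : x ∈ Zq q) : S.e x = 1 := (S.ker x).2 h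

include S in
lemma norm_cast {m : ℕ} (hm : (m : k) ≠ 0) (l : Pr) (h : (l : ℕ) = q) : ‖(m : ℚ_[l])‖ = 1 := by
  have := S.char
  refine le_antisymm (IsUltrametricDist.norm_natCast_le_one _ _) (not_lt.1 fun h' => hm ?_)
  rw [CharP.cast_eq_zero_iff k q, ← h]
  exact Padic.norm_natCast_lt_one_iff.1 h'

lemma sgn_two {t : W} (ht : t ∈ L0) : sgn S.e ((2 : ℤ) • t) = 1 := by
  refine S.e_one (Zq_zero (mul_mem (sg_mem (by simp)) ?_))
  rw [← Int.cast_smul_eq_zsmul ℚ 2 t, Qf_q, smul_smul]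
  norm_num
  rw [two_smul]
  exact add_mem (Qf_memR (mem_L0q.1 ht)) (Qf_memR (mem_L0q.1 ht))

lemma gen_per {t : W} (ht : t ∈ L0) (L : Multiset (ℤ × W)) :
    gen S.e S.Θ (shf ((2 : ℤ) • t) L) = S.e (Ef (cl L) t) • gen S.e S.Θ L := by
  induction L using Multiset.induction_on with
  | empty => funext x; simp [cl, shf, gen]
  | cons c L ih =>
    have h : Rt S.e 1 (c.2 + c.1 • (2 : ℤ) • t) S.Θ = S.e (Ef (c.1 • c.2) t) • Rt S.e 1 c.2 S.Θ := by
      have h1 := Rt_Rt (e := S.e) 1 c.2 (c.1 • (2 : ℤ) • t) S.Θ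
      have h2 : c.1 • (2 : ℤ) • t = (2 : ℤ) • c.1 • t := by module
      rw [h2, S.per _ (zsmul_mem (zsmul_mem ht _) _), S.sgn_two (zsmul_mem ht _),
        one_smul] at h1
      rw [h2, h1, smul_smul (S.e _), ← AddChar.map_add_eq_mul]
      simp only [Ef_z_left, Ef_swap t c.2]
      rw [show (c.1 : ℚ) • Ef c.2 t + (((1 : ℕ) : ℚ) / 2) • ((2 : ℤ) : ℚ) • (c.1 : ℚ) • -Ef c.2 t = 0 by
        push_cast; module, AddChar.map_zero_eq_one, one_smul]
    funext x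
    have ih' := congrFun ih x
    simp only [cl, shf, gen, Multiset.map_cons, Multiset.sum_cons, Multiset.prod_cons,
      Pi.smul_apply, smul_eq_mul] at ih' ⊢
    rw [h, ih', Ef_add_left, AddChar.map_add_eq_mul, Pi.smul_apply, smul_eq_mul, mul_mul_mul_comm]

lemma Sp_per {m : ℕ} {t : W} (ht : t ∈ L0) {f : W → k} (hf : f ∈ Sp S.e S.Θ m) :
    Rt S.e m ((2 : ℤ) • t) f = f := by
  refine (Submodule.span_le (p := LinearMap.eqLocus (RtL S.e m ((2 : ℤ) • t)) LinearMap.id)).2 ?_ hf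
  rintro _ ⟨L, a, b, rfl⟩
  change Rt S.e m _ _ = gen S.e S.Θ L
  rw [Rt_gen a, S.gen_per ht, smul_smul, ← AddChar.map_add_eq_mul, S.e_one, one_smul]
  rw [show (1 / 2 : ℚ) • Ef (cl L) ((2 : ℤ) • t) + Ef (cl L) t = Ef ((2 : ℤ) • cl L) t by
    simp only [Ef_z_left, Ef_z_right]; push_cast; module]
  exact Zq_zero (Ef_memR (mem_L0q.1 b) (mem_L0q.1 ht))

lemma Sp_le (m : ℕ) : Sp S.e S.Θ m ≤ S.G m := by
  refine Submodule.span_mono ?_
  rintro _ ⟨L, a, b, rfl⟩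
  refine ⟨L, a, fun i l h => ?_, rfl⟩
  have h1 := mem_L0.1 b i l
  have h2 := S.norm_cast (m := 2) (by exact_mod_cast S.two) l h
  rw [Pi.smul_apply, map_zsmul, zsmul_eq_mul, norm_mul] at h1
  norm_cast at h1 h2
  rwa [h2, one_mul] at h1

lemma th_Sp (η : I2 4 → ZMod 2) : S.th η ∈ Sp S.e S.Θ 1 :=
  Submodule.subset_span ⟨{(1, hw η)}, by simp [wt], by simpa [cl] using hw_two η, (gen_single _).symm⟩

lemma th_mem (η : I2 4 → ZMod 2) : S.th η ∈ S.G 1 := S.Sp_le 1 (S.th_Sp η)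

lemma Θ_Sp : S.Θ ∈ Sp S.e S.Θ 1 :=
  Submodule.subset_span ⟨{(1, 0)}, by simp [wt], by simp [cl], by rw [gen_single, Rt_zero]⟩

lemma Θ_mem : S.Θ ∈ S.G 1 := S.Sp_le 1 S.Θ_Sp

lemma exists_th (x : W) : ∃ η, S.th η x ≠ 0 :=
  let ⟨η, h⟩ := S.bpf x
  ⟨η, mul_ne_zero (e_ne _ _) h⟩

lemma th_pow (η : I2 4 → ZMod 2) (m : ℕ) : S.th η ^ m ∈ Sp S.e S.Θ m := by
  induction m with
  | zero => exact Submodule.subset_span ⟨0, rfl, by simp [cl], by funext x; simp [gen]⟩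
  | succ m ih => rw [pow_succ]; exact Sp_mul ih (S.th_Sp η)

lemma rank_Sp {m : ℕ} (hm : m ≠ 0) : Module.rank k (Sp S.e S.Θ m) ≤ ((4 * m) ^ 4 : ℕ) := by
  refine rank_le fun s hs => ?_
  refine S.dim m (Nat.pos_of_ne_zero hm) _ (fun i => (s.equivFin.symm i : Sp S.e S.Θ m))
    (fun i => Subtype.prop _) ?_
  exact (hs.map' (Sp S.e S.Θ m).subtype (Submodule.ker_subtype _)).comp _ s.equivFin.symm.injective

lemma fin_Sp {m : ℕ} (hm : m ≠ 0) : FiniteDimensional k (Sp S.e S.Θ m) :=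
  Module.rank_lt_aleph0_iff.1 ((S.rank_Sp hm).trans_lt Cardinal.natCast_lt_aleph0)

lemma finrank_Sp {m : ℕ} (hm : m ≠ 0) : Module.finrank k (Sp S.e S.Θ m) ≤ (4 * m) ^ 4 :=
  Module.finrank_le_of_rank_le (S.rank_Sp hm)

end TSys

end Pool.Agent.MT
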