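import Mathlib

/-! The index of a lattice over the `l`-adic integers. -/

set_option autoImplicit false

namespace Pool.Agent.MT

open Matrix Module

variable {l : ℕ} [Fact l.Prime] {n : Type} [Fintype n] [DecidableEq n]

theorem card_quot_padic {x : ℤ_[l]} (hx : x ≠ 0) :
    (Nat.card (ℤ_[l] ⧸ Ideal.span {x}) : ℝ) = ‖x‖⁻¹ := by
  have h1 : Ideal.span {x} = RingHom.ker (PadicInt.toZModPow x.valuation : ℤ_[l] →+* _) := by
    rw [PadicInt.ker_toZModPow]
    conv_lhs => rw [PadicInt.unitCoeff_spec hx]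
    exact Ideal.span_singleton_mul_left_unit (Units.isUnit _) _
  rw [h1, Nat.card_congr
    (RingHom.quotientKerEquivOfSurjective (ZMod.ringHom_surjective _)).toEquiv, Nat.card_zmod,
    PadicInt.norm_eq_zpow_neg_valuation hx]
  simp

theorem card_coker_padic (A : Matrix n n ℤ_[l]) (hA : A.det ≠ 0) :
    (Nat.card ((n → ℤ_[l]) ⧸ LinearMap.range A.mulVecLin) : ℝ) = ‖A.det‖⁻¹ := by
  have hi : Function.Injective A.mulVecLin := mulVec_injective_of_det_ne_zero hA
  have h := LinearMap.finrank_range_of_inj hi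
  let b := Pi.basisFun ℤ_[l] n
  let c := Submodule.smithNormalFormCoeffs b h
  let b' := Submodule.smithNormalFormTopBasis b h
  let e' := b'.equiv (Submodule.smithNormalFormBotBasis b h) (Equiv.refl _)
  let f := (LinearMap.range A.mulVecLin).subtype.comp e'.toLinearMap
  have ha : ∀ i, f (b' i) = c i • b' i := fun i => by
    change (e' (b' i) : n → ℤ_[l]) = _
    rw [b'.equiv_apply, Equiv.refl_apply]
    exact Submodule.smithNormalFormBotBasis_def b h i
  have h1 : LinearMap.toMatrix b' b' f = diagonal c := by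
    ext i j
    rw [LinearMap.toMatrix_apply, ha, map_smul, Basis.repr_self, Finsupp.smul_single,
      smul_eq_mul, mul_one, diagonal_apply, Finsupp.single_apply]
    by_cases e : i = j
    · simp [e]
    · simp [e, Ne.symm e]
  obtain ⟨u, hu⟩ := LinearMap.associated_det_comp_equiv (LinearMap.range A.mulVecLin).subtype
    (LinearEquiv.ofInjective _ hi) e'
  have h2 : (LinearMap.range A.mulVecLin).subtype ∘ₗ (LinearEquiv.ofInjective _ hi).toLinearMap =
      toLin' A := LinearMap.ext fun _ => rfl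
  rw [h2, LinearMap.det_toLin', ← LinearMap.det_toMatrix b', h1, det_diagonal] at hu
  have h3 := congrArg (‖·‖) hu
  simp only [norm_mul, PadicInt.norm_units, mul_one, norm_prod] at h3
  rw [Nat.card_congr (Submodule.quotientEquivPiSpan _ b h).toEquiv, Nat.card_pi, h3, Nat.cast_prod,
    ← Finset.prod_inv_distrib]
  exact Finset.prod_congr rfl fun i _ =>
    card_quot_padic (Submodule.smithNormalFormCoeffs_ne_zero b h i)

/-- many classes of vectors with integral image -/
theorem padic_reps (A : Matrix n n ℚ_[l]) (hint : ∀ i j, ‖A i j‖ ≤ 1) (hA : A.det ≠ 0) :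
    ∃ Z : Finset (n → ℚ_[l]), ‖A.det‖⁻¹ ≤ Z.card ∧ (∀ z ∈ Z, ∀ j, ‖(A *ᵥ z) j‖ ≤ 1) ∧
      ∀ z ∈ Z, ∀ z' ∈ Z, (∀ j, ‖z j - z' j‖ ≤ 1) → z = z' := by
  classical
  let B : Matrix n n ℤ_[l] := of fun i j => ⟨A i j, hint i j⟩
  have e : (B.det : ℚ_[l]) = A.det := (PadicInt.Coe.ringHom (p := l)).map_det B
  have hB : B.det ≠ 0 := fun h => hA (by rw [← e, h]; rfl)
  have h1 := card_coker_padic B hB
  have : Finite ((n → ℤ_[l]) ⧸ LinearMap.range B.mulVecLin) := Nat.finite_of_card_ne_zero fun h => by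
    rw [h, Nat.cast_zero] at h1
    exact hB (norm_eq_zero.1 (inv_eq_zero.1 h1.symm))
  have := Fintype.ofFinite ((n → ℤ_[l]) ⧸ LinearMap.range B.mulVecLin)
  let z : ((n → ℤ_[l]) ⧸ LinearMap.range B.mulVecLin) → n → ℚ_[l] :=
    fun u => A⁻¹ *ᵥ fun j => (Quotient.out u : n → ℤ_[l]) j
  have hz : ∀ u, A *ᵥ z u = fun j => ((Quotient.out u : n → ℤ_[l]) j : ℚ_[l]) := fun u => by
    rw [mulVec_mulVec, mul_nonsing_inv _ (Ne.isUnit hA), one_mulVec]
  have key : ∀ u u', (∀ j, ‖z u j - z u' j‖ ≤ 1) → u = u' := fun u u' h => by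
    rw [← Quotient.out_eq u, ← Quotient.out_eq u']
    refine (Submodule.Quotient.eq _).2 ⟨fun j => ⟨_, h j⟩, funext fun i => Subtype.ext ?_⟩
    have h2 := congrFun (mulVec_sub A (z u) (z u')) i
    rw [hz, hz] at h2
    exact ((PadicInt.Coe.ringHom (p := l)).map_mulVec B _ i).trans h2
  refine ⟨Finset.univ.image z, ?_, ?_, ?_⟩
  · rw [Finset.card_image_of_injective _ fun u u' h => key u u' fun j => by simp [h],
      Finset.card_univ, ← Nat.card_eq_fintype_card, h1, ← e]
    rfl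
  · intro _ h j
    obtain ⟨u, -, rfl⟩ := Finset.mem_image.1 h
    rw [hz]
    exact ((Quotient.out u : n → ℤ_[l]) j).2
  · intro _ h _ h' hh
    obtain ⟨u, -, rfl⟩ := Finset.mem_image.1 h
    obtain ⟨u', -, rfl⟩ := Finset.mem_image.1 h'
    rw [key u u' hh]

end Pool.Agent.MT
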