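import Pool.Agent.Lib.MP_d61fbb_ag.MT.BV1
import Pool.Agent.Lib.MP_d61fbb_ag.MT.BVd
import Pool.Agent.Lib.MP_d61fbb_ag.MT.T1

/-! The degree inequality. -/

set_option autoImplicit false

noncomputable section

namespace Pool.Agent.MT

open Matrix Polynomial

lemma v2_cpv (l : Pr) (a : M8 AF) (x : W) : cpv l (a *ᵥ x) = a.map (cp l) *ᵥ cpv l x :=
  funext fun i => (cp l).toRingHom.map_mulVec a x i

lemma v2_Wp {q : ℕ} (a : M8 AF) {t : W} (ht : t ∈ Wp q) : a *ᵥ t ∈ Wp q := fun i l h => by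
  simp [mulVec, dotProduct, ht _ l h]

lemma v2_L0 {q : ℕ} {a : M8 AF} (hint : ∀ i j (l : Pr), (l : ℕ) ≠ q → ‖cp l (a i j)‖ ≤ 1) {t : W}
    (h : t ∈ L0) (ht : t ∈ Wp q) : a *ᵥ t ∈ L0 :=
  Wp_L0 (v2_Wp a ht) fun i => sum_mem (t := Finset.univ) fun j _ =>
    mul_mem (show a i j ∈ Zq q from hint i j) (Zq_zero (mem_L0q.1 h j))

lemma v2_glob (T : Finset Pr) (v : ∀ l : T, Vl l) :
    ∃ z : W, (∀ l : T, cpv l z = v l) ∧ ∀ l ∉ T, cpv l z = 0 := by
  refine ⟨∑ l : T, sgv l (v l), fun l => funext fun i => ?_, fun l h => funext fun i => ?_⟩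
  · rw [cpv, Finset.sum_apply, map_sum, Finset.sum_eq_single l]
    · exact cp_sg _ _
    · exact fun l' _ e => cp_sg_ne (fun e' => e (Subtype.ext e').symm) _
    · simp
  · rw [cpv, Finset.sum_apply, map_sum]
    exact Finset.sum_eq_zero fun l' _ => cp_sg_ne (fun e : l = l' => h (e ▸ l'.2)) _

/-- the vector that represents a dot product -/
def jz (z : W) : W := Sum.elim (z ∘ Sum.inr) (-(z ∘ Sum.inl))

lemma Ef_jz (z s : W) : Ef (jz z) s = z ⬝ᵥ s := by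
  simp only [Ef, jz, Sum.elim_comp_inl, Sum.elim_comp_inr, neg_dotProduct, sub_neg_eq_add]
  simp only [dotProduct, Fintype.sum_sum_type, Function.comp_apply, add_comm]

namespace TSys
variable {k : Type} [Field k] {q : ℕ} {S : TSys k q} {a : M8 AF} {N : ℕ}

lemma v2_gen (hG : GENP) {ι : Type} [Finite ι] (F : ι → W → k) (h : ∀ i, F i ∈ S.G N)
    (h0 : ∀ i, F i ≠ 0) : ∃ x ∈ Wp q, ∀ i, F i x ≠ 0 := by
  obtain ⟨n, ⟨e⟩⟩ := Finite.exists_equiv_fin ι
  obtain ⟨x, hx, H⟩ := hG k q S n (fun _ => N) (F ∘ e.symm) 0 (fun i => h _) fun i => h0 _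
  exact ⟨x, hx, fun i => by simpa using H (e i)⟩

include S in
lemma v2_half {x : W} (b : (2 : ℤ) • x ∈ L0) (i : I2 4) (l : Pr) (h : (l : ℕ) = q) :
    ‖cp l (x i)‖ ≤ 1 := by
  have h1 := mem_L0.1 b i l
  have h2 := S.norm_cast (m := 2) (by exact_mod_cast S.two) l h
  rw [Pi.smul_apply, map_zsmul, zsmul_eq_mul, norm_mul] at h1
  norm_cast at h1 h2
  rwa [h2, one_mul] at h1

lemma v2_mul {g φ : W → k} (hg : g ∈ S.Cs a N)
    (hφ : φ ∈ Submodule.span k {φ | ∃ y ∈ Wp q, φ = S.br a y}) : φ * g ∈ S.G N := by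
  refine (Submodule.span_le (p := (S.G N).comap (LinearMap.mulRight k g))).2 ?_ hφ
  rintro _ ⟨y, hy, rfl⟩
  exact hg y hy

lemma v2_dom (hG : GENP) {g : W → k} (hg : g ∈ S.Cs a N) (g0 : g ≠ 0) {ι : Type} [Finite ι]
    (f : ι → W → k) (hf : ∀ i, f i ∈ Submodule.span k {φ | ∃ y ∈ Wp q, φ = S.br a y})
    (h0 : ∀ i, f i ≠ 0) : ∃ x ∈ Wp q, g x ≠ 0 ∧ ∀ i, f i x ≠ 0 := by
  choose z hz using fun i => Function.ne_iff.1 (h0 i)
  obtain ⟨g', hg', H⟩ := Cmp.nz hG ⟨g, hg, g0⟩ z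
  obtain ⟨z0, hz0⟩ := Function.ne_iff.1 g0
  obtain ⟨η, hη⟩ := S.exists_th (a *ᵥ z0)
  obtain ⟨x, hx, H'⟩ := v2_gen (S := S) (N := N) hG
    (fun i : Option ι => i.elim (S.br a (hw η) * g) fun i => f i * g')
    (fun i => by
      cases i with
      | none => exact Cs_int hg (S.v2_half (hw_two η))
      | some i => exact v2_mul hg' (hf i))
    fun i => by
      cases i with
      | none => exact Function.ne_iff.2 ⟨z0, mul_ne_zero hη hz0⟩
      | some i => exact Function.ne_iff.2 ⟨z i, mul_ne_zero (hz i) (H i)⟩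
  exact ⟨x, hx, right_ne_zero_of_mul (H' none), fun i => left_ne_zero_of_mul (H' (some i))⟩

lemma v2_shift {t s : W} (hs : s ∈ L0) (h : a *ᵥ t = (2 : ℤ) • s) (y x : W) :
    S.br a y (x + t) = S.e ((2 : ℚ) • Ef y s - Ef s (a *ᵥ x)) * S.br a y x := by
  have h1 := congrFun (S.Sp_per hs S.Θ_Sp) (a *ᵥ x + y)
  simp only [br, Rt, mulVec_add, h] at h1 ⊢
  rw [← h1, add_right_comm, ← mul_assoc, ← mul_assoc, ← AddChar.map_add_eq_mul,
    ← AddChar.map_add_eq_mul]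
  congr 2
  simp only [Ef_add_right, Ef_z_left, Ef_z_right, Ef_swap s y]
  push_cast
  module

/-- the translation of a complement -/
def Tc (S : TSys k q) (a : M8 AF) (N : ℕ) (t : W) (g : W → k) : W → k := fun x =>
  S.e (((N : ℚ) / 2) • Ef t x - (1 / 2 : ℚ) • Ef (a *ᵥ t) (a *ᵥ x)) * g (x + t)

lemma Tc_mem {t : W} (ht : t ∈ Wp q) {g : W → k} (hg : g ∈ S.Cs a N) :
    S.Tc a N t g ∈ S.Cs a N := fun y hy => by
  have h1 := Gs_Rt ht (hg (y - a *ᵥ t) (sub_mem hy (v2_Wp a ht)))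
  convert Submodule.smul_mem _ (S.e (-((1 / 2 : ℚ) • Ef y (a *ᵥ t)))) h1 using 1
  funext x
  simp only [br, Rt, Tc, Pi.mul_apply, Pi.smul_apply, smul_eq_mul, mulVec_add]
  rw [show a *ᵥ x + a *ᵥ t + (y - a *ᵥ t) = a *ᵥ x + y by abel, mul_mul_mul_comm,
    mul_assoc (S.e _) (S.Θ _), ← mul_assoc, ← mul_assoc, ← mul_assoc, ← AddChar.map_add_eq_mul, ← AddChar.map_add_eq_mul,
    ← AddChar.map_add_eq_mul, mul_assoc]
  congr 2
  simp only [Ef_add_right, Ef_sub_left, Ef_self]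
  push_cast
  module

/-- the character of a class -/
def chr (S : TSys k q) (c : W) : {t : W // t ∈ L0 ∧ t ∈ Wp q} → k :=
  fun t => S.e ((2 : ℚ) • Ef c t.1)

/-- theta functions with characters in a finite set -/
def GX (S : TSys k q) (N : ℕ) (X : Finset ({t : W // t ∈ L0 ∧ t ∈ Wp q} → k)) :
    Submodule k (W → k) :=
  Submodule.span k {f | ∃ L, wt L = N ∧ (∀ i (l : Pr), (l : ℕ) = q → ‖cp l (cl L i)‖ ≤ 1) ∧
    S.chr (cl L) ∈ X ∧ f = gen S.e S.Θ L}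

open scoped Classical

lemma GX_mono {X Y : Finset _} (h : X ⊆ Y) : S.GX N X ≤ S.GX N Y :=
  Submodule.span_mono fun _ ⟨L, h1, h2, h3, h4⟩ => ⟨L, h1, h2, h h3, h4⟩

lemma exists_GX {F : W → k} (h : F ∈ S.G N) : ∃ X, F ∈ S.GX N X := by
  induction h using Submodule.span_induction with
  | mem _ h =>
    obtain ⟨L, h1, h2, h3⟩ := h
    exact ⟨{_}, Submodule.subset_span ⟨L, h1, h2, Finset.mem_singleton_self _, h3⟩⟩
  | zero => exact ⟨∅, zero_mem _⟩
  | add _ _ _ _ h h' =>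
    obtain ⟨X, h⟩ := h
    obtain ⟨Y, h'⟩ := h'
    exact ⟨X ∪ Y, add_mem (GX_mono Finset.subset_union_left h)
      (GX_mono Finset.subset_union_right h')⟩
  | smul c _ _ h => exact h.imp fun X h => Submodule.smul_mem _ _ h

lemma GX_erase {X : Finset _} (ξ) (t : {t : W // t ∈ L0 ∧ t ∈ Wp q}) {F : W → k}
    (h : F ∈ S.GX N X) : Rt S.e N ((2 : ℤ) • t.1) F - ξ t • F ∈ S.GX N (X.erase ξ) := by
  refine (Submodule.span_le (p := (S.GX N (X.erase ξ)).comap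
    (RtL S.e N ((2 : ℤ) • t.1) - ξ t • LinearMap.id))).2 ?_ h
  rintro _ ⟨L, h1, h2, h3, rfl⟩
  change Rt S.e N _ _ - ξ t • gen S.e S.Θ L ∈ S.GX N (X.erase ξ)
  rw [Rt_gen h1, S.gen_per t.2.1, smul_smul, ← AddChar.map_add_eq_mul, ← sub_smul,
    show (1 / 2 : ℚ) • Ef (cl L) ((2 : ℤ) • t.1) + Ef (cl L) t.1 = (2 : ℚ) • Ef (cl L) t.1 by
      rw [Ef_z_right]; push_cast; module]
  by_cases e : S.chr (cl L) = ξ
  · rw [← e, chr, sub_self, zero_smul]
    exact zero_mem _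
  · exact Submodule.smul_mem _ _ (Submodule.subset_span ⟨L, h1, h2, Finset.mem_erase.2 ⟨e, h3⟩, rfl⟩)

lemma GX_Sp (hN : N ≠ 0) {X : Finset _} (hX : ∀ ξ ∈ X, ∀ ξ' ∈ X, ξ = ξ') :
    ∃ w, ∀ F ∈ S.GX N X, Rt S.e N w F ∈ Sp S.e S.Θ N := by
  by_cases h : ∃ c : W, (∀ i (l : Pr), (l : ℕ) = q → ‖cp l (c i)‖ ≤ 1) ∧ S.chr c ∈ X
  · obtain ⟨c, c1, c2⟩ := h
    refine ⟨-((N : ℚ)⁻¹ • c), fun F => span_Rt_mem ?_⟩
    rintro _ ⟨L, h1, h2, h3, rfl⟩
    rw [Rt_gen h1]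
    refine Submodule.smul_mem _ _ (Submodule.subset_span ⟨_, (wt_shf _ _).trans h1, ?_, rfl⟩)
    have e : ((N : ℕ) : ℤ) • ((N : ℚ)⁻¹ • c) = c := by
      rw [natCast_zsmul, ← Nat.cast_smul_eq_nsmul ℚ, smul_inv_smul₀ (by exact_mod_cast hN)]
    rw [cl_shf, h1, zs_neg, e, ← sub_eq_add_neg]
    refine mem_L0.2 fun i l => ?_
    by_cases hl : (l : ℕ) = q
    · rw [Pi.smul_apply, map_zsmul, zsmul_eq_mul, norm_mul, Pi.sub_apply, map_sub]
      refine mul_le_one₀ (IsUltrametricDist.norm_intCast_le_one _ _) (norm_nonneg _) ?_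
      rw [sub_eq_add_neg]
      exact (Padic.nonarchimedean _ _).trans (max_le (h2 i l hl) (by simpa using c1 i l hl))
    · refine mem_of_Ef (fun t ht ht' => (S.ker _).1 ?_) i l hl
      have := congrFun (hX _ c2 _ h3) ⟨t, ht, ht'⟩
      rw [show Ef t ((2 : ℤ) • (cl L - c)) = (2 : ℚ) • Ef c t - (2 : ℚ) • Ef (cl L) t by
        rw [Ef_z_right, Ef_swap, Ef_sub_left]; push_cast; module, AddChar.map_sub_eq_div]
      exact div_eq_one_iff_eq (e_ne _ _) |>.2 this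
  · refine ⟨0, fun F => span_Rt_mem ?_⟩
    rintro _ ⟨L, _, h2, h3, _⟩
    exact (h ⟨_, h2, h3⟩).elim

theorem Cmp.dim (hG : GENP) (h : S.Cmp a N) (hN : N ≠ 0)
    (hint : ∀ i j (l : Pr), (l : ℕ) ≠ q → ‖cp l (a i j)‖ ≤ 1) {ι : Type} [Fintype ι]
    (f : ι → W → k) (hf : ∀ i, f i ∈ Submodule.span k {φ | ∃ y ∈ Wp q, φ = S.br a y ∧
      ∀ t ∈ L0, t ∈ Wp q → S.e ((2 : ℚ) • Ef y (a *ᵥ t)) = 1})
    (hi : LinearIndependent k f) : Fintype.card ι ≤ (4 * N) ^ 4 := by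
  have hf' : ∀ i, f i ∈ Submodule.span k {φ | ∃ y ∈ Wp q, φ = S.br a y} := fun i => by
    refine Submodule.span_mono ?_ (hf i)
    rintro _ ⟨y, h1, h2, _⟩
    exact ⟨y, h1, h2⟩
  have hs : ∀ i (t : {t : W // t ∈ L0 ∧ t ∈ Wp q}) (g : W → k),
      Rt S.e N ((2 : ℤ) • t.1) (f i * g) = f i * S.Tc a N ((2 : ℤ) • t.1) g := fun i t g => by
    refine (Submodule.span_le (p := LinearMap.eqLocus (RtL S.e N ((2 : ℤ) • t.1) ∘ₗ
      LinearMap.mulRight k g) (LinearMap.mulRight k (S.Tc a N ((2 : ℤ) • t.1) g)))).2 ?_ (hf i)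
    rintro _ ⟨y, -, rfl, h3⟩
    funext x
    change S.e _ * (S.br a y _ * g _) = S.br a y x * (S.e _ * g _)
    have e : a *ᵥ (2 : ℤ) • t.1 = (2 : ℤ) • a *ᵥ t.1 := map_zsmul a.mulVecLin _ _
    rw [v2_shift (v2_L0 hint t.2.1 t.2.2) e, sub_eq_add_neg, AddChar.map_add_eq_mul,
      h3 _ t.2.1 t.2.2, one_mul, mul_assoc, ← mul_assoc, ← AddChar.map_add_eq_mul, mul_left_comm, e]
    congr 3
    simp only [Ef_z_left]
    push_cast
    module
  obtain ⟨g, hg, g0⟩ := h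
  choose X hX using fun i => exists_GX (v2_mul hg (hf' i))
  have hY := fun i => GX_mono (Finset.subset_biUnion_of_mem X (Finset.mem_univ i)) (hX i)
  generalize Finset.univ.biUnion X = Y at hY
  clear hX X
  induction Y using Finset.eraseInduction generalizing g with
  | H Y ih =>
  by_cases hu : ∀ ξ ∈ Y, ∀ ξ' ∈ Y, ξ = ξ'
  · obtain ⟨w, hw⟩ := GX_Sp (S := S) hN hu
    have h2 := hi.map (f := RtL S.e N w ∘ₗ LinearMap.mulRight k g)
      (Submodule.disjoint_def.2 fun φ hφ z => by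
        by_contra φ0
        obtain ⟨x, -, h1, h2⟩ := v2_dom hG hg g0 (fun _ : Unit => φ)
          (fun _ => Submodule.span_le.2 (Set.range_subset_iff.2 hf') hφ) fun _ => φ0
        exact Rt_ne w (Function.ne_iff.2 ⟨x, mul_ne_zero (h2 ()) h1⟩ : φ * g ≠ 0) z)
    exact S.dim N (Nat.pos_of_ne_zero hN) _ _ (fun i => hw _ (hY _))
      (h2.comp _ (Fintype.equivFin ι).symm.injective)
  · push Not at hu
    obtain ⟨ξ, hξ, ξ', hξ', hne⟩ := hu
    obtain ⟨t, ht⟩ := Function.ne_iff.1 hne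
    have st : ∀ ξ ∈ Y, S.Tc a N ((2 : ℤ) • t.1) g - ξ t • g ≠ 0 → _ := fun ξ hξ h0 =>
      ih ξ hξ _ (sub_mem (Tc_mem (zsmul_mem t.2.2 _) hg) (Submodule.smul_mem _ _ hg)) h0 fun i => by
        rw [mul_sub, mul_smul_comm, ← hs]
        exact GX_erase ξ t (hY i)
    by_cases h0 : S.Tc a N ((2 : ℤ) • t.1) g - ξ t • g = 0
    · refine st ξ' hξ' ?_
      rw [sub_eq_zero.1 h0, ← sub_smul]
      exact smul_ne_zero (sub_ne_zero.2 ht) g0
    · exact st ξ hξ h0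

theorem Cmp.dom (hG : GENP) (h : S.Cmp a N) {ι : Type} [Finite ι] (f : ι → W → k)
    (hf : ∀ i, f i ∈ Submodule.span k {φ | ∃ y ∈ Wp q, φ = S.br a y}) (h0 : ∀ i, f i ≠ 0) :
    ∃ x ∈ Wp q, ∀ i, f i x ≠ 0 := by
  obtain ⟨g, hg, g0⟩ := h
  exact (v2_dom hG hg g0 f hf h0).imp fun x h => ⟨h.1, h.2.2⟩

lemma v2_bpf (x : W) : ∃ η, S.Θ (x + iq q • hw η) ≠ 0 := by
  obtain ⟨η, h⟩ := S.bpf x
  refine ⟨η, fun h0 => ?_⟩
  have := congrFun (S.per _ (sub_iq (S.v2_half (hw_two η)))) (x + iq q • hw η)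
  rw [Rt, Pi.smul_apply, h0, smul_zero, add_assoc, add_sub_cancel] at this
  exact mul_ne_zero (e_ne _ _) h this

theorem Cmp.ineq (hG : GENP) (h : S.Cmp a N) (hN : N ≠ 0)
    (hint : ∀ i j (l : Pr), (l : ℕ) ≠ q → ‖cp l (a i j)‖ ≤ 1) (T : Finset Pr)
    (hT : ∀ l ∈ T, (l : ℕ) ≠ q) (hdet : ∀ l ∈ T, (a.map (cp l)).det ≠ 0) :
    ∏ l ∈ T, ‖(a.map (cp l)).det‖⁻¹ ≤ (4 * N : ℝ) ^ 4 := by
  choose Z h1 h2 h3 using fun l : T => padic_reps (a.map (cp l))ᵀ
    (fun i j => hint j i l (hT l l.2)) (by rw [det_transpose]; exact hdet l l.2)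
  choose z z1 z2 using fun i : ∀ l : T, Z l => v2_glob T fun l => (i l : Vl l)
  choose η hη using fun i => S.v2_bpf ((1 / 2 : ℚ) • jz (z i))
  let y := fun i => (1 / 2 : ℚ) • jz (z i) + iq q • hw (η i)
  have hE : ∀ i, ∀ s ∈ L0, S.e ((2 : ℚ) • Ef (y i) s) = S.e (z i ⬝ᵥ s) := fun i s hs => by
    rw [show (2 : ℚ) • Ef (y i) s = z i ⬝ᵥ s + Ef (iq q • (2 : ℤ) • hw (η i)) s by
      simp only [y, Ef_add_left, Ef_q_left, Ef_smul_left, Ef_z_left, Ef_jz, mul_smul_comm]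
      push_cast
      module, AddChar.map_add_eq_mul,
      S.e_one (Zq_zero (Ef_memR (mem_L0q.1 (iq_L0 q (hw_two _))) (mem_L0q.1 hs))), mul_one]
  have hy : ∀ i, y i ∈ Wp q := fun i => add_mem (Wp_qsmul _ fun j l hl => by
    have := z2 i l fun h => hT l h hl
    rcases j with j | j
    · exact congrFun this _
    · exact (map_neg _ _).trans (neg_eq_zero.2 (congrFun this _))) (iq_mem _ _)
  have hz : ∀ i, aᵀ *ᵥ z i ∈ L0 := fun i => mem_L0.2 fun j l => by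
    change ‖cpv l (aᵀ *ᵥ z i) j‖ ≤ 1
    rw [v2_cpv]
    by_cases hl : l ∈ T
    · rw [z1 i ⟨l, hl⟩]
      exact h2 ⟨l, hl⟩ _ (i _).2 j
    · simp [z2 i l hl]
  let D : AddSubgroup (W × W) :=
    { carrier := {u | u.2 ∈ L0 ∧ a *ᵥ u.1 = (2 : ℤ) • u.2}
      zero_mem' := ⟨zero_mem _, by simp⟩
      add_mem' := fun {u v} hu hv => ⟨add_mem hu.1 hv.1, by
        rw [Prod.fst_add, Prod.snd_add, mulVec_add, hu.2, hv.2, zs_add]⟩
      neg_mem' := fun {u} hu => ⟨neg_mem hu.1, by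
        rw [Prod.fst_neg, Prod.snd_neg, mulVec_neg, hu.2, zs_neg]⟩ }
  let χ : (∀ l : T, Z l) → Multiplicative D →* k := fun i =>
    { toFun := fun u => S.e (z i ⬝ᵥ u.toAdd.1.2)
      map_one' := by simp
      map_mul' := fun u v => by rw [← AddChar.map_add_eq_mul, ← dotProduct_add]; rfl }
  have hχ : Function.Injective χ := fun i i' e => funext fun l => Subtype.ext <|
    h3 l _ (i l).2 _ (i' l).2 fun j => by
    have c1 : ∀ (l' : Pr) (v : Vl l), cpv l' (sgv l v) = if h : l' = l then h ▸ v else 0 :=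
      fun l' v => funext fun m => by
        split_ifs with h
        · subst h; exact cp_sg _ _
        · exact cp_sg_ne h _
    have := DFunLike.congr_fun e (Multiplicative.ofAdd ⟨(sgv l ((a.map (cp l))⁻¹ *ᵥ Pi.single j 2),
      sgv l (Pi.single j 1)), mem_L0q.2 fun m => sg_mem (by
        rw [Pi.single_apply]; split_ifs <;> simp), funext fun m => ad_ext fun l' => by
          change cpv l' (a *ᵥ _) m = cp l' ((2 : ℤ) • sg l _)
          rw [v2_cpv, c1, map_zsmul]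
          split_ifs with h
          · subst h
            rw [mulVec_mulVec, mul_nonsing_inv _ (Ne.isUnit (hdet _ l.2)), one_mulVec, cp_sg,
              Pi.single_apply, Pi.single_apply]
            split_ifs <;> simp
          · simp [cp_sg_ne h]⟩)
    change S.e (z i ⬝ᵥ sgv l _) = S.e (z i' ⬝ᵥ sgv l _) at this
    rw [← div_eq_one_iff_eq (e_ne _ _), ← AddChar.map_sub_eq_div, S.ker] at this
    have h4 := this l (hT l l.2)
    rw [← z1 i l, ← z1 i' l]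
    have c2 : ∀ w : W, cp l (w ⬝ᵥ sgv l (Pi.single j 1)) = cpv l w j := fun w => by
      simp only [dotProduct, map_sum, map_mul, sgv, cp_sg]
      exact dotProduct_single_one (cpv l w) j
    rwa [map_sub, c2, c2] at h4
  have hl : LinearIndependent k fun i => S.br a (y i) := by
    refine Fintype.linearIndependent_iff.2 fun c hc i => ?_
    have := Fintype.linearIndependent_iff.1 ((linearIndependent_monoidHom _ k).comp χ hχ)
      (fun i => c i * S.br a (y i) 0) (funext fun u => by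
        have := congrFun hc (0 + u.toAdd.1.1)
        simp only [Finset.sum_apply, Pi.smul_apply, smul_eq_mul, v2_shift u.toAdd.2.1 u.toAdd.2.2,
          mulVec_zero, Ef_zero_right, sub_zero, hE _ _ u.toAdd.2.1] at this
        rw [Finset.sum_apply]
        exact (Finset.sum_congr rfl fun j _ => by
          rw [mul_comm (S.e _), ← mul_assoc]; rfl).trans this) i
    refine (mul_eq_zero.1 this).resolve_right (mul_ne_zero (e_ne _ _) ?_)
    rw [mulVec_zero, zero_add]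
    exact hη i
  have := h.dim hG hN hint _ (fun i => Submodule.subset_span ⟨y i, hy i, rfl, fun t ht ht' => by
    rw [hE _ _ (v2_L0 hint ht ht'), dotProduct_mulVec, ← mulVec_transpose]
    exact S.e_one (Zq_zero (sum_mem (t := Finset.univ) fun j _ =>
      mul_mem (mem_L0q.1 (hz i) j) (mem_L0q.1 ht j)))⟩) hl
  rw [Fintype.card_pi] at this
  rw [← Finset.prod_coe_sort]
  refine le_trans (Finset.prod_le_prod (fun _ _ => by positivity) fun l _ => ?_)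
    (show ∏ l : T, ((Z l).card : ℝ) ≤ _ by simp only [Fintype.card_coe] at this; exact_mod_cast this)
  rw [← det_transpose]
  exact h1 l

end TSys

end Pool.Agent.MT
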