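import Pool.Agent.Lib.MP_d61fbb_ag.MT.BW1

/-! Weil polynomials from a degree inequality. -/

set_option autoImplicit false

noncomputable section

namespace Pool.Agent.MT.BW

open Polynomial Finset

open Filter

theorem res_eq {Q : ℚ[X]} (hQ : Q.Monic) (w : ℤ[X]) : ∃ N : ℚ, ∀ (L : Type) [NormedField L]
    [CharZero L] [IsAlgClosed L], ‖(N : L)‖ = ((Q.aroots L).map fun z => ‖aeval z w‖).prod := by
  refine ⟨resultant Q (w.map (algebraMap ℤ ℚ)) Q.natDegree w.natDegree, fun L _ _ _ => ?_⟩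
  have h := resultant_eq_prod_eval (Q.map (algebraMap ℚ L))
    ((w.map (algebraMap ℤ ℚ)).map (algebraMap ℚ L)) w.natDegree
    (natDegree_map_le.trans natDegree_map_le) (IsAlgClosed.splits _)
  rw [natDegree_map, resultant_map_map, (hQ.map _).leadingCoeff, one_pow, one_mul, eq_ratCast] at h
  rw [h, ← normHom_apply, map_multiset_prod, Multiset.map_map]
  simp only [Function.comp_def, normHom_apply, eval_map_algebraMap, aeval_map_algebraMap]

/-- the degree inequality bounds the archimedean times the `p`-adic size of the resultant -/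
theorem pf {p : Nat.Primes} {P : ∀ l : Nat.Primes, ℤ_[l][X]} {Q : ℚ[X]} (hQ : Q.Monic)
    (h : ∀ l ≠ p,
      Q.map (algebraMap ℚ (PadicAlgCl l)) = (P l).map (algebraMap ℤ_[l] (PadicAlgCl l)))
    (w : ℤ[X]) {B : ℝ} (hB : ∀ S : Finset Nat.Primes, p ∉ S → (∀ l ∈ S, 0 < nz (P l) w) →
      ∏ l ∈ S, (nz (P l) w)⁻¹ ≤ B) {x y a b : ℝ} (hx : 0 < x) (hy : 0 ≤ y)
    (f : ℂ → ℝ) (f' : PadicAlgCl p → ℝ) (f0 : ∀ z, 0 < f z) (f1 : ∀ z, 0 ≤ f' z)
    (ha : a = ((Q.aroots ℂ).map f).prod) (hb : b = ((Q.aroots (PadicAlgCl p)).map f').prod)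
    (h1 : ∀ z ∈ Q.aroots ℂ, x * f z ≤ ‖aeval z w‖)
    (h2 : ∀ z ∈ Q.aroots (PadicAlgCl p), y * f' z ≤ ‖aeval z w‖) :
    (x * y) ^ Q.natDegree * (a * b) ≤ B := by
  obtain ⟨N, hN⟩ := res_eq hQ w
  have k : ∀ (L : Type) [NormedField L] [CharZero L] [IsAlgClosed L] (x : ℝ) (f : L → ℝ), 0 ≤ x →
      (∀ z, 0 ≤ f z) → (∀ z ∈ Q.aroots L, x * f z ≤ ‖aeval z w‖) →
      x ^ Q.natDegree * ((Q.aroots L).map f).prod ≤ ‖(N : L)‖ := fun L _ _ _ x f hx hf h => by
    have := Multiset.prod_map_le_prod_map₀ (s := Q.aroots L) (fun z => x * f z) _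
      (fun z _ => mul_nonneg hx (hf z)) h
    rwa [Multiset.prod_map_mul, Multiset.map_const', Multiset.prod_replicate,
      IsAlgClosed.card_roots_eq_natDegree, natDegree_map, ← hN] at this
  have k1 := k ℂ x f hx.le (fun z => (f0 z).le) h1
  have k2 := k _ y f' hy f1 h2
  have a0 : 0 < a := ha ▸ Multiset.prod_pos fun r hr => by
    obtain ⟨z, -, rfl⟩ := Multiset.mem_map.1 hr
    exact f0 z
  have b0 : 0 ≤ b := hb ▸ Multiset.prod_map_nonneg fun z _ => f1 z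
  rw [← ha, Complex.norm_ratCast] at k1
  rw [← hb, norm_rat] at k2
  have N0 : N ≠ 0 := by
    rintro rfl
    rw [Rat.cast_zero, abs_zero] at k1
    exact absurd k1 (not_le.2 (by positivity))
  obtain ⟨S, s1, s2⟩ := prod_formula p N N0
  have e : ∀ l ∈ S, nz (P l) w = ‖(N : ℚ_[l])‖ := fun l hl => by
    rw [← norm_rat, hN, nz, aroots_def, aroots_def, ← h l fun q => s1 (q ▸ hl)]
    rfl
  have k3 := hB S s1 fun l hl => e l hl ▸ norm_pos_iff.2 (Rat.cast_ne_zero.2 N0)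
  rw [prod_congr rfl fun l hl => by rw [e l hl], s2] at k3
  refine le_trans (le_of_eq (by ring)) ((mul_le_mul k1 k2 (by positivity) (abs_nonneg _)).trans k3)

theorem fac_le {α : Type} (Z : Multiset α) (f : α → ℝ) (h : ∀ z ∈ Z, 1 ≤ f z) :
    1 ≤ (Z.map f).prod ∧ ∀ z ∈ Z, f z ≤ (Z.map f).prod := by
  induction Z using Multiset.induction_on with
  | empty => simp
  | cons a Z ih =>
    obtain ⟨h1, h2⟩ := ih fun z hz => h z (Multiset.mem_cons_of_mem hz)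
    have h3 := h a (Multiset.mem_cons_self _ _)
    rw [Multiset.map_cons, Multiset.prod_cons]
    refine ⟨by nlinarith, fun z hz => ?_⟩
    rcases Multiset.mem_cons.1 hz with rfl | hz
    · nlinarith
    · nlinarith [h2 z hz]

theorem weil_poly {p : Nat.Primes} {P : ∀ l : Nat.Primes, ℤ_[l][X]} {Q : ℚ[X]} (hQ : Q.Monic)
    {g : ℕ} (hg : Q.natDegree = 2 * g) (h : ∀ l ≠ p,
      Q.map (algebraMap ℚ (PadicAlgCl l)) = (P l).map (algebraMap ℤ_[l] (PadicAlgCl l)))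
    {c : ℝ} (hb : ∀ (a j : ℕ) (S : Finset Nat.Primes), p ∉ S →
      (∀ l ∈ S, 0 < nz (P l) (C (a : ℤ) - X ^ j)) → ∏ l ∈ S, (nz (P l) (C (a : ℤ) - X ^ j))⁻¹ ≤
        c * ((a : ℝ) ^ 2 + ((p : ℕ) : ℝ) ^ j) ^ g) :
    (∀ z ∈ Q.aroots ℂ, ‖z‖ ^ 2 ≤ (p : ℕ)) ∧ ∀ z ∈ Q.aroots (PadicAlgCl p), ‖z‖ ≤ 1 := by
  classical
  obtain ⟨ε, e0, -, he⟩ := exists_away (L := PadicAlgCl p) (2 * g)
  set r : ℝ := ((p : ℕ) : ℝ) with hr
  have r1 : 1 < r := by rw [hr]; exact_mod_cast p.2.one_lt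
  obtain ⟨a1, a2⟩ := fac_le (Q.aroots ℂ) (fun z => max 1 (‖z‖ ^ 2 / r)) fun _ _ => le_max_left _ _
  obtain ⟨b1, b2⟩ := fac_le (Q.aroots (PadicAlgCl p)) (fun z => max 1 (‖z‖ ^ 2))
    fun _ _ => le_max_left _ _
  set α := ((Q.aroots ℂ).map fun z => max 1 (‖z‖ ^ 2 / r)).prod with hα
  set β := ((Q.aroots (PadicAlgCl p)).map fun z => max 1 (‖z‖ ^ 2)).prod with hβ
  have ev : ∀ᶠ i : ℕ in atTop, ∀ z ∈ (Q.aroots ℂ).toFinset, 1 < ‖z‖ ^ 2 / r →
      2 * (2 + 2 * g : ℝ) ≤ (‖z‖ ^ 2 / r) ^ i := (eventually_all_finset _).2 fun z _ => by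
    by_cases c : 1 < ‖z‖ ^ 2 / r
    · exact ((tendsto_pow_atTop_atTop_of_one_lt c).eventually_ge_atTop _).mono fun i hi _ => hi
    · exact Eventually.of_forall fun i hi => absurd hi c
  have main : α * β ≤ 1 := by
    by_contra hlt
    obtain ⟨i, i1, i2⟩ := (ev.and ((tendsto_pow_atTop_atTop_of_one_lt (not_le.1 hlt)).eventually_gt_atTop
      (|c| * ((2 + 2 * g) ^ 2 + 1) ^ g / (ε / 2) ^ (2 * g)))).exists
    obtain ⟨t, t1, t2⟩ := he ((Q.aroots (PadicAlgCl p)).map (· ^ (2 * i))) (2 * (p : ℕ) ^ i) (by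
      rw [Multiset.card_map, IsAlgClosed.card_roots_eq_natDegree, natDegree_map, hg])
    have ri : 1 ≤ r ^ i := one_le_pow₀ r1.le
    have t3 : (t : ℝ) ≤ 2 * g := by exact_mod_cast t1
    have t4 : (0 : ℝ) ≤ t := Nat.cast_nonneg t
    have t5 : ((2 * (p : ℕ) ^ i + t : ℕ) : ℝ) = 2 * r ^ i + t := by push_cast; rfl
    have t6 : 2 * r ^ i + t ≤ (2 + 2 * g) * r ^ i := by nlinarith
    have k := pf hQ h _ (hb (2 * (p : ℕ) ^ i + t) (2 * i)) (x := r ^ i / 2) (y := ε)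
      (a := α ^ i) (b := β ^ i) (by positivity) e0.le (fun z => max 1 (‖z‖ ^ 2 / r) ^ i)
      (fun z => max 1 (‖z‖ ^ 2) ^ i) (fun z => by positivity) (fun z => by positivity)
      (Multiset.prod_map_pow ..).symm (Multiset.prod_map_pow ..).symm (fun z hz => ?_) fun z hz => ?_
    · rw [hg, t5] at k
      have k1 : c * ((2 * r ^ i + t) ^ 2 + r ^ (2 * i)) ^ g ≤
          |c| * ((2 + 2 * g) ^ 2 + 1) ^ g * (r ^ i) ^ (2 * g) := by
        rw [mul_assoc, pow_mul (r ^ i), ← mul_pow]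
        refine mul_le_mul (le_abs_self c) (pow_le_pow_left₀ (by positivity) ?_ _) (by positivity)
          (abs_nonneg c)
        rw [mul_comm 2 i, pow_mul, add_mul, ← mul_pow, one_mul]
        gcongr
      rw [div_lt_iff₀ (by positivity)] at i2
      have k2 := k.trans k1
      rw [show r ^ i / 2 * ε = ε / 2 * r ^ i by ring, mul_pow, ← mul_pow α, mul_right_comm] at k2
      have := le_of_mul_le_mul_right k2 (by positivity)
      linarith
    · have q : ‖z ^ (2 * i)‖ = r ^ i * (‖z‖ ^ 2 / r) ^ i := by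
        rw [norm_pow, pow_mul, ← mul_pow, mul_div_cancel₀ _ (by positivity)]
      have q' : ‖((2 * (p : ℕ) ^ i + t : ℕ) : ℂ)‖ = 2 * r ^ i + t := by rw [Complex.norm_natCast, t5]
      simp only [map_sub, map_pow, aeval_X, map_natCast]
      rcases le_or_gt (‖z‖ ^ 2 / r) 1 with u | u
      · have q1 := norm_sub_norm_le ((2 * (p : ℕ) ^ i + t : ℕ) : ℂ) (z ^ (2 * i))
        have q2 : (‖z‖ ^ 2 / r) ^ i ≤ 1 := pow_le_one₀ (by positivity) u
        rw [q, q'] at q1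
        rw [max_eq_left u, one_pow]
        nlinarith
      · have q1 := norm_sub_norm_le (z ^ (2 * i)) ((2 * (p : ℕ) ^ i + t : ℕ) : ℂ)
        have q2 := i1 z (Multiset.mem_toFinset.2 hz) u
        rw [q, q', norm_sub_rev] at q1
        rw [max_eq_right u.le]
        nlinarith
    · have q := t2 _ (Multiset.mem_map_of_mem _ hz)
      simp only [map_sub, map_pow, aeval_X, map_natCast]
      refine le_trans (mul_le_mul_of_nonneg_left ?_ e0.le) q
      rw [norm_pow, pow_mul]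
      rcases le_total (‖z‖ ^ 2) 1 with u | u
      · rw [max_eq_left u, one_pow]; exact le_max_left _ _
      · rw [max_eq_right u]; exact le_max_right _ _
  refine ⟨fun z hz => (div_le_one (by positivity)).1 ?_, fun z hz => ?_⟩
  · exact (le_max_right _ _).trans ((a2 z hz).trans (by nlinarith))
  · exact (pow_le_one_iff_of_nonneg (norm_nonneg z) two_ne_zero).1
      ((le_max_right _ _).trans ((b2 z hz).trans (by nlinarith)))

theorem weil_of_ineq {n : Type} [Fintype n] [DecidableEq n] (p : Nat.Primes) (g : ℕ)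
    (hn : Fintype.card n = 2 * g) (A : ∀ l : Nat.Primes, Matrix n n ℤ_[l])
    (hdet : ∀ l ≠ p, (A l).det ^ 2 = ((p : ℕ) : ℤ_[l]) ^ (2 * g))
    (ha : ∀ m : ℕ, ∃ c : ℝ, ∀ (w : ℤ[X]) (H : ℝ), w.natDegree ≤ m → 1 ≤ H →
      (∀ i, |(w.coeff i : ℝ)| ≤ H) → ∀ S : Finset Nat.Primes, p ∉ S →
      (∀ l ∈ S, (aeval (A l) w).det ≠ 0) → ∏ l ∈ S, ‖(aeval (A l) w).det‖⁻¹ ≤ c * H ^ (2 * g))
    (hb : ∃ c : ℝ, ∀ (a j : ℕ) (S : Finset Nat.Primes), p ∉ S →
      (∀ l ∈ S, (aeval (A l) (C (a : ℤ) - X ^ j : ℤ[X])).det ≠ 0) →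
      ∏ l ∈ S, ‖(aeval (A l) (C (a : ℤ) - X ^ j : ℤ[X])).det‖⁻¹ ≤
        c * ((a : ℝ) ^ 2 + ((p : ℕ) : ℝ) ^ j) ^ g) :
    ∃ P : ℤ[X], (∀ l ≠ p, (A l).charpoly = P.map (Int.castRingHom _)) ∧
      ∀ z : ℂ, aeval z P = 0 → ‖z‖ ^ 2 = (p : ℕ) := by
  have hm : ∀ l, (A l).charpoly.Monic := fun l => Matrix.charpoly_monic _
  have hd : ∀ l, (A l).charpoly.natDegree = 2 * g := fun l => by
    rw [Matrix.charpoly_natDegree_eq_dim, hn]
  have ne : ∀ (l : Nat.Primes) (w : ℤ[X]), 0 < nz (A l).charpoly w → (aeval (A l) w).det ≠ 0 :=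
    fun l w h => norm_pos_iff.1 (nz_det (A l) w ▸ h)
  obtain ⟨Q, hQ, h⟩ := rat_of (p := p) hm hd fun ι _ u => by
    obtain ⟨m, B, b1, b2⟩ := height u
    obtain ⟨c, hc⟩ := ha m
    refine ⟨c * B ^ (2 * g), fun a H h1 h2 S s1 s2 => ?_⟩
    obtain ⟨q1, q2⟩ := b2 a H h2 (by linarith)
    simpa only [nz_det, mul_pow, mul_assoc] using
      hc _ (B * H) q1 (by nlinarith) q2 S s1 fun l hl => ne l _ (s2 l hl)
  obtain ⟨l₀, h₀⟩ := exists_ne p
  have hg : Q.natDegree = 2 * g := by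
    rw [← natDegree_map (algebraMap ℚ (PadicAlgCl l₀)), h l₀ h₀, (hm l₀).natDegree_map, hd]
  obtain ⟨c, hc⟩ := hb
  obtain ⟨w1, w2⟩ := weil_poly hQ hg h (c := c) fun a j S s1 s2 => by
    simpa only [nz_det] using hc a j S s1 fun l hl => ne l _ (s2 l hl)
  have hint : ∀ i, ∃ m : ℤ, (m : ℚ) = Q.coeff i := fun i => rat_int _ fun l => by
    rw [← norm_rat, ← eq_ratCast (algebraMap ℚ (PadicAlgCl l)), ← coeff_map]
    rcases eq_or_ne l p with rfl | hl
    · rw [(IsAlgClosed.splits _).eq_prod_roots_of_monic (hQ.map (algebraMap ℚ (PadicAlgCl l)))]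
      exact norm_coeff_prod _ w2 i
    · rw [h l hl, coeff_map, norm_alg]
      exact PadicInt.norm_le_one _
  obtain ⟨P, hP⟩ := (mem_lifts Q).1 ((lifts_iff_coeff_lifts (f := algebraMap ℤ ℚ) Q).2 hint)
  have inj : ∀ l : Nat.Primes, Function.Injective (algebraMap ℤ_[l] (PadicAlgCl l)) := fun l =>
    (injective_iff_map_eq_zero _).2 fun x hx => norm_eq_zero.1 (by rw [← norm_alg, hx, norm_zero])
  refine ⟨P, fun l hl => map_injective _ (inj l) ?_, fun z hz => ?_⟩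
  · rw [← h l hl, ← hP, Polynomial.map_map, Polynomial.map_map]
    exact congrArg (Polynomial.map · P) (RingHom.ext_int _ _)
  have hz' : z ∈ Q.aroots ℂ := mem_aroots.2 ⟨hQ.ne_zero, by rwa [← hP, aeval_map_algebraMap]⟩
  have c1 : Q.coeff 0 ^ 2 = ((p : ℕ) : ℚ) ^ (2 * g) := by
    have q := congrArg (algebraMap ℤ_[l₀] (PadicAlgCl l₀)) (hdet l₀ h₀)
    rw [Matrix.det_eq_sign_charpoly_coeff, hn, Even.neg_one_pow (even_two_mul g), one_mul, map_pow,
      ← coeff_map, ← h l₀ h₀, coeff_map, eq_ratCast, map_pow, map_natCast] at q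
    exact_mod_cast q
  have c2 : ((Q.aroots ℂ).map fun z => ‖z‖ ^ 2).prod = ((p : ℕ) : ℝ) ^ (2 * g) := by
    have q := (IsAlgClosed.splits (Q.map (algebraMap ℚ ℂ))).coeff_zero_eq_prod_roots_of_monic
      (hQ.map _)
    rw [natDegree_map, hg, Even.neg_one_pow (even_two_mul g), one_mul, coeff_map, eq_ratCast] at q
    have q1 := map_multiset_prod (normHom (α := ℂ)) (Q.aroots ℂ)
    rw [← q, normHom_apply, Complex.norm_ratCast] at q1
    rw [Multiset.prod_map_pow]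
    refine (congrArg (· ^ 2) q1.symm).trans ?_
    rw [sq_abs]
    exact_mod_cast c1
  have p0 : (0 : ℝ) < (p : ℕ) := by exact_mod_cast p.2.pos
  have z0 : ∀ y ∈ Q.aroots ℂ, 0 < ‖y‖ ^ 2 := fun y hy => (sq_nonneg _).lt_of_ne fun q =>
    absurd (c2 ▸ Multiset.prod_eq_zero (Multiset.mem_map.2 ⟨y, hy, q.symm⟩)) (by positivity)
  have c3 := (fac_le (Q.aroots ℂ) (fun y => ((p : ℕ) : ℝ) / ‖y‖ ^ 2)
    fun y hy => (one_le_div (z0 y hy)).2 (w1 y hy)).2 z hz'
  rw [Multiset.prod_map_div, c2, Multiset.map_const', Multiset.prod_replicate,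
    IsAlgClosed.card_roots_eq_natDegree, natDegree_map, hg, div_self (by positivity),
    div_le_one (z0 z hz')] at c3
  exact le_antisymm (w1 z hz') c3

theorem bound_of_ineq (p : Nat.Primes) (g : ℕ) (c : ℝ) : ∃ K : ℝ,
    ∀ {n : Type} [Fintype n] [DecidableEq n], Fintype.card n = 2 * g →
    ∀ (A : ∀ l : Nat.Primes, Matrix n n ℤ_[l]) (P : ℤ[X]),
      (∀ l ≠ p, (A l).charpoly = P.map (Int.castRingHom _)) → ∀ (w : ℤ[X]) (k : ℕ) (N : ℝ),
      (∀ (t : ℕ) (S : Finset Nat.Primes), ¬ (p : ℕ) ∣ t → p ∉ S →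
        (∀ l ∈ S, (aeval (A l) (w + C (((p : ℕ) : ℤ) ^ k * t))).det ≠ 0) →
        ∏ l ∈ S, ‖(aeval (A l) (w + C (((p : ℕ) : ℤ) ^ k * t))).det‖⁻¹ ≤ c * (N + (t : ℝ) ^ 2) ^ g) →
      ∀ u : PadicAlgCl p, aeval u P = 0 → ‖aeval u w‖ ≤ K / ((p : ℕ) : ℝ) ^ k := by
  obtain ⟨ε, e0, -, he⟩ := exists_away (L := PadicAlgCl p) (2 * g)
  set r : ℝ := ((p : ℕ) : ℝ) with hr
  have r1 : 1 < r := by rw [hr]; exact_mod_cast p.2.one_lt
  refine ⟨|c| * 2 ^ g / (ε / (2 * r)) ^ (2 * g), fun {n} _ _ hn A P hP w k N hb u hu => ?_⟩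
  obtain ⟨l₀, h₀⟩ := exists_ne p
  have m1 : P.Monic := monic_of_injective (f := Int.castRingHom ℤ_[l₀]) Int.cast_injective
    (hP l₀ h₀ ▸ Matrix.charpoly_monic _)
  have hg : (P.map (algebraMap ℤ ℚ)).natDegree = 2 * g := by
    rw [m1.natDegree_map, ← m1.natDegree_map (Int.castRingHom ℤ_[l₀]), ← hP l₀ h₀,
      Matrix.charpoly_natDegree_eq_dim, hn]
  set Q := P.map (algebraMap ℤ ℚ) with hQ
  obtain ⟨s, s1, s2⟩ : ∃ s : ℕ, |N| ≤ s ∧ ∀ z ∈ Q.aroots ℂ, 2 * ‖aeval z w‖ ≤ s := by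
    obtain ⟨s, hs⟩ := exists_nat_ge (|N| + ((Q.aroots ℂ).map fun z => 2 * ‖aeval z w‖).sum)
    have q : ∀ x ∈ (Q.aroots ℂ).map fun z => 2 * ‖aeval z w‖, 0 ≤ x := fun x hx => by
      obtain ⟨z, -, rfl⟩ := Multiset.mem_map.1 hx
      positivity
    exact ⟨s, by linarith [Multiset.sum_nonneg q], fun z hz => by
      linarith [Multiset.single_le_sum q _ (Multiset.mem_map_of_mem _ hz), abs_nonneg N]⟩
  let y : PadicAlgCl p → PadicAlgCl p := fun u => -(aeval u w / (p : ℕ) ^ k + 1) / (p : ℕ)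
  obtain ⟨i, -, hi⟩ := he ((Q.aroots (PadicAlgCl p)).map y) s (by
    rw [Multiset.card_map, IsAlgClosed.card_roots_eq_natDegree, natDegree_map, hg])
  have p0 : ((p : ℕ) : PadicAlgCl p) ≠ 0 := Nat.cast_ne_zero.2 p.2.ne_zero
  have p1 : ‖((p : ℕ) : PadicAlgCl p)‖ = r⁻¹ := by
    rw [← Rat.cast_natCast, norm_rat, Rat.cast_natCast, Padic.norm_p]
  set t := 1 + (p : ℕ) * (s + i) with ht
  have t1 : s + 1 ≤ t := by have := p.2.pos; nlinarith
  have t2 : (s : ℝ) + 1 ≤ t := by exact_mod_cast t1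
  have s0 : (0 : ℝ) ≤ s := Nat.cast_nonneg s
  have t0 : (0 : ℝ) < t := by linarith
  have rk : 1 ≤ r ^ k := one_le_pow₀ r1.le
  obtain ⟨-, b2⟩ := fac_le (Q.aroots (PadicAlgCl p)) (fun u => max 1 ‖y u‖) fun _ _ => le_max_left _ _
  have key := pf (p := p) (P := fun l => (A l).charpoly) (m1.map (algebraMap ℤ ℚ))
    (fun l hl => by
      rw [hP l hl, Polynomial.map_map, Polynomial.map_map]
      exact congrArg (Polynomial.map · P) (RingHom.ext_int _ _))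
    (w + C (((p : ℕ) : ℤ) ^ k * t)) (B := c * (N + (t : ℝ) ^ 2) ^ g)
    (fun S q1 q2 => by
      simpa only [nz_det] using hb t S (fun q => p.2.one_lt.ne' (Nat.dvd_one.1
        ((Nat.dvd_add_left (dvd_mul_right _ _)).1 q))) q1
        fun l hl => norm_pos_iff.1 (nz_det (A l) _ ▸ q2 l hl))
    (x := r ^ k * t / 2) (y := ε / r ^ (k + 1)) (a := 1) (by positivity) (by positivity)
    (fun _ => 1) (fun u => max 1 ‖y u‖) (fun _ => one_pos) (fun _ => by positivity) (by simp) rfl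
    (fun z hz => ?_) fun z hz => ?_
  · have hu' : u ∈ Q.aroots (PadicAlgCl p) :=
      mem_aroots.2 ⟨(m1.map _).ne_zero, by rwa [aeval_map_algebraMap]⟩
    have q1 : c * (N + (t : ℝ) ^ 2) ^ g ≤ |c| * 2 ^ g * (t : ℝ) ^ (2 * g) := by
      obtain ⟨n1, n2⟩ := abs_le.1 s1
      rw [mul_assoc, pow_mul, ← mul_pow]
      exact mul_le_mul (le_abs_self c) (pow_le_pow_left₀ (by nlinarith) (by nlinarith) _)
        (pow_nonneg (by nlinarith) _) (abs_nonneg c)
    have q2 := key.trans q1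
    rw [hg, one_mul, show r ^ k * t / 2 * (ε / r ^ (k + 1)) = ε / (2 * r) * t by rw [pow_succ]; field_simp,
      mul_pow, mul_right_comm] at q2
    have q3 := le_of_mul_le_mul_right q2 (by positivity)
    have q4 : aeval u w = (p : ℕ) ^ k * -((p : ℕ) * y u + 1) := by
      simp only [y]; field_simp; ring
    rw [q4, norm_mul, norm_pow, p1, norm_neg, inv_pow, inv_mul_eq_div]
    refine div_le_div_of_nonneg_right ?_ (by positivity)
    rw [le_div_iff₀ (by positivity), mul_comm]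
    refine le_trans (mul_le_mul_of_nonneg_left (le_trans ?_ (b2 u hu')) (by positivity)) q3
    refine (IsUltrametricDist.norm_add_le_max _ _).trans (max_le ?_ ?_)
    · rw [norm_mul, p1]
      exact (mul_le_of_le_one_left (norm_nonneg _) (inv_le_one_of_one_le₀ r1.le)).trans
        (le_max_right _ _)
    · rw [norm_one]; exact le_max_left _ _
  · have q1 := norm_sub_norm_le (((p : ℕ) : ℂ) ^ k * t) (-aeval z w)
    rw [norm_neg, norm_mul, norm_pow, Complex.norm_natCast, Complex.norm_natCast, sub_neg_eq_add,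
      add_comm, ← hr] at q1
    simp only [map_add, map_mul, map_pow, map_natCast]
    nlinarith [s2 z hz]
  · have q1 : aeval z (w + C (((p : ℕ) : ℤ) ^ k * t)) =
        (p : ℕ) ^ (k + 1) * (((s + i : ℕ) : PadicAlgCl p) - y z) := by
      simp only [map_add, map_mul, map_pow, map_natCast, y]
      rw [ht]; push_cast; field_simp; ring
    rw [q1, norm_mul, norm_pow, p1, inv_pow, div_mul_eq_mul_div, inv_mul_eq_div]
    exact div_le_div_of_nonneg_right (hi _ (Multiset.mem_map_of_mem _ hz)) (by positivity)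

end Pool.Agent.MT.BW
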