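import Pool.Agent.Lib.MP_d61fbb_ag.MT.Top
import Pool.Agent.Lib.MP_d61fbb_ag.MT.BV2
import Pool.Agent.Lib.MP_d61fbb_ag.MT.BW2
import Pool.Agent.Lib.MP_d61fbb_ag.MT.A6

/-! The theorems of Weil. -/

set_option autoImplicit false

noncomputable section

namespace Pool.Agent.MT

open Matrix Polynomial

namespace FSys
variable {k : Type} [Field k] {p : Pr} (S : FSys k p)

theorem bv3_gs {l : Pr} (hl : l ≠ p) : GS ((p : ℕ) : ℤ_[l]) (S.π l).val := by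
  have h5 : ∀ x : W, (fun i => cp l ((mA S.π *ᵥ x) i)) =
      (S.π l).val.map (algebraMap ℤ_[l] ℚ_[l]) *ᵥ cpv l x := fun x =>
    funext fun i => (cp l).toRingHom.map_mulVec (mA S.π) x i
  have key : ∀ x y : Vl l, ‖Ef ((S.π l).val.map (algebraMap ℤ_[l] ℚ_[l]) *ᵥ x)
      ((S.π l).val.map (algebraMap ℤ_[l] ℚ_[l]) *ᵥ y) - (p : ℕ) * Ef x y‖ ≤ 1 := fun x y => by
    have h1 := S.frobe (sgv l x) (sgv l y)
    have h2 : S.e (Ef (mA S.π *ᵥ sgv l x) (mA S.π *ᵥ sgv l y) -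
        (p : ℕ) • Ef (sgv l x) (sgv l y)) = 1 := by
      rw [AddChar.map_sub_eq_div, AddChar.map_nsmul_eq_pow, h1, div_self]
      exact pow_ne_zero _ (S.e.val_isUnit _).ne_zero
    have h3 := (S.ker _).1 h2 l fun e => hl (Subtype.ext e)
    have h4 : ∀ x : Vl l, cpv l (sgv l x) = x := fun x => funext fun i =>
      Pi.single_eq_same (M := fun l : Pr => ℚ_[l]) l (x i)
    rwa [map_sub, map_nsmul, Ef_map, Ef_map, h5, h5, h4, h4, nsmul_eq_mul,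
      show (fun i => cp l (sgv l x i)) = x from h4 x,
      show (fun i => cp l (sgv l y i)) = y from h4 y] at h3
  intro x y
  refine FaithfulSMul.algebraMap_injective ℤ_[l] ℚ_[l] ?_
  rw [map_mul, map_natCast, Ef_map, Ef_map]
  simp only [RingHom.map_mulVec]
  by_contra h
  have h0 := sub_ne_zero.2 h
  obtain ⟨c, hc⟩ := NormedField.exists_lt_norm ℚ_[l] 1
  refine not_le.2 hc ((congrArg norm (div_mul_cancel₀ c h0)).symm.trans_le ?_)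
  generalize c / _ = s
  have h1 := key (s • ((algebraMap ℤ_[l] ℚ_[l]) ∘ x)) ((algebraMap ℤ_[l] ℚ_[l]) ∘ y)
  rw [mulVec_smul, Ef_smul_left, Ef_smul_left, mul_left_comm, ← mul_sub] at h1
  exact h1

theorem det_sq {l : Pr} (hl : l ≠ p) : (S.π l).val.det ^ 2 = ((p : ℕ) : ℤ_[l]) ^ (2 * 4) := by
  have h := congrArg det (gs_iff.1 (S.bv3_gs hl))
  rw [det_mul, det_mul, det_transpose, det_smul, mul_right_comm] at h
  have := (isUnit_det_J (Fin 4) ℤ_[l]).mul_right_cancel h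
  rw [sq, this]; rfl

/-- The degree inequality for polynomials in the Frobenius operator. -/
theorem ineq_poly (hG : GENP) {w : ℤ[X]} {N : ℕ} (h : S.Cmp (aeval (mA S.π) w) N) (hN : N ≠ 0)
    (T : Finset Pr) (hT : p ∉ T) (hd : ∀ l ∈ T, (aeval (S.π l).val w).det ≠ 0) :
    ∏ l ∈ T, ‖(aeval (S.π l).val w).det‖⁻¹ ≤ (4 * N : ℝ) ^ 4 := by
  have e : ∀ l : Pr, ((aeval (mA S.π) w).map (cp l)).det = ((aeval (S.π l).val w).det : ℤ_[l]) :=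
    fun l => by rw [S.cp_aeval]; exact (PadicInt.Coe.ringHom.map_det _).symm
  have := h.ineq hG hN (fun i j l _ => by
    rw [show cp l (aeval (mA S.π) w i j) = _ from congrFun (congrFun (S.cp_aeval l w) i) j]
    exact (aeval (S.π l).val w i j).2) T (fun l hl e => hT (Subtype.ext e ▸ hl))
    fun l hl => by rw [e]; exact PadicInt.coe_ne_zero.2 (hd l hl)
  simpa only [e, PadicInt.padic_norm_e_of_padicInt] using this

theorem cmp_pow (j : ℕ) : S.Cmp (mA S.π ^ j) ((p : ℕ) ^ j) := by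
  induction j with
  | zero => simpa using TSys.cmp_int (S := S.toTSys) 1
  | succ j ih => rw [pow_succ, pow_succ']; exact S.cmp_pi ih

theorem ineq_a (hG : GENP) (m : ℕ) (w : ℤ[X]) (H : ℝ) (hw : w.natDegree ≤ m) (h1 : 1 ≤ H)
    (hH : ∀ i, |(w.coeff i : ℝ)| ≤ H) (T : Finset Pr) (hT : p ∉ T)
    (hd : ∀ l ∈ T, (aeval (S.π l).val w).det ≠ 0) : ∏ l ∈ T, ‖(aeval (S.π l).val w).det‖⁻¹ ≤
      (4 * (2 * (p : ℕ) + 2) ^ (m + 1)) ^ 4 * H ^ (2 * 4) := by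
  have h0 : ⌊H⌋₊ ≠ 0 := by rw [Ne, Nat.floor_eq_zero, not_lt]; exact h1
  refine (S.ineq_poly hG (S.cmp_poly hG m ⌊H⌋₊ w hw fun i => Nat.le_floor ?_) (by positivity)
    T hT hd).trans ?_
  · rw [Nat.cast_natAbs, Int.cast_abs]; exact hH i
  · have := Nat.floor_le (zero_le_one.trans h1)
    push_cast
    rw [← mul_assoc, mul_pow, ← pow_mul]
    gcongr

theorem ineq_b (hG : GENP) (a j : ℕ) (T : Finset Pr) (hT : p ∉ T)
    (hd : ∀ l ∈ T, (aeval (S.π l).val (C (a : ℤ) - X ^ j : ℤ[X])).det ≠ 0) :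
    ∏ l ∈ T, ‖(aeval (S.π l).val (C (a : ℤ) - X ^ j : ℤ[X])).det‖⁻¹ ≤
      8 ^ 4 * ((a : ℝ) ^ 2 + ((p : ℕ) : ℝ) ^ j) ^ 4 := by
  have h : S.Cmp (aeval (mA S.π) (C (a : ℤ) - X ^ j : ℤ[X])) (2 * a ^ 2 + 2 * (p : ℕ) ^ j) := by
    simpa using (TSys.cmp_int (S := S.toTSys) a).sub hG (S.cmp_pow j)
  refine (S.ineq_poly hG h (by have := p.2.pos; positivity) T hT hd).trans_eq ?_
  rw [← mul_pow]
  push_cast
  congr 1
  ring

end FSys

theorem bv3_gl {n : Type} [Fintype n] [DecidableEq n] (p : Pr) (g : ℕ)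
    (hn : Fintype.card n = 2 * g) (A : ∀ l : Pr, GL n ℤ_[l])
    (hdet : ∀ l ≠ p, (A l).val.det ^ 2 = ((p : ℕ) : ℤ_[l]) ^ (2 * g))
    (ha : ∀ m : ℕ, ∃ c : ℝ, ∀ (w : ℤ[X]) (H : ℝ), w.natDegree ≤ m → 1 ≤ H →
      (∀ i, |(w.coeff i : ℝ)| ≤ H) → ∀ S : Finset Pr, p ∉ S → (∀ l ∈ S,
        (aeval (A l).val w).det ≠ 0) → ∏ l ∈ S, ‖(aeval (A l).val w).det‖⁻¹ ≤ c * H ^ (2 * g))
    (hb : ∃ c : ℝ, ∀ (a j : ℕ) (S : Finset Pr), p ∉ S →
      (∀ l ∈ S, (aeval (A l).val (C (a : ℤ) - X ^ j : ℤ[X])).det ≠ 0) →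
      ∏ l ∈ S, ‖(aeval (A l).val (C (a : ℤ) - X ^ j : ℤ[X])).det‖⁻¹ ≤
        c * ((a : ℝ) ^ 2 + ((p : ℕ) : ℝ) ^ j) ^ g) :
    ∃ P : ℤ[X], (∀ l ≠ p, (A l).val.charpoly = P.map (Int.castRingHom _)) ∧
      ∀ z : ℂ, aeval z P = 0 → ‖z‖ ^ 2 = (p : ℕ) :=
  BW.weil_of_ineq p g hn (fun l => (A l).val) hdet ha hb

theorem weil_of : T_WEIL := fun _ _ hG _ _ _ _ p S _ =>
  bv3_gl p 4 (by simp) S.π (fun _ hl => S.det_sq hl) (fun m => ⟨_, S.ineq_a hG m⟩) ⟨_, S.ineq_b hG⟩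

end Pool.Agent.MT
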