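import Pool.Agent.Lib.MP_23455a_nt.H3.CH

/-! The density theorem of Frobenius for elements whose order is a power of an odd prime. -/

set_option autoImplicit false

open scoped NNReal Classical

namespace Pool.Agent.MT

open Pool.Agent.Lib.MP_696deb_nt.B2

/-- For a homomorphism with open kernel and an element of `l`-power order there are places of
degree one whose Frobenius element generates the same cyclic group. -/
theorem d_cheb {H : Subgroup Gam} {G : Type*} [Group G] (r : H →* G)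
    (hr : Op (r.ker.map H.subtype)) (s : H) {l k : ℕ} (hl : l.Prime) (h3 : 3 ≤ l)
    (hs : r s ^ l ^ k = 1) (B : Finset ℕ) :
    ∃ (w : Plc) (φ : H) (a : ℕ), w.p ∉ B ∧ IsFrob w w.p φ ∧ ¬ l ∣ a ∧ r φ = r s ^ a := by
  obtain ⟨J, hJ⟩ : ∃ J : ℤ → Subgroup Gam, ∀ m g, g ∈ J m ↔
      ∃ (h : g ∈ H) (n : ℤ), r s ^ (m * n) = r ⟨g, h⟩ := by
    refine ⟨fun m => ((Subgroup.zpowers (r s ^ m)).comap r).map H.subtype, fun m g => ?_⟩
    simp only [Subgroup.mem_map, Subgroup.mem_comap, Subgroup.mem_zpowers_iff, zpow_mul]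
    constructor
    · rintro ⟨x, ⟨n, e⟩, rfl⟩
      exact ⟨x.2, n, e⟩
    · rintro ⟨h, n, e⟩
      exact ⟨⟨g, h⟩, ⟨n, e⟩, rfl⟩
  have ho : ∀ m, Op (J m) := fun m => Subgroup.isOpen_mono (by
    rintro _ ⟨x, hx, rfl⟩
    exact (hJ m _).2 ⟨x.2, 0, by rw [mul_zero, zpow_zero]; exact (MonoidHom.mem_ker.1 hx).symm⟩) hr
  have hle : ∀ m, J m ≤ J 1 := fun m g hg => by
    obtain ⟨h, n, e⟩ := (hJ m g).1 hg
    exact (hJ 1 g).2 ⟨h, m * n, by rw [one_mul, e]⟩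
  have hn : ∀ m, ∀ g ∈ J 1, ∀ φ ∈ J m, g * φ * g⁻¹ ∈ J m := fun m g hg φ hφ => by
    obtain ⟨h, a, e⟩ := (hJ 1 g).1 hg
    obtain ⟨h', n, e'⟩ := (hJ m φ).1 hφ
    refine (hJ m _).2 ⟨mul_mem (mul_mem h h') (inv_mem h), n, ?_⟩
    have : (⟨g * φ * g⁻¹, mul_mem (mul_mem h h') (inv_mem h)⟩ : H) =
        ⟨g, h⟩ * ⟨φ, h'⟩ * (⟨g, h⟩ : H)⁻¹ := rfl
    rw [this, map_mul, map_mul, map_inv, ← e, ← e', zpow_mul_comm, mul_inv_cancel_right]
  have hp : ∀ d : ℕ, (s : Gam) ^ d ∈ J 1 := fun d =>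
    pow_mem ((hJ 1 s).2 ⟨s.2, 1, by simp⟩) d
  have h0 : r s ^ ((l : ℤ) ^ k) = 1 := by
    rw [← zpow_natCast] at hs
    exact_mod_cast hs
  by_cases h1 : r s = 1
  · obtain ⟨w, φ, b1, b2, x, hx, rfl⟩ := exists_frob_mem hr B
    exact ⟨w, x, 1, b1, b2, hl.not_dvd_one, by rw [h1, one_pow]; exact MonoidHom.mem_ker.1 hx⟩
  have h4 : ∀ d, 0 < d → d < 3 → (s : Gam) ^ d ∉ J l := fun d d0 d3 e => by
    obtain ⟨h, n, e⟩ := (hJ l _).1 e
    have e1 : (⟨(s : Gam) ^ d, h⟩ : H) = s ^ d := rfl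
    rw [e1, map_pow, ← zpow_natCast] at e
    have e2 : r s ^ ((l : ℤ) * n - d) = 1 := by rw [zpow_sub, e, mul_inv_cancel]
    have hc : IsCoprime (l : ℤ) ((l : ℤ) * n - d) := by
      rw [sub_eq_neg_add, IsCoprime.add_mul_left_right_iff, IsCoprime.neg_right_iff,
        Nat.isCoprime_iff_coprime]
      exact hl.coprime_iff_not_dvd.2 (Nat.not_dvd_of_pos_of_lt d0 (by omega))
    obtain ⟨a, b, hab⟩ : IsCoprime ((l : ℤ) ^ k) ((l : ℤ) * n - d) := hc.pow_left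
    refine h1 ?_
    rw [← zpow_one (r s), ← hab, zpow_add, mul_comm a, mul_comm b, zpow_mul, zpow_mul, h0, e2]
    simp
  obtain ⟨w, φ, b1, b2, b3, b4, -⟩ := H3.exists_frob_avoid (ho 1) (ho l) (ho l) (hle l) (hle l)
    (hn l) (hn l) (fun i => (s : Gam) ^ (i : ℕ)) (fun i => (s : Gam) ^ (i : ℕ)) (fun i => hp i)
    (fun i => hp i) (H3.ch3_rep fun d d0 d2 => h4 d d0 (by omega)) (H3.ch3_rep h4) B
  obtain ⟨h, n, e⟩ := (hJ 1 φ).1 b3
  rw [one_mul] at e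
  have h5 : ¬ (l : ℤ) ∣ n := by
    rintro ⟨m, rfl⟩
    exact b4 ((hJ l φ).2 ⟨h, m, e⟩)
  have h6 : (1 : ℤ) ≤ (l : ℤ) ^ k := one_le_pow₀ (by exact_mod_cast hl.one_le)
  have h7 : (1 : ℤ) ≤ l := by exact_mod_cast hl.one_le
  have h8 : 0 ≤ n + (l : ℤ) ^ k * (l * |n|) := by
    have := mul_le_mul h6 (mul_le_mul_of_nonneg_right h7 (abs_nonneg n))
      (by positivity) (by positivity)
    linarith [neg_abs_le n]
  obtain ⟨a, ha⟩ := Int.eq_ofNat_of_zero_le h8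
  refine ⟨w, ⟨φ, h⟩, a, b1, b2, fun hd => h5 ?_, ?_⟩
  · have : (l : ℤ) ∣ a := Int.natCast_dvd_natCast.2 hd
    rw [← ha] at this
    exact (dvd_add_left ⟨(l : ℤ) ^ k * |n|, by ring⟩).1 this
  · rw [← zpow_natCast, ← ha, zpow_add, zpow_mul, h0, one_zpow, mul_one, e]

end Pool.Agent.MT
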