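import Pool.Agent.Lib.MP_d61fbb_ag.MT.DAlg1

/-! The data attached to a good Weil polynomial. -/

set_option autoImplicit false

open Polynomial NumberField

namespace Pool.Agent.MT

/-- The properties of the Weil polynomial that come from the choice of the place. -/
structure Good (P : ℤ[X]) (p : ℕ) : Prop where
  prime : p.Prime
  pres : ∃ (w : ℂ) (u : Fin 3 → ℂ), Pres P p w u
  weil : ∀ z : ℂ, aeval z P = 0 → ‖z‖ ^ 2 = p
  s1 : psm P 1 ≠ 0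
  irr : ∀ q : ℚ, (cub P p).eval q ≠ 0
  e1 : ∀ n : ℤ, ce1 P p ≠ n

/-- The sextic field and the type norm as a polynomial in the Frobenius element. -/
structure DF (P : ℤ[X]) (p : ℕ) (E : Type) [Field E] [NumberField E] where
  c : E ≃ₐ[ℚ] E
  U : E
  f : E → ℚ[X]
  D : ℤ
  rank : Module.finrank ℚ E = 6
  cc : ∀ a, c (c a) = a
  cj : ∀ (φ : E →+* ℂ) (a : E), φ (c a) = (starRingEnd ℂ) (φ a)
  cU : c U * U = 1
  cne : c U ≠ U
  gen : Algebra.adjoin ℚ {U} = ⊤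
  intU : IsIntegral ℤ (p * U)
  deg : ∀ a, (f a).degree < 8
  D0 : D ≠ 0
  emb : ∀ (Ω : Type) [Field Ω] [CharZero Ω] (w : Ω) (u : Fin 3 → Ω), Pres P p w u →
    Function.Injective (lam w u) ∧ ∃ φ : Fin 3 → E →+* Ω, (∀ i, φ i U = u i) ∧
      (∀ a d, aeval (lam w u d) (f a) = ∏ i, φ i (if d i = 1 then a else c a)) ∧
      ∀ a, ((Algebra.norm ℚ a : ℚ) : Ω) = ∏ i, φ i (a * c a)
  int : ∀ (a b : E) (M : ℤ), IsIntegral ℤ a → IsIntegral ℤ b → ∃ g : ℤ[X],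
    C (D : ℚ) * (f (a + M * b) - f a) = C (M : ℚ) * g.map (Int.castRingHom ℚ)
  dvd : ∀ g : ℚ[X], (∀ z : ℂ, aeval z P = 0 → aeval z g = 0) → P.map (Int.castRingHom ℚ) ∣ g
  f_rat : ∀ q : ℚ, f q = C (q ^ 3)
  f_mul : ∀ a b, P.map (Int.castRingHom ℚ) ∣ f (a * b) - f a * f b
  f_cj : ∀ a, P.map (Int.castRingHom ℚ) ∣ f a * f (c a) - C (Algebra.norm ℚ a)
  f_adj : ∀ (a : E) (Ω : Type) [Field Ω] [CharZero Ω] (z : Ω), aeval z P = 0 →
    aeval z (f (c a)) = aeval (p / z) (f a)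
  f_one : f (1 + U) = C ((psm P 1 : ℚ) / p) * X

/-- Block D1. -/
def DAlgStmt : Prop := ∀ (P : ℤ[X]) (p : ℕ), Good P p →
  ∃ (E : Type) (_ : Field E) (_ : NumberField E), Nonempty (DF P p E)

/-- Ordinarity in the form used by D1 and D3. -/
def DOrdStmt : Prop := ∀ (P : ℤ[X]) (p : ℕ) [Fact p.Prime], (∀ n : ℤ, ce1 P p ≠ n) → psm P 1 ≠ 0 →
  ∀ (w : PadicAlgCl p) (u : Fin 3 → PadicAlgCl p), Pres P p w u →
    ∃ i, (‖u i‖ = p ∨ ‖u i‖ = (p : ℝ)⁻¹) ∧ ∀ j, j ≠ i → ‖u j‖ = 1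

end Pool.Agent.MT
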