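import Pool.Agent.Lib.MP_d61fbb_ag.MT.D0b
import Pool.Agent.Lib.MP_d61fbb_ag.MT.DAlgS

/-! The Weil polynomial of the chosen place is good. -/

set_option autoImplicit false

open Matrix Polynomial

namespace Pool.Agent.MT

theorem charpoly_of_conj {Ω m n : Type*} [Field Ω] [Fintype m] [Fintype n] [DecidableEq m]
    [DecidableEq n] (hc : Fintype.card n = Fintype.card m) {A : Matrix n n Ω} {B : Matrix m m Ω}
    {C : Matrix n m Ω} {C' : Matrix m n Ω} (h1 : C * C' = 1) (h2 : C' * C = 1)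
    (h3 : A * C = C * B) : A.charpoly = B.charpoly := by
  have e : A = C * (B * C') := by
    rw [← Matrix.mul_assoc, ← h3, Matrix.mul_assoc, h1, Matrix.mul_one]
  have := charpoly_mul_comm' C (B * C')
  rw [← e, Matrix.mul_assoc, h2, Matrix.mul_one, hc] at this
  exact mul_left_cancel₀ (pow_ne_zero _ X_ne_zero) this

/-- A tensor product gives a presentation of its characteristic polynomial. -/
theorem pres_of_eig {Ω : Type} [Field Ω] {P : ℤ[X]} {p : ℕ} {z : Ω}
    {g : Fin 3 → Matrix (Fin 2) (Fin 2) Ω} (hP : (z • kp g).charpoly = P.map (Int.castRingHom Ω))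
    (hq : z ^ 2 * ∏ i, (g i).det = p) (a b : Fin 3 → Ω) (hb : ∀ i, b i ≠ 0)
    (h1 : ∀ i, (g i).trace = a i + b i) (h2 : ∀ i, (g i).det = a i * b i) :
    Pres P p (z * ∏ i, b i) fun i => a i / b i := by
  refine ⟨?_, ?_⟩
  · rw [← hP, kp_charpoly z g (fun i => ![b i, a i]) (fun i => by simp [h1, add_comm])
      (fun i => by simp [h2, mul_comm])]
    refine Finset.prod_congr rfl fun d _ => ?_
    rw [lam, mul_assoc, ← Finset.prod_mul_distrib]
    congr 3
    refine Finset.prod_congr rfl fun i _ => ?_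
    generalize d i = e
    fin_cases e
    · simp
    · simp [mul_div_cancel₀ _ (hb i)]
  · rw [← hq, mul_pow, mul_assoc, ← Finset.prod_pow, ← Finset.prod_mul_distrib]
    congr 1
    refine Finset.prod_congr rfl fun i _ => ?_
    have := hb i
    rw [h2]
    field_simp

theorem pres_of_kp {Ω : Type} [Field Ω] [CharZero Ω] [IsAlgClosed Ω] {P : ℤ[X]} {p : ℕ}
    (hp : p ≠ 0) {z : Ω} {g : Fin 3 → Matrix (Fin 2) (Fin 2) Ω}
    (hP : (z • kp g).charpoly = P.map (Int.castRingHom Ω)) (hq : z ^ 2 * ∏ i, (g i).det = p) :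
    ∃ a b : Fin 3 → Ω, (∀ i, a i ≠ 0) ∧ (∀ i, b i ≠ 0) ∧ (∀ i, (g i).trace = a i + b i) ∧
      (∀ i, (g i).det = a i * b i) ∧ Pres P p (z * ∏ i, b i) fun i => a i / b i := by
  choose a b h1 h2 using fun i => eig_two (g i).trace (g i).det
  have h0 : ∀ i, a i * b i ≠ 0 := fun i e => by
    rw [Finset.prod_eq_zero (Finset.mem_univ i) ((h2 i).trans e), mul_zero] at hq
    exact hp (Nat.cast_eq_zero.1 hq.symm)
  exact ⟨a, b, fun i => left_ne_zero_of_mul (h0 i), fun i => right_ne_zero_of_mul (h0 i), h1, h2,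
    pres_of_eig hP hq a b (fun i => right_ne_zero_of_mul (h0 i)) h1 h2⟩

theorem Pres.ce1_bound {P : ℤ[X]} {p : ℕ} (hp : p ≠ 0) {w : ℂ} {u : Fin 3 → ℂ} (h : Pres P p w u)
    (weil : ∀ z : ℂ, aeval z P = 0 → ‖z‖ ^ 2 = p) (hs : psm P 1 ≠ 0) :
    0 ≤ ce1 P p ∧ ce1 P p ≤ 12 := by
  have h0 : ‖w‖ ^ 2 = p := by simpa [lam] using weil _ (h.root 0)
  have h1 : ∀ i, ‖u i‖ = 1 := fun i => by
    have h2 := weil _ (h.root (Pi.single i 1))
    have h3 : lam w u (Pi.single i 1) = w * u i := by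
      rw [lam, Finset.prod_eq_single i (fun j _ hj => by simp [hj]) (by simp)]
      simp
    rw [h3, norm_mul, mul_pow, h0] at h2
    have h4 : ‖u i‖ ^ 2 = 1 := mul_left_cancel₀ (Nat.cast_ne_zero.2 hp) (h2.trans (mul_one _).symm)
    exact (pow_eq_one_iff_of_nonneg (norm_nonneg _) two_ne_zero).1 h4
  have h2 : ∀ i, 0 ≤ (tt (u i)).re ∧ (tt (u i)).re ≤ 4 := fun i => by
    have h3 := abs_le.1 ((Complex.abs_re_le_norm (u i)).trans (h1 i).le)
    have h4 := abs_le.1 ((Complex.abs_re_le_norm (u i)⁻¹).trans (by rw [norm_inv, h1, inv_one]))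
    simp only [tt, Complex.add_re, Complex.re_ofNat]
    constructor <;> linarith [h3.1, h3.2, h4.1, h4.2]
  have h3 := congrArg Complex.re (h.cubic hp hs).2
  rw [Complex.ratCast_re, Fin.sum_univ_three, Complex.add_re, Complex.add_re] at h3
  have h4 : (0 : ℝ) ≤ ce1 P p ∧ (ce1 P p : ℝ) ≤ 12 := by
    constructor <;> linarith [h2 0, h2 1, h2 2]
  exact_mod_cast h4

variable {l : ℕ} [Fact l.Prime] {R n : Type*} {Ω : Type} [CommRing R] [Algebra ℤ_[l] R] [Field Ω]
  [Algebra ℤ_[l] Ω] [Fintype n] [DecidableEq n] [Algebra ℚ_[l] Ω] [IsScalarTower ℤ_[l] ℚ_[l] Ω]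
  [IsAlgClosed Ω] [CharZero Ω]

/-- From the conditions at the inert prime to the properties of the Weil polynomial. -/
theorem good_of_gen0 {σ : Fin 3 → R →ₐ[ℤ_[l]] Ω} {A : Matrix n n ℤ_[l]} {c : ℤ_[l]}
    {g : Matrix (Fin 2) (Fin 2) R} {t : R} (hc : Fintype.card n = 8)
    {C : Matrix n (Fin 3 → Fin 2) Ω} {C' : Matrix (Fin 3 → Fin 2) n Ω} (h1 : C * C' = 1)
    (h2 : C' * C = 1) (h3 : A.map (algebraMap ℤ_[l] Ω) * C =
      C * (algebraMap ℤ_[l] Ω c • kp fun i : Fin 3 => g.map (σ i)))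
    {P : ℤ[X]} {p : ℕ} (hp : p.Prime) (hP : A.charpoly = P.map (Int.castRingHom _))
    (hq : algebraMap ℤ_[l] Ω c ^ 2 * ∏ i, σ i g.det = p)
    (weil : ∀ z : ℂ, aeval z P = 0 → ‖z‖ ^ 2 = p) (ht : t * g.det = g.trace ^ 2)
    (hg : Gen0 σ A.trace t) : Good P p := by
  have e1 := charpoly_of_conj (by simpa using hc) h1 h2 h3
  rw [charpoly_map, hP, Polynomial.map_map, RingHom.eq_intCast' (RingHom.comp _ _)] at e1
  have e2 : ∀ i, σ i g.det = (g.map (σ i)).det := fun i => (σ i).toRingHom.map_det g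
  have e3 : ∀ i, σ i g.trace = (g.map (σ i)).trace := fun i => AddMonoidHom.map_trace (σ i) g
  obtain ⟨a, b, ha, hb, k1, k2, k3⟩ := pres_of_kp hp.ne_zero e1.symm (by simpa only [e2] using hq)
  have k4 : ∀ i, tt (a i / b i) = σ i t := fun i => by
    have := congrArg (σ i) ht
    rw [map_mul, map_pow, e2, e3, k1, k2] at this
    have := ha i
    have := hb i
    rw [tt]
    field_simp
    linear_combination -‹σ i t * _ = _›
  have k5 : psm P 1 ≠ 0 := fun e => hg.1 (by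
    have k6 := k3.psum 1
    have k7 : algebraMap ℤ_[l] Ω A.trace = algebraMap ℤ_[l] Ω c * ∏ i, (a i + b i) := by
      rw [AddMonoidHom.map_trace, ← Matrix.mul_one (A.map _), ← h1, ← Matrix.mul_assoc, h3,
        trace_mul_comm, ← Matrix.mul_assoc, h2, Matrix.one_mul, trace_smul, kp_trace]
      simp only [k1, smul_eq_mul]
    have k8 : ∏ i, (a i + b i) = (∏ i, b i) * ∏ i, (1 + (a i / b i) ^ 1) := by
      rw [← Finset.prod_mul_distrib]
      refine Finset.prod_congr rfl fun i _ => ?_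
      have := hb i
      field_simp
      ring
    rw [k8, ← mul_assoc, ← pow_one (_ * ∏ i, b i), k6, e, Int.cast_zero,
      IsScalarTower.algebraMap_apply ℤ_[l] ℚ_[l] Ω, _root_.map_eq_zero] at k7
    exact Subtype.ext k7)
  obtain ⟨k6, k7⟩ := k3.cubic hp.ne_zero k5
  obtain ⟨w, u, k8⟩ := k3.transfer hp.ne_zero ℂ
  refine ⟨hp, ⟨w, u, k8⟩, weil, k5, fun q e => ?_, fun m e => ?_⟩
  · have k9 := congrArg (eval (algebraMap ℚ Ω q)) k6
    rw [eval_map_algebraMap, aeval_algebraMap_apply, coe_aeval_eq_eval, e, map_zero, eval_prod,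
      eq_comm, Finset.prod_eq_zero_iff] at k9
    obtain ⟨i, -, hi⟩ := k9
    refine hg.2.1 i q ?_
    rw [eval_sub, eval_X, eval_C, k4, sub_eq_zero] at hi
    rw [← hi, map_ratCast, eq_ratCast]
  · have k9 := k8.ce1_bound hp.ne_zero weil k5
    rw [e] at k9 k7
    refine hg.2.2 m (by exact_mod_cast k9.1) (by exact_mod_cast k9.2) ?_
    simpa only [k4, Fin.sum_univ_three, Rat.cast_intCast] using k7.symm

end Pool.Agent.MT
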