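import Pool.Agent.Lib.MP_d61fbb_ag.MT.D3
import Pool.Agent.Lib.MP_d61fbb_ag.MT.D0c

/-! The ordinary factorisation and separability at the inert prime. -/

set_option autoImplicit false

open Matrix Polynomial Finset

namespace Pool.Agent.MT

theorem coeff_prod_le {K κ : Type*} [NormedField K] [IsUltrametricDist K] (T : Finset κ)
    (y : κ → K) {r : ℝ} (hr : 0 ≤ r) (hy : ∀ d ∈ T, ‖y d‖ ≤ r) (i : ℕ) :
    ‖(∏ d ∈ T, (X - C (y d))).coeff i‖ * r ^ i ≤ r ^ T.card := by
  classical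
  induction T using Finset.induction_on generalizing i with
  | empty =>
    rw [prod_empty, coeff_one]
    split_ifs with h <;> simp [h]
  | insert a s ha ih =>
    have ih := ih fun d hd => hy d (mem_insert_of_mem hd)
    have h1 : ‖y a * (∏ d ∈ s, (X - C (y d))).coeff i‖ * r ^ i ≤ r ^ (s.card + 1) := by
      rw [norm_mul, mul_assoc, pow_succ']
      exact mul_le_mul (hy a (mem_insert_self _ _)) (ih i) (by positivity) hr
    rw [prod_insert ha, card_insert_of_notMem ha, sub_mul, coeff_sub, coeff_C_mul]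
    cases i with
    | zero => simpa using h1
    | succ i =>
      rw [coeff_X_mul, sub_eq_add_neg]
      refine (mul_le_mul_of_nonneg_right (IsUltrametricDist.norm_add_le_max _ _)
        (by positivity)).trans ?_
      rw [max_mul_of_nonneg _ _ (by positivity), norm_neg]
      refine max_le ?_ h1
      rw [pow_succ, pow_succ, ← mul_assoc]
      exact mul_le_mul_of_nonneg_right (ih i) hr

variable {P : ℤ[X]} {p : ℕ} [Fact p.Prime]

theorem Pres.descend {w : PadicAlgCl p} {u : Fin 3 → PadicAlgCl p} (h : Pres P p w u)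
    (hy : Function.Injective (lam w u)) (T : Finset (Fin 3 → Fin 2))
    (hT : ∀ d ∈ T, ∀ e, ‖lam w u e‖ = ‖lam w u d‖ → e ∈ T) : ∃ Q : ℤ_[p][X],
      Q.map (algebraMap _ _) = ∏ d ∈ T, (X - C (lam w u d)) ∧ Q.natDegree = T.card ∧ Q.Monic := by
  rw [← natDegree_finsetProd_X_sub_C_eq_card T (lam w u)]
  refine lifts_and_natDegree_eq_and_monic ((lifts_iff_coeff_lifts _).2 fun n => ?_)
    (monic_prod_of_monic _ _ fun _ _ => monic_X_sub_C _)
  obtain ⟨x, hx⟩ : (∏ d ∈ T, (X - C (lam w u d))).coeff n ∈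
      Set.range (algebraMap ℚ_[p] (PadicAlgCl p)) := by
    refine (InfiniteGalois.mem_range_algebraMap_iff_fixed _).2 fun s => ?_
    have k : ∀ d ∈ T, ∃ e ∈ T, lam w u e = s (lam w u d) := fun d hd => by
      have k1 : (P.map (Int.castRingHom _)).eval (s (lam w u d)) = 0 := by
        rw [(h.map s.toRingEquiv.toRingHom).fac, eval_prod]
        exact prod_eq_zero (mem_univ d) (by rw [← map_lam]; simp)
      rw [h.fac, eval_prod, prod_eq_zero_iff] at k1
      obtain ⟨e, -, he⟩ := k1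
      have he' : lam w u e = s (lam w u d) := (sub_eq_zero.1 (by simpa using he)).symm
      exact ⟨e, hT d hd e (he' ▸ (spectralNorm_eq_of_equiv s _).symm), he'⟩
    choose! r h1 h2 using k
    have h3 : Set.InjOn r T := fun a ha b hb e => hy (s.injective (by rw [← h2 a ha, e, h2 b hb]))
    have h4 : T.image r = T := eq_of_subset_of_card_le
      (fun x hx => by obtain ⟨a, ha, rfl⟩ := mem_image.1 hx; exact h1 a ha)
      (card_image_of_injOn h3).ge
    have h5 : (∏ d ∈ T, (X - C (lam w u d))).map s.toRingEquiv.toRingHom =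
        ∏ d ∈ T, (X - C (lam w u d)) := by
      nth_rw 2 [← h4]
      rw [prod_image h3, Polynomial.map_prod]
      exact prod_congr rfl fun d hd => by simp [h2 d hd]
    nth_rw 2 [← h5]
    rw [coeff_map]
    rfl
  have h1 := coeff_prod_le T (lam w u) zero_le_one (fun d _ => d_norm_le (h.isInt d)) n
  rw [one_pow, one_pow, mul_one, ← hx, PadicAlgCl.norm_extends] at h1
  exact ⟨⟨x, h1⟩, hx⟩

/-- The ordinary factorisation over the `p`-adic integers. -/
theorem Good.ordi (G : Good P p) : ∃ Pu Pn : ℤ_[p][X], P.map (Int.castRingHom _) = Pu * Pn ∧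
    Pu.Monic ∧ Pn.Monic ∧ Pu.natDegree = 4 ∧ Pn.natDegree = 4 ∧ IsUnit (Pu.coeff 0) ∧
    ∀ i < 4, (p : ℤ_[p]) ^ (4 - i) ∣ Pn.coeff i := by
  obtain ⟨w0, u0, h0⟩ := G.pres
  obtain ⟨w, u, h⟩ := h0.transfer G.prime.ne_zero (PadicAlgCl p)
  obtain ⟨i, δ, -, k2⟩ := G.face' h
  have hp : (1 : ℝ) < p := by exact_mod_cast G.prime.one_lt
  have hne : (p : ℝ)⁻¹ ≠ 1 := (inv_lt_one_of_one_lt₀ hp).ne
  obtain ⟨Pu, a1, a2, a3⟩ := h.descend (G.lam_inj h) (univ.filter fun d => d i = δ)
    fun d hd e he => by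
      rw [k2, k2, if_pos (mem_filter.1 hd).2] at he
      exact mem_filter.2 ⟨mem_univ _, by_contra fun k => hne (by rwa [if_neg k] at he)⟩
  obtain ⟨Pn, b1, b2, b3⟩ := h.descend (G.lam_inj h) (univ.filter fun d => ¬ d i = δ)
    fun d hd e he => by
      rw [k2, k2, if_neg (mem_filter.1 hd).2] at he
      exact mem_filter.2 ⟨mem_univ _, fun k => hne (by rwa [if_pos k, eq_comm] at he)⟩
  have c1 : (univ.filter fun d : Fin 3 → Fin 2 => d i = δ).card = 4 ∧
      (univ.filter fun d : Fin 3 → Fin 2 => ¬ d i = δ).card = 4 := by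
    clear * -
    revert i δ
    decide
  have hn : ∀ x : ℤ_[p], ‖algebraMap ℤ_[p] (PadicAlgCl p) x‖ = ‖x‖ := fun x =>
    PadicAlgCl.norm_extends p x
  have hi : Function.Injective (algebraMap ℤ_[p] (PadicAlgCl p)) :=
    (injective_iff_map_eq_zero _).2 fun x e => norm_eq_zero.1 (by rw [← hn, e, norm_zero])
  refine ⟨Pu, Pn, map_injective _ hi ?_, a3, b3, a2.trans c1.1, b2.trans c1.2, ?_, fun j hj => ?_⟩
  · rw [Polynomial.map_mul, a1, b1, prod_filter_mul_prod_filter_not, ← h.fac, Polynomial.map_map,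
      RingHom.eq_intCast' (RingHom.comp _ _)]
  · rw [PadicInt.isUnit_iff, ← hn, ← coeff_map, a1, coeff_zero_eq_eval_zero, eval_prod, norm_prod]
    exact prod_eq_one fun d hd => by simp [k2, (mem_filter.1 hd).2]
  · have k3 := coeff_prod_le (univ.filter fun d => ¬ d i = δ) (lam w u) (r := (p : ℝ)⁻¹)
      (by positivity) (fun d hd => by rw [k2, if_neg (mem_filter.1 hd).2]) j
    rw [← b1, coeff_map, hn, c1.2, show 4 = 4 - j + j by omega, pow_add,
      mul_le_mul_iff_left₀ (by positivity)] at k3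
    rw [← Ideal.mem_span_singleton, ← PadicInt.norm_le_pow_iff_mem_span_pow, _root_.zpow_neg,
      zpow_natCast, ← inv_pow]
    exact k3

/-- The eight products are distinct. -/
theorem lam_inj_fr {Ω : Type} [Field Ω] {w : Ω} {u : Fin 3 → Ω} (hw : w ≠ 0) (hu : ∀ i, u i ≠ 0)
    (h4 : ∀ i, tt (u i) ≠ 4) (hi : Function.Injective fun i => tt (u i))
    (hf : (tt (u 0) + tt (u 1) + tt (u 2) - 4) ^ 2 ≠ tt (u 0) * tt (u 1) * tt (u 2)) :
    Function.Injective (lam w u) := by
  intro d e h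
  let v : Fin 3 → Ω := fun i => u i ^ (d i : ℕ) / u i ^ (e i : ℕ)
  have h1 : v 0 * v 1 * v 2 = 1 := by
    rw [← Fin.prod_univ_three, prod_div_distrib, mul_left_cancel₀ hw h,
      div_self (prod_ne_zero_iff.2 fun i _ => pow_ne_zero _ (hu i))]
  have h2 : (tt (v 0) + tt (v 1) + tt (v 2) - 4) ^ 2 = tt (v 0) * tt (v 1) * tt (v 2) := by
    have a0 : v 0 ≠ 0 := left_ne_zero_of_mul (left_ne_zero_of_mul (h1 ▸ one_ne_zero))
    have a1 : v 1 ≠ 0 := right_ne_zero_of_mul (left_ne_zero_of_mul (h1 ▸ one_ne_zero))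
    rw [eq_inv_of_mul_eq_one_right h1]
    simp only [tt]
    field_simp
    ring
  have h3 : ∀ i, d i = e i ∧ tt (v i) = 4 ∨ tt (v i) = tt (u i) := fun i => by
    simp only [v]
    generalize d i = a
    generalize e i = b
    fin_cases a <;> fin_cases b <;> simp [tt, hu i, add_comm] <;> norm_num
  have n : ∀ {a b : Ω}, (a - b) ^ 2 = 0 → a = b := fun k => sub_eq_zero.1 (pow_eq_zero_iff
    two_ne_zero |>.1 k)
  rcases h3 0 with a | a <;> rcases h3 1 with b | b <;> rcases h3 2 with c | c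
  · funext i
    fin_cases i
    exacts [a.1, b.1, c.1]
  all_goals exfalso
  · rw [a.2, b.2, c] at h2
    exact h4 2 (n (by linear_combination h2))
  · rw [a.2, b, c.2] at h2
    exact h4 1 (n (by linear_combination h2))
  · rw [a.2, b, c] at h2
    exact absurd (hi (a₁ := 1) (a₂ := 2) (n (by linear_combination h2))) (by decide)
  · rw [a, b.2, c.2] at h2
    exact h4 0 (n (by linear_combination h2))
  · rw [a, b.2, c] at h2
    exact absurd (hi (a₁ := 0) (a₂ := 2) (n (by linear_combination h2))) (by decide)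
  · rw [a, b, c.2] at h2
    exact absurd (hi (a₁ := 0) (a₂ := 1) (n (by linear_combination h2))) (by decide)
  · rw [a, b, c] at h2
    exact hf h2

/-- A double root of a cubic is rational. -/
theorem d0_double {Ω : Type*} [Field Ω] [CharZero Ω] (F : Subfield Ω) {a b : Ω}
    (h1 : a + a + b ∈ F) (h2 : a * a + a * b + a * b ∈ F) (h3 : a * a * b ∈ F) : a ∈ F := by
  by_cases h : a = b
  · have : a = (a + a + b) / 3 := by
      rw [← h]
      ring
    exact this ▸ div_mem h1 (natCast_mem F 3)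
  · have h0 := sub_ne_zero.2 h
    have e : (a + a + b) ^ 2 - 3 * (a * a + a * b + a * b) = (a - b) ^ 2 := by ring
    have : a = ((a + a + b) * (a * a + a * b + a * b) - 9 * (a * a * b)) /
        (2 * ((a + a + b) ^ 2 - 3 * (a * a + a * b + a * b))) := by
      rw [e]
      field_simp
      ring
    exact this ▸ div_mem (sub_mem (mul_mem h1 h2) (mul_mem (natCast_mem F 9) h3))
      (mul_mem (natCast_mem F 2) (sub_mem (pow_mem h1 2) (mul_mem (natCast_mem F 3) h2)))

variable {l : ℕ} [Fact l.Prime] {R n : Type*} {Ω : Type} [CommRing R] [Algebra ℤ_[l] R] [Field Ω]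
  [Algebra ℤ_[l] Ω] [Fintype n] [DecidableEq n] [Algebra ℚ_[l] Ω] [IsScalarTower ℤ_[l] ℚ_[l] Ω]
  [IsAlgClosed Ω] [CharZero Ω]

/-- Separability at the inert prime. -/
theorem sep_of_gen0 {σ : Fin 3 → R →ₐ[ℤ_[l]] Ω} {Nm : Matrix (Fin 2) (Fin 2) R →* Matrix n n ℤ_[l]}
    {J : Matrix n n ℤ_[l]} (H : TrNm σ Nm J) (hl : l ≠ 2) {A : Matrix n n ℤ_[l]} {c : ℤ_[l]}
    {g : Matrix (Fin 2) (Fin 2) R} {t : R} (hc : Fintype.card n = 8)
    {C : Matrix n (Fin 3 → Fin 2) Ω} {C' : Matrix (Fin 3 → Fin 2) n Ω} (h1 : C * C' = 1)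
    (h2 : C' * C = 1) (h3 : A.map (algebraMap ℤ_[l] Ω) * C =
      C * (algebraMap ℤ_[l] Ω c • kp fun i : Fin 3 => g.map (σ i)))
    (hc0 : c ≠ 0) (hg0 : IsUnit g.det) (ht : t * g.det = g.trace ^ 2) (hg : Gen0 σ A.trace t)
    (hf : (σ 0 t + σ 1 t + σ 2 t - 4) ^ 2 ≠ σ 0 t * σ 1 t * σ 2 t) :
    (A.charpoly.map (algebraMap ℤ_[l] ℚ_[l])).Separable := by
  have e1 := charpoly_of_conj (by simpa using hc) h1 h2 h3
  have e2 : ∀ i, σ i g.det = (g.map (σ i)).det := fun i => (σ i).toRingHom.map_det g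
  have e3 : ∀ i, σ i g.trace = (g.map (σ i)).trace := fun i => AddMonoidHom.map_trace (σ i) g
  choose a b k1 k2 using fun i => eig_two (g.map (σ i)).trace (g.map (σ i)).det
  have h0 : ∀ i, a i * b i ≠ 0 := fun i => by
    rw [← k2, ← e2]
    exact (hg0.map _).ne_zero
  have ha := fun i => left_ne_zero_of_mul (h0 i)
  have hb := fun i => right_ne_zero_of_mul (h0 i)
  have k4 : ∀ i, tt (a i / b i) = σ i t := fun i => by
    have := congrArg (σ i) ht
    rw [map_mul, map_pow, e2, e3, k1, k2] at this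
    have := ha i
    have := hb i
    rw [tt]
    field_simp
    linear_combination -‹σ i t * _ = _›
  have k5 : ∀ i, σ i t ∉ (algebraMap ℚ_[l] Ω).fieldRange := fun i ⟨r, hr⟩ => hg.2.1 i r hr.symm
  have k6 : Function.Injective fun i => σ i t := by
    obtain ⟨x, y, z, hx, hy, hz⟩ := H.esym hl t
    have m : ∀ x : ℤ_[l], algebraMap ℤ_[l] Ω x ∈ (algebraMap ℚ_[l] Ω).fieldRange := fun x =>
      ⟨_, (IsScalarTower.algebraMap_apply ℤ_[l] ℚ_[l] Ω x).symm⟩
    have m1 := hx ▸ m x
    have m2 := hy ▸ m y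
    have m3 := hz ▸ m z
    have n1 : σ 0 t ≠ σ 1 t := fun e => k5 1 (d0_double _ (b := σ 2 t) (e ▸ m1) (e ▸ m2) (e ▸ m3))
    have n2 : σ 0 t ≠ σ 2 t := fun e => k5 2 (d0_double _ (b := σ 1 t)
      (by convert m1 using 1; rw [e]; ring) (by convert m2 using 1; rw [e]; ring)
      (by convert m3 using 1; rw [e]; ring))
    have n3 : σ 1 t ≠ σ 2 t := fun e => k5 2 (d0_double _ (b := σ 0 t)
      (by convert m1 using 1; rw [e]; ring) (by convert m2 using 1; rw [e]; ring)
      (by convert m3 using 1; rw [e]; ring))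
    intro i j e
    fin_cases i <;> fin_cases j <;> simp_all
  have k7 := lam_inj_fr (w := algebraMap ℤ_[l] Ω c * ∏ i, b i) (u := fun i => a i / b i)
    (mul_ne_zero ((map_ne_zero_iff _ H.inj).2 hc0) (prod_ne_zero_iff.2 fun i _ => hb i))
    (fun i => div_ne_zero (ha i) (hb i))
    (fun i e => k5 i (k4 i ▸ e ▸ natCast_mem _ 4)) (by simpa only [k4] using k6)
    (by simpa only [k4] using hf)
  rw [← separable_map (algebraMap ℚ_[l] Ω), Polynomial.map_map, ← IsScalarTower.algebraMap_eq,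
    ← charpoly_map, e1, kp_charpoly _ _ (fun i => ![b i, a i]) (fun i => by simp [k1, add_comm])
      (fun i => by simp [k2, mul_comm]), separable_prod_X_sub_C_iff]
  convert k7 using 2 with d
  rw [lam, mul_assoc, ← prod_mul_distrib]
  congr 1
  refine prod_congr rfl fun i _ => ?_
  generalize d i = e
  fin_cases e
  · simp
  · simp [mul_div_cancel₀ _ (hb i)]

end Pool.Agent.MT
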