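import Pool.Agent.Lib.MP_d61fbb_ag.MT.DKp

/-! Choice of the place, local part: congruences at one inert prime. -/

set_option autoImplicit false

open Matrix

namespace Pool.Agent.MT

section Two

variable {R : Type*} [CommRing R]

theorem d0_sq (g : Matrix (Fin 2) (Fin 2) R) : g ^ 2 = g.trace • g - g.det • 1 := by
  ext i j
  fin_cases i <;> fin_cases j <;>
    simp [sq, mul_apply, Fin.sum_univ_two, trace_fin_two, det_fin_two] <;> ring

theorem d0_rec (g : Matrix (Fin 2) (Fin 2) R) (k : ℕ) :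
    (g ^ (k + 2)).trace = g.trace * (g ^ (k + 1)).trace - g.det * (g ^ k).trace := by
  rw [pow_add, d0_sq, mul_sub, mul_smul_comm, mul_smul_comm, mul_one, ← pow_succ, trace_sub,
    trace_smul, trace_smul, smul_eq_mul, smul_eq_mul]

theorem d0_tr2 (g : Matrix (Fin 2) (Fin 2) R) : (g ^ 2).trace = g.trace ^ 2 - 2 * g.det := by
  have := d0_rec g 0
  simp only [zero_add, pow_one, pow_zero, trace_one, Fintype.card_fin, Nat.cast_ofNat] at this
  rw [this]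
  ring

theorem d0_tr3 (g : Matrix (Fin 2) (Fin 2) R) :
    (g ^ 3).trace = g.trace ^ 3 - 3 * g.trace * g.det := by
  have := d0_rec g 1
  simp only [pow_one, Nat.reduceAdd] at this
  rw [this, d0_tr2]
  ring

theorem d0_cheb (h : Matrix (Fin 2) (Fin 2) R) (δ : R) (h1 : h.det = 1) (h2 : h.trace = 2 + δ)
    (a : ℕ) : ∃ y : R, (h ^ a).trace = 2 + a ^ 2 * δ + δ ^ 2 * y := by
  induction a using Nat.twoStepInduction with
  | zero => exact ⟨0, by simp⟩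
  | one => exact ⟨0, by simp [h2]⟩
  | more k i0 i1 =>
    obtain ⟨y, hy⟩ := i0
    obtain ⟨y', hy'⟩ := i1
    refine ⟨(k + 1) ^ 2 + (2 + δ) * y' - y, ?_⟩
    rw [d0_rec, h1, h2, hy, hy']
    push_cast
    ring

end Two

variable {l : ℕ} [Fact l.Prime] {R Ω n : Type*} [CommRing R] [Algebra ℤ_[l] R] [Field Ω]
  [Algebra ℤ_[l] Ω] [Fintype n] [DecidableEq n]

/-- What is used of the tensor induction at one prime: traces and multipliers. -/
structure TrNm (σ : Fin 3 → R →ₐ[ℤ_[l]] Ω)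
    (Nm : Matrix (Fin 2) (Fin 2) R →* Matrix n n ℤ_[l]) (J : Matrix n n ℤ_[l]) : Prop where
  inj : Function.Injective (algebraMap ℤ_[l] Ω)
  tr : ∀ g, algebraMap ℤ_[l] Ω (Nm g).trace = ∏ i, σ i g.trace
  sim : ∀ g c, algebraMap ℤ_[l] Ω c = ∏ i, σ i g.det → (Nm g)ᵀ * J * Nm g = c • J
  un : ∃ i j, IsUnit (J i j)

variable {σ : Fin 3 → R →ₐ[ℤ_[l]] Ω} {Nm : Matrix (Fin 2) (Fin 2) R →* Matrix n n ℤ_[l]}
  {J : Matrix n n ℤ_[l]}

theorem TrNm.of_conj (inj : Function.Injective (algebraMap ℤ_[l] Ω))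
    (C : Matrix n (Fin 3 → Fin 2) Ω) (C' : Matrix (Fin 3 → Fin 2) n Ω) (h1 : C * C' = 1)
    (h2 : C' * C = 1)
    (h3 : ∀ g, (Nm g).map (algebraMap ℤ_[l] Ω) * C = C * kp fun i : Fin 3 => g.map (σ i))
    (κ : Ω) (h4 : Cᵀ * J.map (algebraMap ℤ_[l] Ω) * C = κ • kp fun _ : Fin 3 => J2 Ω)
    (un : ∃ i j, IsUnit (J i j)) : TrNm σ Nm J := by
  have e : ∀ g, (Nm g).map (algebraMap ℤ_[l] Ω) = C * (kp fun i : Fin 3 => g.map (σ i)) * C' := fun g => by
    rw [← h3, Matrix.mul_assoc, h1, Matrix.mul_one]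
  refine ⟨inj, fun g => ?_, fun g c hc => ?_, un⟩
  · rw [AddMonoidHom.map_trace, e, trace_mul_comm, ← Matrix.mul_assoc, h2, Matrix.one_mul,
      kp_trace]
    exact Finset.prod_congr rfl fun i _ => (AddMonoidHom.map_trace (σ i) g).symm
  · refine Matrix.map_injective inj ?_
    have k : J.map (algebraMap ℤ_[l] Ω) = κ • (C'ᵀ * (kp fun _ : Fin 3 => J2 Ω) * C') := by
      rw [← Matrix.smul_mul, ← Matrix.mul_smul, ← h4, ← Matrix.mul_assoc, ← Matrix.mul_assoc,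
        ← transpose_mul, h1, transpose_one, Matrix.one_mul, Matrix.mul_assoc, h1, Matrix.mul_one]
    have k2 : ∏ i, σ i g.det = ∏ i, (g.map (σ i)).det :=
      Finset.prod_congr rfl fun i _ => (σ i).toRingHom.map_det g
    have k3 : (c • J).map (algebraMap ℤ_[l] Ω) =
        algebraMap ℤ_[l] Ω c • J.map (algebraMap ℤ_[l] Ω) := by
      ext i j
      simp
    beta_reduce
    rw [k3, Matrix.map_mul, Matrix.map_mul, transpose_map, e, hc, k2, transpose_mul,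
      transpose_mul]
    calc _ = C'ᵀ * ((kp fun i : Fin 3 => g.map (σ i))ᵀ * (Cᵀ * J.map (algebraMap ℤ_[l] Ω) * C) *
          kp fun i : Fin 3 => g.map (σ i)) * C' := by simp only [Matrix.mul_assoc]
      _ = _ := by
        rw [h4, Matrix.mul_smul, Matrix.smul_mul, kp_sim, k, smul_comm, Matrix.mul_smul,
          Matrix.smul_mul, Matrix.mul_smul, Matrix.smul_mul]

theorem TrNm.nrm (H : TrNm σ Nm J) (x : R) : ∃ c, algebraMap ℤ_[l] Ω c = ∏ i, σ i x :=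
  ⟨_, by rw [H.tr !![x, 0; 0, 0]]; simp⟩

theorem d0_two (hl : l ≠ 2) : IsUnit (2 : ℤ_[l]) := by
  rw [PadicInt.isUnit_iff]
  exact_mod_cast PadicInt.norm_natCast_eq_one_iff.2
    ((Nat.coprime_primes Fact.out Nat.prime_two).2 hl)

/-- The elementary symmetric functions of the conjugates are `l`-adic integers. -/
theorem TrNm.esym (H : TrNm σ Nm J) (hl : l ≠ 2) (x : R) : ∃ a b c : ℤ_[l],
    algebraMap ℤ_[l] Ω a = σ 0 x + σ 1 x + σ 2 x ∧
    algebraMap ℤ_[l] Ω b = σ 0 x * σ 1 x + σ 0 x * σ 2 x + σ 1 x * σ 2 x ∧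
    algebraMap ℤ_[l] Ω c = σ 0 x * σ 1 x * σ 2 x := by
  obtain ⟨u, hu⟩ := (d0_two hl).exists_right_inv
  obtain ⟨c, hc⟩ := H.nrm x
  obtain ⟨c1, h1⟩ := H.nrm (x + 1)
  obtain ⟨c2, h2⟩ := H.nrm (x - 1)
  have hu' := congrArg (algebraMap ℤ_[l] Ω) hu
  simp only [Fin.prod_univ_three, map_add, map_sub, map_one, map_mul, map_ofNat] at hc h1 h2 hu'
  refine ⟨u * (c1 + c2) - c, u * (c1 - c2) - 1, c, ?_, ?_, hc⟩
  · simp only [map_add, map_sub, map_mul, hc, h1, h2]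
    linear_combination (σ 0 x * σ 1 x * σ 2 x + σ 0 x + σ 1 x + σ 2 x) * hu'
  · simp only [map_sub, map_mul, map_one, h1, h2]
    linear_combination (σ 0 x * σ 1 x + σ 0 x * σ 2 x + σ 1 x * σ 2 x + 1) * hu'

theorem TrNm.nrm_unit (H : TrNm σ Nm J) {x : R} (hx : IsUnit x) {c : ℤ_[l]}
    (hc : algebraMap ℤ_[l] Ω c = ∏ i, σ i x) : IsUnit c := by
  obtain ⟨y, hy⟩ := hx.exists_right_inv
  obtain ⟨d, hd⟩ := H.nrm y
  refine IsUnit.of_mul_eq_one d (H.inj ?_)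
  rw [map_mul, hc, hd, ← Finset.prod_mul_distrib]
  simp [← map_mul, hy]

/-- The three trace identities. -/
theorem TrNm.ids (H : TrNm σ Nm J) {g : Matrix (Fin 2) (Fin 2) R} {t : R} (c : ℤ_[l])
    (ht : t * g.det = g.trace ^ 2) {d e1 e2 e3 : ℤ_[l]}
    (hd : algebraMap ℤ_[l] Ω d = ∏ i, σ i g.det)
    (h1 : algebraMap ℤ_[l] Ω e1 = σ 0 t + σ 1 t + σ 2 t)
    (h2 : algebraMap ℤ_[l] Ω e2 = σ 0 t * σ 1 t + σ 0 t * σ 2 t + σ 1 t * σ 2 t)
    (h3 : algebraMap ℤ_[l] Ω e3 = σ 0 t * σ 1 t * σ 2 t) :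
    (c • Nm g).trace ^ 2 = c ^ 2 * d * e3 ∧
    ((c • Nm g) ^ 2).trace = c ^ 2 * d * (e3 - 2 * e2 + 4 * e1 - 8) ∧
    (c • Nm g).trace * ((c • Nm g) ^ 3).trace =
      (c ^ 2 * d) ^ 2 * e3 * (e3 - 3 * e2 + 9 * e1 - 27) := by
  have k : ∀ i, σ i g.trace ^ 2 = σ i t * σ i g.det := fun i => by rw [← map_mul, ht, map_pow]
  have k2 : ∀ i, σ i (g ^ 2).trace = σ i g.det * (σ i t - 2) := fun i => by
    rw [d0_tr2, map_sub, map_pow, map_mul, map_ofNat, k]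
    ring
  have k3 : ∀ i, σ i g.trace * σ i (g ^ 3).trace = σ i g.det ^ 2 * σ i t * (σ i t - 3) :=
    fun i => by
      rw [d0_tr3, map_sub, map_pow, map_mul, map_mul, map_ofNat]
      linear_combination (σ i g.trace ^ 2 + σ i t * σ i g.det - 3 * σ i g.det) * k i
  simp only [smul_pow, ← map_pow, trace_smul, smul_eq_mul]
  refine ⟨H.inj ?_, H.inj ?_, H.inj ?_⟩ <;>
    simp only [map_mul, map_pow (algebraMap ℤ_[l] Ω), map_sub, map_add, map_ofNat, H.tr, hd, h1,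
      h2, h3, Fin.prod_univ_three]
  · rw [mul_pow, mul_pow, mul_pow, k, k, k]
    ring
  · rw [k2, k2, k2]
    ring
  · calc _ = algebraMap ℤ_[l] Ω c ^ 4 * (σ 0 g.trace * σ 0 (g ^ 3).trace) *
          (σ 1 g.trace * σ 1 (g ^ 3).trace) * (σ 2 g.trace * σ 2 (g ^ 3).trace) := by ring
      _ = _ := by
        rw [k3, k3, k3]
        ring

/-- Congruent data have congruent cubics. -/
theorem d0_cong {A : Type*} [CommRing A] {m s1 s2 s3 q e1 e2 e3 s1' s2' s3' e1' e2' e3' : A}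
    (a1 : s1 ^ 2 = q * e3) (a2 : s2 = q * (e3 - 2 * e2 + 4 * e1 - 8))
    (a3 : s1 * s3 = q ^ 2 * e3 * (e3 - 3 * e2 + 9 * e1 - 27))
    (b1 : s1' ^ 2 = e3') (b2 : s2' = e3' - 2 * e2' + 4 * e1' - 8)
    (b3 : s1' * s3' = e3' * (e3' - 3 * e2' + 9 * e1' - 27)) (hu : IsUnit e3')
    (c1 : m ∣ s1 - s1') (c2 : m ∣ s2 - s2') (c3 : m ∣ s3 - s3') (c4 : m ∣ q - 1) :
    m ∣ e3 - e3' ∧ m ∣ 6 * (e2 - e2') ∧ m ∣ 6 * (e1 - e1') := by
  obtain ⟨u, hu⟩ := hu.exists_right_inv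
  let f := Ideal.Quotient.mk (Ideal.span {m})
  have k : ∀ x, m ∣ x ↔ f x = 0 := fun x => by
    rw [Ideal.Quotient.eq_zero_iff_mem, Ideal.mem_span_singleton]
  apply_fun f at a1 a2 a3 b1 b2 b3 hu
  simp only [k, map_sub, map_mul, map_pow, map_add, map_ofNat, map_one, sub_eq_zero] at *
  rw [c4] at a1 a2 a3
  rw [c1] at a1 a3
  rw [c3] at a3
  have d3 : f e3 = f e3' := by linear_combination b1 - a1
  rw [d3] at a2 a3
  have d2 : -2 * f e2 + 4 * f e1 = -2 * f e2' + 4 * f e1' := by linear_combination b2 + c2 - a2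
  have d1 : -3 * f e2 + 9 * f e1 = -3 * f e2' + 9 * f e1' := by
    linear_combination f u * (b3 - a3) - (-3 * f e2 + 9 * f e1 + 3 * f e2' - 9 * f e1') * hu
  exact ⟨d3, by linear_combination -9 * d2 + 4 * d1, by linear_combination -3 * d2 + 2 * d1⟩

end Pool.Agent.MT
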