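import Mathlib

/-! Matrices of size two whose determinant has prime norm: the neighbours in the tree. -/

set_option autoImplicit false

open Matrix Module

namespace Pool.Agent.MT

/-- An endomorphism whose determinant is a prime has a cyclic cokernel of prime order. -/
theorem coker_prime {A M ι : Type*} [CommRing A] [IsDomain A] [IsPrincipalIdealRing A]
    [AddCommGroup M] [Module A M] [Fintype ι] (b : Basis ι A M) (f : M →ₗ[A] M) {q : A}
    (hq : Prime q) (h : Associated (LinearMap.det f) q) :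
    ∃ t : M →ₗ[A] A, ∀ x, x ∈ LinearMap.range f ↔ q ∣ t x := by
  classical
  have h0 : LinearMap.det f ≠ 0 := fun e =>
    hq.ne_zero ((associated_zero_iff_eq_zero _).1 (e ▸ h.symm))
  have := Module.Free.of_basis b
  have := Module.Finite.of_basis b
  have hi : Function.Injective f := by
    rw [← LinearMap.ker_eq_bot]
    by_contra e
    exact h0 (LinearMap.det_eq_zero_iff_ker_ne_bot.2 e)
  obtain ⟨b', a, ab, e⟩ := Submodule.exists_smith_normal_form_of_rank_eq (N := LinearMap.range f) b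
    (LinearMap.finrank_range_of_inj hi)
  have h1 : Associated (LinearMap.det f) (∏ i, a i) := by
    rw [← Matrix.det_diagonal, ← LinearMap.det_toLin b']
    refine (LinearMap.associated_det_of_eq_comp
      ((b'.equiv ab (Equiv.refl _)).trans (LinearEquiv.ofInjective f hi).symm) _ _ ?_).symm
    have : Matrix.toLin b' b' (diagonal a) = f ∘ₗ ((b'.equiv ab (Equiv.refl _)).trans
        (LinearEquiv.ofInjective f hi).symm).toLinearMap := by
      refine b'.ext fun i => ?_
      simp [Matrix.toLin_self, diagonal_apply, e]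
    intro x
    rw [this]
    rfl
  have h2 : Associated (∏ i, a i) q := h1.symm.trans h
  obtain ⟨i, -, hi0⟩ := (hq.dvd_finsetProd_iff a).1 h2.symm.dvd
  have h3 : ∏ j, a j = a i * ∏ j ∈ Finset.univ.erase i, a j :=
    (Finset.mul_prod_erase _ _ (Finset.mem_univ i)).symm
  have h4 : a i ∣ q := (h3 ▸ dvd_mul_right _ _ : a i ∣ ∏ j, a j).trans h2.dvd
  have h5 : IsUnit (∏ j ∈ Finset.univ.erase i, a j) := by
    have h6 : a i * ∏ j ∈ Finset.univ.erase i, a j ∣ a i * 1 := by
      rw [← h3, mul_one]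
      exact h2.dvd.trans hi0
    have h7 : a i ≠ 0 := fun e => hq.ne_zero (by rwa [e, zero_dvd_iff] at h4)
    exact isUnit_of_dvd_one ((mul_dvd_mul_iff_left h7).1 h6)
  refine ⟨b'.coord i, fun x => ⟨fun hx => ?_, fun hx => ?_⟩⟩
  · have := congrArg (fun y : LinearMap.range f => b'.coord i (y : M)) (ab.sum_repr ⟨x, hx⟩)
    simp only [Submodule.coe_sum, Submodule.coe_smul, e, map_sum, map_smul, Basis.coord_apply,
      Basis.repr_self, smul_eq_mul] at this
    rw [Basis.coord_apply, ← this]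
    refine Finset.dvd_sum fun j _ => ?_
    by_cases hj : j = i
    · subst hj
      exact (hi0.mul_right _).mul_left _
    · simp [Finsupp.single_eq_of_ne' hj]
  · rw [← b'.sum_repr x]
    refine Submodule.sum_mem _ fun j _ => ?_
    have : a j ∣ b'.repr x j := by
      by_cases hj : j = i
      · subst hj
        exact h4.trans hx
      · exact (isUnit_of_dvd_unit (Finset.dvd_prod_of_mem a (by simp [hj])) h5).dvd
    obtain ⟨y, hy⟩ := this
    rw [hy, mul_comm, mul_smul, ← e]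
    exact Submodule.smul_mem _ _ (ab j).2

variable {l : ℕ} [Fact l.Prime] {R : Type*} [CommRing R]

/-- An element of norm `l` times a unit has the residue ring with `l` elements. -/
theorem res_of_norm [Algebra ℤ_[l] R] {ι : Type*} [Fintype ι] (b : Basis ι ℤ_[l] R) {w : R}
    (h : Associated (Algebra.norm ℤ_[l] w) (l : ℤ_[l])) :
    w ∈ nonZeroDivisors R ∧ ∃ π : R →+* ZMod l, ∀ x, π x = 0 ↔ w ∣ x := by
  have := Module.Free.of_basis b
  have := Module.Finite.of_basis b
  have hq : Prime (l : ℤ_[l]) := PadicInt.prime_p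
  rw [Algebra.norm_apply] at h
  obtain ⟨t, ht⟩ := coker_prime b _ hq h
  have ht' : ∀ x, w ∣ x ↔ PadicInt.toZMod (t x) = 0 := fun x => by
    rw [← RingHom.mem_ker, PadicInt.ker_toZMod, PadicInt.maximalIdeal_eq_span_p,
      Ideal.mem_span_singleton, ← ht]
    exact ⟨fun ⟨y, e⟩ => ⟨y, e.symm⟩, fun ⟨y, e⟩ => ⟨y, e.symm⟩⟩
  have h1 : PadicInt.toZMod (t 1) ≠ 0 := fun e => by
    have := (isUnit_of_dvd_one ((ht' 1).2 e)).map (Algebra.norm ℤ_[l])
    rw [Algebra.norm_apply] at this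
    exact hq.not_isUnit (h.isUnit this)
  have h2 : ∀ x, ∃ n : ℤ_[l], w ∣ x - n • 1 ∧
      PadicInt.toZMod (t x) = PadicInt.toZMod n * PadicInt.toZMod (t 1) := fun x => by
    obtain ⟨n, hn⟩ := ZMod.ringHom_surjective (PadicInt.toZMod (p := l))
      (PadicInt.toZMod (t x) / PadicInt.toZMod (t 1))
    refine ⟨n, (ht' _).2 ?_, by rw [hn, div_mul_cancel₀ _ h1]⟩
    rw [map_sub, map_smul, smul_eq_mul, map_sub, map_mul, hn, div_mul_cancel₀ _ h1, sub_self]
  refine ⟨mem_nonZeroDivisors_iff_left.2 fun x hx => ?_,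
    ⟨⟨⟨fun x => PadicInt.toZMod (t x) / PadicInt.toZMod (t 1), div_self h1⟩, fun x y => ?_⟩,
      by simp, fun x y => by simp [add_div]⟩, fun x => by simp [ht', h1]⟩
  · by_contra e
    refine hq.ne_zero ((associated_zero_iff_eq_zero _).1 ?_)
    rw [← (LinearMap.det_eq_zero_iff_ker_ne_bot (f := Algebra.lmul ℤ_[l] R w)).2
      ((Submodule.ne_bot_iff _).2 ⟨x, hx, e⟩)]
    exact h.symm
  · obtain ⟨n, k1, k2⟩ := h2 x
    have k3 := (ht' _).1 (k1.mul_right y)
    rw [sub_mul, smul_mul_assoc, one_mul, map_sub, map_smul, smul_eq_mul, map_sub, sub_eq_zero,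
      PadicInt.toZMod.map_mul] at k3
    simp only [k2, k3]
    field_simp

/-- Representatives of the points of the projective line over the prime field. -/
def hrep (R : Type*) [CommRing R] {l : ℕ} : Option (ZMod l) → Matrix (Fin 2) (Fin 2) R
  | none => !![0, -1; 1, 0]
  | some r => !![1, (r.val : R); 0, 1]

omit [Fact l.Prime] in
theorem hrep_det (r : Option (ZMod l)) : (hrep R r).det = 1 := by
  cases r <;> simp [hrep, det_fin_two]

/-- A matrix whose determinant generates a prime of degree one lies in one of `l + 1` cosets. -/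
theorem tree_dec {w : R} (hw : w ∈ nonZeroDivisors R) (π : R →+* ZMod l)
    (hπ : ∀ x, π x = 0 ↔ w ∣ x) {m : Matrix (Fin 2) (Fin 2) R} (hm : Associated m.det w) :
    ∃ (r : Option (ZMod l)) (k : Matrix (Fin 2) (Fin 2) R),
      IsUnit k.det ∧ m = hrep R r * !![w, 0; 0, 1] * k := by
  have h0 : π (m 0 0) * π (m 1 1) - π (m 0 1) * π (m 1 0) = 0 := by
    have := (hπ _).2 hm.symm.dvd
    simpa [det_fin_two] using this
  have key : ∃ (r : Option (ZMod l)) (k : Matrix (Fin 2) (Fin 2) R),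
      m = hrep R r * !![w, 0; 0, 1] * k := by
    by_cases h1 : π (m 1 0) = 0 ∧ π (m 1 1) = 0
    · obtain ⟨x, hx⟩ := (hπ _).1 h1.1
      obtain ⟨y, hy⟩ := (hπ _).1 h1.2
      refine ⟨none, !![x, y; -m 0 0, -m 0 1], ?_⟩
      ext i j
      fin_cases i <;> fin_cases j <;> simp [hrep, hx, hy]
    · obtain ⟨r, h2, h3⟩ : ∃ r : ZMod l, π (m 0 0) = r * π (m 1 0) ∧ π (m 0 1) = r * π (m 1 1) := by
        rcases not_and_or.1 h1 with h | h
        · exact ⟨π (m 0 0) / π (m 1 0), by field_simp, by field_simp; linear_combination -h0⟩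
        · exact ⟨π (m 0 1) / π (m 1 1), by field_simp; linear_combination h0, by field_simp⟩
      obtain ⟨x, hx⟩ := (hπ (m 0 0 - (r.val : R) * m 1 0)).1 (by simp [h2])
      obtain ⟨y, hy⟩ := (hπ (m 0 1 - (r.val : R) * m 1 1)).1 (by simp [h3])
      refine ⟨some r, !![x, y; m 1 0, m 1 1], ?_⟩
      ext i j
      fin_cases i <;> fin_cases j <;> simp [hrep, ← hx, ← hy]
  obtain ⟨r, k, e⟩ := key
  refine ⟨r, k, ?_, e⟩
  have h1 : m.det = w * k.det := by
    rw [e, det_mul, det_mul, hrep_det]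
    simp [det_fin_two]
  obtain ⟨u, hu⟩ := hm
  rw [h1, mul_assoc] at hu
  exact IsUnit.of_mul_eq_one _ ((mul_cancel_left_mem_nonZeroDivisors hw).1 (hu.trans (mul_one w).symm))

/-- The special linear group permutes these cosets transitively. -/
theorem tree_trans {w : R} (hw : w ∈ nonZeroDivisors R) (π : R →+* ZMod l)
    (hπ : ∀ x, π x = 0 ↔ w ∣ x) {m m' : Matrix (Fin 2) (Fin 2) R} (hm : Associated m.det w)
    (hm' : Associated m'.det w) :
    ∃ h k : Matrix (Fin 2) (Fin 2) R, h.det = 1 ∧ IsUnit k.det ∧ m' = h * m * k := by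
  obtain ⟨r, k, k1, rfl⟩ := tree_dec hw π hπ hm
  obtain ⟨r', k', k2, rfl⟩ := tree_dec hw π hπ hm'
  have hr : IsUnit (hrep R r).det := by rw [hrep_det]; exact isUnit_one
  refine ⟨hrep R r' * (hrep R r)⁻¹, k⁻¹ * k', ?_, ?_, ?_⟩
  · rw [det_mul, det_nonsing_inv, hrep_det, hrep_det]
    simp
  · rw [det_mul]
    exact (isUnit_nonsing_inv_det _ k1).mul k2
  · simp only [mul_assoc]
    rw [nonsing_inv_mul_cancel_left _ _ hr, mul_nonsing_inv_cancel_left _ _ k1]

section lattices

variable {n A : Type*} [Fintype n] [DecidableEq n] [CommRing A]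
  (Nm : Matrix (Fin 2) (Fin 2) R →* Matrix n n A)

/-- The lattice spanned by the columns of the image of a matrix. -/
def lat (m : Matrix (Fin 2) (Fin 2) R) : Submodule A (n → A) := LinearMap.range (Nm m).mulVecLin

theorem lat_mul (g m : Matrix (Fin 2) (Fin 2) R) :
    lat Nm (g * m) = (lat Nm m).map (Nm g).mulVecLin := by
  rw [lat, lat, map_mul, mulVecLin_mul, LinearMap.range_comp]

theorem lat_unit {k : Matrix (Fin 2) (Fin 2) R} (hk : IsUnit k.det) : lat Nm k = ⊤ := by
  refine top_unique fun x _ => ⟨Nm k⁻¹ *ᵥ x, ?_⟩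
  rw [mulVecLin_apply, mulVec_mulVec, ← map_mul, mul_nonsing_inv _ hk, map_one, one_mulVec]

theorem lat_mul_unit (m : Matrix (Fin 2) (Fin 2) R) {k : Matrix (Fin 2) (Fin 2) R}
    (hk : IsUnit k.det) : lat Nm (m * k) = lat Nm m := by
  rw [lat_mul, lat_unit Nm hk, Submodule.map_top, lat]

/-- The sphere of radius one in the tree attached to `w`. -/
def sph (w : R) : Set (Submodule A (n → A)) := {L | ∃ m, Associated m.det w ∧ L = lat Nm m}

theorem sph_congr {w w' : R} (h : Associated w w') : sph Nm w = sph Nm w' :=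
  Set.ext fun _ => ⟨fun ⟨m, a, b⟩ => ⟨m, a.trans h, b⟩, fun ⟨m, a, b⟩ => ⟨m, a.trans h.symm, b⟩⟩

theorem sph_map {w : R} {L : Submodule A (n → A)} (hL : L ∈ sph Nm w)
    {g : Matrix (Fin 2) (Fin 2) R} (hg : IsUnit g.det) {c : A} (hc : IsUnit c) :
    L.map (c • Nm g).mulVecLin ∈ sph Nm w := by
  obtain ⟨m, a, rfl⟩ := hL
  refine ⟨g * m, by rw [det_mul]; exact (associated_unit_mul_left _ _ hg).trans a, ?_⟩
  rw [lat_mul]
  obtain ⟨c, rfl⟩ := hc
  ext x
  simp only [Submodule.mem_map, mulVecLin_apply, smul_mulVec]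
  constructor
  · rintro ⟨y, hy, rfl⟩
    exact ⟨(c : A) • y, Submodule.smul_mem _ _ hy, mulVec_smul _ _ _⟩
  · rintro ⟨y, hy, rfl⟩
    exact ⟨(↑c⁻¹ : A) • y, Submodule.smul_mem _ _ hy, by rw [mulVec_smul, smul_smul]; simp⟩

variable {w : R} (hw : w ∈ nonZeroDivisors R) (π : R →+* ZMod l) (hπ : ∀ x, π x = 0 ↔ w ∣ x)

include hw hπ

theorem sph_eq : sph Nm w = Set.range fun r : Option (ZMod l) =>
    lat Nm (hrep R r * !![w, 0; 0, 1]) := by
  ext L
  constructor
  · rintro ⟨m, a, rfl⟩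
    obtain ⟨r, k, k1, rfl⟩ := tree_dec hw π hπ a
    exact ⟨r, (lat_mul_unit Nm _ k1).symm⟩
  · rintro ⟨r, rfl⟩
    exact ⟨_, by rw [det_mul, hrep_det]; simp [det_fin_two], rfl⟩

theorem sph_finite : (sph Nm w).Finite := by
  rw [sph_eq Nm hw π hπ]
  exact Set.finite_range _

theorem sph_card : (sph Nm w).ncard ≤ l + 1 := by
  rw [sph_eq Nm hw π hπ, ← Set.image_univ]
  refine (Set.ncard_image_le Set.finite_univ).trans ?_
  simp [Set.ncard_univ]

theorem sph_trans {L L' : Submodule A (n → A)} (hL : L ∈ sph Nm w) (hL' : L' ∈ sph Nm w) :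
    ∃ h : Matrix (Fin 2) (Fin 2) R, h.det = 1 ∧ L' = L.map (Nm h).mulVecLin := by
  obtain ⟨m, a, rfl⟩ := hL
  obtain ⟨m', a', rfl⟩ := hL'
  obtain ⟨h, k, k1, k2, rfl⟩ := tree_trans hw π hπ a a'
  exact ⟨h, k1, by rw [lat_mul_unit Nm _ k2, lat_mul]⟩

end lattices

end Pool.Agent.MT
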