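import Pool.Agent.Lib.MP_d61fbb_ag.MT.DKp

/-! Block F: the number of level structures. -/

namespace Pool.Agent.MT

open Matrix

section model
variable {Λ R Ω n : Type*} [CommRing Λ] [CommRing R] [CommRing Ω] [Algebra Λ R] [Algebra Λ Ω]
  [Fintype n] [DecidableEq n] (σ : Fin 3 → R →ₐ[Λ] Ω)
  (Nm : Matrix (Fin 2) (Fin 2) R →* Matrix n n Λ) (C : Matrix n (Fin 3 → Fin 2) Ω)
  (C' : Matrix (Fin 3 → Fin 2) n Ω)

theorem fcnt_conj (hC : C * C' = 1)
    (hN : ∀ g, (Nm g).map (algebraMap Λ Ω) * C = C * kp fun i => g.map (σ i)) (g) :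
    (Nm g).map (algebraMap Λ Ω) = C * (kp fun i => g.map (σ i)) * C' := by
  rw [← hN, Matrix.mul_assoc, hC, Matrix.mul_one]

/-- scalars go to scalars -/
theorem fcnt_scalar [Nonempty n] (hi : Function.Injective (algebraMap Λ Ω)) (hC : C * C' = 1)
    (hN : ∀ g, (Nm g).map (algebraMap Λ Ω) * C = C * kp fun i => g.map (σ i)) (r : R) :
    ∃ c : Λ, Nm (r • 1) = c • 1 := by
  obtain ⟨x0⟩ := ‹Nonempty n›
  have h1 : (Nm (r • 1)).map (algebraMap Λ Ω) = (∏ i, σ i r) • 1 := by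
    have e : ∀ i, (r • (1 : Matrix (Fin 2) (Fin 2) R)).map (σ i) = σ i r • 1 := fun i => by
      ext a b; by_cases h : a = b <;> simp [h, one_apply]
    rw [fcnt_conj σ Nm C C' hC hN]
    simp only [e]
    rw [kp_smul, kp_one, Matrix.mul_smul, Matrix.mul_one, Matrix.smul_mul, hC]
  refine ⟨Nm (r • 1) x0 x0, ?_⟩
  have h0 := congrFun (congrFun h1 x0) x0
  simp only [map_apply, Matrix.smul_apply, one_apply_eq, smul_eq_mul, mul_one] at h0
  ext x y
  apply hi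
  have := congrFun (congrFun h1 x) y
  rw [map_apply] at this
  rw [this, ← h0]
  by_cases h : x = y <;> simp [h, one_apply]

/-- congruences are kept -/
theorem fcnt_cong (hi : Function.Injective (algebraMap Λ Ω)) (hC : C * C' = 1)
    (hN : ∀ g, (Nm g).map (algebraMap Λ Ω) * C = C * kp fun i => g.map (σ i))
    (h6 : IsUnit (6 : Λ)) (t : Λ) (h : Matrix (Fin 2) (Fin 2) R) :
    ∃ Y, Nm (1 + t • h) = 1 + t • Y := by
  let a := algebraMap Λ Ω
  let K : Λ → Matrix (Fin 3 → Fin 2) (Fin 3 → Fin 2) Ω := fun s => kp fun i => (1 + s • h).map (σ i)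
  have hK : (6 : Ω) • K t = (3 * (a t - 1) * (a t + 1) * (a t - 2)) • K 0 +
      (-3 * a t * (a t + 1) * (a t - 2)) • K 1 + (-(a t * (a t - 1) * (a t - 2))) • K (-1) +
      (a t * (a t - 1) * (a t + 1)) • K 2 := by
    have e : ∀ (s : Λ) (i : Fin 3) (x y : Fin 2), ((1 + s • h).map (σ i)) x y =
        σ i ((1 : Matrix (Fin 2) (Fin 2) R) x y) + a s * σ i (h x y) := fun s i x y => by
      rw [map_apply, Matrix.add_apply, Matrix.smul_apply, map_add, map_smul, Algebra.smul_def]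
    ext x y
    simp only [K, kp_apply, Matrix.add_apply, Matrix.smul_apply, e, Fin.prod_univ_three,
      smul_eq_mul, map_zero, map_one, map_neg, map_ofNat]
    ring
  have h1 : (6 : Λ) • Nm (1 + t • h) = (3 * (t - 1) * (t + 1) * (t - 2)) • Nm (1 + (0 : Λ) • h) +
      (-3 * t * (t + 1) * (t - 2)) • Nm (1 + (1 : Λ) • h) +
      (-(t * (t - 1) * (t - 2))) • Nm (1 + (-1 : Λ) • h) +
      (t * (t - 1) * (t + 1)) • Nm (1 + (2 : Λ) • h) := by
    have e : ∀ s : Λ, (Nm (1 + s • h)).map a = C * K s * C' := fun s =>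
      fcnt_conj σ Nm C C' hC hN _
    have h2 := congrArg (fun M => C * M * C') hK
    simp only [Matrix.mul_add, Matrix.add_mul, Matrix.mul_smul, Matrix.smul_mul, ← e] at h2
    ext x y
    apply hi
    have := congrFun (congrFun h2 x) y
    simp only [Matrix.add_apply, Matrix.smul_apply, map_apply, smul_eq_mul] at this
    simp only [Matrix.add_apply, Matrix.smul_apply, smul_eq_mul, map_add, map_mul, map_sub,
      map_neg, map_one, map_ofNat]
    exact this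
  obtain ⟨u, hu⟩ := h6.exists_left_inv
  refine ⟨u • ((3 * (t ^ 2 - 2 * t - 1)) • 1 + (-3 * (t + 1) * (t - 2)) • Nm (1 + (1 : Λ) • h) +
    (-((t - 1) * (t - 2))) • Nm (1 + (-1 : Λ) • h) + ((t - 1) * (t + 1)) • Nm (1 + (2 : Λ) • h)), ?_⟩
  have h3 : Nm (1 + t • h) = u • ((6 : Λ) • Nm (1 + t • h)) := by rw [smul_smul, hu, one_smul]
  have h4 : (1 : Matrix n n Λ) = u • ((6 : Λ) • 1) := by rw [smul_smul, hu, one_smul]
  rw [h3, h1, zero_smul, add_zero, map_one]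
  conv_rhs => rw [h4]
  rw [← h4]
  nth_rewrite 2 [h4]
  module

end model

section count
variable {l : ℕ} [Fact l.Prime] {R n : Type*} [CommRing R] [Algebra ℤ_[l] R] [Fintype n]
  [DecidableEq n]

theorem fcnt_unit (b : Module.Basis (Fin 3) ℤ_[l] R) (y : R) : IsUnit (1 + (l : ℤ_[l]) • y) := by
  have : Module.Finite ℤ_[l] R := Module.Finite.of_basis b
  by_contra h
  obtain ⟨M, hM, hy⟩ := exists_max_ideal_of_mem_nonunits h
  have h1 : (M.comap (algebraMap ℤ_[l] R)).IsMaximal :=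
    Ideal.isMaximal_comap_of_isIntegral_of_isMaximal M
  have h2 : (l : ℤ_[l]) ∈ M.comap (algebraMap ℤ_[l] R) := by
    rw [IsLocalRing.eq_maximalIdeal h1, PadicInt.maximalIdeal_eq_span_p]
    exact Ideal.mem_span_singleton_self _
  have h3 : (l : ℤ_[l]) • y ∈ M := by
    rw [Algebra.smul_def]; exact M.mul_mem_right _ h2
  exact hM.ne_top ((Ideal.eq_top_iff_one M).2 (by simpa using M.sub_mem hy h3))

/-- coordinates modulo `l ^ j` -/
noncomputable def fred (b : Module.Basis (Fin 3) ℤ_[l] R) (j : ℕ) (x : R) : Fin 3 → ZMod (l ^ j) :=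
  fun i => PadicInt.toZModPow j (b.repr x i)

theorem fcnt_zp {j : ℕ} {x y : ℤ_[l]} (h : PadicInt.toZModPow j x = PadicInt.toZModPow j y) :
    ∃ z, y = x + (l : ℤ_[l]) ^ j * z := by
  have h1 : y - x ∈ RingHom.ker (PadicInt.toZModPow (p := l) j) := by
    rw [RingHom.mem_ker, map_sub, h, sub_self]
  rw [PadicInt.ker_toZModPow, Ideal.mem_span_singleton] at h1
  obtain ⟨z, hz⟩ := h1
  exact ⟨z, by rw [← hz]; ring⟩

theorem fred_eq (b : Module.Basis (Fin 3) ℤ_[l] R) {j : ℕ} {x y : R} (h : fred b j x = fred b j y) :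
    ∃ z, y = x + (l : ℤ_[l]) ^ j • z := by
  choose z hz using fun i => fcnt_zp (congrFun h i)
  refine ⟨∑ i, z i • b i, b.ext_elem fun i => ?_⟩
  rw [hz i]
  simp [Finsupp.single_apply]

/-- The matrices `c • Nm g` have at most `l ^ (10 k + 12)` classes modulo `l ^ k`. -/
theorem fcnt_card (b : Module.Basis (Fin 3) ℤ_[l] R)
    (Nm : Matrix (Fin 2) (Fin 2) R →* Matrix n n ℤ_[l])
    (h1 : ∀ r : R, ∃ c : ℤ_[l], Nm (r • 1) = c • 1)
    (h2 : ∀ (t : ℤ_[l]) h, ∃ Y, Nm (1 + t • h) = 1 + t • Y) (k : ℕ) :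
    Nat.card {s : Matrix n n (ZMod (l ^ k)) | ∃ (c : ℤ_[l]) (g : Matrix (Fin 2) (Fin 2) R),
      IsUnit g ∧ s = (c • Nm g).map (PadicInt.toZModPow k)} ≤ l ^ (10 * k + 12) := by
  classical
  have hl : 0 < l := (Fact.out : l.Prime).pos
  have : NeZero (l ^ k) := ⟨(pow_pos hl k).ne'⟩
  have : NeZero (l ^ 1) := ⟨(pow_pos hl 1).ne'⟩
  let cl : Matrix (Fin 2) (Fin 2) R → Fin 2 → Fin 2 → Fin 3 → ZMod (l ^ 1) :=
    fun g i j => fred b 1 (g i j)
  have hrep : ∀ w, ∃ g0 : Matrix (Fin 2) (Fin 2) R, (∃ g, IsUnit g ∧ cl g = w) →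
      IsUnit g0 ∧ cl g0 = w := fun w => by
    by_cases h : ∃ g, IsUnit g ∧ cl g = w
    · exact ⟨h.choose, fun _ => h.choose_spec⟩
    · exact ⟨1, fun h' => absurd h' h⟩
  choose rep hrep using hrep
  have norm : ∀ (c : ℤ_[l]) (g : Matrix (Fin 2) (Fin 2) R), IsUnit g →
      ∃ (c' : ℤ_[l]) (m : Matrix (Fin 2) (Fin 2) R), IsUnit m ∧ m 0 0 = 1 ∧
        c • Nm g = c' • (Nm (rep (cl g)) * Nm m) := by
    intro c g hg
    obtain ⟨hu, he⟩ := hrep (cl g) ⟨g, hg, rfl⟩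
    choose z hz using fun i j => fred_eq b (congrFun (congrFun he i) j)
    obtain ⟨v, hv⟩ := hu
    have e1 : g = rep (cl g) + (l : ℤ_[l]) • of z := by
      ext i j; rw [hz i j]; simp
    have e2 : g = rep (cl g) * (1 + (l : ℤ_[l]) • ((↑v⁻¹ : Matrix (Fin 2) (Fin 2) R) * of z)) := by
      rw [Matrix.mul_add, Matrix.mul_one, Matrix.mul_smul, ← Matrix.mul_assoc, ← hv,
        Units.mul_inv, Matrix.one_mul, hv]
      exact e1
    generalize (↑v⁻¹ : Matrix (Fin 2) (Fin 2) R) * of z = w at e2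
    obtain ⟨r, hr⟩ := fcnt_unit b (w 0 0)
    obtain ⟨cr, hcr⟩ := h1 r
    have hm : IsUnit (1 + (l : ℤ_[l]) • w) := by
      have := hg
      rw [e2, ← hv] at this
      exact (Units.isUnit_units_mul v _).1 this
    refine ⟨c * cr, (↑r⁻¹ : R) • (1 + (l : ℤ_[l]) • w), ?_, ?_, ?_⟩
    · rw [isUnit_iff_isUnit_det, det_smul]
      exact ((Units.isUnit r⁻¹).pow _).mul ((isUnit_iff_isUnit_det _).1 hm)
    · rw [Matrix.smul_apply, Matrix.add_apply, one_apply_eq, Matrix.smul_apply, ← hr, smul_eq_mul, Units.inv_mul]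
    · have e3 : 1 + (l : ℤ_[l]) • w =
          ((r : R) • (1 : Matrix (Fin 2) (Fin 2) R)) * ((↑r⁻¹ : R) • (1 + (l : ℤ_[l]) • w)) := by
        rw [Matrix.smul_mul, Matrix.one_mul, smul_smul, Units.mul_inv, one_smul]
      conv_lhs => rw [e2, e3, map_mul, map_mul, hcr]
      rw [Matrix.smul_mul, Matrix.one_mul, Matrix.mul_smul, smul_smul]
  let T := (Fin 2 → Fin 2 → Fin 3 → ZMod (l ^ 1)) × ZMod (l ^ k) × (Fin 3 → Fin 3 → ZMod (l ^ k))
  have hT : Nat.card T = l ^ (10 * k + 12) := by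
    simp only [T, Nat.card_prod, Nat.card_fun, Nat.card_zmod, Nat.card_fin]
    ring
  rw [← hT]
  have key : ∀ s : {s : Matrix n n (ZMod (l ^ k)) | ∃ (c : ℤ_[l]) (g : Matrix (Fin 2) (Fin 2) R),
      IsUnit g ∧ s = (c • Nm g).map (PadicInt.toZModPow k)},
      ∃ (w : Fin 2 → Fin 2 → Fin 3 → ZMod (l ^ 1)) (c : ℤ_[l]) (m : Matrix (Fin 2) (Fin 2) R),
        IsUnit m ∧ m 0 0 = 1 ∧ s.1 = (c • (Nm (rep w) * Nm m)).map (PadicInt.toZModPow k) := by
    rintro ⟨s, c, g, hg, rfl⟩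
    obtain ⟨c', m, hm, h0, e⟩ := norm c g hg
    exact ⟨cl g, c', m, hm, h0, by rw [← e]⟩
  choose w c m hm h0 hs using key
  refine Nat.card_le_card_of_injective (fun s => ((w s, PadicInt.toZModPow k (c s),
    ![fred b k (m s 0 1), fred b k (m s 1 0), fred b k (m s 1 1)]) : T)) fun s s' e => ?_
  simp only [T, Prod.mk.injEq] at e
  obtain ⟨e1, e2, e3⟩ := e
  obtain ⟨z1, hz1⟩ := fred_eq b (congrFun e3 0)
  obtain ⟨z2, hz2⟩ := fred_eq b (congrFun e3 1)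
  obtain ⟨z3, hz3⟩ := fred_eq b (congrFun e3 2)
  obtain ⟨v, hv⟩ := hm s
  have e4 : m s' = m s * (1 + (l : ℤ_[l]) ^ k •
      ((↑v⁻¹ : Matrix (Fin 2) (Fin 2) R) * !![0, z1; z2, z3])) := by
    rw [Matrix.mul_add, Matrix.mul_one, Matrix.mul_smul, ← Matrix.mul_assoc, ← hv,
      Units.mul_inv, Matrix.one_mul, hv]
    ext i j
    fin_cases i <;> fin_cases j
    · simp [h0]
    · simpa using hz1
    · simpa using hz2
    · simpa using hz3
  obtain ⟨Y, hY⟩ := h2 ((l : ℤ_[l]) ^ k) ((↑v⁻¹ : Matrix (Fin 2) (Fin 2) R) * !![0, z1; z2, z3])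
  have hz : PadicInt.toZModPow k ((l : ℤ_[l]) ^ k) = 0 := by
    rw [map_pow, map_natCast, ← Nat.cast_pow, ZMod.natCast_self]
  refine Subtype.ext ?_
  rw [hs s, hs s', ← e1, e4, map_mul, hY]
  ext x y
  simp only [map_apply, Matrix.smul_apply, smul_eq_mul, Matrix.mul_add, Matrix.mul_one, Matrix.mul_smul,
    Matrix.add_apply, map_mul, map_add, e2, hz, zero_mul, add_zero]

theorem fcnt_six (h : 5 ≤ l) : IsUnit (6 : ℤ_[l]) := by
  rw [PadicInt.isUnit_iff]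
  by_contra h1
  have h2 : ‖((6 : ℤ) : ℤ_[l])‖ < 1 := by
    push_cast; exact lt_of_le_of_ne (PadicInt.norm_le_one _) h1
  rw [PadicInt.norm_int_lt_one_iff_dvd] at h2
  have h3 : l ∣ 2 * 3 := by exact_mod_cast h2
  rcases (Nat.Prime.dvd_mul Fact.out).1 h3 with h4 | h4 <;>
    have := Nat.le_of_dvd (by norm_num) h4 <;> omega

/-- The count in the tensor model. -/
theorem fcnt_model {Ω : Type*} [CommRing Ω] [Algebra ℤ_[l] Ω] [Nonempty n] (h5 : 5 ≤ l)
    (b : Module.Basis (Fin 3) ℤ_[l] R) (σ : Fin 3 → R →ₐ[ℤ_[l]] Ω)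
    (Nm : Matrix (Fin 2) (Fin 2) R →* Matrix n n ℤ_[l]) (C : Matrix n (Fin 3 → Fin 2) Ω)
    (C' : Matrix (Fin 3 → Fin 2) n Ω) (hi : Function.Injective (algebraMap ℤ_[l] Ω))
    (hC : C * C' = 1)
    (hN : ∀ g, (Nm g).map (algebraMap ℤ_[l] Ω) * C = C * kp fun i => g.map (σ i)) (k : ℕ) :
    Nat.card {s : Matrix n n (ZMod (l ^ k)) | ∃ (c : ℤ_[l]) (g : Matrix (Fin 2) (Fin 2) R),
      IsUnit g ∧ s = (c • Nm g).map (PadicInt.toZModPow k)} ≤ l ^ (10 * k + 12) :=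
  fcnt_card b Nm (fcnt_scalar σ Nm C C' hi hC hN) (fcnt_cong σ Nm C C' hi hC hN (fcnt_six h5)) k

end count

end Pool.Agent.MT
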