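import Pool.Agent.Lib.MP_d61fbb_ag.MT.S0
import Pool.Agent.Lib.MP_d61fbb_ag.MT.A6
import Pool.Agent.Lib.MP_d61fbb_ag.MT.D0a
import Pool.Agent.Lib.MP_d61fbb_ag.MT.GL1
import Pool.Agent.Lib.MP_d61fbb_ag.MT.DTree
import Pool.Agent.Lib.MP_d61fbb_ag.MT.FCnt

/-! The tensor induction at one prime: what follows from the structure `Cub`. -/

set_option autoImplicit false

noncomputable section

open Matrix Module Polynomial NumberField

namespace Pool.Agent.MT

theorem GS.unique {g : ℕ} [NeZero g] {R : Type*} [CommRing R] {ν μ : R}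
    {γ : Matrix (I2 g) (I2 g) R} (h : GS ν γ) (h' : GS μ γ) : ν = μ := by
  have := congrFun (congrFun ((gs_iff.1 h).symm.trans (gs_iff.1 h')) (.inr 0)) (.inl 0)
  simpa [J] using this

theorem zp_alg_inj (l : ℕ) [Fact l.Prime] :
    Function.Injective (algebraMap ℤ_[l] (PadicAlgCl l)) := by
  rw [IsScalarTower.algebraMap_eq ℤ_[l] ℚ_[l] (PadicAlgCl l)]
  exact (algebraMap ℚ_[l] (PadicAlgCl l)).injective.comp Subtype.val_injective

namespace Cub

variable {l : ℕ} [Fact l.Prime] (D : Cub l)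

/-- The tensor induction as a homomorphism. -/
def NmH : M2 (AdjoinRoot D.c) →* M8 ℤ_[l] where
  toFun := D.Nm
  map_one' := Matrix.map_injective (zp_alg_inj l) (by
    simp only [D.nm, Matrix.map_one _ (map_zero _) (map_one _), kp_one, Matrix.mul_one, D.mul_inv])
  map_mul' g h := Matrix.map_injective (zp_alg_inj l) (by
    simp only [D.nm, Matrix.map_mul, kp_mul, Matrix.mul_assoc]
    rw [← Matrix.mul_assoc D.U', D.inv_mul, Matrix.one_mul])

@[simp] theorem NmH_apply (g : M2 (AdjoinRoot D.c)) : D.NmH g = D.Nm g := rfl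

theorem Nm_mul (g h : M2 (AdjoinRoot D.c)) : D.Nm (g * h) = D.Nm g * D.Nm h := map_mul D.NmH g h

theorem Nm_one : D.Nm 1 = 1 := map_one D.NmH

/-- A basis of the cubic algebra. -/
def bas : Basis (Fin 3) ℤ_[l] (AdjoinRoot D.c) :=
  (AdjoinRoot.powerBasis' D.monic).basis.reindex (finCongr D.deg)

theorem hN (g : M2 (AdjoinRoot D.c)) : (D.NmH g).map (algebraMap ℤ_[l] (PadicAlgCl l)) * D.U =
    D.U * kp fun i => g.map (D.σ i) := by
  rw [NmH_apply, D.nm, Matrix.mul_assoc, D.inv_mul, Matrix.mul_one]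

theorem trNm : TrNm D.σ D.NmH (J (Fin 4) ℤ_[l]) := by
  obtain ⟨u, hu⟩ := D.symp
  refine .of_conj (zp_alg_inj l) D.U D.U' D.mul_inv D.inv_mul D.hN (-u) ?_
    ⟨.inr 0, .inl 0, by simp [J]⟩
  ext x y
  have := hu (Pi.single x 1) (Pi.single y 1)
  rw [Ef_eq, mulVec_mulVec, ← vecMul_transpose, ← dotProduct_mulVec, mulVec_mulVec,
    ← Matrix.mul_assoc, neg_eq_iff_eq_neg, ← neg_mul] at this
  rw [map_J]
  simpa using this

theorem alg_norm (x : AdjoinRoot D.c) :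
    algebraMap ℤ_[l] (PadicAlgCl l) (Algebra.norm ℤ_[l] x) = ∏ i, D.σ i x :=
  sig_norm D.bas D.inj x

/-- The multiplier of a tensor induction. -/
theorem gs_Nm (g : M2 (AdjoinRoot D.c)) : GS (Algebra.norm ℤ_[l] g.det) (D.Nm g) :=
  gs_iff.2 (D.trNm.sim g _ (D.alg_norm _))

theorem mult {c q : ℤ_[l]} {g : M2 (AdjoinRoot D.c)} (h : GS q (c • D.Nm g)) :
    algebraMap ℤ_[l] (PadicAlgCl l) c ^ 2 * ∏ i, D.σ i g.det =
      algebraMap ℤ_[l] (PadicAlgCl l) q := by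
  rw [h.unique ((D.gs_Nm g).smul c), map_mul, map_pow, alg_norm]

theorem isUnit_of_norm {x : AdjoinRoot D.c} (h : IsUnit (Algebra.norm ℤ_[l] x)) : IsUnit x := by
  rw [Algebra.norm_eq_matrix_det D.bas, ← isUnit_iff_isUnit_det] at h
  obtain ⟨y, hy⟩ := (mulVec_surjective_iff_isUnit.2 h) (D.bas.repr 1)
  refine IsUnit.of_mul_eq_one (D.bas.equivFun.symm y) (D.bas.repr.injective (DFunLike.coe_injective ?_))
  rw [← hy, ← Algebra.leftMulMatrix_mulVec_repr]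
  congr 1
  exact D.bas.equivFun.apply_symm_apply y

/-- Block D2 for the structure `Cub`. -/
theorem loc {P : ℤ[X]} {p : ℕ} {E : Type} [Field E] [NumberField E] (F : DF P p E)
    (hl : ¬ l ∣ F.den) {π : M8 ℤ_[l]} {c : ℤ_[l]} {g : M2 (AdjoinRoot D.c)} (hg : IsUnit g)
    (e : π = c • D.Nm g) (hP : π.charpoly = P.map (Int.castRingHom ℤ_[l])) (hm : GS (p : ℤ_[l]) π) :
    ∃ j : 𝓞 E →+* M2 (AdjoinRoot D.c),
      (∀ a : 𝓞 E, (D.Nm (j a)).map (algebraMap ℤ_[l] ℚ_[l]) =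
        F.nu (π.map (algebraMap ℤ_[l] ℚ_[l])) a) ∧
      (∀ a, Algebra.norm ℤ_[l] (j a).det = (Algebra.norm ℤ a : ℤ)) ∧
      ∀ a, j (a * F.cO a) = (j a).det • 1 := by
  subst e
  exact d_loc F hl D.bas D.σ D.NmH D.mul_inv D.inv_mul D.hN ((isUnit_iff_isUnit_det _).1 hg) hP
    ((D.mult hm).trans (map_natCast _ _))

theorem count (h5 : 5 ≤ l) (k : ℕ) : Nat.card {s : M8 (ZMod (l ^ k)) | ∃ (c : ℤ_[l])
    (g : M2 (AdjoinRoot D.c)), IsUnit g ∧ s = (c • D.Nm g).map (PadicInt.toZModPow k)} ≤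
      l ^ (10 * k + 12) :=
  fcnt_model h5 D.bas D.σ D.NmH D.U D.U' (zp_alg_inj l) D.mul_inv D.hN k

end Cub

end Pool.Agent.MT
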