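import Pool.Agent.Lib.MP_d61fbb_ag.MT.Top
import Pool.Agent.Lib.MP_d61fbb_ag.MT.DPl1
import Pool.Agent.Lib.MP_d61fbb_ag.MT.GCub
import Pool.Agent.Lib.MP_d61fbb_ag.MT.CIn

/-! Block D: the choice of the place. -/

set_option autoImplicit false

noncomputable section

open Matrix Polynomial

namespace Pool.Agent.MT

open Pool.Agent.Lib.MP_696deb_nt.B2 (Qbar Gam Plc Dec Ine IsFrob Op jC finite_supp)

theorem dpl_cp_sg (l l' : Pr) (a : ℚ_[l]) :
    cp l' (sg l a) = Pi.single (M := fun l : Pr => ℚ_[l]) l a l' := rfl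

theorem dpl_cp_mA (l : Pr) (π : ∀ l : Pr, GL (I2 4) ℤ_[l]) (x : W) :
    (fun i => cp l ((mA π *ᵥ x) i)) = (π l).val.map (algebraMap ℤ_[l] ℚ_[l]) *ᵥ cpv l x :=
  funext fun i => (cp l).toRingHom.map_mulVec (mA π) x i

/-- The multiplier of the Frobenius operator. -/
theorem FSys.gs {k : Type} [Field k] {p : Pr} (S : FSys k p) {l : Pr} (hl : l ≠ p) :
    GS ((p : ℕ) : ℤ_[l]) (S.π l).val := by
  have key : ∀ x y : Vl l, ‖Ef ((S.π l).val.map (algebraMap ℤ_[l] ℚ_[l]) *ᵥ x)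
      ((S.π l).val.map (algebraMap ℤ_[l] ℚ_[l]) *ᵥ y) - (p : ℕ) * Ef x y‖ ≤ 1 := fun x y => by
    have h1 := S.frobe (sgv l x) (sgv l y)
    have h2 : S.e (Ef (mA S.π *ᵥ sgv l x) (mA S.π *ᵥ sgv l y) -
        (p : ℕ) • Ef (sgv l x) (sgv l y)) = 1 := by
      rw [AddChar.map_sub_eq_div, AddChar.map_nsmul_eq_pow, h1, div_self]
      exact pow_ne_zero _ (S.e.val_isUnit _).ne_zero
    have h3 := (S.ker _).1 h2 l fun e => hl (Subtype.ext e)
    have h4 : ∀ x : Vl l, cpv l (sgv l x) = x := fun x => funext fun i => by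
      simp [cpv, sgv, dpl_cp_sg]
    rwa [map_sub, map_nsmul, Ef_map, Ef_map, dpl_cp_mA, dpl_cp_mA, h4, h4, nsmul_eq_mul,
      show (fun i => cp l (sgv l x i)) = x from h4 x,
      show (fun i => cp l (sgv l y i)) = y from h4 y] at h3
  intro x y
  refine FaithfulSMul.algebraMap_injective ℤ_[l] ℚ_[l] ?_
  rw [map_mul, map_natCast, Ef_map, Ef_map]
  simp only [RingHom.map_mulVec]
  by_contra h
  have h0 := sub_ne_zero.2 h
  obtain ⟨c, hc⟩ := NormedField.exists_lt_norm ℚ_[l] 1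
  refine not_le.2 hc ((congrArg norm (div_mul_cancel₀ c h0)).symm.trans_le ?_)
  generalize c / _ = s
  have h1 := key (s • ((algebraMap ℤ_[l] ℚ_[l]) ∘ x)) ((algebraMap ℤ_[l] ℚ_[l]) ∘ y)
  rw [mulVec_smul, Ef_smul_left, Ef_smul_left, mul_left_comm, ← mul_sub] at h1
  exact h1

theorem Cub.isMaximal {l : ℕ} [Fact l.Prime] (D : Cub l)
    (h : Irreducible (D.c.map PadicInt.toZMod)) :
    (Ideal.span {(l : AdjoinRoot D.c)}).IsMaximal := by
  have := Fact.mk h
  let f : AdjoinRoot D.c →+* AdjoinRoot (D.c.map PadicInt.toZMod) :=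
    AdjoinRoot.lift ((AdjoinRoot.of _).comp PadicInt.toZMod) (AdjoinRoot.root _)
      (by rw [← eval₂_map, AdjoinRoot.eval₂_root])
  have hf : ∀ q, f (AdjoinRoot.mk _ q) = AdjoinRoot.mk _ (q.map PadicInt.toZMod) := fun q => by
    rw [AdjoinRoot.lift_mk, ← eval₂_map, ← AdjoinRoot.aeval_eq, aeval_def]
    rfl
  have hs : Function.Surjective (Polynomial.map (PadicInt.toZMod (p := l))) :=
    map_surjective _ (ZMod.ringHom_surjective _)
  have h1 : Function.Surjective f := fun y => by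
    obtain ⟨q, rfl⟩ := AdjoinRoot.mk_surjective y
    obtain ⟨q, rfl⟩ := hs q
    exact ⟨_, hf q⟩
  suffices Ideal.span {(l : AdjoinRoot D.c)} = RingHom.ker f from
    this ▸ RingHom.ker_isMaximal_of_surjective f h1
  refine le_antisymm ((Ideal.span_singleton_le_iff_mem _).2 ?_) fun x hx => ?_
  · rw [RingHom.mem_ker, map_natCast, ← map_natCast (AdjoinRoot.of (D.c.map PadicInt.toZMod)),
      ZMod.natCast_self, map_zero]
  · obtain ⟨q, rfl⟩ := AdjoinRoot.mk_surjective x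
    rw [RingHom.mem_ker, hf, AdjoinRoot.mk_eq_zero] at hx
    obtain ⟨r, hr⟩ := hx
    obtain ⟨r, rfl⟩ := hs r
    have h2 : C (l : ℤ_[l]) ∣ q - D.c * r := (C_dvd_iff_dvd_coeff _ _).2 fun i => by
      rw [← Ideal.mem_span_singleton, ← PadicInt.maximalIdeal_eq_span_p, ← PadicInt.ker_toZMod,
        RingHom.mem_ker, ← coeff_map, Polynomial.map_sub, Polynomial.map_mul, hr, sub_self,
        coeff_zero]
    obtain ⟨s, e⟩ := h2
    refine Ideal.mem_span_singleton.2 ⟨AdjoinRoot.mk _ s, ?_⟩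
    rw [eq_add_of_sub_eq e, map_add, map_mul, map_mul, AdjoinRoot.mk_self, zero_mul, add_zero,
      map_natCast, map_natCast]

theorem dpl_ine (K : IntermediateField ℚ ℂ) [FiniteDimensional ℚ K] : ∃ s : Finset ℕ,
    ∀ w : Plc, w.p ∉ s → ∀ g ∈ Ine w, ∀ x, jC x ∈ K → g x = x := by
  classical
  let b := Module.finBasis ℚ K
  choose y hy using fun i => mem_range_of_alg jC (y := (b i : ℂ))
    ((Algebra.IsIntegral.isIntegral (b i)).map K.val)
  obtain ⟨s, hs⟩ := exists_ine_fix (Finset.univ.image y)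
  refine ⟨s, fun w hw g hg x hx => ?_⟩
  have e : x = ∑ i, b.repr ⟨_, hx⟩ i • y i := jC.injective (by
    have := congrArg K.val (b.sum_repr ⟨_, hx⟩)
    simp only [map_sum, map_rat_smul, IntermediateField.coe_val] at this
    simp only [map_sum, map_rat_smul, hy, this])
  rw [e, map_sum]
  exact Finset.sum_congr rfl fun i _ => by
    rw [map_rat_smul, hs w hw g hg _ (Finset.mem_image_of_mem _ (Finset.mem_univ i))]

end Pool.Agent.MT
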