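import Pool.Agent.Lib.MP_d61fbb_ag.MT.HA

/-! Weil polynomials from a degree inequality: basic tools. -/

set_option autoImplicit false

noncomputable section

namespace Pool.Agent.MT.BW

open Polynomial Finset

/-- the determinant of a polynomial in a matrix is the product of its values at the eigenvalues -/
theorem det_aeval {n L : Type} [Fintype n] [DecidableEq n] [Field L] [IsAlgClosed L]
    (A : Matrix n n L) (w : L[X]) :
    (aeval A w).det = (A.charpoly.roots.map fun z => w.eval z).prod := by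
  let φ : L[X] →* L := Matrix.detMonoidHom.comp (aeval A).toRingHom.toMonoidHom
  let ψ : L[X] →* L :=
    { toFun := fun w => (A.charpoly.roots.map fun z => w.eval z).prod
      map_one' := by simp
      map_mul' := fun a b => by simp only [eval_mul, Multiset.prod_map_mul] }
  have hc : A.charpoly.roots.card = Fintype.card n := by
    rw [IsAlgClosed.card_roots_eq_natDegree, Matrix.charpoly_natDegree_eq_dim]
  have e : ∀ r : L, φ (X - C r) = ψ (X - C r) := fun r => by
    change (aeval A (X - C r)).det = (A.charpoly.roots.map fun z => (X - C r).eval z).prod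
    have h1 : (aeval A (X - C r)).det = (-1) ^ Fintype.card n * A.charpoly.eval r := by
      rw [Matrix.eval_charpoly, map_sub, aeval_X, aeval_C, ← neg_sub, Matrix.det_neg]
      rfl
    rw [h1, (IsAlgClosed.splits A.charpoly).eval_eq_prod_roots_of_monic A.charpoly_monic, ← hc,
      ← Multiset.card_map (r - ·), ← Multiset.prod_map_neg]
    simp
  have e' : ∀ r : L, φ (C r) = ψ (C r) := fun r => by
    change (aeval A (C r)).det = (A.charpoly.roots.map fun z => (C r).eval z).prod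
    simp [Algebra.algebraMap_eq_smul_one, hc]
  change φ w = ψ w
  rw [(IsAlgClosed.splits w).eq_prod_roots, map_mul, map_mul, map_multiset_prod, map_multiset_prod,
    Multiset.map_map, Multiset.map_map, e']
  congr 2
  exact Multiset.map_congr rfl fun r _ => e r

section ultra
variable {L : Type} [NormedField L] [IsUltrametricDist L]

theorem norm_sum_le {ι : Type} (s : Finset ι) (f : ι → L) {c : ℝ} (hc : 0 ≤ c)
    (h : ∀ i ∈ s, ‖f i‖ ≤ c) : ‖∑ i ∈ s, f i‖ ≤ c :=
  IsUltrametricDist.norm_sum_le_of_forall_le_of_nonneg hc h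

theorem norm_eval_le {w : L[X]} {c : ℝ} (hc : 0 ≤ c) (h : ∀ i, ‖w.coeff i‖ ≤ c) {z : L}
    (hz : ‖z‖ ≤ 1) : ‖w.eval z‖ ≤ c := by
  rw [eval_eq_sum_range]
  refine norm_sum_le _ _ hc fun i _ => ?_
  rw [norm_mul, norm_pow]
  exact (mul_le_of_le_one_right (norm_nonneg _) (pow_le_one₀ (norm_nonneg _) hz)).trans (h i)

theorem norm_root_le {P : L[X]} (hP : P.Monic) (h : ∀ i, ‖P.coeff i‖ ≤ 1) {z : L}
    (hz : P.eval z = 0) : ‖z‖ ≤ 1 := by
  by_contra hlt
  rw [not_le] at hlt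
  rw [eval_eq_sum_range, sum_range_succ, hP.coeff_natDegree, one_mul] at hz
  rcases Nat.eq_zero_or_pos P.natDegree with h0 | h0
  · simp [h0] at hz
  have h1 := norm_sum_le (range P.natDegree) (fun i => P.coeff i * z ^ i)
    (c := ‖z‖ ^ (P.natDegree - 1)) (by positivity) fun i hi => by
      rw [norm_mul, norm_pow]
      exact (mul_le_of_le_one_left (by positivity) (h i)).trans
        (pow_le_pow_right₀ hlt.le (by have := mem_range.1 hi; omega))
  rw [eq_neg_of_add_eq_zero_left hz, norm_neg, norm_pow] at h1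
  exact absurd h1 (not_le.2 (pow_lt_pow_right₀ hlt (by omega)))

theorem norm_coeff_prod (Z : Multiset L) (h : ∀ z ∈ Z, ‖z‖ ≤ 1) (i : ℕ) :
    ‖(Z.map fun z => X - C z).prod.coeff i‖ ≤ 1 := by
  induction Z using Multiset.induction_on generalizing i with
  | empty => rw [Multiset.map_zero, Multiset.prod_zero, coeff_one]; split_ifs <;> simp
  | cons a Z ih =>
    have ih' := ih fun z hz => h z (Multiset.mem_cons_of_mem hz)
    rw [Multiset.map_cons, Multiset.prod_cons, sub_mul, coeff_sub, coeff_C_mul, sub_eq_add_neg]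
    refine (IsUltrametricDist.norm_add_le_max _ _).trans (max_le ?_ ?_)
    · cases i with
      | zero => simp
      | succ i => rw [coeff_X_mul]; exact ih' i
    · rw [norm_neg, norm_mul]
      exact mul_le_one₀ (h a (Multiset.mem_cons_self _ _)) (norm_nonneg _) (ih' i)

/-- among `d + 1` consecutive integers one stays away from `d` given numbers -/
theorem exists_away [CharZero L] (d : ℕ) : ∃ ε : ℝ, 0 < ε ∧ ε ≤ 1 ∧ ∀ (Z : Multiset L) (a : ℕ),
    Z.card ≤ d → ∃ i ≤ d, ∀ y ∈ Z, ε * max 1 ‖y‖ ≤ ‖((a + i : ℕ) : L) - y‖ := by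
  classical
  have hn : ∀ n : ℕ, ‖(n : L)‖ ≤ 1 := fun n => IsUltrametricDist.norm_natCast_le_one L n
  refine ⟨‖(d.factorial : L)‖, norm_pos_iff.2 (Nat.cast_ne_zero.2 d.factorial_ne_zero), hn _,
    fun Z a hZ => ?_⟩
  by_contra hcon
  have h1 : ∀ i ∈ range (d + 1), ∃ y ∈ Z.toFinset, ‖((a + i : ℕ) : L) - y‖ < ‖(d.factorial : L)‖ := by
    intro i hi
    by_contra h2
    refine hcon ⟨i, Nat.lt_succ_iff.1 (mem_range.1 hi), fun y hy => ?_⟩
    rcases le_or_gt ‖y‖ 1 with c | c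
    · rw [max_eq_left c, mul_one]
      exact not_lt.1 fun q => h2 ⟨y, Multiset.mem_toFinset.2 hy, q⟩
    · rw [max_eq_right c.le, sub_eq_add_neg, IsUltrametricDist.norm_add_eq_max_of_norm_ne_norm
        (by rw [norm_neg]; exact ((hn _).trans_lt c).ne), norm_neg]
      exact (mul_le_of_le_one_left (norm_nonneg _) (hn _)).trans (le_max_right _ _)
  choose! y hy hy' using h1
  obtain ⟨i, hi, j, hj, hij, e⟩ := exists_ne_map_eq_of_card_lt_of_maps_to
    (s := range (d + 1)) (t := Z.toFinset) (f := y)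
    (by rw [card_range]; exact Nat.lt_succ_of_le ((Multiset.toFinset_card_le Z).trans hZ)) hy
  wlog hlt : i < j generalizing i j
  · exact this j hj i hi hij.symm e.symm (by omega)
  have q1 := hy' i hi
  have q2 := hy' j hj
  rw [← e] at q2
  have q3 : ((j - i : ℕ) : L) = (((a + j : ℕ) : L) - y i) + -(((a + i : ℕ) : L) - y i) := by
    rw [Nat.cast_sub hlt.le]; push_cast; ring
  have q4 : ‖((j - i : ℕ) : L)‖ < ‖(d.factorial : L)‖ := by
    rw [q3]
    exact (IsUltrametricDist.norm_add_le_max _ _).trans_lt (max_lt q2 (by rwa [norm_neg]))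
  obtain ⟨c, hc⟩ := Nat.dvd_factorial (m := j - i) (n := d) (by omega)
    (by have := mem_range.1 hj; omega)
  rw [hc, Nat.cast_mul, norm_mul] at q4
  exact absurd q4 (not_lt.2 (mul_le_of_le_one_right (norm_nonneg _) (hn c)))

end ultra

theorem prod_norm_nat (T : Finset Nat.Primes) (n : ℕ) (hn : n ≠ 0)
    (h : ∀ l : Nat.Primes, (l : ℕ) ∣ n → l ∈ T) : ∏ l ∈ T, ‖(n : ℚ_[l])‖ = (n : ℝ)⁻¹ := by
  induction n using induction_on_primes with
  | zero => exact absurd rfl hn
  | one => simp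
  | prime_mul r a hr ih =>
    simp only [Nat.cast_mul, norm_mul, prod_mul_distrib, mul_inv]
    rw [ih (right_ne_zero_of_mul hn) fun l hl => h l (hl.mul_left _)]
    congr 1
    obtain ⟨r', rfl⟩ : ∃ r' : Nat.Primes, (r' : ℕ) = r := ⟨⟨r, hr⟩, rfl⟩
    exact (prod_eq_single_of_mem r' (h _ (dvd_mul_right _ _)) fun l _ hl =>
      Padic.norm_natCast_eq_one_iff.2
        ((Nat.coprime_primes l.2 hr).2 fun e => hl (Subtype.ext e))).trans Padic.norm_p

/-- the product formula for rational numbers -/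
theorem prod_formula (p : Nat.Primes) (N : ℚ) (hN : N ≠ 0) : ∃ S : Finset Nat.Primes, p ∉ S ∧
    ∏ l ∈ S, ‖(N : ℚ_[l])‖⁻¹ = |(N : ℝ)| * ‖(N : ℚ_[p])‖ := by
  classical
  have n0 : N.num.natAbs ≠ 0 := Int.natAbs_ne_zero.2 (Rat.num_ne_zero.2 hN)
  let T : Finset Nat.Primes := insert p ((N.num.natAbs * N.den).primeFactors.subtype _)
  have hT : ∀ l : Nat.Primes, (l : ℕ) ∣ N.num.natAbs * N.den → l ∈ T := fun l hl =>
    mem_insert_of_mem (mem_subtype.2 (Nat.mem_primeFactors.2 ⟨l.2, hl, mul_ne_zero n0 N.den_nz⟩))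
  have h1 := prod_norm_nat T _ n0 fun l hl => hT l (hl.mul_right _)
  have h2 := prod_norm_nat T _ N.den_nz fun l hl => hT l (hl.mul_left _)
  have h3 : ∏ l ∈ T, ‖(N : ℚ_[l])‖ = |(N : ℝ)|⁻¹ := by
    have e : ∀ l : Nat.Primes, ‖(N : ℚ_[l])‖ = ‖(N.num.natAbs : ℚ_[l])‖ / ‖(N.den : ℚ_[l])‖ :=
      fun l => by rw [Rat.cast_def, norm_div, Nat.cast_natAbs]; rcases abs_choice N.num with h | h <;> simp [h]
    simp only [e, prod_div_distrib, h1, h2]
    rw [Rat.cast_def, abs_div, Nat.cast_natAbs, Nat.abs_cast, Int.cast_abs, inv_div_inv, inv_div]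
  refine ⟨T.erase p, notMem_erase _ _, ?_⟩
  rw [← mul_prod_erase T _ (mem_insert_self _ _)] at h3
  have q1 : ‖(N : ℚ_[p])‖ ≠ 0 := norm_ne_zero_iff.2 (Rat.cast_ne_zero.2 hN)
  rw [prod_inv_distrib, eq_inv_mul_iff_mul_eq₀ q1 |>.2 h3, mul_inv, inv_inv, inv_inv, mul_comm]

theorem rat_int (q : ℚ) (h : ∀ l : Nat.Primes, ‖(q : ℚ_[l])‖ ≤ 1) : ∃ n : ℤ, (n : ℚ) = q := by
  refine ⟨q.num, Rat.coe_int_num_of_den_eq_one ?_⟩
  by_contra h1
  obtain ⟨r, hr, h2⟩ := Nat.exists_prime_and_dvd h1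
  have : Fact r.Prime := ⟨hr⟩
  have h3 : ‖(q.num : ℚ_[r])‖ < 1 := by
    rw [← Rat.cast_intCast, ← Rat.mul_den_eq_num, Rat.cast_mul, norm_mul, Rat.cast_natCast]
    exact mul_lt_one_of_nonneg_of_lt_one_right (h ⟨r, hr⟩) (norm_nonneg _)
      (Padic.norm_natCast_lt_one_iff.2 h2)
  exact hr.ne_one (Nat.eq_one_of_dvd_coprimes q.reduced
    (Int.natCast_dvd.1 (Padic.norm_intCast_lt_one_iff.1 h3)) h2)

section loc
variable {l : ℕ} [Fact l.Prime]

theorem norm_alg (x : ℤ_[l]) : ‖algebraMap ℤ_[l] (PadicAlgCl l) x‖ = ‖x‖ := by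
  rw [IsScalarTower.algebraMap_apply ℤ_[l] ℚ_[l] (PadicAlgCl l)]
  exact PadicAlgCl.norm_extends l x

theorem norm_rat (x : ℚ) : ‖(x : PadicAlgCl l)‖ = ‖(x : ℚ_[l])‖ := by
  rw [← PadicAlgCl.norm_extends l, map_ratCast]

theorem root_le {P : ℤ_[l][X]} (hP : P.Monic) {z : PadicAlgCl l} (hz : aeval z P = 0) :
    ‖z‖ ≤ 1 :=
  norm_root_le (hP.map (algebraMap ℤ_[l] (PadicAlgCl l)))
    (fun i => by rw [coeff_map, norm_alg]; exact PadicInt.norm_le_one _)
    (by rwa [eval_map_algebraMap])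

theorem aeval_le (w : ℤ[X]) {z : PadicAlgCl l} (hz : ‖z‖ ≤ 1) : ‖aeval z w‖ ≤ 1 := by
  rw [← eval_map_algebraMap]
  exact norm_eval_le zero_le_one (fun i => by
    rw [coeff_map]; exact IsUltrametricDist.norm_intCast_le_one _ _) hz

/-- small integer combinations that are small at the roots of `h` -/
theorem pigeon {h : ℤ_[l][X]} (hh : h.Monic) {e : ℕ} (u : Fin e → ℤ[X]) (k H : ℕ)
    (hk : l ^ (k * h.natDegree) < (H + 1) ^ e) : ∃ c : Fin e → ℤ, c ≠ 0 ∧ (∀ i, |c i| ≤ H) ∧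
      ∀ z : PadicAlgCl l, aeval z h = 0 → ‖aeval z (∑ i, c i • u i)‖ ≤ ((l : ℝ) ^ k)⁻¹ := by
  have : NeZero (l ^ k) := ⟨pow_ne_zero _ (Fact.out : l.Prime).ne_zero⟩
  let r : (Fin e → ℤ) → ℤ_[l][X] := fun c => (∑ i, c i • u i).map (algebraMap ℤ ℤ_[l]) %ₘ h
  let φ : (Fin e → Fin (H + 1)) → Fin h.natDegree → ZMod (l ^ k) := fun c j =>
    PadicInt.toZModPow k ((r fun i => (c i : ℕ)).coeff j)
  obtain ⟨c, c', hne, he⟩ := Fintype.exists_ne_map_eq_of_card_lt φ (by
    simpa [← pow_mul] using hk)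
  refine ⟨fun i => ((c i : ℕ) : ℤ) - (c' i : ℕ), fun q => hne (funext fun i => Fin.ext ?_),
    fun i => ?_, fun z hz => ?_⟩
  · have := congrFun q i
    simp only [Pi.zero_apply] at this
    omega
  · have := (c i).2
    have := (c' i).2
    simp only [abs_le]
    omega
  have e1 : ∀ c : Fin e → ℤ, aeval z (∑ i, c i • u i) = aeval z (r c) := fun c => by
    rw [aeval_modByMonic_eq_self_of_root hz, aeval_map_algebraMap]
  have e2 : aeval z (∑ i, (((c i : ℕ) : ℤ) - (c' i : ℕ)) • u i) =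
      aeval z (r (fun i => (c i : ℕ)) - r fun i => (c' i : ℕ)) := by
    rw [map_sub, ← e1, ← e1, ← map_sub, ← sum_sub_distrib]
    simp only [sub_smul]
  rw [e2, ← eval_map_algebraMap]
  refine norm_eval_le (by positivity) (fun j => ?_) (root_le hh hz)
  rw [coeff_map, norm_alg, coeff_sub]
  rcases lt_or_ge j h.natDegree with q | q
  · rw [← zpow_natCast, ← zpow_neg, PadicInt.norm_le_pow_iff_mem_span_pow, ← PadicInt.ker_toZModPow,
      RingHom.mem_ker, map_sub, sub_eq_zero]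
    exact congrFun he ⟨j, q⟩
  · have q1 : ∀ c, (r c).coeff j = 0 := fun c => coeff_eq_zero_of_degree_lt
      ((degree_modByMonic_lt _ hh).trans_le (degree_le_natDegree.trans (by exact_mod_cast q)))
    rw [q1, q1, sub_zero, norm_zero]
    positivity

end loc

/-- degree and height of integer combinations of finitely many polynomials -/
theorem height {ι : Type} [Fintype ι] (u : ι → ℤ[X]) : ∃ (m : ℕ) (B : ℝ), 1 ≤ B ∧
    ∀ (c : ι → ℤ) (H : ℝ), (∀ i, |(c i : ℝ)| ≤ H) → 0 ≤ H →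
      (∑ i, c i • u i).natDegree ≤ m ∧ ∀ n, |((∑ i, c i • u i).coeff n : ℝ)| ≤ B * H := by
  refine ⟨univ.sup fun i => (u i).natDegree,
    1 + ∑ i, ∑ n ∈ (u i).support, |((u i).coeff n : ℝ)|, le_add_of_nonneg_right (by positivity),
    fun c H hc hH => ⟨natDegree_sum_le_of_forall_le _ _ fun i _ => (natDegree_smul_le _ _).trans
      (le_sup (f := fun i => (u i).natDegree) (mem_univ i)), fun n => ?_⟩⟩
  rw [finsetSum_coeff, add_mul, sum_mul]
  push_cast
  refine (abs_sum_le_sum_abs _ _).trans (le_add_of_nonneg_of_le (by linarith)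
    (sum_le_sum fun i _ => ?_))
  rw [coeff_smul, smul_eq_mul, Int.cast_mul, abs_mul, mul_comm]
  refine mul_le_mul ?_ (hc i) (abs_nonneg _) (by positivity)
  by_cases h : n ∈ (u i).support
  · exact single_le_sum (f := fun n => |((u i).coeff n : ℝ)|) (fun _ _ => abs_nonneg _) h
  · rw [notMem_support_iff.1 h, Int.cast_zero, abs_zero]
    positivity

end Pool.Agent.MT.BW
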