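import Pool.Agent.Lib.MP_d61fbb_ag.MT.SI0

/-! Generation, perfectness and normal subgroups of `SL₂` over a semilocal ring. -/

set_option autoImplicit false

namespace Pool.Agent.MT

open Matrix
open scoped commutatorElement

variable {l : ℕ} {R : Type} [CommRing R]

theorem si_uu_add (x y : R) : uu (x + y) = uu x * uu y := by
  ext i j; fin_cases i <;> fin_cases j <;> simp [uu, add_comm]

theorem si_ll_add (x y : R) : ll (x + y) = ll x * ll y := by
  ext i j; fin_cases i <;> fin_cases j <;> simp [ll]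

theorem si_uu_zero : uu (0 : R) = 1 := by
  ext i j; fin_cases i <;> fin_cases j <;> simp [uu]

theorem si_ll_zero : ll (0 : R) = 1 := by
  ext i j; fin_cases i <;> fin_cases j <;> simp [ll]

theorem si_uu_neg (x : R) : uu (-x) = (uu x)⁻¹ :=
  eq_inv_of_mul_eq_one_left (by rw [← si_uu_add, neg_add_cancel, si_uu_zero])

theorem si_ll_neg (x : R) : ll (-x) = (ll x)⁻¹ :=
  eq_inv_of_mul_eq_one_left (by rw [← si_ll_add, neg_add_cancel, si_ll_zero])

theorem si_uu_nat (n : ℕ) (x : R) : uu (n * x) = uu x ^ n := by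
  induction n with
  | zero => simp [si_uu_zero]
  | succ n ih => rw [Nat.cast_succ, add_mul, one_mul, si_uu_add, ih, pow_succ]

theorem si_ll_nat (n : ℕ) (x : R) : ll (n * x) = ll x ^ n := by
  induction n with
  | zero => simp [si_ll_zero]
  | succ n ih => rw [Nat.cast_succ, add_mul, one_mul, si_ll_add, ih, pow_succ]

/-- diagonal matrices -/
def si_dg (t s : R) (h : t * s = 1) : SpecialLinearGroup (Fin 2) R :=
  ⟨!![t, 0; 0, s], by simp [det_fin_two_of, h]⟩

theorem si_dg_uu {t s : R} (h : t * s = 1) (x : R) :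
    si_dg t s h * uu x * (si_dg t s h)⁻¹ = uu (t ^ 2 * x) := by
  rw [mul_inv_eq_iff_eq_mul]
  ext i j; fin_cases i <;> fin_cases j <;> simp [uu, si_dg]
  linear_combination (-t * x) * h

theorem si_dg_ll {t s : R} (h : t * s = 1) (x : R) :
    si_dg t s h * ll x * (si_dg t s h)⁻¹ = ll (s ^ 2 * x) := by
  rw [mul_inv_eq_iff_eq_mul]
  ext i j; fin_cases i <;> fin_cases j <;> simp [ll, si_dg]
  linear_combination (-s * x) * h

theorem si_dg_dg {t s t' s' : R} (h : t * s = 1) (h' : t' * s' = 1) :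
    si_dg t s h * si_dg t' s' h' * (si_dg t s h)⁻¹ = si_dg t' s' h' := by
  rw [mul_inv_eq_iff_eq_mul]
  ext i j; fin_cases i <;> fin_cases j <;> simp [si_dg, mul_comm]

/-- the Weyl element -/
def si_w (R : Type) [CommRing R] : SpecialLinearGroup (Fin 2) R :=
  ⟨!![0, -1; 1, 0], by simp [det_fin_two_of]⟩

theorem si_w_ll (x : R) : si_w R * ll (-x) * (si_w R)⁻¹ = uu x := by
  rw [mul_inv_eq_iff_eq_mul]
  ext i j; fin_cases i <;> fin_cases j <;> simp [ll, uu, si_w]

theorem si_det (g : SpecialLinearGroup (Fin 2) R) :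
    g.val 0 0 * g.val 1 1 - g.val 0 1 * g.val 1 0 = 1 := by
  rw [← det_fin_two]; exact g.2

theorem si_conj (g h : SpecialLinearGroup (Fin 2) R) : (h * g * h⁻¹).val = h.val * g.val *
    !![h.val 1 1, -h.val 0 1; -h.val 1 0, h.val 0 0] := by
  rw [SpecialLinearGroup.SL2_inv_expl]; rfl

namespace SL3
variable (H : SL3 l R) (hl : l.Prime)
include hl

theorem int_not_mem {n : ℤ} (hn : ¬ (l : ℤ) ∣ n) (i : Fin 3) : (n : R) ∉ H.P i := fun h => by
  obtain ⟨a, b, e⟩ := ((Nat.prime_iff_prime_int.1 hl).irreducible.coprime_iff_not_dvd).2 hn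
  refine (H.prime i).ne_top ((Ideal.eq_top_iff_one _).2 ?_)
  have := add_mem (Ideal.mul_mem_left _ (a : R) (H.mem i)) (Ideal.mul_mem_left _ (b : R) h)
  rwa [← Int.cast_natCast, ← Int.cast_mul, ← Int.cast_mul, ← Int.cast_add, e, Int.cast_one] at this

include H in
theorem nat_unit {n : ℕ} (h0 : 0 < n) (hn : n < l) : IsUnit (n : R) :=
  H.unit _ fun i => by
    have := H.int_not_mem hl (n := n) (fun h => by
      have := Int.le_of_dvd (by exact_mod_cast h0) h; omega) i
    rwa [Int.cast_natCast] at this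

theorem avoid (h7 : 7 ≤ l) (x : Bool → R) (c : R) (h : ∀ i b, x b ∈ H.P i → c ∉ H.P i) :
    ∃ s : ℕ, ∀ b, IsUnit (x b + s * c) := by
  by_contra h0
  have h1 : ∀ s : Fin 7, ∃ q : Fin 3 × Bool, x q.2 + ((s : ℕ) : R) * c ∈ H.P q.1 := fun s => by
    by_contra h2
    exact h0 ⟨s, fun b => H.unit _ fun i hi => h2 ⟨(i, b), hi⟩⟩
  choose f hf using h1
  obtain ⟨s, s', hne, e⟩ := Fintype.exists_ne_map_eq_of_card_lt f (by simp)
  have h2 := hf s'
  rw [← e] at h2
  have h3 : (((s : ℕ) - (s' : ℕ) : ℤ) : R) * c ∈ H.P (f s).1 := by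
    convert sub_mem (hf s) h2 using 1; push_cast; ring
  have h4 : c ∈ H.P (f s).1 := ((H.prime _).mem_or_mem h3).resolve_left
    (H.int_not_mem hl (fun hd => by
      have := Int.eq_zero_of_dvd_of_natAbs_lt_natAbs hd (by omega)
      exact hne (Fin.ext (by omega))) _)
  refine h _ (f s).2 ?_ h4
  simpa using sub_mem (hf s) (Ideal.mul_mem_left _ ((s : ℕ) : R) h4)

include H in
theorem exists_unit (h7 : 7 ≤ l) (g : SpecialLinearGroup (Fin 2) R) :
    ∃ s : R, IsUnit (g.val 1 1 + s * g.val 1 0) := by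
  obtain ⟨s, hs⟩ := H.avoid hl h7 (fun _ => g.val 1 1) (g.val 1 0) fun i _ h h' =>
    (H.prime i).ne_top ((Ideal.eq_top_iff_one _).2 (si_det g ▸
      sub_mem (Ideal.mul_mem_left _ _ h) (Ideal.mul_mem_left _ _ h')))
  exact ⟨s, hs true⟩

include H in
theorem gen (h7 : 7 ≤ l) (N : Subgroup (SpecialLinearGroup (Fin 2) R)) (hu : ∀ x, uu x ∈ N)
    (hv : ∀ x, ll x ∈ N) : N = ⊤ := by
  refine (Subgroup.eq_top_iff' _).2 fun g => ?_
  obtain ⟨s, hs⟩ := H.exists_unit hl h7 g
  obtain ⟨δ, hδ⟩ := hs.exists_right_inv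
  have e : g * uu s * ll ((1 - g.val 1 0) * δ) =
      uu (g.val 0 0 + (g.val 0 0 * s + g.val 0 1) * ((1 - g.val 1 0) * δ) - 1) * ll 1 *
        uu (g.val 1 1 + s * g.val 1 0 - 1) := by
    have := si_det g
    ext i j; fin_cases i <;> fin_cases j <;> simp [uu, ll, mul_apply, Fin.sum_univ_two]
    · linear_combination -this - (g.val 0 0 * s + g.val 0 1) * (1 - g.val 1 0) * hδ
    · linear_combination (1 - g.val 1 0) * hδ
    · ring
  exact (N.mul_mem_cancel_right (hu s)).1 ((N.mul_mem_cancel_right (hv _)).1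
    (e ▸ mul_mem (mul_mem (hu _) (hv _)) (hu _)))

/-- the level of a normal subgroup -/
def lev (h7 : 7 ≤ l) (N : Subgroup (SpecialLinearGroup (Fin 2) R)) (hN : N.Normal) : Ideal R where
  carrier := {y | ll y ∈ N}
  zero_mem' := by simp [si_ll_zero]
  add_mem' := fun ha hb => by simpa only [Set.mem_ofPred_eq, si_ll_add] using mul_mem ha hb
  smul_mem' := fun r y (hy : ll y ∈ N) => by
    obtain ⟨e, he⟩ := (H.nat_unit hl two_pos (by omega)).exists_right_inv
    have h1 : ∀ t : R, IsUnit t → ll ((e * t) ^ 2 * y) ∈ N := fun t ht => by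
      obtain ⟨s, hs⟩ := ((IsUnit.of_mul_eq_one_right _ he).mul ht).exists_left_inv
      exact si_dg_ll hs y ▸ hN.conj_mem _ hy _
    obtain ⟨s, hs⟩ := H.avoid hl h7 (fun b => if b then r + 1 else r - 1) 1 fun i _ _ h =>
      (H.prime i).ne_top ((Ideal.eq_top_iff_one _).2 h)
    have h2 := mul_mem (mul_mem (h1 _ (hs true)) (inv_mem (h1 _ (hs false))))
      (inv_mem (pow_mem hy s))
    rw [← si_ll_nat, ← si_ll_neg, ← si_ll_neg, ← si_ll_add, ← si_ll_add] at h2
    show ll (r * y) ∈ N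
    convert h2 using 2
    simp only [Nat.cast_ofNat] at he
    simp only [if_true, Bool.false_eq_true, if_false]
    linear_combination (-(r + s) * y * (1 + 2 * e)) * he

theorem top_of_lev (h7 : 7 ≤ l) {N : Subgroup (SpecialLinearGroup (Fin 2) R)} (hN : N.Normal)
    (h : H.lev hl h7 N hN = ⊤) : N = ⊤ :=
  have hv : ∀ x, ll x ∈ N := fun x => show x ∈ H.lev hl h7 N hN from h ▸ Submodule.mem_top
  H.gen hl h7 N (fun x => si_w_ll x ▸ hN.conj_mem _ (hv _) _) hv

theorem mem_lev (h7 : 7 ≤ l) {N : Subgroup (SpecialLinearGroup (Fin 2) R)} (hN : N.Normal)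
    {g : SpecialLinearGroup (Fin 2) R} (hg : g ∈ N) : g.val 1 0 ∈ H.lev hl h7 N hN := by
  obtain ⟨e, he⟩ := (H.nat_unit hl two_pos (by omega)).exists_right_inv
  simp only [Nat.cast_ofNat] at he
  wlog hd : IsUnit (g.val 1 1) generalizing g
  · obtain ⟨s, hs⟩ := H.exists_unit hl h7 g
    have h1 := this (hN.conj_mem _ hg (uu (-s))) (by
      rw [si_conj]; convert hs using 1; simp [uu, mul_apply, vecMul, dotProduct, Fin.sum_univ_two]; ring)
    rw [si_conj] at h1
    simpa [uu, mul_apply, vecMul, dotProduct, Fin.sum_univ_two] using h1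
  obtain ⟨δ, hδ⟩ := hd.exists_left_inv
  have e1 : g = uu (g.val 0 1 * δ) * si_dg δ _ hδ * ll (g.val 1 0 * δ) := by
    have := si_det g
    ext i j; fin_cases i <;> fin_cases j <;> simp [uu, ll, si_dg, mul_apply, Fin.sum_univ_two]
    · linear_combination δ * this - (g.val 0 0 + g.val 0 1 * g.val 1 0 * δ) * hδ
    · linear_combination (-g.val 0 1) * hδ
    · linear_combination (-g.val 1 0) * hδ
  let π := QuotientGroup.mk' N
  have hπ : ∀ x, π x = 1 ↔ x ∈ N := fun x => QuotientGroup.eq_one_iff x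
  have cj : ∀ (β γ : R) (Δ), si_dg 2 e he * Δ * (si_dg 2 e he)⁻¹ = Δ → uu β * Δ * ll γ ∈ N →
      π (uu β) ^ 4 * π Δ * π (ll (e ^ 2 * γ)) = 1 := fun β γ Δ hΔ h => by
    rw [← map_pow, ← si_uu_nat, ← map_mul, ← map_mul, hπ, ← si_dg_ll he, ← hΔ,
      show ((4 : ℕ) : R) = 2 ^ 2 by norm_num, ← si_dg_uu he]
    convert hN.conj_mem _ h (si_dg 2 e he) using 1
    group
  generalize g.val 0 1 * δ = β at e1
  set γ := g.val 1 0 * δ with hγ
  have h1 := (hπ _).2 (e1 ▸ hg)
  have h2 := cj _ _ _ (si_dg_dg he hδ) (e1 ▸ hg)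
  have h3 : π (uu (((3 : ℕ) : R) * β) * 1 * ll (-γ + e ^ 2 * γ)) = 1 := by
    rw [map_mul, map_mul] at h1
    rw [← h2, mul_one, map_mul, si_uu_nat, si_ll_add, si_ll_neg, map_pow, map_mul, map_inv,
      eq_inv_of_mul_eq_one_right h1]
    group
  have h4 := cj _ _ 1 (by simp) ((hπ _).1 h3)
  rw [mul_one, map_mul] at h3
  rw [eq_inv_of_mul_eq_one_left h3, map_one, mul_one, ← map_inv, ← map_pow, ← si_ll_neg,
    ← si_ll_nat, ← map_mul, ← si_ll_add, hπ] at h4
  obtain ⟨a, ha⟩ := (((H.nat_unit hl (n := 3) (by omega) (by omega)).pow 2).mul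
    (H.nat_unit hl (n := 5) (by omega) (by omega))).exists_left_inv
  have h5 := (H.lev hl h7 N hN).mul_mem_left (16 * a * g.val 1 1) h4
  convert h5 using 1
  simp only [Nat.cast_ofNat] at ha ⊢
  rw [hγ]
  linear_combination (-g.val 1 0) * ha - 45 * a * g.val 1 0 * hδ -
    a * g.val 1 1 * g.val 1 0 * δ * (2 * e + 1) * (4 * e ^ 2 - 19) * he

end SL3

theorem si_b : SI_B := fun l hl h17 R _ H => by
  have h7 : 7 ≤ l := by omega
  refine ⟨H.gen hl h7, H.top_of_lev hl h7 inferInstance ((Ideal.eq_top_iff_one _).2 ?_),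
    fun N hN h => ?_⟩
  · obtain ⟨e, he⟩ := (H.nat_unit hl two_pos (by omega)).exists_left_inv
    obtain ⟨a, ha⟩ := (H.nat_unit hl (n := 3) (by omega) (by omega)).exists_left_inv
    simp only [Nat.cast_ofNat] at he ha
    have : ⁅si_dg e 2 he, ll a⁆ ∈ commutator (SpecialLinearGroup (Fin 2) R) :=
      Subgroup.commutator_mem_commutator (Subgroup.mem_top _) (Subgroup.mem_top _)
    rw [commutatorElement_def, si_dg_ll, ← si_ll_neg, ← si_ll_add] at this
    show ll (1 : R) ∈ commutator _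
    convert this using 2
    linear_combination -ha
  · have h1 : ∃ i, H.lev hl h7 N hN ≤ H.P i := by
      have := (Ideal.subset_union_prime (s := Finset.univ) (f := H.P) 0 0
        (fun i _ _ _ => H.prime i) (I := H.lev hl h7 N hN)).1 fun x hx => by
          by_contra h0
          exact h (H.top_of_lev hl h7 hN (Ideal.eq_top_of_isUnit_mem _ hx
            (H.unit _ fun i hi => h0 (Set.mem_biUnion (Finset.mem_coe.2 (Finset.mem_univ i)) hi))))
      exact this.imp fun _ h => h.2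
    refine h1.imp fun i hi g hg => ?_
    have h2 := hi (H.mem_lev hl h7 hN hg)
    have h3 := hi (H.mem_lev hl h7 hN (hN.conj_mem _ hg (si_w R)))
    have h4 := hi (H.mem_lev hl h7 hN (hN.conj_mem _ hg (ll 1)))
    rw [si_conj] at h3 h4
    have h5 : g.val 0 1 ∈ H.P i := by
      simpa [si_w, mul_apply, vecMul, dotProduct, Fin.sum_univ_two] using h3
    refine ⟨h2, h5, ?_⟩
    convert add_mem (sub_mem h4 h2) h5 using 1
    simp [ll, mul_apply, vecMul, dotProduct, Fin.sum_univ_two]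
    ring

end Pool.Agent.MT
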