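import Pool.Agent.Lib.MP_d61fbb_ag.MT.I0

/-! Theta vectors of polarised lattices: an explicit construction. -/

set_option autoImplicit false

noncomputable section

namespace Pool.Agent.MT

open Matrix Sum

/-- the prime two -/
abbrev p2 : Pr := ⟨2, Nat.prime_two⟩

theorem gx_L0 {x : W} : x ∈ L0 ↔ ∀ i, x i ∈ Zh := ⟨fun h i => h i trivial, fun h i _ => h i⟩

theorem gx_Ef_mem {R : Type*} [CommRing R] (A : Subring R) {x y : I2 4 → R} (hx : ∀ i, x i ∈ A)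
    (hy : ∀ i, y i ∈ A) : Ef x y ∈ A :=
  A.sub_mem (A.sum_mem fun _ _ => A.mul_mem (hx _) (hy _))
    (A.sum_mem fun _ _ => A.mul_mem (hx _) (hy _))

theorem gx_Qf_mem {R : Type*} [CommRing R] (A : Subring R) {x : I2 4 → R} (hx : ∀ i, x i ∈ A) :
    Qf x ∈ A := by
  unfold Qf dotProduct
  exact A.sum_mem fun _ _ => A.mul_mem (hx _) (hx _)

theorem gx_Zh {x : AF} : x ∈ Zh ↔ ∀ l : Pr, ‖cp l x‖ ≤ 1 := Iff.rfl

theorem gx_cp_sg (l : Pr) (a : ℚ_[l]) : cp l (sg l a) = a := Pi.single_eq_same _ _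

theorem gx_cp_sg_ne {l l' : Pr} (h : l' ≠ l) (a : ℚ_[l]) : cp l' (sg l a) = 0 :=
  Pi.single_eq_of_ne h _

theorem gx_qsmul (c : ℚ) (x : AF) : c • x = qa c * x := Algebra.smul_def c x

theorem gx_qsmul' (c : ℚ) (x : W) : c • x = qa c • x := (algebraMap_smul AF c x).symm

theorem gx_half_norm {l : Pr} (h : l ≠ p2) : ‖(2 : ℚ_[l])⁻¹‖ = 1 := by
  have h1 : ‖((p2 : ℕ) : ℚ_[l])‖ = 1 := padic_norm_prime_ne h
  rw [norm_inv, show (2 : ℚ_[l]) = ((p2 : ℕ) : ℚ_[l]) from by simp, h1, inv_one]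

/-- adeles that are integral at two -/
def Z2 : Subring AF := (PadicInt.subring 2).comap (cp p2).toRingHom

theorem mem_Z2 {x : AF} : x ∈ Z2 ↔ ‖cp p2 x‖ ≤ 1 := Iff.rfl

theorem gx_sg_mul {x : AF} (hx : x ∈ Z2) : sg p2 1 * x ∈ Zh := fun l => by
  change ‖cp l (sg p2 1 * x)‖ ≤ 1
  rw [map_mul]
  by_cases h : l = p2
  · subst h
    rw [gx_cp_sg, one_mul]
    exact hx
  · rw [gx_cp_sg_ne h, zero_mul, norm_zero]
    exact zero_le_one

variable {k : Type} [Field k]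

theorem gx_e_sum (e : AddChar AF k) {α : Type} (T : Finset α) (f : α → AF) :
    e (∑ a ∈ T, f a) = ∏ a ∈ T, e (f a) := by
  classical
  induction T using Finset.induction_on with
  | empty => simp
  | insert a T ha ih => rw [Finset.sum_insert ha, Finset.prod_insert ha, AddChar.map_add_eq_mul, ih]

theorem gx_Rt_Rt (e : AddChar AF k) (m : ℕ) (s t : W) (f : W → k) :
    Rt e m s (Rt e m t f) = e (((m : ℚ) / 2) • Ef t s) • Rt e m (s + t) f := by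
  funext x
  simp only [Rt, Pi.smul_apply, smul_eq_mul, Ef_add_left, Ef_add_right, smul_add,
    AddChar.map_add_eq_mul, add_assoc]
  ring

theorem gx_Rt_comm (e : AddChar AF k) (m : ℕ) (s t : W) (f : W → k) :
    Rt e m s (Rt e m t f) = e ((m : AF) * Ef t s) • Rt e m t (Rt e m s f) := by
  rw [gx_Rt_Rt, gx_Rt_Rt, smul_smul, ← AddChar.map_add_eq_mul, add_comm t s, Ef_swap s t]
  congr 2
  rw [← map_natCast (algebraMap ℚ AF), ← Algebra.smul_def]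
  module

theorem gx_Rt_smul (e : AddChar AF k) (m : ℕ) (s : W) (c : k) (f : W → k) :
    Rt e m s (c • f) = c • Rt e m s f := by
  funext x
  simp only [Rt, Pi.smul_apply, smul_eq_mul]
  ring

theorem gx_Rt_sum (e : AddChar AF k) (m : ℕ) (s : W) {α : Type} (T : Finset α) (f : α → W → k) :
    Rt e m s (∑ a ∈ T, f a) = ∑ a ∈ T, Rt e m s (f a) := by
  funext x
  simp only [Rt, Finset.sum_apply, Finset.mul_sum]

theorem gx_Rt_zero (e : AddChar AF k) (m : ℕ) (f : W → k) : Rt e m 0 f = f := by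
  funext x
  simp [Rt]

theorem gx_Rt_ne (e : AddChar AF k) (m : ℕ) (s : W) {f : W → k} (hf : f ≠ 0) :
    Rt e m s f ≠ 0 := fun h => by
  have h1 := gx_Rt_Rt e m (-s) s f
  rw [h, neg_add_cancel, gx_Rt_zero, Ef_neg_right, Ef_self, neg_zero, smul_zero,
    AddChar.map_zero_eq_one, one_smul] at h1
  refine hf (h1.symm.trans (funext fun x => ?_))
  simp [Rt]

/-- products of four translates -/
def g4 (e : AddChar AF k) (Θ : W → k) (n : Fin 4 → ℤ) (t : Fin 4 → W) : W → k :=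
  fun x => ∏ i, Rt e 1 (t i) Θ (n i • x)

theorem gx_Rt_prod (e : AddChar AF k) {N : ℕ} {n : Fin 4 → ℤ} (hn : ∑ i, n i ^ 2 = N) (s : W)
    (f : Fin 4 → W → k) (x : W) :
    Rt e N s (fun y => ∏ i, f i (n i • y)) x = ∏ i, Rt e 1 (n i • s) (f i) (n i • x) := by
  have h0 : ∀ i, n i • (x + s) = n i • x + n i • s := fun i => smul_add (n i) x s
  simp only [Rt, Finset.prod_mul_distrib, h0]
  congr 1
  rw [← gx_e_sum]
  congr 1
  have h1 : ∀ i, (((1 : ℕ) : ℚ) / 2) • Ef (n i • s) (n i • x)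
      = (((n i ^ 2 : ℤ) : ℚ) / 2) • Ef s x := fun i => by
    rw [← Int.cast_smul_eq_zsmul AF, ← Int.cast_smul_eq_zsmul AF (n i) x, Ef_smul_left,
      Ef_smul_right, gx_qsmul, gx_qsmul, qa, qa]
    simp only [div_eq_mul_inv, map_mul, map_intCast, Int.cast_pow, map_pow, Nat.cast_one, one_mul]
    ring
  simp only [h1]
  rw [← Finset.sum_smul, ← Finset.sum_div, ← Int.cast_sum, hn, Int.cast_natCast]

/-- a root of unity times a product of four translates -/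
def E4 (e : AddChar AF k) (Θ : W → k) (n : Fin 4 → ℤ) (f : W → k) : Prop :=
  ∃ (a : AF) (t : Fin 4 → W), f = e a • g4 e Θ n t

theorem E4.smul {e : AddChar AF k} {Θ : W → k} {n : Fin 4 → ℤ} {f : W → k} (h : E4 e Θ n f)
    (b : AF) : E4 e Θ n (e b • f) := by
  obtain ⟨a, t, rfl⟩ := h
  exact ⟨b + a, t, by rw [smul_smul, AddChar.map_add_eq_mul]⟩

theorem E4.Rt {e : AddChar AF k} {Θ : W → k} {N : ℕ} {n : Fin 4 → ℤ} (hn : ∑ i, n i ^ 2 = N)
    {f : W → k} (h : E4 e Θ n f) (s : W) : E4 e Θ n (Rt e N s f) := by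
  obtain ⟨a, t, rfl⟩ := h
  rw [gx_Rt_smul]
  refine E4.smul ⟨∑ i, (((1 : ℕ) : ℚ) / 2) • Ef (t i) (n i • s), fun i => n i • s + t i,
    funext fun x => ?_⟩ a
  unfold g4
  rw [gx_Rt_prod e hn]
  simp only [gx_Rt_Rt, Pi.smul_apply, smul_eq_mul, Finset.prod_mul_distrib,
    gx_e_sum]

theorem E4.val {e : AddChar AF k} {Θ : W → k} {n : Fin 4 → ℤ} {f : W → k} (h : E4 e Θ n f)
    (x : W) : ∃ (a : AF) (z : Fin 4 → W), f x = e a * ∏ i, Θ (z i) := by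
  obtain ⟨a, t, rfl⟩ := h
  refine ⟨a + ∑ i, (((1 : ℕ) : ℚ) / 2) • Ef (t i) (n i • x), fun i => n i • x + t i, ?_⟩
  simp only [g4, MT.Rt, Pi.smul_apply, smul_eq_mul, Finset.prod_mul_distrib,
    gx_e_sum, AddChar.map_add_eq_mul, mul_assoc]

theorem E4.mem {e : AddChar AF k} {Θ : W → k} {N : ℕ} {n : Fin 4 → ℤ} (hn : ∑ i, n i ^ 2 = N)
    {f : W → k} (h : E4 e Θ n f) : f ∈ Gs 0 e Θ N := by
  obtain ⟨a, t, rfl⟩ := h
  refine Submodule.smul_mem _ _ (Submodule.subset_span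
    ⟨Finset.univ.val.map fun i => (n i, t i), ?_, fun i l hl => absurd hl l.2.ne_zero, ?_⟩)
  · rw [← hn, wt, Multiset.map_map]
    rfl
  · funext x
    rw [gen, Multiset.map_map]
    rfl

namespace TSys
variable {q : ℕ} (S : TSys k q)

theorem gx_one {x : AF} (hx : x ∈ Zh) : S.e x = 1 := (S.ker x).2 fun l _ => hx l

theorem gx_congr {x y : AF} (h : x - y ∈ Zh) : S.e x = S.e y := by
  rw [← sub_add_cancel x y, AddChar.map_add_eq_mul, S.gx_one h, one_mul]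

theorem gx_sgn_sq {s : W} (hs : ∀ i, s i ∈ Z2) : sgn S.e s * sgn S.e s = 1 := by
  rw [sgn, ← AddChar.map_add_eq_mul, ← mul_add, ← add_smul]
  norm_num
  exact S.gx_one (gx_sg_mul (gx_Qf_mem Z2 hs))

theorem gx_sgn_add {s t : W} (hs : ∀ i, s i ∈ Z2) (ht : ∀ i, t i ∈ Z2) :
    sgn S.e (s + t) = sgn S.e s * sgn S.e t * S.e (sg p2 1 * (1 / 2 : ℚ) • Ef s t) := by
  simp only [sgn, ← AddChar.map_add_eq_mul]
  refine S.gx_congr ?_
  have h1 : sg p2 1 * (1 / 2 : ℚ) • Qf (s + t) - (sg p2 1 * (1 / 2 : ℚ) • Qf s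
      + sg p2 1 * (1 / 2 : ℚ) • Qf t + sg p2 1 * (1 / 2 : ℚ) • Ef s t)
      = sg p2 1 * (s ∘ inr) ⬝ᵥ (t ∘ inl) := by
    rw [Qf_add, two_mul, ← mul_add, ← mul_add, ← mul_sub]
    congr 1
    module
  rw [h1]
  exact gx_sg_mul (Z2.sum_mem fun _ _ => Z2.mul_mem (hs _) (ht _))

theorem gx_sgn_two {s : W} (hs : ∀ i, s i ∈ Z2) : sgn S.e (s + s) = 1 := by
  rw [S.gx_sgn_add hs hs, S.gx_sgn_sq hs]
  simp

end TSys

theorem gx_zA_mem (u : ∀ l : Pr, ℤ_[l]) : zA u ∈ Zh := fun l => (u l).2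

theorem Pt.z2 {N : ℕ} {h : M8 AF} (P : Pt N h) {t : W} (ht : t ∈ L0) (i : I2 4) :
    (h *ᵥ t) i ∈ Z2 := by
  have h1 := (P.two (cpv p2 t)).2 (fun i => mem_L0.1 ht i p2) i
  rw [mem_Z2]
  have h2 : cp p2 ((h *ᵥ t) i) = (h.map (cp p2) *ᵥ cpv p2 t) i :=
    RingHom.map_mulVec (cp p2).toRingHom h t i
  rw [h2]
  exact h1

theorem Pt.ef {N : ℕ} {h : M8 AF} (P : Pt N h) {t t' : W} (ht : t ∈ L0) (ht' : t' ∈ L0) :
    (N : AF) * Ef (h *ᵥ t) (h *ᵥ t') ∈ Zh := by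
  obtain ⟨u, hu⟩ := P.sim
  rw [hu]
  exact Zh.mul_mem (gx_zA_mem _) (gx_Ef_mem Zh (gx_L0.1 ht) (gx_L0.1 ht'))

/-- the translations with sign -/
def TT (e : AddChar AF k) (N : ℕ) (s : W) (f : W → k) : W → k := sgn e s • Rt e N s f

theorem TSys.gx_TT {q : ℕ} (S : TSys k q) {N : ℕ} {h : M8 AF} (P : Pt N h) {t t' : W}
    (ht : t ∈ L0) (ht' : t' ∈ L0) (f : W → k) :
    TT S.e N (h *ᵥ t) (TT S.e N (h *ᵥ t') f) = TT S.e N (h *ᵥ (t + t')) f := by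
  rw [TT, TT, TT, gx_Rt_smul, gx_Rt_Rt, mulVec_add, S.gx_sgn_add (P.z2 ht) (P.z2 ht'), smul_smul,
    smul_smul]
  congr 2
  refine S.gx_congr (gx_Zh.2 fun l => ?_)
  have h1 := gx_Zh.1 (P.ef ht' ht) l
  rw [map_sub, map_mul, gx_qsmul, gx_qsmul, map_mul, map_mul, Ef_swap (h *ᵥ t), map_neg,
    AlgHom.commutes, AlgHom.commutes]
  rw [map_mul, map_natCast] at h1
  simp only [eq_ratCast, Rat.cast_div, Rat.cast_natCast, Rat.cast_ofNat, Rat.cast_one]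
  by_cases hl : l = p2
  · subst hl
    obtain ⟨m, hm⟩ := P.odd
    have h2 : ‖cp p2 (Ef (h *ᵥ t') (h *ᵥ t))‖ ≤ 1 := gx_Ef_mem Z2 (P.z2 ht') (P.z2 ht)
    have h3 : (N : ℚ_[p2]) / 2 * cp p2 (Ef (h *ᵥ t') (h *ᵥ t))
        - cp p2 (sg p2 1) * (1 / 2 * -cp p2 (Ef (h *ᵥ t') (h *ᵥ t)))
        = ((m + 1 : ℕ) : ℚ_[p2]) * cp p2 (Ef (h *ᵥ t') (h *ᵥ t)) := by
      rw [gx_cp_sg, hm]
      push_cast
      ring
    rw [h3]
    exact padic_mul_le (padic_nat_le _ _) h2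
  · rw [gx_cp_sg_ne hl, zero_mul, sub_zero, div_eq_mul_inv, mul_right_comm, norm_mul,
      gx_half_norm hl, mul_one]
    exact h1

end Pool.Agent.MT
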