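import Pool.Agent.Lib.MP_d61fbb_ag.MT.I1
import Pool.Agent.Lib.MP_d61fbb_ag.MT.H4
import Pool.Agent.Lib.MP_d61fbb_ag.MT.GX1

/-! The relation of Riemann for the theta vector of a polarised lattice. -/

set_option autoImplicit false

noncomputable section

namespace Pool.Agent.MT

open Matrix Sum
open Pool.Agent.Lib.MP_696deb_nt.B2 (Qbar jC)

/-- the half periods at two -/
def hw2 (η : I2 4 → ZMod 2) : W := sgv p2 fun i => ((η i).val : ℚ_[p2]) / 2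

theorem vr_ext {x y : AF} (h : ∀ l, cp l x = cp l y) : x = y := Subtype.ext (funext h)

/-- the idempotent at two -/
def e2 : AF := sg p2 1

theorem cp_e2 : cp p2 e2 = 1 := gx_cp_sg _ _

theorem cp_e2_ne {l : Pr} (h : l ≠ p2) : cp l e2 = 0 := gx_cp_sg_ne h _

theorem e2_sq : e2 * e2 = e2 := vr_ext fun l => by
  rw [map_mul]
  by_cases h : l = p2
  · rw [h, cp_e2, one_mul]
  · rw [cp_e2_ne h, zero_mul]

theorem e2_mem : e2 ∈ Zh := mul_one e2 ▸ gx_sg_mul Z2.one_mem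

theorem e2_half : (1 - e2) * qa (1 / 2) ∈ Zh := gx_Zh.2 fun l => by
  rw [map_mul, map_sub, map_one, AlgHom.commutes]
  by_cases hl : l = p2
  · rw [hl, cp_e2, sub_self, zero_mul, norm_zero]
    exact zero_le_one
  · rw [cp_e2_ne hl, sub_zero, one_mul, one_div, map_inv₀, map_ofNat, gx_half_norm hl]

theorem e2_odd {N : ℕ} (hN : Odd N) : e2 * qa (N : ℚ)⁻¹ ∈ Zh := by
  refine gx_sg_mul (mem_Z2.2 ?_)
  rw [AlgHom.commutes, eq_ratCast, Rat.cast_inv, norm_inv, Rat.cast_natCast,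
    Padic.norm_natCast_eq_one_iff.2 (Nat.coprime_two_left.2 hN), inv_one]

theorem vr_chi {u : AF} (hu : u ∈ Zh) {N : ℕ} (hN : Odd N) {x y : W} (hy : y ∈ L0)
    (e : e2 • y = e2 • x) :
    (1 / 2 : ℚ) • (((1 - e2) * u + e2 * N) * Qf y) - e2 * (1 / 2 : ℚ) • Qf x ∈ Zh := by
  have h1 := gx_Qf_mem Zh (gx_L0.1 hy)
  have h3 : ∀ x : W, Qf (e2 • x) = e2 * Qf x := fun x => by
    rw [Qf, Pi.smul_comp, Pi.smul_comp, smul_dotProduct, dotProduct_smul, smul_smul, e2_sq]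
    rfl
  have h2 : e2 * Qf x = e2 * Qf y := (h3 x).symm.trans ((congrArg Qf e.symm).trans (h3 y))
  obtain ⟨n, rfl⟩ := hN
  have h4 : qa (1 / 2) * 2 = 1 := by
    rw [← map_ofNat (algebraMap ℚ AF), ← map_mul, one_div_mul_cancel two_ne_zero, map_one]
  convert Zh.mul_mem (Zh.add_mem (Zh.mul_mem e2_half hu)
    (Zh.mul_mem e2_mem (natCast_mem Zh n))) h1 using 1
  rw [gx_qsmul, gx_qsmul]
  push_cast
  linear_combination -qa (1 / 2) * h2 + e2 * n * Qf y * h4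

theorem e2_orth : (1 - e2) * e2 = 0 := by rw [sub_mul, one_mul, e2_sq, sub_self]

theorem vr_unit (u : (∀ l : Pr, ℤ_[l])ˣ) {N : ℕ} (hN : Odd N) :
    ∃ U : Zhˣ, ((U : Zh) : AF) = (1 - e2) * zA u + e2 * N := by
  have h1 : (N : AF) * qa (N : ℚ)⁻¹ = 1 := by
    rw [← map_natCast (algebraMap ℚ AF), ← map_mul,
      mul_inv_cancel₀ (Nat.cast_ne_zero.2 hN.pos.ne'), map_one]
  have hz : zA u * zA (u⁻¹ : (∀ l : Pr, ℤ_[l])ˣ) = 1 := by rw [← map_mul, u.mul_inv, map_one]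
  have u1 : ((1 - e2) * zA u + e2 * N) * ((1 - e2) * zA (u⁻¹ : (∀ l : Pr, ℤ_[l])ˣ) +
      e2 * qa (N : ℚ)⁻¹) = 1 := by
    linear_combination (1 - e2) ^ 2 * hz + e2 ^ 2 * h1 +
      (zA u * qa (N : ℚ)⁻¹ + N * zA (u⁻¹ : (∀ l : Pr, ℤ_[l])ˣ) - 2) * e2_orth
  have m1 := Zh.sub_mem Zh.one_mem e2_mem
  exact ⟨Units.mkOfMulEqOne ⟨_, Zh.add_mem (Zh.mul_mem m1 (gx_zA_mem u))
    (Zh.mul_mem e2_mem (natCast_mem Zh N))⟩ ⟨_, Zh.add_mem (Zh.mul_mem m1 (gx_zA_mem _))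
    (e2_odd hN)⟩ (Subtype.ext u1), rfl⟩

theorem vr_equiv (H : (M8 AF)ˣ) : ∃ γ : W ≃ₗ[AF] W,
    (∀ x, γ.symm x = (1 - e2) • H.val *ᵥ x + e2 • x) ∧
      ∀ x, γ x = (1 - e2) • (H⁻¹).val *ᵥ x + e2 • x := by
  have e3 : e2 * (1 - e2) = 0 := by rw [mul_comm, e2_orth]
  have e4 : (1 - e2) * (1 - e2) = 1 - e2 := by rw [mul_sub, mul_one, e2_orth, sub_zero]
  have k : ∀ A B : M8 AF, A * B = 1 →
      ((1 - e2) • A + e2 • 1) * ((1 - e2) • B + e2 • (1 : M8 AF)) = 1 := fun A B e => by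
    simp only [add_mul, mul_add, smul_mul_smul_comm, e, e2_orth, e3, e4, e2_sq, zero_smul, mul_one]
    module
  have g0 : ∀ (A : M8 AF) (x : W), ((1 - e2) • A + e2 • 1) *ᵥ x = (1 - e2) • A *ᵥ x + e2 • x :=
    fun A x => by rw [add_mulVec, smul_mulVec, smul_mulVec, one_mulVec]
  exact ⟨toLin'OfInv (k _ _ H.mul_inv) (k _ _ H.inv_mul), g0 _, g0 _⟩

/-- The frame of a polarised lattice. -/
theorem Pt.frame {N : ℕ} {h : M8 AF} (P : Pt N h) : ∃ φ : Frame N (Fin 4),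
    (∀ x, e2 • φ.γ x = e2 • x) ∧ (∀ m ∈ φ.L, ∃ t ∈ L0, m = h *ᵥ t) ∧
      ∀ m ∈ φ.L, φ.chi m = psi (e2 * (1 / 2 : ℚ) • Qf m) := by
  obtain ⟨u, hu⟩ := P.sim
  obtain ⟨H, rfl⟩ := P.unit
  obtain ⟨U, hU⟩ := vr_unit u P.odd
  obtain ⟨γ, g1, g2⟩ := vr_equiv H
  have e3 : e2 * (1 - e2) = 0 := by rw [mul_comm, e2_orth]
  let φ : Frame N (Fin 4) :=
    { γ := γ.symm
      u := U
      sim := fun x y => by
        rw [g1, g1, gx_qsmul, qa, map_natCast, hU]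
        simp only [Ef_add_left, Ef_add_right, Ef_smul_left, Ef_smul_right]
        linear_combination (1 - e2) ^ 2 * hu x y + (N * (Ef (H.val *ᵥ x) y + Ef x (H.val *ᵥ y) -
          Ef x y) - zA u * Ef x y) * e2_orth }
  have g3 : ∀ m, e2 • γ m = e2 • m := fun m => by
    rw [g2, smul_add, smul_smul, smul_smul, e3, e2_sq, zero_smul, zero_add]
  have g4 : ∀ m i, cp p2 (γ m i) = cp p2 (m i) := fun m i => by
    have := congrArg (cp p2) (congrFun (g3 m) i)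
    rwa [Pi.smul_apply, Pi.smul_apply, smul_eq_mul, smul_eq_mul, map_mul, map_mul, cp_e2, one_mul,
      one_mul] at this
  refine ⟨φ, fun x => ?_, fun m hm => ⟨(H⁻¹).val *ᵥ m, mem_L0.2 fun i l => ?_,
    by rw [mulVec_mulVec, H.mul_inv, one_mulVec]⟩, fun m hm => psi_congr ?_⟩
  · change e2 • γ.symm x = _
    rw [← g3, γ.apply_symm_apply]
  · have h1 := mem_L0.1 (show γ m ∈ L0 from hm)
    by_cases hl : l = p2
    · subst hl
      refine (P.two (cpv p2 ((H⁻¹).val *ᵥ m))).1 (fun j => ?_) i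
      have : cp p2 ((H.val *ᵥ (H⁻¹).val *ᵥ m) j) =
          (H.val.map (cp p2) *ᵥ cpv p2 ((H⁻¹).val *ᵥ m)) j :=
        RingHom.map_mulVec (cp p2).toRingHom _ _ j
      rw [← this, mulVec_mulVec, H.mul_inv, one_mulVec, ← g4]
      exact h1 j p2
    · simpa only [g2, Pi.add_apply, Pi.smul_apply, smul_eq_mul, map_add, map_mul, map_sub, map_one,
        cp_e2_ne hl, sub_zero, one_mul, zero_mul, add_zero] using h1 i l
  · have := vr_chi (gx_zA_mem u) P.odd hm (g3 m)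
    rwa [← hU] at this

theorem TSys.e_int {q : ℕ} (S : TSys Qbar q) (x : AF) : IsIntegral ℤ (S.e x) := by
  obtain ⟨n, hn, hx⟩ := af_den x
  refine IsIntegral.of_pow (Nat.pos_of_ne_zero hn) ?_
  rw [← AddChar.map_nsmul_eq_pow, nsmul_eq_mul, S.gx_one hx]
  exact isIntegral_one

theorem vr_th (gh : GH) {τ : Matrix (Fin 4) (Fin 4) ℂ} {K : IntermediateField ℚ ℂ}
    {M : MumfordType τ K} (A : AR M) (hτ : Sieg τ) {N : ℕ} {h : M8 AF} {F : W → Qbar}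
    (P : Pt N h) (hF : A.S.IsVec N h F) (h0 : F ≠ 0) : ∃ φ : Frame N (Fin 4),
      (φ.IsTh τ fun x => jC (F x)) ∧ ∀ η, ∃ m ∈ φ.L, φ.hp η = hw2 η + m := by
  obtain ⟨φ, h1, h2, h3⟩ := P.frame
  have h4 : ∀ η, e2 • qv' (hq η) = hw2 η := fun η => funext fun i => vr_ext fun l => by
    rw [Pi.smul_apply, smul_eq_mul, map_mul, hw2, sgv]
    by_cases hl : l = p2
    · subst hl
      rw [cp_e2, gx_cp_sg, one_mul, AlgHom.commutes, hq, map_div₀, map_natCast, map_ofNat]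
    · rw [cp_e2_ne hl, gx_cp_sg_ne hl, zero_mul]
  refine ⟨φ, ⟨(gh τ hτ K M A N P.odd.pos F).1 hF.mem, fun e => h0 (funext fun x =>
    jC.injective ((congrFun e x).trans (map_zero _).symm)), fun m hm => funext fun x => ?_⟩,
    fun η => ⟨φ.γ ((1 - e2) • qv' (hq η)), φ.map_mem_L.2 (gx_L0.2 fun i => ?_), ?_⟩⟩
  · obtain ⟨t, ht, rfl⟩ := h2 m hm
    have := congrArg jC (congrFun (hF.inv t ht fun i l hl => absurd hl l.2.ne_zero) x)
    rw [Rt, Pi.smul_apply, smul_eq_mul, map_mul, map_mul, sgn, A.cxe, A.cxe] at this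
    rw [h3 _ hm]
    exact this
  · convert Zh.mul_mem e2_half (natCast_mem Zh (η i).val) using 1
    rw [mul_assoc, ← map_natCast (algebraMap ℚ AF), ← map_mul, one_div_mul_eq_div]
    rfl
  · rw [← h4, ← h1, map_smul, ← add_smul, add_sub_cancel, one_smul, Frame.hp]

theorem vec_nv (gh : GH) {τ : Matrix (Fin 4) (Fin 4) ℂ} {K : IntermediateField ℚ ℂ}
    {M : MumfordType τ K} (A : AR M) (hτ : Sieg τ) {N : ℕ} {h : M8 AF} {F : W → Qbar}
    (P : Pt N h) (hF : A.S.IsVec N h F) (h0 : F ≠ 0) (z : W) : ∃ η, F (hw2 η + z) ≠ 0 := by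
  obtain ⟨φ, hf, h5⟩ := vr_th gh A hτ P hF h0
  obtain ⟨η, hη⟩ := hf.exists_ne (siegI_iff.2 hτ) (Nat.cast_pos.2 P.odd.pos) z
  obtain ⟨m, hm, e⟩ := h5 η
  refine ⟨η, fun h => hη ?_⟩
  simp only [e, ← add_assoc, h4_tr hf hm]
  rw [add_comm z, h, map_zero]
  simp

theorem vec_riem (gh : GH) {τ : Matrix (Fin 4) (Fin 4) ℂ} {K : IntermediateField ℚ ℂ}
    {M : MumfordType τ K} (A : AR M) (hτ : Sieg τ) {N : ℕ} {h : M8 AF} {F : W → Qbar}
    (P : Pt N h) (hF : A.S.IsVec N h F) : ∃ c : (I2 4 → ZMod 2) → Qbar,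
      (∀ η, IsIntegral ℤ (c η)) ∧ ∀ a b c' d : W, 16 * (F a * F b * F c' * F d) =
        ∑ η, c η * A.S.e ((N : ℚ) • Ef (hw2 η) a) *
          (F ((1 / 2 : ℚ) • (a + b + c' + d) + hw2 η) * F ((1 / 2 : ℚ) • (a + b - c' - d) + hw2 η) *
          F ((1 / 2 : ℚ) • (a - b + c' - d) + hw2 η) *
          F ((1 / 2 : ℚ) • (a - b - c' + d) + hw2 η)) := by
  by_cases h0 : F = 0
  · exact ⟨0, fun _ => isIntegral_zero, by simp [h0]⟩
  obtain ⟨φ, hf, h5⟩ := vr_th gh A hτ P hF h0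
  have hN := P.odd.pos
  obtain ⟨k, hk, hr⟩ := hf.riemann (siegI_iff.2 hτ) (Nat.cast_pos.2 hN)
  obtain ⟨κ, hκ, rfl⟩ : ∃ κ : Qbar, IsIntegral ℤ κ ∧ jC κ = k := by
    rcases sq_eq_one_iff.1 hk with rfl | rfl
    exacts [⟨1, isIntegral_one, map_one _⟩, ⟨-1, isIntegral_one.neg, by simp⟩]
  choose m hm h5 using h5
  refine ⟨fun η => κ * A.S.e ((1 / 2 : ℚ) • (((φ.u : Zh) : AF) * Qf (φ.γ.symm (2 • φ.hp η))) +
    (2 * N : ℚ) • Ef (hw2 η) (m η)), fun η => hκ.mul (A.S.e_int _), fun a b c d =>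
    jC.injective ?_⟩
  have h6 := hr a b c d
  simp only [map_mul, map_sum, map_ofNat, A.cxe, AddChar.map_add_eq_mul]
  rw [show (16 : ℂ) = 2 ^ Fintype.card (Fin 4) by norm_num, h6, Finset.mul_sum]
  refine Finset.sum_congr rfl fun η _ => ?_
  have h7 : eps N (2 • φ.hp η) a * (eps N ((1 / 2 : ℚ) • (a + b + c + d) + hw2 η) (m η) *
      eps N ((1 / 2 : ℚ) • (a + b - c - d) + hw2 η) (m η) *
      eps N ((1 / 2 : ℚ) • (a - b + c - d) + hw2 η) (m η) *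
      eps N ((1 / 2 : ℚ) • (a - b - c + d) + hw2 η) (m η)) =
      psi ((2 * N : ℚ) • Ef (hw2 η) (m η)) * psi ((N : ℚ) • Ef (hw2 η) a) := by
    rw [← eps_add_left, ← eps_add_left, ← eps_add_left, show (1 / 2 : ℚ) • (a + b + c + d) + hw2 η +
      ((1 / 2 : ℚ) • (a + b - c - d) + hw2 η) + ((1 / 2 : ℚ) • (a - b + c - d) + hw2 η) +
      ((1 / 2 : ℚ) • (a - b - c + d) + hw2 η) = a + a + (hw2 η + hw2 η + hw2 η + hw2 η) by module,
      eps, eps, ← AddChar.map_add_eq_mul, ← AddChar.map_add_eq_mul, h5, two_nsmul]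
    simp only [Ef_add_left, Ef_swap a (m η)]
    congr 1
    module
  have h8 := h4_chisq (hm η)
  rw [← Frame.chi]
  nth_rw 3 4 5 6 [h5]
  simp only [← add_assoc, h4_tr hf (hm η)]
  rw [mul_assoc (jC κ), mul_assoc (φ.chi _) (psi _), ← h7]
  generalize φ.chi (m η) = x at h8
  generalize eps N ((1 / 2 : ℚ) • (a + b + c + d) + hw2 η) (m η) = y₁
  generalize eps N ((1 / 2 : ℚ) • (a + b - c - d) + hw2 η) (m η) = y₂
  generalize eps N ((1 / 2 : ℚ) • (a - b + c - d) + hw2 η) (m η) = y₃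
  generalize eps N ((1 / 2 : ℚ) • (a - b - c + d) + hw2 η) (m η) = y₄
  simp only [mul_assoc x, mul_left_comm _ x]
  simp only [← mul_assoc x x, h8, one_mul]
  ring

end Pool.Agent.MT
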