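import Pool.Agent.Lib.MP_d61fbb_ag.MT.CM0
import Pool.Agent.Lib.MP_d61fbb_ag.MT.CM2a
import Pool.Agent.Lib.MP_d61fbb_ag.MT.CM2r
import Pool.Agent.Lib.MP_d61fbb_ag.MT.CBr
import Pool.Agent.Lib.MP_d61fbb_ag.MT.BReds

/-! The bridge to block C: a point gives a theta system. -/

set_option autoImplicit false

noncomputable section

namespace Pool.Agent.MT

open Matrix Polynomial Sum NumberField
open Pool.Agent.Lib.MP_696deb_nt.B2 (Qbar Gam Plc Dec Ine IsFrob Op jC)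

variable {τ : Matrix (Fin 4) (Fin 4) ℂ} {K : IntermediateField ℚ ℂ} {M : MumfordType τ K}
  {A : AR M} {v : Frb A} {N : ℕ} {h : M8 AF} {F : W → Qbar}

lemma Frb.c2_ne (v : Frb A) : p2 ≠ v.p := fun e => by
  have h1 := v.big
  rw [← e] at h1
  exact absurd h1 (by decide)

lemma Frb.c2_odd (v : Frb A) : Odd (v.p : ℕ) :=
  v.p.2.odd_of_ne_two fun e => v.c2_ne (Subtype.ext e.symm)

lemma NPt.c2_inv (H : NPt v N h F) {s : Vl v.p} (hs : ∀ i, ‖s i‖ ≤ 1) :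
    Rt A.S.e N (sgv v.p s) F = F := by
  obtain ⟨t, ht, e⟩ := H.pt.c2_mem H.std hs
  have := H.vec.inv t ht (c2_W0 _)
  rwa [e, c2_sgn_one (c2_cs_ne v.c2_ne _), one_smul] at this

lemma NPt.c2_ne (H : NPt v N h F) : F ≠ 0 := fun e => by
  obtain ⟨x, -, hx⟩ := H.one
  simp [e] at hx

lemma c2_mA (g : ∀ l : Pr, GL (I2 4) ℤ_[l]) (l : Pr) (x : W) :
    cpv l (mA g *ᵥ x) = (g l).val.map (↑) *ᵥ cpv l x := c2_cmul l _ x

lemma c2_mA1 {g : ∀ l : Pr, GL (I2 4) ℤ_[l]} {l : Pr} (h : g l = 1) (x : W) :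
    cpv l (mA g *ᵥ x) = cpv l x := by
  rw [c2_mA, h]
  exact (congrArg (· *ᵥ cpv l x) (Matrix.map_one (PadicInt.Coe.ringHom (p := l)) rfl rfl)).trans
    (one_mulVec _)

lemma c2_int {l : Pr} {m n : Type} [Fintype n] {g : Matrix m n ℚ_[l]} (hg : ∀ i j, ‖g i j‖ ≤ 1)
    {x : n → ℚ_[l]} (hx : ∀ i, ‖x i‖ ≤ 1) (i : m) : ‖(g *ᵥ x) i‖ ≤ 1 :=
  IsUltrametricDist.norm_sum_le_of_forall_le_of_nonneg (s := Finset.univ) zero_le_one
    fun j _ => padic_mul_le (hg i j) (hx j)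

/-- the action of inertia on a normalised theta vector -/
lemma NPt.c2_gal (hU : UNIQ) (H : NPt v N h F) {σ : ℂ ≃ₐ[K] ℂ} (hσ : ∀ l ≠ v.p, M.ρ σ l = 1)
    (x : W) : A.res σ (F x) = F (mA (M.ρ σ) *ᵥ x) := by
  obtain ⟨F', m', e'⟩ := A.c2_G σ H.vec.mem
  have off : ∀ (s : ℂ ≃ₐ[K] ℂ), (∀ l ≠ v.p, M.ρ s l = 1) → ∀ l ≠ v.p, ∀ x : W,
      cpv l (mA (M.ρ s) *ᵥ x) = cpv l x := fun s hs l hl x => c2_mA1 (hs l hl) x
  have hσ' : ∀ l ≠ v.p, M.ρ σ⁻¹ l = 1 := fun l hl => by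
    rw [map_inv, Pi.inv_apply, hσ l hl, inv_one]
  have inv : ∀ x : W, mA (M.ρ σ) *ᵥ mA (M.ρ σ⁻¹) *ᵥ x = x := fun x => c2_ext fun l => by
    have := Matrix.map_mul (f := PadicInt.Coe.ringHom) (L := (M.ρ σ l).val) (M := (M.ρ σ l)⁻¹.val)
    rw [Units.mul_inv, Matrix.map_one _ rfl rfl] at this
    rw [c2_mA, c2_mA, mulVec_mulVec, map_inv, Pi.inv_apply]
    exact (congrArg (· *ᵥ cpv l x) this.symm).trans (one_mulVec _)
  obtain ⟨c, hc⟩ := hU Qbar 0 A.S N (Nat.cast_ne_zero.2 H.pt.c2_ne)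
    (L0.map h.mulVecLin.toAddMonoidHom) (fun t _ => c2_W0 t) (fun x _ hx => by
      obtain ⟨y, rfl⟩ := H.pt.c2_inv x
      exact ⟨y, mem_L0q.2 (H.pt.c2_dual fun t ht _ => (A.S.ker _).1 (hx _ ⟨t, ht, rfl⟩)), rfl⟩)
    (sgn A.S.e) F F' H.vec.mem m' H.c2_ne (by
      rintro _ ⟨t, ht, rfl⟩
      exact H.vec.inv t ht (c2_W0 _)) (by
      rintro _ ⟨t, ht, rfl⟩
      change Rt A.S.e N (h *ᵥ t) F' = sgn A.S.e (h *ᵥ t) • F'
      obtain ⟨t', e⟩ := H.pt.c2_inv (mA (M.ρ σ⁻¹) *ᵥ h *ᵥ t)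
      have ht' : t' ∈ L0 := mem_L0.2 fun i l => by
        have k := congrArg (cpv l) e
        by_cases el : l = v.p
        · subst el
          rw [c2_cmul, c2_mA, c2_cmul] at k
          exact (H.std _).1 (k ▸ c2_int (fun i j => ((M.ρ σ⁻¹ v.p).val i j).2)
            ((H.std _).2 fun i => mem_L0.1 ht i v.p)) i
        · rw [off _ hσ' l el, c2_cmul, c2_cmul, ← sub_eq_zero, ← mulVec_sub] at k
          have : cp l (t' i) = cp l (t i) := congrFun (sub_eq_zero.1 (H.pt.c2_loc l k)) i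
          exact this ▸ mem_L0.1 ht i l
      funext y
      have k := A.c2_Rt σ e' N (h *ᵥ t') (mA (M.ρ σ⁻¹) *ᵥ y)
      rw [H.vec.inv t' ht' (c2_W0 _), Pi.smul_apply, smul_eq_mul, map_mul, e', e, inv, inv,
        c2_sgn_congr (off _ hσ' p2 v.c2_ne _)] at k
      rw [← k, Pi.smul_apply, smul_eq_mul]
      congr 1
      have s2 : sgn A.S.e (h *ᵥ t) ^ 3 = _ := A.S.c2_sgn_odd (H.pt.c2_two ht) (by decide)
      have s0 : sgn A.S.e (h *ᵥ t) ≠ 0 := e_ne _ _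
      generalize sgn A.S.e (h *ᵥ t) = s at s2 s0
      have : s * s = 1 := mul_left_cancel₀ s0 (by linear_combination s2)
      rcases mul_self_eq_one_iff.1 this with rfl | rfl <;> simp)
  obtain ⟨x₀, h0, h1⟩ := H.one
  have fix : mA (M.ρ σ) *ᵥ x₀ = x₀ := c2_ext fun l => by
    by_cases el : l = v.p
    · subst el
      rw [c2_mA, c2_Wp.1 h0, mulVec_zero]
    · exact off _ hσ l el _
  have c1 := e' x₀
  rw [fix, hc, h1, map_one, Pi.smul_apply, h1, smul_eq_mul, mul_one] at c1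
  rw [e', hc, ← c1, one_smul]

/-- the local coordinates -/
def c2L (g : M8 ℚ_[v.p]) (N : ℕ) (B B' : M4 ℚ_[v.p]) (x y : Fin 4 → ℚ_[v.p]) : Vl v.p :=
  g *ᵥ Sum.elim (B *ᵥ x) ((N : ℚ_[v.p])⁻¹ • B'ᵀ *ᵥ y)

section
variable {g g' : M8 ℚ_[v.p]} {B B' : M4 ℚ_[v.p]}

lemma c2L_add (x y x' y' : Fin 4 → ℚ_[v.p]) :
    c2L g N B B' (x + x') (y + y') = c2L g N B B' x y + c2L g N B B' x' y' := by
  rw [c2L, c2L, c2L, ← mulVec_add, mulVec_add B, mulVec_add B'ᵀ, smul_add, Sum.elim_add_add]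

lemma c2L_Ef (hg : ∀ x y, Ef (g *ᵥ x) (g *ᵥ y) = Ef x y) (hB : B * B' = 1)
    (hN : (N : ℚ_[v.p]) ≠ 0) (x y x' y' : Fin 4 → ℚ_[v.p]) :
    N * Ef (c2L g N B B' x y) (c2L g N B B' x' y') = x ⬝ᵥ y' - x' ⬝ᵥ y := by
  have k : ∀ x y : Fin 4 → ℚ_[v.p], (B *ᵥ x) ⬝ᵥ (B'ᵀ *ᵥ y) = x ⬝ᵥ y := fun x y => by
    rw [dotProduct_mulVec, vecMul_transpose, mulVec_mulVec, mul_eq_one_comm.1 hB, one_mulVec]
  rw [c2L, c2L, hg, Ef]
  simp only [Sum.elim_comp_inl, Sum.elim_comp_inr, dotProduct_smul, smul_dotProduct, smul_eq_mul,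
    dotProduct_comm (B'ᵀ *ᵥ y), k]
  field_simp

lemma c2L_surj (hg : g * g' = 1) (hB : B * B' = 1) (hN : (N : ℚ_[v.p]) ≠ 0) (s : Vl v.p) :
    ∃ x y, s = c2L g N B B' x y := by
  refine ⟨B' *ᵥ ((g' *ᵥ s) ∘ inl), (N : ℚ_[v.p]) • Bᵀ *ᵥ ((g' *ᵥ s) ∘ inr), ?_⟩
  rw [c2L, mulVec_mulVec, hB, one_mulVec, mulVec_smul, mulVec_mulVec, ← transpose_mul, hB,
    transpose_one, one_mulVec, smul_smul, inv_mul_cancel₀ hN, one_smul, Sum.elim_comp_inl_inr,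
    mulVec_mulVec, hg, one_mulVec]

lemma c2L_e (hg : ∀ x y, Ef (g *ᵥ x) (g *ᵥ y) = Ef x y) (hB : B * B' = 1)
    (hN : (N : ℚ_[v.p]) ≠ 0) (n : ℕ) {a : W} (ha : a ∈ Wp v.p) (s t x y : Fin 4 → ℚ_[v.p]) :
    A.S.e ((((n * N : ℕ) : ℚ) / 2) • Ef (sgv v.p (c2L g N B B' s t))
      (a + sgv v.p (c2L g N B B' x 0) + sgv v.p (c2L g N B B' 0 y))) =
        v.psi (n * (s ⬝ᵥ y - x ⬝ᵥ t) / 2) := by
  rw [c2_Ef, c2_sg, c2_cadd, c2_cadd, c2_Wp.1 ha, c2_cs, c2_cs, zero_add, ← c2L_add, add_zero,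
    zero_add, ← c2L_Ef hg hB hN, v.psi_apply]
  congr 2
  push_cast
  ring

/-- the inclusion of the part prime to `p` -/
def c2i {p : ℕ} (α : Wp p ≃+ Wp p) : Wp p →ₗ[ℚ] W :=
  AddMonoidHom.toRatLinearMap (AddMonoidHom.mk' (fun a => (α a : W)) fun a b => by
    rw [map_add]; rfl)

/-- the inclusion of a local part -/
def c2x {p : Pr} (f : (Fin 4 → ℚ_[p]) → Vl p) (h : ∀ x y, f (x + y) = f x + f y) :
    (Fin 4 → ℚ_[p]) →ₗ[ℚ] W :=
  AddMonoidHom.toRatLinearMap ((c2s p).comp (AddMonoidHom.mk' f h))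

/-- the coordinates of a point -/
def c2C (v : Frb A) {g g' : M8 ℚ_[v.p]} (hg : ∀ x y, Ef (g *ᵥ x) (g *ᵥ y) = Ef x y)
    (hg' : g * g' = 1) {B B' : M4 ℚ_[v.p]} (hB : B * B' = 1) {N : ℕ} (hN : (N : ℚ_[v.p]) ≠ 0)
    (α : Wp v.p ≃+ Wp v.p) : MTC.Coord v.D (Fin 4) (Wp v.p) W where
  inc := c2i α
  ex := c2x (fun x => c2L g N B B' x 0) fun x y => by rw [← c2L_add, add_zero]
  ey := c2x (fun y => c2L g N B B' 0 y) fun x y => by rw [← c2L_add, add_zero]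
  ε n t z := A.S.e ((((n * N : ℕ) : ℚ) / 2) • Ef t z)
  span z := by
    obtain ⟨x, y, e⟩ := c2L_surj hg' hB hN (cpv v.p z)
    refine ⟨α.symm ⟨_, iq_mem v.p z⟩, x, y, (c2_split v.p z).trans ?_⟩
    rw [e, ← add_zero x, ← zero_add y, c2L_add, c2_sadd, ← add_assoc, add_zero x, zero_add y]
    exact congrArg (· + _ + _) (congrArg Subtype.val (α.apply_symm_apply ⟨_, iq_mem v.p z⟩)).symm
  εx n t a x y := (c2L_e hg hB hN n (α a).2 t 0 x y).trans (by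
    rw [dotProduct_zero, sub_zero]; rfl)
  εy n t a x y := (c2L_e hg hB hN n (α a).2 0 t x y).trans (by
    rw [zero_dotProduct, zero_sub, mul_neg, neg_div]; rfl)

end

/-- theta functions of weight `m` for the part of the lattice that is prime to `p` -/
def c2H (v : Frb A) (h : M8 AF) (m : ℕ) : Submodule Qbar (W → Qbar) where
  carrier := {f | f ∈ A.S.G m ∧
    ∀ t ∈ L0, t ∈ Wp v.p → Rt A.S.e m (h *ᵥ t) f = sgn A.S.e (h *ᵥ t) • f}
  add_mem' := fun ⟨a, b⟩ ⟨c, d⟩ => ⟨add_mem a c, fun t ht ht' =>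
    (map_add (RtL A.S.e m _) _ _).trans (by rw [smul_add, ← b t ht ht', ← d t ht ht']; rfl)⟩
  zero_mem' := ⟨zero_mem _, fun t _ _ => (map_zero (RtL A.S.e m _)).trans (smul_zero _).symm⟩
  smul_mem' := fun c _ ⟨a, b⟩ => ⟨Submodule.smul_mem _ _ a, fun t ht ht' => by
    rw [Rt_smul, b t ht ht', smul_comm]⟩

lemma c2_hWp {t : W} (ht : t ∈ Wp v.p) : h *ᵥ t ∈ Wp v.p :=
  c2_Wp.2 (by rw [c2_cmul, c2_Wp.1 ht, mulVec_zero])

lemma c2H_Rt {m : ℕ} {f : W → Qbar} (hf : f ∈ c2H v h m) (s : Vl v.p) :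
    Rt A.S.e m (sgv v.p s) f ∈ c2H v h m :=
  ⟨Gs_Rt (c2_W0 _) hf.1, fun t ht ht' => by
    rw [Rt_comm, hf.2 t ht ht', Rt_smul, c2_Ef, c2_Wp.1 (c2_hWp ht')]
    simp⟩

lemma c2_dual {p : ℕ} [Fact p.Prime] {k : ℤ} {y : Fin 4 → ℚ_[p]}
    (hy : ∀ t, MTC.In k t → ‖(p : ℚ_[p]) ^ 2 * (t ⬝ᵥ y)‖ ≤ 1) : MTC.In (-(k + 2)) y := fun j => by
  have := hy (Pi.single j ((p : ℚ_[p]) ^ k)) fun i => by
    by_cases e : i = j
    · subst e; simp
    · simpa [e] using (zpow_pos MTC.p_pos _).le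
  have h0 : (0 : ℝ) < p := MTC.p_pos
  rw [single_dotProduct, ← mul_assoc, ← zpow_natCast, ← zpow_add₀ MTC.pq_ne, norm_mul,
    Padic.norm_p_zpow, _root_.zpow_neg, inv_mul_le_iff₀ (zpow_pos h0 _), mul_one] at this
  rwa [neg_neg, add_comm]

section
variable {g g' : M8 ℚ_[v.p]} {hg : ∀ x y, Ef (g *ᵥ x) (g *ᵥ y) = Ef x y} {hg' : g * g' = 1}
  {B B' : M4 ℚ_[v.p]} {hB : B * B' = 1} {hN : (N : ℚ_[v.p]) ≠ 0} {α : Wp v.p ≃+ Wp v.p}

lemma c2C_U (n : ℕ) (t : W) (f : W → Qbar) :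
    (c2C v hg hg' hB hN α).U n t f = Rt A.S.e (n * N) t f := rfl

lemma c2C_ex (x) : (c2C v hg hg' hB hN α).ex x = sgv v.p (c2L g N B B' x 0) := rfl

lemma c2C_ey (x) : (c2C v hg hg' hB hN α).ey x = sgv v.p (c2L g N B B' 0 x) := rfl

lemma c2C_pt (a x y) : (c2C v hg hg' hB hN α).inc a + (c2C v hg hg' hB hN α).ex x +
    (c2C v hg hg' hB hN α).ey y = α a + sgv v.p (c2L g N B B' x y) := by
  rw [c2C_ex, c2C_ey, add_assoc, ← c2_sadd, ← c2L_add, add_zero, zero_add]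
  rfl

lemma c2C_sp (hU : UNIQ) (H : Pt N h) :
    (c2C v hg hg' hB hN α).Sp (c2H v h N) (c2H v h ((v.p : ℕ) ^ 2 * N)) where
  t1 f hf c := by
    rw [c2C_U, one_mul]
    exact c2H_Rt hf _
  t2 f hf c := c2H_Rt hf _
  pw f hf := ⟨c2_pow hf.1 _, fun t ht ht' => by
    rw [c2_Rt_pow, hf.2 t ht ht', _root_.smul_pow, A.S.c2_sgn_odd (H.c2_two ht) v.c2_odd.pow]⟩
  sc f hf := ⟨c2_scale hf.1 _, fun t ht ht' => by
    have := hf.2 (((v.p : ℕ) : ℚ) • t) (by rw [Nat.cast_smul_eq_nsmul]; exact nsmul_mem ht _)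
      (Wp_qsmul _ ht')
    rw [mulVec_smul] at this
    rw [c2_Rt_scale, this, A.S.c2_sgn_smul (H.c2_two ht) v.c2_odd]
    rfl⟩
  uq k f hf f' hf' h0 hx hy := by
    simp only [c2C_U, c2C_ex, c2C_ey] at hx hy
    let L : AddSubgroup W :=
      { carrier := {z | ∃ t ∈ L0, t ∈ Wp v.p ∧ ∃ x y, MTC.In k x ∧ MTC.In (-(k + 2 : ℕ)) y ∧
          z = h *ᵥ t + sgv v.p (c2L g N B B' x y)}
        add_mem' := by
          rintro _ _ ⟨t, a, b, x, y, c, d, rfl⟩ ⟨t', a', b', x', y', c', d', rfl⟩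
          exact ⟨t + t', add_mem a a', add_mem b b', x + x', y + y', c.add c', d.add d', by
            rw [c2L_add, c2_sadd, mulVec_add]; abel⟩
        zero_mem' := ⟨0, zero_mem _, zero_mem _, 0, 0, .zero _, .zero _, by
          simp [c2L, show sgv v.p 0 = 0 from map_zero (c2s _)]⟩
        neg_mem' := by
          rintro _ ⟨t, a, b, x, y, c, d, rfl⟩
          refine ⟨-t, neg_mem a, neg_mem b, -x, -y, c.neg, d.neg, neg_eq_of_add_eq_zero_right ?_⟩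
          rw [add_add_add_comm, ← mulVec_add, ← c2_sadd, ← c2L_add]
          simp [c2L, show sgv v.p 0 = 0 from map_zero (c2s _)] }
    have pe : ∀ x y x' y', A.S.e ((((v.p : ℕ) ^ 2 * N : ℕ) : ℚ) •
        Ef (sgv v.p (c2L g N B B' x y)) (sgv v.p (c2L g N B B' x' y'))) = 1 ↔
          ‖((v.p : ℕ) : ℚ_[v.p]) ^ 2 * (x ⬝ᵥ y' - x' ⬝ᵥ y)‖ ≤ 1 := fun x y x' y' => by
      rw [c2_Ef, c2_sg, c2_cs, ← c2L_Ef hg hB hN, ← v.psi_eq_one, v.psi_apply, ← mul_assoc]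
      push_cast
      rfl
    have eig : ∀ f ∈ c2H v h ((v.p : ℕ) ^ 2 * N),
        (∀ t, MTC.In k t → Rt A.S.e ((v.p : ℕ) ^ 2 * N) (sgv v.p (c2L g N B B' t 0)) f = f) →
        (∀ t, MTC.In (-(k + 2 : ℕ)) t →
          Rt A.S.e ((v.p : ℕ) ^ 2 * N) (sgv v.p (c2L g N B B' 0 t)) f = f) →
        ∀ z ∈ L, Rt A.S.e ((v.p : ℕ) ^ 2 * N) z f = sgn A.S.e z • f := by
      rintro f hf hx hy _ ⟨t, a, b, x, y, c, d, rfl⟩
      have k1 := Rt_Rt (e := A.S.e) ((v.p : ℕ) ^ 2 * N) (sgv v.p (c2L g N B B' x 0))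
        (sgv v.p (c2L g N B B' 0 y)) f
      rw [hy y d, hx x c, ← c2_sadd, ← c2L_add, add_zero, zero_add, c2_Ef, c2_sg, c2_cs,
        ← v.psi_apply, (v.psi_eq_one _).2, one_smul] at k1
      · have k2 := Rt_Rt (e := A.S.e) ((v.p : ℕ) ^ 2 * N) (h *ᵥ t) (sgv v.p (c2L g N B B' x y)) f
        rw [← k1, hf.2 t a b, c2_Ef, c2_Wp.1 (c2_hWp b)] at k2
        rw [c2_sgn_congr (t := h *ᵥ t) (by rw [c2_cadd, c2_cs_ne v.c2_ne, add_zero]), k2]
        simp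
      · have := c2L_Ef hg hB hN 0 y x 0
        have e2 : ((((((v.p : ℕ) ^ 2 * N : ℕ) : ℚ) / 2 : ℚ)) : ℚ_[v.p]) *
            Ef (c2L g N B B' 0 y) (c2L g N B B' x 0) = -(((v.p : ℕ) : ℚ_[v.p]) ^ 2 * (x ⬝ᵥ y) / 2) := by
          push_cast
          rw [zero_dotProduct, zero_sub] at this
          linear_combination (((v.p : ℕ) : ℚ_[v.p]) ^ 2 / 2) * this
        rw [e2, norm_neg, norm_div, MTC.norm_two v.D.odd, div_one, norm_mul, Padic.norm_p_pow]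
        refine (mul_le_mul_of_nonneg_left (c.dot d) (zpow_pos MTC.p_pos _).le).trans_eq ?_
        rw [← zpow_add₀ MTC.p_pos.ne']
        simp
    refine hU Qbar 0 A.S _ (Nat.cast_ne_zero.2 (mul_ne_zero (pow_ne_zero _ v.p.2.ne_zero) H.c2_ne))
      L (fun t _ => c2_W0 t) (fun z _ hz => ?_) (sgn A.S.e) f' f hf'.1 hf.1 h0
      (eig f' hf' (fun t ht => (hx t ht).2) fun t ht => (hy t ht).2)
      (eig f hf (fun t ht => (hx t ht).1) fun t ht => (hy t ht).1)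
    obtain ⟨w, rfl⟩ := H.c2_inv z
    obtain ⟨x, y, e⟩ := c2L_surj hg' hB hN (cpv v.p (h *ᵥ w))
    have s0 : sgv v.p (c2L g N B B' 0 0) = 0 := by simp [c2L, show sgv v.p 0 = 0 from map_zero (c2s _)]
    have loc : ∀ x' y', MTC.In k x' → MTC.In (-(k + 2 : ℕ)) y' →
        ‖((v.p : ℕ) : ℚ_[v.p]) ^ 2 * (x' ⬝ᵥ y - x ⬝ᵥ y')‖ ≤ 1 := fun x' y' a b => by
      have := hz _ ⟨0, zero_mem _, zero_mem _, x', y', a, b, rfl⟩
      rw [mulVec_zero, zero_add, c2_Ef, e, ← c2_cs v.p (c2L g N B B' x y), ← c2_Ef] at this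
      exact (pe _ _ _ _).1 this
    refine ⟨iq v.p • w, Wp_L0 (iq_mem _ _) fun i => mul_mem (Zq_zero (zA_mem _))
      (H.c2_dual (fun t a b l hl => ?_) i), iq_mem _ _, x, y, ?_, ?_, ?_⟩
    · have := (A.S.ker _).1 (hz _ ⟨t, a, b, 0, 0, .zero _, .zero _, rfl⟩) l l.2.ne_zero
      rw [s0, add_zero, Nat.cast_mul, mul_smul, map_smul, Rat.smul_def, norm_mul] at this
      push_cast at this
      rwa [norm_pow, padic_norm_prime_ne (fun e => hl (congrArg Subtype.val e)), one_pow,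
        one_mul] at this
    · have := c2_dual (k := -(k + 2 : ℕ)) (y := x) fun t ht => by
        simpa [dotProduct_comm t] using loc 0 t (.zero _) ht
      simpa using this
    · have := c2_dual (k := k) (y := y) fun t ht => by simpa using loc t 0 ht (.zero _)
      simpa using this
    · rw [← e, mulVec_smul]
      exact c2_split _ _

end

theorem t_cm2 : T_CM2 := by
  intro hU gh τ K M A hτ v R V0 fil P E _ _ d ad N h F H α B B' hB iB iB'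
  have n1 := H.pt.c2_norm H.std
  have hN : (N : ℚ_[v.p]) ≠ 0 := fun e => by simp [e] at n1
  have th : (c2C v ad.symp ad.mul_inv hB hN α).Th
      (fun σ => (N : ℚ_[v.p]) • (Bᵀ * ad.b σ * B)) F := by
    have li : ∀ x y, MTC.In 0 x → MTC.In 0 y → ∀ i, ‖c2L ad.g N B B' x y i‖ ≤ 1 :=
      fun x y hx hy => c2_int ad.int (Sum.rec (c2_int iB fun i => by simpa using hx i) fun i => by
        rw [Sum.elim_inr, Pi.smul_apply, smul_eq_mul, norm_mul, norm_inv, n1, inv_one, one_mul]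
        exact c2_int (fun i j => iB' j i) (fun i => by simpa using hy i) i)
    have hw : ∀ η, hw2 η ∈ Wp v.p := fun η => c2_Wp.2 (c2_cs_ne v.c2_ne.symm _)
    have i1 : ∀ η, (c2C v ad.symp ad.mul_inv hB hN α).inc (α.symm ⟨_, hw η⟩) = hw2 η :=
      fun η => congrArg Subtype.val (α.apply_symm_apply _)
    refine ⟨fun s i j => ?_, fun t ht => ?_, fun t ht => ?_, fun s a x y => ?_, fun a => ?_,
      fun z => H.le z, ?_, fun z => ?_⟩
    · rw [Matrix.smul_apply, smul_eq_mul, norm_mul, n1, one_mul]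
      exact c2_int (g := Bᵀ * ad.b s)
        (fun i j => c2_int (g := Bᵀ) (fun i j => iB j i) (fun k => ad.b_int s k j) i)
        (fun k => iB k j) i
    · rw [c2C_U, one_mul]
      exact H.c2_inv (li _ _ ht (.zero _))
    · rw [c2C_U, one_mul]
      exact H.c2_inv (li _ _ (.zero _) ht)
    · rw [c2C_pt, c2C_pt, v.D_act, H.c2_gal hU (fil.unr s s.2)]
      congr 1
      refine c2_ext fun l => ?_
      by_cases e : l = v.p
      · subst e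
        rw [c2_mA, c2_cadd, c2_cadd, c2_Wp.1 (α a).2, zero_add, zero_add, c2_cs, c2_cs]
        refine (ad.ine s _ _).trans ?_
        rw [c2L, mulVec_add, mulVec_smul, smul_mulVec, mulVec_smul, smul_add, smul_comm,
          smul_smul _ (N : ℚ_[v.p]), inv_mul_cancel₀ hN, one_smul, mulVec_mulVec, mulVec_mulVec,
          ← Matrix.mul_assoc, ← Matrix.mul_assoc, ← transpose_mul, hB, transpose_one, Matrix.one_mul]
      · rw [c2_mA1 (fil.unr s s.2 l e), c2_cadd, c2_cadd, c2_cs_ne e, c2_cs_ne e]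
    · obtain ⟨c, c1, c2⟩ := vec_riem gh A hτ H.pt H.vec
      let e := (Fintype.equivFin (I2 4 → ZMod 2)).symm
      have v16 : abv v.w 16 = 1 := by
        rw [abv_apply, show (16 : Qbar) = (2 : ℕ) ^ 4 by norm_num, map_pow,
          v.nat_val v.not_dvd_two, one_pow, NNReal.coe_one]
      refine ⟨_, fun n => c (e n) * A.S.e ((N : ℚ) • Ef (hw2 (e n)) (α (a 0))) / 16,
        fun n _ => α.symm ⟨_, hw (e n)⟩, fun n => ?_, fun x y => ?_⟩
      · rw [map_div₀, v16, div_one, map_mul, abv_apply _ (A.S.e _), v.e_val, NNReal.coe_one, mul_one]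
        exact abv_le_one_of_isIntegral _ (abv_na _) (c1 _)
      · have i2 : ∀ η s, Ef (hw2 η) (α (a 0) + sgv v.p s) = Ef (hw2 η) (α (a 0)) := fun η s => by
          rw [hw2, c2_Ef, c2_Ef, c2_cadd, c2_cs_ne v.c2_ne, add_zero]
        simp only [i1, c2C_pt]
        rw [e.sum_comp fun η => c η * A.S.e ((N : ℚ) • Ef (hw2 η) (α (a 0))) / 16 *
          ∏ i, F (MTC.had (2⁻¹ : ℚ) (fun i => (α (a i) : W) +
            sgv v.p (c2L ad.g N B B' (x i) (y i))) i + hw2 η), Fin.prod_univ_four,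
          ← mul_right_inj' (show (16 : Qbar) ≠ 0 by norm_num), c2, Finset.mul_sum]
        refine Finset.sum_congr rfl fun η _ => ?_
        rw [i2, Fin.prod_univ_four, one_div, ← mul_assoc 16, mul_div_cancel₀ _ (by norm_num)]
        rfl
    · obtain ⟨x, hx, e⟩ := H.one
      refine ⟨α.symm ⟨x, hx⟩, ?_⟩
      change abv v.w (F (α (α.symm _) : W)) = 1
      rw [α.apply_symm_apply, e, map_one]
    · obtain ⟨η, e⟩ := vec_nv gh A hτ H.pt H.vec H.c2_ne z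
      exact ⟨α.symm ⟨_, hw η⟩, by rwa [i1]⟩
  have := th.sysU _ (c2C_sp hU H.pt) (show F ∈ c2H v h N from
    ⟨H.vec.mem, fun t ht _ => H.vec.inv t ht (c2_W0 _)⟩)
  convert this using 1
  · funext a
    exact (Nat.cast_smul_eq_nsmul ℚ _ a).symm
  · funext a x y
    rw [MTC.Coord.co_apply, c2C_pt, Nat.cast_one, one_mul]
    rfl

end Pool.Agent.MT
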