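import Pool.Agent.Lib.MP_d61fbb_ag.MT.G0c

/-! Block G: ideals of forms along filters. -/

noncomputable section

namespace Pool.Agent.MT.G

open Matrix Complex Filter Topology Set Metric

variable {g l : ℕ}

lemma RL_mul' {m m' k k' : ℕ} {F F' : EE g → ℂ} (h : F ∈ RL g (l ^ m) k)
    (h' : F' ∈ RL g (l ^ m') k') : F * F' ∈ RL g (l ^ (m + m')) (k + k') :=
  RL_mul (RL_mono (pow_dvd_pow l le_self_add) k h) (RL_mono (pow_dvd_pow l le_add_self) k' h')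

lemma RL_one (M : ℕ) : (1 : EE g → ℂ) ∈ RL g M 0 := by
  rw [RL, pow_zero]
  exact Submodule.one_le.1 le_rfl

theorem Fm.mul {F F' : EE g → ℂ} (h : Fm l F) (h' : Fm l F') : Fm l (F * F') := by
  obtain ⟨m, k, h⟩ := h
  obtain ⟨m', k', h'⟩ := h'
  exact ⟨_, _, RL_mul' h h'⟩

theorem Fm.one : Fm l (1 : EE g → ℂ) := by
  exact ⟨0, 0, RL_one _⟩

theorem Fm.diff {F : EE g → ℂ} (h : Fm l F) : DifferentiableOn ℂ F (HH g) := by
  obtain ⟨m, k, h⟩ := h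
  exact RL_diff h

theorem Fm.az {F : EE g → ℂ} (h : Fm l F) (γ : Sp g ℤ) :
    ∃ F', Fm l F' ∧ ∀ z ∈ HH g, (F (az γ z) = 0 ↔ F' z = 0) := by
  obtain ⟨m, k, h⟩ := h
  obtain ⟨j, hj, H⟩ := pull γ
  obtain ⟨F', h', e⟩ := (H _).1 k F h
  exact ⟨F', ⟨m, k, h'⟩, fun z hz => by simp [e z hz, hj z hz]⟩

theorem Fm.sc (hl : 0 < l) {F : EE g → ℂ} (h : Fm l F) (e : Fin g → ℕ) (j : ℤ) :
    ∃ F', Fm l F' ∧ ∀ z ∈ HH g, (F (sc l e j z) = 0 ↔ F' z = 0) := by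
  obtain ⟨m, k, h⟩ := h
  obtain ⟨n, F', h', H⟩ := pull_sc hl e j h
  exact ⟨F', ⟨m + n, k, pow_add l m n ▸ h'⟩, H⟩

theorem Fm.level {F : EE g → ℂ} (h : Fm l F) :
    ∃ n, ∀ γ ∈ Gam g (32 * l ^ n), ∀ z ∈ HH g, (F (G.az γ z) = 0 ↔ F z = 0) := by
  obtain ⟨m, k, h⟩ := h
  refine ⟨m * 2, fun γ hγ z hz => ?_⟩
  obtain ⟨j, hj, H⟩ := pull γ
  simp [(H _).2 (pow_mul l m 2 ▸ hγ) k F h z hz, hj z hz]

lemma van_map {f : EE g → EE g} {F F' : EE g → ℂ} (h : Fm l F) (h' : Fm l F')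
    (e : ∀ z ∈ HH g, (F (f z) = 0 ↔ F' z = 0)) {A : Filter (EE g)} (hA : A ≤ 𝓟 (HH g)) :
    F ∈ Van l (map f A) ↔ F' ∈ Van l A :=
  and_congr (iff_of_true h h') (eventually_congr (Eventually.mono (le_principal_iff.1 hA) e))

theorem Van_az {A B : Filter (EE g)} (hA : A ≤ 𝓟 (HH g)) (hB : B ≤ 𝓟 (HH g))
    (h : Van l A ⊆ Van l B) (γ : Sp g ℤ) : Van l (map (az γ) A) ⊆ Van l (map (az γ) B) := by
  intro F hF
  obtain ⟨F', h', e⟩ := hF.1.az γ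
  exact (van_map hF.1 h' e hB).2 (h ((van_map hF.1 h' e hA).1 hF))

theorem Van_sc (hl : 0 < l) {A B : Filter (EE g)} (hA : A ≤ 𝓟 (HH g)) (hB : B ≤ 𝓟 (HH g))
    (h : Van l A ⊆ Van l B) (e : Fin g → ℕ) (j : ℤ) :
    Van l (map (sc l e j) A) ⊆ Van l (map (sc l e j) B) := by
  intro F hF
  obtain ⟨F', h', e⟩ := hF.1.sc hl e j
  exact (van_map hF.1 h' e hB).2 (h ((van_map hF.1 h' e hA).1 hF))

theorem Pri.sc (hl : 0 < l) {A : Filter (EE g)} (h : Pri l A) (e : Fin g → ℕ) (j : ℤ) :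
    Pri l (map (sc l e j) A) := by
  obtain ⟨h1, h2, h3⟩ := h
  refine ⟨inferInstance, tendsto_principal.2 (Eventually.mono (le_principal_iff.1 h2)
    fun z hz => sc_mem hl e j hz), fun F F' hF hF' H => ?_⟩
  obtain ⟨G, hG, a⟩ := hF.sc hl e j
  obtain ⟨G', hG', a'⟩ := hF'.sc hl e j
  rw [van_map hF hG a h2, van_map hF' hG' a' h2]
  exact h3 G G' hG hG' ((van_map H.1 (hG.mul hG') (fun z hz => by
    simp only [Pi.mul_apply, mul_eq_zero, a z hz, a' z hz]) h2).1 H)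

/-- the stabiliser of an ideal is closed -/
theorem Van_closed {A : Filter (EE g)} (hA : A ≤ 𝓟 (HH g)) {γ : Sp g ℤ}
    (h : ∀ m, ∃ γ₀, γ * γ₀⁻¹ ∈ Gam g (32 * l ^ m) ∧ Van l (map (az γ₀) A) = Van l A) :
    Van l (map (az γ) A) = Van l A := by
  refine Set.ext fun F => ?_
  by_cases hF : Fm l F
  · obtain ⟨n, hn⟩ := hF.level
    obtain ⟨δ, h1, h2⟩ := h n
    rw [← h2]
    refine and_congr_right fun _ => ?_
    rw [eventually_map, eventually_map]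
    refine eventually_congr (Eventually.mono (le_principal_iff.1 hA) fun z hz => ?_)
    rw [← hn _ h1 _ (az_mem δ hz), ← az_mul _ _ hz, inv_mul_cancel_right]
  · exact iff_of_false (hF ·.1) (hF ·.1)

theorem Fr_subalgebra {θ : EE g → ℂ} (hθ : θ ∈ RL g 1 1) {U : Set (EE g)}
    (hU : ∀ z ∈ U, θ z ≠ 0) : ∃ K : Subalgebra ℂ (EE g → ℂ), ∀ φ, φ ∈ K ↔
      ∃ ψ, Fr l θ ψ ∧ EqOn φ ψ U := by
  have p : ∀ k, θ ^ k ∈ RL g (l ^ 0) k := fun k => by simpa using RL_pow hθ k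
  refine ⟨{ carrier := {φ | ∃ ψ, Fr l θ ψ ∧ EqOn φ ψ U}
            mul_mem' := ?_
            add_mem' := ?_
            algebraMap_mem' := fun c => ⟨_, ⟨0, 0, _, (RL g _ 0).smul_mem c (RL_one _), rfl⟩,
              fun z _ => by simp⟩ }, fun _ => Iff.rfl⟩
  · rintro a b ⟨_, ⟨m, k, F, h, rfl⟩, e⟩ ⟨_, ⟨m', k', F', h', rfl⟩, e'⟩
    exact ⟨_, ⟨_, _, _, RL_mul' h h', rfl⟩, fun z hz => by
      simp only [Pi.mul_apply, e hz, e' hz, div_mul_div_comm, pow_add]⟩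
  · rintro a b ⟨_, ⟨m, k, F, h, rfl⟩, e⟩ ⟨_, ⟨m', k', F', h', rfl⟩, e'⟩
    refine ⟨_, ⟨m + m', k + k', F * θ ^ k' + θ ^ k * F', add_mem
      (RL_mono (pow_dvd_pow l (by omega)) _ (RL_mul' h (p k')))
      (RL_mono (pow_dvd_pow l (by omega)) _ (RL_mul' (p k) h')), rfl⟩, fun z hz => ?_⟩
    have := hU z hz
    simp only [Pi.add_apply, Pi.mul_apply, Pi.pow_apply, e hz, e' hz]
    field_simp
    ring

end Pool.Agent.MT.G
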