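import Pool.Agent.Lib.MP_d61fbb_ag.MT.G7e

/-! Block G: the decomposition of the ideal of the orbit. -/

noncomputable section

namespace Pool.Agent.MT.G

open Matrix Complex Filter Topology Set Metric

variable {g l : ℕ} {e : Fin g → ℕ} {k : ℕ → Sp g ℤ} {τ : EE g}

theorem claim_univ (hg : 0 < g) (hl : l.Prime) (h2 : l ≠ 2) (hτ : τ ∈ HH g) (h : Gen τ)
    (hk : Cau l k) (he : ∀ i, 0 < e i) : Claim l e k τ univ := by
  exact claim_univ2 hg hl h2 hτ h hk he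

theorem fin_fibre (hg : 0 < g) (hl : l.Prime) (h2 : l ≠ 2) (hτ : τ ∈ HH g) (h : Gen τ)
    (hk : Cau l k) (he : ∀ i, 0 < e i) (j : ℤ) :
    {j' | Van l (orb l e k τ j') = Van l (orb l e k τ j)}.Finite := by
  have hl0 := hl.pos
  obtain ⟨m₀, hm₀⟩ := pt_tower (e := e) hl0 hτ hk j 0
  have hz := pt_mem (e := e) (k := k) hl0 hτ j m₀
  obtain ⟨y₀, hy₀⟩ := exists_th_ne hz
  obtain ⟨c, hU, hb, -, ha, hχ⟩ := mk_ctx l (l ^ 0) (by simp) hz (y₀ := y₀)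
  obtain ⟨W, hW, hWU, hf⟩ := c.fibre ((hχ _ (hU ▸ ⟨hz, hy₀⟩)).2 fun _ h => h)
  have tw : ∀ m ≥ m₀, ∃ c ≠ 0, ∀ y : LL g 1,
      th (ch 1 y) (pt l e k τ j m) = c * th (ch 1 y) (pt l e k τ j m₀) := fun m hm => by
    obtain ⟨γ, h1, h2⟩ := hm₀ m₀ le_rfl m hm
    rw [h2]
    exact b7_az ⟨γ, h1⟩ hz
  have key : ∀ j' : {j' | Van l (orb l e k τ j') = Van l (orb l e k τ j)}, ∃ (w : W) (m : ℕ)
      (γ : Sp g ℤ), pt l e k τ j' m = az γ w := by
    rintro ⟨j', hj⟩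
    have h0 : Fm l (th (ch 1 y₀)) := ⟨0, 1, b7_mem y₀⟩
    obtain ⟨a, h1⟩ := orb_const (e := e) hl0 hτ hk j' h0
    have h3 : th (ch 1 y₀) ∉ Van l (orb l e k τ j') := fun h => by
      obtain ⟨m, h4, h5⟩ := ((eventually_map.1 (hj.subset h).2).and (eventually_ge_atTop m₀)).exists
      obtain ⟨c, h6, h7⟩ := tw m h5
      exact mul_ne_zero h6 hy₀ (h7 y₀ ▸ h4)
    have h4 : ∀ y : LL g 1, ∀ᶠ m in atTop,
        th (ch 1 y₀) (pt l e k τ j m₀) * th (ch 1 y) (pt l e k τ j' m) =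
          th (ch 1 y) (pt l e k τ j m₀) * th (ch 1 y₀) (pt l e k τ j' m) := fun y => by
      have h5 : th (ch 1 y₀) (pt l e k τ j m₀) • th (ch 1 y) -
          th (ch 1 y) (pt l e k τ j m₀) • th (ch 1 y₀) ∈ Van l (orb l e k τ j) :=
        ⟨⟨0, 1, sub_mem (Submodule.smul_mem _ _ (b7_mem y)) (Submodule.smul_mem _ _ (b7_mem y₀))⟩,
          eventually_map.2 ((eventually_ge_atTop m₀).mono fun m hm => by
            obtain ⟨c, -, h7⟩ := tw m hm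
            simp only [Pi.sub_apply, Pi.smul_apply, smul_eq_mul, h7]
            ring)⟩
      exact (eventually_map.1 (hj.superset h5).2).mono fun m hm => sub_eq_zero.1 hm
    obtain ⟨m, h5, h6⟩ := ((eventually_all.2 h4).and (eventually_ge_atTop a)).exists
    have h7 := mt (h1 m h6).1 h3
    obtain ⟨γ, w, hw, h8⟩ := hf (pt l e k τ j' m) (hU ▸ ⟨pt_mem hl0 hτ j' m, h7⟩) (funext fun y => by
      rw [hb, hb, div_eq_div_iff h7 hy₀, mul_comm, h5])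
    exact ⟨⟨w, hw⟩, m, γ.1, ha γ ▸ h8⟩
  choose w m γ hw using key
  have := hW.to_subtype
  refine finite_coe_iff.1 (Finite.of_injective w fun a b hab => Subtype.ext ?_)
  have hwH : (w b).1 ∈ HH g := (hU ▸ hWU (w b).2).1
  refine pt_inj hg hl.two_le hτ h hk he (m := m a) (m' := m b) (γ := γ a * (γ b)⁻¹) ?_
  rw [hw a, hw b, ← az_mul _ _ hwH, inv_mul_cancel_right, hab]

/-- the orbit of a Hodge generic point is dense -/
theorem dense_orbit (hg : 0 < g) (hl : l.Prime) (h2 : l ≠ 2) (hτ : τ ∈ HH g) (h : Gen τ)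
    (hk : Cau l k) (he : ∀ i, 0 < e i) {F : EE g → ℂ} (hF : Fm l F)
    (h0 : ∀ j, ∀ᶠ m in atTop, F (pt l e k τ j m) = 0) : ∀ z ∈ HH g, F z = 0 :=
  final hl.two_le hτ hk he (claim_univ hg hl h2 hτ h hk he) (fin_fibre hg hl h2 hτ h hk he)
    fun j => ⟨hF, h0 j⟩

end Pool.Agent.MT.G
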