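import Pool.Agent.Lib.MP_d61fbb_ag.MT.A6

/-! The transformation formula of the theta function. -/

noncomputable section

namespace Pool.Agent.MT

open Matrix Complex Sum Filter Topology

variable {g : ℕ} {τ τ' : Matrix (Fin g) (Fin g) ℂ} {f : (I2 g → ℂ) → ℂ}

lemma Qf_smul {ι : Type} [Fintype ι] {R : Type*} [CommRing R] (c : R) (x : ι ⊕ ι → R) :
    Qf (c • x) = c ^ 2 * Qf x := by
  simp only [Qf, Pi.smul_comp, smul_dotProduct, dotProduct_smul, smul_eq_mul]; ring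

/-- the translation operators of the Heisenberg group -/
def Uc (y : I2 g → ℂ) (f : (I2 g → ℂ) → ℂ) (x : I2 g → ℂ) : ℂ := ee (Ef y x / 2) * f (x + y)

/-- functions that come from entire functions of `τ x₁ + x₂` -/
structure HolK (τ : Matrix (Fin g) (Fin g) ℂ) (f : (I2 g → ℂ) → ℂ) : Prop where
  diff : Differentiable ℂ f
  ker : ∀ u x, f (x + kv τ u) = ee (Ef (kv τ u) x / 2) * f x

lemma Th_kv (h : τᵀ = τ) (u : Fin g → ℂ) (x : I2 g → ℂ) :
    Th τ (x + kv τ u) = ee (Ef (kv τ u) x / 2) * Th τ x := by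
  have e1 : kv τ u ∘ inl = u := rfl
  have e2 : kv τ u ∘ inr = -(τ *ᵥ u) := rfl
  rw [Th, Th, Pi.add_comp, Pi.add_comp, T_shift h, e1, e2, neg_add_cancel_right, ← mul_assoc,
    ← mul_assoc, ← ee_add, ← ee_add]
  congr 2
  simp only [Qf, Ef, Pi.add_comp, e1, e2, add_dotProduct, dotProduct_add, dotProduct_neg,
    neg_dotProduct, dotProduct_comm (τ *ᵥ u)]
  ring

lemma Sieg.hol (h : Sieg τ) : HolK τ (Th τ) := ⟨h.diff_Th, Th_kv h.symm⟩

lemma Ef_diff (y : I2 g → ℂ) : Differentiable ℂ (Ef y) := by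
  unfold Ef; simp only [dotProduct, Function.comp_def]; fun_prop

lemma HolK.Uc (h : HolK τ f) (y : I2 g → ℂ) : HolK τ (Uc y f) :=
  ⟨by have := Ef_diff y; have := h.diff; unfold MT.Uc; fun_prop,
    fun u x => by
      rw [MT.Uc, MT.Uc, add_right_comm, h.ker, ← mul_assoc, ← mul_assoc, ← ee_add, ← ee_add,
        Ef_add_right, Ef_add_right, Ef_swap y (kv τ u)]
      congr 2; ring⟩

lemma HolK.sum {ι : Type*} (s : Finset ι) {F : ι → (I2 g → ℂ) → ℂ} (hF : ∀ i, HolK τ (F i))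
    (c : ι → ℂ) : HolK τ fun x => ∑ i ∈ s, c i * F i x :=
  ⟨Differentiable.fun_sum fun i _ => (hF i).diff.const_mul _,
    fun u x => by simp only [(hF _).ker, Finset.mul_sum, mul_left_comm]⟩

lemma HolK.comp (h : HolK τ' f) {β : Matrix (I2 g) (I2 g) ℂ} (hβ : GS 1 β)
    (hk : ∀ u, ∃ v, β *ᵥ kv τ u = kv τ' v) : HolK τ fun x => f (β *ᵥ x) :=
  ⟨h.diff.comp (by unfold mulVec dotProduct; fun_prop), fun u x => by
    obtain ⟨v, hv⟩ := hk u
    rw [mulVec_add, hv, h.ker, ← hv, hβ, one_mul]⟩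

lemma HolK.eq (τ : Matrix (Fin g) (Fin g) ℂ) (x : I2 g → ℂ) :
    ∃ z e, ∀ f, HolK τ f → f x = e * f (Sum.elim 0 z) :=
  ⟨x ∘ inr + τ *ᵥ (x ∘ inl), _, fun f h => by
    rw [← h.ker (x ∘ inl)]; congr 1; funext i; rcases i with i | i <;> simp [kv]⟩

@[simp] lemma Uc_zero : Uc 0 f = f := by funext x; simp [Uc]

lemma Uc_Uc (y y' x : I2 g → ℂ) : Uc y (Uc y' f) x = ee (Ef y' y / 2) * Uc (y + y') f x := by
  rw [Uc, Uc, Uc, ← mul_assoc, ← mul_assoc, ← ee_add, ← ee_add, Ef_add_right, Ef_add_left, add_assoc x]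
  congr 2; ring

lemma Uc_add_int (b x : I2 g → ℂ) (m : I2 g → ℤ) :
    Uc (b + zc m) (Th τ) x = ee (Qf (zc m) / 2) * ee (Ef b (zc m) / 2) * Uc b (Th τ) x := by
  simp only [Uc, ← add_assoc, Th_int, ← mul_assoc, ← ee_add, Ef_add_left, Ef_swap (zc m) x]
  congr 2; ring

lemma Uc_Th (x : I2 g → ℂ) (m : I2 g → ℤ) : Uc (zc m) (Th τ) x = ee (Qf (zc m) / 2) * Th τ x := by
  simpa using Uc_add_int (τ := τ) 0 x m

lemma Uc_int_Uc (b x : I2 g → ℂ) (m : I2 g → ℤ) :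
    Uc (zc m) (Uc b (Th τ)) x = ee (Qf (zc m) / 2) * ee (Ef b (zc m)) * Uc b (Th τ) x := by
  simp only [Uc_Uc, add_comm (zc m), Uc_add_int, ← mul_assoc, ← ee_add]
  congr 2; ring

lemma HolK.tf (h : HolK τ f) {N : ℕ}
    (hp : ∀ m x, MT.Uc ((N : ℂ) • zc m) f x = ee (Qf ((N : ℂ) • zc m) / 2) * f x) :
    TF τ (N ^ 2) fun z => f (Sum.elim 0 ((N : ℂ) • z)) := by
  refine ⟨⟨h.diff.comp (differentiable_pi.2 ?_), fun z m => ?_⟩, fun z m => ?_⟩
  · rintro (i | i) <;> simp only [elim_inl, elim_inr, Pi.smul_apply, Pi.zero_apply] <;> fun_prop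
  · have := hp (Sum.elim 0 m) (Sum.elim 0 ((N : ℂ) • z))
    simp only [MT.Uc, Ef, Qf, dotProduct, Function.comp_def] at this
    simp only [Pi.smul_apply, zc, elim_inl, Pi.zero_apply, Int.cast_zero, smul_zero, zero_mul,
      mul_zero, Finset.sum_const_zero, sub_zero, zero_div, ee_zero, one_mul] at this
    rw [← this]; congr 1; funext i; rcases i with i | i <;> simp
  · have h1 := hp (Sum.elim m 0) (Sum.elim 0 ((N : ℂ) • z))
    have h2 := h.ker (-((N : ℂ) • zc m)) (Sum.elim (0 : Fin g → ℂ) ((N : ℂ) • z) +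
      (N : ℂ) • zc (Sum.elim m 0))
    have e : (N : ℂ) • zc (Sum.elim m 0 : I2 g → ℤ) = Sum.elim ((N : ℂ) • zc m) 0 := by
      funext i; rcases i with i | i <;> simp
    rw [MT.Uc] at h1
    rw [show Sum.elim (0 : Fin g → ℂ) ((N : ℂ) • (z + τ *ᵥ zc m)) = Sum.elim (0 : Fin g → ℂ)
      ((N : ℂ) • z) + (N : ℂ) • zc (Sum.elim m 0) + kv τ (-((N : ℂ) • zc m)) by
        funext i; rcases i with i | i <;> simp [kv, e, mulVec_neg, mulVec_smul], h2]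
    refine mul_left_cancel₀ (ee_ne _) ((mul_left_comm _ _ _).trans ((congrArg _ h1).trans ?_))
    simp only [← mul_assoc, ← ee_add, e]
    congr 2
    simp [Ef, Qf, kv, Pi.add_comp, mulVec_neg, mulVec_smul, dotProduct_comm (τ *ᵥ _)]
    ring

/-- uniqueness of the theta function -/
theorem HolK.uniq (hτ : Sieg τ) (h : HolK τ f)
    (hp : ∀ m x, MT.Uc (zc m) f x = ee (Qf (zc m) / 2) * f x) : ∃ c, ∀ x, f x = c * Th τ x := by
  have h1 := h.tf (N := 1) (by simpa using hp)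
  simp only [one_pow, Nat.cast_one, one_smul] at h1
  refine ⟨cf (fun z => f (Sum.elim 0 z)) 0, fun x => ?_⟩
  obtain ⟨z, e, he⟩ := HolK.eq τ x
  rw [he _ h, he _ hτ.hol, h1.uniq hτ z, mul_left_comm]
  simp [Th, Qf]

theorem HolK.card_le {N : ℕ} (hN : 0 < N) {ι : Type*} [Fintype ι] {F : ι → (I2 g → ℂ) → ℂ}
    (hF : ∀ i, HolK τ (F i))
    (hp : ∀ i m x, MT.Uc ((N : ℂ) • zc m) (F i) x = ee (Qf ((N : ℂ) • zc m) / 2) * F i x)
    (hl : LinearIndependent ℂ F) : Fintype.card ι ≤ (N ^ 2) ^ g := by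
  refine TF.card_le (pow_pos hN 2) (fun i => (hF i).tf (hp i)) ?_
  rw [Fintype.linearIndependent_iff] at hl ⊢
  refine fun c hc => hl c (funext fun x => ?_)
  obtain ⟨z, e, he⟩ := HolK.eq τ x
  have h1 : (N : ℂ) ≠ 0 := by exact_mod_cast hN.ne'
  have := congrFun hc ((N : ℂ)⁻¹ • z)
  simp only [Finset.sum_apply, Pi.smul_apply, smul_eq_mul, smul_inv_smul₀ h1, Pi.zero_apply] at this ⊢
  simp only [he _ (hF _), mul_left_comm _ e, ← Finset.mul_sum, this, mul_zero]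

lemma ee_eq_one {x : ℂ} (h : ee x = 1) : ∃ n : ℤ, x = n := by
  obtain ⟨n, hn⟩ := exp_eq_one_iff.1 h
  exact ⟨n, mul_left_cancel₀ two_pi_I_ne_zero (by rw [hn, mul_comm])⟩

/-- translates by vectors that are distinct modulo the lattice are linearly independent -/
theorem Sieg.indep (hτ : Sieg τ) {ι : Type*} {b : ι → I2 g → ℂ}
    (hb : ∀ i j m, b i = b j + zc m → i = j) : LinearIndependent ℂ fun i => Uc (b i) (Th τ) := by
  let χ (i : ι) : Multiplicative (I2 g → ℤ) →* ℂ :=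
    ⟨⟨fun m => ee (Ef (b i) (zc m.toAdd)), by simp⟩, fun m n => by
      simp [zc_add, Ef_add_right, ee_add]⟩
  have hχ : Function.Injective χ := fun i j e => by
    have h1 : ∀ m, ∃ n : ℤ, Ef (b i - b j) (zc m) = n := fun m => ee_eq_one (by
      have : ee (Ef (b i) (zc m)) = ee (Ef (b j) (zc m)) :=
        DFunLike.congr_fun e (Multiplicative.ofAdd m)
      rw [Ef_sub_left, sub_eq_neg_add, ee_add, this, ee_neg_mul])
    choose n hn using h1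
    refine hb i j (Sum.elim (fun k => n (Pi.single (inr k) 1)) fun k => -n (Pi.single (inl k) 1)) ?_
    funext k
    rcases k with k | k <;> simp [zc, ← hn, Ef, dotProduct, Pi.single_apply]
  have hl := linearIndependent_iff'.1 ((linearIndependent_monoidHom _ ℂ).comp χ hχ)
  refine linearIndependent_iff'.2 fun s c hc i hi => ?_
  obtain ⟨v, hv⟩ := hτ.Th_ne
  refine (mul_eq_zero.1 (hl s (fun j => c j * Uc (b j) (Th τ) (v - b i)) (funext fun m => ?_)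
    i hi)).resolve_right (mul_ne_zero (ee_ne _) (by simpa using hv))
  have := congrArg (fun F => Uc (zc m.toAdd) F (v - b i)) hc
  simp only [Uc.eq_1 (zc _), Finset.sum_apply, Pi.smul_apply, smul_eq_mul, Finset.mul_sum,
    mul_left_comm (ee _), Pi.zero_apply, mul_zero] at this
  simp only [← Uc.eq_1 (zc _), Uc_int_Uc] at this
  refine mul_left_cancel₀ (ee_ne (Qf (zc m.toAdd) / 2)) ?_
  rw [Pi.zero_apply, mul_zero, ← this, Finset.sum_apply, Finset.mul_sum]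
  exact Finset.sum_congr rfl fun j _ => by simp [χ]; ring

/-- linear relations between translates do not depend on `τ` -/
theorem Sieg.transfer (hτ : Sieg τ) (τ' : Matrix (Fin g) (Fin g) ℂ) {ι : Type*} [Fintype ι]
    {b : ι → I2 g → ℂ} {c : ι → ℂ} (h : ∀ x, ∑ i, c i * Uc (b i) (Th τ) x = 0) (x : I2 g → ℂ) :
    ∑ i, c i * Uc (b i) (Th τ') x = 0 := by
  let Λ : AddSubgroup (I2 g → ℂ) := (AddMonoidHom.mk' zc zc_add).range
  have h1 : ∀ i, ∃ e : ℂ, ∀ τ, Uc (b i) (Th τ) = e • Uc (b i : _ ⧸ Λ).out (Th τ) := fun i => by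
    obtain ⟨⟨_, m, rfl⟩, hm⟩ := QuotientAddGroup.mk_out_eq_add Λ (b i)
    refine ⟨_, fun τ => funext fun x => Eq.trans ?_ (Uc_add_int _ x (-m))⟩
    rw [hm, zc_neg]; simp
  choose e he using h1
  have h2 : ∀ τ, Finsupp.linearCombination ℂ (fun k : _ ⧸ Λ => Uc k.out (Th τ))
      (∑ i, Finsupp.single (b i : _ ⧸ Λ) (c i * e i)) = fun x => ∑ i, c i * Uc (b i) (Th τ) x :=
    fun τ => funext fun x => by
      simp only [map_sum, Finsupp.linearCombination_single, he _ τ, Finset.sum_apply, Pi.smul_apply,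
        smul_eq_mul, mul_assoc]
  have h3 := linearIndependent_iff.1 (hτ.indep (b := fun k : _ ⧸ Λ => k.out) fun k l m e => by
    rw [← k.out_eq, ← l.out_eq, e]
    exact QuotientAddGroup.mk_add_of_mem _ ⟨m, rfl⟩) _ ((h2 τ).trans (funext h))
  rw [← congrFun (h2 τ') x, h3, map_zero, Pi.zero_apply]

/-- the points of order `N` -/
def tN (N : ℕ) (b : I2 g → Fin N) : I2 g → ℂ := fun i => (b i : ℕ) / N

theorem HolK.span (hτ : Sieg τ) (h : HolK τ f) {N : ℕ} (hN : 0 < N)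
    (hp : ∀ m x, MT.Uc ((N : ℂ) • zc m) f x = ee (Qf ((N : ℂ) • zc m) / 2) * f x) :
    ∃ c : (I2 g → Fin N) → ℂ, ∀ x, f x = ∑ b, c b * MT.Uc (tN N b) (Th τ) x := by
  have h1 : (N : ℂ) ≠ 0 := by exact_mod_cast hN.ne'
  have h2 := hτ.indep (b := tN N) fun a b m e => funext fun i => by
    have h3 : ((a i : ℕ) : ℤ) = (b i : ℕ) + N * m i := by
      have := congrFun e i
      simp only [tN, Pi.add_apply, zc] at this
      field_simp at this
      exact_mod_cast this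
    have := congrArg (· % (N : ℤ)) h3
    simp only [Int.add_mul_emod_self_left] at this
    exact Fin.ext (by simpa [← Int.natCast_mod, Nat.mod_eq_of_lt] using this)
  by_contra! h0
  have := HolK.card_le (τ := τ) hN (F := fun o : Option _ => o.casesOn' f fun b => MT.Uc (tN N b) (Th τ))
    (by rintro (_ | b); exacts [h, hτ.hol.Uc _]) ?_ (h2.option fun hf => ?_)
  · simp [← pow_mul, two_mul] at this
  · rintro (_ | b) m x
    · exact hp m x
    · have e : (N : ℂ) • zc m = zc ((N : ℤ) • m) := by funext i; simp [zc]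
      have e' : Ef (tN N b) ((N : ℂ) • zc m) = Ef (zc fun i => (b i : ℕ)) (zc m) := by
        rw [Ef_smul_right, ← Ef_smul_left]; congr 1; funext i; simp [tN, zc]; field_simp
      simp only [Option.casesOn'_some]
      rw [e, Uc_int_Uc, ← e, e', Ef_zc, ee_int, mul_one]
  · obtain ⟨c, hc⟩ := (Submodule.mem_span_range_iff_exists_fun ℂ).1 hf
    obtain ⟨x, hx⟩ := h0 c
    exact hx (by rw [← hc]; simp)

/-- holomorphic functions on the Siegel upper half space -/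
def HolS (j : Matrix (Fin g) (Fin g) ℂ → ℂ) : Prop :=
  ∀ (X : Type) [NormedAddCommGroup X] [NormedSpace ℂ X] (t : X → Fin g → Fin g → ℂ) (x : X),
    Sieg (of (t x)) → (∀ y, (of (t y))ᵀ = of (t y)) → DifferentiableAt ℂ t x →
      DifferentiableAt ℂ (fun y => j (of (t y))) x

variable {j k : Matrix (Fin g) (Fin g) ℂ → ℂ} {ν : ℝ} {γ : Matrix (I2 g) (I2 g) ℂ}

lemma holS_const (c : ℂ) : HolS fun _ : Matrix (Fin g) (Fin g) ℂ => c :=
  fun _ _ _ _ _ _ _ _ => differentiableAt_const _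

lemma HolS.mul (hj : HolS j) (hk : HolS k) : HolS fun τ => j τ * k τ :=
  fun X _ _ t x a b c => (hj X t x a b c).mul (hk X t x a b c)

lemma HolS.sum {ι : Type*} (s : Finset ι) {F : ι → Matrix (Fin g) (Fin g) ℂ → ℂ}
    (hF : ∀ i, HolS (F i)) : HolS fun τ => ∑ i ∈ s, F i τ :=
  fun X _ _ t x a b c => DifferentiableAt.fun_sum fun i _ => hF i X t x a b c

lemma holS_Th (x : I2 g → ℂ) : HolS fun τ => Th τ x := fun _ _ _ _ _ a b c =>
  (T_diffAt a b c (differentiableAt_const _) (differentiableAt_const _)).const_mul _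

lemma holS_Uc (b x : I2 g → ℂ) : HolS fun τ => Uc b (Th τ) x := (holS_const _).mul (holS_Th _)

lemma HolS.act (hj : HolS j) (h : RS ν γ) : HolS fun τ => j (act γ τ) := fun X _ _ t x a b c =>
  hj X (fun y => of.symm (MT.act γ (of (t y)))) x (h.sieg a) (fun y => h.gs.act_symm (b y))
    (act_diffAt c (h.det_ne a))

lemma HolS.of_eq {ι : Type*} {F G : Matrix (Fin g) (Fin g) ℂ → ι → ℂ} (hF : ∀ x, HolS (F · x))
    (hG : ∀ x, HolS (G · x)) (h : ∀ τ, Sieg τ → (∃ x, G τ x ≠ 0) ∧ ∀ x, F τ x = j τ * G τ x) :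
    HolS j := fun X _ _ t x a b c => by
  obtain ⟨v, hv⟩ := (h _ a).1
  refine ((hF v X t x a b c).mul ((hG v X t x a b c).inv hv)).congr_of_eventuallyEq ?_
  filter_upwards [a.eventually b c.continuousAt,
    (hG v X t x a b c).continuousAt.eventually_ne hv] with y h1 h2
  rw [Pi.mul_apply, Pi.inv_apply, (h _ h1).2, mul_inv_cancel_right₀ h2]

lemma Uc_comp (h : GS 1 γ) (y x : I2 g → ℂ) :
    Uc y (fun x => f (γ *ᵥ x)) x = Uc (γ *ᵥ y) f (γ *ᵥ x) := by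
  rw [Uc, Uc, h, one_mul, mulVec_add]

lemma GS.dl_mul_transpose {R : Type*} [CommRing R] {γ : Matrix (I2 g) (I2 g) R} (h : GS 1 γ) :
    MT.dl γ * γᵀ = 1 := mul_eq_one_comm.1 (by rw [h.transpose_mul_dl, one_smul])

lemma GS.transpose {R : Type*} [CommRing R] {γ : Matrix (I2 g) (I2 g) R} (h : GS 1 γ) : GS 1 γᵀ :=
  gs_one_iff.2 (SymplecticGroup.transpose_mem (gs_one_iff.1 h))

lemma RS.gs_one (h : RS 1 γ) : GS 1 γ := by simpa using h.gs

lemma RS.hol (h : RS 1 γ) (hτ : Sieg τ) : HolK τ fun x => Th (act γ τ) (MT.dl γ *ᵥ x) :=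
  (h.sieg hτ).hol.comp h.gs_one.dl fun _ => ⟨_, dl_kv (h.det_ne hτ) _⟩

theorem RS.trans (h : RS 1 γ) {H : Matrix (Fin g) (Fin g) ℂ → (I2 g → ℂ) → ℂ}
    (h1 : ∀ x, HolS (H · x)) (h2 : ∀ τ, Sieg τ → HolK τ (H τ) ∧ (∃ x, H τ x ≠ 0) ∧
      ∀ m x, Uc (γᵀ *ᵥ zc m) (H τ) x = ee (Qf (zc m) / 2) * H τ x) :
    ∃ j, HolS j ∧ ∀ τ, Sieg τ → j τ ≠ 0 ∧ ∀ x, Th (act γ τ) (MT.dl γ *ᵥ x) = j τ * H τ x := by
  have e : ∀ x, γᵀ *ᵥ MT.dl γ *ᵥ x = x := fun x => by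
    rw [mulVec_mulVec, h.gs_one.transpose_mul_dl, one_smul, one_mulVec]
  have : ∀ τ, ∃ c, Sieg τ → c ≠ 0 ∧ ∀ x, Th (act γ τ) (MT.dl γ *ᵥ x) = c * H τ x := fun τ => by
    by_cases hτ : Sieg τ
    swap
    · exact ⟨0, fun h => (hτ h).elim⟩
    obtain ⟨a1, ⟨v, hv⟩, a2⟩ := h2 τ hτ
    obtain ⟨c, hc⟩ := (a1.comp h.gs_one.transpose fun u => ⟨(cj γ τ)⁻¹ *ᵥ u, by
      rw [← e (kv τ _), dl_kv (h.det_ne hτ), mulVec_mulVec u, mul_nonsing_inv _
        (h.det_ne hτ).isUnit, one_mulVec]⟩).uniq (h.sieg hτ) fun m x => by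
      rw [Uc_comp h.gs_one.transpose, a2]
    have h0 : c ≠ 0 := fun h0 => hv (by rw [← e v, hc, h0, zero_mul])
    exact ⟨c⁻¹, fun _ => ⟨inv_ne_zero h0, fun x => by rw [← e x, hc, e, inv_mul_cancel_left₀ h0]⟩⟩
  choose j hj using this
  exact ⟨j, HolS.of_eq (fun x => (holS_Th _).act h) h1 fun τ hτ => ⟨(h2 τ hτ).2.1, (hj τ hτ).2⟩, hj⟩

lemma sieg_I : Sieg (I • (1 : Matrix (Fin g) (Fin g) ℂ)) :=
  ⟨by simp, fun y hy => by
    simpa [smul_mulVec, dotProduct] using (dotProduct_self_star_pos_iff (v := y)).2 hy⟩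

lemma zc_mulVec2 (β : Matrix (I2 g) (I2 g) ℤ) (m : I2 g → ℤ) : zc (β *ᵥ m) = β.map (↑) *ᵥ zc m := by
  funext i; simp [mulVec, dotProduct, zc]

/-- the transformation formula for rational symplectic matrices -/
theorem RS.trans_rat (h : RS 1 γ) {N : ℕ} (hN : 0 < N) {β : Matrix (I2 g) (I2 g) ℤ}
    (hβ : β.map (↑) = (N : ℂ) • γ) : ∃ (c : (I2 g → Fin (2 * N)) → ℂ) (j : _ → ℂ), HolS j ∧
      ∀ τ, Sieg τ → j τ ≠ 0 ∧ ∀ x, Th (act γ τ) (MT.dl γ *ᵥ x) =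
        j τ * ∑ b, c b * Uc (tN (2 * N) b) (Th τ) x := by
  have e : ∀ x, MT.dl γ *ᵥ γᵀ *ᵥ x = x := fun x => by
    rw [mulVec_mulVec, h.gs_one.dl_mul_transpose, one_mulVec]
  obtain ⟨c, hc⟩ := (h.hol sieg_I).span sieg_I (N := 2 * N) (by omega) fun m x => by
    have e1 : MT.dl γ *ᵥ (((2 * N : ℕ) : ℂ) • zc m) = zc ((2 : ℤ) • MT.dl β *ᵥ m) := by
      rw [Nat.cast_mul, mul_smul, mulVec_smul, mulVec_smul, ← smul_mulVec (N : ℂ), ← dl_smul, ← hβ,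
        two_smul ℤ, zc_add, zc_mulVec2, Nat.cast_two, two_smul]
      exact congrArg (fun M => M *ᵥ zc m + M *ᵥ zc m) (dl_map (Int.castRingHom ℂ) β).symm
    rw [Uc_comp h.gs_one.dl, e1, Uc_Th]
    congr 1
    refine ee_congr (2 * Qf (MT.dl β *ᵥ m) - 2 * N ^ 2 * Qf m) ?_
    rw [Qf_zc, Qf_smul, Qf_smul, Qf_zc]; push_cast; ring
  refine ⟨c, h.trans (fun x => HolS.sum _ fun b => (holS_const _).mul (holS_Uc _ _)) fun τ hτ =>
    ⟨HolK.sum _ (fun b => hτ.hol.Uc _) c, ?_, fun m x => ?_⟩⟩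
  · by_contra! h0
    obtain ⟨v, hv⟩ := (h.sieg sieg_I).Th_ne
    exact hv (by rw [← e v, hc, hτ.transfer _ h0])
  · have k : ∀ τ x, ∑ i : _ ⊕ _, Sum.elim (fun b => c b * ee (Ef (tN (2 * N) b) (γᵀ *ᵥ zc m) / 2))
        (fun b => -(ee (Qf (zc m) / 2) * c b)) i * Uc (Sum.elim (fun b => γᵀ *ᵥ zc m + tN (2 * N) b)
        (tN (2 * N)) i) (Th τ) x = Uc (γᵀ *ᵥ zc m) (fun x => ∑ b, c b * Uc (tN (2 * N) b) (Th τ) x) x
        - ee (Qf (zc m) / 2) * ∑ b, c b * Uc (tN (2 * N) b) (Th τ) x := fun τ x => by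
      simp only [Fintype.sum_sum_type, elim_inl, elim_inr, mul_assoc, ← Uc_Uc, neg_mul,
        Finset.sum_neg_distrib, Uc.eq_1 (γᵀ *ᵥ _), Finset.mul_sum, mul_left_comm (c _), sub_eq_add_neg]
    rw [← sub_eq_zero, ← k]
    refine sieg_I.transfer _ (fun x => ?_) x
    rw [k, ← funext hc, ← hc, Uc_comp h.gs_one.dl, e, Uc_Th, sub_self]

/-- the transformation formula for integral symplectic matrices -/
theorem GS.trans_int {γ : Matrix (I2 g) (I2 g) ℤ} (h : GS 1 γ) {η : I2 g → ℤ}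
    (hη : ∀ n, Even (Qf (MT.dl γ *ᵥ n) - Qf n - Ef η n)) : ∃ j, HolS j ∧ ∀ τ, Sieg τ → j τ ≠ 0 ∧
      ∀ x, Th (act (γ.map (↑)) τ) (MT.dl (γ.map (↑)) *ᵥ x) =
        j τ * Uc ((1 / 2 : ℂ) • zc η) (Th τ) x := by
  refine RS.trans (by simpa using h.rs_int one_pos) (holS_Uc _) fun τ hτ =>
    ⟨hτ.hol.Uc _, ?_, fun m x => ?_⟩
  · obtain ⟨v, hv⟩ := hτ.Th_ne
    exact ⟨v - (1 / 2 : ℂ) • zc η, mul_ne_zero (ee_ne _) (by simpa using hv)⟩
  · obtain ⟨k, hk⟩ := hη (γᵀ *ᵥ m)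
    rw [mulVec_mulVec, h.dl_mul_transpose, one_mulVec] at hk
    rw [← transpose_map, ← zc_mulVec2, Uc_int_Uc, ← ee_add, Ef_smul_left, Ef_zc, Qf_zc, Qf_zc]
    congr 1
    refine ee_congr (-k) ?_
    have := congrArg (Int.cast : ℤ → ℂ) hk
    push_cast at this ⊢
    linear_combination -this / 2

theorem GS.exists_char {β : Matrix (I2 g) (I2 g) ℤ} (h : GS 1 β) :
    ∃ η : I2 g → ZMod 2, ∀ n, Even (Qf (β *ᵥ n) - Qf n - Ef (vz η) n) := by
  let d : (I2 g → ℤ) →+ ZMod 2 := .mk' (fun n => (Qf (β *ᵥ n) - Qf n : ℤ)) fun m n => by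
    rw [mulVec_add, Qf_add, Qf_add, h]
    push_cast
    rw [show (2 : ZMod 2) = 0 from rfl]; ring
  refine ⟨Sum.elim (fun i => d (Pi.single (inr i) 1)) fun i => d (Pi.single (inl i) 1), fun n => ?_⟩
  rw [← ZMod.intCast_eq_zero_iff_even, Int.cast_sub, sub_eq_zero]
  change d n = _
  conv_lhs => rw [pi_eq_sum_univ' n, map_sum]
  simp only [map_zsmul]
  simp [Ef, dotProduct, vz, add_comm, mul_comm, sub_eq_add_neg]

lemma even_of_two {β δ : Matrix (I2 g) (I2 g) ℤ} (h : β = 1 + (2 : ℤ) • δ) (n : I2 g → ℤ) :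
    Even (Qf (β *ᵥ n) - Qf n - Ef 0 n) := by
  rw [h, add_mulVec, one_mulVec, smul_mulVec, Qf_add, Qf_smul, Ef_smul_right, Ef_zero_left]
  exact ⟨2 * Qf (δ *ᵥ n) + Ef n (δ *ᵥ n) + (n ∘ inr) ⬝ᵥ (((2 : ℤ) • δ *ᵥ n) ∘ inl), by ring⟩

theorem GS.trans_hv {γ : Matrix (I2 g) (I2 g) ℤ} (h : GS 1 γ) : ∃ η j, HolS j ∧ ∀ τ, Sieg τ →
    j τ ≠ 0 ∧ ∀ x, Th (act (γ.map (↑)) τ) (MT.dl (γ.map (↑)) *ᵥ x) = j τ * Uc (hv η) (Th τ) x :=
  let ⟨η, hη⟩ := h.dl.exists_char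
  ⟨η, h.trans_int hη⟩

theorem GS.trans_two {γ δ : Matrix (I2 g) (I2 g) ℤ} (h : GS 1 γ) (h2 : γ = 1 + (2 : ℤ) • δ) :
    ∃ j, HolS j ∧ ∀ τ, Sieg τ → j τ ≠ 0 ∧
      ∀ x, Th (act (γ.map (↑)) τ) (MT.dl (γ.map (↑)) *ᵥ x) = j τ * Th τ x := by
  simpa using h.trans_int (even_of_two (δ := MT.dl δ) (by rw [h2, dl_add, dl_smul, dl_one]))

end Pool.Agent.MT
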