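import Pool.Agent.Lib.MP_d61fbb_ag.MT.A4

/-! Block F: statements. -/

namespace Pool.Agent.MT

/-- The quartic form with coefficients `z` and characteristics `ch`, read at `θ`. -/
noncomputable def qv {ι A : Type} [Fintype ι] (z : ι → ℤ) (ch : ι → Fin 4 → A) (θ : A → ℂ) : ℂ :=
  ∑ i, (z i : ℂ) * ∏ k, θ (ch i k)

/-- The theta constants with characteristics of denominator `m`. -/
noncomputable def Thm (m : ℕ) (τ : Matrix (Fin 4) (Fin 4) ℂ) (a : I2 4 → ℤ) : ℂ :=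
  Th τ fun j => (a j : ℂ) / m

/-- Many independent quartic monomials in theta constants. -/
def FInd : Prop :=
  ∀ m : ℕ, 1 ≤ m → ∃ (r : ℕ) (ch : Fin r → Fin 4 → I2 4 → ℤ), m ^ 24 ≤ 3 ^ 16 * r ∧ r ≤ m ^ 32 ∧
    ∀ c : Fin r → ℂ, (∀ τ, Sieg τ → ∑ i, c i * ∏ k, Thm m τ (ch i k) = 0) → c = 0

/-- The auxiliary quartic form: it kills a Galois stable set of at most `X₀ ^ c * m ^ 23` points
(`m = l ^ e`), it has polynomial size, and it is not zero on the Siegel space. -/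
def FOut : Prop :=
  ∀ (K : Subfield ℂ) [Module.Finite ℚ K] (l c : ℕ), 2 ≤ l → ∃ c' : ℕ, ∀ X₀ : ℕ, 2 ≤ X₀ →
    ∃ e : ℕ, 1 ≤ e ∧ l ^ e ≤ X₀ ^ c' ∧ ∃ (r : ℕ) (ch : Fin r → Fin 4 → I2 4 → ℤ),
      ∀ (X : Type) [Finite X] (θ : X → (I2 4 → ℤ) → ℂ),
        Nat.card X ≤ X₀ ^ c * (l ^ e) ^ 23 → (∀ x a, IsIntegral ℤ (θ x a)) →
        (∀ (σ : ℂ ≃+* ℂ) x a, ‖σ (θ x a)‖ ≤ ((l ^ e * X₀ : ℕ) : ℝ) ^ c) →
        (∀ σ : ℂ ≃+* ℂ, (∀ y ∈ K, σ y = y) → ∀ x, ∃ (x' : X) (u : ℂ), ∀ a, σ (θ x a) = u * θ x' a) →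
        ∃ z : Fin r → ℤ, ∑ i, |z i| ≤ (X₀ : ℤ) ^ c' ∧ (∀ x, qv z ch (θ x) = 0) ∧
          ∃ τ, Sieg τ ∧ qv z ch (Thm (l ^ e) τ) ≠ 0

end Pool.Agent.MT
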