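import Pool.Agent.Lib.MP_d61fbb_ag.MT.A1

/-! Decomposition of a periodic family of vectors along the characters. -/

noncomputable section

namespace Pool.Agent.MT

open Matrix Complex

lemma sum_ee_fin {d : ℕ} [NeZero d] (c : ZMod d) :
    ∑ k : Fin d, ee (-(((k : ℕ) : ℂ) * (c.val : ℤ) / d)) = if c = 0 then (d : ℂ) else 0 := by
  have hd : (d : ℂ) ≠ 0 := Nat.cast_ne_zero.2 (NeZero.ne d)
  have hp : ∀ k : ℕ, ee (-((k : ℂ) * (c.val : ℤ) / d)) = ee (-(c.val / d)) ^ k := fun k => by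
    rw [ee, ee, ← exp_nat_mul]; congr 1; push_cast; ring
  split_ifs with h
  · simp [h]
  simp only [hp]
  rw [Fin.sum_univ_eq_sum_range fun k => ee (-(c.val / d)) ^ k]
  have h1 : ee (-(c.val / d)) ≠ 1 := fun e => by
    obtain ⟨n, hn⟩ := exp_eq_one_iff.1 e
    have h2 : (-(c.val / d) : ℂ) = n := mul_left_cancel₀ two_pi_I_ne_zero (hn.trans (mul_comm _ _))
    have h3 : (c.val : ℤ) = d * -n := by
      have : ((c.val : ℤ) : ℂ) = d * -n := by rw [← h2]; push_cast; field_simp
      exact_mod_cast this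
    apply h
    rw [← ZMod.natCast_zmod_val c, ← Int.cast_natCast, h3]; simp
  rw [geom_sum_eq h1, ← hp, mul_div_cancel_left₀ _ hd, ← Int.cast_neg, ee_int, sub_self, zero_div]

lemma per_congr {W α : Type} {d : ℕ} {A : (α → ℤ) → W} (per : ∀ c m, A (c + d • m) = A c)
    {n n' : α → ℤ} (h : ∀ i, (n i : ZMod d) = n' i) : A n = A n' := by
  have : ∀ i, ∃ k, n' i = n i + d * k := fun i => by
    obtain ⟨k, hk⟩ := (ZMod.intCast_eq_intCast_iff_dvd_sub _ _ _).1 (h i)
    exact ⟨k, by linarith⟩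
  choose k hk using this
  rw [← per n k]; congr 1; funext i; simp [hk]

theorem exists_proj {W : Type} [AddCommGroup W] [Module ℂ W] {α : Type} [Fintype α]
    [DecidableEq α] {d : ℕ} (hd : d ≠ 0) (A : (α → ℤ) → W) (per : ∀ c m, A (c + d • m) = A c) :
    ∃ P : (α → Fin d) → W, A 0 = ∑ k, P k ∧ (∀ k, P k ∈ Submodule.span ℂ (Set.range A)) ∧
      ∀ k (T : W →ₗ[ℂ] W) (e : α → ℤ) (s : ℂ), (∀ c, T (A c) = s • A (c + e)) →
        T (P k) = (s * ee ((∑ i, ((k i : ℕ) : ℂ) * e i) / d)) • P k := by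
  have : NeZero d := ⟨hd⟩
  have hd' : (d : ℂ) ≠ 0 := Nat.cast_ne_zero.2 hd
  let B : (α → Fin d) → (α → ℤ) → W := fun k n =>
    ee (-((∑ i, ((k i : ℕ) : ℂ) * n i) / d)) • A n
  have pB : ∀ k c m, B k (c + d • m) = B k c := fun k c m => by
    simp only [B, per]
    congr 1
    refine ee_congr (-∑ i, (k i : ℕ) * m i) ?_
    simp only [Pi.add_apply, Pi.mul_apply, Pi.natCast_apply, nsmul_eq_mul, Int.cast_add, Int.cast_mul, mul_add,
      Finset.sum_add_distrib, mul_left_comm _ (d : ℂ), ← Finset.mul_sum, Int.cast_natCast,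
      Int.cast_neg, Int.cast_sum]
    field_simp; ring
  refine ⟨fun k => ((d : ℂ) ^ Fintype.card α)⁻¹ • ∑ c : α → ZMod d, B k fun i => (c i).val, ?_,
    fun k => Submodule.smul_mem _ _ (Submodule.sum_mem _ fun c _ =>
      Submodule.smul_mem _ _ (Submodule.subset_span ⟨_, rfl⟩)), fun k T e s hT => ?_⟩
  · rw [← Finset.smul_sum, Finset.sum_comm]
    have h1 : ∀ c : α → ZMod d, ∑ k : α → Fin d,
        ee (-((∑ i, ((k i : ℕ) : ℂ) * ((c i).val : ℤ)) / d)) =
        if c = 0 then (d : ℂ) ^ Fintype.card α else 0 := fun c => by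
      have h2 : ∀ k : α → Fin d, ee (-((∑ i, ((k i : ℕ) : ℂ) * ((c i).val : ℤ)) / d)) =
          ∏ i, ee (-(((k i : ℕ) : ℂ) * ((c i).val : ℤ) / d)) := fun k => by
        simp only [ee, ← exp_sum, ← Finset.mul_sum, Finset.sum_neg_distrib, Finset.sum_div]
      simp only [h2]
      rw [← Fintype.piFinset_univ, ← Finset.prod_univ_sum (fun _ => Finset.univ)
        fun i (k : Fin d) => ee (-(((k : ℕ) : ℂ) * ((c i).val : ℤ) / d))]
      simp only [sum_ee_fin]
      split_ifs with h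
      · simp [h]
      · obtain ⟨i, hi⟩ := Function.ne_iff.1 h
        exact Finset.prod_eq_zero (Finset.mem_univ i) (if_neg hi)
    simp only [B, ← Finset.sum_smul, h1, ite_smul, zero_smul, Finset.sum_ite_eq', Finset.mem_univ,
      if_true, smul_smul]
    rw [inv_mul_cancel₀ (pow_ne_zero _ hd'), one_smul]
    congr 1; funext i; simp
  · rw [map_smul, map_sum, smul_comm, Finset.smul_sum (r := _ * _), eq_comm,
      ← Equiv.sum_comp (Equiv.addRight fun i => (e i : ZMod d))]
    congr 1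
    refine Finset.sum_congr rfl fun c _ => ?_
    rw [per_congr (pB k) (n' := (fun i => ((c i).val : ℤ)) + e) fun i => by simp]
    simp only [B, map_smul, hT, smul_smul]
    congr 1
    rw [mul_assoc, ← ee_add, mul_comm]
    congr 2
    simp only [Pi.add_apply, Int.cast_add, mul_add, Finset.sum_add_distrib]
    ring

end Pool.Agent.MT
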