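import Pool.Agent.Lib.MP_d61fbb_ag.MT.H1
import Pool.Agent.Lib.MP_d61fbb_ag.MT.HP

/-! The theta function on the adelic space; irreducibility of the Heisenberg modules. -/

noncomputable section

namespace Pool.Agent.MT

open Matrix Complex Sum

variable {ι : Type} [Fintype ι] {r : ℚ} {g : ℕ}

theorem siegI_iff {τ : Matrix (Fin g) (Fin g) ℂ} : SiegI τ ↔ Sieg τ :=
  ⟨fun h => ⟨h.1, h.2⟩, fun h => ⟨h.1, h.2⟩⟩

lemma lam_dot {x y : ι → AF} (hx : ∀ i, x i ∈ Zh) (hy : ∀ i, y i ∈ Zh) : x ⬝ᵥ y ∈ Zh :=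
  Zh.sum_mem fun i _ => Zh.mul_mem (hx i) (hy i)

lemma lam_apx {α : Type} (x : α → AF) (i : α) : (x - qv' (apx x)) i ∈ Zh :=
  (exists_frac (x i)).choose_spec

lemma Qf_qa (x : ι ⊕ ι → ℚ) : Qf (qv' x) = qa (Qf x) := (Qf_map x (algebraMap ℚ AF)).symm

lemma psi_half (q : ℚ) : psi ((1 / 2 : ℚ) • qa q) = ee (q / 2) := by
  rw [qa, Algebra.smul_def, ← map_mul, psi_qa]; congr 1; push_cast; ring

lemma half_two (x : AF) : (1 / 2 : ℚ) • (2 * x) = x := by
  rw [two_mul, ← two_smul ℚ, smul_smul]; norm_num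

lemma Theta_eq (τ : Matrix (Fin g) (Fin g) ℂ) (q : I2 g → ℚ) {m : VV (Fin g)} (hm : ∀ i, m i ∈ Zh) :
    Theta τ (qv' q + m) = psi ((1 / 2 : ℚ) • (Qf m + Ef (qv' q) m)) * Th τ (qc q) := by
  have h0 := lam_apx (qv' q + m)
  rw [Theta]
  generalize apx (qv' q + m) = p at h0 ⊢
  have h1 : ∀ i, ∃ n : ℤ, p i - q i = n := fun i => qa_mem_Zh.1 (by
    have := Zh.sub_mem (hm i) (h0 i)
    rwa [show m i - (qv' q + m - qv' p) i = qa (p i - q i) by
      simp only [qv', qa, Pi.add_apply, Pi.sub_apply, map_sub]; ring] at this)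
  choose n hn using h1
  obtain rfl : p = q + fun i => (n i : ℚ) := funext fun i => eq_add_of_sub_eq' (hn i)
  have hn' : ∀ i, qv' (fun i => (n i : ℚ)) i ∈ Zh := fun i => qa_mem_Zh.2 ⟨_, rfl⟩
  have e1 : qc (q + fun i => (n i : ℚ)) = qc q + zc n := by funext i; simp [qc, zc]
  have e2 : qv' (q + fun i => (n i : ℚ)) = qv' q + qv' fun i => (n i : ℚ) :=
    funext fun i => map_add _ _ _
  have e3 : zc n = qc fun i => (n i : ℚ) := by funext i; simp [qc, zc]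
  rw [e1, Th_int, e3, Qf_qc, Ef_qc, ← psi_half, ← psi_half, ← Qf_qa, ← Ef_qv, ← mul_assoc,
    ← AddChar.map_add_eq_mul, ← AddChar.map_add_eq_mul]
  rw [e2, add_sub_add_left_eq_sub] at h0 ⊢
  obtain ⟨k, rfl⟩ : ∃ k, m = k + qv' fun i => (n i : ℚ) := ⟨_, (sub_add_cancel _ _).symm⟩
  rw [add_sub_cancel_right] at h0 ⊢
  generalize qv' (fun i => (n i : ℚ)) = w at hn' ⊢
  refine congrArg (· * _) (psi_congr ?_)
  rw [← smul_add, ← smul_add, ← smul_sub, show Qf k + Ef (qv' q + w) k + (Qf w + Ef (qv' q) w) -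
    (Qf (k + w) + Ef (qv' q) (k + w)) = 2 * -((k ∘ inl) ⬝ᵥ (w ∘ inr)) by
      rw [Qf_add, Ef_add_left, Ef_add_right, Ef_swap w k,
        show Ef k w = (k ∘ inl) ⬝ᵥ (w ∘ inr) - (k ∘ inr) ⬝ᵥ (w ∘ inl) from rfl]; ring, half_two]
  exact Zh.neg_mem (lam_dot (fun _ => h0 _) fun _ => hn' _)

theorem Theta_qv (τ : Matrix (Fin g) (Fin g) ℂ) (q : I2 g → ℚ) :
    Theta τ (qv' q) = Th τ (qc q) := by
  simpa [Qf] using Theta_eq τ q (m := 0) fun _ => Zh.zero_mem

theorem Theta_eig (τ : Matrix (Fin g) (Fin g) ℂ) : Eig 1 (Lam _) chi0 (Theta τ) := by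
  intro m hm
  funext x
  have hm' : ∀ i, m i ∈ Zh := fun i => hm i trivial
  obtain ⟨q, k, hk, rfl⟩ : ∃ q k, (∀ i, k i ∈ Zh) ∧ x = qv' q + k :=
    ⟨apx x, _, lam_apx x, (add_sub_cancel _ _).symm⟩
  change eps 1 m _ * Theta τ _ = chi0 m * _
  rw [add_assoc, Theta_eq τ q hk, Theta_eq τ q (m := k + m) fun i => Zh.add_mem (hk i) (hm' i), eps, chi0,
    ← mul_assoc, ← mul_assoc, ← AddChar.map_add_eq_mul, ← AddChar.map_add_eq_mul]
  refine congrArg (· * _) (psi_congr ?_)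
  rw [← smul_add, ← smul_add, ← smul_sub, show Ef m (qv' q + k) + (Qf (k + m) + Ef (qv' q) (k + m))
    - (Qf m + (Qf k + Ef (qv' q) k)) = 2 * (k ∘ inr) ⬝ᵥ (m ∘ inl) by
      rw [Qf_add, Ef_add_right, Ef_add_right, Ef_swap m k, Ef_swap m]; ring, half_two]
  exact lam_dot (fun _ => hk _) fun _ => hm' _

theorem Theta_neg (τ : Matrix (Fin g) (Fin g) ℂ) (x : VV (Fin g)) : Theta τ (-x) = Theta τ x := by
  obtain ⟨q, k, hk, rfl⟩ : ∃ q k, (∀ i, k i ∈ Zh) ∧ x = qv' q + k :=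
    ⟨apx x, _, lam_apx x, (add_sub_cancel _ _).symm⟩
  have e : -qv' q = qv' (-q) := funext fun i => (map_neg _ _).symm
  have e' : qc (-q) = -qc q := by funext i; simp [qc]
  rw [neg_add, e, Theta_eq τ q hk, Theta_eq τ (-q) (m := -k) fun i => Zh.neg_mem (hk i), e', Th_neg,
    ← e, Ef_neg_left, Ef_neg_right, neg_neg]
  simp [Qf, Pi.neg_comp]

lemma Sieg.hol_Th {τ : Matrix (Fin g) (Fin g) ℂ} (hτ : Sieg τ) : Hol τ 1 (Th τ) :=
  ⟨hτ.diff_Th, fun u hu x => by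
    have e : u ∘ inr = -(τ *ᵥ (u ∘ inl)) := eq_neg_of_add_eq_zero_right hu
    rw [Th, Th, Pi.add_comp, Pi.add_comp, T_shift hτ.symm, e, neg_add_cancel_right, ← mul_assoc,
      ← mul_assoc, ← ee_add, ← ee_add]
    congr 2
    simp only [Qf, Ef, Pi.add_comp, e, add_dotProduct, dotProduct_add, dotProduct_neg, neg_dotProduct,
      dotProduct_comm (τ *ᵥ _)]
    push_cast; ring⟩

theorem Theta_mem {τ : Matrix (Fin g) (Fin g) ℂ} (hτ : Sieg τ) : Theta τ ∈ HH τ 1 :=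
  ⟨⟨2, two_ne_zero, fun m hm => by
    rw [Theta_eig τ _ (nsmul_mem hm 2), chi0, show Qf (2 • m) = 2 * (2 * Qf m) by
      simp only [Qf, two_smul, Pi.add_comp, add_dotProduct, dotProduct_add]; ring, half_two,
      psi_eq_one_iff.2, one_smul]
    exact Zh.mul_mem (ofNat_mem Zh 2) (lam_dot (fun _ => hm _ trivial) fun _ => hm _ trivial)⟩,
    Th τ, hτ.hol_Th, Theta_qv τ⟩

theorem Theta_ne {τ : Matrix (Fin g) (Fin g) ℂ} (hτ : Sieg τ) : Theta τ ≠ 0 := fun e => by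
  obtain ⟨v, hv⟩ := hτ.Th_ne
  obtain ⟨q, hq⟩ := exists_rat hτ.diff_Th hv
  exact hq (by rw [← Theta_qv, e]; rfl)

lemma SiegI.reindex {κ : Type} [Fintype κ] {τ : Matrix ι ι ℂ} (hτ : SiegI τ) (e : κ ≃ ι) :
    SiegI (τ.submatrix e e) :=
  ⟨by rw [transpose_submatrix, hτ.symm], fun y hy => by
    have := hτ.pos (y ∘ e.symm) fun h => hy (by simpa [Function.comp_assoc] using congrArg (· ∘ e) h)
    rwa [submatrix_mulVec_equiv, ← comp_equiv_symm_dotProduct]⟩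

lemma SiegI.smul {τ : Matrix ι ι ℂ} (h : SiegI τ) {c : ℝ} (hc : 0 < c) : SiegI ((c : ℂ) • τ) :=
  ⟨by rw [transpose_smul, h.symm], fun y hy => by
    rw [smul_mulVec, dotProduct_smul, smul_eq_mul, im_ofReal_mul]
    exact mul_pos hc (h.pos y hy)⟩

/-- uniqueness of the theta function for any index set -/
lemma SiegI.tf_uniq {τ : Matrix ι ι ℂ} (hτ : SiegI τ) : ∃ θ : (ι → ℂ) → ℂ, ∀ f : (ι → ℂ) → ℂ,
    Differentiable ℂ f → (∀ z m, f (z + zc m) = f z) →
    (∀ z m, f (z + τ *ᵥ zc m) = ee (-(zc m ⬝ᵥ τ *ᵥ zc m / 2 + zc m ⬝ᵥ z)) * f z) →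
    ∃ c, ∀ z, f z = c * θ z := by
  let e := Fintype.equivFin ι
  have hs := siegI_iff.1 (hτ.reindex e.symm)
  refine ⟨fun z => T (τ.submatrix e.symm e.symm) 0 (z ∘ e.symm), fun f h1 h2 h3 => ?_⟩
  have hf : TF (τ.submatrix e.symm e.symm) 1 fun w => f (w ∘ e) :=
    ⟨⟨h1.comp (by simp only [Function.comp_def]; fun_prop), fun z m => h2 _ (m ∘ e)⟩, fun z m => by
      have e1 : (τ.submatrix e.symm e.symm *ᵥ zc m) = (τ *ᵥ zc (m ∘ e)) ∘ e.symm :=
        submatrix_mulVec_equiv τ (zc m) e.symm e.symm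
      have e2 : ∀ w : ι → ℂ, zc m ⬝ᵥ (w ∘ e.symm) = zc (m ∘ e) ⬝ᵥ w := fun w =>
        (comp_equiv_symm_dotProduct _ _ _ |> (dotProduct_comm _ _).trans).trans (dotProduct_comm _ _)
      rw [e1, Pi.add_comp, Function.comp_assoc, Equiv.symm_comp_self, Function.comp_id, h3, e2,
        ← e2 (z ∘ e), Function.comp_assoc, Equiv.self_comp_symm, Function.comp_id, Nat.cast_one,
        one_mul]⟩
  exact ⟨_, fun z => by simpa [Function.comp_assoc] using hf.uniq hs (z ∘ e.symm)⟩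

lemma hol_inv {f : VV ι → ℂ} {F : (ι ⊕ ι → ℂ) → ℂ} (hF : Differentiable ℂ F)
    (e : ∀ q, f (qv' q) = F (qc q)) {y : ι ⊕ ι → ℚ} (hy : UU r (qv' y) f = f) (x : ι ⊕ ι → ℂ) :
    ee (r / 2 * Ef (qc y) x) * F (x + qc y) = F x := by
  by_contra h
  obtain ⟨q, hq⟩ := exists_rat (f := fun x => ee (r / 2 * Ef (qc y) x) * F (x + qc y) - F x)
    (((ee_diff.comp (by simp only [Ef, dotProduct, Function.comp_def]; fun_prop)).mul
      (hF.comp (differentiable_id.add_const _))).sub hF) (sub_ne_zero.2 h)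
  have := congrFun hy (qv' q)
  change eps r _ _ * f _ = _ at this
  rw [eps_qv, show qv' q + qv' y = qv' (q + y) from funext fun i => (map_add _ _ _).symm, e, e,
    show qc (q + y) = qc q + qc y by funext i; simp [qc]] at this
  exact hq (sub_eq_zero.2 this)

/-- the first half of a diagonal lattice -/
def hA (t : ℚ) (a : ι → ℤ) : ι ⊕ ι → ℚ := Sum.elim (fun i => t * a i) 0

/-- the second half of a diagonal lattice -/
def hB (t : ℚ) (a : ι → ℤ) : ι ⊕ ι → ℚ := Sum.elim 0 fun i => t * a i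

lemma HH_uniq0 {τ : Matrix ι ι ℂ} (hτ : SiegI τ) (hr : 0 < r) {N t : ℚ} (ht : r * N * t = 1) :
    ∃ θ : (ι ⊕ ι → ℚ) → ℂ, ∀ f ∈ HH τ r, (∀ a, UU r (qv' (hA N a)) f = f) →
      (∀ a, UU r (qv' (hB t a)) f = f) → ∃ c, ∀ q, f (qv' q) = c * θ q := by
  have hN : N ≠ 0 := by rintro rfl; simp at ht
  have ht' : (r : ℂ) * N * t = 1 := by exact_mod_cast ht
  obtain ⟨θ, hθ⟩ := (hτ.smul (c := r * N ^ 2) (by positivity)).tf_uniq
  refine ⟨fun q => ee (r / 2 * (qc q ∘ inl) ⬝ᵥ zz τ (qc q)) * θ ((r * N : ℂ) • zz τ (qc q)), ?_⟩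
  rintro f ⟨-, F, hF, e⟩ h1 h2
  have k : ∀ x, F x = ee (r / 2 * (x ∘ inl) ⬝ᵥ zz τ x) * F (Sum.elim 0 (zz τ x)) := fun x => by
    have := hF.cr (Sum.elim (x ∘ inl) (-(τ *ᵥ (x ∘ inl)))) (by simp [zz]) (Sum.elim 0 (zz τ x))
    rw [show Sum.elim (0 : ι → ℂ) (zz τ x) + Sum.elim (x ∘ inl) (-(τ *ᵥ (x ∘ inl))) = x by
      funext i; rcases i with i | i <;> simp [zz]] at this
    simpa [Ef] using this
  obtain ⟨c, hc⟩ := hθ (fun w => F (Sum.elim 0 ((t : ℂ) • w)))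
    (hF.diff.comp (differentiable_pi.2 fun i => by rcases i with i | i <;> simp; fun_prop))
    (fun z m => by
      have := hol_inv hF.diff e (h2 m) (Sum.elim 0 ((t : ℂ) • z))
      rw [show Ef (qc (hB t m)) (Sum.elim 0 ((t : ℂ) • z)) = 0 by simp [Ef, hB, qc, dotProduct],
        mul_zero, ee_zero, one_mul] at this
      rw [← this]; congr 1; funext i; rcases i with i | i <;> simp [hB, qc, zc])
    (fun z m => by
      have := hol_inv hF.diff e (h1 m) (Sum.elim 0 ((t : ℂ) • z))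
      have e1 : qc (hA N m) = Sum.elim ((N : ℂ) • zc m) 0 := by
        funext i; rcases i with i | i <;> simp [hA, qc, zc]
      rw [k, e1, ← Sum.elim_add_add, zero_add, add_zero] at this
      have e2 : zz τ (Sum.elim ((N : ℂ) • zc m) ((t : ℂ) • z)) =
          (t : ℂ) • (z + (((r * N ^ 2 : ℝ) : ℂ) • τ) *ᵥ zc m) := by
        simp only [zz, Sum.elim_comp_inl, Sum.elim_comp_inr, mulVec_smul, smul_mulVec, smul_add,
          smul_smul]
        rw [add_comm]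
        congr 2; push_cast; linear_combination (-N : ℂ) * ht'
      rw [← this, e2, ← mul_assoc, ← mul_assoc, ← ee_add, ← ee_add, eq_comm]
      refine (congrArg (· * _) ((congrArg ee ?_).trans ee_zero)).trans (one_mul _)
      simp only [Ef, Sum.elim_comp_inl, Sum.elim_comp_inr, smul_dotProduct, dotProduct_smul,
        dotProduct_add, zero_dotProduct, smul_eq_mul, smul_mulVec]
      push_cast
      linear_combination (zc m ⬝ᵥ z + r * N ^ 2 * (zc m ⬝ᵥ τ *ᵥ zc m) / 2) * ht')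
  refine ⟨c, fun q => ?_⟩
  rw [e, k, mul_left_comm, ← hc, smul_smul, mul_comm (t : ℂ), ht', one_smul]

theorem HH_exists {τ : Matrix ι ι ℂ} (hτ : SiegI τ) (hr : 0 < r) : ∃ f ∈ HH τ r, f ≠ 0 := by
  classical
  let e := (Fintype.equivFin ι).symm
  have hs := siegI_iff.1 ((hτ.smul (c := r) (by exact_mod_cast hr)).reindex e)
  let w : I2 (Fintype.card ι) → ℚ := Sum.elim 1 fun _ => r
  let γ : Matrix (I2 (Fintype.card ι)) (ι ⊕ ι) ℚ := of fun i => Pi.single (Sum.map e e i) (w i)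
  have k : ∀ {R : Type} [CommRing R] (φ : ℚ →+* R) (x : ι ⊕ ι → R),
      γ.map φ *ᵥ x = Sum.elim (x ∘ inl ∘ e) (φ r • (x ∘ inr ∘ e)) := fun φ x => by
    funext i
    simp only [mulVec, dotProduct, map_apply, γ, of_apply, Pi.single_apply, apply_ite φ, map_zero,
      ite_mul, zero_mul, Finset.sum_ite_eq', Finset.mem_univ, if_true]
    rcases i with i | i <;> simp [w]
  refine ⟨_, HH_pull (τ := τ) (r := r) (Theta_mem hs) γ (fun x y => ?_) (fun u hu => ?_), fun h => ?_⟩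
  · have : ∀ x, γ *ᵥ x = Sum.elim (x ∘ inl ∘ e) (r • (x ∘ inr ∘ e)) := k (RingHom.id ℚ)
    simp only [this, Ef, Sum.elim_comp_inl, Sum.elim_comp_inr, dotProduct_smul, smul_dotProduct,
      ← Function.comp_assoc, comp_equiv_dotProduct_comp_equiv, smul_eq_mul]
    ring
  · have := k (Rat.castHom ℂ) u
    rw [Rat.coe_castHom] at this
    rw [this, zz, Sum.elim_comp_inl, Sum.elim_comp_inr, submatrix_mulVec_equiv, Function.comp_assoc,
      Function.comp_assoc, Equiv.self_comp_symm, Function.comp_id, smul_mulVec, Pi.smul_comp,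
      ofReal_ratCast, ← smul_add, ← Function.comp_assoc, ← Pi.add_comp]
    rw [zz] at hu
    simp [hu]
  · refine Theta_ne hs (funext fun x => ?_)
    have := congrFun h (Sum.elim (x ∘ inl ∘ e.symm) (qa r⁻¹ • (x ∘ inr ∘ e.symm)))
    rw [show γ.map qa = γ.map (algebraMap ℚ AF) from rfl, k] at this
    refine (congrArg _ (funext fun i => ?_)).trans this
    rcases i with i | i <;> simp [hr.ne']

lemma UU_zero' (f : VV ι → ℂ) : UU r 0 f = f := funext fun x => by simp [UU, eps]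

omit [Fintype ι] in
lemma hA_add (t : ℚ) (a b : ι → ℤ) : qv' (hA t a) + qv' (hA t b) = qv' (hA t (a + b)) := by
  funext i; rcases i with i | i <;> simp [qv', hA, mul_add]

omit [Fintype ι] in
lemma hB_add (t : ℚ) (a b : ι → ℤ) : qv' (hB t a) + qv' (hB t b) = qv' (hB t (a + b)) := by
  funext i; rcases i with i | i <;> simp [qv', hB, mul_add]

lemma irr_dec [DecidableEq ι] {τ : Matrix ι ι ℂ} {f : VV ι → ℂ} (hf : f ∈ HH τ r) {N d : ℕ}
    (hd : d ≠ 0) {t : ℚ} (h1 : r * N * t = 1) (h2 : t * d = N)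
    (inv : ∀ m ∈ Lam (ι ⊕ ι), UU r (N • m) f = f) :
    ∃ P : (ι → Fin d) → VV ι → ℂ, f = ∑ k, P k ∧ ∀ k,
      P k ∈ Submodule.span ℂ (Set.range fun y => UU r y f) ∧ P k ∈ HH τ r ∧ ∃ y,
        (∀ a, UU r (qv' (hA N a)) (UU r y (P k)) = UU r y (P k)) ∧
        ∀ a, UU r (qv' (hB t a)) (UU r y (P k)) = UU r y (P k) := by
  have eB : ∀ a b, UU r (qv' (hB t a)) (UU r (qv' (hB t b)) f) = UU r (qv' (hB t (b + a))) f :=
    fun a b => by rw [UU_UU, hB_add, eps_qv, add_comm]; simp [Ef, hB, qc, dotProduct]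
  have iA : ∀ a, UU r (qv' (hA N a)) f = f := fun a => by
    rw [show qv' (hA N a) = N • qv' (hA 1 a) by funext i; rcases i with i | i <;> simp [qv', hA]]
    exact inv _ fun i _ => qa_mem_Zh.2 ⟨Sum.elim a 0 i, by rcases i with i | i <;> simp [hA]⟩
  have ps : ∀ x y : ι ⊕ ι → ℚ, psi (r • Ef (qv' x) (qv' y)) = ee ((r * Ef x y : ℚ)) := fun x y => by
    rw [Ef_qv, qa, Algebra.smul_def, ← map_mul, psi_qa]
  obtain ⟨P, s, m, e⟩ := exists_proj hd (fun c => UU r (qv' (hB t c)) f) fun c m => by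
    have : hB t (d • m) = N • hB 1 m := by
      funext i; rcases i with i | i <;> simp [hB, ← mul_assoc, h2]
    rw [add_comm, ← eB, this, show qv' (N • hB 1 m) = N • qv' (hB 1 m) from
      funext fun i => map_nsmul _ _ _, inv _ fun i _ => qa_mem_Zh.2 ⟨Sum.elim 0 m i, by
        rcases i with i | i <;> simp [hB]⟩]
  have le : Submodule.span ℂ (Set.range fun c => UU r (qv' (hB t c)) f) ≤
      Submodule.span ℂ (Set.range fun y => UU r y f) :=
    Submodule.span_mono (by rintro _ ⟨c, rfl⟩; exact ⟨_, rfl⟩)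
  refine ⟨P, ?_, fun k => ⟨le (m k), ?_, qv' (hA t fun i => -(k i : ℕ)), fun a => ?_, fun a => ?_⟩⟩
  · rw [← s, show qv' (hB t 0) = 0 by funext i; rcases i with i | i <;> simp [qv', hB], UU_zero']
  · exact (Submodule.span_le.2 (by rintro _ ⟨c, rfl⟩; exact HH_UU hf _)) (m k)
  · rw [UU_comm, e k _ 0 1 fun c => ?_]
    · simp [Ef, hA, qv', dotProduct]
    · rw [UU_comm, iA, add_zero, ps, ee_congr (y := 0) (-(c ⬝ᵥ a)), ee_zero]
      have : r * Ef (hB t c) (hA N a) = (-(c ⬝ᵥ a) : ℤ) := by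
        simp only [Ef, hA, hB, Sum.elim_comp_inl, Sum.elim_comp_inr, dotProduct, Pi.zero_apply,
          zero_mul, Finset.sum_const_zero, zero_sub, mul_neg, Finset.mul_sum, Int.cast_neg,
          Int.cast_sum, Int.cast_mul, neg_inj]
        exact Finset.sum_congr rfl fun i _ => by linear_combination (c i * a i : ℚ) * h1
      rw [this, zero_add, Rat.cast_intCast]
  · rw [UU_comm, e k _ a 1 fun c => by rw [eB, one_smul], ps, map_smul, smul_smul, one_mul, ← ee_add]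
    have hd' : (d : ℚ) ≠ 0 := Nat.cast_ne_zero.2 hd
    have : r * Ef (hA t fun i => -(k i : ℕ)) (hB t a) = -((∑ i, ((k i : ℕ) : ℚ) * a i) / d) := by
      rw [← neg_div, eq_div_iff hd']
      simp only [Ef, hA, hB, Sum.elim_comp_inl, Sum.elim_comp_inr, dotProduct, Pi.zero_apply,
        zero_mul, Finset.sum_const_zero, sub_zero, Finset.mul_sum, Finset.sum_mul, Int.cast_neg,
        Int.cast_natCast, ← Finset.sum_neg_distrib]
      exact Finset.sum_congr rfl fun i _ => by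
        linear_combination (-(k i : ℕ) * a i : ℚ) * h1 - (r * t * (k i : ℕ) * a i) * h2
    rw [this]; simp

/-- irreducibility -/
theorem HH_irr {τ : Matrix ι ι ℂ} (hτ : SiegI τ) (hr : 0 < r) {f h : VV ι → ℂ}
    (hf : f ∈ HH τ r) (hh : h ∈ HH τ r) (h0 : h ≠ 0) :
    f ∈ Submodule.span ℂ (Set.range fun y => UU r y h) := by
  classical
  obtain ⟨M, hM, inv⟩ := hf.1.common hh.1
  obtain ⟨n, hn⟩ := Int.eq_ofNat_of_zero_le (Rat.num_pos.2 hr).le
  have h3 : r * r.den = n := by rw [Rat.mul_den_eq_num, hn, Int.cast_natCast]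
  have h4 : (M : ℚ) ≠ 0 := Nat.cast_ne_zero.2 hM
  have h5 : (r.den : ℚ) ≠ 0 := Nat.cast_ne_zero.2 r.den_nz
  have h6 : n ≠ 0 := by rintro rfl; simp [hr.ne'] at h3
  have hd : n * r.den * M ^ 2 ≠ 0 := mul_ne_zero (mul_ne_zero h6 r.den_nz) (pow_ne_zero _ hM)
  have h1 : r * (M * r.den : ℕ) * (r * (M * r.den : ℕ))⁻¹ = 1 := mul_inv_cancel₀ (by positivity)
  have h2 : (r * (M * r.den : ℕ))⁻¹ * (n * r.den * M ^ 2 : ℕ) = (M * r.den : ℕ) := by
    push_cast; rw [← h3]; field_simp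
  obtain ⟨θ, hθ⟩ := HH_uniq0 hτ hr h1
  obtain ⟨P, rfl, hP⟩ := irr_dec hf hd h1 h2 fun m hm => by
    rw [mul_smul]; exact (inv _ (nsmul_mem hm _)).1
  obtain ⟨R, s, hR⟩ := irr_dec hh hd h1 h2 fun m hm => by
    rw [mul_smul]; exact (inv _ (nsmul_mem hm _)).2
  obtain ⟨j, -, hj⟩ := Finset.exists_ne_zero_of_sum_ne_zero (s ▸ h0)
  have st : ∀ y, ∀ v ∈ Submodule.span ℂ (Set.range fun y => UU r y h),
      UU r y v ∈ Submodule.span ℂ (Set.range fun y => UU r y h) := fun y v hv =>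
    Submodule.mem_comap.1 <| (Submodule.span_le (p := Submodule.comap (UU r y)
      (Submodule.span ℂ (Set.range fun y => UU r y h)))).2 (by
      rintro _ ⟨z, rfl⟩
      rw [SetLike.mem_coe, Submodule.mem_comap, UU_UU]
      exact Submodule.smul_mem _ _ (Submodule.subset_span ⟨_, rfl⟩)) hv
  have bk : ∀ y (v : VV ι → ℂ), UU r (-y) (UU r y v) = v := fun y v => by
    rw [UU_UU, neg_add_cancel, UU_zero', eps, Ef_neg_right]; simp
  obtain ⟨m1, m2, z, a1, a2⟩ := hR j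
  obtain ⟨c, hc⟩ := hθ _ (HH_UU m2 z) a1 a2
  have c0 : c ≠ 0 := by
    rintro rfl
    exact hj (by rw [← bk z (R j), (HH_UU m2 z).1.eq_zero fun q => by simp [hc], map_zero])
  refine Submodule.sum_mem _ fun k _ => ?_
  obtain ⟨-, n2, y, b1, b2⟩ := hP k
  obtain ⟨c', hc'⟩ := hθ _ (HH_UU n2 y) b1 b2
  have : UU r y (P k) = (c' / c) • UU r z (R j) := sub_eq_zero.1 (Smooth.eq_zero
    (Submodule.sub_mem _ (HH_UU n2 y) (Submodule.smul_mem _ _ (HH_UU m2 z))).1 fun q => by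
      simp only [Pi.sub_apply, Pi.smul_apply, hc, hc', smul_eq_mul]; field_simp; ring)
  rw [← bk y (P k), this]
  exact st _ _ (Submodule.smul_mem _ _ (st _ _ m1))

end Pool.Agent.MT
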