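import Pool.Agent.Lib.MP_d61fbb_ag.MT.GCub

/-! A symplectic basis that diagonalises the tensor induction of the diagonal matrices. -/

set_option autoImplicit false

noncomputable section

open Matrix Module Polynomial

namespace Pool.Agent.MT

theorem idem_fact {R n : Type*} [CommRing R] [IsDomain R] [IsPrincipalIdealRing R] [Fintype n]
    [DecidableEq n] {p : Matrix n n R} (hp : p * p = p) :
    ∃ (r : ℕ) (B : Matrix n (Fin r) R) (C : Matrix (Fin r) n R),
      B * C = p ∧ C * B = 1 ∧ p.trace = r := by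
  let b := Module.finBasis R (LinearMap.range p.mulVecLin)
  let e := Pi.basisFun R n
  have h1 : LinearMap.toMatrix b e (Submodule.subtype _) *
      LinearMap.toMatrix e b p.mulVecLin.rangeRestrict = p := by
    rw [← LinearMap.toMatrix_comp, LinearMap.subtype_comp_codRestrict]
    exact LinearMap.toMatrix'_toLin' p
  have h2 : LinearMap.toMatrix e b p.mulVecLin.rangeRestrict *
      LinearMap.toMatrix b e (Submodule.subtype _) = 1 := by
    rw [← LinearMap.toMatrix_comp, ← LinearMap.toMatrix_id b]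
    congr 1
    ext1 ⟨_, x, rfl⟩
    exact Subtype.ext (by simp [hp])
  exact ⟨_, _, _, h1, h2, (congrArg trace h1).symm.trans (by
    rw [trace_mul_comm, h2, trace_one, Fintype.card_fin])⟩

/-- A Lagrangian projector `B * C` gives a symplectic basis. -/
theorem lagr_basis {R : Type*} [CommRing R] {g : ℕ} {B : Matrix (I2 g) (Fin g) R}
    {C : Matrix (Fin g) (I2 g) R} (h1 : C * B = 1)
    (h2 : (B * C)ᵀ * J (Fin g) R = J (Fin g) R * (1 - B * C)) :
    GS 1 (fromCols B (J (Fin g) R * Cᵀ)) ∧ ∀ (A A' : Matrix (I2 g) (I2 g) R) (d : Fin g → R),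
      Aᵀ * J (Fin g) R = J (Fin g) R * A' → C * A = diagonal d * C →
      A' * (J (Fin g) R * Cᵀ) = J (Fin g) R * Cᵀ * diagonal d := by
  have sw : ∀ {A A' : Matrix (I2 g) (I2 g) R}, Aᵀ * J (Fin g) R = J (Fin g) R * A' →
      A' * J (Fin g) R = J (Fin g) R * Aᵀ := fun {A A'} h => by
    have := congrArg (fun X => J (Fin g) R * X * J (Fin g) R) h
    simpa only [Matrix.mul_assoc, J_squared, ← Matrix.mul_assoc (J _ _) (J _ _), mul_neg, neg_mul,
      Matrix.mul_one, Matrix.one_mul, neg_inj, eq_comm] using this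
  have h3 : Bᵀ * Cᵀ = 1 := by rw [← transpose_mul, h1, transpose_one]
  refine ⟨?_, fun A A' d e e' => by
    rw [← Matrix.mul_assoc, sw e, Matrix.mul_assoc, ← transpose_mul, e', transpose_mul,
      diagonal_transpose, Matrix.mul_assoc]⟩
  have a1 : Bᵀ * J (Fin g) R * B = 0 := by
    have := congrArg (fun X => Bᵀ * X * B) h2
    simpa only [transpose_mul, ← Matrix.mul_assoc, h3, Matrix.one_mul, Matrix.mul_sub,
      Matrix.sub_mul, Matrix.mul_one, Matrix.mul_assoc _ C B, h1, sub_self] using this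
  have a2 : C * J (Fin g) R * Cᵀ = 0 := by
    have := congrArg (fun X => C * X * Cᵀ) (sw h2).symm
    simpa only [transpose_mul, ← Matrix.mul_assoc, h1, Matrix.one_mul, Matrix.mul_sub,
      Matrix.sub_mul, Matrix.mul_one, Matrix.mul_assoc _ Bᵀ Cᵀ, h3, sub_self, Matrix.zero_mul] using this
  have a3 : ∀ {m : Type} (X : Matrix m (I2 g) R), X * J (Fin g) R * J (Fin g) R = -X := fun X => by
    rw [Matrix.mul_assoc, J_squared, Matrix.mul_neg, Matrix.mul_one]
  rw [gs_iff, transpose_fromCols, fromRows_mul, fromRows_mul_fromCols, a1, transpose_mul,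
    transpose_transpose, J_transpose]
  simp only [← Matrix.mul_assoc, a3, Matrix.mul_neg, Matrix.neg_mul, neg_neg, h1, h3, a2, one_smul]
  rfl

namespace Cub

variable {l : ℕ} [Fact l.Prime] (D : Cub l)

theorem Nm_adj (g : M2 (AdjoinRoot D.c)) :
    (D.Nm g)ᵀ * J (Fin 4) ℤ_[l] = J (Fin 4) ℤ_[l] * D.Nm g.adjugate := by
  obtain ⟨u, hu⟩ := D.symp
  have h4 : D.Uᵀ * J (Fin 4) (PadicAlgCl l) * D.U = -u • kp fun _ : Fin 3 => J2 (PadicAlgCl l) := by
    ext x y
    have := hu (Pi.single x 1) (Pi.single y 1)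
    rw [Ef_eq, mulVec_mulVec, ← vecMul_transpose, ← dotProduct_mulVec, mulVec_mulVec,
      ← Matrix.mul_assoc, neg_eq_iff_eq_neg, ← neg_mul] at this
    simpa using this
  have k : ∀ i, (g.map (D.σ i))ᵀ * J2 _ = J2 _ * g.adjugate.map (D.σ i) := fun i => by
    ext a b
    fin_cases a <;> fin_cases b <;> simp [J2, adjugate_fin_two, mul_apply, Fin.sum_univ_two]
  refine Matrix.map_injective (zp_alg_inj l) ?_
  beta_reduce
  rw [Matrix.map_mul, Matrix.map_mul, transpose_map, D.nm, D.nm, map_J, transpose_mul, transpose_mul]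
  calc _ = D.U'ᵀ * ((kp fun i => g.map (D.σ i))ᵀ * (D.Uᵀ * J (Fin 4) (PadicAlgCl l) * D.U)) * D.U' := by
        simp only [Matrix.mul_assoc, D.mul_inv, Matrix.mul_one]
    _ = D.U'ᵀ * ((D.Uᵀ * J (Fin 4) (PadicAlgCl l) * D.U) * kp fun i => g.adjugate.map (D.σ i)) * D.U' := by
        rw [h4, Matrix.mul_smul, Matrix.smul_mul, kp_transpose, ← kp_mul, ← kp_mul, funext k]
    _ = _ := by
        simp only [← Matrix.mul_assoc, ← transpose_mul, D.mul_inv, transpose_one, Matrix.one_mul]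

/-- the diagonal matrices with `l`-adic entries -/
def dg (a b : ℤ_[l]) : M2 (AdjoinRoot D.c) := diagonal fun i => algebraMap _ _ (![a, b] i)

theorem dg_det (a b : ℤ_[l]) : (D.dg a b).det = algebraMap _ _ (a * b) := by simp [dg]

theorem dg_adj (a b : ℤ_[l]) : (D.dg a b).adjugate = D.dg b a := by
  ext i j
  rw [adjugate_fin_two]
  fin_cases i <;> fin_cases j <;> simp [dg]

/-- `X` is diagonal in the tensor basis -/
def Rp (X : M8 ℤ_[l]) (f : (Fin 3 → Fin 2) → ℤ_[l]) : Prop :=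
  X.map (algebraMap _ (PadicAlgCl l)) = D.U * (diagonal f).map (algebraMap _ (PadicAlgCl l)) * D.U'

variable {D} {X Y : M8 ℤ_[l]} {f h : (Fin 3 → Fin 2) → ℤ_[l]}

theorem Rp.mul (a : D.Rp X f) (b : D.Rp Y h) : D.Rp (X * Y) (f * h) := by
  rw [Rp, Matrix.map_mul, a, b, Pi.mul_def, ← diagonal_mul_diagonal, Matrix.map_mul]
  simp only [Matrix.mul_assoc, ← Matrix.mul_assoc D.U', D.inv_mul, Matrix.one_mul]

theorem Rp.add (a : D.Rp X f) (b : D.Rp Y h) : D.Rp (X + Y) (f + h) := by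
  rw [Rp, Matrix.map_add _ (map_add _), a, b, Pi.add_def, ← diagonal_add,
    Matrix.map_add _ (map_add _), Matrix.mul_add, Matrix.add_mul]

theorem Rp.smul (a : D.Rp X f) (c : ℤ_[l]) : D.Rp (c • X) (c • f) := by
  rw [Rp, diagonal_smul, Matrix.map_smul' _ _ _ (map_mul _), Matrix.map_smul' _ _ _ (map_mul _), a,
    Matrix.mul_smul, Matrix.smul_mul]

theorem Rp.ext (a : D.Rp X f) (b : D.Rp Y h) (e : f = h) : X = Y :=
  Matrix.map_injective (zp_alg_inj l) (a.trans (e ▸ b.symm))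

theorem Rp.trace (a : D.Rp X f) : X.trace = ∑ d, f d := zp_alg_inj l (by
  rw [AddMonoidHom.map_trace, a, trace_mul_comm, ← Matrix.mul_assoc, D.inv_mul, Matrix.one_mul,
    ← AddMonoidHom.map_trace, trace_diagonal])

variable (D)

theorem rp_dg (a b : ℤ_[l]) : D.Rp (D.Nm (D.dg a b)) fun d => ∏ i, ![a, b] (d i) := by
  rw [Rp, D.nm, diagonal_map (map_zero _)]
  simp only [dg, diagonal_map (map_zero _), AlgHom.commutes, kp_diagonal, map_prod]

theorem rp_one : D.Rp 1 1 := by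
  rw [Rp, Pi.one_def, diagonal_one, Matrix.map_one _ (map_zero _) (map_one _),
    Matrix.map_one _ (map_zero _) (map_one _), Matrix.mul_one, D.mul_inv]

/-- the Cartan decomposition of the tensor induction of the diagonal matrices -/
theorem sp_diag (hl : l ≠ 2) : ∃ (k : M8 ℤ_[l]) (n : Fin 4 → ℕ), GS 1 k ∧ (∀ i, n i = 2 ∨ n i = 3) ∧
    ∀ a b, D.Nm (D.dg a b) * k = k * diagonal (Sum.elim (fun i => a ^ n i * b ^ (3 - n i))
      fun i => b ^ n i * a ^ (3 - n i)) := by
  obtain ⟨t, ht⟩ := (d0_two hl).exists_right_inv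
  have c : ∀ {f h : (Fin 3 → Fin 2) → ℤ_[l]}, (∀ x y z, f ![x, y, z] = h ![x, y, z]) → f = h :=
    fun e => funext fun d => by
      have := e (d 0) (d 1) (d 2)
      rwa [show ![d 0, d 1, d 2] = d by funext i; fin_cases i <;> rfl] at this
  have hp := D.rp_dg 1 0
  have hq : D.Rp (t • (1 + D.Nm (D.dg (-1) 1)) + (-1 : ℤ_[l]) • D.Nm (D.dg 0 1))
      fun d => if ∑ i, (d i : ℕ) = 1 then 1 else 0 := by
    convert ((D.rp_one.add (D.rp_dg (-1) 1)).smul t).add ((D.rp_dg 0 1).smul (-1)) using 1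
    refine c ?_
    simp only [Fin.forall_fin_two]
    simp [Fin.sum_univ_three, Fin.prod_univ_three, ← two_mul, ht]
  have adj : (D.Nm (D.dg 1 0) + (t • (1 + D.Nm (D.dg (-1) 1)) + (-1 : ℤ_[l]) • D.Nm (D.dg 0 1)))ᵀ *
      J (Fin 4) ℤ_[l] = J (Fin 4) ℤ_[l] * (1 - (D.Nm (D.dg 1 0) +
        (t • (1 + D.Nm (D.dg (-1) 1)) + (-1 : ℤ_[l]) • D.Nm (D.dg 0 1)))) := by
    have e : D.Nm (D.dg 1 (-1)) = (-1 : ℤ_[l]) • D.Nm (D.dg (-1) 1) :=
      (D.rp_dg 1 (-1)).ext ((D.rp_dg (-1) 1).smul (-1)) (c (by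
        simp only [Fin.forall_fin_two]; simp [Fin.prod_univ_three]))
    simp only [transpose_add, transpose_smul, Matrix.add_mul, Matrix.smul_mul, D.Nm_adj, dg_adj, e,
      transpose_one, Matrix.one_mul, Matrix.mul_sub, Matrix.mul_add, Matrix.mul_smul, Matrix.mul_one]
    linear_combination (norm := module) ht • J (Fin 4) ℤ_[l]
  generalize D.Nm (D.dg 1 0) = p at hp adj
  generalize t • (1 + D.Nm (D.dg (-1) 1)) + (-1 : ℤ_[l]) • D.Nm (D.dg 0 1) = q at hq adj
  obtain ⟨r, B, C, b1, b2, b3⟩ := idem_fact ((hp.mul hp).ext hp (c (by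
    simp only [Fin.forall_fin_two]; simp [Fin.prod_univ_three])))
  obtain ⟨r', B', C', c1, c2, c3⟩ := idem_fact ((hq.mul hq).ext hq (by funext d; simp))
  have z : D.Rp 0 0 := by simpa using hp.smul 0
  have pq : p * q = 0 := (hp.mul hq).ext z (c (by
    simp only [Fin.forall_fin_two]; simp [Fin.prod_univ_three, Fin.sum_univ_three]))
  have qp : q * p = 0 := (hq.mul hp).ext z (c (by
    simp only [Fin.forall_fin_two]; simp [Fin.prod_univ_three, Fin.sum_univ_three]))
  have hr : r + r' = 4 := by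
    have : ((r + r' : ℕ) : ℤ_[l]) = (4 : ℕ) := by
      rw [Nat.cast_add, ← b3, ← c3, hp.trace, hq.trace, ← Finset.sum_add_distrib]
      rw [show (fun x : Fin 3 → Fin 2 => ∏ i, ![(1 : ℤ_[l]), 0] (x i) +
          if ∑ i, (x i : ℕ) = 1 then 1 else 0) = fun x => ((if ∑ i, (x i : ℕ) ≤ 1 then 1 else 0 : ℕ) :
            ℤ_[l]) from c (by
        simp only [Fin.forall_fin_two]; simp [Fin.prod_univ_three, Fin.sum_univ_three]),
        ← Nat.cast_sum]
      exact congrArg _ (by decide)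
    exact_mod_cast this
  let ε : Fin 4 ≃ Fin r ⊕ Fin r' := (finSumFinEquiv.trans (finCongr hr)).symm
  have pB : p * B = B := by rw [← b1, Matrix.mul_assoc, b2, Matrix.mul_one]
  have qB : q * B' = B' := by rw [← c1, Matrix.mul_assoc, c2, Matrix.mul_one]
  have Cp : C * p = C := by rw [← b1, ← Matrix.mul_assoc, b2, Matrix.one_mul]
  have Cq : C' * q = C' := by rw [← c1, ← Matrix.mul_assoc, c2, Matrix.one_mul]
  obtain ⟨g1, g2⟩ := lagr_basis (B := (fromCols B B').submatrix id ε)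
    (C := (fromRows C C').submatrix ε id) (by
      rw [← submatrix_mul _ _ _ _ _ Function.bijective_id, fromRows_mul_fromCols, b2, c2, ← Cp, ← qB,
        ← Cq, ← pB]
      simp [Matrix.mul_assoc, ← Matrix.mul_assoc p q, ← Matrix.mul_assoc q p, pq, qp])
    (by rw [submatrix_mul_equiv, fromCols_mul_fromRows, b1, c1]; exact adj)
  let n : Fin 4 → ℕ := fun i => Sum.elim (fun _ => 3) (fun _ => 2) (ε i)
  have e1 : ∀ a b, D.Nm (D.dg a b) * p = a ^ 3 • p ∧ p * D.Nm (D.dg a b) = a ^ 3 • p ∧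
      D.Nm (D.dg a b) * q = (a ^ 2 * b) • q ∧ q * D.Nm (D.dg a b) = (a ^ 2 * b) • q := fun a b =>
    ⟨((D.rp_dg a b).mul hp).ext (hp.smul _) (c (by
      simp only [Fin.forall_fin_two]; simp [Fin.prod_univ_three]; ring)),
    (hp.mul (D.rp_dg a b)).ext (hp.smul _) (c (by
      simp only [Fin.forall_fin_two]; simp [Fin.prod_univ_three]; ring)),
    ((D.rp_dg a b).mul hq).ext (hq.smul _) (c (by
      simp only [Fin.forall_fin_two]; simp [Fin.prod_univ_three, Fin.sum_univ_three, sq]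
      exact ⟨by ring, by ring⟩)),
    (hq.mul (D.rp_dg a b)).ext (hq.smul _) (c (by
      simp only [Fin.forall_fin_two]; simp [Fin.prod_univ_three, Fin.sum_univ_three, sq]
      exact ⟨by ring, by ring⟩))⟩
  refine ⟨_, n, g1, fun i => by simp only [n]; cases ε i <;> simp, fun a b => ?_⟩
  rw [mul_fromCols, ← fromBlocks_diagonal, fromCols_mul_fromBlocks]
  simp only [Matrix.mul_zero, add_zero, zero_add]
  congr 1
  · have h1 : D.Nm (D.dg a b) * B = a ^ 3 • B := by
      rw [← pB, ← Matrix.mul_assoc, (e1 a b).1, Matrix.smul_mul]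
    have h2 : D.Nm (D.dg a b) * B' = (a ^ 2 * b) • B' := by
      rw [← qB, ← Matrix.mul_assoc, (e1 a b).2.2.1, Matrix.smul_mul]
    ext i j
    have : (D.Nm (D.dg a b) * (fromCols B B').submatrix id ε) i j =
      (D.Nm (D.dg a b) * fromCols B B') i (ε j) := rfl
    rw [this, mul_fromCols, h1, h2, mul_diagonal, submatrix_apply]
    simp only [n]
    cases ε j <;> simp [mul_comm]
  · refine g2 (D.Nm (D.dg b a)) _ _ (by rw [D.Nm_adj, dg_adj]) ?_
    have h1 : C * D.Nm (D.dg b a) = b ^ 3 • C := by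
      rw [← Cp, Matrix.mul_assoc, (e1 b a).2.1, Matrix.mul_smul]
    have h2 : C' * D.Nm (D.dg b a) = (b ^ 2 * a) • C' := by
      rw [← Cq, Matrix.mul_assoc, (e1 b a).2.2.2, Matrix.mul_smul]
    ext i j
    have : ((fromRows C C').submatrix ε id * D.Nm (D.dg b a)) i j =
      (fromRows C C' * D.Nm (D.dg b a)) (ε i) j := rfl
    rw [this, fromRows_mul, h1, h2, diagonal_mul, submatrix_apply]
    simp only [n]
    cases ε i <;> simp

end Cub

end Pool.Agent.MT
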