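import Pool.Agent.Lib.MP_d61fbb_ag.MT.A7

/-! Strong approximation for the finite adeles of the rationals, in coordinates. -/

noncomputable section

namespace Pool.Agent.MT

open Complex

instance factPrimes (l : Nat.Primes) : Fact (l : ℕ).Prime := ⟨l.2⟩

lemma padic_norm_prime_ne {l m : Nat.Primes} (h : l ≠ m) : ‖((m : ℕ) : ℚ_[l])‖ = 1 :=
  Padic.norm_natCast_eq_one_iff.2 ((Nat.coprime_primes l.2 m.2).2 fun e => h (Subtype.ext e))

/-- division with remainder in the profinite integers -/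
theorem zh_div (M : ℕ) (hM : M ≠ 0) : ∀ z : ∀ l : Nat.Primes, ℚ_[l], (∀ l, ‖z l‖ ≤ 1) →
    ∃ (n : ℤ) (z' : ∀ l : Nat.Primes, ℚ_[l]), (∀ l, ‖z' l‖ ≤ 1) ∧ ∀ l, z l = n + M * z' l := by
  induction M using Nat.recOnMul with
  | zero => exact absurd rfl hM
  | one => exact fun z hz => ⟨0, z, hz, fun l => by simp⟩
  | prime p hp =>
    intro z hz
    obtain ⟨m, rfl⟩ : ∃ m : Nat.Primes, (m : ℕ) = p := ⟨⟨p, hp⟩, rfl⟩
    let x : ℤ_[m] := ⟨z m, hz m⟩
    refine ⟨x.zmodRepr, fun l => (z l - x.zmodRepr) / (m : ℕ), fun l => ?_, fun l => ?_⟩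
    · by_cases h : l = m
      · subst h
        obtain ⟨y, hy⟩ := (PadicInt.norm_lt_one_iff_dvd _).1 (PadicInt.norm_sub_zmodRepr_lt_one x)
        have e : z l - x.zmodRepr = (l : ℕ) * (y : ℚ_[l]) := by
          simpa using congrArg ((↑) : ℤ_[l] → ℚ_[l]) hy
        have hp0 : ((l : ℕ) : ℚ_[l]) ≠ 0 := Nat.cast_ne_zero.2 hM
        show ‖(z l - x.zmodRepr) / (l : ℕ)‖ ≤ 1
        rw [e, mul_div_cancel_left₀ _ hp0]
        exact y.2
      · rw [norm_div, padic_norm_prime_ne (m := m) h, div_one, sub_eq_add_neg]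
        exact (IsUltrametricDist.norm_add_le_max _ _).trans (max_le (hz l)
          (by rw [norm_neg]; exact IsUltrametricDist.norm_natCast_le_one _ _))
    · have hp0 : ((m : ℕ) : ℚ_[l]) ≠ 0 := Nat.cast_ne_zero.2 hM
      rw [mul_div_cancel₀ _ hp0]; push_cast; ring
  | mul a b ha hb =>
    intro z hz
    obtain ⟨n, z', hz', e⟩ := ha (left_ne_zero_of_mul hM) z hz
    obtain ⟨n', z'', hz'', e'⟩ := hb (right_ne_zero_of_mul hM) z' hz'
    exact ⟨n + a * n', z'', hz'', fun l => by rw [e, e']; push_cast; ring⟩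

/-- a rational number that is integral at every prime is an integer -/
theorem int_of_padic_norm (q : ℚ) (h : ∀ l : Nat.Primes, ‖(q : ℚ_[l])‖ ≤ 1) : ∃ n : ℤ, q = n := by
  refine ⟨q.num, (Rat.coe_int_num_of_den_eq_one ?_).symm⟩
  by_contra hd
  obtain ⟨p, hp, hpd⟩ := Nat.exists_prime_and_dvd hd
  obtain ⟨l, rfl⟩ : ∃ l : Nat.Primes, (l : ℕ) = p := ⟨⟨p, hp⟩, rfl⟩
  have h1 := PadicInt.isUnit_iff.1 (PadicInt.isUnit_den q (h l))
  have h2 := (PadicInt.norm_lt_one_iff_dvd (q.den : ℤ_[l])).2 (Nat.cast_dvd_cast hpd)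
  exact h2.ne h1

lemma padic_add_le {l : Nat.Primes} {x y : ℚ_[l]} (hx : ‖x‖ ≤ 1) (hy : ‖y‖ ≤ 1) : ‖x + y‖ ≤ 1 :=
  (IsUltrametricDist.norm_add_le_max _ _).trans (max_le hx hy)

lemma padic_mul_le {l : Nat.Primes} {x y : ℚ_[l]} (hx : ‖x‖ ≤ 1) (hy : ‖y‖ ≤ 1) : ‖x * y‖ ≤ 1 := by
  rw [norm_mul]; exact mul_le_one₀ hx (norm_nonneg _) hy

lemma padic_nat_le (l : Nat.Primes) (n : ℕ) : ‖(n : ℚ_[l])‖ ≤ 1 :=
  IsUltrametricDist.norm_natCast_le_one _ _

/-- the finite adeles: families with a bounded denominator -/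
def AF : Subalgebra ℚ (∀ l : Nat.Primes, ℚ_[l]) where
  carrier := {x | ∃ N : ℕ, N ≠ 0 ∧ ∀ l : Nat.Primes, ‖(N : ℚ_[l]) * x l‖ ≤ 1}
  mul_mem' := by
    rintro x y ⟨M, hM, hx⟩ ⟨N, hN, hy⟩
    refine ⟨M * N, mul_ne_zero hM hN, fun l => ?_⟩
    have := padic_mul_le (hx l) (hy l)
    rwa [mul_mul_mul_comm, ← Nat.cast_mul] at this
  add_mem' := by
    rintro x y ⟨M, hM, hx⟩ ⟨N, hN, hy⟩
    refine ⟨M * N, mul_ne_zero hM hN, fun l => ?_⟩
    have := padic_add_le (padic_mul_le (padic_nat_le l N) (hx l))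
      (padic_mul_le (padic_nat_le l M) (hy l))
    convert this using 2
    simp only [Pi.add_apply, Nat.cast_mul]; ring
  algebraMap_mem' q := ⟨q.den, q.den_ne_zero, fun l => by
    have : (q.den : ℚ_[l]) * algebraMap ℚ (∀ l : Nat.Primes, ℚ_[l]) q l = (q.num : ℚ_[l]) := by
      rw [Pi.algebraMap_apply, eq_ratCast]
      exact_mod_cast Rat.den_mul_eq_num q
    rw [this]; exact Padic.norm_int_le_one _⟩

/-- the profinite integers -/
def Zh : Subring AF where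
  carrier := {x | ∀ l, ‖x.1 l‖ ≤ 1}
  mul_mem' hx hy l := padic_mul_le (hx l) (hy l)
  add_mem' hx hy l := padic_add_le (hx l) (hy l)
  one_mem' l := by simp
  zero_mem' l := by simp
  neg_mem' hx l := by simpa using hx l

/-- rational numbers as adeles -/
abbrev qa (q : ℚ) : AF := algebraMap ℚ AF q

lemma qa_apply (q : ℚ) (l : Nat.Primes) : (qa q).1 l = (q : ℚ_[l]) := by
  simp [qa]

lemma af_den (x : AF) : ∃ N : ℕ, N ≠ 0 ∧ (N : AF) * x ∈ Zh := x.2

theorem Zh_div {z : AF} (hz : z ∈ Zh) (M : ℕ) (hM : M ≠ 0) :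
    ∃ n : ℤ, ∃ z' ∈ Zh, z = n + M * z' := by
  obtain ⟨n, z', hz', e⟩ := zh_div M hM z.1 hz
  exact ⟨n, ⟨z', 1, one_ne_zero, by simpa using hz'⟩, hz', Subtype.ext (funext e)⟩

/-- strong approximation -/
theorem strong_approx (x : AF) (M : ℕ) (hM : M ≠ 0) : ∃ q : ℚ, ∃ z ∈ Zh, x = qa q + M * z := by
  obtain ⟨N, hN, hx⟩ := af_den x
  obtain ⟨n, z, hz, e⟩ := Zh_div hx (N * M) (mul_ne_zero hN hM)
  refine ⟨n / N, z, hz, ?_⟩
  have h1 : qa (N : ℚ)⁻¹ * (N : AF) = 1 := by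
    rw [← map_natCast (algebraMap ℚ AF), ← map_mul, inv_mul_cancel₀ (Nat.cast_ne_zero.2 hN), map_one]
  rw [div_eq_mul_inv, qa, map_mul, map_intCast]
  push_cast at e
  linear_combination qa (N : ℚ)⁻¹ * e + (M * z - x) * h1

theorem qa_mem_Zh {q : ℚ} : qa q ∈ Zh ↔ ∃ n : ℤ, q = n :=
  ⟨fun h => int_of_padic_norm q fun l => qa_apply q l ▸ h l, by
    rintro ⟨n, rfl⟩; rw [qa, map_intCast]; exact intCast_mem Zh n⟩

lemma exists_frac (x : AF) : ∃ q : ℚ, x - qa q ∈ Zh := by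
  obtain ⟨q, z, hz, e⟩ := strong_approx x 1 one_ne_zero
  exact ⟨q, by simpa [e] using hz⟩

lemma ee_frac {x : AF} {q q' : ℚ} (h : x - qa q ∈ Zh) (h' : x - qa q' ∈ Zh) : ee q = ee q' := by
  have := Zh.sub_mem h' h
  rw [sub_sub_sub_cancel_left, ← map_sub, qa_mem_Zh] at this
  obtain ⟨n, hn⟩ := this
  exact ee_congr n (by exact_mod_cast eq_add_of_sub_eq' hn)

/-- the standard additive character of the finite adeles -/
def psi : AddChar AF ℂ where
  toFun x := ee (exists_frac x).choose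
  map_zero_eq_one' := by
    rw [ee_frac (exists_frac 0).choose_spec (q' := 0) (by simp)]; simp
  map_add_eq_mul' x y := by
    rw [← ee_add, ← Rat.cast_add]
    refine ee_frac (exists_frac _).choose_spec ?_
    rw [qa, map_add, add_sub_add_comm]
    exact Zh.add_mem (exists_frac x).choose_spec (exists_frac y).choose_spec

lemma psi_eq {x : AF} {q : ℚ} (h : x - qa q ∈ Zh) : psi x = ee q :=
  ee_frac (exists_frac x).choose_spec h

lemma psi_qa (q : ℚ) : psi (qa q) = ee q := psi_eq (by simp)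

lemma ee_rat_eq_one {q : ℚ} (h : ee q = 1) : ∃ n : ℤ, q = n := by
  obtain ⟨n, hn⟩ := exp_eq_one_iff.1 h
  refine ⟨n, ?_⟩
  have : (q : ℂ) = n := mul_left_cancel₀ two_pi_I_ne_zero (hn.trans (mul_comm _ _))
  exact_mod_cast this

theorem psi_eq_one_iff {x : AF} : psi x = 1 ↔ x ∈ Zh := by
  refine ⟨fun h => ?_, fun h => by rw [psi_eq (q := 0) (by simpa using h)]; simp⟩
  obtain ⟨q, hq⟩ := exists_frac x
  rw [psi_eq hq] at h
  simpa using Zh.add_mem hq (qa_mem_Zh.2 (ee_rat_eq_one h))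

lemma psi_ne (x : AF) : psi x ≠ 0 := ee_ne _

lemma psi_congr {x y : AF} (h : x - y ∈ Zh) : psi x = psi y := by
  rw [← sub_add_cancel x y, AddChar.map_add_eq_mul, psi_eq_one_iff.2 h, one_mul]

lemma house_psi (x : AF) : House 1 (psi x) := House.ee_rat _

lemma norm_psi (x : AF) : ‖psi x‖ = 1 := by
  have : ‖psi x‖₊ = 1 := map_ee_rat nnnormHom _
  exact congrArg NNReal.toReal this

end Pool.Agent.MT
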