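import Pool.Agent.Lib.MP_d61fbb_ag.MT.A6
import Pool.Agent.Lib.MP_d61fbb_ag.MT.HA

/-! Strong approximation for the symplectic group. -/

noncomputable section

namespace Pool.Agent.MT

open Matrix Sum Filter Topology

variable {g : ℕ}

section
variable {R : Type*} [CommRing R]

/-- the symplectic transvections -/
def tv (v : I2 g → R) (c : R) : Matrix (I2 g) (I2 g) R :=
  1 + of fun i j => c * v i * Ef v (Pi.single j 1)

lemma Ef_sum (v x : I2 g → R) : ∑ j, Ef v (Pi.single j 1) * x j = Ef v x := by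
  simp only [Ef_eq, mulVec_single_one, neg_mul, Finset.sum_neg_distrib]
  rw [dotProduct_mulVec]
  rfl

lemma tv_mulVec (v x : I2 g → R) (c : R) : tv v c *ᵥ x = x + (c * Ef v x) • v := by
  rw [tv, add_mulVec, one_mulVec, ← Ef_sum]
  congr 1
  funext i
  simp only [mulVec, dotProduct, of_apply, Pi.smul_apply, smul_eq_mul, Finset.mul_sum,
    Finset.sum_mul]
  exact Finset.sum_congr rfl fun _ _ => by ring

lemma tv_gs (v : I2 g → R) (c : R) : GS 1 (tv v c) := fun x y => by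
  simp only [tv_mulVec, Ef_add_left, Ef_add_right, Ef_smul_left, Ef_smul_right, Ef_self,
    Ef_swap x v]
  ring

lemma tv_neg_mul (v : I2 g → R) (c : R) : tv v (-c) * tv v c = 1 := by
  refine ext_iff_mulVec.2 fun x => ?_
  rw [← mulVec_mulVec, tv_mulVec, tv_mulVec, one_mulVec, Ef_add_right, Ef_smul_right, Ef_self]
  module

lemma tv_map {S : Type*} [CommRing S] (v : I2 g → R) (c : R) (φ : R →+* S) :
    (tv v c).map φ = tv (fun i => φ (v i)) (φ c) := by
  ext i j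
  have : (fun i => φ ((Pi.single j 1 : I2 g → R) i)) = Pi.single j 1 := by
    funext k; simp [Pi.single_apply]
  simp [tv, Ef_map, this, one_apply]

lemma GS.of_map2 {S : Type*} [CommRing S] {φ : R →+* S} (hφ : Function.Injective φ) {ν : R}
    {γ : Matrix (I2 g) (I2 g) R} (h : GS (φ ν) (γ.map φ)) : GS ν γ := fun x y => hφ (by
  have e : ∀ x : I2 g → R, (fun i => φ ((γ *ᵥ x) i)) = γ.map φ *ᵥ fun i => φ (x i) := fun x =>
    funext fun i => RingHom.map_mulVec φ γ x i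
  rw [Ef_map, e, e, h, _root_.map_mul, Ef_map])

lemma GS.mul_dlT {γ : Matrix (I2 g) (I2 g) R} (h : GS 1 γ) : γ * (MT.dl γ)ᵀ = 1 := by
  have := congrArg transpose h.transpose_mul_dl
  rw [transpose_mul, transpose_transpose, one_smul, transpose_one] at this
  exact mul_eq_one_comm.1 this

lemma GS.transpose_one {γ : Matrix (I2 g) (I2 g) R} (h : GS 1 γ) : GS 1 γᵀ :=
  gs_one_iff.2 (SymplecticGroup.transpose_mem (gs_one_iff.1 h))

lemma Ef_nondeg {w : I2 g → R} (h : ∀ x, Ef w x = 0) : w = 0 := by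
  funext i
  rcases i with i | i
  · simpa [Ef, dotProduct, Pi.single_apply] using h (Pi.single (inr i) 1)
  · simpa [Ef, dotProduct, Pi.single_apply] using h (Pi.single (inl i) 1)

end

/-- the symplectic group of a field is generated by the transvections -/
theorem sp_gen {F : Type*} [Field F] (S : Submonoid (Matrix (I2 g) (I2 g) F))
    (hS : ∀ v c, tv v c ∈ S) {h : Matrix (I2 g) (I2 g) F} (hh : GS 1 h) : h ∈ S := by
  suffices H : ∀ (W : Submodule F (I2 g → F)) (h : Matrix (I2 g) (I2 g) F), GS 1 h →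
      (∀ w ∈ W, h *ᵥ w = w) → h ∈ S from H ⊥ h hh (by simp)
  intro W
  induction W using WellFoundedGT.induction with
  | ind W ih =>
  have back : ∀ h u c, tv u c * h ∈ S → h ∈ S := fun h u c e => by
    simpa [← Matrix.mul_assoc, tv_neg_mul] using S.mul_mem (hS u (-c)) e
  have fix : ∀ h v c, GS 1 h → (∀ w ∈ W, h *ᵥ w = w) →
      ∀ w ∈ W, (tv (h *ᵥ v - v) c * h) *ᵥ w = w := fun h v c hh hW w hw => by
    have := hh v w
    rw [hW w hw, one_mul] at this
    rw [← mulVec_mulVec, hW w hw, tv_mulVec, Ef_sub_left, this]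
    simp
  have step : ∀ h v, GS 1 h → (∀ w ∈ W, h *ᵥ w = w) → Ef v (h *ᵥ v) ≠ 0 → h ∈ S := by
    intro h v hh hW hv
    refine back h (h *ᵥ v - v) (Ef v (h *ᵥ v))⁻¹ (ih (W ⊔ Submodule.span F {v}) ?_ _
      (by simpa using (tv_gs _ _).mul hh) fun w hw => ?_)
    · refine left_lt_sup.2 fun e => hv ?_
      rw [hW v (e (Submodule.mem_span_singleton_self v)), Ef_self]
    · obtain ⟨y, hy, z, hz, rfl⟩ := Submodule.mem_sup.1 hw
      obtain ⟨a, rfl⟩ := Submodule.mem_span_singleton.1 hz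
      rw [mulVec_add, fix h v _ hh hW y hy, mulVec_smul, ← mulVec_mulVec, tv_mulVec, Ef_sub_left,
        Ef_self, zero_sub, mul_neg, inv_mul_cancel₀ hv]
      simp
  intro h hh hW
  by_cases h1 : ∃ v, Ef v (h *ᵥ v) ≠ 0
  · exact step h _ hh hW h1.choose_spec
  push Not at h1
  by_cases h2 : ∀ v, h *ᵥ v = v
  · rw [show h = 1 from ext_iff_mulVec.2 fun x => by rw [h2, one_mulVec]]
    exact S.one_mem
  obtain ⟨v, hv⟩ := not_forall.1 h2
  set u := h *ᵥ v - v with hu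
  obtain ⟨x, hx⟩ : ∃ x, Ef u x ≠ 0 := not_forall.1 fun e => hv (sub_eq_zero.1 (Ef_nondeg e))
  obtain ⟨y, hy⟩ : ∃ y, Ef u (h *ᵥ y) ≠ 0 :=
    ⟨(MT.dl h)ᵀ *ᵥ x, by rwa [mulVec_mulVec, hh.mul_dlT, one_mulVec]⟩
  obtain ⟨z, z1, z2⟩ : ∃ z, Ef u z ≠ 0 ∧ Ef u (h *ᵥ z) ≠ 0 := by
    by_cases a : Ef u (h *ᵥ x) = 0
    · by_cases b : Ef u y = 0
      · exact ⟨x + y, by rwa [Ef_add_right, b, add_zero], by
          rwa [mulVec_add, Ef_add_right, a, zero_add]⟩
      · exact ⟨y, b, hy⟩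
    · exact ⟨x, hx, a⟩
  refine back h u 1 (step _ z (by simpa using (tv_gs _ _).mul hh) (fix h v 1 hh hW) ?_)
  rw [← mulVec_mulVec, tv_mulVec, Ef_add_right, h1, Ef_smul_right, Ef_swap z]
  simp [z1, z2]

/-- the multiples of `N` in `ℤ[1/l]` -/
def LN (l N : ℕ) : NonUnitalSubring ℚ where
  carrier := {x | ∃ (n : ℕ) (z : ℤ), (l : ℚ) ^ n * x = N * z}
  zero_mem' := ⟨0, 0, by simp⟩
  add_mem' := by
    rintro x y ⟨m, a, h⟩ ⟨n, b, k⟩
    exact ⟨m + n, l ^ n * a + l ^ m * b, by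
      push_cast; linear_combination (l : ℚ) ^ n * h + (l : ℚ) ^ m * k⟩
  neg_mem' := by
    rintro x ⟨m, a, h⟩
    exact ⟨m, -a, by push_cast; linear_combination -h⟩
  mul_mem' := by
    rintro x y ⟨m, a, h⟩ ⟨n, b, k⟩
    exact ⟨m + n, N * (a * b), by
      rw [pow_add, mul_mul_mul_comm, h, k]; push_cast; ring⟩

lemma LN.unif {l N : ℕ} {ι : Type*} [Finite ι] {x : ι → ℚ} (h : ∀ i, x i ∈ LN l N) :
    ∃ n : ℕ, ∀ i, ∃ z : ℤ, (l : ℚ) ^ n * x i = N * z := by
  choose n z h using h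
  obtain ⟨m, hm⟩ := Finite.exists_le n
  refine ⟨m, fun i => ⟨l ^ (m - n i) * z i, ?_⟩⟩
  rw [← Nat.sub_add_cancel (hm i), pow_add, mul_assoc, h, Nat.add_sub_cancel]
  push_cast; ring

variable {l : ℕ} [hl : Fact l.Prime]

lemma LN.dense {N : ℕ} (hN : N ≠ 0) : DenseRange fun x : LN l N => ((x : ℚ) : ℚ_[l]) := by
  intro x
  have h0 : (l : ℚ_[l]) ≠ 0 := by exact_mod_cast hl.out.ne_zero
  have h1 : (N : ℚ_[l]) ≠ 0 := by exact_mod_cast hN
  obtain ⟨n, hn⟩ : ∃ n : ℕ, ‖(l : ℚ_[l]) ^ n * (x / N)‖ ≤ 1 := by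
    obtain ⟨n, hn⟩ := pow_unbounded_of_one_lt ‖x / N‖
      (show (1 : ℝ) < l by exact_mod_cast hl.out.one_lt)
    refine ⟨n, ?_⟩
    rw [norm_mul, norm_pow, Padic.norm_p, inv_pow,
      inv_mul_le_iff₀ (by have := hl.out.pos; positivity)]
    simpa using hn.le
  have := map_mem_closure (f := fun z : ℤ_[l] => N * (z : ℚ_[l]) / l ^ n)
    (t := Set.range fun x : LN l N => ((x : ℚ) : ℚ_[l])) (by fun_prop)
    (PadicInt.denseRange_intCast (p := l) ⟨_, hn⟩) (by
      rintro _ ⟨z, rfl⟩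
      refine ⟨⟨N * z / l ^ n, n, z, mul_div_cancel₀ _ ?_⟩, by simp⟩
      exact_mod_cast pow_ne_zero n hl.out.ne_zero)
  convert this using 1
  simp only
  field_simp

/-- strong approximation over the `l`-adic numbers -/
theorem sp_dense {N : ℕ} (hN : N ≠ 0) {h : Matrix (I2 g) (I2 g) ℚ_[l]} (hh : GS 1 h) {ε : ℝ}
    (hε : 0 < ε) : ∃ γ : Matrix (I2 g) (I2 g) ℚ, GS 1 γ ∧
      (∃ n : ℕ, ∀ i j, ∃ z : ℤ, (l : ℚ) ^ n * (γ - 1) i j = N * z) ∧
      ∀ i j, ‖(γ i j : ℚ_[l]) - h i j‖ < ε := by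
  let Γ : Submonoid (Matrix (I2 g) (I2 g) ℚ) :=
    { carrier := {γ | GS 1 γ ∧ ∀ i j, (γ - 1) i j ∈ LN l N}
      one_mem' := ⟨gs_one, fun i j => by simp⟩
      mul_mem' := fun {a b} ha hb => ⟨by simpa using ha.1.mul hb.1, fun i j => by
        rw [show a * b - 1 = (a - 1) * (b - 1) + (a - 1) + (b - 1) by noncomm_ring, Matrix.add_apply,
          Matrix.add_apply, mul_apply]
        exact add_mem (add_mem (sum_mem fun k _ => mul_mem (ha.2 _ _) (hb.2 _ _)) (ha.2 _ _))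
          (hb.2 _ _)⟩ }
  have H : h ∈ (Γ.map (Rat.castHom ℚ_[l]).mapMatrix).topologicalClosure := by
    refine sp_gen _ (fun v c => ?_) hh
    have d := (DenseRange.piMap (f := fun (_ : I2 g) (x : LN l 1) => ((x : ℚ) : ℚ_[l]))
      fun _ => LN.dense one_ne_zero).prodMap (LN.dense (l := l) hN)
    have hc : Continuous fun p : (I2 g → ℚ_[l]) × ℚ_[l] => tv p.1 p.2 := by
      refine continuous_const.add (continuous_matrix fun i j => ?_)
      simp only [of_apply, Ef, dotProduct, Function.comp_apply]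
      fun_prop
    refine d.induction_on (p := fun p => tv p.1 p.2 ∈ Submonoid.topologicalClosure _) (v, c)
      ((Submonoid.isClosed_topologicalClosure _).preimage hc) ?_
    · rintro ⟨w, a⟩
      refine Submonoid.le_topologicalClosure _ ⟨tv (fun i => w i) a, ⟨tv_gs _ _, fun i j => ?_⟩, ?_⟩
      · have e : Ef (fun i => (w i : ℚ)) (Pi.single j 1) ∈ LN l 1 := by
          rcases j with j | j <;> simp [Ef, dotProduct, Pi.single_apply]
        obtain ⟨n, z, e⟩ := mul_mem (w i).2 e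
        obtain ⟨m, y, e'⟩ := a.2
        refine ⟨m + n, y * z, ?_⟩
        rw [tv, add_sub_cancel_left, of_apply, mul_assoc, pow_add, mul_mul_mul_comm, e, e']
        push_cast; ring
      · exact tv_map _ _ (Rat.castHom ℚ_[l])
  have o : IsOpen {x : Matrix (I2 g) (I2 g) ℚ_[l] | ∀ i j, ‖x i j - h i j‖ < ε} := by
    simp only [Set.ofPred_forall]
    exact isOpen_iInter_of_finite fun i => isOpen_iInter_of_finite fun j =>
      isOpen_lt (by fun_prop) continuous_const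
  obtain ⟨_, h1, γ, h2, rfl⟩ := mem_closure_iff.1 H _ o fun i j => by simpa using hε
  obtain ⟨n, hn⟩ := LN.unif (x := fun p : I2 g × I2 g => (γ - 1) p.1 p.2) fun p => h2.2 _ _
  exact ⟨γ, h2.1, ⟨n, fun i j => hn (i, j)⟩, h1⟩

/-- strong approximation over the `l`-adic integers -/
theorem sp_dense_int {N : ℕ} (hN : N.Coprime l) {k : Matrix (I2 g) (I2 g) ℤ_[l]} (hk : GS 1 k)
    (m : ℕ) : ∃ γ : Matrix (I2 g) (I2 g) ℤ, GS 1 γ ∧ (∀ i j, (N : ℤ) ∣ (γ - 1) i j) ∧
      ∀ i j, (l : ℤ_[l]) ^ m ∣ γ i j - k i j := by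
  have h0 : (0 : ℝ) < l := by exact_mod_cast hl.out.pos
  have h1 : (l : ℝ) ^ (-m : ℤ) ≤ 1 :=
    zpow_le_one_of_nonpos₀ (by exact_mod_cast hl.out.one_le) (by simp)
  obtain ⟨γ, h2, ⟨n, h3⟩, h4⟩ := sp_dense (N := N) (by rintro rfl; simp [hl.out.ne_one] at hN)
    (by simpa using hk.map PadicInt.Coe.ringHom) (zpow_pos h0 (-m : ℤ))
  have h5 : ∀ i j, ∃ w : ℤ, (N : ℤ) ∣ w ∧ (γ - 1) i j = w := fun i j => by
    obtain ⟨z, hz⟩ := h3 i j
    have e : ‖(((γ - 1) i j : ℚ) : ℚ_[l])‖ ≤ 1 := by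
      rw [show (((γ - 1) i j : ℚ) : ℚ_[l]) = (γ i j - k i j) + ((k - 1) i j : ℤ_[l]) by
        by_cases h : i = j <;> simp [one_apply, h]]
      exact (Padic.nonarchimedean _ _).trans (max_le ((h4 i j).le.trans h1) ((k - 1) i j).2)
    have e' : (l : ℤ) ^ n ∣ N * z := by
      rw [← Padic.norm_int_le_pow_iff_dvd, show ((N * z : ℤ) : ℚ_[l]) =
        l ^ n * (((γ - 1) i j : ℚ) : ℚ_[l]) by exact_mod_cast congrArg (Rat.cast (K := ℚ_[l])) hz.symm,
        norm_mul, norm_pow, Padic.norm_p, inv_pow, _root_.zpow_neg, _root_.zpow_natCast]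
      exact mul_le_of_le_one_right (by positivity) e
    obtain ⟨w, rfl⟩ := (Nat.isCoprime_iff_coprime.2 hN.symm).pow_left.dvd_of_dvd_mul_left e'
    refine ⟨N * w, dvd_mul_right _ _, mul_left_cancel₀ (a := (l : ℚ) ^ n)
      (by exact_mod_cast pow_ne_zero n hl.out.ne_zero) ?_⟩
    rw [hz]; push_cast; ring
  choose w h5 h6 using h5
  have h7 : γ = (1 + of w).map (Int.castRingHom ℚ) := by
    ext i j
    simp [← h6, one_apply, apply_ite (Int.cast (R := ℚ))]
  refine ⟨1 + of w, GS.of_map2 (φ := Int.castRingHom ℚ) Int.cast_injective (by simpa [h7] using h2),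
    by simpa using h5, fun i j => ?_⟩
  rw [← Ideal.mem_span_singleton, ← PadicInt.norm_le_pow_iff_mem_span_pow]
  have := (h4 i j).le
  rw [h7] at this
  simpa [PadicInt.norm_def] using this

/-- strong approximation at all primes -/
theorem sp_dense_hat {k : ∀ l : Nat.Primes, Matrix (I2 g) (I2 g) ℤ_[l]} (hk : ∀ l, GS 1 (k l))
    {M : ℕ} (hM : M ≠ 0) : ∃ γ : Matrix (I2 g) (I2 g) ℤ, GS 1 γ ∧
      ∀ (l : Nat.Primes) i j, (M : ℤ_[l]) ∣ γ i j - k l i j := by
  classical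
  have un : ∀ (l : Nat.Primes) (n : ℕ), ¬ (l : ℕ) ∣ n → IsUnit (n : ℤ_[l]) := fun l n h =>
    PadicInt.isUnit_iff.2 (PadicInt.norm_natCast_eq_one_iff.2 (l.2.coprime_iff_not_dvd.2 h))
  have H : ∀ T : Finset Nat.Primes, ∃ γ : Matrix (I2 g) (I2 g) ℤ, GS 1 γ ∧
      ∀ l ∈ T, ∀ i j, (M : ℤ_[l]) ∣ γ i j - k l i j := fun T => by
    induction T using Finset.induction_on with
    | empty => exact ⟨1, gs_one, by simp⟩
    | insert p T hp ih =>
      obtain ⟨γ, h1, h2⟩ := ih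
      obtain ⟨v, N, hN, rfl⟩ := Nat.exists_eq_pow_mul_and_not_dvd hM p p.2.ne_one
      have h3 : GS 1 (γ.map (Int.castRingHom ℤ_[p])) := by simpa using h1.map (Int.castRingHom ℤ_[p])
      obtain ⟨δ, h4, h5, h6⟩ := sp_dense_int (p.2.coprime_iff_not_dvd.2 hN).symm
        (k := _ * k p) (by simpa using h3.dl.transpose_one.mul (hk p)) v
      refine ⟨γ * δ, by simpa using h1.mul h4, fun l hl i j => ?_⟩
      push_cast
      rcases Finset.mem_insert.1 hl with rfl | hl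
      · rw [(un l N hN).mul_right_dvd, ← Matrix.one_mul (k l), ← h3.mul_dlT, Matrix.mul_assoc,
          mul_apply, mul_apply, Int.cast_sum, ← Finset.sum_sub_distrib]
        refine Finset.dvd_sum fun a _ => ?_
        rw [Int.cast_mul, map_apply, eq_intCast, ← mul_sub]
        exact (h6 a j).mul_left _
      · have u : IsUnit ((p : ℕ) : ℤ_[l]) := un l p fun e => hp (by
          rwa [← Subtype.ext ((Nat.prime_dvd_prime_iff_eq l.2 p.2).1 e)])
        have e := h2 l hl i j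
        push_cast at e
        rw [(u.pow v).mul_left_dvd] at e ⊢
        rw [show γ * δ = γ + γ * (δ - 1) by noncomm_ring, Matrix.add_apply, Int.cast_add,
          add_sub_right_comm]
        refine e.add ?_
        rw [← Int.cast_natCast, mul_apply]
        exact Int.cast_dvd_cast _ _ (Finset.dvd_sum fun a _ => (h5 a j).mul_left _)
  obtain ⟨γ, h1, h2⟩ := H (M.primeFactors.subtype Nat.Prime)
  refine ⟨γ, h1, fun l i j => ?_⟩
  by_cases h : (l : ℕ) ∣ M
  · exact h2 l (Finset.mem_subtype.2 (Nat.mem_primeFactors.2 ⟨l.2, h, hM⟩)) i j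
  · exact (un l M h).dvd

end Pool.Agent.MT
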