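import Mathlib

/-! Tensor products of families of square matrices. -/

set_option autoImplicit false

open Matrix Polynomial

namespace Pool.Agent.MT

variable {ι n R R' : Type*} [Fintype ι] [CommRing R] [CommRing R']

/-- The tensor product of a family of matrices. -/
def kp (g : ι → Matrix n n R) : Matrix (ι → n) (ι → n) R :=
  Matrix.of fun x y => ∏ i, g i (x i) (y i)

theorem kp_apply (g : ι → Matrix n n R) (x y : ι → n) : kp g x y = ∏ i, g i (x i) (y i) := rfl

theorem kp_map (f : R →+* R') (g : ι → Matrix n n R) :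
    (kp g).map f = kp fun i => (g i).map f := by
  ext x y
  simp [kp_apply]

theorem kp_transpose (g : ι → Matrix n n R) : (kp g)ᵀ = kp fun i => (g i)ᵀ := rfl

theorem kp_smul (c : ι → R) (g : ι → Matrix n n R) :
    (kp fun i => c i • g i) = (∏ i, c i) • kp g := by
  ext x y
  simp [kp_apply, Finset.prod_mul_distrib]

variable [DecidableEq ι] [Fintype n]

theorem kp_mul (g h : ι → Matrix n n R) : (kp fun i => g i * h i) = kp g * kp h := by
  ext x y
  simp only [kp_apply, mul_apply, Finset.prod_univ_sum, Fintype.piFinset_univ,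
    Finset.prod_mul_distrib]

theorem kp_trace (g : ι → Matrix n n R) : (kp g).trace = ∏ i, (g i).trace := by
  simp only [trace, diag_apply, kp_apply, Finset.prod_univ_sum, Fintype.piFinset_univ]

variable [DecidableEq n]

omit [Fintype n] [DecidableEq ι] in
theorem kp_diagonal (d : ι → n → R) :
    (kp fun i => diagonal (d i)) = diagonal fun x => ∏ i, d i (x i) := by
  ext x y
  rw [kp_apply]
  by_cases h : x = y
  · subst h
    simp
  · obtain ⟨i, hi⟩ := Function.ne_iff.1 h
    rw [diagonal_apply_ne _ h]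
    exact Finset.prod_eq_zero (Finset.mem_univ i) (diagonal_apply_ne _ hi)

omit [Fintype n] [DecidableEq ι] in
theorem kp_one : (kp fun _ : ι => (1 : Matrix n n R)) = 1 := by
  simpa using kp_diagonal (ι := ι) (n := n) fun _ _ => (1 : R)

/-- The tensor product as a homomorphism. -/
def kpHom : (ι → Matrix n n R) →* Matrix (ι → n) (ι → n) R where
  toFun := kp
  map_one' := kp_one
  map_mul' := kp_mul

theorem kp_pow (g : ι → Matrix n n R) (k : ℕ) : (kp fun i => g i ^ k) = kp g ^ k :=
  map_pow kpHom g k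

/-- The standard alternating matrix of size two. -/
def J2 (R : Type*) [CommRing R] : Matrix (Fin 2) (Fin 2) R := !![0, 1; -1, 0]

theorem J2_sim (g : Matrix (Fin 2) (Fin 2) R) : gᵀ * J2 R * g = g.det • J2 R := by
  ext i j
  fin_cases i <;> fin_cases j <;>
    simp [J2, det_fin_two, mul_apply, Fin.sum_univ_two] <;> ring

theorem kp_sim (g : ι → Matrix (Fin 2) (Fin 2) R) :
    (kp g)ᵀ * (kp fun _ : ι => J2 R) * kp g = (∏ i, (g i).det) • kp fun _ : ι => J2 R := by
  rw [kp_transpose, ← kp_mul, ← kp_mul, ← kp_smul]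
  simp only [J2_sim]

/-- The characteristic polynomial of a tensor product of triangular matrices. -/
theorem kp_charpoly_tri (z : R) (g : ι → Matrix (Fin 2) (Fin 2) R) (h : ∀ i, g i 1 0 = 0) :
    (z • kp g).charpoly = ∏ x : ι → Fin 2, (X - C (z * ∏ i, g i (x i) (x i))) := by
  obtain ⟨e⟩ := Finite.exists_equiv_fin ι |>.choose_spec
  let _ : LinearOrder ι := LinearOrder.lift' e e.injective
  have : WellFoundedLT ι := Finite.to_wellFoundedLT
  let _ : LinearOrder (ι → Fin 2) := LinearOrder.lift' toLex toLex.injective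
  rw [charpoly_of_isUpperTriangular]
  · rfl
  · intro x y hxy
    obtain ⟨i, -, hi⟩ : toLex y < toLex x := hxy
    have h1 : x i = 1 ∧ y i = 0 := by
      have hi' : y i < x i := hi
      revert hi'
      generalize x i = a
      generalize y i = b
      revert a b
      decide
    rw [Matrix.smul_apply, kp_apply, Finset.prod_eq_zero (Finset.mem_univ i) (by rw [h1.1, h1.2, h]),
      smul_zero]

/-- Matrices of size two with a given eigenvalue can be made triangular. -/
theorem tri_two {K : Type*} [Field K] (g : Matrix (Fin 2) (Fin 2) K) {a : K}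
    (h : a ^ 2 - g.trace * a + g.det = 0) : ∃ Q Q' T : Matrix (Fin 2) (Fin 2) K,
      Q * Q' = 1 ∧ g = Q * T * Q' ∧ T 1 0 = 0 ∧ T 0 0 = a ∧ T 1 1 = g.trace - a := by
  rw [trace_fin_two, det_fin_two] at h
  by_cases h1 : g 1 0 = 0
  · by_cases h2 : g 0 0 = a
    · exact ⟨1, 1, g, one_mul _, by simp, h1, h2, by rw [trace_fin_two, h2]; ring⟩
    · have h3 : g 1 1 = a := by
        have : (g 0 0 - a) * (g 1 1 - a) = 0 := by linear_combination h + g 0 1 * h1
        exact sub_eq_zero.1 ((mul_eq_zero.1 this).resolve_left (sub_ne_zero.2 h2))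
      have h4 := sub_ne_zero.2 (Ne.symm h2)
      refine ⟨!![g 0 1, 1; a - g 0 0, 0], !![0, (a - g 0 0)⁻¹; 1, -g 0 1 * (a - g 0 0)⁻¹],
        !![a, 0; 0, g 0 0], ?_, ?_, rfl, rfl, by simp [trace_fin_two, h3]⟩
      · ext i j
        fin_cases i <;> fin_cases j <;> simp [mul_apply, Fin.sum_univ_two, h4]
      · ext i j
        fin_cases i <;> fin_cases j <;> simp [mul_apply, Fin.sum_univ_two, h1, h3] <;>
          field_simp <;> ring
  · refine ⟨!![a - g 1 1, 1; g 1 0, 0], !![0, (g 1 0)⁻¹; 1, -(a - g 1 1) * (g 1 0)⁻¹],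
      !![a, 1; 0, g 0 0 + g 1 1 - a], ?_, ?_, rfl, rfl, by simp [trace_fin_two]⟩
    · ext i j
      fin_cases i <;> fin_cases j <;> simp [mul_apply, Fin.sum_univ_two, h1]
      ring
    · ext i j
      fin_cases i <;> fin_cases j <;> simp [mul_apply, Fin.sum_univ_two] <;> field_simp
      · linear_combination -h
      · ring

/-- The characteristic polynomial of a tensor product in terms of eigenvalues. -/
theorem kp_charpoly {K : Type*} [Field K] (z : K) (g : ι → Matrix (Fin 2) (Fin 2) K)
    (d : ι → Fin 2 → K) (h1 : ∀ i, (g i).trace = d i 0 + d i 1)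
    (h2 : ∀ i, (g i).det = d i 0 * d i 1) :
    (z • kp g).charpoly = ∏ x : ι → Fin 2, (X - C (z * ∏ i, d i (x i))) := by
  choose Q Q' T k1 k2 k3 k4 k5 using fun i => tri_two (g i) (a := d i 0) (by rw [h1, h2]; ring)
  have e : z • kp g = kp Q * (z • kp T * kp Q') := by
    rw [show g = fun i => Q i * T i * Q' i from funext k2, kp_mul, kp_mul]
    simp [mul_assoc]
  have e' : kp Q' * kp Q = 1 := by
    rw [← kp_mul]
    simp only [mul_eq_one_comm.1 (k1 _), kp_one]
  rw [e, charpoly_mul_comm, mul_assoc, e', mul_one, kp_charpoly_tri z T k3]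
  refine Finset.prod_congr rfl fun x _ => ?_
  congr 3
  refine Finset.prod_congr rfl fun i _ => ?_
  generalize x i = a
  fin_cases a
  · exact k4 i
  · simpa [h1] using k5 i

/-- Eigenvalues exist over an algebraically closed field. -/
theorem eig_two {K : Type*} [Field K] [IsAlgClosed K] (t d : K) :
    ∃ a b : K, t = a + b ∧ d = a * b := by
  obtain ⟨a, ha⟩ := IsAlgClosed.exists_root (C 1 * X ^ 2 + C (-t) * X + C d : K[X])
    (by rw [degree_quadratic one_ne_zero]; norm_num)
  refine ⟨a, t - a, by ring, ?_⟩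
  simp only [IsRoot, eval_add, eval_mul, eval_C, eval_pow, eval_X] at ha
  linear_combination ha

end Pool.Agent.MT
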