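import Pool.Agent.Lib.MP_d61fbb_ag.MT.SI0
import Pool.Agent.Lib.MP_d61fbb_ag.MT.BW0

/-! Every cubic étale algebra has a tensor induction. -/

set_option autoImplicit false

noncomputable section

namespace Pool.Agent.MT

open Matrix Polynomial Sum

/-- the vertices of the cube -/
def sie_e : I2 4 ≃ (Fin 3 → Fin 2) := Equiv.ofBijective
  (fun a i => Sum.elim (fun k => if k = i.succ then 1 else 0)
    (fun k => if k = i.succ then 0 else 1) a) (by decide)

/-- a permutation that fixes zero -/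
abbrev sie_p (π : Equiv.Perm (Fin 3)) : Equiv.Perm (Fin 4) := Equiv.Perm.decomposeFin.symm (0, π)

theorem sie_perm : ∀ (π : Equiv.Perm (Fin 3)) (a : I2 4) (i : Fin 3),
    sie_e ((sie_p π).sumCongr (sie_p π) a) (π i) = sie_e a i := by
  intro π a i
  rcases a with k | k <;> cases k using Fin.cases <;>
    simp [sie_e, (Fin.succ_ne_zero _).symm]

/-- the signs -/
def sie_D (R : Type) [CommRing R] : Matrix (Fin 4) (Fin 4) R :=
  diagonal fun k => if k = 0 then 1 else -1

theorem sie_DD (R : Type) [CommRing R] : sie_D R * sie_D R = 1 := by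
  rw [sie_D, diagonal_mul_diagonal, ← diagonal_one]
  congr 1
  funext k
  split_ifs <;> simp

theorem sie_K (R : Type) [CommRing R] :
    (kp fun _ => J2 R).submatrix sie_e sie_e = fromBlocks 0 (sie_D R) (-sie_D R) 0 := by
  have h : (kp fun _ => J2 ℤ).submatrix sie_e sie_e = fromBlocks 0 (sie_D ℤ) (-sie_D ℤ) 0 := by
    decide
  have h1 : (J2 ℤ).map (Int.castRingHom R) = J2 R := by
    ext i j
    fin_cases i <;> fin_cases j <;> simp [J2]
  have h2 : (sie_D ℤ).map (Int.castRingHom R) = sie_D R := by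
    rw [sie_D, diagonal_map (map_zero _)]
    simp [sie_D, apply_ite]
  have := congrArg (·.map (Int.castRingHom R)) h
  simp only [← submatrix_map, kp_map, h1, fromBlocks_map, Matrix.map_neg _ (map_neg (Int.castRingHom R)), h2,
    Matrix.map_zero _ (map_zero _)] at this
  exact this

/-- the values of a basis of `ℤ_l × R` -/
def sie_A {R : Type} [CommRing R] (r : Fin 3 → R) : Matrix (Fin 4) (Fin 4) R :=
  of fun i k => Fin.cases (if k = 0 then 1 else 0) (fun i => Fin.cases 0 (fun k => r i ^ (k : ℕ)) k) i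

theorem sie_det {R : Type} [CommRing R] (r : Fin 3 → R) : (sie_A r).det = (vandermonde r).det := by
  rw [det_succ_row_zero, Fin.sum_univ_succ, Finset.sum_eq_zero fun k _ => by simp [sie_A]]
  simp only [sie_A, of_apply, Fin.cases_zero, if_true, Fin.val_zero, pow_zero, one_mul, add_zero]
  rfl

/-- the basis of the lattice -/
def sie_B {R : Type} [CommRing R] (r : Fin 3 → R) : M8 R :=
  fromBlocks (sie_A r) 0 0 (sie_D R * (sie_A r)⁻¹ᵀ)

/-- the inverse matrix -/
def sie_C {R : Type} [CommRing R] (r : Fin 3 → R) : M8 R :=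
  fromBlocks (sie_A r)⁻¹ 0 0 ((sie_A r)ᵀ * sie_D R)

section

variable {R : Type} [CommRing R] {r : Fin 3 → R} (h : IsUnit (sie_A r).det)
include h

theorem sie_BC : sie_B r * sie_C r = 1 := by
  simp [sie_B, sie_C, fromBlocks_multiply, Matrix.mul_assoc, ← Matrix.mul_assoc _ (sie_A r)ᵀ,
    ← transpose_mul, mul_nonsing_inv _ h, sie_DD]

theorem sie_symp (x y : I2 4 → R) :
    Ef (sie_C r *ᵥ x) (sie_C r *ᵥ y) = x ⬝ᵥ fromBlocks 0 (sie_D R) (-sie_D R) 0 *ᵥ y := by
  have e : ∀ x y : Fin 4 → R, (sie_A r)⁻¹ *ᵥ x ⬝ᵥ ((sie_A r)ᵀ * sie_D R) *ᵥ y =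
      x ⬝ᵥ sie_D R *ᵥ y := fun x y => by
    rw [← mulVec_mulVec, dotProduct_mulVec, vecMul_transpose, mulVec_mulVec, mul_nonsing_inv _ h,
      one_mulVec]
  have e' : ∀ x y : Fin 4 → R, x ⬝ᵥ sie_D R *ᵥ y = y ⬝ᵥ sie_D R *ᵥ x := fun x y => by
    rw [dotProduct_mulVec, ← mulVec_transpose, sie_D, diagonal_transpose, dotProduct_comm]
  rw [fromBlocks_mulVec, ← Sum.elim_comp_inl_inr x, sumElim_dotProduct_sumElim]
  simp only [Ef, sie_C, fromBlocks_mulVec, zero_mulVec, add_zero, zero_add, Sum.elim_comp_inl,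
    Sum.elim_comp_inr, e, dotProduct_comm (((sie_A r)ᵀ * sie_D R) *ᵥ _), neg_mulVec, dotProduct_neg]
  rw [e' (y ∘ inl), sub_eq_add_neg]

omit h in
theorem sie_inv_map {n : Type} [Fintype n] [DecidableEq n] {A B : Matrix n n R} (t : R →+* R)
    (p : Equiv.Perm n) (e : A * B = 1) (h : A.map t = A.submatrix p id) :
    B.map t = B.submatrix id p :=
  right_inv_eq_right_inv (A := A.map t)
    (by rw [← Matrix.map_mul, e, Matrix.map_one _ (map_zero _) (map_one _)])
    (by rw [h, ← Equiv.coe_refl, submatrix_mul_equiv, e, submatrix_one_equiv])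

theorem sie_map (t : R →+* R) {π : Equiv.Perm (Fin 3)} (hr : ∀ i, t (r i) = r (π i))
    {g : Fin 3 → M2 R} (hg : ∀ i, (g i).map t = g (π i)) :
    (sie_C r * (kp g).submatrix sie_e sie_e * sie_B r).map t =
      sie_C r * (kp g).submatrix sie_e sie_e * sie_B r := by
  let p := (sie_p π).sumCongr (sie_p π)
  have h1 : (sie_A r).map t = (sie_A r).submatrix (sie_p π) id := by
    ext i j
    cases i using Fin.cases <;> cases j using Fin.cases <;> simp [sie_A, hr]
  have h2 := sie_inv_map t _ (mul_nonsing_inv _ h) h1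
  have h3 : (sie_B r).map t = (sie_B r).submatrix p id := by
    ext (i | i) (j | j)
    · exact congrFun (congrFun h1 i) j
    · exact map_zero t
    · exact map_zero t
    · have := congrFun (congrFun h2 j) i
      cases i using Fin.cases <;> simpa [p, sie_B, sie_D, diagonal_mul] using this
  have h4 : ((kp g).submatrix sie_e sie_e).map t =
      ((kp g).submatrix sie_e sie_e).submatrix p p := by
    ext a b
    simp only [map_apply, submatrix_apply, kp_apply, map_prod]
    refine Fintype.prod_equiv π _ _ fun i => ?_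
    rw [sie_perm, sie_perm, ← hg, map_apply]
  rw [Matrix.map_mul, Matrix.map_mul, sie_inv_map t p (sie_BC h) h3, h3, h4, submatrix_mul_equiv,
    submatrix_mul_equiv, submatrix_id_id]

end

variable {l : ℕ} [Fact l.Prime]

/-- the integers of the algebraic closure -/
def sie_O (l : ℕ) [Fact l.Prime] : Subring (PadicAlgCl l) where
  carrier := {x | ‖x‖ ≤ 1}
  mul_mem' ha hb := (norm_mul_le _ _).trans (mul_le_one₀ ha (norm_nonneg _) hb)
  one_mem' := norm_one.le
  add_mem' ha hb := (IsUltrametricDist.norm_add_le_max _ _).trans (max_le ha hb)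
  zero_mem' := norm_zero.le.trans zero_le_one
  neg_mem' ha := (norm_neg _).le.trans ha

theorem sie_mul {a b c : Type} [Fintype b] {A : Matrix a b (PadicAlgCl l)}
    {B : Matrix b c (PadicAlgCl l)} (hA : ∀ i j, A i j ∈ sie_O l) (hB : ∀ i j, B i j ∈ sie_O l)
    (i : a) (j : c) : (A * B) i j ∈ sie_O l :=
  sum_mem fun k _ => mul_mem (hA i k) (hB k j)

theorem sie_inv {n : Type} [Fintype n] [DecidableEq n] {A : Matrix n n (PadicAlgCl l)}
    (hA : ∀ i j, A i j ∈ sie_O l) (h : ‖A.det‖ = 1) (i j : n) : A⁻¹ i j ∈ sie_O l := by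
  rw [inv_def, Matrix.smul_apply, adjugate_apply, Ring.inverse_eq_inv']
  refine mul_mem (show ‖_‖ ≤ 1 by rw [norm_inv, h, inv_one]) ?_
  rw [det_apply']
  refine sum_mem fun s _ => mul_mem (intCast_mem _ _) (prod_mem fun k _ => ?_)
  rw [updateRow_apply, Pi.single_apply]
  split_ifs
  exacts [one_mem _, zero_mem _, hA _ _]

theorem sie_aeval (w : ℤ_[l][X]) {z : PadicAlgCl l} (hz : z ∈ sie_O l) : aeval z w ∈ sie_O l := by
  rw [aeval_eq_sum_range]
  exact sum_mem fun i _ => by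
    rw [Algebra.smul_def]
    exact mul_mem ((BW.norm_alg _).le.trans (PadicInt.norm_le_one _)) (pow_mem hz i)

theorem sie_fix {x : PadicAlgCl l} (hx : x ∈ sie_O l)
    (h : ∀ t : PadicAlgCl l ≃ₐ[ℚ_[l]] PadicAlgCl l, t x = x) : ∃ y : ℤ_[l], algebraMap _ _ y = x := by
  obtain ⟨y, rfl⟩ := (InfiniteGalois.mem_range_algebraMap_iff_fixed x).2 h
  exact ⟨⟨y, (PadicAlgCl.norm_extends l y).ge.trans hx⟩, rfl⟩

theorem sie_roots {c : ℤ_[l][X]} (hm : c.Monic) (hd : c.natDegree = 3)
    (hs : (c.map PadicInt.toZMod).Separable) : ∃ r : Fin 3 → PadicAlgCl l,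
      (∀ z, aeval z c = 0 ↔ ∃ i, r i = z) ∧ ∀ i j, j ≠ i → ‖r i - r j‖ = 1 := by
  have h1 := IsAlgClosed.splits (c.map (algebraMap ℤ_[l] (PadicAlgCl l)))
  obtain ⟨x, y, z, e⟩ := Multiset.card_eq_three.1
    (h1.natDegree_eq_card_roots.symm.trans ((hm.natDegree_map _).trans hd))
  have h2 : c.map (algebraMap ℤ_[l] (PadicAlgCl l)) = Lagrange.nodal Finset.univ ![x, y, z] := by
    rw [h1.eq_prod_roots_of_monic (hm.map _), e, Lagrange.nodal, Fin.prod_univ_three]
    simp [mul_assoc]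
  generalize ![x, y, z] = r at h2
  have h3 : ∀ z, aeval z c = 0 ↔ ∃ i, r i = z := fun z => by
    simp only [← eval_map_algebraMap, h2, Lagrange.eval_nodal, Finset.prod_eq_zero_iff, sub_eq_zero,
      Finset.mem_univ, true_and, eq_comm (a := z)]
  have h4 : ∀ i, r i ∈ sie_O l := fun i => BW.root_le hm ((h3 _).2 ⟨i, rfl⟩)
  refine ⟨r, h3, fun i j hj => le_antisymm (sub_mem (h4 i) (h4 j)) (not_lt.1 fun h => ?_)⟩
  obtain ⟨a, b, hab⟩ := hs
  obtain ⟨a, rfl⟩ := map_surjective _ (ZMod.ringHom_surjective PadicInt.toZMod) a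
  obtain ⟨b, rfl⟩ := map_surjective _ (ZMod.ringHom_surjective PadicInt.toZMod) b
  obtain ⟨w, hw⟩ : C (l : ℤ_[l]) ∣ a * c + b * derivative c - 1 := by
    refine (C_dvd_iff_dvd_coeff _ _).2 fun n => Ideal.mem_span_singleton.1 ?_
    rw [← PadicInt.maximalIdeal_eq_span_p, ← PadicInt.ker_toZMod, RingHom.mem_ker, ← coeff_map]
    simp [← derivative_map, hab]
  have h5 := congrArg (aeval (r i)) hw
  rw [map_sub, map_add, map_mul, map_mul, map_mul, (h3 _).2 ⟨i, rfl⟩, mul_zero, zero_add, map_one,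
    aeval_C, ← eval_map_algebraMap (derivative c), ← derivative_map, h2,
    Lagrange.eval_nodal_derivative_eval_node_eq (Finset.mem_univ i), Lagrange.eval_nodal,
    ← Finset.mul_prod_erase _ _ (Finset.mem_erase.2 ⟨hj, Finset.mem_univ j⟩), mul_left_comm,
    sub_eq_iff_eq_add', ← sub_eq_iff_eq_add] at h5
  refine (lt_irrefl (1 : ℝ)) (norm_one.symm.trans_lt (h5 ▸ ?_ : ‖(1 : PadicAlgCl l)‖ < 1))
  rw [sub_eq_add_neg]
  refine (IsUltrametricDist.norm_add_le_max _ _).trans_lt (max_lt ?_ ?_)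
  · rw [norm_mul]
    exact mul_lt_one_of_nonneg_of_lt_one_left (norm_nonneg _) h (mul_mem (sie_aeval b (h4 i))
      (prod_mem fun k _ => sub_mem (h4 i) (h4 k)) : _ ∈ sie_O l)
  · rw [norm_neg, norm_mul, BW.norm_alg]
    exact mul_lt_one_of_nonneg_of_lt_one_left (norm_nonneg _) (PadicInt.norm_lt_one_iff_dvd _ |>.2
      dvd_rfl) (sie_aeval w (h4 i))

theorem sie_rat {c : ℤ_[l][X]} {r : Fin 3 → PadicAlgCl l} (h1 : ∀ z, aeval z c = 0 ↔ ∃ i, r i = z)
    (h4 : Function.Injective r) {σ : Fin 3 → AdjoinRoot c →ₐ[ℤ_[l]] PadicAlgCl l}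
    (h5 : ∀ i, σ i (AdjoinRoot.root c) = r i) (t : PadicAlgCl l ≃ₐ[ℚ_[l]] PadicAlgCl l) :
    ∃ π : Equiv.Perm (Fin 3), ∀ i x, t (σ i x) = σ (π i) x := by
  let s := t.toAlgHom.restrictScalars ℤ_[l]
  choose f hf using fun i => (h1 (s (r i))).1 (by
    rw [aeval_algHom_apply, (h1 _).2 ⟨i, rfl⟩, map_zero])
  exact ⟨Equiv.ofBijective f (Finite.injective_iff_bijective.1 fun i j e =>
    h4 (t.injective ((hf i).symm.trans (e ▸ hf j)))), fun i => DFunLike.congr_fun
      (AdjoinRoot.algHom_ext (g₁ := s.comp (σ i))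
        ((congrArg s (h5 i)).trans ((hf i).symm.trans (h5 _).symm)))⟩

/-- Every cubic étale algebra has a tensor induction. -/
theorem exists_cub {c : ℤ_[l][X]} (hm : c.Monic) (hd : c.natDegree = 3)
    (hs : (c.map PadicInt.toZMod).Separable) : ∃ D : Cub l, D.c = c := by
  obtain ⟨r, h1, h2⟩ := sie_roots hm hd hs
  have h3 : ∀ i, r i ∈ sie_O l := fun i => BW.root_le hm ((h1 _).2 ⟨i, rfl⟩)
  have h4 : Function.Injective r := fun i j e => by_contra fun h => by
    simpa [e] using h2 j i h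
  obtain ⟨σ, h5⟩ : ∃ σ : Fin 3 → AdjoinRoot c →ₐ[ℤ_[l]] PadicAlgCl l,
      ∀ i, σ i (AdjoinRoot.root c) = r i := ⟨fun i => AdjoinRoot.liftAlgHom c (Algebra.ofId _ _)
    (r i) ((h1 _).2 ⟨i, rfl⟩), fun i => AdjoinRoot.liftAlgHom_root ..⟩
  have h6 : ∀ i x, σ i x ∈ sie_O l := fun i x => by
    obtain ⟨p, rfl⟩ := AdjoinRoot.mk_surjective x
    rw [← AdjoinRoot.aeval_eq, ← aeval_algHom_apply, h5]
    exact sie_aeval p (h3 i)
  have h7 : ‖(sie_A r).det‖ = 1 := by
    rw [sie_det, det_vandermonde, norm_prod]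
    refine Finset.prod_eq_one fun i _ => (norm_prod _ _).trans (Finset.prod_eq_one fun j hj => ?_)
    exact h2 _ _ (Finset.mem_Ioi.1 hj).ne
  have h8 : IsUnit (sie_A r).det := Ne.isUnit fun h => by simp [h] at h7
  have a1 : ∀ i j, sie_A r i j ∈ sie_O l := fun i j => by
    cases i using Fin.cases <;> cases j using Fin.cases <;>
      simp [sie_A, one_mem, zero_mem, pow_mem (h3 _)]
  have a2 := sie_inv a1 h7
  have a3 : ∀ i j, sie_D (PadicAlgCl l) i j ∈ sie_O l := fun i j => by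
    rw [sie_D, diagonal_apply]
    split_ifs <;> simp [one_mem, zero_mem]
  have b1 := sie_BC h8
  have b2 : ∀ i j, sie_B r i j ∈ sie_O l := by
    rintro (i | i) (j | j)
    exacts [a1 i j, zero_mem _, zero_mem _, sie_mul a3 (fun i j => a2 j i) i j]
  have b3 : ∀ i j, sie_C r i j ∈ sie_O l := by
    rintro (i | i) (j | j)
    exacts [a2 i j, zero_mem _, zero_mem _, sie_mul (fun i j => a1 j i) a3 i j]
  have k : ∀ (g : M2 (AdjoinRoot c)) i j, ∃ y : ℤ_[l], algebraMap _ _ y =
      (sie_C r * (kp fun i => g.map (σ i)).submatrix sie_e sie_e * sie_B r) i j := fun g i j => by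
    refine sie_fix (sie_mul (sie_mul b3 fun a b => ?_) b2 i j) fun t => ?_
    · rw [submatrix_apply, kp_apply]
      exact prod_mem fun _ _ => h6 _ _
    · obtain ⟨π, hπ⟩ := sie_rat h1 h4 h5 t
      exact congrFun (congrFun (sie_map h8 (t : PadicAlgCl l →+* PadicAlgCl l) (π := π)
        (fun i => by rw [← h5, ← h5]; exact hπ i _) (g := fun i => g.map (σ i))
        fun i => Matrix.ext fun _ _ => hπ i _) i) j
  choose Nm hN using k
  refine ⟨⟨c, hm, hd, hs, σ, fun i j e => h4 (by rw [← h5, e, h5]),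
    (sie_C r).submatrix id sie_e.symm, (sie_B r).submatrix sie_e.symm id, ?_, ?_,
    fun _ _ => b3 _ _, fun _ _ => b2 _ _, ⟨1, fun x y => ?_⟩, fun g => of (Nm g), fun g => ?_⟩, rfl⟩
  · rw [submatrix_mul_equiv, mul_eq_one_comm.1 b1, submatrix_id_id]
  · rw [← Equiv.coe_refl, submatrix_mul_equiv, b1, submatrix_one_equiv]
  · rw [submatrix_mulVec_equiv, submatrix_mulVec_equiv, Function.comp_id, Function.comp_id,
      sie_symp h8, ← sie_K, submatrix_mulVec_equiv, Equiv.symm_symm, comp_equiv_dotProduct_comp_equiv,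
      one_mul, Function.comp_assoc, Equiv.self_comp_symm, Function.comp_id]
  · refine (Matrix.ext (hN g)).trans ?_
    rw [← submatrix_id_id (_ * _ * _), ← submatrix_mul_equiv _ _ _ sie_e.symm,
      ← submatrix_mul_equiv _ _ _ sie_e.symm, submatrix_submatrix, Equiv.self_comp_symm,
      submatrix_id_id]

theorem si_e : SI_E := fun l => by
  by_cases h : (l : ℕ) = 2
  · have h2 : (2 : (ZMod l)[X]) = 0 := by
      rw [← Nat.cast_ofNat, ← h, CharP.cast_eq_zero]
    refine ⟨(exists_cub (c := X ^ 3 - X + 1) (by monicity!) (by compute_degree!)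
      ⟨1, -X, ?_⟩).choose⟩
    simp only [Polynomial.map_add, Polynomial.map_sub, Polynomial.map_pow, map_X, Polynomial.map_one,
      derivative_add, derivative_sub, derivative_X_pow, derivative_X, derivative_one, map_natCast]
    push_cast
    linear_combination (-X ^ 3) * h2
  · have h2 : (2 : ZMod l) ≠ 0 := fun e => h ((Nat.prime_dvd_prime_iff_eq l.2 Nat.prime_two).1
      ((ZMod.natCast_eq_zero_iff 2 l).1 e))
    have h3 : C (2 : ZMod l)⁻¹ * 2 = 1 := by
      rw [← map_ofNat C, ← map_mul, inv_mul_cancel₀ h2, map_one]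
    refine ⟨(exists_cub (c := X ^ 3 - X) (by monicity!) (by compute_degree!)
      ⟨C 2⁻¹ * (-9 * X), C 2⁻¹ * (3 * X ^ 2 - 2), ?_⟩).choose⟩
    simp only [Polynomial.map_sub, Polynomial.map_pow, map_X, derivative_sub, derivative_X_pow,
      derivative_X, map_natCast]
    push_cast
    linear_combination h3

end Pool.Agent.MT
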