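import Pool.Agent.Lib.MP_d61fbb_ag.MT.TS0
import Pool.Agent.Lib.MP_d61fbb_ag.MT.Top

/-! The fake Hecke orbit is not Zariski dense. -/

set_option autoImplicit false

noncomputable section

namespace Pool.Agent.MT

open Matrix Sum Filter Topology

theorem HolS.prod {g : ℕ} {ι : Type*} (s : Finset ι) {F : ι → Matrix (Fin g) (Fin g) ℂ → ℂ}
    (hF : ∀ i, HolS (F i)) : HolS fun τ => ∏ i ∈ s, F i τ := by
  classical
  induction s using Finset.induction_on with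
  | empty => simpa using holS_const 1
  | insert a s ha ih => simpa only [Finset.prod_insert ha] using (hF a).mul ih

theorem HolS.mul_ne {g : ℕ} {f f' : Matrix (Fin g) (Fin g) ℂ → ℂ} (hf : HolS f) (hf' : HolS f')
    {τ τ' : Matrix (Fin g) (Fin g) ℂ} (hτ : Sieg τ) (hτ' : Sieg τ') (h : f τ ≠ 0)
    (h' : f' τ' ≠ 0) : ∃ τ, Sieg τ ∧ f τ * f' τ ≠ 0 := by
  let t : ℂ → Fin g → Fin g → ℂ := fun s i j => τ i j + s * (τ' i j - τ i j)
  have ht : Differentiable ℂ t := by fun_prop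
  have hs : ∀ y, (of (t y))ᵀ = of (t y) := fun y => by
    ext i j
    have h1 := congrFun (congrFun hτ.symm i) j
    have h2 := congrFun (congrFun hτ'.symm i) j
    simp only [transpose_apply] at h1 h2
    simp only [transpose_apply, of_apply, t, h1, h2]
  have ho : IsOpen {s | Sieg (of (t s))} := isOpen_iff_mem_nhds.2 fun s h =>
    Sieg.eventually h hs ht.continuous.continuousAt
  have hc : Convex ℝ {s | Sieg (of (t s))} := fun x hx y hy a b ha hb hab => ⟨hs _, fun v hv => by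
    have e : of (t (a • x + b • y)) = (a : ℂ) • of (t x) + (b : ℂ) • of (t y) := by
      ext i j
      have : (a : ℂ) + b = 1 := by exact_mod_cast hab
      simp only [of_apply, t, Matrix.add_apply, Matrix.smul_apply, smul_eq_mul, Complex.real_smul]
      linear_combination -τ i j * this
    rw [e, add_mulVec, smul_mulVec, smul_mulVec, dotProduct_add, dotProduct_smul, dotProduct_smul,
      smul_eq_mul, smul_eq_mul, Complex.add_im, Complex.im_ofReal_mul, Complex.im_ofReal_mul]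
    have h1 := hx.pos v hv
    have h2 := hy.pos v hv
    rcases ha.eq_or_lt with rfl | ha
    · rw [zero_add] at hab; rw [hab]; linarith
    · positivity⟩
  have an : ∀ {f : Matrix (Fin g) (Fin g) ℂ → ℂ}, HolS f →
      AnalyticOnNhd ℂ (fun s => f (of (t s))) {s | Sieg (of (t s))} := fun hf =>
    DifferentiableOn.analyticOnNhd
      (fun s h => (hf ℂ t s h hs (ht s)).differentiableWithinAt) ho
  have e0 : of (t 0) = τ := by ext i j; simp [t]
  have e1 : of (t 1) = τ' := by ext i j; simp [t]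
  by_contra h0
  push Not at h0
  rcases (an hf).eq_zero_or_eq_zero_of_mul_eq_zero (an hf') (fun s h => h0 _ h)
    hc.isPreconnected with h1 | h1
  · exact h (e0 ▸ h1 0 (by rw [Set.mem_ofPred_eq, e0]; exact hτ))
  · exact h' (e1 ▸ h1 1 (by rw [Set.mem_ofPred_eq, e1]; exact hτ'))

theorem HolS.exists_ne {g : ℕ} {ι : Type*} (s : Finset ι) {F : ι → Matrix (Fin g) (Fin g) ℂ → ℂ}
    (hF : ∀ i, HolS (F i)) (h : ∀ i, ∃ τ, Sieg τ ∧ F i τ ≠ 0) :
    ∃ τ, Sieg τ ∧ ∏ i ∈ s, F i τ ≠ 0 := by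
  classical
  induction s using Finset.induction_on with
  | empty => exact ⟨_, sieg_I, by simp⟩
  | insert a s ha ih =>
    obtain ⟨τ, hτ, h1⟩ := h a
    obtain ⟨τ', hτ', h2⟩ := ih
    simpa only [Finset.prod_insert ha] using (hF a).mul_ne (HolS.prod s hF) hτ hτ' h1 h2

/-- the transform of a quartic form under an integral symplectic matrix -/
theorem qv_trans {β : M8 ℤ} (hβ : GS 1 β) (m : ℕ) {r : ℕ} (z : Fin r → ℤ)
    (ch : Fin r → Fin 4 → I2 4 → ℤ) : ∃ P : MvPolynomial (I2 4 → ℚ) ℂ, P.IsHomogeneous 4 ∧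
      ∀ τ, Sieg τ → ∃ c ≠ 0, qv z ch (Thm m (act (β.map (↑)) τ)) =
        c * MvPolynomial.eval (thc τ) P := by
  obtain ⟨η, j, -, hj⟩ := hβ.trans_hv
  let b : (I2 4 → ℤ) → I2 4 → ℚ := fun a n => ((βᵀ *ᵥ a) n : ℚ) / m + hq η n
  let c : (I2 4 → ℤ) → ℂ := fun a =>
    ee (Ef (hv η) ((m : ℂ)⁻¹ • zc (βᵀ *ᵥ a)) / 2) * ee (-(Qf (qc (b a)) / 2))
  have h1 : ∀ τ, Sieg τ → ∀ a, Thm m (act (β.map (↑)) τ) a = j τ * (c a * thc τ (b a)) := by
    intro τ hτ a
    have e1 : (fun n => (a n : ℂ) / m) = dl (β.map (↑)) *ᵥ ((m : ℂ)⁻¹ • zc (βᵀ *ᵥ a)) := by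
      rw [mulVec_smul, zc_mulVec2, mulVec_mulVec, transpose_map,
        show dl (β.map (↑)) * (β.map ((↑) : ℤ → ℂ))ᵀ = 1 from
          GS.dl_mul_transpose (by simpa using hβ.map (Int.castRingHom ℂ)), one_mulVec]
      funext n
      simp [div_eq_inv_mul]
    have e2 : (m : ℂ)⁻¹ • zc (βᵀ *ᵥ a) + hv η = qc (b a) := by
      rw [← qc_hq]
      funext n
      simp [b, div_eq_inv_mul]
    rw [Thm, e1, (hj τ hτ).2, Uc, e2, Th, ← mul_assoc (ee _)]
    rfl
  refine ⟨∑ i, MvPolynomial.C ((z i : ℂ) * ∏ k, c (ch i k)) * ∏ k, MvPolynomial.X (b (ch i k)),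
    MvPolynomial.IsHomogeneous.sum _ _ _ fun i _ => ?_, fun τ hτ =>
      ⟨j τ ^ 4, pow_ne_zero _ (hj τ hτ).1, ?_⟩⟩
  · have := MvPolynomial.IsHomogeneous.prod Finset.univ
      (fun k : Fin 4 => (MvPolynomial.X (b (ch i k)) : MvPolynomial _ ℂ)) (fun _ => 1)
      fun k _ => MvPolynomial.isHomogeneous_X _ _
    exact MvPolynomial.IsHomogeneous.C_mul (by simpa using this) _
  · simp only [qv, h1 τ hτ, map_sum, map_mul, map_prod, MvPolynomial.eval_C, MvPolynomial.eval_X,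
      Finset.mul_sum, Finset.prod_mul_distrib, Finset.prod_const, Finset.card_univ,
      Fintype.card_fin]
    exact Finset.sum_congr rfl fun i _ => by ring

theorem holS_qv {β : M8 ℤ} (hβ : GS 1 β) (m : ℕ) {r : ℕ} (z : Fin r → ℤ)
    (ch : Fin r → Fin 4 → I2 4 → ℤ) : HolS fun τ => qv z ch (Thm m (act (β.map (↑)) τ)) :=
  HolS.act (j := fun τ => qv z ch (Thm m τ))
    (HolS.sum _ fun _ => (holS_const _).mul (HolS.prod _ fun _ => holS_Th _))
    (hβ.rs_int one_pos)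

/-- the local components of a matrix of the fake Hecke orbit -/
theorem Fake.loc {l : Pr} {D : Cub l} {γ : M8 ℚ} (h : Fake D γ) :
    ∃ (j : ℕ) (g : M2 (AdjoinRoot D.c)) (κ : ∀ l' : Pr, M8 ℤ_[l']),
      g.det = ((l : ℕ) : AdjoinRoot D.c) ^ (2 * j) ∧ ∀ l', GS 1 (κ l') ∧
      (hA1 l ((((l : ℕ) : ℚ_[l]) ^ (3 * j))⁻¹ • (D.Nm g).map (↑))).map (cp l') *
        (κ l').map (↑) = γᵀ.map (↑) := by
  obtain ⟨h1, ⟨n, hn⟩, j, g, k, hg, hk⟩ := h
  have hγ : GS 1 γ := fun x y => by rw [h1, one_mul]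
  have key : ∀ l' : Pr, ∃ κ : M8 ℤ_[l'], GS 1 κ ∧
      (hA1 l ((((l : ℕ) : ℚ_[l]) ^ (3 * j))⁻¹ • (D.Nm g).map (↑))).map (cp l') *
        κ.map (↑) = γᵀ.map (↑) := fun l' => by
    have hT : GS 1 (γᵀ.map ((↑) : ℚ → ℚ_[l'])) := by
      simpa using hγ.transpose.map (Rat.castHom ℚ_[l'])
    by_cases h : l' = l
    · subst h
      have h0 : ((l' : ℕ) : ℚ_[l']) ^ (3 * j) ≠ 0 := pow_ne_zero _ (Nat.cast_ne_zero.2 l'.2.ne_zero)
      have e : (((l' : ℕ) : ℚ_[l']) ^ (3 * j))⁻¹ • (D.Nm g).map ((↑) : ℤ_[l'] → ℚ_[l']) *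
          k.val.map (↑) = γᵀ.map (↑) := by
        rw [Matrix.smul_mul, inv_smul_eq_iff₀ h0, hk]
        exact (Matrix.map_mul (f := PadicInt.Coe.ringHom)).symm
      refine ⟨k.val, GS.of_map2 (φ := PadicInt.Coe.ringHom) Subtype.val_injective fun x y => ?_,
        by rw [hA1_self, e]⟩
      have h2 := hT x y
      rw [← e, ← mulVec_mulVec, ← mulVec_mulVec, D.gs_div hg, one_mul] at h2
      exact h2
    · have hi : ∀ i j, ‖((γ j i : ℚ) : ℚ_[l'])‖ ≤ 1 := fun i j => by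
        obtain ⟨z, hz⟩ := hn j i
        have h2 : ((l : ℕ) : ℚ_[l']) ^ n * ((γ j i : ℚ) : ℚ_[l']) = z := by
          exact_mod_cast congrArg (Rat.cast : ℚ → ℚ_[l']) hz
        have h3 := Padic.norm_int_le_one (p := l') z
        rwa [← h2, norm_mul, norm_pow, padic_norm_prime_ne h, one_pow, one_mul] at h3
      exact ⟨of fun i j => ⟨_, hi i j⟩,
        GS.of_map2 (φ := PadicInt.Coe.ringHom) Subtype.val_injective hT,
        by rw [hA1_ne h, Matrix.one_mul]; rfl⟩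
  choose κ hκ using key
  exact ⟨j, g, κ, hg, hκ⟩

theorem ts_map_one {R S : Type} [CommRing R] [CommRing S] (φ : R →+* S) {A B : M8 R}
    (h : A * B = 1) : A.map φ * B.map φ = 1 := by
  rw [← Matrix.map_mul, h, Matrix.map_one _ (map_zero φ) (map_one φ)]

theorem t_s1 : T_S1 := by
  classical
  intro zl τ hτ K hK h8 M
  obtain ⟨l, hl, hl2, e, r, z, ch, ⟨τ₁, hτ₁, hne⟩, H⟩ := zl τ hτ K hK h8 M
  have hN : 2 * (l : ℕ) ^ (2 * e) ≠ 0 := mul_ne_zero two_ne_zero (pow_ne_zero _ l.2.ne_zero)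
  have : NeZero (2 * (l : ℕ) ^ (2 * e)) := ⟨hN⟩
  have hrep : ∀ c : M8 (ZMod (2 * (l : ℕ) ^ (2 * e))), ∃ β : M8 ℤ, GS 1 β ∧
      ∀ β' : M8 ℤ, GS 1 β' → β'.map (↑) = c → β.map (↑) = c := fun c => by
    by_cases h : ∃ β : M8 ℤ, GS 1 β ∧ β.map (↑) = c
    · obtain ⟨β, h1, h2⟩ := h
      exact ⟨β, h1, fun _ _ _ => h2⟩
    · exact ⟨1, gs_one, fun β h1 h2 => (h ⟨β, h1, h2⟩).elim⟩
  choose rep hrep hrep' using hrep
  choose P hP hP' using fun c => qv_trans (hrep c).dl ((l : ℕ) ^ e) z ch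
  have hrs : ∀ {β : M8 ℤ}, GS 1 β → RS 1 (β.map (↑)) := fun h => by simpa using h.rs_int one_pos
  refine ⟨l, hl, ∏ c, P c, _, MvPolynomial.IsHomogeneous.prod _ _ (fun _ => 4) fun c _ => hP c,
    ?_, fun γ hγ => ?_⟩
  · obtain ⟨τ₂, hτ₂, h⟩ := HolS.exists_ne Finset.univ
      (fun c => holS_qv (hrep c).dl ((l : ℕ) ^ e) z ch) fun c =>
        ⟨act ((rep c)ᵀ.map (↑)) τ₁, (hrs (hrep c).transpose).sieg hτ₁, by
          rw [← (hrs (hrep c).dl).act_mul (hrs (hrep c).transpose) hτ₁,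
            show (dl (rep c)).map ((↑) : ℤ → ℂ) * (rep c)ᵀ.map (↑) = 1 from
              ts_map_one (Int.castRingHom ℂ) (hrep c).dl_mul_transpose, act_one]
          exact hne⟩
    refine ⟨τ₂, hτ₂, ?_⟩
    rw [map_prod]
    refine Finset.prod_ne_zero_iff.2 fun c hc h0 => Finset.prod_ne_zero_iff.1 h c hc ?_
    obtain ⟨a, -, ha⟩ := hP' c τ₂ hτ₂
    rw [ha, h0, mul_zero]
  · have hγ' : GS 1 γ := fun x y => by rw [hγ.1, one_mul]
    have hγr : RS 1 (γ.map (↑)) := by simpa using hγ'.rs_rat one_pos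
    obtain ⟨j, g, κ, hg, hκ⟩ := hγ.loc
    obtain ⟨β₀, h0, h1⟩ := sp_dense_hat (fun l' => (hκ l').1) hN
    set c : M8 (ZMod (2 * (l : ℕ) ^ (2 * e))) := β₀.map (↑) with hc
    have h2 := hrep' c β₀ h0 rfl
    have hβ : GS 1 ((dl (rep c)).map ((↑) : ℤ → ℚ)) := by
      simpa using (hrep c).dl.map (Int.castRingHom ℚ)
    have h3 := zl_at hτ hl2 (fun F h1 h2 => H j g _ F hg (fun l' h => hA1_ne h _)
      (by rw [hA1_self, smul_inv_smul₀ (pow_ne_zero _ (Nat.cast_ne_zero.2 l.2.ne_zero))]) h1 h2)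
      (γ := (dl (rep c)).map (↑) * γ) (by simpa using hβ.mul hγ') fun l' => by
        have h4 : ∀ i j, ((2 * (l : ℕ) ^ (2 * e) : ℕ) : ℤ_[l']) ∣ rep c i j - κ l' i j := fun i j => by
          obtain ⟨u, hu⟩ := (ZMod.intCast_eq_intCast_iff_dvd_sub _ _ _).1
            (congrFun (congrFun h2 i) j)
          have : (rep c i j : ℤ_[l']) - κ l' i j = (β₀ i j - κ l' i j) - ((β₀ i j - rep c i j : ℤ) :
            ℤ_[l']) := by push_cast; ring
          rw [this, hu]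
          push_cast
          exact dvd_sub (by exact_mod_cast h1 l' i j) (dvd_mul_right _ _)
        choose s hs using h4
        refine ⟨of s * (dl (κ l'))ᵀ, ?_⟩
        have h5 : (κ l').map ((↑) : ℤ_[l'] → ℚ_[l']) * ((dl (κ l'))ᵀ).map (↑) = 1 :=
          ts_map_one PadicInt.Coe.ringHom (hκ l').1.mul_dlT
        have h6 : (dl γ).map ((↑) : ℚ → ℚ_[l']) * γᵀ.map (↑) = 1 :=
          ts_map_one (Rat.castHom ℚ_[l']) hγ'.dl_mul_transpose
        have h7 : (rep c).map ((↑) : ℤ → ℚ_[l']) = (κ l').map (↑) +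
            (2 * ((l : ℕ) : ℚ_[l']) ^ (2 * e)) • (of s).map ((↑) : ℤ_[l'] → ℚ_[l']) := by
          ext i j
          have := congrArg (PadicInt.Coe.ringHom (p := l')) (hs i j)
          rw [map_sub, map_mul, map_intCast, map_natCast] at this
          push_cast at this
          exact eq_add_of_sub_eq' this
        have h8 : (dl ((dl (rep c)).map ((↑) : ℤ → ℚ) * γ)).map ((↑) : ℚ → ℚ_[l']) =
            (rep c).map ((↑) : ℤ → ℚ_[l']) * (dl γ).map (↑) := by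
          rw [dl_mul, show dl ((dl (rep c)).map ((↑) : ℤ → ℚ)) = (rep c).map (↑) by
            rw [← dl_dl ((rep c).map _)]
            exact congrArg dl (dl_map (Int.castRingHom ℚ) _)]
          exact Matrix.map_mul (f := Rat.castHom ℚ_[l'])
        rw [← (hκ l').2, ← Matrix.mul_assoc] at h6
        rw [h8, Matrix.mul_assoc, ← Matrix.mul_one (_ * (hA1 _ _).map _), ← h5,
          ← Matrix.mul_assoc (_ * (hA1 _ _).map _), h6, Matrix.one_mul, h7, Matrix.add_mul, h5,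
          Matrix.smul_mul]
        exact congrArg (fun X => 1 + _ • X) (Matrix.map_mul (f := PadicInt.Coe.ringHom)).symm
    rw [show ((dl (rep c)).map ((↑) : ℤ → ℚ) * γ).map ((↑) : ℚ → ℂ) =
      (dl (rep c)).map ((↑) : ℤ → ℂ) * γ.map (↑) from Matrix.map_mul (f := Rat.castHom ℂ),
      (hrs (hrep c).dl).act_mul hγr hτ] at h3
    obtain ⟨a, ha0, ha⟩ := hP' c _ (hγr.sieg hτ)
    rw [map_prod]
    exact Finset.prod_eq_zero (Finset.mem_univ c) ((mul_eq_zero.1 (ha ▸ h3)).resolve_left ha0)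

end Pool.Agent.MT
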