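import Pool.Agent.Lib.MP_d61fbb_ag.MT.ZAll
import Pool.Agent.Lib.MP_d61fbb_ag.MT.CM2
import Pool.Agent.Lib.MP_d61fbb_ag.MT.G8
import Pool.Agent.Lib.MP_d61fbb_ag.MT.TS1
import Pool.Agent.Lib.MP_d61fbb_ag.MT.SIA
import Pool.Agent.Lib.MP_d61fbb_ag.MT.SIB
import Pool.Agent.Lib.MP_d61fbb_ag.MT.SIC
import Pool.Agent.Lib.MP_d61fbb_ag.MT.SID
import Pool.Agent.Lib.MP_d61fbb_ag.MT.SIE
import Pool.Agent.Lib.MP_d61fbb_ag.MT.SIF
import Pool.Agent.Lib.MP_d61fbb_ag.MT.StC

/-! The final assembly. -/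

set_option autoImplicit false

namespace Pool.Agent.MT

theorem zl_final : ZL := zl_all t_cm2

theorem stage1_final : Stage1 := t_s1 zl_final

theorem stage2_final : Stage2 := t_s2 zl_final

theorem si_d_final : SI_D := si_d si_a si_b (si_c si_b)

theorem stage2'_final : Stage2' := stage2'_of si_d_final si_e stage2_final

end Pool.Agent.MT
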