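import Mathlib

/-! Block E: the class of levels, moves, and the abstract system of points. -/

open NumberField Ideal

namespace Pool.Agent.MT

/-- The class of levels: squarefree, prime to `m`, with many prime factors. -/
def Cls (m N : ℕ) : Prop := Squarefree N ∧ N.Coprime m ∧ N ≤ 2 ^ N.primeFactors.card ^ 4

section
variable {E : Type} [Field E] [NumberField E]

/-- The quotient `β / a` is congruent to one modulo `f` and has ideal `B / A`. -/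
def Mv (f : ℕ) (A B : Ideal (𝓞 E)) (a β : 𝓞 E) : Prop :=
  a ≠ 0 ∧ IsCoprime a (f : 𝓞 E) ∧ (f : 𝓞 E) ∣ β - a ∧ span {β} * A = span {a} * B

/-- The quotients `α / cj α` of `α = β / a` and of `β' / a'` differ. -/
def Dif (cj : 𝓞 E ≃+* 𝓞 E) (a β a' β' : 𝓞 E) : Prop :=
  β * cj a * (a' * cj β') ≠ β' * cj a' * (a * cj β)

end

/-- Many ideals `B` of smaller norm in the ray class of `A`. -/
def ECount : Prop :=
  ∀ (E : Type) [Field E] [NumberField E] (f g j : ℕ), f ≠ 0 → g ≠ 0 → f.Coprime g →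
    ∃ f' Y₀ : ℕ, f' ≠ 0 ∧ f ∣ f' ∧ f'.Coprime g ∧
      ∀ A : Ideal (𝓞 E), (absNorm A).Coprime f' → Y₀ ≤ absNorm A →
      ∀ G : Finset ℕ, (∀ l ∈ G, l.Prime) → (G.card : ℝ) ^ 2 ≤ Real.log (absNorm A) →
      ∃ S : Finset (Ideal (𝓞 E)), (absNorm A : ℝ) / Real.log (absNorm A) ≤ S.card ∧
        ∀ B ∈ S, absNorm B < absNorm A ∧ Squarefree (absNorm B) ∧ (absNorm B).Coprime (f' * g) ∧
          (∀ l ∈ G, ¬ l ∣ absNorm B) ∧ j ≤ (absNorm B).primeFactors.card ∧ ∃ a β, Mv f A B a β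

/-- Points with levels, Galois orbits, alignment, partners, zeros and `v`-adic sizes.
`m = f' * g` is the modulus of the class, `θ` and `c` do not depend on `X₀`. -/
structure Sys (E : Type) [Field E] [NumberField E] (cj : 𝓞 E ≃+* 𝓞 E) (f m : ℕ) (θ c : ℝ)
    (X₀ : ℕ) where
  X : Type
  lev : X → ℕ
  orb : X → Finset X
  Al : X → Ideal (𝓞 E) → Prop
  Par : 𝓞 E → 𝓞 E → X → X → Prop
  Z : X → Prop
  sz : X → ℝ
  sz_nonneg : ∀ x, 0 ≤ sz x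
  orb_ne : ∀ x, (orb x).Nonempty
  lev_orb : ∀ x, ∀ y ∈ orb x, lev y = lev x
  dens : ∀ x, Cls m (lev x) → ∃ A₀ : Ideal (𝓞 E), absNorm A₀ = lev x ∧ ∀ A, A ∣ A₀ →
    ∃ T ⊆ orb x, (∀ y ∈ T, Al y A) ∧
      (orb x).card ≤ T.card * ∏ l ∈ (absNorm A).primeFactors, (l + 1)
  move : ∀ x A B a β, Cls m (lev x) → Al x A → absNorm A ∣ lev x → Mv f A B a β →
    Cls m (lev x / absNorm A * absNorm B) →
    ∃ y, Par a β x y ∧ lev y = lev x / absNorm A * absNorm B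
  interp : ∀ x (k : ℕ) (a β : Fin k → 𝓞 E) (y : Fin k → X), Cls m (lev x) →
    (∀ i, Par (a i) (β i) x (y i) ∧ Z (y i)) →
    (∀ i i', i ≠ i' → Dif cj (a i) (β i) (a i') (β i')) → sz x ≤ θ ^ k
  liou : ∀ x, Cls m (lev x) → X₀ ≤ lev x → ¬ Z x →
    1 ≤ ((lev x : ℝ) ^ c) ^ (orb x).card * ∏ y ∈ orb x, sz y

/-- The extrapolation: zeros up to level `X₀` give zeros on the whole class. -/
def EInd : Prop :=
  ∀ (E : Type) [Field E] [NumberField E] (cj : 𝓞 E ≃+* 𝓞 E) (δ : 𝓞 E) (f g : ℕ) (θ c : ℝ),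
    f ≠ 0 → g ≠ 0 → f.Coprime g → cj δ = -δ → 2 * δ ∣ (f : 𝓞 E) → 0 < θ → θ < 1 →
    ∃ f' X₁ : ℕ, f' ≠ 0 ∧ f ∣ f' ∧ f'.Coprime g ∧ ∀ X₀, X₁ ≤ X₀ →
      ∀ S : Sys E cj f (f' * g) θ c X₀,
        (∀ x, Cls (f' * g) (S.lev x) → S.lev x ≤ X₀ → S.Z x) →
        ∀ x, Cls (f' * g) (S.lev x) → S.Z x

/-- Every ray class prime to `m` holds infinitely many ideals whose norm lies in the class; `A` may
meet `g`. -/
def EInf : Prop :=
  ∀ (E : Type) [Field E] [NumberField E] (cj : 𝓞 E ≃+* 𝓞 E) (δ : 𝓞 E) (f g m : ℕ),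
    f ≠ 0 → g ≠ 0 → m ≠ 0 → f ∣ m → m.Coprime g → cj δ = -δ → 2 * δ ∣ (f : 𝓞 E) →
    ∃ m' : ℕ, m' ≠ 0 ∧ m'.Coprime g ∧ ∀ A : Ideal (𝓞 E), A ≠ 0 → (absNorm A).Coprime m' →
      ∃ (B : ℕ → Ideal (𝓞 E)) (a β : ℕ → 𝓞 E),
        (∀ i, Cls (m * g) (absNorm (B i)) ∧ Mv f A (B i) (a i) (β i)) ∧
        ∀ i i', i ≠ i' → Dif cj (a i) (β i) (a i') (β i')

end Pool.Agent.MT
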