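import Pool.Agent.Lib.MP_d61fbb_ag.MT.UM1

/-! The Lie algebra of the tensor power of the alternating form and its subalgebras. -/

set_option autoImplicit false

open Matrix Function

namespace Pool.Agent.MT.UM

variable {ι F : Type*} [Fintype ι] [DecidableEq ι] [Field F]

/-- the tensor power of the alternating form -/
def ET (ι F : Type*) [Fintype ι] [Field F] : TM ι F := kp fun _ : ι => J2 F

/-- the Lie algebra of the form -/
def spT (ι F : Type*) [Fintype ι] [DecidableEq ι] [Field F] : Submodule F (TM ι F) where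
  carrier := {A | Aᵀ * ET ι F + ET ι F * A = 0}
  zero_mem' := by simp
  add_mem' {A B} hA hB := by
    simp only [Set.mem_ofPred_eq, transpose_add, add_mul, mul_add] at *
    rw [add_add_add_comm, hA, hB, add_zero]
  smul_mem' c A hA := by
    simp only [Set.mem_ofPred_eq, transpose_smul, smul_mul_assoc, mul_smul_comm] at *
    rw [← smul_add, hA, smul_zero]

theorem mem_spT {A : TM ι F} : A ∈ spT ι F ↔ Aᵀ * ET ι F + ET ι F * A = 0 := Iff.rfl

/-- closed under the bracket -/
def Br (N N' N'' : Submodule F (TM ι F)) : Prop := ∀ A ∈ N, ∀ B ∈ N', A * B - B * A ∈ N''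

theorem spT_br : Br (spT ι F) (spT ι F) (spT ι F) := by
  intro A hA B hB
  rw [mem_spT] at *
  have h1 : Aᵀ * ET ι F = -(ET ι F * A) := eq_neg_of_add_eq_zero_left hA
  have h2 : Bᵀ * ET ι F = -(ET ι F * B) := eq_neg_of_add_eq_zero_left hB
  rw [transpose_sub, transpose_mul, transpose_mul, sub_mul, mul_assoc, mul_assoc, h1, h2, mul_neg,
    mul_neg, ← mul_assoc, ← mul_assoc, h1, h2]
  noncomm_ring

theorem ET_sq : ET ι F * ET ι F = (-1 : F) ^ Fintype.card ι • 1 := by
  have : J2 F * J2 F = (-1 : F) • 1 := by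
    ext a b
    fin_cases a <;> fin_cases b <;> simp [J2, mul_apply, Fin.sum_univ_two]
  rw [ET, ← kp_mul]
  simp only [this, kp_smul, kp_one, Finset.prod_const, Finset.card_univ]

theorem ty_transpose {I : Finset ι} {x : ι → N2 F} (h : Ty I x) :
    (kp x)ᵀ * ET ι F = (-1 : F) ^ I.card • (ET ι F * kp x) := by
  have e : ∀ i, (x i)ᵀ * J2 F = (if i ∈ I then (-1 : F) else 1) • (J2 F * x i) := by
    intro i
    split_ifs with hi
    · have := (h i).1 hi
      rw [trace_fin_two] at this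
      have h' : x i 1 1 = -x i 0 0 := by linear_combination this
      ext a b
      fin_cases a <;> fin_cases b <;>
        simp [J2, mul_apply, Fin.sum_univ_two, h', vecMul, dotProduct]
    · simp [(h i).2 hi]
  rw [kp_transpose, ET, ← kp_mul, ← kp_mul]
  simp only [e, kp_smul]
  simp [Finset.prod_ite_mem]

theorem P_le_spT {I : Finset ι} (h : Odd I.card) : P F I ≤ spT ι F := by
  rw [P, Submodule.span_le]
  rintro _ ⟨x, hx, rfl⟩
  change _ + _ = _
  rw [ty_transpose hx, h.neg_one_pow, neg_one_smul, neg_add_cancel]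

omit [Fintype ι] in
theorem ty_single (i : ι) {X : N2 F} (h : X.trace = 0) :
    Ty {i} (Pi.mulSingle (M := fun _ : ι => N2 F) i X) := by
  intro j
  by_cases hj : j = i
  · subst hj
    simp [h]
  · simp [hj]

theorem sl_mem_P (i : ι) {X : N2 F} (h : X.trace = 0) : sl i X ∈ P F {i} :=
  kp_mem_P (ty_single i h)

theorem sl_add (i : ι) (X Y : N2 F) : sl i (X + Y) = sl i X + sl i Y := by
  ext a b
  simp only [sl_apply, Matrix.add_apply, add_mul]

theorem sl_smul (i : ι) (c : F) (X : N2 F) : sl i (c • X) = c • sl i X := by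
  ext a b
  simp only [sl_apply, Matrix.smul_apply, smul_eq_mul, mul_assoc]

theorem sl_zero (i : ι) : sl i (0 : N2 F) = 0 := by
  ext a b
  simp [sl_apply]

theorem mem_P_single {i : ι} {A : TM ι F} :
    A ∈ P F {i} ↔ ∃ X : N2 F, X.trace = 0 ∧ A = sl i X := by
  refine ⟨fun h => ?_, fun ⟨X, h1, h2⟩ => h2 ▸ sl_mem_P i h1⟩
  induction h using Submodule.span_induction with
  | mem A h =>
    obtain ⟨x, hx, rfl⟩ := h
    refine ⟨x i, (hx i).1 (Finset.mem_singleton_self i), ?_⟩
    rw [sl]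
    congr 1
    funext j
    by_cases hj : j = i
    · subst hj
      simp
    · rw [Pi.mulSingle_eq_of_ne hj, (hx j).2 (by simpa using hj)]
  | zero => exact ⟨0, by simp, (sl_zero i).symm⟩
  | add A B _ _ h h' =>
    obtain ⟨X, h1, rfl⟩ := h
    obtain ⟨Y, h2, rfl⟩ := h'
    exact ⟨X + Y, by simp [h1, h2], (sl_add i X Y).symm⟩
  | smul c A _ h =>
    obtain ⟨X, h1, rfl⟩ := h
    exact ⟨c • X, by simp [h1], (sl_smul i c X).symm⟩

/-- the sum of the traceless matrices of all slots -/
def hT (ι F : Type*) [Fintype ι] [Field F] : Submodule F (TM ι F) := ⨆ i : ι, P F {i}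

theorem sl_mem_hT (i : ι) {X : N2 F} (h : X.trace = 0) : sl i X ∈ hT ι F :=
  Submodule.mem_iSup_of_mem i (sl_mem_P i h)

theorem mem_hT {A : TM ι F} : A ∈ hT ι F ↔
    ∃ X : ι → N2 F, (∀ i, (X i).trace = 0) ∧ A = ∑ i, sl i (X i) := by
  refine ⟨fun h => ?_, fun ⟨X, h1, h2⟩ => h2 ▸ Submodule.sum_mem _ fun i _ => sl_mem_hT i (h1 i)⟩
  induction h using Submodule.iSup_induction' with
  | mem i A h =>
    obtain ⟨X, h1, rfl⟩ := mem_P_single.1 h
    refine ⟨Pi.single i X, fun j => ?_, ?_⟩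
    · by_cases hj : j = i
      · subst hj
        simpa using h1
      · simp [Pi.single_eq_of_ne hj]
    · rw [Finset.sum_eq_single i]
      · simp
      · intro j _ hj
        rw [Pi.single_eq_of_ne hj, sl_zero]
      · simp
  | zero => exact ⟨0, by simp, by simp [sl_zero]⟩
  | add A B _ _ h h' =>
    obtain ⟨X, h1, rfl⟩ := h
    obtain ⟨Y, h2, rfl⟩ := h'
    exact ⟨X + Y, fun i => by simp [h1, h2], by simp [sl_add, Finset.sum_add_distrib]⟩

theorem hT_le_spT : hT ι F ≤ spT ι F := iSup_le fun _ => P_le_spT (by simp)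

theorem Br.stable {H N : Submodule F (TM ι F)} (h : Br H N N) (h' : hT ι F ≤ H) : Stable N :=
  fun i _ hX A hA => h _ (h' (sl_mem_hT i hX)) A hA

theorem spT_stable : Stable (spT ι F) := spT_br.stable hT_le_spT

theorem Br.mono {N₁ N₂ N₃ N₁' N₂' : Submodule F (TM ι F)} (h : Br N₁ N₂ N₃) (h1 : N₁' ≤ N₁)
    (h2 : N₂' ≤ N₂) : Br N₁' N₂' N₃ := fun A hA B hB => h A (h1 hA) B (h2 hB)

theorem Br.symm {N₁ N₂ N₃ : Submodule F (TM ι F)} (h : Br N₁ N₂ N₃) : Br N₂ N₁ N₃ :=
  fun A hA B hB => by simpa using N₃.neg_mem (h B hB A hA)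

variable [CharZero F]

theorem odd_of_le {I : Finset ι} (h : P F I ≤ spT ι F) : Odd I.card := by
  by_contra k
  rw [Nat.not_odd_iff_even] at k
  let a : ι → Fin 4 := fun i => if i ∈ I then 3 else 0
  have ha : supp a = I := by
    ext i
    by_cases hi : i ∈ I <;> simp [supp, a, hi]
  have hy : Ty I fun i => pb F (a i) := ha ▸ ty_pb a
  have h1 := h (kp_mem_P hy)
  rw [mem_spT, ty_transpose hy, k.neg_one_pow, one_smul, ← two_smul F,
    smul_eq_zero_iff_right two_ne_zero] at h1
  have h2 : (kp fun i => pb F (a i)) * (kp fun i => pb F (a i)) = 1 := by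
    rw [← kp_mul, ← kp_one]
    congr 1
    funext i
    by_cases hi : i ∈ I
    · ext s t
      fin_cases s <;> fin_cases t <;> simp [a, hi, pb, mul_apply, Fin.sum_univ_two]
    · simp [a, hi, pb]
  have h3 : ET ι F * ET ι F = 0 := by
    rw [← mul_one (ET ι F * ET ι F), ← h2, mul_assoc, ← mul_assoc (ET ι F) (kp _), h1]
    simp
  rw [ET_sq, smul_eq_zero_iff_left one_ne_zero] at h3
  exact pow_ne_zero _ (neg_ne_zero.2 one_ne_zero) h3

theorem spT_le {N : Submodule F (TM ι F)} (h : ∀ I : Finset ι, Odd I.card → P F I ≤ N) :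
    spT ι F ≤ N := spT_stable.le_of fun I hI => h I (odd_of_le hI)

/-- the brackets of two parts -/
theorem Stable.br {N : Submodule F (TM ι F)} (h : Stable N) {I J S K : Finset ι}
    (hb : Br (P F I) (P F J) N) (hI : S ⊆ I) (hJ : S ⊆ J) (hS : Odd S.card)
    (hK : ∀ i, i ∈ K ↔ i ∈ S ∨ (i ∈ I ∧ i ∉ J) ∨ (i ∉ I ∧ i ∈ J)) : P F K ≤ N := by
  let Z : N2 F := !![1, 0; 0, -1]
  let X : N2 F := !![0, 1; 1, 0]
  let x : ι → N2 F := fun i => if i ∈ S then X else if i ∈ I then Z else 1
  let y : ι → N2 F := fun i => if i ∈ J then Z else 1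
  have tZ : Z.trace = 0 := by simp [Z, trace_fin_two]
  have tX : X.trace = 0 := by simp [X, trace_fin_two]
  have ZZ : Z * Z = 1 := by
    ext s t
    fin_cases s <;> fin_cases t <;> simp [Z, mul_apply, Fin.sum_univ_two]
  have ZX : Z * X = (-1 : F) • (X * Z) := by
    ext s t
    fin_cases s <;> fin_cases t <;> simp [Z, X, mul_apply, Fin.sum_univ_two]
  have tXZ : (X * Z).trace = 0 := by simp [X, Z, trace_fin_two]
  have t2 : (X * Z * (X * Z)).trace ≠ 0 := by
    simp [X, Z, trace_fin_two]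
  have t1 : (1 : N2 F).trace ≠ 0 := by simp
  have hx : Ty I x := fun i => by
    by_cases h1 : i ∈ S
    · simp [x, h1, hI h1, tX]
    · by_cases h2 : i ∈ I <;> simp [x, h1, h2, tZ]
  have hy : Ty J y := fun i => by
    by_cases h1 : i ∈ J <;> simp [y, h1, tZ]
  have hz : Ty K fun i => x i * y i := fun i => by
    rw [hK]
    by_cases h1 : i ∈ S
    · simp [x, y, h1, hJ h1, tXZ]
    · by_cases h2 : i ∈ I <;> by_cases h3 : i ∈ J <;> simp [x, y, h1, h2, h3, tZ, ZZ]
  have e : kp y * kp x = -(kp fun i => x i * y i) := by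
    have : ∀ i, y i * x i = (if i ∈ S then (-1 : F) else 1) • (x i * y i) := fun i => by
      by_cases h1 : i ∈ S
      · simp only [x, y, h1, hJ h1, if_true, ZX]
      · by_cases h2 : i ∈ I <;> by_cases h3 : i ∈ J <;> simp [x, y, h1, h2, h3]
    rw [← kp_mul]
    simp only [this, kp_smul]
    simp [Finset.prod_ite_mem, hS.neg_one_pow]
  have hm := hb _ (kp_mem_P hx) _ (kp_mem_P hy)
  rw [e, ← kp_mul, sub_neg_eq_add, ← two_smul F, N.smul_mem_iff two_ne_zero] at hm
  refine h.P_le hm hz ?_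
  rw [← kp_mul, kp_trace]
  refine Finset.prod_ne_zero_iff.2 fun i _ => ?_
  by_cases h1 : i ∈ S
  · simpa only [x, y, h1, hJ h1, if_true] using t2
  · by_cases h2 : i ∈ I <;> by_cases h3 : i ∈ J <;>
      simpa only [x, y, h1, h2, h3, if_true, if_false, ZZ, mul_one, one_mul] using t1

/-- simplicity for an odd number of slots -/
theorem spT_simple (hn : Odd (Fintype.card ι)) {N : Submodule F (TM ι F)} (hN : N ≤ spT ι F)
    (h : Br (spT ι F) N N) : N = ⊥ ∨ N = spT ι F := by
  have hs := h.stable hT_le_spT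
  by_cases k : ∃ I : Finset ι, P F I ≤ N
  · obtain ⟨I, hI⟩ := k
    have hu : P F Finset.univ ≤ spT ι F := P_le_spT hn
    have h1 : P F Finset.univ ≤ N := hs.br (h.mono hu hI) (Finset.subset_univ I) le_rfl
      (odd_of_le (hI.trans hN)) fun i => by by_cases hi : i ∈ I <;> simp [hi]
    exact .inr (le_antisymm hN (spT_le fun J hJ => hs.br (h.mono hu h1) (Finset.subset_univ J)
      (Finset.subset_univ J) hJ fun i => by simp))
  · exact .inl (le_bot_iff.1 (hs.le_of fun I hI => (k ⟨I, hI⟩).elim))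

/-- a subalgebra that contains the top part -/
theorem eq_spT_of_top {N : Submodule F (TM ι F)} (hs : Stable N) (hN : N ≤ spT ι F)
    (h : Br N N N) (hu : P F Finset.univ ≤ N) : N = spT ι F :=
  le_antisymm hN (spT_le fun J hJ => hs.br (h.mono hu hu) (Finset.subset_univ J)
    (Finset.subset_univ J) hJ fun i => by simp)

theorem odd_three : ∀ I : Finset (Fin 3), Odd I.card → (∃ i, I = {i}) ∨ I = Finset.univ := by
  decide

/-- three slots: the stable subspaces -/
theorem stable3 {N : Submodule F (TM (Fin 3) F)} (hs : Stable N) (hN : N ≤ spT (Fin 3) F) :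
    N = (⨆ (i : Fin 3) (_ : P F {i} ≤ N), P F {i}) ∨ P F Finset.univ ≤ N := by
  by_cases k : P F Finset.univ ≤ N
  · exact .inr k
  refine .inl (le_antisymm (hs.le_of fun I hI => ?_) (iSup₂_le fun _ h => h))
  rcases odd_three I (odd_of_le (hI.trans hN)) with ⟨i, rfl⟩ | rfl
  · exact le_iSup₂_of_le (f := fun i (_ : P F {i} ≤ N) => P F {i}) i hI le_rfl
  · exact (k hI).elim

/-- three slots: a stable subalgebra lies in the sum of the slots or is everything -/
theorem sub3 {N : Submodule F (TM (Fin 3) F)} (hs : Stable N) (hN : N ≤ spT (Fin 3) F)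
    (h : Br N N N) : N ≤ hT (Fin 3) F ∨ N = spT (Fin 3) F := by
  rcases stable3 hs hN with k | k
  · exact .inl (k.le.trans (iSup₂_le fun i _ => le_iSup (fun i => P F {i}) i))
  · exact .inr (eq_spT_of_top hs hN h k)

/-- three slots: maximality -/
theorem max3 {N : Submodule F (TM (Fin 3) F)} (hh : hT (Fin 3) F ≤ N) (hN : N ≤ spT (Fin 3) F)
    (h : Br N N N) : N = hT (Fin 3) F ∨ N = spT (Fin 3) F :=
  (sub3 (h.stable hh) hN h).imp_left fun k => le_antisymm k hh

theorem simple3 {N : Submodule F (TM (Fin 3) F)} (hN : N ≤ spT (Fin 3) F)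
    (h : Br (spT (Fin 3) F) N N) : N = ⊥ ∨ N = spT (Fin 3) F :=
  spT_simple (by simp; decide) hN h

end Pool.Agent.MT.UM
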