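import Pool.Agent.Lib.MP_d61fbb_ag.MT.UA2
import Pool.Agent.Lib.MP_d61fbb_ag.MT.UM2

/-! Stage three: maximality and simplicity. -/

set_option autoImplicit false

noncomputable section

namespace Pool.Agent.MT.U

open Matrix UM

variable {F : Type} [Field F] [CharZero F]

namespace Fr3

variable (φ : Fr3 F)

/-- transport from the tensor model -/
def tr : TM (Fin 3) F →ₗ[F] M8 F where
  toFun A := φ.U * A * φ.U'
  map_add' A B := by rw [Matrix.mul_add, Matrix.add_mul]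
  map_smul' c A := by rw [Matrix.mul_smul, Matrix.smul_mul, RingHom.id_apply]

omit [CharZero F] in
theorem tr_apply (A : TM (Fin 3) F) : φ.tr A = φ.U * A * φ.U' := rfl

omit [CharZero F] in
theorem tr_mul (A B : TM (Fin 3) F) : φ.tr (A * B) = φ.tr A * φ.tr B := by
  simp only [tr_apply, Matrix.mul_assoc]
  rw [← Matrix.mul_assoc φ.U' φ.U, φ.inv_mul, Matrix.one_mul]

omit [CharZero F] in
theorem tr_surj : Function.Surjective φ.tr := fun X => ⟨φ.U' * X * φ.U, by
  simp only [tr_apply, Matrix.mul_assoc]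
  rw [φ.mul_inv, Matrix.mul_one, ← Matrix.mul_assoc, φ.mul_inv, Matrix.one_mul]⟩

omit [CharZero F] in
theorem tr_inj : Function.Injective φ.tr := fun A B h => by
  have k : ∀ A : TM (Fin 3) F, φ.U' * φ.tr A * φ.U = A := fun A => by
    simp only [tr_apply, Matrix.mul_assoc]
    rw [φ.inv_mul, Matrix.mul_one, ← Matrix.mul_assoc, φ.inv_mul, Matrix.one_mul]
  rw [← k A, h, k]

omit [CharZero F] in
theorem tr_sp {A : TM (Fin 3) F} : φ.tr A ∈ spL F ↔ A ∈ spT (Fin 3) F := by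
  obtain ⟨u, hu⟩ := φ.symp
  have hJ : J (Fin 4) F = u • (φ.U'ᵀ * ET (Fin 3) F * φ.U') := by
    rw [← Matrix.smul_mul, ← Matrix.mul_smul, ET, ← hu, ← Matrix.mul_assoc, ← Matrix.mul_assoc,
      ← transpose_mul, φ.mul_inv, transpose_one, Matrix.one_mul, Matrix.mul_assoc, φ.mul_inv,
      Matrix.mul_one]
  have h0 : u ≠ 0 := by
    rintro rfl
    have := J_squared (Fin 4) F
    rw [hJ, zero_smul, mul_zero] at this
    exact one_ne_zero (neg_eq_zero.1 this.symm)
  have e : (φ.tr A)ᵀ * J (Fin 4) F + J (Fin 4) F * φ.tr A =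
      u • (φ.U'ᵀ * (Aᵀ * ET (Fin 3) F + ET (Fin 3) F * A) * φ.U') := by
    have k : φ.Uᵀ * φ.U'ᵀ = 1 := by rw [← transpose_mul, φ.inv_mul, transpose_one]
    rw [hJ, tr_apply, transpose_mul, transpose_mul]
    simp only [Matrix.mul_smul, Matrix.smul_mul, Matrix.mul_add, Matrix.add_mul, smul_add,
      Matrix.mul_assoc]
    rw [← Matrix.mul_assoc φ.Uᵀ, k, Matrix.one_mul, ← Matrix.mul_assoc φ.U' φ.U, φ.inv_mul,
      Matrix.one_mul]
  change _ + _ = _ ↔ _
  rw [e, mem_spT, smul_eq_zero_iff_right h0]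
  refine ⟨fun h => ?_, fun h => by rw [h, Matrix.mul_zero, Matrix.zero_mul]⟩
  have := congrArg (fun X => φ.Uᵀ * X * φ.U) h
  simp only [Matrix.mul_assoc, φ.inv_mul, Matrix.mul_one, Matrix.mul_zero, Matrix.zero_mul] at this
  rwa [← Matrix.mul_assoc, ← transpose_mul, φ.inv_mul, transpose_one, Matrix.one_mul] at this

omit [CharZero F] in
theorem map_hT : (hT (Fin 3) F).map φ.tr = φ.hh := by
  rw [hT, Submodule.map_iSup, hh]
  refine iSup_congr fun i => ?_
  ext X
  simp only [Submodule.mem_map, mem_P_single, h, LinearMap.mem_ker, traceLinearMap_apply]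
  exact ⟨fun ⟨_, ⟨x, h1, h2⟩, h3⟩ => ⟨x, h1, h3 ▸ h2 ▸ rfl⟩,
    fun ⟨x, h1, h2⟩ => ⟨_, ⟨x, h1, rfl⟩, h2⟩⟩

omit [CharZero F] in
theorem map_spT : (spT (Fin 3) F).map φ.tr = spL F := by
  rw [show spT (Fin 3) F = (spL F).comap φ.tr from Submodule.ext fun _ => φ.tr_sp.symm,
    Submodule.map_comap_eq_of_surjective φ.tr_surj]

omit [CharZero F] in
theorem br_of {H : Submodule F (TM (Fin 3) F)} {n : Submodule F (M8 F)}
    (h : AdSt (H.map φ.tr) n) : Br H (n.comap φ.tr) (n.comap φ.tr) := fun A hA B hB => by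
  rw [Submodule.mem_comap, map_sub, tr_mul, tr_mul]
  exact h _ (Submodule.mem_map_of_mem hA) _ hB

end Fr3

theorem hT_ne : hT (Fin 3) F ≠ spT (Fin 3) F := by
  intro h
  have hy : Ty (supp fun _ : Fin 3 => (1 : Fin 4)) fun _ => pb F 1 := ty_pb fun _ => 1
  obtain ⟨X, -, h2⟩ := mem_hT.1 (h ▸ P_le_spT (by decide) (kp_mem_P hy))
  have := congrFun (congrFun h2 fun _ => 0) fun _ => 1
  rw [Matrix.sum_apply, Finset.sum_eq_zero fun i _ => by
    rw [sl_apply, Finset.prod_eq_zero (i := i + 1) (by revert i; decide) (by simp), mul_zero]]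
    at this
  simp [kp_apply, pb] at this

theorem Fr3.hh_ne (φ : Fr3 F) : φ.hh ≠ spL F := by
  rw [← φ.map_hT, ← φ.map_spT]
  exact fun h => hT_ne (Submodule.map_injective_of_injective φ.tr_inj h)

theorem Fr3.max (φ : Fr3 F) {n : Submodule F (M8 F)} (h1 : φ.hh ≤ n) (h2 : n ≤ spL F)
    (h3 : AdSt φ.hh n) : n = φ.hh ∨ n = spL F := by
  rw [← φ.map_hT] at h1 h3
  rw [Submodule.map_le_iff_le_comap] at h1
  have k2 : n.comap φ.tr ≤ spT (Fin 3) F := fun _ h => φ.tr_sp.1 (h2 h)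
  rw [← Submodule.map_comap_eq_of_surjective φ.tr_surj n, ← φ.map_hT, ← φ.map_spT]
  rcases stable3 ((φ.br_of h3).stable le_rfl) k2 with k | k
  · exact .inl (congrArg _ (le_antisymm
      (k.le.trans (iSup₂_le fun i _ => le_iSup (fun i => P F {i}) i)) h1))
  · refine .inr (congrArg _ (le_antisymm k2 (spT_le fun I hI => ?_)))
    rcases odd_three I hI with ⟨i, rfl⟩ | rfl
    · exact (le_iSup (fun i => P F {i}) i).trans h1
    · exact k

/-- the words attached to a symplectic basis -/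
def wd : I2 4 → T3 :=
  Sum.elim ![![0, 0, 0], ![0, 1, 1], ![1, 0, 1], ![1, 1, 0]]
    ![![1, 1, 1], ![1, 0, 0], ![0, 1, 0], ![0, 0, 1]]

/-- a permutation matrix -/
def U₀ : Matrix (I2 4) T3 ℤ := of fun a x => if wd a = x then 1 else 0

theorem U₀_mul : U₀ * U₀ᵀ = 1 := by decide +kernel

theorem U₀_mul' : U₀ᵀ * U₀ = 1 := by decide +kernel

theorem U₀_symp : U₀ᵀ * J (Fin 4) ℤ * U₀ = -kp fun _ : Fin 3 => J2 ℤ := by decide +kernel

/-- a frame over any field -/
def fr₀ (F : Type) [Field F] : Fr3 F where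
  U := U₀.map (Int.castRingHom F)
  U' := U₀ᵀ.map (Int.castRingHom F)
  mul_inv := by rw [← Matrix.map_mul, U₀_mul, Matrix.map_one _ (map_zero _) (map_one _)]
  inv_mul := by rw [← Matrix.map_mul, U₀_mul', Matrix.map_one _ (map_zero _) (map_one _)]
  symp := by
    refine ⟨-1, ?_⟩
    rw [← map_J _ (Int.castRingHom F), ← transpose_map, ← Matrix.map_mul, ← Matrix.map_mul,
      U₀_symp, show (fun _ : Fin 3 => J2 F) = fun _ => (J2 ℤ).map (Int.castRingHom F) from
        funext fun _ => by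
          ext a b; fin_cases a <;> fin_cases b <;> simp [J2], ← kp_map]
    ext a b
    simp

theorem sp_simple {m : Submodule F (M8 F)} (h1 : m ≤ spL F) (h2 : m ≠ ⊥) (h3 : AdSt (spL F) m) :
    m = spL F := by
  have φ := fr₀ F
  rw [← φ.map_spT] at h3
  have k2 : m.comap φ.tr ≤ spT (Fin 3) F := fun _ h => φ.tr_sp.1 (h1 h)
  rw [← Submodule.map_comap_eq_of_surjective φ.tr_surj m] at h2 ⊢
  rcases simple3 k2 (φ.br_of h3) with k | k
  · exact (h2 (by rw [k, Submodule.map_bot])).elim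
  · rw [k, φ.map_spT]

end Pool.Agent.MT.U
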