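import Pool.Agent.Lib.MP_d61fbb_ag.MT.G0a
import Pool.Agent.Lib.MP_d61fbb_ag.MT.A6

/-! Block G: the action of the symplectic group, the complex structure. -/

noncomputable section

namespace Pool.Agent.MT.G

open Matrix Complex Filter Topology Set Metric

variable {g : ℕ}

/-- integral symplectic matrices as real ones -/
def zsp (γ : Sp g ℤ) : Sp g ℝ := ⟨zm γ.1, SymplecticGroup.map_mem γ.2 (Int.castRingHom ℝ)⟩

/-- rational symplectic matrices as real ones -/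
def qsp (γ : Sp g ℚ) : Sp g ℝ := ⟨qm γ.1, SymplecticGroup.map_mem γ.2 (Rat.castHom ℝ)⟩

/-- integral symplectic matrices as rational ones -/
def zqsp (γ : Sp g ℤ) : Sp g ℚ := ⟨zq γ.1, SymplecticGroup.map_mem γ.2 (Int.castRingHom ℚ)⟩

lemma rs_cm (γ : Sp g ℝ) : RS 1 (dl (cm γ.1)) := ((gs_one_iff.2 γ.2).rs_real one_pos).dl

lemma ac_def (γ : MM g ℝ) (z : EE g) : ac γ z = un (act (dl (cm γ)) (mk z)) := by
  simp only [ac, act, cj, dl, toBlocks_fromBlocks₁₁, toBlocks_fromBlocks₁₂, toBlocks_fromBlocks₂₁,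
    toBlocks_fromBlocks₂₂, sub_eq_add_neg, neg_mul, add_comm]

lemma mk_ac (γ : Sp g ℝ) (z : EE g) : mk (ac γ.1 z) = act (dl (cm γ.1)) (mk z) := by
  rw [ac_def, mk_un ((rs_cm γ).gs.act_symm (mk_symm z))]

lemma Om_mul (z : EE g) (γ : MM g ℂ) : Om z * γ =
    fromCols (mk z * γ.toBlocks₁₁ + γ.toBlocks₂₁) (mk z * γ.toBlocks₁₂ + γ.toBlocks₂₂) := by
  conv_lhs => rw [← fromBlocks_toBlocks γ]
  simp only [Om, fromCols_mul_fromBlocks, Matrix.one_mul]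

lemma cm_mul {ι κ μ : Type} [Fintype κ] (A : Matrix ι κ ℝ) (B : Matrix κ μ ℝ) :
    cm (A * B) = cm A * cm B := Matrix.map_mul (f := ofRealHom)

lemma cm_add {ι κ : Type} (A B : Matrix ι κ ℝ) : cm (A + B) = cm A + cm B := by
  ext i j; simp

lemma cm_sub {ι κ : Type} (A B : Matrix ι κ ℝ) : cm (A - B) = cm A - cm B := by
  ext i j; simp

lemma cm_neg {ι κ : Type} (A : Matrix ι κ ℝ) : cm (-A) = -cm A := by
  ext i j; simp

lemma cm_one {ι : Type} [DecidableEq ι] : cm (1 : Matrix ι ι ℝ) = 1 :=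
  Matrix.map_one _ ofReal_zero ofReal_one

lemma mk_eq (z : EE g) : mk z = cm (Xm z) + I • cm (Ym z) := by
  ext i j; simp [Xm, Ym, mul_comm I]

lemma Xm_symm (z : EE g) : (Xm z)ᵀ = Xm z := by rw [Xm, ← transpose_map, mk_symm]

lemma Ym_symm (z : EE g) : (Ym z)ᵀ = Ym z := by rw [Ym, ← transpose_map, mk_symm]

lemma Ym_unit {z : EE g} (hz : z ∈ HH g) : IsUnit (Ym z).det :=
  (isUnit_iff_isUnit_det _).1 (mem_HH.1 hz).isUnit

theorem ac_spec (γ : Sp g ℝ) {z : EE g} (hz : z ∈ HH g) :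
    ∃ C : Matrix (Fin g) (Fin g) ℂ, IsUnit C.det ∧ Om (ac γ.1 z) * cm γ.1 = C * Om z := by
  have h : Om (ac γ.1 z) * cm γ.1 =
      (mk (ac γ.1 z) * (cm γ.1).toBlocks₁₂ + (cm γ.1).toBlocks₂₂) * Om z := by
    have := nonsing_inv_mul_cancel_right _ ((dl (cm γ.1)).toBlocks₁₁ * mk z +
      (dl (cm γ.1)).toBlocks₁₂) ((rs_cm γ).det_ne hz).isUnit
    rw [← act, ← mk_ac] at this
    simp only [cj, dl, toBlocks_fromBlocks₁₁, toBlocks_fromBlocks₁₂, toBlocks_fromBlocks₂₁,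
      toBlocks_fromBlocks₂₂] at this
    rw [Om_mul, Om, mul_fromCols, Matrix.mul_one]
    congr 1
    linear_combination (norm := noncomm_ring) this
  refine ⟨_, ?_, h⟩
  have h1 := congrArg (· * cm (γ⁻¹).1) h
  have h2 : γ.1 * (γ⁻¹).1 = 1 := congrArg Subtype.val (mul_inv_cancel γ)
  simp only [Matrix.mul_assoc, ← cm_mul, h2, cm_one, Matrix.mul_one] at h1
  rw [Om_mul, mul_fromCols, Om] at h1
  exact isUnit_det_of_right_inverse (fromCols_inj h1).2.symm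

theorem ac_eq (γ : Sp g ℝ) {z z' : EE g} (hz : z ∈ HH g) {C : Matrix (Fin g) (Fin g) ℂ}
    (h : Om z' * cm γ.1 = C * Om z) : ac γ.1 z = z' := by
  rw [Om_mul, Om, mul_fromCols, Matrix.mul_one] at h
  obtain ⟨h1, h2⟩ := fromCols_inj h
  rw [ac_def, ← un_mk z', act]
  congr 1
  rw [← mul_nonsing_inv_cancel_right _ (mk z') ((rs_cm γ).det_ne hz).isUnit]
  congr 1
  simp only [cj, dl, toBlocks_fromBlocks₁₁, toBlocks_fromBlocks₁₂, toBlocks_fromBlocks₂₁,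
    toBlocks_fromBlocks₂₂]
  rw [← h2] at h1
  linear_combination (norm := noncomm_ring) -h1

theorem ac_mem (γ : Sp g ℝ) {z : EE g} (hz : z ∈ HH g) : ac γ.1 z ∈ HH g := by
  change Sieg _
  rw [mk_ac]
  exact (rs_cm γ).sieg hz

theorem ac_mul (γ γ' : Sp g ℝ) {z : EE g} (hz : z ∈ HH g) :
    ac (γ.1 * γ'.1) z = ac γ.1 (ac γ'.1 z) := by
  rw [ac_def, ac_def γ.1, mk_ac, cm_mul, dl_mul, (rs_cm γ).act_mul (rs_cm γ') hz]

theorem ac_one (z : EE g) : ac 1 z = z := by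
  rw [ac_def, cm_one, dl_one, act_one, un_mk]

theorem ac_diff (γ : Sp g ℝ) : DifferentiableOn ℂ (ac γ.1) (HH g) := by
  intro z hz
  have := act_diffAt (γ := dl (cm γ.1)) (t := fun (w : EE g) i j => w s(i, j)) (x := z)
    (by fun_prop) ((rs_cm γ).det_ne hz)
  refine (differentiableAt_pi.2 fun p => ?_).differentiableWithinAt
  simp only [ac_def]
  exact differentiableAt_pi.1 (differentiableAt_pi.1 this p.inf) p.sup

theorem az_mem (γ : Sp g ℤ) {z : EE g} (hz : z ∈ HH g) : az γ z ∈ HH g := by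
  exact ac_mem (zsp γ) hz

theorem az_mul (γ γ' : Sp g ℤ) {z : EE g} (hz : z ∈ HH g) : az (γ * γ') z = az γ (az γ' z) := by
  exact (congrArg (ac · z) (Matrix.map_mul (f := Int.castRingHom ℝ))).trans
    (ac_mul (zsp γ) (zsp γ') hz)

theorem az_one (z : EE g) : az 1 z = z := by
  rw [az, Submonoid.coe_one, zm, Matrix.map_one _ Int.cast_zero Int.cast_one, ac_one]

theorem az_diff (γ : Sp g ℤ) : DifferentiableOn ℂ (az γ) (HH g) := by
  exact ac_diff (zsp γ)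

theorem Om_Jm {z : EE g} (hz : z ∈ HH g) : Om z * cm (Jm z) = I • Om z := by
  have h : cm (Ym z) * cm (Ym z)⁻¹ = 1 := by rw [← cm_mul, mul_nonsing_inv _ (Ym_unit hz), cm_one]
  have h2 : mk z * cm (Ym z)⁻¹ = cm (Xm z) * cm (Ym z)⁻¹ + I • 1 := by
    rw [mk_eq, add_mul, smul_mul_assoc, h]
  rw [Jm, cm, fromBlocks_map, Om, fromCols_mul_fromBlocks]
  simp only [cm_mul, cm_neg, cm_add, Matrix.one_mul, ← Matrix.mul_assoc, h2]
  rw [mk_eq]
  ext i (j | j) <;> simp [add_mul, ← mul_assoc, mul_add]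
  ring

theorem Om_inj {z : EE g} (hz : z ∈ HH g) {κ : Type} {A : Matrix (I2 g) κ ℝ}
    (h : Om z * cm A = 0) : A = 0 := by
  rw [← fromRows_toRows A, cm, fromRows_map, Om, fromCols_mul_fromRows, Matrix.one_mul] at h
  have h1 : Ym z * A.toRows₁ = 0 := by
    ext i j
    simpa [mul_apply, Ym] using congrArg im (congrFun (congrFun h i) j)
  have h2 : A.toRows₁ = 0 := by
    rw [← nonsing_inv_mul_cancel_left _ A.toRows₁ (Ym_unit hz), h1, Matrix.mul_zero]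
  have h3 : A.toRows₂ = 0 := by
    ext i j
    simpa [h2] using congrFun (congrFun h i) j
  rw [← fromRows_toRows A, h2, h3, fromRows_zero]

theorem Jm_sq {z : EE g} (hz : z ∈ HH g) : Jm z * Jm z = -1 := by
  refine eq_neg_of_add_eq_zero_left (Om_inj hz ?_)
  rw [cm_add, cm_mul, cm_one, Matrix.mul_add, ← Matrix.mul_assoc, Om_Jm hz, Matrix.smul_mul,
    Om_Jm hz, smul_smul]
  simp

theorem Jm_mem {z : EE g} (hz : z ∈ HH g) : Jm z ∈ symplecticGroup (Fin g) ℝ := by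
  have h : (J (Fin g) ℝ * Jm z)ᵀ = J (Fin g) ℝ * Jm z := by
    simp [J, Jm, fromBlocks_multiply, fromBlocks_transpose, transpose_nonsing_inv, Xm_symm, Ym_symm,
      Matrix.mul_assoc]
  rw [transpose_mul, J_transpose, mul_neg, neg_eq_iff_eq_neg] at h
  rw [SymplecticGroup.mem_iff', h, neg_mul, Matrix.mul_assoc, Jm_sq hz]
  simp

theorem Jm_ac (γ : Sp g ℝ) {z : EE g} (hz : z ∈ HH g) : Jm (ac γ.1 z) * γ.1 = γ.1 * Jm z := by
  obtain ⟨C, -, h⟩ := ac_spec γ hz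
  refine sub_eq_zero.1 (Om_inj (ac_mem γ hz) ?_)
  rw [cm_sub, cm_mul, cm_mul, Matrix.mul_sub, ← Matrix.mul_assoc, ← Matrix.mul_assoc,
    Om_Jm (ac_mem γ hz), Matrix.smul_mul, h, Matrix.mul_assoc, Om_Jm hz, Matrix.mul_smul, sub_self]

theorem Jm_inj {z z' : EE g} (hz : z ∈ HH g) (hz' : z' ∈ HH g) (h : Jm z = Jm z') : z = z' := by
  obtain ⟨h1, h2, -, -⟩ := fromBlocks_inj.1 h
  have h3 : Ym z = Ym z' := by
    rw [← nonsing_inv_nonsing_inv _ (Ym_unit hz), h2, nonsing_inv_nonsing_inv _ (Ym_unit hz')]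
  have h4 : Xm z = Xm z' := by
    rw [← mul_nonsing_inv_cancel_left _ (Xm z) (Ym_unit hz), h1, h3,
      mul_nonsing_inv_cancel_left _ _ (Ym_unit hz')]
  rw [← un_mk z, mk_eq, h3, h4, ← mk_eq, un_mk]

theorem hh_ac (γ : Sp g ℝ) {z : EE g} (hz : z ∈ HH g) (θ : ℝ) :
    hh (ac γ.1 z) θ * γ.1 = γ.1 * hh z θ := by
  simp only [hh, add_mul, mul_add, smul_mul_assoc, mul_smul_comm, Jm_ac γ hz, one_mul, mul_one]

theorem Pm_eq (z : EE g) : Pm z = fromBlocks (Ym z + Xm z * (Ym z)⁻¹ * Xm z) (Xm z * (Ym z)⁻¹)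
    ((Ym z)⁻¹ * Xm z) (Ym z)⁻¹ := by
  simp [Pm, J, Jm, fromBlocks_multiply, add_comm]

theorem Pm_posDef {z : EE g} (hz : z ∈ HH g) : (Pm z).PosDef := by
  have hY := mem_HH.1 hz
  have h : Pm z = (fromBlocks 1 0 (Xm z) 1)ᴴ * fromBlocks (Ym z) 0 0 (Ym z)⁻¹ *
      fromBlocks 1 0 (Xm z) 1 := by
    simp [Pm_eq, fromBlocks_multiply, fromBlocks_transpose, Xm_symm]
  rw [h]
  refine PosDef.conjTranspose_mul_mul_same (PosDef.of_dotProduct_mulVec_pos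
    (IsHermitian.fromBlocks hY.1 (by simp) hY.inv.1) fun v hv => ?_)
    (mulVec_injective_iff_isUnit.2 (isUnit_fromBlocks_zero₁₂.2 ⟨isUnit_one, isUnit_one⟩))
  rw [← Sum.elim_comp_inl_inr v] at hv ⊢
  simp only [star_trivial, fromBlocks_mulVec, sumElim_dotProduct_sumElim, zero_mulVec, add_zero,
    zero_add, Sum.elim_comp_inl, Sum.elim_comp_inr]
  by_cases h1 : v ∘ Sum.inl = 0
  · exact add_pos_of_nonneg_of_pos (hY.posSemidef.dotProduct_mulVec_nonneg _)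
      (hY.inv.dotProduct_mulVec_pos fun h2 => hv (by rw [h1, show v ∘ Sum.inr = 0 from h2]; simp))
  · exact add_pos_of_pos_of_nonneg (hY.dotProduct_mulVec_pos h1)
      (hY.inv.posSemidef.dotProduct_mulVec_nonneg _)

theorem Pm_ac (γ : Sp g ℝ) {z : EE g} (hz : z ∈ HH g) :
    γ.1ᵀ * Pm (ac γ.1 z) * γ.1 = Pm z := by
  rw [Pm, Matrix.mul_assoc, Matrix.mul_assoc, Jm_ac γ hz, ← Matrix.mul_assoc, ← Matrix.mul_assoc,
    SymplecticGroup.mem_iff'.1 γ.2, Pm]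

/-- translations -/
theorem exists_trn (M : ℕ) (B : Sym2 (Fin g) → ℤ) :
    ∃ γ ∈ Gam g M, ∀ z, az γ z = z + fun p => (M : ℂ) * B p := by
  let S : Matrix (Fin g) (Fin g) ℤ := of fun i j => -(M * B s(i, j))
  have hS : Sᵀ = S := by
    ext i j
    simp [S, Sym2.eq_swap]
  refine ⟨⟨fromBlocks 1 0 S 1, by
    simp [SymplecticGroup.mem_iff, J, fromBlocks_multiply, fromBlocks_transpose, hS]⟩, ?_,
    fun z => ?_⟩
  · rintro (i | i) (j | j) <;> simp [S, one_apply]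
  · rw [← un_mk (z + _), az, ac]
    congr 1
    ext i j
    simp [fromBlocks_map, S, mk]

/-- change of basis -/
theorem exists_gl (U : Matrix (Fin g) (Fin g) ℤ) (hU : IsUnit U.det) :
    ∃ γ : Sp g ℤ, ∀ z, mk (az γ z) = (U.map (↑))ᵀ * mk z * U.map (↑) := by
  let γ : Sp g ℤ := ⟨fromBlocks U⁻¹ 0 0 Uᵀ, by
    simp [SymplecticGroup.mem_iff, J, fromBlocks_multiply, fromBlocks_transpose, hU,
      ← transpose_mul]⟩
  refine ⟨γ, fun z => (mk_ac (zsp γ) z).trans ?_⟩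
  have h : (U⁻¹.map ((↑) : ℤ → ℂ))⁻¹ = U.map (↑) := inv_eq_right_inv
    ((Matrix.map_mul (f := Int.castRingHom ℂ)).symm.trans (by simp [nonsing_inv_mul _ hU]))
  simp [act, cj, dl, zsp, γ, fromBlocks_map, Matrix.map_map, Function.comp_def, h, transpose_map]

/-- the diagonal element `diag (1 / c, c)` -/
def dia (g : ℕ) (c : ℚˣ) : Sp g ℚ :=
  ⟨fromBlocks ((c⁻¹ : ℚˣ) • 1) 0 0 (c • 1), by
    rw [SymplecticGroup.mem_iff]
    simp [J, fromBlocks_transpose, fromBlocks_multiply, smul_smul]⟩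

theorem ac_dia (c : ℚˣ) (z : EE g) : ac (qm (dia g c).1) z = (((c : ℚ) : ℂ) ^ 2) • z := by
  have h : ((((c : ℚ) : ℂ)⁻¹ • (1 : Matrix (Fin g) (Fin g) ℂ)))⁻¹ = ((c : ℚ) : ℂ) • 1 :=
    inv_eq_right_inv (by simp [smul_smul])
  have k : ∀ x : ℚ, (x • (1 : Matrix (Fin g) (Fin g) ℚ)).map (fun y => (y : ℂ)) =
      (x : ℂ) • 1 := fun x => by
    ext i j
    by_cases e : i = j <;> simp [e]
  rw [← un_mk (_ • z), mk_smul, ac]
  simp [dia, fromBlocks_map, Matrix.map_map, Function.comp_def, Units.smul_def, k, h, smul_smul, sq]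

theorem Gam_mono {M N : ℕ} (h : M ∣ N) : Gam g N ≤ Gam g M := by
  exact fun γ hγ i j => (Int.natCast_dvd_natCast.2 h).trans (hγ i j)

theorem Gam_conj {M : ℕ} {γ : Sp g ℤ} (h : γ ∈ Gam g M) (δ : Sp g ℤ) : δ * γ * δ⁻¹ ∈ Gam g M := by
  intro i j
  have e : δ.1 * (δ⁻¹).1 = 1 := congrArg Subtype.val (mul_inv_cancel δ)
  have : (δ * γ * δ⁻¹).1 - 1 = δ.1 * (γ.1 - 1) * (δ⁻¹).1 := by
    rw [mul_sub, sub_mul, mul_one, e]
    rfl
  rw [← Matrix.sub_apply, this, mul_apply]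
  refine Finset.dvd_sum fun k _ => Dvd.dvd.mul_right ?_ _
  rw [mul_apply]
  exact Finset.dvd_sum fun l _ => Dvd.dvd.mul_left (h l k) _

theorem Gam_inf {M N : ℕ} (h : M.Coprime N) {γ : Sp g ℤ} (hM : γ ∈ Gam g M) (hN : γ ∈ Gam g N) :
    γ ∈ Gam g (M * N) := by
  intro i j
  push_cast
  exact (Nat.isCoprime_iff_coprime.2 h).mul_dvd (hM i j) (hN i j)

/-- finitely many cosets inside any set -/
theorem Gam_fin {M : ℕ} (hM : 0 < M) (T : Set (Sp g ℤ)) :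
    ∃ R : Set (Sp g ℤ), R.Finite ∧ R ⊆ T ∧ ∀ γ ∈ T, ∃ r ∈ R, γ * r⁻¹ ∈ Gam g M := by
  have : NeZero M := ⟨hM.ne'⟩
  let f : Sp g ℤ → MM g (ZMod M) := fun γ => γ.1.map (↑)
  obtain ⟨R, h1, h2⟩ := exists_subset_bijOn T f
  refine ⟨R, Finite.of_injOn (mapsTo_univ f R) h2.injOn finite_univ, h1, fun γ hγ => ?_⟩
  obtain ⟨r, hr, e⟩ := h2.surjOn (mem_image_of_mem f hγ)
  refine ⟨r, hr, fun i j => ?_⟩
  have e1 : r.1 * (r⁻¹).1 = 1 := congrArg Subtype.val (mul_inv_cancel r)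
  have : (γ * r⁻¹).1 - 1 = (γ.1 - r.1) * (r⁻¹).1 := by
    rw [sub_mul, e1]
    rfl
  rw [← Matrix.sub_apply, this, mul_apply]
  exact Finset.dvd_sum fun k _ => Dvd.dvd.mul_right
    ((ZMod.intCast_eq_intCast_iff_dvd_sub _ _ _).1 (congrFun (congrFun e i) k)) _

end Pool.Agent.MT.G
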