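import Pool.Agent.Lib.MP_d61fbb_ag.MT.DAlgS

/-! Ordinarity and separability of good Weil polynomials. -/

set_option autoImplicit false

open Polynomial Finset

namespace Pool.Agent.MT

variable {P : ℤ[X]} {p : ℕ}

theorem d_norm_le {Ω : Type} [NormedField Ω] [IsUltrametricDist Ω] {z : Ω} (h : IsIntegral ℤ z) :
    ‖z‖ ≤ 1 :=
  (Valuation.integer.integers (NormedField.valuation (K := Ω))).mem_of_integral h.tower_top

section

variable {Ω : Type} [Field Ω] [CharZero Ω] {w : Ω} {u : Fin 3 → Ω}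

theorem Pres.isInt (h : Pres P p w u) (d : Fin 3 → Fin 2) : IsIntegral ℤ (lam w u d) :=
  ⟨P, h.monic, h.root d⟩

omit [CharZero Ω] in
theorem Pres.rev (h : Pres P p w u) (d : Fin 3 → Fin 2) :
    lam w u d * lam w u (fun i => (d i).rev) = p := by
  rw [← h.mul, lam, lam, mul_mul_mul_comm, ← prod_mul_distrib, sq]
  refine congrArg _ (prod_congr rfl fun i _ => ?_)
  generalize d i = j
  fin_cases j <;> simp

theorem Pres.int_u (h : Pres P p w u) (hp : p ≠ 0) (i : Fin 3) :
    IsIntegral ℤ (p * u i) ∧ IsIntegral ℤ (p * (u i)⁻¹) := by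
  have h2 : lam w u (Pi.single i 1) = lam w u 0 * u i := by
    rw [lam, prod_eq_single i (fun j _ hj => by simp [hj]) (by simp)]
    simp [lam]
  have h3 := (h.ne hp).2 i
  have e1 : p * u i = lam w u (Pi.single i 1) * lam w u fun j => ((0 : Fin 3 → Fin 2) j).rev := by
    rw [← h.rev 0, h2]
    ring
  have e2 : p * (u i)⁻¹ = lam w u 0 * lam w u fun j => ((Pi.single i 1 : Fin 3 → Fin 2) j).rev := by
    rw [← h.rev (Pi.single i 1), h2]
    field_simp
  exact ⟨e1 ▸ (h.isInt _).mul (h.isInt _), e2 ▸ (h.isInt _).mul (h.isInt _)⟩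

theorem Pres.e1_int (h : Pres P p w u) (hp : p ≠ 0) (hs : psm P 1 ≠ 0) :
    ∃ n : ℤ, (n : ℚ) = p * ce1 P p := by
  refine IsIntegrallyClosed.isIntegral_iff.1 ((isIntegral_algHom_iff (Algebra.ofId ℚ Ω |>.restrictScalars ℤ)
    (algebraMap ℚ Ω).injective).1 ?_)
  change IsIntegral ℤ (algebraMap ℚ Ω _)
  rw [map_mul, map_natCast, eq_ratCast, (h.cubic hp hs).2, mul_sum]
  refine IsIntegral.sum _ fun i _ => ?_
  rw [tt, mul_add, mul_add]
  exact ((h.int_u hp i).1.add (h.int_u hp i).2).add (by exact_mod_cast isIntegral_intCast (p * 2))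

end

theorem d_ord : DOrdStmt := by
  intro P p hp he hs w u h
  have hp0 := hp.out.ne_zero
  have hp1 : (1 : ℝ) < p := by exact_mod_cast hp.out.one_lt
  have hu : ∀ i, 0 < ‖u i‖ := fun i => norm_pos_iff.2 ((h.ne hp0).2 i)
  have hn : ‖(p : PadicAlgCl p)‖ = (p : ℝ)⁻¹ := by
    rw [← map_natCast (algebraMap ℚ_[p] _), PadicAlgCl.norm_extends, Padic.norm_p]
  let n : Fin 3 → ℝ := fun i => max ‖u i‖ ‖u i‖⁻¹
  have h1 : ∀ i, 1 ≤ n i := fun i => by
    rcases le_total 1 ‖u i‖ with k | k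
    · exact k.trans (le_max_left _ _)
    · exact ((one_le_inv₀ (hu i)).2 k).trans (le_max_right _ _)
  have h2 : ∏ i, n i ≤ p := by
    let d : Fin 3 → Fin 2 := fun i => if 1 ≤ ‖u i‖ then 1 else 0
    have k1 : ‖lam w u d‖ = ‖lam w u fun i => (d i).rev‖ * ∏ i, n i := by
      simp only [lam, norm_mul, norm_prod, norm_pow, mul_assoc, ← prod_mul_distrib]
      refine congrArg _ (prod_congr rfl fun i _ => ?_)
      by_cases k : 1 ≤ ‖u i‖
      · simp [d, n, k, (inv_le_one_of_one_le₀ k).trans k]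
      · have := (not_le.1 k).le.trans ((one_le_inv₀ (hu i)).2 (not_le.1 k).le)
        simp [d, n, k, this, (hu i).ne']
    have k2 := congrArg norm (h.rev d)
    have k3 := d_norm_le (h.isInt d)
    rw [norm_mul, hn] at k2
    have k4 : ‖lam w u d‖ * ‖lam w u d‖ * p = ∏ i, n i := by
      nth_rw 2 [k1]
      rw [← mul_assoc, k2]
      field_simp
    rw [← k4]
    exact mul_le_of_le_one_left (by positivity) (mul_le_one₀ k3 (norm_nonneg _) k3)
  obtain ⟨m, hm⟩ := h.e1_int hp0 hs
  have h3 : ‖∑ i, tt (u i)‖ = p := by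
    have k1 : ¬ (p : ℤ) ∣ m := by
      rintro ⟨k, rfl⟩
      refine he k (mul_left_cancel₀ (Nat.cast_ne_zero.2 hp0 : (p : ℚ) ≠ 0) ?_)
      rw [← hm]
      push_cast
      rfl
    have k2 : ‖(m : PadicAlgCl p)‖ = 1 := by
      rw [← map_intCast (algebraMap ℚ_[p] (PadicAlgCl p)), PadicAlgCl.norm_extends]
      exact le_antisymm (Padic.norm_int_le_one m)
        (not_lt.1 (mt Padic.norm_intCast_lt_one_iff.1 k1))
    have k3 := congrArg (fun q : ℚ => ‖(q : PadicAlgCl p)‖) hm
    simp only [Rat.cast_intCast, Rat.cast_mul, Rat.cast_natCast, norm_mul, k2, hn,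
      (h.cubic hp0 hs).2] at k3
    field_simp at k3
    exact k3.symm
  obtain ⟨i, -, hi⟩ := IsUltrametricDist.exists_norm_finsetSum_le_of_nonempty
    (univ_nonempty (α := Fin 3)) fun i => tt (u i)
  have h4 : (p : ℝ) ≤ n i := by
    have k1 := IsUltrametricDist.norm_add_le_max (u i + (u i)⁻¹) 2
    have k2 := IsUltrametricDist.norm_add_le_max (u i) (u i)⁻¹
    have k3 : ‖(2 : PadicAlgCl p)‖ ≤ 1 := IsUltrametricDist.norm_natCast_le_one _ 2
    rw [norm_inv] at k2
    exact (h3.ge.trans (hi.trans k1)).trans (max_le k2 (k3.trans (h1 i)))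
  rw [← mul_prod_erase _ _ (mem_univ i)] at h2
  have h0 : ∀ s : Finset (Fin 3), 1 ≤ ∏ j ∈ s, n j := fun s => by
    simpa using prod_le_prod (s := s) (f := fun _ => (1 : ℝ)) (by simp) fun j _ => h1 j
  have h5 := h0 (univ.erase i)
  have h6 : n i = p := le_antisymm (by nlinarith) h4
  refine ⟨i, ?_, fun j hj => ?_⟩
  · rcases max_choice ‖u i‖ ‖u i‖⁻¹ with k | k
    · exact .inl (k.symm.trans h6)
    · exact .inr (by rw [← h6, show n i = _ from k, inv_inv])
  · have k0 : ∏ j ∈ univ.erase i, n j ≤ 1 := by nlinarith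
    rw [← mul_prod_erase _ _ (mem_erase.2 ⟨hj, mem_univ j⟩)] at k0
    have k2 : n j ≤ 1 := by nlinarith [h0 ((univ.erase i).erase j), h1 j]
    exact le_antisymm ((le_max_left _ _).trans k2)
      ((inv_le_one₀ (hu j)).1 ((le_max_right _ _).trans k2))

theorem Good.irred (h : Good P p) : Irreducible (cub P p) ∧ (cub P p).Monic ∧
    (cub P p).natDegree = 3 := by
  have h1 : (cub P p).Monic := by unfold cub; monicity!
  have h2 : (cub P p).natDegree = 3 := by unfold cub; compute_degree!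
  refine ⟨(h1.irreducible_iff_roots_eq_zero_of_degree_le_three (by omega) h2.le).2 ?_, h1, h2⟩
  exact Multiset.eq_zero_of_forall_notMem fun q hq => h.irr q ((mem_roots h1.ne_zero).1 hq)

variable {Ω : Type} [Field Ω] [CharZero Ω] {w : Ω} {u : Fin 3 → Ω}

theorem Good.tt_root (h : Good P p) (k : Pres P p w u) (i : Fin 3) :
    aeval (tt (u i)) (cub P p) = 0 := by
  rw [aeval_def, eval₂_eq_eval_map, (k.cubic h.prime.ne_zero h.s1).1, eval_prod]
  exact prod_eq_zero (mem_univ i) (by simp)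

theorem Good.tt_ne (h : Good P p) (k : Pres P p w u) (i : Fin 3) (q : ℚ) : tt (u i) ≠ q := fun e =>
  h.irr q ((algebraMap ℚ Ω).injective (by
    rw [← aeval_algebraMap_apply_eq_algebraMap_eval, eq_ratCast, ← e, h.tt_root k, map_zero]))

theorem Good.tt_inj (h : Good P p) (k : Pres P p w u) : Function.Injective fun i => tt (u i) :=
  separable_prod_X_sub_C_iff.1 ((k.cubic h.prime.ne_zero h.s1).1 ▸ h.irred.1.separable.map)

theorem Good.lam_inj (h : Good P p) (k : Pres P p w u) : Function.Injective (lam w u) := by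
  have := Fact.mk h.prime
  obtain ⟨w', v, k'⟩ := k.transfer h.prime.ne_zero (PadicAlgCl p)
  suffices Function.Injective (lam w' v) by
    have h1 := separable_prod_X_sub_C_iff.2 this
    rw [← k'.fac, ← RingHom.eq_intCast' ((algebraMap ℚ (PadicAlgCl p)).comp (Int.castRingHom ℚ)),
      ← Polynomial.map_map, separable_map] at h1
    have h2 := h1.map (f := algebraMap ℚ Ω)
    rw [Polynomial.map_map, RingHom.eq_intCast' ((algebraMap ℚ Ω).comp _), k.fac] at h2
    exact separable_prod_X_sub_C_iff.1 h2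
  obtain ⟨i, h1, h2⟩ := d_ord P p h.e1 h.s1 w' v k'
  obtain ⟨h3, h4⟩ := k'.ne h.prime.ne_zero
  have hp1 : (1 : ℝ) < p := by exact_mod_cast h.prime.one_lt
  have h5 : ‖v i‖ ≠ 1 := by
    rcases h1 with e | e <;> rw [e]
    exacts [hp1.ne', (inv_lt_one_of_one_lt₀ hp1).ne]
  have h6 : ∀ j, v j ≠ 1 := fun j e => h.tt_ne k' j 4 (by rw [e, tt]; norm_num)
  have h7 : ∀ j l, j ≠ l → v j ≠ v l ∧ v j * v l ≠ 1 := fun j l hjl =>
    ⟨fun e => hjl (h.tt_inj k' (by simp only [e])), fun e => hjl (h.tt_inj k' (by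
      simp only [eq_inv_of_mul_eq_one_left e, tt, inv_inv, add_comm]))⟩
  intro d d' e
  have e1 := mul_left_cancel₀ h3 e
  have e2 : d i = d' i := by
    have := congrArg norm e1
    rw [norm_prod, norm_prod, prod_eq_single i (fun j _ hj => by simp [h2 j hj]) (by simp),
      prod_eq_single i (fun j _ hj => by simp [h2 j hj]) (by simp)] at this
    generalize d i = a at this
    generalize d' i = b at this
    fin_cases a <;> fin_cases b <;> simp_all [h5.symm]
  obtain ⟨j, l, hjl, hp, hf⟩ : ∃ j l : Fin 3, j ≠ l ∧ (∀ g : Fin 3 → PadicAlgCl p,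
      ∏ x, g x = g i * (g j * g l)) ∧ ∀ x, x = i ∨ x = j ∨ x = l := by
    fin_cases i
    · exact ⟨1, 2, by decide, fun g => by simp [Fin.prod_univ_three, mul_assoc], by decide⟩
    · exact ⟨0, 2, by decide, fun g => by simp [Fin.prod_univ_three]; ring, by decide⟩
    · exact ⟨0, 1, by decide, fun g => by simp [Fin.prod_univ_three]; ring, by decide⟩
  rw [hp, hp, e2] at e1
  have e3 := mul_left_cancel₀ (pow_ne_zero _ (h4 i)) e1
  have e4 : d j = d' j ∧ d l = d' l := by
    have := h6 j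
    have := h6 l
    have := h7 j l hjl
    have := h4 j
    have := h4 l
    generalize d j = a at e3
    generalize d' j = b at e3
    generalize d l = a' at e3
    generalize d' l = b' at e3
    fin_cases a <;> fin_cases b <;> fin_cases a' <;> fin_cases b' <;> simp_all [eq_comm]
  funext x
  rcases hf x with rfl | rfl | rfl
  exacts [e2, e4.1, e4.2]

end Pool.Agent.MT
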