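import Pool.Agent.Lib.MP_d61fbb_ag.MT.D0c
import Pool.Agent.Lib.MP_d61fbb_ag.MT.DOrd
import Pool.Agent.Lib.MP_d61fbb_ag.MT.HA

/-! The cubic resolvent has no rational root when its roots are close to four at some prime. -/

set_option autoImplicit false

open Matrix Polynomial Finset

namespace Pool.Agent.MT

variable {P : ℤ[X]} {p : ℕ}

/-- a rational root and the product of the other two -/
theorem Pres.dn2_root {Ω : Type} [Field Ω] [CharZero Ω] {w : Ω} {u : Fin 3 → Ω} (h : Pres P p w u)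
    (hp : p ≠ 0) (hs : psm P 1 ≠ 0) {q : ℚ} (hq : (cub P p).eval q = 0) (h4 : q ≠ 4) :
    ∃ i, ((4 - q : ℚ) : Ω) = 4 - tt (u i) ∧
      (((cub P p).eval 4 / (4 - q) : ℚ) : Ω) = ∏ j ∈ univ.erase i, (4 - tt (u j)) := by
  have k : ∀ r : ℚ, (((cub P p).eval r : ℚ) : Ω) = ∏ i, ((r : Ω) - tt (u i)) := fun r => by
    have k9 := congrArg (eval (algebraMap ℚ Ω r)) (h.cubic hp hs).1
    rw [eval_map_algebraMap, aeval_algebraMap_apply, coe_aeval_eq_eval, eval_prod] at k9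
    simpa using k9
  have k1 := k q
  rw [hq, Rat.cast_zero, eq_comm, prod_eq_zero_iff] at k1
  obtain ⟨i, -, hi⟩ := k1
  have k2 : ((4 - q : ℚ) : Ω) = 4 - tt (u i) := by
    rw [← sub_eq_zero.1 hi]
    push_cast
    rfl
  refine ⟨i, k2, ?_⟩
  rw [Rat.cast_div, div_eq_iff (Rat.cast_ne_zero.2 (sub_ne_zero.2 h4.symm)), k, k2, Rat.cast_ofNat,
    prod_erase_mul _ _ (mem_univ i)]

theorem dn2_norm {l : ℕ} [Fact l.Prime] (q : ℚ) : ‖(q : PadicAlgCl l)‖ = ‖(q : ℚ_[l])‖ := by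
  rw [← PadicAlgCl.norm_extends, map_ratCast]

theorem dn2_tt {Ω : Type} [NormedField Ω] [IsUltrametricDist Ω] {u : Ω} (h : ‖u‖ ≤ 1)
    (h' : ‖u⁻¹‖ ≤ 1) : ‖4 - tt u‖ ≤ 1 := by
  have h2 : ‖(2 : Ω)‖ ≤ 1 := by exact_mod_cast IsUltrametricDist.norm_natCast_le_one Ω 2
  rw [show 4 - tt u = 2 + -(u + u⁻¹) by rw [tt]; ring]
  exact (IsUltrametricDist.norm_add_le_max _ _).trans (max_le h2 (by
    rw [norm_neg]
    exact (IsUltrametricDist.norm_add_le_max _ _).trans (max_le h h')))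

theorem dn2_small {l : ℕ} [Fact l.Prime] (hl : 3 ≤ l) {m : ℚ} {k : ℕ} (hk : 4 ≤ k)
    (h1 : ∀ l' : Nat.Primes, ‖(m : ℚ_[l'])‖ ≤ 1) (h2 : ‖(m : ℂ)‖ ≤ 16)
    (h3 : ‖(m : ℚ_[l])‖ = (l : ℝ)⁻¹ ^ k) : False := by
  obtain ⟨n, rfl⟩ := int_of_padic_norm m h1
  rw [Rat.cast_intCast] at h2 h3
  have h4 : (l : ℤ) ^ k ∣ n := by
    rw [← Padic.norm_int_le_pow_iff_dvd, h3, inv_pow, _root_.zpow_neg, zpow_natCast]
  have h5 : |n| ≤ 16 := by
    rw [Complex.norm_intCast] at h2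
    exact_mod_cast h2
  have h6 : (3 : ℤ) ^ 4 ≤ l ^ k := (pow_le_pow_left₀ (by norm_num) (by exact_mod_cast hl) 4).trans
    (pow_le_pow_right₀ (by omega) hk)
  rw [Int.eq_zero_of_abs_lt_dvd h4 (by omega), Int.cast_zero, norm_zero] at h3
  have : (0 : ℝ) < l := by exact_mod_cast (by omega : 0 < l)
  exact absurd h3 (by positivity)

theorem dn2_irr {l : ℕ} [Fact l.Prime] (hl : 3 ≤ l) (hp : p.Prime) {w : PadicAlgCl l}
    {u : Fin 3 → PadicAlgCl l} (h : Pres P p w u) (hn : ∀ i, ‖tt (u i) - 4‖ = (l : ℝ)⁻¹ ^ 4)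
    (weil : ∀ z : ℂ, aeval z P = 0 → ‖z‖ ^ 2 = p) (hs : psm P 1 ≠ 0)
    (he : ∀ n : ℤ, ce1 P p ≠ n) (q : ℚ) : (cub P p).eval q ≠ 0 := by
  intro hq
  have hp0 := hp.ne_zero
  have hl0 : (0 : ℝ) < l := by exact_mod_cast (by omega : 0 < l)
  have h4 : q ≠ 4 := by
    rintro rfl
    have k9 := congrArg (eval (algebraMap ℚ (PadicAlgCl l) 4)) (h.cubic hp0 hs).1
    rw [eval_map_algebraMap, aeval_algebraMap_apply, coe_aeval_eq_eval, hq, map_zero, eval_prod,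
      eq_comm, prod_eq_zero_iff] at k9
    obtain ⟨i, -, hi⟩ := k9
    have := hn i
    rw [eval_sub, eval_X, eval_C, map_ofNat] at hi
    rw [norm_sub_rev, hi, norm_zero] at this
    exact absurd this (by positivity)
  generalize hm : (cub P p).eval 4 / (4 - q) = m
  have a1 : ‖((4 - q : ℚ) : ℚ_[l])‖ = (l : ℝ)⁻¹ ^ 4 ∧ ‖(m : ℚ_[l])‖ = (l : ℝ)⁻¹ ^ 8 := by
    obtain ⟨i, k1, k2⟩ := h.dn2_root hp0 hs hq h4
    rw [← dn2_norm, ← dn2_norm, ← hm, k1, k2, norm_prod]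
    simp only [norm_sub_rev (4 : PadicAlgCl l), hn, prod_const, card_erase_of_mem (mem_univ i)]
    exact ⟨trivial, by rw [← pow_mul]; rfl⟩
  have a2 : ‖((4 - q : ℚ) : ℂ)‖ ≤ 16 ∧ ‖(m : ℂ)‖ ≤ 16 := by
    obtain ⟨w', u', h'⟩ := h.transfer hp0 ℂ
    obtain ⟨i, k1, k2⟩ := h'.dn2_root hp0 hs hq h4
    have k3 : ∀ i, ‖u' i‖ = 1 := fun i => by
      have h2 : lam w' u' (Pi.single i 1) = lam w' u' 0 * u' i := by
        rw [lam, prod_eq_single i (fun j _ hj => by simp [hj]) (by simp)]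
        simp [lam]
      have h3 := weil _ (h'.root (Pi.single i 1))
      rw [h2, norm_mul, mul_pow, weil _ (h'.root 0), mul_eq_left₀ (Nat.cast_ne_zero.2 hp0)] at h3
      exact (pow_eq_one_iff_of_nonneg (norm_nonneg _) two_ne_zero).1 h3
    have k4 : ∀ i, ‖4 - tt (u' i)‖ ≤ 4 := fun i => by
      rw [show 4 - tt (u' i) = 2 - u' i - (u' i)⁻¹ by rw [tt]; ring]
      refine (norm_sub_le _ _).trans ((add_le_add_left (norm_sub_le _ _) _).trans ?_)
      rw [norm_inv, k3, Complex.norm_two]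
      norm_num
    rw [← hm, k1, k2, norm_prod]
    refine ⟨(k4 i).trans (by norm_num), (prod_le_prod (fun _ _ => norm_nonneg _)
      fun j _ => k4 j).trans ?_⟩
    rw [prod_const, card_erase_of_mem (mem_univ i)]
    norm_num
  have a3 : ∀ l' : Nat.Primes, (l' : ℕ) ≠ p →
      ‖((4 - q : ℚ) : ℚ_[l'])‖ ≤ 1 ∧ ‖(m : ℚ_[l'])‖ ≤ 1 := fun l' hl' => by
    obtain ⟨w', u', h'⟩ := h.transfer hp0 (PadicAlgCl l')
    obtain ⟨i, k1, k2⟩ := h'.dn2_root hp0 hs hq h4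
    have k0 : ‖(p : PadicAlgCl l')‖ = 1 := by
      rw [← Rat.cast_natCast, dn2_norm, Rat.cast_natCast]
      exact Padic.norm_natCast_eq_one_iff.2 ((Nat.coprime_primes l'.2 hp).2 hl')
    have k3 : ∀ i, ‖4 - tt (u' i)‖ ≤ 1 := fun i => dn2_tt
      (by simpa [k0] using d_norm_le (h'.int_u hp0 i).1)
      (by simpa [k0] using d_norm_le (h'.int_u hp0 i).2)
    rw [← dn2_norm, ← dn2_norm, ← hm, k1, k2, norm_prod]
    exact ⟨k3 i, prod_le_one (fun _ _ => norm_nonneg _) fun j _ => k3 j⟩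
  have := Fact.mk hp
  obtain ⟨w', u', h'⟩ := h.transfer hp0 (PadicAlgCl p)
  obtain ⟨i, k1, k2⟩ := h'.dn2_root hp0 hs hq h4
  obtain ⟨i', -, k3⟩ := d_ord P p he hs w' u' h'
  have k4 : ∀ j, j ≠ i' → ‖4 - tt (u' j)‖ ≤ 1 := fun j hj =>
    dn2_tt (k3 j hj).le (by rw [norm_inv, k3 j hj, inv_one])
  by_cases e : i = i'
  · refine dn2_small hl (by norm_num) (fun l' => ?_) a2.2 a1.2
    by_cases e' : (l' : ℕ) = p
    · subst e'
      rw [← dn2_norm, ← hm, k2, norm_prod]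
      exact prod_le_one (fun _ _ => norm_nonneg _) fun j hj => k4 j (e ▸ ne_of_mem_erase hj)
    · exact (a3 l' e').2
  · refine dn2_small hl le_rfl (fun l' => ?_) a2.1 a1.1
    by_cases e' : (l' : ℕ) = p
    · subst e'
      rw [← dn2_norm, k1]
      exact k4 i e
    · exact (a3 l' e').1

variable {l : ℕ} [Fact l.Prime] {R n : Type*} [CommRing R] [Algebra ℤ_[l] R] [Fintype n]
  [DecidableEq n]

/-- From the conditions at an auxiliary prime to the properties of the Weil polynomial. -/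
theorem good_of_gen1 (hl : 3 ≤ l) {σ : Fin 3 → R →ₐ[ℤ_[l]] PadicAlgCl l} {A : Matrix n n ℤ_[l]}
    {c : ℤ_[l]} {g : Matrix (Fin 2) (Fin 2) R} {t : R} (hc : Fintype.card n = 8)
    {C : Matrix n (Fin 3 → Fin 2) (PadicAlgCl l)} {C' : Matrix (Fin 3 → Fin 2) n (PadicAlgCl l)}
    (h1 : C * C' = 1) (h2 : C' * C = 1) (h3 : A.map (algebraMap ℤ_[l] (PadicAlgCl l)) * C =
      C * (algebraMap ℤ_[l] (PadicAlgCl l) c • kp fun i : Fin 3 => g.map (σ i)))
    (hp : p.Prime) (hP : A.charpoly = P.map (Int.castRingHom _))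
    (hq : algebraMap ℤ_[l] (PadicAlgCl l) c ^ 2 * ∏ i, σ i g.det = p)
    (weil : ∀ z : ℂ, aeval z P = 0 → ‖z‖ ^ 2 = p) (ht : t * g.det = g.trace ^ 2)
    (g1 : A.trace ≠ 0) (g2 : ∀ i, ‖σ i t - 4‖ = (l : ℝ)⁻¹ ^ 4)
    (g3 : ∀ k : ℤ, 0 ≤ k → k ≤ 12 → σ 0 t + σ 1 t + σ 2 t ≠ k) : Good P p := by
  have e1 := charpoly_of_conj (by simpa using hc) h1 h2 h3
  rw [charpoly_map, hP, Polynomial.map_map, RingHom.eq_intCast' (RingHom.comp _ _)] at e1
  have e2 : ∀ i, σ i g.det = (g.map (σ i)).det := fun i => (σ i).toRingHom.map_det g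
  have e3 : ∀ i, σ i g.trace = (g.map (σ i)).trace := fun i => AddMonoidHom.map_trace (σ i) g
  obtain ⟨a, b, ha, hb, k1, k2, k3⟩ := pres_of_kp hp.ne_zero e1.symm (by simpa only [e2] using hq)
  have k4 : ∀ i, tt (a i / b i) = σ i t := fun i => by
    have := congrArg (σ i) ht
    rw [map_mul, map_pow, e2, e3, k1, k2] at this
    have := ha i
    have := hb i
    rw [tt]
    field_simp
    linear_combination -‹σ i t * _ = _›
  have k5 : psm P 1 ≠ 0 := fun e => g1 (by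
    have k6 := k3.psum 1
    have k7 : algebraMap ℤ_[l] (PadicAlgCl l) A.trace =
        algebraMap ℤ_[l] (PadicAlgCl l) c * ∏ i, (a i + b i) := by
      rw [AddMonoidHom.map_trace, ← Matrix.mul_one (A.map _), ← h1, ← Matrix.mul_assoc, h3,
        trace_mul_comm, ← Matrix.mul_assoc, h2, Matrix.one_mul, trace_smul, kp_trace]
      simp only [k1, smul_eq_mul]
    have k8 : ∏ i, (a i + b i) = (∏ i, b i) * ∏ i, (1 + (a i / b i) ^ 1) := by
      rw [← Finset.prod_mul_distrib]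
      refine Finset.prod_congr rfl fun i _ => ?_
      have := hb i
      field_simp
      ring
    rw [k8, ← mul_assoc, ← pow_one (_ * ∏ i, b i), k6, e, Int.cast_zero,
      IsScalarTower.algebraMap_apply ℤ_[l] ℚ_[l] (PadicAlgCl l), _root_.map_eq_zero] at k7
    exact Subtype.ext k7)
  obtain ⟨w, u, k8⟩ := k3.transfer hp.ne_zero ℂ
  have k6 : ∀ m : ℤ, ce1 P p ≠ m := fun m e => by
    have k7 := (k3.cubic hp.ne_zero k5).2
    have k9 := k8.ce1_bound hp.ne_zero weil k5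
    rw [e] at k9 k7
    refine g3 m (by exact_mod_cast k9.1) (by exact_mod_cast k9.2) ?_
    simpa only [k4, Fin.sum_univ_three, Rat.cast_intCast] using k7.symm
  exact ⟨hp, ⟨w, u, k8⟩, weil, k5, dn2_irr hl hp k3 (fun i => by rw [k4, g2]) weil k5 k6, k6⟩

end Pool.Agent.MT
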