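import Pool.Agent.Lib.MP_d61fbb_ag.MT.DPl1
import Pool.Agent.Lib.MP_d61fbb_ag.MT.DN2

/-! Choice of the place at an arbitrary auxiliary prime. -/

set_option autoImplicit false

open Matrix Polynomial

namespace Pool.Agent.MT

open Pool.Agent.Lib.MP_696deb_nt.B2

variable {l : ℕ} [Fact l.Prime]

theorem dn1_norm (x : ℤ_[l]) : ‖algebraMap ℤ_[l] (PadicAlgCl l) x‖ = ‖x‖ :=
  PadicAlgCl.norm_extends l x

theorem dn1_l : ‖(l : PadicAlgCl l)‖ = (l : ℝ)⁻¹ := by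
  rw [← map_natCast (algebraMap ℤ_[l] _), dn1_norm, PadicInt.norm_p]

theorem dn1_lt : (l : ℝ)⁻¹ < 1 :=
  inv_lt_one_of_one_lt₀ (by exact_mod_cast (Fact.out : l.Prime).one_lt)

theorem dn1_pos : 0 < (l : ℝ)⁻¹ := inv_pos.2 (by exact_mod_cast (Fact.out : l.Prime).pos)

theorem dn1_int {z : PadicAlgCl l} (h : IsIntegral ℤ_[l] z) : ‖z‖ ≤ 1 := by
  obtain ⟨f, hf, h⟩ := h
  refine (Valuation.integer.integers (NormedField.valuation (K := PadicAlgCl l))).mem_of_integral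
    ⟨f.map ((algebraMap ℤ_[l] (PadicAlgCl l)).codRestrict _ fun x =>
      (dn1_norm x).trans_le x.2), hf.map _, ?_⟩
  rw [eval₂_map]
  exact h

theorem dn1_add {Ω : Type} [NormedField Ω] [IsUltrametricDist Ω] {x y : Ω} (h : ‖y‖ < ‖x‖) :
    ‖x + y‖ = ‖x‖ := by
  rw [IsUltrametricDist.norm_add_eq_max_of_norm_ne_norm h.ne', max_eq_left h.le]

theorem dn1_dvd {k : ℕ} {x : ℤ_[l]} (h : (l : ℤ_[l]) ^ k ∣ x) :
    ‖algebraMap ℤ_[l] (PadicAlgCl l) x‖ ≤ (l : ℝ)⁻¹ ^ k := by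
  rwa [dn1_norm, inv_pow, ← zpow_natCast, ← _root_.zpow_neg,
    PadicInt.norm_le_pow_iff_mem_span_pow, Ideal.mem_span_singleton]

theorem dn1_prod {a b c : ℝ} (h0 : 0 ≤ a ∧ 0 ≤ b ∧ 0 ≤ c) (ha : a ≤ 1) (hb : b ≤ 1) (hc : c ≤ 1)
    (h : a * b * c = 1) : a = 1 ∧ b = 1 ∧ c = 1 := by
  obtain ⟨a0, b0, c0⟩ := h0
  have h1 := mul_nonneg a0 b0
  have h2 := mul_nonneg a0 c0
  have h3 := mul_nonneg b0 c0
  refine ⟨le_antisymm ha ?_, le_antisymm hb ?_, le_antisymm hc ?_⟩ <;> nlinarith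

theorem dn1_shift (h7 : 7 ≤ l) (T E N : ℤ_[l]) : ∃ r : ℤ_[l], IsUnit (r ^ 3 + T * r ^ 2 + E * r + N)
    ∧ IsUnit (T + 3 * r) ∧ IsUnit ((T + 3 * r) ^ 2 - 4 * (E + 2 * r * T + 3 * r ^ 2)) := by
  let f := PadicInt.toZMod (p := l)
  have h3 : (3 : ZMod l) ≠ 0 := fun e => by
    have := Nat.le_of_dvd (by norm_num) ((ZMod.natCast_eq_zero_iff 3 l).1 (by exact_mod_cast e))
    omega
  have hu : ∀ x : ℤ_[l], f x ≠ 0 → IsUnit x := fun x hx => by
    by_contra h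
    exact hx (RingHom.mem_ker.1 (PadicInt.ker_toZMod (p := l) ▸
      (IsLocalRing.mem_maximalIdeal _).2 h))
  let G1 : (ZMod l)[X] := X ^ 3 + C (f T) * X ^ 2 + C (f E) * X + C (f N)
  let G2 : (ZMod l)[X] := C 3 * X + C (f T)
  let G3 : (ZMod l)[X] := C (-3) * X ^ 2 + C (-2 * f T) * X + C (f T ^ 2 - 4 * f E)
  have d1 : G1.natDegree = 3 := by simp only [G1]; compute_degree!
  have d2 : G2.natDegree = 1 := natDegree_linear h3
  have d3 : G3.natDegree = 2 := natDegree_quadratic (neg_ne_zero.2 h3)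
  have n1 : G1 ≠ 0 := ne_zero_of_natDegree_gt (n := 0) (by omega)
  have n2 : G2 ≠ 0 := ne_zero_of_natDegree_gt (n := 0) (by omega)
  have n3 : G3 ≠ 0 := ne_zero_of_natDegree_gt (n := 0) (by omega)
  obtain ⟨r, hr⟩ := exists_eval_ne_zero_of_natDegree_lt_card (G1 * G2 * G3)
    (mul_ne_zero (mul_ne_zero n1 n2) n3) (by
      rw [natDegree_mul (mul_ne_zero n1 n2) n3, natDegree_mul n1 n2, d1, d2, d3, Cardinal.mk_fintype,
        ZMod.card]
      exact_mod_cast h7)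
  obtain ⟨r, rfl⟩ := ZMod.ringHom_surjective f r
  rw [eval_mul, eval_mul, mul_ne_zero_iff, mul_ne_zero_iff] at hr
  refine ⟨r, hu _ ?_, hu _ ?_, hu _ ?_⟩
  · simpa [G1] using hr.1.1
  · simpa [G2, map_ofNat, add_comm] using hr.1.2
  · convert hr.2 using 1
    simp only [G3, map_sub, map_mul, map_add, map_pow, map_ofNat, eval_add, eval_mul, eval_C,
      eval_pow, eval_X, eval_sub, eval_ofNat]
    ring

variable {R n : Type*} [CommRing R] [Algebra ℤ_[l] R] [Fintype n] [DecidableEq n]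
  {σ : Fin 3 → R →ₐ[ℤ_[l]] PadicAlgCl l} {Nm : Matrix (Fin 2) (Fin 2) R →* Matrix n n ℤ_[l]}
  {J : Matrix n n ℤ_[l]}

/-- What is asked of the Frobenius element at the auxiliary prime. -/
structure Gen1 (σ : Fin 3 → R →ₐ[ℤ_[l]] PadicAlgCl l) (s : ℤ_[l]) (t : R) : Prop where
  ne : s ≠ 0
  near : ∀ i, ‖σ i t - 4‖ = (l : ℝ)⁻¹ ^ 4
  inj : Function.Injective fun i => σ i t
  sum : ∀ k : ℤ, 0 ≤ k → k ≤ 12 → σ 0 t + σ 1 t + σ 2 t ≠ k
  fr : (σ 0 t + σ 1 t + σ 2 t - 4) ^ 2 ≠ σ 0 t * σ 1 t * σ 2 t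

theorem TrNm.loc1 [Module.Finite ℤ_[l] R] (H : TrNm σ Nm J) (h7 : 7 ≤ l) {x₀ : R}
    (hx₀ : ∀ i j, i ≠ j → ‖σ i x₀ - σ j x₀‖ = 1) :
    ∃ h : Matrix (Fin 2) (Fin 2) R, h.det = 1 ∧ ∀ (a : ℕ) (c : ℤ_[l])
      (g : Matrix (Fin 2) (Fin 2) R) (t : R), ¬ l ∣ a → t * g.det = g.trace ^ 2 →
      (c • Nm g).map (PadicInt.toZModPow 14) = (Nm h ^ a).map (PadicInt.toZModPow 14) →
      Gen1 σ (c • Nm g).trace t := by
  have hl : l ≠ 2 := by omega
  have hp := PadicInt.prime_p (p := l)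
  have hi : ∀ i z, ‖σ i z‖ ≤ 1 := fun i z => dn1_int ((Algebra.IsIntegral.isIntegral z).map (σ i))
  have hun : ∀ {u : ℤ_[l]}, ¬ (l : ℤ_[l]) ∣ u → IsUnit u := fun {u} e => by
    by_contra f7
    exact e (Ideal.mem_span_singleton.1 (PadicInt.maximalIdeal_eq_span_p (p := l) ▸
      (IsLocalRing.mem_maximalIdeal _).2 f7))
  have h6 : IsUnit (6 : ℤ_[l]) := hun fun e => by
    have := Nat.le_of_dvd (by norm_num) (Int.natCast_dvd_natCast.1
      ((PadicInt.pow_p_dvd_int_iff 1 (6 : ℕ)).1 (by simpa using e) :))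
    rw [pow_one] at this
    omega
  obtain ⟨x, T, E, hx, hx', hT, hE, hT1, hE1⟩ : ∃ (x : R) (T E : ℤ_[l]), (∀ i, ‖σ i x‖ = 1) ∧
      (∀ i j, i ≠ j → ‖σ i x - σ j x‖ = 1) ∧
      algebraMap ℤ_[l] (PadicAlgCl l) T = σ 0 x + σ 1 x + σ 2 x ∧
      algebraMap ℤ_[l] (PadicAlgCl l) E = σ 0 x * σ 1 x + σ 0 x * σ 2 x + σ 1 x * σ 2 x ∧
      IsUnit T ∧ IsUnit (T ^ 2 - 4 * E) := by
    obtain ⟨T, E, N, hT, hE, hN⟩ := H.esym hl x₀
    obtain ⟨r, r1, r2, r3⟩ := dn1_shift h7 T E N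
    refine ⟨x₀ + algebraMap ℤ_[l] R r, _, _, ?_, fun i j e => ?_, ?_, ?_, r2, r3⟩
    · have e : algebraMap ℤ_[l] (PadicAlgCl l) (r ^ 3 + T * r ^ 2 + E * r + N) =
          σ 0 (x₀ + algebraMap ℤ_[l] R r) * σ 1 (x₀ + algebraMap ℤ_[l] R r) *
            σ 2 (x₀ + algebraMap ℤ_[l] R r) := by
        simp only [map_add, map_mul, map_pow, hT, hE, hN, AlgHom.commutes]
        ring
      have e1 := congrArg norm e
      rw [dn1_norm, PadicInt.isUnit_iff.1 r1, norm_mul, norm_mul] at e1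
      obtain ⟨e2, e3, e4⟩ := dn1_prod ⟨norm_nonneg _, norm_nonneg _, norm_nonneg _⟩ (hi _ _)
        (hi _ _) (hi _ _) e1.symm
      intro i
      fin_cases i
      exacts [e2, e3, e4]
    · simpa only [map_add, AlgHom.commutes, add_sub_add_right_eq_sub] using hx₀ i j e
    · simp only [map_add, map_mul, map_ofNat, hT, AlgHom.commutes]
      ring
    · simp only [map_add, map_mul, map_ofNat, map_pow, hT, hE, AlgHom.commutes]
      ring
  have hd : (!![1 + l ^ 4 * x, l ^ 2; l ^ 2 * x, 1] : Matrix (Fin 2) (Fin 2) R).det = 1 := by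
    rw [det_fin_two_of]
    ring
  refine ⟨_, hd, fun a c g t ha ht hcong => ?_⟩
  obtain ⟨y, hy⟩ := d0_cheb _ (l ^ 4 * x) hd (by rw [trace_fin_two_of]; ring) a
  have hd' := congrArg (· ^ a) hd
  simp only [← det_pow, one_pow] at hd'
  rw [← map_pow] at hcong
  generalize (!![1 + l ^ 4 * x, l ^ 2; l ^ 2 * x, 1] : Matrix (Fin 2) (Fin 2) R) ^ a = h
    at hy hd' hcong
  obtain ⟨w, hw⟩ : ∃ w : R, h.trace ^ 2 = 4 + l ^ 4 * (4 * a ^ 2 * x + l ^ 4 * w) :=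
    ⟨4 * x ^ 2 * y + (a ^ 2 * x + l ^ 4 * x ^ 2 * y) ^ 2, by rw [hy]; ring⟩
  obtain ⟨d, hdd⟩ := H.nrm g.det
  obtain ⟨e1, e2, e3, k1, k2, k3⟩ := H.esym hl t
  obtain ⟨e1', e2', e3', k1', k2', k3'⟩ := H.esym hl (h.trace ^ 2)
  obtain ⟨a1, a2, a3⟩ := H.ids c ht hdd k1 k2 k3
  obtain ⟨b1, b2, b3⟩ := H.ids (g := h) (d := 1) 1 (by rw [hd', mul_one]) (by simp [hd'])
    k1' k2' k3'
  simp only [one_smul, one_pow, one_mul] at b1 b2 b3
  have kk : ∀ u v : ℤ_[l], PadicInt.toZModPow 14 u = PadicInt.toZModPow 14 v →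
      (l : ℤ_[l]) ^ 14 ∣ u - v := fun u v e => by
    rw [← Ideal.mem_span_singleton, ← PadicInt.ker_toZModPow, RingHom.mem_ker, map_sub, e, sub_self]
  have ktr : ∀ k : ℕ, (l : ℤ_[l]) ^ 14 ∣ ((c • Nm g) ^ k).trace - (Nm h ^ k).trace := fun k =>
    kk _ _ (by rw [AddMonoidHom.map_trace, AddMonoidHom.map_trace, Matrix.map_pow, Matrix.map_pow,
      hcong])
  have kq : (l : ℤ_[l]) ^ 14 ∣ c ^ 2 * d - 1 := by
    obtain ⟨i, j, hu⟩ := H.un
    have s1 : (c • Nm g)ᵀ * J * (c • Nm g) = (c ^ 2 * d) • J := by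
      rw [transpose_smul, smul_mul_assoc, smul_mul_assoc, mul_smul_comm, H.sim g d hdd, smul_smul,
        smul_smul, sq]
    have s2 := H.sim h 1 (by simp [hd'])
    have s3 : ((c ^ 2 * d) • J).map (PadicInt.toZModPow 14) =
        ((1 : ℤ_[l]) • J).map (PadicInt.toZModPow 14) := by
      rw [← s1, ← s2, Matrix.map_mul, Matrix.map_mul, Matrix.map_mul, Matrix.map_mul,
        transpose_map, transpose_map, hcong]
    have s4 := kk _ _ (congrFun (congrFun s3 i) j)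
    rwa [Matrix.smul_apply, Matrix.smul_apply, ← sub_smul, smul_eq_mul, hu.dvd_mul_right] at s4
  have h22 : IsUnit (4 : ℤ_[l]) := (show (4 : ℤ_[l]) = 2 ^ 2 by norm_num) ▸ (d0_two hl).pow 2
  have h4 : IsUnit (4 * a ^ 2 : ℤ_[l]) := by
    refine h22.mul (IsUnit.pow 2 ?_)
    rw [PadicInt.isUnit_iff]
    exact PadicInt.norm_natCast_eq_one_iff.2 ((Fact.out : l.Prime).coprime_iff_not_dvd.2 ha)
  have n4 : ‖(4 : PadicAlgCl l)‖ = 1 := by
    rw [← map_ofNat (algebraMap ℤ_[l] _), dn1_norm, PadicInt.isUnit_iff.1 h22]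
  have n5 : ‖(4 * a ^ 2 : PadicAlgCl l)‖ = 1 := by
    have := dn1_norm (l := l) (4 * a ^ 2)
    rwa [PadicInt.isUnit_iff.1 h4, map_mul, map_pow, map_ofNat, map_natCast] at this
  have n6 : ∀ z : PadicAlgCl l, ‖z‖ ≤ 1 → ‖(l : PadicAlgCl l) ^ 4 * z‖ < 1 := fun z hz => by
    rw [norm_mul, norm_pow, dn1_l]
    exact mul_lt_one_of_nonneg_of_lt_one_left (pow_pos dn1_pos 4).le
      (pow_lt_one₀ dn1_pos.le dn1_lt four_ne_zero) hz
  have w1 : ∀ j, ‖σ j (h.trace ^ 2) - 4‖ = (l : ℝ)⁻¹ ^ 4 := fun j => by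
    simp only [hw, map_add, map_mul, map_pow, map_natCast, map_ofNat, add_sub_cancel_left]
    rw [norm_mul, norm_pow, dn1_l, dn1_add, norm_mul, n5, hx, mul_one, mul_one]
    rw [norm_mul (4 * _), n5, hx, mul_one]
    exact n6 _ (hi _ _)
  have w2 : ∀ i j, i ≠ j → ‖σ i (h.trace ^ 2) - σ j (h.trace ^ 2)‖ = (l : ℝ)⁻¹ ^ 4 :=
    fun i j e => by
      have : σ i (h.trace ^ 2) - σ j (h.trace ^ 2) =
          l ^ 4 * (4 * a ^ 2 * (σ i x - σ j x) + l ^ 4 * (σ i w + -σ j w)) := by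
        simp only [hw, map_add, map_mul, map_pow, map_natCast, map_ofNat]
        ring
      rw [this, norm_mul, norm_pow, dn1_l, dn1_add, norm_mul, n5, hx' i j e, mul_one, mul_one]
      rw [norm_mul (4 * _), n5, hx' i j e, mul_one]
      exact n6 _ ((IsUltrametricDist.norm_add_le_max _ _).trans
        (max_le (hi _ _) (by rw [norm_neg]; exact hi _ _)))
  have hu : IsUnit e3' := by
    have : ∀ j, ‖σ j (h.trace ^ 2)‖ = 1 := fun j => by
      rw [← add_sub_cancel 4 (σ j _), dn1_add, n4]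
      rw [w1, n4]
      exact pow_lt_one₀ dn1_pos.le dn1_lt four_ne_zero
    rw [PadicInt.isUnit_iff, ← dn1_norm, k3', norm_mul, norm_mul, this, this, this, mul_one, mul_one]
  have c1 := ktr 1
  rw [pow_one, pow_one] at c1
  obtain ⟨d3, d2, d1⟩ := d0_cong a1 a2 a3 b1 b2 b3 hu c1 (ktr 2) (ktr 3) kq
  have w3 : ∀ j, ∃ i, ‖σ i t - σ j (h.trace ^ 2)‖ < (l : ℝ)⁻¹ ^ 4 := fun j => by
    by_contra! e
    have f1 : (σ 0 t - σ j (h.trace ^ 2)) * (σ 1 t - σ j (h.trace ^ 2)) *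
        (σ 2 t - σ j (h.trace ^ 2)) = algebraMap ℤ_[l] _ (e3 - e3') +
          (algebraMap ℤ_[l] _ (e2 - e2') * -σ j (h.trace ^ 2) +
          algebraMap ℤ_[l] _ (e1 - e1') * σ j (h.trace ^ 2) ^ 2) := by
      simp only [map_sub, k1, k2, k3, k1', k2', k3']
      fin_cases j <;> simp only [Fin.zero_eta, Fin.mk_one, Fin.reduceFinMk] <;> ring
    have f2 : ∀ {u : ℤ_[l]} {z : PadicAlgCl l}, (l : ℤ_[l]) ^ 14 ∣ 6 * u → ‖z‖ ≤ 1 →
        ‖algebraMap ℤ_[l] (PadicAlgCl l) u * z‖ ≤ (l : ℝ)⁻¹ ^ 14 := fun hu hz => by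
      rw [norm_mul]
      exact (mul_le_of_le_one_right (norm_nonneg _) hz).trans (dn1_dvd (h6.dvd_mul_left.1 hu))
    have f3 := (congrArg norm f1).trans_le ((IsUltrametricDist.norm_add_le_max _ _).trans
      (max_le (dn1_dvd d3) ((IsUltrametricDist.norm_add_le_max _ _).trans
        (max_le (f2 d2 (by rw [norm_neg]; exact hi _ _))
          (f2 d1 (by rw [norm_pow]; exact pow_le_one₀ (norm_nonneg _) (hi _ _)))))))
    rw [norm_mul, norm_mul] at f3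
    have f4 := (mul_le_mul (mul_le_mul (e 0) (e 1) (pow_pos dn1_pos 4).le (norm_nonneg _)) (e 2)
      (pow_pos dn1_pos 4).le (by positivity)).trans f3
    rw [← pow_add, ← pow_add] at f4
    exact absurd f4 (not_le.2 (pow_lt_pow_right_of_lt_one₀ dn1_pos dn1_lt (by norm_num)))
  choose φ hφ using w3
  have w4 : ∀ i j, σ (φ i) t = σ (φ j) t → i = j := fun i j e => by
    by_contra f
    have := (IsUltrametricDist.norm_add_le_max _ _).trans_lt
      (max_lt (hφ j) ((norm_neg _).trans_lt (hφ i)))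
    rw [e, neg_sub, add_comm, sub_add_sub_cancel, w2 i j f] at this
    exact lt_irrefl _ this
  have w5 : Function.Surjective φ :=
    Finite.surjective_of_injective fun i j e => w4 i j (by rw [e])
  refine ⟨fun e => ?_, fun i => ?_, fun i j e => ?_, fun k k0 k12 e => ?_, fun e => ?_⟩
  · rw [e, zero_sub, dvd_neg] at c1
    exact hp.not_isUnit (isUnit_of_dvd_unit
      (((dvd_pow_self _ (by norm_num)).trans c1).pow (n := 2) (by norm_num)) (b1 ▸ hu))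
  · obtain ⟨j, rfl⟩ := w5 i
    rw [← sub_add_sub_cancel' (σ j (h.trace ^ 2)), dn1_add, w1]
    rw [w1]
    exact hφ j
  · obtain ⟨i, rfl⟩ := w5 i
    obtain ⟨j, rfl⟩ := w5 j
    rw [w4 i j e]
  · obtain ⟨T', -, -, hT', -⟩ := H.esym hl w
    have f1 : e1 = k := H.inj (by rw [k1, e, map_intCast])
    have f2 : e1' = 12 + l ^ 4 * (4 * a ^ 2 * T + l ^ 4 * T') := H.inj (by
      simp only [k1', hw, map_add, map_mul, map_pow, map_natCast, map_ofNat, hT, hT']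
      ring)
    rw [f1, f2] at d1
    have f3 : 6 * (k - 12) = 0 := by
      refine d0_small hl (k := 4) ?_ (by rw [abs_lt]; constructor <;> omega)
      have := ((pow_dvd_pow _ (by norm_num : 4 ≤ 14)).trans d1).add
        (Dvd.intro (6 * (4 * a ^ 2 * T + l ^ 4 * T')) rfl)
      convert this using 1
      push_cast
      ring
    obtain rfl : k = 12 := by omega
    have f6 : IsUnit (4 * a ^ 2 * T + l * (l ^ 3 * T')) := hun fun f9 => by
      rw [dvd_add_left (dvd_mul_right _ _)] at f9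
      exact hp.not_isUnit (isUnit_of_dvd_unit f9 (h4.mul hT1))
    refine d0_six hl f6 (j := 4) (k := 14) (by omega) ?_
    rw [← dvd_neg] at d1
    convert d1 using 1
    push_cast
    ring
  · obtain ⟨T', E', -, hT', hE', -⟩ := H.esym hl w
    obtain ⟨-, E2, -, -, hE2, -⟩ := H.esym hl (x + w)
    obtain ⟨-, -, Z, -, -, hZ⟩ := H.esym hl (4 * a ^ 2 * x + l ^ 4 * w)
    have f1 : (e1 - 4) ^ 2 = e3 := H.inj (by rw [map_pow, map_sub, map_ofNat, k1, k3, e])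
    have f2 : (e1' - 4) ^ 2 - e3' = l ^ 8 * ((4 * a ^ 2) ^ 2 * (T ^ 2 - 4 * E) + l * (l ^ 3 *
        (8 * a ^ 2 * T * T' + l ^ 4 * T' ^ 2 - 16 * a ^ 2 * (E2 - E - E') - 4 * l ^ 4 * E' - Z))) :=
      H.inj (by
        simp only [k1', k3', hw, map_add, map_sub, map_mul, map_pow, map_natCast, map_ofNat, hT,
          hT', hE, hE', hE2, hZ]
        ring)
    generalize l ^ 3 * (8 * a ^ 2 * T * T' + l ^ 4 * T' ^ 2 - 16 * a ^ 2 * (E2 - E - E') -
      4 * l ^ 4 * E' - Z) = Y at f2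
    refine d0_six hl (hun (u := (4 * a ^ 2) ^ 2 * (T ^ 2 - 4 * E) + l * Y) fun f3 => ?_)
      (j := 8) (k := 14) (by omega) ?_
    · rw [dvd_add_left (dvd_mul_right _ _)] at f3
      exact hp.not_isUnit (isUnit_of_dvd_unit f3 ((h4.pow 2).mul hE1))
    · rw [← f2, show 6 * ((e1' - 4) ^ 2 - e3') = 6 * (e3 - e3') - 6 * (e1 - e1') * (e1 + e1' - 8) by
        linear_combination 6 * f1]
      exact (d3.mul_left _).sub (d1.mul_right _)

/-- The choice of the place. -/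
theorem TrNm.choice1 [Module.Finite ℤ_[l] R] (H : TrNm σ Nm J) (h7 : 7 ≤ l) {x₀ : R}
    (hx₀ : ∀ i j, i ≠ j → ‖σ i x₀ - σ j x₀‖ = 1) {G : Subgroup Gam} (ρ : G →* Matrix n n ℤ_[l])
    (cont : ∀ N : ℕ, ∃ U : Subgroup Gam, Op U ∧ U ≤ G ∧
      ∀ s : G, s.1 ∈ U → ∀ i j, (l : ℤ_[l]) ^ N ∣ (ρ s - 1) i j)
    (big : ∀ h : Matrix (Fin 2) (Fin 2) R, h.det = 1 → ∃ s, ρ s = Nm h) (B : Finset ℕ) :
    ∃ (w : Plc) (φ : G), w.p ∉ B ∧ IsFrob w w.p φ ∧ ∀ (c : ℤ_[l]) (g : Matrix (Fin 2) (Fin 2) R)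
      (t : R), ρ φ = c • Nm g → t * g.det = g.trace ^ 2 → Gen1 σ (ρ φ).trace t := by
  obtain ⟨h, h1, h2⟩ := H.loc1 h7 hx₀
  obtain ⟨s, hs⟩ := big h h1
  obtain ⟨U, u1, u2, u3⟩ := cont 14
  let f : Matrix n n ℤ_[l] →+* Matrix n n (ZMod (l ^ 14)) := (PadicInt.toZModPow 14).mapMatrix
  let r := (f.toMonoidHom.comp ρ).toHomUnits
  have hr : Op (r.ker.map G.subtype) := by
    refine Subgroup.isOpen_mono (fun x hx => ⟨⟨x, u2 hx⟩, Units.ext ?_, rfl⟩) u1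
    change f (ρ _) = 1
    rw [← sub_eq_zero, ← map_one f, ← map_sub]
    ext i j
    have := u3 ⟨x, u2 hx⟩ hx i j
    rwa [← Ideal.mem_span_singleton, ← PadicInt.ker_toZModPow] at this
  obtain ⟨w, φ, a, k1, k2, k3, k4⟩ := d_cheb_fin (l := l) r hr s (by omega) B
  refine ⟨w, φ, k1, k2, fun c g t e ht => e ▸ h2 a c g t k3 ht ?_⟩
  have k5 : f (ρ φ) = f (ρ s) ^ a :=
    (congrArg Units.val k4).trans (Units.val_pow_eq_pow_val _ _)
  rw [e, hs, ← map_pow] at k5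
  exact k5

/-- Separability at the auxiliary prime. -/
theorem sep_of_gen1 {A : Matrix n n ℤ_[l]} {c s : ℤ_[l]}
    {g : Matrix (Fin 2) (Fin 2) R} {t : R} (hc : Fintype.card n = 8)
    {C : Matrix n (Fin 3 → Fin 2) (PadicAlgCl l)} {C' : Matrix (Fin 3 → Fin 2) n (PadicAlgCl l)}
    (h1 : C * C' = 1) (h2 : C' * C = 1) (h3 : A.map (algebraMap ℤ_[l] (PadicAlgCl l)) * C =
      C * (algebraMap ℤ_[l] (PadicAlgCl l) c • kp fun i : Fin 3 => g.map (σ i)))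
    (hc0 : c ≠ 0) (hg0 : IsUnit g.det) (ht : t * g.det = g.trace ^ 2) (hg : Gen1 σ s t) :
    (A.charpoly.map (algebraMap ℤ_[l] ℚ_[l])).Separable := by
  have e1 := charpoly_of_conj (by simpa using hc) h1 h2 h3
  have e2 : ∀ i, σ i g.det = (g.map (σ i)).det := fun i => (σ i).toRingHom.map_det g
  have e3 : ∀ i, σ i g.trace = (g.map (σ i)).trace := fun i => AddMonoidHom.map_trace (σ i) g
  choose a b k1 k2 using fun i => eig_two (g.map (σ i)).trace (g.map (σ i)).det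
  have h0 : ∀ i, a i * b i ≠ 0 := fun i => by
    rw [← k2, ← e2]
    exact (hg0.map _).ne_zero
  have ha := fun i => left_ne_zero_of_mul (h0 i)
  have hb := fun i => right_ne_zero_of_mul (h0 i)
  have k4 : ∀ i, tt (a i / b i) = σ i t := fun i => by
    have := congrArg (σ i) ht
    rw [map_mul, map_pow, e2, e3, k1, k2] at this
    have := ha i
    have := hb i
    rw [tt]
    field_simp
    linear_combination -‹σ i t * _ = _›
  have k7 := lam_inj_fr (w := algebraMap ℤ_[l] (PadicAlgCl l) c * ∏ i, b i)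
    (u := fun i => a i / b i) (mul_ne_zero (by rwa [← norm_ne_zero_iff, dn1_norm, norm_ne_zero_iff])
      (Finset.prod_ne_zero_iff.2 fun i _ => hb i)) (fun i => div_ne_zero (ha i) (hb i))
    (fun i e => (pow_pos dn1_pos 4).ne' (by rw [← hg.near i, ← k4, e, sub_self, norm_zero]))
    (by simpa only [k4] using hg.inj) (by simpa only [k4] using hg.fr)
  rw [← separable_map (algebraMap ℚ_[l] (PadicAlgCl l)), Polynomial.map_map,
    ← IsScalarTower.algebraMap_eq, ← charpoly_map, e1,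
    kp_charpoly _ _ (fun i => ![b i, a i]) (fun i => by simp [k1, add_comm])
      (fun i => by simp [k2, mul_comm]), separable_prod_X_sub_C_iff]
  convert k7 using 2 with d
  rw [lam, mul_assoc, ← Finset.prod_mul_distrib]
  congr 1
  refine Finset.prod_congr rfl fun i _ => ?_
  generalize d i = e
  fin_cases e
  · simp
  · simp [mul_div_cancel₀ _ (hb i)]

end Pool.Agent.MT
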