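import Pool.Agent.Lib.MP_d61fbb_ag.MT.DPl
import Pool.Agent.Lib.MP_d61fbb_ag.MT.DN1

/-! Block D: the choice of the place without an inert prime. -/

set_option autoImplicit false

noncomputable section

open Matrix Polynomial

namespace Pool.Agent.MT

open Pool.Agent.Lib.MP_696deb_nt.B2 (Qbar Gam Plc Dec Ine IsFrob Op jC finite_supp)

/-- The conjugates of the generator are distinct modulo the maximal ideal. -/
theorem Cub.root_sep {l : ℕ} [Fact l.Prime] (D : Cub l) (i j : Fin 3) (h : i ≠ j) :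
    ‖D.σ i (AdjoinRoot.root D.c) - D.σ j (AdjoinRoot.root D.c)‖ = 1 := by
  set z : Fin 3 → PadicAlgCl l := fun i => D.σ i (AdjoinRoot.root D.c) with hz
  have h0 : ∀ i, aeval (z i) D.c = 0 := fun i => by
    rw [hz, aeval_algHom_apply, AdjoinRoot.aeval_eq, AdjoinRoot.mk_self, map_zero]
  have h1 : ∀ i (q : ℤ_[l][X]), ‖aeval (z i) q‖ ≤ 1 := fun i q =>
    dn1_int (adjoin_le_integralClosure ⟨D.c, D.monic, h0 i⟩ (aeval_mem_adjoin_singleton _ _))
  have h2 : z i ≠ z j := fun e => h (D.inj (AdjoinRoot.algHom_ext e))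
  obtain ⟨a, b, hab⟩ := D.sep
  have hs : Function.Surjective (Polynomial.map (PadicInt.toZMod (p := l))) :=
    map_surjective _ (ZMod.ringHom_surjective _)
  obtain ⟨a, rfl⟩ := hs a
  obtain ⟨b, rfl⟩ := hs b
  obtain ⟨s, e⟩ : C (l : ℤ_[l]) ∣ a * D.c + b * derivative D.c - 1 :=
    (C_dvd_iff_dvd_coeff _ _).2 fun k => by
      rw [← Ideal.mem_span_singleton, ← PadicInt.maximalIdeal_eq_span_p, ← PadicInt.ker_toZMod,
        RingHom.mem_ker, ← coeff_map, Polynomial.map_sub, Polynomial.map_add, Polynomial.map_mul,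
        Polynomial.map_mul, ← derivative_map, hab, Polynomial.map_one, sub_self, coeff_zero]
  have h3 := congrArg (aeval (z i)) e
  simp only [map_sub, map_add, map_mul, h0, mul_zero, zero_add, map_one, map_natCast] at h3
  have h4 : ‖aeval (z i) b‖ * ‖aeval (z i) (derivative D.c)‖ = 1 := by
    rw [← norm_mul, eq_add_of_sub_eq' h3, dn1_add, norm_one]
    rw [norm_one, norm_mul, dn1_l]
    exact mul_lt_one_of_nonneg_of_lt_one_left dn1_pos.le dn1_lt (h1 i s)
  let y : Fin 3 → integralClosure ℤ_[l] (PadicAlgCl l) := fun i => ⟨z i, D.c, D.monic, h0 i⟩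
  obtain ⟨k', hk'⟩ := (D.c.map (algebraMap ℤ_[l] _)).binomExpansion (y i) (y j - y i)
  rw [add_sub_cancel, derivative_map, eval_map_algebraMap, eval_map_algebraMap,
    eval_map_algebraMap] at hk'
  have h5 := congrArg (integralClosure ℤ_[l] (PadicAlgCl l)).val hk'
  simp only [map_add, map_mul, map_pow, map_sub, ← aeval_algHom_apply] at h5
  change aeval (z j) _ = aeval (z i) _ + aeval (z i) _ * (z j - z i) + k' * (z j - z i) ^ 2 at h5
  have h6 : aeval (z i) (derivative D.c) = k' * (z i - z j) :=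
    mul_right_cancel₀ (sub_ne_zero.2 h2) (by linear_combination h5 - h0 j + h0 i)
  refine le_antisymm (dn1_int (y i - y j).2) (h4.ge.trans ?_)
  rw [h6, norm_mul]
  exact (mul_le_of_le_one_left (by positivity) (h1 i b)).trans
    (mul_le_of_le_one_left (norm_nonneg _) (dn1_int k'.2))

theorem t_dpl2 : T_DPL := by
  classical
  intro reds weil τ K M A _ hK
  obtain ⟨l, hlS, h7⟩ : ∃ l ∉ M.S, 7 ≤ (l : ℕ) := by
    obtain ⟨l, h1, h2⟩ := Nat.exists_infinite_primes ((M.S.sup fun l => (l : ℕ)) + 7)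
    refine ⟨⟨l, h2⟩, fun h => ?_, le_of_add_le_right h1⟩
    have : l ≤ M.S.sup fun l => (l : ℕ) := Finset.le_sup (f := fun l : Pr => (l : ℕ)) h
    omega
  let D := M.D l
  let r : (ℂ ≃ₐ[K] ℂ) →* GL (I2 4) ℤ_[l] := (Pi.evalMonoidHom _ l).comp M.ρ
  have hc : ∀ N : ℕ, ∃ U : Subgroup Gam, Op U ∧ ∀ σ, A.res σ ∈ U →
      ∀ i j, ((l : ℕ) : ℤ_[l]) ^ N ∣ ((M.ρ σ l).val - 1) i j := fun N => by
    obtain ⟨U, u1, u2⟩ := A.cont (l ^ N) (pow_ne_zero _ l.2.ne_zero)
    refine ⟨U, u1, fun σ hσ i j => ?_⟩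
    rw [← Ideal.mem_span_singleton, ← PadicInt.norm_le_pow_iff_mem_span_pow]
    simpa using u2 σ hσ l i j
  have hker : A.res.rangeRestrict.ker ≤ r.ker := fun σ hσ => by
    refine Units.ext (sub_eq_zero.1 (Matrix.ext fun i j => ?_))
    refine PadicInt.ext_of_toZModPow.1 fun N => ?_
    obtain ⟨U, -, u2⟩ := hc N
    have e : A.res σ = 1 := congrArg Subtype.val (MonoidHom.mem_ker.1 hσ)
    have := u2 σ (e ▸ one_mem U) i j
    rw [← Ideal.mem_span_singleton, ← PadicInt.ker_toZModPow, RingHom.mem_ker] at this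
    exact this.trans (map_zero _).symm
  let ρ : A.res.range →* M8 ℤ_[l] := (Units.coeHom _).comp
    (A.res.rangeRestrict.liftOfSurjective A.res.rangeRestrict_surjective ⟨r, hker⟩)
  have hρ : ∀ σ, ρ (A.res.rangeRestrict σ) = (M.ρ σ l).val := fun σ =>
    congrArg Units.val (MonoidHom.liftOfRightInverse_comp_apply _ _ _ ⟨r, hker⟩ σ)
  have := Module.Finite.of_basis D.bas
  obtain ⟨s1, hs1⟩ := dpl_ine K
  have hs2 : ∀ η, ∃ s : Finset ℕ, ∀ w : Plc, w.p ∉ s →
      A.S.Θ (hw η) = 0 ∨ w.V (A.S.Θ (hw η)) = 1 := fun η => by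
    by_cases h : A.S.Θ (hw η) = 0
    · exact ⟨∅, fun _ _ => .inl h⟩
    · exact (finite_supp h).imp fun s hs w hw => .inr (hs w hw)
  choose s2 hs2 using hs2
  obtain ⟨w, φ, h1, h2, h3⟩ := D.trNm.choice1 h7 D.root_sep ρ (fun N => by
    obtain ⟨U, u1, u2⟩ := hc N
    refine ⟨U ⊓ A.res.range, u1.inter A.res_open, inf_le_right, fun s hs => ?_⟩
    obtain ⟨σ, rfl⟩ := A.res.rangeRestrict_surjective s
    rw [hρ]
    exact u2 σ hs.1) (fun h hh => by
    obtain ⟨σ, k1⟩ := M.big {l} (Pi.mulSingle l ⟨h, hh⟩)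
    exact ⟨_, (hρ σ).trans ((k1 l (Finset.mem_singleton_self l) hlS).trans
      (by rw [Pi.mulSingle_eq_same]; rfl))⟩)
    (Finset.range 11 ∪ (M.S.image Subtype.val ∪ (s1 ∪ (Finset.univ.biUnion s2 ∪ {l.1}))))
  obtain ⟨φ, rfl⟩ := A.res.rangeRestrict_surjective φ
  simp only [Finset.mem_union, not_or, Finset.mem_range, not_lt, Finset.mem_singleton] at h1
  obtain ⟨b1, b2, b3, b4, b5⟩ := h1
  let v : Frb A := ⟨w, ⟨w.p, w.prime⟩, rfl, b1, fun h => b2 (Finset.mem_image_of_mem _ h), φ, h2,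
    fun g hg => A.res_surj g (hs1 w b3 g hg),
    fun η => hs2 η w fun h => b4 (Finset.mem_biUnion.2 ⟨η, Finset.mem_univ _, h⟩)⟩
  have hl : l ≠ v.p := fun e => b5 (congrArg Subtype.val e).symm
  obtain ⟨R, hR⟩ := reds τ K M A v
  obtain ⟨c, g, e⟩ := M.sub φ l hlS
  have hg : IsUnit g.val.det := (isUnit_iff_isUnit_det _).1 g.isUnit
  obtain ⟨d, hd⟩ := hg.exists_left_inv
  have ht : g.val.trace ^ 2 * d * g.val.det = g.val.trace ^ 2 := by rw [mul_assoc, hd, mul_one]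
  have k1 := h3 c g.val _ ((hρ φ).trans e) ht
  rw [hρ] at k1
  have k3 : (M.ρ φ l).val.map (algebraMap ℤ_[l] (PadicAlgCl l)) * D.U = D.U *
      (algebraMap ℤ_[l] (PadicAlgCl l) c • kp fun i : Fin 3 => g.val.map (D.σ i)) := by
    rw [Matrix.mul_smul, ← D.hN, ← Matrix.smul_mul, e]
    congr 1
    ext i j
    simp [D]
  have k4 := sep_of_gen1 (by simp) D.mul_inv D.inv_mul k3 c.ne_zero hg ht k1
  obtain ⟨P, p1, p2⟩ := weil _ _ R ⟨l, hl, hR.π ▸ k4⟩
  have k5 := R.gs hl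
  rw [hR.π] at p1 k5
  have G : Good P v.p := good_of_gen1 (by omega) (by simp) D.mul_inv D.inv_mul k3 v.p.2 (p1 l hl)
    ((D.mult (e ▸ k5)).trans (map_natCast _ _)) p2 ht k1.ne k1.near k1.sum
  exact ⟨v, P, p1, G, @Good.ordi _ _ (factPrimes v.p) G⟩

end Pool.Agent.MT
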