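import Pool.Agent.Lib.MP_d61fbb_ag.MT.CMeas

/-! Block C of the MT project: inertia data, theta systems at an ordinary place, measures. -/

noncomputable section

namespace MTC

open Matrix

/-- Inertia data at a place that is unramified over the odd prime `p`. -/
structure Inert {Ω : Type*} [Field Ω] (v : AbsoluteValue Ω ℝ) (p : ℕ) [Fact p.Prime]
    (I : Type*) [Group I] where
  na : IsNonarchimedean v
  odd : p ≠ 2
  p0 : (p : Ω) ≠ 0
  p1 : v p < 1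
  act : I →* (Ω ≃+* Ω)
  iso : ∀ s x, v (act s x) = v x
  near : ∀ s x, v x ≤ 1 → v (act s x - x) < 1
  fix : ∀ x, (∀ s, act s x = x) → v x < 1 → v x ≤ v p
  chi : I → ℚ_[p]
  chi_norm : ∀ s, ‖chi s‖ = 1
  neg : ∃ s, chi s = -1
  psi : AddChar ℚ_[p] Ω
  psi_one : ∀ x, ‖x‖ ≤ 1 → psi x = 1
  psi_ne : psi (p : ℚ_[p])⁻¹ ≠ 1
  psi_act : ∀ s x, act s (psi x) = psi (chi s * x)

variable {Ω : Type*} [Field Ω] {v : AbsoluteValue Ω ℝ} {p : ℕ} [Fact p.Prime]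
  {I : Type*} [Group I] {ι : Type*} [Fintype ι] [DecidableEq ι] {A : Type*}

/-- membership in the lattice `p ^ k T`, where `T` is the lattice of integral vectors -/
def In (k : ℤ) (x : ι → ℚ_[p]) : Prop := ∀ j, ‖x j‖ ≤ (p : ℝ) ^ (-k)

/-- the Hadamard transform of four vectors -/
def had {R V : Type*} [CommRing R] [AddCommGroup V] [Module R V] (h : R) (x : Fin 4 → V) :
    Fin 4 → V :=
  ![h • (x 0 + x 1 + x 2 + x 3), h • (x 0 + x 1 - x 2 - x 3), h • (x 0 - x 1 + x 2 - x 3),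
    h • (x 0 - x 1 - x 2 + x 3)]

/-- A theta system for the lattice `⊕ p ^ d j ℤ_p` in the etale coordinate `x` and its dual in the
multiplicative coordinate `y`. The input of block C is the case `d = 0`. -/
structure Sys (D : Inert v p I) (β : I → Matrix ι ι ℚ_[p]) (d : ι → ℕ)
    (F : A → (ι → ℚ_[p]) → (ι → ℚ_[p]) → Ω) : Prop where
  int : ∀ s i j, ‖β s i j‖ ≤ 1
  perx : ∀ a x y t, (∀ j, ‖t j‖ ≤ (p : ℝ) ^ (-(d j : ℤ))) → F a (x + t) y = F a x y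
  pery : ∀ a x y t, (∀ j, ‖t j‖ ≤ (p : ℝ) ^ (d j : ℤ)) →
    F a x (y + t) = D.psi (x ⬝ᵥ t) * F a x y
  gal : ∀ s a x y, D.act s (F a x y) =
    D.psi (-(x ⬝ᵥ β s *ᵥ x / 2)) * F a x (D.chi s • y + β s *ᵥ x)
  riem : ∀ a : Fin 4 → A, ∃ (n : ℕ) (c : Fin n → Ω) (b : Fin n → Fin 4 → A),
    (∀ η, v (c η) ≤ 1) ∧ ∀ x y : Fin 4 → ι → ℚ_[p], ∏ i, F (a i) (x i) (y i) =
      ∑ η, c η * ∏ i, F (b η i) (had (2⁻¹ : ℚ_[p]) x i) (had (2⁻¹ : ℚ_[p]) y i)
  le_one : ∀ a x y, v (F a x y) ≤ 1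
  unit0 : ∃ a, v (F a 0 0) = 1
  nv : ∀ x y, ∃ a, F a x y ≠ 0

/-- the mass of `w + p ^ k T` -/
def meas (D : Inert v p I) (F : A → (ι → ℚ_[p]) → (ι → ℚ_[p]) → Ω) (k : ℕ) (a : A)
    (w : ι → ℚ_[p]) : Ω :=
  ((p : Ω) ^ (Fintype.card ι * k))⁻¹ * ∑ c : ι → ZMod (p ^ k),
    D.psi (-(w ⬝ᵥ (((p : ℚ_[p]) ^ k)⁻¹ • lift c))) * F a w (((p : ℚ_[p]) ^ k)⁻¹ • lift c)

theorem meas_zero (D : Inert v p I) (F : A → (ι → ℚ_[p]) → (ι → ℚ_[p]) → Ω) (a : A)
    (w : ι → ℚ_[p]) : meas D F 0 a w = F a w 0 := by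
  have : Subsingleton (ZMod (p ^ 0)) := by rw [pow_zero]; infer_instance
  have h0 : lift (p := p) (0 : ι → ZMod (p ^ 0)) = 0 := by funext j; simp [lift]
  rw [meas, Fintype.sum_subsingleton _ 0, h0]
  simp

section lattice

omit [DecidableEq ι]

theorem p_pos : (0 : ℝ) < p := Nat.cast_pos.2 (Fact.out : p.Prime).pos

theorem one_lt_p : (1 : ℝ) < p := Nat.one_lt_cast.2 (Fact.out : p.Prime).one_lt

theorem pq_ne : (p : ℚ_[p]) ≠ 0 := Nat.cast_ne_zero.2 (Fact.out : p.Prime).ne_zero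

omit [Fintype ι] in
theorem In.zero (k : ℤ) : In k (0 : ι → ℚ_[p]) := fun _ => by
  simpa using (zpow_pos p_pos _).le

omit [Fintype ι] in
theorem In.add {k : ℤ} {x y : ι → ℚ_[p]} (hx : In k x) (hy : In k y) : In k (x + y) :=
  fun j => (IsUltrametricDist.norm_add_le_max _ _).trans (max_le (hx j) (hy j))

omit [Fintype ι] in
theorem In.neg {k : ℤ} {x : ι → ℚ_[p]} (hx : In k x) : In k (-x) := fun j => by
  simpa using hx j

omit [Fintype ι] in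
theorem In.sub {k : ℤ} {x y : ι → ℚ_[p]} (hx : In k x) (hy : In k y) : In k (x - y) := by
  rw [sub_eq_add_neg]; exact hx.add hy.neg

omit [Fintype ι] in
theorem In.mono {k l : ℤ} {x : ι → ℚ_[p]} (hx : In k x) (h : l ≤ k) : In l x :=
  fun j => (hx j).trans (zpow_le_zpow_right₀ one_lt_p.le (neg_le_neg h))

omit [Fintype ι] in
theorem In.smul {k l : ℤ} {c : ℚ_[p]} {x : ι → ℚ_[p]} (hc : ‖c‖ ≤ (p : ℝ) ^ (-l)) (hx : In k x) :
    In (l + k) (c • x) := fun j => by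
  rw [Pi.smul_apply, smul_eq_mul, norm_mul, neg_add, zpow_add₀ p_pos.ne']
  exact mul_le_mul hc (hx j) (norm_nonneg _) (zpow_pos p_pos _).le

omit [Fintype ι] in
theorem In.smul_int {k : ℤ} {c : ℚ_[p]} {x : ι → ℚ_[p]} (hc : ‖c‖ ≤ 1) (hx : In k x) :
    In k (c • x) := by
  simpa using In.smul (l := 0) (by simpa using hc) hx

omit [Fintype ι] in
theorem In.smul_pow {k : ℤ} {x : ι → ℚ_[p]} (hx : In k x) (l : ℕ) :
    In (l + k) ((p : ℚ_[p]) ^ l • x) := In.smul (by simp) hx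

omit [Fintype ι] in
theorem In.smul_inv_pow {k : ℤ} {x : ι → ℚ_[p]} (hx : In k x) (l : ℕ) :
    In (-l + k) (((p : ℚ_[p]) ^ l)⁻¹ • x) := In.smul (by simp) hx

omit [Fintype ι] in
theorem in_lift {n : ℕ} (s : ι → ZMod n) : In 0 (lift (p := p) s) := fun j => by
  simpa [lift] using IsUltrametricDist.norm_natCast_le_one ℚ_[p] (s j).val

theorem in_iff {k : ℤ} {x : ι → ℚ_[p]} : In k x ↔ ‖x‖ ≤ (p : ℝ) ^ (-k) :=
  (pi_norm_le_iff_of_nonneg (zpow_pos p_pos _).le).symm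

theorem exists_in (x : ι → ℚ_[p]) : ∃ n : ℕ, In (-n) x := by
  obtain ⟨n, hn⟩ := pow_unbounded_of_one_lt ‖x‖ (one_lt_p (p := p))
  exact ⟨n, fun j => by simpa using (norm_le_pi_norm x j).trans hn.le⟩

theorem In.dot {k l : ℤ} {x y : ι → ℚ_[p]} (hx : In k x) (hy : In l y) :
    ‖x ⬝ᵥ y‖ ≤ (p : ℝ) ^ (-(k + l)) := by
  refine IsUltrametricDist.norm_sum_le_of_forall_le_of_nonneg (zpow_pos p_pos _).le fun j _ => ?_
  rw [norm_mul, neg_add, zpow_add₀ p_pos.ne']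
  exact mul_le_mul (hx j) (hy j) (norm_nonneg _) (zpow_pos p_pos _).le

theorem In.mulVec {k : ℤ} {B : Matrix ι ι ℚ_[p]} (hB : ∀ i j, ‖B i j‖ ≤ 1) {x : ι → ℚ_[p]}
    (hx : In k x) : In k (B *ᵥ x) := fun i => by
  have h : In 0 (B i) := fun j => by simpa using hB i j
  have h2 := h.dot hx
  rwa [zero_add] at h2

theorem norm_two (h : p ≠ 2) : ‖(2 : ℚ_[p])‖ = 1 := by
  have := Padic.norm_natCast_eq_one_iff (p := p) (n := 2)
  rw [Nat.cast_ofNat] at this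
  exact this.2 ((Nat.coprime_primes Fact.out Nat.prime_two).2 h)

end lattice

namespace Inert

variable (D : Inert v p I)

theorem psi_congr {x y : ℚ_[p]} (h : ‖x - y‖ ≤ 1) : D.psi x = D.psi y := by
  rw [← sub_add_cancel x y, AddChar.map_add_eq_mul, D.psi_one _ h, one_mul]

theorem psi_pow (x : ℚ_[p]) : ∃ n : ℕ, D.psi x ^ p ^ n = 1 := by
  obtain ⟨n, hn⟩ := pow_unbounded_of_one_lt ‖x‖ (one_lt_p (p := p))
  refine ⟨n, ?_⟩
  rw [← AddChar.map_nsmul_eq_pow, D.psi_one]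
  rw [nsmul_eq_mul, norm_mul, Nat.cast_pow, Padic.norm_p_pow, _root_.zpow_neg, zpow_natCast,
    inv_mul_le_iff₀ (pow_pos p_pos _), mul_one]
  exact hn.le

theorem v_psi (x : ℚ_[p]) : v (D.psi x) = 1 := by
  obtain ⟨n, hn⟩ := D.psi_pow x
  have := congrArg v hn
  rw [map_pow, map_one] at this
  exact (pow_eq_one_iff_of_nonneg (v.nonneg _) (pow_pos (Fact.out : p.Prime).pos n).ne').1 this

theorem v_psi_sub_one (x : ℚ_[p]) : v (D.psi x - 1) < 1 := by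
  obtain ⟨n, hn⟩ := D.psi_pow x
  exact sub_one_lt_of_pow D.na Fact.out D.p1 (D.v_psi x).le n (by rw [hn]; simp)

theorem psi_ne_zero (x : ℚ_[p]) : D.psi x ≠ 0 := fun h => by
  have := D.v_psi x
  rw [h, map_zero] at this
  exact zero_ne_one this

include D in
theorem vp_pos : 0 < v (p : Ω) := v.pos D.p0

end Inert

end MTC
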