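import Pool.Agent.Lib.MP_d61fbb_ag.MT.CIn
import Pool.Agent.Lib.MP_d61fbb_ag.MT.CSys

/-! The inertia data of a place of the algebraic numbers. -/

open scoped NNReal Classical

namespace Pool.Agent.MT

open Pool.Agent.Lib.MP_696deb_nt.B2 Finset

section
variable (p : ℕ) [hp : Fact p.Prime]

theorem enough_roots (i : ℕ) : HasEnoughRootsOfUnity Qbar (p ^ i) := by
  have : NeZero ((p ^ i : ℕ) : Qbar) := ⟨by exact_mod_cast (pow_pos hp.out.pos i).ne'⟩
  infer_instance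

/-- the `p`-adic cyclotomic character -/
noncomputable def cycP : Gam →* ℤ_[p]ˣ :=
  (cyclotomicCharacter Qbar p).comp (MulSemiringAction.toRingAut Gam Qbar)

theorem cycP_cont : Continuous (cycP p) := cyclotomicCharacter.continuous p ℚ Qbar

theorem cycP_spec (g : Gam) {n : ℕ} {t : Qbar} (ht : t ^ p ^ n = 1) :
    g t = t ^ ((cycP p g).val.toZModPow n).val := by
  have := enough_roots p
  exact cyclotomicCharacter.spec p (MulSemiringAction.toRingAut Gam Qbar g) t ht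

theorem cycP_eq (g : Gam) {n c : ℕ} (h : ∀ t : Qbar, t ^ p ^ n = 1 → g t = t ^ c) :
    (cycP p g).val.toZModPow n = c := by
  have := enough_roots p n
  have : NeZero (p ^ n) := ⟨(pow_pos hp.out.pos n).ne'⟩
  obtain ⟨ζ, hζ⟩ := HasEnoughRootsOfUnity.exists_primitiveRoot Qbar (p ^ n)
  have h1 := (cycP_spec p g hζ.pow_eq_one).symm.trans (h ζ hζ.pow_eq_one)
  have h2 := ((hζ.isOfFinOrder (NeZero.ne _)).pow_eq_pow_iff_modEq).1 h1
  rw [← hζ.eq_orderOf] at h2
  rw [← ZMod.natCast_zmod_val ((cycP p g).val.toZModPow n), ZMod.natCast_eq_natCast_iff]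
  exact h2

variable {p}

/-- the action of the Galois group on the values of an additive character -/
theorem gal_psi (ψ : AddChar ℚ_[p] Qbar) (h1 : ∀ x, ‖x‖ ≤ 1 → ψ x = 1) (g : Gam) (x : ℚ_[p]) :
    g (ψ x) = ψ (((cycP p g).val : ℚ_[p]) * x) := by
  have hp1 : (1 : ℝ) < p := by exact_mod_cast hp.out.one_lt
  obtain ⟨n, hn⟩ := pow_unbounded_of_one_lt ‖x‖ hp1
  have h2 : ‖(p : ℚ_[p]) ^ n * x‖ ≤ 1 := by
    rw [norm_mul, norm_pow, Padic.norm_p, inv_pow, inv_mul_le_iff₀ (by positivity), mul_one]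
    exact hn.le
  have h3 : ψ x ^ p ^ n = 1 := by
    rw [← AddChar.map_nsmul_eq_pow, nsmul_eq_mul, Nat.cast_pow, h1 _ h2]
  rw [cycP_spec p g h3, ← AddChar.map_nsmul_eq_pow, nsmul_eq_mul]
  set u := (cycP p g).val
  have h4 : u - ((u.toZModPow n).val : ℤ_[p]) ∈ RingHom.ker (PadicInt.toZModPow n) := by
    have : NeZero (p ^ n) := ⟨(pow_pos hp.out.pos n).ne'⟩
    rw [RingHom.mem_ker, map_sub, map_natCast, ZMod.natCast_zmod_val, sub_self]
  rw [PadicInt.ker_toZModPow, Ideal.mem_span_singleton] at h4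
  obtain ⟨z, hz⟩ := h4
  have h5 : (u : ℚ_[p]) = ((u.toZModPow n).val : ℚ_[p]) + (p : ℚ_[p]) ^ n * z := by
    have := congrArg (fun t : ℤ_[p] => (t : ℚ_[p])) hz
    push_cast at this
    linear_combination this
  have h6 : ψ ((p : ℚ_[p]) ^ n * z * x) = 1 := h1 _ (by
    rw [mul_right_comm, norm_mul]
    exact mul_le_one₀ h2 (norm_nonneg _) z.2)
  conv_rhs => rw [h5, add_mul, AddChar.map_add_eq_mul, h6, mul_one]

end

/-- the cyclotomic character maps the inertia group at `p` onto the `p`-adic units -/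
theorem cycP_ine_surj (w : Plc) [hp : Fact w.p.Prime] (u : ℤ_[w.p]ˣ) :
    ∃ σ ∈ Ine w, cycP w.p σ = u := by
  have hc : IsCompact ((fun σ => (cycP w.p σ).val) '' (Ine w : Set Gam)) :=
    (closed_Ine w).isCompact.image (Units.continuous_val.comp (cycP_cont w.p))
  have hp1 : (1 : ℝ) < w.p := by exact_mod_cast hp.out.one_lt
  have hmem : u.val ∈ closure ((fun σ => (cycP w.p σ).val) '' (Ine w : Set Gam)) := by
    rw [Metric.mem_closure_iff]
    intro ε hε
    obtain ⟨n, hn⟩ := exists_pow_lt_of_lt_one hε (inv_lt_one_of_one_lt₀ hp1)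
    have : NeZero (w.p ^ (n + 1)) := ⟨(pow_pos hp.out.pos _).ne'⟩
    have hnd : ¬ w.p ∣ (u.val.toZModPow (n + 1)).val := by
      have h1 : IsUnit (u.val.toZModPow (n + 1)) := u.isUnit.map _
      rw [← ZMod.natCast_zmod_val (u.val.toZModPow (n + 1)), ZMod.isUnit_iff_coprime] at h1
      exact hp.out.coprime_iff_not_dvd.1
        (h1.coprime_dvd_right (dvd_pow_self _ (Nat.succ_ne_zero n))).symm
    obtain ⟨σ, hσ, h2⟩ := exists_ine_pow w (n + 1) hnd
    have h3 := cycP_eq w.p σ h2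
    rw [ZMod.natCast_zmod_val] at h3
    refine ⟨_, ⟨σ, hσ, rfl⟩, ?_⟩
    have h4 : u.val - (cycP w.p σ).val ∈ RingHom.ker (PadicInt.toZModPow (n + 1)) := by
      rw [RingHom.mem_ker, map_sub, h3, sub_self]
    rw [PadicInt.ker_toZModPow, ← PadicInt.norm_le_pow_iff_mem_span_pow] at h4
    rw [dist_eq_norm]
    refine h4.trans_lt (lt_of_le_of_lt ?_ hn)
    rw [inv_pow, ← zpow_natCast, ← zpow_neg]
    exact zpow_le_zpow_right₀ hp1.le (by omega)
  rw [hc.isClosed.closure_eq] at hmem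
  obtain ⟨σ, hσ, h⟩ := hmem
  exact ⟨σ, hσ, Units.ext h⟩

/-- the inertia data of an odd place -/
noncomputable def inertOf (w : Plc) [Fact w.p.Prime] (hodd : w.p ≠ 2)
    (ψ : AddChar ℚ_[w.p] Qbar) (h1 : ∀ x, ‖x‖ ≤ 1 → ψ x = 1) (h2 : ψ (w.p : ℚ_[w.p])⁻¹ ≠ 1) :
    MTC.Inert (abv w) w.p (Ine w) where
  na := abv_na w
  odd := hodd
  p0 := by exact_mod_cast w.prime.ne_zero
  p1 := abv_p_lt w
  act := galAct (Ine w)
  iso s x := abv_dec s.2.1 x
  near s _ hx := abv_ine s.2 hx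
  fix _ hx := abv_fix w fun g hg => hx ⟨g, hg⟩
  chi s := ((cycP w.p s).val : ℚ_[w.p])
  chi_norm s := PadicInt.norm_units _
  neg := by
    obtain ⟨σ, hσ, h⟩ := cycP_ine_surj w (-1)
    exact ⟨⟨σ, hσ⟩, by simp [h]⟩
  psi := ψ
  psi_one := h1
  psi_ne := h2
  psi_act s x := gal_psi ψ h1 s x

end Pool.Agent.MT
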