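import Pool.Agent.Lib.MP_d61fbb_ag.MT.CSys

/-! Block C of the MT project: the power identity from the uniqueness of theta functions. -/

noncomputable section

namespace MTC

open Matrix

variable {Ω : Type*} [Field Ω] {v : AbsoluteValue Ω ℝ} {p : ℕ} [Fact p.Prime]
  {I : Type*} [Group I] {ι : Type*} [Fintype ι] [DecidableEq ι] {A : Type*}

/-- Invariance in degree `p ^ 2` under the lattice `p ^ k T ⊕ p ^ (-k-2) T`. -/
structure Inv2 (D : Inert v p I) (k : ℕ) (G : A → (ι → ℚ_[p]) → (ι → ℚ_[p]) → Ω) : Prop where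
  perx : ∀ a x y t, In k t → G a (x + t) y = G a x y
  pery : ∀ a x y c, In (-(k + 2 : ℕ)) c →
    G a x (y + c) = D.psi ((p : ℚ_[p]) ^ 2 * (x ⬝ᵥ c)) * G a x y

/-- Spaces of theta functions of degree one and `p ^ 2`, with the uniqueness property. -/
structure Uq (D : Inert v p I) (fr : A → A)
    (H1 H2 : Submodule Ω (A → (ι → ℚ_[p]) → (ι → ℚ_[p]) → Ω)) : Prop where
  t1 : ∀ G ∈ H1, ∀ c, (fun a x y => D.psi (-(x ⬝ᵥ c)) * G a x (y + c)) ∈ H1
  t2 : ∀ G ∈ H2, ∀ c, (fun a x y => D.psi (-((p : ℚ_[p]) ^ 2 * (x ⬝ᵥ c))) * G a x (y + c)) ∈ H2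
  pw : ∀ G ∈ H1, (fun a x y => G a x y ^ p ^ 2) ∈ H2
  sc : ∀ G ∈ H1, (fun a x y => G (fr a) ((p : ℚ_[p]) • x) ((p : ℚ_[p]) • y)) ∈ H2
  uq : ∀ k, ∀ G ∈ H2, ∀ G' ∈ H2, G' ≠ 0 → Inv2 D k G → Inv2 D k G' → ∃ c : Ω, G = c • G'

section aux

omit [Fintype ι] [DecidableEq ι] in
theorem in_nat_iff (n : ℕ) (m : ι → ℕ) :
    In n (fun i => (m i : ℚ_[p])) ↔ ∀ i, (m i : ZMod (p ^ n)) = 0 :=
  forall_congr' fun i => by
    rw [ZMod.natCast_eq_zero_iff, ← Int.natCast_dvd_natCast, Nat.cast_pow,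
      ← Padic.norm_int_le_pow_iff_dvd, Int.cast_natCast]

omit [Fintype ι] [DecidableEq ι] in
theorem exists_lift (n : ℕ) {z : ι → ℚ_[p]} (hz : In 0 z) :
    ∃ c : ι → ZMod (p ^ n), In n (z - lift c) := by
  refine ⟨fun j => PadicInt.toZModPow n ⟨z j, by simpa using hz j⟩, fun j => ?_⟩
  set x : ℤ_[p] := ⟨z j, by simpa using hz j⟩
  have h : x - ((PadicInt.toZModPow n x).val : ℕ) ∈ Ideal.span {(p : ℤ_[p]) ^ n} := by
    rw [← PadicInt.ker_toZModPow, RingHom.mem_ker, map_sub, map_natCast, ZMod.natCast_zmod_val,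
      sub_self]
  exact (PadicInt.norm_le_pow_iff_mem_span_pow _ n).2 h

omit [Fintype ι] [DecidableEq ι] in
theorem in_lift_add (n : ℕ) (c d : ι → ZMod (p ^ n)) :
    In n (lift (p := p) c + lift d - lift (c + d)) := fun j => by
  have : (lift c + lift d - lift (c + d) : ι → ℚ_[p]) j =
      (((c j).val + (d j).val - (c j + d j).val : ℤ) : ℚ_[p]) := by simp [lift]
  rw [this, Padic.norm_int_le_pow_iff_dvd, ← Nat.cast_pow, ← ZMod.intCast_zmod_eq_zero_iff_dvd]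
  simp

theorem sum_shift (n : ℕ) (φ : (ι → ℚ_[p]) → Ω) (hφ : ∀ z t, In n t → φ (z + t) = φ z)
    {z : ι → ℚ_[p]} (hz : In 0 z) :
    ∑ c : ι → ZMod (p ^ n), φ (lift c + z) = ∑ c : ι → ZMod (p ^ n), φ (lift c) := by
  obtain ⟨d, hd⟩ := exists_lift n hz
  rw [← Equiv.sum_comp (Equiv.addRight d) fun c => φ (lift c)]
  refine Finset.sum_congr rfl fun c _ => ?_
  rw [Equiv.coe_addRight, ← hφ (lift (c + d)) _ ((in_lift_add n c d).add hd)]
  congr 1; abel

theorem card_res (n : ℕ) : (Fintype.card (ι → ZMod (p ^ n)) : Ω) = p ^ (Fintype.card ι * n) := by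
  rw [Fintype.card_fun, ZMod.card, ← pow_mul, mul_comm, Nat.cast_pow]

open Classical in
theorem orth (D : Inert v p I) (n : ℕ) {z : ι → ℚ_[p]} (hz : In (-n) z) :
    ∑ s : ι → ZMod (p ^ n), D.psi (z ⬝ᵥ lift s) =
      if In 0 z then (p : Ω) ^ (Fintype.card ι * n) else 0 := by
  split_ifs with h
  · rw [Finset.sum_congr rfl fun s _ => D.psi_one _ (by simpa using h.dot (in_lift s)),
      Finset.sum_const, Finset.card_univ, nsmul_eq_mul, mul_one, card_res]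
  · obtain ⟨j, hj⟩ := not_forall.1 h
    have h1 : (p : ℝ) ≤ ‖z j‖ := by
      by_contra h2
      exact hj ((Padic.norm_le_pow_iff_norm_lt_pow_add_one (z j) (-0)).2 (by simpa using h2))
    have h0 : z j ≠ 0 := fun e => by rw [e, norm_zero] at h1; exact p_pos.not_ge h1
    have ht : In 0 (Pi.single j ((p : ℚ_[p])⁻¹ / z j) : ι → ℚ_[p]) := fun i => by
      rcases eq_or_ne i j with rfl | hi
      · simpa using div_le_one_of_le₀ h1 (norm_nonneg _)
      · simp [hi]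
    have h3 := sum_shift n (fun t => D.psi (z ⬝ᵥ t)) (fun w t ht => by
      rw [dotProduct_add, AddChar.map_add_eq_mul, D.psi_one (z ⬝ᵥ t) (by simpa using hz.dot ht),
        mul_one]) ht
    simp only [dotProduct_add, AddChar.map_add_eq_mul, dotProduct_single, ← Finset.sum_mul,
      mul_div_cancel₀ _ h0] at h3
    exact eq_zero_of_mul_eq_self_left D.psi_ne (by rw [mul_comm]; exact h3)

/-- the twisted sum over the translates by `u • lift c` -/
def av (D : Inert v p I) (r u : ℚ_[p]) (n : ℕ) (G : (ι → ℚ_[p]) → (ι → ℚ_[p]) → Ω)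
    (x y : ι → ℚ_[p]) : Ω :=
  ∑ c : ι → ZMod (p ^ n), D.psi (-(r * (x ⬝ᵥ u • lift c))) * G x (y + u • lift c)

variable {D : Inert v p I} {G : (ι → ℚ_[p]) → (ι → ℚ_[p]) → Ω}

theorem av_perx {r u : ℚ_[p]} {n : ℕ} {t : ι → ℚ_[p]} (ht : In 0 ((r * u) • t))
    (hG : ∀ x y, G (x + t) y = G x y) (x y : ι → ℚ_[p]) :
    av D r u n G (x + t) y = av D r u n G x y := by
  refine Finset.sum_congr rfl fun c _ => ?_
  rw [hG, D.psi_congr (y := -(r * (x ⬝ᵥ u • lift c)))]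
  have := ht.neg.dot (in_lift c)
  rw [add_dotProduct, neg_sub_neg, mul_add, sub_add_cancel_left, dotProduct_smul]
  simpa [mul_assoc] using this

theorem av_pery {r u : ℚ_[p]} {n : ℕ}
    (hG : ∀ x y t, In n t → G x (y + u • t) = D.psi (r * (x ⬝ᵥ u • t)) * G x y)
    (x y : ι → ℚ_[p]) {z : ι → ℚ_[p]} (hz : In 0 z) :
    av D r u n G x (y + u • z) = D.psi (r * (x ⬝ᵥ u • z)) * av D r u n G x y := by
  have h := sum_shift n (fun c => D.psi (-(r * (x ⬝ᵥ u • c))) * G x (y + u • c)) (fun w t ht => by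
    rw [smul_add, ← add_assoc, hG _ _ _ ht, ← mul_assoc, ← AddChar.map_add_eq_mul, dotProduct_add]
    congr 2; ring) hz
  rw [av, av, ← h, Finset.mul_sum]
  refine Finset.sum_congr rfl fun c _ => ?_
  rw [← mul_assoc, ← AddChar.map_add_eq_mul, smul_add, dotProduct_add, add_assoc,
    add_comm (u • z)]
  congr 2; ring

/-- invariance under the lattice `p ^ k T ⊕ p ^ (-k) T` -/
structure Per (D : Inert v p I) (k : ℕ) (G : (ι → ℚ_[p]) → (ι → ℚ_[p]) → Ω) : Prop where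
  perx : ∀ x y t, In k t → G (x + t) y = G x y
  pery : ∀ x y c, In (-k) c → G x (y + c) = D.psi (x ⬝ᵥ c) * G x y

/-- the projection to the functions that are invariant under `p ^ (-k) T` -/
def pj (D : Inert v p I) (k : ℕ) (G : (ι → ℚ_[p]) → (ι → ℚ_[p]) → Ω) (x y : ι → ℚ_[p]) : Ω :=
  ((p : Ω) ^ (Fintype.card ι * k))⁻¹ * av D 1 ((p : ℚ_[p]) ^ k)⁻¹ k G x y

theorem meas_eq_pj (F : A → (ι → ℚ_[p]) → (ι → ℚ_[p]) → Ω) (k : ℕ) (a : A) (w : ι → ℚ_[p]) :
    meas D F k a w = pj D k (F a) w 0 := by simp only [meas, pj, av, one_mul, zero_add]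

theorem Per.pj (h : Per D 0 G) (k : ℕ) : Per D k (pj D k G) where
  perx x y t ht := by
    rw [MTC.pj, MTC.pj, av_perx (by simpa using ht.smul_inv_pow k)
      fun x y => h.perx x y t (ht.mono (by simp))]
  pery x y c hc := by
    have := av_pery (D := D) (r := 1) (u := ((p : ℚ_[p]) ^ k)⁻¹) (n := k) (fun x y t ht => by
      rw [one_mul]; exact h.pery _ _ _ (by simpa using ht.smul_inv_pow k)) x y
      (z := (p : ℚ_[p]) ^ k • c) (by simpa using hc.smul_pow k)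
    rw [inv_smul_smul₀ (pow_ne_zero _ pq_ne), one_mul] at this
    rw [MTC.pj, MTC.pj, this, mul_left_comm]

theorem Per.pj_pj (h : Per D 0 G) {k n : ℕ} (hk : k ≤ n) (x y : ι → ℚ_[p]) :
    MTC.pj D n (MTC.pj D k G) x y = MTC.pj D n G x y := by
  have h1 : ∀ d : ι → ZMod (p ^ k), D.psi (-(1 * (x ⬝ᵥ ((p : ℚ_[p]) ^ k)⁻¹ • lift d))) *
      MTC.pj D n G x (y + ((p : ℚ_[p]) ^ k)⁻¹ • lift d) = MTC.pj D n G x y := fun d => by
    rw [(h.pj n).pery _ _ _ (((in_lift d).smul_inv_pow k).mono (by omega)), ← mul_assoc,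
      ← AddChar.map_add_eq_mul, one_mul, neg_add_cancel, AddChar.map_zero_eq_one, one_mul]
  have h2 : MTC.pj D n (MTC.pj D k G) x y = MTC.pj D k (MTC.pj D n G) x y := by
    simp only [MTC.pj, av, Finset.mul_sum]
    rw [Finset.sum_comm]
    refine Finset.sum_congr rfl fun c _ => Finset.sum_congr rfl fun d _ => ?_
    rw [add_right_comm y]; ring
  rw [h2, MTC.pj, av, Finset.sum_congr rfl fun d _ => h1 d, Finset.sum_const, Finset.card_univ,
    nsmul_eq_mul, card_res, inv_mul_cancel_left₀ (pow_ne_zero _ D.p0)]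

omit [Fintype ι] [DecidableEq ι] in
theorem in_inv_pow_iff (n : ℕ) (x : ι → ℚ_[p]) : In 0 (((p : ℚ_[p]) ^ n)⁻¹ • x) ↔ In n x :=
  ⟨fun h => by simpa [smul_inv_smul₀ (pow_ne_zero n (pq_ne (p := p)))] using h.smul_pow n,
    fun h => by simpa using h.smul_inv_pow n⟩

theorem Per.eq_sum {k : ℕ} (h : Per D k G) (j : ℕ) (x y : ι → ℚ_[p]) :
    G x y = ∑ s : ι → ZMod (p ^ j), MTC.pj D (k + j) G (x + (p : ℚ_[p]) ^ k • lift s) y := by
  classical
  have e : ∀ (s : ι → ZMod (p ^ j)) (c : ι → ZMod (p ^ (k + j))),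
      ((p : ℚ_[p]) ^ k • lift s) ⬝ᵥ ((p : ℚ_[p]) ^ (k + j))⁻¹ • lift c =
        ((p : ℚ_[p]) ^ j)⁻¹ * (lift s ⬝ᵥ lift c) := fun s c => by
    have := pq_ne (p := p)
    rw [smul_dotProduct, dotProduct_smul, smul_eq_mul, smul_eq_mul]; field_simp; ring
  have h1 : ∀ c : ι → ZMod (p ^ (k + j)), ∑ s : ι → ZMod (p ^ j),
      D.psi (-(1 * ((x + (p : ℚ_[p]) ^ k • lift s) ⬝ᵥ ((p : ℚ_[p]) ^ (k + j))⁻¹ • lift c))) *
        G (x + (p : ℚ_[p]) ^ k • lift s) (y + ((p : ℚ_[p]) ^ (k + j))⁻¹ • lift c) =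
      (∑ s : ι → ZMod (p ^ j), D.psi ((-(((p : ℚ_[p]) ^ j)⁻¹ • lift c)) ⬝ᵥ lift s)) * G x y := by
    intro c
    have h2 := orth D j (z := -(((p : ℚ_[p]) ^ j)⁻¹ • lift c))
      (by simpa using ((in_lift c).smul_inv_pow j).neg)
    have h3 : ∀ s : ι → ZMod (p ^ j),
        D.psi (-(1 * ((x + (p : ℚ_[p]) ^ k • lift s) ⬝ᵥ ((p : ℚ_[p]) ^ (k + j))⁻¹ • lift c))) =
        D.psi ((-(((p : ℚ_[p]) ^ j)⁻¹ • lift c)) ⬝ᵥ lift s) *
          D.psi (-(x ⬝ᵥ ((p : ℚ_[p]) ^ (k + j))⁻¹ • lift c)) := fun s => by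
      rw [← AddChar.map_add_eq_mul, add_dotProduct, e, neg_dotProduct, smul_dotProduct,
        dotProduct_comm (lift c), smul_eq_mul]
      congr 1; ring
    rw [Finset.sum_congr rfl fun s _ => by
      rw [h3, h.perx _ _ _ (by simpa using (in_lift s).smul_pow k), mul_assoc], ← Finset.sum_mul]
    split_ifs at h2 with h4
    · rw [h.pery _ _ _ (by simpa [pow_add, mul_smul, smul_comm ((p : ℚ_[p]) ^ j)⁻¹] using
        h4.neg.smul_inv_pow k), ← mul_assoc (D.psi _), ← AddChar.map_add_eq_mul, neg_add_cancel,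
        AddChar.map_zero_eq_one, one_mul]
    · rw [h2, zero_mul, zero_mul]
  have h5 : ∀ s : ι → ZMod (p ^ j), ∑ c : ι → ZMod (p ^ (k + j)),
      D.psi ((-(((p : ℚ_[p]) ^ j)⁻¹ • lift c)) ⬝ᵥ lift s) =
      if s = 0 then (p : Ω) ^ (Fintype.card ι * (k + j)) else 0 := fun s => by
    have h2 := orth D (k + j) (z := ((p : ℚ_[p]) ^ j)⁻¹ • -lift s)
      (((in_lift s).neg.smul_inv_pow j).mono (by omega))
    have h3 : In 0 (((p : ℚ_[p]) ^ j)⁻¹ • -lift (p := p) s) ↔ s = 0 := by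
      rw [in_inv_pow_iff]
      refine ⟨fun h => funext fun i => ?_, fun h => ?_⟩
      · simpa using (in_nat_iff j fun i => (s i).val).1 (neg_neg (lift (p := p) s) ▸ h.neg :) i
      · exact ((in_nat_iff j fun i => (s i).val).2 fun i => by simp [h]).neg
    rw [← if_congr h3 rfl rfl, ← h2]
    refine Finset.sum_congr rfl fun c _ => ?_
    simp only [neg_dotProduct, smul_dotProduct, dotProduct_comm (lift (p := p) c), smul_neg]
  simp only [MTC.pj, av]
  rw [← Finset.mul_sum, Finset.sum_comm, Finset.sum_congr rfl fun c _ => h1 c, ← Finset.sum_mul,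
    Finset.sum_comm, Finset.sum_congr rfl fun s _ => h5 s, Finset.sum_ite_eq', if_pos
    (Finset.mem_univ _), inv_mul_cancel_left₀ (pow_ne_zero _ D.p0)]

theorem Per.pj_add (h : Per D 0 G) (k j : ℕ) (x y : ι → ℚ_[p]) : MTC.pj D k G x y =
    ∑ s : ι → ZMod (p ^ j), MTC.pj D (k + j) G (x + (p : ℚ_[p]) ^ k • lift s) y := by
  rw [(h.pj k).eq_sum j]
  exact Finset.sum_congr rfl fun s _ => h.pj_pj (Nat.le_add_right k j) _ _

end aux

theorem frob_of_uq {D : Inert v p I} {fr : A → A} (hfr : Function.Surjective fr)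
    {H1 H2 : Submodule Ω (A → (ι → ℚ_[p]) → (ι → ℚ_[p]) → Ω)} (h : Uq D fr H1 H2)
    {F : A → (ι → ℚ_[p]) → (ι → ℚ_[p]) → Ω} (hF : F ∈ H1) (h0 : F ≠ 0)
    (perx : ∀ a x y t, In 0 t → F a (x + t) y = F a x y)
    (pery : ∀ a x y t, In 0 t → F a x (y + t) = D.psi (x ⬝ᵥ t) * F a x y) (k : ℕ) :
    ∃ th : Ω, ∀ a w, cf (p ^ 2) (fun s : ι → ZMod (p ^ 2) =>
      meas D F (k + 2) a (w + (p : ℚ_[p]) ^ k • lift s)) =
        th * meas D F (k + 1) (fr a) ((p : ℚ_[p]) • w) := by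
  classical
  have hp := pq_ne (p := p)
  have hP : ∀ a, Per D 0 (F a) := fun a => ⟨perx a, fun x y c hc => pery a x y c (by simpa using hc)⟩
  have m1 : ∀ n, (fun a => pj D n (F a)) ∈ H1 := fun n => by
    have := H1.smul_mem ((p : Ω) ^ (Fintype.card ι * n))⁻¹ (H1.sum_mem (t := Finset.univ)
      fun (c : ι → ZMod (p ^ n)) _ => h.t1 F hF (((p : ℚ_[p]) ^ n)⁻¹ • lift c))
    convert this using 1
    funext a x y
    simp [pj, av, Finset.sum_apply]
  set u : ℚ_[p] := ((p : ℚ_[p]) ^ (k + 2))⁻¹ with hu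
  have m2 : (fun a => av D ((p : ℚ_[p]) ^ 2) u 2 fun x y => pj D k (F a) x y ^ p ^ 2) ∈ H2 := by
    have := H2.sum_mem (t := Finset.univ)
      fun (c : ι → ZMod (p ^ 2)) _ => h.t2 _ (h.pw _ (m1 k)) (u • lift c)
    convert this using 1
    funext a x y
    simp [av, Finset.sum_apply]
  have e1 : (p : ℚ_[p]) ^ 2 * u = ((p : ℚ_[p]) ^ k)⁻¹ := by rw [hu]; field_simp; ring
  have i2 : Inv2 D k fun a => av D ((p : ℚ_[p]) ^ 2) u 2 fun x y => pj D k (F a) x y ^ p ^ 2 := by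
    refine ⟨fun a x y t ht => av_perx (by simpa [e1] using ht.smul_inv_pow k)
      (fun x y => by rw [((hP a).pj k).perx _ _ _ ht]) x y, fun a x y c hc => ?_⟩
    have := av_pery (D := D) (r := (p : ℚ_[p]) ^ 2) (u := u) (n := 2)
      (G := fun x y => pj D k (F a) x y ^ p ^ 2) (fun x y t ht => by
        rw [((hP a).pj k).pery _ _ _ ((ht.smul_inv_pow (k + 2)).mono (by omega)), mul_pow,
          ← AddChar.map_nsmul_eq_pow, nsmul_eq_mul, Nat.cast_pow]) x y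
      (z := (p : ℚ_[p]) ^ (k + 2) • c) (by simpa using hc.smul_pow (k + 2))
    rwa [inv_smul_smul₀ (pow_ne_zero _ hp)] at this
  have i3 : Inv2 D k fun a x y => pj D (k + 1) (F (fr a)) ((p : ℚ_[p]) • x) ((p : ℚ_[p]) • y) := by
    refine ⟨fun a x y t ht => ?_, fun a x y c hc => ?_⟩
    · rw [smul_add, ((hP _).pj _).perx _ _ _ (by simpa [add_comm] using ht.smul_pow 1)]
    · rw [smul_add, ((hP _).pj _).pery _ _ _ (by
        simpa using (hc.smul_pow 1).mono (l := -(k + 1 : ℕ)) (by omega)), smul_dotProduct,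
        dotProduct_smul, smul_eq_mul, smul_eq_mul, ← mul_assoc, ← sq]
  have n3 : (fun a x y => pj D (k + 1) (F (fr a)) ((p : ℚ_[p]) • x) ((p : ℚ_[p]) • y)) ≠ 0 := by
    intro h3
    refine h0 (funext fun a => funext fun x => funext fun y => ?_)
    obtain ⟨a, rfl⟩ := hfr a
    rw [(hP _).eq_sum (k + 1)]
    refine Finset.sum_eq_zero fun s _ => ?_
    have := congrFun (congrFun (congrFun h3 a) ((p : ℚ_[p])⁻¹ • (x + (p : ℚ_[p]) ^ 0 • lift s)))
      ((p : ℚ_[p])⁻¹ • y)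
    rw [smul_inv_smul₀ hp, smul_inv_smul₀ hp] at this
    rw [zero_add]; exact this
  obtain ⟨c, hc⟩ := h.uq k _ m2 _ (h.sc _ (m1 (k + 1))) n3 i2 i3
  refine ⟨((p : Ω) ^ (Fintype.card ι * 2))⁻¹ * c, fun a w => ?_⟩
  have h1 := congrFun (congrFun (congrFun hc a) w) 0
  simp only [Pi.smul_apply, smul_zero, smul_eq_mul] at h1
  rw [mul_assoc, meas_eq_pj F (k + 1), ← h1, eq_inv_mul_iff_mul_eq₀ (pow_ne_zero _ D.p0), av, cf,
    Finset.mul_sum]
  have h2 : ∀ b : ι → ZMod (p ^ 2), D.psi (-((p : ℚ_[p]) ^ 2 * (w ⬝ᵥ u • lift b))) *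
      pj D k (F a) w (0 + u • lift b) ^ p ^ 2 = ∑ t : Fin (p ^ 2) → ι → ZMod (p ^ 2),
        D.psi ((((p : ℚ_[p]) ^ 2)⁻¹ • ∑ l, lift (t l)) ⬝ᵥ lift b) *
          ∏ l, meas D F (k + 2) a (w + (p : ℚ_[p]) ^ k • lift (t l)) := fun b => by
    have h3 : D.psi (-(w ⬝ᵥ u • lift b)) * pj D k (F a) w (0 + u • lift b) =
        ∑ s : ι → ZMod (p ^ 2), D.psi ((((p : ℚ_[p]) ^ 2)⁻¹ • lift s) ⬝ᵥ lift b) *
          meas D F (k + 2) a (w + (p : ℚ_[p]) ^ k • lift s) := by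
      rw [(hP a).pj_add k 2, Finset.mul_sum]
      refine Finset.sum_congr rfl fun s _ => ?_
      rw [((hP a).pj _).pery _ _ _ (by simpa using (in_lift b).smul_inv_pow (k + 2)), meas_eq_pj,
        ← mul_assoc, ← AddChar.map_add_eq_mul]
      congr 2
      simp only [add_dotProduct, smul_dotProduct, dotProduct_smul, smul_eq_mul, hu]
      field_simp; ring
    rw [← mul_neg, ← Nat.cast_pow, ← nsmul_eq_mul, AddChar.map_nsmul_eq_pow, ← mul_pow, h3,
      ← Fin.prod_const, Finset.prod_univ_sum, Fintype.piFinset_univ]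
    refine Finset.sum_congr rfl fun t _ => ?_
    rw [Finset.prod_mul_distrib, Finset.smul_sum, sum_dotProduct, Nat.cast_pow]
    congr 1
    exact (map_prod D.psi.toMonoidHom (fun l => Multiplicative.ofAdd _) _).symm
  rw [Finset.sum_congr rfl fun b _ => h2 b, Finset.sum_comm]
  refine Finset.sum_congr rfl fun t _ => ?_
  have h4 : (∑ l, lift (t l) : ι → ℚ_[p]) = fun i => ((∑ l, (t l i).val : ℕ) : ℚ_[p]) := by
    funext i; simp only [lift, Finset.sum_apply, Nat.cast_sum]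
  have h5 : In 0 (((p : ℚ_[p]) ^ 2)⁻¹ • (∑ l, lift (t l) : ι → ℚ_[p])) ↔ ∑ l, t l = 0 := by
    rw [in_inv_pow_iff, h4, in_nat_iff, funext_iff]
    simp only [Nat.cast_sum, ZMod.natCast_zmod_val, Finset.sum_apply, Pi.zero_apply]
  rw [← Finset.sum_mul, orth D 2 (by
    have : In 0 (∑ l, lift (t l) : ι → ℚ_[p]) := by
      rw [h4]; exact (in_nat_iff 0 _).2 fun i => by
        have : Subsingleton (ZMod (p ^ 0)) := by rw [pow_zero]; infer_instance
        exact Subsingleton.elim _ _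
    simpa using this.smul_inv_pow 2), if_congr h5 rfl rfl, mul_ite, ite_mul, mul_zero, zero_mul]

end MTC
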