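import Pool.Agent.Lib.MP_d61fbb_ag.MT.CT3

/-! Block C of the MT project: the interpolation theorem for measure systems. -/

namespace MTC

theorem meas_interp {Ω : Type*} [Field Ω] {v : AbsoluteValue Ω ℝ} (hv : IsNonarchimedean v)
    {p : ℕ} [Fact p.Prime] (hp2 : p ≠ 2) (hp0 : (p : Ω) ≠ 0) (hp1 : v (p : Ω) < 1)
    {ι : Type*} [Fintype ι] [DecidableEq ι] {A : Type*} {fr : A → A}
    (hfr : Function.Surjective fr) {I : Type*} {act : I → Ω →+* Ω}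
    (hfix : ∀ x, (∀ σ, act σ x = x) → v x < 1 → v x ≤ v (p : Ω))
    {ψ : AddChar ℚ_[p] Ω} (hψ : ∀ x : ℚ_[p], ‖x‖ ≤ 1 → ψ x = 1)
    (Q : (ι → ℚ_[p]) → ℚ_[p]) (hQ : ∀ (c : ℚ_[p]) w, Q (c • w) = c ^ 2 * Q w)
    (hQ1 : ∀ w, ‖w‖ ≤ 1 → ‖Q w‖ ≤ 1) (w0 : ι → ℚ_[p]) (hw0 : ‖w0‖ ≤ 1) (hQ0 : ‖Q w0‖ = 1)
    (κ : I → ℚ_[p]) (hκ : ∀ σ, ‖κ σ‖ ≤ 1)
    (μ0 : Meas v p ι fr act ψ) {n : ℕ} (μ : Fin n → Meas v p ι fr act ψ)
    (c : Fin n → ℚ_[p]) (hc : ∀ i, ‖c i‖ ≤ 1) (hinj : Function.Injective c)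
    (mum : ∀ i σ w, (μ i).q σ w - μ0.q σ w = c i * κ σ * Q w)
    (red : ∀ i, ∃ u, v u = 1 ∧ ∀ a w, v ((μ i).M 0 a w - u * μ0.M 0 a w) < 1)
    {J : Type*} (P : MvPolynomial J Ω) {d : ℕ} (hP : P.IsHomogeneous d)
    (hP1 : ∀ m, v (P.coeff m) ≤ 1) (x : J → A)
    (hz : ∀ i, MvPolynomial.eval (fun j => (μ i).M 0 (x j) 0) P = 0) :
    v (MvPolynomial.eval (fun j => μ0.M 0 (x j) 0) P) ≤ v (p : Ω) ^ n := by
  have H : Hyp v p fr act := ⟨hv, hp0, hp1, hfr, hfix⟩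
  choose u hu using red
  have hred : ∀ i, Meas.Red μ0 (μ i) (u i) := hu
  have hQz : Q 0 = 0 := by simpa using hQ 0 0
  have hip : (p : ℝ)⁻¹ < 1 := inv_lt_one_of_one_lt₀ one_lt_pR
  have hip0 : (0 : ℝ) < (p : ℝ)⁻¹ := inv_pos.2 (zero_lt_one.trans one_lt_pR)
  obtain ⟨e, he⟩ : ∃ e : ℕ, ∀ i j, i ≠ j → (p : ℝ)⁻¹ ^ e ≤ ‖c i - c j‖ := by
    have h1 : ∀ ij : Fin n × Fin n, ∃ e : ℕ, ij.1 ≠ ij.2 → (p : ℝ)⁻¹ ^ e ≤ ‖c ij.1 - c ij.2‖ := by
      intro ij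
      by_cases h : ij.1 = ij.2
      · exact ⟨0, fun h' => absurd h h'⟩
      · obtain ⟨e, he⟩ := exists_pow_lt_of_lt_one
          (norm_pos_iff.2 (sub_ne_zero.2 fun h' => h (hinj h'))) hip
        exact ⟨e, fun _ => he.le⟩
    choose f hf using h1
    exact ⟨∑ ij, f ij, fun i j hij => (inv_pow_anti (Finset.single_le_sum
      (fun _ _ => Nat.zero_le _) (Finset.mem_univ (i, j)))).trans (hf (i, j) hij)⟩
  obtain ⟨r, hr⟩ : ∃ r, r = n + n * (n + e) + (n + e) + 1 := ⟨_, rfl⟩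
  have hvp : 0 < v (p : Ω) := v.pos hp0
  have hQw : Q w0 ≠ 0 := norm_ne_zero_iff.1 (by rw [hQ0]; exact one_ne_zero)
  obtain ⟨N, hN⟩ : ∃ N : (ι → ZMod (p ^ (4 * r))) → ℕ,
      ∀ s, ‖Q (lift s) - N s * Q w0‖ ≤ (p : ℝ)⁻¹ ^ (2 * r) := by
    have h1 : ∀ s : ι → ZMod (p ^ (4 * r)), ∃ m : ℕ,
        ‖Q (lift s) - m * Q w0‖ ≤ (p : ℝ)⁻¹ ^ (2 * r) := by
      intro s
      obtain ⟨m, hm⟩ := exists_nat_approx (Q (lift s) / Q w0)
        (by rw [norm_div, hQ0, div_one]; exact hQ1 _ (norm_lift s)) (2 * r)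
      refine ⟨m, ?_⟩
      rwa [show Q (lift s) - m * Q w0 = (Q (lift s) / Q w0 - m) * Q w0 by field_simp,
        norm_mul, hQ0, mul_one]
    choose N hN using h1
    exact ⟨N, hN⟩
  let f : J → Polynomial (O hv) := fun j => ∑ s : ι → ZMod (p ^ (4 * r)),
    Polynomial.C ⟨μ0.M (4 * r) (x j) (lift s), μ0.le_one _ _ _⟩ * Polynomial.X ^ N s
  have hf : ∀ j (t : O hv), (((f j).eval t : O hv) : Ω) =
      ∑ s : ι → ZMod (p ^ (4 * r)), μ0.M (4 * r) (x j) (lift s) * (t : Ω) ^ N s := by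
    intro j t
    simp [f, Polynomial.eval_finsetSum]
  obtain ⟨g, hg⟩ := exists_comp_poly hv P hP1 f
  let s : Fin n → O hv := fun i => ⟨Meas.d μ0 (μ i) H (4 * r) w0, (Meas.d_unit H (hred i) _ _).le⟩
  have hs : ∀ i, (s i : Ω) = Meas.d μ0 (μ i) H (4 * r) w0 := fun _ => rfl
  have hs1 : ∀ i, v ((s i : Ω) - 1) ≤ v (p : Ω) := fun i =>
    Meas.d_sub_le H hψ hQz (b := fun σ => c i * κ σ) (fun σ => by
      rw [norm_mul]; exact mul_le_one₀ (hc i) (norm_nonneg _) (hκ σ)) (hred i) (mum i) _ hw0 hQ0.le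
  have hg1 : ((g.eval 1 : O hv) : Ω) = MvPolynomial.eval (fun j => μ0.M 0 (x j) 0) P := by
    rw [hg]
    congr 2
    funext j
    rw [hf, μ0.add 0 (4 * r)]
    simp
  have hgs : ∀ i, v ((g.eval (s i) : O hv) : Ω) ≤ v (p : Ω) ^ (r + 1) := by
    intro i
    have hcu := Meas.c_unit H (hred i) (4 * r) 0
    have h1 := eval_sub_le hv P hP1 (y := fun j => (μ i).M 0 (x j) 0)
      (y' := fun j => Meas.c μ0 (μ i) H (4 * r) 0 * (((f j).eval (s i) : O hv) : Ω))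
      (fun j => (μ i).le_one _ _ _) (fun j => mul_le_of_le_one_left hcu.le (O_le hv _))
      (r := v (p : Ω) ^ (r + 1)) (by positivity) (fun j => by
        rw [hf]
        exact Meas.approx H hψ hQ hκ (hred i) (hc i) (mum i) hw0 N hN (x j))
    rwa [hz i, zero_sub, v.map_neg, eval_mul_homog P hP, map_mul, map_pow, hcu, one_pow, one_mul,
      ← hg] at h1
  rw [← hg1]
  by_cases hsep : ∀ i j, i ≠ j → v (p : Ω) ^ (n + e) ≤ v ((s i : Ω) - s j)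
  · refine (interp hv (pow_pos hvp _) (pow_le_one₀ hvp.le hp1.le) 1 n s g _ (by positivity) hsep
      hgs).trans (max_le ?_ ?_)
    · refine (Finset.prod_le_prod (g := fun _ => v (p : Ω)) (fun _ _ => v.nonneg _)
        fun i _ => ?_).trans (by simp)
      rw [v.map_sub]
      simpa using hs1 i
    · rw [div_le_iff₀ (by positivity), ← pow_mul, ← pow_add]
      exact vp_pow_anti H (by rw [hr, mul_comm (n + e) n]; omega)
  · push Not at hsep
    obtain ⟨i, j, hij, hlt⟩ := hsep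
    obtain ⟨n1, hn1⟩ := exists_nat_approx (c j) (hc j) (2 * r)
    obtain ⟨n2, hn2⟩ := exists_nat_approx (c i) (hc i) (2 * r)
    have hk := Meas.key H hψ hQ hκ (hred i) (hred j) (mum i) (mum j) hw0 hw0 (n1 := n1) (n2 := n2)
      (r := r) (by
        rw [show (n1 : ℚ_[p]) * c i * Q w0 - n2 * c j * Q w0 =
          ((c i - n2) * c j + -((c j - n1) * c i)) * Q w0 by ring, norm_mul, hQ0, mul_one]
        refine (IsUltrametricDist.norm_add_le_max _ _).trans (max_le ?_ ?_)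
        · rw [norm_mul]
          exact (_root_.mul_le_of_le_one_right (norm_nonneg _) (hc j)).trans hn2
        · rw [norm_neg, norm_mul]
          exact (_root_.mul_le_of_le_one_right (norm_nonneg _) (hc i)).trans hn1)
    rw [← hs, ← hs] at hk
    have h1 : v ((s i : Ω) ^ n1 - (s i : Ω) ^ n2) ≤ v (p : Ω) ^ (n + e) := by
      refine trans_le hv (hk.trans (vp_pow_anti H (by omega))) ?_
      rw [v.map_sub]
      exact pow_sub_pow_le hv (O_le hv _) (O_le hv _) hlt.le n2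
    have h2 : (p : ℝ)⁻¹ ^ e ≤ ‖(n1 : ℚ_[p]) - n2‖ := by
      by_contra h
      push Not at h
      have h3 : (p : ℝ)⁻¹ ^ (2 * r) < (p : ℝ)⁻¹ ^ e := pow_lt_pow_right_of_lt_one₀ hip0 hip (by omega)
      have h4 : c i - c j = (c i - n2) + (-(c j - n1) + -((n1 : ℚ_[p]) - n2)) := by ring
      have h5 := he i j hij
      rw [h4] at h5
      refine absurd (h5.trans (IsUltrametricDist.norm_add_le_max _ _)) (not_le.2 (max_lt
        (hn2.trans_lt h3) ((IsUltrametricDist.norm_add_le_max _ _).trans_lt (max_lt ?_ ?_))))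
      · rw [norm_neg]; exact hn1.trans_lt h3
      · rwa [norm_neg]
    have hsu : v (s i : Ω) = 1 := Meas.d_unit H (hred i) _ _
    have h3 : ∀ a b : ℕ, a ≤ b → (p : ℝ)⁻¹ ^ e ≤ ‖(b : ℚ_[p]) - a‖ →
        v ((s i : Ω) ^ b - (s i : Ω) ^ a) ≤ v (p : Ω) ^ (n + e) →
        v ((s i : Ω) - 1) ≤ v (p : Ω) ^ n := by
      intro a b hab h4 h5
      obtain ⟨m, rfl⟩ := Nat.exists_eq_add_of_le hab
      rw [show ((a + m : ℕ) : ℚ_[p]) - a = m by push_cast; ring] at h4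
      rw [show (s i : Ω) ^ (a + m) - (s i : Ω) ^ a = (s i : Ω) ^ a * ((s i : Ω) ^ m - 1) by ring,
        map_mul, map_pow, hsu, one_pow, one_mul] at h5
      have h6 := (lte hv hp2 hp0 hp1 (hs1 i) h4).trans h5
      rw [pow_add, mul_comm (v (p : Ω) ^ n)] at h6
      exact le_of_mul_le_mul_left h6 (pow_pos hvp _)
    have h4 : v ((s i : Ω) - 1) ≤ v (p : Ω) ^ n := by
      rcases le_total n1 n2 with h | h
      · exact h3 n1 n2 h (by rwa [norm_sub_rev]) (by rwa [v.map_sub])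
      · exact h3 n2 n1 h h2 h1
    have h5 := poly_lip hv g 1 (s i)
    have h6 : v (((g.eval 1 : O hv) : Ω) - ((g.eval (s i) : O hv) : Ω)) ≤ v (p : Ω) ^ n := by
      refine h5.trans ?_
      rw [v.map_sub]
      simpa using h4
    have h7 := add_le hv h6 ((hgs i).trans (vp_pow_anti H (by omega)))
    rwa [sub_add_cancel] at h7

end MTC
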