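import Pool.Agent.Lib.MP_d61fbb_ag.MT.CSys

/-! Block C of the MT project: symplectic bases adapted to an inertia element. -/

noncomputable section

namespace MTC

open Matrix

variable {p : ℕ} [Fact p.Prime] {ι : Type*} [Fintype ι] [DecidableEq ι]

/-- an idempotent matrix over a principal ideal domain factors through a free module -/
theorem exists_fac {O : Type*} [CommRing O] [IsDomain O] [IsPrincipalIdealRing O] {n : Type*}
    [Fintype n] [DecidableEq n] (e : Matrix n n O) (he : e * e = e) :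
    ∃ (r : ℕ) (A : Matrix n (Fin r) O) (B : Matrix (Fin r) n O), A * B = e ∧ B * A = 1 := by
  let f := Matrix.toLin' e
  let b := Module.finBasis O (LinearMap.range f)
  refine ⟨_, LinearMap.toMatrix b (Pi.basisFun O n) (LinearMap.range f).subtype,
    LinearMap.toMatrix (Pi.basisFun O n) b f.rangeRestrict, ?_, ?_⟩
  · rw [← LinearMap.toMatrix_comp, LinearMap.toMatrix_eq_toMatrix']
    exact LinearMap.toMatrix'_toLin' e
  · rw [← LinearMap.toMatrix_comp, ← LinearMap.toMatrix_id b]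
    congr 1
    ext ⟨_, y, rfl⟩ : 2
    change f (f y) = f y
    rw [← LinearMap.comp_apply, ← Matrix.toLin'_mul, he]

/-- An integral matrix `R` with `(R - 1) (R - χ) = 0` and multiplier `χ`, where `χ - 1` is a unit,
is diagonal in an integral symplectic basis. -/
theorem exists_adapted (R : Matrix (ι ⊕ ι) (ι ⊕ ι) ℤ_[p]) (χ : ℤ_[p]) (hχ : IsUnit (χ - 1))
    (hχ0 : χ ≠ 0) (hq : (R - 1) * (R - χ • 1) = 0)
    (hs : Rᵀ * fromBlocks 0 1 (-1) 0 * R = χ • fromBlocks 0 1 (-1) 0) :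
    ∃ g : Matrix (ι ⊕ ι) (ι ⊕ ι) ℤ_[p],
      gᵀ * fromBlocks 0 1 (-1) 0 * g = fromBlocks 0 1 (-1) 0 ∧
      R * g = g * fromBlocks 1 0 0 (χ • 1) := by
  set J : Matrix (ι ⊕ ι) (ι ⊕ ι) ℤ_[p] := fromBlocks 0 1 (-1) 0 with hJ
  have hJJ : J * J = -1 := by
    rw [hJ, fromBlocks_multiply, ← fromBlocks_one, fromBlocks_neg]
    simp
  have hJT : Jᵀ = -J := by
    rw [hJ, fromBlocks_transpose, fromBlocks_neg]
    simp
  obtain ⟨u, hu⟩ := hχ.exists_left_inv
  have hχ1 : χ - 1 ≠ 0 := hχ.ne_zero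
  obtain ⟨e, he⟩ : ∃ e, e = u • (χ • (1 : Matrix (ι ⊕ ι) (ι ⊕ ι) ℤ_[p]) - R) := ⟨_, rfl⟩
  have hRR : R * R = (χ + 1) • R - χ • 1 := by
    rw [sub_mul, mul_sub, one_mul, mul_smul_comm, mul_one] at hq
    rw [add_smul, one_smul]
    linear_combination (norm := abel1) hq
  have hRe : R * e = e := by
    rw [he, mul_smul_comm, mul_sub, mul_smul_comm, mul_one, hRR]
    congr 1
    rw [add_smul, one_smul]
    abel
  have h1e : 1 - e = u • (R - 1) := by
    rw [he, eq_comm, ← sub_eq_zero]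
    have : u • (R - 1) - (1 - u • (χ • (1 : Matrix (ι ⊕ ι) (ι ⊕ ι) ℤ_[p]) - R))
        = (u * (χ - 1) - 1) • 1 := by module
    rw [this, hu, sub_self, zero_smul]
  have hRe' : R * (1 - e) = χ • (1 - e) := by
    rw [h1e, mul_smul_comm, mul_sub, hRR, mul_one]
    module
  have hee : e * e = e := by
    have h1 : (1 - e) * e = 0 := by rw [h1e, smul_mul_assoc, sub_mul, hRe, one_mul, sub_self,
      smul_zero]
    rw [sub_mul, one_mul, sub_eq_zero] at h1
    exact h1.symm
  have i1 : eᵀ * J * e = 0 := by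
    have h1 : eᵀ * (Rᵀ * J * R) * e = eᵀ * J * e := by
      calc eᵀ * (Rᵀ * J * R) * e = (R * e)ᵀ * J * (R * e) := by
            simp only [transpose_mul, Matrix.mul_assoc]
        _ = _ := by rw [hRe]
    rw [hs, mul_smul_comm, smul_mul_assoc, ← sub_eq_zero] at h1
    have h2 : (χ - 1) • (eᵀ * J * e) = 0 := by rw [sub_smul, one_smul, h1]
    exact (smul_eq_zero.1 h2).resolve_left hχ1
  have i2 : (1 - e)ᵀ * J * (1 - e) = 0 := by
    have h1 : (1 - e)ᵀ * (Rᵀ * J * R) * (1 - e) = (χ * χ) • ((1 - e)ᵀ * J * (1 - e)) := by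
      calc (1 - e)ᵀ * (Rᵀ * J * R) * (1 - e) = (R * (1 - e))ᵀ * J * (R * (1 - e)) := by
            simp only [transpose_mul, Matrix.mul_assoc]
        _ = _ := by rw [hRe', transpose_smul, smul_mul_assoc, smul_mul_assoc, mul_smul_comm,
            smul_smul]
    rw [hs, mul_smul_comm, smul_mul_assoc, ← sub_eq_zero, ← sub_smul] at h1
    refine (smul_eq_zero.1 h1).resolve_left fun h => ?_
    have h2 : χ * (χ - 1) = 0 := by linear_combination -h
    exact mul_ne_zero hχ0 hχ1 h2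
  have hadj : eᵀ * J = J * (1 - e) := by
    rw [transpose_sub, transpose_one, sub_mul, one_mul, sub_mul, mul_sub (eᵀ * J), i1, mul_one,
      sub_zero, sub_eq_zero] at i2
    exact i2.symm
  obtain ⟨r, A₀, B₀, hAB₀, hBA₀⟩ := exists_fac e hee
  have hr : r = Fintype.card ι := by
    have h1 : e.trace = r := by rw [← hAB₀, trace_mul_comm, hBA₀]; simp
    have h2 : eᵀ = J * (1 - e) * (-J) := by
      rw [← hadj, Matrix.mul_assoc, mul_neg, hJJ, neg_neg, mul_one]
    have h3 := congrArg trace h2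
    rw [trace_transpose, trace_mul_cycle, neg_mul, hJJ, neg_neg, one_mul, trace_sub, h1,
      trace_one, Fintype.card_sum] at h3
    have h4 : ((2 * r : ℕ) : ℤ_[p]) = ((2 * Fintype.card ι : ℕ) : ℤ_[p]) := by
      push_cast at h3 ⊢
      linear_combination h3
    have := Nat.cast_injective h4
    omega
  subst hr
  let φ := Fintype.equivFin ι
  obtain ⟨A, B, hAB, hBA⟩ : ∃ (A : Matrix (ι ⊕ ι) ι ℤ_[p]) (B : Matrix ι (ι ⊕ ι) ℤ_[p]),
      A * B = e ∧ B * A = 1 := by
    refine ⟨A₀.submatrix id φ, B₀.submatrix φ id, ?_, ?_⟩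
    · rw [submatrix_mul_equiv, hAB₀, submatrix_id_id]
    · rw [← submatrix_mul _ _ _ _ _ Function.bijective_id, hBA₀, submatrix_one_equiv]
  have heA : e * A = A := by rw [← hAB, Matrix.mul_assoc, hBA, Matrix.mul_one]
  have hBe : B * e = B := by rw [← hAB, ← Matrix.mul_assoc, hBA, Matrix.one_mul]
  obtain ⟨C, hC⟩ : ∃ C, C = -J * Bᵀ := ⟨_, rfl⟩
  have hJC : J * C = Bᵀ := by
    rw [hC, ← Matrix.mul_assoc, mul_neg, hJJ, neg_neg, Matrix.one_mul]
  have heC : (1 - e) * C = C := by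
    have h1 : J * ((1 - e) * C) = J * C := by
      rw [← Matrix.mul_assoc, ← hadj, Matrix.mul_assoc, hJC, ← transpose_mul, hBe]
    have h2 := congrArg (fun X => -J * X) h1
    simpa only [← Matrix.mul_assoc, neg_mul, hJJ, neg_neg, Matrix.one_mul, one_mul] using h2
  have k1 : Aᵀ * J * A = 0 := by
    calc Aᵀ * J * A = (e * A)ᵀ * J * (e * A) := by rw [heA]
      _ = Aᵀ * (eᵀ * J * e) * A := by simp only [transpose_mul, Matrix.mul_assoc]
      _ = 0 := by rw [i1, Matrix.mul_zero, Matrix.zero_mul]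
  have k2 : Aᵀ * J * C = 1 := by
    rw [Matrix.mul_assoc, hJC, ← transpose_mul, hBA, transpose_one]
  have k3 : Cᵀ * J * A = -1 := by
    have h1 := congrArg transpose k2
    rw [transpose_mul, transpose_mul, transpose_transpose, hJT, transpose_one,
      ← Matrix.mul_assoc, Matrix.mul_neg, Matrix.neg_mul] at h1
    rw [← h1, neg_neg]
  have k4 : Cᵀ * J * C = 0 := by
    calc Cᵀ * J * C = ((1 - e) * C)ᵀ * J * ((1 - e) * C) := by rw [heC]
      _ = Cᵀ * ((1 - e)ᵀ * J * (1 - e)) * C := by simp only [transpose_mul, Matrix.mul_assoc]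
      _ = 0 := by rw [i2, Matrix.mul_zero, Matrix.zero_mul]
  refine ⟨fromCols A C, ?_, ?_⟩
  · rw [transpose_fromCols, fromRows_mul, fromRows_mul_fromCols, k1, k2, k3, k4]
  · rw [mul_fromCols, fromCols_mul_fromBlocks]
    have h1 : R * A = A := by rw [← heA, ← Matrix.mul_assoc, hRe]
    have h2 : R * C = χ • C := by rw [← heC, ← Matrix.mul_assoc, hRe', Matrix.smul_mul]
    rw [h1, h2]
    simp

end MTC
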