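import Pool.Agent.Lib.MP_d61fbb_ag.MT.A1

/-! Fourier coefficients of entire periodic functions; uniqueness of theta functions. -/

noncomputable section

namespace Pool.Agent.MT

open Matrix Complex MeasureTheory Filter Topology

variable {g : ℕ} {τ : Matrix (Fin g) (Fin g) ℂ} {f h : (Fin g → ℂ) → ℂ}

/-- entire functions with integral periods -/
structure EP (f : (Fin g → ℂ) → ℂ) : Prop where
  diff : Differentiable ℂ f
  per : ∀ z m, f (z + zc m) = f z

/-- the projection to the torus -/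
def tmk (y : Fin g → ℝ) : UnitAddTorus (Fin g) := fun i => (y i : UnitAddCircle)

/-- a section of the projection -/
def tout (x : UnitAddTorus (Fin g)) : Fin g → ℝ := fun i => (x i).out

/-- the Haar measure of the torus -/
abbrev tM (g : ℕ) : Measure (UnitAddTorus (Fin g)) := Measure.pi fun _ => AddCircle.haarAddCircle

/-- the Fourier coefficients -/
def cf (f : (Fin g → ℂ) → ℂ) (n : Fin g → ℤ) : ℂ :=
  ∫ x, ee (-(zc n ⬝ᵥ rc (tout x))) * f (rc (tout x)) ∂tM g

lemma tmk_out (x : UnitAddTorus (Fin g)) : tmk (tout x) = x :=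
  funext fun i => QuotientAddGroup.out_eq' (x i)

lemma tmk_eq {y y' : Fin g → ℝ} (e : tmk y = tmk y') : ∃ m, rc y' = rc y + zc m := by
  have : ∀ i, ∃ n : ℤ, y' i = y i + n := fun i => by
    obtain ⟨n, hn⟩ := AddSubgroup.mem_zmultiples_iff.1 (QuotientAddGroup.eq.1 (congrFun e i))
    exact ⟨n, by rw [zsmul_one] at hn; linarith⟩
  choose l hl using this
  exact ⟨l, funext fun i => by simp [rc, zc, hl]⟩

lemma cont_out {F : (Fin g → ℂ) → ℂ} (hc : Continuous F) (hp : ∀ z m, F (z + zc m) = F z) (v : Fin g → ℂ) :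
    Continuous fun p : ℂ × UnitAddTorus (Fin g) => F (rc (tout p.2) + p.1 • v) := by
  have q : IsOpenQuotientMap (tmk (g := g)) :=
    IsOpenQuotientMap.piMap fun _ => QuotientAddGroup.isOpenQuotientMap_mk
  rw [← (IsOpenQuotientMap.id.prodMap q).continuous_comp_iff]
  refine (hc.comp (f := fun p : ℂ × (Fin g → ℝ) => rc p.2 + p.1 • v) (by fun_prop)).congr fun p => ?_
  obtain ⟨m, hm⟩ := tmk_eq (tmk_out (tmk p.2)).symm
  simp only [Function.comp_apply, Prod.map_fst, Prod.map_snd, id, hm, add_right_comm _ (zc m), hp]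

lemma EP.cont (hf : EP f) : Continuous fun x => f (rc (tout x)) := by
  simpa [Function.comp_def] using (cont_out hf.diff.continuous hf.per 0).comp (Continuous.prodMk_right (0 : ℂ))

lemma EP.int (hf : EP f) : Integrable (fun x => f (rc (tout x))) (tM g) :=
  hf.cont.integrable_of_hasCompactSupport (HasCompactSupport.of_compactSpace _)

lemma EP.mul (hf : EP f) (hh : EP h) : EP fun z => f z * h z :=
  ⟨hf.1.mul hh.1, fun z m => by rw [hf.2, hh.2]⟩

lemma EP.add (hf : EP f) (hh : EP h) : EP fun z => f z + h z :=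
  ⟨hf.1.add hh.1, fun z m => by rw [hf.2, hh.2]⟩

lemma ep_const (c : ℂ) : EP fun _ : Fin g → ℂ => c := ⟨differentiable_const _, fun _ _ => rfl⟩

lemma EP.shift (hf : EP f) (u : Fin g → ℂ) : EP fun z => f (z + u) :=
  ⟨hf.1.comp (differentiable_id.add_const u), fun z m => by rw [add_right_comm, hf.2]⟩

lemma ep_ee (n : Fin g → ℤ) : EP fun z => ee (-(zc n ⬝ᵥ z)) :=
  ⟨ee_diff.comp (by simp only [dotProduct]; fun_prop), fun z m => ee_congr (-(n ⬝ᵥ m)) (by
    rw [dotProduct_add, zc_dot]; push_cast; ring)⟩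

lemma EP.mean_real (hf : EP f) (y : Fin g → ℝ) :
    ∫ x, f (rc (tout x) + rc y) ∂tM g = ∫ x, f (rc (tout x)) ∂tM g := by
  rw [← integral_add_right_eq_self (fun x => f (rc (tout x))) (tmk y)]
  refine integral_congr_ae (Eventually.of_forall fun x => ?_)
  obtain ⟨m, hm⟩ := tmk_eq (y := tout x + y) (y' := tout (x + tmk y)) (by
    rw [tmk_out]
    conv_rhs => rw [← tmk_out x]
    rfl)
  simp only [hm, hf.per]
  congr 1; funext i; simp [rc]

lemma EP.mean (hf : EP f) (u : Fin g → ℂ) :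
    ∫ x, f (rc (tout x) + u) ∂tM g = ∫ x, f (rc (tout x)) ∂tM g := by
  let v := rc fun i => (u i).im
  have hc : Continuous fun z => fderiv ℂ f z v :=
    ((Lib.MP_7906d6_an.differentiableOn_fderiv_apply isOpen_univ hf.1.differentiableOn
      v).continuousOn).comp_continuous continuous_id fun _ => trivial
  have h1 := cont_out hc (fun z m => by rw [← fderiv_comp_add_right, funext fun z => hf.2 z m]) v
  have h2 : Differentiable ℂ fun t : ℂ => ∫ x, f (rc (tout x) + t • v) ∂tM g := fun t => by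
    obtain ⟨C, hC⟩ := ((isCompact_closedBall t 1).prod isCompact_univ).exists_bound_of_continuousOn
      h1.continuousOn
    exact (hasDerivAt_integral_of_dominated_loc_of_deriv_le (μ := tM g) (bound := fun _ => C)
      (F' := fun t x => fderiv ℂ f (rc (tout x) + t • v) v) (Metric.closedBall_mem_nhds t one_pos)
      (Eventually.of_forall fun t => (hf.shift _).cont.aestronglyMeasurable) (hf.shift _).int
      (h1.comp (Continuous.prodMk_right t)).aestronglyMeasurable
      (Eventually.of_forall fun x s hs => hC (s, x) ⟨hs, trivial⟩) (integrable_const C)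
      (Eventually.of_forall fun x s _ => (hf.1 _).hasFDerivAt.comp_hasDerivAt s (by
        simpa using ((hasDerivAt_id s).smul_const v).const_add (rc (tout x))))).2.differentiableAt
  have h3 := is_const_of_deriv_eq_zero h2 (fun t => by
    have := (HasDerivAt.comp_const_add t ((0 : ℝ) : ℂ) (h2 _).hasDerivAt).comp_ofReal
    rw [ofReal_zero, add_zero] at this
    refine this.unique ((hasDerivAt_const (0 : ℝ) (∫ x, f (rc (tout x) + t • v) ∂tM g)).congr_of_eventuallyEq
      (Eventually.of_forall fun s => ?_))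
    rw [← (hf.shift _).mean_real (s • fun i => (u i).im)]
    beta_reduce
    congr 1; funext x; congr 1; funext i; simp [rc, v]; ring) I 0
  have e : u = rc (fun i => (u i).re) + I • v := by
    funext i; simp [rc, v, mul_comm I]
  rw [e, add_comm (rc _) (I • v)]
  simp only [← add_assoc, add_right_comm _ (I • v)]
  rw [(hf.shift _).mean_real, h3]
  simp

lemma EP.cf_shift (hf : EP f) (u : Fin g → ℂ) (n : Fin g → ℤ) :
    cf (fun z => f (z + u)) n = ee (zc n ⬝ᵥ u) * cf f n := by
  rw [cf, cf, ← ((ep_ee n).mul hf).mean u, ← integral_const_mul]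
  congr 1; funext x
  rw [← mul_assoc, ← ee_add, dotProduct_add]; congr 2; ring

lemma cf_mul (c : ℂ) (m n : Fin g → ℤ) :
    cf (fun z => c * ee (-(zc m ⬝ᵥ z)) * f z) n = c * cf f (n + m) := by
  rw [cf, cf, ← integral_const_mul]
  congr 1; funext x
  rw [zc_add, add_dotProduct, neg_add, ee_add]; ring

lemma EP.cf_sum {ι : Type*} (s : Finset ι) {F : ι → (Fin g → ℂ) → ℂ} (hF : ∀ i, EP (F i)) (c : ι → ℂ)
    (n : Fin g → ℤ) : cf (fun z => ∑ i ∈ s, c i * F i z) n = ∑ i ∈ s, c i * cf (F i) n := by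
  simp only [cf, ← integral_const_mul, Finset.mul_sum]
  rw [← integral_finsetSum _ fun i _ => ((ep_ee n).mul (hF i)).int.const_mul _]
  congr 1; funext x
  exact Finset.sum_congr rfl fun _ _ => by ring

lemma four_mk (k : Fin g → ℤ) (y : Fin g → ℝ) :
    UnitAddTorus.mFourier k (tmk y) = ee (zc k ⬝ᵥ rc y) := by
  simp only [UnitAddTorus.mFourier, ContinuousMap.coe_mk, tmk, fourier_coe_apply, ee, dotProduct,
    Finset.mul_sum, Complex.exp_sum]
  simp [mul_assoc]

lemma EP.eq_zero (hf : EP f) (h0 : ∀ n, cf f n = 0) (u : Fin g → ℂ) : f u = 0 := by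
  have e : ∀ n, UnitAddTorus.mFourierCoeff (fun x => f (rc (tout x) + u)) n = 0 := fun n => by
    rw [← mul_zero (ee (zc n ⬝ᵥ u)), ← h0 n, ← hf.cf_shift]
    refine integral_congr_ae (Eventually.of_forall fun x => ?_)
    simp only [← neg_dotProduct, ← zc_neg, ← four_mk, tmk_out, smul_eq_mul]
  have := UnitAddTorus.hasSum_mFourier_series_apply_of_summable (f := ⟨_, (hf.shift u).cont⟩)
    (by simp only [ContinuousMap.coe_mk, funext e]; exact summable_zero) (tmk 0)
  simp only [ContinuousMap.coe_mk, e, zero_smul] at this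
  obtain ⟨m, hm⟩ := tmk_eq (tmk_out (tmk (0 : Fin g → ℝ))).symm
  have h1 := hasSum_zero.unique this
  rw [hm, add_right_comm, hf.per, show rc (0 : Fin g → ℝ) = 0 by funext i; simp [rc], zero_add] at h1
  exact h1.symm

/-- theta functions of degree `d` -/
structure TF (τ : Matrix (Fin g) (Fin g) ℂ) (d : ℕ) (f : (Fin g → ℂ) → ℂ) : Prop extends EP f where
  qp : ∀ z m, f (z + τ *ᵥ zc m) = ee (-(d * (zc m ⬝ᵥ τ *ᵥ zc m / 2 + zc m ⬝ᵥ z))) * f z

lemma TF.cf_rec {d : ℕ} (hf : TF τ d f) (k m : Fin g → ℤ) : ee (zc k ⬝ᵥ τ *ᵥ zc m) * cf f k =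
    ee (-(d * (zc m ⬝ᵥ τ *ᵥ zc m / 2))) * cf f (k + (d : ℤ) • m) := by
  rw [← hf.toEP.cf_shift, ← cf_mul]
  congr 1; funext z
  rw [hf.qp, ← ee_add, show zc ((d : ℤ) • m) = (d : ℂ) • zc m by funext i; simp [zc],
    smul_dotProduct, smul_eq_mul]
  congr 2; ring

lemma TF.eq_zero {d : ℕ} (hd : 0 < d) (hf : TF τ d f)
    (h0 : ∀ k : Fin g → Fin d, cf f (fun i => (k i : ℕ)) = 0) (u : Fin g → ℂ) : f u = 0 := by
  refine hf.toEP.eq_zero (fun n => ?_) u
  have h1 : (0 : ℤ) < d := by exact_mod_cast hd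
  have := hf.cf_rec (fun i => n i % d) fun i => n i / d
  rw [show (fun i => n i % d) + (d : ℤ) • (fun i => n i / d) = n from
    funext fun i => Int.emod_add_mul_ediv _ _, show (fun i => n i % d) = fun i =>
      (((⟨(n i % d).toNat, by have := Int.emod_lt_of_pos (n i) h1; omega⟩ : Fin d) : ℕ) : ℤ) from
    funext fun i => (Int.toNat_of_nonneg (Int.emod_nonneg _ h1.ne')).symm, h0, mul_zero] at this
  exact (mul_eq_zero.1 this.symm).resolve_left (ee_ne _)

lemma TF.sum {d : ℕ} {ι : Type*} (s : Finset ι) {F : ι → (Fin g → ℂ) → ℂ} (hF : ∀ i, TF τ d (F i))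
    (c : ι → ℂ) : TF τ d fun z => ∑ i ∈ s, c i * F i z :=
  ⟨⟨Differentiable.fun_sum fun i _ => (hF i).diff.const_mul _, fun z m => by simp only [(hF _).per]⟩,
    fun z m => by simp only [(hF _).qp, Finset.mul_sum, mul_left_comm]⟩

/-- the space of theta functions of degree `d` has dimension at most `d ^ g` -/
theorem TF.card_le {d : ℕ} (hd : 0 < d) {ι : Type*} [Fintype ι] {F : ι → (Fin g → ℂ) → ℂ}
    (hF : ∀ i, TF τ d (F i)) (hl : LinearIndependent ℂ F) : Fintype.card ι ≤ d ^ g := by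
  have : LinearIndependent ℂ fun i (k : Fin g → Fin d) => cf (F i) fun j => (k j : ℕ) := by
    rw [Fintype.linearIndependent_iff] at hl ⊢
    refine fun c hc => hl c (funext fun u => ?_)
    simpa using (TF.sum Finset.univ hF c).eq_zero hd (fun k => by
      rw [EP.cf_sum _ fun i => (hF i).toEP]; simpa using congrFun hc k) u
  simpa using this.fintype_card_le_finrank

lemma Sieg.tf (hτ : Sieg τ) : TF τ 1 (T τ 0) :=
  ⟨⟨hτ.diff (differentiable_const _) differentiable_id, fun z m => by simp [T_int_right]⟩,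
    fun z m => by
      rw [← T_int_left 0 z m, T_shift hτ.symm, ← mul_assoc, Nat.cast_one, one_mul, ee_neg_mul, one_mul]⟩

lemma Sieg.cf_T (hτ : Sieg τ) : cf (T τ 0) 0 = 1 := by
  have e : ∀ n u z, tm τ 0 (z + u) n = ee (zc n ⬝ᵥ u) * tm τ 0 z n := fun n u z => by
    simp [tm, ee_add]; ring
  have h1 : ∀ n, EP fun z => tm τ 0 z n := fun n =>
    ⟨ee_diff.comp (by simp only [dotProduct]; fun_prop), fun z m => by rw [e, zc_dot, ee_int, one_mul]⟩
  simp only [cf, zc_zero, zero_dotProduct, neg_zero, ee_zero, one_mul, T]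
  rw [← integral_tsum_of_summable_integral_norm (fun n => (h1 n).int), tsum_eq_single 0]
  · simp [tm]
  · intro n hn
    obtain ⟨i, hi⟩ := Function.ne_iff.1 hn
    have h2 := (h1 n).mean (Pi.single i (1 / (2 * n i)))
    have : (n i : ℂ) ≠ 0 := by exact_mod_cast hi
    simp only [e, dotProduct_single, zc, show (n i : ℂ) * (1 / (2 * n i)) = 1 / 2 by field_simp,
      ee_half, integral_const_mul] at h2
    linear_combination -h2 / 2
  · refine (hτ.summable 0 0).congr fun n => ?_
    have : ∀ x, ‖tm τ 0 (rc (tout x)) n‖ = ‖tm τ 0 0 n‖ := fun x => by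
      rw [← zero_add (rc _), e, norm_mul, ← four_mk]
      simp [UnitAddTorus.mFourier]
    simp [this]

/-- uniqueness of the theta function -/
theorem TF.uniq (hτ : Sieg τ) (hf : TF τ 1 f) (z : Fin g → ℂ) : f z = cf f 0 * T τ 0 z := by
  have hF : ∀ i, TF τ 1 (![f, T τ 0] i) := Fin.forall_fin_two.2 ⟨hf, hτ.tf⟩
  have := (TF.sum Finset.univ hF ![1, -cf f 0]).eq_zero one_pos (fun k => by
    rw [EP.cf_sum _ fun i => (hF i).toEP, show (fun i => ((k i : ℕ) : ℤ)) = 0 by funext i; simp]
    simp [hτ.cf_T]) z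
  simpa [add_neg_eq_zero] using this

lemma Sieg.T_ne (hτ : Sieg τ) : ∃ z, T τ 0 z ≠ 0 := by
  by_contra! h
  simpa [cf, h] using hτ.cf_T

end Pool.Agent.MT
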