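import Pool.Agent.Lib.MP_d61fbb_ag.MT.A2
import Pool.Agent.Lib.MP_d61fbb_ag.MT.A3
import Pool.Agent.Lib.MP_0d42ed_ag.WT.A3

/-! The theta function of Mumford. -/

noncomputable section

namespace Pool.Agent.MT

open Matrix Complex Sum Filter Topology

variable {g : ℕ} {τ : Matrix (Fin g) (Fin g) ℂ}

/-- the index set of a symplectic basis -/
abbrev I2 (g : ℕ) := Fin g ⊕ Fin g

/-- the symplectic form -/
def Ef {ι : Type} [Fintype ι] {R : Type*} [CommRing R] (x y : ι ⊕ ι → R) : R :=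
  (x ∘ inl) ⬝ᵥ (y ∘ inr) - (x ∘ inr) ⬝ᵥ (y ∘ inl)

/-- the quadratic form -/
def Qf {ι : Type} [Fintype ι] {R : Type*} [CommRing R] (x : ι ⊕ ι → R) : R :=
  (x ∘ inl) ⬝ᵥ (x ∘ inr)

/-- the theta function of Mumford -/
def Th (τ : Matrix (Fin g) (Fin g) ℂ) (x : I2 g → ℂ) : ℂ :=
  ee (-(Qf x / 2)) * T τ (x ∘ inl) (x ∘ inr)

section
variable {ι : Type} [Fintype ι] {R : Type*} [CommRing R] (x y z : ι ⊕ ι → R) (c : R)

lemma Ef_add_left : Ef (x + y) z = Ef x z + Ef y z := by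
  simp only [Ef, Pi.add_comp, add_dotProduct]; ring
lemma Ef_add_right : Ef x (y + z) = Ef x y + Ef x z := by
  simp only [Ef, Pi.add_comp, dotProduct_add]; ring
lemma Ef_smul_left : Ef (c • x) y = c * Ef x y := by
  simp only [Ef, Pi.smul_comp, smul_dotProduct, smul_eq_mul]; ring
lemma Ef_smul_right : Ef x (c • y) = c * Ef x y := by
  simp only [Ef, Pi.smul_comp, dotProduct_smul, smul_eq_mul]; ring
lemma Ef_swap : Ef x y = -Ef y x := by
  simp only [Ef, dotProduct_comm (x ∘ _)]; ring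
@[simp] lemma Ef_self : Ef x x = 0 := by simp only [Ef, dotProduct_comm (x ∘ inr), sub_self]
lemma Ef_neg_left : Ef (-x) y = -Ef x y := by rw [← neg_one_smul R, Ef_smul_left, neg_one_mul]
lemma Ef_neg_right : Ef x (-y) = -Ef x y := by rw [← neg_one_smul R y, Ef_smul_right, neg_one_mul]
lemma Ef_sub_left : Ef (x - y) z = Ef x z - Ef y z := by
  rw [sub_eq_add_neg, Ef_add_left, Ef_neg_left, sub_eq_add_neg]
lemma Ef_sub_right : Ef x (y - z) = Ef x y - Ef x z := by
  rw [sub_eq_add_neg, Ef_add_right, Ef_neg_right, sub_eq_add_neg]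
@[simp] lemma Ef_zero_left : Ef 0 x = 0 := by simp [Ef]
@[simp] lemma Ef_zero_right : Ef x 0 = 0 := by simp [Ef]
lemma Ef_map {S F : Type*} [CommRing S] [FunLike F R S] [RingHomClass F R S] (φ : F) :
    φ (Ef x y) = Ef (fun i => φ (x i)) fun i => φ (y i) := by simp [Ef, dotProduct]
lemma Qf_map {S F : Type*} [CommRing S] [FunLike F R S] [RingHomClass F R S] (φ : F) :
    φ (Qf x) = Qf fun i => φ (x i) := by simp [Qf, dotProduct]
lemma Qf_add : Qf (x + y) = Qf x + Qf y + Ef x y + 2 * (x ∘ inr) ⬝ᵥ (y ∘ inl) := by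
  simp only [Qf, Ef, Pi.add_comp, add_dotProduct, dotProduct_add, dotProduct_comm (y ∘ inl)]; ring
end

lemma Ef_zc {ι : Type} [Fintype ι] (m n : ι ⊕ ι → ℤ) : Ef (zc m) (zc n) = (Ef m n : ℤ) :=
  (Ef_map m n (Int.castRingHom ℂ)).symm

lemma Qf_zc {ι : Type} [Fintype ι] (m : ι ⊕ ι → ℤ) : Qf (zc m) = (Qf m : ℤ) := (Qf_map m (Int.castRingHom ℂ)).symm

lemma Th_int (x : I2 g → ℂ) (m : I2 g → ℤ) :
    Th τ (x + zc m) = ee (Qf (zc m) / 2) * ee (Ef x (zc m) / 2) * Th τ x := by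
  rw [Th, Th, Pi.add_comp, Pi.add_comp, show zc m ∘ inl = zc (m ∘ inl) from rfl,
    show zc m ∘ inr = zc (m ∘ inr) from rfl, T_int_left, T_int_right, ← mul_assoc, ← mul_assoc,
    ← ee_add, ← ee_add, ← ee_add]
  congr 1
  refine ee_congr (-Qf m) ?_
  rw [Qf_add, Int.cast_neg, ← Qf_zc, Ef, show zc (m ∘ inr) = zc m ∘ inr from rfl]
  ring

lemma Th_neg (x : I2 g → ℂ) : Th τ (-x) = Th τ x := by
  rw [Th, Th, Pi.neg_comp, Pi.neg_comp, T_neg]
  simp [Qf, Pi.neg_comp]

/-- the relation of Riemann -/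
theorem Sieg.riemann' (h : Sieg τ) (a b c d : I2 g → ℂ) :
    2 ^ g * (Th τ a * Th τ b * Th τ c * Th τ d) = ∑ η, ee (2 * Qf (hv η)) * ee (Ef (hv η) a) *
      (Th τ ((1 / 2 : ℂ) • (a + b + c + d) + hv η) * Th τ ((1 / 2 : ℂ) • (a + b - c - d) + hv η) *
      Th τ ((1 / 2 : ℂ) • (a - b + c - d) + hv η) * Th τ ((1 / 2 : ℂ) • (a - b - c + d) + hv η)) := by
  have k : ∀ p q r s t u v w : ℂ, ee p * t * (ee q * u) * (ee r * v) * (ee s * w) =
    ee (p + q + r + s) * (t * u * v * w) := fun p q r s t u v w => by simp only [ee_add]; ring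
  simp only [Th, k]
  rw [mul_left_comm, h.riemann, ← Fintype.sum_prod_type', Finset.mul_sum,
    ← (Equiv.sumArrowEquivProdArrow _ _ _).sum_comp]
  refine Finset.sum_congr rfl fun η _ => ?_
  have e1 : hv (Equiv.sumArrowEquivProdArrow _ _ _ η).1 = hv η ∘ inl := rfl
  have e2 : hv (Equiv.sumArrowEquivProdArrow _ _ _ η).2 = hv η ∘ inr := rfl
  have e3 : zc (vz (Equiv.sumArrowEquivProdArrow _ _ _ η).2) = (2 : ℂ) • (hv η ∘ inr) := by
    funext i; simp [hv, vz, zc]
  simp only [e1, e2, e3, Pi.add_comp, Pi.sub_comp, Pi.smul_comp, ← mul_assoc, ← ee_add, Qf, Ef]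
  congr 5
  simp only [add_dotProduct, dotProduct_add, sub_dotProduct, dotProduct_sub, smul_dotProduct,
    dotProduct_smul, smul_eq_mul, dotProduct_comm (hv η ∘ inr)]
  ring

theorem Sieg.diff_Th (h : Sieg τ) : Differentiable ℂ (Th τ) := by
  refine Differentiable.mul (ee_diff.comp ?_) (h.diff ?_ ?_) <;>
    simp only [Qf, dotProduct, Function.comp_def] <;> fun_prop

lemma Sieg.Th_ne (h : Sieg τ) : ∃ x, Th τ x ≠ 0 :=
  let ⟨z, hz⟩ := h.T_ne
  ⟨Sum.elim 0 z, mul_ne_zero (ee_ne _) (by simpa using hz)⟩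

/-- the translates by half periods have no common zero -/
theorem Sieg.exists_ne (h : Sieg τ) (x : I2 g → ℂ) : ∃ η, Th τ (x + hv η) ≠ 0 := by
  by_contra! h0
  obtain ⟨v, hv⟩ := h.Th_ne
  let y := (1 / 2 : ℂ) • x
  obtain ⟨t, h1, -, h2, -⟩ := WT.exists_ne_four h.diff_Th hv y y y y
  have := h.riemann' (y + t) (y + t) (y - t) (y - t)
  rw [show (1 / 2 : ℂ) • (y + t + (y + t) + (y - t) + (y - t)) = x by simp only [y]; module] at this
  simp [h0, h1, h2] at this

/-- an entire function that vanishes at the rational points is zero -/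
lemma exists_rat {ι : Type} [Fintype ι] {f : (ι → ℂ) → ℂ} (hf : Differentiable ℂ f) {v : ι → ℂ}
    (hv : f v ≠ 0) : ∃ q : ι → ℚ, f (qc q) ≠ 0 := by
  by_contra! h
  have h1 : ∀ y : ι → ℝ, f (rc y) = 0 := fun y =>
    (DenseRange.piMap (f := fun (_ : ι) (q : ℚ) => (q : ℝ)) fun _ => Rat.denseRange_cast).induction_on
      y (isClosed_eq (hf.continuous.comp (by fun_prop)) continuous_const) fun q => by
        convert h q using 2; funext i; simp [rc, qc]
  let x := rc fun i => (v i).re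
  let y := rc fun i => (v i).im
  have d : Differentiable ℂ fun t : ℂ => f (x + t • y) := hf.comp (by fun_prop)
  have e := AnalyticOnNhd.eq_of_frequently_eq (d.differentiableOn.analyticOnNhd isOpen_univ)
    (g := fun _ => 0) analyticOnNhd_const (z₀ := 0) (by
      have : Tendsto (fun s : ℝ => (s : ℂ)) (𝓝[≠] 0) (𝓝[≠] 0) :=
        tendsto_nhdsWithin_iff.2 ⟨(continuous_ofReal.tendsto' 0 0 rfl).mono_left nhdsWithin_le_nhds,
          eventually_nhdsWithin_of_forall fun s hs => by simpa using hs⟩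
      refine this.frequently (Eventually.of_forall fun s => ?_).frequently
      convert h1 (fun i => (v i).re + s * (v i).im) using 2
      funext i; simp [x, y, rc])
  refine hv ((congrArg f ?_).trans (congrFun e I))
  funext i; simp [x, y, rc, mul_comm I]

/-- generic rational points -/
theorem Sieg.generic (h : Sieg τ) {ι : Type} [Finite ι] (c : ι → I2 g → ℂ) (k : ι → ℂ)
    (hk : ∀ i, k i ≠ 0) : ∃ q : I2 g → ℚ, ∀ i, Th τ (c i + k i • qc q) ≠ 0 := by
  classical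
  have := Fintype.ofFinite ι
  obtain ⟨v, hv⟩ := h.Th_ne
  have d : ∀ i, Differentiable ℂ fun w => Th τ (c i + k i • w) := fun i =>
    h.diff_Th.comp (by fun_prop)
  obtain ⟨w, hw⟩ := (dense_iInter_of_isOpen (fun i => isOpen_ne_fun (d i).continuous continuous_const)
    fun i => WT.dense_ne_of_entire (d i) (v := (k i)⁻¹ • (v - c i)) (by simpa [hk i] using hv)).nonempty
  obtain ⟨q, hq⟩ := exists_rat (f := fun w => ∏ i, Th τ (c i + k i • w)) (v := w)
    (fun v => (HasFDerivAt.finsetProd fun i _ => (d i v).hasFDerivAt).differentiableAt)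
    (Finset.prod_ne_zero_iff.2 fun i _ => Set.mem_iInter.1 hw i)
  exact ⟨q, fun i => Finset.prod_ne_zero_iff.1 hq i (Finset.mem_univ _)⟩

end Pool.Agent.MT
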