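import Pool.Agent.Lib.MP_0d42ed_ag.WT.D2

/-! The product formula over a Galois orbit, for algebraic integers among the complex numbers. -/

namespace Pool.Agent.MT

open Finset Polynomial

/-- an equivariant map onto a transitive finite set has fibres of one size -/
theorem prod_equivariant {Γ Z W : Type*} [Group Γ] [MulAction Γ Z] [MulAction Γ W]
    (S : Finset Z) (T : Finset W) (π : Z → W) (hπ : ∀ (g : Γ) z, π (g • z) = g • π z)
    (hS : ∀ (g : Γ) z, z ∈ S → g • z ∈ S) (hmaps : ∀ z ∈ S, π z ∈ T)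
    (htr : ∀ t ∈ T, ∀ t' ∈ T, ∃ g : Γ, g • t = t') :
    ∃ c : ℕ, c * T.card = S.card ∧
      ∀ F : W → ℝ, ∏ z ∈ S, F (π z) = (∏ t ∈ T, F t) ^ c := by
  classical
  have hle : ∀ t ∈ T, ∀ t' ∈ T, (S.filter fun z => π z = t).card
      ≤ (S.filter fun z => π z = t').card := by
    intro t ht t' ht'
    obtain ⟨g, hg⟩ := htr t ht t' ht'
    refine card_le_card_of_injOn (fun z => g • z) (fun z hz => ?_) fun a _ b _ h =>
      MulAction.injective g h
    simp only [coe_filter, Set.mem_ofPred_eq] at hz ⊢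
    exact ⟨hS g z hz.1, by rw [hπ, hz.2, hg]⟩
  rcases T.eq_empty_or_nonempty with rfl | ⟨t0, ht0⟩
  · have : S = ∅ := eq_empty_of_forall_notMem fun z hz => by simpa using hmaps z hz
    subst this
    exact ⟨0, by simp, fun F => by simp⟩
  have hc : ∀ t ∈ T, (S.filter fun z => π z = t).card = (S.filter fun z => π z = t0).card :=
    fun t ht => le_antisymm (hle t ht t0 ht0) (hle t0 ht0 t ht)
  refine ⟨(S.filter fun z => π z = t0).card, ?_, fun F => ?_⟩
  · rw [card_eq_sum_card_fiberwise (f := π) (t := T) fun z hz => hmaps z hz,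
      sum_congr rfl hc, sum_const, smul_eq_mul, mul_comm]
  · rw [← prod_fiberwise_of_maps_to' hmaps, ← prod_pow]
    exact prod_congr rfl fun t ht => by rw [prod_const, hc t ht]

/-- every complex root of the minimal polynomial is a conjugate under an automorphism -/
theorem exists_aut_of_root {y r : ℂ} (hy : IsIntegral ℚ y) (hr : aeval r (minpoly ℚ y) = 0) :
    ∃ σ : ℂ ≃+* ℂ, σ y = r := by
  have hmin : minpoly ℚ r = minpoly ℚ y :=
    (minpoly.eq_of_irreducible_of_monic (minpoly.irreducible hy) hr (minpoly.monic hy)).symm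
  have : Countable ℚ[X] := Cardinal.mk_le_aleph0_iff.1
    (Polynomial.cardinalMk_le_max.trans (max_le Cardinal.mk_le_aleph0 le_rfl))
  obtain ⟨σ, hσ⟩ := WT.exists_aut (R := ℚ[X]) (aeval y : ℚ[X] →ₐ[ℚ] ℂ).toRingHom
    (aeval r : ℚ[X] →ₐ[ℚ] ℂ).toRingHom fun p => by
      change aeval y p = 0 ↔ aeval r p = 0
      rw [← minpoly.dvd_iff, ← minpoly.dvd_iff, hmin]
  exact ⟨σ, by simpa using hσ X⟩

theorem aeval_aut (σ : ℂ ≃+* ℂ) (y : ℂ) (p : ℚ[X]) : aeval (σ y) p = σ (aeval y p) :=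
  aeval_algHom_apply (σ.toRingHom.toRatAlgHom) y p

theorem isIntegral_aut (σ : ℂ ≃+* ℂ) {y : ℂ} (hy : IsIntegral ℤ y) : IsIntegral ℤ (σ y) :=
  hy.map σ.toRingHom.toIntAlgHom

/-- the set of conjugates of an algebraic number -/
noncomputable def conjs (y : ℂ) : Finset ℂ := by
  classical exact ((minpoly ℚ y).aroots ℂ).toFinset

theorem mem_conjs {y r : ℂ} (hy : IsIntegral ℚ y) : r ∈ conjs y ↔ ∃ σ : ℂ ≃+* ℂ, σ y = r := by
  classical
  rw [conjs, Multiset.mem_toFinset, mem_aroots]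
  constructor
  · exact fun h => exists_aut_of_root hy h.2
  · rintro ⟨σ, rfl⟩
    exact ⟨minpoly.ne_zero hy, by rw [aeval_aut, minpoly.aeval, map_zero]⟩

/-- the norm of a nonzero algebraic integer is a nonzero integer -/
theorem prod_conjs {y : ℂ} (hy : IsIntegral ℤ y) (hy0 : y ≠ 0) :
    ∃ n : ℤ, n ≠ 0 ∧ ∏ r ∈ conjs y, r = n := by
  classical
  have hq : IsIntegral ℚ y := hy.tower_top
  have hsep : ((minpoly ℚ y).map (algebraMap ℚ ℂ)).Separable :=
    (minpoly.irreducible hq).separable.map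
  have h1 : ∏ r ∈ conjs y, r = ((minpoly ℚ y).aroots ℂ).prod := by
    rw [conjs, Finset.prod, Multiset.toFinset_val, Multiset.dedup_eq_self.2 (nodup_roots hsep),
      Multiset.map_id']
  have h2 := (IsAlgClosed.splits ((minpoly ℚ y).map (algebraMap ℚ ℂ))).coeff_zero_eq_prod_roots_of_monic
    ((minpoly.monic hq).map _)
  rw [coeff_map, minpoly.isIntegrallyClosed_eq_field_fractions' ℚ hy, coeff_map,
    ← minpoly.isIntegrallyClosed_eq_field_fractions' ℚ hy] at h2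
  set d := ((minpoly ℚ y).map (algebraMap ℚ ℂ)).natDegree
  have h3 : ∏ r ∈ conjs y, r = (((-1) ^ d * (minpoly ℤ y).coeff 0 : ℤ) : ℂ) := by
    rw [h1]
    push_cast
    have h4 : ((minpoly ℤ y).coeff 0 : ℂ) = (-1) ^ d * ((minpoly ℚ y).aroots ℂ).prod := by
      simpa using h2
    rw [h4, ← mul_assoc, ← mul_pow]
    simp
  refine ⟨_, fun h0 => ?_, h3⟩
  rw [h0, Int.cast_zero, prod_eq_zero_iff] at h3
  obtain ⟨r, hr, hr0⟩ := h3
  obtain ⟨σ, hσ⟩ := (mem_conjs hq).1 hr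
  exact hy0 (σ.injective (by rw [hσ, hr0, map_zero]))

/-- the conjugates split into at most `[K : ℚ]` orbits over `K` -/
theorem card_conjs_le (K : Subfield ℂ) [Module.Finite ℚ K] {y : ℂ} (hy : IsIntegral ℚ y)
    (Y : Finset ℂ) (hY : ∀ σ : ℂ ≃+* ℂ, (∀ c ∈ K, σ c = c) → σ y ∈ Y) :
    (conjs y).card ≤ Module.finrank ℚ K * Y.card := by
  classical
  have : NumberField K := {}
  let res : (ℂ ≃+* ℂ) → (K →+* ℂ) := fun σ => σ.toRingHom.comp K.subtype
  choose! s hs using fun r (hr : r ∈ conjs y) => (mem_conjs hy).1 hr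
  have ht : ∀ φ : K →+* ℂ, ∃ τ : ℂ ≃+* ℂ, (∃ σ, res σ = φ) → res τ = φ := fun φ => by
    by_cases h : ∃ σ, res σ = φ
    · exact ⟨h.choose, fun _ => h.choose_spec⟩
    · exact ⟨RingEquiv.refl _, fun h' => absurd h' h⟩
  choose t ht using ht
  rw [← NumberField.Embeddings.card K ℂ, ← card_univ, ← card_product]
  refine card_le_card_of_injOn (fun r => (res (s r), (t (res (s r))).symm r)) (fun r hr => ?_)
    fun a _ b _ h => ?_
  · simp only [coe_product, coe_univ, Set.mem_prod, Set.mem_univ, true_and, mem_coe]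
    have h1 := hY ((s r).trans (t (res (s r))).symm) fun c hc => by
      have h2 : res (t (res (s r))) ⟨c, hc⟩ = res (s r) ⟨c, hc⟩ := by rw [ht _ ⟨s r, rfl⟩]
      rw [RingEquiv.trans_apply, RingEquiv.symm_apply_eq]
      exact h2.symm
    rwa [RingEquiv.trans_apply, hs r hr] at h1
  · simp only [Prod.mk.injEq] at h
    have h2 := h.2
    rw [← h.1] at h2
    exact (t (res (s a))).symm.injective h2

/-- a size function on the algebraic integers, of the kind given by a finite place -/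
structure FinSize (w : ℂ → ℝ) : Prop where
  nonneg : ∀ y, IsIntegral ℤ y → 0 ≤ w y
  le_one : ∀ y, IsIntegral ℤ y → w y ≤ 1
  mul_le : ∀ y z, IsIntegral ℤ y → IsIntegral ℤ z → w (y * z) ≤ w y * w z
  int : ∀ n : ℤ, n ≠ 0 → 1 ≤ |(n : ℝ)| * w n

theorem FinSize.prod_le {w : ℂ → ℝ} (hw : FinSize w) (S : Finset ℂ)
    (hS : ∀ r ∈ S, IsIntegral ℤ r) : w (∏ r ∈ S, r) ≤ ∏ r ∈ S, w r := by
  classical
  induction S using Finset.induction_on with
  | empty => simpa using hw.le_one 1 isIntegral_one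
  | insert a S ha ih =>
    rw [prod_insert ha, prod_insert ha]
    have h1 := hS a (mem_insert_self _ _)
    have h2 : ∀ r ∈ S, IsIntegral ℤ r := fun r hr => hS r (mem_insert_of_mem hr)
    exact (hw.mul_le _ _ h1 (IsIntegral.prod _ h2)).trans
      (mul_le_mul_of_nonneg_left (ih h2) (hw.nonneg _ h1))

/-- the product formula with the conjugates over `K` singled out -/
theorem norm_ineq_conj (K : Subfield ℂ) [Module.Finite ℚ K] {w : ℂ → ℝ} (hw : FinSize w)
    {y : ℂ} (hy : IsIntegral ℤ y) (hy0 : y ≠ 0) {M : ℝ} (hM1 : 1 ≤ M)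
    (hM : ∀ σ : ℂ ≃+* ℂ, ‖σ y‖ ≤ M) (Y : Finset ℂ) (hYc : Y ⊆ conjs y)
    (hY : ∀ σ : ℂ ≃+* ℂ, (∀ c ∈ K, σ c = c) → σ y ∈ Y) :
    1 ≤ M ^ (Module.finrank ℚ K * Y.card) * ∏ r ∈ Y, w r := by
  classical
  have hq : IsIntegral ℚ y := hy.tower_top
  have hint : ∀ r ∈ conjs y, IsIntegral ℤ r := fun r hr => by
    obtain ⟨σ, rfl⟩ := (mem_conjs hq).1 hr
    exact isIntegral_aut σ hy
  obtain ⟨n, hn0, hn⟩ := prod_conjs hy hy0
  have h1 : |(n : ℝ)| ≤ M ^ (Module.finrank ℚ K * Y.card) := by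
    calc |(n : ℝ)| = ‖∏ r ∈ conjs y, r‖ := by rw [hn, Complex.norm_intCast]
      _ = ∏ r ∈ conjs y, ‖r‖ := norm_prod _ _
      _ ≤ M ^ (conjs y).card := by
        rw [← prod_const]
        refine prod_le_prod (fun r _ => norm_nonneg _) fun r hr => ?_
        obtain ⟨σ, rfl⟩ := (mem_conjs hq).1 hr
        exact hM σ
      _ ≤ _ := pow_le_pow_right₀ hM1 (card_conjs_le K hq Y hY)
  have h2 : w n ≤ ∏ r ∈ Y, w r := by
    rw [← hn]
    refine (hw.prod_le _ hint).trans ?_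
    exact prod_le_prod_of_subset_of_le_one hYc (fun r hr => hw.nonneg _ (hint r hr))
      fun r hr _ => hw.le_one _ (hint r hr)
  have h3 : 0 ≤ w n := hw.nonneg _ isIntegral_algebraMap
  exact (hw.int n hn0).trans (mul_le_mul h1 h2 h3 (by positivity))

/-- The product formula over an orbit. `Γ` acts on the complex numbers through `act`, realises
every automorphism over `K`, and acts transitively on the finite set `X`. -/
theorem norm_ineq (K : Subfield ℂ) [Module.Finite ℚ K] {Γ X : Type*} [Group Γ] [Fintype X]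
    [MulAction Γ X] (act : Γ →* (ℂ ≃+* ℂ))
    (hfull : ∀ σ : ℂ ≃+* ℂ, (∀ c ∈ K, σ c = c) → ∃ g, act g = σ)
    (x0 : X) (htr : ∀ x : X, ∃ g : Γ, g • x0 = x) {w : ℂ → ℝ} (hw : FinSize w)
    {y : ℂ} (hy : IsIntegral ℤ y) (hy0 : y ≠ 0) {M : ℝ} (hM1 : 1 ≤ M)
    (hM : ∀ σ : ℂ ≃+* ℂ, ‖σ y‖ ≤ M) (f : X → ℝ) (hf : ∀ g : Γ, w (act g y) ≤ f (g • x0)) :
    1 ≤ M ^ (Module.finrank ℚ K * Fintype.card X) * ∏ x, f x := by
  classical
  have hq : IsIntegral ℚ y := hy.tower_top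
  let _ : MulAction Γ ℂ :=
    { smul := fun g z => act g z
      one_smul := fun z => by change act 1 z = z; rw [map_one]; rfl
      mul_smul := fun g h z => by change act (g * h) z = act g (act h z); rw [map_mul]; rfl }
  have hsm : ∀ (g : Γ) (z : ℂ), g • z = act g z := fun _ _ => rfl
  let Y : Finset ℂ := (conjs y).filter fun r => ∃ g : Γ, g • y = r
  let S : Finset (X × ℂ) := (univ ×ˢ conjs y).filter fun z => ∃ g : Γ, g • (x0, y) = z
  have hmemY : ∀ r, r ∈ Y ↔ ∃ g : Γ, g • y = r := fun r => by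
    simp only [Y, mem_filter, and_iff_right_iff_imp]
    rintro ⟨g, rfl⟩
    exact (mem_conjs hq).2 ⟨act g, rfl⟩
  have hmemS : ∀ z, z ∈ S ↔ ∃ g : Γ, g • (x0, y) = z := fun z => by
    simp only [S, mem_filter, and_iff_right_iff_imp, mem_product, mem_univ, true_and]
    rintro ⟨g, rfl⟩
    exact (mem_conjs hq).2 ⟨act g, rfl⟩
  have hS : ∀ (g : Γ) z, z ∈ S → g • z ∈ S := fun g z hz => by
    obtain ⟨h, rfl⟩ := (hmemS z).1 hz
    exact (hmemS _).2 ⟨g * h, mul_smul _ _ _⟩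
  obtain ⟨c1, hc1, hp1⟩ := prod_equivariant (Γ := Γ) S (univ : Finset X) Prod.fst
    (fun _ _ => rfl) hS (fun _ _ => mem_univ _) fun t _ t' _ => by
      obtain ⟨g, rfl⟩ := htr t
      obtain ⟨h, rfl⟩ := htr t'
      exact ⟨h * g⁻¹, by rw [mul_smul, inv_smul_smul]⟩
  obtain ⟨c2, hc2, hp2⟩ := prod_equivariant (Γ := Γ) S Y Prod.snd (fun _ _ => rfl) hS
    (fun z hz => by
      obtain ⟨h, rfl⟩ := (hmemS z).1 hz
      exact (hmemY _).2 ⟨h, rfl⟩) fun t ht t' ht' => by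
      obtain ⟨g, rfl⟩ := (hmemY t).1 ht
      obtain ⟨h, rfl⟩ := (hmemY t').1 ht'
      exact ⟨h * g⁻¹, by rw [mul_smul, inv_smul_smul]⟩
  have hSpos : 0 < S.card := card_pos.2 ⟨(x0, y), (hmemS _).2 ⟨1, one_smul _ _⟩⟩
  have hc10 : c1 ≠ 0 := by rintro rfl; omega
  have hw0 : ∀ g : Γ, 0 ≤ w (act g y) := fun g => hw.nonneg _ (isIntegral_aut _ hy)
  have hf0 : ∀ x, 0 ≤ f x := fun x => by
    obtain ⟨g, rfl⟩ := htr x
    exact (hw0 g).trans (hf g)
  have h1 := norm_ineq_conj K hw hy hy0 hM1 hM Y (filter_subset _ _) fun σ hσ => by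
    obtain ⟨g, rfl⟩ := hfull σ hσ
    exact (hmemY _).2 ⟨g, rfl⟩
  have h2 : ∏ z ∈ S, w z.2 ≤ ∏ z ∈ S, f z.1 := by
    refine prod_le_prod (fun z hz => ?_) fun z hz => ?_
    · obtain ⟨g, rfl⟩ := (hmemS z).1 hz
      exact hw0 g
    · obtain ⟨g, rfl⟩ := (hmemS z).1 hz
      exact hf g
  rw [hp1, hp2] at h2
  have h3 : (1 : ℝ) ≤ (M ^ (Module.finrank ℚ K * Fintype.card X) * ∏ x, f x) ^ c1 := by
    calc (1 : ℝ) ≤ (M ^ (Module.finrank ℚ K * Y.card) * ∏ r ∈ Y, w r) ^ c2 := one_le_pow₀ h1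
      _ = (M ^ (Module.finrank ℚ K * Fintype.card X)) ^ c1 * (∏ r ∈ Y, w r) ^ c2 := by
        rw [mul_pow, ← pow_mul, ← pow_mul]
        congr 2
        rw [card_univ] at hc1
        rw [mul_assoc, mul_assoc, mul_comm Y.card, hc2, mul_comm _ c1, hc1]
      _ ≤ _ := by
        rw [mul_pow]
        exact mul_le_mul_of_nonneg_left h2 (by positivity)
  exact (one_le_pow_iff_of_nonneg (mul_nonneg (by positivity)
    (prod_nonneg fun x _ => hf0 x)) hc10).1 h3

/-- additive form: the total order of vanishing over the orbit is bounded by the house -/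
theorem sum_order_le (K : Subfield ℂ) [Module.Finite ℚ K] {Γ X : Type*} [Group Γ] [Fintype X]
    [MulAction Γ X] (act : Γ →* (ℂ ≃+* ℂ))
    (hfull : ∀ σ : ℂ ≃+* ℂ, (∀ c ∈ K, σ c = c) → ∃ g, act g = σ)
    (x0 : X) (htr : ∀ x : X, ∃ g : Γ, g • x0 = x) {w : ℂ → ℝ} (hw : FinSize w)
    {y : ℂ} (hy : IsIntegral ℤ y) (hy0 : y ≠ 0) {M : ℝ} (hM1 : 1 ≤ M)
    (hM : ∀ σ : ℂ ≃+* ℂ, ‖σ y‖ ≤ M) (k : X → ℝ)
    (hk : ∀ g : Γ, w (act g y) ≤ Real.exp (-k (g • x0))) :
    ∑ x, k x ≤ Module.finrank ℚ K * Fintype.card X * Real.log M := by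
  have h := norm_ineq K act hfull x0 htr hw hy hy0 hM1 hM (fun x => Real.exp (-k x)) hk
  rw [← Real.exp_sum, sum_neg_distrib] at h
  have h2 := Real.log_le_log one_pos h
  rw [Real.log_one, Real.log_mul (by positivity) (by positivity), Real.log_pow, Real.log_exp] at h2
  push_cast at h2
  linarith

end Pool.Agent.MT
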