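import Pool.Agent.Lib.MP_d61fbb_ag.MT.EDefs

/-! Block E: upper bounds for sets of ideals, and ideals of squarefree norm. -/

open NumberField Ideal

namespace Pool.Agent.MT

variable (E : Type) [Field E] [NumberField E]

theorem idl_norm_ne {I : Ideal (𝓞 E)} (h : I ≠ 0) : absNorm I ≠ 0 :=
  fun e => h (absNorm_eq_zero_iff.1 e)

theorem idl_exists_prime {l : ℕ} (hl : l.Prime) {I : Ideal (𝓞 E)} (h : l ∣ absNorm I) :
    ∃ P : Ideal (𝓞 E), P.IsMaximal ∧ (l : 𝓞 E) ∈ P ∧ P ∣ I := by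
  obtain ⟨P, h1, h2, h3⟩ := exists_isMaximal_dvd_of_dvd_absNorm' hl I h
  refine ⟨P, h1, ?_, h3⟩
  have : (l : ℤ) ∈ P.under ℤ := h2 ▸ mem_span_singleton_self _
  simpa [under_def, mem_comap] using this

theorem idl_norm_pow {l : ℕ} (hl : l.Prime) {P : Ideal (𝓞 E)} (hP : P ≠ ⊤) (h : (l : 𝓞 E) ∈ P) :
    ∃ k, 1 ≤ k ∧ absNorm P = l ^ k := by
  have h1 := absNorm_dvd_absNorm_of_le ((span_singleton_le_iff_mem P).2 h)
  rw [absNorm_span_natCast, Nat.dvd_prime_pow hl] at h1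
  obtain ⟨k, -, hk⟩ := h1
  refine ⟨k, Nat.one_le_iff_ne_zero.2 fun e => hP ?_, hk⟩
  rw [e, pow_zero] at hk
  exact absNorm_eq_one_iff.1 hk

theorem idl_dvd_norm {l : ℕ} (hl : l.Prime) {P : Ideal (𝓞 E)} (hP : P ≠ ⊤) (h : (l : 𝓞 E) ∈ P) :
    l ∣ absNorm P := by
  obtain ⟨k, h1, h2⟩ := idl_norm_pow E hl hP h
  rw [h2]; exact dvd_pow_self l (by omega)

theorem idl_norm_eq {l : ℕ} (hl : l.Prime) {P I : Ideal (𝓞 E)} (hP : P ≠ ⊤) (h : (l : 𝓞 E) ∈ P)
    (hI : P ∣ I) (h2 : ¬ l ^ 2 ∣ absNorm I) : absNorm P = l := by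
  obtain ⟨k, h1, hk⟩ := idl_norm_pow E hl hP h
  have : ¬ 2 ≤ k := fun e => h2 ((pow_dvd_pow l e).trans (hk ▸ map_dvd absNorm hI))
  rw [hk, show k = 1 by omega, pow_one]

theorem idl_not_sq {l n : ℕ} (hl : l.Prime) (h : Squarefree n) : ¬ l ^ 2 ∣ n := fun e =>
  hl.not_isUnit (h l (by rwa [← sq]))

theorem idl_primes_over {l : ℕ} (hl : l.Prime) : ∃ T : Finset (Ideal (𝓞 E)),
    T.card ≤ Module.finrank ℚ E ∧ (∀ P ∈ T, P.IsMaximal ∧ (l : 𝓞 E) ∈ P) ∧
      ∀ P : Ideal (𝓞 E), P.IsMaximal → (l : 𝓞 E) ∈ P → P ∈ T := by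
  classical
  have h0 : (span {(l : 𝓞 E)} : Ideal (𝓞 E)) ≠ 0 := by
    simpa [span_singleton_eq_bot] using hl.ne_zero
  have hfin : {P : Ideal (𝓞 E) | P.IsMaximal ∧ (l : 𝓞 E) ∈ P}.Finite :=
    (finite_setOfPred_absNorm_le (absNorm (span {(l : 𝓞 E)}))).subset fun P hP =>
      Nat.le_of_dvd (Nat.pos_of_ne_zero (idl_norm_ne E h0))
        (absNorm_dvd_absNorm_of_le ((span_singleton_le_iff_mem P).2 hP.2))
  have hT : ∀ P ∈ hfin.toFinset, P.IsMaximal ∧ (l : 𝓞 E) ∈ P := fun P hP => by simpa using hP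
  refine ⟨hfin.toFinset, ?_, hT, fun P h1 h2 => by simpa using ⟨h1, h2⟩⟩
  have h1 : ∏ P ∈ hfin.toFinset, P ∣ span {(l : 𝓞 E)} := by
    refine Finset.prod_dvd_of_coprime (fun P hP Q hQ hne => ?_) fun P hP =>
      dvd_span_singleton.2 (hT P hP).2
    exact isCoprime_iff_sup_eq.2 ((hT P hP).1.coprime_of_ne (hT Q hQ).1 hne)
  have h2 := map_dvd absNorm h1
  rw [map_prod, absNorm_span_natCast, RingOfIntegers.rank] at h2
  have h3 : l ^ hfin.toFinset.card ∣ ∏ P ∈ hfin.toFinset, absNorm P := by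
    rw [← Finset.prod_const]
    exact Finset.prod_dvd_prod_of_dvd _ _ fun P hP =>
      idl_dvd_norm E hl (hT P hP).1.ne_top (hT P hP).2
  exact (Nat.pow_dvd_pow_iff_le_right hl.one_lt).1 (h3.trans h2)

theorem card_ideals_le : ∃ C : ℝ, 0 ≤ C ∧ ∀ (Y : ℝ) (S : Finset (Ideal (𝓞 E))), 0 ≤ Y →
    (∀ I ∈ S, I ≠ 0 ∧ (absNorm I : ℝ) ≤ Y) → (S.card : ℝ) ≤ C * Y := by
  have h := NumberField.Ideal.tendsto_norm_le_div_atTop E
  obtain ⟨Y₁, hY₁⟩ := Filter.eventually_atTop.1 (h.eventually (gt_mem_nhds (lt_add_one _)))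
  set L := (2 ^ InfinitePlace.nrRealPlaces E * (2 * Real.pi) ^ InfinitePlace.nrComplexPlaces E *
    Units.regulator E * classNumber E) / (Units.torsionOrder E * Real.sqrt |discr E|) + 1
  have key : ∀ (Y : ℝ) (S : Finset (Ideal (𝓞 E))), max Y₁ 1 ≤ Y →
      (∀ I ∈ S, (absNorm I : ℝ) ≤ Y) → (S.card : ℝ) ≤ L * Y := by
    intro Y S hY hS
    have Y0 : 0 < Y := lt_of_lt_of_le one_pos ((le_max_right _ _).trans hY)
    have h1 := hY₁ Y ((le_max_left _ _).trans hY)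
    rw [div_lt_iff₀ Y0] at h1
    refine le_trans ?_ h1.le
    have : Finite {I : Ideal (𝓞 E) // (absNorm I : ℝ) ≤ Y} :=
      (finite_setOfPred_absNorm_le ⌊Y⌋₊).subset fun I hI => Nat.le_floor hI
    rw [← Nat.card_eq_finsetCard]
    exact_mod_cast Nat.card_le_card_of_injective
      (fun I : S => (⟨I.1, hS I.1 I.2⟩ : {I : Ideal (𝓞 E) // (absNorm I : ℝ) ≤ Y}))
      fun I J e => Subtype.ext (Subtype.mk.inj e)
  have M1 : (1 : ℝ) ≤ max Y₁ 1 := le_max_right _ _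
  have L0 : 0 ≤ L * max Y₁ 1 := le_trans (by simp) (key _ ∅ le_rfl (by simp))
  refine ⟨L * max Y₁ 1, L0, fun Y S hY hS => ?_⟩
  rcases S.eq_empty_or_nonempty with rfl | ⟨I, hI⟩
  · simpa using mul_nonneg L0 hY
  have Y1 : 1 ≤ Y := le_trans (by
    exact_mod_cast Nat.one_le_iff_ne_zero.2 (idl_norm_ne E (hS I hI).1)) (hS I hI).2
  rw [mul_assoc]
  exact key _ S (le_mul_of_one_le_right (by linarith) Y1) fun J hJ =>
    (hS J hJ).2.trans (le_mul_of_one_le_left hY M1)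

/-- ideals divisible by a member of a finite set of ideals of large norm -/
theorem idl_card_mult {C : ℝ} (hC : 0 ≤ C) (h : ∀ (Y : ℝ) (S : Finset (Ideal (𝓞 E))), 0 ≤ Y →
      (∀ I ∈ S, I ≠ 0 ∧ (absNorm I : ℝ) ≤ Y) → (S.card : ℝ) ≤ C * Y)
    (Y t : ℝ) (hY : 0 ≤ Y) (ht : 0 < t) (T S : Finset (Ideal (𝓞 E)))
    (hS : ∀ I ∈ S, I ≠ 0 ∧ (absNorm I : ℝ) ≤ Y ∧ ∃ Q ∈ T, t ≤ absNorm Q ∧ Q ∣ I) :
    (S.card : ℝ) ≤ T.card * (C * Y / t) := by
  classical
  have h1 : S ⊆ T.biUnion fun Q => S.filter fun I => t ≤ absNorm Q ∧ Q ∣ I := fun I hI => by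
    obtain ⟨-, -, Q, h1, h2⟩ := hS I hI
    exact Finset.mem_biUnion.2 ⟨Q, h1, Finset.mem_filter.2 ⟨hI, h2⟩⟩
  have h2 : ∀ Q ∈ T, ((S.filter fun I => t ≤ absNorm Q ∧ Q ∣ I).card : ℝ) ≤ C * Y / t := by
    intro Q _
    let g : Ideal (𝓞 E) → Ideal (𝓞 E) := fun I => if hd : Q ∣ I then hd.choose else 0
    have hg : ∀ I, Q ∣ I → I = Q * g I := fun I hd => by
      simp only [g, dif_pos hd]; exact hd.choose_spec
    rw [← Finset.card_image_of_injOn (f := g) fun I hI J hJ e => by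
      rw [hg I (Finset.mem_filter.1 hI).2.2, hg J (Finset.mem_filter.1 hJ).2.2, e], mul_div_assoc]
    refine h _ _ (by positivity) fun J hJ => ?_
    obtain ⟨I, hI, rfl⟩ := Finset.mem_image.1 hJ
    obtain ⟨hI1, hI2, hI3⟩ := Finset.mem_filter.1 hI
    have e := hg I hI3
    refine ⟨fun e0 => (hS I hI1).1 (by rw [e, e0, mul_zero]), ?_⟩
    rw [le_div_iff₀ ht]
    refine le_trans ?_ (hS I hI1).2.1
    conv_rhs => rw [e, map_mul]
    push_cast
    rw [mul_comm]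
    exact mul_le_mul_of_nonneg_right hI2 (Nat.cast_nonneg _)
  calc (S.card : ℝ) ≤ ∑ Q ∈ T, ((S.filter fun I => t ≤ absNorm Q ∧ Q ∣ I).card : ℝ) := by
        exact_mod_cast (Finset.card_le_card h1).trans Finset.card_biUnion_le
    _ ≤ ∑ _Q ∈ T, C * Y / t := Finset.sum_le_sum h2
    _ = _ := by rw [Finset.sum_const, nsmul_eq_mul]

theorem card_ideals_dvd : ∃ C : ℝ, 0 ≤ C ∧ ∀ (Y : ℝ) (l : ℕ) (S : Finset (Ideal (𝓞 E))), 0 ≤ Y →
    l.Prime → ((∀ I ∈ S, I ≠ 0 ∧ (absNorm I : ℝ) ≤ Y ∧ l ∣ absNorm I) → (S.card : ℝ) ≤ C * Y / l) ∧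
      ((∀ I ∈ S, I ≠ 0 ∧ (absNorm I : ℝ) ≤ Y ∧ l ^ 2 ∣ absNorm I) →
        (S.card : ℝ) ≤ C * Y / l ^ 2) := by
  classical
  obtain ⟨C, hC, h⟩ := card_ideals_le E
  set d : ℝ := (Module.finrank ℚ E : ℝ) with hd
  have d0 : 0 ≤ d := Nat.cast_nonneg _
  refine ⟨(d + d * d) * C, by positivity, fun Y l S hY hl => ?_⟩
  obtain ⟨T, hT1, hT2, hT3⟩ := idl_primes_over E hl
  have hT : (T.card : ℝ) ≤ d := by rw [hd]; exact_mod_cast hT1
  have l0 : (0 : ℝ) < l := by exact_mod_cast hl.pos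
  have hle : ∀ (P : Ideal (𝓞 E)) (k : ℕ), P ≠ 0 → k ∣ absNorm P → (k : ℝ) ≤ absNorm P :=
    fun P k h0 hk => by exact_mod_cast Nat.le_of_dvd (Nat.pos_of_ne_zero (idl_norm_ne E h0)) hk
  refine ⟨fun hS => ?_, fun hS => ?_⟩
  · refine (idl_card_mult E hC h Y l hY l0 T S fun I hI => ⟨(hS I hI).1, (hS I hI).2.1, ?_⟩).trans ?_
    · obtain ⟨P, h1, h2, h3⟩ := idl_exists_prime E hl (hS I hI).2.2
      exact ⟨P, hT3 P h1 h2, hle P l (ne_zero_of_dvd_ne_zero (hS I hI).1 h3)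
        (idl_dvd_norm E hl h1.ne_top h2), h3⟩
    · rw [mul_assoc (d + d * d), mul_div_assoc (d + d * d)]
      exact mul_le_mul_of_nonneg_right (by nlinarith) (by positivity)
  · refine (idl_card_mult E hC h Y (l ^ 2) hY (by positivity)
      (T ∪ (T ×ˢ T).image fun p => p.1 * p.2) S
      fun I hI => ⟨(hS I hI).1, (hS I hI).2.1, ?_⟩).trans ?_
    · obtain ⟨h0, -, hsq⟩ := hS I hI
      obtain ⟨P, h1, h2, h3⟩ := idl_exists_prime E hl ((dvd_pow_self l two_ne_zero).trans hsq)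
      by_cases hP : l ^ 2 ∣ absNorm P
      · exact ⟨P, Finset.mem_union_left _ (hT3 P h1 h2), by
          exact_mod_cast hle P (l ^ 2) (ne_zero_of_dvd_ne_zero h0 h3) hP, h3⟩
      · have e := idl_norm_eq E hl h1.ne_top h2 dvd_rfl hP
        obtain ⟨J, rfl⟩ := h3
        rw [map_mul, e, sq, Nat.mul_dvd_mul_iff_left hl.pos] at hsq
        obtain ⟨P', h1', h2', h3'⟩ := idl_exists_prime E hl hsq
        have hd' : P * P' ∣ P * J := mul_dvd_mul_left P h3'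
        refine ⟨P * P', Finset.mem_union_right _ (Finset.mem_image.2 ⟨(P, P'),
          Finset.mem_product.2 ⟨hT3 P h1 h2, hT3 P' h1' h2'⟩, rfl⟩), ?_, hd'⟩
        have : l ^ 2 ∣ absNorm (P * P') := by
          rw [map_mul, e, sq]
          exact mul_dvd_mul_left l (idl_dvd_norm E hl h1'.ne_top h2')
        exact_mod_cast hle _ (l ^ 2) (ne_zero_of_dvd_ne_zero h0 hd') this
    · rw [mul_assoc (d + d * d), mul_div_assoc (d + d * d)]
      refine mul_le_mul_of_nonneg_right ?_ (by positivity)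
      have h1 : (T ∪ (T ×ˢ T).image fun p => p.1 * p.2).card ≤ T.card + T.card * T.card :=
        (Finset.card_union_le _ _).trans (Nat.add_le_add_left
          (Finset.card_image_le.trans (Finset.card_product _ _).le) _)
      have h2 : ((T ∪ (T ×ˢ T).image fun p => p.1 * p.2).card : ℝ) ≤ T.card + T.card * T.card := by
        exact_mod_cast h1
      have h3 : (0 : ℝ) ≤ T.card := Nat.cast_nonneg _
      nlinarith

theorem card_ideals_eq {n : ℕ} (h : Squarefree n) (S : Finset (Ideal (𝓞 E)))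
    (hS : ∀ I ∈ S, absNorm I = n) : S.card ≤ Module.finrank ℚ E ^ n.primeFactors.card := by
  classical
  induction n using Nat.strong_induction_on generalizing S with
  | _ n ih =>
  by_cases h1 : n = 1
  · subst h1
    simp only [Nat.primeFactors_one, Finset.card_empty, pow_zero]
    exact Finset.card_le_one.2 fun I hI J hJ => by
      rw [absNorm_eq_one_iff.1 (hS I hI), absNorm_eq_one_iff.1 (hS J hJ)]
  have hl := Nat.minFac_prime h1
  obtain ⟨k, hk⟩ := Nat.minFac_dvd n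
  set l := n.minFac
  have k0 : k ≠ 0 := fun e => h.ne_zero (by rw [hk, e, mul_zero])
  have hkn : k < n := by rw [hk]; exact lt_mul_of_one_lt_left (Nat.pos_of_ne_zero k0) hl.one_lt
  have hks : Squarefree k := h.squarefree_of_dvd (Dvd.intro_left l hk.symm)
  have hlk : ¬ l ∣ k := fun e => idl_not_sq hl h (by rw [hk, sq]; exact mul_dvd_mul_left l e)
  obtain ⟨T, hT1, -, hT3⟩ := idl_primes_over E hl
  have hfin := finite_setOfPred_absNorm_eq (S := 𝓞 E) k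
  have h2 := ih k hkn hks hfin.toFinset fun I hI => by simpa using hI
  have h3 : S ⊆ (T ×ˢ hfin.toFinset).image fun p => p.1 * p.2 := fun I hI => by
    obtain ⟨P, p1, p2, J, rfl⟩ := idl_exists_prime E hl (I := I) (by rw [hS I hI, hk]; simp)
    have e := idl_norm_eq E hl p1.ne_top p2 (dvd_mul_right P J)
      (by rw [hS _ hI]; exact idl_not_sq hl h)
    have e2 := hS _ hI
    rw [map_mul, e, hk] at e2
    exact Finset.mem_image.2 ⟨(P, J), Finset.mem_product.2 ⟨hT3 P p1 p2, by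
      simpa using Nat.eq_of_mul_eq_mul_left hl.pos e2⟩, rfl⟩
  have h4 : n.primeFactors.card = k.primeFactors.card + 1 := by
    rw [hk, Nat.primeFactors_mul hl.ne_zero k0, hl.primeFactors, ← Finset.insert_eq,
      Finset.card_insert_of_notMem fun e => hlk (Nat.dvd_of_mem_primeFactors e)]
  rw [h4, pow_succ']
  exact (Finset.card_le_card h3).trans (Finset.card_image_le.trans
    ((Finset.card_product _ _).le.trans (Nat.mul_le_mul hT1 h2)))

theorem idl_coprime_rep (m : ℕ) (hm : m ≠ 0) (A : Ideal (𝓞 E)) (hA : A ≠ 0) :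
    ∃ (c : Ideal (𝓞 E)) (a : 𝓞 E), c ≠ 0 ∧ A * c = span {a} ∧ (absNorm c).Coprime m := by
  have h0 : (span {((2 * m : ℕ) : 𝓞 E)} : Ideal (𝓞 E)) ≠ 0 := by
    simpa [span_singleton_eq_bot] using hm
  obtain ⟨a, ha⟩ := IsDedekindDomain.exists_sup_span_eq
    (I := A * span {((2 * m : ℕ) : 𝓞 E)}) (J := A) mul_le_left (mul_ne_zero hA h0)
  obtain ⟨c, hc⟩ : A ∣ span {a} := dvd_iff_le.2 (ha ▸ le_sup_right)
  have h1 : span {((2 * m : ℕ) : 𝓞 E)} ⊔ c = ⊤ := by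
    rw [hc, ← Ideal.mul_sup] at ha
    exact mul_left_cancel₀ hA (ha.trans (mul_top A).symm)
  have h2 : (absNorm c).Coprime (2 * m) := by
    refine Nat.coprime_of_dvd fun l hl l1 l2 => ?_
    obtain ⟨P, p1, p2, p3⟩ := idl_exists_prime E hl l1
    refine p1.ne_top (top_le_iff.1 (h1 ▸ sup_le ?_ (dvd_iff_le.1 p3)))
    obtain ⟨k, hk⟩ := l2
    rw [span_singleton_le_iff_mem, hk, Nat.cast_mul]
    exact P.mul_mem_right _ p2
  refine ⟨c, a, fun e => ?_, hc.symm, h2.coprime_dvd_right (Dvd.intro_left 2 rfl)⟩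
  rw [e, map_zero, Nat.coprime_zero_left] at h2
  omega

/-- Bounded multipliers: finitely many ideals prime to `m` make every ideal principal. -/
theorem exists_multipliers (m : ℕ) (hm : m ≠ 0) : ∃ n : ℕ, n ≠ 0 ∧ n.Coprime m ∧
    ∀ A : Ideal (𝓞 E), A ≠ 0 → ∃ (c : Ideal (𝓞 E)) (a : 𝓞 E), A * c = span {a} ∧ absNorm c ∣ n := by
  classical
  have h : ∀ κ : ClassGroup (𝓞 E), ∃ c : (nonZeroDivisors (Ideal (𝓞 E))),
      κ * ClassGroup.mk0 c = 1 ∧ (absNorm (c : Ideal (𝓞 E))).Coprime m := by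
    intro κ
    obtain ⟨A, rfl⟩ := ClassGroup.mk0_surjective κ
    obtain ⟨c, a, h1, h2, h3⟩ := idl_coprime_rep E m hm A (nonZeroDivisors.ne_zero A.2)
    refine ⟨⟨c, mem_nonZeroDivisors_of_ne_zero h1⟩, ?_, h3⟩
    rw [← map_mul]
    exact (ClassGroup.mk0_eq_one_iff _).2 ⟨a, h2⟩
  choose c hc1 hc2 using h
  refine ⟨∏ κ, absNorm (c κ : Ideal (𝓞 E)), Finset.prod_ne_zero_iff.2 fun κ _ =>
    idl_norm_ne E (nonZeroDivisors.ne_zero (c κ).2), Nat.Coprime.prod_left fun κ _ => hc2 κ,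
    fun A hA => ?_⟩
  let A' : nonZeroDivisors (Ideal (𝓞 E)) := ⟨A, mem_nonZeroDivisors_of_ne_zero hA⟩
  have h1 := hc1 (ClassGroup.mk0 A')
  rw [← map_mul] at h1
  obtain ⟨a, ha⟩ := (ClassGroup.mk0_eq_one_iff (A' * c (ClassGroup.mk0 A')).2).1 h1
  exact ⟨c (ClassGroup.mk0 A'), a, ha, Finset.dvd_prod_of_mem
    (fun κ => absNorm (c κ : Ideal (𝓞 E))) (Finset.mem_univ _)⟩

variable {E}

theorem eidl_norm_prime {P : Ideal (𝓞 E)} (hP : Prime P) (h : Squarefree (absNorm P)) :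
    (absNorm P).Prime := by
  have hmax : P.IsMaximal := (Ideal.isPrime_of_prime hP).isMaximal hP.ne_zero
  have : Finite (𝓞 E ⧸ P) := (absNorm_ne_zero_iff P).1 h.ne_zero
  letI := Ideal.Quotient.field P
  have := Fintype.ofFinite (𝓞 E ⧸ P)
  obtain ⟨p, _, n, hp, hn⟩ := FiniteField.card' (𝓞 E ⧸ P)
  have e : absNorm P = p ^ (n : ℕ) := by
    rw [absNorm_apply, Submodule.cardQuot_apply, Nat.card_eq_fintype_card, hn]
  rw [e] at h ⊢
  rw [((Nat.squarefree_pow_iff hp.ne_one n.ne_zero).1 h).2, pow_one]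
  exact hp

/-- A divisor of a squarefree norm is the norm of a divisor. -/
theorem exists_dvd_norm {A : Ideal (𝓞 E)} (h : Squarefree (absNorm A)) {n : ℕ}
    (hn : n ∣ absNorm A) : ∃ A', A' ∣ A ∧ absNorm A' = n := by
  induction A using UniqueFactorizationMonoid.induction_on_prime generalizing n with
  | h₁ => exact (h.ne_zero (map_zero _)).elim
  | h₂ A hA =>
    rw [Ideal.isUnit_iff.1 hA, absNorm_top, Nat.dvd_one] at hn
    exact ⟨1, one_dvd _, by rw [map_one, hn]⟩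
  | h₃ A P _ hP ih =>
    rw [map_mul] at h hn
    have hp := eidl_norm_prime hP h.of_mul_left
    by_cases hd : absNorm P ∣ n
    · obtain ⟨n', rfl⟩ := hd
      obtain ⟨A', h1, h2⟩ := ih h.of_mul_right (Nat.dvd_of_mul_dvd_mul_left hp.pos hn)
      exact ⟨P * A', mul_dvd_mul_left _ h1, by rw [map_mul, h2]⟩
    · obtain ⟨A', h1, h2⟩ := ih h.of_mul_right
        (((Nat.Prime.coprime_iff_not_dvd hp).2 hd).symm.dvd_of_dvd_mul_left hn)
      exact ⟨A', h1.mul_left _, h2⟩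

theorem eidl_norm_map (cj : 𝓞 E ≃+* 𝓞 E) (A : Ideal (𝓞 E)) : absNorm (A.map cj) = absNorm A := by
  rw [absNorm_apply, absNorm_apply, Submodule.cardQuot_apply, Submodule.cardQuot_apply]
  exact (Nat.card_congr (Ideal.quotientEquiv A (A.map cj) cj rfl).toEquiv).symm

theorem eidl_not_dvd {cj : 𝓞 E ≃+* 𝓞 E} {δ : 𝓞 E} {f : ℕ} (hδ : cj δ = -δ)
    (hf : 2 * δ ∣ (f : 𝓞 E)) {A P : Ideal (𝓞 E)} (h : Squarefree (absNorm A))
    (hc : (absNorm A).Coprime f) (hP : Prime P) (h1 : P ∣ A) : ¬ P ∣ A.map cj := by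
  intro h2
  have hp := eidl_norm_prime hP (h.squarefree_of_dvd (map_dvd _ h1))
  have hPP := Ideal.isPrime_of_prime hP
  have hmax : P.IsMaximal := hPP.isMaximal hP.ne_zero
  have hQ : P.map cj.symm ∣ A := by
    rw [Ideal.dvd_iff_le] at h2 ⊢
    rw [Ideal.map_symm]
    exact Ideal.map_le_iff_le_comap.1 h2
  have hQm : (P.map cj.symm).IsMaximal := by
    rw [Ideal.map_symm]
    exact Ideal.comap_isMaximal_of_surjective cj cj.surjective
  have hPQ : P = P.map cj.symm := by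
    by_contra hne
    have h3 := map_dvd absNorm
      ((Ideal.isCoprime_of_isMaximal hne).mul_dvd h1 hQ)
    rw [map_mul, eidl_norm_map] at h3
    exact hp.ne_one (Nat.isUnit_iff.1 (h _ h3))
  rw [Ideal.map_symm] at hPQ
  have : Fact (absNorm P).Prime := ⟨hp⟩
  have h1ne : (1 : 𝓞 E ⧸ P) ≠ 0 := by
    letI := Ideal.Quotient.field P
    exact one_ne_zero
  obtain ⟨n, hn⟩ := mem_zmultiples_of_prime_card (G := 𝓞 E ⧸ P) (p := absNorm P) rfl h1ne
    (g' := Ideal.Quotient.mk P δ)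
  have h4 : δ - n ∈ P := by
    rw [← Ideal.Quotient.eq, map_intCast, ← hn]
    simp
  have h5 : cj (δ - n) ∈ P := by
    rw [hPQ] at h4
    exact h4
  rw [map_sub, hδ, map_intCast] at h5
  have h6 : 2 * δ ∈ P := by
    have := P.sub_mem h4 h5
    rwa [show δ - n - (-δ - n) = 2 * δ by ring] at this
  have h7 : (f : 𝓞 E) ∈ P := P.mem_of_dvd hf h6
  have h8 := absNorm_dvd_absNorm_of_le ((span_singleton_le_iff_mem P).2 h7)
  rw [absNorm_span_natCast] at h8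
  exact hp.ne_one (Nat.eq_one_of_dvd_coprimes hc (map_dvd _ h1) (hp.dvd_of_dvd_pow h8))

theorem eidl_coprime {cj : 𝓞 E ≃+* 𝓞 E} {δ : 𝓞 E} {f : ℕ} (hδ : cj δ = -δ)
    (hf : 2 * δ ∣ (f : 𝓞 E)) {A : Ideal (𝓞 E)} (h : Squarefree (absNorm A))
    (hc : (absNorm A).Coprime f) : IsCoprime A (A.map cj) := by
  rw [Ideal.isCoprime_iff_sup_eq]
  by_contra hne
  obtain ⟨P, hP, hle⟩ := Ideal.exists_le_maximal _ hne
  have hA : A ≠ ⊥ := fun e => h.ne_zero (by rw [e, absNorm_bot])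
  have hP0 : P ≠ ⊥ := fun e => hA (le_bot_iff.1 (e ▸ le_sup_left.trans hle))
  exact eidl_not_dvd hδ hf h hc (Ideal.prime_of_isPrime hP0 hP.isPrime)
    (Ideal.dvd_iff_le.2 (le_sup_left.trans hle)) (Ideal.dvd_iff_le.2 (le_sup_right.trans hle))

theorem eidl_cross {cj : 𝓞 E ≃+* 𝓞 E} {f : ℕ} {A B A' B' : Ideal (𝓞 E)} {a β a' β' : 𝓞 E}
    (h : Mv f A B a β) (h' : Mv f A' B' a' β') (e : ¬ Dif cj a β a' β') (hB : B ≠ 0)
    (hB' : B' ≠ 0) : A * B' * (A'.map cj * B.map cj) = A' * B * (A.map cj * B'.map cj) := by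
  rw [Dif, not_not] at e
  have z : ∀ x : 𝓞 E, x ≠ 0 → (span {x} : Ideal (𝓞 E)) ≠ 0 := fun x hx =>
    span_singleton_eq_bot.not.2 hx
  have hne : ∀ {A B : Ideal (𝓞 E)} {a β : 𝓞 E}, Mv f A B a β → B ≠ 0 → β ≠ 0 := by
    rintro A B a β h hB rfl
    have := h.2.2.2
    rw [span_singleton_eq_bot.2 rfl, ← Ideal.zero_eq_bot, zero_mul] at this
    exact mul_ne_zero (z _ h.1) hB this.symm
  have m1 := congrArg (Ideal.map cj) h.2.2.2
  have m2 := congrArg (Ideal.map cj) h'.2.2.2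
  simp only [Ideal.map_mul, Ideal.map_span, Set.image_singleton] at m1 m2
  have m3 := congrArg (fun x => span {x}) e
  simp only [← span_singleton_mul_span_singleton] at m3
  refine mul_left_cancel₀ (a := span {β} * span {cj a} * (span {a'} * span {cj β'}))
    (mul_ne_zero (mul_ne_zero (z _ (hne h hB)) (z _ (cj.map_ne_zero_iff.2 h.1)))
      (mul_ne_zero (z _ h'.1) (z _ (cj.map_ne_zero_iff.2 (hne h' hB'))))) ?_
  calc _ = (span {β} * A) * (span {a'} * B') * ((span {cj β'} * A'.map cj) *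
        (span {cj a} * B.map cj)) := by ring
    _ = (span {a} * B) * (span {β'} * A') * ((span {cj a'} * B'.map cj) *
        (span {cj β} * A.map cj)) := by rw [h.2.2.2, ← h'.2.2.2, m2, ← m1]
    _ = _ := by rw [m3]; ring

/-- Moves with the same `α / cj α`. -/
theorem eq_of_not_dif {cj : 𝓞 E ≃+* 𝓞 E} {δ : 𝓞 E} {f : ℕ} (hδ : cj δ = -δ)
    (hf : 2 * δ ∣ (f : 𝓞 E)) {A B A' B' : Ideal (𝓞 E)} {a β a' β' : 𝓞 E} (h : Mv f A B a β)
    (h' : Mv f A' B' a' β') (e : ¬ Dif cj a β a' β') (hA : A ≠ 0) (hA' : A' ≠ 0) :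
    (A = A' → Squarefree (absNorm B) → Squarefree (absNorm B') → (absNorm B).Coprime f →
      (absNorm B').Coprime f → B = B') ∧
    ∀ A₀ : Ideal (𝓞 E), Squarefree (absNorm A₀) → (absNorm A₀).Coprime f → A ∣ A₀ → A' ∣ A₀ →
      ∀ l : ℕ, l.Prime → ¬ l ∣ absNorm B → ¬ l ∣ absNorm B' → l ∣ absNorm A → l ∣ absNorm A' := by
  constructor
  · rintro rfl s s' c c'
    have k := eidl_cross h h' e (fun z => s.ne_zero (by rw [z, map_zero]))
      (fun z => s'.ne_zero (by rw [z, map_zero]))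
    have hA2 : A.map cj ≠ 0 := fun z => hA (absNorm_eq_zero_iff.1 (by
      rw [← eidl_norm_map cj, z, map_zero]))
    have k2 : B' * B.map cj = B * B'.map cj :=
      mul_left_cancel₀ (mul_ne_zero hA hA2) (by
        rw [← mul_mul_mul_comm, k, mul_mul_mul_comm])
    have d1 : B ∣ B' := (eidl_coprime hδ hf s c).dvd_of_dvd_mul_right ⟨_, k2⟩
    have d2 : B' ∣ B := (eidl_coprime hδ hf s' c').dvd_of_dvd_mul_right ⟨_, k2.symm⟩
    exact le_antisymm (Ideal.dvd_iff_le.1 d2) (Ideal.dvd_iff_le.1 d1)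
  · intro A₀ s c d d' l hl n n' hd
    have k := eidl_cross h h' e (fun z => n (by rw [z, map_zero]; exact dvd_zero _))
      (fun z => n' (by rw [z, map_zero]; exact dvd_zero _))
    obtain ⟨P, hPA, hPl⟩ := exists_dvd_norm (s.squarefree_of_dvd (map_dvd _ d)) hd
    have hP : Prime P := UniqueFactorizationMonoid.irreducible_iff_prime.1
      (irreducible_of_irreducible_absNorm (by rw [hPl]; exact hl))
    have h1 : P ∣ A' * B * (A.map cj * B'.map cj) := by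
      rw [← k, mul_assoc]
      exact hPA.mul_right _
    rcases hP.dvd_or_dvd h1 with h2 | h2 <;> rcases hP.dvd_or_dvd h2 with h3 | h3
    · exact hPl ▸ map_dvd _ h3
    · exact (n (hPl ▸ map_dvd _ h3)).elim
    · exact (eidl_not_dvd hδ hf (s.squarefree_of_dvd (map_dvd _ d))
        (c.coprime_dvd_left (map_dvd _ d)) hP hPA h3).elim
    · exact (n' (hPl ▸ eidl_norm_map cj B' ▸ map_dvd _ h3)).elim

end Pool.Agent.MT
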