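import Mathlib

/-! Block E: estimates for rational primes. -/

open Filter

namespace Pool.Agent.MT

theorem sum_log_primes_le {x : ℝ} (hx : 0 ≤ x) (T : Finset ℕ)
    (h : ∀ l ∈ T, l.Prime ∧ (l : ℝ) ≤ x) : ∑ l ∈ T, Real.log l ≤ Real.log 4 * x := by
  refine le_trans ?_ (Chebyshev.theta_le_log4_mul_x hx)
  rw [Chebyshev.theta_eq_sum_Icc]
  refine Finset.sum_le_sum_of_subset_of_nonneg (fun l hl => ?_) fun l _ _ =>
    Real.log_natCast_nonneg l
  rw [Finset.mem_filter, Finset.mem_Icc]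
  exact ⟨⟨Nat.zero_le _, Nat.le_floor (h l hl).2⟩, (h l hl).1⟩

theorem sum_inv_dyadic (K : ℕ) : ∀ T : Finset ℕ, (∀ l ∈ T, l.Prime ∧ l ≤ 2 ^ (K + 1)) →
    ∑ l ∈ T, (1 / l : ℝ) ≤ 1 / 2 + 4 * (harmonic K : ℝ) := by
  induction K with
  | zero =>
    intro T h
    have h1 : T ⊆ {2} := fun l hl => by
      have h2 := (h l hl).1.two_le
      have h3 := (h l hl).2
      rw [Finset.mem_singleton]
      omega
    refine (Finset.sum_le_sum_of_subset_of_nonneg h1 fun l _ _ => by positivity).trans ?_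
    simp
  | succ K ih =>
    intro T h
    rw [← Finset.sum_filter_add_sum_filter_not T fun l => l ≤ 2 ^ (K + 1), harmonic_succ]
    have h1 := ih (T.filter fun l => l ≤ 2 ^ (K + 1)) fun l hl =>
      ⟨(h l (Finset.mem_filter.1 hl).1).1, (Finset.mem_filter.1 hl).2⟩
    have hl2 : 0 < Real.log 2 := Real.log_pos one_lt_two
    have h2 := sum_log_primes_le (x := 2 ^ (K + 1 + 1)) (by positivity)
      (T.filter fun l => ¬ l ≤ 2 ^ (K + 1)) fun l hl =>
      ⟨(h l (Finset.mem_filter.1 hl).1).1, by exact_mod_cast (h l (Finset.mem_filter.1 hl).1).2⟩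
    have h3 : ∑ l ∈ T.filter fun l => ¬ l ≤ 2 ^ (K + 1), (1 / l : ℝ) ≤
        ∑ l ∈ T.filter fun l => ¬ l ≤ 2 ^ (K + 1),
          Real.log l * (1 / (2 ^ (K + 1) * ((K + 1) * Real.log 2))) := by
      refine Finset.sum_le_sum fun l hl => ?_
      have h4 : (2 : ℝ) ^ (K + 1) ≤ l := by
        exact_mod_cast (not_le.1 (Finset.mem_filter.1 hl).2).le
      have h5 : ((K : ℝ) + 1) * Real.log 2 ≤ Real.log l := by
        have := Real.log_le_log (by positivity) h4
        rw [Real.log_pow] at this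
        exact_mod_cast this
      rw [mul_one_div, div_le_div_iff₀ (lt_of_lt_of_le (by positivity) h4) (by positivity), one_mul,
        mul_comm (Real.log l)]
      exact mul_le_mul h4 h5 (by positivity) (by positivity)
    rw [← Finset.sum_mul] at h3
    have h6 : Real.log 4 = 2 * Real.log 2 := by
      rw [show (4 : ℝ) = 2 ^ 2 by norm_num, Real.log_pow]
      norm_num
    have h7 : Real.log 4 * 2 ^ (K + 1 + 1) * (1 / (2 ^ (K + 1) * ((K + 1) * Real.log 2)))
        = 4 * ((K : ℝ) + 1)⁻¹ := by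
      rw [h6, pow_succ 2 (K + 1)]
      field_simp
      norm_num
    have h8 := mul_le_mul_of_nonneg_right h2
      (show (0 : ℝ) ≤ 1 / (2 ^ (K + 1) * ((K + 1) * Real.log 2)) by positivity)
    push_cast
    linarith

theorem sum_inv_primes_le : ∃ C : ℝ, 0 ≤ C ∧ ∀ x : ℕ, 3 ≤ x → ∀ T : Finset ℕ,
    (∀ l ∈ T, l.Prime ∧ l ≤ x) → ∑ l ∈ T, (1 / l : ℝ) ≤ C * Real.log (Real.log x) + C := by
  refine ⟨9, by norm_num, fun x hx T h => ?_⟩
  have h1 := sum_inv_dyadic (Nat.log 2 x) T fun l hl =>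
    ⟨(h l hl).1, (h l hl).2.trans (Nat.lt_pow_succ_log_self one_lt_two x).le⟩
  have h2 := harmonic_le_one_add_log (Nat.log 2 x)
  have hx3 : (3 : ℝ) ≤ x := by exact_mod_cast hx
  have h3 : 1 ≤ Real.log x := by
    rw [Real.le_log_iff_exp_le (by linarith)]
    exact (Real.exp_one_lt_d9.le.trans (by norm_num)).trans hx3
  have h4 : (Nat.log 2 x : ℝ) ≤ 2 * Real.log x := by
    have h5 : (2 : ℝ) ^ Nat.log 2 x ≤ x := by
      exact_mod_cast Nat.pow_log_le_self 2 (show x ≠ 0 by omega)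
    have h6 := Real.log_le_log (by positivity) h5
    rw [Real.log_pow] at h6
    have h7 := Real.log_two_gt_d9
    have h8 : (0 : ℝ) ≤ Nat.log 2 x := by positivity
    nlinarith
  have h9 : (0 : ℝ) < Nat.log 2 x := by
    exact_mod_cast Nat.log_pos one_lt_two (show 2 ≤ x by omega)
  have h10 := Real.log_le_log h9 h4
  rw [Real.log_mul two_ne_zero (by linarith)] at h10
  have h11 := Real.log_two_lt_d9
  have h12 := Real.log_nonneg h3
  linarith

theorem eventually_log_pow_le (A B : ℝ) {e : ℝ} (he : 0 < e) :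
    ∀ᶠ z : ℝ in atTop, A * Real.log z + B ≤ e * z := by
  have h1 := (Real.isLittleO_log_id_atTop.const_mul_left A).bound (half_pos he)
  filter_upwards [h1, eventually_ge_atTop (2 * B / e), eventually_ge_atTop (0 : ℝ)] with z a b c
  rw [Real.norm_eq_abs, id, Real.norm_of_nonneg c] at a
  rw [div_le_iff₀ he] at b
  have := le_abs_self (A * Real.log z)
  linarith

theorem tendsto_log_nat : Tendsto (fun n : ℕ => Real.log n) atTop atTop :=
  Real.tendsto_log_atTop.comp tendsto_natCast_atTop_atTop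

theorem sieve_density (d : ℕ) : ∀ᶠ z : ℕ in atTop, ∀ T : Finset ℕ,
    (∀ l ∈ T, l.Prime ∧ 2 * d < l ∧ l ≤ z) →
    (z : ℝ) ^ (-(1 / 4 : ℝ)) ≤ ∏ l ∈ T, (1 - d / l : ℝ) := by
  obtain ⟨C, hC, h⟩ := sum_inv_primes_le
  filter_upwards [tendsto_log_nat.eventually
    (eventually_log_pow_le (2 * d * C) (2 * d * C) (show (0 : ℝ) < 1 / 4 by norm_num)),
    eventually_ge_atTop 3] with z h1 h2 T hT
  have h3 := h z h2 T fun l hl => ⟨(hT l hl).1, (hT l hl).2.2⟩
  have hz : (0 : ℝ) < z := by exact_mod_cast (show 0 < z by omega)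
  have h4 : ∏ l ∈ T, Real.exp (-(2 * d * (1 / l : ℝ))) ≤ ∏ l ∈ T, (1 - d / l : ℝ) := by
    refine Finset.prod_le_prod (fun l _ => (Real.exp_pos _).le) fun l hl => ?_
    have h5 : (2 * d : ℝ) < l := by exact_mod_cast (hT l hl).2.1
    have h6 : (0 : ℝ) < l := by exact_mod_cast (hT l hl).1.pos
    have h7 : (d / l : ℝ) ≤ 1 / 2 := by
      rw [div_le_div_iff₀ h6 two_pos]
      linarith
    have h8 : (0 : ℝ) ≤ d / l := by positivity
    have h9 : (2 * d * (1 / l) : ℝ) = 2 * (d / l) := by ring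
    rw [h9, Real.exp_neg, inv_le_iff_one_le_mul₀ (Real.exp_pos _)]
    have h10 := Real.add_one_le_exp (2 * (d / l : ℝ))
    nlinarith
  refine le_trans ?_ h4
  rw [← Real.exp_sum, Real.rpow_def_of_pos hz, Real.exp_le_exp, Finset.sum_neg_distrib,
    ← Finset.mul_sum]
  have h11 := mul_le_mul_of_nonneg_left h3 (show (0 : ℝ) ≤ 2 * d by positivity)
  linarith

theorem sum_inv_few (j : ℕ) (P S : Finset ℕ) {t : ℝ} (ht : 0 < t) (ht1 : t ≤ 1)
    (hS : ∀ n ∈ S, Squarefree n ∧ n.primeFactors.card < j ∧ n.primeFactors ⊆ P) :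
    t ^ j * ∑ n ∈ S, (1 / n : ℝ) ≤ Real.exp (t * ∑ l ∈ P, (1 / l : ℝ)) := by
  have h1 : ∏ l ∈ P, (1 + t * (1 / l : ℝ)) ≤ Real.exp (t * ∑ l ∈ P, (1 / l : ℝ)) := by
    rw [Finset.mul_sum, Real.exp_sum]
    exact Finset.prod_le_prod (fun l _ => by positivity) fun l _ => by
      rw [add_comm]
      exact Real.add_one_le_exp _
  refine le_trans ?_ h1
  rw [Finset.prod_one_add, Finset.mul_sum]
  have h2 : ∑ n ∈ S, t ^ j * (1 / n : ℝ) ≤
      ∑ n ∈ S, ∏ l ∈ n.primeFactors, (t * (1 / l : ℝ)) := by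
    refine Finset.sum_le_sum fun n hn => ?_
    rw [Finset.prod_mul_distrib, Finset.prod_const, Finset.prod_div_distrib, Finset.prod_const_one,
      ← Nat.cast_prod, Nat.prod_primeFactors_of_squarefree (hS n hn).1]
    exact mul_le_mul_of_nonneg_right (pow_le_pow_of_le_one ht.le ht1 (hS n hn).2.1.le)
      (by positivity)
  refine h2.trans ?_
  rw [← Finset.sum_image (s := S) (g := Nat.primeFactors)
    (f := fun U : Finset ℕ => ∏ l ∈ U, (t * (1 / l : ℝ))) fun a ha b hb e => by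
      rw [← Nat.prod_primeFactors_of_squarefree (hS a ha).1, e,
        Nat.prod_primeFactors_of_squarefree (hS b hb).1]]
  refine Finset.sum_le_sum_of_subset_of_nonneg (fun U hU => ?_) fun U _ _ =>
    Finset.prod_nonneg fun l _ => by positivity
  obtain ⟨n, hn, rfl⟩ := Finset.mem_image.1 hU
  exact Finset.mem_powerset.2 (hS n hn).2.2

theorem sum_log_few (j Y : ℕ) :
    ∑ n ∈ (Finset.range Y).filter fun n => Squarefree n ∧ n.primeFactors.card < j, Real.log n ≤
      Real.log 4 * Y * ∑ n ∈ (Finset.range Y).filter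
        fun n => Squarefree n ∧ n.primeFactors.card < j, (1 / n : ℝ) := by
  set S := (Finset.range Y).filter fun n => Squarefree n ∧ n.primeFactors.card < j with hS
  have hm : ∀ n, n ∈ S ↔ n < Y ∧ Squarefree n ∧ n.primeFactors.card < j := fun n => by
    rw [hS, Finset.mem_filter, Finset.mem_range]
  have h1 : ∑ n ∈ S, Real.log n = ∑ x ∈ S.sigma Nat.primeFactors, Real.log (x.2 : ℕ) := by
    rw [Finset.sum_sigma]
    refine Finset.sum_congr rfl fun n hn => ?_
    rw [← Real.log_prod fun l hl => by exact_mod_cast (Nat.prime_of_mem_primeFactors hl).ne_zero,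
      ← Nat.cast_prod, Nat.prod_primeFactors_of_squarefree ((hm n).1 hn).2.1]
  let Q : ℕ → Finset ℕ := fun m => (Finset.range Y).filter fun l => l.Prime ∧ m * l < Y
  have h2 : ∑ x ∈ S.sigma Nat.primeFactors, Real.log (x.2 : ℕ) ≤
      ∑ x ∈ S.sigma Q, Real.log (x.2 : ℕ) := by
    rw [← Finset.sum_image (s := S.sigma Nat.primeFactors)
      (g := fun x : (_ : ℕ) × ℕ => (⟨x.1 / x.2, x.2⟩ : (_ : ℕ) × ℕ))
      (f := fun x : (_ : ℕ) × ℕ => Real.log (x.2 : ℕ)) fun a ha b hb e => by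
        obtain ⟨n, l⟩ := a
        obtain ⟨n', l'⟩ := b
        simp only [Finset.coe_sigma, Set.mem_sigma_iff, Finset.mem_coe] at ha hb
        simp only [Sigma.mk.injEq, heq_eq_eq] at e ⊢
        obtain ⟨e1, rfl⟩ := e
        refine ⟨?_, rfl⟩
        rw [← Nat.div_mul_cancel (Nat.dvd_of_mem_primeFactors ha.2), e1,
          Nat.div_mul_cancel (Nat.dvd_of_mem_primeFactors hb.2)]]
    refine Finset.sum_le_sum_of_subset_of_nonneg (fun y hy => ?_) fun y _ _ =>
      Real.log_natCast_nonneg _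
    obtain ⟨⟨n, l⟩, hx, rfl⟩ := Finset.mem_image.1 hy
    rw [Finset.mem_sigma] at hx ⊢
    obtain ⟨a, b, c⟩ := (hm n).1 hx.1
    have hd := Nat.dvd_of_mem_primeFactors hx.2
    have hd' : n / l ∣ n := Nat.div_dvd_of_dvd hd
    refine ⟨(hm _).2 ⟨(Nat.div_le_self _ _).trans_lt a, b.squarefree_of_dvd hd',
      (Finset.card_le_card (Nat.primeFactors_mono hd' b.ne_zero)).trans_lt c⟩, ?_⟩
    simp only [Q, Finset.mem_filter, Finset.mem_range]
    exact ⟨(Nat.le_of_mem_primeFactors hx.2).trans_lt a, Nat.prime_of_mem_primeFactors hx.2,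
      by rw [Nat.div_mul_cancel hd]; exact a⟩
  rw [h1]
  refine h2.trans ?_
  rw [Finset.sum_sigma, Finset.mul_sum]
  refine Finset.sum_le_sum fun m hm' => ?_
  have h3 : (0 : ℝ) < m := by exact_mod_cast Nat.pos_of_ne_zero ((hm m).1 hm').2.1.ne_zero
  refine (sum_log_primes_le (x := Y / m) (by positivity) (Q m) fun l hl => ?_).trans_eq (by ring)
  simp only [Q, Finset.mem_filter] at hl
  refine ⟨hl.2.1, ?_⟩
  rw [le_div_iff₀ h3, mul_comm]
  exact_mod_cast hl.2.2.le

theorem few_primes (j : ℕ) : ∀ᶠ Y : ℕ in atTop,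
    (((Finset.range Y).filter fun n => Squarefree n ∧ n.primeFactors.card < j).card : ℝ) ≤
      Y / Real.sqrt (Real.log Y) := by
  obtain ⟨C, hC, h⟩ := sum_inv_primes_le
  have ht : (0 : ℝ) < 1 / (4 * C + 4) := by positivity
  have ht1 : (1 / (4 * C + 4) : ℝ) ≤ 1 := by
    rw [div_le_one (by positivity)]
    linarith
  have htC : 1 / (4 * C + 4) * C ≤ 1 / 4 := by
    rw [one_div_mul_eq_div, div_le_div_iff₀ (by positivity) (by positivity)]
    linarith
  generalize 1 / (4 * C + 4) = t at ht ht1 htC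
  filter_upwards [(Real.tendsto_log_atTop.comp tendsto_log_nat).eventually
    (eventually_ge_atTop (max 0 (16 * (Real.log 4 * Real.exp (1 / 4) / t ^ j)))),
    tendsto_natCast_atTop_atTop.eventually (eventually_log_pow_le 16 0 one_pos),
    eventually_ge_atTop 3] with Y h1 h2 h3
  have h4 := sum_log_few j Y
  set S := (Finset.range Y).filter fun n => Squarefree n ∧ n.primeFactors.card < j with hS
  have hm : ∀ n, n ∈ S ↔ n < Y ∧ Squarefree n ∧ n.primeFactors.card < j := fun n => by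
    rw [hS, Finset.mem_filter, Finset.mem_range]
  have h5 := sum_inv_few j ((Finset.range Y).filter Nat.Prime) S ht ht1 fun n hn =>
    ⟨((hm n).1 hn).2.1, ((hm n).1 hn).2.2, fun l hl => Finset.mem_filter.2
      ⟨Finset.mem_range.2 ((Nat.le_of_mem_primeFactors hl).trans_lt ((hm n).1 hn).1),
        Nat.prime_of_mem_primeFactors hl⟩⟩
  have h6 := h Y h3 ((Finset.range Y).filter Nat.Prime) fun l hl =>
    ⟨(Finset.mem_filter.1 hl).2, (Finset.mem_range.1 (Finset.mem_filter.1 hl).1).le⟩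
  have hY : (1 : ℝ) < Y := by exact_mod_cast (show 1 < Y by omega)
  have hL : 0 < Real.log Y := Real.log_pos hY
  rw [Function.comp_apply, max_le_iff] at h1
  obtain ⟨u, hu⟩ : ∃ u, u = Real.exp (Real.log (Real.log Y) / 4) := ⟨_, rfl⟩
  have hu0 : 0 < u := hu ▸ Real.exp_pos _
  have hu4 : u ^ 4 = Real.log Y := by
    rw [hu, ← Real.exp_nat_mul, Nat.cast_ofNat, mul_div_cancel₀ _ (by norm_num), Real.exp_log hL]
  have hu2 : Real.sqrt (Real.log Y) = u ^ 2 := by
    rw [← hu4, show u ^ 4 = (u ^ 2) ^ 2 by ring, Real.sqrt_sq (by positivity)]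
  obtain ⟨K, hK⟩ : ∃ K, K = Real.log 4 * Real.exp (1 / 4) / t ^ j := ⟨_, rfl⟩
  have hl4 : 0 < Real.log 4 := Real.log_pos (by norm_num)
  have hK0 : 0 < K := by
    rw [hK]
    positivity
  have huK : 4 * K ≤ u := by
    have := Real.add_one_le_exp (Real.log (Real.log Y) / 4)
    rw [← hu] at this
    have h7 := h1.2
    rw [← hK] at h7
    linarith
  have h8 : ∑ n ∈ S, Real.log n ≤ K * Y * u := by
    have h9 : t * ∑ l ∈ (Finset.range Y).filter Nat.Prime, (1 / l : ℝ) ≤
        1 / 4 + Real.log (Real.log Y) / 4 := by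
      have a := mul_le_mul_of_nonneg_left h6 ht.le
      have b := mul_le_mul_of_nonneg_right htC h1.1
      nlinarith
    have h10 := h5.trans (Real.exp_le_exp.2 h9)
    rw [Real.exp_add, ← hu, ← le_div_iff₀' (by positivity)] at h10
    refine h4.trans ((mul_le_mul_of_nonneg_left h10 (by positivity)).trans_eq ?_)
    rw [hK]
    ring
  have h11 : ((S.filter fun n => ¬ n ≤ Nat.sqrt Y).card : ℝ) * (u ^ 4 / 2) ≤ K * Y * u := by
    refine le_trans ?_ ((Finset.sum_le_sum_of_subset_of_nonneg (Finset.filter_subset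
      (fun n => ¬ n ≤ Nat.sqrt Y) S) fun n _ _ => Real.log_natCast_nonneg n).trans h8)
    rw [← nsmul_eq_mul]
    refine Finset.card_nsmul_le_sum _ _ _ fun n hn => ?_
    have a : (Y : ℝ) ≤ (n : ℝ) ^ 2 := by
      exact_mod_cast (Nat.sqrt_lt'.1 (not_le.1 (Finset.mem_filter.1 hn).2)).le
    have b := Real.log_le_log (by linarith) a
    rw [Real.log_pow] at b
    push_cast at b
    linarith
  have h12 : (S.filter fun n => n ≤ Nat.sqrt Y).card ≤ Nat.sqrt Y := by
    have a : (S.filter fun n => n ≤ Nat.sqrt Y) ⊆ Finset.Icc 1 (Nat.sqrt Y) := fun n hn =>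
      Finset.mem_Icc.2 ⟨Nat.pos_of_ne_zero ((hm n).1 (Finset.mem_filter.1 hn).1).2.1.ne_zero,
        (Finset.mem_filter.1 hn).2⟩
    simpa using Finset.card_le_card a
  have h13 : ((Nat.sqrt Y : ℕ) : ℝ) ^ 2 ≤ Y := by exact_mod_cast Nat.sqrt_le' Y
  have h14 : ((S.filter fun n => n ≤ Nat.sqrt Y).card : ℝ) ≤ (Nat.sqrt Y : ℕ) := by
    exact_mod_cast h12
  rw [← Finset.card_filter_add_card_filter_not (s := S) fun n => n ≤ Nat.sqrt Y, hu2,
    le_div_iff₀ (by positivity)]
  push_cast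
  have h15 : ((Nat.sqrt Y : ℕ) : ℝ) * u ^ 2 ≤ Y / 2 := by
    refine abs_le_of_sq_le_sq' ?_ (by positivity) |>.2
    have a : u ^ 4 ≤ Y / 16 := by linarith
    have b := mul_le_mul h13 a (by positivity) (by positivity)
    nlinarith
  have h16 : ((S.filter fun n => ¬ n ≤ Nat.sqrt Y).card : ℝ) * u ^ 2 ≤ Y / 2 := by
    refine le_of_mul_le_mul_right ?_ (show 0 < u ^ 2 / 2 by positivity)
    have a := mul_le_mul_of_nonneg_left huK (show (0 : ℝ) ≤ Y * u by positivity)
    nlinarith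
  have h17 := mul_le_mul_of_nonneg_right h14 (show 0 ≤ u ^ 2 by positivity)
  linarith

theorem choose_large (c : ℝ) : ∀ᶠ r : ℕ in atTop, c * (r : ℝ) ^ 12 ≤ ((r - 1).choose 13 : ℕ) := by
  obtain ⟨m, hm⟩ := exists_nat_ge (c * (2 ^ 13 * (13 : ℕ).factorial))
  filter_upwards [eventually_ge_atTop 26, eventually_ge_atTop m] with r h1 h2
  have h3 := Nat.pow_le_choose (α := ℝ) 13 (r - 1)
  have h4 : (r : ℝ) / 2 ≤ ((r - 1 + 1 - 13 : ℕ) : ℝ) := by
    have : r ≤ 2 * (r - 1 + 1 - 13) := by omega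
    rw [div_le_iff₀ two_pos, mul_comm]
    exact_mod_cast this
  have h5 := pow_le_pow_left₀ (by positivity) h4 13
  have h6 : (0 : ℝ) < (13 : ℕ).factorial := by positivity
  refine le_trans ?_ h3
  push_cast at h5 ⊢
  rw [le_div_iff₀ h6]
  refine le_trans ?_ h5
  have h7 : (m : ℝ) ≤ r := by exact_mod_cast h2
  rw [div_pow, le_div_iff₀ (by positivity), pow_succ (r : ℝ) 12]
  have h8 := mul_le_mul_of_nonneg_left (hm.trans h7) (show (0 : ℝ) ≤ (r : ℝ) ^ 12 by positivity)
  linarith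

theorem prod_succ_le_card (S : Finset ℕ) : (∀ l ∈ S, 0 < l) →
    ∏ l ∈ S, (l + 1) ≤ (S.card + 1) * ∏ l ∈ S, l := by
  induction S using Finset.induction_on_max with
  | empty => simp
  | insert a S ha ih =>
    intro h
    have hn : a ∉ S := fun h' => lt_irrefl _ (ha a h')
    have h1 := ih fun l hl => h l (Finset.mem_insert_of_mem hl)
    have h2 : S.card + 1 ≤ a := by
      have h3 : S ⊆ Finset.Ioo 0 a := fun l hl =>
        Finset.mem_Ioo.2 ⟨h l (Finset.mem_insert_of_mem hl), ha l hl⟩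
      have h4 := Finset.card_le_card h3
      have h5 := h a (Finset.mem_insert_self _ _)
      rw [Nat.card_Ioo] at h4
      omega
    rw [Finset.prod_insert hn, Finset.prod_insert hn, Finset.card_insert_of_notMem hn]
    calc (a + 1) * ∏ l ∈ S, (l + 1) ≤ (a + 1) * ((S.card + 1) * ∏ l ∈ S, l) :=
          Nat.mul_le_mul_left _ h1
      _ = ((S.card + 1) * a + (S.card + 1)) * ∏ l ∈ S, l := by ring
      _ ≤ ((S.card + 1) * a + a) * ∏ l ∈ S, l := by gcongr
      _ = _ := by ring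

theorem prod_succ_le {a : ℕ} (h : Squarefree a) :
    ∏ l ∈ a.primeFactors, (l + 1) ≤ (a.primeFactors.card + 1) * a ∧
      2 ^ a.primeFactors.card ≤ a := by
  have h1 := prod_succ_le_card a.primeFactors fun l hl => (Nat.prime_of_mem_primeFactors hl).pos
  have h2 := Finset.pow_card_le_prod a.primeFactors (fun l => l) 2 fun l hl =>
    (Nat.prime_of_mem_primeFactors hl).two_le
  rw [Nat.prod_primeFactors_of_squarefree h] at h1 h2
  exact ⟨h1, h2⟩

theorem exists_blocks {N r : ℕ} (h : Squarefree N) (h1 : 1 ≤ r) (h2 : r ≤ N.primeFactors.card) :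
    ∃ G ⊆ N.primeFactors, G.card = r - 1 ∧ N ≤ (∏ l ∈ N.primeFactors \ G, l) ^ r := by
  obtain ⟨Q, hQ, hmax⟩ := N.primeFactors.exists_max_image id (Finset.card_pos.1 (by omega))
  obtain ⟨G, hG, hc⟩ := Finset.exists_subset_card_eq (s := N.primeFactors.erase Q) (n := r - 1)
    (by rw [Finset.card_erase_of_mem hQ]; omega)
  have hG' : G ⊆ N.primeFactors := hG.trans (Finset.erase_subset _ _)
  refine ⟨G, hG', hc, ?_⟩
  have h3 : Q ≤ ∏ l ∈ N.primeFactors \ G, l :=
    Finset.single_le_prod' (f := fun l => l) (fun l hl =>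
      (Nat.prime_of_mem_primeFactors (Finset.mem_sdiff.1 hl).1).pos)
      (Finset.mem_sdiff.2 ⟨hQ, fun h' => Finset.notMem_erase _ _ (hG h')⟩)
  have h4 := Finset.prod_le_pow_card G (fun l => l) _ fun l hl => (hmax l (hG' hl)).trans h3
  obtain ⟨r, rfl⟩ : ∃ s, r = s + 1 := ⟨r - 1, by omega⟩
  rw [hc, Nat.add_sub_cancel] at h4
  calc N = (∏ l ∈ N.primeFactors \ G, l) * ∏ l ∈ G, l := by
        rw [Finset.prod_sdiff hG', Nat.prod_primeFactors_of_squarefree h]
    _ ≤ _ := by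
        rw [pow_succ']
        exact Nat.mul_le_mul_left _ h4

theorem sum_inv_sq_tail (z : ℕ) (hz : 1 ≤ z) (T : Finset ℕ) (h : ∀ l ∈ T, z < l) :
    ∑ l ∈ T, (1 / (l : ℝ) ^ 2) ≤ 1 / (z : ℝ) := by
  have h1 : T ⊆ Finset.Ioc z (max z (T.sup id)) := fun l hl =>
    Finset.mem_Ioc.2 ⟨h l hl, (Finset.le_sup (f := id) hl).trans (le_max_right _ _)⟩
  refine (Finset.sum_le_sum_of_subset_of_nonneg h1 fun l _ _ => by positivity).trans ?_
  have h2 := sum_Ioc_inv_sq_le_sub (α := ℝ) (k := z) (n := max z (T.sup id)) (by omega)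
    (le_max_left _ _)
  simp only [one_div]
  exact h2.trans (sub_le_self _ (by positivity))

end Pool.Agent.MT
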