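import Pool.Agent.Lib.MP_d61fbb_ag.MT.EIdl

/-! Block E: density of aligned points in an orbit, and moves of local lattices. -/

open NumberField Ideal

namespace Pool.Agent.MT

/-- aligned points form a proportion at least `1 / ∏ n l` of an orbit that holds one of them -/
theorem dens_abs {Γ X ι : Type*} [Group Γ] [MulAction Γ X] (O : Finset X) (x : X)
    (hO : ∀ y, y ∈ O ↔ ∃ σ : Γ, σ • x = y) {Y : ι → Type*} (π : ∀ l, X → Y l)
    (hπ : ∀ l (σ : Γ) y y', π l y = π l y' → π l (σ • y) = π l (σ • y')) (D : Finset ι)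
    (ν : ∀ l, Y l) (F : ∀ l, Finset (Y l)) (n : ι → ℕ) (hF : ∀ y ∈ O, ∀ l ∈ D, π l y ∈ F l)
    (hc : ∀ l ∈ D, (F l).card ≤ n l) (hal : ∃ σ : Γ, ∀ l ∈ D, π l (σ • x) = ν l) :
    ∃ T ⊆ O, (∀ y ∈ T, ∀ l ∈ D, π l y = ν l) ∧ O.card ≤ T.card * ∏ l ∈ D, n l := by
  classical
  obtain ⟨σ₀, h₀⟩ := hal
  refine ⟨O.filter fun y => ∀ l ∈ D, π l y = ν l, Finset.filter_subset _ _,
    fun y hy => (Finset.mem_filter.1 hy).2, ?_⟩
  refine (Finset.card_le_mul_card_image_of_maps_to (t := D.pi F) (f := fun y l _ => π l y)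
    (fun y hy => Finset.mem_pi.2 fun l hl => hF y hy l hl)
    (O.filter fun y => ∀ l ∈ D, π l y = ν l).card fun w _ => ?_).trans
    (Nat.mul_le_mul_left _ ?_)
  · rcases (O.filter fun y => (fun l (_ : l ∈ D) => π l y) = w).eq_empty_or_nonempty with
      h | ⟨y₁, hy₁⟩
    · rw [h]; exact Nat.zero_le _
    obtain ⟨h1, h2⟩ := Finset.mem_filter.1 hy₁
    obtain ⟨τ, rfl⟩ := (hO _).1 h1
    refine Finset.card_le_card_of_injOn (fun y => (σ₀ * τ⁻¹) • y) (fun y hy => ?_)
      fun a _ b _ h => MulAction.injective _ h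
    obtain ⟨h3, h4⟩ := Finset.mem_filter.1 (Finset.mem_coe.1 hy)
    obtain ⟨ρ, rfl⟩ := (hO _).1 h3
    refine Finset.mem_coe.2 (Finset.mem_filter.2 ⟨(hO _).2 ⟨σ₀ * τ⁻¹ * ρ, mul_smul _ _ _⟩,
      fun l hl => ?_⟩)
    have h5 : π l (ρ • x) = π l (τ • x) := congrFun (congrFun (h4.trans h2.symm) l) hl
    rw [hπ l _ _ _ h5, ← mul_smul, inv_mul_cancel_right, h₀ l hl]
  · rw [Finset.card_pi]
    exact Finset.prod_le_prod' hc

variable {E : Type} [Field E] [NumberField E]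

theorem exists_mem_coprime {A : Ideal (𝓞 E)} {l : ℕ} (hl : l.Prime) (h : ¬ l ∣ absNorm A) :
    ∃ u ∈ A, IsCoprime u (l : 𝓞 E) := by
  refine ⟨absNorm A, absNorm_mem A, ?_⟩
  have h1 := (Nat.isCoprime_iff_coprime.2 ((Nat.Prime.coprime_iff_not_dvd hl).2 h).symm).map
    (Int.castRingHom (𝓞 E))
  simpa using h1

/-- The local data at a good prime `l`: a multiplicative action `n` of the integers of `E` on the
lattice `W`, and the relation `H` of lying in one orbit of the local group. -/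
structure ELat (E : Type) [Field E] [NumberField E] (l : ℕ) (R W : Type) [CommRing R]
    [AddCommGroup W] [Module R W] where
  n : 𝓞 E → Module.End R W
  H : Submodule R W → Submodule R W → Prop
  mul : ∀ a b, n (a * b) = n a * n b
  inj : ∀ a, a ≠ 0 → Function.Injective (n a)
  unit : ∀ u, IsCoprime u (l : 𝓞 E) → Function.Surjective (n u)
  refl : ∀ M, H M M
  base : ∀ M, H ⊤ M → M = ⊤
  step : ∀ u u' M₀ M M', IsCoprime u (l : 𝓞 E) → IsCoprime u' (l : 𝓞 E) → H M₀ M →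
    M'.map (n u) = M.map (n u') → H M₀ M'

namespace ELat
variable {l : ℕ} {R W : Type} [CommRing R] [AddCommGroup W] [Module R W] (S : ELat E l R W)

/-- the aligned lattice of an ideal -/
def nu (A : Ideal (𝓞 E)) : Submodule R W := ⨆ t : A, LinearMap.range (S.n t)

theorem map_map (M : Submodule R W) (a b : 𝓞 E) :
    (M.map (S.n a)).map (S.n b) = M.map (S.n (b * a)) := by
  rw [S.mul, Module.End.mul_eq_comp, Submodule.map_comp]

theorem range_mul (a b : 𝓞 E) :
    LinearMap.range (S.n (b * a)) = (LinearMap.range (S.n a)).map (S.n b) := by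
  rw [← Submodule.map_top, ← Submodule.map_top, map_map]

theorem map_inj {a : 𝓞 E} (ha : a ≠ 0) {M M' : Submodule R W}
    (h : M.map (S.n a) = M'.map (S.n a)) : M = M' :=
  Submodule.map_injective_of_injective (S.inj a ha) h

theorem le_nu {A : Ideal (𝓞 E)} {t : 𝓞 E} (ht : t ∈ A) : LinearMap.range (S.n t) ≤ S.nu A :=
  le_iSup (fun t : A => LinearMap.range (S.n t)) ⟨t, ht⟩

theorem nu_map_le {A B : Ideal (𝓞 E)} {a β : 𝓞 E} (h : span {β} * A ≤ span {a} * B) :
    (S.nu A).map (S.n β) ≤ (S.nu B).map (S.n a) := by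
  rw [nu, Submodule.map_iSup]
  refine iSup_le fun t => ?_
  obtain ⟨s, hs, e⟩ := mem_span_singleton_mul.1
    (h (mul_mem_mul (mem_span_singleton_self β) t.2))
  rw [← range_mul, ← e, range_mul]
  exact Submodule.map_mono (S.le_nu hs)

theorem nu_move {A B : Ideal (𝓞 E)} {a β : 𝓞 E} (h : span {β} * A = span {a} * B) :
    (S.nu A).map (S.n β) = (S.nu B).map (S.n a) :=
  le_antisymm (S.nu_map_le h.le) (S.nu_map_le h.ge)

theorem range_unit (t : 𝓞 E) {u : 𝓞 E} (hl : IsCoprime u (l : 𝓞 E)) :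
    LinearMap.range (S.n (t * u)) = LinearMap.range (S.n t) := by
  rw [range_mul, LinearMap.range_eq_top.2 (S.unit u hl), Submodule.map_top]

theorem nu_mul {A c : Ideal (𝓞 E)} {u : 𝓞 E} (hu : u ∈ c) (hl : IsCoprime u (l : 𝓞 E)) :
    S.nu (A * c) = S.nu A := by
  refine le_antisymm (iSup_le fun t => ?_) (iSup_le fun t => ?_)
  · exact S.le_nu ((Ideal.mul_le_left (I := A) (J := c)) t.2)
  · rw [← S.range_unit t hl]
    exact S.le_nu (mul_mem_mul t.2 hu)

theorem nu_span (a : 𝓞 E) : S.nu (span {a}) = LinearMap.range (S.n a) := by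
  refine le_antisymm (iSup_le fun t => ?_) (S.le_nu (mem_span_singleton_self a))
  obtain ⟨s, hs⟩ := mem_span_singleton'.1 t.2
  rw [← hs, mul_comm, range_mul]
  exact LinearMap.map_le_range

theorem nu_of_not_dvd (hl : l.Prime) {A : Ideal (𝓞 E)} (h : ¬ l ∣ absNorm A) : S.nu A = ⊤ := by
  obtain ⟨u, hu, hu'⟩ := exists_mem_coprime hl h
  exact top_unique ((LinearMap.range_eq_top.2 (S.unit u hu')).ge.trans (S.le_nu hu))

theorem nu_mul_of_not_dvd (hl : l.Prime) (A : Ideal (𝓞 E)) {c : Ideal (𝓞 E)}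
    (h : ¬ l ∣ absNorm c) : S.nu (A * c) = S.nu A := by
  obtain ⟨u, hu, hu'⟩ := exists_mem_coprime hl h
  exact S.nu_mul hu hu'

/-- an aligned lattice is the image of one element whose norm has the same order at `l` -/
theorem nu_gen (hl : l.Prime) {A : Ideal (𝓞 E)} (hA : A ≠ 0) :
    ∃ (t : 𝓞 E) (k : ℕ), ¬ l ∣ k ∧ absNorm (span {t}) = absNorm A * k ∧
      S.nu A = LinearMap.range (S.n t) := by
  obtain ⟨n, -, hn, h⟩ := exists_multipliers E l hl.ne_zero
  obtain ⟨c, t, h1, h2⟩ := h A hA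
  have h3 : ¬ l ∣ absNorm c := fun h4 =>
    (Nat.Prime.coprime_iff_not_dvd hl).1 hn.symm (h4.trans h2)
  exact ⟨t, absNorm c, h3, by rw [← h1, map_mul], by
    rw [← S.nu_mul_of_not_dvd hl A h3, h1, nu_span]⟩

/-- The move at one prime. The point has type `A₁ * A₂`, is aligned with `A`, and the new type is
`A₁ * B`. -/
theorem move (hl : l.Prime) {A₁ A₂ A B : Ideal (𝓞 E)} {a β : 𝓞 E} (ha : a ≠ 0)
    (h : span {β} * A = span {a} * B) (hA : absNorm A₂ = absNorm A)
    (h1 : Squarefree (absNorm A₁ * absNorm A)) (h2 : Squarefree (absNorm A₁ * absNorm B))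
    {M : Submodule R W} (hM : S.H (S.nu (A₁ * A₂)) M) (hal : l ∣ absNorm A → M = S.nu A) :
    ∃ M', S.H (S.nu (A₁ * B)) M' ∧ M'.map (S.n a) = M.map (S.n β) := by
  have sq : ∀ {x y : ℕ}, Squarefree (x * y) → l ∣ x → ¬ l ∣ y := fun hs hx hy =>
    hl.one_lt.ne' (Nat.isUnit_iff.1 (hs l (mul_dvd_mul hx hy)))
  by_cases hd : l ∣ absNorm A₁
  · have hlA := sq h1 hd
    have hlB := sq h2 hd
    rw [S.nu_mul_of_not_dvd hl _ hlB]
    rw [S.nu_mul_of_not_dvd hl _ (hA ▸ hlA)] at hM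
    obtain ⟨u, hu, hu'⟩ := exists_mem_coprime hl hlA
    obtain ⟨v, hv, hv'⟩ := exists_mem_coprime hl hlB
    obtain ⟨s, -, es⟩ := mem_span_singleton_mul.1
      (h.le (mul_mem_mul (mem_span_singleton_self β) hu))
    obtain ⟨t, -, et⟩ := mem_span_singleton_mul.1
      (h.ge (mul_mem_mul (mem_span_singleton_self a) hv))
    have hst : s * t = u * v := mul_left_cancel₀ ha (by
      calc a * (s * t) = (a * s) * t := by ring
        _ = u * (β * t) := by rw [es]; ring
        _ = _ := by rw [et]; ring)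
    have hs : IsCoprime s (l : 𝓞 E) := IsCoprime.of_mul_left_left (hst ▸ hu'.mul_left hv')
    have hu0 : u ≠ 0 := by
      rintro rfl
      have h3 := (isCoprime_zero_left.1 hu').map (Algebra.norm ℤ)
      rw [Int.isUnit_iff_natAbs_eq, ← absNorm_span_singleton, absNorm_span_natCast] at h3
      exact hl.one_lt.ne' (Nat.pow_eq_one.1 h3 |>.resolve_right Module.finrank_pos.ne')
    have e := Submodule.map_comap_eq_of_surjective (S.unit u hu') (M.map (S.n s))
    refine ⟨_, S.step u s _ M _ hu' hs hM e, S.map_inj hu0 ?_⟩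
    rw [map_map, mul_comm u a, ← map_map, e, map_map, map_map, es, mul_comm]
  · have hMA : M = S.nu A := by
      by_cases hlA : l ∣ absNorm A
      · exact hal hlA
      · rw [S.nu_of_not_dvd hl hlA]
        rw [S.nu_mul_of_not_dvd hl _ (hA ▸ hlA), S.nu_of_not_dvd hl hd] at hM
        exact S.base M hM
    refine ⟨S.nu B, ?_, by rw [hMA, S.nu_move h]⟩
    rw [mul_comm, S.nu_mul_of_not_dvd hl _ hd]
    exact S.refl _

end ELat

/-- the type of the moved point -/
theorem exists_split {A₀ A : Ideal (𝓞 E)} (h : Squarefree (absNorm A₀))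
    (hd : absNorm A ∣ absNorm A₀) : ∃ A₁ A₂ : Ideal (𝓞 E), A₀ = A₁ * A₂ ∧
      absNorm A₂ = absNorm A ∧ absNorm A₁ = absNorm A₀ / absNorm A := by
  obtain ⟨A₂, ⟨A₁, rfl⟩, h2⟩ := exists_dvd_norm h hd
  refine ⟨A₁, A₂, mul_comm _ _, h2, ?_⟩
  rw [map_mul] at h ⊢
  rw [← h2, Nat.mul_div_cancel_left _ (Nat.pos_of_ne_zero (Squarefree.of_mul_left h).ne_zero)]

end Pool.Agent.MT
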