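import Mathlib

/-! Independence of products of theta constants. -/

noncomputable section

namespace Pool.Agent.MT

open Finset Matrix Complex

theorem fb_congr {ι : Type} {f f' : ι → ℂ} {a : ℂ} (h : HasSum f a) (e : ∀ i, f i = f' i) :
    HasSum f' a := funext e ▸ h

/-- Separation of frequencies in an absolutely convergent trigonometric series. -/
theorem fb_sep {ι κ : Type} [Fintype κ] {b : ι → ℂ} (hb : Summable b) (T : ι → κ → ℤ)
    (h : ∀ x : κ → ℝ, ∑' i, b i * exp (2 * Real.pi * I * ∑ k, T i k * (x k : ℂ)) = 0)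
    (T₀ : κ → ℤ) [DecidablePred fun i => T i = T₀] :
    HasSum (fun i => if T i = T₀ then b i else 0) 0 := by
  have hs : Summable fun i => b i • UnitAddTorus.mFourier (T i) :=
    .of_norm (by simpa only [norm_smul, UnitAddTorus.mFourier_norm, mul_one] using hb.norm)
  have h0 : ∑' i, b i • UnitAddTorus.mFourier (T i) = 0 := by
    ext z
    choose x hx using fun k => QuotientAddGroup.mk_surjective (z k)
    have := (hs.hasSum.mapL (ContinuousMap.evalCLM ℂ z)).tsum_eq
    refine (this.symm.trans (tsum_congr fun i => ?_)).trans (h x)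
    change b i * ∏ k, fourier (T i k) (z k) = _
    rw [mul_sum, exp_sum]
    refine congrArg _ (prod_congr rfl fun k _ => ?_)
    rw [← hx k, fourier_coe_apply]
    congr 1
    push_cast
    ring
  have o : Orthonormal ℂ fun n : κ → ℤ => ContinuousMap.toLp 2
      (MeasureTheory.Measure.pi fun _ : κ => AddCircle.haarAddCircle (T := 1)) ℂ
      (UnitAddTorus.mFourier n) := UnitAddTorus.orthonormal_mFourier
  have := hs.hasSum.mapL ((innerSL ℂ (ContinuousMap.toLp 2
      (MeasureTheory.Measure.pi fun _ : κ => AddCircle.haarAddCircle (T := 1)) ℂ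
      (UnitAddTorus.mFourier T₀))).comp (ContinuousMap.toLp 2 _ ℂ))
  rw [h0, map_zero] at this
  classical
  refine fb_congr this fun i => ?_
  rw [map_smul, ContinuousLinearMap.comp_apply, innerSL_apply_apply,
    orthonormal_iff_ite.1 o T₀ (T i)]
  by_cases e : T i = T₀
  · simp [e]
  · simp [e, Ne.symm e]

/-- A product of absolutely convergent series. -/
theorem fb_pi {α : Type} {d : ℕ} (f : Fin d → α → ℂ) (h : ∀ j, Summable fun a => ‖f j a‖) :
    (Summable fun x : Fin d → α => ‖∏ j, f j (x j)‖) ∧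
      ∑' x : Fin d → α, ∏ j, f j (x j) = ∏ j, ∑' a, f j a := by
  induction d with
  | zero => exact ⟨.of_finite, by simp⟩
  | succ d ih =>
    obtain ⟨i1, i2⟩ := ih (fun j => f j.succ) fun j => h _
    have e : ∀ p : α × (Fin d → α), ∏ j, f j (Fin.consEquiv (fun _ => α) p j) =
        f 0 p.1 * ∏ j : Fin d, f j.succ (p.2 j) := fun p => by
      rw [Fin.prod_univ_succ]
      rfl
    refine ⟨(Fin.consEquiv fun _ => α).summable_iff.1 ?_, ?_⟩
    · simpa only [Function.comp_def, e] using (h 0).mul_norm i1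
    · rw [← (Fin.consEquiv fun _ => α).tsum_eq, Fin.prod_univ_succ, ← i2,
        tsum_mul_tsum_of_summable_norm (h 0) i1]
      exact tsum_congr e

variable {g : ℕ}

/-- The general term of the theta series of level `n`. -/
def fbE (n : ℕ) (τ : Matrix (Fin g) (Fin g) ℂ) (m : Fin g → ℤ) : ℂ :=
  exp (Real.pi * I * (∑ a, ∑ b, τ a b * m a * m b) / n)

/-- The theta constants of level `n`. -/
def fbT (n : ℕ) (τ : Matrix (Fin g) (Fin g) ℂ) (k : Fin g → ZMod n) : ℂ :=
  ∑' m : Fin g → ℤ, if (fun a => (m a : ZMod n)) = k then fbE n τ m else 0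

theorem fbE_prod (n : ℕ) (τ : Matrix (Fin g) (Fin g) ℂ) (M : Matrix (Fin g) (Fin g) ℤ) :
    ∏ j, fbE n τ (M j) = exp (Real.pi * I * (∑ a, ∑ b, τ a b * (Mᵀ * M) a b) / n) := by
  simp only [fbE, ← exp_sum, ← sum_div, ← mul_sum, mul_apply, transpose_apply]
  congr 3
  rw [sum_comm]
  refine sum_congr rfl fun a _ => ?_
  rw [sum_comm]
  refine sum_congr rfl fun b _ => ?_
  push_cast
  simp only [mul_sum, mul_assoc]

theorem fbE_norm (n : ℕ) (τ : Matrix (Fin g) (Fin g) ℂ) (X : Matrix (Fin g) (Fin g) ℝ)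
    (m : Fin g → ℤ) : ‖fbE n (τ + X.map (↑)) m‖ = ‖fbE n τ m‖ := by
  have : fbE n (τ + X.map (↑)) m =
      fbE n τ m * exp ((Real.pi * (∑ a, ∑ b, X a b * m a * m b) / n : ℝ) * I) := by
    simp only [fbE, ← exp_add, Matrix.add_apply, map_apply, add_mul, sum_add_distrib]
    congr 1
    push_cast
    ring
  rw [this, norm_mul, norm_exp_ofReal_mul_I, mul_one]

theorem fbT_prod {n : ℕ} {τ : Matrix (Fin g) (Fin g) ℂ} (hs : Summable fun m => ‖fbE n τ m‖)
    (K : Matrix (Fin g) (Fin g) (ZMod n)) :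
    HasSum (fun M : Matrix (Fin g) (Fin g) ℤ =>
      if M.map (Int.cast : ℤ → ZMod n) = K then ∏ j, fbE n τ (M j) else 0)
      (∏ j, fbT n τ (K j)) := by
  obtain ⟨h1, h2⟩ := fb_pi (fun j m => if (fun a => (m a : ZMod n)) = K j then fbE n τ m else 0)
    fun j => hs.of_nonneg_of_le (fun _ => norm_nonneg _) fun m => by
      split_ifs <;> simp
  have := h1.of_norm.hasSum
  rw [h2] at this
  refine fb_congr this fun M => ?_
  by_cases e : ∀ j, (fun a => (M j a : ZMod n)) = K j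
  · exact (prod_congr rfl fun j _ => if_pos (e j)).trans (if_pos (funext e)).symm
  · obtain ⟨j, hj⟩ := not_forall.1 e
    exact (prod_eq_zero (mem_univ j) (if_neg hj)).trans (if_neg fun l => hj (congrFun l j)).symm

theorem fbE_shift {n : ℕ} (hn : n ≠ 0) (τ : Matrix (Fin g) (Fin g) ℂ) (y : Fin g × Fin g → ℝ)
    (M : Matrix (Fin g) (Fin g) ℤ) :
    (∏ j, fbE n τ (M j)) * exp (2 * Real.pi * I * ∑ p : Fin g × Fin g,
      ((Mᵀ * M) p.1 p.2 : ℤ) * (y p : ℂ)) = ∏ j, fbE n (τ + (of fun a b =>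
        (n : ℝ) * (y (a, b) + y (b, a))).map ((↑) : ℝ → ℂ)) (M j) := by
  have n0 : (n : ℂ) ≠ 0 := Nat.cast_ne_zero.2 hn
  have s : ∀ a b, (Mᵀ * M) a b = (Mᵀ * M) b a := fun a b => by
    simp only [mul_apply, transpose_apply, mul_comm]
  rw [fbE_prod, fbE_prod, ← exp_add]
  generalize Mᵀ * M = G at s
  have : ∑ a, ∑ b, (y (b, a) : ℂ) * G a b = ∑ a, ∑ b, (y (a, b) : ℂ) * G a b := by
    rw [sum_comm]
    exact sum_congr rfl fun a _ => sum_congr rfl fun b _ => by rw [s]
  have e : ∑ a, ∑ b, (τ + (of fun a b => (n : ℝ) * (y (a, b) + y (b, a))).map ((↑) : ℝ → ℂ)) a b *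
      G a b = ∑ a, ∑ b, τ a b * G a b + n * (∑ a, ∑ b, (y (a, b) : ℂ) * G a b +
        ∑ a, ∑ b, (y (b, a) : ℂ) * G a b) := by
    simp only [Matrix.add_apply, map_apply, of_apply, mul_sum, ← sum_add_distrib]
    refine sum_congr rfl fun a _ => sum_congr rfl fun b _ => ?_
    push_cast
    ring
  have e' : ∑ p : Fin g × Fin g, (G p.1 p.2 : ℂ) * (y p : ℂ) = ∑ a, ∑ b, (y (a, b) : ℂ) * G a b := by
    rw [Fintype.sum_prod_type]
    simp only [mul_comm]
  rw [e, this, e']
  congr 1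
  field_simp
  ring

theorem fb_key {n : ℕ} (hn : n ≠ 0) {τ : Matrix (Fin g) (Fin g) ℂ}
    (hs : Summable fun m => ‖fbE n τ m‖) {ι : Type} [Fintype ι]
    (K : ι → Matrix (Fin g) (Fin g) (ZMod n)) (c : ι → ℂ)
    (h : ∀ X : Matrix (Fin g) (Fin g) ℝ, Xᵀ = X →
      ∑ i, c i * ∏ j, fbT n (τ + X.map ((↑) : ℝ → ℂ)) (K i j) = 0)
    (G : Matrix (Fin g) (Fin g) ℤ) :
    HasSum (fun M : Matrix (Fin g) (Fin g) ℤ => if Mᵀ * M = G then ∑ i, c i *
      if M.map (Int.cast : ℤ → ZMod n) = K i then ∏ j, fbE n τ (M j) else 0 else 0) 0 := by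
  classical
  have key := fb_sep (b := fun M : Matrix (Fin g) (Fin g) ℤ => ∑ i, c i *
      if M.map (Int.cast : ℤ → ZMod n) = K i then ∏ j, fbE n τ (M j) else 0)
    (summable_sum fun i _ => (fbT_prod hs _).summable.mul_left _)
    (fun M (p : Fin g × Fin g) => (Mᵀ * M) p.1 p.2) (fun y => by
      refine Eq.trans ?_ (h (of fun a b => (n : ℝ) * (y (a, b) + y (b, a)))
        (Matrix.ext fun a b => congrArg (fun t : ℝ => n * t) (add_comm _ _)))
      refine (tsum_congr fun M => ?_).trans (hasSum_sum fun i (_ : i ∈ univ) => (fbT_prod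
          ((summable_congr fun m => fbE_norm n τ _ m).2 hs) (K i)).mul_left (c i)).tsum_eq
      rw [sum_mul]
      refine sum_congr rfl fun i _ => ?_
      rw [mul_assoc, ite_mul, zero_mul, fbE_shift hn]) fun p => G p.1 p.2
  refine fb_congr key fun M => ?_
  exact if_congr ⟨fun e => Matrix.ext fun a b => congrFun e (a, b), fun e => by rw [e]⟩ rfl rfl

/-- Products of theta constants along inequivalent unimodular matrices are independent. -/
theorem fb_indep {n : ℕ} (hn : n ≠ 0) {τ : Matrix (Fin g) (Fin g) ℂ}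
    (hs : Summable fun m => ‖fbE n τ m‖) {ι : Type} [Fintype ι]
    (x : ι → Matrix (Fin g) (Fin g) ℤ) (hx : ∀ i, IsUnit (x i).det)
    (ne : ∀ i i' (u : Matrix (Fin g) (Fin g) ℤ), uᵀ * u = 1 →
      (u * x i).map (Int.cast : ℤ → ZMod n) = (x i').map (Int.cast : ℤ → ZMod n) → i = i')
    (c : ι → ℂ) (h : ∀ X : Matrix (Fin g) (Fin g) ℝ, Xᵀ = X → ∑ i, c i *
      ∏ j, fbT n (τ + X.map ((↑) : ℝ → ℂ)) ((x i).map (Int.cast : ℤ → ZMod n) j) = 0) : c = 0 := by
  funext i₀
  have key := fb_key hn hs _ c h ((x i₀)ᵀ * x i₀)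
  by_contra c0
  have z0 : c i₀ * ∏ j, fbE n τ (x i₀ j) ≠ 0 :=
    mul_ne_zero c0 (prod_ne_zero_iff.2 fun j _ => exp_ne_zero _)
  have k2 : HasSum (fun M : Matrix (Fin g) (Fin g) ℤ => ((if Mᵀ * M = (x i₀)ᵀ * x i₀ ∧
      M.map (Int.cast : ℤ → ZMod n) = (x i₀).map (Int.cast : ℤ → ZMod n) then 1 else 0 : ℝ) : ℂ))
      ((0 : ℝ) : ℂ) := by
    rw [← hasSum_mul_right_iff z0, ofReal_zero, zero_mul]
    refine fb_congr key fun M => ?_
    by_cases e : Mᵀ * M = (x i₀)ᵀ * x i₀
    · have hu : (M * (x i₀)⁻¹)ᵀ * (M * (x i₀)⁻¹) = 1 := by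
        rw [transpose_mul, Matrix.mul_assoc, ← Matrix.mul_assoc Mᵀ, e, Matrix.mul_assoc,
          mul_nonsing_inv _ (hx i₀), Matrix.mul_one, ← transpose_mul, mul_nonsing_inv _ (hx i₀),
          transpose_one]
      rw [if_pos e, sum_eq_single i₀ (fun i _ hi => by
        rw [if_neg fun l => hi (ne i₀ i _ hu (by
          rwa [nonsing_inv_mul_cancel_right _ _ (hx i₀)])).symm, mul_zero])
          (fun l => absurd (mem_univ _) l), fbE_prod n τ M, e, ← fbE_prod]
      by_cases l : M.map (Int.cast : ℤ → ZMod n) = (x i₀).map (Int.cast : ℤ → ZMod n)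
      · rw [if_pos l, if_pos ⟨rfl, l⟩, ofReal_one, one_mul]
      · rw [if_neg l, if_neg fun l' => l l'.2, ofReal_zero, zero_mul, mul_zero]
    · rw [if_neg e, if_neg fun l => e l.1, ofReal_zero, zero_mul]
  have := le_hasSum (hasSum_ofReal.1 k2) (x i₀) fun _ _ => by split_ifs <;> norm_num
  rw [if_pos ⟨rfl, rfl⟩] at this
  norm_num at this

theorem fb_lu {R : Type} [CommRing R] {L L' U U' : Matrix (Fin g) (Fin g) R}
    (hL : L.BlockTriangular OrderDual.toDual) (hL' : L'.BlockTriangular OrderDual.toDual)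
    (hU : U.BlockTriangular id) (hU' : U'.BlockTriangular id) (dL : ∀ a, L a a = 1)
    (dL' : ∀ a, L' a a = 1) (dU : ∀ a, U a a = 1) (e : L * U = L' * U') : L = L' ∧ U = U' := by
  have u1 : IsUnit L'.det := by simp [det_of_isLowerTriangular _ hL', dL']
  have u2 : IsUnit U.det := by simp [det_of_isUpperTriangular hU, dU]
  have i1 := invertibleOfIsUnitDet _ u1
  have i2 := invertibleOfIsUnitDet _ u2
  have e1 : L'⁻¹ * L = U' * U⁻¹ := by
    rw [← mul_nonsing_inv_cancel_right U (L'⁻¹ * L) u2, Matrix.mul_assoc _ L, e,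
      nonsing_inv_mul_cancel_left _ _ u1]
  have t1 := (blockTriangular_inv_of_blockTriangular hL').mul hL
  have t2 := e1 ▸ hU'.mul (blockTriangular_inv_of_blockTriangular hU)
  have z : ∀ a b, a ≠ b → (L'⁻¹ * L) a b = 0 := fun a b h =>
    h.lt_or_gt.elim (fun l => t1 l) fun l => t2 l
  have e2 : L'⁻¹ * L = 1 := Matrix.ext fun a b => by
    by_cases h : a = b
    · subst h
      have := congrFun (congrFun (mul_nonsing_inv_cancel_left L' L u1) a) a
      rwa [mul_apply, sum_eq_single a (fun c _ hc => by rw [z c a hc, mul_zero]) (by simp), dL',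
        dL, one_mul, ← one_apply_eq (α := R) a] at this
    · rw [z a b h, one_apply_ne h]
  have e3 : L = L' := by rw [← mul_nonsing_inv_cancel_left L' L u1, e2, Matrix.mul_one]
  refine ⟨e3, ?_⟩
  rw [← nonsing_inv_mul_cancel_left L' U u1, ← nonsing_inv_mul_cancel_left L' U' u1, ← e, e3]

/-- Many unimodular matrices with different residues. -/
theorem fb_many (g n : ℕ) [NeZero n] : ∃ s : Finset (Matrix (Fin g) (Fin g) (ZMod n)),
    s.card = n ^ (g * g - g) ∧ ∀ K ∈ s, ∃ x : Matrix (Fin g) (Fin g) ℤ,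
      IsUnit x.det ∧ x.map (Int.cast : ℤ → ZMod n) = K := by
  classical
  let L : {R : Type} → [CommRing R] → ((univ : Finset (Fin g)).offDiag → R) →
      Matrix (Fin g) (Fin g) R := fun p => of fun a b =>
    if h : b < a then p ⟨(a, b), by simp [h.ne']⟩ else if a = b then 1 else 0
  let U : {R : Type} → [CommRing R] → ((univ : Finset (Fin g)).offDiag → R) →
      Matrix (Fin g) (Fin g) R := fun p => of fun a b =>
    if h : a < b then p ⟨(a, b), by simp [h.ne]⟩ else if a = b then 1 else 0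
  have hL : ∀ {R : Type} [CommRing R] (p : _ → R), (L p).BlockTriangular OrderDual.toDual :=
    fun p a b (h : a < b) => by simp [L, h.ne, h.not_gt]
  have hU : ∀ {R : Type} [CommRing R] (p : _ → R), (U p).BlockTriangular id :=
    fun p a b (h : b < a) => by simp [U, h.ne', h.not_gt]
  have dL : ∀ {R : Type} [CommRing R] (p : _ → R) a, L p a a = 1 := fun p a => by simp [L]
  have dU : ∀ {R : Type} [CommRing R] (p : _ → R) a, U p a a = 1 := fun p a => by simp [U]
  refine ⟨univ.image fun p => L p * U p, ?_, fun K hK => ?_⟩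
  · rw [card_image_of_injective _ fun p p' e => ?_]
    · rw [card_univ, Fintype.card_fun, Fintype.card_coe, offDiag_card, ZMod.card, card_univ,
        Fintype.card_fin]
    · obtain ⟨e1, e2⟩ := fb_lu (hL p) (hL p') (hU p) (hU p') (dL p) (dL p') (dU p) e
      funext ⟨(a, b), h⟩
      rcases (show a ≠ b by simpa using h).lt_or_gt with l | l
      · simpa [U, l] using congrFun (congrFun e2 a) b
      · simpa [L, l] using congrFun (congrFun e1 a) b
  · obtain ⟨p, -, rfl⟩ := mem_image.1 hK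
    choose q hq using fun a => ZMod.intCast_surjective (p a)
    refine ⟨L q * U q, by
      simp [det_of_isLowerTriangular _ (hL q), det_of_isUpperTriangular (hU q), dL, dU], ?_⟩
    refine (Matrix.map_mul (f := Int.castRingHom (ZMod n))).trans ?_
    congr 1 <;> ext a b <;> simp only [L, U, map_apply, of_apply] <;> split_ifs <;> simp [hq]

theorem fb_orth (g : ℕ) : ∃ W : Finset (Matrix (Fin g) (Fin g) ℤ), W.card ≤ 3 ^ (g * g) ∧
    ∀ u, u ∈ W ↔ uᵀ * u = 1 := by
  classical
  refine ⟨Finset.filter (α := Matrix (Fin g) (Fin g) ℤ) (fun u => uᵀ * u = 1)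
    (Fintype.piFinset fun _ => Fintype.piFinset fun _ => Icc (-1) 1),
    (card_filter_le _ _).trans_eq ((Fintype.card_piFinset _).trans (by simp [← pow_mul])),
    fun u => ?_⟩
  refine mem_filter.trans (and_iff_right_of_imp fun h => ?_)
  refine Fintype.mem_piFinset.2 fun a => Fintype.mem_piFinset.2 fun b => mem_Icc.2 ?_
  have := congrFun (congrFun h b) b
  rw [mul_apply, one_apply_eq] at this
  have h2 : u a b * u a b ≤ 1 := this ▸
    single_le_sum (f := fun c => uᵀ b c * u c b) (fun c _ => mul_self_nonneg (u c b)) (mem_univ a)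
  constructor <;> nlinarith

/-- Many unimodular matrices that are inequivalent under the integral orthogonal group. -/
theorem fb_reps (g n : ℕ) [NeZero n] : ∃ (r : ℕ) (x : Fin r → Matrix (Fin g) (Fin g) ℤ),
    n ^ (g * g - g) ≤ 3 ^ (g * g) * r ∧ (∀ i, IsUnit (x i).det) ∧
    ∀ i i' (u : Matrix (Fin g) (Fin g) ℤ), uᵀ * u = 1 →
      (u * x i).map (Int.cast : ℤ → ZMod n) = (x i').map (Int.cast : ℤ → ZMod n) → i = i' := by
  classical
  obtain ⟨s, hs, h⟩ := fb_many g n
  obtain ⟨W, hW, mW⟩ := fb_orth g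
  let o : Matrix (Fin g) (Fin g) (ZMod n) → Finset (Matrix (Fin g) (Fin g) (ZMod n)) := fun K =>
    W.image fun u => u.map (Int.cast : ℤ → ZMod n) * K
  have mm : ∀ u v : Matrix (Fin g) (Fin g) ℤ, (u * v).map (Int.cast : ℤ → ZMod n) =
      u.map (Int.cast : ℤ → ZMod n) * v.map (Int.cast : ℤ → ZMod n) :=
    fun u v => Matrix.map_mul (f := Int.castRingHom (ZMod n))
  have m1 : (1 : Matrix (Fin g) (Fin g) ℤ).map (Int.cast : ℤ → ZMod n) = 1 :=
    Matrix.map_one _ Int.cast_zero Int.cast_one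
  have sub : ∀ (u : Matrix (Fin g) (Fin g) ℤ) K, uᵀ * u = 1 →
      o (u.map (Int.cast : ℤ → ZMod n) * K) ⊆ o K := fun u K hu y hy => by
    obtain ⟨v, hv, rfl⟩ := mem_image.1 hy
    refine mem_image.2 ⟨v * u, (mW _).2 ?_, by rw [mm, Matrix.mul_assoc]⟩
    rw [transpose_mul, Matrix.mul_assoc, ← Matrix.mul_assoc vᵀ, (mW v).1 hv, Matrix.one_mul, hu]
  choose! K hK hK' using fun y (hy : y ∈ s.image o) => mem_image.1 hy
  choose! x hx hx' using h
  let e := (s.image o).equivFin.symm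
  refine ⟨_, fun i => x (K (e i)), ?_, fun i => hx _ (hK _ (e i).2), fun i i' u hu q => ?_⟩
  · rw [← hs]
    refine card_le_mul_card_image s _ fun y _ => (card_le_card fun K' hK' => ?_).trans
      ((?_ : y.card ≤ _))
    · rw [← (mem_filter.1 hK').2]
      exact mem_image.2 ⟨1, (mW 1).2 (by simp), by rw [m1, Matrix.one_mul]⟩
    · rename_i hy
      obtain ⟨K', -, rfl⟩ := mem_image.1 hy
      exact card_image_le.trans hW
  · rw [mm, hx' _ (hK _ (e i).2), hx' _ (hK _ (e i').2)] at q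
    refine e.injective (Subtype.ext ?_)
    rw [← hK' _ (e i).2, ← hK' _ (e i').2, ← q]
    refine subset_antisymm ?_ (sub u _ hu)
    have := sub uᵀ (u.map (Int.cast : ℤ → ZMod n) * K (e i)) (mul_eq_one_comm.1 hu)
    rwa [← Matrix.mul_assoc, ← mm, hu, m1, Matrix.one_mul] at this

/-- Many independent products of theta constants of level `n`. -/
theorem fb_final (g n : ℕ) [NeZero n] : ∃ (r : ℕ) (K : Fin r → Matrix (Fin g) (Fin g) (ZMod n)),
    n ^ (g * g - g) ≤ 3 ^ (g * g) * r ∧ ∀ τ : Matrix (Fin g) (Fin g) ℂ,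
      (Summable fun m => ‖fbE n τ m‖) → ∀ c : Fin r → ℂ,
      (∀ X : Matrix (Fin g) (Fin g) ℝ, Xᵀ = X →
        ∑ i, c i * ∏ j, fbT n (τ + X.map ((↑) : ℝ → ℂ)) (K i j) = 0) → c = 0 := by
  obtain ⟨r, x, h1, h2, h3⟩ := fb_reps g n
  exact ⟨r, _, h1, fun τ hs c h => fb_indep (NeZero.ne n) hs x h2 h3 c h⟩

end Pool.Agent.MT
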