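import Pool.Agent.Lib.MP_d61fbb_ag.MT.A1
import Pool.Agent.Lib.MP_d61fbb_ag.MT.FB

/-! Many independent monomials in theta constants with rational characteristics. -/

noncomputable section

namespace Pool.Agent.MT

open Matrix Complex Finset

variable {g : ℕ} {τ : Matrix (Fin g) (Fin g) ℂ}

lemma fc_ee_sum {α : Type*} (s : Finset α) (f : α → ℂ) :
    ee (∑ a ∈ s, f a) = ∏ a ∈ s, ee (f a) := by
  simp only [ee, mul_sum, exp_sum]

lemma fc_norm_ee (x : ℝ) : ‖ee x‖ = 1 := by
  have : 2 * (Real.pi : ℂ) * I * x = ((2 * Real.pi * x : ℝ) : ℂ) * I := by push_cast; ring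
  rw [ee, this, norm_exp_ofReal_mul_I]

lemma fc_geom {m : ℕ} (hm : 0 < m) (ν : ℤ) :
    ∑ b : Fin m, ee (ν * (b : ℕ) / m) = if (m : ℤ) ∣ ν then (m : ℂ) else 0 := by
  have hm' : (m : ℂ) ≠ 0 := by exact_mod_cast hm.ne'
  have hp : ∀ b : ℕ, ee (ν * b / m) = ee (ν / m) ^ b := fun b => by
    rw [ee, ee, ← exp_nat_mul]
    congr 1
    ring
  simp only [hp]
  rw [Fin.sum_univ_eq_sum_range (fun b => ee (ν / m) ^ b) m]
  split_ifs with h
  · obtain ⟨c, rfl⟩ := h
    have : (((m : ℤ) * c : ℤ) : ℂ) / m = (c : ℂ) := by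
      push_cast
      field_simp
    rw [this]
    simp
  · have h1 : ee (ν / m) ≠ 1 := fun h1 => by
      obtain ⟨c, hc⟩ := exp_eq_one_iff.1 h1
      have hpi : (2 * Real.pi * I : ℂ) ≠ 0 := two_pi_I_ne_zero
      have h2 : (ν : ℂ) / m = c := mul_left_cancel₀ hpi (by rw [hc]; ring)
      rw [div_eq_iff hm'] at h2
      exact h ⟨c, by exact_mod_cast h2.trans (mul_comm _ _)⟩
    have h2 : ee (ν / m) ^ m = 1 := by
      rw [← hp, mul_div_assoc, div_self hm', mul_one, ee_int]
    rw [geom_sum_eq h1, h2, sub_self, zero_div]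

/-- the weight of a characteristic in one variable -/
def fcW (m : ℕ) (a b y : ℤ) : ℂ := if (m : ℤ) ∣ y - a then ee (y * b / m ^ 2) else 0

lemma fcW_norm (m : ℕ) (a b y : ℤ) : ‖fcW m a b y‖ ≤ 1 := by
  unfold fcW
  split_ifs
  · have : (y * b / m ^ 2 : ℂ) = ((y * b / m ^ 2 : ℝ) : ℂ) := by push_cast; rfl
    rw [this, fc_norm_ee]
  · simp

lemma fcW_sum {m : ℕ} (hm : 0 < m) {a c : ℤ} (h : (m : ℤ) ∣ c - a) (y : ℤ) :
    ∑ b : Fin m, ee (-(c * (b : ℕ)) / m ^ 2) / m * fcW m a (b : ℕ) y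
      = if ((m ^ 2 : ℕ) : ℤ) ∣ y - c then 1 else 0 := by
  have hm' : (m : ℂ) ≠ 0 := by exact_mod_cast hm.ne'
  have hmz : (m : ℤ) ≠ 0 := by exact_mod_cast hm.ne'
  by_cases hy : (m : ℤ) ∣ y - a
  · obtain ⟨ν, hν⟩ : (m : ℤ) ∣ y - c := by
      have := dvd_sub hy h
      rwa [sub_sub_sub_cancel_right] at this
    have hyc : (y : ℂ) = c + m * ν := by
      have : y = c + m * ν := by linarith
      exact_mod_cast this
    have e : ∀ b : Fin m, ee (-(c * (b : ℕ)) / m ^ 2) / m * fcW m a (b : ℕ) y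
        = ee (ν * (b : ℕ) / m) / m := fun b => by
      rw [fcW, if_pos hy, div_mul_eq_mul_div, ← ee_add, hyc]
      congr 2
      push_cast
      field_simp
      ring
    simp only [e]
    rw [← sum_div, fc_geom hm, hν]
    have e2 : ((m ^ 2 : ℕ) : ℤ) ∣ m * ν ↔ (m : ℤ) ∣ ν := by
      push_cast
      rw [sq, mul_dvd_mul_iff_left hmz]
    simp only [e2]
    split_ifs
    · exact div_self hm'
    · exact zero_div _
  · have h2 : ¬ ((m ^ 2 : ℕ) : ℤ) ∣ y - c := fun h2 => by
      have h3 : (m : ℤ) ∣ y - c := (Dvd.intro_left _ (by push_cast; ring)).trans h2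
      have := dvd_add h3 h
      rw [sub_add_sub_cancel] at this
      exact hy this
    rw [if_neg h2]
    simp [fcW, hy]

lemma fc_T {m : ℕ} (hm : 0 < m) (τ : Matrix (Fin g) (Fin g) ℂ) (a b : Fin g → ℤ) :
    T τ (fun i => (a i : ℂ) / m) (fun i => (b i : ℂ) / m)
      = ∑' y : Fin g → ℤ, (∏ i, fcW m (a i) (b i) (y i)) * fbE (m ^ 2) τ y := by
  have hm' : (m : ℂ) ≠ 0 := by exact_mod_cast hm.ne'
  have hmz : (m : ℤ) ≠ 0 := by exact_mod_cast hm.ne'
  have hinj : Function.Injective fun (ν : Fin g → ℤ) i => (m : ℤ) * ν i + a i := by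
    intro ν ν' h
    funext i
    exact mul_left_cancel₀ hmz (add_right_cancel (congrFun h i))
  rw [← hinj.tsum_eq]
  · refine tsum_congr fun ν => ?_
    have e : ∀ i, fcW m (a i) (b i) (m * ν i + a i) = ee ((m * ν i + a i) * b i / m ^ 2) :=
      fun i => by
        rw [fcW, if_pos ⟨ν i, by ring⟩]
        push_cast
        rfl
    simp only [e]
    have e2 : ∀ z : ℂ, exp (Real.pi * I * z / (m ^ 2 : ℕ)) = ee (z / (2 * m ^ 2)) := fun z => by
      rw [ee]
      congr 1
      push_cast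
      field_simp
    rw [← fc_ee_sum, fbE, e2, ← ee_add, tm, add_comm]
    congr 2
    · refine sum_congr rfl fun i _ => ?_
      simp only [Pi.add_apply]
      field_simp
    · simp only [dotProduct, mulVec, mul_sum, sum_div, Pi.add_apply]
      refine sum_congr rfl fun i _ => sum_congr rfl fun j _ => ?_
      push_cast
      field_simp
  · intro y hy
    have h1 : ∀ i, (m : ℤ) ∣ y i - a i := fun i => by
      by_contra hc
      exact hy (by simp only; rw [prod_eq_zero (mem_univ i) (by rw [fcW, if_neg hc]), zero_mul])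
    choose ν hν using h1
    exact ⟨ν, funext fun i => by simp only; linarith [hν i]⟩

lemma Sieg.fc_summable (h : Sieg τ) {n : ℕ} (hn : 0 < n) : Summable fun y => ‖fbE n τ y‖ := by
  have hn' : (n : ℂ) ≠ 0 := by exact_mod_cast hn.ne'
  refine ((h.smul (c := (n : ℝ)⁻¹) (by positivity)).summable 0 0).congr fun y => ?_
  rw [tm, fbE, ee]
  congr 2
  rw [dotProduct_zero]
  simp only [add_zero, dotProduct, mulVec, mul_sum, sum_div, Matrix.smul_apply, smul_eq_mul]
  refine sum_congr rfl fun i _ => sum_congr rfl fun j _ => ?_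
  push_cast
  field_simp

/-- the theta constants of level `m ^ 2` are combinations of theta constants with
characteristics in `(1 / m) ℤ` -/
theorem fc_fbT {m : ℕ} (hm : 0 < m) (c : Fin g → ℤ) :
    ∃ (a : Fin g → Fin m) (κ : (Fin g → Fin m) → ℂ), ∀ τ : Matrix (Fin g) (Fin g) ℂ, Sieg τ →
      fbT (m ^ 2) τ (fun i => (c i : ZMod (m ^ 2)))
        = ∑ b : Fin g → Fin m, κ b *
            T τ (fun i => ((a i : ℕ) : ℂ) / m) (fun i => ((b i : ℕ) : ℂ) / m) := by
  have hmz : (0 : ℤ) < m := by exact_mod_cast hm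
  have ha : ∀ i, ∃ a : Fin m, (m : ℤ) ∣ c i - (a : ℕ) := fun i => by
    have h0 := Int.emod_nonneg (c i) hmz.ne'
    have h1 := Int.emod_lt_of_pos (c i) hmz
    refine ⟨⟨(c i % m).toNat, by omega⟩, c i / m, ?_⟩
    have := Int.emod_add_mul_ediv (c i) m
    simp only [Int.toNat_of_nonneg h0]
    linarith
  choose a ha using ha
  refine ⟨a, fun b => ∏ i, ee (-(c i * (b i : ℕ)) / m ^ 2) / m, fun τ hτ => ?_⟩
  have hs := hτ.fc_summable (pow_pos hm 2)
  have e : ∀ b : Fin g → Fin m, T τ (fun i => ((a i : ℕ) : ℂ) / m) (fun i => ((b i : ℕ) : ℂ) / m)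
      = ∑' y : Fin g → ℤ, (∏ i, fcW m (a i : ℕ) (b i : ℕ) (y i)) * fbE (m ^ 2) τ y := fun b => by
    rw [← fc_T hm]
    simp only [Int.cast_natCast]
  simp only [e, ← tsum_mul_left]
  rw [← Summable.tsum_finsetSum]
  · refine tsum_congr fun y => ?_
    simp only [← mul_assoc, ← sum_mul, ← prod_mul_distrib]
    rw [← Fintype.piFinset_univ, ← prod_univ_sum (fun _ => univ)
      (fun i (b : Fin m) => ee (-(c i * (b : ℕ)) / m ^ 2) / m * fcW m (a i : ℕ) (b : ℕ) (y i))]
    simp only [fcW_sum hm (ha _)]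
    rw [prod_ite_zero, prod_const_one, ite_mul, one_mul, zero_mul]
    congr 1
    refine propext ⟨fun h i _ => ?_, fun h => funext fun i => ?_⟩
    · exact (ZMod.intCast_eq_intCast_iff_dvd_sub _ _ _).1 (congrFun h i).symm
    · exact ((ZMod.intCast_eq_intCast_iff_dvd_sub _ _ _).2 (h i (mem_univ _))).symm
  · intro b _
    refine Summable.mul_left _ (Summable.of_norm_bounded hs fun y => ?_)
    rw [norm_mul, norm_prod]
    exact mul_le_of_le_one_left (norm_nonneg _)
      (prod_le_one (fun _ _ => norm_nonneg _) fun _ _ => fcW_norm _ _ _ _)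

/-- extraction of an independent subfamily -/
theorem fc_extract {V ι κ : Type*} [AddCommGroup V] [Module ℂ V] [Fintype ι] [Fintype κ]
    (v : ι → V) (f : κ → V) (hf : LinearIndependent ℂ f)
    (hsp : ∀ i, f i ∈ Submodule.span ℂ (Set.range v)) :
    ∃ s : Finset ι, Fintype.card κ ≤ s.card ∧ LinearIndependent ℂ fun i : s => v i := by
  classical
  obtain ⟨s, -, -, h2, h3⟩ := exists_linearIndepOn_extension
    (linearIndepOn_empty ℂ v) (Set.empty_subset (Set.univ : Set ι))
  refine ⟨s.toFinset, ?_, ?_⟩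
  · have hle : Submodule.span ℂ (Set.range v) ≤ Submodule.span ℂ (v '' s) :=
      Submodule.span_le.2 (by rwa [Set.image_univ] at h2)
    have h4 : Set.range f ≤ Submodule.span ℂ ((s.toFinset.image v : Finset V) : Set V) := by
      rintro _ ⟨i, rfl⟩
      rw [coe_image, Set.coe_toFinset]
      exact hle (hsp i)
    have h5 := linearIndependent_le_span_aux' f hf _ h4
    simp only [Finset.coe_sort_coe, Fintype.card_coe] at h5
    exact h5.trans card_image_le
  · have : (s.toFinset : Set ι) = s := Set.coe_toFinset s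
    change LinearIndepOn ℂ v (s.toFinset : Set ι)
    rwa [this]

lemma Sieg.add_real (h : Sieg τ) {X : Matrix (Fin g) (Fin g) ℝ} (hX : Xᵀ = X) :
    Sieg (τ + X.map (↑)) := by
  constructor
  · rw [transpose_add, h.symm, ← transpose_map, hX]
  · intro y hy
    have : (rc y ⬝ᵥ X.map ((↑) : ℝ → ℂ) *ᵥ rc y).im = 0 := by
      simp [dotProduct, mulVec, im_sum, re_sum]
    rw [add_mulVec, dotProduct_add, add_im, this, add_zero]
    exact h.pos y hy

lemma fc_sieg_I : Sieg (I • (1 : Matrix (Fin g) (Fin g) ℂ)) := by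
  constructor
  · rw [transpose_smul, transpose_one]
  · intro y hy
    have : (rc y ⬝ᵥ (I • (1 : Matrix (Fin g) (Fin g) ℂ)) *ᵥ rc y).im = ∑ a, y a ^ 2 := by
      rw [smul_mulVec, one_mulVec]
      simp [dotProduct, im_sum, sq]
    rw [this]
    obtain ⟨a, ha⟩ := Function.ne_iff.1 hy
    have ha' : y a ≠ 0 := ha
    exact sum_pos' (fun _ _ => sq_nonneg _) ⟨a, mem_univ _, by positivity⟩

/-- the monomial of degree `g` in theta constants with characteristics in `(1 / m) ℤ` -/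
def fcMon (m : ℕ) (X : Fin g → (Fin g → Fin m) × (Fin g → Fin m))
    (τ : Matrix (Fin g) (Fin g) ℂ) : ℂ :=
  ∏ j, T τ (fun i => (((X j).1 i : ℕ) : ℂ) / m) (fun i => (((X j).2 i : ℕ) : ℂ) / m)

/-- many monomials are linearly independent as functions on the Siegel space -/
theorem mon_indep (g : ℕ) {m : ℕ} (hm : 0 < m) :
    ∃ s : Finset (Fin g → (Fin g → Fin m) × (Fin g → Fin m)),
      (m ^ 2) ^ (g * g - g) ≤ 3 ^ (g * g) * s.card ∧
      LinearIndependent ℂ fun (X : s) (τ : {τ : Matrix (Fin g) (Fin g) ℂ // Sieg τ}) =>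
        fcMon m X.1 τ.1 := by
  haveI : NeZero (m ^ 2) := ⟨(pow_pos hm 2).ne'⟩
  obtain ⟨r, x, hr, hx, hne⟩ := fb_reps g (m ^ 2)
  let f : Fin r → {τ : Matrix (Fin g) (Fin g) ℂ // Sieg τ} → ℂ := fun i τ =>
    ∏ j, fbT (m ^ 2) τ.1 ((x i).map (↑) j)
  have hf : LinearIndependent ℂ f := by
    refine Fintype.linearIndependent_iff.2 fun c hc => congrFun ?_
    refine fb_indep (pow_pos hm 2).ne' (fc_sieg_I.fc_summable (pow_pos hm 2)) x hx hne c
      fun X hX => ?_
    have := congrFun hc ⟨_, fc_sieg_I.add_real hX⟩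
    simpa only [Finset.sum_apply, Pi.smul_apply, smul_eq_mul, Pi.zero_apply, f] using this
  obtain ⟨s, hs, hli⟩ := fc_extract
    (fun (X : Fin g → (Fin g → Fin m) × (Fin g → Fin m))
      (τ : {τ : Matrix (Fin g) (Fin g) ℂ // Sieg τ}) => fcMon m X τ.1) f hf fun i => by
    choose a κ h using fun j => fc_fbT hm (x i j)
    have e : f i = ∑ B : Fin g → Fin g → Fin m, (∏ j, κ j (B j)) •
        fun τ : {τ : Matrix (Fin g) (Fin g) ℂ // Sieg τ} => fcMon m (fun j => (a j, B j)) τ.1 := by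
      funext τ
      simp only [Finset.sum_apply, Pi.smul_apply, smul_eq_mul, fcMon, ← prod_mul_distrib]
      rw [← Fintype.piFinset_univ, ← prod_univ_sum (fun _ => univ)
        (fun j (b : Fin g → Fin m) => κ j b *
          T τ.1 (fun i => ((a j i : ℕ) : ℂ) / m) (fun i => ((b i : ℕ) : ℂ) / m))]
      exact prod_congr rfl fun j _ => h j τ.1 τ.2
    rw [e]
    exact Submodule.sum_mem _ fun B _ => Submodule.smul_mem _ _ (Submodule.subset_span ⟨_, rfl⟩)
  rw [Fintype.card_fin] at hs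
  exact ⟨s, hr.trans (Nat.mul_le_mul_left _ hs), hli⟩

end Pool.Agent.MT
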