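import Pool.Agent.Lib.MP_d61fbb_ag.MT.H2

/-! Eigenvectors of lattices: spanning, uniqueness, existence, dimension. -/

noncomputable section

namespace Pool.Agent.MT

open Matrix Complex Sum

variable {ι : Type} [Fintype ι] {τ : Matrix ι ι ℂ} {r : ℚ} {f h : VV ι → ℂ}
  {M : AddSubgroup (VV ι)} {χ : VV ι → ℂ}

theorem eig_span {V Y A : Type*} [AddCommGroup V] [Module ℂ V] (v : Y → V) (T : A → V →ₗ[ℂ] V)
    (lam : A → Y → ℂ) (hT : ∀ m y, T m (v y) = lam m y • v y) (χ : A → ℂ) {f : V}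
    (hf : ∀ m, T m f = χ m • f) (hs : f ∈ Submodule.span ℂ (Set.range v)) :
    f ∈ Submodule.span ℂ (v '' {y | ∀ m, lam m y = χ m}) := by
  classical
  have key : ∀ s : Finset Y, f ∈ Submodule.span ℂ (v '' ({y | ∀ m, lam m y = χ m} ∪ s)) →
      f ∈ Submodule.span ℂ (v '' {y | ∀ m, lam m y = χ m}) := by
    intro s
    induction s using Finset.induction_on with
    | empty => simp
    | insert a s _ ih =>
      intro h
      refine ih ?_
      by_cases ha : ∀ m, lam m a = χ m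
      · rwa [Finset.coe_insert, Set.union_insert, Set.insert_eq_of_mem (Set.mem_union_left _
          (show a ∈ {y | ∀ m, lam m y = χ m} from ha))] at h
      obtain ⟨m, hm⟩ := not_forall.1 ha
      rw [Finset.coe_insert, Set.union_insert, Set.image_insert_eq, Submodule.mem_span_insert] at h
      obtain ⟨c, z, hz, e⟩ := h
      have hTz : T m z ∈ Submodule.span ℂ (v '' ({y | ∀ m, lam m y = χ m} ∪ s)) := by
        refine Submodule.span_induction (fun x hx => ?_) (by simp) (fun x y _ _ a b => ?_)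
          (fun c x _ a => ?_) hz
        · obtain ⟨y, hy, rfl⟩ := hx
          rw [hT]; exact Submodule.smul_mem _ _ (Submodule.subset_span ⟨y, hy, rfl⟩)
        · rw [map_add]; exact add_mem a b
        · rw [map_smul]; exact Submodule.smul_mem _ _ a
      have e2 : (χ m - lam m a) • f = T m z - lam m a • z := by
        rw [sub_smul, ← hf, e, map_add, map_smul, hT, smul_add, smul_comm]; abel
      rw [← Submodule.smul_mem_iff _ (sub_ne_zero.2 (Ne.symm hm)), e2]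
      exact sub_mem hTz (Submodule.smul_mem _ _ hz)
  obtain ⟨c, rfl⟩ := Finsupp.mem_span_range_iff_exists_finsupp.1 hs
  exact key c.support (Submodule.sum_mem _ fun y hy => Submodule.smul_mem _ _
    (Submodule.subset_span ⟨y, Set.mem_union_right _ hy, rfl⟩))

theorem UU_ne (r : ℚ) (y : VV ι) (h0 : h ≠ 0) : UU r y h ≠ 0 := fun e => h0 (by
  have := UU_UU r (-y) y h
  rw [e, map_zero, neg_add_cancel, UU_zero'] at this
  exact (smul_eq_zero.1 this.symm).resolve_left (psi_ne _))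

theorem Eig.ne (eh : Eig r M χ h) (h0 : h ≠ 0) {m : VV ι} (hm : m ∈ M) : χ m ≠ 0 := fun e =>
  UU_ne r m h0 (by rw [eh m hm, e, zero_smul])

theorem Eig.UU (eh : Eig r M χ h) (y : VV ι) :
    Eig r M (fun m => psi (r • Ef y m) * χ m) (UU r y h) := fun m hm => by
  rw [UU_comm, eh m hm, LinearMap.map_smul, smul_smul]

theorem UU_add (r : ℚ) (y z : VV ι) (f : VV ι → ℂ) :
    UU r (y + z) f = (eps r z y)⁻¹ • UU r y (UU r z f) := by
  rw [UU_UU, smul_smul, inv_mul_cancel₀ (show eps r z y ≠ 0 from psi_ne _), one_smul]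

/-- eigenvectors with the same eigenvalues are spanned by the translates along the orthogonal -/
theorem HH_span (hτ : SiegI τ) (hr : 0 < r) (hf : f ∈ HH τ r) (hh : h ∈ HH τ r) (h0 : h ≠ 0)
    (ef : Eig r M χ f) (eh : Eig r M χ h) :
    f ∈ Submodule.span ℂ ((fun y => UU r y h) '' perp r M) := by
  refine Submodule.span_mono (Set.image_mono fun y hy m hm => ?_)
    (eig_span (fun y => UU r y h) (fun m : M => UU r m) (fun m y => psi (r • Ef y m) * χ m)
      (fun m y => eh.UU y m m.2) (fun m => χ m) (fun m => ef m m.2) (HH_irr hτ hr hf hh h0))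
  have := psi_eq_one_iff.1 ((mul_eq_right₀ (eh.ne h0 hm)).1 (hy ⟨m, hm⟩))
  rw [Ef_swap, smul_neg]
  exact Zh.neg_mem this

/-- uniqueness -/
theorem HH_uniq (hτ : SiegI τ) (hr : 0 < r) (hf : f ∈ HH τ r) (hh : h ∈ HH τ r) (h0 : h ≠ 0)
    (ef : Eig r M χ f) (eh : Eig r M χ h) (hM : perp r M ≤ M) : ∃ c : ℂ, f = c • h := by
  have : f ∈ Submodule.span ℂ {h} := by
    refine Submodule.span_le.2 ?_ (HH_span hτ hr hf hh h0 ef eh)
    rintro _ ⟨y, hy, rfl⟩
    exact Submodule.mem_span_singleton.2 ⟨χ y, (eh y (hM hy)).symm⟩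
  obtain ⟨c, hc⟩ := Submodule.mem_span_singleton.1 this
  exact ⟨c, hc.symm⟩

/-- decomposition along representatives -/
theorem HH_dec (hτ : SiegI τ) (hr : 0 < r) (hf : f ∈ HH τ r) (hh : h ∈ HH τ r) (h0 : h ≠ 0)
    {M' : AddSubgroup (VV ι)} (hM : M ≤ M') (ef : Eig r M χ f) (eh : Eig r M' χ h)
    {α : Type} [Fintype α] (y : α → VV ι) (hy : ∀ z ∈ perp r M, ∃ i, z - y i ∈ M') :
    ∃ c : α → ℂ, f = ∑ i, c i • UU r (y i) h := by
  have : f ∈ Submodule.span ℂ (Set.range fun i => UU r (y i) h) := by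
    refine Submodule.span_le.2 ?_ (HH_span hτ hr hf hh h0 ef fun m hm => eh m (hM hm))
    rintro _ ⟨z, hz, rfl⟩
    obtain ⟨i, hi⟩ := hy z hz
    have := UU_add r (y i) (z - y i) h
    rw [add_sub_cancel, eh _ hi, map_smul] at this
    show UU r z h ∈ _
    rw [this]
    exact Submodule.smul_mem _ _ (Submodule.smul_mem _ _ (Submodule.subset_span ⟨i, rfl⟩))
  obtain ⟨c, hc⟩ := (Submodule.mem_span_range_iff_exists_fun ℂ).1 this
  exact ⟨c, hc.symm⟩

theorem mem_Lam' {α : Type} {x : α → AF} : x ∈ Lam α ↔ ∀ i, x i ∈ Zh := by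
  simp [Lam, AddSubgroup.mem_pi]

theorem Frame.mem_L (φ : Frame r ι) {x : VV ι} : x ∈ φ.L ↔ φ.γ.symm x ∈ Lam (ι ⊕ ι) := Iff.rfl

theorem Frame.map_mem_L (φ : Frame r ι) {x : VV ι} : φ.γ x ∈ φ.L ↔ x ∈ Lam (ι ⊕ ι) := by
  rw [φ.mem_L, LinearEquiv.symm_apply_apply]

theorem dot_mem_Zh {x y : ι → AF} (hx : ∀ i, x i ∈ Zh) (hy : ∀ i, y i ∈ Zh) : x ⬝ᵥ y ∈ Zh :=
  Zh.sum_mem fun i _ => Zh.mul_mem (hx i) (hy i)

theorem Ef_mem_Zh {x y : VV ι} (hx : x ∈ Lam (ι ⊕ ι)) (hy : y ∈ Lam (ι ⊕ ι)) : Ef x y ∈ Zh :=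
  Zh.sub_mem (dot_mem_Zh (fun _ => mem_Lam'.1 hx _) fun _ => mem_Lam'.1 hy _)
    (dot_mem_Zh (fun _ => mem_Lam'.1 hx _) fun _ => mem_Lam'.1 hy _)

theorem Qf_mem_Zh {x : VV ι} (hx : x ∈ Lam (ι ⊕ ι)) : Qf x ∈ Zh :=
  dot_mem_Zh (fun _ => mem_Lam'.1 hx _) fun _ => mem_Lam'.1 hx _

theorem Zh_unit_mul (u : Zhˣ) {a : AF} (h : ((u : Zh) : AF) * a ∈ Zh) : a ∈ Zh := by
  have := Zh.mul_mem ((u⁻¹ : Zhˣ) : Zh).2 h
  rwa [← mul_assoc, ← Subring.coe_mul, Units.inv_mul, Subring.coe_one, one_mul] at this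

theorem Ef_single_inl [DecidableEq ι] (i : ι) (a : AF) (y : VV ι) :
    Ef (Pi.single (inl i) a) y = a * y (inr i) := by
  simp [Ef, dotProduct, Pi.single_apply]

theorem Ef_single_inr [DecidableEq ι] (i : ι) (a : AF) (y : VV ι) :
    Ef (Pi.single (inr i) a) y = -(a * y (inl i)) := by
  simp [Ef, dotProduct, Pi.single_apply]

theorem single_mem_Lam {α : Type} [DecidableEq α] (j : α) {a : AF} (ha : a ∈ Zh) :
    (Pi.single j a : α → AF) ∈ Lam α := mem_Lam'.2 fun i => by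
  rw [Pi.single_apply]; split_ifs
  · exact ha
  · exact Zh.zero_mem

theorem Frame.perp_eq (φ : Frame r ι) : perp r φ.L = φ.L := by
  classical
  ext y
  obtain ⟨y, rfl⟩ := φ.γ.surjective y
  rw [φ.map_mem_L]
  refine ⟨fun hy => mem_Lam'.2 fun j => ?_, fun hy m hm => ?_⟩
  · have h : ∀ j, Ef (Pi.single j 1) y ∈ Zh := fun j => Zh_unit_mul φ.u (by
      rw [← φ.sim]; exact hy _ (φ.map_mem_L.2 (single_mem_Lam j Zh.one_mem)))
    cases j with
    | inl i => simpa [Ef_single_inr] using h (inr i)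
    | inr i => simpa [Ef_single_inl] using h (inl i)
  · obtain ⟨m, rfl⟩ := φ.γ.surjective m
    rw [φ.sim]
    exact Zh.mul_mem (φ.u : Zh).2 (Ef_mem_Zh (φ.map_mem_L.1 hm) hy)

theorem Frame.chi_add (φ : Frame r ι) {m n : VV ι} (hm : m ∈ φ.L) (hn : n ∈ φ.L) :
    φ.chi (m + n) * eps r n m = φ.chi m * φ.chi n := by
  obtain ⟨m, rfl⟩ := φ.γ.surjective m
  obtain ⟨n, rfl⟩ := φ.γ.surjective n
  rw [φ.map_mem_L] at hm hn
  have e : (r / 2) • Ef (φ.γ n) (φ.γ m) = (1 / 2 : ℚ) • (((φ.u : Zh) : AF) * Ef n m) := by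
    rw [← φ.sim, smul_smul]; congr 1; ring
  simp only [Frame.chi, eps, ← map_add φ.γ, LinearEquiv.symm_apply_apply,
    ← AddChar.map_add_eq_mul, e]
  refine psi_congr ?_
  have : (1 / 2 : ℚ) • (((φ.u : Zh) : AF) * Qf (m + n)) +
      (1 / 2 : ℚ) • (((φ.u : Zh) : AF) * Ef n m) - ((1 / 2 : ℚ) • (((φ.u : Zh) : AF) * Qf m) +
      (1 / 2 : ℚ) • (((φ.u : Zh) : AF) * Qf n)) =
      ((φ.u : Zh) : AF) * ((m ∘ inr) ⬝ᵥ (n ∘ inl)) := by
    rw [← smul_add, ← smul_add, ← smul_sub, Qf_add, Ef_swap n m]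
    rw [show ∀ u a b c d : AF, u * (a + b + c + 2 * d) + u * -c - (u * a + u * b) =
      (2 : ℚ) • (u * d) from fun u a b c d => by rw [two_smul]; ring, smul_smul]
    norm_num
  rw [this]
  exact Zh.mul_mem (φ.u : Zh).2
    (dot_mem_Zh (fun _ => mem_Lam'.1 hm _) fun _ => mem_Lam'.1 hn _)

theorem Frame.chi_ne' (φ : Frame r ι) (m : VV ι) : φ.chi m ≠ 0 := psi_ne _

theorem Frame.chi_two' (φ : Frame r ι) {m : VV ι} (hm : m ∈ φ.L) : φ.chi (2 • m) = 1 := by
  rw [Frame.chi, psi_eq_one_iff, map_nsmul]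
  have : Qf (2 • φ.γ.symm m) = (4 : ℚ) • Qf (φ.γ.symm m) := by
    simp only [Qf, two_smul, Pi.add_comp, add_dotProduct, dotProduct_add]
    module
  rw [this, mul_smul_comm, smul_smul, show (1 / 2 * 4 : ℚ) = 2 by norm_num, two_smul]
  have h := Zh.mul_mem (φ.u : Zh).2 (Qf_mem_Zh hm)
  exact Zh.add_mem h h

theorem exists_den_Lam {α : Type} [Finite α] (x : α → AF) :
    ∃ N : ℕ, N ≠ 0 ∧ N • x ∈ Lam α := by
  classical
  have := Fintype.ofFinite α
  choose N h0 hN using fun i => af_den (x i)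
  refine ⟨∏ i, N i, Finset.prod_ne_zero_iff.2 fun i _ => h0 i, mem_Lam'.2 fun i => ?_⟩
  rw [Pi.smul_apply, nsmul_eq_mul, ← Finset.prod_erase_mul _ _ (Finset.mem_univ i), Nat.cast_mul,
    mul_assoc]
  exact Zh.mul_mem (natCast_mem Zh _) (hN i)

theorem exists_den_map {α β : Type} [Finite α] [Finite β] (γ : (α → AF) →ₗ[AF] β → AF) :
    ∃ N : ℕ, N ≠ 0 ∧ ∀ m ∈ Lam α, N • γ m ∈ Lam β := by
  classical
  have := Fintype.ofFinite α
  choose N h0 hN using fun i : α => exists_den_Lam (γ (Pi.single i 1))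
  refine ⟨∏ i, N i, Finset.prod_ne_zero_iff.2 fun i _ => h0 i, fun m hm => ?_⟩
  rw [pi_eq_sum_univ' m, map_sum, Finset.smul_sum]
  refine sum_mem fun i _ => ?_
  rw [map_smul, smul_comm, ← Finset.prod_erase_mul _ _ (Finset.mem_univ i), mul_smul]
  exact mem_Lam'.2 fun j => Zh.mul_mem (mem_Lam'.1 hm i) (mem_Lam'.1 (nsmul_mem (hN i) _) j)

/-- the normalised translations along the lattice of a frame -/
def Frame.S (φ : Frame r ι) (m : VV ι) : (VV ι → ℂ) →ₗ[ℂ] VV ι → ℂ := (φ.chi m)⁻¹ • UU r m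

theorem Frame.S_add (φ : Frame r ι) {m n : VV ι} (hm : m ∈ φ.L) (hn : n ∈ φ.L) (f : VV ι → ℂ) :
    φ.S (m + n) f = φ.S m (φ.S n f) := by
  simp only [Frame.S, LinearMap.smul_apply, map_smul, UU_UU, smul_smul]
  congr 1
  have h := φ.chi_add hm hn
  have h1 := φ.chi_ne' m
  have h2 := φ.chi_ne' n
  have h3 := φ.chi_ne' (m + n)
  field_simp
  linear_combination -h

theorem Frame.exists_th (φ : Frame r ι) (hτ : SiegI τ) (hr : 0 < r) : ∃ f, φ.IsTh τ f := by
  classical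
  obtain ⟨h, hh, h0⟩ := HH_exists hτ hr
  obtain ⟨N, hN, hs⟩ := hh.1
  obtain ⟨N', hN', hd⟩ := exists_den_map φ.γ.toLinearMap
  have d0 : 2 * (N * N') ≠ 0 := by positivity
  set d := 2 * (N * N') with hdd
  have fix : ∀ z ∈ Lam (ι ⊕ ι), φ.S (φ.γ (d • z)) h = h := fun z hz => by
    have e1 : φ.chi (φ.γ (d • z)) = 1 := by
      rw [hdd, mul_smul, map_nsmul]
      exact φ.chi_two' (φ.map_mem_L.2 (nsmul_mem hz _))
    have e2 : φ.γ (d • z) = N • (N' • φ.γ (2 • z)) := by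
      rw [← map_nsmul, ← map_nsmul, smul_smul, smul_smul, hdd, mul_comm]
    rw [Frame.S, e1, inv_one, one_smul, e2]
    exact hs _ (hd _ (nsmul_mem hz 2))
  let iv : (ι ⊕ ι → ℤ) → VV ι := fun c j => c j
  have ivL : ∀ c, iv c ∈ Lam (ι ⊕ ι) := fun c => mem_Lam'.2 fun j => intCast_mem Zh _
  have ivL' : ∀ c, φ.γ (iv c) ∈ φ.L := fun c => φ.map_mem_L.2 (ivL c)
  have iva : ∀ c e, iv (c + e) = iv c + iv e := fun c e => funext fun j => by simp [iv]
  obtain ⟨P, hP0, hP1, hP2⟩ := exists_proj d0 (fun c => φ.S (φ.γ (iv c)) h) fun c m => by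
    have : iv (d • m) = d • iv m := funext fun j => by simp [iv]
    rw [iva, this, map_add, φ.S_add (ivL' c) (φ.map_mem_L.2 (nsmul_mem (ivL m) _)), fix _ (ivL m)]
  have e0 : φ.S (φ.γ (iv 0)) h = h := by
    have := fix 0 (zero_mem _)
    rwa [smul_zero, show (0 : VV ι) = iv 0 from funext fun j => by simp [iv]] at this
  obtain ⟨k, hk⟩ : ∃ k, P k ≠ 0 := by
    by_contra hc
    push Not at hc
    exact h0 (by rw [← e0, hP0]; simp [hc])
  have hPH : P k ∈ HH τ r := by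
    refine Submodule.span_le.2 ?_ (hP1 k)
    rintro _ ⟨c, rfl⟩
    exact Submodule.smul_mem _ _ (HH_UU hh _)
  let kv : ι ⊕ ι → AF := fun j => qa ((k j : ℕ) / d)
  have hE : Eig r φ.L (fun m => φ.chi m * psi (kv ⬝ᵥ φ.γ.symm m)) (P k) := by
    intro m hm
    obtain ⟨m, rfl⟩ := φ.γ.surjective m
    rw [φ.map_mem_L] at hm
    choose e z hz hez using fun j => Zh_div (mem_Lam'.1 hm j) d d0
    have hz' : z ∈ Lam (ι ⊕ ι) := mem_Lam'.2 hz
    have hzL := φ.map_mem_L.2 (nsmul_mem hz' d)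
    have em : m = iv e + d • z := funext fun j => by simpa [iv] using hez j
    have h1 := hP2 k (φ.S (φ.γ m)) e 1 fun c => by
      rw [one_smul, ← φ.S_add (φ.map_mem_L.2 hm) (ivL' c), em, iva, ← map_add,
        show iv e + d • z + iv c = iv c + iv e + d • z by abel, map_add,
        φ.S_add (φ.map_mem_L.2 (add_mem (ivL c) (ivL e))) hzL, fix z hz']
    have h2 : psi (kv ⬝ᵥ m) = ee ((∑ i, ((k i : ℕ) : ℂ) * e i) / d) := by
      rw [psi_eq (q := (∑ i, ((k i : ℕ) : ℚ) * e i) / d)]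
      · push_cast; rfl
      have hq : ∀ j, kv j * (d : AF) = (k j : ℕ) := fun j => by
        rw [← map_natCast (algebraMap ℚ AF), ← map_natCast (algebraMap ℚ AF), ← map_mul,
          div_mul_cancel₀ _ (Nat.cast_ne_zero.2 d0)]
      rw [Finset.sum_div, qa, map_sum, dotProduct, ← Finset.sum_sub_distrib]
      refine Zh.sum_mem fun j _ => ?_
      rw [hez j, mul_add, ← mul_assoc, hq, mul_div_right_comm, map_mul, map_intCast,
        add_sub_cancel_left]
      exact Zh.mul_mem (natCast_mem Zh _) (hz j)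
    rw [one_mul, ← h2, Frame.S, LinearMap.smul_apply, inv_smul_eq_iff₀ (φ.chi_ne' _),
      smul_smul] at h1
    simp only [h1, LinearEquiv.symm_apply_apply]
  let ui : AF := ((φ.u⁻¹ : Zhˣ) : Zh)
  have hu : ((φ.u : Zh) : AF) * ui = 1 := by
    rw [← Subring.coe_mul, Units.mul_inv, Subring.coe_one]
  let y : VV ι := ui • Sum.elim (fun i => -kv (inr i)) fun i => kv (inl i)
  refine ⟨UU r (φ.γ y) (P k), HH_UU hPH _, UU_ne _ _ hk, fun m hm => ?_⟩
  rw [hE.UU (φ.γ y) m hm]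
  congr 1
  obtain ⟨m, rfl⟩ := φ.γ.surjective m
  have : r • Ef (φ.γ y) (φ.γ m) + kv ⬝ᵥ m = 0 := by
    rw [φ.sim, Ef_smul_left, ← mul_assoc, hu, one_mul]
    simp only [Ef, dotProduct, Fintype.sum_sum_type, Function.comp_apply, Sum.elim_inl,
      Sum.elim_inr]
    rw [← Finset.sum_sub_distrib, ← Finset.sum_add_distrib, ← Finset.sum_add_distrib]
    exact Finset.sum_eq_zero fun i _ => by ring
  beta_reduce
  rw [LinearEquiv.symm_apply_apply, mul_left_comm, ← AddChar.map_add_eq_mul, this,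
    AddChar.map_zero_eq_one, mul_one]

theorem Frame.IsTh.uniq {φ : Frame r ι} (hτ : SiegI τ) (hr : 0 < r) (hh : φ.IsTh τ h)
    (hf : f ∈ HH τ r) (ef : Eig r φ.L φ.chi f) : ∃ c : ℂ, f = c • h :=
  HH_uniq hτ hr hf hh.mem hh.ne ef hh.eig φ.perp_eq.le

/-- division of the first half of the coordinates by `D` -/
def shr (ι : Type) {D : ℕ} (hD : 0 < D) : VV ι ≃ₗ[AF] VV ι where
  toFun x := Sum.elim (fun i => qa (D : ℚ)⁻¹ * x (inl i)) fun i => x (inr i)
  invFun x := Sum.elim (fun i => qa D * x (inl i)) fun i => x (inr i)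
  map_add' x y := funext fun j => by cases j <;> simp [mul_add]
  map_smul' c x := funext fun j => by cases j <;> simp [mul_left_comm]
  left_inv x := funext fun j => by
    cases j with
    | inl i =>
      simp only [Sum.elim_inl]
      rw [← mul_assoc, ← map_mul, mul_inv_cancel₀ (Nat.cast_ne_zero.2 hD.ne'), map_one, one_mul]
    | inr i => rfl
  right_inv x := funext fun j => by
    cases j with
    | inl i =>
      simp only [Sum.elim_inl]
      rw [← mul_assoc, ← map_mul, inv_mul_cancel₀ (Nat.cast_ne_zero.2 hD.ne'), map_one, one_mul]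
    | inr i => rfl

theorem Ef_shr {D : ℕ} (hD : 0 < D) (x y : VV ι) :
    Ef (shr ι hD x) (shr ι hD y) = (D : ℚ)⁻¹ • Ef x y := by
  rw [Algebra.smul_def]
  simp only [Ef, dotProduct, mul_sub, Finset.mul_sum]
  congr 1 <;> refine Finset.sum_congr rfl fun i _ => ?_
  · exact mul_assoc _ _ _
  · exact mul_left_comm _ _ _

/-- a frame of scale `D * r` whose lattice contains the given one -/
def Frame.up (φ : Frame r ι) {D : ℕ} (hD : 0 < D) : Frame (D * r) ι where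
  γ := (shr ι hD).trans φ.γ
  u := φ.u
  sim x y := by
    rw [LinearEquiv.trans_apply, LinearEquiv.trans_apply, mul_smul, φ.sim, Ef_shr, mul_smul_comm,
      smul_smul, mul_inv_cancel₀ (Nat.cast_ne_zero.2 hD.ne'), one_smul]

theorem Frame.mem_up (φ : Frame r ι) {D : ℕ} (hD : 0 < D) {x : VV ι} :
    φ.γ x ∈ (φ.up hD).L ↔ ∀ i, (D : AF) * x (inl i) ∈ Zh ∧ x (inr i) ∈ Zh := by
  have : (φ.up hD).γ.symm (φ.γ x) = Sum.elim (fun i => qa D * x (inl i)) fun i => x (inr i) := by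
    simp only [Frame.up, LinearEquiv.symm_trans_apply, LinearEquiv.symm_apply_apply]; rfl
  rw [Frame.mem_L, this, mem_Lam', Sum.forall, forall_and]
  simp

theorem Frame.le_up (φ : Frame r ι) {D : ℕ} (hD : 0 < D) : φ.L ≤ (φ.up hD).L := fun x hx => by
  obtain ⟨x, rfl⟩ := φ.γ.surjective x
  have := mem_Lam'.1 (φ.map_mem_L.1 hx)
  exact (φ.mem_up hD).2 fun i => ⟨Zh.mul_mem (natCast_mem Zh _) (this _), this _⟩

theorem Frame.mem_perp (φ : Frame r ι) (D : ℕ) {x : VV ι} (hx : φ.γ x ∈ perp (D * r) φ.L)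
    (j : ι ⊕ ι) : (D : AF) * x j ∈ Zh := by
  have : φ.γ (D • x) ∈ perp r φ.L := fun m hm => by
    have := hx m hm
    rwa [mul_comm, mul_smul, Nat.cast_smul_eq_nsmul, nsmul_eq_mul, ← Ef_smul_right,
      Nat.cast_smul_eq_nsmul, ← map_nsmul] at this
  rw [φ.perp_eq, φ.map_mem_L] at this
  simpa using mem_Lam'.1 this j

theorem Zh_div_fin {z : AF} (hz : z ∈ Zh) {D : ℕ} (hD : 0 < D) :
    ∃ n : Fin D, ∃ z' ∈ Zh, z = (n : ℕ) + D * z' := by
  obtain ⟨n, z', hz', e⟩ := Zh_div hz D hD.ne'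
  have h0 : (D : ℤ) ≠ 0 := by omega
  have h1 := Int.emod_nonneg n h0
  have h2 := Int.emod_lt_of_pos n (show (0 : ℤ) < D by omega)
  refine ⟨⟨(n % D).toNat, by omega⟩, (n / D : ℤ) + z', Zh.add_mem (intCast_mem Zh _) hz', ?_⟩
  have h3 : (((n % D).toNat : ℕ) : AF) = (n % D : ℤ) := by
    rw [← Int.cast_natCast, Int.toNat_of_nonneg h1]
  have h4 : (n : AF) = (n % D : ℤ) + D * (n / D : ℤ) := by
    exact_mod_cast congrArg (Int.cast : ℤ → AF) (Int.emod_add_mul_ediv n D).symm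
  rw [e, h3, h4]; ring

/-- the bound `D ^ g` for the dimension of the space of theta functions of degree `D` -/
theorem Frame.dim_le (φ : Frame r ι) (hτ : SiegI τ) (hr : 0 < r) {D : ℕ} (hD : 0 < D)
    {α : Type} [Fintype α] (F : α → VV ι → ℂ) (hF : ∀ i, F i ∈ HH τ (D * r))
    (eF : ∀ i, Eig (D * r) φ.L χ (F i)) (hl : LinearIndependent ℂ F) :
    Fintype.card α ≤ D ^ Fintype.card ι := by
  classical
  rcases isEmpty_or_nonempty α with hα | ⟨⟨i0⟩⟩
  · simp
  have hr' : (0 : ℚ) < D * r := by positivity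
  obtain ⟨h, hh⟩ := (φ.up hD).exists_th hτ hr'
  have h1 := eig_span (fun y => UU (D * r) y h) (fun m : φ.L => UU (D * r) m)
    (fun m y => psi ((D * r) • Ef y m) * (φ.up hD).chi m)
    (fun m y => hh.eig.UU y m (φ.le_up hD m.2)) (fun m => χ m) (fun m => eF i0 m m.2)
    (HH_irr hτ hr' (hF i0) hh.mem hh.ne)
  obtain ⟨y0, hy0⟩ : {y : VV ι | ∀ m : φ.L,
      psi ((D * r) • Ef y m) * (φ.up hD).chi m = χ m}.Nonempty := by
    by_contra hc
    rw [Set.not_nonempty_iff_eq_empty.1 hc, Set.image_empty, Submodule.span_empty] at h1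
    exact hl.ne_zero i0 h1
  let y : (ι → Fin D) → VV ι := fun k =>
    φ.γ (Sum.elim (fun _ => 0) fun i => qa ((k i : ℕ) / D))
  have h2 : ∀ i, F i ∈ Submodule.span ℂ
      (Set.range fun k => UU (D * r) (y k) (UU (D * r) y0 h)) := fun i => by
    obtain ⟨c, hc⟩ := HH_dec hτ hr' (hF i) (HH_UU hh.mem y0) (UU_ne _ _ hh.ne) (φ.le_up hD)
      (fun m hm => by rw [eF i m hm, ← hy0 ⟨m, hm⟩]) (hh.eig.UU y0) y fun z hz => by
        obtain ⟨z, rfl⟩ := φ.γ.surjective z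
        choose k w hw e using fun i => Zh_div_fin (φ.mem_perp D hz (inr i)) hD
        refine ⟨k, ?_⟩
        rw [← map_sub, φ.mem_up hD]
        refine fun i => ⟨by simpa using φ.mem_perp D hz (inl i), ?_⟩
        have hq : qa (D : ℚ)⁻¹ * (D : AF) = 1 := by
          rw [← map_natCast (algebraMap ℚ AF), ← map_mul,
            inv_mul_cancel₀ (Nat.cast_ne_zero.2 hD.ne'), map_one]
        have : z (inr i) - qa ((k i : ℕ) / D) = w i := by
          rw [div_eq_mul_inv, qa, map_mul, map_natCast]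
          linear_combination qa (D : ℚ)⁻¹ * e i + (w i - z (inr i)) * hq
        simpa [this] using hw i
    exact (Submodule.mem_span_range_iff_exists_fun ℂ).2 ⟨c, hc.symm⟩
  refine (linearIndependent_le_span_aux' F hl _ (Set.range_subset_iff.2 h2)).trans
    ((Fintype.card_range_le _).trans ?_)
  simp

end Pool.Agent.MT
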