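import Pool.Agent.Lib.MP_d61fbb_ag.MT.HA

/-! The Heisenberg modules of theta functions on the adelic symplectic space: definitions. -/

noncomputable section

namespace Pool.Agent.MT

open Matrix Complex Sum

variable {ι κ : Type} [Fintype ι] [Fintype κ]

/-- the adelic symplectic space -/
abbrev VV (ι : Type) : Type := ι ⊕ ι → AF

/-- rational vectors as adelic vectors -/
abbrev qv' {α : Type} (q : α → ℚ) : α → AF := fun i => qa (q i)

/-- the integral vectors -/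
def Lam (α : Type) : AddSubgroup (α → AF) := AddSubgroup.pi Set.univ fun _ => Zh.toAddSubgroup

/-- the character of the commutator, `psi (r E(x,y) / 2)` -/
def eps (r : ℚ) (x y : VV ι) : ℂ := psi ((r / 2) • Ef x y)

/-- the translation operators -/
def UU (r : ℚ) (y : VV ι) : (VV ι → ℂ) →ₗ[ℂ] VV ι → ℂ where
  toFun f x := eps r y x * f (x + y)
  map_add' _ _ := funext fun _ => mul_add _ _ _
  map_smul' _ _ := funext fun _ => mul_left_comm _ _ _

/-- the Siegel upper half space for any index set -/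
structure SiegI (τ : Matrix ι ι ℂ) : Prop where
  symm : τᵀ = τ
  pos : ∀ y : ι → ℝ, y ≠ 0 → 0 < (rc y ⬝ᵥ τ *ᵥ rc y).im

/-- the complex coordinate -/
def zz (τ : Matrix ι ι ℂ) (x : ι ⊕ ι → ℂ) : ι → ℂ := τ *ᵥ (x ∘ inl) + x ∘ inr

/-- entire functions that are holomorphic sections for the complex structure of `τ` -/
structure Hol (τ : Matrix ι ι ℂ) (r : ℚ) (F : (ι ⊕ ι → ℂ) → ℂ) : Prop where
  diff : Differentiable ℂ F
  cr : ∀ u, zz τ u = 0 → ∀ x, F (x + u) = ee (r / 2 * Ef u x) * F x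

/-- invariance under a small lattice -/
def Smooth (r : ℚ) (f : VV ι → ℂ) : Prop :=
  ∃ N : ℕ, N ≠ 0 ∧ ∀ m ∈ Lam (ι ⊕ ι), UU r (N • m) f = f

lemma Smooth.common {r s : ℚ} {f h : VV ι → ℂ} (hf : Smooth r f) (hh : Smooth s h) :
    ∃ N : ℕ, N ≠ 0 ∧ ∀ m ∈ Lam (ι ⊕ ι), UU r (N • m) f = f ∧ UU s (N • m) h = h := by
  obtain ⟨M, hM, a⟩ := hf
  obtain ⟨N, hN, b⟩ := hh
  refine ⟨M * N, mul_ne_zero hM hN, fun m hm => ⟨?_, ?_⟩⟩
  · rw [mul_smul]; exact a _ (nsmul_mem hm _)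
  · rw [mul_comm, mul_smul]; exact b _ (nsmul_mem hm _)

/-- the Heisenberg module of scale `r` -/
def HH (τ : Matrix ι ι ℂ) (r : ℚ) : Submodule ℂ (VV ι → ℂ) where
  carrier := {f | Smooth r f ∧ ∃ F, Hol τ r F ∧ ∀ q, f (qv' q) = F (qc q)}
  add_mem' := by
    rintro f h ⟨a, F, hF, e⟩ ⟨b, G, hG, e'⟩
    obtain ⟨N, hN, c⟩ := a.common b
    exact ⟨⟨N, hN, fun m hm => by rw [map_add, (c m hm).1, (c m hm).2]⟩, F + G,
      ⟨hF.1.add hG.1, fun u hu x => by simp only [Pi.add_apply, hF.2 u hu, hG.2 u hu, mul_add]⟩,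
      fun q => by simp only [Pi.add_apply, e, e']⟩
  zero_mem' := ⟨⟨1, one_ne_zero, fun _ _ => map_zero _⟩, 0,
    ⟨differentiable_const _, fun _ _ _ => by simp⟩, fun _ => rfl⟩
  smul_mem' := by
    rintro c f ⟨⟨N, hN, a⟩, F, hF, e⟩
    exact ⟨⟨N, hN, fun m hm => by rw [map_smul, a m hm]⟩, c • F,
      ⟨hF.1.const_smul c, fun u hu x => by
        simp only [Pi.smul_apply, hF.2 u hu, smul_eq_mul, mul_left_comm]⟩,
      fun q => by simp only [Pi.smul_apply, e]⟩

/-- eigenvectors of a subgroup -/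
def Eig (r : ℚ) (M : AddSubgroup (VV ι)) (χ : VV ι → ℂ) (f : VV ι → ℂ) : Prop :=
  ∀ m ∈ M, UU r m f = χ m • f

/-- the orthogonal of a subgroup -/
def perp (r : ℚ) (M : AddSubgroup (VV ι)) : AddSubgroup (VV ι) where
  carrier := {y | ∀ m ∈ M, r • Ef m y ∈ Zh}
  add_mem' hx hy m hm := by rw [Ef_add_right, smul_add]; exact Zh.add_mem (hx m hm) (hy m hm)
  zero_mem' m _ := by simp
  neg_mem' hx m hm := by rw [Ef_neg_right, smul_neg]; exact Zh.neg_mem (hx m hm)

/-- a rational vector close to an adelic vector -/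
def apx {α : Type} (x : α → AF) : α → ℚ := fun i => (exists_frac (x i)).choose

/-- the theta function of Mumford on the adelic space -/
def Theta {g : ℕ} (τ : Matrix (Fin g) (Fin g) ℂ) (x : VV (Fin g)) : ℂ :=
  psi ((1 / 2 : ℚ) • (Qf (x - qv' (apx x)) + Ef (qv' (apx x)) (x - qv' (apx x)))) *
    Th τ (qc (apx x))

/-- the eigenvalues of the theta function -/
def chi0 (m : VV ι) : ℂ := psi ((1 / 2 : ℚ) • Qf m)

/-- a frame: an adelic similitude whose multiplier times `r` is an integral unit -/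
structure Frame (r : ℚ) (ι : Type) [Fintype ι] where
  /-- the linear map -/
  γ : VV ι ≃ₗ[AF] VV ι
  /-- the unit -/
  u : Zhˣ
  sim : ∀ x y, r • Ef (γ x) (γ y) = (u : Zh) * Ef x y

/-- the lattice of a frame -/
def Frame.L {r : ℚ} (φ : Frame r ι) : AddSubgroup (VV ι) := (Lam _).comap φ.γ.symm.toAddMonoidHom

/-- the quadratic character of a frame -/
def Frame.chi {r : ℚ} (φ : Frame r ι) (m : VV ι) : ℂ :=
  psi ((1 / 2 : ℚ) • (((φ.u : Zh) : AF) * Qf (φ.γ.symm m)))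

/-- theta functions of a frame -/
structure Frame.IsTh {r : ℚ} (φ : Frame r ι) (τ : Matrix ι ι ℂ) (f : VV ι → ℂ) : Prop where
  mem : f ∈ HH τ r
  ne : f ≠ 0
  eig : Eig r φ.L φ.chi f

end Pool.Agent.MT
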