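import Pool.Agent.Lib.MP_d61fbb_ag.MT.GT1

/-! Matrices congruent to one modulo four have no root of unity other than one as eigenvalue. -/

set_option autoImplicit false

namespace Pool.Agent.MT.U

open Matrix

variable {n R : Type*} [Fintype n] [DecidableEq n] [Field R] [CharZero R]

theorem ut_odd {M : Matrix n n ℤ} (h : (Int.castRingHom (ZMod 2)).mapMatrix M = 1) {w : n → R}
    (e : (Int.castRingHom R).mapMatrix M *ᵥ w = 0) : w = 0 := by
  refine eq_zero_of_mulVec_eq_zero (fun h0 => ?_) e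
  have := congrArg det h
  rw [← RingHom.map_det, eq_intCast, Int.cast_eq_zero] at h0
  rw [← RingHom.map_det, h0, map_zero, det_one] at this
  exact zero_ne_one this

omit [Fintype n] [DecidableEq n] in
theorem ut_add (Y : Matrix n n (ZMod 2)) : Y + Y = 0 :=
  Matrix.ext fun i j => CharTwo.add_self_eq_zero (Y i j)

theorem ut_two (Y : Matrix n n ℤ) : (Int.castRingHom (ZMod 2)).mapMatrix (1 + (2 : ℤ) • Y) = 1 := by
  rw [map_add, map_one, map_zsmul, two_smul, ut_add, add_zero]

/-- neatness -/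
theorem neat {N : ℕ} (hN : N ≠ 0) {A Y : Matrix n n ℤ} (hA : A = 1 + (4 : ℤ) • Y) {v : n → R}
    (h : (A.map (↑) : Matrix n n R) ^ N *ᵥ v = v) : (A.map (↑) : Matrix n n R) *ᵥ v = v := by
  change (Int.castRingHom R).mapMatrix A ^ N *ᵥ v = v at h
  change (Int.castRingHom R).mapMatrix A *ᵥ v = v
  induction N using Nat.strong_induction_on generalizing A Y with | _ N ih => ?_
  have k : ∀ M : ℕ, (Int.castRingHom R).mapMatrix A ^ M *ᵥ v = v →
      (Int.castRingHom R).mapMatrix (∑ i ∈ Finset.range M, A ^ i) *ᵥ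
        ((Int.castRingHom R).mapMatrix A *ᵥ v - v) = 0 := fun M h => by
    rw [← one_mulVec v, mulVec_mulVec, mul_one, ← sub_mulVec, mulVec_mulVec, map_sum]
    simp only [map_pow]
    rw [geom_sum_mul, sub_mulVec, h, one_mulVec, sub_self]
  refine sub_eq_zero.1 ?_
  rcases N.even_or_odd' with ⟨m, rfl | rfl⟩
  · rw [pow_mul, ← map_pow] at h
    have h2 := ih m (by omega) (by omega) (Y := (2 : ℤ) • Y + (4 : ℤ) • (Y * Y)) (by
      rw [hA]; noncomm_ring) h
    rw [map_pow] at h2
    have h3 := k 2 h2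
    rw [show ∑ i ∈ Finset.range 2, A ^ i = (2 : ℤ) • (1 + (2 : ℤ) • Y) by
      simp only [Finset.sum_range_succ, Finset.sum_range_zero, hA]; noncomm_ring, map_zsmul, smul_mulVec,
      smul_eq_zero_iff_right two_ne_zero] at h3
    exact ut_odd (ut_two Y) h3
  · refine ut_odd ?_ (k _ h)
    have : (Int.castRingHom (ZMod 2)).mapMatrix A = 1 := by
      rw [hA, ← ut_two ((2 : ℤ) • Y), smul_smul]
      rfl
    simp only [map_sum, map_pow, this, one_pow, Finset.sum_const, Finset.card_range]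
    rw [succ_nsmul, mul_nsmul, two_nsmul, ut_add, smul_zero, zero_add]

omit [Fintype n] in
theorem tk_cong (κ : Type*) [Fintype κ] [DecidableEq κ] {m : ℤ} {A Y : Matrix n n ℤ}
    (hA : A = 1 + m • Y) : ∃ Y', tk κ A = 1 + m • Y' := by
  have h : ∀ a b, m ∣ tk κ A a b - tk κ (1 : Matrix n n ℤ) a b := fun a b =>
    (Int.ModEq.prod fun i _ => (Int.modEq_iff_dvd.2 ⟨Y (a i) (b i), by simp [hA]⟩)).dvd
  choose Y' hY using h
  refine ⟨of Y', Matrix.ext fun a b => ?_⟩
  rw [Matrix.add_apply, ← tk_one (n := n), Matrix.smul_apply, of_apply, smul_eq_mul, ← hY]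
  exact (add_sub_cancel _ _).symm

end Pool.Agent.MT.U
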