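import Mathlib

/-! Zariski closures and extension of scalars. -/

set_option autoImplicit false

namespace Pool.Agent.MT

open MvPolynomial

theorem stz_base {k F σ : Type} [Field k] [Field F] (i : k →+* F) (A : Set (σ → k)) (g : σ → F) :
    (∀ f : MvPolynomial σ k, (∀ x ∈ A, eval x f = 0) → eval₂ i g f = 0) ↔
      ∀ f : MvPolynomial σ F, (∀ x ∈ A, eval (fun s => i (x s)) f = 0) → eval g f = 0 := by
  classical
  constructor
  · intro h f hf
    let := i.toAlgebra
    let b := Module.Basis.ofVectorSpace k F
    let p : _ → MvPolynomial σ k := fun j => ∑ m ∈ f.support, monomial m (b.repr (f.coeff m) j)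
    have h1 : ∀ j, eval₂ i g (p j) = 0 := fun j => h _ fun x hx => by
      have := congrArg (fun z => b.repr z j) (hf x hx)
      simp only [eval_eq, map_sum, map_zero, Finsupp.coe_zero, Pi.zero_apply,
        Finsupp.coe_finsetSum, Finset.sum_apply] at this
      rw [← this]
      simp only [p, map_sum, eval_monomial]
      refine Finset.sum_congr rfl fun m _ => ?_
      have e : coeff m f * ∏ s ∈ m.support, i (x s) ^ m s =
          (∏ s ∈ m.support, x s ^ m s) • coeff m f := by
        rw [Algebra.smul_def, mul_comm, map_prod]
        simp only [map_pow]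
        rfl
      rw [e, map_smul, Finsupp.smul_apply, smul_eq_mul, mul_comm]
      rfl
    let T := f.support.biUnion fun m => (b.repr (f.coeff m)).support
    have h2 : ∀ m ∈ f.support, f.coeff m = ∑ j ∈ T, i (b.repr (f.coeff m) j) * b j := fun m hm => by
      conv_lhs => rw [← b.linearCombination_repr (f.coeff m), Finsupp.linearCombination_apply,
        Finsupp.sum_of_support_subset _ (Finset.subset_biUnion_of_mem
          (fun m => (b.repr (f.coeff m)).support) hm) _ (by simp)]
      rfl
    calc eval g f = ∑ m ∈ f.support, (∑ j ∈ T, i (b.repr (f.coeff m) j) * b j) *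
          ∏ s ∈ m.support, g s ^ m s := by
          rw [eval_eq]
          exact Finset.sum_congr rfl fun m hm => by rw [← h2 m hm]
      _ = ∑ j ∈ T, b j * eval₂ i g (p j) := by
          simp only [p, eval₂_sum, eval₂_monomial, Finset.sum_mul, Finset.mul_sum]
          rw [Finset.sum_comm]
          refine Finset.sum_congr rfl fun j _ => Finset.sum_congr rfl fun m _ => ?_
          rw [Finsupp.prod]
          ring
      _ = 0 := by simp [h1]
  · intro h f hf
    rw [eval₂_eq_eval_map]
    refine h _ fun x hx => ?_
    rw [← eval₂_eq_eval_map, ← map_zero i, ← hf x hx, eval, coe_eval₂Hom, eval₂_comp_left,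
      RingHom.comp_id]
    rfl

end Pool.Agent.MT
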