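import Pool.Agent.Lib.MP_d61fbb_ag.MT.GT1

/-! Rational subspaces and Hodge generic complex structures. -/

set_option autoImplicit false

open Matrix

namespace Pool.Agent.MT

variable {n P : Type*} [Fintype n] [DecidableEq n]

/-- a real vector is a real combination of its rational shadows -/
theorem real_span [Finite P] (w : P → ℝ) : w ∈ Submodule.span ℝ
    (Set.range fun lam : ℝ →ₗ[ℚ] ℚ => fun p => (lam (w p) : ℝ)) := by
  classical
  have := Fintype.ofFinite P
  let b := Module.Basis.ofVectorSpace ℚ ℝ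
  let S := Finset.univ.biUnion fun p => (b.repr (w p)).support
  have : w = ∑ k ∈ S, b k • fun p => (b.coord k (w p) : ℝ) := by
    funext p
    simp only [Finset.sum_apply, Pi.smul_apply, smul_eq_mul, Module.Basis.coord_apply]
    conv_lhs => rw [← b.linearCombination_repr (w p), Finsupp.linearCombination_apply,
      Finsupp.sum_of_support_subset _ (Finset.subset_biUnion_of_mem
        (fun p => (b.repr (w p)).support) (Finset.mem_univ p)) _ (by simp)]
    exact Finset.sum_congr rfl fun k _ => by rw [Rat.smul_def, mul_comm]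
  rw [this]
  refine Submodule.sum_mem _ fun k _ => Submodule.smul_mem _ _ (Submodule.subset_span ?_)
  exact ⟨b.coord k, by rw [← this]⟩

/-- a rational matrix as a real matrix -/
abbrev qr {m m' : Type*} (X : Matrix m m' ℚ) : Matrix m m' ℝ := X.map (↑)

/-- an integral matrix as a rational matrix -/
abbrev zq {m m' : Type*} (X : Matrix m m' ℤ) : Matrix m m' ℚ := X.map (↑)

/-- the symplectic Lie algebra -/
def IsLie {R : Type*} [CommRing R] (E X : Matrix n n R) : Prop := Xᵀ * E + E * X = 0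

/-- The Lie algebra has a proper rational subspace that is stable under `J`. -/
def NG (E : Matrix n n ℚ) (J : Matrix n n ℝ) : Prop :=
  ∃ hh : Submodule ℚ (Matrix n n ℚ), (∀ X ∈ hh, IsLie E X) ∧ hh ≠ ⊥ ∧ (∃ X, IsLie E X ∧ X ∉ hh) ∧
    ∀ X ∈ hh, J * qr X - qr X * J ∈ Submodule.span ℝ (qr '' (hh : Set (Matrix n n ℚ)))

omit [DecidableEq n] in
theorem qr_mul {a b : Type*} (X : Matrix a n ℚ) (Y : Matrix n b ℚ) : qr (X * Y) = qr X * qr Y :=
  Matrix.map_mul (f := Rat.castHom ℝ)

omit [DecidableEq n] in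
theorem zq_mul {a b : Type*} (X : Matrix a n ℤ) (Y : Matrix n b ℤ) : zq (X * Y) = zq X * zq Y :=
  Matrix.map_mul (f := Int.castRingHom ℚ)

omit [Fintype n] in
theorem zq_one : zq (1 : Matrix n n ℤ) = 1 := Matrix.map_one _ (by simp) (by simp)

omit [Fintype n] in
theorem qr_one : qr (1 : Matrix n n ℚ) = 1 := Matrix.map_one _ (by simp) (by simp)

theorem qr_inj {a b : Type*} {X Y : Matrix a b ℚ} (h : qr X = qr Y) : X = Y :=
  Matrix.map_injective Rat.cast_injective h

/-- the inclusion of rational matrices -/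
def qrL (a b : Type*) : Matrix a b ℚ →ₗ[ℚ] Matrix a b ℝ where
  toFun := qr
  map_add' X Y := by ext; simp
  map_smul' c X := by ext; simp [Rat.smul_def]

omit [DecidableEq n] in
theorem map_mul_qr {a b : Type*} (lam : ℝ →ₗ[ℚ] ℚ) (X : Matrix a n ℝ) (Y : Matrix n b ℚ) :
    (X * qr Y).map lam = X.map lam * Y := by
  ext i j
  simp only [map_apply, mul_apply, map_sum]
  exact Finset.sum_congr rfl fun k _ => by
    rw [mul_comm, ← Rat.smul_def, map_smul, smul_eq_mul, mul_comm]

omit [DecidableEq n] in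
theorem map_qr_mul {a b : Type*} (lam : ℝ →ₗ[ℚ] ℚ) (Y : Matrix a n ℚ) (X : Matrix n b ℝ) :
    (qr Y * X).map lam = Y * X.map lam := by
  ext i j
  simp only [map_apply, mul_apply, map_sum]
  exact Finset.sum_congr rfl fun k _ => by rw [← Rat.smul_def, map_smul, smul_eq_mul]

omit [DecidableEq n] in
theorem isLie_qr {E X : Matrix n n ℚ} : IsLie (qr E) (qr X) ↔ IsLie E X := by
  have : (qr X)ᵀ * qr E + qr E * qr X = qr (Xᵀ * E + E * X) := by
    rw [show qr (Xᵀ * E + E * X) = qr (Xᵀ * E) + qr (E * X) from (qrL n n).map_add _ _, qr_mul,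
      qr_mul]
    rfl
  rw [IsLie, this]
  exact ⟨fun h => qr_inj (h.trans (qrL n n).map_zero.symm), fun h => by
    rw [show Xᵀ * E + E * X = 0 from h]; exact (qrL n n).map_zero⟩

omit [DecidableEq n] in
theorem IsLie.map {E : Matrix n n ℚ} {X : Matrix n n ℝ} (h : IsLie (qr E) X) (lam : ℝ →ₗ[ℚ] ℚ) :
    IsLie E (X.map lam) := by
  have := congrArg (fun Y => Y.map lam) h
  rw [Matrix.map_add _ (map_add lam), map_mul_qr, map_qr_mul, Matrix.map_zero _ (map_zero lam)]
    at this
  exact this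

omit [DecidableEq n] in
theorem IsLie.lie {R : Type*} [CommRing R] {E X Y : Matrix n n R} (hX : IsLie E X)
    (hY : IsLie E Y) : IsLie E (X * Y - Y * X) := by
  have h1 : Xᵀ * E = -(E * X) := eq_neg_of_add_eq_zero_left hX
  have h2 : Yᵀ * E = -(E * Y) := eq_neg_of_add_eq_zero_left hY
  simp only [IsLie, transpose_sub, transpose_mul, Matrix.sub_mul, Matrix.mul_sub, Matrix.mul_assoc,
    h1, h2, Matrix.mul_neg]
  simp only [← Matrix.mul_assoc, h1, h2, Matrix.neg_mul]
  abel

/-- the Lie algebra as a submodule -/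
def lieSub {R : Type*} [CommRing R] (E : Matrix n n R) : Submodule R (Matrix n n R) where
  carrier := {X | IsLie E X}
  add_mem' {X Y} hX hY := by
    simp only [Set.mem_ofPred_eq, IsLie, transpose_add, Matrix.add_mul, Matrix.mul_add] at *
    linear_combination (norm := abel1) hX + hY
  zero_mem' := by simp [IsLie]
  smul_mem' c X hX := by
    simp only [Set.mem_ofPred_eq, IsLie, transpose_smul, Matrix.smul_mul, Matrix.mul_smul] at *
    rw [← smul_add, hX, smul_zero]

omit [DecidableEq n] in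
/-- the use of genericity -/
theorem gen_real {E : Matrix n n ℚ} {J : Matrix n n ℝ} (h : ¬ NG E J)
    (N : Submodule ℝ (Matrix n n ℝ)) (hr : ∀ lam : ℝ →ₗ[ℚ] ℚ, ∀ X ∈ N, qr (X.map lam) ∈ N)
    (hl : ∀ X ∈ N, IsLie (qr E) X) (hJ : ∀ X ∈ N, J * X - X * J ∈ N) (h0 : ∃ X ∈ N, X ≠ 0) :
    ∀ X, IsLie E X → qr X ∈ N := by
  by_contra! hc
  let hh : Submodule ℚ (Matrix n n ℚ) := (N.restrictScalars ℚ).comap (qrL n n)
  have k : ∀ X ∈ N, X ∈ Submodule.span ℝ (qr '' (hh : Set (Matrix n n ℚ))) := by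
    intro X hX
    have := Submodule.apply_mem_span_image_of_mem_span
      (LinearEquiv.curry ℝ ℝ n n).toLinearMap (real_span (Function.uncurry X))
    refine Submodule.span_mono ?_ this
    rintro _ ⟨_, ⟨lam, rfl⟩, rfl⟩
    exact ⟨X.map lam, hr lam X hX, rfl⟩
  refine h ⟨hh, fun X hX => isLie_qr.1 (hl _ hX), fun hb => ?_, hc, fun X hX => k _ (hJ _ hX)⟩
  obtain ⟨X, hX, hX0⟩ := h0
  have := k X hX
  rw [hb, Submodule.bot_coe, Set.image_singleton,
    show qr (0 : Matrix n n ℚ) = 0 from (qrL n n).map_zero, Submodule.span_zero_singleton] at this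
  exact hX0 this

/-- a rational matrix that commutes with a generic complex structure is central -/
theorem gen_comm {E : Matrix n n ℚ} {J : Matrix n n ℝ} (h : ¬ NG E J) (hJ : IsLie (qr E) J)
    (h0 : J ≠ 0) {d : Matrix n n ℚ} (hd : qr d * J = J * qr d) :
    ∀ X, IsLie E X → d * X = X * d := by
  let N : Submodule ℝ (Matrix n n ℝ) := lieSub (qr E) ⊓
    { carrier := {X | qr d * X = X * qr d}
      add_mem' := fun {X Y} hX hY => by
        simp only [Set.mem_ofPred_eq, Matrix.add_mul, Matrix.mul_add] at *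
        rw [hX, hY]
      zero_mem' := by simp
      smul_mem' := fun c X hX => by
        simp only [Set.mem_ofPred_eq, Matrix.smul_mul, Matrix.mul_smul] at *
        rw [hX] }
  intro X hX
  have := gen_real h N ?_ (fun X hX => hX.1) ?_ ⟨J, ⟨hJ, hd⟩, h0⟩ X hX
  · exact qr_inj (by rw [qr_mul, qr_mul]; exact this.2)
  · rintro lam X ⟨h1, h2⟩
    refine ⟨isLie_qr.2 (IsLie.map h1 lam), ?_⟩
    change qr d * qr (X.map lam) = qr (X.map lam) * qr d
    rw [← qr_mul, ← qr_mul, ← map_qr_mul, ← map_mul_qr, show qr d * X = X * qr d from h2]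
  · rintro X ⟨h1, h2⟩
    refine ⟨hJ.lie h1, ?_⟩
    change qr d * (J * X - X * J) = (J * X - X * J) * qr d
    replace h2 : qr d * X = X * qr d := h2
    rw [Matrix.mul_sub, Matrix.sub_mul, ← Matrix.mul_assoc, hd, Matrix.mul_assoc, h2,
      ← Matrix.mul_assoc (qr d), h2, Matrix.mul_assoc X, hd]
    simp only [Matrix.mul_assoc]

/-- invariance under rational similitudes -/
theorem NG.conj {E : Matrix n n ℚ} {J : Matrix n n ℝ} (h : NG E J) {g g' : Matrix n n ℚ}
    (h1 : g * g' = 1) {c : ℚ} (hc : c ≠ 0) (hg : gᵀ * E * g = c • E) :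
    NG E (qr g * J * qr g') := by
  have h2 : g' * g = 1 := mul_eq_one_comm.1 h1
  have hg' : g'ᵀ * E * g' = c⁻¹ • E := by
    have : g'ᵀ * (gᵀ * E * g) * g' = E := by
      rw [show g'ᵀ * (gᵀ * E * g) * g' = (g * g')ᵀ * E * (g * g') by
        simp only [transpose_mul, Matrix.mul_assoc], h1]
      simp
    rw [hg, Matrix.mul_smul, Matrix.smul_mul] at this
    rw [← this, smul_smul, inv_mul_cancel₀ hc, one_smul, this]
  have lie : ∀ {g g' : Matrix n n ℚ} {c : ℚ}, g * g' = 1 → c ≠ 0 → gᵀ * E * g = c • E →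
      ∀ X, IsLie E X → IsLie E (g' * X * g) := by
    intro g g' c h1 hc hg X hX
    have : c • ((g' * X * g)ᵀ * E + E * (g' * X * g)) = gᵀ * (Xᵀ * E + E * X) * g := by
      rw [smul_add, ← Matrix.mul_smul, ← Matrix.smul_mul, ← hg]
      simp only [transpose_mul, Matrix.mul_add, Matrix.add_mul, Matrix.mul_assoc]
      rw [← Matrix.mul_assoc g'ᵀ, ← transpose_mul, h1, ← Matrix.mul_assoc g g', h1]
      simp
    rw [show Xᵀ * E + E * X = 0 from hX, Matrix.mul_zero, Matrix.zero_mul] at this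
    exact (smul_eq_zero.1 this).resolve_left hc
  obtain ⟨hh, a1, a2, ⟨X0, a3, a4⟩, a5⟩ := h
  let f : Matrix n n ℚ →ₗ[ℚ] Matrix n n ℚ := LinearMap.mulLeft ℚ g' ∘ₗ LinearMap.mulRight ℚ g
  have hf : ∀ X, f X = g' * X * g := fun X => (Matrix.mul_assoc _ _ _).symm
  have e1 : ∀ X : Matrix n n ℚ, g' * (g * X * g') * g = X := fun X => by
    rw [← Matrix.mul_assoc, ← Matrix.mul_assoc, h2, Matrix.mul_assoc, h2]; simp
  have e2 : ∀ X : Matrix n n ℚ, g * (g' * X * g) * g' = X := fun X => by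
    rw [← Matrix.mul_assoc, ← Matrix.mul_assoc, h1, Matrix.mul_assoc, h1]; simp
  refine ⟨hh.comap f, fun X hX => ?_, fun hb => a2 ?_, ⟨g * X0 * g', lie h2 (inv_ne_zero hc) hg' _ a3,
    fun hX => a4 ?_⟩, fun X hX => ?_⟩
  · rw [← e2 X]
    exact lie h2 (inv_ne_zero hc) hg' _ (hf X ▸ a1 _ hX)
  · refine (Submodule.eq_bot_iff _).2 fun X hX => ?_
    have : g * X * g' ∈ hh.comap f := by rw [Submodule.mem_comap, hf, e1]; exact hX
    rw [hb, Submodule.mem_bot] at this
    rw [← e1 X, this]; simp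
  · rwa [Submodule.mem_comap, hf, e1] at hX
  · let F : Matrix n n ℝ →ₗ[ℝ] Matrix n n ℝ :=
      LinearMap.mulLeft ℝ (qr g) ∘ₗ LinearMap.mulRight ℝ (qr g')
    have hF : ∀ X, F X = qr g * X * qr g' := fun X => (Matrix.mul_assoc _ _ _).symm
    have r1 : qr g * qr g' = 1 := by rw [← qr_mul, h1, qr_one]
    have := Submodule.apply_mem_span_image_of_mem_span F (a5 _ hX)
    rw [hF, hf, qr_mul, qr_mul] at this
    have e : qr g * (J * (qr g' * qr X * qr g) - qr g' * qr X * qr g * J) * qr g' =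
        qr g * J * qr g' * qr X - qr X * (qr g * J * qr g') := by
      simp only [Matrix.mul_sub, Matrix.sub_mul, Matrix.mul_assoc, r1, Matrix.mul_one]
      rw [← Matrix.mul_assoc (qr g) (qr g'), r1, Matrix.one_mul]
    rw [e] at this
    refine Submodule.span_mono ?_ this
    rintro _ ⟨_, ⟨Y, hY, rfl⟩, rfl⟩
    refine ⟨g * Y * g', ?_, by rw [hF, qr_mul, qr_mul]⟩
    change f _ ∈ hh
    rw [hf, e1]; exact hY

end Pool.Agent.MT
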