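import Pool.Agent.Lib.MP_d61fbb_ag.MT.A6
import Pool.Agent.Lib.MP_d61fbb_ag.MT.GT2

/-! Block G: definitions. -/

noncomputable section

namespace Pool.Agent.MT.G

open Matrix Complex Filter Topology Set Metric

variable {g : ℕ}

/-- coordinates of symmetric matrices -/
abbrev EE (g : ℕ) := Sym2 (Fin g) → ℂ

/-- the symmetric matrix with given coordinates -/
def mk (z : EE g) : Matrix (Fin g) (Fin g) ℂ := of fun i j => z s(i, j)

/-- the coordinates of a symmetric matrix -/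
def un (τ : Matrix (Fin g) (Fin g) ℂ) : EE g := fun p => τ p.inf p.sup

/-- the Siegel space in coordinates -/
def HH (g : ℕ) : Set (EE g) := {z | Sieg (mk z)}

/-- the symplectic group -/
abbrev Sp (g : ℕ) (R : Type) [CommRing R] := symplecticGroup (Fin g) R

/-- square matrices of size `2 g` -/
abbrev MM (g : ℕ) (R : Type) := Matrix (I2 g) (I2 g) R

/-- real matrices as complex matrices -/
abbrev cm {ι κ : Type} (γ : Matrix ι κ ℝ) : Matrix ι κ ℂ := γ.map (↑)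

/-- integral matrices as real matrices -/
abbrev zm {ι κ : Type} (γ : Matrix ι κ ℤ) : Matrix ι κ ℝ := γ.map (↑)

/-- rational matrices as real matrices -/
abbrev qm {ι κ : Type} (γ : Matrix ι κ ℚ) : Matrix ι κ ℝ := γ.map (↑)

/-- integral matrices as rational matrices -/
abbrev zq {ι κ : Type} (γ : Matrix ι κ ℤ) : Matrix ι κ ℚ := γ.map (↑)

/-- the period matrix `(z | 1)` -/
def Om (z : EE g) : Matrix (Fin g) (I2 g) ℂ := fromCols (mk z) 1

/-- the point `z'` with `Om z' * γ = C * Om z` -/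
def ac (γ : MM g ℝ) (z : EE g) : EE g :=
  un (((cm γ).toBlocks₂₂ * mk z - (cm γ).toBlocks₂₁) * ((cm γ).toBlocks₁₁ - (cm γ).toBlocks₁₂ * mk z)⁻¹)

/-- the action of the integral symplectic group -/
def az (γ : Sp g ℤ) (z : EE g) : EE g := ac (zm γ.1) z

/-- the real part -/
def Xm (z : EE g) : Matrix (Fin g) (Fin g) ℝ := (mk z).map re

/-- the imaginary part -/
def Ym (z : EE g) : Matrix (Fin g) (Fin g) ℝ := (mk z).map im

/-- the complex structure: `Om z * Jm z = I • Om z` -/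
def Jm (z : EE g) : MM g ℝ :=
  fromBlocks ((Ym z)⁻¹ * Xm z) (Ym z)⁻¹ (-(Ym z + Xm z * (Ym z)⁻¹ * Xm z)) (-(Xm z * (Ym z)⁻¹))

/-- the positive form -/
def Pm (z : EE g) : MM g ℝ := J (Fin g) ℝ * Jm z

/-- the circle of the Hodge structure -/
def hh (z : EE g) (θ : ℝ) : MM g ℝ := Real.cos θ • (1 : MM g ℝ) + Real.sin θ • Jm z

/-- the Hodge group is the full symplectic group -/
def Gen (z : EE g) : Prop := ¬ NG (J (Fin g) ℚ) (Jm z)

/-- congruence of integral matrices -/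
def Cong {ι κ : Type} (M : ℕ) (A B : Matrix ι κ ℤ) : Prop := ∀ i j, (M : ℤ) ∣ A i j - B i j

/-- the principal congruence subgroup -/
def Gam (g M : ℕ) : Subgroup (Sp g ℤ) where
  carrier := {γ | Cong M γ.1 1}
  one_mem' := fun i j => by simp
  mul_mem' := fun {a b} ha hb i j => by
    have : (a * b).1 i j - (1 : MM g ℤ) i j = (a.1 * (b.1 - 1)) i j + (a.1 i j - (1 : MM g ℤ) i j) := by
      rw [Matrix.mul_sub, Matrix.mul_one, Matrix.sub_apply, Submonoid.coe_mul]; ring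
    rw [this, mul_apply]
    exact dvd_add (Finset.dvd_sum fun k _ => Dvd.dvd.mul_left (hb k j) _) (ha i j)
  inv_mem' := fun {a} ha i j => by
    have h : (a⁻¹).1 * a.1 = 1 := congrArg Subtype.val (inv_mul_cancel a)
    have : (a⁻¹).1 i j - (1 : MM g ℤ) i j = -((a⁻¹).1 * (a.1 - 1)) i j := by
      rw [Matrix.mul_sub, Matrix.mul_one, h, Matrix.sub_apply]; ring
    rw [this, mul_apply]
    exact (Finset.dvd_sum fun k _ => Dvd.dvd.mul_left (ha k j) _).neg_right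

/-- tensor powers -/
def tp (κ : Type) [Fintype κ] {ι R : Type} [CommRing R] (A : Matrix ι ι R) :
    Matrix (κ → ι) (κ → ι) R := of fun a b => ∏ i, A (a i) (b i)

/-- theta constants -/
def th (x : I2 g → ℚ) (z : EE g) : ℂ := Th (mk z) (qc x)

/-- characteristics of level `M` -/
def ChL (g M : ℕ) : Set (I2 g → ℚ) := {x | ∀ i, ∃ n : ℤ, 4 * M * x i = n}

/-- forms of level `M` and degree `k` -/
def RL (g M k : ℕ) : Submodule ℂ (EE g → ℂ) := Submodule.span ℂ (th '' ChL g M) ^ k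

/-- the index set of the reduced characteristics -/
abbrev LL (g M : ℕ) := I2 g → Fin (4 * M)

/-- the reduced characteristics -/
def ch (M : ℕ) (y : LL g M) : I2 g → ℚ := fun i => ((y i : ℕ) : ℚ) / (4 * M)

/-- forms of `l`-power level -/
def Fm (l : ℕ) (F : EE g → ℂ) : Prop := ∃ m k, F ∈ RL g (l ^ m) k

/-- the forms that vanish along a filter -/
def Van (l : ℕ) (A : Filter (EE g)) : Set (EE g → ℂ) := {F | Fm l F ∧ ∀ᶠ z in A, F z = 0}

/-- prime filters -/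
def Pri (l : ℕ) (A : Filter (EE g)) : Prop :=
  A.NeBot ∧ A ≤ 𝓟 (HH g) ∧
    ∀ F F', Fm l F → Fm l F' → F * F' ∈ Van l A → F ∈ Van l A ∨ F' ∈ Van l A

/-- prime filters with an open stabiliser and a point -/
def Good (l : ℕ) (A : Filter (EE g)) : Prop :=
  Pri l A ∧ (∃ z, pure z ≤ A) ∧ ∃ n, ∀ γ ∈ Gam g (32 * l ^ n), Van l (map (az γ) A) = Van l A

/-- quotients of forms by powers of `θ` -/
def Fr (l : ℕ) (θ φ : EE g → ℂ) : Prop := ∃ m k, ∃ F ∈ RL g (l ^ m) k, φ = fun z => F z / θ z ^ k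

/-- the sequences that converge in the tower -/
def Cau (l : ℕ) (k : ℕ → Sp g ℤ) : Prop := ∀ m, k (m + 1) * (k m)⁻¹ ∈ Gam g (32 * l ^ (m + 1))

/-- the diagonal matrix `diag (D⁻¹, D) ^ j` with `D = diag (l ^ e i)` -/
def dgm (l : ℕ) (e : Fin g → ℕ) (j : ℤ) : MM g ℚ :=
  fromBlocks (diagonal fun i => (l : ℚ) ^ (-(j * e i))) 0 0 (diagonal fun i => (l : ℚ) ^ (j * e i))

/-- the map `z ↦ D ^ j z D ^ j` -/
def sc (l : ℕ) (e : Fin g → ℕ) (j : ℤ) : EE g → EE g := ac (qm (dgm l e j))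

/-- the points of the orbit -/
def pt (l : ℕ) (e : Fin g → ℕ) (k : ℕ → Sp g ℤ) (τ : EE g) (j : ℤ) (m : ℕ) : EE g :=
  sc l e j (az (k m) τ)

/-- the points of the orbit in the tower -/
def orb (l : ℕ) (e : Fin g → ℕ) (k : ℕ → Sp g ℤ) (τ : EE g) (j : ℤ) : Filter (EE g) :=
  map (pt l e k τ j) atTop

/-- the decomposition of the ideal of a part of the orbit -/
def Claim (l : ℕ) (e : Fin g → ℕ) (k : ℕ → Sp g ℤ) (τ : EE g) (S : Set ℤ) : Prop :=
  ∃ s : Set (Filter (EE g)), s.Finite ∧ (∀ B ∈ s, Good l B ∨ ∃ j, B = orb l e k τ j) ∧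
    ∀ F, Fm l F → ((∀ j ∈ S, F ∈ Van l (orb l e k τ j)) ↔ ∀ B ∈ s, F ∈ Van l B)

/-- A domain `U` with a group action and invariant functions `b`. -/
structure Ctx (σ L Γ : Type) [Fintype σ] [Fintype L] [Group Γ] where
  /-- the domain -/
  U : Set (σ → ℂ)
  /-- the coordinates -/
  b : (σ → ℂ) → L → ℂ
  /-- the algebra of functions -/
  K : Subalgebra ℂ ((σ → ℂ) → ℂ)
  /-- the action -/
  a : Γ → (σ → ℂ) → σ → ℂ
  /-- the cusp form -/
  χ : MvPolynomial L ℂ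
  opn : IsOpen U
  b_mem : ∀ y, (fun z => b z y) ∈ K
  diff : ∀ φ ∈ K, DifferentiableOn ℂ φ U
  alg : ∀ φ : Option σ → (σ → ℂ) → ℂ, (∀ i, φ i ∈ K) → ∃ P : MvPolynomial (Option σ) ℂ, P ≠ 0 ∧
    ∀ z ∈ U, MvPolynomial.eval (fun i => φ i z) P = 0
  imm : ∀ z ∈ U, Function.Injective (fderiv ℂ b z)
  a_maps : ∀ γ, MapsTo (a γ) U U
  a_diff : ∀ γ, DifferentiableOn ℂ (a γ) U
  a_one : ∀ z ∈ U, a 1 z = z
  a_mul : ∀ γ γ', ∀ z ∈ U, a (γ * γ') z = a γ (a γ' z)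
  b_a : ∀ γ, ∀ z ∈ U, b (a γ z) = b z
  prop : ∀ R ε : ℝ, 0 < ε → ∃ C, IsCompact C ∧ C ⊆ U ∧ ∀ z ∈ U, ‖b z‖ ≤ R →
    ε ≤ ‖MvPolynomial.eval (b z) χ‖ → ∃ γ, a γ z ∈ C

/-- the functions `b (x i)` are coordinates near `z` -/
def Ctx.Chart {σ L Γ : Type} [Fintype σ] [Fintype L] [Group Γ] (c : Ctx σ L Γ) (x : σ → L)
    (z : σ → ℂ) : Prop := Function.Injective (fderiv ℂ (fun w i => c.b w (x i)) z)

/-- A finite covering of the complement of a hypersurface, given by its local sections. -/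
structure Cov {σ L Γ : Type} [Fintype σ] [Fintype L] [Group Γ] (c : Ctx σ L Γ) (D : Type)
    [Fintype D] where
  /-- the projection -/
  t : (σ → ℂ) → D → ℂ
  /-- the hypersurface -/
  Δ : MvPolynomial D ℂ
  /-- the sections -/
  Sec : ((D → ℂ) → σ → ℂ) → Set (D → ℂ) → Prop
  Δ_ne : Δ ≠ 0
  opn : ∀ {s W}, Sec s W → IsOpen W
  diff : ∀ {s W}, Sec s W → DifferentiableOn ℂ s W
  maps : ∀ {s W}, Sec s W → MapsTo s W c.U
  proj : ∀ {s W}, Sec s W → ∀ u ∈ W, t (s u) = u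
  off : ∀ {s W}, Sec s W → ∀ u ∈ W, MvPolynomial.eval u Δ ≠ 0
  mono : ∀ {s W W'}, Sec s W → IsOpen W' → W' ⊆ W → Sec s W'
  act : ∀ {s W} γ, Sec s W → Sec (fun u => c.a γ (s u)) W
  uniq : ∀ {s W s' W' u}, Sec s W → Sec s' W' → u ∈ W → u ∈ W' → s u = s' u → s =ᶠ[𝓝 u] s'
  triv : ∀ u₀, MvPolynomial.eval u₀ Δ ≠ 0 → ∃ r > 0, ∃ (n : ℕ) (S : Fin n → (D → ℂ) → σ → ℂ),
    (∀ i, Sec (S i) (ball u₀ r)) ∧
      ∀ s W u, Sec s W → u ∈ W → u ∈ ball u₀ r → ∃ γ i, s u = c.a γ (S i u)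

/-- A finite covering of the complement of a finite set in the plane, with its period map. -/
structure Cov1 (Γ : Subgroup (Sp g ℤ)) where
  /-- the punctures -/
  B : Finset ℂ
  /-- the projection -/
  t : EE g → ℂ
  /-- the sections -/
  Sec : (ℂ → EE g) → Set ℂ → Prop
  opn : ∀ {s W}, Sec s W → IsOpen W
  diff : ∀ {s W}, Sec s W → DifferentiableOn ℂ s W
  maps : ∀ {s W}, Sec s W → MapsTo s W (HH g)
  proj : ∀ {s W}, Sec s W → ∀ u ∈ W, t (s u) = u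
  off : ∀ {s W}, Sec s W → ∀ u ∈ W, u ∉ B
  mono : ∀ {s W W'}, Sec s W → IsOpen W' → W' ⊆ W → Sec s W'
  act : ∀ {s W}, ∀ γ ∈ Γ, Sec s W → Sec (fun u => az γ (s u)) W
  uniq : ∀ {s W s' W' u}, Sec s W → Sec s' W' → u ∈ W → u ∈ W' → s u = s' u → s =ᶠ[𝓝 u] s'
  triv : ∀ u₀, u₀ ∉ B → ∃ r > 0, ∃ (n : ℕ) (S : Fin n → ℂ → EE g),
    (∀ i, Sec (S i) (ball u₀ r)) ∧
      ∀ s W u, Sec s W → u ∈ W → u ∈ ball u₀ r → ∃ γ ∈ Γ, ∃ i, s u = az γ (S i u)

namespace Cov1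

variable {Γ : Subgroup (Sp g ℤ)} (C : Cov1 Γ)

/-- the values of the sections -/
def Pt (z : EE g) : Prop := ∃ s W u, C.Sec s W ∧ u ∈ W ∧ s u = z

/-- two values of one section over a disc -/
def Rel (z z' : EE g) : Prop :=
  ∃ s c r u u', C.Sec s (ball c r) ∧ u ∈ ball c r ∧ u' ∈ ball c r ∧ s u = z ∧ s u' = z'

/-- the connected components -/
def Conn : EE g → EE g → Prop := Relation.ReflTransGen C.Rel

/-- the monodromy group, as a set -/
def Mon (z : EE g) : Set (Sp g ℤ) := {γ | γ ∈ Γ ∧ C.Conn z (az γ z)}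

end Cov1

end Pool.Agent.MT.G
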