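import Pool.Agent.Lib.MP_d61fbb_ag.MT.GDen
import Pool.Agent.Lib.MP_d61fbb_ag.MT.G0b

/-! Stage three: local estimates for conjugates of integral matrices. -/

set_option autoImplicit false

noncomputable section

namespace Pool.Agent.MT.U

open Matrix G Filter Topology

variable {g : ℕ}

section
variable {p : ℕ} [Fact p.Prime]

theorem ub_mul {ι : Type} [Fintype ι] {A B : Matrix ι ι ℚ_[p]} {a b : ℝ} (ha : 0 ≤ a) (hb : 0 ≤ b)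
    (hA : ∀ i j, ‖A i j‖ ≤ a) (hB : ∀ i j, ‖B i j‖ ≤ b) (i j : ι) : ‖(A * B) i j‖ ≤ a * b := by
  rw [mul_apply]
  exact IsUltrametricDist.norm_sum_le_of_forall_le_of_nonneg (mul_nonneg ha hb) fun k _ =>
    (norm_mul _ _).trans_le (mul_le_mul (hA _ _) (hB _ _) (norm_nonneg _) ha)

theorem ub_inv_eq {R S : Type} [CommRing R] [CommRing S] (f : R →+* S) (γ : G.Sp g R) :
    (γ⁻¹).1.map f = -J (Fin g) S * (γ.1.map f)ᵀ * J (Fin g) S := by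
  rw [SymplecticGroup.coe_inv, Matrix.map_mul, Matrix.map_mul, Matrix.map_neg _ (map_neg f), map_J,
    transpose_map]

theorem ub_J (i j : I2 g) : ‖J (Fin g) ℚ_[p] i j‖ ≤ 1 := by
  rw [← map_J _ (Int.castRingHom ℚ_[p])]
  exact Padic.norm_int_le_one _

theorem ub_inv {γ : G.Sp g ℚ} (h : ∀ a b, ‖(γ.1 a b : ℚ_[p])‖ ≤ 1) (a b : I2 g) :
    ‖((γ⁻¹).1 a b : ℚ_[p])‖ ≤ 1 := by
  have := ub_mul (by norm_num) zero_le_one (ub_mul (A := -J (Fin g) ℚ_[p])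
    (B := (γ.1.map (Rat.castHom ℚ_[p]))ᵀ) zero_le_one zero_le_one
    (fun i j => (norm_neg _).trans_le (ub_J i j)) fun i j => h j i) ub_J a b
  rwa [← ub_inv_eq, one_mul, one_mul] at this

theorem ub_cancel (γ : G.Sp g ℚ) :
    γ.1.map (Rat.cast : ℚ → ℚ_[p]) * (γ⁻¹).1.map (Rat.cast : ℚ → ℚ_[p]) = 1 :=
  (Matrix.map_mul (f := Rat.castHom ℚ_[p])).symm.trans (by
    rw [← Submonoid.coe_mul, mul_inv_cancel]
    exact Matrix.map_one _ (map_zero _) (map_one _))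

theorem ub_cj {γ : G.Sp g ℚ} (h : ∀ a b, ‖(γ.1 a b : ℚ_[p])‖ ≤ 1) {X : MM g ℚ_[p]} {c : ℝ}
    (hc : 0 ≤ c) (hX : ∀ a b, ‖X a b‖ ≤ c) (a b : I2 g) :
    ‖(γ.1.map (Rat.cast : ℚ → ℚ_[p]) * X * (γ⁻¹).1.map (Rat.cast : ℚ → ℚ_[p])) a b‖ ≤ c := by
  simpa using ub_mul (B := (γ⁻¹).1.map (Rat.cast : ℚ → ℚ_[p])) (by simpa) zero_le_one
    (ub_mul (A := γ.1.map (Rat.cast : ℚ → ℚ_[p])) zero_le_one hc h hX) (ub_inv h) a b

theorem ub_dvd {c x : ℤ_[p]} (h : c ∣ x) : ‖(x : ℚ_[p])‖ ≤ ‖(c : ℚ_[p])‖ := by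
  obtain ⟨y, rfl⟩ := h
  rw [PadicInt.coe_mul, norm_mul]
  exact mul_le_of_le_one_right (norm_nonneg _) y.2

theorem ub_cj_one {γ : G.Sp g ℚ} (h : ∀ a b, ‖(γ.1 a b : ℚ_[p])‖ ≤ 1) {u : MM g ℤ_[p]} {c : ℤ_[p]}
    (hu : ∀ a b, c ∣ (u - 1) a b) (a b : I2 g) :
    ‖(γ.1.map (Rat.cast : ℚ → ℚ_[p]) * u.map ((↑) : ℤ_[p] → ℚ_[p]) *
      (γ⁻¹).1.map (Rat.cast : ℚ → ℚ_[p]) - 1) a b‖ ≤ ‖(c : ℚ_[p])‖ := by
  have := ub_cj h (X := (u - 1).map (↑)) (norm_nonneg _) (fun a b => ub_dvd (hu a b)) a b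
  rwa [show (u - 1).map ((↑) : ℤ_[p] → ℚ_[p]) = u.map (↑) - 1 from
    (map_sub PadicInt.Coe.ringHom.mapMatrix u 1).trans (by rw [map_one]; rfl), Matrix.mul_sub,
    Matrix.sub_mul, Matrix.mul_one, ub_cancel] at this

theorem ub_lim {𝒰 : Filter ℕ} {γ : ℕ → G.Sp g ℚ} {k : G.Sp g ℤ_[p]}
    (hk : Tendsto (fun j => (γ j).1.map (Rat.cast : ℚ → ℚ_[p])) 𝒰 (𝓝 (k.1.map (↑))))
    (u : MM g ℤ_[p]) {ε : ℝ} (hε : 0 < ε) : ∀ᶠ j in 𝒰, ∀ a b,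
      ‖((γ j).1.map (Rat.cast : ℚ → ℚ_[p]) * u.map ((↑) : ℤ_[p] → ℚ_[p]) *
        ((γ j)⁻¹).1.map (Rat.cast : ℚ → ℚ_[p]) -
        (k.1 * u * (k⁻¹).1).map ((↑) : ℤ_[p] → ℚ_[p])) a b‖ ≤ ε := by
  have hc : Continuous fun X : MM g ℚ_[p] =>
      X * u.map (↑) * (-J (Fin g) ℚ_[p] * Xᵀ * J (Fin g) ℚ_[p]) := by fun_prop
  have h := (hc.tendsto _).comp hk
  have e : (k.1 * u * (k⁻¹).1).map ((↑) : ℤ_[p] → ℚ_[p]) = k.1.map (↑) * u.map (↑) *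
      (-J (Fin g) ℚ_[p] * (k.1.map (↑))ᵀ * J (Fin g) ℚ_[p]) :=
    (Matrix.map_mul (f := PadicInt.Coe.ringHom)).trans
      (congrArg₂ _ (Matrix.map_mul (f := PadicInt.Coe.ringHom)) (ub_inv_eq PadicInt.Coe.ringHom k))
  rw [← e] at h
  refine eventually_all.2 fun a => eventually_all.2 fun b => ?_
  refine (Metric.tendsto_nhds.1 (tendsto_pi_nhds.1 (tendsto_pi_nhds.1 h a) b) ε hε).mono
    fun j hj => ?_
  rw [dist_eq_norm] at hj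
  rw [show ((γ j)⁻¹).1.map (Rat.cast : ℚ → ℚ_[p]) = _ from ub_inv_eq (Rat.castHom ℚ_[p]) _]
  exact hj.le

theorem ub_zq (δ : G.Sp g ℤ) : (zqsp δ).1.map (Rat.cast : ℚ → ℚ_[p]) = δ.1.map (↑) := by
  ext a b
  simp [zqsp]

theorem ub_z (δ : G.Sp g ℤ) (a b : I2 g) : ‖((zqsp δ).1 a b : ℚ_[p])‖ ≤ 1 :=
  (congrArg norm (congrFun₂ (ub_zq δ) a b)).trans_le (Padic.norm_int_le_one _)

theorem ub_zmul (δ : G.Sp g ℤ) {γ : G.Sp g ℚ} (h : ∀ a b, ‖(γ.1 a b : ℚ_[p])‖ ≤ 1) (a b : I2 g) :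
    ‖((zqsp δ * γ).1 a b : ℚ_[p])‖ ≤ 1 := by
  have := ub_mul (A := (zqsp δ).1.map (Rat.castHom ℚ_[p])) (B := γ.1.map (Rat.castHom ℚ_[p]))
    zero_le_one zero_le_one (ub_z δ) h a b
  rwa [← Matrix.map_mul, one_mul] at this

/-- translation by an integral matrix -/
theorem ub_tr (δ r : G.Sp g ℤ) {γ : G.Sp g ℚ} {X : MM g ℚ_[p]} {c : ℝ} (hc : 0 ≤ c)
    (h : ∀ a b, ‖(γ.1.map (Rat.cast : ℚ → ℚ_[p]) * X * (γ⁻¹).1.map (Rat.cast : ℚ → ℚ_[p])) a b -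
      r.1 a b‖ ≤ c) (a b : I2 g) :
    ‖((zqsp δ * γ).1.map (Rat.cast : ℚ → ℚ_[p]) * X *
      ((zqsp δ * γ)⁻¹).1.map (Rat.cast : ℚ → ℚ_[p])) a b - (δ * r * δ⁻¹).1 a b‖ ≤ c := by
  have := ub_cj (ub_z δ) (X := γ.1.map (Rat.cast : ℚ → ℚ_[p]) * X *
    (γ⁻¹).1.map (Rat.cast : ℚ → ℚ_[p]) - r.1.map (↑)) hc h a b
  have e : ∀ γ γ' : G.Sp g ℚ, (γ * γ').1.map (Rat.cast : ℚ → ℚ_[p]) = γ.1.map (↑) * γ'.1.map (↑) :=
    fun _ _ => Matrix.map_mul (f := Rat.castHom ℚ_[p])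
  have e' : ∀ γ γ' : G.Sp g ℤ, (γ * γ').1.map (Int.cast : ℤ → ℚ_[p]) = γ.1.map (↑) * γ'.1.map (↑) :=
    fun _ _ => Matrix.map_mul (f := Int.castRingHom ℚ_[p])
  have e₂ : (δ⁻¹).1.map (Int.cast : ℤ → ℚ_[p]) = ((zqsp δ)⁻¹).1.map (Rat.cast : ℚ → ℚ_[p]) :=
    (ub_inv_eq (Int.castRingHom ℚ_[p]) δ).trans
      (((ub_inv_eq (Rat.castHom ℚ_[p]) _).trans (by rw [Rat.coe_castHom, ub_zq]; rfl)).symm)
  convert this using 2
  refine congrFun₂ (show _ - (δ * r * δ⁻¹).1.map (Int.cast : ℤ → ℚ_[p]) = _ from ?_) a b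
  rw [_root_.mul_inv_rev, e, e, e', e', e₂, ← ub_zq]
  noncomm_ring

theorem ub_tri {x y z : ℚ_[p]} {c : ℝ} (h : ‖x - y‖ ≤ c) (h' : ‖z - y‖ ≤ c) : ‖x - z‖ ≤ c := by
  rw [show x - z = x - y + -(z - y) by ring]
  exact (IsUltrametricDist.norm_add_le_max _ _).trans (max_le h ((norm_neg _).trans_le h'))

end

section
variable {R : Type} [CommRing R] {c : R}

theorem dv_left {A : MM g R} (h : ∀ a b, c ∣ A a b) (B : MM g R) (a b : I2 g) : c ∣ (A * B) a b := by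
  rw [mul_apply]
  exact Finset.dvd_sum fun _ _ => (h _ _).mul_right _

theorem dv_right {A : MM g R} (h : ∀ a b, c ∣ A a b) (B : MM g R) (a b : I2 g) : c ∣ (B * A) a b := by
  rw [mul_apply]
  exact Finset.dvd_sum fun _ _ => (h _ _).mul_left _

theorem dv_conj {A : MM g R} (h : ∀ a b, c ∣ (A - 1) a b) (k : G.Sp g R) (a b : I2 g) :
    c ∣ (k.1 * A * (k⁻¹).1 - 1) a b := by
  have := dv_left (dv_right h k.1) (k⁻¹).1 a b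
  rwa [Matrix.mul_sub, Matrix.sub_mul, Matrix.mul_one,
    show k.1 * (k⁻¹).1 = 1 from congrArg Subtype.val (mul_inv_cancel k)] at this

theorem dv_fin {u : MM g R} {r γ γ₁ : G.Sp g ℤ} {N : ℕ} (h : r * γ * r⁻¹ * γ₁⁻¹ ∈ Gam g N)
    (hr : ∀ a b, (N : R) ∣ (r.1 a b : R) - u a b) (a b : I2 g) :
    (N : R) ∣ (u * γ.1.map (Int.cast : ℤ → R) - γ₁.1.map (Int.cast : ℤ → R) * u) a b := by
  have e : ∀ γ γ' : G.Sp g ℤ, (γ * γ').1.map (Int.cast : ℤ → R) = γ.1.map (↑) * γ'.1.map (↑) :=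
    fun _ _ => Matrix.map_mul (f := Int.castRingHom R)
  have h1 : ∀ a b, (N : R) ∣ ((r * γ * r⁻¹ * γ₁⁻¹).1.map (Int.cast : ℤ → R) - 1) a b := fun a b => by
    simpa [one_apply, apply_ite (Int.cast (R := R))] using map_dvd (Int.castRingHom R) (h a b)
  have h2 : (r * γ * r⁻¹ * γ₁⁻¹).1.map (Int.cast : ℤ → R) * (γ₁.1.map (↑) * r.1.map (↑)) =
      r.1.map (↑) * γ.1.map (↑) := by
    rw [← e, ← e, ← e]
    congr 2
    group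
  have h3 : ∀ a b, (N : R) ∣ (r.1.map (Int.cast : ℤ → R) - u) a b := hr
  convert ((dv_left h1 (γ₁.1.map (↑) * r.1.map (↑)) a b).sub (dv_left h3 (γ.1.map (↑)) a b)).add
    (dv_right h3 (γ₁.1.map (↑)) a b) using 1
  rw [← Matrix.sub_apply, ← Matrix.add_apply, Matrix.sub_mul _ 1, h2]
  refine congrArg (fun X : MM g R => X a b) ?_
  noncomm_ring

end

/-- an integral approximation that is one modulo `32` -/
theorem ub_lift {l : Nat.Primes} {u : MM g ℤ_[l]} (hu : GS 1 u)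
    (h : ∀ a b, (32 : ℤ_[l]) ∣ (u - 1) a b) {N : ℕ} (hN : N ≠ 0) :
    ∃ r ∈ Gam g 32, ∀ a b, ((32 * N : ℕ) : ℤ_[l]) ∣ (r.1 a b : ℤ_[l]) - u a b := by
  classical
  let k : ∀ p : Nat.Primes, MM g ℤ_[p] := Function.update (fun _ => 1) l u
  have hk : ∀ p, GS 1 (k p) ∧ ∀ a b, (32 : ℤ_[p]) ∣ (k p - 1) a b := fun p => by
    by_cases e : p = l
    · subst e
      rw [show k p = u from Function.update_self ..]
      exact ⟨hu, h⟩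
    · rw [show k p = 1 from Function.update_of_ne e ..]
      exact ⟨gs_one, by simp⟩
  obtain ⟨r, h1, h2⟩ := sp_dense_hat (fun p => (hk p).1) (M := 32 * N) (by simpa)
  refine ⟨⟨r, gs_one_iff.1 h1⟩, fun a b => ?_, fun a b => ?_⟩
  · have h3 := ((Dvd.intro _ (by push_cast; rfl) : (32 : ℤ_[2]) ∣ ((32 * N : ℕ) : ℤ_[2])).trans
      (h2 ⟨2, Nat.prime_two⟩ a b)).add ((hk ⟨2, Nat.prime_two⟩).2 a b)
    have h4 := (PadicInt.pow_p_dvd_int_iff (p := 2) 5 (r a b - (1 : MM g ℤ) a b)).1 (by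
      convert h3 using 1
      · norm_num
      · simp [one_apply, apply_ite (Int.cast (R := ℤ_[2]))])
    exact_mod_cast h4
  · simpa only [show k l = u from Function.update_self ..] using h2 l a b

end Pool.Agent.MT.U
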