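import Mathlib

/-! Block G, part 6b: a group of integral symplectic matrices whose adjoint action spans the
adjoint action of the Lie algebra has an open closure at `l`. -/

namespace Pool.Agent.MT.G6

open Matrix

set_option linter.unusedSectionVars false

variable {n : Type*} [Fintype n] [DecidableEq n] {Γ : Type*} [Group Γ]

/-- the symplectic Lie algebra -/
def sp (E : Matrix n n ℤ) : AddSubgroup (Matrix n n ℤ) where
  carrier := {Y | Yᵀ * E + E * Y = 0}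
  zero_mem' := by simp
  add_mem' := fun {a b} ha hb => by
    simp only [Set.mem_ofPred_eq] at *
    rw [transpose_add, Matrix.add_mul, Matrix.mul_add]
    linear_combination (norm := abel_nf) ha + hb
  neg_mem' := fun {a} ha => by
    simp only [Set.mem_ofPred_eq] at *
    rw [transpose_neg, Matrix.neg_mul, Matrix.mul_neg, ← neg_add, ha, neg_zero]

theorem mem_sp {E Y : Matrix n n ℤ} : Y ∈ sp E ↔ Yᵀ * E + E * Y = 0 := Iff.rfl

def nv (E : Matrix n n ℤ) (v : n → ℤ) : Matrix n n ℤ := vecMulVec v v * E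

def om (E : Matrix n n ℤ) (u v : n → ℤ) : ℤ := u ⬝ᵥ E *ᵥ v

def qf (E : Matrix n n ℤ) (x : n → ℤ) (Y : Matrix n n ℤ) : ℤ := x ⬝ᵥ (E * Y) *ᵥ x

variable {E : Matrix n n ℤ}

theorem om_neg (hE : Eᵀ = -E) (u v : n → ℤ) : om E u v = -om E v u := by
  unfold om
  rw [dotProduct_mulVec, ← mulVec_transpose, hE, neg_mulVec, neg_dotProduct, dotProduct_comm]

theorem om_self (hE : Eᵀ = -E) (u : n → ℤ) : om E u u = 0 := by
  have := om_neg hE u u
  omega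

theorem nv_mulVec (v u : n → ℤ) : nv E v *ᵥ u = om E v u • v := by
  unfold nv om
  rw [← mulVec_mulVec, vecMulVec_mulVec]
  simp

theorem nv_sp (hE : Eᵀ = -E) (v : n → ℤ) : nv E v ∈ sp E := by
  rw [mem_sp, nv, transpose_mul, transpose_vecMulVec, hE]
  simp [Matrix.mul_assoc]

theorem nv_mul_mul (v : n → ℤ) (Y : Matrix n n ℤ) :
    nv E v * Y * nv E v = qf E v Y • nv E v := by
  ext i j
  have h := congrFun (show (nv E v * Y * nv E v) *ᵥ Pi.single j 1 =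
    (qf E v Y • nv E v) *ᵥ Pi.single j 1 from by
      rw [← mulVec_mulVec, ← mulVec_mulVec, nv_mulVec, nv_mulVec, smul_mulVec, nv_mulVec,
        smul_smul, mulVec_smul]
      congr 1
      unfold qf
      rw [← mulVec_mulVec, mul_comm]
      unfold om
      rw [mulVec_smul, dotProduct_smul, smul_eq_mul]) i
  simpa only [mulVec_single_one, col_apply] using h

theorem nv_sq (hE : Eᵀ = -E) (v : n → ℤ) : nv E v * nv E v = 0 := by
  have h := nv_mul_mul (E := E) v 1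
  rw [Matrix.mul_one] at h
  rw [h, qf, Matrix.mul_one]
  have := om_self hE v
  unfold om at this
  rw [this, zero_smul]

theorem qf_nv (hE : Eᵀ = -E) (u v : n → ℤ) : qf E u (nv E v) = -(om E u v * om E u v) := by
  unfold qf
  rw [← mulVec_mulVec, nv_mulVec, mulVec_smul, dotProduct_smul, smul_eq_mul, om_neg hE v u]
  unfold om
  ring

theorem qf_smul (x : n → ℤ) (c : ℤ) (Y : Matrix n n ℤ) : qf E x (c • Y) = c * qf E x Y := by
  unfold qf
  rw [Matrix.mul_smul, smul_mulVec, dotProduct_smul, smul_eq_mul]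

theorem qf_add (x : n → ℤ) (Y Z : Matrix n n ℤ) : qf E x (Y + Z) = qf E x Y + qf E x Z := by
  unfold qf
  rw [Matrix.mul_add, add_mulVec, dotProduct_add]

/-- a multiple of `φ` keeps every stable subgroup of the Lie algebra -/
def Kp (ι : Γ →* Matrix n n ℤ) (E : Matrix n n ℤ) (φ : Matrix n n ℤ → Matrix n n ℤ) : Prop :=
  ∃ D : ℤ, D ≠ 0 ∧ ∀ Λ : AddSubgroup (Matrix n n ℤ), Λ ≤ sp E →
    (∀ γ, ∀ Y ∈ Λ, ι γ * Y * ι γ⁻¹ ∈ Λ) → ∀ Y ∈ Λ, D • φ Y ∈ Λ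

variable {ι : Γ →* Matrix n n ℤ}

theorem kp_ad (hA : ∀ X : Matrix n n ℚ,
      Xᵀ * E.map (Int.castRingHom ℚ) + E.map (Int.castRingHom ℚ) * X = 0 → ∃ c : Γ →₀ ℚ,
      ∀ Y : Matrix n n ℚ, Yᵀ * E.map (Int.castRingHom ℚ) + E.map (Int.castRingHom ℚ) * Y = 0 →
        X * Y - Y * X = c.sum fun γ a =>
          a • ((ι γ).map (Int.castRingHom ℚ) * Y * (ι γ⁻¹).map (Int.castRingHom ℚ)))
    {X : Matrix n n ℤ} (hX : X ∈ sp E) : Kp ι E fun Y => X * Y - Y * X := by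
  have hm : ∀ Y ∈ sp E, (Y.map (Int.castRingHom ℚ))ᵀ * E.map (Int.castRingHom ℚ) +
      E.map (Int.castRingHom ℚ) * Y.map (Int.castRingHom ℚ) = 0 := fun Y hY => by
    rw [← transpose_map, ← Matrix.map_mul, ← Matrix.map_mul, ← Matrix.map_add _ (map_add _),
      mem_sp.1 hY, Matrix.map_zero _ (map_zero _)]
  obtain ⟨c, hc⟩ := hA _ (hm X hX)
  have hD : ∀ γ ∈ c.support, ∃ k : ℤ,
      ((∏ γ ∈ c.support, ((c γ).den : ℤ) : ℤ) : ℚ) * c γ = k := fun γ hγ => by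
    obtain ⟨k, hk⟩ := Finset.dvd_prod_of_mem (fun γ => ((c γ).den : ℤ)) hγ
    refine ⟨k * (c γ).num, ?_⟩
    rw [hk]
    push_cast
    rw [← Rat.mul_den_eq_num]
    ring
  choose! k hk using hD
  refine ⟨∏ γ ∈ c.support, ((c γ).den : ℤ), Finset.prod_ne_zero_iff.2 fun γ _ =>
    Int.natCast_ne_zero.2 (c γ).den_nz, fun Λ hΛ hs Y hY => ?_⟩
  have e : (∏ γ ∈ c.support, ((c γ).den : ℤ)) • (X * Y - Y * X) =
      ∑ γ ∈ c.support, k γ • (ι γ * Y * ι γ⁻¹) := by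
    apply (Matrix.map_injective (f := Int.castRingHom ℚ) Int.cast_injective)
    have h := hc _ (hm Y (hΛ hY))
    show (Int.castRingHom ℚ).mapMatrix _ = (Int.castRingHom ℚ).mapMatrix _
    rw [map_zsmul, map_sub, map_mul, map_mul, map_sum]
    simp only [map_zsmul, map_mul, RingHom.mapMatrix_apply]
    rw [h, Finsupp.sum, Finset.smul_sum]
    refine Finset.sum_congr rfl fun γ hγ => ?_
    rw [← Int.cast_smul_eq_zsmul ℚ, ← Int.cast_smul_eq_zsmul ℚ, smul_smul, hk γ hγ]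
  rw [e]
  exact sum_mem fun γ _ => zsmul_mem (hs γ Y hY) _

theorem kp_diag (hE : Eᵀ = -E) (h : ∀ X ∈ sp E, Kp ι E fun Y => X * Y - Y * X) (v : n → ℤ) :
    Kp ι E fun Y => qf E v Y • nv E v := by
  obtain ⟨D, hD, h⟩ := h _ (nv_sp hE v)
  refine ⟨-2 * D * D, by simp [hD], fun Λ hΛ hs Y hY => ?_⟩
  have h2 := h Λ hΛ hs _ (h Λ hΛ hs Y hY)
  convert h2 using 1
  beta_reduce
  have h3 := nv_sq hE v
  rw [← nv_mul_mul]
  simp only [Matrix.mul_smul, Matrix.smul_mul, Matrix.mul_sub, Matrix.sub_mul, ← Matrix.mul_assoc,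
    h3, Matrix.zero_mul]
  rw [Matrix.mul_assoc Y, h3, Matrix.mul_zero]
  module

theorem kp_comp (hE : Eᵀ = -E) {w u v x : n → ℤ} (h1 : Kp ι E fun Y => qf E u Y • nv E w)
    (h2 : Kp ι E fun Y => qf E x Y • nv E v) (h : om E u v ≠ 0) :
    Kp ι E fun Y => qf E x Y • nv E w := by
  obtain ⟨D, hD, h1⟩ := h1
  obtain ⟨D', hD', h2⟩ := h2
  refine ⟨-(D * D' * (om E u v * om E u v)), by simp [hD, hD', h], fun Λ hΛ hs Y hY => ?_⟩
  have h3 := h1 Λ hΛ hs _ (h2 Λ hΛ hs Y hY)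
  convert h3 using 1
  beta_reduce
  rw [qf_smul, qf_smul, qf_nv hE]
  module

theorem om_E (hEE : E * E = -1) (w : n → ℤ) : om E w (E *ᵥ w) = -(w ⬝ᵥ w) := by
  unfold om
  rw [mulVec_mulVec, hEE, neg_mulVec, one_mulVec, dotProduct_neg]

theorem kp_rank (hE : Eᵀ = -E) (hEE : E * E = -1)
    (h : ∀ X ∈ sp E, Kp ι E fun Y => X * Y - Y * X) (w x : n → ℤ) :
    Kp ι E fun Y => qf E x Y • nv E w := by
  by_cases hw : w = 0
  · exact ⟨1, one_ne_zero, fun Λ _ _ Y _ => by simp [hw, nv]⟩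
  by_cases hx : x = 0
  · exact ⟨1, one_ne_zero, fun Λ _ _ Y _ => by simp [hx, qf]⟩
  have h1 : om E w (E *ᵥ w) ≠ 0 := by
    rw [om_E hEE]; simpa [dotProduct_self_eq_zero] using hw
  have h2 : om E x (E *ᵥ x) ≠ 0 := by
    rw [om_E hEE]; simpa [dotProduct_self_eq_zero] using hx
  obtain ⟨u, hu, hu'⟩ : ∃ u, om E w u ≠ 0 ∧ om E x u ≠ 0 := by
    by_cases a1 : om E x (E *ᵥ w) = 0
    · by_cases a2 : om E w (E *ᵥ x) = 0
      · refine ⟨E *ᵥ w + E *ᵥ x, ?_, ?_⟩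
        · unfold om at *
          rwa [mulVec_add, dotProduct_add, a2, add_zero]
        · unfold om at *
          rwa [mulVec_add, dotProduct_add, a1, zero_add]
      · exact ⟨_, a2, h2⟩
    · exact ⟨_, h1, a1⟩
  refine kp_comp hE (kp_comp hE (kp_diag hE h w) (kp_diag hE h u) hu) (kp_diag hE h x) ?_
  rw [om_neg hE]
  exact neg_ne_zero.2 hu'

theorem exists_ne_one [Nonempty n] (hE : Eᵀ = -E) (hEE : E * E = -1)
    (h : ∀ X ∈ sp E, Kp ι E fun Y => X * Y - Y * X) : ∃ γ, ι γ ≠ 1 := by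
  by_contra h0
  push Not at h0
  obtain ⟨i⟩ := ‹Nonempty n›
  set v : n → ℤ := Pi.single i 1 with hv
  have h1 : om E v (E *ᵥ v) = -1 := by rw [om_E hEE, hv]; simp
  obtain ⟨D, hD, h⟩ := kp_diag hE h v
  have h2 := h (AddSubgroup.zmultiples (nv E (E *ᵥ v)))
    (AddSubgroup.zmultiples_le_of_mem (nv_sp hE _)) (fun γ Y hY => by simpa [h0] using hY) _
    (AddSubgroup.mem_zmultiples _)
  obtain ⟨k, hk⟩ := AddSubgroup.mem_zmultiples_iff.1 h2
  beta_reduce at hk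
  rw [qf_nv hE, h1] at hk
  have h3 := congrFun (congrArg (· *ᵥ (E *ᵥ v)) hk) i
  simp only [smul_mulVec, nv_mulVec, om_self hE, h1] at h3
  simp [hv] at h3
  exact hD h3.symm

/-- first order terms of the elements of the group that are one modulo `L` -/
def lam (ι : Γ →* Matrix n n ℤ) (L : ℤ) : AddSubgroup (Matrix n n ℤ) where
  carrier := {Y | ∃ δ Z, ι δ = 1 + L • Y + (L * L) • Z}
  zero_mem' := ⟨1, 0, by simp⟩
  add_mem' := by
    rintro a b ⟨δ, Z, h⟩ ⟨δ', Z', h'⟩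
    refine ⟨δ * δ', Z + Z' + (a + L • Z) * (b + L • Z'), ?_⟩
    rw [map_mul, h, h']
    simp only [Matrix.add_mul, Matrix.mul_add, Matrix.mul_smul, Matrix.smul_mul, Matrix.one_mul,
      Matrix.mul_one]
    module
  neg_mem' := by
    rintro a ⟨δ, Z, h⟩
    have h1 : ι δ⁻¹ * ι δ = 1 := by rw [← map_mul, inv_mul_cancel, map_one]
    have h2 : ι δ⁻¹ = 1 - L • (ι δ⁻¹ * (a + L • Z)) := by
      rw [h] at h1
      rw [← h1]
      simp only [Matrix.mul_add, Matrix.mul_smul, Matrix.mul_one]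
      module
    refine ⟨δ⁻¹, -Z + ι δ⁻¹ * (a + L • Z) * (a + L • Z), ?_⟩
    conv_lhs => rw [h2, h2]
    simp only [Matrix.sub_mul, Matrix.smul_mul, Matrix.one_mul]
    module

theorem smul_mem_lam (L : ℤ) (M : Matrix n n ℤ) : L • M ∈ lam ι L :=
  ⟨1, -M, by rw [map_one]; module⟩

theorem conj_mem_lam {L : ℤ} (γ : Γ) {Y : Matrix n n ℤ} (hY : Y ∈ lam ι L) :
    ι γ * Y * ι γ⁻¹ ∈ lam ι L := by
  obtain ⟨δ, Z, h⟩ := hY
  refine ⟨γ * δ * γ⁻¹, ι γ * Z * ι γ⁻¹, ?_⟩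
  have h1 : ι γ * ι γ⁻¹ = 1 := by rw [← map_mul, mul_inv_cancel, map_one]
  rw [map_mul, map_mul, h]
  simp only [Matrix.add_mul, Matrix.mul_add, Matrix.mul_smul, Matrix.smul_mul, Matrix.mul_one, h1]

theorem conj_mem_sp (hsp : ∀ γ, (ι γ)ᵀ * E * ι γ = E) (γ : Γ) {Y : Matrix n n ℤ}
    (hY : Y ∈ sp E) : ι γ * Y * ι γ⁻¹ ∈ sp E := by
  have h1 : ι γ * ι γ⁻¹ = 1 := by rw [← map_mul, mul_inv_cancel, map_one]
  have h2 : (ι γ)ᵀ * E = E * ι γ⁻¹ := by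
    conv_rhs => rw [← hsp γ, Matrix.mul_assoc, h1, Matrix.mul_one]
  have h3 : E * ι γ = (ι γ⁻¹)ᵀ * E := by
    conv_lhs => rw [← hsp γ⁻¹, Matrix.mul_assoc, ← map_mul, inv_mul_cancel, map_one, Matrix.mul_one]
  rw [mem_sp, transpose_mul, transpose_mul]
  calc (ι γ⁻¹)ᵀ * (Yᵀ * (ι γ)ᵀ) * E + E * (ι γ * Y * ι γ⁻¹)
      = (ι γ⁻¹)ᵀ * Yᵀ * ((ι γ)ᵀ * E) + (E * ι γ) * Y * ι γ⁻¹ := by simp only [Matrix.mul_assoc]
    _ = (ι γ⁻¹)ᵀ * (Yᵀ * E + E * Y) * ι γ⁻¹ := by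
      rw [h2, h3]; simp only [Matrix.mul_assoc, Matrix.mul_add, Matrix.add_mul]
    _ = 0 := by rw [mem_sp.1 hY, Matrix.mul_zero, Matrix.zero_mul]

theorem lam_div {L k : ℤ} (h : IsCoprime k L) {T : Matrix n n ℤ} (hT : k • T ∈ lam ι L) :
    T ∈ lam ι L := by
  obtain ⟨a, b, hab⟩ := h
  have e : T = a • k • T + L • b • T := by
    rw [smul_smul, smul_smul, ← add_smul, mul_comm L, hab, one_smul]
  rw [e]
  exact add_mem (zsmul_mem hT a) (smul_mem_lam _ _)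

theorem sym_sp (hE : Eᵀ = -E) (hEE : E * E = -1) (Y : Matrix n n ℤ) :
    Y + E * Yᵀ * E ∈ sp E := by
  rw [mem_sp, transpose_add, transpose_mul, transpose_mul, transpose_transpose, hE]
  have h1 : -E * (Y * -E) * E = -(E * Y) := by
    simp only [Matrix.neg_mul, Matrix.mul_neg, neg_neg, Matrix.mul_assoc, hEE, Matrix.mul_one]
  have h2 : E * (E * Yᵀ * E) = -(Yᵀ * E) := by
    simp only [← Matrix.mul_assoc, hEE, Matrix.neg_mul, Matrix.one_mul]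
  rw [Matrix.add_mul, Matrix.mul_add, h1, h2]
  abel

theorem sym_eq (hEE : E * E = -1) {L : ℤ} (hL : L ≠ 0) {Y : Matrix n n ℤ}
    (h : (1 + L • Y)ᵀ * E * (1 + L • Y) = E) :
    Y + E * Yᵀ * E = (2 : ℤ) • Y - L • (E * Yᵀ * E * Y) := by
  have h1 : L • (Yᵀ * E + E * Y + L • (Yᵀ * E * Y)) = 0 := by
    rw [transpose_add, transpose_smul, transpose_one] at h
    simp only [Matrix.add_mul, Matrix.mul_add, Matrix.mul_smul, Matrix.smul_mul, Matrix.one_mul,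
      Matrix.mul_one] at h
    linear_combination (norm := module) h
  have h2 := congrArg (E * ·) ((smul_eq_zero.1 h1).resolve_left hL)
  simp only [Matrix.mul_add, Matrix.mul_smul, ← Matrix.mul_assoc, hEE, Matrix.neg_mul,
    Matrix.one_mul, Matrix.mul_zero] at h2
  linear_combination (norm := module) h2

theorem one_add_pow (X : Matrix n n ℤ) (m : ℕ) :
    ∃ Z, (1 + X) ^ m = 1 + (m : ℤ) • X + (m.choose 2 : ℤ) • (X * X) + X * X * X * Z := by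
  induction m with
  | zero => exact ⟨0, by simp⟩
  | succ m ih =>
    obtain ⟨Z, h⟩ := ih
    refine ⟨(m.choose 2 : ℤ) • 1 + Z + Z * X, ?_⟩
    rw [pow_succ, h, Nat.choose_succ_succ' m 1, Nat.choose_one_right]
    push_cast
    simp only [Matrix.add_mul, Matrix.mul_add, Matrix.mul_smul, Matrix.smul_mul, Matrix.one_mul,
      Matrix.mul_one, Matrix.mul_assoc]
    module

theorem lift_pow {l : ℕ} (hl : l.Prime) (hl2 : l ≠ 2) {a : ℕ} (ha : 1 ≤ a) {γ : Γ}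
    {Y : Matrix n n ℤ} (h : ι γ = 1 + (l : ℤ) ^ a • Y) (b : ℕ) (hb : a ≤ b) :
    ∃ δ Y', ι δ = 1 + (l : ℤ) ^ b • (Y + (l : ℤ) • Y') := by
  induction b, hb using Nat.le_induction with
  | base => exact ⟨γ, 0, by simpa using h⟩
  | succ b hb ih =>
    obtain ⟨δ, Y', h⟩ := ih
    obtain ⟨b, rfl⟩ : ∃ c, b = c + 1 := ⟨b - 1, by omega⟩
    obtain ⟨k, hk⟩ := hl.dvd_choose_self (k := 2) two_ne_zero
      (lt_of_le_of_ne hl.two_le (Ne.symm hl2))
    set W := Y + (l : ℤ) • Y' with hW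
    obtain ⟨Z, hZ⟩ := one_add_pow ((l : ℤ) ^ (b + 1) • W) l
    refine ⟨δ ^ l, Y' + ((k : ℤ) * (l : ℤ) ^ b) • (W * W) +
      ((l : ℤ) ^ b * (l : ℤ) ^ b) • (W * W * W * Z), ?_⟩
    rw [map_pow, h, hZ, hk]
    push_cast
    simp only [Matrix.mul_smul, Matrix.smul_mul]
    rw [show Y = W - (l : ℤ) • Y' by rw [hW]; abel]
    clear_value W
    module

theorem exists_prim {l : ℕ} (hl : l.Prime) {M : Matrix n n ℤ} (hM : M ≠ 0)
    (h1 : ∃ Y, M = (l : ℤ) • Y) :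
    ∃ a Y, 1 ≤ a ∧ M = (l : ℤ) ^ a • Y ∧ ∃ i j, ¬ (l : ℤ) ∣ Y i j := by
  classical
  have hex : ∃ a, ¬ ∃ Y, M = (l : ℤ) ^ (a + 2) • Y := by
    by_contra h0
    push Not at h0
    apply hM
    ext i j
    by_contra h2
    obtain ⟨Y, hY⟩ := h0 (M i j).natAbs
    have h3 : (l : ℤ) ^ ((M i j).natAbs + 2) ∣ M i j :=
      ⟨Y i j, by conv_lhs => rw [hY]
                 rw [Matrix.smul_apply, smul_eq_mul]⟩
    have h4 := Nat.le_of_dvd (Int.natAbs_pos.2 h2) (Int.natAbs_dvd_natAbs.2 h3)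
    rw [Int.natAbs_pow, Int.natAbs_natCast] at h4
    have := Nat.lt_pow_self (n := (M i j).natAbs + 2) hl.one_lt
    omega
  have hs := Nat.find_spec hex
  obtain ⟨Y, hY⟩ : ∃ Y, M = (l : ℤ) ^ (Nat.find hex + 1) • Y := by
    rcases h : Nat.find hex with _ | c
    · simpa using h1
    · have := Nat.find_min hex (m := c) (by omega)
      push Not at this
      exact this
  refine ⟨_, Y, by omega, hY, ?_⟩
  by_contra h0
  push Not at h0
  choose c hc using h0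
  refine hs ⟨of c, ?_⟩
  conv_lhs => rw [hY]
  ext i j
  simp only [Matrix.smul_apply, smul_eq_mul, hc, of_apply]
  ring

theorem exists_qf (hE : Eᵀ = -E) (hEE : E * E = -1) {l : ℕ} {T : Matrix n n ℤ} (hT : T ∈ sp E)
    (h : ∀ x, (l : ℤ) ∣ qf E x T) : ∃ M, (2 : ℤ) • T = (l : ℤ) • M := by
  have hs : (E * T)ᵀ = E * T := by
    rw [transpose_mul, hE, Matrix.mul_neg]
    linear_combination (norm := abel_nf) -mem_sp.1 hT
  have h1 : ∀ i j, (l : ℤ) ∣ 2 * (E * T) i j := fun i j => by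
    have e : 2 * (E * T) i j = qf E (Pi.single i 1 + Pi.single j 1) T - qf E (Pi.single i 1) T -
        qf E (Pi.single j 1) T := by
      have := congrFun (congrFun hs i) j
      rw [transpose_apply] at this
      unfold qf
      simp only [mulVec_add, add_dotProduct, dotProduct_add, mulVec_single_one, single_dotProduct,
        col_apply, one_mul]
      rw [this]
      ring
    rw [e]
    exact dvd_sub (dvd_sub (h _) (h _)) (h _)
  choose c hc using h1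
  have h2 : (2 : ℤ) • (E * T) = (l : ℤ) • of c := by
    ext i j
    simp only [Matrix.smul_apply, smul_eq_mul, hc, of_apply]
  refine ⟨-(E * of c), ?_⟩
  rw [smul_neg, ← Matrix.mul_smul, ← h2, Matrix.mul_smul, ← Matrix.mul_assoc, hEE]
  simp

theorem two_smul_eq (hE : Eᵀ = -E) (hEE : E * E = -1) {T : Matrix n n ℤ} (hT : T ∈ sp E) :
    (2 : ℤ) • T = ∑ i, ∑ j, (-(T * E) i j) • (nv E (Pi.single i 1 + Pi.single j 1) -
      nv E (Pi.single i 1) - nv E (Pi.single j 1)) := by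
  have hs : (T * E)ᵀ = T * E := by
    have h := congrArg (fun M => E * M * E) (mem_sp.1 hT)
    simp only [Matrix.mul_add, Matrix.add_mul, ← Matrix.mul_assoc, hEE] at h
    rw [Matrix.mul_assoc _ E E, hEE] at h
    rw [transpose_mul, hE]
    simp only [Matrix.mul_neg, Matrix.neg_mul, Matrix.mul_one, Matrix.one_mul, Matrix.mul_zero,
      Matrix.zero_mul] at h ⊢
    linear_combination (norm := abel_nf) h
  have h1 : ∀ S : Matrix n n ℤ, S + Sᵀ = ∑ i, ∑ j, S i j •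
      (vecMulVec (Pi.single i 1 + Pi.single j 1) (Pi.single i 1 + Pi.single j 1) -
        vecMulVec (Pi.single i 1) (Pi.single i 1) - vecMulVec (Pi.single j 1) (Pi.single j 1)) := by
    intro S
    ext a b
    simp only [Matrix.sum_apply, Matrix.smul_apply, Matrix.sub_apply, vecMulVec_apply,
      Matrix.add_apply, transpose_apply, Pi.add_apply, smul_eq_mul]
    have e : ∀ i j, S i j * (((Pi.single i 1 : n → ℤ) a + (Pi.single j 1 : n → ℤ) a) *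
        ((Pi.single i 1 : n → ℤ) b + (Pi.single j 1 : n → ℤ) b) -
        (Pi.single i 1 : n → ℤ) a * (Pi.single i 1 : n → ℤ) b -
        (Pi.single j 1 : n → ℤ) a * (Pi.single j 1 : n → ℤ) b) =
        (Pi.single i 1 : n → ℤ) a * (S i j * (Pi.single j 1 : n → ℤ) b) +
        (Pi.single i 1 : n → ℤ) b * (S i j * (Pi.single j 1 : n → ℤ) a) := fun i j => by ring
    simp only [e, Finset.sum_add_distrib, ← Finset.mul_sum]
    simp [Pi.single_apply]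
  have h2 := congrArg (· * E) (h1 (-(T * E)))
  simp only [transpose_neg, hs, Matrix.add_mul, Matrix.neg_mul, Matrix.mul_assoc, hEE,
    Matrix.mul_neg, Matrix.mul_one, neg_neg, Matrix.sum_mul, Matrix.smul_mul, Matrix.sub_mul,
    Matrix.neg_apply] at h2
  rw [two_smul, h2]
  rfl

/-- a fixed multiple of the Lie algebra is made of first order terms -/
theorem lam_big [Nonempty n] (hE : Eᵀ = -E) (hEE : E * E = -1) {l : ℕ} (hl : l.Prime)
    (hl2 : l ≠ 2) (hsp : ∀ γ, (ι γ)ᵀ * E * ι γ = E) (hmod : ∀ γ, ∃ Y, ι γ = 1 + (l : ℤ) • Y)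
    (h : ∀ X ∈ sp E, Kp ι E fun Y => X * Y - Y * X) :
    ∃ a c : ℕ, ∀ b, a ≤ b → ∀ T ∈ sp E, (l : ℤ) ^ c • T ∈ lam ι ((l : ℤ) ^ b) := by
  have hp : Prime (l : ℤ) := Nat.prime_iff_prime_int.1 hl
  have hl0 : (l : ℤ) ≠ 0 := hp.ne_zero
  have hnd : ¬ (l : ℤ) ∣ 2 := fun h => hl2 ((Nat.prime_dvd_prime_iff_eq hl Nat.prime_two).1
    (by exact_mod_cast h))
  have hco : ∀ k : ℤ, ¬ (l : ℤ) ∣ k → ∀ b : ℕ, IsCoprime k ((l : ℤ) ^ b) := fun k hk b =>
    ((hp.coprime_iff_not_dvd.2 hk).symm).pow_right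
  obtain ⟨γ, hγ⟩ := exists_ne_one hE hEE h
  obtain ⟨a, Y, ha, hY, i0, j0, hij⟩ := exists_prim hl (sub_ne_zero.2 hγ)
    ((hmod γ).imp fun Y hY => by rw [hY]; abel)
  have hγ' : ι γ = 1 + (l : ℤ) ^ a • Y := by rw [← hY]; abel
  obtain ⟨x, hx⟩ : ∃ x, ¬ (l : ℤ) ∣ qf E x (Y + E * Yᵀ * E) := by
    by_contra h0
    push Not at h0
    obtain ⟨M, hM⟩ := exists_qf hE hEE (sym_sp hE hEE Y) h0
    rw [sym_eq hEE (pow_ne_zero a hl0) (hγ' ▸ hsp γ)] at hM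
    have h1 := congrFun (congrFun hM i0) j0
    simp only [Matrix.smul_apply, Matrix.sub_apply, smul_eq_mul] at h1
    obtain ⟨a, rfl⟩ : ∃ c, a = c + 1 := ⟨a - 1, by omega⟩
    have h2 : (l : ℤ) ∣ 2 * (2 * Y i0 j0) :=
      ⟨M i0 j0 + 2 * (l : ℤ) ^ a * (E * Yᵀ * E * Y) i0 j0, by linear_combination h1⟩
    exact hij (((hp.dvd_or_dvd ((hp.dvd_or_dvd h2).resolve_left hnd))).resolve_left hnd)
  have h1 : ∀ w, ∃ c : ℕ, ∀ b, a ≤ b → (l : ℤ) ^ c • nv E w ∈ lam ι ((l : ℤ) ^ b) := fun w => by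
    obtain ⟨D, hD, hk⟩ := kp_rank hE hEE h w x
    obtain ⟨c, D', hD', rfl⟩ := WfDvdMonoid.max_power_factor' hD hp.not_isUnit
    refine ⟨c, fun b hb => ?_⟩
    obtain ⟨δ, Y', hδ⟩ := lift_pow hl hl2 ha hγ' b hb
    set W := Y + (l : ℤ) • Y' with hW
    have h2 : W + E * Wᵀ * E ∈ lam ι ((l : ℤ) ^ b) := by
      rw [sym_eq hEE (pow_ne_zero b hl0) (hδ ▸ hsp δ)]
      have h0 : W ∈ lam ι ((l : ℤ) ^ b) := ⟨δ, 0, by simpa using hδ⟩
      exact sub_mem (zsmul_mem h0 _) (smul_mem_lam _ _)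
    have h3 : _ ∈ lam ι ((l : ℤ) ^ b) := (hk (lam ι ((l : ℤ) ^ b) ⊓ sp E) inf_le_right
      (fun γ Y hY => ⟨conj_mem_lam γ hY.1, conj_mem_sp hsp γ hY.2⟩) _ ⟨h2, sym_sp hE hEE W⟩).1
    have h4 : qf E x (W + E * Wᵀ * E) =
        qf E x (Y + E * Yᵀ * E) + l * qf E x (Y' + E * Y'ᵀ * E) := by
      rw [← qf_smul, ← qf_add, hW, transpose_add, transpose_smul]
      congr 1
      simp only [Matrix.add_mul, Matrix.mul_add, Matrix.mul_smul, Matrix.smul_mul]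
      module
    refine lam_div (hco (D' * qf E x (W + E * Wᵀ * E)) (fun h5 => ?_) b) ?_
    · rcases hp.dvd_or_dvd h5 with h5 | h5
      · exact hD' h5
      · rw [h4] at h5
        exact hx ((dvd_add_left (dvd_mul_right _ _)).1 h5)
    · convert h3 using 1
      beta_reduce
      module
  choose c hc using h1
  set C := Finset.univ.sup (fun p : n × n => c (Pi.single p.1 1 + Pi.single p.2 1)) +
    Finset.univ.sup fun i : n => c (Pi.single i 1) with hC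
  refine ⟨a, C, fun b hb T hT => lam_div (hco 2 hnd b) ?_⟩
  have h2 : ∀ w, c w ≤ C → (l : ℤ) ^ C • nv E w ∈ lam ι ((l : ℤ) ^ b) := fun w hw => by
    obtain ⟨d, hd⟩ := Nat.exists_eq_add_of_le hw
    rw [hd, pow_add, mul_comm, mul_smul]
    exact zsmul_mem (hc w b hb) _
  have h3 : ∀ i, c (Pi.single i 1) ≤ C := fun i =>
    (Finset.le_sup (f := fun i : n => c (Pi.single i 1)) (Finset.mem_univ i)).trans
      (Nat.le_add_left _ _)
  rw [smul_comm, two_smul_eq hE hEE hT, Finset.smul_sum]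
  refine sum_mem fun i _ => ?_
  rw [Finset.smul_sum]
  refine sum_mem fun j _ => ?_
  rw [smul_comm]
  refine zsmul_mem ?_ _
  rw [smul_sub, smul_sub]
  exact (sub_mem (sub_mem (h2 _ ((Finset.le_sup
    (f := fun p : n × n => c (Pi.single p.1 1 + Pi.single p.2 1)) (Finset.mem_univ (i, j))).trans
      (Nat.le_add_right _ _))) (h2 _ (h3 i))) (h2 _ (h3 j)))

theorem approx (hE : Eᵀ = -E) (hEE : E * E = -1) {l : ℕ} (hl : l.Prime)
    (hl2 : l ≠ 2) (hsp : ∀ γ, (ι γ)ᵀ * E * ι γ = E) (hmod : ∀ γ, ∃ Y, ι γ = 1 + (l : ℤ) • Y)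
    (h : ∀ X ∈ sp E, Kp ι E fun Y => X * Y - Y * X) :
    ∃ n0 : ℕ, ∀ (m : ℕ) (g : Matrix n n ℤ), gᵀ * E * g = E → (∃ Y, g = 1 + (l : ℤ) ^ n0 • Y) →
      ∃ (δ : Γ) (g1 : Matrix n n ℤ), g1ᵀ * E * g1 = E ∧ (∃ Y, g1 = 1 + (l : ℤ) ^ m • Y) ∧
        g = ι δ * g1 := by
  rcases isEmpty_or_nonempty n with hn | hn
  · exact ⟨0, fun m g hg _ => ⟨1, g, hg, ⟨0, Subsingleton.elim _ _⟩, Subsingleton.elim _ _⟩⟩
  obtain ⟨a, c, hc⟩ := lam_big hE hEE hl hl2 hsp hmod h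
  have hp : Prime (l : ℤ) := Nat.prime_iff_prime_int.1 hl
  have hnd : ¬ (l : ℤ) ∣ 2 := fun h => hl2 ((Nat.prime_dvd_prime_iff_eq hl Nat.prime_two).1
    (by exact_mod_cast h))
  have key : ∀ (m : ℕ) (g : Matrix n n ℤ), gᵀ * E * g = E →
      (∃ Y, g = 1 + (l : ℤ) ^ (a + c + 1 + c) • Y) → ∃ (δ : Γ) (g1 : Matrix n n ℤ),
      g1ᵀ * E * g1 = E ∧ (∃ Y, g1 = 1 + (l : ℤ) ^ (a + c + 1 + m + c) • Y) ∧ g = ι δ * g1 := by
    intro m g hg hY
    induction m with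
    | zero => exact ⟨1, g, hg, hY, by simp⟩
    | succ m ih =>
      obtain ⟨δ, g1, h1, ⟨Y, hY⟩, rfl⟩ := ih
      set b := a + c + 1 + m with hb
      have h2 := hc b (by omega) _ (sym_sp hE hEE Y)
      rw [sym_eq hEE (pow_ne_zero _ hp.ne_zero) (hY ▸ h1)] at h2
      have h3 : (l : ℤ) ^ c • Y ∈ lam ι ((l : ℤ) ^ b) := by
        refine lam_div (k := 2) ((hp.coprime_iff_not_dvd.2 hnd).symm).pow_right ?_
        convert add_mem h2 (smul_mem_lam ((l : ℤ) ^ b)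
          (((l : ℤ) ^ c * (l : ℤ) ^ c) • (E * Yᵀ * E * Y))) using 1
        rw [pow_add]
        module
      obtain ⟨δ', Z, hZ⟩ := h3
      have h4 : ι δ'⁻¹ * ι δ' = 1 := by rw [← map_mul, inv_mul_cancel, map_one]
      refine ⟨δ * δ', ι δ'⁻¹ * g1, ?_, ⟨-((l : ℤ) ^ (a + m) • (ι δ'⁻¹ * Z)), ?_⟩, ?_⟩
      · rw [transpose_mul]
        conv_rhs => rw [← h1, ← hsp δ'⁻¹]
        simp only [Matrix.mul_assoc]
      · have e : g1 = ι δ' - ((l : ℤ) ^ b * (l : ℤ) ^ b) • Z := by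
          rw [hY, hZ, pow_add]; module
        rw [e, Matrix.mul_sub, h4, Matrix.mul_smul, smul_neg, smul_smul, ← pow_add, ← pow_add,
          show a + c + 1 + (m + 1) + c + (a + m) = b + b by omega, sub_eq_add_neg]
      · rw [map_mul, Matrix.mul_assoc, ← Matrix.mul_assoc (ι δ'), ← map_mul, mul_inv_cancel,
          map_one, Matrix.one_mul]
  refine ⟨a + c + 1 + c, fun m g hg hY => ?_⟩
  obtain ⟨δ, g1, h1, ⟨Y, hY⟩, h2⟩ := key m g hg hY
  refine ⟨δ, g1, h1, ⟨(l : ℤ) ^ (a + c + 1 + c) • Y, ?_⟩, h2⟩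
  rw [hY, smul_smul, ← pow_add]
  congr 3
  omega

end Pool.Agent.MT.G6

namespace Pool.Agent.MT

open Matrix

theorem g6b {n : Type*} [Fintype n] [DecidableEq n] {Γ : Type*} [Group Γ]
    (ι : Γ →* Matrix n n ℤ) (E : Matrix n n ℤ) (hE : Eᵀ = -E) (hEE : E * E = -1) (l : ℕ)
    (hl : l.Prime) (hl2 : l ≠ 2) (hsp : ∀ γ, (ι γ)ᵀ * E * ι γ = E)
    (hmod : ∀ γ, ∃ Y, ι γ = 1 + (l : ℤ) • Y)
    (hA : ∀ X : Matrix n n ℚ,
      Xᵀ * E.map (Int.castRingHom ℚ) + E.map (Int.castRingHom ℚ) * X = 0 → ∃ c : Γ →₀ ℚ,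
      ∀ Y : Matrix n n ℚ, Yᵀ * E.map (Int.castRingHom ℚ) + E.map (Int.castRingHom ℚ) * Y = 0 →
        X * Y - Y * X = c.sum fun γ a =>
          a • ((ι γ).map (Int.castRingHom ℚ) * Y * (ι γ⁻¹).map (Int.castRingHom ℚ))) :
    ∃ n0 : ℕ, ∀ (m : ℕ) (g : Matrix n n ℤ), gᵀ * E * g = E → (∃ Y, g = 1 + (l : ℤ) ^ n0 • Y) →
      ∃ (δ : Γ) (g1 : Matrix n n ℤ), g1ᵀ * E * g1 = E ∧ (∃ Y, g1 = 1 + (l : ℤ) ^ m • Y) ∧
        g = ι δ * g1 :=
  G6.approx hE hEE hl hl2 hsp hmod fun _ hX => G6.kp_ad hA hX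

end Pool.Agent.MT
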