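import Pool.Agent.Lib.MP_d61fbb_ag.MT.GT3

/-! From the theorem of the fixed part to the size of the monodromy algebra. -/

set_option autoImplicit false

open Matrix

namespace Pool.Agent.MT

variable {κ n : Type*} [Fintype κ] [DecidableEq κ] [Fintype n] [DecidableEq n]

/-- a rational vector as a real vector -/
abbrev qv1 {a : Type*} (v : a → ℚ) : a → ℝ := fun i => (v i : ℝ)

omit [DecidableEq n] in
theorem qr_mulVec {a : Type*} (M : Matrix a n ℚ) (v : n → ℚ) : qr M *ᵥ qv1 v = qv1 (M *ᵥ v) := by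
  funext i
  simp [mulVec, dotProduct, qv1]

omit [Fintype n] in
theorem dp_shadow (lam : ℝ →ₗ[ℚ] ℚ) (X : Matrix n n ℝ) : (dp κ X).map lam = dp κ (X.map lam) := by
  ext a b
  simp only [map_apply, dp_apply, map_sum]
  refine Finset.sum_congr rfl fun i _ => ?_
  have : ∏ j ∈ Finset.univ.erase i, (1 : Matrix n n ℝ) (a j) (b j) =
      ((∏ j ∈ Finset.univ.erase i, (1 : Matrix n n ℚ) (a j) (b j) : ℚ) : ℝ) := by
    simp [Matrix.one_apply, apply_ite ((↑) : ℚ → ℝ)]
  rw [this, mul_comm, ← Rat.smul_def, map_smul, smul_eq_mul, mul_comm]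

theorem kill_inv {G : Type*} (io io' : G → Matrix n n ℚ) (hio : ∀ γ, io' γ * io γ = 1) (s : G → ℚ)
    {E : Matrix n n ℚ} {J J' : Matrix n n ℝ} (hg : ¬ NG E J) (hJ : IsLie (qr E) J)
    (hJ' : IsLie (qr E) J') (hne : J' ≠ J)
    (hfix : ∀ v : (κ → n) → ℚ, (∀ γ, tk κ (io γ) *ᵥ v = s γ • v) →
      (∀ γ, dp κ (qr (io γ) * J * qr (io' γ)) *ᵥ qv1 v = dp κ J *ᵥ qv1 v) ∧
        dp κ J' *ᵥ qv1 v = dp κ J *ᵥ qv1 v)
    {X : Matrix n n ℚ} (hX : IsLie E X) (v : (κ → n) → ℚ) (hv : ∀ γ, tk κ (io γ) *ᵥ v = s γ • v) :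
    dp κ X *ᵥ v = 0 := by
  have tq : ∀ γ, tk κ (qr (io γ)) = qr (tk κ (io γ)) := fun γ => (tk_map (Rat.castHom ℝ) _).symm
  let N : Submodule ℝ (Matrix n n ℝ) := lieSub (qr E) ⊓
    { carrier := {X | ∀ v : (κ → n) → ℚ, (∀ γ, tk κ (io γ) *ᵥ v = s γ • v) → dp κ X *ᵥ qv1 v = 0}
      add_mem' := fun {X Y} hX hY v hv => by rw [dp_add, add_mulVec, hX v hv, hY v hv, add_zero]
      zero_mem' := fun v _ => by rw [dp_zero, zero_mulVec]
      smul_mem' := fun c X hX v hv => by rw [dp_smul, smul_mulVec, hX v hv, smul_zero] }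
  have := gen_real hg N ?_ (fun X hX => hX.1) ?_ ⟨J' - J, ⟨(lieSub (qr E)).sub_mem hJ' hJ,
    fun v hv => by rw [dp_sub, sub_mulVec, (hfix v hv).2, sub_self]⟩, sub_ne_zero.2 hne⟩ X hX
  · have h2 := this.2 v hv
    rw [show dp κ (qr X) = qr (dp κ X) from (dp_map (Rat.castHom ℝ) _).symm, qr_mulVec] at h2
    funext a
    simpa using congrFun h2 a
  · rintro lam X ⟨h1, h2⟩
    refine ⟨isLie_qr.2 (IsLie.map h1 lam), fun v hv => ?_⟩
    rw [show dp κ (qr (X.map lam)) = qr (dp κ (X.map lam)) from (dp_map (Rat.castHom ℝ) _).symm,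
      qr_mulVec, ← dp_shadow]
    funext a
    have := congrArg lam (congrFun (h2 v hv) a)
    simp only [mulVec, dotProduct, map_sum, Pi.zero_apply, map_zero] at this
    simp only [mulVec, dotProduct, map_apply, Pi.zero_apply, Rat.cast_eq_zero, ← this]
    exact Finset.sum_congr rfl fun b _ => by
      rw [mul_comm (dp κ X a b), ← Rat.smul_def, map_smul, smul_eq_mul, mul_comm]
  · rintro X ⟨h1, h2⟩
    refine ⟨hJ.lie h1, fun v hv => ?_⟩
    rw [dp_lie, sub_mulVec, ← mulVec_mulVec, h2 v hv, mulVec_zero, zero_sub, neg_eq_zero,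
      ← mulVec_mulVec]
    set w := dp κ J *ᵥ qv1 v with hw
    have k : ∀ γ, qr (tk κ (io γ)) *ᵥ w = (s γ : ℝ) • w := by
      intro γ
      have e : qr (io γ) * J = qr (io γ) * J * qr (io' γ) * qr (io γ) := by
        rw [Matrix.mul_assoc _ (qr (io' γ)), ← qr_mul, hio, qr_one, Matrix.mul_one]
      rw [hw, mulVec_mulVec, ← tq, tk_dp e, ← mulVec_mulVec, tq, qr_mulVec, hv,
        show qv1 (s γ • v) = (s γ : ℝ) • qv1 v by funext a; simp [qv1], mulVec_smul, (hfix v hv).1]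
    refine Submodule.span_induction (p := fun w _ => dp κ X *ᵥ w = 0) ?_ (mulVec_zero _)
      (fun x y _ _ hx hy => by rw [mulVec_add, hx, hy, add_zero])
      (fun c x _ hx => by rw [mulVec_smul, hx, smul_zero]) (real_span w)
    rintro _ ⟨lam, rfl⟩
    refine h2 (fun p => lam (w p)) fun γ => ?_
    funext a
    have := congrArg lam (congrFun (k γ) a)
    simpa only [mulVec, dotProduct, map_sum, map_apply, Pi.smul_apply, smul_eq_mul,
      ← Rat.smul_def, map_smul] using this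

omit [DecidableEq n] in
theorem tk_two {R : Type*} [CommRing R] (g M : Matrix n n R) (i j : n) :
    (tk (Fin 2) g *ᵥ fun a => M (a 0) (a 1)) ![i, j] = (g * M * gᵀ) i j := by
  simp only [mulVec, dotProduct, tk_apply, Fin.prod_univ_two, mul_apply, Finset.sum_mul,
    transpose_apply]
  rw [← (piFinTwoEquiv fun _ => n).symm.sum_comp, Fintype.sum_prod_type, Finset.sum_comm]
  refine Finset.sum_congr rfl fun x _ => Finset.sum_congr rfl fun y _ => ?_
  simp
  ring

theorem dp_two {R : Type*} [CommRing R] (X M : Matrix n n R) (i j : n) :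
    (dp (Fin 2) X *ᵥ fun a => M (a 0) (a 1)) ![i, j] = (X * M + M * Xᵀ) i j := by
  simp only [mulVec, dotProduct, dp_apply, Fin.sum_univ_two, mul_apply, Matrix.add_apply, add_mul,
    transpose_apply, Finset.sum_add_distrib]
  rw [show (Finset.univ.erase (0 : Fin 2)) = {1} by decide,
    show (Finset.univ.erase (1 : Fin 2)) = {0} by decide]
  simp only [← (piFinTwoEquiv fun _ => n).symm.sum_comp, Fintype.sum_prod_type]
  simp [Matrix.one_apply, mul_comm]

theorem g6a {G : Type*} [Group G] (io : G →* Matrix n n ℤ) (E : Matrix n n ℤ) (hE : E * E = -1)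
    (hsp : ∀ γ, (io γ)ᵀ * E * io γ = E) {J J' : Matrix n n ℝ} (hg : ¬ NG (zq E) J)
    (hJ : IsLie (qr (zq E)) J) (hJ' : IsLie (qr (zq E)) J') (hne : J' ≠ J)
    (hfix : ∀ (κ : Type) [Fintype κ] [DecidableEq κ] (v : (κ → n) → ℚ),
      (∀ γ, tk κ (zq (io γ)) *ᵥ v = v ∨ tk κ (zq (io γ)) *ᵥ v = -v) →
      (∀ γ, dp κ (qr (zq (io γ)) * J * qr (zq (io γ⁻¹))) *ᵥ qv1 v = dp κ J *ᵥ qv1 v) ∧
        dp κ J' *ᵥ qv1 v = dp κ J *ᵥ qv1 v)
    (X : Matrix n n ℚ) (hX : Xᵀ * zq E + zq E * X = 0) :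
    ∃ c : G →₀ ℚ, ∀ Y : Matrix n n ℚ,
      X * Y - Y * X = c.sum fun γ a => a • (zq (io γ) * Y * zq (io γ⁻¹)) := by
  let A : Submodule ℤ (Matrix (Fin 2 → n) (Fin 2 → n) ℤ) :=
    Submodule.span ℤ (Set.range fun γ => tk (Fin 2) (io γ))
  have hA : ∀ γ, ∀ x ∈ A, LinearMap.mulLeft ℤ (tk (Fin 2) (io γ)) x ∈ A := by
    intro γ x hx
    refine Submodule.span_mono ?_ (Submodule.apply_mem_span_image_of_mem_span _ hx)
    rintro _ ⟨_, ⟨δ, rfl⟩, rfl⟩
    exact ⟨γ * δ, by simp [tk_mul]⟩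
  let L : G → A →ₗ[ℤ] A := fun γ => (LinearMap.mulLeft ℤ (tk (Fin 2) (io γ))).restrict (hA γ)
  have hL : ∀ γ, LinearMap.det (L γ) = 1 ∨ LinearMap.det (L γ) = -1 := by
    intro γ
    refine Int.eq_one_or_neg_one_of_mul_eq_one (v := LinearMap.det (L γ⁻¹)) ?_
    rw [← map_mul, ← map_one (LinearMap.det : (A →ₗ[ℤ] A) →* ℤ)]
    congr 1
    ext x : 2
    simp [L, ← Matrix.mul_assoc, ← tk_mul, ← map_mul, tk_one]
  let b := Module.finBasis ℤ A
  let zL : Matrix (Fin 2 → n) (Fin 2 → n) ℤ →ₗ[ℤ] Matrix (Fin 2 → n) (Fin 2 → n) ℚ :=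
    ((Int.castRingHom ℚ).mapMatrix.toAddMonoidHom).toIntLinearMap
  have hz : ∀ x, zL x = zq x := fun x => rfl
  let e : Fin (Module.finrank ℤ A) → Matrix (Fin 2 → n) (Fin 2 → n) ℚ := fun i => zq (b i).1
  have he : LinearIndependent ℚ e := (LinearIndependent.iff_fractionRing ℤ ℚ).1
    (b.linearIndependent.map' (zL ∘ₗ A.subtype) (LinearMap.ker_eq_bot.2
      ((Matrix.map_injective Int.cast_injective).comp A.injective_subtype)))
  have hb : ∀ x : A, zq x.1 = ∑ k, (b.repr x k : ℚ) • e k := by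
    intro x
    conv_lhs => rw [← b.sum_repr x, ← hz]
    simp only [e, AddSubmonoidClass.coe_finsetSum, SetLike.val_smul, ← hz, map_sum, map_smul,
      Int.cast_smul_eq_zsmul]
  have tq : ∀ γ, tk (Fin 2) (zq (io γ)) = zq (tk (Fin 2) (io γ)) :=
    fun γ => (tk_map (Int.castRingHom ℚ) _).symm
  have hp : ∀ γ bb, (tk (Fin (Module.finrank ℤ A) × Fin 2) (zq (io γ)) *ᵥ fun y =>
      pl e bb (Function.curry y)) =
      ((LinearMap.det (L γ) : ℤ) : ℚ) • fun y => pl e bb (Function.curry y) := by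
    intro γ bb
    funext x
    have : (fun i => tk (Fin 2) (zq (io γ)) * e i) =
        fun i => ∑ k, (zq (LinearMap.toMatrix b b (L γ)))ᵀ i k • e k := by
      funext i
      rw [tq, ← zq_mul]
      simpa [LinearMap.toMatrix_apply, L] using hb (L γ (b i))
    rw [tk_curry, pl_mul, this, pl_comb, det_transpose, ← LinearMap.det_toMatrix b]
    rw [show (zq (LinearMap.toMatrix b b (L γ))).det = _ from
      ((Int.castRingHom ℚ).map_det _).symm]
    rfl
  have h1 : ∀ i, dp (Fin 2) X * e i ∈ Submodule.span ℚ (Set.range e) := pl_lie he X fun bb =>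
    kill_inv (fun γ => zq (io γ)) (fun γ => zq (io γ⁻¹))
      (fun γ => by rw [← zq_mul, ← map_mul, inv_mul_cancel, map_one, zq_one])
      (fun γ => ((LinearMap.det (L γ) : ℤ) : ℚ)) hg hJ hJ' hne
      (fun v hv => hfix _ v fun γ => by rcases hL γ with h | h <;> simp [hv, h]) hX _
      fun γ => hp γ bb
  have h2 : dp (Fin 2) X ∈ Submodule.span ℚ (Set.range fun γ => tk (Fin 2) (zq (io γ))) := by
    have h3 : Submodule.span ℚ (Set.range e) ≤
        Submodule.span ℚ (Set.range fun γ => tk (Fin 2) (zq (io γ))) := by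
      rw [Submodule.span_le]
      rintro _ ⟨i, rfl⟩
      refine Submodule.span_le_restrictScalars ℤ ℚ _ (Submodule.span_mono ?_
        (Submodule.apply_mem_span_image_of_mem_span zL (b i).2))
      rintro _ ⟨_, ⟨δ, rfl⟩, rfl⟩
      exact ⟨δ, tq δ⟩
    have := hb ⟨_, Submodule.subset_span ⟨1, rfl⟩⟩
    simp only [map_one, tk_one, zq_one] at this
    rw [← Matrix.mul_one (dp _ X), this, Matrix.mul_sum]
    exact Submodule.sum_mem _ fun k _ => by
      rw [Matrix.mul_smul]; exact Submodule.smul_mem _ _ (h3 (h1 k))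
  obtain ⟨c, hc⟩ := Finsupp.mem_span_range_iff_exists_finsupp.1 h2
  refine ⟨c, fun Y => ?_⟩
  have hEq : zq E * zq E = -1 := by
    rw [← zq_mul, hE, ← zq_one]; ext; simp only [map_apply, Matrix.neg_apply, Int.cast_neg]
  have e1 : zq E * Xᵀ * zq E = X := by
    rw [Matrix.mul_assoc, eq_neg_of_add_eq_zero_left hX, Matrix.mul_neg, ← Matrix.mul_assoc, hEq]
    simp
  have e2 : ∀ γ, zq E * (zq (io γ))ᵀ * zq E = -zq (io γ⁻¹) := by
    intro γ
    have : zq ((io γ)ᵀ * E * io γ * io γ⁻¹) = zq (E * io γ⁻¹) := by rw [hsp]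
    rw [Matrix.mul_assoc, ← map_mul, mul_inv_cancel, map_one, Matrix.mul_one, zq_mul, zq_mul] at this
    rw [Matrix.mul_assoc, show (zq (io γ))ᵀ * zq E = _ from this, ← Matrix.mul_assoc, hEq]
    simp
  have e3 : X * (Y * zq E) + Y * zq E * Xᵀ =
      c.sum fun γ a => a • (zq (io γ) * (Y * zq E) * (zq (io γ))ᵀ) := by
    ext i j
    rw [← dp_two, ← hc]
    simp only [Finsupp.sum, sum_mulVec, smul_mulVec, Finset.sum_apply, Pi.smul_apply, tk_two,
      Matrix.sum_apply, Matrix.smul_apply]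
  have e4 := congrArg (fun M => -(M * zq E)) e3
  simp only [Finsupp.sum, Matrix.add_mul, Matrix.sum_mul, Matrix.smul_mul, Matrix.mul_assoc, hEq,
    ← Finset.sum_neg_distrib, ← smul_neg] at e4
  simp only [← Matrix.mul_assoc (zq E), e1, e2] at e4
  simpa [Finsupp.sum, Matrix.mul_assoc, sub_eq_add_neg, add_comm] using e4

end Pool.Agent.MT
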