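import Pool.Agent.Lib.MP_d61fbb_ag.MT.GT2

/-! Simplicity of the symplectic Lie algebra and the normaliser of a rational subspace. -/

set_option autoImplicit false

open Matrix

namespace Pool.Agent.MT

variable {n : Type*} [Fintype n] [DecidableEq n] {E : Matrix n n ℚ}

/-- the nilpotent element of a vector -/
def nq (E : Matrix n n ℚ) (v : n → ℚ) : Matrix n n ℚ := vecMulVec v v * E

omit [DecidableEq n] in
theorem nq_mulVec (v u : n → ℚ) : nq E v *ᵥ u = (v ⬝ᵥ E *ᵥ u) • v := by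
  rw [nq, ← mulVec_mulVec, vecMulVec_mulVec]
  simp

omit [DecidableEq n] in
theorem nq_lie (hE : Eᵀ = -E) (v : n → ℚ) : IsLie E (nq E v) := by
  rw [IsLie, nq, transpose_mul, transpose_vecMulVec, hE]
  simp [Matrix.mul_assoc]

omit [DecidableEq n] in
theorem om_swap (hE : Eᵀ = -E) (u v : n → ℚ) : u ⬝ᵥ E *ᵥ v = -(v ⬝ᵥ E *ᵥ u) := by
  rw [dotProduct_mulVec, ← mulVec_transpose, hE, neg_mulVec, neg_dotProduct, dotProduct_comm]

omit [DecidableEq n] in
theorem nq_mul_mul (v : n → ℚ) (Y : Matrix n n ℚ) :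
    nq E v * Y * nq E v = (v ⬝ᵥ E *ᵥ Y *ᵥ v) • nq E v := by
  refine Matrix.ext_iff_mulVec.2 fun u => ?_
  rw [← mulVec_mulVec, ← mulVec_mulVec, nq_mulVec, nq_mulVec, smul_mulVec, nq_mulVec, smul_smul,
    mulVec_smul, mulVec_smul, dotProduct_smul, smul_eq_mul, mul_comm]

theorem nq_sq (hE : Eᵀ = -E) (v : n → ℚ) : nq E v * nq E v = 0 := by
  have h := nq_mul_mul (E := E) v 1
  have h0 := om_swap hE v v
  rw [Matrix.mul_one, one_mulVec, show v ⬝ᵥ E *ᵥ v = 0 by linarith, zero_smul] at h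
  exact h

theorem exists_om (hEE : E * E = -1) {v : n → ℚ} (hv : v ≠ 0) : ∃ u, v ⬝ᵥ E *ᵥ u ≠ 0 :=
  ⟨E *ᵥ v, by simpa [mulVec_mulVec, hEE, neg_mulVec, dotProduct_self_eq_zero] using hv⟩

/-- a matrix that commutes with the Lie algebra is a scalar -/
theorem scalar_of_comm (hE : Eᵀ = -E) (hEE : E * E = -1) {d : Matrix n n ℚ}
    (h : ∀ X, IsLie E X → d * X = X * d) : ∃ c : ℚ, d = c • (1 : Matrix n n ℚ) := by
  have k : ∀ v, ∃ c : ℚ, d *ᵥ v = c • v := by
    intro v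
    by_cases hv : v = 0
    · exact ⟨0, by simp [hv]⟩
    obtain ⟨u, hu⟩ := exists_om hEE hv
    have := congrArg (· *ᵥ u) (h _ (nq_lie hE v))
    simp only [← mulVec_mulVec, nq_mulVec, mulVec_smul] at this
    exact ⟨(v ⬝ᵥ E *ᵥ u)⁻¹ * (v ⬝ᵥ E *ᵥ d *ᵥ u), by
      rw [mul_smul, ← this, smul_smul, inv_mul_cancel₀ hu, one_smul]⟩
  have k1 : ∀ i j, i ≠ j → d i j = 0 := fun i j hij => by
    obtain ⟨c, hc⟩ := k (Pi.single j 1)
    simpa [hij] using congrFun hc i
  cases isEmpty_or_nonempty n with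
  | inl _ => exact ⟨0, Subsingleton.elim _ _⟩
  | inr hn =>
    obtain ⟨i0⟩ := hn
    refine ⟨d i0 i0, Matrix.ext fun i j => ?_⟩
    by_cases hij : i = j
    · subst hij
      by_cases h0 : i = i0
      · simp [h0]
      obtain ⟨c, hc⟩ := k (Pi.single i 1 + Pi.single i0 1)
      have a1 := congrFun hc i
      have a2 := congrFun hc i0
      simp [mulVec_add, h0, Ne.symm h0, k1 _ _ h0, k1 _ _ (Ne.symm h0)] at a1 a2
      simp [a1, a2]
    · simp [hij, k1 i j hij]

theorem gen_scalar (hE : Eᵀ = -E) (hEE : E * E = -1) {J : Matrix n n ℝ} (h : ¬ NG E J)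
    (hJ : IsLie (qr E) J) (h0 : J ≠ 0) {d : Matrix n n ℚ} (hd : qr d * J = J * qr d) :
    ∃ c : ℚ, d = c • (1 : Matrix n n ℚ) := scalar_of_comm hE hEE (gen_comm h hJ h0 hd)

theorem lie_eq_sum (hE : Eᵀ = -E) (hEE : E * E = -1) {X : Matrix n n ℚ} (hX : IsLie E X) :
    X = ∑ i, ∑ j, (-(X * E) i j / 2) • (nq E (Pi.single i 1 + Pi.single j 1) -
      nq E (Pi.single i 1) - nq E (Pi.single j 1)) := by
  have h1 : (X * E)ᵀ = X * E := by
    have : E * (Xᵀ * E) * E = E * -(E * X) * E := by rw [eq_neg_of_add_eq_zero_left hX]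
    rw [Matrix.mul_assoc, Matrix.mul_assoc, hEE, Matrix.mul_neg E (E * X), ← Matrix.mul_assoc E E,
      hEE] at this
    simpa [transpose_mul, hE] using this
  have h2 : ∀ i j, (X * E) j i = (X * E) i j := fun i j => congrFun (congrFun h1 i) j
  have h3 : X = -(X * E) * E := by rw [Matrix.neg_mul, Matrix.mul_assoc, hEE]; simp
  simp only [nq, ← Matrix.sub_mul, ← Matrix.smul_mul, ← Matrix.sum_mul]
  conv_lhs => rw [h3]
  congr 1
  generalize X * E = S at h2
  ext a b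
  have : ∀ i j, (vecMulVec (Pi.single i 1 + Pi.single j 1) (Pi.single i 1 + Pi.single j 1) -
      vecMulVec (Pi.single i 1) (Pi.single i 1) - vecMulVec (Pi.single j 1) (Pi.single j 1) :
        Matrix n n ℚ) a b = (if a = i then 1 else 0) * (if b = j then 1 else 0) +
          (if a = j then 1 else 0) * (if b = i then 1 else 0) := fun i j => by
    simp only [Matrix.sub_apply, vecMulVec_apply, Pi.add_apply, Pi.single_apply]; ring
  simp only [Matrix.sum_apply, Matrix.smul_apply, this, smul_eq_mul, mul_add,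
    Finset.sum_add_distrib]
  rw [Finset.sum_comm (f := fun i j => _ * ((if a = j then (1 : ℚ) else 0) * _))]
  simp [h2 a b]

/-- a subspace that is stable under the symplectic group is trivial -/
theorem lie_simple (hE : Eᵀ = -E) (hEE : E * E = -1) {hh : Submodule ℚ (Matrix n n ℚ)}
    (h1 : ∀ X ∈ hh, IsLie E X) (h2 : hh ≠ ⊥)
    (h3 : ∀ g g' : Matrix n n ℚ, g * g' = 1 → gᵀ * E * g = E → ∀ X ∈ hh, g * X * g' ∈ hh) :
    ∀ X, IsLie E X → X ∈ hh := by
  have k : ∀ v, ∀ X ∈ hh, v ⬝ᵥ E *ᵥ X *ᵥ v ≠ 0 → nq E v ∈ hh := by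
    intro v X hX h0
    have s := nq_sq hE v
    have l : (nq E v)ᵀ * E = -(E * nq E v) := eq_neg_of_add_eq_zero_left (nq_lie hE v)
    have a1 := h3 (1 + nq E v) (1 - nq E v) (by simp [mul_sub, add_mul, s])
      (by simp [transpose_add, add_mul, mul_add, l, Matrix.mul_assoc, s]) X hX
    have a2 := h3 (1 - nq E v) (1 + nq E v) (by simp [mul_add, sub_mul, s])
      (by simp [transpose_sub, sub_mul, mul_sub, add_mul, l, Matrix.mul_assoc, s]) X hX
    have a3 := hh.sub_mem (hh.add_mem hX hX) (hh.add_mem a1 a2)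
    rw [show X + X - ((1 + nq E v) * X * (1 - nq E v) + (1 - nq E v) * X * (1 + nq E v)) =
      nq E v * X * nq E v + nq E v * X * nq E v by noncomm_ring, nq_mul_mul, ← add_smul] at a3
    exact (hh.smul_mem_iff (by intro h; apply h0; linarith)).1 a3
  have k1 : ∀ u v, nq E v ∈ hh → u ⬝ᵥ E *ᵥ v ≠ 0 → nq E u ∈ hh := fun u v hv h0 => k u _ hv (by
    rw [nq_mulVec, mulVec_smul, dotProduct_smul, om_swap hE v u]
    simpa using h0)
  obtain ⟨X0, hX0, h0⟩ := (Submodule.ne_bot_iff _).1 h2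
  obtain ⟨v, hv⟩ : ∃ v, v ⬝ᵥ E *ᵥ X0 *ᵥ v ≠ 0 := by
    by_contra! hc
    have s : (E * X0)ᵀ = E * X0 := by
      rw [transpose_mul, hE, Matrix.mul_neg, eq_neg_of_add_eq_zero_left (h1 _ hX0), neg_neg]
    have : E * X0 = 0 := by
      simp only [mulVec_mulVec] at hc
      generalize E * X0 = S at hc s
      ext i j
      have a1 := hc (Pi.single i 1)
      have a2 := hc (Pi.single j 1)
      have a3 := hc (Pi.single i 1 + Pi.single j 1)
      have a4 : S j i = S i j := congrFun (congrFun s i) j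
      simp [mulVec_add, add_dotProduct] at a1 a2 a3
      simp only [Matrix.zero_apply]
      linarith
    apply h0
    have := congrArg (E * ·) this
    simpa [← Matrix.mul_assoc, hEE] using this
  have hv1 := k v X0 hX0 hv
  have k2 : ∀ u, nq E u ∈ hh := by
    intro u
    by_cases hu : u = 0
    · simp [hu, nq]
    obtain ⟨w1, a1⟩ := exists_om hEE (v := v) (by rintro rfl; simp at hv)
    obtain ⟨w2, a2⟩ := exists_om hEE hu
    have f : ∀ w, v ⬝ᵥ E *ᵥ w ≠ 0 → u ⬝ᵥ E *ᵥ w ≠ 0 → nq E u ∈ hh := fun w b1 b2 =>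
      k1 u w (k1 w v hv1 (by rw [om_swap hE]; exact neg_ne_zero.2 b1)) b2
    by_cases b1 : u ⬝ᵥ E *ᵥ w1 = 0
    · by_cases b2 : v ⬝ᵥ E *ᵥ w2 = 0
      · exact f (w1 + w2) (by simpa [mulVec_add, b2] using a1) (by simpa [mulVec_add, b1] using a2)
      · exact f w2 b2 a2
    · exact f w1 a1 b1
  intro X hX
  rw [lie_eq_sum hE hEE hX]
  exact hh.sum_mem fun i _ => hh.sum_mem fun j _ =>
    hh.smul_mem _ (hh.sub_mem (hh.sub_mem (k2 _) (k2 _)) (k2 _))

end Pool.Agent.MT
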