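import Pool.Agent.Lib.MP_d61fbb_ag.MT.G5
import Pool.Agent.Lib.MP_d61fbb_ag.MT.G6b
import Pool.Agent.Lib.MP_d61fbb_ag.MT.GT4
import Pool.Agent.Lib.MP_d61fbb_ag.MT.GT5

/-! Block G: the monodromy group is open; generic points. -/

noncomputable section

namespace Pool.Agent.MT.G

open Matrix Complex Filter Topology Set Metric

variable {g l : ℕ}

theorem Jm_lie {z : EE g} (hz : z ∈ HH g) : IsLie (qr (J (Fin g) ℚ)) (Jm z) := by
  have := congrArg (· * Jm z) (SymplecticGroup.mem_iff'.1 (Jm_mem hz))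
  simp only [Matrix.mul_assoc, Jm_sq hz, Matrix.mul_neg, Matrix.mul_one] at this
  rw [IsLie, show qr (J (Fin g) ℚ) = J (Fin g) ℝ from Matrix.map_J _ (Rat.castHom ℝ), ← this,
    add_neg_cancel]

theorem mem_Gam {M : ℕ} {γ : Sp g ℤ} : γ ∈ Gam g M ↔ ∃ Y, γ.1 = 1 + (M : ℤ) • Y := by
  refine ⟨fun h => ?_, fun ⟨Y, h⟩ i j => ⟨Y i j, by
    rw [h, Matrix.add_apply, Matrix.smul_apply, smul_eq_mul, add_sub_cancel_left]⟩⟩
  choose Y hY using h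
  exact ⟨of Y, Matrix.ext fun i j => by simpa [sub_eq_iff_eq_add'] using hY i j⟩

theorem mon_open (hl : l.Prime) (h2 : l ≠ 2) {G : Subgroup (Sp g ℤ)} (hG : G ≤ Gam g (32 * l))
    (C : Cov1 G) {z : EE g} (hz : C.Pt z) (h : Gen z) :
    ∃ n, ∀ m, ∀ γ ∈ Gam g (32 * l ^ n), ∃ γ₀ ∈ C.Mon z, γ * γ₀⁻¹ ∈ Gam g (32 * l ^ m) := by
  obtain ⟨G₀, hG₀⟩ := C.mon_sub hz
  obtain ⟨z', c1, c2⟩ := C.conn_ne hz
  have hH := (C.conn_mem hz .refl).1
  have hm : ∀ γ : G₀, γ.1 ∈ C.Mon z := fun γ => hG₀ ▸ γ.2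
  let io : G₀ →* MM g ℤ := (symplecticGroup (Fin g) ℤ).subtype.comp G₀.subtype
  have hsp : ∀ γ, (io γ)ᵀ * J (Fin g) ℤ * io γ = J (Fin g) ℤ :=
    fun γ => SymplecticGroup.mem_iff'.1 γ.1.2
  have eJ : MT.zq (J (Fin g) ℤ) = J (Fin g) ℚ := Matrix.map_J _ (Int.castRingHom ℚ)
  have ez : ∀ A : MM g ℤ, qr (MT.zq A) = zm A := fun A => by ext; simp
  obtain ⟨n, hn⟩ := g6b io (J (Fin g) ℤ) (J_transpose _ _) (J_squared _ _) l hl h2 hsp
    (fun γ => mem_Gam.1 (Gam_mono (dvd_mul_left l 32) (hG (hm γ).1))) fun X hX => by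
      refine (g6a io (J (Fin g) ℤ) (J_squared _ _) hsp (J := Jm z) (J' := Jm z') (eJ ▸ h)
        (eJ ▸ Jm_lie hH) (eJ ▸ Jm_lie (C.conn_mem hz c1).1) c2 ?_ X hX).imp fun c hc Y _ => hc Y
      intro κ _ _ v hv
      have k : ∀ {w}, C.Conn z w → dp κ (Jm w) *ᵥ qv1 v = dp κ (Jm z) *ᵥ qv1 v := fun hw =>
        dp_of_circle _ _ _ (C.fixed hz κ (qv1 v) (fun γ hγ => by
          have e : tp κ (zm γ.1) = qr (tk κ (MT.zq γ.1)) := by
            rw [← ez]; exact (tk_map (Rat.castHom ℝ) _).symm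
          rw [e, qr_mulVec]
          refine (hv ⟨γ, by rw [← SetLike.mem_coe, hG₀]; exact hγ⟩).imp (congrArg qv1) fun h =>
            (congrArg qv1 h).trans ?_
          funext a
          simp [qv1]) hw)
      refine ⟨fun γ => ?_, k c1⟩
      rw [← k (hm γ).2, Matrix.mul_assoc, ez]
      have e1 := Jm_ac (zsp γ.1) hH
      have e2 : zm (io γ) * qr (MT.zq (io γ⁻¹)) = 1 := by
        rw [← ez, ← qr_mul, ← zq_mul, ← map_mul, mul_inv_cancel, map_one, zq_one, qr_one]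
      rw [← Matrix.mul_assoc, show zm (io γ) * Jm z = _ from e1.symm, Matrix.mul_assoc,
        show (zsp γ.1).1 * _ = 1 from e2, Matrix.mul_one]
      rfl
  refine ⟨n, fun m γ hγ => ?_⟩
  obtain ⟨δ, g1, -, a2, a3⟩ := hn m γ.1 (SymplecticGroup.mem_iff'.1 γ.2)
    (by exact_mod_cast mem_Gam.1 (Gam_mono (dvd_mul_left _ 32) hγ))
  refine ⟨δ.1, hm δ, ?_⟩
  have b1 : (δ.1⁻¹ * γ).1 = g1 := by
    rw [Submonoid.coe_mul, a3, ← Matrix.mul_assoc, show (δ.1⁻¹).1 * io δ = 1 from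
      congrArg Subtype.val (inv_mul_cancel δ.1), Matrix.one_mul]
  have b2 : δ.1⁻¹ * γ ∈ Gam g (32 * l ^ m) := Gam_inf
    (Nat.Coprime.pow 5 m ((Nat.coprime_primes Nat.prime_two hl).2 h2.symm))
    (mul_mem (inv_mem (Gam_mono (dvd_mul_right 32 l) (hG (hm δ).1)))
      (Gam_mono (dvd_mul_right 32 _) hγ)) (mem_Gam.2 (by rw [b1]; exact_mod_cast a2))
  simpa [← mul_assoc] using Gam_conj b2 δ.1

theorem Gen.ac {z : EE g} (hz : z ∈ HH g) (h : Gen z) (γ : Sp g ℚ) : Gen (ac (qm γ.1) z) := by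
  intro h'
  have e : (γ⁻¹).1 * γ.1 = 1 := congrArg Subtype.val (inv_mul_cancel γ)
  have := h'.conj e one_ne_zero ((SymplecticGroup.mem_iff'.1 (γ⁻¹).2).trans (one_smul _ _).symm)
  rw [Matrix.mul_assoc, show Jm (G.ac (qm γ.1) z) * qr γ.1 = _ from Jm_ac (qsp γ) hz,
    ← Matrix.mul_assoc, show qr (γ⁻¹).1 * (qsp γ).1 = 1 by rw [← qr_one, ← e, qr_mul]; rfl,
    Matrix.one_mul] at this
  exact h this

theorem Gen.comm {z : EE g} (hz : z ∈ HH g) (h : Gen z) (γ : Sp g ℚ) (e : G.ac (qm γ.1) z = z) :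
    ∃ c : ℚ, γ.1 = c • 1 := by
  cases isEmpty_or_nonempty (I2 g) with
  | inl _ => exact ⟨0, Subsingleton.elim _ _⟩
  | inr _ =>
    have e1 : Jm (G.ac (qm γ.1) z) * qr γ.1 = qr γ.1 * Jm z := Jm_ac (qsp γ) hz
    rw [e] at e1
    refine gen_scalar (J_transpose _ _) (J_squared _ _) h (Jm_lie hz) (fun h0 => ?_) e1.symm
    simpa [h0] using Jm_sq hz

end Pool.Agent.MT.G
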