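import Pool.Agent.Lib.MP_d61fbb_ag.MT.A6

/-! Definitions for the reduction theory of the Siegel space. -/

noncomputable section

namespace Pool.Agent.MT

open Matrix Complex

variable {g : ℕ}

/-- a lower bound for a real quadratic form -/
def Lo (c : ℝ) (Y : Matrix (Fin g) (Fin g) ℝ) : Prop :=
  ∀ y : Fin g → ℝ, c * (y ⬝ᵥ y) ≤ y ⬝ᵥ Y *ᵥ y

/-- the form `Y` in the basis `U` -/
def cg (U : Matrix (Fin g) (Fin g) ℤ) (Y : Matrix (Fin g) (Fin g) ℝ) : Matrix (Fin g) (Fin g) ℝ :=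
  (U.map (↑))ᵀ * Y * U.map (↑)

/-- the theta constants of level four -/
def th4 (τ : Matrix (Fin g) (Fin g) ℂ) (y : I2 g → ℤ) : ℂ := Th τ ((1 / 4 : ℂ) • zc y)

/-- sets of characteristics that see every cusp -/
def Cusp (S : Set (I2 g → ℤ)) : Prop :=
  ∀ w : I2 g → ℤ, (∃ i, Odd (w i)) → ∃ y ∈ S, Odd (Ef w y)

/-- homogeneous polynomials in the theta constants -/
def Form (D : ℕ) (F : Matrix (Fin g) (Fin g) ℂ → ℂ) : Prop :=
  ∃ P : MvPolynomial (I2 g → ℚ) ℂ, P.IsHomogeneous D ∧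
    ∀ τ, Sieg τ → F τ = MvPolynomial.eval (fun x => Th τ (qc x)) P

/-- the largest theta value -/
def nuT (τ : Matrix (Fin g) (Fin g) ℂ) : ℝ := ⨆ x : I2 g → ℝ, ‖Th τ (rc x)‖

end Pool.Agent.MT
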