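import Pool.Agent.Lib.MP_d61fbb_ag.MT.G0b
import Pool.Agent.Lib.MP_d61fbb_ag.MT.GR0
import Pool.Agent.Lib.MP_d61fbb_ag.MT.A6b

/-! Block G: forms and their transformation. -/

noncomputable section

namespace Pool.Agent.MT.G

open Matrix Complex Filter Topology Set Metric

variable {g : ℕ}

theorem th_mem {M : ℕ} {x : I2 g → ℚ} (hx : x ∈ ChL g M) : th x ∈ RL g M 1 := by
  rw [RL, pow_one]
  exact Submodule.subset_span ⟨x, hx, rfl⟩

theorem ch_mem {M : ℕ} (y : LL g M) : ch M y ∈ ChL g M := by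
  intro i
  have : (M : ℚ) ≠ 0 := by
    rintro h
    have := (y i).pos
    rw [Nat.cast_eq_zero.1 h] at this
    exact absurd this (by simp)
  exact ⟨(y i : ℕ), by rw [ch]; push_cast; field_simp⟩

theorem RL_mul {M k k' : ℕ} {F F' : EE g → ℂ} (h : F ∈ RL g M k) (h' : F' ∈ RL g M k') :
    F * F' ∈ RL g M (k + k') := by
  rw [RL, pow_add]
  exact Submodule.mul_mem_mul h h'

theorem RL_pow {M k : ℕ} {F : EE g → ℂ} (h : F ∈ RL g M k) (n : ℕ) : F ^ n ∈ RL g M (k * n) := by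
  rw [RL, pow_mul]
  exact Submodule.pow_mem_pow _ h n

theorem RL_mono {M N : ℕ} (h : M ∣ N) (k : ℕ) : RL g M k ≤ RL g N k := by
  obtain ⟨c, rfl⟩ := h
  refine pow_le_pow_left' (Submodule.span_mono (image_mono fun x hx i => ?_)) k
  obtain ⟨n, hn⟩ := hx i
  exact ⟨c * n, by push_cast; rw [← hn]; ring⟩

theorem RL_ind {M : ℕ} (p : ∀ {_ : ℕ}, (EE g → ℂ) → Prop) (h0 : ∀ c : ℂ, @p 0 fun _ => c)
    (ha : ∀ k F F', @p k F → @p k F' → @p k (F + F'))
    (hm : ∀ x ∈ ChL g M, ∀ k F, @p k F → @p (k + 1) (th x * F)) (hz : ∀ k, @p k 0)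
    (hs : ∀ (c : ℂ) k F, @p k F → @p k (c • F)) {k : ℕ} {F : EE g → ℂ} (h : F ∈ RL g M k) :
    @p k F := by
  induction h using Submodule.pow_induction_on_left' with
  | algebraMap c => exact h0 c
  | add F F' k _ _ a b => exact ha k F F' a b
  | mem_mul m hm' k F _ a =>
    induction hm' using Submodule.span_induction with
    | mem _ h =>
      obtain ⟨x, hx, rfl⟩ := h
      exact hm x hx k F a
    | zero => rw [zero_mul]; exact hz _
    | add _ _ _ _ b c => rw [add_mul]; exact ha _ _ _ b c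
    | smul c _ _ b => rw [smul_mul_assoc]; exact hs c _ _ b

theorem th_diff (x : I2 g → ℚ) : DifferentiableOn ℂ (th x) (HH g) := fun z hz =>
  ((T_diffAt (t := fun (w : EE g) i j => w s(i, j)) hz mk_symm (by fun_prop)
    (differentiableAt_const _) (differentiableAt_const _)).const_mul _).differentiableWithinAt

theorem RL_diff {M k : ℕ} {F : EE g → ℂ} (h : F ∈ RL g M k) : DifferentiableOn ℂ F (HH g) := by
  exact RL_ind (fun F => DifferentiableOn ℂ F (HH g)) (fun c => differentiableOn_const _)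
    (fun _ _ _ a b => a.add b) (fun x _ _ _ a => (th_diff x).mul a)
    (fun _ => differentiableOn_const _) (fun c _ _ a => a.const_smul c) h

theorem RL_form {M k : ℕ} {F : EE g → ℂ} (h : F ∈ RL g M k) : Form k fun τ => F (un τ) := by
  refine RL_ind (fun {k} F => Form k fun τ => F (un τ)) (fun c => ?_) ?_ ?_ (fun k => ?_) ?_ h
  · exact ⟨MvPolynomial.C c, MvPolynomial.isHomogeneous_C _ _, fun τ _ => by simp⟩
  · rintro k F F' ⟨P, h1, h2⟩ ⟨Q, h3, h4⟩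
    exact ⟨P + Q, h1.add h3, fun τ hτ => by rw [map_add, ← h2 τ hτ, ← h4 τ hτ]; rfl⟩
  · rintro x - k F ⟨P, h1, h2⟩
    exact ⟨MvPolynomial.X x * P, add_comm 1 k ▸ (MvPolynomial.isHomogeneous_X _ x).mul h1,
      fun τ hτ => by
        simp only [map_mul, ← h2 τ hτ, MvPolynomial.eval_X, Pi.mul_apply, th, mk_un hτ.symm]⟩
  · exact ⟨0, MvPolynomial.isHomogeneous_zero _ _ _, fun τ _ => by simp⟩
  · rintro c k F ⟨P, h1, h2⟩
    exact ⟨MvPolynomial.C c * P, zero_add k ▸ (MvPolynomial.isHomogeneous_C _ c).mul h1,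
      fun τ hτ => by rw [map_mul, ← h2 τ hτ, MvPolynomial.eval_C]; rfl⟩

/-- reduction of the characteristic -/
theorem th_red {M : ℕ} (hM : 0 < M) {x : I2 g → ℚ} (hx : x ∈ ChL g M) :
    ∃ (y : LL g M) (c : ℂ), ‖c‖ = 1 ∧ (∀ i, ∃ n : ℤ, x i = ch M y i + n) ∧
      ∀ z, th x z = c * th (ch M y) z := by
  choose n hn using hx
  have h4 : (0 : ℤ) < (4 * M : ℕ) := by exact_mod_cast Nat.mul_pos (by norm_num) hM
  have hq : (M : ℚ) ≠ 0 := by exact_mod_cast hM.ne'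
  let y : LL g M := fun i => ⟨(n i % (4 * M : ℕ)).toNat, by
    have := Int.emod_lt_of_pos (n i) h4
    have := Int.emod_nonneg (n i) h4.ne'
    omega⟩
  have e : ∀ i, x i = ch M y i + (n i / (4 * M : ℕ) : ℤ) := fun i => by
    have h1 : ((y i : ℕ) : ℤ) = n i % (4 * M : ℕ) := Int.toNat_of_nonneg (Int.emod_nonneg _ h4.ne')
    have h2 := congrArg (Int.cast : ℤ → ℚ) (Int.emod_add_mul_ediv (n i) (4 * M : ℕ))
    rw [← h1, ← hn i, Int.cast_add, Int.cast_mul] at h2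
    rw [ch]
    generalize ((n i / (4 * M : ℕ) : ℤ) : ℚ) = t at h2 ⊢
    push_cast at h2
    field_simp
    linear_combination -h2
  have e2 : qc x = qc (ch M y) + zc fun i => n i / (4 * M : ℕ) := funext fun i => by
    simp only [qc, zc, Pi.add_apply, e i, Rat.cast_add, Rat.cast_intCast]
  refine ⟨y, _, ?_, fun i => ⟨_, e i⟩, fun z => by rw [th, th, e2, Th_int]⟩
  have k : ∀ q : ℚ, ‖ee ((q : ℂ) / 2)‖ = 1 := fun q => by
    rw [ee, show 2 * (Real.pi : ℂ) * I * ((q : ℂ) / 2) = ((Real.pi * q : ℝ) : ℂ) * I by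
      push_cast; ring, norm_exp_ofReal_mul_I]
  rw [norm_mul, Qf_zc, ← Rat.cast_intCast, k, one_mul]
  have := Ef_map (ch M y) (fun i => ((n i / (4 * M : ℕ) : ℤ) : ℚ)) (Rat.castHom ℂ)
  simp only [eq_ratCast, Rat.cast_intCast] at this
  rw [← k (Ef (ch M y) fun i => ((n i / (4 * M : ℕ) : ℤ) : ℚ)), this]

theorem RL_ind2 {M : ℕ} {P : ℕ → (EE g → ℂ) → Prop} (h1 : P 0 1)
    (h2 : ∀ k F F', P k F → P k F' → P k (F + F')) (h3 : ∀ k (c : ℂ) F, P k F → P k (c • F))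
    (h4 : ∀ k F x, x ∈ ChL g M → P k F → P (k + 1) (th x * F)) {k : ℕ} {F : EE g → ℂ}
    (h : F ∈ RL g M k) : P k F := by
  refine Submodule.pow_induction_on_left' _ (C := fun k F _ => P k F) (fun c => ?_)
    (fun _ _ _ _ _ => h2 _ _ _) (fun m hm k F _ hF => ?_) h
  · rw [Algebra.algebraMap_eq_smul_one]; exact h3 _ _ _ h1
  · induction hm using Submodule.span_induction with
    | mem _ hx => obtain ⟨x, hx, rfl⟩ := hx; exact h4 _ _ _ hx hF
    | zero => simpa using h3 _ 0 _ (h4 _ _ 0 (fun _ => ⟨0, by simp⟩) hF)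
    | add _ _ _ _ a b => rw [add_mul]; exact h2 _ _ _ a b
    | smul c _ _ a => rw [smul_mul_assoc]; exact h3 _ _ _ a

theorem RL_pull2 {M N : ℕ} {a : EE g → EE g} {j : EE g → ℂ}
    (h : ∀ x ∈ ChL g M, ∃ F' ∈ RL g N 1, ∀ z ∈ HH g, th x (a z) = j z * F' z) {k : ℕ}
    {F : EE g → ℂ} (hF : F ∈ RL g M k) : ∃ F' ∈ RL g N k, ∀ z ∈ HH g, F (a z) = j z ^ k * F' z := by
  refine RL_ind2 (P := fun k F => ∃ F' ∈ RL g N k, ∀ z ∈ HH g, F (a z) = j z ^ k * F' z)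
    ⟨1, by rw [RL, pow_zero]; exact Submodule.one_le.1 le_rfl, by simp⟩ ?_ ?_ ?_ hF
  · rintro k F F' ⟨P, a, b⟩ ⟨Q, c, d⟩
    exact ⟨P + Q, add_mem a c, fun z hz => by simp [b z hz, d z hz, mul_add]⟩
  · rintro k c F ⟨P, a, b⟩
    exact ⟨c • P, Submodule.smul_mem _ _ a, fun z hz => by simp [b z hz, mul_left_comm]⟩
  · rintro k F x hx ⟨P, a, b⟩
    obtain ⟨Q, c, d⟩ := h x hx
    exact ⟨P * Q, RL_mul a c, fun z hz => by simp only [Pi.mul_apply, b z hz, d z hz]; ring⟩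

lemma th_int {x y : I2 g → ℚ} {n : I2 g → ℤ} (h : x = y + fun i => (n i : ℚ)) (z : EE g) :
    th x z = ee ((((Qf n : ℤ) + Ef y fun i => (n i : ℚ)) / 2 : ℚ)) * th y z := by
  have e : ((Ef y fun i => (n i : ℚ) : ℚ) : ℂ) = Ef (qc y) (zc n) := by
    simpa using Ef_map y (fun i => (n i : ℚ)) (Rat.castHom ℂ)
  rw [th, show qc x = qc y + zc n by funext i; simp [h, qc, zc], Th_int, ← ee_add, th, Qf_zc]
  push_cast
  rw [e, add_div]

lemma chL_mulVec {M N : ℕ} {β : MM g ℤ} {γ : MM g ℚ} (h : zq β = (N : ℚ) • γ) {x : I2 g → ℚ}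
    (hx : x ∈ ChL g M) : γ *ᵥ x ∈ ChL g (M * N) := fun i => by
  choose m hm using hx
  refine ⟨(β *ᵥ m) i, ?_⟩
  have : ∀ j, (β i j : ℚ) = N * γ i j := fun j => congrFun (congrFun h i) j
  simp only [mulVec, dotProduct, Finset.mul_sum, Int.cast_sum, Int.cast_mul, this, ← hm, Nat.cast_mul]
  exact Finset.sum_congr rfl fun _ _ => by ring

/-- integral symplectic matrices -/
theorem pull (γ : Sp g ℤ) : ∃ j : EE g → ℂ, (∀ z ∈ HH g, j z ≠ 0) ∧ ∀ M,
    (∀ k, ∀ F ∈ RL g M k, ∃ F' ∈ RL g M k, ∀ z ∈ HH g, F (az γ z) = j z ^ k * F' z) ∧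
      (γ ∈ Gam g (32 * M ^ 2) → ∀ k, ∀ F ∈ RL g M k, ∀ z ∈ HH g, F (az γ z) = j z ^ k * F z) := by
  have h := gs_one_iff.2 γ.2
  obtain ⟨η, h1, h2⟩ : ∃ η, (∀ n, Even (Qf (dl (dl γ.1) *ᵥ n) - Qf n - Ef η n)) ∧
      (γ ∈ Gam g 2 → η = 0) := by
    rw [dl_dl]
    by_cases h2 : γ ∈ Gam g 2
    · choose δ hδ using h2
      exact ⟨0, even_of_two (δ := of δ) (Matrix.ext fun i j => by simpa [sub_eq_iff_eq_add'] using hδ i j),
        fun _ => rfl⟩
    · exact ⟨_, h.exists_char.choose_spec, fun k => (h2 k).elim⟩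
  obtain ⟨j, -, hj⟩ := h.dl.trans_int h1
  have k : ∀ x, ∀ z ∈ HH g, th (zq γ.1 *ᵥ x) (az γ z) = j (mk z) * (ee (Ef ((1 / 2 : ℂ) • zc η) (qc x) / 2) *
      th (x + fun i => (η i : ℚ) / 2) z) := fun x z hz => by
    have e : dl (cm (zm γ.1)) = (dl γ.1).map (↑) := by
      rw [show cm (zm γ.1) = γ.1.map (Int.castRingHom ℂ) by ext; simp, ← dl_map]; rfl
    have e' := (hj _ hz).2 (qc x)
    rw [← e, dl_dl] at e'
    rw [th, show mk (az γ z) = _ from mk_ac (zsp γ) z]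
    refine Eq.trans (congrArg (Th _) ?_) (e'.trans ?_)
    · funext i; simp [mulVec, dotProduct, qc]
    · rw [Uc, th]; congr 3; funext i; simp [zc, qc]; ring
  have hi : ∀ x : I2 g → ℚ, zq γ.1 *ᵥ zq (γ⁻¹).1 *ᵥ x = x := fun x => by
    rw [mulVec_mulVec, ← show zq (γ * γ⁻¹).1 = zq γ.1 * zq (γ⁻¹).1 from
      Matrix.map_mul (f := Int.castRingHom ℚ)]
    simp [zq]
  refine ⟨fun z => j (mk z), fun z hz => (hj _ hz).1, fun M => ⟨fun _ _ => RL_pull2 fun x hx => ?_,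
    fun hγ n F hF => ?_⟩⟩
  · refine ⟨_ • th _, Submodule.smul_mem _ _ (th_mem fun i => ?_), fun z hz => by rw [← hi x, k _ z hz]; rfl⟩
    obtain ⟨n, hn⟩ := chL_mulVec (N := 1) (β := (γ⁻¹).1) (γ := zq (γ⁻¹).1) (by simp) hx i
    exact ⟨n + 2 * M * η i, by push_cast at hn ⊢; rw [← hn, Pi.add_apply]; ring⟩
  · obtain rfl := h2 fun i j => (Dvd.intro (16 * (M : ℤ) ^ 2) (by push_cast; ring)).trans (hγ i j)
    refine RL_ind2 (P := fun n F => ∀ z ∈ HH g, F (az γ z) = j (mk z) ^ n * F z) (by simp)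
      (fun _ _ _ a b z hz => by simp [a z hz, b z hz, mul_add])
      (fun _ _ _ a z hz => by simp [a z hz, mul_left_comm]) (fun n F x hx a z hz => ?_) hF
    choose δ hδ using hγ
    choose m hm using hx
    have e : zq γ.1 *ᵥ x = x + fun i => (((8 * M : ℤ) • of δ *ᵥ m) i : ℚ) := by
      funext i
      simp only [mulVec, dotProduct, map_apply, sub_eq_iff_eq_add'.1 (hδ _ _), Pi.add_apply,
        Pi.smul_apply, smul_eq_mul, of_apply]
      push_cast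
      simp only [← hm, add_mul, Finset.sum_add_distrib, Finset.mul_sum, one_apply]
      exact congrArg₂ _ (by simp) (Finset.sum_congr rfl fun _ _ => by ring)
    have e1 := k x z hz
    rw [th_int e, ee_congr (y := 0) (32 * M ^ 2 * Qf (of δ *ᵥ m) + Ef m (of δ *ᵥ m)) ?_] at e1
    · simp only [ee_zero, one_mul, zc_zero, smul_zero, Ef_zero_left, zero_div, Pi.zero_apply,
        Int.cast_zero] at e1
      rw [Pi.mul_apply, Pi.mul_apply, a z hz, e1, show (x + fun _ => 0) = x from add_zero x]; ring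
    · have e3 : Ef x (fun i => (((8 * M : ℤ) • of δ *ᵥ m) i : ℚ)) = 2 * (Ef m (of δ *ᵥ m) : ℤ) := by
        rw [show ((Ef m (of δ *ᵥ m) : ℤ) : ℚ) = _ from Ef_map _ _ (Int.castRingHom ℚ)]
        simp only [eq_intCast, ← hm, Ef, dotProduct, Function.comp, Pi.smul_apply, smul_eq_mul,
          Finset.mul_sum, mul_sub]
        push_cast
        congr 1 <;> exact Finset.sum_congr rfl fun _ _ => by ring
      rw [e3, Qf_smul]; push_cast; ring

theorem dgm_mem {l : ℕ} (hl : 0 < l) (e : Fin g → ℕ) (j : ℤ) :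
    dgm l e j ∈ symplecticGroup (Fin g) ℚ := by
  have h : (l : ℚ) ≠ 0 := by exact_mod_cast hl.ne'
  rw [SymplecticGroup.mem_iff, dgm, J, fromBlocks_transpose, fromBlocks_multiply,
    fromBlocks_multiply]
  simp [diagonal_mul_diagonal, zpow_ne_zero, h, -diagonal_neg]

theorem dgm_add {l : ℕ} (hl : 0 < l) (e : Fin g → ℕ) (j j' : ℤ) :
    dgm l e (j + j') = dgm l e j * dgm l e j' := by
  have h : (l : ℚ) ≠ 0 := by exact_mod_cast hl.ne'
  simp only [dgm, fromBlocks_multiply, Matrix.mul_zero, Matrix.zero_mul, add_zero, zero_add,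
    diagonal_mul_diagonal, ← zpow_add₀ h, add_mul, neg_add]

theorem sc_eq {l : ℕ} (hl : 0 < l) (e : Fin g → ℕ) (j : ℤ) (z : EE g) :
    sc l e j z = fun p => (l : ℂ) ^ (j * ((e p.inf : ℤ) + e p.sup)) * z p := by
  have h : (l : ℂ) ≠ 0 := by exact_mod_cast hl.ne'
  have e1 : cm (qm (dgm l e j)) = fromBlocks (diagonal fun i => (l : ℂ) ^ (-(j * e i))) 0 0
      (diagonal fun i => (l : ℂ) ^ (j * e i)) := by
    ext (a | a) (b | b) <;> by_cases hab : a = b <;> simp [dgm, hab]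
  have e2 : (diagonal fun i => (l : ℂ) ^ (-(j * e i)))⁻¹ = diagonal fun i => (l : ℂ) ^ (j * e i) :=
    inv_eq_right_inv (by simp [diagonal_mul_diagonal, zpow_ne_zero, h])
  funext p
  rw [sc, ac, e1, toBlocks_fromBlocks₁₁, toBlocks_fromBlocks₁₂, toBlocks_fromBlocks₂₁,
    toBlocks_fromBlocks₂₂, Matrix.zero_mul, sub_zero, sub_zero, e2, un, mul_diagonal,
    diagonal_mul, mul_add, zpow_add₀ h, show mk z p.inf p.sup = z p from congrFun (un_mk z) p]
  ring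

theorem sc_mem {l : ℕ} (hl : 0 < l) (e : Fin g → ℕ) (j : ℤ) {z : EE g} (hz : z ∈ HH g) :
    sc l e j z ∈ HH g := by
  exact ac_mem (qsp ⟨_, dgm_mem hl e j⟩) hz

theorem sc_add {l : ℕ} (hl : 0 < l) (e : Fin g → ℕ) (j j' : ℤ) (z : EE g) :
    sc l e (j + j') z = sc l e j (sc l e j' z) := by
  have h : (l : ℂ) ≠ 0 := by exact_mod_cast hl.ne'
  simp only [sc_eq hl, add_mul, zpow_add₀ h, mul_assoc]

theorem sc_zero (l : ℕ) (e : Fin g → ℕ) (z : EE g) : sc l e 0 z = z := by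
  have : qm (dgm l e 0) = 1 := by
    ext (a | a) (b | b) <;> simp [dgm, one_apply, apply_ite]
  rw [sc, this, ac_one]

theorem RL_pull {M M' : ℕ} {s : EE g → EE g} {j : EE g → ℂ}
    (h : ∀ x ∈ ChL g M, ∃ F' ∈ RL g M' 1, ∀ z ∈ HH g, th x (s z) = j z * F' z) {k : ℕ}
    {F : EE g → ℂ} (hF : F ∈ RL g M k) :
    ∃ F' ∈ RL g M' k, ∀ z ∈ HH g, F (s z) = j z ^ k * F' z := by
  refine RL_ind (fun {k} F => ∃ F' ∈ RL g M' k, ∀ z ∈ HH g, F (s z) = j z ^ k * F' z)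
    (fun c => ⟨fun _ => c, ?_, fun z _ => by simp⟩) ?_ ?_ (fun k => ⟨0, zero_mem _, by simp⟩) ?_ hF
  · rw [RL, pow_zero]
    exact Submodule.algebraMap_mem c
  · rintro k F F' ⟨A, h1, h2⟩ ⟨B, h3, h4⟩
    exact ⟨A + B, add_mem h1 h3, fun z hz => by
      simp only [Pi.add_apply, h2 z hz, h4 z hz, mul_add]⟩
  · rintro x hx k F ⟨A, h1, h2⟩
    obtain ⟨B, h3, h4⟩ := h x hx
    exact ⟨A * B, RL_mul h1 h3, fun z hz => by
      simp only [Pi.mul_apply, h2 z hz, h4 z hz]; ring⟩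
  · rintro c k F ⟨A, h1, h2⟩
    exact ⟨c • A, Submodule.smul_mem _ _ h1, fun z hz => by
      simp only [Pi.smul_apply, h2 z hz, smul_eq_mul]; ring⟩

theorem dgm_int {l : ℕ} (hl : 0 < l) (e : Fin g → ℕ) {j : ℤ} {n : ℕ} (h : ∀ i, |j * e i| ≤ n) :
    ∃ β : MM g ℤ, zq β = ((l ^ n : ℕ) : ℚ) • dgm l e j := by
  have h0 : (l : ℚ) ≠ 0 := by exact_mod_cast hl.ne'
  have k : ∀ s : ℤ, |s| ≤ n → (l : ℚ) ^ (n + s).toNat = (l : ℚ) ^ n * (l : ℚ) ^ s := fun s hs => by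
    rw [← zpow_natCast, Int.toNat_of_nonneg (by have := neg_abs_le s; omega), zpow_add₀ h0,
      zpow_natCast]
  refine ⟨fromBlocks (diagonal fun i => (l : ℤ) ^ (n + -(j * e i)).toNat) 0 0
    (diagonal fun i => (l : ℤ) ^ (n + j * e i).toNat), ?_⟩
  ext (a | a) (b | b) <;> by_cases hab : a = b <;>
    simp [dgm, hab, k _ (h _), k _ ((abs_neg _).trans_le (h _))]

/-- diagonal matrices -/
theorem pull_sc {l : ℕ} (hl : 0 < l) (e : Fin g → ℕ) (j : ℤ) {M k : ℕ} {F : EE g → ℂ}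
    (h : F ∈ RL g M k) : ∃ n, ∃ F' ∈ RL g (M * l ^ n) k, ∀ z ∈ HH g,
      (F (sc l e j z) = 0 ↔ F' z = 0) := by
  obtain ⟨n, hn⟩ : ∃ n : ℕ, ∀ i, |j * e i| ≤ n := ⟨∑ i, (j * e i).natAbs, fun i => by
    rw [← Int.natCast_natAbs]
    exact_mod_cast Finset.single_le_sum (f := fun i => (j * e i).natAbs)
      (fun _ _ => Nat.zero_le _) (Finset.mem_univ i)⟩
  have cq : ∀ A : MM g ℚ, cm (qm A) = A.map (Rat.castHom ℂ) := fun A => by ext; simp
  obtain ⟨β, hβ⟩ := dgm_int hl e hn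
  obtain ⟨β', hβ'⟩ := dgm_int hl e (j := -j) (n := n) fun i => by rw [neg_mul, abs_neg]; exact hn i
  have hN : 0 < l ^ n := pow_pos hl n
  obtain ⟨c, J, -, H⟩ := (rs_cm (qsp ⟨_, dgm_mem hl e j⟩)).trans_rat hN (β := dl β) (by
    rw [← dl_smul]
    refine (dl_map (Int.castRingHom ℂ) β).trans (congrArg dl ?_)
    ext a b
    simpa [qsp] using congrArg (Rat.cast : ℚ → ℂ) (congrFun (congrFun hβ a) b))
  suffices key : ∀ y ∈ ChL g M, ∃ F' ∈ RL g (M * l ^ n) 1, ∀ z ∈ HH g,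
      th y (sc l e j z) = J (mk z) * F' z by
    obtain ⟨F', h1, h2⟩ := RL_pull key h
    exact ⟨n, F', h1, fun z hz => by
      rw [h2 z hz, mul_eq_zero, or_iff_right (pow_ne_zero _ (H _ hz).1)]⟩
  intro y hy
  choose m hm using hy
  let x := dgm l e (-j) *ᵥ y
  let t (b : I2 g → Fin (2 * l ^ n)) : I2 g → ℚ := fun i => (b i : ℕ) / (2 * l ^ n : ℕ)
  refine ⟨∑ b, (c b * ee (Ef (tN _ b) (qc x) / 2)) • th (x + t b),
    Submodule.sum_mem _ fun b _ => Submodule.smul_mem _ _ (th_mem fun i => ?_), fun z hz => ?_⟩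
  · refine ⟨(β' *ᵥ m) i + 2 * M * (b i : ℕ), ?_⟩
    have h1 : (((β' *ᵥ m) i : ℤ) : ℚ) = (zq β' *ᵥ fun i => (m i : ℚ)) i :=
      RingHom.map_mulVec (Int.castRingHom ℚ) β' m i
    have h2 : (fun i => (m i : ℚ)) = (4 * M : ℚ) • y := funext fun i => (hm i).symm
    have h3 : ((l ^ n : ℕ) : ℚ) ≠ 0 := by exact_mod_cast hN.ne'
    rw [Int.cast_add, h1, hβ', h2, smul_mulVec, mulVec_smul, Nat.cast_mul]
    simp only [x, t, Pi.add_apply, Pi.smul_apply, smul_eq_mul, Nat.cast_mul, Int.cast_mul,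
      Int.cast_natCast, Nat.cast_ofNat, Int.cast_ofNat]
    field_simp
    ring
  · have h1 := (H _ hz).2 (qc x)
    have h2 : cm (qm (dgm l e j)) *ᵥ qc x = qc y := by
      have h3 : dgm l e j *ᵥ x = y := by
        rw [mulVec_mulVec, ← dgm_add hl, add_neg_cancel]
        simp [dgm]
      rw [cq, ← h3]
      exact funext fun i => (RingHom.map_mulVec (Rat.castHom ℂ) _ x i).symm
    rw [dl_dl, ← mk_ac] at h1
    rw [th, ← h2]
    refine h1.trans (congrArg _ ?_)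
    rw [Finset.sum_apply]
    refine Finset.sum_congr rfl fun b _ => ?_
    rw [Uc, Pi.smul_apply, smul_eq_mul, mul_assoc, th]
    congr 3
    funext i
    simp [qc, t, tN]

end Pool.Agent.MT.G
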