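import Pool.Agent.Lib.MP_d61fbb_ag.MT.GU3

/-! The covering attached to a prime ideal. -/

set_option autoImplicit false
set_option linter.unusedSectionVars false

noncomputable section

namespace Pool.Agent.MT.G

open Polynomial Filter Topology Set Metric GU

variable {σ L Γ D : Type} [Fintype σ] [Fintype L] [Group Γ]

/-- an equation over the parameters as a polynomial in all the coordinates -/
def upP (d : D → L) (y : L) (f : (MvPolynomial D ℂ)[X]) : MvPolynomial L ℂ :=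
  f.eval₂ (MvPolynomial.rename d).toRingHom (MvPolynomial.X y)

theorem eval_upP (d : D → L) (y : L) (f : (MvPolynomial D ℂ)[X]) (a : L → ℂ) :
    MvPolynomial.eval a (upP d y f) = ev f (fun i => a (d i)) (a y) := by
  rw [upP, hom_eval₂, MvPolynomial.eval_X, ev]
  congr 1
  exact RingHom.ext fun g => MvPolynomial.eval_rename d a g

theorem mk_rename (q : Ideal (MvPolynomial L ℂ)) (d : D → L) :
    (Ideal.Quotient.mk q).comp (MvPolynomial.rename d).toRingHom =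
      (MvPolynomial.aeval fun i => Ideal.Quotient.mk q (MvPolynomial.X (d i))).toRingHom := by
  refine MvPolynomial.ringHom_ext (fun r => ?_) fun i => ?_
  · simp; rfl
  · simp

theorem mk_upP (q : Ideal (MvPolynomial L ℂ)) (d : D → L) (y : L) (f : (MvPolynomial D ℂ)[X]) :
    Ideal.Quotient.mk q (upP d y f) = f.eval₂ (MvPolynomial.aeval fun i =>
      Ideal.Quotient.mk q (MvPolynomial.X (d i))).toRingHom (Ideal.Quotient.mk q (.X y)) := by
  rw [upP, hom_eval₂, mk_rename]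

variable (p : σ → Prop) [DecidablePred p] (f : σ → (MvPolynomial {i // p i} ℂ)[X])

/-- the change of coordinates -/
def chg (a : σ → ℂ) : σ → ℂ := fun i => if p i then a i else ev (f i) (fun j => a j) (a i)

theorem an_chg (a : σ → ℂ) : AnalyticAt ℂ (chg p f) a := by
  have h := analyticAt_pi_iff.1 (analyticAt_id (𝕜 := ℂ) (z := a))
  refine analyticAt_pi_iff.2 fun i => ?_
  by_cases hi : p i
  · simp only [chg, if_pos hi]; exact h i
  · simp only [chg, if_neg hi]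
    exact an_ev (t := fun (a : σ → ℂ) (j : {i // p i}) => a j) (fun j => h j) (h i) (f i)

theorem inj_chg (a : σ → ℂ)
    (h : ∀ i, ¬ p i → ev (f i).derivative (fun j => a j) (a i) ≠ 0) :
    Function.Injective (fderiv ℂ (chg p f) a) := by
  refine (injective_iff_map_eq_zero _).2 fun v hv => ?_
  have l : HasDerivAt (fun e : ℂ => a + e • v) v 0 := by
    simpa using ((hasDerivAt_id (0 : ℂ)).smul_const v).const_add a
  have h1 : HasDerivAt (fun e : ℂ => chg p f (a + e • v)) 0 0 := by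
    rw [← hv]
    exact (an_chg p f a).differentiableAt.hasFDerivAt.comp_hasDerivAt_of_eq 0 l (by simp)
  have l' := hasDerivAt_pi.1 l
  have h2 := hasDerivAt_pi.1 h1
  have h3 : ∀ i, p i → v i = 0 := fun i hi => (l' i).unique
    (by simpa only [chg, if_pos hi, Pi.zero_apply] using h2 i)
  funext i
  by_cases hi : p i
  · exact h3 i hi
  have h4 : ∀ e : ℂ, (fun j : {i // p i} => (a + e • v) j) = fun j : {i // p i} => a j :=
    fun e => funext fun j => by simp [h3 j j.2]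
  have h5 := h2 i
  simp only [chg, if_neg hi, h4] at h5
  have h6 := (ev_hasDerivAt (f i) (fun j => a j) (a i)).comp_of_eq 0 (l' i) (by simp)
  exact (mul_eq_zero.1 (h6.unique h5)).resolve_left (h i hi)

theorem an_ext0 (t : {i // p i} → ℂ) : AnalyticAt ℂ (ext0 p) t := by
  refine analyticAt_pi_iff.2 fun i => ?_
  by_cases hi : p i
  · simp only [ext0, dif_pos hi]
    exact analyticAt_pi_iff.1 (analyticAt_id (𝕜 := ℂ) (z := t)) ⟨i, hi⟩
  · simpa only [ext0, dif_neg hi] using analyticAt_const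

/-- The universal polynomials and the local sections. -/
theorem Ctx.univ (c : Ctx σ L Γ) (x : σ → L) :
    ∃ Q : c.K → (MvPolynomial {i // p i} ℂ)[X], (∀ φ, Q φ ≠ 0) ∧ ∀ z ∈ c.U, c.Chart x z →
      (∀ i, ¬ p i → ev (f i) (fun j => c.b z (x j)) (c.b z (x i)) = 0) →
      (∀ i, ¬ p i → ev (f i).derivative (fun j => c.b z (x j)) (c.b z (x i)) ≠ 0) →
      ∃ s : ({i // p i} → ℂ) → σ → ℂ, AnalyticAt ℂ s (fun j => c.b z (x j)) ∧
        s (fun j => c.b z (x j)) = z ∧ ∀ᶠ t in 𝓝 (fun j : {i // p i} => c.b z (x j)),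
          s t ∈ c.U ∧ (fun j : {i // p i} => c.b (s t) (x j)) = t ∧
            ∀ φ : c.K, ev (Q φ) t (φ.1 (s t)) = 0 := by
  let u : (σ → ℂ) → σ → ℂ := fun z => chg p f fun i => c.b z (x i)
  have hu : ∀ i, (fun z => u z i) ∈ c.K := fun i => by
    by_cases hi : p i
    · simpa only [u, chg, if_pos hi] using c.b_mem (x i)
    · simpa only [u, chg, if_neg hi, eval_upP] using
        c.eval_mem (upP (fun j : {i // p i} => x j) (x i) (f i))
  choose P P0 hP using fun φ : c.K => c.alg (fun o => o.elim φ.1 fun i z => u z i) fun o => by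
    rcases o with _ | i
    exacts [φ.2, hu i]
  choose Q Q0 hQ using fun φ => univ_poly p (P φ) (P0 φ)
  refine ⟨Q, Q0, fun z hz hc h0 h1 => ?_⟩
  have ab : AnalyticAt ℂ (fun w i => c.b w (x i)) z :=
    analyticAt_pi_iff.2 fun i => c.an (c.b_mem _) hz
  obtain ⟨s, s1, s2, s3, -⟩ := inv_loc (u := u) ((an_chg p f _).comp ab) (by
    rw [show fderiv ℂ u z = _ from fderiv_comp z (an_chg p f _).differentiableAt ab.differentiableAt,
      ContinuousLinearMap.coe_comp]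
    exact (inj_chg p f (fun i => c.b z (x i)) h1).comp hc)
  have e0 : u z = ext0 p fun j => c.b z (x j) := funext fun i => by
    by_cases hi : p i
    · simp only [u, chg, ext0, if_pos hi, dif_pos hi]
    · simp only [u, chg, ext0, if_neg hi, dif_neg hi, h0 i hi]
  have s4 : ∀ᶠ v in 𝓝 (u z), s v ∈ c.U :=
    s1.continuousAt.tendsto.eventually (c.opn.mem_nhds (s2.symm ▸ hz))
  have s5 := s1.eventually_analyticAt.and (s3.and s4).eventually_nhds
  rw [e0] at s1 s2 s5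
  refine ⟨fun t => s (ext0 p t), s1.comp (an_ext0 p _), s2, ?_⟩
  filter_upwards [(an_ext0 p _).continuousAt.tendsto.eventually s5] with t ⟨a1, a2⟩
  obtain ⟨a3, a4⟩ := a2.self_of_nhds
  refine ⟨a4, funext fun j => ?_, fun φ => hQ φ t (fun v => φ.1 (s v))
    ((c.an φ.2 a4).continuousAt.comp a1.continuousAt) (a2.mono fun v hv => ?_)⟩
  · simpa only [u, chg, ext0, if_pos j.2, dif_pos j.2] using congrFun a3 j
  · rw [← hP φ _ hv.2]
    congr 2
    funext o
    rcases o with _ | i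
    exacts [rfl, (congrFun hv.1 i).symm]

/-- the good points -/
def Ctx.Gp (c : Ctx σ L Γ) (x : σ → L) (q : Ideal (MvPolynomial L ℂ)) (δ : MvPolynomial L ℂ)
    (z : σ → ℂ) : Prop := z ∈ c.U ∧ c.Chart x z ∧ (∀ P ∈ q, MvPolynomial.eval (c.b z) P = 0) ∧
      MvPolynomial.eval (c.b z) δ ≠ 0

theorem Ctx.exists_eqs (c : Ctx σ L Γ) (x : σ → L) (q : Ideal (MvPolynomial L ℂ))
    (hq : q.IsPrime) (hχ : c.χ ∉ q) : ∃ (D : Type) (_ : Fintype D) (e : Eqs c D)
      (δ : MvPolynomial L ℂ), δ ∉ q ∧ (∀ g, g ≠ 0 → MvPolynomial.rename e.d g ∉ q) ∧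
      (∀ z, c.Gp x q δ z → ∃ s W, e.Sec s W ∧ e.t z ∈ W ∧ s (e.t z) = z) ∧
      ∀ φ ∈ c.K, ∃ Q : (MvPolynomial D ℂ)[X], Q ≠ 0 ∧ ∀ z s W, c.Gp x q δ z → e.Sec s W →
        e.t z ∈ W → s (e.t z) = z → ∀ᶠ u in 𝓝 (e.t z), ev Q u (φ (s u)) = 0 := by
  classical
  obtain ⟨p, ind, hf⟩ := exists_basis fun i => Ideal.Quotient.mk q (MvPolynomial.X (x i))
  choose! f f0 f1 using hf
  let d : {i // p i} → L := fun j => x j
  have hd : ∀ g, g ≠ 0 → MvPolynomial.rename d g ∉ q := fun g hg h =>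
    ind g hg ((DFunLike.congr_fun (mk_rename q d) g).symm.trans (Ideal.Quotient.eq_zero_iff_mem.2 h))
  obtain ⟨Q, Q0, hQ⟩ := c.univ p f x
  choose Q' Δ Δ0 hΔ using fun y => sqfree (Q ⟨_, c.b_mem y⟩) (Q0 _)
  choose R R0 hR using fun φ => strip (Q φ) (Q0 φ)
  have hm : ∀ u, MvPolynomial.eval u ((∏ y, Δ y) * (R ⟨_, c.eval_mem c.χ⟩).coeff 0) ≠ 0 →
      (∀ y, MvPolynomial.eval u (Δ y) ≠ 0) ∧
        MvPolynomial.eval u ((R ⟨_, c.eval_mem c.χ⟩).coeff 0) ≠ 0 := fun u h => by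
    simpa only [map_mul, map_prod, mul_ne_zero_iff, Finset.prod_ne_zero_iff, Finset.mem_univ,
      forall_const] using h
  let e : Eqs c {i // p i} := ⟨d, Q', R ⟨_, c.eval_mem c.χ⟩, _,
    mul_ne_zero (Finset.prod_ne_zero_iff.2 fun y _ => Δ0 y) (R0 _),
    fun u h y => (hΔ y u ((hm u h).1 y)).1, fun u h y => (hΔ y u ((hm u h).1 y)).2.2,
    fun u h => (hm u h).2⟩
  let δ := c.χ * MvPolynomial.rename d e.Δ *
    ∏ i with ¬ p i, upP d (x i) (f i).derivative
  have key : ∀ z, c.Gp x q δ z → ∃ s W, e.Sec s W ∧ e.t z ∈ W ∧ s (e.t z) = z ∧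
      ∀ u ∈ W, ∀ φ : c.K, ev (Q φ) u (φ.1 (s u)) = 0 := by
    rintro z ⟨hz, hc, h0, h1⟩
    simp only [δ, map_mul, map_prod, mul_ne_zero_iff, Finset.prod_ne_zero_iff, Finset.mem_filter,
      Finset.mem_univ, true_and, eval_upP, MvPolynomial.eval_rename] at h1
    obtain ⟨s, s1, s2, s3⟩ := hQ z hz hc (fun i hi => (eval_upP d _ _ _).symm.trans (h0 _
      (Ideal.Quotient.eq_zero_iff_mem.1 ((mk_upP q d _ _).trans (f0 i hi))))) h1.2
    have s4 : ∀ᶠ u in 𝓝 (e.t z), MvPolynomial.eval (c.b (s u)) c.χ ≠ 0 :=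
      ((c.an (c.eval_mem c.χ) (s2.symm ▸ hz)).continuousAt.comp s1.continuousAt).eventually_ne
        (by simpa only [Function.comp, s2] using h1.1.1)
    obtain ⟨r, hr, hb⟩ := Metric.eventually_nhds_iff_ball.1 (s1.eventually_analyticAt.and
      (s3.and (s4.and ((ca_eval continuousAt_id e.Δ).eventually_ne h1.1.2))))
    exact ⟨s, _, ⟨isOpen_ball, fun u hu => (hb u hu).1.differentiableAt.differentiableWithinAt,
      fun u hu => (hb u hu).2.1.1, fun u hu => (hb u hu).2.1.2.1, fun u hu => (hb u hu).2.2.2,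
      fun u hu y => (hΔ y u ((hm u (hb u hu).2.2.2).1 y)).2.1 _ ((hb u hu).2.1.2.2 ⟨_, c.b_mem y⟩),
      fun u hu => (hR _ u _ ((hb u hu).2.1.2.2 ⟨_, c.eval_mem c.χ⟩)).resolve_left
        (hb u hu).2.2.1⟩, mem_ball_self hr, s2, fun u hu => (hb u hu).2.1.2.2⟩
  refine ⟨_, inferInstance, e, δ, fun h => ?_, hd,
    fun z hz => (key z hz).imp fun s h => h.imp fun W h => ⟨h.1, h.2.1, h.2.2.1⟩,
    fun φ hφ => ⟨_, Q0 ⟨φ, hφ⟩, fun z s' W' hz h' hW e0 => ?_⟩⟩
  · rcases hq.mem_or_mem h with h | h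
    · exact (hq.mem_or_mem h).elim hχ (hd _ e.ne)
    · obtain ⟨i, hi, h⟩ := (Ideal.IsPrime.prod_mem_iff (hp := hq)).1 h
      exact f1 i (Finset.mem_filter.1 hi).2
        ((mk_upP q d _ _).symm.trans (Ideal.Quotient.eq_zero_iff_mem.2 h))
  obtain ⟨s, W, h, hu, e1, hs⟩ := key z hz
  filter_upwards [h.uniq h' hu hW (e1.trans e0.symm), h.opn.mem_nhds hu] with u a1 a4
  rw [← a1]
  exact hs u a4 ⟨φ, hφ⟩

theorem Ctx.exists_cov (c : Ctx σ L Γ) (x : σ → L) (q : Ideal (MvPolynomial L ℂ))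
    (hq : q.IsPrime) (hχ : c.χ ∉ q) : ∃ (D : Type) (_ : Fintype D) (C : Cov c D) (d : D → L)
      (δ : MvPolynomial L ℂ), δ ∉ q ∧ (∀ z i, C.t z i = c.b z (d i)) ∧
      (∀ g, g ≠ 0 → MvPolynomial.rename d g ∉ q) ∧
      (∀ z, c.Gp x q δ z → ∃ s W, C.Sec s W ∧ C.t z ∈ W ∧ s (C.t z) = z) ∧
      ∀ φ ∈ c.K, ∃ g : MvPolynomial D ℂ, g ≠ 0 ∧ ∀ z s W, c.Gp x q δ z → C.Sec s W → C.t z ∈ W →
        s (C.t z) = z → φ z = 0 → MvPolynomial.eval (C.t z) g ≠ 0 →
        ∀ᶠ u in 𝓝 (C.t z), φ (s u) = 0 := by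
  obtain ⟨D, _, e, δ, h1, h2, h3, h4⟩ := c.exists_eqs x q hq hχ
  refine ⟨D, _, e.cov, e.d, δ, h1, fun _ _ => rfl, h2, h3, fun φ hφ => ?_⟩
  obtain ⟨Q, Q0, hQ⟩ := h4 φ hφ
  obtain ⟨R, R0, hR⟩ := strip Q Q0
  refine ⟨_, R0, fun z s W hz (h : e.Sec s W) (hu : e.t z ∈ W) (e1 : s (e.t z) = z) h0 hg => ?_⟩
  obtain ⟨ε, ε0, hε⟩ := root_low _ hg
  have h2 : ∀ᶠ u in 𝓝 (e.t z), ‖φ (s u)‖ < ε := Tendsto.eventually (f := fun u => ‖φ (s u)‖)
    ((c.an hφ (h.maps hu)).continuousAt.comp (h.cont hu)).norm.tendsto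
    (gt_mem_nhds (by simpa only [Function.comp, e1, h0, norm_zero] using ε0))
  filter_upwards [hQ z s W hz h hu e1, hε, h2] with u a1 a2 a3
  exact (hR u _ a1).resolve_right fun h => (a2 _ h).not_gt a3

end Pool.Agent.MT.G
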