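import Pool.Agent.Lib.MP_d61fbb_ag.MT.G3
import Pool.Agent.Lib.MP_d61fbb_ag.MT.GU4

/-! Block G: the finite covering. -/

noncomputable section

namespace Pool.Agent.MT.G

open Matrix Complex Filter Topology Set Metric

variable {σ L Γ : Type} [Fintype σ] [Fintype L] [Group Γ]

theorem cover (c : Ctx σ L Γ) (x : σ → L) (S : Set (σ → ℂ)) (hS : S ⊆ c.U)
    (hx : ∀ z ∈ S, c.Chart x z) (hχ : ∀ z ∈ S, MvPolynomial.eval (c.b z) c.χ ≠ 0)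
    (q : Ideal (MvPolynomial L ℂ)) (hp : q.IsPrime)
    (hq : ∀ P, P ∈ q ↔ ∀ z ∈ S, MvPolynomial.eval (c.b z) P = 0) :
    ∃ (D : Type) (_ : Fintype D) (V : Cov c D) (e : MvPolynomial L ℂ), e ∉ q ∧
      (∀ z ∈ S, MvPolynomial.eval (c.b z) e ≠ 0 → ∃ s W u, V.Sec s W ∧ u ∈ W ∧ s u = z) ∧
      ∀ φ ∈ c.K, ∃ e' ∉ q, ∀ s W u, V.Sec s W → u ∈ W → s u ∈ S →
        MvPolynomial.eval (c.b (s u)) e' ≠ 0 → φ (s u) = 0 → ∀ᶠ w in 𝓝 u, φ (s w) = 0 := by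
  obtain ⟨z₀, h₀⟩ : S.Nonempty := by
    by_contra! h
    exact hp.ne_top ((Ideal.eq_top_iff_one q).2 ((hq 1).2 (by simp [h])))
  obtain ⟨D, _, V, d, δ, h1, h2, h3, h4, h5⟩ :=
    c.exists_cov x q hp fun h => hχ z₀ h₀ ((hq _).1 h z₀ h₀)
  have gp : ∀ z ∈ S, MvPolynomial.eval (c.b z) δ ≠ 0 → c.Gp x q δ z := fun z hz h =>
    ⟨hS hz, hx z hz, fun P hP => (hq P).1 hP z hz, h⟩
  refine ⟨D, _, V, δ, h1, fun z hz h => ?_, fun φ hφ => ?_⟩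
  · obtain ⟨s, W, a⟩ := h4 z (gp z hz h)
    exact ⟨s, W, _, a⟩
  obtain ⟨g, g0, hg⟩ := h5 φ hφ
  refine ⟨δ * MvPolynomial.rename d g, fun h => (hp.mem_or_mem h).elim h1 (h3 g g0),
    fun s W u hs hu hz h h0 => ?_⟩
  have e := V.proj hs u hu
  rw [map_mul, mul_ne_zero_iff, MvPolynomial.eval_rename] at h
  have := hg (s u) s W (gp _ hz h.1) hs (by rwa [e]) (by rw [e]) h0
    (by rw [show V.t (s u) = c.b (s u) ∘ d from funext (h2 _)]; exact h.2)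
  rwa [e] at this

end Pool.Agent.MT.G
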