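import Pool.Agent.Lib.MP_d61fbb_ag.MT.G0b

/-! Block G: consequences of a finite covering. -/

noncomputable section

namespace Pool.Agent.MT.G

open Matrix Complex Filter Topology Set Metric

variable {σ L Γ D : Type} [Fintype σ] [Fintype L] [Group Γ] [Fintype D]

theorem line_fin (Δ : MvPolynomial D ℂ) {u : D → ℂ} (d : D → ℂ) (h : MvPolynomial.eval u Δ ≠ 0) :
    {t : ℂ | MvPolynomial.eval (u + t • d) Δ = 0}.Finite := by
  let p : Polynomial ℂ :=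
    MvPolynomial.aeval (fun i => Polynomial.C (u i) + Polynomial.X * Polynomial.C (d i)) Δ
  have e : ∀ t, p.eval t = MvPolynomial.eval (u + t • d) Δ := fun t => by
    rw [← Polynomial.coe_aeval_eq_eval, ← AlgHom.comp_apply, MvPolynomial.comp_aeval,
      show (fun i => Polynomial.aeval t (Polynomial.C (u i) + Polynomial.X * Polynomial.C (d i))) =
        u + t • d from funext fun i => by
          simp only [map_add, map_mul, Polynomial.aeval_C, Polynomial.aeval_X]; rfl]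
    rfl
  have hp : p ≠ 0 := fun h0 => h (by simpa [h0] using (e 0).symm)
  exact (Polynomial.finite_setOfPred_isRoot hp).subset fun t ht => (e t).trans ht

theorem conn_off (Δ : MvPolynomial D ℂ) : IsPreconnected {u : D → ℂ | MvPolynomial.eval u Δ ≠ 0} := by
  refine isPreconnected_of_forall_pair fun x hx y hy =>
    ⟨(fun t : ℂ => x + t • (y - x)) '' {t : ℂ | MvPolynomial.eval (x + t • (y - x)) Δ = 0}ᶜ,
      ?_, ⟨0, by simpa using hx, by simp⟩, ⟨1, by simpa using hy, by simp⟩, ?_⟩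
  · rintro _ ⟨t, ht, rfl⟩
    exact ht
  · exact ((line_fin Δ (y - x) hx).countable.isConnected_compl_of_one_lt_rank
      (by simp)).isPreconnected.image _ (by fun_prop)

/-- `φ` vanishes on the germ of the section through `z` -/
def Cov.Z {c : Ctx σ L Γ} (V : Cov c D) (φ : (σ → ℂ) → ℂ) (z : σ → ℂ) : Prop :=
  ∀ s W u, V.Sec s W → u ∈ W → s u = z → ∀ᶠ w in 𝓝 u, φ (s w) = 0

theorem Cov.Z_iff {c : Ctx σ L Γ} (V : Cov c D) {φ : (σ → ℂ) → ℂ} {s : (D → ℂ) → σ → ℂ}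
    {W : Set (D → ℂ)} {u : D → ℂ} (hs : V.Sec s W) (hu : u ∈ W) :
    V.Z φ (s u) ↔ ∀ᶠ w in 𝓝 u, φ (s w) = 0 := by
  refine ⟨fun h => h s W u hs hu rfl, fun h s' W' u' hs' hu' e => ?_⟩
  obtain rfl : u' = u := by rw [← V.proj hs' u' hu', e, V.proj hs u hu]
  filter_upwards [h, V.uniq hs' hs hu' hu e] with w h1 h2
  rw [h2, h1]

theorem Cov.Z_conn {c : Ctx σ L Γ} (V : Cov c D) {φ : (σ → ℂ) → ℂ} (hφ : DifferentiableOn ℂ φ c.U)
    {s : (D → ℂ) → σ → ℂ} {W T : Set (D → ℂ)} (hs : V.Sec s W) (hT : IsPreconnected T)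
    (hW : T ⊆ W) {u u' : D → ℂ} (hu : u ∈ T) (hu' : u' ∈ T) : V.Z φ (s u) ↔ V.Z φ (s u') := by
  have hd : DifferentiableOn ℂ (fun w => φ (s w)) W := hφ.comp (V.diff hs) (V.maps hs)
  rw [V.Z_iff hs (hW hu), V.Z_iff hs (hW hu')]
  exact ⟨idt_conn (V.opn hs) hT hW hd hu hu', idt_conn (V.opn hs) hT hW hd hu' hu⟩

/-- finitely many germs up to the group -/
theorem Cov.fin {c : Ctx σ L Γ} (V : Cov c D) : ∃ (n : ℕ) (S : Fin n → (D → ℂ) → σ → ℂ)
    (W₀ : Set (D → ℂ)) (u₀ : D → ℂ), u₀ ∈ W₀ ∧ (∀ i, V.Sec (S i) W₀) ∧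
      ∀ s W u, V.Sec s W → u ∈ W → ∃ γ i, ∀ φ : (σ → ℂ) → ℂ, DifferentiableOn ℂ φ c.U →
        ((∀ᶠ w in 𝓝 u, φ (s w) = 0) ↔ ∀ᶠ w in 𝓝 u₀, φ (c.a γ (S i w)) = 0) := by
  obtain ⟨u₀, h₀⟩ : ∃ u₀ : D → ℂ, MvPolynomial.eval u₀ V.Δ ≠ 0 := by
    by_contra! h
    exact V.Δ_ne (MvPolynomial.funext fun x => by simpa using h x)
  obtain ⟨r, hr, n, S, hS, hall⟩ := V.triv u₀ h₀
  let P : (D → ℂ) → Prop := fun u => ∀ s W, V.Sec s W → u ∈ W → ∃ γ i, ∀ φ : (σ → ℂ) → ℂ,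
    DifferentiableOn ℂ φ c.U → (V.Z φ (s u) ↔ V.Z φ (c.a γ (S i u₀)))
  have p0 : P u₀ := fun s W hs hu => by
    obtain ⟨γ, i, e⟩ := hall s W u₀ hs hu (mem_ball_self hr)
    exact ⟨γ, i, fun φ _ => by rw [e]⟩
  have key : ∀ u, MvPolynomial.eval u V.Δ ≠ 0 → (P u₀ ↔ P u) := fun u hu => by
    refine (conn_off V.Δ).induction₂ (fun x y => P x ↔ P y) (fun x hx => ?_)
      (fun _ _ _ _ _ _ => Iff.trans) (fun _ _ _ _ => Iff.symm) h₀ hu
    obtain ⟨r', hr', n', S', hS', hall'⟩ := V.triv x hx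
    have aux : ∀ y ∈ ball x r', ∀ y' ∈ ball x r', P y → P y' := fun y hy y' hy' h s W hs hu => by
      obtain ⟨γ, i, e⟩ := hall' s W y' hs hu hy'
      obtain ⟨γ', i', e'⟩ := h _ _ (V.act γ (hS' i)) hy
      refine ⟨γ', i', fun φ hφ => Iff.trans ?_ (e' φ hφ)⟩
      rw [e]
      exact V.Z_conn hφ (V.act γ (hS' i)) (convex_ball x r').isPreconnected subset_rfl hy' hy
    filter_upwards [mem_nhdsWithin_of_mem_nhds (ball_mem_nhds x hr')] with y hy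
    exact ⟨aux _ (mem_ball_self hr') _ hy, aux _ hy _ (mem_ball_self hr')⟩
  refine ⟨n, S, ball u₀ r, u₀, mem_ball_self hr, hS, fun s W u hs hu => ?_⟩
  obtain ⟨γ, i, e⟩ := (key u (V.off hs u hu)).1 p0 s W hs hu
  exact ⟨γ, i, fun φ hφ => by
    rw [← V.Z_iff hs hu, ← V.Z_iff (V.act γ (hS i)) (mem_ball_self hr), e φ hφ]⟩

/-- restriction to a line -/
theorem Cov.line {g : ℕ} {G : Subgroup (Sp g ℤ)} {c : Ctx (Sym2 (Fin g)) L G} (V : Cov c D)
    [Nonempty D] (hU : c.U ⊆ HH g) (ha : ∀ γ : G, c.a γ = az γ.1) {s : (D → ℂ) → EE g}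
    {W : Set (D → ℂ)} {u : D → ℂ} (hs : V.Sec s W) (hu : u ∈ W) :
    ∃ C : Cov1 G, C.Pt (s u) ∧ ∀ γ ∈ C.Mon (s u), ∀ φ : EE g → ℂ, DifferentiableOn ℂ φ c.U →
      ((∀ᶠ w in 𝓝 u, φ (az γ (s w)) = 0) ↔ ∀ᶠ w in 𝓝 u, φ (s w) = 0) := by
  classical
  obtain ⟨i₀⟩ := ‹Nonempty D›
  let d : D → ℂ := Pi.single i₀ 1
  let ln : ℂ → D → ℂ := fun t => u + t • d
  have hd : Differentiable ℂ ln := by fun_prop
  have h0 : ln 0 = u := by simp [ln]
  have hb : ∀ t₀ r, MapsTo ln (ball t₀ r) (ball (ln t₀) r) := fun t₀ r t ht => by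
    rw [mem_ball, dist_eq_norm] at ht ⊢
    rwa [show ln t - ln t₀ = (t - t₀) • d by simp [ln, sub_smul], norm_smul, Pi.norm_single, norm_one,
      mul_one]
  have hf := line_fin V.Δ d (V.off hs u hu)
  let C : Cov1 G :=
    { B := hf.toFinset
      t := fun z => V.t z i₀ - u i₀
      Sec := fun s₁ W₁ => IsOpen W₁ ∧ ∃ s' W', V.Sec s' W' ∧ MapsTo ln W₁ W' ∧ s₁ = fun t => s' (ln t)
      opn := fun h => h.1
      diff := by
        rintro _ _ ⟨-, s', W', h1, h2, rfl⟩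
        exact (V.diff h1).comp hd.differentiableOn h2
      maps := by
        rintro _ _ ⟨-, s', W', h1, h2, rfl⟩ t ht
        exact hU (V.maps h1 (h2 ht))
      proj := by
        rintro _ _ ⟨-, s', W', h1, h2, rfl⟩ t ht
        simp only [V.proj h1 _ (h2 ht)]
        simp [ln, d]
      off := by
        rintro _ _ ⟨-, s', W', h1, h2, rfl⟩ t ht h
        exact V.off h1 _ (h2 ht) (hf.mem_toFinset.1 h)
      mono := by
        rintro _ _ _ ⟨-, s', W', h1, h2, rfl⟩ ho hs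
        exact ⟨ho, s', W', h1, h2.mono_left hs, rfl⟩
      act := by
        rintro _ _ γ hγ ⟨ho, s', W', h1, h2, rfl⟩
        exact ⟨ho, _, W', V.act ⟨γ, hγ⟩ h1, h2, by simp only [ha]⟩
      uniq := by
        rintro _ _ _ _ t ⟨-, s', W', h1, h2, rfl⟩ ⟨-, s'', W'', h3, h4, rfl⟩ ht ht' e
        exact (hd.continuous.tendsto t).eventually (V.uniq h1 h3 (h2 ht) (h4 ht') e)
      triv := fun t₀ ht₀ => by
        obtain ⟨r, hr, n, S, hS, hall⟩ := V.triv (ln t₀) fun h => ht₀ (hf.mem_toFinset.2 h)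
        refine ⟨r, hr, n, fun i t => S i (ln t), fun i => ⟨isOpen_ball, _, _, hS i, hb t₀ r, rfl⟩, ?_⟩
        rintro _ _ t ⟨-, s', W', h1, h2, rfl⟩ ht ht'
        obtain ⟨γ, i, e⟩ := hall s' W' _ h1 (h2 ht) (hb t₀ r ht')
        exact ⟨γ.1, γ.2, i, by rw [← ha]; exact e⟩ }
  refine ⟨C, ⟨fun t => s (ln t), ln ⁻¹' W, 0, ⟨(V.opn hs).preimage hd.continuous, s, W, hs,
    fun _ h => h, rfl⟩, by simpa [h0] using hu, by simp only [h0]⟩, fun γ hγ φ hφ => ?_⟩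
  have key : ∀ z', C.Conn (s u) z' → (V.Z φ (s u) ↔ V.Z φ z') := fun z' h => by
    induction h with
    | refl => rfl
    | tail _ h ih =>
      obtain ⟨_, x, r, t, t', ⟨-, s', W', h1, h2, rfl⟩, ht, ht', rfl, rfl⟩ := h
      exact ih.trans (V.Z_conn hφ h1 ((convex_ball x r).isPreconnected.image ln
        hd.continuous.continuousOn) h2.image_subset (mem_image_of_mem _ ht) (mem_image_of_mem _ ht'))
  have := V.Z_iff (φ := φ) (V.act ⟨γ, hγ.1⟩ hs) hu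
  simp only [ha] at this
  rw [← this, ← key _ hγ.2, V.Z_iff hs hu]

end Pool.Agent.MT.G
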