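import Pool.Agent.Lib.MP_d61fbb_ag.MT.G0d
import Pool.Agent.Lib.MP_d61fbb_ag.MT.G6

/-! Block G: the orbit in the tower. -/

noncomputable section

namespace Pool.Agent.MT.G

open Matrix Complex Filter Topology Set Metric

variable {g l : ℕ} {e : Fin g → ℕ} {k : ℕ → Sp g ℤ} {τ : EE g}

/-- the scaling as a rational symplectic matrix -/
def dsp (hl : 0 < l) (e : Fin g → ℕ) (j : ℤ) : Sp g ℚ := ⟨dgm l e j, dgm_mem hl e j⟩

/-- the weights of the scaling -/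
def dwt (e : Fin g → ℕ) : I2 g → ℤ := Sum.elim (fun i => -(e i : ℤ)) fun i => e i

lemma dgm_eq (l : ℕ) (e : Fin g → ℕ) (j : ℤ) :
    dgm l e j = diagonal fun a => (l : ℚ) ^ (j * dwt e a) := by
  rw [dgm, fromBlocks_diagonal]
  congr 1
  funext a
  rcases a with i | i <;> simp [dwt]

lemma az_eq_ac (γ : Sp g ℤ) (z : EE g) : az γ z = ac (qm (zqsp γ).1) z := by
  have : zm γ.1 = qm (zqsp γ).1 := by
    ext a b
    simp [zqsp]
  rw [az, this]

lemma qac_mul (γ γ' : Sp g ℚ) {z : EE g} (hz : z ∈ HH g) :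
    ac (qm (γ * γ').1) z = ac (qm γ.1) (ac (qm γ'.1) z) := by
  have : qm (γ * γ').1 = (qsp γ).1 * (qsp γ').1 := Matrix.map_mul (f := Rat.castHom ℝ)
  rw [this, ac_mul _ _ hz]
  rfl

lemma qac_mem (γ : Sp g ℚ) {z : EE g} (hz : z ∈ HH g) : ac (qm γ.1) z ∈ HH g :=
  ac_mem (qsp γ) hz

lemma qac_one (z : EE g) : ac (qm (1 : Sp g ℚ).1) z = z := by
  have : qm (1 : Sp g ℚ).1 = 1 := Matrix.map_one _ Rat.cast_zero Rat.cast_one
  rw [this, ac_one]

lemma zqsp_mul (γ γ' : Sp g ℤ) : zqsp (γ * γ') = zqsp γ * zqsp γ' :=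
  Subtype.ext (Matrix.map_mul (f := Int.castRingHom ℚ))

lemma pt_eq (hl : 0 < l) (hτ : τ ∈ HH g) (j : ℤ) (m : ℕ) :
    pt l e k τ j m = ac (qm (dsp hl e j * zqsp (k m)).1) τ := by
  rw [qac_mul _ _ hτ, ← az_eq_ac]
  rfl

lemma Cau.le (hk : Cau l k) {n m : ℕ} (h : n ≤ m) : k m * (k n)⁻¹ ∈ Gam g (32 * l ^ (n + 1)) := by
  induction m, h using Nat.le_induction with
  | base => rw [mul_inv_cancel]; exact (Gam g _).one_mem
  | succ m hm ih =>
    have : k (m + 1) * (k n)⁻¹ = (k (m + 1) * (k m)⁻¹) * (k m * (k n)⁻¹) := by group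
    rw [this]
    exact (Gam g _).mul_mem
      (Gam_mono (Nat.mul_dvd_mul_left _ (pow_dvd_pow _ (by omega))) (hk m)) ih

lemma Cau.two (hk : Cau l k) {n m m' : ℕ} (h : n ≤ m) (h' : n ≤ m') :
    k m' * (k m)⁻¹ ∈ Gam g (32 * l ^ (n + 1)) := by
  have : k m' * (k m)⁻¹ = (k m' * (k n)⁻¹) * (k m * (k n)⁻¹)⁻¹ := by group
  rw [this]
  exact (Gam g _).mul_mem (hk.le h') ((Gam g _).inv_mem (hk.le h))

/-- conjugation by a scaling -/
lemma conj_dsp (hl : 0 < l) (e : Fin g → ℕ) (j : ℤ) : ∃ N : ℕ, ∀ M : ℕ, ∀ κ ∈ Gam g (M * l ^ N),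
    ∃ γ ∈ Gam g M, zqsp γ * dsp hl e j = dsp hl e j * zqsp κ := by
  obtain ⟨N, hN⟩ : ∃ N : ℕ, ∀ a b : I2 g, (j * dwt e a - j * dwt e b).natAbs ≤ N := by
    obtain ⟨N, hN⟩ := Finite.exists_le fun p : I2 g × I2 g => (j * dwt e p.1 - j * dwt e p.2).natAbs
    exact ⟨N, fun a b => hN (a, b)⟩
  refine ⟨N, fun M κ hκ => ?_⟩
  choose t ht using hκ
  have hl0 : (l : ℚ) ≠ 0 := by exact_mod_cast hl.ne'
  let γ : MM g ℤ := 1 + of fun a b => M * (l ^ (N + (j * dwt e a - j * dwt e b)).toNat * t a b)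
  have hγ : zq γ * dgm l e j = dgm l e j * zq κ.1 := by
    ext a b
    have h1 : κ.1 a b = (1 : MM g ℤ) a b + (M * l ^ N : ℕ) * t a b := by
      rw [← ht a b]; ring
    have h2 : (l : ℚ) ^ (N + (j * dwt e a - j * dwt e b)).toNat * (l : ℚ) ^ (j * dwt e b) =
        (l : ℚ) ^ (j * dwt e a) * (l : ℚ) ^ N := by
      have := hN a b
      rw [← zpow_natCast, ← zpow_natCast, Int.toNat_of_nonneg (by omega), ← zpow_add₀ hl0,
        ← zpow_add₀ hl0]
      congr 1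
      ring
    rw [dgm_eq, mul_diagonal, diagonal_mul]
    change ((γ a b : ℤ) : ℚ) * _ = _ * ((κ.1 a b : ℤ) : ℚ)
    rw [h1]
    simp only [γ, Matrix.add_apply, of_apply]
    push_cast
    by_cases hab : a = b
    · subst hab
      rw [one_apply_eq]
      push_cast
      linear_combination (M * t a a : ℚ) * h2
    · rw [one_apply_ne hab]
      push_cast
      linear_combination (M * t a b : ℚ) * h2
  have h3 : zq γ = (dsp hl e j * zqsp κ * (dsp hl e j)⁻¹).1 := by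
    have h4 : dgm l e j * ((dsp hl e j)⁻¹).1 = 1 := congrArg Subtype.val (mul_inv_cancel (dsp hl e j))
    change _ = dgm l e j * zq κ.1 * _
    rw [← hγ, Matrix.mul_assoc, h4, Matrix.mul_one]
  have h5 : γ ∈ symplecticGroup (Fin g) ℤ := by
    have h6 := (dsp hl e j * zqsp κ * (dsp hl e j)⁻¹).2
    rw [← h3, SymplecticGroup.mem_iff] at h6
    rw [SymplecticGroup.mem_iff]
    refine Matrix.map_injective (f := (Int.castRingHom ℚ)) Int.cast_injective ?_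
    dsimp only
    rw [Matrix.map_mul, Matrix.map_mul, Matrix.map_J, transpose_map]
    exact h6
  refine ⟨⟨γ, h5⟩, fun a b => ?_, Subtype.ext hγ⟩
  simp only [γ, Matrix.add_apply, of_apply, add_sub_cancel_left]
  exact Dvd.intro _ rfl

theorem pt_mem (hl : 0 < l) (hτ : τ ∈ HH g) (j : ℤ) (m : ℕ) : pt l e k τ j m ∈ HH g := by
  exact sc_mem hl e j (az_mem _ hτ)

theorem pt_gen (hl : 0 < l) (hτ : τ ∈ HH g) (h : Gen τ) (j : ℤ) (m : ℕ) : Gen (pt l e k τ j m) := by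
  rw [pt_eq hl hτ]
  exact Gen.ac hτ h _

theorem pt_inj (hg : 0 < g) (hl : 2 ≤ l) (hτ : τ ∈ HH g) (h : Gen τ) (hk : Cau l k)
    (he : ∀ i, 0 < e i) {j j' : ℤ} {m m' : ℕ} {γ : Sp g ℤ} (h' : pt l e k τ j m = az γ (pt l e k τ j' m')) : j = j' := by
  have hl0 : 0 < l := by omega
  have hq : (l : ℚ) ≠ 0 := by exact_mod_cast hl0.ne'
  rw [pt_eq hl0 hτ, pt_eq hl0 hτ, az_eq_ac, ← qac_mul _ _ hτ] at h'
  set a := dsp hl0 e j * zqsp (k m) with ha
  set b := zqsp γ * (dsp hl0 e j' * zqsp (k m')) with hb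
  have h1 : ac (qm (a⁻¹ * b).1) τ = τ := by
    rw [qac_mul _ _ hτ, ← h', ← qac_mul _ _ hτ, inv_mul_cancel, qac_one]
  obtain ⟨c, hc⟩ := h.comm hτ _ h1
  have i : Fin g := ⟨0, hg⟩
  have hc2 : c * c = 1 := by
    have h2 := (a⁻¹ * b).2
    rw [hc, SymplecticGroup.mem_iff] at h2
    have := congrFun (congrFun h2 (Sum.inr i)) (Sum.inl i)
    simpa [J] using this
  obtain ⟨κ, hκ⟩ : ∃ κ, κ = k m * (k m')⁻¹ := ⟨_, rfl⟩
  have hκ1 : κ ∈ Gam g (32 * l ^ (0 + 1)) := hκ ▸ hk.two (Nat.zero_le _) (Nat.zero_le _)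
  have h3 : zq γ.1 * dgm l e j' = c • (dgm l e j * zq κ.1) := by
    have h4 : zqsp γ * dsp hl0 e j' = a * (a⁻¹ * b) * (zqsp (k m'))⁻¹ := by
      rw [hb]; group
    have h5 : dsp hl0 e j * zqsp κ = a * (zqsp (k m'))⁻¹ := by
      have : zqsp (k m) = zqsp κ * zqsp (k m') := by
        rw [← zqsp_mul, hκ]; congr 1; group
      rw [ha, this]; group
    have h6 := congrArg Subtype.val h4
    have h7 := congrArg Subtype.val h5
    change zq γ.1 * dgm l e j' = a.1 * (a⁻¹ * b).1 * ((zqsp (k m'))⁻¹).1 at h6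
    change dgm l e j * zq κ.1 = a.1 * ((zqsp (k m'))⁻¹).1 at h7
    rw [h6, h7, hc, Matrix.mul_smul, Matrix.mul_one, Matrix.smul_mul]
  have key : ∀ x : I2 g, j * dwt e x - j' * dwt e x < 0 → False := fun x hx => by
    have h4 := congrFun (congrFun h3 x) x
    rw [dgm_eq, dgm_eq, Matrix.smul_apply, mul_diagonal, diagonal_mul, smul_eq_mul] at h4
    change ((γ.1 x x : ℤ) : ℚ) * _ = _ * (_ * ((κ.1 x x : ℤ) : ℚ)) at h4
    obtain ⟨n, hn⟩ : ∃ n : ℕ, j' * dwt e x = j * dwt e x + (n + 1 : ℕ) :=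
      ⟨(j' * dwt e x - j * dwt e x - 1).toNat, by push_cast; omega⟩
    rw [hn, zpow_add₀ hq, zpow_natCast] at h4
    have h5 : (γ.1 x x : ℚ) * l ^ (n + 1) = c * κ.1 x x := by
      have := zpow_ne_zero (j * dwt e x) hq
      refine mul_left_cancel₀ this ?_
      linear_combination h4
    have h6 : (l : ℤ) ∣ κ.1 x x := by
      rcases mul_self_eq_one_iff.1 hc2 with rfl | rfl
      · have : γ.1 x x * l ^ (n + 1) = κ.1 x x := by exact_mod_cast (h5.trans (one_mul _))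
        exact ⟨γ.1 x x * l ^ n, by rw [← this]; ring⟩
      · have : γ.1 x x * l ^ (n + 1) = -κ.1 x x := by
          exact_mod_cast (h5.trans (neg_one_mul _))
        exact ⟨-(γ.1 x x * l ^ n), by linear_combination this⟩
    have h7 : (l : ℤ) ∣ κ.1 x x - 1 := by
      have := hκ1 x x
      rw [one_apply_eq] at this
      exact Dvd.dvd.trans ⟨32, by push_cast; ring⟩ this
    have h8 : (l : ℤ) ∣ 1 := by simpa using dvd_sub h6 h7
    have := Int.le_of_dvd one_pos h8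
    omega
  have hi : (0 : ℤ) < e i := by exact_mod_cast he i
  by_contra hne
  rcases lt_or_gt_of_ne hne with hlt | hlt
  · exact key (Sum.inr i) (by simp only [dwt, Sum.elim_inr]; nlinarith)
  · exact key (Sum.inl i) (by simp only [dwt, Sum.elim_inl]; nlinarith)

theorem pt_tower (hl : 0 < l) (hτ : τ ∈ HH g) (hk : Cau l k) (j : ℤ) (n : ℕ) :
    ∃ m₀, ∀ m ≥ m₀, ∀ m' ≥ m₀, ∃ γ ∈ Gam g (32 * l ^ n), pt l e k τ j m' = az γ (pt l e k τ j m) := by
  obtain ⟨N, hN⟩ := conj_dsp hl e j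
  refine ⟨n + N, fun m hm m' hm' => ?_⟩
  obtain ⟨γ, hγ, h⟩ := hN (32 * l ^ n) (k m' * (k m)⁻¹)
    (Gam_mono ⟨l, by ring⟩ (hk.two hm hm'))
  refine ⟨γ, hγ, ?_⟩
  rw [pt_eq hl hτ, pt_eq hl hτ, az_eq_ac, ← qac_mul _ _ hτ, ← mul_assoc, h, mul_assoc, ← zqsp_mul,
    inv_mul_cancel_right]

lemma orb_le (hl : 0 < l) (hτ : τ ∈ HH g) (j : ℤ) : orb l e k τ j ≤ 𝓟 (HH g) :=
  le_principal_iff.2 (mem_map.2 (Eventually.of_forall fun m => pt_mem hl hτ j m))

/-- a form vanishes at almost all or at almost no points of a sequence -/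
lemma orb_const (hl : 0 < l) (hτ : τ ∈ HH g) (hk : Cau l k) (j : ℤ) {F : EE g → ℂ} (hF : Fm l F) :
    ∃ m₀, ∀ m ≥ m₀, (F (pt l e k τ j m) = 0 ↔ F ∈ Van l (orb l e k τ j)) := by
  obtain ⟨n, hn⟩ := hF.level
  obtain ⟨m₀, h⟩ := pt_tower (e := e) hl hτ hk j n
  have key : ∀ m ≥ m₀, ∀ m' ≥ m₀, F (pt l e k τ j m) = 0 → F (pt l e k τ j m') = 0 := by
    intro m hm m' hm' h0
    obtain ⟨γ, hγ, h1⟩ := h m hm m' hm'
    rw [h1]
    exact (hn γ hγ _ (pt_mem hl hτ j m)).2 h0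
  refine ⟨m₀, fun m hm => ⟨fun h0 => ⟨hF, ?_⟩, fun h0 => ?_⟩⟩
  · exact eventually_map.2 ((eventually_ge_atTop m₀).mono fun m' hm' => key m hm m' hm' h0)
  · obtain ⟨m', h1, h2⟩ := ((eventually_map.1 h0.2).and (eventually_ge_atTop m₀)).exists
    exact key m' h2 m hm h1

theorem orb_pri (hl : 0 < l) (hτ : τ ∈ HH g) (hk : Cau l k) (j : ℤ) : Pri l (orb l e k τ j) := by
  refine ⟨map_neBot, orb_le hl hτ j, fun F F' hF hF' h => ?_⟩
  obtain ⟨a, ha⟩ := orb_const (e := e) hl hτ hk j hF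
  obtain ⟨b, hb⟩ := orb_const (e := e) hl hτ hk j hF'
  obtain ⟨m, h1, h2, h3⟩ := ((eventually_map.1 h.2).and
    ((eventually_ge_atTop a).and (eventually_ge_atTop b))).exists
  exact (mul_eq_zero.1 h1).imp (ha m h2).1 (hb m h3).1

theorem orb_sc (hl : 0 < l) (j j' : ℤ) :
    map (sc l e j) (orb l e k τ j') = orb l e k τ (j + j') := by
  rw [orb, orb, Filter.map_map]
  congr 1
  funext m
  exact (sc_add hl e j j' _).symm

lemma map_sc_le (hl : 0 < l) {A : Filter (EE g)} (hA : A ≤ 𝓟 (HH g)) (e : Fin g → ℕ) (j : ℤ) :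
    map (sc l e j) A ≤ 𝓟 (HH g) :=
  le_principal_iff.2 (mem_map.2 (mem_of_superset (le_principal_iff.1 hA)
    fun _ hz => sc_mem hl e j hz))

lemma map_az_le {A : Filter (EE g)} (hA : A ≤ 𝓟 (HH g)) (γ : Sp g ℤ) :
    map (az γ) A ≤ 𝓟 (HH g) :=
  le_principal_iff.2 (mem_map.2 (mem_of_superset (le_principal_iff.1 hA) fun _ hz => az_mem γ hz))

lemma map_sc_sc (hl : 0 < l) (A : Filter (EE g)) (e : Fin g → ℕ) (j j' : ℤ) :
    map (sc l e j) (map (sc l e j') A) = map (sc l e (j + j')) A := by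
  rw [Filter.map_map]
  congr 1
  funext z
  exact (sc_add hl e j j' z).symm

lemma map_sc_zero (A : Filter (EE g)) (e : Fin g → ℕ) : map (sc l e 0) A = A := by
  have : sc l e 0 = id := funext (sc_zero l e)
  rw [this, Filter.map_id]

lemma Van_sc_eq (hl : 0 < l) {A B : Filter (EE g)} (hA : A ≤ 𝓟 (HH g)) (hB : B ≤ 𝓟 (HH g))
    (h : Van l A = Van l B) (e : Fin g → ℕ) (j : ℤ) :
    Van l (map (sc l e j) A) = Van l (map (sc l e j) B) :=
  (Van_sc hl hA hB h.subset e j).antisymm (Van_sc hl hB hA h.superset e j)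

lemma Van_az_eq {A B : Filter (EE g)} (hA : A ≤ 𝓟 (HH g)) (hB : B ≤ 𝓟 (HH g))
    (h : Van l A = Van l B) (γ : Sp g ℤ) : Van l (map (az γ) A) = Van l (map (az γ) B) :=
  (Van_az hA hB h.subset γ).antisymm (Van_az hB hA h.superset γ)

lemma Van_sc_mul (hl : 0 < l) {A : Filter (EE g)} (hA : A ≤ 𝓟 (HH g)) {N : ℤ}
    (h : Van l (map (sc l e N) A) = Van l A) (r : ℤ) : Van l (map (sc l e (r * N)) A) = Van l A := by
  induction r using Int.induction_on with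
  | zero => rw [zero_mul, map_sc_zero]
  | succ r ih =>
    rw [add_mul, one_mul, ← map_sc_sc hl, Van_sc_eq hl (map_sc_le hl hA e N) hA h, ih]
  | pred r ih =>
    rw [← Van_sc_eq hl (map_sc_le hl hA e N) hA h, map_sc_sc hl]
    convert ih using 4
    ring

/-- a good filter that is stable under a scaling has the zero ideal -/
theorem Good.zero (hl : 2 ≤ l) {A : Filter (EE g)} (h : Good l A) (he : ∀ i, 0 < e i) {N : ℤ} (hN : N ≠ 0)
    (h' : Van l (map (sc l e N) A) = Van l A) {F : EE g → ℂ}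
    (hF : F ∈ Van l A) : ∀ z ∈ HH g, F z = 0 := by
  have hl0 : 0 < l := by omega
  have hlc : (l : ℂ) ≠ 0 := by exact_mod_cast hl0.ne'
  obtain ⟨⟨-, hA, -⟩, ⟨z₀, hz₀⟩, n, hn⟩ := h
  have h0 : z₀ ∈ HH g := by simpa using hz₀.trans hA
  refine zero_of_transl hl hF.1.diff h0 fun m B => ?_
  obtain ⟨J, hJ⟩ : ∃ J : ℤ, J = (N * (m + n)) * N := ⟨_, rfl⟩
  have hJ1 : (m + n : ℤ) ≤ J := by
    have : 1 ≤ N * N := by have := mul_self_pos.2 hN; omega
    have h2 : (0 : ℤ) ≤ m + n := by positivity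
    nlinarith
  obtain ⟨γ, hγ, ht⟩ := exists_trn (g := g) (32 * l ^ n)
    fun p => (l : ℤ) ^ (J * ((e p.inf : ℤ) + e p.sup) - (m + n)).toNat * B p
  have h1 : Van l (map (sc l e J) A) = Van l A := hJ ▸ Van_sc_mul hl0 hA h' _
  have h2 : Van l (map (sc l e (-J)) A) = Van l A := by
    rw [hJ, ← neg_mul]; exact Van_sc_mul hl0 hA h' _
  have h3 : Van l (map (sc l e (-J)) (map (az γ) (map (sc l e J) A))) = Van l A := by
    rw [Van_sc_eq hl0 (map_az_le (map_sc_le hl0 hA e J) γ) hA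
      ((Van_az_eq (map_sc_le hl0 hA e J) hA h1 γ).trans (hn γ hγ)), h2]
  have h4 : F (sc l e (-J) (az γ (sc l e J z₀))) = 0 := by
    have := (h3 ▸ hF : F ∈ Van l _).2
    rw [eventually_map, eventually_map, eventually_map] at this
    simpa using hz₀ this
  convert h4 using 2
  rw [ht, sc_eq hl0, sc_eq hl0]
  funext p
  have h5 : (0 : ℤ) < e p.inf := by exact_mod_cast he _
  have h6 : (0 : ℤ) < e p.sup := by exact_mod_cast he _
  obtain ⟨s, hs⟩ : ∃ s : ℤ, s = J * ((e p.inf : ℤ) + e p.sup) := ⟨_, rfl⟩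
  have h7 : (m + n : ℤ) ≤ s := by
    have h2 : (0 : ℤ) ≤ m + n := by positivity
    nlinarith
  simp only [Pi.add_apply, neg_mul, ← hs]
  push_cast
  rw [← zpow_natCast (l : ℂ) (Int.toNat _), Int.toNat_of_nonneg (by omega), zpow_sub₀ hlc,
    zpow_add₀ hlc, _root_.zpow_neg, zpow_natCast, zpow_natCast]
  have := zpow_ne_zero s hlc
  field_simp

lemma Van.mul_right {A : Filter (EE g)} {F F' : EE g → ℂ} (h : F ∈ Van l A) (h' : Fm l F') :
    F * F' ∈ Van l A :=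
  ⟨h.1.mul h', h.2.mono fun z hz => by rw [Pi.mul_apply, hz, zero_mul]⟩

lemma Pri.one_not {A : Filter (EE g)} (h : Pri l A) : (1 : EE g → ℂ) ∉ Van l A := fun h1 => by
  have := h.1
  obtain ⟨z, hz⟩ := h1.2.exists
  exact one_ne_zero hz

/-- a prime that contains a finite intersection contains one of the ideals -/
lemma Pri.avoid {A : Filter (EE g)} (h : Pri l A) {s : Set (Filter (EE g))} (hs : s.Finite)
    (h' : ∀ F, Fm l F → (∀ B ∈ s, F ∈ Van l B) → F ∈ Van l A) : ∃ B ∈ s, Van l B ⊆ Van l A := by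
  by_contra hc
  have key : ∃ F, Fm l F ∧ (∀ B ∈ s, F ∈ Van l B) ∧ F ∉ Van l A := by
    clear h'
    induction s, hs using Set.Finite.induction_on with
    | empty => exact ⟨1, Fm.one, by simp, h.one_not⟩
    | @insert B s _ _ ih =>
      obtain ⟨F, hF, h1, h2⟩ := ih fun ⟨C, hC, h3⟩ => hc ⟨C, mem_insert_of_mem _ hC, h3⟩
      obtain ⟨F', h3, h4⟩ := not_subset.1 fun h3 => hc ⟨B, mem_insert _ _, h3⟩
      refine ⟨F * F', hF.mul h3.1, ?_, fun h5 => (h.2.2 F F' hF h3.1 h5).elim h2 h4⟩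
      rintro C (rfl | hC)
      · rw [mul_comm]; exact Van.mul_right h3 hF
      · exact Van.mul_right (h1 C hC) h3.1
  obtain ⟨F, hF, h1, h2⟩ := key
  exact h2 (h' F hF h1)

theorem final (hl : 2 ≤ l) (hτ : τ ∈ HH g) (hk : Cau l k) (he : ∀ i, 0 < e i) (hC : Claim l e k τ univ)
    (hfin : ∀ j, {j' | Van l (orb l e k τ j') = Van l (orb l e k τ j)}.Finite) {F : EE g → ℂ}
    (hF : ∀ j, F ∈ Van l (orb l e k τ j)) : ∀ z ∈ HH g, F z = 0 := by
  have hl0 : 0 < l := by omega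
  obtain ⟨s, hs, hg, hI⟩ := hC
  simp only [mem_univ, forall_true_left] at hI
  have hp : ∀ B ∈ s, Pri l B := fun B hB =>
    (hg B hB).elim (fun h => h.1) fun ⟨j, hj⟩ => hj ▸ orb_pri hl0 hτ hk j
  have hsc : ∀ B ∈ s, ∀ j, ∃ B' ∈ s, Van l B' ⊆ Van l (map (sc l e j) B) := fun B hB j => by
    refine ((hp B hB).sc hl0 e j).avoid hs fun F hF h => ?_
    obtain ⟨F', hF', h1⟩ := hF.sc hl0 e j
    have h2 : F' ∈ Van l B := by
      refine (hI F' hF').1 (fun j' => ⟨hF', ?_⟩) B hB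
      have h3 := ((hI F hF).2 h (j + j')).2
      rw [← orb_sc hl0, eventually_map] at h3
      filter_upwards [h3, le_principal_iff.1 (orb_le hl0 hτ j')] with z h4 h5 using (h1 z h5).1 h4
    refine ⟨hF, eventually_map.2 ?_⟩
    filter_upwards [h2.2, le_principal_iff.1 (hp B hB).2.1] with z h4 h5 using (h1 z h5).2 h4
  have hne : s.Nonempty := by
    by_contra hc
    rw [not_nonempty_iff_eq_empty] at hc
    exact (orb_pri (e := e) hl0 hτ hk 0).one_not ((hI 1 Fm.one).2 (by simp [hc]) 0)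
  obtain ⟨B₀, hB₀, hmin⟩ := Set.Finite.exists_minimalFor (Van l) s hs hne
  have h0 := (hp B₀ hB₀).2.1
  have hj : ∀ j, ∃ B ∈ s, Van l (map (sc l e j) B₀) = Van l B := fun j => by
    obtain ⟨B, hB, h1⟩ := hsc B₀ hB₀ j
    have hB1 := (hp B hB).2.1
    have h2 := Van_sc hl0 hB1 (map_sc_le hl0 h0 e j) h1 e (-j)
    rw [map_sc_sc hl0, neg_add_cancel, map_sc_zero] at h2
    obtain ⟨B', hB', h3⟩ := hsc B hB (-j)
    have h4 : Van l B₀ ⊆ Van l (map (sc l e (-j)) B) := (hmin hB' (h3.trans h2)).trans h3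
    have h5 := Van_sc hl0 h0 (map_sc_le hl0 hB1 e (-j)) h4 e j
    rw [map_sc_sc hl0, add_neg_cancel, map_sc_zero] at h5
    exact ⟨B, hB, h5.antisymm h1⟩
  choose b hb hb' using hj
  rcases hg B₀ hB₀ with hG | ⟨j₀, rfl⟩
  · have := hs.to_subtype
    obtain ⟨j, j', hjj, h1⟩ := Finite.exists_ne_map_eq_of_infinite fun j : ℤ => (⟨b j, hb j⟩ : s)
    have h2 : Van l (map (sc l e j) B₀) = Van l (map (sc l e j') B₀) := by
      rw [hb', hb', show b j = b j' from congrArg Subtype.val h1]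
    have h3 := Van_sc_eq hl0 (map_sc_le hl0 h0 e j) (map_sc_le hl0 h0 e j') h2 e (-j')
    rw [map_sc_sc hl0, map_sc_sc hl0, neg_add_cancel, map_sc_zero] at h3
    exact hG.zero hl he (by omega) h3 ((hI F (hF 0).1).1 hF B₀ hB₀)
  · exfalso
    have h1 : ∀ j, Van l (orb l e k τ j) = Van l (b (j - j₀)) := fun j => by
      rw [← hb', orb_sc hl0, sub_add_cancel]
    refine Set.infinite_univ (α := ℤ) (Set.Finite.of_finite_fibers
      (fun j => Van l (orb l e k τ j)) ((hs.image (Van l)).subset ?_) ?_)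
    · rintro _ ⟨j, -, rfl⟩
      exact ⟨_, hb _, (h1 j).symm⟩
    · rintro _ ⟨j, -, rfl⟩
      exact (hfin j).subset fun j' hj' => hj'.2

end Pool.Agent.MT.G
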