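import Pool.Agent.Lib.MP_d61fbb_ag.MT.GR8

/-! Properness of the theta map and the transcendence degree of the field of theta constants. -/

noncomputable section

namespace Pool.Agent.MT

open Matrix Complex

variable {g : ℕ}

/-- the theta constants of level four are permuted -/
theorem GS.th4_act {γ : Matrix (I2 g) (I2 g) ℤ} (h : GS 1 γ) {τ : Matrix (Fin g) (Fin g) ℂ}
    (hτ : Sieg τ) : ∃ (v : I2 g → ℤ) (j : ℝ), 0 < j ∧ ∀ y,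
      ‖th4 (act (γ.map (↑)) τ) (MT.dl γ *ᵥ (y - 2 • v))‖ = j * ‖th4 τ y‖ := by
  obtain ⟨η, j, -, hj⟩ := h.trans_hv
  refine ⟨vz η, ‖j τ‖, norm_pos_iff.2 (hj τ hτ).1, fun y => ?_⟩
  have e1 : (1 / 4 : ℂ) • zc (MT.dl γ *ᵥ (y - 2 • vz η)) =
      MT.dl (γ.map (↑)) *ᵥ ((1 / 4 : ℂ) • zc (y - 2 • vz η)) := by
    rw [mulVec_smul]
    congr 1
    have : (MT.dl γ).map ((↑) : ℤ → ℂ) = MT.dl (γ.map (↑)) := dl_map (Int.castRingHom ℂ) γ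
    rw [← this]
    funext i
    simp only [zc, mulVec, dotProduct, map_apply, Int.cast_sum, Int.cast_mul]
  have e2 : (1 / 4 : ℂ) • zc (y - 2 • vz η) + hv η = (1 / 4 : ℂ) • zc y := by
    funext i; simp [hv, zc]; ring
  have e3 : Ef (hv η) ((1 / 4 : ℂ) • zc (y - 2 • vz η)) / 2 =
      ((Ef (vz η) (y - 2 • vz η) : ℤ) / 16 : ℝ) := by
    rw [hv, Ef_smul_left, Ef_smul_right, Ef_zc]; push_cast; ring
  rw [th4, th4, e1, (hj τ hτ).2, Uc, e2, e3, norm_mul, norm_mul, gr2_ee_real, one_mul]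

theorem proper {S : Set (I2 g → ℤ)} (hS : Cusp S) {e : ℝ} (he : 0 < e) {N : ℕ} (hN : 0 < N) :
    ∃ K : Set (Matrix (Fin g) (Fin g) ℂ), IsCompact K ∧ (∀ τ ∈ K, Sieg τ) ∧
      ∀ τ, Sieg τ → (∀ y ∈ S, ∀ y', e * ‖th4 τ y'‖ ≤ ‖th4 τ y‖) →
        ∃ γ : Matrix (I2 g) (I2 g) ℤ, GS 1 γ ∧ (∀ i j, (N : ℤ) ∣ (γ - 1) i j) ∧
          act (γ.map (↑)) τ ∈ K := by
  obtain ⟨c, hc, hred⟩ := red g
  obtain ⟨e₀, he₀, hlow⟩ := th_low g hc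
  obtain ⟨C, hdec⟩ := decay g hc
  obtain ⟨R, hR, hRC⟩ : ∃ R : ℝ, 0 < R ∧ C * Real.exp (-R) < e * e₀ := by
    have := (Real.tendsto_exp_neg_atTop_nhds_zero.const_mul C).eventually
      (gt_mem_nhds (show C * 0 < e * e₀ by simpa using mul_pos he he₀))
    exact ((Filter.eventually_gt_atTop 0).and this).exists
  obtain ⟨K, hK, hKS, hsc⟩ := short_or_compact g hc (show 0 < 1 / (16 * R) by positivity)
  obtain ⟨K', hK', hKS', hl⟩ := compact_level hK hKS hN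
  refine ⟨K', hK', hKS', fun τ hτ H => ?_⟩
  obtain ⟨γ, hγ, hLo⟩ := hred τ hτ
  have hτ' := (hγ.rs_int one_pos).sieg hτ
  rcases hsc _ hτ' hLo with ⟨w, ⟨i, hi⟩, hw⟩ | ⟨δ, hδ, hm⟩
  swap
  · exact hl τ hτ (δ * γ) (by simpa using hδ.mul hγ) (by rwa [hδ.act_act hγ hτ])
  exfalso
  obtain ⟨v, j, hj, hth⟩ := hγ.th4_act hτ
  have inv : ∀ x, dl γ *ᵥ γᵀ *ᵥ x = x := fun x => by
    rw [mulVec_mulVec, hγ.dl_mul_transpose, one_mulVec]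
  obtain ⟨y, hy, hodd⟩ := hS (γᵀ *ᵥ Sum.elim 0 w) (by
    by_contra! h0
    have : Even ((dl γ *ᵥ γᵀ *ᵥ Sum.elim 0 w) (Sum.inr i)) := by
      rw [mulVec, dotProduct]
      exact Finset.even_sum _ fun k _ => (Int.not_odd_iff_even.1 (h0 k)).mul_left _
    rw [inv] at this
    exact Int.not_odd_iff_even.2 this hi)
  obtain ⟨y₀, hy₀⟩ := hlow _ hτ' hLo
  have h1 := hth (γᵀ *ᵥ y₀ + 2 • v)
  rw [add_sub_cancel_right, inv] at h1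
  set y' := dl γ *ᵥ (y - 2 • v) with hy'
  have h2 : e * e₀ ≤ ‖th4 (act (γ.map (↑)) τ) y'‖ := by
    rw [hth]
    calc e * e₀ ≤ e * (j * ‖th4 τ (γᵀ *ᵥ y₀ + 2 • v)‖) := by rw [← h1]; gcongr
      _ = j * (e * ‖th4 τ (γᵀ *ᵥ y₀ + 2 • v)‖) := by ring
      _ ≤ _ := mul_le_mul_of_nonneg_left (H y hy _) hj.le
  have h3 : Odd (w ⬝ᵥ y' ∘ Sum.inl) := by
    have a1 : Ef (Sum.elim 0 w) y' = Ef (γᵀ *ᵥ Sum.elim 0 w) y - 2 * Ef (γᵀ *ᵥ Sum.elim 0 w) v := by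
      conv_lhs => rw [← inv (Sum.elim 0 w), hy', hγ.dl, one_mul, Ef_sub_right, two_nsmul,
        Ef_add_right, ← two_mul]
    have a2 : Ef (Sum.elim 0 w) y' = -(w ⬝ᵥ y' ∘ Sum.inl) := by simp [Ef]
    rw [← odd_neg, ← a2, a1]
    exact hodd.sub_even (even_two_mul _)
  have h4 := hdec _ hτ' hLo (fun k => (y' k : ℝ) / 4) R fun n => by
    have a1 := hw ((fun i => (n i : ℝ)) + (fun k => (y' k : ℝ) / 4) ∘ Sum.inl)
    have a2 : (fun i => (w i : ℝ)) ⬝ᵥ ((fun i => (n i : ℝ)) + (fun k => (y' k : ℝ) / 4) ∘ Sum.inl) =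
        ((4 * (w ⬝ᵥ n) + w ⬝ᵥ y' ∘ Sum.inl : ℤ) : ℝ) / 4 := by
      simp only [dotProduct, Pi.add_apply, Function.comp_apply]
      push_cast
      rw [Finset.mul_sum, ← Finset.sum_add_distrib, Finset.sum_div]
      exact Finset.sum_congr rfl fun _ _ => by ring
    have a3 : 4 * (w ⬝ᵥ n) + w ⬝ᵥ y' ∘ Sum.inl ≠ 0 := fun h0 => by
      obtain ⟨k, hk⟩ := h3
      omega
    have a4 : (1 : ℝ) ≤ ((4 * (w ⬝ᵥ n) + w ⬝ᵥ y' ∘ Sum.inl : ℤ) : ℝ) ^ 2 := by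
      exact_mod_cast (one_le_sq_iff_one_le_abs _).2 (Int.one_le_abs a3)
    rw [a2, div_pow, one_div, inv_mul_eq_div, div_le_div_iff₀ (by norm_num) (by positivity)] at a1
    nlinarith
  have e4 : rc (fun k => (y' k : ℝ) / 4) = (1 / 4 : ℂ) • zc y' := by
    funext k; simp [rc, zc]; ring
  rw [e4] at h4
  exact absurd (h2.trans h4) (not_le.2 hRC)

theorem trdeg {κ : Type} [Fintype κ] (hκ : Fintype.card (Sym2 (Fin g)) < Fintype.card κ) {D : ℕ}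
    {F₀ : Matrix (Fin g) (Fin g) ℂ → ℂ} {F : κ → Matrix (Fin g) (Fin g) ℂ → ℂ} (h₀ : Form D F₀)
    (h : ∀ i, Form D (F i)) : ∃ P : MvPolynomial κ ℂ, P ≠ 0 ∧
      ∀ τ, Sieg τ → F₀ τ ≠ 0 → MvPolynomial.eval (fun i => F i τ / F₀ τ) P = 0 := by
  exact trdeg' hκ h₀ h

end Pool.Agent.MT
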