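import Pool.Agent.Lib.MP_d61fbb_ag.MT.GR3
import Pool.Agent.Lib.MP_d61fbb_ag.MT.GR6
import Pool.Agent.Lib.MP_d61fbb_ag.MT.G4a
import Pool.Agent.Lib.MP_d61fbb_ag.MT.G4b
import Pool.Agent.Lib.MP_d61fbb_ag.MT.G7a

/-! Block G: the context of the theta constants. -/

noncomputable section

namespace Pool.Agent.MT.G

open Matrix Complex Filter Topology Set Metric

variable {g l : ℕ}

lemma b7_red (y : I2 g → ℤ) :
    ∃ (y' : LL g 1) (c : ℂ), ‖c‖ = 1 ∧ ∀ z, th4 (mk z) y = c * th (ch 1 y') z := by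
  obtain ⟨y', c, hc, -, h⟩ := th_red (g := g) one_pos (x := fun i => y i / 4)
    fun i => ⟨y i, by push_cast; ring⟩
  refine ⟨y', c, hc, fun z => ?_⟩
  rw [← h, th4, th]
  congr 1
  funext i
  simp [div_eq_inv_mul]

lemma b7_th (y : LL g 1) : ∃ y' : I2 g → ℤ, ∀ z, th (ch 1 y) z = th4 (mk z) y' :=
  ⟨fun i => (y i : ℕ), fun z => by
    rw [th4, th]; congr 1; funext i; simp [qc, ch, div_eq_inv_mul]⟩

lemma b7_mem (y : LL g 1) : th (ch 1 y) ∈ RL g 1 1 := th_mem (ch_mem y)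

lemma b7_diff (y : LL g 1) {z : EE g} (hz : z ∈ HH g) : DifferentiableAt ℂ (th (ch 1 y)) z :=
  (RL_diff (b7_mem y)).differentiableAt (isOpen_HH.mem_nhds hz)

lemma b7_az {N : ℕ} (γ : Gam g (32 * N)) {z : EE g} (hz : z ∈ HH g) :
    ∃ j ≠ 0, ∀ y : LL g 1, th (ch 1 y) (az γ.1 z) = j * th (ch 1 y) z := by
  obtain ⟨j, h0, h⟩ := pull γ.1
  exact ⟨j z, h0 z hz, fun y => by
    simpa using (h 1).2 (Gam_mono (by simp) γ.2) 1 _ (b7_mem y) z hz⟩

lemma b7_imm {y₀ : LL g 1} {z : EE g} (hz : z ∈ HH g) (h0 : th (ch 1 y₀) z ≠ 0) :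
    Function.Injective (fderiv ℂ (fun z y => th (ch 1 y) z / th (ch 1 y₀) z) z) := by
  refine (injective_iff_map_eq_zero _).2 fun A hA => ?_
  have hl : HasDerivAt (fun s : ℂ => z + s • A) A 0 := by
    simpa using ((hasDerivAt_id (0 : ℂ)).smul_const A).const_add z
  have hd : ∀ y : LL g 1, HasDerivAt (fun s : ℂ => th (ch 1 y) (z + s • A))
      (fderiv ℂ (th (ch 1 y)) z A) 0 := fun y =>
    (b7_diff y hz).hasFDerivAt.comp_hasDerivAt_of_eq 0 hl (by simp)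
  have hb : DifferentiableAt ℂ (fun z y => th (ch 1 y) z / th (ch 1 y₀) z) z :=
    differentiableAt_pi.2 fun y => by
      simpa only [div_eq_mul_inv] using (b7_diff y hz).fun_mul ((b7_diff y₀ hz).fun_inv h0)
  have h1 := hb.hasFDerivAt.comp_hasDerivAt_of_eq 0 hl (by simp)
  have h2 : ∀ y : LL g 1, fderiv ℂ (th (ch 1 y)) z A =
      fderiv ℂ (th (ch 1 y₀)) z A / th (ch 1 y₀) z * th (ch 1 y) z := fun y => by
    have h3 := (hasDerivAt_pi.1 h1 y).unique ((hd y).div (hd y₀) (by simpa using h0))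
    change fderiv ℂ (fun z y => th (ch 1 y) z / th (ch 1 y₀) z) z A y = _ at h3
    rw [hA, Pi.zero_apply, eq_comm, div_eq_zero_iff, or_iff_left (by simpa using h0)] at h3
    simp only [zero_smul, add_zero] at h3
    field_simp
    linear_combination h3
  rw [← un_mk A, Sieg.imm hz (mk_symm A) (fderiv ℂ (th (ch 1 y₀)) z A / th (ch 1 y₀) z) fun y => ?_]
  · rfl
  obtain ⟨y', c, -, h⟩ := b7_red y
  simp only [← mk_smul, ← mk_add, h]
  rw [mul_left_comm, ← h2]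
  exact (hd y').const_mul c

lemma b7_alg {θ : EE g → ℂ} (hθ : θ ∈ RL g 1 1) (φ : Option (Sym2 (Fin g)) → EE g → ℂ)
    (h : ∀ i, Fr l θ (φ i)) : ∃ P : MvPolynomial (Option (Sym2 (Fin g))) ℂ, P ≠ 0 ∧
      ∀ z ∈ HH g, θ z ≠ 0 → MvPolynomial.eval (fun i => φ i z) P = 0 := by
  choose m k F hF e using h
  have hk : ∀ i, k i ≤ ∑ i, k i := fun i =>
    Finset.single_le_sum (fun _ _ => Nat.zero_le _) (Finset.mem_univ i)
  obtain ⟨P, h0, hP⟩ := trdeg (κ := Option (Sym2 (Fin g))) (by simp)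
    (RL_form (RL_pow hθ (∑ i, k i))) (F := fun i τ => (F i * θ ^ (∑ i, k i - k i)) (un τ))
    fun i => by
      convert RL_form (RL_mul (hF i) (RL_pow (RL_mono (one_dvd _) 1 hθ) (∑ i, k i - k i))) using 1
      have := hk i
      omega
  refine ⟨P, h0, fun z hz h1 => ?_⟩
  convert hP _ hz (by simp [un_mk, h1]) using 3
  funext i
  rw [e, un_mk, Pi.mul_apply, Pi.pow_apply, Pi.pow_apply, pow_sub₀ _ h1 (hk i)]
  field_simp

lemma b7_sp {N : ℕ} {γ : MM g ℤ} (h : GS 1 γ) (h' : ∀ i j, (N : ℤ) ∣ (γ - 1) i j) :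
    ∃ δ : Gam g N, ∀ z, az δ.1 z = un (act (γ.map (↑)) (mk z)) := by
  refine ⟨⟨⟨dl γ, gs_one_iff.1 h.dl⟩, fun i j => ?_⟩, fun z => ?_⟩
  · have e : dl γ - 1 = dl (γ - 1) := by
      rw [sub_eq_iff_eq_add, ← dl_one (R := ℤ), ← dl_add, dl_one, sub_add_cancel]
    change _ ∣ (dl γ - 1) i j
    rw [e]
    rcases i with i | i <;> rcases j with j | j <;>
      simp [dl, toBlocks₁₁, toBlocks₁₂, toBlocks₂₁, toBlocks₂₂, -Matrix.sub_apply, h']
  · rw [az, ac_def]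
    congr 2
    rw [← dl_dl (γ.map _)]
    congr 1
    ext (i | i) (j | j) <;> simp [dl, toBlocks₁₁, toBlocks₁₂, toBlocks₂₁, toBlocks₂₂]

theorem exists_th_ne {z : EE g} (hz : z ∈ HH g) : ∃ y : LL g 1, th (ch 1 y) z ≠ 0 := by
  obtain ⟨η, hη⟩ := Sieg.exists_ne hz 0
  obtain ⟨y', c, -, h⟩ := b7_red (2 • vz η)
  refine ⟨y', fun h0 => hη ?_⟩
  rw [← mul_zero c, ← h0, ← h, th4, hv]
  congr 1
  funext i
  simp [zc]
  ring

lemma b7_prop {N : ℕ} (hN : 0 < N) {z₀ : EE g} (hz₀ : z₀ ∈ HH g) (y₀ : LL g 1) (R ε : ℝ)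
    (hε : 0 < ε) : ∃ C, IsCompact C ∧ C ⊆ {z ∈ HH g | th (ch 1 y₀) z ≠ 0} ∧
      ∀ z ∈ HH g, th (ch 1 y₀) z ≠ 0 → (∀ y, ‖th (ch 1 y) z / th (ch 1 y₀) z‖ ≤ R) →
        (∀ y, th (ch 1 y) z₀ ≠ 0 → ε ≤ ‖th (ch 1 y) z / th (ch 1 y₀) z‖) →
        ∃ γ : Gam g (32 * N), az γ.1 z ∈ C := by
  have hR : 0 < max R 1 := lt_max_of_lt_right one_pos
  obtain ⟨K, hK, hS, H⟩ := proper (Sieg.cusp hz₀) (div_pos hε hR) (N := 32 * N) (by omega)
  have h1 : IsCompact (un '' K) := hK.image (by unfold un; fun_prop)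
  have h2 : un '' K ⊆ HH g := by
    rintro _ ⟨τ, h, rfl⟩
    change Sieg _
    rw [mk_un (hS τ h).1]
    exact hS τ h
  have hc : ∀ y : LL g 1, ContinuousOn (fun z => ‖th (ch 1 y) z‖) (un '' K) := fun y =>
    ((RL_diff (b7_mem y)).continuousOn.mono h2).norm
  refine ⟨⋂ y, {z ∈ un '' K | ‖th (ch 1 y) z‖ ≤ R * ‖th (ch 1 y₀) z‖},
    h1.of_isClosed_subset (isClosed_iInter fun y => h1.isClosed.isClosed_le (hc y)
      (continuousOn_const.mul (hc y₀))) fun z hz => (mem_iInter.1 hz y₀).1, fun z hz => ?_,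
    fun z hz h0 hb hl => ?_⟩
  · have h3 := h2 (mem_iInter.1 hz y₀).1
    obtain ⟨y, hy⟩ := exists_th_ne h3
    exact ⟨h3, fun h => hy (by simpa [h] using (mem_iInter.1 hz y).2)⟩
  have hp := norm_pos_iff.2 h0
  simp only [norm_div, div_le_iff₀ hp, le_div_iff₀ hp] at hb hl
  obtain ⟨γ, a, b, c⟩ := H _ hz fun y hy y' => by
    obtain ⟨u, c, hc, e⟩ := b7_red y
    obtain ⟨u', c', hc', e'⟩ := b7_red y'
    rw [e, e', norm_mul, norm_mul, hc, hc', one_mul, one_mul]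
    refine le_trans ?_ (hl u fun h => hy (by rw [e, h, mul_zero]))
    rw [div_mul_eq_mul_div, div_le_iff₀ hR, mul_assoc, mul_comm _ (max R 1)]
    exact mul_le_mul_of_nonneg_left ((hb u').trans (by gcongr; exact le_max_left _ _)) hε.le
  obtain ⟨δ, hδ⟩ := b7_sp a b
  obtain ⟨j, -, hj⟩ := b7_az δ hz
  refine ⟨δ, mem_iInter.2 fun y => ⟨⟨_, c, (hδ z).symm⟩, ?_⟩⟩
  rw [hj, hj, norm_mul, norm_mul, mul_left_comm]
  exact mul_le_mul_of_nonneg_left (hb y) (norm_nonneg _)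

/-- the theta constants give a context -/
theorem mk_ctx (l N : ℕ) (hN : 0 < N) {z₀ : EE g} (hz₀ : z₀ ∈ HH g) {y₀ : LL g 1} :
    ∃ c : Ctx (Sym2 (Fin g)) (LL g 1) (Gam g (32 * N)),
      c.U = {z ∈ HH g | th (ch 1 y₀) z ≠ 0} ∧ (∀ z y, c.b z y = th (ch 1 y) z / th (ch 1 y₀) z) ∧
      (∀ φ, Fr l (th (ch 1 y₀)) φ → φ ∈ c.K) ∧ (∀ γ, c.a γ = az γ.1) ∧
      ∀ z ∈ c.U, (MvPolynomial.eval (c.b z) c.χ ≠ 0 ↔
        ∀ y, th (ch 1 y) z₀ ≠ 0 → th (ch 1 y) z ≠ 0) := by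
  classical
  obtain ⟨K, hK⟩ := Fr_subalgebra (l := l) (b7_mem y₀) (U := {z ∈ HH g | th (ch 1 y₀) z ≠ 0})
    fun z hz => hz.2
  refine ⟨{
    U := {z ∈ HH g | th (ch 1 y₀) z ≠ 0}
    b := fun z y => th (ch 1 y) z / th (ch 1 y₀) z
    K := K
    a := fun γ => az γ.1
    χ := ∏ y with th (ch 1 y) z₀ ≠ 0, MvPolynomial.X y
    opn := (RL_diff (b7_mem y₀)).continuousOn.isOpen_inter_preimage isOpen_HH isOpen_compl_singleton
    b_mem := fun y => (hK _).2 ⟨_, ⟨0, 1, _, b7_mem y, rfl⟩, fun z _ => by simp⟩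
    diff := fun φ h => ?_
    alg := fun φ h => ?_
    imm := fun z hz => b7_imm hz.1 hz.2
    a_maps := fun γ z hz => ?_
    a_diff := fun γ => (az_diff γ.1).mono fun z hz => hz.1
    a_one := fun z _ => az_one z
    a_mul := fun γ γ' z hz => az_mul γ.1 γ'.1 hz.1
    b_a := fun γ z hz => ?_
    prop := fun R ε hε => ?_ }, rfl, fun _ _ => rfl, fun φ h => (hK _).2 ⟨_, h, fun _ _ => rfl⟩,
    fun _ => rfl, fun z hz => ?_⟩
  · obtain ⟨_, ⟨m, k, F, hF, rfl⟩, e⟩ := (hK _).1 h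
    refine DifferentiableOn.congr ?_ e
    simp only [div_eq_mul_inv]
    exact ((RL_diff hF).mono (sep_subset _ _)).fun_mul
      ((((RL_diff (b7_mem y₀)).mono (sep_subset _ _)).fun_pow k).fun_inv
        fun z hz => pow_ne_zero _ hz.2)
  · choose ψ h e using fun i => (hK _).1 (h i)
    obtain ⟨P, h0, hP⟩ := b7_alg (b7_mem y₀) ψ h
    exact ⟨P, h0, fun z hz => by simpa only [fun i => e i hz] using hP z hz.1 hz.2⟩
  · obtain ⟨j, h0, hj⟩ := b7_az γ hz.1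
    exact ⟨az_mem _ hz.1, by rw [hj]; exact mul_ne_zero h0 hz.2⟩
  · obtain ⟨j, h0, hj⟩ := b7_az γ hz.1
    simp only [hj, mul_div_mul_left _ _ h0]
  · have hR : 1 ≤ max R 1 := le_max_right _ _
    obtain ⟨C, h1, h2, h3⟩ := b7_prop hN hz₀ y₀ R (ε / max R 1 ^ Fintype.card (LL g 1))
      (by positivity)
    refine ⟨C, h1, h2, fun z hz hb hl => h3 z hz.1 hz.2 (fun y => (norm_le_pi_norm _ y).trans hb)
      fun y hy => ?_⟩
    simp only [map_prod, MvPolynomial.eval_X, norm_prod] at hl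
    rw [← Finset.mul_prod_erase _ _ (a := y) (by simpa using hy)] at hl
    rw [div_le_iff₀ (by positivity)]
    refine hl.trans (mul_le_mul_of_nonneg_left ((Finset.prod_le_prod (g := fun _ => max R 1)
      (fun _ _ => norm_nonneg _) fun u _ => ((norm_le_pi_norm _ u).trans hb).trans
        (le_max_left _ _)).trans ?_) (norm_nonneg _))
    rw [Finset.prod_const]
    exact pow_le_pow_right₀ hR (Finset.card_le_univ _)
  · simp [Finset.prod_ne_zero_iff, hz.2]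

end Pool.Agent.MT.G
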