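import Pool.Agent.Lib.MP_d61fbb_ag.MT.UY1
import Pool.Agent.Lib.MP_d61fbb_ag.MT.G6

/-! Stage three: the fixed part on a component. -/

set_option autoImplicit false

noncomputable section

namespace Pool.Agent.MT.G

open Matrix Filter Topology Set Metric

variable {g : ℕ} {L D : Type} [Fintype L] [Fintype D] {G : Subgroup (Sp g ℤ)}
  {c : Ctx (Sym2 (Fin g)) L G} {V : Cov c D} {z w : EE g}

/-- restriction to the line through two points -/
theorem Cov.line2 (hU : c.U ⊆ HH g) (ha : ∀ γ : G, c.a γ = az γ.1) {s : (D → ℂ) → EE g}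
    {x u u' : D → ℂ} {r : ℝ} (hs : V.Sec s (ball x r)) (hu : u ∈ ball x r) (hu' : u' ∈ ball x r)
    (hne : u' ≠ u) : ∃ C : Cov1 G, C.Pt (s u) ∧ C.Conn (s u) (s u') ∧
      ∀ z z', C.Conn z z' → V.Conn z z' := by
  classical
  obtain ⟨i₀, hi⟩ := Function.ne_iff.1 (sub_ne_zero.2 hne)
  set d := u' - u with hd'
  have d0 : 0 < ‖d‖ := norm_pos_iff.2 (sub_ne_zero.2 hne)
  let ln : ℂ → D → ℂ := fun t => u + t • d
  have hd : Differentiable ℂ ln := by fun_prop
  have h0 : ln 0 = u := by simp [ln]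
  have h1 : ln 1 = u' := by simp [ln, hd']
  have hb : ∀ t₀ r, MapsTo ln (ball t₀ (r / ‖d‖)) (ball (ln t₀) r) := fun t₀ r t ht => by
    rw [mem_ball, dist_eq_norm] at ht ⊢
    rwa [show ln t - ln t₀ = (t - t₀) • d by simp [ln, sub_smul], norm_smul, ← lt_div_iff₀ d0]
  have hf := line_fin V.Δ d (V.off hs u hu)
  let C : Cov1 G :=
    { B := hf.toFinset
      t := fun z => (V.t z i₀ - u i₀) / d i₀
      Sec := fun s₁ W₁ => IsOpen W₁ ∧ ∃ s' W', V.Sec s' W' ∧ MapsTo ln W₁ W' ∧ s₁ = fun t => s' (ln t)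
      opn := fun h => h.1
      diff := by
        rintro _ _ ⟨-, s', W', h1, h2, rfl⟩
        exact (V.diff h1).comp hd.differentiableOn h2
      maps := by
        rintro _ _ ⟨-, s', W', h1, h2, rfl⟩ t ht
        exact hU (V.maps h1 (h2 ht))
      proj := by
        rintro _ _ ⟨-, s', W', h1, h2, rfl⟩ t ht
        simp only [V.proj h1 _ (h2 ht)]
        simp only [ln, Pi.add_apply, Pi.smul_apply, smul_eq_mul, add_sub_cancel_left]
        exact mul_div_cancel_right₀ _ hi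
      off := by
        rintro _ _ ⟨-, s', W', h1, h2, rfl⟩ t ht h
        exact V.off h1 _ (h2 ht) (hf.mem_toFinset.1 h)
      mono := by
        rintro _ _ _ ⟨-, s', W', h1, h2, rfl⟩ ho hs
        exact ⟨ho, s', W', h1, h2.mono_left hs, rfl⟩
      act := by
        rintro _ _ γ hγ ⟨ho, s', W', h1, h2, rfl⟩
        exact ⟨ho, _, W', V.act ⟨γ, hγ⟩ h1, h2, by simp only [ha]⟩
      uniq := by
        rintro _ _ _ _ t ⟨-, s', W', h1, h2, rfl⟩ ⟨-, s'', W'', h3, h4, rfl⟩ ht ht' e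
        exact (hd.continuous.tendsto t).eventually (V.uniq h1 h3 (h2 ht) (h4 ht') e)
      triv := fun t₀ ht₀ => by
        obtain ⟨r, hr, n, S, hS, hall⟩ := V.triv (ln t₀) fun h => ht₀ (hf.mem_toFinset.2 h)
        refine ⟨r / ‖d‖, div_pos hr d0, n, fun i t => S i (ln t),
          fun i => ⟨isOpen_ball, _, _, hS i, hb t₀ r, rfl⟩, ?_⟩
        rintro _ _ t ⟨-, s', W', h1, h2, rfl⟩ ht ht'
        obtain ⟨γ, i, e⟩ := hall s' W' _ h1 (h2 ht) (hb t₀ r ht')
        exact ⟨γ.1, γ.2, i, by rw [← ha]; exact e⟩ }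
  have hS : C.Sec (fun t => s (ln t)) (ln ⁻¹' ball x r) :=
    ⟨isOpen_ball.preimage hd.continuous, s, _, hs, fun _ h => h, rfl⟩
  have m0 : (0 : ℂ) ∈ ln ⁻¹' ball x r := by simpa [h0] using hu
  have m1 : (1 : ℂ) ∈ ln ⁻¹' ball x r := by simpa [h1] using hu'
  refine ⟨C, ⟨_, _, 0, hS, m0, by simp only [h0]⟩, ?_, fun z z' h => ?_⟩
  · have := GF.Lf.conn (C := C) (E := id) (τ := fun t => s (ln t)) differentiable_id
      (convex_line (convex_ball x r) u d).isPreconnected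
      (fun w hw => ⟨_, _, hS, hw, EventuallyEq.rfl⟩) m0 m1
    simpa only [h0, h1] using this
  · induction h with
    | refl => exact .refl
    | tail _ h ih =>
      obtain ⟨_, x, r, t, t', ⟨-, s', W', h1, h2, rfl⟩, ht, ht', rfl, rfl⟩ := h
      exact ih.trans (Cov.conn_sec h1 ((convex_ball x r).isPreconnected.image ln
        hd.continuous.continuousOn) h2.image_subset (mem_image_of_mem _ ht) (mem_image_of_mem _ ht'))

theorem Cov.fixed (hU : c.U ⊆ HH g) (ha : ∀ γ : G, c.a γ = az γ.1) (hz : V.Pt z) (κ : Type)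
    [Fintype κ] [DecidableEq κ] {v : (κ → I2 g) → ℝ}
    (hv : ∀ γ : G, V.Conn z (c.a γ z) → tk κ (zm γ.1.1) *ᵥ v = v) (hw : V.Conn z w) :
    dp κ (Jm w) *ᵥ v = dp κ (Jm z) *ᵥ v := by
  induction hw with
  | refl => rfl
  | tail h1 h ih =>
    obtain ⟨s, x, r, u, u', a, b, d, rfl, rfl⟩ := h
    by_cases e : u' = u
    · rwa [e]
    obtain ⟨C, c1, c2, c3⟩ := line2 hU ha a b d e
    exact (dp_of_circle _ _ _ (C.fixed c1 κ v (fun γ hγ => .inl (hv ⟨γ, hγ.1⟩ (Conn.stab h1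
      (Conn.trans h1 (by rw [ha]; exact c3 _ _ hγ.2))))) c2)).trans ih

theorem Cov.exists_ne [Nonempty D] (hU : c.U ⊆ HH g) (hz : V.Pt z) :
    ∃ w, V.Conn z w ∧ Jm w ≠ Jm z := by
  obtain ⟨s, r, r0, a, e⟩ := hz.sec
  have h : V.t z + (fun _ => ((r / 2 : ℝ) : ℂ)) ∈ ball (V.t z) r := by
    rw [mem_ball_iff_norm, add_sub_cancel_left, pi_norm_const, Complex.norm_real,
      Real.norm_of_nonneg (half_pos r0).le]
    exact half_lt_self r0
  have k := conn_sec a (convex_ball _ _).isPreconnected subset_rfl (mem_ball_self r0) h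
  rw [e] at k
  refine ⟨_, k, fun e' => ?_⟩
  have := congrArg V.t (Jm_inj (hU (V.maps a h)) (hU hz.mem.1) e')
  rw [V.proj a _ h, add_eq_left] at this
  exact (half_pos r0).ne' (Complex.ofReal_eq_zero.1 (congrFun this (Classical.arbitrary D)))

end Pool.Agent.MT.G
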