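import Mathlib

/-! Primes that split completely in a number field. -/

set_option autoImplicit false

open Polynomial NumberField

namespace Pool.Agent.MT

/-- A nonconstant polynomial has roots modulo infinitely many primes. -/
theorem schur_root (f : ℤ[X]) (hf : 0 < f.natDegree) {M : ℕ} (hM : M ≠ 0) :
    ∃ l : ℕ, l.Prime ∧ ¬ l ∣ M ∧ ∃ n : ℤ, (l : ℤ) ∣ f.eval n := by
  by_cases ha : f.coeff 0 = 0
  · obtain ⟨l, h1, h2⟩ := Nat.exists_infinite_primes (M + 1)
    exact ⟨l, h2, fun h => by have := Nat.le_of_dvd (Nat.pos_of_ne_zero hM) h; omega, 0, by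
      rw [← coeff_zero_eq_eval_zero, ha]; exact dvd_zero _⟩
  have h0 : ∀ c : ℤ, f - C c ≠ 0 := fun c h => by
    rw [sub_eq_zero.1 h, natDegree_C] at hf; exact lt_irrefl _ hf
  have hinj : Function.Injective fun t : ℤ => f.coeff 0 * M * t :=
    mul_right_injective₀ (mul_ne_zero ha (Nat.cast_ne_zero.2 hM))
  obtain ⟨x, ⟨t, rfl⟩, hx⟩ := (Set.infinite_range_of_injective hinj).exists_notMem_finite
    (finite_setOfPred_isRoot (mul_ne_zero (h0 (f.coeff 0)) (h0 (-f.coeff 0))))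
  set u : ℤ := 1 + M * (t * f.divX.eval (f.coeff 0 * M * t)) with hu
  have e : f.eval (f.coeff 0 * M * t) = f.coeff 0 * u := by
    conv_lhs => rw [← X_mul_divX_add f]
    simp only [eval_add, eval_mul, eval_X, eval_C, coeff_add, mul_coeff_zero, coeff_X_zero,
      coeff_C_zero, zero_mul, zero_add, hu]
    ring
  have h1 : u.natAbs ≠ 1 := fun h => hx (by
    simp only [Set.mem_ofPred_eq, IsRoot, eval_mul, eval_sub, eval_C, e]
    rcases Int.natAbs_eq_iff.1 h with h | h <;> simp [h])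
  obtain ⟨l, hl, hd⟩ := Nat.exists_prime_and_dvd h1
  have hd' : (l : ℤ) ∣ u := Int.natCast_dvd.2 hd
  refine ⟨l, hl, fun h => hl.not_dvd_one ?_, _, by rw [e]; exact hd'.mul_left _⟩
  exact_mod_cast (dvd_add_left ((Int.natCast_dvd_natCast.2 h).mul_right _)).1 hd'

theorem exists_int_mul (q : ℚ[X]) : ∃ (d : ℤ) (Q : ℤ[X]), d ≠ 0 ∧
    Q.map (algebraMap ℤ ℚ) = C (d : ℚ) * q := by
  obtain ⟨d, hd, e⟩ := IsLocalization.integerNormalization_spec (nonZeroDivisors ℤ) q
  exact ⟨d, _, nonZeroDivisors.ne_zero hd, by rw [e]; simp⟩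

/-- A number field embeds in the `l`-adic numbers for infinitely many `l`. -/
theorem padic_emb (L : Type) [Field L] [NumberField L] {M : ℕ} (hM : M ≠ 0) :
    ∃ (l : ℕ) (_ : Fact l.Prime), ¬ l ∣ M ∧ Nonempty (L →ₐ[ℚ] ℚ_[l]) := by
  let pb := Field.powerBasisOfFiniteOfSeparable ℚ L
  obtain ⟨a, b, hab⟩ : (minpoly ℚ pb.gen).Separable := Algebra.IsSeparable.isSeparable ℚ pb.gen
  obtain ⟨d, f, hd, hf⟩ := exists_int_mul (minpoly ℚ pb.gen)
  obtain ⟨da, A, hda, hA⟩ := exists_int_mul a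
  obtain ⟨db, B, hdb, hB⟩ := exists_int_mul b
  have hi : Function.Injective (algebraMap ℤ ℚ) := RingHom.injective_int _
  have e : C db * A * f + C da * B * derivative f = C (da * db * d) := by
    refine map_injective _ hi ?_
    simp only [Polynomial.map_add, Polynomial.map_mul, ← derivative_map, hf, hA, hB,
      eq_intCast, Int.cast_mul, Polynomial.map_intCast, map_intCast,
      derivative_mul, derivative_intCast]
    linear_combination ((da : ℚ[X]) * db * d) * hab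
  have hdeg : 0 < f.natDegree := by
    rw [← natDegree_map_eq_of_injective hi, hf, natDegree_C_mul (Int.cast_ne_zero.2 hd)]
    exact minpoly.natDegree_pos pb.isIntegral_gen
  obtain ⟨l, hl, h1, n, h2⟩ := schur_root f hdeg (M := M * (da * db * d).natAbs)
    (mul_ne_zero hM (by simp [hd, hda, hdb]))
  have := Fact.mk hl
  have h3 : ¬ (l : ℤ) ∣ (derivative f).eval n := fun h => h1 (Dvd.dvd.mul_left (by
    have := congrArg (eval n) e
    simp only [eval_add, eval_mul, eval_C] at this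
    rw [← Int.natCast_dvd, ← this]
    exact dvd_add (h2.mul_left _) (h.mul_left _)) _)
  have hc : ∀ g : ℤ[X], aeval (n : ℤ_[l]) g = ((g.eval n : ℤ) : ℤ_[l]) := fun g => by
    simpa using aeval_algebraMap_apply_eq_algebraMap_eval (A := ℤ_[l]) n g
  obtain ⟨z, hz, -⟩ := hensels_lemma (p := l) (F := f) (a := (n : ℤ_[l])) (by
    rw [hc, hc, le_antisymm (PadicInt.norm_le_one _)
      (not_lt.1 (mt (PadicInt.norm_int_lt_one_iff_dvd _).1 h3)), one_pow]
    exact (PadicInt.norm_int_lt_one_iff_dvd _).2 h2)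
  refine ⟨l, inferInstance, fun h => h1 (h.mul_right _), ⟨pb.lift (z : ℚ_[l]) ?_⟩⟩
  have h4 : aeval (z : ℚ_[l]) (f.map (algebraMap ℤ ℚ)) = 0 := by
    rw [aeval_map_algebraMap]
    exact (aeval_algebraMap_apply ℚ_[l] z f).trans (by rw [hz, map_zero])
  rw [hf, map_mul, aeval_C, mul_eq_zero] at h4
  exact h4.resolve_left (by simpa using hd)

theorem padic_norm_le_of_int {l : ℕ} [Fact l.Prime] {x : ℚ_[l]} (h : IsIntegral ℤ x) :
    ‖x‖ ≤ 1 := by
  obtain ⟨y, rfl⟩ := (IsIntegrallyClosed.isIntegral_iff (R := ℤ_[l])).1 h.tower_top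
  exact y.2

/-- A prime that splits completely, with an element whose conjugates are distinct modulo it. -/
theorem split_prime (E : Type) [Field E] [NumberField E] {M : ℕ} (hM : M ≠ 0) :
    ∃ (l : ℕ) (_ : Fact l.Prime), ¬ l ∣ M ∧
      ∃ (θ : 𝓞 E) (φ : (E →ₐ[ℚ] ℂ) → 𝓞 E →+* ℤ_[l]),
        (∀ a, ((Algebra.norm ℤ a : ℤ) : ℤ_[l]) = ∏ s, φ s a) ∧
        ∀ s s', s ≠ s' → IsUnit (φ s θ - φ s' θ) := by
  classical
  let pb := Field.powerBasisOfFiniteOfSeparable ℚ E
  obtain ⟨d, hd, hθ⟩ := ((IsFractionRing.isAlgebraic_iff ℤ ℚ E).2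
    pb.isIntegral_gen.isAlgebraic).exists_integral_multiple
  let θ : 𝓞 E := ⟨_, hθ⟩
  let L := IntermediateField.normalClosure ℚ E ℂ
  have : NumberField L := ⟨⟩
  let τ : (E →ₐ[ℚ] ℂ) → E →ₐ[ℚ] L := fun s => s.codRestrict L.toSubalgebra fun x =>
    AlgHom.fieldRange_le_normalClosure s ⟨x, rfl⟩
  let τ' : (E →ₐ[ℚ] ℂ) → 𝓞 E →+* 𝓞 L := fun s => RingOfIntegers.mapRingHom (τ s)
  have h1 : ∀ s : (E →ₐ[ℚ] ℂ) × (E →ₐ[ℚ] ℂ), ∃ N : ℤ, N ≠ 0 ∧
      (s.1 ≠ s.2 → τ' s.1 θ - τ' s.2 θ ∣ N) := fun s => by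
    by_cases h : s.1 = s.2
    · exact ⟨1, one_ne_zero, fun h' => absurd h h'⟩
    obtain ⟨N, h2, h3⟩ := (Algebra.IsAlgebraic.isAlgebraic (R := ℤ)
      (τ' s.1 θ - τ' s.2 θ)).exists_nonzero_dvd (mem_nonZeroDivisors_of_ne_zero fun e => h (by
        have e1 : s.1 (d • pb.gen) = s.2 (d • pb.gen) :=
          congrArg (fun x : 𝓞 L => ((x : L) : ℂ)) (sub_eq_zero.1 e)
        rw [map_zsmul, map_zsmul] at e1
        exact pb.algHom_ext (smul_right_injective ℂ hd e1)))
    exact ⟨N, h2, fun _ => by simpa using h3⟩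
  choose N hN hN' using h1
  obtain ⟨l, _, hl, ⟨ψ⟩⟩ := padic_emb L (M := M * ∏ s, (N s).natAbs)
    (mul_ne_zero hM (Finset.prod_ne_zero_iff.2 fun s _ => by simp [hN s]))
  let ψ' : 𝓞 L →+* ℤ_[l] := ((ψ : L →+* ℚ_[l]).comp (algebraMap (𝓞 L) L)).codRestrict
    (PadicInt.subring l) fun x => padic_norm_le_of_int (x.isIntegral_coe.map ψ.toRingHom.toIntAlgHom)
  refine ⟨l, inferInstance, fun h => hl (h.mul_right _), θ, fun s => ψ'.comp (τ' s),
    fun a => ?_, fun s s' h => ?_⟩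
  · have e : ((Algebra.norm ℤ a : ℤ) : 𝓞 L) = ∏ s, τ' s a := by
      refine RingOfIntegers.coe_injective (L.val.injective ?_)
      have := Algebra.norm_eq_prod_embeddings ℚ ℂ (a : E)
      rw [← Algebra.coe_norm_int] at this
      simp only [map_intCast, map_prod] at this ⊢
      exact this
    simpa using congrArg ψ' e
  · have h2 := map_dvd ψ' (hN' (s, s') h)
    rw [map_sub, map_intCast] at h2
    refine isUnit_of_dvd_unit h2 (PadicInt.isUnit_iff.2 (le_antisymm (PadicInt.norm_le_one _)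
      (not_lt.1 fun h3 => hl (Dvd.dvd.mul_left ?_ _))))
    exact (Int.natCast_dvd.1 ((PadicInt.norm_int_lt_one_iff_dvd _).1 h3)).trans
      (Finset.dvd_prod_of_mem _ (Finset.mem_univ (s, s')))

end Pool.Agent.MT
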