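import Pool.Agent.Lib.MP_0d42ed_ag.WT.A1

/-! The theta series with characteristics. -/

noncomputable section

namespace Pool.Agent.MT

open Matrix Complex

variable {g : ℕ} {τ : Matrix (Fin g) (Fin g) ℂ} {ι : Type}

/-- the exponential `e(x) = exp (2 π i x)` -/
def ee (x : ℂ) : ℂ := exp (2 * Real.pi * I * x)

/-- integral vectors -/
abbrev zc (n : ι → ℤ) : ι → ℂ := fun i => n i

/-- real vectors -/
abbrev rc (y : ι → ℝ) : ι → ℂ := fun i => y i

/-- rational vectors -/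
abbrev qc (y : ι → ℚ) : ι → ℂ := fun i => y i

/-- the Siegel upper half space -/
structure Sieg (τ : Matrix (Fin g) (Fin g) ℂ) : Prop where
  symm : τᵀ = τ
  pos : ∀ y : Fin g → ℝ, y ≠ 0 → 0 < (rc y ⬝ᵥ τ *ᵥ rc y).im

/-- the terms of the theta series -/
def tm (τ : Matrix (Fin g) (Fin g) ℂ) (a w : Fin g → ℂ) (n : Fin g → ℤ) : ℂ :=
  ee ((zc n + a) ⬝ᵥ τ *ᵥ (zc n + a) / 2 + (zc n + a) ⬝ᵥ w)

/-- the theta series -/
def T (τ : Matrix (Fin g) (Fin g) ℂ) (a w : Fin g → ℂ) : ℂ := ∑' n, tm τ a w n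

lemma ee_add (x y : ℂ) : ee (x + y) = ee x * ee y := by rw [ee, mul_add, exp_add, ee, ee]

@[simp] lemma ee_zero : ee 0 = 1 := by simp [ee]

lemma ee_ne (x : ℂ) : ee x ≠ 0 := exp_ne_zero _

@[simp] lemma ee_int (k : ℤ) : ee k = 1 := by
  rw [ee, mul_comm]; exact exp_int_mul_two_pi_mul_I k

lemma ee_congr {x y : ℂ} (k : ℤ) (h : x = y + k) : ee x = ee y := by rw [h, ee_add, ee_int, mul_one]

lemma ee_neg_mul (x : ℂ) : ee (-x) * ee x = 1 := by rw [← ee_add, neg_add_cancel, ee_zero]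

lemma ee_half : ee (1 / 2) = -1 := by
  rw [ee, ← exp_pi_mul_I]; congr 1; ring

@[fun_prop] lemma ee_diff : Differentiable ℂ ee := by unfold ee; fun_prop

lemma zc_dot [Fintype ι] (m n : ι → ℤ) : zc m ⬝ᵥ zc n = (m ⬝ᵥ n : ℤ) := by simp [dotProduct]

lemma zc_add (m n : ι → ℤ) : zc (m + n) = zc m + zc n := by funext i; simp [zc]

lemma zc_neg (m : ι → ℤ) : zc (-m) = -zc m := by funext i; simp [zc]

lemma zc_sub (m n : ι → ℤ) : zc (m - n) = zc m - zc n := by funext i; simp [zc]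

@[simp] lemma zc_zero : zc (0 : ι → ℤ) = 0 := by funext i; simp

lemma dot_symm (h : τᵀ = τ) (u v : Fin g → ℂ) : u ⬝ᵥ τ *ᵥ v = v ⬝ᵥ τ *ᵥ u := by
  rw [dotProduct_mulVec, ← mulVec_transpose, h, dotProduct_comm]

lemma tm_shift (h : τᵀ = τ) (a c w : Fin g → ℂ) (n : Fin g → ℤ) :
    tm τ (a + c) w n = ee (c ⬝ᵥ τ *ᵥ c / 2 + c ⬝ᵥ w) * tm τ a (w + τ *ᵥ c) n := by
  rw [tm, tm, ← ee_add, ← add_assoc (zc n)]
  generalize zc n + a = u
  simp only [mulVec_add, add_dotProduct, dotProduct_add, dot_symm h c u]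
  congr 1; ring

lemma T_shift (h : τᵀ = τ) (a c w : Fin g → ℂ) :
    T τ (a + c) w = ee (c ⬝ᵥ τ *ᵥ c / 2 + c ⬝ᵥ w) * T τ a (w + τ *ᵥ c) := by
  simp only [T, tm_shift h, tsum_mul_left]

lemma T_int_left (a w : Fin g → ℂ) (m : Fin g → ℤ) : T τ (a + zc m) w = T τ a w := by
  rw [T, T, ← (Equiv.addRight m).tsum_eq (tm τ a w)]
  simp only [tm, Equiv.coe_addRight, zc_add, add_assoc, add_comm a]

lemma T_int_right (a w : Fin g → ℂ) (m : Fin g → ℤ) :
    T τ a (w + zc m) = ee (a ⬝ᵥ zc m) * T τ a w := by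
  rw [T, T, ← tsum_mul_left]
  refine tsum_congr fun n => ?_
  rw [tm, tm, ← ee_add]
  refine ee_congr (n ⬝ᵥ m) ?_
  simp only [dotProduct_add, add_dotProduct, zc_dot]; ring

lemma T_neg (a w : Fin g → ℂ) : T τ (-a) (-w) = T τ a w := by
  rw [T, T, ← (Equiv.neg _).tsum_eq (tm τ a w)]
  refine tsum_congr fun n => ?_
  rw [tm, tm, Equiv.neg_apply, zc_neg, show -zc n + a = -(zc n + -a) by abel]
  simp only [mulVec_neg, neg_dotProduct, dotProduct_neg, neg_neg]

lemma tm_zero (w : Fin g → ℂ) (l : Fin g → ℤ) : tm τ 0 w l = exp (-Real.pi *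
    (∑ i, ∑ j, (-I * τ i j) * l i * l j) - 2 * Real.pi * ∑ i, (-I * w i) * l i) := by
  rw [tm, ee, add_zero]
  congr 1
  simp only [dotProduct, mulVec, Finset.mul_sum, mul_add, Finset.sum_div, sub_eq_add_neg,
    ← Finset.sum_neg_distrib]
  congr 1
  · exact Finset.sum_congr rfl fun i _ => Finset.sum_congr rfl fun j _ => by ring
  · exact Finset.sum_congr rfl fun i _ => by ring

lemma Sieg.posRe (h : Sieg τ) : WT.PosRe fun i j => -I * τ i j := fun y hy => by
  refine (h.pos y hy).trans_eq ?_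
  simp only [dotProduct, mulVec, Finset.mul_sum, im_sum, re_sum]
  exact Finset.sum_congr rfl fun i _ => Finset.sum_congr rfl fun j _ => by simp; ring

lemma Sieg.summable (h : Sieg τ) (a w : Fin g → ℂ) : Summable fun n => ‖tm τ a w n‖ := by
  rw [← zero_add a]
  simp only [tm_shift h.symm, norm_mul, tm_zero]
  exact (WT.th_summable h.posRe _).mul_left _

lemma T_eq (h : τᵀ = τ) (a w : Fin g → ℂ) : T τ a w = ee (a ⬝ᵥ τ *ᵥ a / 2 + a ⬝ᵥ w) *
    WT.th (fun i j => -I * τ i j) fun i => -I * (w + τ *ᵥ a) i := by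
  conv_lhs => rw [← zero_add a, T_shift h]
  simp only [T, tm_zero, WT.th]

/-- joint holomorphy -/
theorem T_diffAt {X : Type} [NormedAddCommGroup X] [NormedSpace ℂ X]
    {t : X → Fin g → Fin g → ℂ} {a w : X → Fin g → ℂ} {x : X} (h : Sieg (of (t x)))
    (hs : ∀ y, (of (t y))ᵀ = of (t y)) (ht : DifferentiableAt ℂ t x) (ha : DifferentiableAt ℂ a x)
    (hw : DifferentiableAt ℂ w x) : DifferentiableAt ℂ (fun y => T (of (t y)) (a y) (w y)) x := by
  simp only [T_eq (hs _)]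
  refine DifferentiableAt.mul (ee_diff.differentiableAt.comp x ?_) ?_
  · simp only [dotProduct, mulVec, of_apply]; fun_prop
  · have h1 : DifferentiableAt ℂ (fun y => ((fun i j => -I * t y i j,
        fun i => -I * (w y + of (t y) *ᵥ a y) i) : (Fin g → Fin g → ℂ) × (Fin g → ℂ))) x := by
      simp only [dotProduct, mulVec, of_apply, Pi.add_apply]; fun_prop
    have h3 : IsOpen {p : (Fin g → Fin g → ℂ) × (Fin g → ℂ) | WT.PosRe p.1} :=
      WT.isOpen_posRe.preimage continuous_fst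
    have h2 := WT.th_diff.differentiableAt (h3.mem_nhds
      (x := (fun i j => -I * t x i j, fun i => -I * (w x + of (t x) *ᵥ a x) i)) h.posRe)
    exact h2.comp x h1

theorem Sieg.diff (h : Sieg τ) {X : Type} [NormedAddCommGroup X] [NormedSpace ℂ X]
    {a w : X → Fin g → ℂ} (ha : Differentiable ℂ a) (hw : Differentiable ℂ w) :
    Differentiable ℂ fun y => T τ (a y) (w y) := fun x =>
  T_diffAt (t := fun _ => τ) h (fun _ => h.symm) (differentiableAt_const _) (ha x) (hw x)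

lemma Sieg.smul (h : Sieg τ) {c : ℝ} (hc : 0 < c) : Sieg ((c : ℂ) • τ) :=
  ⟨by rw [transpose_smul, h.symm], fun y hy => by
    rw [smul_mulVec, dotProduct_smul, smul_eq_mul, im_ofReal_mul]
    exact mul_pos hc (h.pos y hy)⟩

end Pool.Agent.MT
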