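import Pool.Agent.Lib.MP_d61fbb_ag.MT.A1

/-! The product formula and the relation of Riemann. -/

noncomputable section

namespace Pool.Agent.MT

open Matrix Complex

variable {g : ℕ} {τ : Matrix (Fin g) (Fin g) ℂ} {ι : Type}

/-- representatives `0, 1` of classes modulo two -/
def vz (ε : ι → ZMod 2) : ι → ℤ := fun i => (ε i).val

/-- the half periods `0, 1/2` -/
def hv (ε : ι → ZMod 2) : ι → ℂ := (1 / 2 : ℂ) • zc (vz ε)

lemma vz_add (ε δ : ι → ZMod 2) : ∃ m : ι → ℤ, vz ε + vz δ = vz (ε + δ) + 2 • m := by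
  have : ∀ x y : ZMod 2, ∃ k : ℤ, (x.val : ℤ) + y.val = (x + y).val + 2 • k := fun x y =>
    ⟨x.val * y.val, by revert x y; decide⟩
  choose k hk using this
  exact ⟨fun i => k (ε i) (δ i), funext fun i => hk _ _⟩

lemma hv_add (ε δ : ι → ZMod 2) : ∃ m : ι → ℤ, hv ε + hv δ = hv (ε + δ) + zc m := by
  obtain ⟨m, h⟩ := vz_add ε δ
  refine ⟨m, ?_⟩
  rw [hv, hv, hv, ← smul_add, ← zc_add, h, zc_add, two_smul, zc_add]
  module

lemma pair_bij : Function.Bijective fun x : (Fin g → ZMod 2) × (Fin g → ℤ) × (Fin g → ℤ) =>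
    (x.2.1 + x.2.2 + vz x.1, x.2.1 - x.2.2) := by
  constructor
  · rintro ⟨ε, p, q⟩ ⟨δ, r, s⟩ h
    have : ∀ i, ε i = δ i ∧ p i = r i ∧ q i = s i := fun i => by
      have h1 : p i + q i + (ε i).val = r i + s i + (δ i).val := congrFun (congrArg Prod.fst h) i
      have h2 : p i - q i = r i - s i := congrFun (congrArg Prod.snd h) i
      have := (ε i).val_lt
      have := (δ i).val_lt
      exact ⟨ZMod.val_injective 2 (by omega), by omega, by omega⟩
    exact Prod.ext (funext fun i => (this i).1)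
      (Prod.ext (funext fun i => (this i).2.1) (funext fun i => (this i).2.2))
  · rintro ⟨n, m⟩
    refine ⟨(fun i => (n i + m i : ℤ), fun i => (n i + m i) / 2, fun i => (n i + m i) / 2 - m i),
      Prod.ext (funext fun i => ?_) (funext fun i => by simp)⟩
    simp only [vz, Pi.add_apply, ZMod.val_intCast]
    omega

theorem Sieg.prod (h : Sieg τ) (a b w z : Fin g → ℂ) : T τ a w * T τ b z =
    ∑ ε, T ((2 : ℂ) • τ) ((1 / 2 : ℂ) • (a + b) + hv ε) (w + z) *
      T ((2 : ℂ) • τ) ((1 / 2 : ℂ) • (a - b) + hv ε) (w - z) := by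
  have h2 : Sieg ((2 : ℂ) • τ) := by simpa using h.smul two_pos
  have hs := (summable_mul_of_summable_norm (h.summable a w) (h.summable b z))
  rw [T, T, tsum_mul_tsum_of_summable_norm (h.summable a w) (h.summable b z),
    ← (Equiv.ofBijective _ pair_bij).tsum_eq]
  refine ((Equiv.ofBijective _ pair_bij).summable_iff.2 hs).tsum_prod.trans ?_
  rw [tsum_fintype]
  refine Finset.sum_congr rfl fun ε _ => ?_
  rw [T, T, tsum_mul_tsum_of_summable_norm (h2.summable _ _) (h2.summable _ _)]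
  refine tsum_congr fun ⟨p, q⟩ => ?_
  simp only [Equiv.ofBijective_apply, tm, ← ee_add, zc_add, zc_sub, hv, Function.comp_apply]
  generalize zc p = p, zc q = q, zc (vz ε) = e
  have e1 : p + q + e + a = (p + ((1 / 2 : ℂ) • (a + b) + (1 / 2 : ℂ) • e)) +
    (q + ((1 / 2 : ℂ) • (a - b) + (1 / 2 : ℂ) • e)) := by module
  have e2 : p - q + b = (p + ((1 / 2 : ℂ) • (a + b) + (1 / 2 : ℂ) • e)) -
    (q + ((1 / 2 : ℂ) • (a - b) + (1 / 2 : ℂ) • e)) := by module
  rw [e1, e2]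
  generalize p + _ = u, q + _ = v
  simp only [mulVec_add, mulVec_sub, add_dotProduct, sub_dotProduct, dotProduct_add, dotProduct_sub,
    smul_mulVec, dotProduct_smul, smul_eq_mul]
  congr 1; ring

lemma sum_sign (ε : Fin g → ZMod 2) :
    ∑ κ, ee (hv ε ⬝ᵥ zc (vz κ)) = if ε = 0 then 2 ^ g else 0 := by
  split_ifs with h
  · have : hv (0 : Fin g → ZMod 2) = 0 := by funext i; simp [hv, vz, zc]
    simp [h, this]
  obtain ⟨i, hi⟩ := Function.ne_iff.1 h
  have h1 : ε i = 1 := (by decide : ∀ x : ZMod 2, x ≠ 0 → x = 1) _ hi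
  have h2 : ∑ κ, ee (hv ε ⬝ᵥ zc (vz κ)) = -∑ κ, ee (hv ε ⬝ᵥ zc (vz κ)) := by
    conv_lhs => rw [← Equiv.sum_comp (Equiv.addRight (Pi.single i 1))]
    rw [← Finset.sum_neg_distrib]
    refine Finset.sum_congr rfl fun κ _ => ?_
    obtain ⟨m, hm⟩ := vz_add κ (Pi.single i 1)
    have h3 : vz (Pi.single i 1) = Pi.single i 1 := by
      funext j; by_cases h : j = i <;> simp [vz, h, ZMod.val_one]
    rw [← mul_neg_one, ← ee_half, ← ee_add, Equiv.coe_addRight, eq_sub_of_add_eq hm.symm, h3]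
    refine ee_congr (-(vz ε ⬝ᵥ m)) ?_
    have h4 : zc (vz ε) ⬝ᵥ zc (Pi.single i 1) = 1 := by simp [zc_dot, vz, h1, ZMod.val_one]
    simp only [hv, two_smul, zc_sub, zc_add, smul_dotProduct, dotProduct_sub, dotProduct_add, h4,
      smul_eq_mul, Int.cast_neg, ← zc_dot]
    ring
  linear_combination h2 / 2

/-- the relation of Riemann -/
theorem Sieg.riemann (h : Sieg τ) (a b c d w x y z : Fin g → ℂ) :
    2 ^ g * (T τ a w * T τ b x * T τ c y * T τ d z) = ∑ ε, ∑ κ, ee (-(a ⬝ᵥ zc (vz κ))) *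
      (T τ ((1 / 2 : ℂ) • (a + b + c + d) + hv ε) ((1 / 2 : ℂ) • (w + x + y + z) + hv κ) *
      T τ ((1 / 2 : ℂ) • (a + b - c - d) + hv ε) ((1 / 2 : ℂ) • (w + x - y - z) + hv κ) *
      T τ ((1 / 2 : ℂ) • (a - b + c - d) + hv ε) ((1 / 2 : ℂ) • (w - x + y - z) + hv κ) *
      T τ ((1 / 2 : ℂ) • (a - b - c + d) + hv ε) ((1 / 2 : ℂ) • (w - x - y + z) + hv κ)) := by
  let S := fun (a w : Fin g → ℂ) (ε : Fin g → ZMod 2) => T ((2 : ℂ) • τ) ((1 / 2 : ℂ) • a + hv ε) w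
  have k : ∀ (ε κ : Fin g → ZMod 2) (a c w y : Fin g → ℂ),
      T τ ((1 / 2 : ℂ) • (a + c) + hv ε) ((1 / 2 : ℂ) • (w + y) + hv κ) *
      T τ ((1 / 2 : ℂ) • (a - c) + hv ε) ((1 / 2 : ℂ) • (w - y) + hv κ) =
      ∑ δ, ee (((1 / 2 : ℂ) • a + hv (ε + δ)) ⬝ᵥ zc (vz κ)) * (S a w (ε + δ) * S c y δ) := by
    intro ε κ a c w y
    rw [h.prod]
    refine Finset.sum_congr rfl fun δ _ => ?_
    obtain ⟨m, hm⟩ := hv_add ε δ
    rw [← mul_assoc, ← T_int_right, ← T_int_left (_ + hv (ε + δ)) _ m, add_assoc _ _ (zc m), ← hm]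
    congr 2 <;> simp only [hv] <;> module
  have k2 : ∀ ε κ δ δ' : Fin g → ZMod 2, ee (-(a ⬝ᵥ zc (vz κ))) *
      ee (((1 / 2 : ℂ) • (a + b) + hv (ε + δ)) ⬝ᵥ zc (vz κ)) *
      ee (((1 / 2 : ℂ) • (a - b) + hv (ε + δ')) ⬝ᵥ zc (vz κ)) = ee (hv (δ' - δ) ⬝ᵥ zc (vz κ)) := by
    intro ε κ δ δ'
    obtain ⟨m, hm⟩ := hv_add (ε + δ) (ε + δ')
    rw [show ε + δ + (ε + δ') = δ' - δ by
      funext i; simp only [Pi.add_apply, Pi.sub_apply]
      generalize ε i = r, δ i = s, δ' i = t; revert r s t; decide] at hm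
    rw [← ee_add, ← ee_add]
    refine ee_congr (m ⬝ᵥ vz κ) ?_
    rw [← zc_dot, ← add_dotProduct, ← hm]
    simp only [add_dotProduct, smul_dotProduct, sub_dotProduct, smul_eq_mul]
    ring
  have k3 : ∀ p q r s : ℂ, p * q * r * s = p * q * (r * s) := fun _ _ _ _ => mul_assoc _ _ _
  simp only [k3, add_assoc (a + b), add_assoc (w + x),
    sub_sub (a + b), sub_sub (w + x), add_sub_assoc (a - b), add_sub_assoc (w - x),
    sub_add _ _ d, sub_add _ _ z]
  simp only [k]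
  rw [h.prod, h.prod, Finset.sum_mul_sum, Finset.sum_comm, Finset.mul_sum]
  symm
  calc _ = ∑ ε, ∑ δ, ∑ δ', (∑ κ, ee (hv (δ' - δ) ⬝ᵥ zc (vz κ))) * (S (a + b) (w + x) (ε + δ) *
        S (c + d) (y + z) δ * (S (a - b) (w - x) (ε + δ') * S (c - d) (y - z) δ')) := by
        refine Finset.sum_congr rfl fun ε _ => ?_
        simp only [Finset.sum_mul_sum]
        simp only [Finset.mul_sum, Finset.sum_mul]
        rw [Finset.sum_comm]
        refine Finset.sum_congr rfl fun δ _ => ?_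
        rw [Finset.sum_comm]
        exact Finset.sum_congr rfl fun δ' _ => Finset.sum_congr rfl fun κ _ => by
          rw [← k2 ε]; ring
    _ = _ := by
        simp only [sum_sign, sub_eq_zero, ite_mul, zero_mul, Finset.sum_ite_eq', Finset.mem_univ,
          if_true]
        rw [Finset.sum_comm]
        refine Finset.sum_congr rfl fun δ _ => ?_
        rw [Finset.mul_sum, eq_comm, ← Equiv.sum_comp (Equiv.addRight δ)]
        exact Finset.sum_congr rfl fun ε _ => by simp only [S, Equiv.coe_addRight]; ring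

end Pool.Agent.MT
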