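import Pool.Agent.Lib.MP_d61fbb_ag.MT.A4
import Pool.Agent.Lib.MP_0d42ed_ag.WT.D2

/-! Bounds for the values of the theta function at rational points, at every place. -/

noncomputable section

namespace Pool.Agent.MT

open Matrix Complex NumberField

variable {g : ℕ} {τ : Matrix (Fin g) (Fin g) ℂ}

lemma ee_nat_mul (n : ℕ) (x : ℂ) : ee (n * x) = ee x ^ n := by
  rw [ee, ee, ← exp_nat_mul]; congr 1; ring

lemma ee_rat_pow (q : ℚ) : ee q ^ q.den = 1 := by
  rw [← ee_nat_mul, ← ee_int q.num]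
  congr 1
  exact_mod_cast Rat.den_mul_eq_num q

lemma map_ee_rat {Γ : Type*} [LinearOrderedCommGroupWithZero Γ] (N : ℂ →*₀ Γ) (q : ℚ) :
    N (ee q) = 1 := by
  have := congrArg N (ee_rat_pow q)
  rw [map_pow, map_one] at this
  exact (pow_eq_one_iff_of_nonneg zero_le q.den_nz).1 this

lemma Ef_qc (x y : I2 g → ℚ) : Ef (qc x) (qc y) = (Ef x y : ℚ) :=
  (Ef_map x y (Rat.castHom ℂ)).symm

lemma Qf_qc (x : I2 g → ℚ) : Qf (qc x) = (Qf x : ℚ) := (Qf_map x (Rat.castHom ℂ)).symm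

/-- the half periods as rational vectors -/
def hq {ι : Type} (ε : ι → ZMod 2) : ι → ℚ := fun i => ((ε i).val : ℚ) / 2

lemma qc_hq {ι : Type} (ε : ι → ZMod 2) : qc (hq ε) = hv ε := by
  funext i
  simp only [hq, hv, vz, qc, zc, Pi.smul_apply, smul_eq_mul, Int.cast_natCast, Rat.cast_div,
    Rat.cast_natCast, Rat.cast_ofNat]
  ring

section
variable {Γ : Type*} [LinearOrderedCommGroupWithZero Γ] (N : ℂ →*₀ Γ)

lemma map_Th_int (x : I2 g → ℚ) (m : I2 g → ℤ) :
    N (Th τ (qc (x + fun i => (m i : ℚ)))) = N (Th τ (qc x)) := by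
  have e1 : qc (x + fun i => (m i : ℚ)) = qc x + zc m := by funext i; simp [qc, zc]
  have e2 : zc m = qc fun i => (m i : ℚ) := by funext i; simp [qc, zc]
  rw [e1, Th_int, e2, Ef_qc, Qf_qc, map_mul, map_mul]
  have a := map_ee_rat N (Qf (fun i => (m i : ℚ)) / 2)
  have b := map_ee_rat N (Ef x (fun i => (m i : ℚ)) / 2)
  push_cast at a b
  rw [a, b, one_mul, one_mul]

/-- the bound that follows from the relation of Riemann -/
theorem Sieg.place_bound (h : Sieg τ) (s : ℂ) (C c : Γ)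
    (hsum : ∀ (a : (I2 g → ZMod 2) → ℂ) (B : Γ), (∀ η, N (a η) ≤ B) → N (∑ η, a η) ≤ C * B)
    (hc : ∀ η, N (s * Th τ (hv η)) ≤ c) (x : I2 g → ℚ) :
    N (2 ^ g) * N (s * Th τ (qc x)) ^ 3 ≤ C * c ^ 3 := by
  obtain ⟨M, hM, k, hk⟩ : ∃ M : ℕ, 0 < M ∧ ∃ k : I2 g → ℤ, x = fun i => (k i : ℚ) / (2 * M) := by
    refine ⟨∏ i, (x i).den, Finset.prod_pos fun i _ => Rat.pos _, ?_⟩
    choose c hc using fun i => Finset.dvd_prod_of_mem (fun i => (x i).den) (Finset.mem_univ i)
    refine ⟨fun i => 2 * (x i).num * c i, funext fun i => ?_⟩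
    have h0 : (c i : ℚ) ≠ 0 := by
      have : 0 < (x i).den * c i := hc i ▸ Finset.prod_pos fun i _ => Rat.pos _
      exact_mod_cast (Nat.pos_of_mul_pos_left this).ne'
    have h1 : ((x i).den : ℚ) ≠ 0 := by exact_mod_cast (x i).den_nz
    rw [hc i]
    push_cast
    conv_lhs => rw [← Rat.num_div_den (x i)]
    field_simp
  let f : (I2 g → ℤ) → Γ := fun k => N (s * Th τ (qc fun i => (k i : ℚ) / (2 * M)))
  have hM' : (M : ℚ) ≠ 0 := by exact_mod_cast hM.ne'
  have : Nonempty (Fin (2 * M)) := ⟨⟨0, by omega⟩⟩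
  obtain ⟨k0, hk0⟩ := Finite.exists_max fun k : I2 g → Fin (2 * M) => f fun i => (k i : ℕ)
  set z : I2 g → ℤ := fun i => (k0 i : ℕ) with hz
  have hmax : ∀ k, f k ≤ f z := fun k => by
    have hp : (0 : ℤ) < (2 * M : ℕ) := by exact_mod_cast (by omega : 0 < 2 * M)
    refine le_trans (le_of_eq ?_) (hk0 fun i => ⟨(k i % (2 * M : ℕ)).toNat, by
      have := Int.emod_lt_of_pos (k i) hp
      have := Int.emod_nonneg (k i) hp.ne'
      omega⟩)
    simp only [f, map_mul]
    rw [← map_Th_int N _ fun i => -(k i / (2 * M : ℕ))]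
    congr 4
    funext i
    have e : (k i : ℚ) = (k i % (2 * M : ℕ) : ℤ) + (2 * M) * (k i / (2 * M : ℕ) : ℤ) := by
      exact_mod_cast (Int.emod_add_mul_ediv (k i) (2 * M : ℕ)).symm
    rw [Int.toNat_of_nonneg (Int.emod_nonneg _ hp.ne'), Pi.add_apply]
    generalize (k i % (2 * M : ℕ) : ℤ) = r at e ⊢
    generalize (k i / (2 * M : ℕ) : ℤ) = t at e ⊢
    rw [e]; push_cast; field_simp; ring
  set y : I2 g → ℚ := fun i => (z i : ℚ) / (2 * M) with hy
  have R := h.riemann' (qc y) (qc y) (qc y) (qc y)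
  have e1 : ∀ η, (1 / 2 : ℂ) • (qc y + qc y + qc y + qc y) + hv η =
      qc fun i => ((2 * z i + M * vz η i : ℤ) : ℚ) / (2 * M) := fun η => by
    have : (M : ℂ) ≠ 0 := by exact_mod_cast hM.ne'
    funext i; simp [qc, hy, hv, zc]; field_simp; ring
  have e2 : qc y + qc y - qc y - qc y = 0 := by abel
  have e3 : qc y - qc y + qc y - qc y = 0 := by abel
  have e4 : qc y - qc y - qc y + qc y = 0 := by abel
  simp only [e1, e2, e3, e4, smul_zero, zero_add] at R
  have R2 : 2 ^ g * (s * Th τ (qc y)) ^ 4 = ∑ η, ee (2 * Qf (hv η)) * ee (Ef (hv η) (qc y)) *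
      (s * Th τ (qc fun i => ((2 * z i + M * vz η i : ℤ) : ℚ) / (2 * M)) *
        (s * Th τ (hv η)) ^ 3) := by
    have := congrArg (s ^ 4 * ·) R
    simp only [Finset.mul_sum] at this
    refine Eq.trans (by ring) (this.trans (Finset.sum_congr rfl fun η _ => by ring))
  have key := hsum _ (f z * c ^ 3) fun η => show N (ee (2 * Qf (hv η)) * ee (Ef (hv η) (qc y)) *
      (s * Th τ (qc fun i => ((2 * z i + M * vz η i : ℤ) : ℚ) / (2 * M)) *
        (s * Th τ (hv η)) ^ 3)) ≤ _ by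
    have a := map_ee_rat N (2 * Qf (hq η))
    push_cast at a
    rw [map_mul, map_mul, map_mul N _ (_ ^ 3), map_pow]
    conv_lhs => enter [1]; rw [← qc_hq, Ef_qc, Qf_qc, a, map_ee_rat, one_mul]
    rw [one_mul]
    exact mul_le_mul' (hmax _) (pow_le_pow_left' (hc η) 3)
  rw [← R2, map_mul, map_pow N _ 4] at key
  change N (2 ^ g) * f z ^ 4 ≤ _ at key
  rw [hk]
  change N (2 ^ g) * f k ^ 3 ≤ _
  refine le_trans (mul_le_mul' le_rfl (pow_le_pow_left' (hmax k) 3)) ?_
  by_cases h0 : f z = 0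
  · rw [h0]; simp
  · rw [pow_succ, ← mul_assoc, mul_left_comm C, mul_comm (f z)] at key
    exact le_of_mul_le_mul_right key (zero_lt_iff.2 h0)

end

/-- at a valuation -/
theorem Sieg.val_bound {Γ : Type*} [LinearOrderedCommGroupWithZero Γ] (h : Sieg τ)
    (v : Valuation ℂ Γ) (s : ℂ) (c : Γ) (hc : ∀ η, v (s * Th τ (hv η)) ≤ c) (x : I2 g → ℚ) :
    v (2 ^ g * (s * Th τ (qc x))) ≤ c := by
  have := h.place_bound v.toMonoidWithZeroHom s 1 c
    (fun a B hB => by rw [one_mul]; exact v.map_sum_le fun η _ => hB η) hc x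
  rw [one_mul] at this
  have h2 : v (2 ^ g) ≤ 1 := by
    rw [map_pow]
    refine pow_le_one₀ zero_le ?_
    rw [← one_add_one_eq_two]
    exact v.map_add_le v.map_one.le v.map_one.le
  refine le_of_pow_le_pow_left₀ three_ne_zero zero_le (le_trans ?_ this)
  rw [map_mul, mul_pow]
  refine mul_le_mul' ?_ le_rfl
  calc v (2 ^ g) ^ 3 = v (2 ^ g) * v (2 ^ g) ^ 2 := (pow_succ' _ 2)
    _ ≤ v (2 ^ g) * 1 := mul_le_mul' le_rfl (pow_le_one₀ zero_le h2)
    _ = _ := mul_one _

/-- at an archimedean place -/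
theorem Sieg.arch_bound (h : Sieg τ) (σ : ℂ →+* ℂ) (s : ℂ) (c : ℝ)
    (hc : ∀ η, ‖σ (s * Th τ (hv η))‖ ≤ c) (x : I2 g → ℚ) :
    ‖σ (s * Th τ (qc x))‖ ≤ 2 ^ g * c := by
  have c0 : 0 ≤ c := (norm_nonneg _).trans (hc 0)
  have := h.place_bound (nnnormHom.comp σ.toMonoidWithZeroHom) s (2 ^ g * 2 ^ g) ⟨c, c0⟩
    (fun a B hB => by
      change ‖σ (∑ η, a η)‖₊ ≤ _
      rw [map_sum]
      refine (nnnorm_sum_le _ _).trans ((Finset.sum_le_card_nsmul _ _ B fun η _ => hB η).trans ?_)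
      simp [pow_add]) hc x
  have h1 : ‖σ (2 ^ g)‖ * ‖σ (s * Th τ (qc x))‖ ^ 3 ≤ 2 ^ g * 2 ^ g * c ^ 3 := by
    exact_mod_cast this
  rw [map_pow, map_ofNat, norm_pow, Complex.norm_ofNat, mul_assoc] at h1
  have h2 := le_of_mul_le_mul_left h1 (by positivity)
  refine le_of_pow_le_pow_left₀ three_ne_zero (by positivity) (h2.trans ?_)
  rw [mul_pow]
  exact mul_le_mul_of_nonneg_right (le_self_pow₀ (one_le_pow₀ one_le_two) three_ne_zero)
    (by positivity)

lemma isIntegral_of_val {z : ℂ} (h : ∀ V : ValuationSubring ℂ, z ∈ V) : IsIntegral ℤ z := by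
  have h1 : z ∈ (integralClosure (Subring.closure (∅ : Set ℂ)) ℂ).toSubring := by
    rw [← iInf_valuationSubring_superset, Subring.mem_iInf]
    exact fun V => h V.1
  have : Algebra.IsIntegral ℤ (Subring.closure (∅ : Set ℂ)) := ⟨fun ⟨x, hx⟩ => by
    rw [Subring.closure_empty, Subring.mem_bot] at hx
    obtain ⟨n, rfl⟩ := hx
    exact isIntegral_algebraMap (R := ℤ) (x := n)⟩
  exact isIntegral_trans z h1

theorem Sieg.int_bound (h : Sieg τ) (s : ℂ) (hc : ∀ η, IsIntegral ℤ (s * Th τ (hv η)))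
    (x : I2 g → ℚ) : IsIntegral ℤ (2 ^ g * (s * Th τ (qc x))) :=
  isIntegral_of_val fun V => (V.valuation_le_one_iff _).1 (h.val_bound V.valuation s 1
    (fun η => (V.valuation_le_one_iff _).2 (by
      obtain ⟨y, hy⟩ := IsIntegrallyClosed.isIntegral_iff.1 ((hc η).tower_top (A := V))
      exact hy ▸ y.2)) x)

/-- algebraic integers all of whose conjugates are bounded by `C` -/
structure House (C : ℝ) (z : ℂ) : Prop where
  int : IsIntegral ℤ z
  le : ∀ σ : ℂ →+* ℂ, ‖σ z‖ ≤ C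

namespace House

variable {C C' : ℝ} {z w : ℂ}

lemma nonneg (h : House C z) : 0 ≤ C := (norm_nonneg _).trans (h.le (RingHom.id ℂ))

lemma mono (h : House C z) (hC : C ≤ C') : House C' z := ⟨h.int, fun σ => (h.le σ).trans hC⟩

lemma add (h : House C z) (h' : House C' w) : House (C + C') (z + w) :=
  ⟨h.int.add h'.int, fun σ => by
    rw [map_add]; exact (norm_add_le _ _).trans (add_le_add (h.le σ) (h'.le σ))⟩

lemma mul (h : House C z) (h' : House C' w) : House (C * C') (z * w) :=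
  ⟨h.int.mul h'.int, fun σ => by
    rw [map_mul, norm_mul]; exact mul_le_mul (h.le σ) (h'.le σ) (norm_nonneg _) h.nonneg⟩

lemma intCast (n : ℤ) : House |n| n :=
  ⟨isIntegral_algebraMap (R := ℤ) (x := n), fun σ => by simp⟩

lemma zero : House 0 0 := by simpa using intCast 0

lemma one : House 1 1 := by simpa using intCast 1

lemma ee_rat (q : ℚ) : House 1 (ee q) :=
  ⟨IsIntegral.of_pow q.pos (by rw [ee_rat_pow]; exact isIntegral_one), fun σ => by
    have : ‖σ (ee q)‖₊ = 1 := map_ee_rat (nnnormHom.comp σ.toMonoidWithZeroHom) q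
    exact le_of_eq (congrArg NNReal.toReal this)⟩

lemma map (h : House C z) (φ : ℂ →+* ℂ) : House C (φ z) :=
  ⟨h.int.map φ.toIntAlgHom, fun σ => h.le (σ.comp φ)⟩

lemma sum {ι : Type*} (s : Finset ι) {C : ι → ℝ} {z : ι → ℂ} (h : ∀ i ∈ s, House (C i) (z i)) :
    House (∑ i ∈ s, C i) (∑ i ∈ s, z i) := by
  classical
  induction s using Finset.induction_on with
  | empty => simpa using zero
  | insert i s hi ih =>
    rw [Finset.sum_insert hi, Finset.sum_insert hi]
    exact (h i (Finset.mem_insert_self _ _)).add (ih fun j hj => h j (Finset.mem_insert_of_mem hj))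

lemma sum_card {ι : Type*} (s : Finset ι) {z : ι → ℂ} (h : ∀ i ∈ s, House C (z i)) :
    House (s.card * C) (∑ i ∈ s, z i) := by
  simpa using sum s (C := fun _ => C) h

lemma prod {ι : Type*} (s : Finset ι) {C : ι → ℝ} {z : ι → ℂ} (h : ∀ i ∈ s, House (C i) (z i)) :
    House (∏ i ∈ s, C i) (∏ i ∈ s, z i) := by
  classical
  induction s using Finset.induction_on with
  | empty => simpa using one
  | insert i s hi ih =>
    rw [Finset.prod_insert hi, Finset.prod_insert hi]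
    exact (h i (Finset.mem_insert_self _ _)).mul (ih fun j hj => h j (Finset.mem_insert_of_mem hj))

lemma pow (h : House C z) (n : ℕ) : House (C ^ n) (z ^ n) := by
  simpa using prod (Finset.range n) (C := fun _ => C) (z := fun _ => z) fun _ _ => h

end House

lemma exists_conj_le {z : ℂ} (hz : IsIntegral ℤ z) : ∃ C, House C z := by
  obtain ⟨p, hp, h0⟩ := id hz
  have hf := Polynomial.rootSet_finite p ℂ
  obtain ⟨C, hC⟩ := (hf.image fun w => ‖w‖).bddAbove
  refine ⟨C, hz, fun σ => hC ⟨σ z, ?_, rfl⟩⟩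
  rw [hp.mem_rootSet]
  have := congrArg σ h0
  rw [map_zero, Polynomial.hom_eval₂] at this
  rw [Polynomial.aeval_def, ← this]
  congr 1
  exact RingHom.ext_int _ _

/-- one denominator and one bound for all values at rational points -/
theorem Sieg.house (h : Sieg τ) (s : ℂ) (ha : ∀ η, IsAlgebraic ℚ (s * Th τ (hv η))) :
    ∃ D : ℕ, 0 < D ∧ ∃ C : ℝ, 1 ≤ C ∧ ∀ x : I2 g → ℚ, House C (D * (s * Th τ (qc x))) := by
  have ha' : ∀ η, IsAlgebraic ℤ (s * Th τ (hv η)) := fun η =>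
    (IsFractionRing.isAlgebraic_iff ℤ ℚ ℂ).2 (ha η)
  choose d hd hi using fun η => (ha' η).exists_integral_multiple
  obtain ⟨D, hD, hi'⟩ : ∃ D : ℕ, 0 < D ∧ ∀ η, IsIntegral ℤ (D * s * Th τ (hv η)) := by
    refine ⟨(∏ η, d η).natAbs, Int.natAbs_pos.2 (Finset.prod_ne_zero_iff.2 fun η _ => hd η),
      fun η => ?_⟩
    obtain ⟨c, hc⟩ := Int.dvd_natAbs.2 (Finset.dvd_prod_of_mem d (Finset.mem_univ η))
    have := (hi η).mul (isIntegral_algebraMap (R := ℤ) (A := ℂ) (x := c))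
    have e : ((∏ η, d η).natAbs : ℂ) * s * Th τ (hv η) =
        d η • (s * Th τ (hv η)) * algebraMap ℤ ℂ c := by
      rw [← Int.cast_natCast, hc]
      simp only [zsmul_eq_mul, algebraMap_int_eq, eq_intCast]
      push_cast; ring
    rw [e]; exact this
  choose c hc using fun η => exists_conj_le (hi' η)
  obtain ⟨C, hC⟩ := (Set.finite_range c).bddAbove
  refine ⟨2 ^ g * D, by positivity, max 1 (2 ^ g * (2 ^ g * C)), le_max_left _ _, fun x => ?_⟩
  have e : ((2 ^ g * D : ℕ) : ℂ) * (s * Th τ (qc x)) = 2 ^ g * (D * s * Th τ (qc x)) := by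
    push_cast; ring
  rw [e]
  refine ⟨h.int_bound _ hi' x, fun σ => le_trans ?_ (le_max_right _ _)⟩
  rw [map_mul, norm_mul, map_pow, map_ofNat, norm_pow, Complex.norm_ofNat]
  exact mul_le_mul_of_nonneg_left
    (h.arch_bound σ _ C (fun η => ((hc η).le σ).trans (hC ⟨η, rfl⟩)) x) (by positivity)

/-- the height of a vector of algebraic integers with bounded conjugates -/
theorem mulHeight_le_of_house {K : Type} {ι : Type*} [Field K] [NumberField K] [Finite ι]
    (j : K →+* ℂ) (a : ι → K) {H : ℝ} (hH : 1 ≤ H) (h : ∀ i, House H (j (a i))) :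
    Height.mulHeight a ≤ H ^ Module.finrank ℚ K := by
  by_cases ha : a = 0
  · rw [ha, Height.mulHeight_zero]; exact one_le_pow₀ hH
  have : Countable K := Finsupp.Countable.of_moduleFinite (R := ℚ)
  rw [NumberField.mulHeight_eq ha, ← InfinitePlace.sum_mult_eq, ← Finset.prod_pow_eq_pow_sum,
    ← mul_one (∏ _, H ^ _)]
  refine mul_le_mul (Finset.prod_le_prod (fun w _ => pow_nonneg (Real.iSup_nonneg fun i =>
    apply_nonneg _ _) _) fun w _ => pow_le_pow_left₀ (Real.iSup_nonneg fun i => apply_nonneg _ _)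
      (Real.iSup_le (fun i => ?_) (by linarith)) _) ?_
    (finprod_nonneg fun v => Real.iSup_nonneg fun i => apply_nonneg _ _) (by positivity)
  · obtain ⟨e, he⟩ := WT.d2_inj j w.embedding j.injective w.embedding.injective
    rw [← w.norm_embedding_eq, ← he]
    exact (h i).le e.toRingHom
  · refine finprod_induction (fun x : ℝ => 0 ≤ x ∧ x ≤ 1) ⟨zero_le_one, le_rfl⟩
      (fun x y hx hy => ⟨mul_nonneg hx.1 hy.1, mul_le_one₀ hx.2 hy.1 hy.2⟩)
      (fun v => ⟨Real.iSup_nonneg fun i => apply_nonneg _ _,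
        Real.iSup_le (fun i => ?_) zero_le_one⟩) |>.2
    have hi : IsIntegral ℤ (a i) := (isIntegral_algHom_iff j.toIntAlgHom j.injective).1 (h i).int
    have := FinitePlace.norm_le_one K v.maximalIdeal ⟨a i, hi⟩
    rw [FinitePlace.norm_embedding_eq] at this
    exact this

end Pool.Agent.MT
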