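import Pool.Agent.Lib.MP_d61fbb_ag.MT.Top
import Pool.Agent.Lib.MP_d61fbb_ag.MT.H2

/-! The algebraic and the analytic description of the theta functions agree. -/

set_option autoImplicit false

noncomputable section

namespace Pool.Agent.MT

open Matrix Sum
open Pool.Agent.Lib.MP_696deb_nt.B2 (Qbar jC)

section
variable {k : Type} [Field k] (e : AddChar AF k) (Θ : W → k)

lemma gen_cons (c : ℤ × W) (L : Multiset (ℤ × W)) :
    gen e Θ (c ::ₘ L) = (fun x => Rt e 1 c.2 Θ (c.1 • x)) * gen e Θ L := by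
  funext x; simp only [gen, Multiset.map_cons, Multiset.prod_cons, Pi.mul_apply]

lemma wt_cons (c : ℤ × W) (L : Multiset (ℤ × W)) : wt (c ::ₘ L) = c.1 ^ 2 + wt L := by
  simp only [wt, Multiset.map_cons, Multiset.sum_cons]

lemma Ef_zsmul_left (c : ℤ) (x y : W) : Ef (c • x) y = c * Ef x y := by
  rw [← Int.cast_smul_eq_zsmul AF, Ef_smul_left]

lemma Ef_zsmul_right (c : ℤ) (x y : W) : Ef x (c • y) = c * Ef x y := by
  rw [← Int.cast_smul_eq_zsmul AF, Ef_smul_right]

/-- a translate of a product of translates -/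
lemma gen_shift (y : W) (L : Multiset (ℤ × W)) : ∃ a : AF, ∀ x,
    e (((wt L : ℚ) / 2) • Ef y x) * gen e Θ L (x + y) =
      e a * gen e Θ (L.map fun c => (c.1, c.2 + c.1 • y)) x := by
  induction L using Multiset.induction_on with
  | empty => exact ⟨0, fun x => by simp [wt, gen]⟩
  | cons c L ih =>
    obtain ⟨a, ha⟩ := ih
    refine ⟨(1 / 2 : ℚ) • Ef c.2 (c.1 • y) + a, fun x => ?_⟩
    have h0 : c.1 • (x + y) = c.1 • x + c.1 • y := zsmul_add x y c.1
    have h1 : e (((c.1 : ℚ) ^ 2 / 2) • Ef y x) * e ((((1 : ℕ) : ℚ) / 2) • Ef c.2 (c.1 • (x + y))) =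
        e ((1 / 2 : ℚ) • Ef c.2 (c.1 • y)) *
          e ((((1 : ℕ) : ℚ) / 2) • Ef (c.2 + c.1 • y) (c.1 • x)) := by
      rw [← e.map_add_eq_mul, ← e.map_add_eq_mul, h0, Ef_add_right, Ef_add_left,
        Ef_zsmul_left, Ef_zsmul_right c.1 y, ← mul_assoc, ← sq, div_eq_inv_mul, mul_smul,
        Algebra.smul_def (_ ^ 2), map_pow, map_intCast, Nat.cast_one, one_div, smul_add, smul_add]
      congr 1; abel
    rw [Multiset.map_cons, gen_cons, gen_cons, wt_cons, Int.cast_add, add_div, add_smul,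
      e.map_add_eq_mul, e.map_add_eq_mul, Pi.mul_apply, Pi.mul_apply, mul_mul_mul_comm, ha,
      mul_mul_mul_comm (e _) (e a), Rt, Rt, ← mul_assoc (e _), ← mul_assoc (e _), Int.cast_pow, h1,
      h0, add_assoc, add_comm (c.1 • y)]

lemma Rt_mem_Gs0 {m : ℕ} (y : W) {L : Multiset (ℤ × W)} (hL : wt L = m) :
    Rt e m y (gen e Θ L) ∈ Gs 0 e Θ m := by
  obtain ⟨a, ha⟩ := gen_shift e Θ y L
  have : Rt e m y (gen e Θ L) = e a • gen e Θ (L.map fun c => (c.1, c.2 + c.1 • y)) := by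
    funext x
    rw [Pi.smul_apply, smul_eq_mul, ← ha, hL, Int.cast_natCast, Rt]
  rw [this]
  refine Submodule.smul_mem _ _ (Submodule.subset_span ⟨_, ?_, fun i l hl => ?_, rfl⟩)
  · rw [← hL, wt, wt, Multiset.map_map]; rfl
  · exact absurd hl l.2.ne_zero

end

section
variable {τ : Matrix (Fin 4) (Fin 4) ℂ} {e : AddChar AF Qbar} {Θ : W → Qbar} {c0 : ℂ}

lemma jC_Rt (he : ∀ a, jC (e a) = psi a) (m : ℕ) (y : W) (f : W → Qbar) :
    (fun x => jC (Rt e m y f x)) = UU m y fun x => jC (f x) := by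
  funext x; rw [Rt, map_mul, he]; rfl

lemma jC_gen_mem (he : ∀ a, jC (e a) = psi a) (hΘ : (fun x => jC (Θ x)) ∈ HH τ 1)
    (L : Multiset (ℤ × W)) : (fun x => jC (gen e Θ L x)) ∈ HH τ (wt L) := by
  induction L using Multiset.induction_on with
  | empty =>
    simp only [wt, gen, Multiset.map_zero, Multiset.prod_zero, Multiset.sum_zero, map_one,
      Int.cast_zero]
    exact one_mem_HH τ
  | cons c L ih =>
    have h1 := HH_scale (HH_UU hΘ c.2) c.1
    rw [← Nat.cast_one (R := ℚ), ← jC_Rt he, Nat.cast_one, mul_one] at h1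
    have := HH_mul h1 ih
    rw [wt_cons, Int.cast_add, Int.cast_pow, gen_cons]
    convert this using 1
    funext x
    have h0 : (c.1 : ℚ) • x = c.1 • x := Int.cast_smul_eq_zsmul ℚ c.1 x
    simp only [Pi.mul_apply, map_mul, h0]

lemma jC_span_mem {m : ℚ} {s : Set (W → Qbar)} (hs : ∀ f ∈ s, (fun x => jC (f x)) ∈ HH τ m)
    {f : W → Qbar} (hf : f ∈ Submodule.span Qbar s) : (fun x => jC (f x)) ∈ HH τ m := by
  induction hf using Submodule.span_induction with
  | mem f hf => exact hs f hf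
  | zero => simp only [Pi.zero_apply, map_zero]; exact (HH τ m).zero_mem
  | add f g _ _ hf hg => simp only [Pi.add_apply, map_add]; exact (HH τ m).add_mem hf hg
  | smul c f _ hf =>
    simp only [Pi.smul_apply, smul_eq_mul, map_mul]; exact (HH τ m).smul_mem (jC c) hf

/-- descent of linear relations -/
lemma mem_of_jC_span {α : Type} (G : Submodule Qbar (α → Qbar)) {s : Set (α → ℂ)}
    (hs : ∀ F ∈ s, ∃ g ∈ G, F = fun x => jC (g x)) {f : α → Qbar}
    (hf : (fun x => jC (f x)) ∈ Submodule.span ℂ s) : f ∈ G := by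
  let _ : Algebra Qbar ℂ := jC.toAlgebra
  obtain ⟨π, hπ⟩ := (Algebra.linearMap Qbar ℂ).exists_leftInverse_of_injective
    (LinearMap.ker_eq_bot.2 jC.injective)
  have h1 : ∀ (c : ℂ) (a : Qbar), π (c * jC a) = π c * a := fun c a => by
    rw [mul_comm, mul_comm (π c), ← smul_eq_mul a, ← map_smul]; rfl
  have key : ∀ F ∈ Submodule.span ℂ s, ∀ c : ℂ, (fun x => π (c * F x)) ∈ G := fun F hF => by
    induction hF using Submodule.span_induction with
    | mem F hF =>
      obtain ⟨g, hg, rfl⟩ := hs F hF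
      exact fun c => by simp only [h1]; exact G.smul_mem (π c) hg
    | zero => exact fun c => by simp only [Pi.zero_apply, mul_zero, map_zero]; exact G.zero_mem
    | add F F' _ _ a b =>
      exact fun c => by simp only [Pi.add_apply, mul_add, map_add]; exact G.add_mem (a c) (b c)
    | smul a F _ h => exact fun c => by simpa [mul_assoc] using h (c * a)
  have h2 : π 1 = 1 := by simpa using LinearMap.congr_fun hπ 1
  have h3 := key _ hf 1
  simp only [h1] at h3
  simpa only [h2, one_mul] using h3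

end

theorem AR.mem_HH {τ : Matrix (Fin 4) (Fin 4) ℂ} (hτ : Sieg τ) {K : IntermediateField ℚ ℂ}
    {M : MumfordType τ K} (A : AR M) : (fun x => jC (A.S.Θ x)) ∈ HH τ 1 := by
  have := (HH τ 1).smul_mem A.c0⁻¹ (Theta_mem hτ)
  convert this using 1
  funext x
  rw [Pi.smul_apply, ← A.cx, smul_eq_mul, inv_mul_cancel_left₀ A.c0_ne]

theorem t_gh : T_GH := by
  intro τ hτ K M A m hm f
  have hG : ∀ f ∈ A.S.G m, (fun x => jC (f x)) ∈ HH τ m := fun f hf => by
    refine jC_span_mem ?_ hf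
    rintro _ ⟨L, hL, -, rfl⟩
    have := jC_gen_mem A.cxe (A.mem_HH hτ) L
    rwa [hL, Int.cast_natCast] at this
  refine ⟨hG f, fun hf => ?_⟩
  obtain ⟨a, b, c, d, h4⟩ := Nat.sum_four_squares m
  let L : Multiset (ℤ × W) := {((a : ℤ), hw A.η0), ((b : ℤ), hw A.η0), ((c : ℤ), hw A.η0),
    ((d : ℤ), hw A.η0)}
  have hL : wt L = m := by rw [← h4]; simp [wt, L, add_assoc]
  have h1 := jC_gen_mem A.cxe (A.mem_HH hτ) L
  rw [hL, Int.cast_natCast] at h1
  have h0 : (fun x => jC (gen A.S.e A.S.Θ L x)) ≠ 0 := fun h => by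
    simpa [gen, L, Rt, A.one] using congrFun h 0
  refine mem_of_jC_span _ ?_ (HH_irr (siegI_iff.2 hτ) (Nat.cast_pos.2 hm) hf h1 h0)
  rintro _ ⟨y, rfl⟩
  exact ⟨_, Rt_mem_Gs0 _ _ y hL, (jC_Rt A.cxe m y _).symm⟩

end Pool.Agent.MT
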