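import Mathlib

/-! Linear algebra for the stability of theta spaces under endomorphisms. -/

namespace Pool.Agent.MT

open Finset Module

variable {k : Type*} [Field k]

/-- interpolation in a space of functions of finite dimension -/
theorem bal_interp {W : Type*} (X : Submodule k (W → k)) [Module.Finite k X] :
    ∃ (T : Finset W) (a : T → W → k), (∀ i, a i ∈ X) ∧ ∀ φ ∈ X, φ = ∑ i : T, φ i • a i := by
  classical
  let ev : W → X →ₗ[k] k := fun w => (LinearMap.proj w).comp X.subtype
  obtain ⟨_, ⟨T, rfl⟩, hmin⟩ := (wellFounded_lt (α := Submodule k X)).has_min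
    (Set.range fun T : Finset W => ⨅ w ∈ T, LinearMap.ker (ev w)) ⟨_, ∅, rfl⟩
  have hi : LinearMap.ker (LinearMap.pi fun i : T => ev i) = ⊥ := by
    refine eq_bot_iff.2 fun φ hφ => Subtype.ext (funext fun w => ?_)
    have e := eq_of_le_of_not_lt (biInf_mono (f := fun w => LinearMap.ker (ev w))
      fun _ => mem_insert_of_mem (b := w)) (hmin _ ⟨insert w T, rfl⟩)
    have : φ ∈ ⨅ w ∈ T, LinearMap.ker (ev w) := by
      simp only [Submodule.mem_iInf]
      exact fun i hi => congrFun hφ ⟨i, hi⟩
    rw [← e] at this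
    simp only [Submodule.mem_iInf] at this
    exact this w (mem_insert_self _ _)
  obtain ⟨σ, hσ⟩ := LinearMap.exists_leftInverse_of_injective _ hi
  refine ⟨T, fun i => σ (Pi.single i 1), fun i => (σ _).2, fun φ hφ => ?_⟩
  have := congrArg Subtype.val (LinearMap.congr_fun hσ ⟨φ, hφ⟩)
  rw [LinearMap.comp_apply, pi_eq_sum_univ' (LinearMap.pi _ _), map_sum] at this
  simp only [map_smul, Submodule.coe_sum, Submodule.coe_smul] at this
  exact this.symm

/-- restriction of a function of finite rank to a graph -/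
theorem bal_diag {W : Type*} (X P : Submodule k (W → k)) [Module.Finite k X] (F : W → W → k)
    (σ : W → W) (hF : ∀ y, (fun x => F x y) ∈ X)
    (h : ∀ x₀, ∀ a ∈ X, (fun x => F x₀ (σ x)) * a ∈ P) : (fun x => F x (σ x)) ∈ P := by
  obtain ⟨T, a, ha, e⟩ := bal_interp X
  have : (fun x => F x (σ x)) = ∑ i : T, (fun x => F i (σ x)) * a i := funext fun x => by
    have := congrFun (e _ (hF (σ x))) x
    simpa using this
  exact this ▸ P.sum_mem fun i _ => h _ _ (ha i)

/-- multiplication by a suitable member of a family without common zero keeps independence -/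
theorem bal_rank {W : Type*} [Infinite k] (X Y G : Submodule k (W → k)) (j D : ℕ)
    (hG : ∀ x, ∃ g ∈ G, g x ≠ 0) (h : ∀ g ∈ G, ∀ f ∈ X, f * g ^ j ∈ Y)
    (hD : Module.rank k Y ≤ D) : Module.rank k X ≤ D := by
  refine rank_le fun s hs => ?_
  have h1 := hs.map' X.subtype X.ker_subtype
  have : Module.Finite k (Submodule.span k (Set.range (X.subtype ∘ fun i : s => (i : X)))) :=
    .span_of_finite _ (Set.finite_range _)
  obtain ⟨T, a, -, e⟩ := bal_interp (Submodule.span k (Set.range (X.subtype ∘ fun i : s => (i : X))))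
  obtain ⟨g, hg, g0⟩ := Module.Dual.exists_forall_mem_ne_zero_of_forall_exists G
    (fun i : T => LinearMap.proj (i : W)) fun i => hG i
  have h2 := h1.map (f := LinearMap.mulRight k (g ^ j)) (Submodule.disjoint_def.2 fun φ hφ z => by
    rw [e φ hφ]
    refine sum_eq_zero fun i _ => ?_
    rw [(mul_eq_zero.1 (congrFun z i)).resolve_right (pow_ne_zero j (g0 i)), zero_smul])
  have h3 : LinearIndependent k fun i : s => (⟨_, h g hg _ (i : X).2⟩ : Y) :=
    .of_comp Y.subtype h2
  have := h3.cardinal_le_rank.trans hD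
  simpa using this

/-- the lower bound for representations of a Heisenberg group -/
theorem bal_heis {X Y ι : Type*} [AddCommGroup X] [Module k X] [Module.Finite k X] [Nontrivial X]
    [AddCommGroup Y] [Fintype ι] (T : Y → X →ₗ[k] X) (hT : ∀ y v, T y (T (-y) v) = v)
    (y : ι → Y) (χ : ι → AddChar Y k) (hχ : Function.Injective χ)
    (hc : ∀ i z v, T z (T (y i) v) = χ i z • T (y i) (T z v)) :
    Fintype.card ι ≤ finrank k X ^ 2 := by
  have li : LinearIndependent k fun i => T (y i) := by
    refine Fintype.linearIndependent_iff.2 fun c h i => ?_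
    obtain ⟨v, hv⟩ := exists_ne (0 : X)
    obtain ⟨l, hl⟩ := Module.Projective.exists_dual_ne_zero k hv
    have d := (linearIndependent_monoidHom (Multiplicative Y) k).comp
      (fun i => (χ i).toMonoidHom) (AddChar.toMonoidHomEquiv.injective.comp hχ)
    have := Fintype.linearIndependent_iff.1 d (fun j => c j * l (T (y j) (T (-y i) v)))
      (funext fun z => by
        have := congrArg (fun S => l (T z.toAdd (S (T (-z.toAdd) (T (-y i) v))))) h
        simp only [LinearMap.sum_apply, LinearMap.smul_apply, map_sum, map_smul, hc, hT,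
          LinearMap.zero_apply, map_zero, smul_eq_mul] at this
        rw [Pi.zero_apply, ← this, Finset.sum_apply]
        exact sum_congr rfl fun j _ => by
          simp only [Pi.smul_apply, smul_eq_mul, Function.comp_apply]
          exact (mul_right_comm _ _ _).trans (mul_assoc _ _ _)) i
    rw [hT] at this
    exact (mul_eq_zero.1 this).resolve_right hl
  rw [sq, ← finrank_linearMap k k]
  exact li.fintype_card_le_finrank

/-- the same bound for a quotient of two stable spaces -/
theorem bal_heis2 {M Y ι : Type*} [AddCommGroup M] [Module k M] [AddCommGroup Y] [Fintype ι]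
    (T : Y → M →ₗ[k] M) (hT : ∀ y v, T y (T (-y) v) = v)
    (y : ι → Y) (χ : ι → AddChar Y k) (hχ : Function.Injective χ)
    (hc : ∀ i z v, T z (T (y i) v) = χ i z • T (y i) (T z v)) {n : ℕ} (hn : n ^ 2 ≤ Fintype.card ι)
    (P Q : Submodule k M) [Module.Finite k Q] (hP : ∀ z, ∀ v ∈ P, T z v ∈ P)
    (hQ : ∀ z, ∀ v ∈ Q, T z v ∈ Q) (lt : P < Q) : finrank k P + n ≤ finrank k Q := by
  have : Nontrivial (Q ⧸ P.comap Q.subtype) := Submodule.Quotient.nontrivial_iff.2 fun e =>
    lt.not_ge (Submodule.comap_subtype_eq_top.1 e)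
  have := bal_heis (fun z => (P.comap Q.subtype).mapQ (P.comap Q.subtype) ((T z).restrict (hQ z))
    fun v hv => hP z _ hv) (fun z v => by
      induction v using Submodule.Quotient.induction_on with
      | H v => exact congrArg Submodule.Quotient.mk (Subtype.ext (hT z v))) y χ hχ fun i z v => by
      induction v using Submodule.Quotient.induction_on with
      | H v => exact congrArg Submodule.Quotient.mk (Subtype.ext (hc i z v))
  have h1 := (pow_le_pow_iff_left₀ (Nat.zero_le _) (Nat.zero_le _) two_ne_zero).1 (hn.trans this)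
  rw [← (P.comap Q.subtype).finrank_quotient_add_finrank,
    (Submodule.comapSubtypeEquivOfLe lt.le).finrank_eq]
  omega

theorem bal_growth (g M N : ℕ) (hN : 0 < N) :
    ∃ j, (M + 4 ^ (j + 1) * N) ^ g < 2 * (4 ^ (j + 1) * N) ^ g := by
  have h1 : Filter.Tendsto (fun j : ℕ => ((M / N : ℝ) * (4 ^ (j + 1))⁻¹ + 1) ^ g) Filter.atTop
      (nhds (((M / N : ℝ) * 0 + 1) ^ g)) :=
    (((tendsto_inv_atTop_zero.comp ((tendsto_pow_atTop_atTop_of_one_lt (by norm_num)).comp
      (Filter.tendsto_add_atTop_nat 1))).const_mul _).add_const 1).pow g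
  obtain ⟨j, hj⟩ := (h1.eventually (gt_mem_nhds (show _ < (2 : ℝ) by simp))).exists
  refine ⟨j, ?_⟩
  have n0 : (0 : ℝ) < N := Nat.cast_pos.2 hN
  have := mul_lt_mul_of_pos_right hj (pow_pos (show (0 : ℝ) < 4 ^ (j + 1) * N by positivity) g)
  rw [← mul_pow, show ((M / N : ℝ) * (4 ^ (j + 1))⁻¹ + 1) * (4 ^ (j + 1) * N) =
    M + 4 ^ (j + 1) * N by field_simp] at this
  exact_mod_cast this

end Pool.Agent.MT
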