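import Pool.Agent.Lib.MP_d61fbb_ag.MT.BAl1

/-! Abstract theta systems with a Frobenius map: complements and mixed spaces. -/

namespace Pool.Agent.MT

open Finset Module

section
variable {k W A : Type*} [Field k] [AddCommGroup W] [Module ℚ W] [AddCommGroup A] [Module ℚ A]

/-- the Heisenberg operators -/
def Uo (E : W →ₗ[ℚ] W →ₗ[ℚ] A) (ψ : AddChar A k) (r : ℕ) (y : W) : (W → k) →ₗ[k] W → k where
  toFun f x := ψ (r • E y x) * f (x + y)
  map_add' _ _ := funext fun _ => mul_add _ _ _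
  map_smul' _ _ := funext fun _ => mul_left_comm _ _ _

/-- the functions that are invariant under a lattice -/
def InvU (E : W →ₗ[ℚ] W →ₗ[ℚ] A) (ψ : AddChar A k) (L : AddSubgroup W) (r : ℕ) :
    Submodule k (W → k) where
  carrier := {f | ∀ l ∈ L, Uo E ψ r l f = f}
  add_mem' hf hg l hl := by rw [map_add, hf l hl, hg l hl]
  zero_mem' l _ := map_zero _
  smul_mem' c f hf l hl := by rw [map_smul, hf l hl]

end

/-- A theta function with its spaces of products, graded by degree and balance. -/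
structure BSys (k W A B : Type*) [Field k] [AddCommGroup W] [Module ℚ W] [AddCommGroup A]
    [Module ℚ A] [AddCommGroup B] where
  E : W →ₗ[ℚ] W →ₗ[ℚ] A
  ψ : AddChar A k
  pr : W →+ B
  Θ : W → k
  L : AddSubgroup W
  Eta : Finset W
  cf : W → k
  H : ℕ → B → Submodule k (W → k)
  c : ℕ
  g : ℕ
  q : ℕ
  fr : Module.End ℚ W
  fr' : Module.End ℤ B
  alt : ∀ x, E x x = 0
  even : ∀ x, Θ (-x) = Θ x
  nv : ∀ x, ∃ η ∈ Eta, Θ (x + η) ≠ 0
  eta_pr : ∀ η ∈ Eta, pr η = 0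
  eta_inv : ∀ η ∈ Eta, Uo E ψ 1 η Θ ∈ InvU E ψ L 1
  riem : ∀ a b c d, Θ a * Θ b * Θ c * Θ d = ∑ η ∈ Eta, cf η * ψ (2 • E η a) *
    (Θ ((1 / 2 : ℚ) • (a + b + c + d) + η) * Θ ((1 / 2 : ℚ) • (a + b - c - d) + η) *
      Θ ((1 / 2 : ℚ) • (a - b + c - d) + η) * Θ ((1 / 2 : ℚ) • (a - b - c + d) + η))
  c_pos : 0 < c
  H_one : 1 ∈ H 0 0
  H_th : Θ ∈ H 1 0
  H_mul : ∀ {r s b c f h}, f ∈ H r b → h ∈ H s c → f * h ∈ H (r + s) (b + c)
  H_U : ∀ {r b f} y, f ∈ H r b → Uo E ψ r y f ∈ H r (b + r • pr y)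
  H_sc : ∀ {r b f} (m : ℤ), f ∈ H r b → (fun x => f (m • x)) ∈ H (m.natAbs ^ 2 * r) (m • b)
  H_fr : ∀ {r b f}, f ∈ H r b → (fun x => f (fr x)) ∈ H (q * r) (fr' b)
  fr_L : ∀ l ∈ L, fr l ∈ L
  fr_E : ∀ x y, ψ (E (fr x) (fr y)) = ψ (q • E x y)
  dim : ∀ r, 0 < r → Module.rank k (H r 0 ⊓ InvU E ψ L r :) ≤ ((c * r) ^ g : ℕ)

namespace BSys

variable {k W A B : Type*} [Field k] [AddCommGroup W] [Module ℚ W] [AddCommGroup A]
  [Module ℚ A] [AddCommGroup B] (T : BSys k W A B)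

/-- the Heisenberg operators of the system -/
abbrev U (r : ℕ) (y : W) : (W → k) →ₗ[k] W → k := Uo T.E T.ψ r y

/-- invariant functions -/
abbrev Iv (r : ℕ) : Submodule k (W → k) := InvU T.E T.ψ T.L r

/-- a translate of theta, pulled back by an endomorphism -/
def th (a : Module.End ℚ W) (y : W) : W → k := fun x => T.ψ (T.E y (a x)) * T.Θ (a x + y)

lemma U_apply (r : ℕ) (y : W) (f : W → k) (x : W) : T.U r y f x = T.ψ (r • T.E y x) * f (x + y) :=
  rfl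

lemma ψ_add (a b : A) : T.ψ (a + b) = T.ψ a * T.ψ b := AddChar.map_add_eq_mul _ _ _

lemma ψ_ne (a : A) : T.ψ a ≠ 0 := (AddChar.val_isUnit _ _).ne_zero

lemma swap (x y : W) : T.E x y = -T.E y x := by
  have := T.alt (x + y)
  simp only [map_add, LinearMap.add_apply, T.alt, zero_add, add_zero] at this
  exact eq_neg_of_add_eq_zero_right this

lemma U_mul (r s : ℕ) (y : W) (f h : W → k) : T.U (r + s) y (f * h) = T.U r y f * T.U s y h :=
  funext fun x => by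
    simp only [U_apply, Pi.mul_apply, add_smul, ψ_add]
    ring

lemma mem_Iv {r : ℕ} {f : W → k} :
    f ∈ T.Iv r ↔ ∀ l ∈ T.L, ∀ x, T.ψ (r • T.E l x) * f (x + l) = f x :=
  forall₂_congr fun _ _ => funext_iff

lemma Iv_mul {r s : ℕ} {f h : W → k} (hf : f ∈ T.Iv r) (hh : h ∈ T.Iv s) :
    f * h ∈ T.Iv (r + s) := fun l hl => (T.U_mul r s l f h).trans (congrArg₂ _ (hf l hl) (hh l hl))

lemma H_cast {r r' : ℕ} {b b' : B} {f : W → k} (h : f ∈ T.H r b) (e : r = r') (e' : b = b') :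
    f ∈ T.H r' b' := e ▸ e' ▸ h

lemma th_one (y : W) : T.th 1 y = T.U 1 y T.Θ := funext fun x => by simp [th, U_apply]

lemma th_one_mem (y : W) : T.th 1 y ∈ T.H 1 (T.pr y) :=
  T.th_one y ▸ T.H_cast (T.H_U y T.H_th) rfl (by simp)

lemma th_ne {a : Module.End ℚ W} {y x : W} (h : T.Θ (a x + y) ≠ 0) : T.th a y x ≠ 0 :=
  mul_ne_zero (T.ψ_ne _) h

lemma th_inv {a : Module.End ℚ W} (ha : ∀ l ∈ T.L, a l ∈ T.L) {η : W} (hη : η ∈ T.Eta) {l : W}
    (hl : l ∈ T.L) (x : W) : T.ψ (T.E (a l) (a x)) * T.th a η (x + l) = T.th a η x := by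
  have := T.mem_Iv.1 (T.th_one η ▸ T.eta_inv η hη) _ (ha l hl) (a x)
  simpa only [th, one_smul, map_add, End.one_apply] using this

/-- the relation of Riemann for translates -/
lemma riemU (y₁ y₂ y₃ y₄ : W) : ∃ c : W → k, ∀ x₁ x₂ x₃ x₄,
    T.th 1 y₁ x₁ * T.th 1 y₂ x₂ * T.th 1 y₃ x₃ * T.th 1 y₄ x₄ = ∑ η ∈ T.Eta, c η *
      (T.th 1 ((1 / 2 : ℚ) • (y₁ + y₂ + y₃ + y₄) + η) ((1 / 2 : ℚ) • (x₁ + x₂ + x₃ + x₄)) *
      T.th 1 ((1 / 2 : ℚ) • (y₁ + y₂ - y₃ - y₄) + η) ((1 / 2 : ℚ) • (x₁ + x₂ - x₃ - x₄)) *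
      T.th 1 ((1 / 2 : ℚ) • (y₁ - y₂ + y₃ - y₄) + η) ((1 / 2 : ℚ) • (x₁ - x₂ + x₃ - x₄)) *
      T.th 1 ((1 / 2 : ℚ) • (y₁ - y₂ - y₃ + y₄) + η) ((1 / 2 : ℚ) • (x₁ - x₂ - x₃ + x₄))) := by
  refine ⟨fun η => T.cf η * T.ψ (2 • T.E η y₁), fun x₁ x₂ x₃ x₄ => ?_⟩
  have k1 : ∀ p q r s (t u v w : k), T.ψ p * t * (T.ψ q * u) * (T.ψ r * v) * (T.ψ s * w) =
    T.ψ (p + q + r + s) * (t * u * v * w) := fun p q r s t u v w => by simp only [ψ_add]; ring
  simp only [th, End.one_apply, k1]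
  rw [T.riem, mul_sum]
  refine sum_congr rfl fun η _ => ?_
  have k2 : ∀ p q (c t : k), T.ψ p * (c * T.ψ q * t) = c * T.ψ (p + q) * t := fun p q c t => by
    rw [ψ_add]; ring
  rw [mul_left_comm _ (T.ψ _), k2, k2]
  refine congrArg₂ _ (congrArg _ (congrArg _ ?_)) (congrArg₂ _ (congrArg₂ _ (congrArg₂ _
    (congrArg _ ?_) (congrArg _ ?_)) (congrArg _ ?_)) (congrArg _ ?_))
  · simp only [map_add, map_sub, map_smul, LinearMap.add_apply, LinearMap.sub_apply,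
      LinearMap.smul_apply]
    module
  all_goals module

/-- complements -/
def G (a : Module.End ℚ W) (a' : Module.End ℤ B) (N : ℕ) : Submodule k (W → k) where
  carrier := {g | (∀ y, T.th a y * g ∈ T.H N (a' (T.pr y))) ∧ ∀ l ∈ T.L, ∀ x,
    T.ψ (N • T.E l x) * g (x + l) = T.ψ (T.E (a l) (a x)) * g x}
  add_mem' hf hg := ⟨fun y => mul_add (T.th a y) _ _ ▸ add_mem (hf.1 y) (hg.1 y),
    fun l hl x => by rw [Pi.add_apply, Pi.add_apply, mul_add, mul_add, hf.2 l hl, hg.2 l hl]⟩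
  zero_mem' := ⟨fun y => by simp, fun l _ x => by simp⟩
  smul_mem' c f hf := ⟨fun y => mul_smul_comm c (T.th a y) f ▸ Submodule.smul_mem _ c (hf.1 y),
    fun l hl x => by
      simp only [Pi.smul_apply, smul_eq_mul]
      rw [mul_left_comm, hf.2 l hl, mul_left_comm]⟩

theorem complement (f : Polynomial ℤ) : (∀ l ∈ T.L, Polynomial.aeval T.fr f l ∈ T.L) ∧
    ∃ N, ∀ x, ∃ g ∈ T.G (Polynomial.aeval T.fr f) (Polynomial.aeval T.fr' f) N, g x ≠ 0 := by
  induction f using Polynomial.induction_on with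
  | C m =>
    rw [Polynomial.aeval_C, Polynomial.aeval_C, eq_intCast, eq_intCast]
    refine ⟨fun l hl => T.L.zsmul_mem hl m, m.natAbs ^ 2, fun x => ⟨1, ⟨fun y => ?_,
      fun l _ x => ?_⟩, one_ne_zero⟩⟩
    · exact T.H_cast (T.H_mul (T.H_sc m (T.th_one_mem y)) T.H_one) (by ring) (add_zero _)
    · simp only [End.intCast_apply, map_zsmul, LinearMap.smul_apply, smul_smul, Pi.one_apply]
      rw [← natCast_zsmul, Nat.cast_pow, Int.natAbs_sq, sq]
  | monomial n m ih =>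
    obtain ⟨h1, N, h2⟩ := ih
    rw [pow_succ, ← mul_assoc]
    generalize Polynomial.C m * Polynomial.X ^ n = f at h1 h2
    have e : Polynomial.aeval T.fr' (f * Polynomial.X) = T.fr' * Polynomial.aeval T.fr' f := by
      rw [mul_comm, map_mul, Polynomial.aeval_X]
    rw [e, map_mul, Polynomial.aeval_X]
    refine ⟨fun l hl => h1 _ (T.fr_L l hl), T.q * N, fun x => ?_⟩
    obtain ⟨g, hg, g0⟩ := h2 (T.fr x)
    refine ⟨fun x => g (T.fr x), ⟨fun y => T.H_fr (hg.1 y),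
      fun l hl x => ?_⟩, g0⟩
    have := hg.2 _ (T.fr_L l hl) (T.fr x)
    rw [← map_add, AddChar.map_nsmul_eq_pow, T.fr_E, ← AddChar.map_nsmul_eq_pow, smul_smul,
      mul_comm N] at this
    exact this
  | add f f' ih ih' =>
    obtain ⟨h1, N, h2⟩ := ih
    obtain ⟨h1', N', h2'⟩ := ih'
    rw [map_add, map_add]
    generalize Polynomial.aeval T.fr f = a at h1 h2
    generalize Polynomial.aeval T.fr f' = b at h1' h2'
    generalize Polynomial.aeval T.fr' f = a' at h2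
    generalize Polynomial.aeval T.fr' f' = b' at h2'
    refine ⟨fun l hl => add_mem (h1 l hl) (h1' l hl), N + N + N' + N', fun x => ?_⟩
    obtain ⟨g, hg, g0⟩ := h2 x
    obtain ⟨g', hg', g0'⟩ := h2' x
    obtain ⟨η, hη, e0⟩ := T.nv ((a - b) x)
    obtain ⟨η₀, hη₀, e1⟩ := T.nv ((1 : Module.End ℚ W) 0)
    refine ⟨T.th (a - b) η * (g * g * g' * g'), ⟨fun y => ?_, fun l hl x => ?_⟩,
      mul_ne_zero (T.th_ne e0) (mul_ne_zero (mul_ne_zero (mul_ne_zero g0 g0) g0') g0')⟩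
    · obtain ⟨c, hc⟩ := T.riemU y η η₀ η₀
      rw [← Submodule.smul_mem_iff _ (mul_ne_zero (T.th_ne e1) (T.th_ne e1))]
      have : (T.th 1 η₀ 0 * T.th 1 η₀ 0) • (T.th (a + b) y * (T.th (a - b) η * (g * g * g' * g'))) =
          ∑ ζ ∈ T.Eta, c ζ • (T.th a ((1 / 2 : ℚ) • (y + η + η₀ + η₀) + ζ) * g *
            (T.th a ((1 / 2 : ℚ) • (y + η - η₀ - η₀) + ζ) * g) *
            (T.th b ((1 / 2 : ℚ) • (y - η + η₀ - η₀) + ζ) * g') *
            (T.th b ((1 / 2 : ℚ) • (y - η - η₀ + η₀) + ζ) * g')) := funext fun x => by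
        have := hc ((a + b) x) ((a - b) x) 0 0
        rw [show (1 / 2 : ℚ) • ((a + b) x + (a - b) x + 0 + 0) = a x by simp; module,
          show (1 / 2 : ℚ) • ((a + b) x + (a - b) x - 0 - 0) = a x by simp; module,
          show (1 / 2 : ℚ) • ((a + b) x - (a - b) x + 0 - 0) = b x by simp; module,
          show (1 / 2 : ℚ) • ((a + b) x - (a - b) x - 0 + 0) = b x by simp; module] at this
        calc _ = T.th 1 y ((a + b) x) * T.th 1 η ((a - b) x) * T.th 1 η₀ 0 * T.th 1 η₀ 0 *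
              (g x * g x * g' x * g' x) := by
              simp only [Pi.smul_apply, Pi.mul_apply, smul_eq_mul, th, End.one_apply]; ring
          _ = _ := by
              rw [this, sum_mul, Finset.sum_apply]
              refine sum_congr rfl fun ζ _ => ?_
              simp only [Pi.smul_apply, Pi.mul_apply, smul_eq_mul, th, End.one_apply]; ring
      rw [this]
      refine Submodule.sum_mem _ fun ζ hζ => Submodule.smul_mem _ _ (T.H_cast
        (T.H_mul (T.H_mul (T.H_mul (hg.1 _) (hg.1 _)) (hg'.1 _)) (hg'.1 _)) rfl ?_)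
      rw [add_assoc, ← map_add a', ← map_add b', ← map_add T.pr, ← map_add T.pr,
        show (1 / 2 : ℚ) • (y + η + η₀ + η₀) + ζ + ((1 / 2 : ℚ) • (y + η - η₀ - η₀) + ζ) =
          y + η + ζ + ζ by module,
        show (1 / 2 : ℚ) • (y - η + η₀ - η₀) + ζ + ((1 / 2 : ℚ) • (y - η - η₀ + η₀) + ζ) =
          y - η + ζ + ζ by module]
      simp only [map_add, map_sub, T.eta_pr _ hη, T.eta_pr _ hζ, add_zero, sub_zero,
        LinearMap.add_apply]
    · have e2 := T.th_inv (a := a - b) (fun l hl => sub_mem (h1 l hl) (h1' l hl)) hη hl x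
      have e3 : T.ψ (T.E ((a + b) l) ((a + b) x)) * T.ψ (T.E ((a - b) l) ((a - b) x)) =
          T.ψ (T.E (a l) (a x)) ^ 2 * T.ψ (T.E (b l) (b x)) ^ 2 := by
        simp only [sq, ← ψ_add, map_add, map_sub, LinearMap.add_apply, LinearMap.sub_apply]
        congr 1
        abel
      simp only [add_smul, ψ_add, Pi.mul_apply]
      rw [← e2]
      linear_combination T.th (a - b) η (x + l) * ((T.ψ (N' • T.E l x) * g' (x + l)) ^ 2 *
        (T.ψ (N • T.E l x) * g (x + l) + T.ψ (T.E (a l) (a x)) * g x) * hg.2 l hl x +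
        (T.ψ (T.E (a l) (a x)) * g x) ^ 2 * (T.ψ (N' • T.E l x) * g' (x + l) +
          T.ψ (T.E (b l) (b x)) * g' x) * hg'.2 l hl x - (g x * g' x) ^ 2 * e3)

variable (a : Module.End ℚ W) (a' : Module.End ℤ B)

/-- the mixed spaces -/
noncomputable def R : ℕ → ℕ → B → Submodule k (W → k)
  | 0, t, b => T.H t b
  | j + 1, t, b => ⨆ y, (R j t (b - a' (T.pr y))).map (LinearMap.mulLeft k (T.th a y))

variable {T a a'}

lemma R_cast {j : ℕ} {r r' : ℕ} {b b' : B} {f : W → k} (h : f ∈ T.R a a' j r b) (e : r = r')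
    (e' : b = b') : f ∈ T.R a a' j r' b' := e ▸ e' ▸ h

lemma R_cons {j : ℕ} {t : ℕ} {b : B} {f : W → k} (y : W) (h : f ∈ T.R a a' j t b) :
    T.th a y * f ∈ T.R a a' (j + 1) t (a' (T.pr y) + b) :=
  Submodule.mem_iSup_of_mem y ⟨f, R_cast h rfl (add_sub_cancel_left _ _).symm, rfl⟩

lemma R_ind {j : ℕ} {t : ℕ} {b : B} (X : Submodule k (W → k)) (Φ : (W → k) →ₗ[k] W → k)
    (h : ∀ y, ∀ f ∈ T.R a a' j t (b - a' (T.pr y)), Φ (T.th a y * f) ∈ X) :
    ∀ f ∈ T.R a a' (j + 1) t b, Φ f ∈ X :=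
  show T.R a a' (j + 1) t b ≤ X.comap Φ from
    iSup_le fun y => Submodule.map_le_iff_le_comap.2 (h y)

lemma R_mulH {s : ℕ} {c : B} {h : W → k} (hh : h ∈ T.H s c) (j : ℕ) {t : ℕ} :
    ∀ {b : B}, ∀ f ∈ T.R a a' j t b, f * h ∈ T.R a a' j (t + s) (b + c) := by
  induction j with
  | zero => exact fun f hf => T.H_mul hf hh
  | succ j ih =>
    exact fun {b} => R_ind _ (LinearMap.mulRight k h) fun y f hf => by
      rw [LinearMap.mulRight_apply, mul_assoc]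
      exact R_cast (R_cons y (ih f hf)) rfl (by abel)

lemma R_mul {i : ℕ} {s : ℕ} {c : B} {h : W → k} (hh : h ∈ T.R a a' i s c) (j : ℕ) {t : ℕ} :
    ∀ {b : B}, ∀ f ∈ T.R a a' j t b, h * f ∈ T.R a a' (i + j) (s + t) (c + b) := by
  induction j with
  | zero => exact fun f hf => R_mulH hf i h hh
  | succ j ih =>
    exact fun {b} => R_ind _ (LinearMap.mulLeft k h) fun y f hf => by
      rw [LinearMap.mulLeft_apply, mul_left_comm]
      exact R_cast (R_cons y (ih f hf)) rfl (by abel)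

lemma th_mem (y : W) : T.th a y ∈ T.R a a' 1 0 (a' (T.pr y)) := by
  simpa using R_cons (j := 0) (a := a) (a' := a') y T.H_one

lemma R_G {N : ℕ} {g : W → k} (hg : g ∈ T.G a a' N) (j : ℕ) {t : ℕ} :
    ∀ {b : B}, ∀ f ∈ T.R a a' j t b, f * g ^ j ∈ T.H (j * N + t) b := by
  induction j with
  | zero => exact fun f hf => by simpa [R] using hf
  | succ j ih =>
    exact fun {b} => R_ind _ (LinearMap.mulRight k _) fun y f hf => by
      rw [LinearMap.mulRight_apply, pow_succ', mul_mul_mul_comm]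
      exact T.H_cast (T.H_mul (hg.1 y) (ih f hf)) (by ring) (by abel)

end BSys

end Pool.Agent.MT
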