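import Pool.Agent.Lib.MP_d61fbb_ag.MT.BAl2

/-! The spaces of theta functions are stable under similitudes that are polynomials in Frobenius. -/

namespace Pool.Agent.MT

open Finset Module

namespace BSys

variable {k W A B : Type*} [Field k] [AddCommGroup W] [Module ℚ W] [AddCommGroup A]
  [Module ℚ A] [AddCommGroup B] (T : BSys k W A B)

/-- the balanced vectors that commute with `m` times the lattice in weight `N` -/
def Y (N m : ℕ) : AddSubgroup W where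
  carrier := {y | T.pr y = 0 ∧ ∀ l ∈ T.L, T.ψ ((2 * N) • T.E y (m • l)) = 1}
  zero_mem' := ⟨map_zero _, fun l _ => by simp⟩
  add_mem' ha hb := ⟨by rw [map_add, ha.1, hb.1, add_zero], fun l hl => by
    rw [map_add, LinearMap.add_apply, smul_add, ψ_add, ha.2 l hl, hb.2 l hl, one_mul]⟩
  neg_mem' {y} ha := ⟨by rw [map_neg, ha.1, neg_zero], fun l hl => by
    rw [map_neg, LinearMap.neg_apply, smul_neg, AddChar.map_neg_eq_inv, ha.2 l hl, inv_one]⟩

/-- A similitude `a` of multiplier `N` with its adjoint `a'` on the balance group. -/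
structure Sim (a : Module.End ℚ W) (a' : Module.End ℤ B) (N : ℕ) : Prop where
  pos : 0 < N
  E : ∀ x y, T.ψ (T.E (a x) (a y)) = T.ψ (N • T.E x y)
  bal : ∀ w, a' (T.pr (a w)) = N • T.pr w
  surj : ∀ z, ∃ w, T.pr z = T.pr (a w) ∧ (∀ x, T.ψ (T.E z x) = T.ψ (T.E (a w) x)) ∧
    ∀ x, T.Θ (x + z) = T.Θ (x + a w)
  nd1 : ∃ s : Finset W, ((T.c * N) ^ T.g) ^ 2 ≤ s.card ∧ (∀ y ∈ s, y ∈ T.Y N 1) ∧
    ∀ y ∈ s, ∀ y' ∈ s, (∀ z ∈ T.Y N 1, T.ψ ((2 * N) • T.E y z) = T.ψ ((2 * N) • T.E y' z)) → y = y'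
  nd2 : ∀ j, ∃ s : Finset W, (4 ^ j) ^ T.g ≤ s.card ∧ (∀ y ∈ s, y ∈ T.Y N (2 ^ j)) ∧
    ∀ y ∈ s, ∀ y' ∈ s, (∀ l ∈ T.L, T.ψ ((2 * N) • T.E y l) = T.ψ ((2 * N) • T.E y' l)) → y = y'

lemma U_comm (r : ℕ) (y z : W) (f : W → k) :
    T.U r z (T.U r y f) = T.ψ ((2 * r) • T.E y z) • T.U r y (T.U r z f) := funext fun x => by
  simp only [U_apply, Pi.smul_apply, smul_eq_mul, ← mul_assoc, ← ψ_add, add_right_comm x z y]
  congr 2
  simp only [map_add, T.swap z y]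
  module

lemma U_neg (r : ℕ) (y : W) (f : W → k) : T.U r y (T.U r (-y) f) = f := funext fun x => by
  simp [U_apply, ← mul_assoc, ← ψ_add, T.alt]

lemma Iv_U {N : ℕ} {y : W} (hy : y ∈ T.Y N 1) {f : W → k} (hf : f ∈ T.Iv N) : T.U N y f ∈ T.Iv N :=
  fun l hl => (T.U_comm N y l f).trans (by
    rw [show T.ψ ((2 * N) • T.E y l) = 1 by simpa using hy.2 l hl, one_smul]
    exact congrArg _ (hf l hl))

/-- the dilation -/
def dil (m : ℕ) : (W → k) →ₐ[k] W → k := AlgHom.pi fun x => Pi.evalAlgHom k _ (m • x)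

omit [Module ℚ W] in
lemma dil_apply (m : ℕ) (f : W → k) (x : W) : dil m f x = f (m • x) := rfl

lemma dil_U (r m : ℕ) (y : W) (f : W → k) :
    dil m (T.U r (m • y) f) = T.U (m ^ 2 * r) y (dil m f) := funext fun x => by
  simp only [dil_apply, U_apply, smul_add, map_nsmul, LinearMap.smul_apply, smul_smul]
  congr 3
  ring

lemma dil_inj {m : ℕ} (hm : m ≠ 0) : Function.Injective (dil m : (W → k) →ₐ[k] W → k) :=
  fun f h e => funext fun x => by
    have := congrFun e ((m : ℚ)⁻¹ • x)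
    rwa [dil_apply, dil_apply, ← Nat.cast_smul_eq_nsmul ℚ, smul_inv_smul₀ (Nat.cast_ne_zero.2 hm)]
      at this

lemma dil_H {r : ℕ} {b : B} {f : W → k} (m : ℕ) (h : f ∈ T.H r b) :
    dil m f ∈ T.H (m ^ 2 * r) (m • b) := by
  have := T.H_sc m h
  simp only [natCast_zsmul, Int.natAbs_natCast] at this
  exact this

lemma th_pow {η : W} (hη : η ∈ T.Eta) (n : ℕ) : T.th 1 η ^ n ∈ T.H n 0 ⊓ T.Iv n := by
  induction n with
  | zero => exact ⟨pow_zero (T.th 1 η) ▸ T.H_one, T.mem_Iv.2 fun l _ x => by simp⟩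
  | succ n ih =>
    rw [pow_succ]
    exact ⟨T.H_cast (T.H_mul ih.1 (T.th_one_mem η)) rfl (by rw [T.eta_pr _ hη, add_zero]),
      T.Iv_mul ih.2 (T.th_one η ▸ T.eta_inv η hη)⟩

variable {T} {a : Module.End ℚ W} {a' : Module.End ℤ B} {N : ℕ} (h : T.Sim a a' N)
include h

lemma Sim.U_th (y w : W) : T.U N w (T.th a y) = T.ψ (T.E y (a w)) • T.th a (y + a w) :=
  funext fun x => by
    simp only [U_apply, th, Pi.smul_apply, smul_eq_mul, ← h.E, map_add, LinearMap.add_apply, ψ_add,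
      add_assoc, add_comm y]
    ring

lemma Sim.R_U (w : W) (j : ℕ) {t : ℕ} : ∀ {b : B}, ∀ f ∈ T.R a a' j t b,
    T.U (j * N + t) w f ∈ T.R a a' j t (b + (j * N + t) • T.pr w) := by
  induction j with
  | zero => exact fun f hf => (by rw [zero_mul, zero_add] : t = 0 * N + t) ▸ T.H_U w hf
  | succ j ih =>
    exact fun {b} => R_ind _ (T.U _ w) fun y f hf => by
      rw [show (j + 1) * N + t = N + (j * N + t) by ring, U_mul, h.U_th, smul_mul_assoc]
      refine Submodule.smul_mem _ _ (R_cast (R_cons _ (ih f hf)) rfl ?_)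
      rw [map_add, map_add, h.bal]
      module

lemma Sim.mix {φ f : W → k} (hφ : φ ∈ T.R a a' 1 0 0) (hf : f ∈ T.H N 0) (y : W) :
    (fun x => φ (x + y) * f (x - y)) ∈ T.R a a' 1 N 0 := by
  have := R_mulH (T.H_U (-y) hf) 1 _ (h.R_U y 1 φ hφ)
  simp only [one_mul, add_zero, zero_add, map_neg, smul_neg, add_neg_cancel] at this
  rwa [show T.U N y φ * T.U N (-y) f = fun x => φ (x + y) * f (x - y) from funext fun x => by
    rw [Pi.mul_apply, U_apply, U_apply, mul_mul_mul_comm, ← ψ_add, sub_eq_add_neg]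
    simp] at this

lemma Sim.bound [Infinite k] {N' : ℕ} (hG : ∀ x, ∃ g ∈ T.G a a' N', g x ≠ 0) (j : ℕ) {t : ℕ}
    (ht : 0 < t) :
    Module.rank k (T.R a a' j t 0 ⊓ T.Iv (j * N + t) :) ≤ ((T.c * (j * N' + t)) ^ T.g : ℕ) := by
  refine bal_rank _ _ _ j _ hG (fun g hg f hf => ?_) (T.dim (j * N' + t) (by omega))
  refine ⟨R_G hg j f hf.1, T.mem_Iv.2 fun l hl x => ?_⟩
  have e1 := T.mem_Iv.1 hf.2 l hl x
  have e2 := congrArg (· ^ j) (hg.2 l hl x)
  simp only [mul_pow, h.E, ← AddChar.map_nsmul_eq_pow, smul_smul] at e2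
  simp only [add_smul, ψ_add, Pi.mul_apply, Pi.pow_apply] at e1 ⊢
  linear_combination T.ψ (t • T.E l x) * f (x + l) * e2 + g x ^ j * e1

lemma Sim.th_Iv (ha : ∀ l ∈ T.L, a l ∈ T.L) {η : W} (hη : η ∈ T.Eta) : T.th a η ∈ T.Iv N :=
  T.mem_Iv.2 fun l hl x => h.E l x ▸ T.th_inv ha hη hl x

/-- the two diagonal restrictions -/
lemma Sim.diag [Infinite k] {N' : ℕ} (hG : ∀ x, ∃ g ∈ T.G a a' N', g x ≠ 0)
    (ha : ∀ l ∈ T.L, a l ∈ T.L) {η : W} (hη : η ∈ T.Eta) {f : W → k} (hf : f ∈ T.H N 0 ⊓ T.Iv N) :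
    f 0 • dil 2 (T.th a η) ∈ T.R a a' 2 (N + N) 0 ∧
      T.th a η 0 • dil 2 f ∈ T.R a a' 2 (N + N) 0 := by
  have : Module.Finite k (T.R a a' 1 N 0 ⊓ T.Iv (1 * N + N) :) :=
    Module.rank_lt_aleph0_iff.1 ((h.bound hG 1 h.pos).trans_lt Cardinal.natCast_lt_aleph0)
  have m : ∀ y, T.pr y = 0 → T.th a y ∈ T.R a a' 1 0 0 := fun y e =>
    R_cast (th_mem y) rfl (by rw [e, map_zero])
  have hF : ∀ y, (fun x => T.th a η (x + y) * f (x - y)) ∈ T.R a a' 1 N 0 ⊓ T.Iv (1 * N + N) :=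
    fun y => ⟨h.mix (m η (T.eta_pr _ hη)) hf.1 y, T.mem_Iv.2 fun l hl x => by
      rw [← T.mem_Iv.1 (h.th_Iv ha hη) l hl (x + y), ← T.mem_Iv.1 hf.2 l hl (x - y),
        mul_mul_mul_comm, ← ψ_add, add_right_comm x l y, add_sub_right_comm x l y]
      congr 2
      rw [map_add, map_sub]
      module⟩
  have n : (fun x => f (-x)) ∈ T.H N 0 := by simpa using T.H_sc (-1) hf.1
  have e : ∀ x, T.th a η (-x) = T.th a (-η) x := fun x => by
    simp only [th, map_neg, LinearMap.neg_apply]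
    rw [← T.even, neg_add, neg_neg]
  constructor
  · have := bal_diag _ (T.R a a' 2 (N + N) 0) _ id hF fun x₀ b hb => by
      have := R_mul (h.mix (m η (T.eta_pr _ hη)) n x₀) 1 b hb.1
      simpa only [neg_sub, add_comm x₀, add_zero, id] using this
    rwa [show (fun x => T.th a η (x + id x) * f (x - id x)) = f 0 • dil 2 (T.th a η) from
      funext fun x => by simp [dil_apply, two_smul, mul_comm]] at this
  · have := bal_diag _ (T.R a a' 2 (N + N) 0) _ Neg.neg hF fun x₀ b hb => by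
      have := R_mul (h.mix (m (-η) (by rw [map_neg, T.eta_pr _ hη, neg_zero])) hf.1 (-x₀)) 1 b hb.1
      simpa only [← e, neg_add, neg_neg, sub_neg_eq_add, add_comm x₀, add_zero] using this
    rwa [show (fun x => T.th a η (x + -x) * f (x - -x)) = T.th a η 0 • dil 2 f from
      funext fun x => by simp [dil_apply, two_smul]] at this

omit h in
lemma th_congr {y z w : W} (e1 : ∀ x, T.ψ (T.E z x) = T.ψ (T.E w x))
    (e2 : ∀ x, T.Θ (x + z) = T.Θ (x + w)) : T.th a (y + z) = T.th a (y + w) := funext fun x => by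
  simp only [th, map_add, LinearMap.add_apply, ψ_add, e1, ← add_assoc, e2]

/-- transport of a statement on one translate to all translates -/
lemma Sim.all (η y : W) : ∃ (c : k) (w : W), T.th a y = c • T.U N w (T.th a η) ∧
    a' (T.pr y) = a' (T.pr η) + N • T.pr w := by
  obtain ⟨w, e, e1, e2⟩ := h.surj (y - η)
  refine ⟨(T.ψ (T.E η (a w)))⁻¹, w, ?_, ?_⟩
  · rw [h.U_th, inv_smul_smul₀ (T.ψ_ne _), ← th_congr e1 e2, add_sub_cancel]
  · rw [← h.bal, ← e, ← map_add, ← map_add, add_sub_cancel]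

lemma Sim.two (h2 : ∀ η ∈ T.Eta, T.Θ η ≠ 0 → dil 2 (T.th a η) ∈ T.R a a' 2 (N + N) 0) (y : W) :
    dil 2 (T.th a y) ∈ T.R a a' 2 (N + N) (2 • a' (T.pr y)) := by
  obtain ⟨η, hη, e0⟩ := T.nv 0
  obtain ⟨c, w, e1, e2⟩ := h.all η y
  have e3 : w = 2 • (1 / 2 : ℚ) • w := by module
  rw [e1, map_smul, e3, dil_U, show 2 ^ 2 * N = 2 * N + (N + N) by ring]
  refine Submodule.smul_mem _ _ (R_cast (h.R_U _ 2 _ (h2 η hη (by simpa using e0))) rfl ?_)
  rw [e2, T.eta_pr _ hη, map_zero, e3, map_nsmul, ← e3]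
  module

omit h in
lemma four (h2 : ∀ y, dil 2 (T.th a y) ∈ T.R a a' 2 (N + N) (2 • a' (T.pr y))) {t : ℕ} {b : B} :
    ∀ f ∈ T.R a a' 4 t b, f ∈ T.R a a' 2 (N + N + t) b := by
  refine R_ind _ LinearMap.id fun y₁ => R_ind _ (LinearMap.mulLeft k (T.th a y₁)) fun y₂ =>
    R_ind _ (LinearMap.mulLeft k (T.th a y₁) ∘ₗ LinearMap.mulLeft k (T.th a y₂)) fun y₃ =>
    R_ind _ (LinearMap.mulLeft k (T.th a y₁) ∘ₗ LinearMap.mulLeft k (T.th a y₂) ∘ₗ
      LinearMap.mulLeft k (T.th a y₃)) fun y₄ f hf => ?_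
  change T.th a y₁ * (T.th a y₂ * (T.th a y₃ * (T.th a y₄ * f))) ∈ _
  obtain ⟨c, hc⟩ := T.riemU y₁ y₂ y₃ y₄
  have : T.th a y₁ * (T.th a y₂ * (T.th a y₃ * (T.th a y₄ * f))) = ∑ η ∈ T.Eta,
      (c η * (T.th 1 ((1 / 2 : ℚ) • (y₁ + y₂ - y₃ - y₄) + η) 0 *
      T.th 1 ((1 / 2 : ℚ) • (y₁ - y₂ + y₃ - y₄) + η) 0 *
      T.th 1 ((1 / 2 : ℚ) • (y₁ - y₂ - y₃ + y₄) + η) 0)) •
      (dil 2 (T.th a ((1 / 2 : ℚ) • (y₁ + y₂ + y₃ + y₄) + η)) * f) := funext fun x => by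
    have := hc (a x) (a x) (a x) (a x)
    rw [show (1 / 2 : ℚ) • (a x + a x + a x + a x) = a (2 • x) by rw [map_nsmul]; module,
      show (1 / 2 : ℚ) • (a x + a x - a x - a x) = 0 by module,
      show (1 / 2 : ℚ) • (a x - a x + a x - a x) = 0 by module,
      show (1 / 2 : ℚ) • (a x - a x - a x + a x) = 0 by module] at this
    calc _ = T.th 1 y₁ (a x) * T.th 1 y₂ (a x) * T.th 1 y₃ (a x) * T.th 1 y₄ (a x) * f x := by
          simp only [Pi.mul_apply, th, End.one_apply]; ring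
      _ = _ := by
          rw [this, sum_mul, Finset.sum_apply]
          refine sum_congr rfl fun ζ _ => ?_
          simp only [Pi.smul_apply, Pi.mul_apply, smul_eq_mul, th, End.one_apply, dil_apply]; ring
  refine this.symm ▸ Submodule.sum_mem _ fun η hη => Submodule.smul_mem _ _
    (R_cast (R_mulH hf 2 _ (h2 _)) rfl ?_)
  rw [← map_nsmul, ← map_nsmul, show 2 • ((1 / 2 : ℚ) • (y₁ + y₂ + y₃ + y₄) + η) =
    y₁ + y₂ + y₃ + y₄ + η + η by module]
  simp only [map_add, T.eta_pr _ hη, add_zero]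
  abel

omit h in
lemma dil_R {m s : ℕ} (hm : ∀ y, dil m (T.th a y) ∈ T.R a a' 2 s (m • a' (T.pr y))) (j : ℕ)
    {t : ℕ} : ∀ {b : B}, ∀ f ∈ T.R a a' j t b,
      dil m f ∈ T.R a a' (2 * j) (j * s + m ^ 2 * t) (m • b) := by
  induction j with
  | zero => exact fun f hf => T.H_cast (T.dil_H m hf) (by ring) rfl
  | succ j ih =>
    exact fun {b} => R_ind _ (dil m).toLinearMap fun y f hf => by
      rw [AlgHom.toLinearMap_apply, map_mul, mul_comm (dil m _)]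
      exact R_cast (R_mul (ih f hf) 2 _ (hm y)) (by ring) (by module)

omit h in
lemma dil_step (h2 : ∀ y, dil 2 (T.th a y) ∈ T.R a a' 2 (N + N) (2 • a' (T.pr y))) {m s : ℕ}
    (hm : ∀ y, dil m (T.th a y) ∈ T.R a a' 2 s (m • a' (T.pr y))) {f : W → k} {b : B}
    (hf : dil 2 f ∈ T.R a a' 2 (N + N) b) :
    dil (m * 2) f ∈ T.R a a' 2 (N + N + (2 * s + m ^ 2 * (N + N))) (m • b) := by
  have := four h2 _ (dil_R hm 2 _ hf)
  rwa [show dil m (dil 2 f) = dil (m * 2) f from funext fun x => by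
    simp only [dil_apply, smul_smul, mul_comm]] at this

omit h in
lemma dil_pow (h2 : ∀ y, dil 2 (T.th a y) ∈ T.R a a' 2 (N + N) (2 • a' (T.pr y))) (j : ℕ) :
    ∃ t, 2 * N + t = 4 ^ (j + 1) * N ∧ N ≤ t ∧ ∀ f b, dil 2 f ∈ T.R a a' 2 (N + N) (2 • b) →
      dil (2 ^ (j + 1)) f ∈ T.R a a' 2 t (2 ^ (j + 1) • b) := by
  induction j with
  | zero => exact ⟨N + N, by ring, by omega, fun f b hf => hf⟩
  | succ j ih =>
    obtain ⟨t, e, -, ih⟩ := ih
    refine ⟨_, ?_, by omega, fun f b hf =>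
      R_cast (dil_step h2 (fun y => ih _ _ (h2 y)) hf) rfl (smul_smul _ _ _)⟩
    have : (2 ^ (j + 1)) ^ 2 = 4 ^ (j + 1) := by rw [← pow_mul, mul_comm, pow_mul]; rfl
    rw [this, pow_succ 4 (j + 1)]
    linarith

omit h in
/-- translates with different characters are independent -/
lemma mult (Z Q : Submodule k (W → k)) [Module.Finite k Q] (s : Finset W) (Φ : (W → k) →ₗ[k] W → k)
    (hΦ : Function.Injective Φ) (hZ : Z ≤ T.Iv N) (hs : s.Nonempty)
    (hQ : ∀ y ∈ s, ∀ f ∈ Z, Φ (T.U N y f) ∈ Q) (nd : ∀ y ∈ s, ∀ y' ∈ s,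
      (∀ l ∈ T.L, T.ψ ((2 * N) • T.E y l) = T.ψ ((2 * N) • T.E y' l)) → y = y') :
    Module.Finite k Z ∧ s.card * finrank k Z ≤ finrank k Q := by
  let χ : W → Multiplicative T.L →* k := fun y =>
    (T.ψ.compAddMonoidHom (((2 * N) • T.E y).toAddMonoidHom.comp T.L.subtype)).toMonoidHom
  have d := (linearIndependent_monoidHom (Multiplicative T.L) k).comp (fun y : s => χ y)
    fun y y' e => Subtype.ext (nd _ y.2 _ y'.2 fun l hl => DFunLike.congr_fun e ⟨l, hl⟩)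
  let Ψ : (s → Z) →ₗ[k] Q := LinearMap.codRestrict Q
    (Φ ∘ₗ ∑ y : s, T.U N y ∘ₗ Z.subtype ∘ₗ LinearMap.proj y) fun z => by
      simp only [LinearMap.comp_apply, LinearMap.sum_apply, map_sum]
      exact Q.sum_mem fun y _ => hQ _ y.2 _ (z y).2
  have inj : Function.Injective Ψ := (injective_iff_map_eq_zero _).2 fun z e => by
    have e1 : ∑ y : s, T.U N y (z y) = 0 := by
      have := hΦ ((congrArg Subtype.val e).trans (map_zero Φ).symm)
      rwa [LinearMap.sum_apply] at this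
    funext y
    have : T.U N y (z y) = 0 := funext fun x => Fintype.linearIndependent_iff.1 d
      (fun y => T.U N y (z y) x) (funext fun l => by
        have := congrFun (congrArg (T.U N l.toAdd) e1) x
        rw [map_sum, map_zero, Finset.sum_apply] at this
        rw [Finset.sum_apply]
        refine (sum_congr rfl fun y _ => ?_).trans this
        rw [T.U_comm, show T.U N _ (z y) = z y from hZ (z y).2 _ l.toAdd.2]
        exact mul_comm _ _) y
    have e2 := T.U_neg N (-y) (z y)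
    rw [neg_neg, this, map_zero] at e2
    exact Subtype.ext e2.symm
  have := Module.Finite.of_injective Ψ inj
  obtain ⟨y, hy⟩ := hs
  have := Module.Finite.of_surjective (LinearMap.proj (R := k) (φ := fun _ : s => Z) ⟨y, hy⟩)
    fun z => ⟨fun _ => z, rfl⟩
  refine ⟨this, ?_⟩
  simpa [finrank_pi_fintype] using LinearMap.finrank_le_finrank_of_injective inj

omit h in
theorem Sim.alpha [Infinite k] (f : Polynomial ℤ)
    (h : T.Sim (Polynomial.aeval T.fr f) (Polynomial.aeval T.fr' f) N) (y : W) :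
    T.th (Polynomial.aeval T.fr f) y ∈ T.H N (Polynomial.aeval T.fr' f (T.pr y)) := by
  obtain ⟨ha, N', hG⟩ := T.complement f
  generalize Polynomial.aeval T.fr f = a at *
  generalize Polynomial.aeval T.fr' f = a' at *
  obtain ⟨η, hη, e0⟩ := T.nv 0
  have n0 : ∀ (b : Module.End ℚ W), ∀ ζ, T.Θ ζ ≠ 0 → T.th b ζ 0 ≠ 0 := fun b ζ e =>
    T.th_ne (by simpa using e)
  rw [zero_add] at e0
  have h2 := h.two fun ζ hζ _ => (Submodule.smul_mem_iff _ (pow_ne_zero N (n0 1 η e0))).1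
    (h.diag hG ha hζ (T.th_pow hη N)).1
  suffices T.th a η ∈ T.H N 0 by
    obtain ⟨c, w, e1, e2⟩ := h.all η y
    rw [e1, e2, T.eta_pr _ hη, map_zero]
    exact Submodule.smul_mem _ _ (T.H_U w this)
  obtain ⟨j, hj⟩ := bal_growth T.g (2 * N') N h.pos
  obtain ⟨t, et, lt, hd⟩ := dil_pow h2 j
  have t0 := h.pos.trans_le lt
  have hb := h.bound hG 2 t0
  have : Module.Finite k (T.R a a' 2 t 0 ⊓ T.Iv (2 * N + t) :) :=
    Module.rank_lt_aleph0_iff.1 (hb.trans_lt Cardinal.natCast_lt_aleph0)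
  have m0 : 2 ^ (j + 1) ≠ 0 := by positivity
  have sq : (2 ^ (j + 1)) ^ 2 * N = 2 * N + t := by
    rw [et, ← pow_mul, mul_comm (j + 1), pow_mul]; rfl
  have dU : ∀ y (f : W → k), dil (2 ^ (j + 1)) (T.U N y f) =
      T.U (2 * N + t) (((2 ^ (j + 1) : ℕ) : ℚ)⁻¹ • y) (dil (2 ^ (j + 1)) f) := fun y f => by
    rw [← sq, ← dil_U, ← Nat.cast_smul_eq_nsmul ℚ, smul_inv_smul₀ (Nat.cast_ne_zero.2 m0)]
  have dR : ∀ y, T.pr y = 0 → ∀ f : W → k, dil (2 ^ (j + 1)) f ∈ T.R a a' 2 t 0 →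
      dil (2 ^ (j + 1)) (T.U N y f) ∈ T.R a a' 2 t 0 := fun y hy f hf => by
    rw [dU]
    refine R_cast (h.R_U _ 2 _ hf) rfl ?_
    rw [← sq, pow_two, mul_right_comm, mul_smul, ← map_nsmul, ← Nat.cast_smul_eq_nsmul ℚ (2 ^ (j + 1)),
      smul_inv_smul₀ (Nat.cast_ne_zero.2 m0), hy, smul_zero, add_zero]
  obtain ⟨s₂, c2, y2, n2⟩ := h.nd2 (j + 1)
  obtain ⟨s₁, c1, y1, n1⟩ := h.nd1
  obtain ⟨fZ, hZ⟩ := mult ((T.R a a' 2 t 0).comap (dil (2 ^ (j + 1))).toLinearMap ⊓ T.Iv N)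
    (T.R a a' 2 t 0 ⊓ T.Iv (2 * N + t)) s₂ (dil (2 ^ (j + 1))).toLinearMap (dil_inj m0) inf_le_right
    (card_pos.1 (lt_of_lt_of_le (by positivity) c2)) (fun y hy f hf =>
      ⟨dR y (y2 y hy).1 f hf.1, fun l hl => by
        have := T.dil_U N (2 ^ (j + 1)) l (T.U N y f)
        rw [sq, T.U_comm, (y2 y hy).2 l hl, one_smul,
          show T.U N _ f = f from hf.2 _ (T.L.nsmul_mem hl _)] at this
        exact this.symm⟩) n2
  have le : T.H N 0 ⊓ T.Iv N ≤ (T.R a a' 2 t 0).comap (dil (2 ^ (j + 1))).toLinearMap ⊓ T.Iv N :=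
    fun f hf => ⟨R_cast (hd f 0 (R_cast ((Submodule.smul_mem_iff _ (n0 a η e0)).1
      (h.diag hG ha hη hf).2) rfl (smul_zero _).symm)) rfl (smul_zero _), hf.2⟩
  have := Submodule.finiteDimensional_of_le le
  have heis := bal_heis2 (fun z : T.Y N 1 => T.U N z) (fun z => T.U_neg N z)
    (fun i : s₁ => ⟨i, y1 _ i.2⟩)
    (fun i => T.ψ.compAddMonoidHom (((2 * N) • T.E i).toAddMonoidHom.comp (T.Y N 1).subtype))
    (fun i i' e => Subtype.ext (n1 _ i.2 _ i'.2 fun l hl => DFunLike.congr_fun e ⟨l, hl⟩))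
    (fun i z => T.U_comm N i z) (c1.trans_eq (Fintype.card_coe _).symm)
  have sH : ∀ z : T.Y N 1, ∀ v ∈ T.H N 0 ⊓ T.Iv N, T.U N z v ∈ T.H N 0 ⊓ T.Iv N := fun z v hv =>
    ⟨T.H_cast (T.H_U z hv.1) rfl (by rw [z.2.1, smul_zero, add_zero]), T.Iv_U z.2 hv.2⟩
  have b1 := heis ⊥ _ (fun z v hv => by rw [(Submodule.mem_bot k).1 hv, map_zero]; rfl) sH
    (bot_lt_iff_ne_bot.2 ((Submodule.ne_bot_iff _).2 ⟨_, T.th_pow hη N, fun e =>
      pow_ne_zero N (n0 1 η e0) (congrFun e 0)⟩))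
  by_contra hn
  have b2 := heis _ ((T.R a a' 2 t 0).comap (dil (2 ^ (j + 1))).toLinearMap ⊓ T.Iv N) sH
    (fun z v hv => ⟨dR z z.2.1 v hv.1, T.Iv_U z.2 hv.2⟩)
    (lt_of_le_of_ne le fun e => hn (e.ge ⟨R_cast (hd _ _ (h2 η)) rfl (by
      rw [T.eta_pr _ hη, map_zero, smul_zero]), h.th_Iv ha hη⟩).1)
  have b3 := (Nat.mul_le_mul c2 (show 2 * (T.c * N) ^ T.g ≤ _ by omega)).trans
    (hZ.trans (finrank_le_of_rank_le hb))
  have b4 := mul_lt_mul_of_pos_left hj (pow_pos T.c_pos T.g)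
  have b5 : (T.c * (2 * N' + t)) ^ T.g ≤ (T.c * (2 * N' + 4 ^ (j + 1) * N)) ^ T.g := by
    gcongr
    omega
  simp only [mul_pow] at b3 b4 b5
  linarith

end BSys

end Pool.Agent.MT
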