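import Pool.Agent.Lib.MP_d61fbb_ag.MT.BO1a
import Pool.Agent.Lib.MP_d61fbb_ag.MT.BReds
import Pool.Agent.Lib.MP_d61fbb_ag.MT.CIn2

/-! Ordinarity: the filtration. -/

set_option autoImplicit false

noncomputable section

namespace Pool.Agent.MT

namespace BO

open Matrix Polynomial Sum
open Pool.Agent.Lib.MP_696deb_nt.B2 (Qbar Gam Plc Dec Ine IsFrob Op jC mem_Dec)

theorem e_sg {k : Type} [Field k] (S : TSys k 0) (l : Pr) (a : ℚ_[l]) :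
    S.e (sg l a) = 1 ↔ ‖a‖ ≤ 1 := by
  rw [S.ker]
  refine ⟨fun h => by simpa only [bo_cp_sg] using h l l.2.ne_zero, fun h l' _ => ?_⟩
  by_cases e : l' = l
  · subst e; rwa [bo_cp_sg]
  · rw [bo_cp_sg_ne e, norm_zero]; exact zero_le_one

variable {τ : Matrix (Fin 4) (Fin 4) ℂ} {K : IntermediateField ℚ ℂ} {M : MumfordType τ K}
  {A : AR M}

/-- the local matrix -/
abbrev loc (M : MumfordType τ K) (σ : ℂ ≃ₐ[K] ℂ) (l : Pr) : M8 ℚ_[l] :=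
  (M.ρ σ l).val.map ((↑) : ℤ_[l] → ℚ_[l])

/-- the cyclotomic character -/
abbrev chi (A : AR M) (σ : ℂ ≃ₐ[K] ℂ) (l : Pr) : ℚ_[l] := ((cycP l (A.res σ)).val : ℚ_[l])

theorem gal_e (σ : ℂ ≃ₐ[K] ℂ) (l : Pr) (a : ℚ_[l]) :
    A.res σ (A.S.e (sg l a)) = A.S.e (sg l (chi A σ l * a)) :=
  gal_psi (A.S.e.compAddMonoidHom (sg l)) (fun x hx => (e_sg A.S l x).2 hx) (A.res σ) a

theorem Ef_loc (σ : ℂ ≃ₐ[K] ℂ) (l : Pr) (x y : Vl l) :
    Ef (loc M σ l *ᵥ x) (loc M σ l *ᵥ y) = chi A σ l * Ef x y := by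
  refine sub_eq_zero.1 (bo_zero_of_bdd fun t => (e_sg A.S l _).1 ?_)
  have h := A.gale σ (sgv l (t • x)) (sgv l y)
  rw [mulVec_sgv, mulVec_sgv, Ef_sgv, Ef_sgv, gal_e, mA_map, mulVec_smul, Ef_smul_left,
    Ef_smul_left] at h
  rw [mul_sub, map_sub, AddChar.map_sub_eq_div, ← h, mul_left_comm t, div_self]
  obtain ⟨n, hn, h1⟩ := A.S.e_pow (sg l (chi A σ l * (t * Ef x y)))
  exact fun h0 => by rw [h0, zero_pow hn] at h1; exact zero_ne_one h1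

theorem exists_chi_ne (v : Frb A) : ∃ σ, A.res σ ∈ Ine v.w ∧ chi A σ v.p ≠ 1 := by
  obtain ⟨g, hg, h⟩ := exists_ine_pow v.w 1 (c := 2) (by rw [v.hp]; exact v.not_dvd_two)
  obtain ⟨σ, rfl⟩ := v.ine hg
  refine ⟨σ, hg, fun h1 => ?_⟩
  have hp : ((v.p : ℕ) : ℚ_[v.p]) ≠ 0 := by exact_mod_cast v.p.2.ne_zero
  have h2 : A.S.e (sg v.p ((v.p : ℕ) : ℚ_[v.p])⁻¹) ^ v.w.p ^ 1 = 1 := by
    rw [pow_one, v.hp, ← AddChar.map_nsmul_eq_pow, ← map_nsmul, nsmul_eq_mul, mul_inv_cancel₀ hp,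
      e_sg, norm_one]
  have h3 := h _ h2
  rw [gal_e, h1, one_mul, sq, left_eq_mul₀ fun h0 => by
    rw [h0, zero_pow (pow_ne_zero _ v.w.prime.ne_zero)] at h2; exact zero_ne_one h2, e_sg,
    norm_inv, Padic.norm_p, inv_inv] at h3
  exact absurd h3 (not_le.2 (by exact_mod_cast v.p.2.one_lt))

variable {v : Frb A} {R : FSys (kk v.w) v.p}

theorem red_th (h : RedOf v R) (η : I2 4 → ZMod 2) (x : W) :
    R.th η x = rd v.w (A.S.th η x) := by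
  rw [TSys.th, TSys.th, v.rd_rt 1 _ h.int, show R.e = v.eb from AddChar.ext _ _ h.e,
    show R.Θ = _ from funext h.Θ]

theorem red_ine (h : RedOf v R) {σ : ℂ ≃ₐ[K] ℂ} (hσ : A.res σ ∈ Ine v.w) (η : I2 4 → ZMod 2)
    (x : W) : R.th η (mA (M.ρ σ) *ᵥ x) = 1 * R.th η x := by
  have h1 : v.w.V (A.S.th η x) ≤ 1 := v.rt_int 1 _ h.int x
  rw [one_mul, red_th h, red_th h, ← A.gal, rd_eq_rd _ (by rwa [mem_Dec.1 hσ.1]) h1]
  exact hσ.2 _ h1

theorem unr (hI : INJ) (h : RedOf v R) {σ : ℂ ≃ₐ[K] ℂ} (hσ : A.res σ ∈ Ine v.w) {l : Pr}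
    (hl : l ≠ v.p) : M.ρ σ l = 1 := by
  have h1 : ∀ x : Vl l, loc M σ l *ᵥ x = x := fun x => funext fun i => by
    refine sub_eq_zero.1 (bo_zero_of_bdd fun t => ?_)
    have h2 := (hI _ _ R.toTSys _ _ 1 fun η => red_ine h hσ η (sgv l ((2 * t) • x))).1 i l
      fun e => hl (Subtype.ext e)
    have h3 := congrFun (cpv_sub l (mA (M.ρ σ) *ᵥ sgv l ((2 * t) • x)) (sgv l ((2 * t) • x))) i
    rw [cpv_mulVec, cpv_sgv, mA_map, mulVec_smul] at h3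
    rw [map_smul, show cp l ((mA (M.ρ σ) *ᵥ sgv l ((2 * t) • x) - sgv l ((2 * t) • x)) i) = _
      from h3] at h2
    convert h2 using 2
    simp only [Pi.sub_apply, Pi.smul_apply, smul_eq_mul, Rat.smul_def]
    push_cast
    ring
  refine Units.ext (Matrix.ext fun i j => Subtype.ext ?_)
  have := congrFun (h1 (Pi.single j 1)) i
  rw [mulVec_single_one] at this
  refine this.trans ?_
  rw [Units.val_one, one_apply, Pi.single_apply]
  split_ifs <;> rfl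

theorem sub_mem (hI : INJ) (h : RedOf v R) {σ : ℂ ≃ₐ[K] ℂ} (hσ : A.res σ ∈ Ine v.w)
    (x : Vl v.p) : loc M σ v.p *ᵥ x - x ∈ core (K := ℚ_[v.p]) (R.K0 v.p) := fun t => by
  have h2 := (hI _ _ R.toTSys _ _ 1 fun η => red_ine h hσ η (sgv v.p (t • x))).2 v.p rfl
  rwa [cpv_sub, cpv_mulVec, cpv_sgv, mA_map, mulVec_smul, ← smul_sub] at h2

/-- vectors orthogonal to the image of `ρ - 1` are eigenvectors -/
theorem eig {σ : ℂ ≃ₐ[K] ℂ} {l : Pr} {y : Vl l} (hy : ∀ x, Ef (loc M σ l *ᵥ x - x) y = 0) :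
    loc M σ l *ᵥ y = chi A σ l • y := by
  refine sub_eq_zero.1 (eq_zero_of_Ef fun z => ?_)
  obtain ⟨x, rfl⟩ := gl_surj (M.ρ σ l) z
  have := hy x
  rw [Ef_sub_left, sub_eq_zero] at this
  rw [Ef_sub_right, Ef_loc (A := A), Ef_smul_right, this, sub_self]

end BO

open Matrix Polynomial BO

theorem ord_of_key (hI : INJ) (hK : KEY) : ORD := by
  intro τ K M A hτ v R h P hP hO hs
  let V0 := core (K := ℚ_[v.p]) (R.K0 v.p)
  have le : ∀ x ∈ V0, x ∈ R.K0 v.p := fun x hx => by simpa using hx 1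
  have key : ∀ Q : ℚ_[v.p][X], (∀ x : Vl v.p, aeval (loc M v.φ v.p) Q *ᵥ x ∈ V0) →
      ∀ u : PadicAlgCl v.p, aeval u P = 0 → ‖u‖ = 1 → aeval u Q = 0 := fun Q hQ =>
    hK τ K M A hτ v R h P hP Q fun x => by rw [h.π]; exact le _ (hQ x)
  have frob : ∀ x ∈ V0, loc M v.φ v.p *ᵥ x ∈ V0 := fun x hx t => by
    rw [← mulVec_smul, loc, ← h.π]; exact K0_frob R (hx t)
  have hd : Module.finrank ℚ_[v.p] V0 ≤ 4 := by
    obtain ⟨Q, h0, h1, h2⟩ := exists_poly_quot _ V0 frob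
    obtain ⟨s, h3, h4⟩ := four_unit_roots v.p hO hs
    have := four_le_natDegree h0 fun u hu => key Q h2 u (h4 u hu).1 (h4 u hu).2
    rw [Fintype.card_sum, Fintype.card_fin] at h1
    change _ + Module.finrank ℚ_[v.p] V0 = _ at h1
    omega
  obtain ⟨σ0, h0, h1⟩ := exists_chi_ne v
  obtain ⟨rank, iso⟩ := lagr_of_coiso V0 (fun y hy => by
    have h2 := sub_mem hI h h0 y
    rw [eig (A := A) fun x => hy _ (sub_mem hI h h0 x)] at h2
    have h3 := V0.smul_mem (chi A σ0 v.p - 1)⁻¹ h2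
    rwa [← one_smul ℚ_[v.p] y, smul_smul, mul_one, ← sub_smul, smul_smul,
      inv_mul_cancel₀ (sub_ne_zero.2 h1), one_smul] at h3) hd
  exact ⟨V0, ⟨rank, iso, le, fun U hU x hx t => hU _ (U.smul_mem t hx), frob,
    fun σ hσ l hl => unr hI h hσ hl, fun σ hσ => ⟨cycP v.p (A.res σ), gal_e σ v.p,
      fun y hy => eig fun x => iso _ (sub_mem hI h hσ x) y hy, sub_mem hI h hσ⟩⟩, key⟩

end Pool.Agent.MT
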