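import Pool.Agent.Lib.MP_d61fbb_ag.MT.BO1
import Pool.Agent.Lib.MP_d61fbb_ag.MT.BO2
import Pool.Agent.Lib.MP_d61fbb_ag.MT.Top
import Pool.Agent.Lib.MP_d61fbb_ag.MT.T1
import Pool.Agent.Lib.MP_d61fbb_ag.MT.BW2
import Pool.Agent.Lib.MP_d61fbb_ag.MT.BV2

/-! Unit roots are eigenvalues on the etale quotient: approximation by integer polynomials. -/

set_option autoImplicit false

noncomputable section

namespace Pool.Agent.MT

open Matrix Polynomial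

section approx
variable {p : ℕ} [Fact p.Prime]

theorem bo3_approx (Q : ℤ_[p][X]) (n : ℕ) : ∃ (Qn : ℤ[X]) (R : ℤ_[p][X]),
    Qn.map (Int.castRingHom ℤ_[p]) = Q + C ((p : ℤ_[p]) ^ n) * R := by
  induction Q using Polynomial.induction_on' with
  | add a b ha hb =>
    obtain ⟨a1, a2, ea⟩ := ha
    obtain ⟨b1, b2, eb⟩ := hb
    exact ⟨a1 + b1, a2 + b2, by rw [Polynomial.map_add, ea, eb]; ring⟩
  | monomial i a =>
    obtain ⟨c, hc⟩ := Ideal.mem_span_singleton'.1 (PadicInt.appr_spec n a)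
    refine ⟨monomial i (a.appr n : ℤ), monomial i (-c), ?_⟩
    rw [map_monomial, C_mul_monomial, ← map_add]
    congr 1
    simp only [eq_intCast, Int.cast_natCast]
    linear_combination hc

theorem bo3_scale (Q : ℚ_[p][X]) : ∃ (s : ℕ) (Q' : ℤ_[p][X]),
    Q'.map (algebraMap ℤ_[p] ℚ_[p]) = C ((p : ℚ_[p]) ^ s) * Q := by
  have hp : (1 : ℝ) < p := by exact_mod_cast (Fact.out : p.Prime).one_lt
  obtain ⟨s, hs⟩ := pow_unbounded_of_one_lt (∑ i ∈ Q.support, ‖Q.coeff i‖) hp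
  refine ⟨s, (mem_lifts _).1 ((lifts_iff_coeff_lifts _).2 fun i => ?_)⟩
  have h1 : ‖Q.coeff i‖ ≤ (p : ℝ) ^ s := by
    by_cases h : i ∈ Q.support
    · exact (Finset.single_le_sum (f := fun i => ‖Q.coeff i‖) (fun _ _ => norm_nonneg _) h).trans hs.le
    · rw [notMem_support_iff.1 h, norm_zero]; positivity
  refine ⟨⟨(p : ℚ_[p]) ^ s * Q.coeff i, ?_⟩, by rw [coeff_C_mul]; rfl⟩
  rw [norm_mul, norm_pow, Padic.norm_p, inv_pow, inv_mul_le_iff₀ (by positivity), mul_one]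
  exact h1

/-- a polynomial that maps the space into `K` vanishes at `u`, if this holds approximately for
integer polynomials -/
theorem bo3_key {n : Type} [Fintype n] [DecidableEq n] (A : Matrix n n ℤ_[p])
    (K : AddSubgroup (n → ℚ_[p])) (hT : ∀ x : n → ℚ_[p], (∀ i, ‖x i‖ ≤ 1) → x ∈ K)
    {u : PadicAlgCl p} (hu : ‖u‖ ≤ 1) (B : ℝ)
    (hB : ∀ (k : ℕ) (w : ℤ[X]), (∀ x : n → ℚ_[p], (∀ i, ‖x i‖ ≤ (p : ℝ) ^ k) →
      (aeval A w).map ((↑) : ℤ_[p] → ℚ_[p]) *ᵥ x ∈ K) → ‖aeval u w‖ ≤ B / (p : ℝ) ^ k)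
    (Q : ℚ_[p][X]) (hQ : ∀ x, aeval (A.map ((↑) : ℤ_[p] → ℚ_[p])) Q *ᵥ x ∈ K) :
    aeval u Q = 0 := by
  have hp : (1 : ℝ) < p := by exact_mod_cast (Fact.out : p.Prime).one_lt
  have hp0 : (p : ℚ_[p]) ≠ 0 := Nat.cast_ne_zero.2 (Fact.out : p.Prime).ne_zero
  obtain ⟨s, Q', hs⟩ := bo3_scale Q
  have hm : ∀ F : ℤ_[p][X], (aeval A F).map ((↑) : ℤ_[p] → ℚ_[p]) =
      aeval (A.map ((↑) : ℤ_[p] → ℚ_[p])) (F.map (algebraMap ℤ_[p] ℚ_[p])) := fun F => by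
    rw [aeval_map_algebraMap]
    exact (aeval_algHom_apply ((Algebra.ofId ℤ_[p] ℚ_[p]).mapMatrix) A F).symm
  have key : ∀ k : ℕ, ‖aeval u Q'‖ ≤ (max B 1) / (p : ℝ) ^ k := fun k => by
    obtain ⟨w, R, hw⟩ := bo3_approx Q' k
    have h1 : ‖aeval u w‖ ≤ B / (p : ℝ) ^ k := hB k w fun x hx => by
      rw [← aeval_map_algebraMap ℤ_[p] A w, show algebraMap ℤ ℤ_[p] = Int.castRingHom _ from rfl, hw,
        map_add, Matrix.map_add _ (by simp), add_mulVec]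
      refine K.add_mem ?_ (hT _ fun i => ?_)
      · rw [hm, hs, mul_comm, map_mul, ← mulVec_mulVec]
        exact hQ _
      · rw [map_mul, aeval_C, ← Algebra.smul_def]
        refine IsUltrametricDist.norm_sum_le_of_forall_le_of_nonneg zero_le_one fun j _ => ?_
        change ‖(((p : ℤ_[p]) ^ k * aeval A R i j : ℤ_[p]) : ℚ_[p]) * x j‖ ≤ 1
        rw [PadicInt.coe_mul, mul_right_comm, norm_mul]
        refine mul_le_one₀ ?_ (norm_nonneg _) (PadicInt.norm_le_one _)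
        rw [norm_mul, PadicInt.coe_pow, PadicInt.coe_natCast, norm_pow,
          Padic.norm_p, inv_pow, inv_mul_le_iff₀ (by positivity), mul_one]
        exact hx j
    have h2 : aeval u Q' = aeval u w + -((p : PadicAlgCl p) ^ k * aeval u R) := by
      rw [← aeval_map_algebraMap ℤ_[p] u w, show algebraMap ℤ ℤ_[p] = Int.castRingHom _ from rfl, hw]
      simp
    have h3 : ‖aeval u R‖ ≤ 1 := by
      rw [← eval_map_algebraMap]
      exact BW.norm_eval_le zero_le_one (fun i => by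
        rw [coeff_map, BW.norm_alg]; exact PadicInt.norm_le_one _) hu
    have h4 : ‖(p : PadicAlgCl p)‖ = (p : ℝ)⁻¹ := by
      rw [← Padic.norm_p (p := p), ← PadicAlgCl.norm_extends p, map_natCast]
    rw [h2]
    refine (IsUltrametricDist.norm_add_le_max _ _).trans (max_le (h1.trans ?_) ?_)
    · gcongr; exact le_max_left _ _
    · rw [norm_neg, norm_mul, norm_pow, h4, inv_pow, div_eq_inv_mul]
      gcongr
      exact h3.trans (le_max_right _ _)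
  have h0 : aeval u Q' = 0 := by
    by_contra h
    have hpos := norm_pos_iff.2 h
    obtain ⟨k, hk⟩ := pow_unbounded_of_one_lt (max B 1 / ‖aeval u Q'‖) hp
    have := key k
    rw [le_div_iff₀ (by positivity)] at this
    rw [div_lt_iff₀ hpos] at hk
    linarith
  rw [← aeval_map_algebraMap ℚ_[p] u Q', hs, map_mul, aeval_C, map_pow, map_natCast] at h0
  exact (mul_eq_zero.1 h0).resolve_left (pow_ne_zero _
    (Nat.cast_ne_zero.2 (Fact.out : p.Prime).ne_zero))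

end approx

theorem bo3_cp (π : ∀ l : Pr, GL (I2 4) ℤ_[l]) (w : ℤ[X]) (l : Pr) :
    (aeval (mA π) w).map (cp l) = (aeval (π l).val w).map ((↑) : ℤ_[l] → ℚ_[l]) := by
  have h1 := aeval_algHom_apply (cp l).toRingHom.toIntAlgHom.mapMatrix (mA π) w
  have h2 := aeval_algHom_apply (algebraMap ℤ_[l] ℚ_[l]).toIntAlgHom.mapMatrix (π l).val w
  exact h1.symm.trans h2

theorem bo3_smul (r : ℚ) (a : M8 AF) (l : Pr) :
    (r • a).map (cp l) = (r : ℚ_[l]) • a.map (cp l) := by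
  ext i j
  simp only [Matrix.map_apply, Matrix.smul_apply, map_smul, smul_eq_mul, Rat.smul_def]

theorem bo3_det {l : ℕ} [Fact l.Prime] (a : M8 ℤ_[l]) :
    ‖(a.map ((↑) : ℤ_[l] → ℚ_[l])).det‖ = ‖a.det‖ :=
  congrArg _ ((algebraMap ℤ_[l] ℚ_[l]).map_det a).symm

theorem bo3_bound {n : Type} [Fintype n] [DecidableEq n] (hn : Fintype.card n = 2 * 4) (p : Pr)
    (c : ℝ) (π : ∀ l : Pr, GL n ℤ_[l]) (P : ℤ[X])
    (hP : ∀ l ≠ p, (π l).val.charpoly = P.map (Int.castRingHom _)) :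
    ∃ K : ℝ, ∀ (w : ℤ[X]) (k : ℕ) (N : ℝ),
      (∀ (t : ℕ) (S : Finset Pr), ¬ (p : ℕ) ∣ t → p ∉ S →
        (∀ l ∈ S, (aeval (π l).val (w + C (((p : ℕ) : ℤ) ^ k * t))).det ≠ 0) →
        ∏ l ∈ S, ‖(aeval (π l).val (w + C (((p : ℕ) : ℤ) ^ k * t))).det‖⁻¹ ≤
          c * (N + (t : ℝ) ^ 2) ^ 4) →
      ∀ u : PadicAlgCl p, aeval u P = 0 → ‖aeval u w‖ ≤ K / ((p : ℕ) : ℝ) ^ k := by
  obtain ⟨B, hB⟩ := BW.bound_of_ineq p 4 c
  exact ⟨B, hB hn (fun l => (π l).val) P hP⟩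

/-- the key statement from a calculus of degrees -/
theorem bo3_core (p : Pr) (π : ∀ l : Pr, GL (I2 4) ℤ_[l]) (K : AddSubgroup (Vl p))
    (hT : ∀ x : Vl p, (∀ i, ‖x i‖ ≤ 1) → x ∈ K) (D : M8 AF → ℕ → Prop)
    (hsat : ∀ (k : ℕ) (w : ℤ[X]), (∀ x : Vl p, (∀ i, ‖x i‖ ≤ ((p : ℕ) : ℝ) ^ k) →
      (aeval (π p).val w).map ((↑) : ℤ_[p] → ℚ_[p]) *ᵥ x ∈ K) →
      ∃ e N : ℕ, D ((((p : ℕ) : ℚ) ^ k)⁻¹ • (mA π ^ e * aeval (mA π) w)) N)
    (hadd : ∀ a N (t : ℕ), D a N → D (a + t) (2 * N + 2 * t ^ 2))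
    (hineq : ∀ a N, D a N → N ≠ 0 → (∀ i j (l : Pr), (l : ℕ) ≠ p → ‖cp l (a i j)‖ ≤ 1) →
      ∀ S : Finset Pr, (∀ l ∈ S, (l : ℕ) ≠ p) → (∀ l ∈ S, (a.map (cp l)).det ≠ 0) →
      ∏ l ∈ S, ‖(a.map (cp l)).det‖⁻¹ ≤ (4 * N : ℝ) ^ 4)
    {P : ℤ[X]} (hP : IsCh p π P) (Q : ℚ_[p][X])
    (hQ : ∀ x : Vl p, aeval ((π p).val.map ((↑) : ℤ_[p] → ℚ_[p])) Q *ᵥ x ∈ K)
    {u : PadicAlgCl p} (hu : aeval u P = 0) (h1 : ‖u‖ = 1) : aeval u Q = 0 := by
  obtain ⟨B, hB⟩ := bo3_bound (by simp) p (8 ^ 4) π P hP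
  refine bo3_key (π p).val K hT h1.le B (fun k w hw => ?_) _ hQ
  obtain ⟨e, N, hD⟩ := hsat k w hw
  have := hB (X ^ e * w) k N
    (fun t S ht hS hd => ?_) u hu
  · rwa [map_mul, map_pow, aeval_X, norm_mul, norm_pow, h1, one_pow, one_mul] at this
  generalize hF : X ^ e * w + C (((p : ℕ) : ℤ) ^ k * t) = F at hd ⊢
  generalize hr : (((p : ℕ) : ℚ) ^ k)⁻¹ = r at hD
  have hp0 : (((p : ℕ) : ℚ) ^ k) ≠ 0 := pow_ne_zero _ (Nat.cast_ne_zero.2 p.2.ne_zero)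
  have hn : ∀ l : Pr, (l : ℕ) ≠ p → ‖(r : ℚ_[l])‖ = 1 := fun l hl => by
    rw [← hr, Rat.cast_inv, Rat.cast_pow, Rat.cast_natCast, norm_inv, norm_pow,
      padic_norm_prime_ne fun h => hl (congrArg _ h), one_pow, inv_one]
  have e1 : r • (mA π ^ e * aeval (mA π) w) + (t : M8 AF) = r • aeval (mA π) F := by
    rw [← hF, map_add, map_mul, map_pow, aeval_X, aeval_C, smul_add, eq_intCast]
    congr 1
    rw [← Nat.cast_pow, ← Nat.cast_mul, Int.cast_natCast, ← map_natCast (algebraMap ℚ (M8 AF)),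
      ← map_natCast (algebraMap ℚ (M8 AF)), Algebra.smul_def, ← map_mul, ← hr, Nat.cast_mul,
      Nat.cast_pow, inv_mul_cancel_left₀ hp0]
  have e3 : ∀ l : Pr, (l : ℕ) ≠ p → ‖((r • aeval (mA π) F).map (cp l)).det‖ =
      ‖(aeval (π l).val F).det‖ := fun l hl => by
    rw [bo3_smul, bo3_cp, det_smul, norm_mul, norm_pow, hn l hl, one_pow, one_mul, bo3_det]
  have hl : ∀ l ∈ S, (l : ℕ) ≠ p := fun l h e => hS (Subtype.ext e ▸ h)
  have ht0 : t ≠ 0 := fun h => ht (h ▸ dvd_zero _)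
  have := hineq _ _ (e1 ▸ hadd _ N t hD) (by positivity) (fun i j l h => ?_) S hl fun l h => ?_
  · rw [Finset.prod_congr rfl fun l h => by rw [e3 l (hl l h)]] at this
    refine this.trans (le_of_eq ?_)
    push_cast
    ring
  · have := congrFun (congrFun ((bo3_smul r _ l).trans (congrArg _ (bo3_cp π F l))) i) j
    rw [Matrix.map_apply] at this
    rw [this, Matrix.smul_apply, smul_eq_mul, norm_mul, hn l h, one_mul]
    exact PadicInt.norm_le_one _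
  · rw [← norm_ne_zero_iff, e3 l (hl l h), norm_ne_zero_iff]
    exact hd l h

theorem bo3_int {k : Type} [Field k] {q : ℕ} (S : TSys k q) {l : Pr} (hl : (l : ℕ) = q)
    {x : Vl l} (hx : ∀ i, ‖x i‖ ≤ 1) : x ∈ S.K0 l := by
  intro y
  have hm : ∀ i, sgv l x i ∈ Zq 0 := fun i => sg_mem (hx i)
  have h1 := congrFun (S.per _ (mem_L0q.2 hm)) y
  have h2 : ∀ (c : ℚ) (a : AF), (∀ l' : Pr, (l' : ℕ) ≠ q → cp l' a = 0) → ∀ b : AF,
      S.e (b * c • a) = 1 := fun c a ha b => S.e_one fun l' h => by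
    rw [map_mul, map_smul, ha l' h, smul_zero, mul_zero, norm_zero]
    exact zero_le_one
  have h3 : ∀ i (l' : Pr), (l' : ℕ) ≠ q → cp l' (sgv l x i) = 0 := fun i l' h =>
    cp_sg_ne (l := l) (l' := l') (fun e => h (by rw [e, hl])) _
  rw [Rt, Pi.smul_apply, sgn, h2 _ _ (fun l' h => by simp [Qf, dotProduct, h3 _ l' h]),
    ← one_mul (_ • Ef _ _), h2 _ _ (fun l' h => by simp [Ef, dotProduct, h3 _ l' h]), one_mul,
    one_smul] at h1
  exact h1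

theorem key_of : T_KEY := by
  intro hI _ hG _ _ _ hR' τ K M A hτ v R hR P hP Q hQ u hu h1
  refine bo3_core v.p R.π (R.K0 v.p) (fun x hx => bo3_int _ rfl hx) R.Cmp (fun k w hw => ?_)
    (fun a N t hD => ?_) (fun a N hD => hD.ineq hG) hP Q hQ hu h1
  · obtain ⟨N, hN0, hN⟩ := R.cmp_ex hG w
    obtain ⟨N1, -, h⟩ := aap hI hG hR' hτ hR hN0 hN k fun z hz => by rw [bo3_cp]; exact hw z hz
    exact ⟨_, _, h⟩
  · simpa using hD.add hG (TSys.cmp_int (S := R.toTSys) (t : ℤ))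

theorem ord_of : T_ORD := fun a b c d e _ f g => ord_of_key d (key_of a b c d e f g)

end Pool.Agent.MT
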