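import Pool.Agent.Lib.MP_d61fbb_ag.MT.BW0

/-! Weil polynomials from a degree inequality: rationality and independence of the prime. -/

set_option autoImplicit false

noncomputable section

namespace Pool.Agent.MT.BW

open Polynomial Finset

section loc
variable {l : ℕ} [Fact l.Prime]

/-- the size of the resultant -/
def nz (P : ℤ_[l][X]) (w : ℤ[X]) : ℝ := ((P.aroots (PadicAlgCl l)).map fun z => ‖aeval z w‖).prod

theorem nz_pos {P : ℤ_[l][X]} {w : ℤ[X]} (h : ∀ z ∈ P.aroots (PadicAlgCl l), aeval z w ≠ 0) :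
    0 < nz P w :=
  Multiset.prod_pos fun x hx => by
    obtain ⟨z, hz, rfl⟩ := Multiset.mem_map.1 hx
    exact norm_pos_iff.2 (h z hz)

theorem nz_le {P : ℤ_[l][X]} (hP : P.Monic) (w : ℤ[X]) {M : Multiset (PadicAlgCl l)}
    (hM : M ≤ P.aroots (PadicAlgCl l)) {r : ℝ} (h : ∀ z ∈ M, ‖aeval z w‖ ≤ r) :
    nz P w ≤ r ^ M.card := by
  obtain ⟨M', e⟩ := Multiset.le_iff_exists_add.1 hM
  have k : ∀ (M : Multiset (PadicAlgCl l)) (r : ℝ), (∀ z ∈ M, ‖aeval z w‖ ≤ r) →
      (M.map fun z => ‖aeval z w‖).prod ≤ r ^ M.card := fun M r h => by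
    simpa using Multiset.prod_map_le_prod_map₀ (s := M) (fun z => ‖aeval z w‖) (fun _ => r)
      (fun _ _ => norm_nonneg _) h
  have h1 := k M' 1 fun z hz => aeval_le w (root_le hP
    (mem_aroots'.1 (e ▸ Multiset.mem_add.2 (Or.inr hz))).2)
  rw [nz, e, Multiset.map_add, Multiset.prod_add]
  rw [one_pow] at h1
  exact (mul_le_of_le_one_right (Multiset.prod_map_nonneg fun _ _ => norm_nonneg _) h1).trans
    (k M r h)

theorem nz_det {n : Type} [Fintype n] [DecidableEq n] (A : Matrix n n ℤ_[l]) (w : ℤ[X]) :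
    ‖(aeval A w).det‖ = nz A.charpoly w := by
  let φ := algebraMap ℤ_[l] (PadicAlgCl l)
  have h1 : φ.mapMatrix (aeval A w) = aeval (A.map φ) (w.map (algebraMap ℤ (PadicAlgCl l))) := by
    rw [aeval_map_algebraMap]
    exact (aeval_algHom_apply φ.mapMatrix.toIntAlgHom A w).symm
  rw [← norm_alg, RingHom.map_det, h1, det_aeval, Matrix.charpoly_map, nz, aroots_def,
    ← normHom_apply, map_multiset_prod, Multiset.map_map]
  simp only [Function.comp_def, normHom_apply, eval_map_algebraMap, φ]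

theorem card_aroots' {P : ℤ_[l][X]} (hP : P.Monic) :
    (P.aroots (PadicAlgCl l)).card = P.natDegree := by
  rw [aroots_def, IsAlgClosed.card_roots_eq_natDegree, hP.natDegree_map]

open Classical in
/-- the conjugates of a root occur with the same multiplicity -/
theorem exists_conj {P : ℤ_[l][X]} (hP : P.Monic) (z : PadicAlgCl l) (hz : IsIntegral ℤ_[l] z) :
    ∃ M ≤ P.aroots (PadicAlgCl l), M.card = (P.aroots (PadicAlgCl l)).count z *
      (minpoly ℤ_[l] z).natDegree ∧ ∀ y ∈ M, aeval y (minpoly ℤ_[l] z) = 0 := by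
  have hq : IsIntegral ℚ_[l] z := hz.tower_top
  have e := minpoly.isIntegrallyClosed_eq_field_fractions' ℚ_[l] hz
  have hi := minpoly.irreducible hq
  have h0 : P.map (algebraMap ℤ_[l] ℚ_[l]) ≠ 0 := (hP.map _).ne_zero
  obtain ⟨ν, R, hR, hPR⟩ := WfDvdMonoid.max_power_factor h0 hi
  have e1 : P.aroots (PadicAlgCl l) =
      ν • (minpoly ℚ_[l] z).aroots (PadicAlgCl l) + R.aroots (PadicAlgCl l) := by
    rw [← aroots_map (PadicAlgCl l) ℚ_[l], hPR, aroots_mul (hPR ▸ h0), aroots_pow]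
  have e2 : ((minpoly ℚ_[l] z).aroots (PadicAlgCl l)).count z = 1 :=
    Multiset.count_eq_one_of_mem (nodup_roots hi.separable.map)
      (mem_aroots.2 ⟨hi.ne_zero, minpoly.aeval _ _⟩)
  have e3 : (R.aroots (PadicAlgCl l)).count z = 0 := Multiset.count_eq_zero.2 fun h =>
    hR (minpoly.dvd _ _ (mem_aroots.1 h).2)
  refine ⟨_, e1 ▸ Multiset.le_add_right _ _, ?_, fun y hy => ?_⟩
  · rw [e1, Multiset.count_add, Multiset.count_nsmul, e2, e3, Multiset.card_nsmul, aroots_def,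
      IsAlgClosed.card_roots_eq_natDegree, natDegree_map, e, (minpoly.monic hz).natDegree_map,
      mul_one, add_zero]
  · have := (mem_aroots.1 (Multiset.mem_of_mem_nsmul hy)).2
    rwa [e, aeval_map_algebraMap] at this

end loc

/-- the degree inequality for integer combinations of finitely many polynomials -/
def Ineq (p : Nat.Primes) (d : ℕ) (P : ∀ l : Nat.Primes, ℤ_[l][X]) : Prop :=
  ∀ (ι : Type) [Fintype ι] (u : ι → ℤ[X]), ∃ c : ℝ, ∀ (a : ι → ℤ) (H : ℝ), 1 ≤ H →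
    (∀ i, |(a i : ℝ)| ≤ H) → ∀ S : Finset Nat.Primes, p ∉ S →
    (∀ l ∈ S, 0 < nz (P l) (∑ i, a i • u i)) → ∏ l ∈ S, (nz (P l) (∑ i, a i • u i))⁻¹ ≤ c * H ^ d

variable {p : Nat.Primes} {d : ℕ} {P : ∀ l : Nat.Primes, ℤ_[l][X]}

theorem alg_of (hm : ∀ l, (P l).Monic) (hd : ∀ l, (P l).natDegree = d) (hI : Ineq p d P)
    {l : Nat.Primes} (hl : l ≠ p) {z₀ : PadicAlgCl l} (hz : z₀ ∈ (P l).aroots (PadicAlgCl l)) :
    IsAlgebraic ℤ z₀ := by
  by_contra hz0
  obtain ⟨G, hG0, hG1, hG⟩ : ∃ G : ℤ[X], G ≠ 0 ∧ G.eval 0 = 0 ∧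
      ∀ z ∈ (P l).aroots (PadicAlgCl l), IsAlgebraic ℤ z → aeval z G = 0 := by
    generalize (P l).aroots (PadicAlgCl l) = Z
    induction Z using Multiset.induction_on with
    | empty => exact ⟨X, X_ne_zero, eval_X, by simp⟩
    | cons a Z ih =>
      obtain ⟨G, h0, h1, h2⟩ := ih
      by_cases h : IsAlgebraic ℤ a
      · obtain ⟨F, f0, f1⟩ := h
        refine ⟨F * G, mul_ne_zero f0 h0, by simp [h1], fun z hz h3 => ?_⟩
        rcases Multiset.mem_cons.1 hz with rfl | hz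
        · simp [f1]
        · simp [h2 z hz h3]
      · refine ⟨G, h0, h1, fun z hz h3 => ?_⟩
        rcases Multiset.mem_cons.1 hz with rfl | hz
        · exact absurd h3 h
        · exact h2 z hz h3
  have l1 : (1 : ℝ) < (l : ℕ) := by exact_mod_cast l.2.one_lt
  obtain ⟨c, hc⟩ := hI (Fin (d * d + 1)) fun i => G ^ (i : ℕ)
  have g0 : 0 < ‖aeval z₀ G‖ := norm_pos_iff.2 fun h => hz0 ⟨G, hG0, h⟩
  have g1 : ‖aeval z₀ G‖ ≤ 1 := aeval_le G (root_le (hm l) (mem_aroots'.1 hz).2)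
  obtain ⟨t, ht⟩ := pow_unbounded_of_one_lt (c / ‖aeval z₀ G‖ ^ (d * d + 1)) l1
  obtain ⟨a, a0, a1, a2⟩ := pigeon (hm l) (fun i : Fin (d * d + 1) => G ^ (i : ℕ))
    ((d * d + 1) * t) (l ^ (d * t)) (by
      rw [hd, show (d * d + 1) * t * d = d * t * (d * d + 1) by ring, pow_mul]
      exact Nat.pow_lt_pow_left (Nat.lt_succ_self _) (Nat.succ_ne_zero _))
  set φ : ℤ[X] := ∑ i, a i • X ^ (i : ℕ) with hφ
  have c1 : ∀ i : Fin (d * d + 1), φ.coeff i = a i := fun i => by
    simp [hφ, coeff_X_pow, Fin.val_inj]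
  have c2 : φ.natDegree ≤ d * d := natDegree_sum_le_of_forall_le _ _ fun i _ =>
    (natDegree_smul_le _ _).trans ((natDegree_X_pow_le _).trans (Nat.lt_succ_iff.1 i.2))
  have c3 : ∀ n, |(φ.coeff n : ℝ)| ≤ ((l : ℕ) : ℝ) ^ (d * t) := fun n => by
    rcases lt_or_ge n (d * d + 1) with h | h
    · rw [c1 ⟨n, h⟩]; exact_mod_cast a1 _
    · rw [coeff_eq_zero_of_natDegree_lt (c2.trans_lt h), Int.cast_zero, abs_zero]; positivity
  have φ0 : φ ≠ 0 := fun h => a0 (funext fun i => by rw [← c1, h, coeff_zero, Pi.zero_apply])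
  obtain ⟨j, ψ, hψ, e⟩ := WfDvdMonoid.max_power_factor φ0 irreducible_X
  have ψ0 : ψ ≠ 0 := by rintro rfl; exact hψ (dvd_zero _)
  have c4 : j + ψ.natDegree ≤ d * d := by
    rwa [e, natDegree_mul (pow_ne_zero _ X_ne_zero) ψ0, natDegree_X_pow] at c2
  have c5 : ∑ i : Fin (d * d + 1), ψ.coeff i • G ^ (i : ℕ) = ψ.comp G := by
    rw [comp, eval₂_eq_sum_range' C (n := d * d + 1) (by omega), sum_range]
    simp only [smul_eq_C_mul]
  have c6 : ∑ i, a i • G ^ (i : ℕ) = G ^ j * ψ.comp G := by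
    rw [← X_pow_comp, ← mul_comp, ← e, hφ, comp_eq_aeval, map_sum]
    simp
  have c7 : ψ.eval 0 ≠ 0 := fun h => hψ (X_dvd_iff.2 (by rwa [coeff_zero_eq_eval_zero]))
  have h1 : 0 < nz (P l) (ψ.comp G) := nz_pos fun z hz h => by
    by_cases q : IsAlgebraic ℤ z
    · rw [aeval_comp, hG z hz q, ← map_zero (algebraMap ℤ (PadicAlgCl l)),
        aeval_algebraMap_apply_eq_algebraMap_eval] at h
      exact c7 (by simpa using h)
    · exact q ⟨_, fun q' => c7 (by rw [← hG1, ← eval_comp, q', eval_zero, hG1]), h⟩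
  have h2 := hc (fun i => ψ.coeff i) (((l : ℕ) : ℝ) ^ (d * t)) (one_le_pow₀ l1.le) (fun i => by
    rw [← coeff_X_pow_mul ψ j, ← e]; exact c3 _) {l} (by simpa using hl.symm) (by simpa only [c5, mem_singleton, forall_eq] using h1)
  rw [prod_singleton, c5] at h2
  have h3 := nz_le (hm l) (ψ.comp G) (M := {z₀}) (Multiset.singleton_le.2 hz)
    (r := ‖aeval z₀ (ψ.comp G)‖) (by simp)
  have h4 := a2 z₀ (mem_aroots'.1 hz).2
  rw [c6, map_mul, map_pow, norm_mul, norm_pow] at h4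
  rw [Multiset.card_singleton, pow_one] at h3
  have h5 : ‖aeval z₀ G‖ ^ (d * d + 1) * nz (P l) (ψ.comp G) ≤ (((l : ℕ) : ℝ) ^ ((d * d + 1) * t))⁻¹ :=
    le_trans (mul_le_mul (pow_le_pow_of_le_one g0.le g1 (by omega)) h3 h1.le (by positivity)) h4
  rw [div_lt_iff₀ (by positivity)] at ht
  rw [inv_le_iff_one_le_mul₀ h1, ← pow_mul] at h2
  rw [← one_div, le_div_iff₀ (by positivity), show (d * d + 1) * t = d * t * d + t by ring,
    pow_add _ (d * t * d)] at h5
  have h6 : 0 < ((l : ℕ) : ℝ) ^ (d * t * d) * nz (P l) (ψ.comp G) := by positivity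
  nlinarith [mul_lt_mul_of_pos_right ht h6]

theorem clear (F : ℚ[X]) : ∃ (E : ℤ[X]) (D : ℤ), D ≠ 0 ∧ ∀ (l : Nat.Primes) (z : PadicAlgCl l),
    aeval z E = D * aeval z F := by
  obtain ⟨D, hD, h⟩ := IsLocalization.integerNormalization_spec (nonZeroDivisors ℤ) F
  exact ⟨_, D, nonZeroDivisors.ne_zero hD, fun l z => by
    rw [← aeval_map_algebraMap ℚ, h, map_zsmul, zsmul_eq_mul]⟩

theorem exists_cop {L : Type} [Field L] [CharZero L] (q : ℚ[X])
    (Z : Multiset L) (h : ∀ z ∈ Z, IsAlgebraic ℤ z) :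
    ∃ G : ℚ[X], IsCoprime q G ∧ ∀ z ∈ Z, aeval z q ≠ 0 → aeval z G = 0 := by
  induction Z using Multiset.induction_on with
  | empty => exact ⟨1, isCoprime_one_right, by simp⟩
  | cons a Z ih =>
    obtain ⟨G, h1, h2⟩ := ih fun z hz => h z (Multiset.mem_cons_of_mem hz)
    by_cases c : aeval a q = 0
    · refine ⟨G, h1, fun z hz h3 => ?_⟩
      rcases Multiset.mem_cons.1 hz with rfl | hz
      · exact absurd c h3
      · exact h2 z hz h3
    · have ha : IsIntegral ℚ a :=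
        ((h a (Multiset.mem_cons_self _ _)).extendScalars Int.cast_injective).isIntegral
      refine ⟨minpoly ℚ a * G, IsCoprime.mul_right
        (((minpoly.irreducible ha).coprime_iff_not_dvd.2 fun q => c (minpoly.dvd_iff.1 q)).symm) h1,
        fun z hz h3 => ?_⟩
      rcases Multiset.mem_cons.1 hz with rfl | hz
      · simp
      · simp [h2 z hz h3]

open Classical in
/-- the number of roots that are roots of `q` -/
def rq (P : ∀ l : Nat.Primes, ℤ_[l][X]) (l : Nat.Primes) (q : ℚ[X]) : ℕ :=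
  (((P l).aroots (PadicAlgCl l)).filter fun z => aeval z q = 0).card

open Classical in
theorem key (hm : ∀ l, (P l).Monic) (hd : ∀ l, (P l).natDegree = d) (hI : Ineq p d P)
    {l l' : Nat.Primes} (hl : l ≠ p) (hl' : l' ≠ p) (hne : l ≠ l') {q : ℚ[X]} (hq : Irreducible q)
    {z₀ : PadicAlgCl l} (hz : aeval z₀ q = 0) :
    ((P l).aroots (PadicAlgCl l)).count z₀ * q.natDegree ≤ rq P l' q := by
  by_contra hcon
  rw [not_le] at hcon
  have hz1 : z₀ ∈ (P l).aroots (PadicAlgCl l) := by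
    by_contra h
    rw [Multiset.count_eq_zero.2 h, zero_mul] at hcon
    omega
  have hint : IsIntegral ℤ_[l] z₀ := ⟨P l, hm l, (mem_aroots'.1 hz1).2⟩
  obtain ⟨G₁, g1, g2⟩ := exists_cop q _ fun z hz => alg_of hm hd hI hl hz
  obtain ⟨G₂, g3, g4⟩ := exists_cop q _ fun z hz => alg_of hm hd hI hl' hz
  obtain ⟨u, v, huv⟩ := g1.mul_right g3
  obtain ⟨E₁, D₁, d1, e1⟩ := clear (v * (G₁ * G₂))
  obtain ⟨E₂, D₂, d2, e2⟩ := clear (u * q)
  have huv' : ∀ (l : Nat.Primes) (z : PadicAlgCl l),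
      aeval z (u * q) + aeval z (v * (G₁ * G₂)) = 1 := fun l z => by rw [← map_add, huv, map_one]
  obtain ⟨c, hc⟩ := hI (Option (Fin q.natDegree)) fun i => i.elim E₂ fun i => X ^ (i : ℕ) * E₁
  obtain ⟨M, m1, m2, m3⟩ := exists_conj (hm l) z₀ hint
  set μ := ((P l).aroots (PadicAlgCl l)).count z₀
  set e := q.natDegree with he
  set f := (minpoly ℤ_[l] z₀).natDegree with hf
  have e0 : 0 < e := hq.natDegree_pos
  have f0 : 0 < f := minpoly.natDegree_pos hint
  have l1 : (1 : ℝ) < (l : ℕ) := by exact_mod_cast l.2.one_lt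
  have l2 : (1 : ℝ) < (l' : ℕ) := by exact_mod_cast l'.2.one_lt
  obtain ⟨t, ht⟩ := pow_unbounded_of_one_lt (c * ((l' : ℕ) : ℝ) ^ d) (one_lt_pow₀ l1 f0.ne')
  rw [← pow_mul] at ht
  obtain ⟨a, a0, a1, a2⟩ := pigeon (minpoly.monic hint) (fun i : Fin e => (X : ℤ[X]) ^ (i : ℕ))
    (e * t) (l ^ (f * t)) (by
      rw [← hf, show e * t * f = f * t * e by ring, pow_mul]
      exact Nat.pow_lt_pow_left (Nat.lt_succ_self _) e0.ne')
  set x : ℤ[X] := ∑ i, a i • X ^ (i : ℕ) with hx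
  set j := Nat.log l' (l ^ (f * t)) with hj
  have j1 : ((l' : ℕ) : ℝ) ^ j ≤ ((l : ℕ) : ℝ) ^ (f * t) := by
    exact_mod_cast Nat.pow_log_le_self l' (pow_ne_zero _ l.2.ne_zero)
  have j2 : ((l : ℕ) : ℝ) ^ (f * t) ≤ ((l' : ℕ) : ℝ) ^ j * (l' : ℕ) := by
    rw [← pow_succ]
    exact_mod_cast (Nat.lt_pow_succ_log_self l'.2.one_lt _).le
  set w : ℤ[X] := (((l' : ℕ) : ℤ) ^ j) • E₂ + x * E₁ with hw
  have c5 : ∑ i : Option (Fin e), (i.elim (((l' : ℕ) : ℤ) ^ j) a) •
      (i.elim E₂ fun i => X ^ (i : ℕ) * E₁) = w := by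
    simp [Fintype.sum_option, hw, hx, sum_mul, mul_assoc]
  have w1 : ∀ (l : Nat.Primes) (z : PadicAlgCl l), aeval z q = 0 → aeval z w = D₁ * aeval z x :=
    fun l z h => by
      have := huv' l z
      rw [map_mul, h, mul_zero, zero_add] at this
      rw [hw, map_add, map_zsmul, map_mul, e1, e2, this, map_mul, h]
      simp [mul_comm]
  have w2 : ∀ (l : Nat.Primes) (z : PadicAlgCl l), aeval z (G₁ * G₂) = 0 →
      aeval z w = ((l' : ℕ) : PadicAlgCl l) ^ j * D₂ := fun l z h => by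
    have := huv' l z
    rw [map_mul _ v, h, mul_zero, add_zero] at this
    rw [hw, map_add, map_zsmul, map_mul, e1, e2, this, map_mul, h]
    simp
  have x0 : x ≠ 0 := fun h => a0 (funext fun i => by
    have := congrArg (coeff · i) h
    simpa [hx, coeff_X_pow, Fin.val_inj] using this)
  have x1 : x.natDegree < e := lt_of_le_of_lt (natDegree_sum_le_of_forall_le _ _ fun i _ =>
    (natDegree_smul_le _ _).trans ((natDegree_X_pow_le _).trans (Nat.le_sub_one_of_lt i.2)))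
    (Nat.sub_lt e0 one_pos)
  have pos : ∀ l : Nat.Primes, (∀ z ∈ (P l).aroots (PadicAlgCl l), aeval z q ≠ 0 →
      aeval z (G₁ * G₂) = 0) → 0 < nz (P l) w := fun l h => nz_pos fun z hz => by
    by_cases c : aeval z q = 0
    · rw [w1 l z c]
      refine mul_ne_zero (Int.cast_ne_zero.2 d1) fun h1 => ?_
      rw [← aeval_map_algebraMap ℚ] at h1
      have h2 : q ∣ x.map (algebraMap ℤ ℚ) := (hq.isCoprime_or_dvd _).resolve_left fun h3 =>
        (aeval_ne_zero_of_isCoprime h3 z).elim (· c) (· h1)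
      have h3 := natDegree_le_of_dvd h2 ((Polynomial.map_ne_zero_iff Int.cast_injective).2 x0)
      exact absurd (h3.trans natDegree_map_le) (not_le.2 x1)
    · rw [w2 l z (h z hz c)]
      exact mul_ne_zero (pow_ne_zero _ (Nat.cast_ne_zero.2 l'.2.ne_zero)) (Int.cast_ne_zero.2 d2)
  have p1 := pos l fun z hz h => by simp [g2 z hz h]
  have p2 := pos l' fun z hz h => by simp [g4 z hz h]
  have h2 := hc (fun i => i.elim (((l' : ℕ) : ℤ) ^ j) a) (((l : ℕ) : ℝ) ^ (f * t))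
    (one_le_pow₀ l1.le) (fun i => by
      cases i with
      | none => simpa using j1
      | some i => exact_mod_cast a1 i) {l, l'} (by simp [hl.symm, hl'.symm])
    (by simp only [c5, mem_insert, mem_singleton]; rintro _ (rfl | rfl) <;> assumption)
  rw [prod_pair hne, c5] at h2
  have n1 := nz_le (hm l) w m1 (r := (((l : ℕ) : ℝ) ^ (e * t))⁻¹) fun y hy => by
    have hy' : aeval y q = 0 := by
      obtain ⟨s, hs⟩ : minpoly ℚ_[l] z₀ ∣ q.map (algebraMap ℚ ℚ_[l]) :=
        minpoly.dvd _ _ (by rwa [aeval_map_algebraMap])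
      rw [← aeval_map_algebraMap ℚ_[l], hs, minpoly.isIntegrallyClosed_eq_field_fractions' ℚ_[l] hint,
        map_mul, aeval_map_algebraMap, m3 y hy, zero_mul]
    rw [w1 l y hy', norm_mul]
    exact (mul_le_of_le_one_left (norm_nonneg _) (IsUltrametricDist.norm_intCast_le_one _ _)).trans
      (a2 y (m3 y hy))
  have n2 := nz_le (hm l') w (Multiset.filter_le (fun z => ¬ aeval z q = 0) _)
    (r := (((l' : ℕ) : ℝ) ^ j)⁻¹) fun y hy => by
      obtain ⟨y1, y2⟩ := Multiset.mem_filter.1 hy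
      rw [w2 l' y (by simp [g4 y y1 y2]), norm_mul, norm_pow, ← Rat.cast_natCast, norm_rat,
        Rat.cast_natCast, Padic.norm_p, inv_pow]
      exact mul_le_of_le_one_right (by positivity) (IsUltrametricDist.norm_intCast_le_one _ _)
  set s := (((P l').aroots (PadicAlgCl l')).filter fun z => ¬ aeval z q = 0).card
  have s1 : rq P l' q + s = d := by
    rw [← hd l', ← card_aroots' (hm l'), rq, ← Multiset.card_add, Multiset.filter_add_not]
  set H : ℝ := ((l : ℕ) : ℝ) ^ (f * t) with hH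
  have H1 : 1 ≤ H := one_le_pow₀ l1.le
  rw [m2, inv_pow, ← pow_mul, show e * t * (μ * f) = f * t * (μ * e) by ring, pow_mul, ← hH,
    le_inv_comm₀ p1 (by positivity)] at n1
  rw [inv_pow, le_inv_comm₀ p2 (by positivity)] at n2
  have n3 : H ^ (d + 1) ≤ H ^ d * (c * ((l' : ℕ) : ℝ) ^ d) :=
    calc H ^ (d + 1) ≤ H ^ (μ * e) * H ^ s := by
          rw [← pow_add]; exact pow_le_pow_right₀ H1 (by omega)
      _ ≤ H ^ (μ * e) * ((((l' : ℕ) : ℝ) ^ j) ^ s * ((l' : ℕ) : ℝ) ^ d) := by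
          refine mul_le_mul_of_nonneg_left ((pow_le_pow_left₀ (by positivity) j2 s).trans ?_)
            (by positivity)
          rw [mul_pow]
          exact mul_le_mul_of_nonneg_left (pow_le_pow_right₀ l2.le (by omega)) (by positivity)
      _ ≤ (c * H ^ d) * ((l' : ℕ) : ℝ) ^ d := by
          rw [← mul_assoc]
          exact mul_le_mul_of_nonneg_right
            ((mul_le_mul n1 n2 (by positivity) (by positivity)).trans h2) (by positivity)
      _ = _ := by ring
  rw [pow_succ] at n3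
  exact absurd (le_of_mul_le_mul_left n3 (by positivity)) (not_le.2 ht)

open Classical in
theorem rq_sum (l : Nat.Primes) {q : ℚ[X]} (hq : Irreducible q) : rq P l q =
    ∑ z ∈ (q.aroots (PadicAlgCl l)).toFinset, ((P l).aroots (PadicAlgCl l)).count z := by
  rw [rq, ← Multiset.sum_count_eq_card (s := (q.aroots (PadicAlgCl l)).toFinset) fun z hz =>
    Multiset.mem_toFinset.2 (mem_aroots.2 ⟨hq.ne_zero, (Multiset.mem_filter.1 hz).2⟩)]
  exact sum_congr rfl fun z hz =>
    Multiset.count_filter_of_pos (mem_aroots.1 (Multiset.mem_toFinset.1 hz)).2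

open Classical in
theorem card_rts (l : Nat.Primes) {q : ℚ[X]} (hq : Irreducible q) :
    (q.aroots (PadicAlgCl l)).toFinset.card = q.natDegree := by
  rw [Multiset.toFinset_card_of_nodup (nodup_roots hq.separable.map),
    IsAlgClosed.card_roots_eq_natDegree, natDegree_map]

theorem rq_eq (hm : ∀ l, (P l).Monic) (hd : ∀ l, (P l).natDegree = d) (hI : Ineq p d P)
    {l l' : Nat.Primes} (hl : l ≠ p) (hl' : l' ≠ p) {q : ℚ[X]} (hq : Irreducible q) :
    rq P l q = rq P l' q := by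
  classical
  have k : ∀ {l l' : Nat.Primes}, l ≠ p → l' ≠ p → l ≠ l' → rq P l q ≤ rq P l' q := by
    intro l l' hl hl' hne
    refine Nat.le_of_mul_le_mul_right ?_ hq.natDegree_pos
    rw [rq_sum l hq, sum_mul, mul_comm, ← card_rts l hq, ← smul_eq_mul]
    refine sum_le_card_nsmul _ _ _ fun z hz => ?_
    rw [card_rts l hq]
    exact key hm hd hI hl hl' hne hq (mem_aroots.1 (Multiset.mem_toFinset.1 hz)).2
  rcases eq_or_ne l l' with rfl | h
  · rfl
  · exact le_antisymm (k hl hl' h) (k hl' hl h.symm)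

open Classical in
theorem count_eq (hm : ∀ l, (P l).Monic) (hd : ∀ l, (P l).natDegree = d) (hI : Ineq p d P)
    {l : Nat.Primes} (hl : l ≠ p) {q : ℚ[X]} (hq : Irreducible q) {z : PadicAlgCl l}
    (hz : aeval z q = 0) : ((P l).aroots (PadicAlgCl l)).count z * q.natDegree = rq P l q := by
  obtain ⟨l', h⟩ := Infinite.exists_notMem_finset ({l, p} : Finset Nat.Primes)
  simp only [mem_insert, mem_singleton, not_or] at h
  have k : ∀ y ∈ (q.aroots (PadicAlgCl l)).toFinset,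
      ((P l).aroots (PadicAlgCl l)).count y * q.natDegree ≤ rq P l q := fun y hy =>
    (key hm hd hI hl h.2 (Ne.symm h.1) hq (mem_aroots.1 (Multiset.mem_toFinset.1 hy)).2).trans
      (rq_eq hm hd hI h.2 hl hq).le
  refine (sum_eq_sum_iff_of_le k).1 ?_ z (Multiset.mem_toFinset.2 (mem_aroots.2 ⟨hq.ne_zero, hz⟩))
  rw [← sum_mul, ← rq_sum l hq, sum_const, card_rts l hq, smul_eq_mul, mul_comm]

theorem rat_of (hm : ∀ l, (P l).Monic) (hd : ∀ l, (P l).natDegree = d) (hI : Ineq p d P) :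
    ∃ Q : ℚ[X], Q.Monic ∧ ∀ l ≠ p,
      Q.map (algebraMap ℚ (PadicAlgCl l)) = (P l).map (algebraMap ℤ_[l] (PadicAlgCl l)) := by
  classical
  obtain ⟨l₀, h₀⟩ := exists_ne p
  have hint : ∀ l ≠ p, ∀ z ∈ (P l).aroots (PadicAlgCl l), IsIntegral ℚ z := fun l hl z hz =>
    ((alg_of hm hd hI hl hz).extendScalars Int.cast_injective).isIntegral
  let T := ((P l₀).aroots (PadicAlgCl l₀)).toFinset.image (minpoly ℚ)
  have hT : ∀ q ∈ T, q.Monic ∧ Irreducible q := fun q hq => by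
    obtain ⟨z, hz, rfl⟩ := mem_image.1 hq
    have := hint l₀ h₀ z (Multiset.mem_toFinset.1 hz)
    exact ⟨minpoly.monic this, minpoly.irreducible this⟩
  have hQ : (∏ q ∈ T, q ^ (rq P l₀ q / q.natDegree)).Monic :=
    monic_prod_of_monic _ _ fun q hq => (hT q hq).1.pow _
  refine ⟨_, hQ, fun l hl => ?_⟩
  rw [(IsAlgClosed.splits _).eq_prod_roots_of_monic (hQ.map _),
    (IsAlgClosed.splits _).eq_prod_roots_of_monic ((hm l).map (algebraMap ℤ_[l] (PadicAlgCl l)))]
  congr 2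
  have e : ((∏ q ∈ T, q ^ (rq P l₀ q / q.natDegree)).map (algebraMap ℚ (PadicAlgCl l))).roots =
      ∑ q ∈ T, (rq P l₀ q / q.natDegree) • q.aroots (PadicAlgCl l) := by
    rw [Polynomial.map_prod, roots_prod _ _ (by rw [← Polynomial.map_prod]; exact (hQ.map _).ne_zero)]
    simp only [Polynomial.map_pow, roots_pow]
    rfl
  rw [e, ← aroots_def]
  ext z
  rw [Multiset.count_sum']
  simp only [Multiset.count_nsmul]
  by_cases hz : IsIntegral ℚ z
  · have hi := minpoly.irreducible hz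
    have c := count_eq hm hd hI hl hi (minpoly.aeval ℚ z)
    rw [rq_eq hm hd hI hl h₀ hi] at c
    rw [sum_eq_single (minpoly ℚ z) (fun q hq hne => ?_) fun h => ?_]
    · rw [← c, Nat.mul_div_cancel _ hi.natDegree_pos, Multiset.count_eq_one_of_mem
        (nodup_roots hi.separable.map) (mem_aroots.2 ⟨hi.ne_zero, minpoly.aeval _ _⟩), mul_one]
    · rw [Multiset.count_eq_zero.2 fun h => hne
        (minpoly.eq_of_irreducible_of_monic (hT q hq).2 (mem_aroots.1 h).2 (hT q hq).1), mul_zero]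
    · rw [rq, Multiset.filter_eq_nil.2 fun y hy hy' => h (mem_image.2 ⟨y, Multiset.mem_toFinset.2 hy,
        (minpoly.eq_of_irreducible_of_monic hi hy' (minpoly.monic hz)).symm⟩)]
      simp
  · rw [Multiset.count_eq_zero.2 fun h => hz (hint l hl z h)]
    exact sum_eq_zero fun q hq => by
      rw [Multiset.count_eq_zero.2 fun h => hz ⟨q, (hT q hq).1, (mem_aroots.1 h).2⟩, mul_zero]

end Pool.Agent.MT.BW
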