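import Mathlib

/-! Block C of the MT project, part 0: nonarchimedean absolute values, interpolation,
power congruences in group rings, orbits of an inertia group. -/

open Polynomial

namespace MTC

variable {Ω : Type*} [Field Ω] {v : AbsoluteValue Ω ℝ}

section basic

theorem add_le (hv : IsNonarchimedean v) {x y : Ω} {r : ℝ} (hx : v x ≤ r) (hy : v y ≤ r) :
    v (x + y) ≤ r := (hv x y).trans (max_le hx hy)

theorem add_lt (hv : IsNonarchimedean v) {x y : Ω} {r : ℝ} (hx : v x < r) (hy : v y < r) :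
    v (x + y) < r := (hv x y).trans_lt (max_lt hx hy)

theorem sub_le (hv : IsNonarchimedean v) {x y : Ω} {r : ℝ} (hx : v x ≤ r) (hy : v y ≤ r) :
    v (x - y) ≤ r := by
  rw [sub_eq_add_neg]; exact add_le hv hx (by rwa [v.map_neg])

theorem sub_lt (hv : IsNonarchimedean v) {x y : Ω} {r : ℝ} (hx : v x < r) (hy : v y < r) :
    v (x - y) < r := by
  rw [sub_eq_add_neg]; exact add_lt hv hx (by rwa [v.map_neg])

theorem trans_le (hv : IsNonarchimedean v) {x y z : Ω} {r : ℝ} (h1 : v (x - y) ≤ r)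
    (h2 : v (y - z) ≤ r) : v (x - z) ≤ r := by
  have := add_le hv h1 h2
  rwa [sub_add_sub_cancel] at this

theorem trans_lt (hv : IsNonarchimedean v) {x y z : Ω} {r : ℝ} (h1 : v (x - y) < r)
    (h2 : v (y - z) < r) : v (x - z) < r := by
  have := add_lt hv h1 h2
  rwa [sub_add_sub_cancel] at this

theorem sum_le (hv : IsNonarchimedean v) {ι : Type*} (s : Finset ι) (f : ι → Ω) {r : ℝ}
    (hr : 0 ≤ r) (h : ∀ i ∈ s, v (f i) ≤ r) : v (∑ i ∈ s, f i) ≤ r := by
  classical
  induction s using Finset.induction_on with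
  | empty => simpa using hr
  | insert a s ha ih =>
    rw [Finset.sum_insert ha]
    exact add_le hv (h a (by simp)) (ih fun i hi => h i (by simp [hi]))

theorem sum_lt (hv : IsNonarchimedean v) {ι : Type*} (s : Finset ι) (f : ι → Ω) {r : ℝ}
    (hr : 0 < r) (h : ∀ i ∈ s, v (f i) < r) : v (∑ i ∈ s, f i) < r := by
  classical
  induction s using Finset.induction_on with
  | empty => simpa using hr
  | insert a s ha ih =>
    rw [Finset.sum_insert ha]
    exact add_lt hv (h a (by simp)) (ih fun i hi => h i (by simp [hi]))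

theorem mul_le_of_le_one_left {x y : Ω} {r : ℝ} (hx : v x ≤ 1) (hy : v y ≤ r) :
    v (x * y) ≤ r := by
  rw [map_mul]; exact (_root_.mul_le_of_le_one_left (v.nonneg y) hx).trans hy

theorem mul_le_of_le_one_right {x y : Ω} {r : ℝ} (hx : v x ≤ r) (hy : v y ≤ 1) :
    v (x * y) ≤ r := by
  rw [mul_comm]; exact mul_le_of_le_one_left hy hx

theorem mul_lt_of_le_one_left {x y : Ω} {r : ℝ} (hx : v x ≤ 1) (hy : v y < r) :
    v (x * y) < r := by
  rw [map_mul]; exact (_root_.mul_le_of_le_one_left (v.nonneg y) hx).trans_lt hy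

theorem mul_lt_of_le_one_right {x y : Ω} {r : ℝ} (hx : v x < r) (hy : v y ≤ 1) :
    v (x * y) < r := by
  rw [mul_comm]; exact mul_lt_of_le_one_left hy hx

theorem pow_le_one {x : Ω} (hx : v x ≤ 1) (n : ℕ) : v (x ^ n) ≤ 1 := by
  rw [map_pow]; exact pow_le_one₀ (v.nonneg x) hx

theorem prod_le_one {ι : Type*} (s : Finset ι) (f : ι → Ω) (h : ∀ i ∈ s, v (f i) ≤ 1) :
    v (∏ i ∈ s, f i) ≤ 1 := by
  rw [map_prod]; exact Finset.prod_le_one (fun i _ => v.nonneg _) h

theorem natCast_le_one (hv : IsNonarchimedean v) (n : ℕ) : v (n : Ω) ≤ 1 := by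
  induction n with
  | zero => simp
  | succ n ih => push_cast; exact add_le hv ih (by simp)

/-- a close element of an element of value one has value one -/
theorem eq_one_of_sub_lt (hv : IsNonarchimedean v) {x y : Ω} (hy : v y = 1)
    (h : v (x - y) < 1) : v x = 1 := by
  have h1 : v x ≤ 1 := by
    have := add_le hv h.le hy.le
    rwa [sub_add_cancel] at this
  refine le_antisymm h1 (not_lt.1 fun h2 => ?_)
  have := sub_lt hv h2 h
  rw [sub_sub_cancel, hy] at this
  exact lt_irrefl _ this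

theorem mul_sub_mul_le (hv : IsNonarchimedean v) {x y x' y' : Ω} {r : ℝ} (hx : v x ≤ 1)
    (hy' : v y' ≤ 1) (h1 : v (x - x') ≤ r) (h2 : v (y - y') ≤ r) : v (x * y - x' * y') ≤ r := by
  have : x * y - x' * y' = x * (y - y') + (x - x') * y' := by ring
  rw [this]
  exact add_le hv (mul_le_of_le_one_left hx h2) (mul_le_of_le_one_right h1 hy')

theorem mul_sub_mul_lt (hv : IsNonarchimedean v) {x y x' y' : Ω} {r : ℝ} (hx : v x ≤ 1)
    (hy' : v y' ≤ 1) (h1 : v (x - x') < r) (h2 : v (y - y') < r) : v (x * y - x' * y') < r := by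
  have : x * y - x' * y' = x * (y - y') + (x - x') * y' := by ring
  rw [this]
  exact add_lt hv (mul_lt_of_le_one_left hx h2) (mul_lt_of_le_one_right h1 hy')

theorem prod_sub_prod_le (hv : IsNonarchimedean v) {ι : Type*} (s : Finset ι) (f g : ι → Ω)
    {r : ℝ} (hr : 0 ≤ r) (hf : ∀ i ∈ s, v (f i) ≤ 1) (hg : ∀ i ∈ s, v (g i) ≤ 1)
    (h : ∀ i ∈ s, v (f i - g i) ≤ r) : v (∏ i ∈ s, f i - ∏ i ∈ s, g i) ≤ r := by
  classical
  induction s using Finset.induction_on with
  | empty => simpa using hr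
  | insert a s ha ih =>
    rw [Finset.prod_insert ha, Finset.prod_insert ha]
    exact mul_sub_mul_le hv (hf a (by simp)) (prod_le_one s g fun i hi => hg i (by simp [hi]))
      (h a (by simp)) (ih (fun i hi => hf i (by simp [hi])) (fun i hi => hg i (by simp [hi]))
        fun i hi => h i (by simp [hi]))

theorem prod_sub_prod_lt (hv : IsNonarchimedean v) {ι : Type*} (s : Finset ι) (f g : ι → Ω)
    {r : ℝ} (hr : 0 < r) (hf : ∀ i ∈ s, v (f i) ≤ 1) (hg : ∀ i ∈ s, v (g i) ≤ 1)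
    (h : ∀ i ∈ s, v (f i - g i) < r) : v (∏ i ∈ s, f i - ∏ i ∈ s, g i) < r := by
  classical
  induction s using Finset.induction_on with
  | empty => simpa using hr
  | insert a s ha ih =>
    rw [Finset.prod_insert ha, Finset.prod_insert ha]
    exact mul_sub_mul_lt hv (hf a (by simp)) (prod_le_one s g fun i hi => hg i (by simp [hi]))
      (h a (by simp)) (ih (fun i hi => hf i (by simp [hi])) (fun i hi => hg i (by simp [hi]))
        fun i hi => h i (by simp [hi]))

theorem pow_sub_pow_le (hv : IsNonarchimedean v) {x y : Ω} {r : ℝ} (hx : v x ≤ 1) (hy : v y ≤ 1)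
    (h : v (x - y) ≤ r) (n : ℕ) : v (x ^ n - y ^ n) ≤ r := by
  have := prod_sub_prod_le hv (Finset.range n) (fun _ => x) (fun _ => y) ((v.nonneg _).trans h)
    (fun _ _ => hx) (fun _ _ => hy) fun _ _ => h
  simpa using this

theorem pow_sub_pow_lt (hv : IsNonarchimedean v) {x y : Ω} {r : ℝ} (hx : v x ≤ 1) (hy : v y ≤ 1)
    (h : v (x - y) < r) (n : ℕ) : v (x ^ n - y ^ n) < r := by
  have := prod_sub_prod_lt hv (Finset.range n) (fun _ => x) (fun _ => y) ((v.nonneg _).trans_lt h)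
    (fun _ _ => hx) (fun _ _ => hy) fun _ _ => h
  simpa using this

/-- the valuation ring -/
def O (hv : IsNonarchimedean v) : Subring Ω where
  carrier := {x | v x ≤ 1}
  mul_mem' := fun ha hb => mul_le_of_le_one_left ha hb
  one_mem' := by simp
  add_mem' := fun ha hb => add_le hv ha hb
  zero_mem' := by simp
  neg_mem' := fun {x} hx => by simpa using hx

theorem mem_O (hv : IsNonarchimedean v) {x : Ω} : x ∈ O hv ↔ v x ≤ 1 := Iff.rfl

theorem O_le (hv : IsNonarchimedean v) (x : O hv) : v (x : Ω) ≤ 1 := x.2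

theorem dvd_iff (hv : IsNonarchimedean v) {c x : O hv} (hc : (c : Ω) ≠ 0) :
    c ∣ x ↔ v (x : Ω) ≤ v (c : Ω) := by
  constructor
  · rintro ⟨y, rfl⟩
    push_cast
    exact mul_le_of_le_one_right le_rfl y.2
  · intro h
    refine ⟨⟨(x : Ω) / c, ?_⟩, ?_⟩
    · rw [mem_O, map_div₀]
      exact div_le_one_of_le₀ h (v.nonneg _)
    · ext
      push_cast
      field_simp

end basic

section interp

/-- Interpolation lemma: an integral polynomial that is small at `k` separated points is bounded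
at a further point by the product of the distances. -/
theorem interp (hv : IsNonarchimedean v) {δ : ℝ} (hδ : 0 < δ) (hδ1 : δ ≤ 1) (s0 : O hv) :
    ∀ (k : ℕ) (s : Fin k → O hv) (f : (O hv)[X]) (ε : ℝ), 0 ≤ ε →
      (∀ i j, i ≠ j → δ ≤ v ((s i : Ω) - s j)) → (∀ i, v ((f.eval (s i) : O hv) : Ω) ≤ ε) →
      v ((f.eval s0 : O hv) : Ω) ≤ max (∏ i, v ((s0 : Ω) - s i)) (ε / δ ^ k) := by
  intro k
  induction k with
  | zero =>
    intro s f ε _ _ _
    simpa using Or.inl (O_le hv _)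
  | succ k ih =>
    intro s f ε hε hs hf
    obtain ⟨g, hg⟩ : ∃ g : (O hv)[X], f = C (f.eval (s 0)) + (X - C (s 0)) * g := by
      obtain ⟨g, hg⟩ := X_sub_C_dvd_sub_C_eval (p := f) (a := s 0)
      exact ⟨g, by rw [← hg]; ring⟩
    have hev : ∀ x : O hv, ((f.eval x : O hv) : Ω) =
        ((f.eval (s 0) : O hv) : Ω) + ((x : Ω) - s 0) * ((g.eval x : O hv) : Ω) := by
      intro x
      conv_lhs => rw [hg]
      simp
    have hg' : ∀ i : Fin k, v ((g.eval (s i.succ) : O hv) : Ω) ≤ ε / δ := by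
      intro i
      have h1 : v (((s i.succ : Ω) - s 0) * ((g.eval (s i.succ) : O hv) : Ω)) ≤ ε := by
        have := sub_le hv (hf i.succ) (hf 0)
        rwa [hev (s i.succ), add_sub_cancel_left] at this
      rw [map_mul] at h1
      rw [le_div_iff₀ hδ, mul_comm]
      exact (mul_le_mul_of_nonneg_right (hs _ _ (Fin.succ_ne_zero i)) (v.nonneg _)).trans h1
    have h2 := ih (fun i => s i.succ) g (ε / δ) (div_nonneg hε hδ.le)
      (fun i j hij => hs _ _ fun h => hij (Fin.succ_injective _ h)) hg'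
    have h3 : ε / δ / δ ^ k = ε / δ ^ (k + 1) := by rw [div_div, pow_succ']
    rw [h3] at h2
    have h4 : ε ≤ ε / δ ^ (k + 1) := by
      rw [le_div_iff₀ (pow_pos hδ _)]
      exact _root_.mul_le_of_le_one_right hε (pow_le_one₀ hδ.le hδ1)
    have h5 : v ((s0 : Ω) - s 0) ≤ 1 := sub_le hv s0.2 (s 0).2
    rw [hev s0]
    refine add_le hv ((hf 0).trans (h4.trans (le_max_right _ _))) ?_
    rw [map_mul, Fin.prod_univ_succ]
    rcases le_max_iff.1 h2 with h | h
    · exact (mul_le_mul_of_nonneg_left h (v.nonneg _)).trans (le_max_left _ _)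
    · exact ((_root_.mul_le_of_le_one_left (v.nonneg _) h5).trans h).trans (le_max_right _ _)

end interp

section power

theorem dvd_pow_sub {R : Type*} [CommRing R] {p : ℕ} (hp : p.Prime) {r : ℕ} (hr : 1 ≤ r)
    {a b : R} (h : (p : R) ^ r ∣ a - b) : (p : R) ^ (r + 1) ∣ a ^ p - b ^ p := by
  obtain ⟨c, hc⟩ := h
  have ha : a = b + (p : R) ^ r * c := by rw [← hc]; ring
  obtain ⟨e, he⟩ := exists_add_pow_prime_eq hp b ((p : R) ^ r * c)
  rw [ha, he]
  have h1 : (p : R) ^ (r + 1) ∣ ((p : R) ^ r * c) ^ p := by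
    rw [mul_pow, ← pow_mul]
    refine Dvd.dvd.mul_right (pow_dvd_pow _ ?_) _
    nlinarith [hp.two_le]
  have h2 : b ^ p + ((p : R) ^ r * c) ^ p + p * b * ((p : R) ^ r * c) * e - b ^ p =
      ((p : R) ^ r * c) ^ p + (p : R) ^ (r + 1) * (b * c * e) := by ring
  rw [h2]
  exact dvd_add h1 (dvd_mul_right _ _)

theorem dvd_pow_pow_sub {R : Type*} [CommRing R] {p : ℕ} (hp : p.Prime) {r : ℕ} (hr : 1 ≤ r)
    {a b : R} (h : (p : R) ^ r ∣ a - b) (n : ℕ) :
    (p : R) ^ (r + n) ∣ a ^ p ^ n - b ^ p ^ n := by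
  induction n with
  | zero => simpa using h
  | succ n ih =>
    have := dvd_pow_sub hp (le_add_right hr) ih
    rwa [← pow_mul, ← pow_mul, ← pow_succ, add_assoc] at this

theorem pow_pow_sub_le (hv : IsNonarchimedean v) {p : ℕ} (hp : p.Prime) (hp0 : (p : Ω) ≠ 0)
    {r : ℕ} (hr : 1 ≤ r) {x y : Ω} (hx : v x ≤ 1) (hy : v y ≤ 1)
    (h : v (x - y) ≤ v (p : Ω) ^ r) (n : ℕ) :
    v (x ^ p ^ n - y ^ p ^ n) ≤ v (p : Ω) ^ (r + n) := by
  have h1 : ((p : O hv)) ^ r ∣ (⟨x, hx⟩ : O hv) - ⟨y, hy⟩ := by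
    rw [dvd_iff hv (by push_cast; exact pow_ne_zero _ hp0)]
    simpa using h
  have h2 := dvd_pow_pow_sub hp hr h1 n
  rw [dvd_iff hv (by push_cast; exact pow_ne_zero _ hp0)] at h2
  simpa using h2

variable {G : Type*} [AddCommGroup G] [Fintype G] [DecidableEq G]

/-- coefficient of the origin in the `N`-th convolution power -/
def cf {R : Type*} [CommRing R] (N : ℕ) (X : G → R) : R :=
  ∑ t : Fin N → G, if ∑ l, t l = 0 then ∏ l, X (t l) else 0

theorem cf_map {R S : Type*} [CommRing R] [CommRing S] (φ : R →+* S) (N : ℕ) (X : G → R) :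
    φ (cf N X) = cf N fun s => φ (X s) := by
  simp only [cf, map_sum, apply_ite φ, map_prod, map_zero]

theorem cf_mul {R : Type*} [CommRing R] (N : ℕ) (u : R) (X : G → R) :
    cf N (fun s => u * X s) = u ^ N * cf N X := by
  simp only [cf, Finset.mul_sum, Finset.prod_mul_distrib, Finset.prod_const, Finset.card_univ,
    Fintype.card_fin, mul_ite, mul_zero]

/-- the element of the group ring with given coefficients -/
noncomputable def gr {R : Type*} [CommRing R] (X : G → R) : AddMonoidAlgebra R G :=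
  ∑ s, AddMonoidAlgebra.single s (X s)

theorem cf_eq {R : Type*} [CommRing R] (N : ℕ) (X : G → R) :
    cf N X = ((gr X) ^ N).coeff 0 := by
  have h1 : (gr X) ^ N = ∏ _l : Fin N, ∑ s, AddMonoidAlgebra.single s (X s) := by
    simp [gr]
  rw [h1, Finset.prod_univ_sum, Fintype.piFinset_univ, AddMonoidAlgebra.coeff_sum,
    Finset.sum_apply', cf]
  refine Finset.sum_congr rfl fun t _ => ?_
  rw [AddMonoidAlgebra.prod_single, AddMonoidAlgebra.coeff_single, Finsupp.single_apply]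

omit [Fintype G] [DecidableEq G] in
theorem coeff_dvd {R : Type*} [CommRing R] {p n : ℕ} {Y : AddMonoidAlgebra R G}
    (h : (p : AddMonoidAlgebra R G) ^ n ∣ Y) (s : G) : (p : R) ^ n ∣ Y.coeff s := by
  obtain ⟨Z, rfl⟩ := h
  rw [← Nat.cast_pow (α := AddMonoidAlgebra R G), ← nsmul_eq_mul,
    AddMonoidAlgebra.coeff_smul_apply, nsmul_eq_mul, Nat.cast_pow]
  exact dvd_mul_right _ _

omit [DecidableEq G] in
theorem gr_dvd {R : Type*} [CommRing R] {p n : ℕ} {X Y : G → R}
    (h : ∀ s, (p : R) ^ n ∣ X s - Y s) : (p : AddMonoidAlgebra R G) ^ n ∣ gr X - gr Y := by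
  rw [gr, gr, ← Finset.sum_sub_distrib]
  refine Finset.dvd_sum fun s _ => ?_
  obtain ⟨c, hc⟩ := h s
  refine ⟨AddMonoidAlgebra.single s c, ?_⟩
  rw [← AddMonoidAlgebra.single_sub, hc, ← Nat.cast_pow, ← Nat.cast_pow, ← nsmul_eq_mul,
    ← nsmul_eq_mul, AddMonoidAlgebra.smul_single]

theorem cf_dvd {R : Type*} [CommRing R] {p : ℕ} (hp : p.Prime) {r : ℕ} (hr : 1 ≤ r)
    {X Y : G → R} (h : ∀ s, (p : R) ^ r ∣ X s - Y s) (n : ℕ) :
    (p : R) ^ (r + n) ∣ cf (p ^ n) X - cf (p ^ n) Y := by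
  have := coeff_dvd (dvd_pow_pow_sub hp hr (gr_dvd h) n) 0
  rwa [AddMonoidAlgebra.coeff_sub, Finsupp.sub_apply, ← cf_eq, ← cf_eq] at this

theorem dvd_sum_pow {R ι : Type*} [CommRing R] {p : ℕ} (hp : p.Prime) (n : ℕ) (s : Finset ι)
    (f : ι → R) : (p : R) ∣ (∑ i ∈ s, f i) ^ p ^ n - ∑ i ∈ s, f i ^ p ^ n := by
  classical
  induction s using Finset.induction_on with
  | empty => simp [zero_pow (pow_pos hp.pos n).ne']
  | insert a s ha ih =>
    rw [Finset.sum_insert ha, Finset.sum_insert ha]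
    obtain ⟨e, he⟩ := exists_add_pow_prime_pow_eq hp (f a) (∑ i ∈ s, f i) n
    rw [he]
    obtain ⟨c, hc⟩ := ih
    exact ⟨c + f a * (∑ i ∈ s, f i) * e, by linear_combination hc⟩

theorem cf_mod_p {R : Type*} [CommRing R] {p : ℕ} (hp : p.Prime) (n : ℕ)
    (hG : ∀ s : G, p ^ n • s = 0) (X : G → R) :
    (p : R) ∣ cf (p ^ n) X - (∑ s, X s) ^ p ^ n := by
  have h1 := dvd_sum_pow hp n Finset.univ fun s : G => AddMonoidAlgebra.single s (X s)
  have h2 : ((p : AddMonoidAlgebra R G)) ^ 1 ∣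
      gr X ^ p ^ n - ∑ s, AddMonoidAlgebra.single (0 : G) (X s ^ p ^ n) := by
    rw [pow_one]
    simpa only [AddMonoidAlgebra.single_pow, hG, gr] using h1
  have h3 := coeff_dvd h2 0
  rw [pow_one, AddMonoidAlgebra.coeff_sub, Finsupp.sub_apply, ← cf_eq, AddMonoidAlgebra.coeff_sum,
    Finset.sum_apply'] at h3
  simp only [AddMonoidAlgebra.coeff_single, Finsupp.single_eq_same] at h3
  have h4 := dvd_sum_pow hp n Finset.univ X
  have := dvd_sub h3 h4
  rwa [sub_sub_sub_cancel_right] at this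

theorem cf_le_one (hv : IsNonarchimedean v) (N : ℕ) {X : G → Ω} (hX : ∀ s, v (X s) ≤ 1) :
    v (cf N X) ≤ 1 := by
  refine sum_le hv _ _ zero_le_one fun t _ => ?_
  split_ifs
  · exact prod_le_one _ _ fun l _ => hX _
  · simp

theorem cf_sub_le (hv : IsNonarchimedean v) {p : ℕ} (hp : p.Prime) (hp0 : (p : Ω) ≠ 0)
    {r : ℕ} (hr : 1 ≤ r) {X Y : G → Ω} (hX : ∀ s, v (X s) ≤ 1) (hY : ∀ s, v (Y s) ≤ 1)
    (h : ∀ s, v (X s - Y s) ≤ v (p : Ω) ^ r) (n : ℕ) :
    v (cf (p ^ n) X - cf (p ^ n) Y) ≤ v (p : Ω) ^ (r + n) := by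
  have h1 : ∀ s, ((p : O hv)) ^ r ∣ (⟨X s, hX s⟩ : O hv) - ⟨Y s, hY s⟩ := by
    intro s
    rw [dvd_iff hv (by push_cast; exact pow_ne_zero _ hp0)]
    simpa using h s
  have h2 := cf_dvd hp hr h1 n
  rw [dvd_iff hv (by push_cast; exact pow_ne_zero _ hp0)] at h2
  have h3 := cf_map (O hv).subtype (p ^ n) fun s => (⟨X s, hX s⟩ : O hv)
  have h4 := cf_map (O hv).subtype (p ^ n) fun s => (⟨Y s, hY s⟩ : O hv)
  simp only [Subring.subtype_apply] at h3 h4
  simpa [h3, h4] using h2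

theorem cf_sub_pow_le (hv : IsNonarchimedean v) {p : ℕ} (hp : p.Prime) (hp0 : (p : Ω) ≠ 0) (n : ℕ)
    (hG : ∀ s : G, p ^ n • s = 0) {X : G → Ω} (hX : ∀ s, v (X s) ≤ 1) :
    v (cf (p ^ n) X - (∑ s, X s) ^ p ^ n) ≤ v (p : Ω) := by
  have h2 := cf_mod_p hp n hG fun s => (⟨X s, hX s⟩ : O hv)
  rw [dvd_iff hv (by push_cast; exact hp0)] at h2
  have h3 := cf_map (O hv).subtype (p ^ n) fun s => (⟨X s, hX s⟩ : O hv)
  simp only [Subring.subtype_apply] at h3
  simpa [h3] using h2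

/-- a `p`-power root of unity (even approximately) is congruent to one -/
theorem sub_one_lt_of_pow (hv : IsNonarchimedean v) {p : ℕ} (hp : p.Prime)
    (hp1 : v (p : Ω) < 1) {x : Ω} (hx : v x ≤ 1) (n : ℕ) (h : v (x ^ p ^ n - 1) < 1) :
    v (x - 1) < 1 := by
  obtain ⟨e, he⟩ := exists_add_pow_prime_pow_eq hp ((⟨x, hx⟩ : O hv) - 1) 1 n
  have he' := congrArg (fun z : O hv => (z : Ω)) he
  push_cast at he'
  rw [sub_add_cancel, one_pow] at he'
  have h1 : (x - 1) ^ p ^ n = (x ^ p ^ n - 1) - p * ((x - 1) * e) := by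
    linear_combination -he'
  have h2 : v ((x - 1) ^ p ^ n) < 1 := by
    rw [h1]
    exact sub_lt hv h (mul_lt_of_le_one_right hp1
      (mul_le_of_le_one_left (sub_le hv hx (by simp)) e.2))
  rw [map_pow] at h2
  exact (pow_lt_one_iff_of_nonneg (v.nonneg _) (pow_pos hp.pos n).ne').1 h2

end power

section disc

/-- An element with a small finite orbit under an isometric group whose fixed points are discretely
valued is bounded away from the unit sphere. -/
theorem disc {I : Type*} [Group I] (act : I →* (Ω ≃+* Ω)) (iso : ∀ σ x, v (act σ x) = v x)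
    {c : ℝ} (hfix : ∀ x, (∀ σ, act σ x = x) → v x < 1 → v x ≤ c) {x : Ω} (S : Finset Ω)
    (hS : ∀ σ, act σ x ∈ S) {D : ℕ} (hD : S.card ≤ D) (hx : v x < 1) : v x ^ D ≤ c := by
  classical
  set S' := S.filter fun y => ∃ σ, act σ x = y with hS'
  have hmem : ∀ y, y ∈ S' ↔ ∃ σ, act σ x = y := by
    intro y
    rw [hS', Finset.mem_filter]
    exact ⟨fun h => h.2, fun h => ⟨by obtain ⟨σ, rfl⟩ := h; exact hS σ, h⟩⟩
  have hxS : x ∈ S' := (hmem x).2 ⟨1, by simp⟩
  have h1 : ∀ τ, act τ (∏ y ∈ S', y) = ∏ y ∈ S', y := by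
    intro τ
    rw [map_prod]
    refine Finset.prod_bij (fun y _ => act τ y) ?_ ?_ ?_ fun _ _ => rfl
    · intro y hy
      obtain ⟨σ, rfl⟩ := (hmem y).1 hy
      exact (hmem _).2 ⟨τ * σ, by simp⟩
    · intro a _ b _ h
      exact (act τ).injective h
    · intro y hy
      obtain ⟨σ, rfl⟩ := (hmem y).1 hy
      refine ⟨act (τ⁻¹ * σ) x, (hmem _).2 ⟨_, rfl⟩, ?_⟩
      rw [← RingAut.mul_apply, ← map_mul, mul_inv_cancel_left]
  have h2 : v (∏ y ∈ S', y) = v x ^ S'.card := by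
    rw [map_prod, Finset.prod_congr rfl (g := fun _ => v x), Finset.prod_const]
    intro y hy
    obtain ⟨σ, rfl⟩ := (hmem y).1 hy
    exact iso σ x
  have h3 : 0 < S'.card := Finset.card_pos.2 ⟨x, hxS⟩
  have h4 := hfix _ h1 (by rw [h2]; exact pow_lt_one₀ (v.nonneg x) hx h3.ne')
  rw [h2] at h4
  exact (pow_le_pow_of_le_one (v.nonneg x) hx.le ((Finset.card_filter_le _ _).trans hD)).trans h4

end disc

end MTC
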