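import Pool.Agent.Lib.MP_d61fbb_ag.MT.C1c

/-! Block C of the MT project: the measure system of a theta system. -/

noncomputable section

namespace MTC

open Matrix

variable {Ω : Type*} [Field Ω] {v : AbsoluteValue Ω ℝ} {p : ℕ} [Fact p.Prime]
  {I : Type*} [Group I] {ι : Type*} [Fintype ι] [DecidableEq ι] {A : Type*}
  {D : Inert v p I} {β : I → Matrix ι ι ℚ_[p]} {F : A → (ι → ℚ_[p]) → (ι → ℚ_[p]) → Ω}

theorem Sys.unit {d : ι → ℕ} (S : Sys D β d F) (x y : ι → ℚ_[p]) : ∃ a, v (F a x y) = 1 :=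
  S.unit' x y

theorem meas_eq (k : ℕ) (a : A) (w : ι → ℚ_[p]) : meas D F k a w =
    ((p : Ω) ^ (Fintype.card ι * k))⁻¹ * ∑ c : ι → ZMod (p ^ k), tr D F a w 0 (repv k c) := by
  simp only [meas, tr, zero_add, repv]

omit [DecidableEq ι] in
theorem Sys.tr_congr0 (S : Sys D β 0 F) (a : A) (x y c c' : ι → ℚ_[p]) (h : In 0 (c - c')) :
    tr D F a x y c = tr D F a x y c' := S.tr_congr a x y (h.le_d 0)

theorem Sys.meas_le_one (S : Sys D β 0 F) (k : ℕ) (a : A) (w : ι → ℚ_[p]) :
    v (meas D F k a w) ≤ 1 := by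
  obtain ⟨G, κ, _, t, hG, ht, hF⟩ := S.exists_level fun _ => k
  have h1 : ∀ c : ι → ZMod (p ^ k), tr D F a w 0 (repv k c) =
      ∑ r, G a (w + t r) 0 * D.psi (t r ⬝ᵥ repv k c) := fun c => by
    rw [tr, hF, Finset.mul_sum]
    refine Finset.sum_congr rfl fun r _ => ?_
    rw [hG.pery a _ 0 _ fun j => by simpa using in_repv k c j, ← mul_assoc,
      ← AddChar.map_add_eq_mul, add_dotProduct, neg_add_cancel_left, mul_comm]
  simp only [meas_eq, h1]
  rw [Finset.sum_comm, Finset.mul_sum]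
  refine sum_le D.na _ _ zero_le_one fun r _ => ?_
  rw [← Finset.mul_sum, D.sum_psi_dot k (ht r), mul_left_comm]
  refine mul_le_of_le_one_left (hG.le_one _ _ _) ?_
  split_ifs
  · rw [inv_mul_cancel₀ (pow_ne_zero _ D.p0), map_one]
  · simp

theorem Sys.meas_add (S : Sys D β 0 F) (k j : ℕ) (a : A) (w : ι → ℚ_[p]) :
    meas D F k a w =
      ∑ s : ι → ZMod (p ^ j), meas D F (k + j) a (w + (p : ℚ_[p]) ^ k • lift s) := by
  classical
  have hq := pq_ne (p := p)
  have h1 : ∀ (s : ι → ZMod (p ^ j)) (c : ι → ZMod (p ^ (k + j))),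
      tr D F a (w + (p : ℚ_[p]) ^ k • lift s) 0 (repv (k + j) c) =
        tr D F a w 0 (repv (k + j) c) * D.psi (-lift c ⬝ᵥ repv j s) := fun s c => by
    rw [tr, tr, S.perx a w _ _ fun i => ((in_lift s).smul_pow k).mono (l := 0) (by omega) i,
      mul_right_comm, ← AddChar.map_add_eq_mul, add_dotProduct]
    congr 2
    simp only [repv, smul_dotProduct, dotProduct_smul, neg_dotProduct, smul_eq_mul,
      dotProduct_comm (lift c)]
    field_simp
    ring
  have h2 : ∀ c : ι → ZMod (p ^ (k + j)), In j (-lift (p := p) c) ↔ In (-k) (repv (k + j) c) := by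
    intro c
    refine ⟨fun h => ?_, fun h => ?_⟩
    · have := h.neg.smul_inv_pow (k + j)
      rw [neg_neg] at this
      exact this.mono (by omega)
    · have := (h.smul_pow (k + j)).neg
      rw [repv, smul_inv_smul₀ (pow_ne_zero _ hq)] at this
      exact this.mono (by omega)
  simp only [meas_eq, h1, ← Finset.mul_sum]
  rw [Finset.sum_comm]
  simp only [← Finset.mul_sum, fun c : ι → ZMod (p ^ (k + j)) =>
    D.sum_psi_dot j (in_lift (p := p) c).neg, h2, mul_ite, mul_zero]
  rw [← Finset.sum_filter, ← Finset.sum_mul, sum_repv k (tr D F a w 0) (S.tr_congr0 a w 0) _ _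
    (fun c hc => (Finset.mem_filter.1 hc).2) (fun c _ c' _ h => repv_inj _ h) fun c => ?_]
  · have := D.p0
    rw [mul_add, pow_add]
    field_simp
  · obtain ⟨r, hr⟩ := exists_repv (k + j) ((in_repv k c).mono (by omega))
    refine ⟨r, Finset.mem_filter.2 ⟨Finset.mem_univ _, ?_⟩, by simpa using hr.neg⟩
    simpa using (in_repv k c).sub (hr.mono (by omega))

theorem Sys.meas_gal (S : Sys D β 0 F) (σ : I) (k j : ℕ) (a : A) (w t : ι → ℚ_[p])
    (hw : ‖w‖ ≤ (p : ℝ) ^ k) (ht : ‖t‖ ≤ (p : ℝ)⁻¹ ^ k) :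
    D.act σ (meas D F (k + j) a (w + t)) =
      D.psi (w ⬝ᵥ β σ *ᵥ w / 2) * meas D F (k + j) a (w + t) := by
  replace hw : In (-k) w := in_iff.2 (by simpa using hw)
  replace ht : In k t := in_iff.2 (by simpa using ht)
  have hx : In (-(k + j : ℕ)) (w + t) := (hw.add (ht.mono (by omega))).mono (by omega)
  have h1 : D.psi (w ⬝ᵥ β σ *ᵥ w / 2) = D.psi ((w + t) ⬝ᵥ β σ *ᵥ (w + t) / 2) := by
    refine (D.psi_congr ?_).symm
    rw [← sub_div, half_norm D.odd, mulVec_add, add_dotProduct, dotProduct_add, dotProduct_add,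
      add_assoc, add_sub_cancel_left]
    refine norm_add_le_of (by simpa using hw.dot (ht.mulVec (S.int σ))) (norm_add_le_of
      (by simpa using ht.dot (hw.mulVec (S.int σ))) ?_)
    simpa using ht.dot ((ht.mulVec (S.int σ)).mono (l := -k) (by omega))
  rw [h1]
  generalize w + t = x at hx
  generalize k + j = K at hx
  rw [meas_eq, map_mul, map_inv₀, map_pow, map_natCast, map_sum, mul_left_comm,
    ← sum_repv' K (tr D F a x 0) (S.tr_congr0 a x 0) (fun c => D.chi σ • repv K c + β σ *ᵥ x)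
    (fun c => ((in_repv K c).smul_int (D.chi_norm σ).le).add (hx.mulVec (S.int σ)))
    fun c c' h => repv_inj K ?_, Finset.mul_sum _ _ (D.psi _)]
  · congr 1
    refine Finset.sum_congr rfl fun c _ => ?_
    rw [S.tr_gal, smul_zero, tr_add, ← mul_assoc, ← AddChar.map_add_eq_mul]
    congr 2
    ring
  · have h0 : D.chi σ ≠ 0 := fun h => by simpa [h] using D.chi_norm σ
    have := h.smul_int (c := (D.chi σ)⁻¹) (by rw [norm_inv, D.chi_norm, inv_one])
    rwa [add_sub_add_right_eq_sub, ← smul_sub, inv_smul_smul₀ h0] at this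

/-- the measure system of a theta system that satisfies the power identity -/
def Sys.toMeas (S : Sys D β 0 F) (fr : A → A) (th : ℕ → Ω)
    (frob : ∀ k a w, cf (p ^ 2) (fun s : ι → ZMod (p ^ 2) =>
      meas D F (k + 2) a (w + (p : ℚ_[p]) ^ k • lift s)) =
        th k * meas D F (k + 1) (fr a) ((p : ℚ_[p]) • w)) :
    Meas v p ι fr (fun s => (D.act s : Ω →+* Ω)) D.psi where
  M := meas D F
  q := fun σ w => w ⬝ᵥ β σ *ᵥ w / 2
  th := th
  le_one := S.meas_le_one
  nv := fun w => by simpa only [meas_zero] using S.unit w 0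
  add := S.meas_add
  frob := frob
  gal := S.meas_gal

end MTC
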