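import Pool.Agent.Lib.MP_d61fbb_ag.MT.CSys

/-! Block C of the MT project: representatives, orthogonality, consequences of the Riemann
relation. -/

noncomputable section

namespace MTC

open Matrix

variable {Ω : Type*} [Field Ω] {v : AbsoluteValue Ω ℝ} {p : ℕ} [Fact p.Prime]
  {I : Type*} [Group I] {ι : Type*} [Fintype ι] [DecidableEq ι] {A : Type*}

section reps

/-- representatives of `p ^ (-k) ℤ_p` modulo `ℤ_p` -/
def rep (k : ℕ) (c : ZMod (p ^ k)) : ℚ_[p] := ((p : ℚ_[p]) ^ k)⁻¹ * (c.val : ℚ_[p])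

theorem norm_nat (n : ℕ) : ‖(n : ℚ_[p])‖ ≤ 1 := IsUltrametricDist.norm_natCast_le_one ℚ_[p] n

theorem norm_inv_pow (k : ℕ) : ‖((p : ℚ_[p]) ^ k)⁻¹‖ = (p : ℝ) ^ k := by simp

theorem rep_norm (k : ℕ) (c : ZMod (p ^ k)) : ‖rep k c‖ ≤ (p : ℝ) ^ k := by
  rw [rep, norm_mul, norm_inv_pow]
  exact _root_.mul_le_of_le_one_right (pow_pos p_pos k).le (norm_nat _)

theorem rep_zero (k : ℕ) : rep (p := p) k 0 = 0 := by simp [rep]

theorem exists_rep (k : ℕ) {z : ℚ_[p]} (hz : ‖z‖ ≤ (p : ℝ) ^ k) :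
    ∃ c : ZMod (p ^ k), ‖z - rep k c‖ ≤ 1 := by
  have hp : (0 : ℝ) < (p : ℝ) ^ k := pow_pos p_pos k
  have h1 : ‖(p : ℚ_[p]) ^ k * z‖ ≤ 1 := by
    rw [norm_mul, Padic.norm_p_pow, _root_.zpow_neg, zpow_natCast, inv_mul_le_iff₀ hp, mul_one]
    exact hz
  let x : ℤ_[p] := ⟨_, h1⟩
  refine ⟨(x.appr k : ZMod (p ^ k)), ?_⟩
  have h2 := (PadicInt.norm_le_pow_iff_mem_span_pow _ k).2 (PadicInt.appr_spec k x)
  have h3 : z - rep k (x.appr k : ZMod (p ^ k)) =
      ((p : ℚ_[p]) ^ k)⁻¹ * ((x - x.appr k : ℤ_[p]) : ℚ_[p]) := by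
    rw [rep, ZMod.val_cast_of_lt (x.appr_lt k)]
    have := pow_ne_zero k (pq_ne (p := p))
    push_cast [x]
    field_simp
  rw [h3, norm_mul, norm_inv_pow, PadicInt.padic_norm_e_of_padicInt]
  rw [_root_.zpow_neg, zpow_natCast] at h2
  exact (mul_le_mul_of_nonneg_left h2 hp.le).trans_eq (mul_inv_cancel₀ hp.ne')

theorem rep_inj (k : ℕ) {c c' : ZMod (p ^ k)} (h : ‖rep k c - rep k c'‖ ≤ 1) : c = c' := by
  have hp : (0 : ℝ) < (p : ℝ) ^ k := pow_pos p_pos k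
  have h1 : ‖(((c.val : ℤ) - c'.val : ℤ) : ℚ_[p])‖ ≤ (p : ℝ) ^ (-k : ℤ) := by
    rw [rep, rep, ← mul_sub, norm_mul, norm_inv_pow] at h
    rw [_root_.zpow_neg, zpow_natCast, ← mul_one (_ : ℝ)⁻¹, le_inv_mul_iff₀ hp]
    simpa using h
  have h2 := (Padic.norm_int_le_pow_iff_dvd _ k).1 h1
  have h3 : (((c.val : ℤ) - c'.val : ℤ) : ZMod (p ^ k)) = 0 :=
    (ZMod.intCast_zmod_eq_zero_iff_dvd _ _).2 (by exact_mod_cast h2)
  simpa [sub_eq_zero] using h3

theorem norm_add_le_of {x y : ℚ_[p]} {r : ℝ} (hx : ‖x‖ ≤ r) (hy : ‖y‖ ≤ r) : ‖x + y‖ ≤ r :=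
  (IsUltrametricDist.norm_add_le_max _ _).trans (max_le hx hy)

theorem norm_sub_le_one {x y : ℚ_[p]} (hx : ‖x‖ ≤ 1) (hy : ‖y‖ ≤ 1) : ‖x - y‖ ≤ 1 := by
  rw [sub_eq_add_neg]
  exact norm_add_le_of hx (by rwa [norm_neg])

/-- a sum over representatives does not depend on the representatives, scalar form -/
theorem sum_rep (k : ℕ) (Φ : ℚ_[p] → Ω) (hΦ : ∀ z z', ‖z - z'‖ ≤ 1 → Φ z = Φ z')
    (y : ZMod (p ^ k) → ℚ_[p]) (hy : ∀ c, ‖y c‖ ≤ (p : ℝ) ^ k)
    (inj : ∀ c c', ‖y c - y c'‖ ≤ 1 → c = c') : ∑ c, Φ (y c) = ∑ c, Φ (rep k c) := by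
  choose e he using fun c => exists_rep k (hy c)
  have hi : Function.Injective e := fun c c' h => inj c c' (by
    have := norm_sub_le_one (he c) (he c')
    rwa [h, sub_sub_sub_cancel_right] at this)
  exact Fintype.sum_bijective e (Finite.injective_iff_bijective.1 hi) _ _ fun c => hΦ _ _ (he c)

/-- vector of representatives -/
def repv (k : ℕ) (c : ι → ZMod (p ^ k)) : ι → ℚ_[p] := ((p : ℚ_[p]) ^ k)⁻¹ • lift c

omit [Fintype ι] [DecidableEq ι] in
theorem repv_apply (k : ℕ) (c : ι → ZMod (p ^ k)) (j : ι) : repv k c j = rep k (c j) := rfl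

omit [Fintype ι] [DecidableEq ι] in
theorem in_repv (k : ℕ) (c : ι → ZMod (p ^ k)) : In (-k) (repv k c) := fun j => by
  simpa [repv_apply] using rep_norm k (c j)

omit [Fintype ι] [DecidableEq ι] in
theorem exists_repv (k : ℕ) {z : ι → ℚ_[p]} (hz : In (-k) z) :
    ∃ c : ι → ZMod (p ^ k), In 0 (z - repv k c) := by
  choose c hc using fun j => exists_rep k (z := z j) (by simpa using hz j)
  exact ⟨c, fun j => by simpa [repv_apply] using hc j⟩

omit [Fintype ι] [DecidableEq ι] in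
theorem repv_inj (k : ℕ) {c c' : ι → ZMod (p ^ k)} (h : In 0 (repv k c - repv k c')) : c = c' :=
  funext fun j => rep_inj k (by simpa [repv_apply] using h j)

/-- a sum over representatives does not depend on the representatives -/
theorem sum_repv (k : ℕ) (Φ : (ι → ℚ_[p]) → Ω) (hΦ : ∀ z z', In 0 (z - z') → Φ z = Φ z')
    {κ : Type*} (s : Finset κ) (y : κ → ι → ℚ_[p]) (hy : ∀ c ∈ s, In (-k) (y c))
    (inj : ∀ c ∈ s, ∀ c' ∈ s, In 0 (y c - y c') → c = c')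
    (surj : ∀ c, ∃ r ∈ s, In 0 (y r - repv k c)) : ∑ c ∈ s, Φ (y c) = ∑ c, Φ (repv k c) := by
  choose e he using fun c hc => exists_repv k (hy c hc)
  refine Finset.sum_bij e (fun _ _ => Finset.mem_univ _) (fun c hc c' hc' h => inj c hc c' hc' ?_)
    (fun c _ => ?_) fun c hc => hΦ _ _ (he c hc)
  · have := (he c hc).sub (he c' hc')
    rwa [h, sub_sub_sub_cancel_right] at this
  · obtain ⟨r, hr, h⟩ := surj c
    refine ⟨r, hr, repv_inj k ?_⟩
    have := h.sub (he r hr)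
    rwa [sub_sub_sub_cancel_left] at this

theorem sum_repv' (k : ℕ) (Φ : (ι → ℚ_[p]) → Ω) (hΦ : ∀ z z', In 0 (z - z') → Φ z = Φ z')
    (y : (ι → ZMod (p ^ k)) → ι → ℚ_[p]) (hy : ∀ c, In (-k) (y c))
    (inj : ∀ c c', In 0 (y c - y c') → c = c') : ∑ c, Φ (y c) = ∑ c, Φ (repv k c) := by
  choose e he using fun c => exists_repv k (hy c)
  have hi : Function.Injective e := fun c c' h => inj c c' (by
    have := (he c).sub (he c')
    rwa [h, sub_sub_sub_cancel_right] at this)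
  exact Fintype.sum_bijective e (Finite.injective_iff_bijective.1 hi) _ _ fun c => hΦ _ _ (he c)

theorem Inert.sum_psi (D : Inert v p I) (k : ℕ) {t : ℚ_[p]} (ht : ‖t‖ ≤ 1) :
    ∑ c, D.psi (t * rep k c) = if ‖t‖ ≤ (p : ℝ) ^ (-k : ℤ) then (p : Ω) ^ k else 0 := by
  have hp : (0 : ℝ) < (p : ℝ) ^ k := pow_pos p_pos k
  split_ifs with h
  · rw [Finset.sum_congr rfl (g := fun _ => 1)]
    · simp [ZMod.card]
    · intro c _
      refine D.psi_one _ ?_
      rw [_root_.zpow_neg, zpow_natCast] at h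
      rw [norm_mul]
      exact (mul_le_mul h (rep_norm k c) (norm_nonneg _) (inv_pos.2 hp).le).trans_eq
        (inv_mul_cancel₀ hp.ne')
  · have h0 : t ≠ 0 := by
      rintro rfl
      exact h (by simp)
    have h1 : ‖t⁻¹ * (p : ℚ_[p])⁻¹‖ ≤ (p : ℝ) ^ k := by
      have h2 := (Padic.norm_le_pow_iff_norm_lt_pow_add_one (t⁻¹) (k - 1)).2 (by
        rw [sub_add_cancel, norm_inv, inv_lt_comm₀ (norm_pos_iff.2 h0) (zpow_pos p_pos _),
          ← _root_.zpow_neg]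
        exact not_le.1 h)
      rw [norm_mul, norm_inv (p : ℚ_[p]), Padic.norm_p, inv_inv]
      refine (mul_le_mul_of_nonneg_right h2 p_pos.le).trans_eq ?_
      rw [← zpow_add_one₀ p_pos.ne', sub_add_cancel, zpow_natCast]
    have h3 := sum_rep k (fun z => D.psi (t * z)) (fun z z' hz => D.psi_congr (by
      rw [← mul_sub, norm_mul]; exact mul_le_one₀ ht (norm_nonneg _) hz))
      (fun c => rep k c + t⁻¹ * (p : ℚ_[p])⁻¹) (fun c => norm_add_le_of (rep_norm k c) h1)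
      fun c c' hc => rep_inj k (by rwa [add_sub_add_right_eq_sub] at hc)
    simp only [mul_add, AddChar.map_add_eq_mul, mul_inv_cancel_left₀ h0, ← Finset.sum_mul] at h3
    by_contra h4
    exact D.psi_ne (mul_left_cancel₀ h4 (h3.trans (mul_one _).symm))

open Classical in
theorem Inert.sum_psi_dot (D : Inert v p I) (k : ℕ) {t : ι → ℚ_[p]} (ht : In 0 t) :
    ∑ c, D.psi (t ⬝ᵥ repv k c) = if In k t then (p : Ω) ^ (Fintype.card ι * k) else 0 := by
  have h1 : ∀ c, D.psi (t ⬝ᵥ repv k c) = ∏ j, D.psi (t j * rep k (c j)) := fun c => by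
    rw [dotProduct]
    exact map_prod D.psi.toMonoidHom (fun j => Multiplicative.ofAdd (t j * rep k (c j))) _
  simp only [h1]
  rw [← Fintype.piFinset_univ, ← Finset.prod_univ_sum (fun _ => Finset.univ)
    (fun j c => D.psi (t j * rep k c))]
  rw [Finset.prod_congr rfl fun j _ => D.sum_psi k (t := t j) (by simpa using ht j)]
  split_ifs with h
  · rw [Finset.prod_congr rfl fun j _ => if_pos (h j), Finset.prod_const, Finset.card_univ,
      ← pow_mul, mul_comm]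
  · obtain ⟨j, hj⟩ := not_forall.1 h
    exact Finset.prod_eq_zero (Finset.mem_univ j) (if_neg hj)

end reps

section riemann

variable {Z : Type*} [AddCommGroup Z] [Module ℚ_[p] Z]

/-- the Riemann relation -/
def Riem (v : AbsoluteValue Ω ℝ) (p : ℕ) [Fact p.Prime] [Module ℚ_[p] Z] (G : A → Z → Ω) : Prop :=
  ∀ a : Fin 4 → A, ∃ (n : ℕ) (c : Fin n → Ω) (b : Fin n → Fin 4 → A),
    (∀ η, v (c η) ≤ 1) ∧ ∀ z : Fin 4 → Z, ∏ i, G (a i) (z i) =
      ∑ η, c η * ∏ i, G (b η i) (had (2⁻¹ : ℚ_[p]) z i)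

theorem had_one (z u : Z) : had (2⁻¹ : ℚ_[p]) ![z, z, u, u] = ![z + u, z - u, 0, 0] := by
  funext i
  fin_cases i <;> simp [had] <;> module

theorem had_two (z u : Z) : had (2⁻¹ : ℚ_[p]) ![z + u, z - u, 0, 0] = ![z, z, u, u] := by
  funext i
  fin_cases i <;> simp [had] <;> module

theorem had_three (z : Z) : had (2⁻¹ : ℚ_[p]) ![z + z, 0, 0, 0] = ![z, z, z, z] := by
  funext i
  fin_cases i <;> simp [had] <;> module

theorem had_four (z : Z) : had (2⁻¹ : ℚ_[p]) ![0, z + z, 0, 0] = ![z, z, -z, -z] := by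
  funext i
  fin_cases i <;> simp [had] <;> module

theorem had_zero : had (2⁻¹ : ℚ_[p]) (0 : Fin 4 → Z) = 0 := by
  funext i
  fin_cases i <;> simp [had]

theorem Riem.add_ne {G : A → Z → Ω} (h : Riem v p G) {z u : Z} (hz : ∃ a, G a z ≠ 0)
    (hu : ∃ a, G a u ≠ 0) : ∃ a, G a (z + u) ≠ 0 := by
  obtain ⟨a, ha⟩ := hz
  obtain ⟨a', ha'⟩ := hu
  obtain ⟨n, c, b, -, hb⟩ := h ![a, a, a', a']
  by_contra! h0
  have := hb ![z, z, u, u]
  rw [had_one] at this
  simp [Fin.prod_univ_four, h0, ha, ha'] at this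

theorem Riem.nsmul_ne {G : A → Z → Ω} (h : Riem v p G) {z : Z} (hz : ∃ a, G a z ≠ 0) (n : ℕ) :
    ∃ a, G a ((n + 1) • z) ≠ 0 := by
  induction n with
  | zero => simpa using hz
  | succ n ih => rw [succ_nsmul]; exact h.add_ne ih hz

theorem sup_mul_le {f : A → ℝ} {c R : ℝ} (hc : 0 ≤ c) (hR : 0 ≤ R) (h : ∀ a, f a * c ≤ R) :
    (⨆ a, f a) * c ≤ R := by
  rw [Real.iSup_mul_of_nonneg hc]
  exact Real.iSup_le h hR

theorem Riem.sup_le {G : A → Z → Ω} (h : Riem v p G) (hv : IsNonarchimedean v) {B : ℝ}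
    (bd : ∀ a z, v (G a z) ≤ B) (z : Fin 4 → Z) :
    ∏ i, (⨆ a, v (G a (z i))) ≤ ∏ i, ⨆ a, v (G a (had (2⁻¹ : ℚ_[p]) z i)) := by
  have hm : ∀ z, 0 ≤ ⨆ a, v (G a z) := fun z => Real.iSup_nonneg fun _ => v.nonneg _
  have hR := Finset.prod_nonneg fun i (_ : i ∈ Finset.univ) => hm (had (2⁻¹ : ℚ_[p]) z i)
  have h1 : ∀ a : Fin 4 → A, ∏ i, v (G (a i) (z i)) ≤
      ∏ i, ⨆ a, v (G a (had (2⁻¹ : ℚ_[p]) z i)) := by
    intro a
    obtain ⟨n, c, b, hc, hb⟩ := h a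
    rw [← map_prod, hb]
    refine sum_le hv _ _ hR fun η _ => mul_le_of_le_one_left (hc η) ?_
    rw [map_prod]
    exact Finset.prod_le_prod (fun _ _ => v.nonneg _) fun i _ =>
      le_ciSup (f := fun a => v (G a _)) ⟨B, by rintro _ ⟨a, rfl⟩; exact bd a _⟩ _
  generalize (∏ i, ⨆ a, v (G a (had (2⁻¹ : ℚ_[p]) z i))) = R at hR h1
  have n := fun a z => v.nonneg (G a z)
  rw [Fin.prod_univ_four, mul_assoc, mul_assoc]
  refine sup_mul_le (mul_nonneg (hm _) (mul_nonneg (hm _) (hm _))) hR fun a0 => ?_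
  rw [mul_left_comm]
  refine sup_mul_le (mul_nonneg (n _ _) (mul_nonneg (hm _) (hm _))) hR fun a1 => ?_
  rw [← mul_assoc, mul_left_comm]
  refine sup_mul_le (mul_nonneg (mul_nonneg (n _ _) (n _ _)) (hm _)) hR fun a2 => ?_
  rw [← mul_assoc, mul_comm]
  refine sup_mul_le (mul_nonneg (n _ _) (mul_nonneg (n _ _) (n _ _))) hR fun a3 => ?_
  refine le_of_eq_of_le ?_ (h1 ![a0, a1, a2, a3])
  simp only [Fin.prod_univ_four, cons_val_zero, cons_val_one, cons_val]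
  ring

theorem Riem.sup_const {G : A → Z → Ω} (h : Riem v p G) (hv : IsNonarchimedean v) {B : ℝ}
    (bd : ∀ a z, v (G a z) ≤ B) (nv : ∀ z, ∃ a, G a z ≠ 0)
    (tors : ∀ z, ∃ n : ℕ, n ≠ 0 ∧ ∀ a, v (G a (n • z)) = v (G a 0)) (z : Z) :
    (⨆ a, v (G a z)) = ⨆ a, v (G a 0) := by
  set m : Z → ℝ := fun z => ⨆ a, v (G a z) with hm
  have pos : ∀ z, 0 < m z := fun z => by
    obtain ⟨a, ha⟩ := nv z
    exact (v.pos ha).trans_le
      (le_ciSup (f := fun a => v (G a z)) ⟨B, by rintro _ ⟨a, rfl⟩; exact bd a _⟩ a)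
  have par : ∀ z u, m (z + u) * m (z - u) * m 0 * m 0 = m z * m z * m u * m u := fun z u => by
    have h1 := h.sup_le hv bd ![z, z, u, u]
    have h2 := h.sup_le hv bd ![z + u, z - u, 0, 0]
    rw [had_one] at h1
    rw [had_two] at h2
    simp only [Fin.prod_univ_four, cons_val_zero, cons_val_one, cons_val] at h1 h2
    exact le_antisymm h2 h1
  set q : Z → ℝ := fun z => Real.log (m z) - Real.log (m 0) with hq
  have par' : ∀ z u, q (z + u) + q (z - u) = 2 * q z + 2 * q u := fun z u => by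
    have := congrArg Real.log (par z u)
    have e := fun z => (pos z).ne'
    simp only [Real.log_mul, mul_ne_zero_iff, e, ne_eq, not_false_eq_true, and_self] at this
    simp only [hq]
    linarith
  have sq : ∀ n : ℕ, q (n • z) = n ^ 2 * q z ∧ q ((n + 1) • z) = (n + 1) ^ 2 * q z := by
    intro n
    induction n with
    | zero => simp [hq]
    | succ n ih =>
      refine ⟨by exact_mod_cast ih.2, ?_⟩
      have := par' ((n + 1) • z) z
      rw [← succ_nsmul, succ_nsmul z n, add_sub_cancel_right, ← succ_nsmul, ih.1, ih.2] at this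
      push_cast
      linarith
  obtain ⟨n, hn, ht⟩ := tors z
  have h0 : q (n • z) = 0 := by simp only [hq, hm, ht, sub_self]
  rw [(sq n).1] at h0
  have h1 : q z = 0 := (mul_eq_zero.1 h0).resolve_left (by positivity)
  exact Real.log_injOn_pos (pos z) (pos 0) (sub_eq_zero.1 h1)

end riemann

end MTC
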