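import Pool.Agent.Lib.MP_d61fbb_ag.MT.C1a

/-! Block C of the MT project: unit values and invariance under the multiplicative part. -/

noncomputable section

namespace MTC

open Matrix

variable {Ω : Type*} [Field Ω] {v : AbsoluteValue Ω ℝ} {p : ℕ} [Fact p.Prime]
  {I : Type*} [Group I] {ι : Type*} [Fintype ι] [DecidableEq ι] {A : Type*}
  {D : Inert v p I} {β : I → Matrix ι ι ℚ_[p]} {d : ι → ℕ}
  {F : A → (ι → ℚ_[p]) → (ι → ℚ_[p]) → Ω}

theorem had_fst {V V' : Type*} [AddCommGroup V] [Module ℚ_[p] V] [AddCommGroup V']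
    [Module ℚ_[p] V'] (h : ℚ_[p]) (z : Fin 4 → V × V') (i : Fin 4) :
    (had h z i).1 = had h (fun i => (z i).1) i := by
  fin_cases i <;> rfl

theorem had_snd {V V' : Type*} [AddCommGroup V] [Module ℚ_[p] V] [AddCommGroup V']
    [Module ℚ_[p] V'] (h : ℚ_[p]) (z : Fin 4 → V × V') (i : Fin 4) :
    (had h z i).2 = had h (fun i => (z i).2) i := by
  fin_cases i <;> rfl

omit [Fintype ι] [DecidableEq ι] in
theorem riem_prod (h : ∀ a : Fin 4 → A, ∃ (n : ℕ) (c : Fin n → Ω) (b : Fin n → Fin 4 → A),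
    (∀ η, v (c η) ≤ 1) ∧ ∀ x y : Fin 4 → ι → ℚ_[p], ∏ i, F (a i) (x i) (y i) =
      ∑ η, c η * ∏ i, F (b η i) (had (2⁻¹ : ℚ_[p]) x i) (had (2⁻¹ : ℚ_[p]) y i)) :
    Riem v p fun a (z : (ι → ℚ_[p]) × (ι → ℚ_[p])) => F a z.1 z.2 := fun a => by
  obtain ⟨n, c, b, hc, hb⟩ := h a
  exact ⟨n, c, b, hc, fun z => by simpa only [had_fst, had_snd] using hb _ _⟩

omit [DecidableEq ι] in
theorem exists_kill (d : ι → ℕ) (x y : ι → ℚ_[p]) : ∃ n : ℕ,
    (∀ j, ‖(p ^ n • x) j‖ ≤ (p : ℝ) ^ (-(d j : ℤ))) ∧ In 0 (p ^ n • y) := by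
  obtain ⟨n, hn⟩ := exists_in x
  obtain ⟨m, hm⟩ := exists_in y
  refine ⟨n + m + ∑ j, d j, fun j => ?_, ?_⟩
  · have h := hn.smul_pow (n + m + ∑ j, d j)
    have h2 : d j ≤ ∑ j, d j := Finset.single_le_sum (fun _ _ => Nat.zero_le _) (Finset.mem_univ j)
    rw [← Nat.cast_smul_eq_nsmul ℚ_[p], Nat.cast_pow]
    exact h.mono (by omega) j
  · have h := hm.smul_pow (n + m + ∑ j, d j)
    rw [← Nat.cast_smul_eq_nsmul ℚ_[p], Nat.cast_pow]
    exact h.mono (by omega)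

omit [Fintype ι] [DecidableEq ι] in
theorem In.le_d {t : ι → ℚ_[p]} (h : In 0 t) (d : ι → ℕ) (j : ι) : ‖t j‖ ≤ (p : ℝ) ^ (d j : ℤ) :=
  (h.mono (l := -(d j)) (by omega) j).trans_eq (by rw [neg_neg])

omit [DecidableEq ι] in
theorem sup_const (D : Inert v p I)
    (perx : ∀ a x y t, (∀ j, ‖t j‖ ≤ (p : ℝ) ^ (-(d j : ℤ))) → F a (x + t) y = F a x y)
    (pery : ∀ a x y t, (∀ j, ‖t j‖ ≤ (p : ℝ) ^ (d j : ℤ)) →
      F a x (y + t) = D.psi (x ⬝ᵥ t) * F a x y)
    (riem : Riem v p fun a (z : (ι → ℚ_[p]) × (ι → ℚ_[p])) => F a z.1 z.2) {B : ℝ}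
    (bd : ∀ a x y, v (F a x y) ≤ B) (nv : ∀ x y, ∃ a, F a x y ≠ 0) (x y : ι → ℚ_[p]) :
    (⨆ a, v (F a x y)) = ⨆ a, v (F a 0 0) := by
  refine riem.sup_const D.na (fun a z => bd a _ _) (fun z => nv _ _) (fun z => ?_) (x, y)
  obtain ⟨n, h1, h2⟩ := exists_kill d z.1 z.2
  refine ⟨p ^ n, (pow_pos (Fact.out : p.Prime).pos n).ne', fun a => ?_⟩
  have e1 := perx a 0 (p ^ n • z.2) _ h1
  have e2 := pery a 0 0 _ (h2.le_d d)
  rw [zero_add] at e1 e2
  simp only [Prod.smul_fst, Prod.smul_snd, e1, e2, map_mul, D.v_psi, one_mul, Prod.fst_zero,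
    Prod.snd_zero]

theorem half_norm (h : p ≠ 2) (x : ℚ_[p]) : ‖x / 2‖ = ‖x‖ := by
  rw [norm_div, norm_two h, div_one]

theorem Sys.unit' (S : Sys D β d F) (x y : ι → ℚ_[p]) : ∃ a, v (F a x y) = 1 := by
  classical
  have hp := (Fact.out : p.Prime).pos
  have bdd : ∀ x y, BddAbove (Set.range fun a => v (F a x y)) := fun x y =>
    ⟨1, by rintro _ ⟨a, rfl⟩; exact S.le_one a _ _⟩
  obtain ⟨a0, ha0⟩ := S.unit0
  have h1 : 1 ≤ ⨆ a, v (F a x y) := by
    rw [sup_const D S.perx S.pery (riem_prod S.riem) S.le_one S.nv, ← ha0]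
    exact le_ciSup (bdd 0 0) a0
  obtain ⟨n1, hx⟩ := exists_in x
  obtain ⟨n2, hy⟩ := exists_in y
  replace hx : In (-(n1 + n2 : ℕ)) x := hx.mono (by omega)
  replace hy : In (-(n1 + n2 : ℕ)) y := hy.mono (by omega)
  generalize n1 + n2 = n at hx hy
  by_contra! h
  set N := p ^ (n + n) * Fintype.card (ι → ZMod (p ^ n)) with hN
  have h2 : ∀ a, v (F a x y) ^ N ≤ v (p : Ω) := by
    intro a
    refine disc D.act D.iso D.fix (Finset.image₂ (fun ζ c => ζ * F a x (repv n c))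
      (Polynomial.nthRootsFinset (p ^ (n + n)) 1) Finset.univ) (fun σ => ?_) ?_
      ((S.le_one a x y).lt_of_ne (h a))
    · have hb := hx.mulVec (S.int σ)
      obtain ⟨c, hc⟩ := exists_repv n ((hy.smul_int (D.chi_norm σ).le).add hb)
      have e := S.pery a x (repv n c) _ (hc.le_d d)
      rw [add_sub_cancel] at e
      rw [S.gal, e, ← mul_assoc, ← AddChar.map_add_eq_mul]
      refine Finset.mem_image₂_of_mem ?_ (Finset.mem_univ c)
      rw [Polynomial.mem_nthRootsFinset (pow_pos hp _), ← AddChar.map_nsmul_eq_pow]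
      refine D.psi_one _ ?_
      have h3 : ‖-(x ⬝ᵥ β σ *ᵥ x / 2) + x ⬝ᵥ (D.chi σ • y + β σ *ᵥ x - repv n c)‖ ≤
          (p : ℝ) ^ (n + n) := by
        refine norm_add_le_of ?_ ?_
        · rw [norm_neg, half_norm D.odd]
          simpa [← pow_add, ← zpow_natCast, ← zpow_add₀ (p_pos (p := p)).ne'] using hx.dot hb
        · simpa [← pow_add, ← zpow_natCast, ← zpow_add₀ (p_pos (p := p)).ne'] using
            hx.dot (hc.mono (l := -n) (by omega))
      rw [nsmul_eq_mul, norm_mul, Nat.cast_pow, Padic.norm_p_pow, _root_.zpow_neg, zpow_natCast,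
        inv_mul_le_iff₀ (pow_pos p_pos _), mul_one]
      exact h3
    · refine (Finset.card_image₂_le _ _ _).trans (Nat.mul_le_mul_right _ ?_)
      rw [Polynomial.nthRootsFinset_def]
      exact (Multiset.toFinset_card_le _).trans (Polynomial.card_nthRoots _ _)
  have hN0 : N ≠ 0 := mul_ne_zero (pow_pos hp _).ne' Fintype.card_ne_zero
  have h3 : (⨆ a, v (F a x y)) ≤ v (p : Ω) ^ ((N : ℝ)⁻¹) := by
    refine Real.iSup_le (fun a => ?_) (Real.rpow_nonneg (v.nonneg _) _)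
    rw [← Real.pow_rpow_inv_natCast (v.nonneg (F a x y)) hN0]
    exact Real.rpow_le_rpow (pow_nonneg (v.nonneg _) _) (h2 a) (by positivity)
  exact absurd (h1.trans h3) (not_le.2 (Real.rpow_lt_one (v.nonneg _) D.p1 (by positivity)))

omit [DecidableEq ι] in
theorem Sys.gal0 (S : Sys D β d F) (σ : I) (a : A) (y : ι → ℚ_[p]) :
    D.act σ (F a 0 y) = F a 0 (D.chi σ • y) := by
  simpa using S.gal σ a 0 y

theorem lt_of_mul_unit {x u : Ω} (hu : v u = 1) (h : v (x * u) < 1) : v x < 1 := by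
  rwa [map_mul, hu, mul_one] at h

omit [DecidableEq ι] in
/-- comparison of two instances of the Riemann relation on the multiplicative part -/
theorem Sys.riem_cmp (S : Sys D β d F) (a : Fin 4 → A) (y y' : Fin 4 → ι → ℚ_[p]) (k : Fin 4 → Ω)
    (hk : ∀ i, v (k i) ≤ 1)
    (h : ∀ b i, v (F b 0 (had (2⁻¹ : ℚ_[p]) y i) - k i * F b 0 (had (2⁻¹ : ℚ_[p]) y' i)) < 1) :
    v (∏ i, F (a i) 0 (y i) - (∏ i, k i) * ∏ i, F (a i) 0 (y' i)) < 1 := by
  obtain ⟨n, c, b, hc, hb⟩ := S.riem a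
  have e1 := hb 0 y
  have e2 := hb 0 y'
  simp only [had_zero, Pi.zero_apply] at e1 e2
  rw [e1, e2, Finset.mul_sum, ← Finset.sum_sub_distrib]
  refine sum_lt D.na _ _ one_pos fun η _ => ?_
  rw [mul_left_comm, ← mul_sub, ← Finset.prod_mul_distrib]
  exact mul_lt_of_le_one_left (hc η) (prod_sub_prod_lt D.na _ _ _ one_pos
    (fun i _ => S.le_one _ _ _) (fun i _ => mul_le_of_le_one_left (hk i) (S.le_one _ _ _))
    fun i _ => h _ i)

theorem Sys.mult_inv (S : Sys D β d F) (a : A) (c : ι → ℚ_[p]) : v (F a 0 c - F a 0 0) < 1 := by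
  have hv := D.na
  obtain ⟨a0, ha0⟩ := S.unit0
  obtain ⟨σ, hσ⟩ := D.neg
  set u := F a0 0 0 with hu
  have hu0 : u ≠ 0 := fun h => by simp [h] at ha0
  have h0 : ∀ b y, v (F b 0 y - F b 0 (-y)) < 1 := fun b y => by
    have := D.near σ _ (S.le_one b 0 (-y))
    rwa [S.gal0, hσ, neg_one_smul, neg_neg] at this
  set κ : (ι → ℚ_[p]) → Ω := fun c => F a0 0 c / u with hκ
  have hκ1 : ∀ c, v (κ c) ≤ 1 := fun c => by
    simp only [hκ, map_div₀, ha0, div_one, S.le_one]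
  have h1 : ∀ b c, v (F b 0 c - κ c * F b 0 0) < 1 := fun b c => by
    obtain ⟨z, rfl⟩ : ∃ z, c = z + z := ⟨(2⁻¹ : ℚ_[p]) • c, by module⟩
    have := S.riem_cmp ![b, a0, a0, a0] ![z + z, 0, 0, 0] ![0, z + z, 0, 0] 1 (by simp)
      fun b i => by
        rw [had_three, had_four]
        fin_cases i <;> simp [h0]
    simp only [Fin.prod_univ_four, cons_val_zero, cons_val_one, cons_val, Pi.one_apply,
      mul_one, one_mul, ← hu] at this
    refine lt_of_mul_unit (u := u * u * u) (by simp [ha0]) (lt_of_eq_of_lt ?_ this)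
    simp only [hκ]
    congr 1
    field_simp
  have hκ2 : ∀ c, v (κ c) = 1 := fun c => by
    obtain ⟨b, hb⟩ := S.unit' 0 c
    have := h1 b c
    rw [v.map_sub] at this
    have h2 := eq_one_of_sub_lt hv hb this
    rw [map_mul] at h2
    refine le_antisymm (hκ1 c) (h2.ge.trans ?_)
    exact _root_.mul_le_of_le_one_right (v.nonneg _) (S.le_one _ _ _)
  have par : ∀ c c', v (κ (c + c') * κ (c - c') - κ c * κ c * κ c' * κ c') < 1 := fun c c' => by
    have := S.riem_cmp (fun _ => a0) ![c + c', c - c', 0, 0] 0 ![κ c, κ c, κ c', κ c']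
      (fun i => by fin_cases i <;> simp [hκ1]) fun b i => by
        rw [had_two, had_zero]
        fin_cases i <;> simp [h1]
    simp only [Fin.prod_univ_four, cons_val_zero, cons_val_one, cons_val, Pi.zero_apply,
      ← hu] at this
    refine lt_of_mul_unit (u := u * u * u * u) (by simp [ha0]) (lt_of_eq_of_lt ?_ this)
    have e : ∀ c, F a0 0 c = κ c * u := fun c => by simp only [hκ]; field_simp
    rw [e, e]
    congr 1
    ring
  have hκ0 : κ 0 = 1 := div_self hu0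
  have sq : ∀ n : ℕ, v (κ (n • c) - κ c ^ n ^ 2) < 1 ∧
      v (κ ((n + 1) • c) - κ c ^ (n + 1) ^ 2) < 1 := by
    intro n
    induction n with
    | zero => simp [hκ0]
    | succ n ih =>
      refine ⟨ih.2, ?_⟩
      have h2 := par ((n + 1) • c) c
      rw [← succ_nsmul, succ_nsmul c n, add_sub_cancel_right, ← succ_nsmul] at h2
      have h3 := mul_sub_mul_lt hv (hκ1 _) (pow_le_one (hκ1 c) _) ih.2 ih.2
      have h4 := mul_lt_of_le_one_right h3 (pow_le_one (hκ1 c) 2)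
      have h5 := mul_lt_of_le_one_left (pow_le_one (hκ1 c) ((n + 1 + 1) ^ 2)) ih.1
      refine lt_of_mul_unit (hκ2 (n • c)) (lt_of_eq_of_lt ?_ (sub_lt hv (add_lt hv h2 h4) h5))
      congr 1
      ring
  obtain ⟨n, -, hn⟩ := exists_kill d c c
  have h2 := (sq (p ^ n)).1
  have h3 : κ (p ^ n • c) = 1 := by
    have := S.pery a0 0 0 _ (hn.le_d d)
    rw [zero_add, zero_dotProduct, AddChar.map_zero_eq_one, one_mul] at this
    simp only [hκ, this, ← hu, div_self hu0]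
  rw [h3, v.map_sub, ← pow_mul] at h2
  have h4 := sub_one_lt_of_pow hv Fact.out D.p1 (hκ1 c) _ h2
  have h5 := add_lt hv (h1 a c) (mul_lt_of_le_one_right h4 (S.le_one a 0 0))
  refine lt_of_eq_of_lt ?_ h5
  congr 1
  ring

end MTC
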