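import Pool.Agent.Lib.MP_d61fbb_ag.MT.C1b

/-! Block C of the MT project: one cyclic averaging step preserves theta systems. -/

noncomputable section

namespace MTC

open Matrix

variable {Ω : Type*} [Field Ω] {v : AbsoluteValue Ω ℝ} {p : ℕ} [Fact p.Prime]
  {I : Type*} [Group I] {ι : Type*} [Fintype ι] [DecidableEq ι] {A : Type*}
  {D : Inert v p I} {β : I → Matrix ι ι ℚ_[p]} {d : ι → ℕ}
  {F : A → (ι → ℚ_[p]) → (ι → ℚ_[p]) → Ω}

/-- a Heisenberg translate in the multiplicative direction -/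
def tr (D : Inert v p I) (F : A → (ι → ℚ_[p]) → (ι → ℚ_[p]) → Ω) (a : A) (x y c : ι → ℚ_[p]) : Ω :=
  D.psi (-(x ⬝ᵥ c)) * F a x (y + c)

/-- the average over a cyclic group of order `p` of translates -/
def stp (D : Inert v p I) (c : ι → ℚ_[p]) (F : A → (ι → ℚ_[p]) → (ι → ℚ_[p]) → Ω) (a : A)
    (x y : ι → ℚ_[p]) : Ω := (p : Ω)⁻¹ * ∑ i : ZMod (p ^ 1), tr D F a x y (rep 1 i • c)

omit [DecidableEq ι] in
theorem tr_add (a : A) (x y c c' : ι → ℚ_[p]) :
    tr D F a x (y + c') c = D.psi (x ⬝ᵥ c') * tr D F a x y (c + c') := by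
  rw [tr, tr, ← mul_assoc, ← AddChar.map_add_eq_mul, add_assoc, add_comm c' c, dotProduct_add]
  congr 2
  ring

omit [DecidableEq ι] in
theorem Sys.tr_congr (S : Sys D β d F) (a : A) (x y : ι → ℚ_[p]) {c c' : ι → ℚ_[p]}
    (h : ∀ j, ‖(c - c') j‖ ≤ (p : ℝ) ^ (d j : ℤ)) : tr D F a x y c = tr D F a x y c' := by
  have := S.pery a x (y + c') _ h
  rw [add_assoc, add_sub_cancel] at this
  rw [tr, tr, this, ← mul_assoc, ← AddChar.map_add_eq_mul, dotProduct_sub]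
  congr 2
  ring

omit [DecidableEq ι] in
theorem Sys.tr_gal (S : Sys D β d F) (σ : I) (a : A) (x y c : ι → ℚ_[p]) :
    D.act σ (tr D F a x y c) =
      D.psi (-(x ⬝ᵥ β σ *ᵥ x / 2)) * tr D F a x (D.chi σ • y + β σ *ᵥ x) (D.chi σ • c) := by
  rw [tr, tr, map_mul, D.psi_act, S.gal, mul_left_comm, smul_add, add_right_comm, dotProduct_smul,
    smul_eq_mul, mul_neg]

omit [DecidableEq ι] in
theorem Sys.tr_le (S : Sys D β d F) (a : A) (x y c : ι → ℚ_[p]) : v (tr D F a x y c) ≤ 1 :=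
  mul_le_of_le_one_left (D.v_psi _).le (S.le_one _ _ _)

/-- the generator of the dual lattice in direction `j` -/
def gen (p : ℕ) [Fact p.Prime] (d : ι → ℕ) (j : ι) : ι → ℚ_[p] :=
  Pi.single j ((p : ℚ_[p]) ^ d j)⁻¹

omit [Fintype ι] in
theorem gen_norm (j : ι) {z : ℚ_[p]} (hz : ‖z‖ ≤ 1) (i : ι) :
    ‖(z • gen p d j) i‖ ≤ (p : ℝ) ^ (d i : ℤ) := by
  by_cases h : i = j
  · subst h
    rw [Pi.smul_apply, gen, Pi.single_eq_same, smul_eq_mul, norm_mul, norm_inv_pow, zpow_natCast]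
    exact _root_.mul_le_of_le_one_left (pow_pos p_pos _).le hz
  · simp [gen, h]

theorem dot_gen (j : ι) (x : ι → ℚ_[p]) (z : ℚ_[p]) :
    x ⬝ᵥ (z • gen p d j) = z * (x j * ((p : ℚ_[p]) ^ d j)⁻¹) := by
  simp [gen]

theorem Sys.sum_tr (S : Sys D β d F) (j : ι) (a : A) (x y : ι → ℚ_[p]) (z : ZMod (p ^ 1) → ℚ_[p])
    (hz : ∀ c, ‖z c‖ ≤ (p : ℝ) ^ 1) (inj : ∀ c c', ‖z c - z c'‖ ≤ 1 → c = c') :
    ∑ i, tr D F a x y (z i • gen p d j) =
      ∑ i : ZMod (p ^ 1), tr D F a x y (rep 1 i • gen p d j) :=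
  sum_rep 1 (fun z => tr D F a x y (z • gen p d j))
    (fun z z' h => S.tr_congr a x y (by rw [← sub_smul]; exact gen_norm j h)) z hz inj

theorem Sys.stp_perx (S : Sys D β d F) (j : ι) (a : A) (x y t : ι → ℚ_[p])
    (ht : ∀ i, ‖t i‖ ≤ (p : ℝ) ^ (-((d + Pi.single j 1 : ι → ℕ) i : ℤ))) :
    stp D (gen p d j) F a (x + t) y = stp D (gen p d j) F a x y := by
  rw [stp, stp]
  congr 1
  refine Finset.sum_congr rfl fun i _ => ?_
  rw [tr, tr, S.perx a x _ t fun i => (ht i).trans (zpow_le_zpow_right₀ one_lt_p.le (by simp))]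
  congr 1
  refine D.psi_congr ?_
  have h := ht j
  rw [add_dotProduct, neg_add, add_sub_cancel_left, norm_neg, dot_gen, norm_mul, norm_mul,
    norm_inv_pow]
  rw [Pi.add_apply, Pi.single_eq_same, _root_.zpow_neg, zpow_natCast] at h
  have hp := p_pos (p := p)
  calc _ ≤ (p : ℝ) ^ 1 * (((p : ℝ) ^ (d j + 1))⁻¹ * (p : ℝ) ^ d j) := by
        gcongr
        exact rep_norm 1 i
    _ = 1 := by rw [pow_succ (p : ℝ) (d j)]; field_simp

theorem Sys.stp_pery (S : Sys D β d F) (j : ι) (a : A) (x y t : ι → ℚ_[p])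
    (ht : ∀ i, ‖t i‖ ≤ (p : ℝ) ^ ((d + Pi.single j 1 : ι → ℕ) i : ℤ)) :
    stp D (gen p d j) F a x (y + t) = D.psi (x ⬝ᵥ t) * stp D (gen p d j) F a x y := by
  have hp := p_pos (p := p)
  have hq := pow_ne_zero (d j) (pq_ne (p := p))
  set z0 := (p : ℚ_[p]) ^ d j * t j with hz0
  have h0 : ‖z0‖ ≤ (p : ℝ) ^ 1 := by
    have h := ht j
    rw [Pi.add_apply, Pi.single_eq_same, zpow_natCast] at h
    rw [hz0, norm_mul, Padic.norm_p_pow, _root_.zpow_neg, zpow_natCast,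
      inv_mul_le_iff₀ (pow_pos hp _), ← pow_add]
    exact h
  rw [stp, stp, mul_left_comm, ← S.sum_tr j a x y (fun i => rep 1 i + z0)
    (fun c => norm_add_le_of (rep_norm 1 c) h0)
    (fun c c' h => rep_inj 1 (by rwa [add_sub_add_right_eq_sub] at h)), Finset.mul_sum _ _ (D.psi _)]
  congr 1
  refine Finset.sum_congr rfl fun i _ => ?_
  rw [tr_add, S.tr_congr a x y (c' := (rep 1 i + z0) • gen p d j)]
  intro l
  rw [add_smul, add_sub_add_left_eq_sub]
  by_cases h : l = j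
  · subst h
    simp [gen, hz0, mul_comm _ (t l), mul_assoc, mul_inv_cancel₀ hq]
  · simpa [gen, h] using ht l

theorem Sys.stp_gal (S : Sys D β d F) (j : ι) (σ : I) (a : A) (x y : ι → ℚ_[p]) :
    D.act σ (stp D (gen p d j) F a x y) = D.psi (-(x ⬝ᵥ β σ *ᵥ x / 2)) *
      stp D (gen p d j) F a x (D.chi σ • y + β σ *ᵥ x) := by
  rw [stp, stp, map_mul, map_inv₀, map_natCast, map_sum, mul_left_comm,
    ← S.sum_tr j a x (D.chi σ • y + β σ *ᵥ x) (fun i => D.chi σ * rep 1 i)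
    (fun c => by rw [norm_mul, D.chi_norm, one_mul]; exact rep_norm 1 c)
    (fun c c' h => rep_inj 1 (by rwa [← mul_sub, norm_mul, D.chi_norm, one_mul] at h)),
    Finset.mul_sum _ _ (D.psi _)]
  simp only [S.tr_gal, smul_smul]

theorem had_add {V : Type*} [AddCommGroup V] [Module ℚ_[p] V] (h : ℚ_[p]) (y : Fin 4 → V)
    (z : Fin 4 → ℚ_[p]) (c : V) (i : Fin 4) :
    had h (fun i => y i + z i • c) i = had h y i + had h z i • c := by
  fin_cases i <;> simp [had] <;> module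

omit [DecidableEq ι] in
theorem had_dot (x : Fin 4 → ι → ℚ_[p]) (z : Fin 4 → ℚ_[p]) (c : ι → ℚ_[p]) :
    ∑ i, -(x i ⬝ᵥ (z i • c)) =
      ∑ i, -(had (2⁻¹ : ℚ_[p]) x i ⬝ᵥ (had (2⁻¹ : ℚ_[p]) z i • c)) := by
  simp only [Fin.sum_univ_four, had, cons_val_zero, cons_val_one, cons_val, add_dotProduct,
    sub_dotProduct, smul_dotProduct, dotProduct_smul, smul_eq_mul]
  ring

theorem in_had (h : p ≠ 2) {k : ℤ} {z : Fin 4 → ℚ_[p]} (hz : In k z) :
    In k (had (2⁻¹ : ℚ_[p]) z) := by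
  have n : ∀ i, ‖-z i‖ ≤ (p : ℝ) ^ (-k) := fun i => by rw [norm_neg]; exact hz i
  intro i
  fin_cases i <;>
    simp only [had, sub_eq_add_neg, Fin.zero_eta, Fin.mk_one, Fin.reduceFinMk, cons_val_zero,
      cons_val_one, cons_val, smul_eq_mul, norm_mul, norm_inv, norm_two h, inv_one, one_mul]
  · exact norm_add_le_of (norm_add_le_of (norm_add_le_of (hz _) (hz _)) (hz _)) (hz _)
  · exact norm_add_le_of (norm_add_le_of (norm_add_le_of (hz _) (hz _)) (n _)) (n _)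
  · exact norm_add_le_of (norm_add_le_of (norm_add_le_of (hz _) (n _)) (hz _)) (n _)
  · exact norm_add_le_of (norm_add_le_of (norm_add_le_of (hz _) (n _)) (n _)) (hz _)

theorem had_had_sub (z z' : Fin 4 → ℚ_[p]) :
    had (2⁻¹ : ℚ_[p]) (had (2⁻¹ : ℚ_[p]) z - had (2⁻¹ : ℚ_[p]) z') = z - z' := by
  funext i
  fin_cases i <;> simp [had] <;> ring

theorem psi_sum (D : Inert v p I) {κ : Type*} (s : Finset κ) (f : κ → ℚ_[p]) :
    D.psi (∑ i ∈ s, f i) = ∏ i ∈ s, D.psi (f i) :=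
  map_prod D.psi.toMonoidHom (fun j => Multiplicative.ofAdd (f j)) s

omit [DecidableEq ι] in
theorem prod_stp (c : ι → ℚ_[p]) (a : Fin 4 → A) (x y : Fin 4 → ι → ℚ_[p]) :
    ∏ i, stp D c F (a i) (x i) (y i) =
      (p : Ω)⁻¹ ^ 4 * ∑ k : Fin 4 → ZMod (p ^ 1),
        ∏ i, tr D F (a i) (x i) (y i) (repv 1 k i • c) := by
  simp only [stp]
  rw [Finset.prod_mul_distrib, Finset.prod_univ_sum, Fintype.piFinset_univ, Finset.prod_const,
    Finset.card_univ, Fintype.card_fin]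
  rfl

theorem Sys.stp_riem (S : Sys D β d F) (j : ι) (a : Fin 4 → A) :
    ∃ (n : ℕ) (c : Fin n → Ω) (b : Fin n → Fin 4 → A),
    (∀ η, v (c η) ≤ 1) ∧ ∀ x y : Fin 4 → ι → ℚ_[p], ∏ i, stp D (gen p d j) F (a i) (x i) (y i) =
      ∑ η, c η * ∏ i, stp D (gen p d j) F (b η i) (had (2⁻¹ : ℚ_[p]) x i)
        (had (2⁻¹ : ℚ_[p]) y i) := by
  obtain ⟨n, c, b, hc, hb⟩ := S.riem a
  refine ⟨n, c, b, hc, fun x y => ?_⟩
  have h1 : ∀ z : Fin 4 → ℚ_[p], ∏ i, tr D F (a i) (x i) (y i) (z i • gen p d j) =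
      ∑ η, c η * ∏ i, tr D F (b η i) (had (2⁻¹ : ℚ_[p]) x i) (had (2⁻¹ : ℚ_[p]) y i)
        (had (2⁻¹ : ℚ_[p]) z i • gen p d j) := fun z => by
    simp only [tr, Finset.prod_mul_distrib, ← psi_sum, ← had_dot, hb, had_add, Finset.mul_sum]
    exact Finset.sum_congr rfl fun η _ => mul_left_comm _ _ _
  simp only [prod_stp, h1]
  rw [Finset.sum_comm, Finset.mul_sum]
  refine Finset.sum_congr rfl fun η _ => ?_
  rw [mul_left_comm, ← Finset.mul_sum]
  congr 2
  refine sum_repv' 1 (fun z => ∏ i, tr D F (b η i) (had (2⁻¹ : ℚ_[p]) x i)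
    (had (2⁻¹ : ℚ_[p]) y i) (z i • gen p d j)) (fun z z' h => Finset.prod_congr rfl fun i _ =>
      S.tr_congr _ _ _ ?_) (fun k => had (2⁻¹ : ℚ_[p]) (repv 1 k))
    (fun k => in_had D.odd (in_repv 1 k)) fun k k' h => repv_inj 1 ?_
  · rw [← sub_smul]
    exact gen_norm j (by simpa using h i)
  · have := in_had D.odd h
    rwa [had_had_sub] at this

theorem Sys.stp_sum (S : Sys D β d F) (j : ι) (a : A) (x y : ι → ℚ_[p]) :
    F a x y = ∑ l : ZMod (p ^ 1), stp D (gen p d j) F a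
      (x + Pi.single j ((p : ℚ_[p]) ^ d j * l.val)) y := by
  have hq := pow_ne_zero (d j) (pq_ne (p := p))
  have h1 : ∀ l i : ZMod (p ^ 1), tr D F a (x + Pi.single j ((p : ℚ_[p]) ^ d j * l.val)) y
      (rep 1 i • gen p d j) = tr D F a x y (rep 1 i • gen p d j) * D.psi (-i.val * rep 1 l) := by
    intro l i
    rw [tr, tr, S.perx a x, mul_right_comm, ← AddChar.map_add_eq_mul, add_dotProduct,
      dot_gen j (Pi.single _ _), Pi.single_eq_same]
    · congr 2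
      simp only [rep]
      field_simp
      ring
    · intro m
      by_cases h : m = j
      · subst h
        rw [Pi.single_eq_same, norm_mul, Padic.norm_p_pow]
        exact _root_.mul_le_of_le_one_right (zpow_pos p_pos _).le (norm_nat _)
      · simp [h]
  simp only [stp, h1, ← Finset.mul_sum]
  rw [Finset.sum_comm]
  simp only [← Finset.mul_sum]
  rw [Finset.sum_eq_single 0]
  · rw [D.sum_psi 1 (by simp), if_pos (by simp), rep_zero, zero_smul, tr]
    have := D.p0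
    simp only [dotProduct_zero, neg_zero, AddChar.map_zero_eq_one, add_zero]
    field_simp
  · intro i _ hi
    rw [D.sum_psi 1 (by rw [norm_neg]; exact norm_nat _), if_neg, mul_zero]
    intro h
    refine hi (rep_inj 1 ?_)
    rw [rep_zero, sub_zero, rep, norm_mul, norm_inv_pow]
    rw [norm_neg, _root_.zpow_neg, zpow_natCast] at h
    exact (mul_le_mul_of_nonneg_left h (pow_pos p_pos _).le).trans_eq
      (mul_inv_cancel₀ (pow_pos p_pos _).ne')
  · simp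

omit [Fintype ι] [DecidableEq ι] in
theorem riem_smul_ne (h : ∀ a : Fin 4 → A, ∃ (n : ℕ) (c : Fin n → Ω) (b : Fin n → Fin 4 → A),
    (∀ η, v (c η) ≤ 1) ∧ ∀ x y : Fin 4 → ι → ℚ_[p], ∏ i, F (a i) (x i) (y i) =
      ∑ η, c η * ∏ i, F (b η i) (had (2⁻¹ : ℚ_[p]) x i) (had (2⁻¹ : ℚ_[p]) y i))
    {a : A} {x y : ι → ℚ_[p]} (ha : F a x y ≠ 0) :
    ∃ b, F b ((p : ℚ_[p]) • x) ((p : ℚ_[p]) • y) ≠ 0 := by
  have := (riem_prod h).nsmul_ne (z := (x, y)) ⟨a, ha⟩ (p - 1)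
  rw [Nat.sub_add_cancel (Fact.out : p.Prime).pos] at this
  simpa only [Nat.cast_smul_eq_nsmul, Prod.smul_mk] using this

theorem Sys.stp_nv (S : Sys D β d F) (j : ι) (x y : ι → ℚ_[p]) :
    ∃ a, stp D (gen p d j) F a x y ≠ 0 := by
  have hq := pq_ne (p := p)
  obtain ⟨a, ha⟩ := S.nv ((p : ℚ_[p])⁻¹ • x) ((p : ℚ_[p])⁻¹ • y)
  rw [S.stp_sum j] at ha
  obtain ⟨l, -, hl⟩ := Finset.exists_ne_zero_of_sum_ne_zero ha
  obtain ⟨b, hb⟩ := riem_smul_ne (S.stp_riem j) hl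
  rw [smul_add, smul_inv_smul₀ hq, smul_inv_smul₀ hq] at hb
  rw [S.stp_perx j] at hb
  · exact ⟨b, hb⟩
  · intro m
    by_cases h : m = j
    · subst h
      rw [Pi.smul_apply, Pi.single_eq_same, smul_eq_mul, ← mul_assoc, ← pow_succ', norm_mul,
        Padic.norm_p_pow, Pi.add_apply, Pi.single_eq_same]
      exact _root_.mul_le_of_le_one_right (zpow_pos p_pos _).le (norm_nat _)
    · simp [h]

theorem Sys.stp_zero (S : Sys D β d F) (j : ι) (a : A) : v (stp D (gen p d j) F a 0 0) ≤ 1 := by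
  have h0 := D.p0
  have h1 : (p : Ω) * (stp D (gen p d j) F a 0 0 - F a 0 0) =
      ∑ i : ZMod (p ^ 1), (F a 0 (rep 1 i • gen p d j) - F a 0 0) := by
    simp [stp, tr, mul_sub, mul_inv_cancel_left₀ h0, ZMod.card]
  have h2 : v ((p : Ω) * (stp D (gen p d j) F a 0 0 - F a 0 0)) ≤ v (p : Ω) := by
    refine D.fix _ (fun σ => ?_) ?_
    · simp [S.stp_gal, S.gal]
    · rw [h1]
      exact sum_lt D.na _ _ one_pos fun i _ => S.mult_inv a _
  rw [map_mul, mul_le_iff_le_one_right D.vp_pos] at h2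
  have := add_le D.na h2 (S.le_one a 0 0)
  rwa [sub_add_cancel] at this

theorem Sys.step (S : Sys D β d F) (j : ι) :
    Sys D β (d + Pi.single j 1) (stp D (gen p d j) F) := by
  have bd : ∀ a x y, v (stp D (gen p d j) F a x y) ≤ (v (p : Ω))⁻¹ := fun a x y => by
    rw [stp, map_mul, map_inv₀]
    exact _root_.mul_le_of_le_one_right (inv_pos.2 D.vp_pos).le
      (sum_le D.na _ _ zero_le_one fun i _ => S.tr_le _ _ _ _)
  have hs := sup_const D (S.stp_perx j) (S.stp_pery j) (riem_prod (S.stp_riem j)) bd (S.stp_nv j)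
  have le : ∀ a x y, v (stp D (gen p d j) F a x y) ≤ ⨆ a, v (stp D (gen p d j) F a 0 0) :=
    fun a x y => by
      rw [← hs x y]
      exact le_ciSup (f := fun a => v (stp D (gen p d j) F a x y))
        ⟨_, by rintro _ ⟨a, rfl⟩; exact bd a _ _⟩ a
  refine ⟨S.int, S.stp_perx j, S.stp_pery j, S.stp_gal j, S.stp_riem j,
    fun a x y => (le a x y).trans (Real.iSup_le (S.stp_zero j) zero_le_one), ?_, S.stp_nv j⟩
  by_contra! h
  have h1 : (⨆ a, v (stp D (gen p d j) F a 0 0)) ≤ v (p : Ω) :=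
    Real.iSup_le (fun a => D.fix _ (fun σ => by simp [S.stp_gal])
      ((S.stp_zero j a).lt_of_ne (h a))) (v.nonneg _)
  obtain ⟨a0, ha0⟩ := S.unit0
  rw [S.stp_sum j] at ha0
  exact absurd (ha0.ge.trans (sum_le D.na _ _ (v.nonneg _) fun l _ => (le _ _ _).trans h1))
    (not_le.2 D.p1)

theorem Sys.exists_level (S : Sys D β 0 F) (d : ι → ℕ) :
    ∃ (G : A → (ι → ℚ_[p]) → (ι → ℚ_[p]) → Ω) (κ : Type) (_ : Fintype κ) (t : κ → ι → ℚ_[p]),
      Sys D β d G ∧ (∀ r, In 0 (t r)) ∧ ∀ a x y, F a x y = ∑ r, G a (x + t r) y := by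
  induction hn : ∑ j, d j generalizing d with
  | zero =>
    obtain rfl : d = 0 := funext fun j => Finset.sum_eq_zero_iff.1 hn j (Finset.mem_univ j)
    exact ⟨F, Unit, inferInstance, fun _ => 0, S, fun _ => In.zero 0, by simp⟩
  | succ n ih =>
    obtain ⟨j, -, hj⟩ := Finset.exists_ne_zero_of_sum_ne_zero (hn.trans_ne n.succ_ne_zero)
    obtain ⟨e, rfl⟩ : ∃ e : ι → ℕ, d = e + Pi.single j 1 := ⟨d - Pi.single j 1, funext fun i => by
      by_cases h : i = j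
      · subst h
        simp only [Pi.add_apply, Pi.sub_apply, Pi.single_eq_same]
        omega
      · simp [h]⟩
    obtain ⟨G, κ, _, t, hG, ht, hF⟩ := ih e (by
      simpa [Finset.sum_add_distrib, Pi.single_apply] using hn)
    refine ⟨_, κ × ZMod (p ^ 1), inferInstance,
      fun r => t r.1 + Pi.single j ((p : ℚ_[p]) ^ e j * r.2.val), hG.step j,
      fun r => (ht r.1).add fun m => ?_, fun a x y => ?_⟩
    · by_cases h : m = j
      · subst h
        rw [Pi.single_eq_same, ← Nat.cast_pow, ← Nat.cast_mul, neg_zero, zpow_zero]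
        exact norm_nat _
      · simp [h]
    · rw [hF, Fintype.sum_prod_type]
      refine Finset.sum_congr rfl fun r _ => ?_
      rw [hG.stp_sum j]
      simp only [add_assoc]

end MTC
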