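import Pool.Agent.Lib.MP_d61fbb_ag.MT.DKp

/-! Block C of the MT project: inertia elements that are tensor products. -/

noncomputable section

namespace MTC

open Matrix Pool.Agent.MT

variable {Ω : Type*} [Field Ω] {ι : Type*} [Fintype ι] [DecidableEq ι]

/-- `X` is a multiple of a tensor product in the frame `M`. -/
def IsKp (M : Matrix (ι ⊕ ι) (Fin 3 → Fin 2) Ω) (X : Matrix (ι ⊕ ι) (ι ⊕ ι) Ω) : Prop :=
  ∃ (c : Ω) (g : Fin 3 → Matrix (Fin 2) (Fin 2) Ω), X * M = M * (c • kp g)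

section kp

variable {κ : Type*} [Fintype κ] [DecidableEq κ]

theorem kp_upd (g : κ → Matrix (Fin 2) (Fin 2) Ω) (i : κ) (m : Matrix (Fin 2) (Fin 2) Ω)
    (x y : κ → Fin 2) : kp (Function.update g i m) x y =
      m (x i) (y i) * ∏ j ∈ Finset.univ.erase i, g j (x j) (y j) := by
  rw [kp_apply, ← Finset.mul_prod_erase _ _ (Finset.mem_univ i), Function.update_self]
  congr 1
  exact Finset.prod_congr rfl fun j hj => by rw [Function.update_of_ne (Finset.ne_of_mem_erase hj)]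

theorem kp_upd_add (g : κ → Matrix (Fin 2) (Fin 2) Ω) (i : κ) (m n : Matrix (Fin 2) (Fin 2) Ω) :
    kp (Function.update g i (m + n)) = kp (Function.update g i m) + kp (Function.update g i n) := by
  ext x y
  simp only [Matrix.add_apply, kp_upd, add_mul]

theorem kp_upd_smul (g : κ → Matrix (Fin 2) (Fin 2) Ω) (i : κ) (c : Ω)
    (m : Matrix (Fin 2) (Fin 2) Ω) :
    kp (Function.update g i (c • m)) = c • kp (Function.update g i m) := by
  ext x y
  simp only [Matrix.smul_apply, kp_upd, smul_eq_mul, mul_assoc]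

theorem kp_upd_mul (g h : κ → Matrix (Fin 2) (Fin 2) Ω) (i : κ) (m n : Matrix (Fin 2) (Fin 2) Ω) :
    kp (Function.update g i m) * kp (Function.update h i n) =
      kp (Function.update (g * h) i (m * n)) := by
  rw [← kp_mul]
  congr 1
  funext j
  by_cases e : j = i
  · subst e; simp
  · simp [e]

omit [DecidableEq κ] in
theorem kp_eq_zero {g : κ → Matrix (Fin 2) (Fin 2) Ω} (h : kp g = 0) : ∃ i, g i = 0 := by
  by_contra! k
  have : ∀ i, ∃ a b, g i a b ≠ 0 := fun i => by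
    by_contra! k2
    exact k i (Matrix.ext k2)
  choose a b hab using this
  exact Finset.prod_ne_zero_iff.2 (fun i _ => hab i) (congrFun (congrFun h a) b)

theorem sq_two (g : Matrix (Fin 2) (Fin 2) Ω) : g * g = g.trace • g - g.det • 1 := by
  ext i j
  fin_cases i <;> fin_cases j <;>
    simp [mul_apply, Fin.sum_univ_two, trace_fin_two, det_fin_two] <;> ring

theorem exists_dual {g : Matrix (Fin 2) (Fin 2) Ω} (h : ∀ c : Ω, g ≠ c • 1) :
    ∃ A : Matrix (Fin 2) (Fin 2) Ω, A.trace = 0 ∧ (A * g).trace = 1 := by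
  by_cases h1 : g 0 1 = 0
  · by_cases h2 : g 1 0 = 0
    · have h3 : g 0 0 - g 1 1 ≠ 0 := fun h3 => h (g 0 0) (by
        ext i j
        fin_cases i <;> fin_cases j <;> simp [h1, h2]
        linear_combination -h3)
      refine ⟨!![(g 0 0 - g 1 1)⁻¹, 0; 0, -(g 0 0 - g 1 1)⁻¹], by simp [trace_fin_two], ?_⟩
      simp [trace_fin_two, vecMul, dotProduct]
      field_simp
      ring
    · exact ⟨!![0, (g 1 0)⁻¹; 0, 0], by simp [trace_fin_two],
        by simp [trace_fin_two, vecMul, dotProduct, h2]⟩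
  · exact ⟨!![0, 0; (g 0 1)⁻¹, 0], by simp [trace_fin_two],
      by simp [trace_fin_two, vecMul, dotProduct, h1]⟩

theorem kp_det_ne {g : κ → Matrix (Fin 2) (Fin 2) Ω} {c : Ω} {Y : Matrix (κ → Fin 2) (κ → Fin 2) Ω}
    (h : c • kp g * Y = 1) : c ≠ 0 ∧ ∀ i, (g i).det ≠ 0 := by
  refine ⟨fun e => by simp [e] at h, fun i e => ?_⟩
  obtain ⟨w, hw, hg⟩ := exists_vecMul_eq_zero_iff.2 e
  have h1 : kp (Function.update 1 i (vecMulVec w w)) * kp g = 0 := by
    conv_lhs => rw [← Function.update_eq_self i g]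
    rw [kp_upd_mul, vecMulVec_mul, hg, vecMulVec_zero]
    ext x y
    simp [kp_upd]
  have h2 : kp (Function.update 1 i (vecMulVec w w)) = 0 := by
    rw [← mul_one (kp _), ← h, smul_mul_assoc, mul_smul_comm, ← mul_assoc, h1, zero_mul, smul_zero]
  obtain ⟨j, hj⟩ := kp_eq_zero h2
  by_cases e : j = i
  · subst e
    rw [Function.update_self, vecMulVec_eq_zero, or_self] at hj
    exact hw hj
  · rw [Function.update_of_ne e] at hj
    exact one_ne_zero hj

/-- A tensor product that satisfies the quadratic equation has at most one factor that is not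
scalar. -/
theorem kp_scalar (h2 : (2 : Ω) ≠ 0) {g : κ → Matrix (Fin 2) (Fin 2) Ω} {c χ : Ω} (hc : c ≠ 0)
    (hg : ∀ i, (g i).det ≠ 0) (hm : χ ≠ -1)
    (hq : c • kp g * c • kp g - (1 + χ) • c • kp g + χ • 1 = 0) {i j : κ} (hij : i ≠ j)
    (hi : ∀ c : Ω, g i ≠ c • 1) : ∃ c : Ω, g j = c • 1 := by
  by_contra! hj
  have key : ∀ A : κ → Matrix (Fin 2) (Fin 2) Ω, (A i).trace = 0 →
      c ^ 2 * ∏ k, (A k * (g k * g k)).trace = (1 + χ) * c * ∏ k, (A k * g k).trace := by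
    intro A hA
    have := congrArg (fun Z => (kp A * Z).trace) hq
    simp only [mul_add, mul_sub, smul_mul_assoc, mul_smul_comm, ← kp_mul, trace_add, trace_sub,
      trace_smul, kp_trace, mul_one, mul_zero, trace_zero, smul_eq_mul] at this
    rw [Finset.prod_eq_zero (f := fun k => (A k).trace) (Finset.mem_univ i) hA] at this
    linear_combination this
  obtain ⟨A, a0, a1⟩ := exists_dual hi
  obtain ⟨B, b0, b1⟩ := exists_dual hj
  have u : ∀ k, IsUnit (g k).det := fun k => (hg k).isUnit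
  have t0 : (g i).trace = 0 := by
    let B' : Matrix (Fin 2) (Fin 2) Ω := 1 - (g j).trace • B
    have := key (Function.update (Function.update (fun k => (g k * g k)⁻¹) j B') i A) (by simpa)
    rw [Finset.prod_eq_zero (f := fun k => trace (_ * g k)) (Finset.mem_univ j) (by
      simp [Function.update_of_ne hij.symm, B', sub_mul, b1]), mul_zero,
      mul_eq_zero, or_iff_right (pow_ne_zero 2 hc), Finset.prod_eq_zero_iff] at this
    obtain ⟨k, -, hk⟩ := this
    by_cases e : k = i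
    · subst e
      simpa [sq_two, mul_sub, a0, a1] using hk
    · rw [Function.update_of_ne e] at hk
      by_cases e' : k = j
      · subst e'
        rw [Function.update_self, sq_two] at hk
        simp [B', mul_sub, sub_mul, b0, b1, hg, h2] at hk
      · rw [Function.update_of_ne e', nonsing_inv_mul _ (by rw [det_mul]; exact (u k).mul (u k))] at hk
        simp [h2] at hk
  have := key (Function.update (fun k => (g k)⁻¹) i A) (by simpa)
  rw [Finset.prod_eq_zero (Finset.mem_univ i) (by simp [sq_two, mul_sub, a0, a1, t0]), mul_zero,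
    eq_comm, mul_eq_zero, or_iff_right (mul_ne_zero (fun e => hm (by linear_combination e)) hc),
    Finset.prod_eq_zero_iff] at this
  obtain ⟨k, -, hk⟩ := this
  by_cases e : k = i
  · subst e
    simp [a1] at hk
  · rw [Function.update_of_ne e, nonsing_inv_mul _ (u k)] at hk
    simp [h2] at hk

end kp

theorem IsKp.conj {M : Matrix (ι ⊕ ι) (Fin 3 → Fin 2) Ω} {M' : Matrix (Fin 3 → Fin 2) (ι ⊕ ι) Ω}
    (hM' : M' * M = 1) {X : Matrix (ι ⊕ ι) (ι ⊕ ι) Ω} (h : IsKp M X) :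
    ∃ (c : Ω) (g : Fin 3 → Matrix (Fin 2) (Fin 2) Ω), M' * X * M = c • kp g := by
  obtain ⟨c, g, h⟩ := h
  exact ⟨c, g, by rw [Matrix.mul_assoc, h, ← Matrix.mul_assoc, hM', Matrix.one_mul]⟩

theorem mum_frame [Nonempty ι] (M : Matrix (ι ⊕ ι) (Fin 3 → Fin 2) Ω)
    (M' : Matrix (Fin 3 → Fin 2) (ι ⊕ ι) Ω) (hM : M * M' = 1) (hM' : M' * M = 1) (i : Fin 3)
    (h1 : M' * fromBlocks (1 : Matrix ι ι Ω) (0 : Matrix ι ι Ω) (0 : Matrix ι ι Ω) (0 : Matrix ι ι Ω) * M = kp (Function.update 1 i (!![1, 0; 0, 0] : Matrix (Fin 2) (Fin 2) Ω))) :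
    ∃ S : Matrix ι ι Ω, S.det ≠ 0 ∧
      (∀ (β : Matrix ι ι Ω) (χ : Ω), IsKp M (fromBlocks 1 0 β (χ • 1)) → ∃ y : Ω, β = y • S) ∧
      ∀ a b d : Matrix ι ι Ω, a.det ≠ 0 → d.det ≠ 0 → IsKp M (fromBlocks a 0 b d) →
        ∃ ν : Ω, d * S = ν • (S * a) := by
  have mul : ∀ X Y : Matrix (ι ⊕ ι) (ι ⊕ ι) Ω, M' * (X * Y) * M = M' * X * M * (M' * Y * M) :=
    fun X Y => by
      simp only [Matrix.mul_assoc]
      rw [← Matrix.mul_assoc M, hM, Matrix.one_mul]
  have inj : ∀ X Y : Matrix (ι ⊕ ι) (ι ⊕ ι) Ω, M' * X * M = M' * Y * M → X = Y := fun X Y h => by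
    have := congrArg (fun Z => M * Z * M') h
    simpa only [Matrix.mul_assoc, hM, Matrix.mul_one, ← Matrix.mul_assoc M, Matrix.one_mul] using this
  have sur : ∀ Z : Matrix (Fin 3 → Fin 2) (Fin 3 → Fin 2) Ω, M' * (M * Z * M') * M = Z := fun Z => by
    simp only [Matrix.mul_assoc, hM', Matrix.mul_one, ← Matrix.mul_assoc M', Matrix.one_mul]
  have one : kp (Function.update (1 : Fin 3 → Matrix (Fin 2) (Fin 2) Ω) i 1) = 1 := by
    rw [show Function.update (1 : Fin 3 → Matrix (Fin 2) (Fin 2) Ω) i 1 = fun _ => 1 from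
      Function.update_eq_self i _, kp_one]
  have h0 : M' * fromBlocks (0 : Matrix ι ι Ω) (0 : Matrix ι ι Ω) (0 : Matrix ι ι Ω) (1 : Matrix ι ι Ω) * M = kp (Function.update 1 i (!![0, 0; 0, 1] : Matrix (Fin 2) (Fin 2) Ω)) := by
    have e1 : (fromBlocks (0 : Matrix ι ι Ω) (0 : Matrix ι ι Ω) (0 : Matrix ι ι Ω) (1 : Matrix ι ι Ω) : Matrix (ι ⊕ ι) (ι ⊕ ι) Ω) = 1 - fromBlocks (1 : Matrix ι ι Ω) (0 : Matrix ι ι Ω) (0 : Matrix ι ι Ω) (0 : Matrix ι ι Ω) := by
      rw [eq_sub_iff_add_eq, fromBlocks_add, ← fromBlocks_one]; simp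
    rw [e1, Matrix.mul_sub, Matrix.sub_mul, h1, Matrix.mul_one, hM', sub_eq_iff_eq_add, ← kp_upd_add,
      ← one]
    congr 2
    ext a b
    fin_cases a <;> fin_cases b <;> simp
  have blk : ∀ X : Matrix (ι ⊕ ι) (ι ⊕ ι) Ω,
      fromBlocks (0 : Matrix ι ι Ω) (0 : Matrix ι ι Ω) (0 : Matrix ι ι Ω) (1 : Matrix ι ι Ω) * X * fromBlocks (1 : Matrix ι ι Ω) (0 : Matrix ι ι Ω) (0 : Matrix ι ι Ω) (0 : Matrix ι ι Ω) = fromBlocks 0 0 X.toBlocks₂₁ 0 ∧
      fromBlocks (1 : Matrix ι ι Ω) (0 : Matrix ι ι Ω) (0 : Matrix ι ι Ω) (0 : Matrix ι ι Ω) * X * fromBlocks (0 : Matrix ι ι Ω) (0 : Matrix ι ι Ω) (0 : Matrix ι ι Ω) (1 : Matrix ι ι Ω) = fromBlocks 0 X.toBlocks₁₂ 0 0 := fun X => by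
    conv => enter [1, 1, 1, 2]; rw [← fromBlocks_toBlocks X]
    conv => enter [2, 1, 1, 2]; rw [← fromBlocks_toBlocks X]
    simp [fromBlocks_multiply]
  obtain ⟨S, hS⟩ : ∃ S : Matrix ι ι Ω,
      M' * fromBlocks (0 : Matrix ι ι Ω) (0 : Matrix ι ι Ω) (S : Matrix ι ι Ω) (0 : Matrix ι ι Ω) * M = kp (Function.update 1 i (!![0, 0; 1, 0] : Matrix (Fin 2) (Fin 2) Ω)) :=
    ⟨_, by rw [← (blk (M * kp (Function.update 1 i (!![0, 0; 1, 0] : Matrix (Fin 2) (Fin 2) Ω)) * M')).1, mul, mul, h0, h1, sur,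
      kp_upd_mul, kp_upd_mul]; simp only [mul_one, mul_fin_two, mul_zero, zero_mul, add_zero, zero_add, one_mul]⟩
  obtain ⟨S', hS'⟩ : ∃ S : Matrix ι ι Ω,
      M' * fromBlocks (0 : Matrix ι ι Ω) (S : Matrix ι ι Ω) (0 : Matrix ι ι Ω) (0 : Matrix ι ι Ω) * M = kp (Function.update 1 i (!![0, 1; 0, 0] : Matrix (Fin 2) (Fin 2) Ω)) :=
    ⟨_, by rw [← (blk (M * kp (Function.update 1 i (!![0, 1; 0, 0] : Matrix (Fin 2) (Fin 2) Ω)) * M')).2, mul, mul, h0, h1, sur,
      kp_upd_mul, kp_upd_mul]; simp only [mul_one, mul_fin_two, mul_zero, zero_mul, add_zero, zero_add, one_mul]⟩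
  have hSS : S * S' = 1 := by
    have := inj (fromBlocks (0 : Matrix ι ι Ω) (0 : Matrix ι ι Ω) (S : Matrix ι ι Ω) (0 : Matrix ι ι Ω) * fromBlocks (0 : Matrix ι ι Ω) (S' : Matrix ι ι Ω) (0 : Matrix ι ι Ω) (0 : Matrix ι ι Ω)) (fromBlocks (0 : Matrix ι ι Ω) (0 : Matrix ι ι Ω) (0 : Matrix ι ι Ω) (1 : Matrix ι ι Ω)) (by
      rw [mul, hS, hS', h0, kp_upd_mul]; simp only [mul_one, mul_fin_two, mul_zero, zero_mul, add_zero, zero_add, one_mul])
    simpa [fromBlocks_multiply] using this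
  have hd : S.det ≠ 0 := (isUnit_det_of_right_inverse hSS).ne_zero
  have ent : ∀ (m l r e : Matrix (Fin 2) (Fin 2) Ω) (c t : Ω) (g : Fin 3 → Matrix (Fin 2) (Fin 2) Ω),
      l * g i * r = t • e → kp (Function.update 1 i l) * c • kp g * kp (Function.update 1 i r) =
        (c * t) • kp (Function.update g i e) := fun m l r e c t g h => by
    conv_lhs => rw [← Function.update_eq_self i g]
    rw [Matrix.mul_smul, Matrix.smul_mul, kp_upd_mul, kp_upd_mul, h, kp_upd_smul, smul_smul, one_mul,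
      mul_one]
  refine ⟨S, hd, fun β χ h => ?_, fun a b d ha hd' h => ?_⟩
  · obtain ⟨c, g, h⟩ := h.conj hM'
    have k1 := ent 0 (!![1, 0; 0, 0] : Matrix (Fin 2) (Fin 2) Ω) (!![1, 0; 0, 0] : Matrix (Fin 2) (Fin 2) Ω) (!![1, 0; 0, 0] : Matrix (Fin 2) (Fin 2) Ω) c (g i 0 0) g (by
      ext a b
      fin_cases a <;> fin_cases b <;> simp [Matrix.mul_apply, vecMul, dotProduct])
    have k2 := ent 0 (!![0, 0; 0, 1] : Matrix (Fin 2) (Fin 2) Ω) (!![1, 0; 0, 0] : Matrix (Fin 2) (Fin 2) Ω) (!![0, 0; 1, 0] : Matrix (Fin 2) (Fin 2) Ω) c (g i 1 0) g (by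
      ext a b
      fin_cases a <;> fin_cases b <;> simp [Matrix.mul_apply, vecMul, dotProduct])
    rw [← h0, ← h1, ← h, ← mul, ← mul] at k2
    rw [← h1, ← h, ← mul, ← mul] at k1
    simp only [fromBlocks_multiply, Matrix.mul_zero, Matrix.zero_mul, Matrix.mul_one,
      Matrix.one_mul, add_zero, zero_add] at k1 k2
    have k3 : c * g i 0 0 ≠ 0 := fun e => by
      rw [e, zero_smul] at k1
      have := inj _ 0 (k1.trans (by simp))
      rw [← fromBlocks_zero, fromBlocks_inj] at this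
      exact one_ne_zero this.1
    have k4 : (c * g i 0 0) • kp (Function.update g i (!![0, 0; 1, 0] : Matrix (Fin 2) (Fin 2) Ω)) =
        kp (Function.update 1 i (!![0, 0; 1, 0] : Matrix (Fin 2) (Fin 2) Ω)) := by
      have := congrArg (fun Z => kp (Function.update 1 i (!![0, 0; 1, 0] : Matrix (Fin 2) (Fin 2) Ω)) * Z) k1
      simp only [h1, Matrix.mul_smul, kp_upd_mul] at this
      simpa only [mul_one, mul_fin_two, mul_zero, zero_mul, add_zero, zero_add, one_mul]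
        using this.symm
    refine ⟨c * g i 1 0 / (c * g i 0 0), ?_⟩
    have := inj (fromBlocks (0 : Matrix ι ι Ω) (0 : Matrix ι ι Ω) (β : Matrix ι ι Ω) (0 : Matrix ι ι Ω)) ((c * g i 1 0 / (c * g i 0 0)) • fromBlocks (0 : Matrix ι ι Ω) (0 : Matrix ι ι Ω) (S : Matrix ι ι Ω) (0 : Matrix ι ι Ω)) (by
      rw [k2, Matrix.mul_smul, Matrix.smul_mul, hS, ← k4, smul_smul, div_mul_cancel₀ _ k3])
    rw [fromBlocks_smul, fromBlocks_inj] at this
    exact this.2.2.1
  · obtain ⟨c, g, h⟩ := h.conj hM'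
    have ua : IsUnit a.det := ha.isUnit
    have ud : IsUnit d.det := hd'.isUnit
    obtain ⟨hc, hg⟩ := kp_det_ne (c := c) (g := g)
      (Y := M' * fromBlocks a⁻¹ 0 (-(d⁻¹ * b * a⁻¹)) d⁻¹ * M) (by
        rw [← h, ← mul, fromBlocks_multiply]
        simp [mul_nonsing_inv _ ua, mul_nonsing_inv _ ud, ← Matrix.mul_assoc, hM'])
    have k0 := ent 0 (!![1, 0; 0, 0] : Matrix (Fin 2) (Fin 2) Ω) (!![0, 0; 0, 1] : Matrix (Fin 2) (Fin 2) Ω) (!![0, 1; 0, 0] : Matrix (Fin 2) (Fin 2) Ω) c (g i 0 1) g (by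
      ext a b
      fin_cases a <;> fin_cases b <;> simp [Matrix.mul_apply, vecMul, dotProduct])
    rw [← h0, ← h1, ← h, ← mul, ← mul] at k0
    simp only [fromBlocks_multiply, Matrix.mul_zero, Matrix.zero_mul, Matrix.mul_one,
      Matrix.one_mul, add_zero, zero_add, fromBlocks_zero] at k0
    have k3 : g i 0 1 = 0 := by
      rcases smul_eq_zero.1 k0.symm with e | e
      · exact (mul_eq_zero.1 e).resolve_left hc
      · obtain ⟨j, hj⟩ := kp_eq_zero e
        by_cases e : j = i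
        · subst e
          rw [Function.update_self] at hj
          simpa using congrFun (congrFun hj 0) 1
        · rw [Function.update_of_ne e] at hj
          exact absurd (by rw [hj]; simp) (hg j)
    have k4 : g i 0 0 ≠ 0 := fun e => hg i (by rw [det_fin_two, e, k3]; simp)
    have k1 := ent 0 1 (!![0, 0; 1, 0] : Matrix (Fin 2) (Fin 2) Ω) (!![0, 0; 1, 0] : Matrix (Fin 2) (Fin 2) Ω) c (g i 1 1) g (by
      ext a b
      fin_cases a <;> fin_cases b <;> simp [Matrix.mul_apply, vecMul, dotProduct, k3])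
    have k2 := ent 0 (!![0, 0; 1, 0] : Matrix (Fin 2) (Fin 2) Ω) 1 (!![0, 0; 1, 0] : Matrix (Fin 2) (Fin 2) Ω) c (g i 0 0) g (by
      ext a b
      fin_cases a <;> fin_cases b <;> simp [Matrix.mul_apply, vecMul, dotProduct, k3])
    rw [one, Matrix.one_mul, ← hS, ← h, ← mul] at k1
    rw [one, Matrix.mul_one, ← hS, ← h, ← mul] at k2
    refine ⟨g i 1 1 / g i 0 0, ?_⟩
    have := inj (fromBlocks a 0 b d * fromBlocks (0 : Matrix ι ι Ω) (0 : Matrix ι ι Ω) (S : Matrix ι ι Ω) (0 : Matrix ι ι Ω))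
      ((g i 1 1 / g i 0 0) • (fromBlocks (0 : Matrix ι ι Ω) (0 : Matrix ι ι Ω) (S : Matrix ι ι Ω) (0 : Matrix ι ι Ω) * fromBlocks a 0 b d)) (by
        rw [k1, Matrix.mul_smul, Matrix.smul_mul, k2, smul_smul]
        congr 1
        field_simp)
    simp only [fromBlocks_multiply, Matrix.mul_zero, Matrix.zero_mul, add_zero, zero_add,
      fromBlocks_smul, fromBlocks_inj] at this
    exact this.2.2.1

/-- All unipotent parts of inertia elements lie on one line, which the stabiliser of the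
multiplicative part preserves. -/
theorem mum_line (h2 : (2 : Ω) ≠ 0) (M : Matrix (ι ⊕ ι) (Fin 3 → Fin 2) Ω)
    (M' : Matrix (Fin 3 → Fin 2) (ι ⊕ ι) Ω) (hM : M * M' = 1) (hM' : M' * M = 1)
    (χ₀ : Ω) (h0 : χ₀ ≠ 0) (h1 : χ₀ ≠ 1) (hm : χ₀ ≠ -1)
    (k0 : IsKp M (fromBlocks 1 0 0 (χ₀ • 1))) :
    ∃ S : Matrix ι ι Ω, S.det ≠ 0 ∧
      (∀ (β : Matrix ι ι Ω) (χ : Ω), χ ≠ 0 → IsKp M (fromBlocks 1 0 β (χ • 1)) →
        ∃ y : Ω, β = y • S) ∧
      ∀ a b d : Matrix ι ι Ω, a.det ≠ 0 → d.det ≠ 0 → IsKp M (fromBlocks a 0 b d) →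
        ∃ ν : Ω, d * S = ν • (S * a) := by
  have mul : ∀ X Y : Matrix (ι ⊕ ι) (ι ⊕ ι) Ω, M' * (X * Y) * M = M' * X * M * (M' * Y * M) :=
    fun X Y => by
      simp only [Matrix.mul_assoc]
      rw [← Matrix.mul_assoc M, hM, Matrix.one_mul]
  have : Nonempty ι := by
    by_contra! e
    have := congrFun (congrFun hM' 0) 0
    simp [Matrix.mul_apply] at this
  obtain ⟨c, g, h⟩ := k0.conj hM'
  obtain ⟨hc, hg⟩ := kp_det_ne (c := c) (g := g)
    (Y := M' * fromBlocks (1 : Matrix ι ι Ω) 0 0 (χ₀⁻¹ • (1 : Matrix ι ι Ω)) * M) (by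
      rw [← h, ← mul, fromBlocks_multiply]
      simp [smul_smul, h0, hM'])
  have hq : c • kp g * c • kp g - (1 + χ₀) • c • kp g + χ₀ • 1 = 0 := by
    rw [← h, ← mul, ← hM', ← Matrix.smul_mul, ← Matrix.mul_smul, ← Matrix.smul_mul,
      ← Matrix.sub_mul, ← Matrix.mul_sub, ← Matrix.add_mul]
    conv => enter [1, 1, 2, 2]; rw [← Matrix.mul_one M']
    rw [← Matrix.mul_smul, ← Matrix.mul_add, ← fromBlocks_one, fromBlocks_multiply]
    have : ∀ X : Matrix (ι ⊕ ι) (ι ⊕ ι) Ω, X = 0 → M' * X * M = 0 := fun X e => by simp [e]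
    refine this _ ?_
    ext (a | a) (b | b) <;> simp [one_apply] <;> split_ifs <;> ring
  obtain ⟨i, hi⟩ : ∃ i, ∀ c : Ω, g i ≠ c • 1 := by
    by_contra! k
    choose t ht using k
    rw [show g = fun i => t i • 1 from funext ht, kp_smul, kp_one, smul_smul] at h
    have e := congrArg (fun Z => M * Z * M') h
    simp only [Matrix.mul_assoc, hM, Matrix.mul_one, ← Matrix.mul_assoc M, Matrix.one_mul,
      Matrix.mul_smul, Matrix.smul_mul] at e
    obtain ⟨a⟩ := this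
    have e1 := congrFun (congrFun e (Sum.inl a)) (Sum.inl a)
    have e2 := congrFun (congrFun e (Sum.inr a)) (Sum.inr a)
    simp at e1 e2
    exact h1 (e2.trans e1.symm)
  obtain ⟨m, hm1, hm2⟩ : ∃ m : Matrix (Fin 2) (Fin 2) Ω, (∀ c : Ω, m ≠ c • 1) ∧
      c • kp g = kp (Function.update 1 i m) := by
    have : ∀ j, ∃ t : Ω, j ≠ i → t ≠ 0 ∧ g j = t • 1 := fun j => by
      by_cases e : j = i
      · exact ⟨0, fun e' => absurd e e'⟩
      · obtain ⟨t, ht⟩ := kp_scalar h2 hc hg hm hq (Ne.symm e) hi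
        exact ⟨t, fun _ => ⟨fun e => hg j (by simp [ht, e]), ht⟩⟩
    choose t ht using this
    have t0 : c * ∏ j ∈ Finset.univ.erase i, t j ≠ 0 :=
      mul_ne_zero hc (Finset.prod_ne_zero_iff.2 fun j hj => (ht j (Finset.ne_of_mem_erase hj)).1)
    refine ⟨(c * ∏ j ∈ Finset.univ.erase i, t j) • g i, fun s e => hi ((c * ∏ j ∈ Finset.univ.erase i,
      t j)⁻¹ * s) (by rw [mul_smul, ← e, smul_smul, inv_mul_cancel₀ t0, one_smul]), ?_⟩
    conv_lhs => rw [← Function.update_eq_self i g]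
    ext x y
    simp only [Matrix.smul_apply, kp_upd, smul_eq_mul]
    rw [Finset.prod_congr rfl fun j hj => congrFun (congrFun (ht j (Finset.ne_of_mem_erase hj)).2 _) _]
    simp only [Matrix.smul_apply, smul_eq_mul, Finset.prod_mul_distrib, Pi.one_apply]
    ring
  have one : kp (Function.update (1 : Fin 3 → Matrix (Fin 2) (Fin 2) Ω) i 1) = 1 := by
    rw [show Function.update (1 : Fin 3 → Matrix (Fin 2) (Fin 2) Ω) i 1 = fun _ => 1 from
      Function.update_eq_self i _, kp_one]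
  have hmq : m * m - (1 + χ₀) • m + χ₀ • 1 = 0 := by
    rw [hm2, kp_upd_mul, mul_one, ← one, ← kp_upd_smul, ← kp_upd_smul, sub_eq_add_neg,
      ← neg_one_smul Ω, ← kp_upd_smul, ← kp_upd_add, ← kp_upd_add] at hq
    obtain ⟨j, hj⟩ := kp_eq_zero hq
    by_cases e : j = i
    · subst e
      rwa [Function.update_self, neg_one_smul, ← sub_eq_add_neg] at hj
    · rw [Function.update_of_ne e] at hj
      exact absurd hj one_ne_zero
  have htr : m.trace = 1 + χ₀ := by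
    by_contra e
    refine hm1 ((m.trace - (1 + χ₀))⁻¹ * (m.det - χ₀)) ?_
    rw [mul_smul, eq_inv_smul_iff₀ (sub_ne_zero.2 e)]
    rw [sq_two] at hmq
    linear_combination (norm := module) hmq
  have hdt : m.det = χ₀ := by
    rw [sq_two, htr] at hmq
    have := congrFun (congrFun hmq 0) 0
    simp at this
    linear_combination -this
  obtain ⟨Q, Q', T, q1, q2, q3, q4, q5⟩ := tri_two m (a := 1) (by rw [htr, hdt]; ring)
  rw [htr, add_sub_cancel_left] at q5
  have hu : χ₀ - 1 ≠ 0 := sub_ne_zero.2 h1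
  let U : Matrix (Fin 2) (Fin 2) Ω := !![1, T 0 1 / (χ₀ - 1); 0, 1]
  let U' : Matrix (Fin 2) (Fin 2) Ω := !![1, -(T 0 1 / (χ₀ - 1)); 0, 1]
  have u1 : U * U' = 1 := by simp [U, U', one_fin_two]
  have u2 : U' * T * U = χ₀ • 1 + (1 - χ₀) • !![1, 0; 0, 0] := by
    ext a b
    fin_cases a <;> fin_cases b <;>
      simp [U, U', Matrix.mul_apply, vecMul, dotProduct, q3, q4, q5]
    field_simp
    ring
  have r1 : Q * U * (U' * Q') = 1 := by rw [mul_assoc, ← mul_assoc U, u1, one_mul, q1]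
  have r2 : U' * Q' * (Q * U) = 1 := mul_eq_one_comm.1 r1
  have r3 : U' * Q' * m * (Q * U) = χ₀ • 1 + (1 - χ₀) • !![1, 0; 0, 0] := by
    rw [← u2, q2]
    simp only [mul_assoc, ← mul_assoc Q' Q, mul_eq_one_comm.1 q1, one_mul]
  let E := fun n : Matrix (Fin 2) (Fin 2) Ω => kp (Function.update (1 : Fin 3 → _) i n)
  have Em : ∀ a b, E a * E b = E (a * b) := fun a b => by simp only [E, kp_upd_mul, mul_one]
  have n1 : M * E (Q * U) * (E (U' * Q') * M') = 1 := by
    rw [Matrix.mul_assoc, ← Matrix.mul_assoc (E _), Em, r1, show E 1 = 1 from one, Matrix.one_mul, hM]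
  have n2 : E (U' * Q') * M' * (M * E (Q * U)) = 1 := by
    rw [Matrix.mul_assoc, ← Matrix.mul_assoc M', hM', Matrix.one_mul, Em, r2, show E 1 = 1 from one]
  have tr : ∀ X, IsKp M X → IsKp (M * E (Q * U)) X := fun X ⟨c, g, h⟩ =>
    ⟨c, Function.update g i (U' * Q' * g i * (Q * U)), by
      rw [← Matrix.mul_assoc, h, Matrix.mul_assoc, Matrix.mul_assoc]
      congr 1
      conv_lhs => rw [← Function.update_eq_self i g]
      simp only [E, Matrix.mul_smul, Matrix.smul_mul, kp_upd_mul, mul_one, one_mul]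
      rw [← mul_assoc (Q * U), ← mul_assoc (Q * U), r1, one_mul]⟩
  obtain ⟨S, s1, s2, s3⟩ := mum_frame _ _ n1 n2 i (by
    have e : E (U' * Q') * M' * fromBlocks (1 : Matrix ι ι Ω) 0 0 (χ₀ • (1 : Matrix ι ι Ω)) *
        (M * E (Q * U)) = E (χ₀ • 1 + (1 - χ₀) • !![1, 0; 0, 0]) := by
      rw [← r3, ← Em (U' * Q' * m), ← Em (U' * Q') m, show E m = _ from hm2.symm, ← h]
      simp only [Matrix.mul_assoc]
    rw [show fromBlocks (1 : Matrix ι ι Ω) 0 0 (χ₀ • (1 : Matrix ι ι Ω)) = χ₀ • 1 + (1 - χ₀) •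
      fromBlocks (1 : Matrix ι ι Ω) (0 : Matrix ι ι Ω) (0 : Matrix ι ι Ω) (0 : Matrix ι ι Ω) by
        ext (a | a) (b | b) <;> simp [one_apply]
        split_ifs <;> ring] at e
    simp only [E, kp_upd_add, kp_upd_smul, one] at e n2
    simp only [Matrix.mul_add, Matrix.add_mul, Matrix.mul_smul, Matrix.smul_mul, Matrix.mul_one, n2,
      add_right_inj] at e
    exact smul_right_injective _ (sub_ne_zero.2 h1.symm) e)
  exact ⟨S, s1, fun β χ _ k => s2 β χ (tr _ k), fun a b d ha hd k => s3 a b d ha hd (tr _ k)⟩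

end MTC
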