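import Pool.Agent.Lib.MP_d61fbb_ag.MT.C1
import Pool.Agent.Lib.MP_d61fbb_ag.MT.CTop
import Pool.Agent.Lib.MP_d61fbb_ag.MT.CFrob
import Pool.Agent.Lib.MP_d61fbb_ag.MT.CMum

/-! Block C of the MT project: the interpolation theorem for theta systems of Mumford type. -/

noncomputable section

namespace MTC

open Matrix

variable {p : ℕ} [Fact p.Prime] {ι : Type*} [Fintype ι] [DecidableEq ι]

theorem exists_unit_value (hp : p ≠ 2) (S : Matrix ι ι ℚ_[p]) (hS : ∀ i j, ‖S i j‖ ≤ 1)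
    (hs : Sᵀ = S) (i₀ j₀ : ι) (h1 : S i₀ j₀ = 1) :
    ∃ w₀ : ι → ℚ_[p], ‖w₀‖ ≤ 1 ∧ ‖w₀ ⬝ᵥ S *ᵥ w₀ / 2‖ = 1 := by
  have hn : ∀ i : ι, ‖(Pi.single i 1 : ι → ℚ_[p])‖ ≤ 1 := fun i => by
    rw [Pi.norm_single, norm_one]
  by_cases h : ∃ i, ‖S i i‖ = 1
  · obtain ⟨i, hi⟩ := h
    refine ⟨Pi.single i 1, hn i, ?_⟩
    rw [norm_div, norm_two hp, div_one]
    simpa using hi
  · push Not at h
    have hlt : ∀ i, ‖S i i‖ < 1 := fun i => lt_of_le_of_ne (hS i i) (h i)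
    have h2 : S j₀ i₀ = 1 := by rw [← h1, ← hs, transpose_apply, hs]
    refine ⟨Pi.single i₀ 1 + Pi.single j₀ 1,
      (IsUltrametricDist.norm_add_le_max _ _).trans (max_le (hn _) (hn _)), ?_⟩
    have e : (Pi.single i₀ 1 + Pi.single j₀ 1 : ι → ℚ_[p]) ⬝ᵥ S *ᵥ (Pi.single i₀ 1 + Pi.single j₀ 1) =
        2 + (S i₀ i₀ + S j₀ j₀) := by
      simp only [mulVec_add, add_dotProduct, dotProduct_add, mulVec_single_one, single_one_dotProduct,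
        col_apply, h1, h2]
      ring
    have h3 : ‖S i₀ i₀ + S j₀ j₀‖ < 1 :=
      (IsUltrametricDist.norm_add_le_max _ _).trans_lt (max_lt (hlt _) (hlt _))
    rw [e, norm_div, norm_two hp, div_one,
      IsUltrametricDist.norm_add_eq_max_of_norm_ne_norm (by rw [norm_two hp]; exact h3.ne'),
      norm_two hp, max_eq_left h3.le]

/-- The unipotent parts of inertia lie on a rational line; `a` is the Frobenius matrix on the
etale quotient. -/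
theorem mum_rat (hp : p ≠ 2) [Nonempty ι] {L : Type*} [Field L] [Algebra ℚ_[p] L]
    (M : Matrix (ι ⊕ ι) (Fin 3 → Fin 2) L) (M' : Matrix (Fin 3 → Fin 2) (ι ⊕ ι) L)
    (hM : M * M' = 1) (hM' : M' * M = 1) {I : Type*} (β : I → Matrix ι ι ℚ_[p])
    (χ : I → ℚ_[p]) (hχ : ∀ s, χ s ≠ 0) (hβ : ∀ s i j, ‖β s i j‖ ≤ 1) (hs : ∀ s, (β s)ᵀ = β s)
    (hk : ∀ s, IsKp M ((fromBlocks 1 0 (β s) (χ s • 1)).map (algebraMap ℚ_[p] L)))
    (s₀ : I) (h0 : β s₀ = 0) (h1 : χ s₀ ≠ 1) (hm : χ s₀ ≠ -1)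
    (a b d : Matrix ι ι ℚ_[p]) (u : ℚ_[p]) (hu : u ≠ 0) (had : aᵀ * d = u • 1)
    (hφ : IsKp M ((fromBlocks a 0 b d).map (algebraMap ℚ_[p] L))) :
    (∀ s, β s = 0) ∨ ∃ (S : Matrix ι ι ℚ_[p]) (κ : I → ℚ_[p]) (μ : ℚ_[p]) (w₀ : ι → ℚ_[p]),
      S.det ≠ 0 ∧ (∀ i j, ‖S i j‖ ≤ 1) ∧ (∀ s, ‖κ s‖ ≤ 1 ∧ β s = κ s • S) ∧
      aᵀ * S * a = μ • S ∧ ‖w₀‖ ≤ 1 ∧ ‖w₀ ⬝ᵥ S *ᵥ w₀ / 2‖ = 1 := by
  have inj : Function.Injective (algebraMap ℚ_[p] L) := (algebraMap ℚ_[p] L).injective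
  have key : ∀ x y z w : Matrix ι ι ℚ_[p], (fromBlocks x y z w).map (algebraMap ℚ_[p] L) =
      fromBlocks (x.map (algebraMap ℚ_[p] L)) (y.map (algebraMap ℚ_[p] L))
        (z.map (algebraMap ℚ_[p] L)) (w.map (algebraMap ℚ_[p] L)) := fun x y z w =>
    fromBlocks_map _ _ _ _ _
  have k1 : (1 : Matrix ι ι ℚ_[p]).map (algebraMap ℚ_[p] L) = 1 :=
    Matrix.map_one _ (map_zero _) (map_one _)
  have k0 : (0 : Matrix ι ι ℚ_[p]).map (algebraMap ℚ_[p] L) = 0 := Matrix.map_zero _ (map_zero _)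
  have ks : ∀ (c : ℚ_[p]) (x : Matrix ι ι ℚ_[p]), (c • x).map (algebraMap ℚ_[p] L) =
      algebraMap ℚ_[p] L c • x.map (algebraMap ℚ_[p] L) := fun c x => by
    ext i j; simp only [map_apply, Matrix.smul_apply, smul_eq_mul, map_mul]
  have kd : ∀ x : Matrix ι ι ℚ_[p], x.det ≠ 0 ↔ (x.map (algebraMap ℚ_[p] L)).det ≠ 0 := fun x => by
    rw [← RingHom.mapMatrix_apply, ← RingHom.map_det, ne_eq, ne_eq, map_eq_zero_iff _ inj]
  have hk' : ∀ s, IsKp M (fromBlocks 1 0 ((β s).map (algebraMap ℚ_[p] L))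
      (algebraMap ℚ_[p] L (χ s) • 1)) := fun s => by
    have := hk s
    rwa [key, k1, k0, ks, k1] at this
  obtain ⟨SL, hSL, hl, hst⟩ := mum_line (Ω := L)
    (by rw [← map_ofNat (algebraMap ℚ_[p] L) 2]; exact (map_ne_zero_iff _ inj).2 two_ne_zero)
    M M' hM hM' (algebraMap ℚ_[p] L (χ s₀)) ((map_ne_zero_iff _ inj).2 (hχ s₀))
    (fun h => h1 (inj (by rw [h, map_one]))) (fun h => hm (inj (by rw [h, map_neg, map_one])))
    (by have := hk' s₀; rwa [h0, k0] at this)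
  by_cases hz : ∀ s, β s = 0
  · exact Or.inl hz
  right
  push Not at hz
  obtain ⟨s₁, hs₁⟩ := hz
  choose y hy using fun s => hl _ _ ((map_ne_zero_iff _ inj).2 (hχ s)) (hk' s)
  obtain ⟨⟨i₀, j₀⟩, -, hmax⟩ := Finset.exists_max_image (Finset.univ : Finset (ι × ι))
    (fun ij => ‖β s₁ ij.1 ij.2‖) Finset.univ_nonempty
  have hb : β s₁ i₀ j₀ ≠ 0 := by
    intro h
    apply hs₁
    ext i j
    have := hmax (i, j) (Finset.mem_univ _)
    simpa [h] using this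
  have hye : ∀ s i j, algebraMap ℚ_[p] L (β s i j) = y s * SL i j := fun s i j => by
    simpa using congrFun (congrFun (hy s) i) j
  have hb' : algebraMap ℚ_[p] L (β s₁ i₀ j₀) ≠ 0 := (map_ne_zero_iff _ inj).2 hb
  have hy1 : y s₁ ≠ 0 := left_ne_zero_of_mul (hye s₁ i₀ j₀ ▸ hb')
  have hS0 : SL i₀ j₀ ≠ 0 := right_ne_zero_of_mul (hye s₁ i₀ j₀ ▸ hb')
  set S : Matrix ι ι ℚ_[p] := (β s₁ i₀ j₀)⁻¹ • β s₁ with hS
  have hSe : S.map (algebraMap ℚ_[p] L) = (SL i₀ j₀)⁻¹ • SL := by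
    rw [hS, ks, hy, map_inv₀, hye, smul_smul]
    congr 1
    field_simp
  have hS1 : S i₀ j₀ = 1 := by simp [hS, hb]
  have hSn : ∀ i j, ‖S i j‖ ≤ 1 := fun i j => by
    rw [hS, Matrix.smul_apply, smul_eq_mul, norm_mul, norm_inv, inv_mul_le_iff₀ (norm_pos_iff.2 hb), mul_one]
    exact hmax (i, j) (Finset.mem_univ _)
  have hSs : Sᵀ = S := by rw [hS, transpose_smul, hs]
  obtain ⟨w₀, hw₀, hw₁⟩ := exists_unit_value hp S hSn hSs i₀ j₀ hS1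
  have minj : ∀ x z : Matrix ι ι ℚ_[p],
      x.map (algebraMap ℚ_[p] L) = z.map (algebraMap ℚ_[p] L) → x = z := fun x z h =>
    Matrix.map_injective inj h
  have hdet : a.det ≠ 0 ∧ d.det ≠ 0 := by
    have := congrArg det had
    rw [det_mul, det_transpose, det_smul, det_one, mul_one] at this
    exact mul_ne_zero_iff.1 (this ▸ pow_ne_zero _ hu)
  obtain ⟨ν, hν⟩ := hst _ (b.map (algebraMap ℚ_[p] L)) _ ((kd a).1 hdet.1) ((kd d).1 hdet.2)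
    (by rwa [key, k0] at hφ)
  have e1 : algebraMap ℚ_[p] L u • SL = ν • ((a.map (algebraMap ℚ_[p] L))ᵀ * SL *
      a.map (algebraMap ℚ_[p] L)) := by
    rw [Matrix.mul_assoc, ← Matrix.mul_smul, ← hν, ← Matrix.mul_assoc, ← transpose_map,
      ← Matrix.map_mul, had, ks, k1, Matrix.smul_mul, Matrix.one_mul]
  have hν0 : ν ≠ 0 := by
    rintro rfl
    have := congrFun (congrFun e1 i₀) j₀
    simp only [Matrix.smul_apply, smul_eq_mul, zero_mul] at this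
    exact mul_ne_zero ((map_ne_zero_iff _ inj).2 hu) hS0 this
  have e2 : (aᵀ * S * a).map (algebraMap ℚ_[p] L) =
      (ν⁻¹ * algebraMap ℚ_[p] L u) • S.map (algebraMap ℚ_[p] L) := by
    rw [Matrix.map_mul, Matrix.map_mul, transpose_map, hSe, Matrix.mul_smul, Matrix.smul_mul,
      smul_comm, mul_smul, e1, smul_smul ν⁻¹, inv_mul_cancel₀ hν0, one_smul]
  refine ⟨S, fun s => β s i₀ j₀, (aᵀ * S * a) i₀ j₀, w₀, ?_, hSn, fun s => ⟨hβ s _ _, ?_⟩, ?_, hw₀,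
    hw₁⟩
  · rw [kd, hSe, det_smul]
    exact mul_ne_zero (pow_ne_zero _ (inv_ne_zero hS0)) hSL
  · apply minj
    rw [ks, hSe, hy, hye, smul_smul]
    congr 1
    field_simp
  · apply minj
    have := congrFun (congrFun e2 i₀) j₀
    simp only [map_apply, Matrix.smul_apply, smul_eq_mul, hS1, map_one, mul_one] at this
    rw [ks, this, e2]

variable {Ω : Type*} [Field Ω] {v : AbsoluteValue Ω ℝ} {I : Type*} [Group I] {A : Type*}

/-- A theta system together with spaces that give the power identity. -/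
def SysU (D : Inert v p I) (fr : A → A) (β : I → Matrix ι ι ℚ_[p])
    (F : A → (ι → ℚ_[p]) → (ι → ℚ_[p]) → Ω) : Prop :=
  Sys D β 0 F ∧ ∃ H1 H2, Uq D fr H1 H2 ∧ F ∈ H1

/-- The output of block C for theta systems whose inertia cocycles differ by distinct multiples
of one cocycle `β`. -/
theorem sys_interp [Nonempty ι] (D : Inert v p I) {fr : A → A} (hfr : Function.Surjective fr)
    (β : I → Matrix ι ι ℚ_[p])
    (hβ : (∀ s, β s = 0) ∨ ∃ (S : Matrix ι ι ℚ_[p]) (κ : I → ℚ_[p]) (w₀ : ι → ℚ_[p]),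
      (∀ i j, ‖S i j‖ ≤ 1) ∧ (∀ s, ‖κ s‖ ≤ 1 ∧ β s = κ s • S) ∧
      ‖w₀‖ ≤ 1 ∧ ‖w₀ ⬝ᵥ S *ᵥ w₀ / 2‖ = 1)
    (c₀ : ℚ_[p]) (hc₀ : ‖c₀‖ ≤ 1) {n : ℕ} (c : Fin n → ℚ_[p]) (hc : ∀ i, ‖c i‖ ≤ 1)
    (hinj : Function.Injective c)
    (F₀ : A → (ι → ℚ_[p]) → (ι → ℚ_[p]) → Ω) (h₀ : SysU D fr (fun s => c₀ • β s) F₀)
    (F : Fin n → A → (ι → ℚ_[p]) → (ι → ℚ_[p]) → Ω)
    (h : ∀ i, SysU D fr (fun s => c i • β s) (F i))
    (red : ∀ i, ∃ u, v u = 1 ∧ ∀ a w, v (F i a w 0 - u * F₀ a w 0) < 1)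
    {J : Type*} (P : MvPolynomial J Ω) {d : ℕ} (hP : P.IsHomogeneous d)
    (hP1 : ∀ m, v (P.coeff m) ≤ 1) (x : J → A)
    (hz : ∀ i, MvPolynomial.eval (fun j => F i (x j) 0 0) P = 0) :
    v (MvPolynomial.eval (fun j => F₀ (x j) 0 0) P) ≤ v (p : Ω) ^ n := by
  have mk : ∀ (γ : I → Matrix ι ι ℚ_[p]) (G : A → (ι → ℚ_[p]) → (ι → ℚ_[p]) → Ω),
      SysU D fr γ G → ∃ μ : Meas v p ι fr (fun s => (D.act s : Ω →+* Ω)) D.psi,
        (∀ a w, μ.M 0 a w = G a w 0) ∧ ∀ σ w, μ.q σ w = w ⬝ᵥ γ σ *ᵥ w / 2 := by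
    rintro γ G ⟨S, H1, H2, hU, hG⟩
    have h0 : G ≠ 0 := by
      rintro rfl
      obtain ⟨a, ha⟩ := S.unit0
      simp at ha
    choose th hth using frob_of_uq hfr hU hG h0
      (fun a x y t ht => S.perx a x y t fun j => by simpa using ht j)
      (fun a x y t ht => S.pery a x y t fun j => by simpa using ht j)
    exact ⟨S.toMeas fr th hth, fun a w => meas_zero D G a w, fun σ w => rfl⟩
  obtain ⟨μ0, m0, q0⟩ := mk _ _ h₀
  choose μ m q using fun i => mk _ _ (h i)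
  obtain ⟨Q, κ, w₀, hQ, hQ1, hw₀, hQ0, hκ, hq⟩ : ∃ (Q : (ι → ℚ_[p]) → ℚ_[p]) (κ : I → ℚ_[p])
      (w₀ : ι → ℚ_[p]), (∀ (c : ℚ_[p]) w, Q (c • w) = c ^ 2 * Q w) ∧ (∀ w, ‖w‖ ≤ 1 → ‖Q w‖ ≤ 1) ∧
      ‖w₀‖ ≤ 1 ∧ ‖Q w₀‖ = 1 ∧ (∀ σ, ‖κ σ‖ ≤ 1) ∧ ∀ σ w, w ⬝ᵥ β σ *ᵥ w / 2 = κ σ * Q w := by
    rcases hβ with hβ | ⟨S, κ, w₀, hS, hκ, hw₀, hw₁⟩
    · obtain ⟨i₀⟩ := ‹Nonempty ι›
      refine ⟨fun w => w i₀ ^ 2, fun _ => 0, Pi.single i₀ 1, fun c w => by simp [mul_pow],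
        fun w hw => ?_, by rw [Pi.norm_single, norm_one], by simp, by simp, fun σ w => by simp [hβ]⟩
      rw [norm_pow]
      exact pow_le_one₀ (norm_nonneg _) ((norm_le_pi_norm w i₀).trans hw)
    · refine ⟨fun w => w ⬝ᵥ S *ᵥ w / 2, κ, w₀, fun c w => ?_, fun w hw => ?_, hw₀, hw₁,
        fun σ => (hκ σ).1, fun σ w => ?_⟩
      · simp only [mulVec_smul, smul_dotProduct, dotProduct_smul, smul_eq_mul]
        ring
      · have hw' : In 0 w := in_iff.2 (by simpa using hw)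
        rw [norm_div, norm_two D.odd, div_one]
        simpa using hw'.dot (hw'.mulVec hS)
      · rw [(hκ σ).2, smul_mulVec, dotProduct_smul, smul_eq_mul, mul_div_assoc]
  have := meas_interp D.na D.odd D.p0 D.p1 hfr D.fix D.psi_one Q hQ hQ1 w₀ hw₀ hQ0 κ hκ μ0 μ
    (fun i => c i - c₀) (fun i => by
      rw [sub_eq_add_neg]
      exact (IsUltrametricDist.norm_add_le_max _ _).trans (max_le (hc i) (by rwa [norm_neg])))
    (fun i j hij => hinj (sub_left_injective hij)) (fun i σ w => by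
      rw [q, q0, smul_mulVec, smul_mulVec, dotProduct_smul, dotProduct_smul, smul_eq_mul,
        smul_eq_mul, mul_div_assoc, mul_div_assoc, hq]
      ring) (fun i => by simpa only [m, m0] using red i) P hP hP1 x
    (fun i => by simpa only [m] using hz i)
  simpa only [m0] using this

end MTC
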