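import Pool.Agent.Lib.MP_d61fbb_ag.MT.C1
import Pool.Agent.Lib.MP_d61fbb_ag.MT.CFrob

/-! Block C of the MT project: the reduction of a theta system does not depend on the
multiplicative coordinate. -/

noncomputable section

namespace MTC

open Matrix

variable {Ω : Type*} [Field Ω] {v : AbsoluteValue Ω ℝ} {p : ℕ} [Fact p.Prime]
  {I : Type*} [Group I] {ι : Type*} [Fintype ι] [DecidableEq ι] {A : Type*}
  {D : Inert v p I} {β : I → Matrix ι ι ℚ_[p]} {F : A → (ι → ℚ_[p]) → (ι → ℚ_[p]) → Ω}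

theorem Sys.per (S : Sys D β 0 F) (a : A) : Per D 0 (F a) :=
  ⟨fun x y t ht => S.perx a x y t fun j => by simpa using ht j,
    fun x y t ht => S.pery a x y t fun j => by simpa using ht j⟩

/-- Fourier expansion of a theta system in the multiplicative coordinate. -/
theorem Sys.fourier (S : Sys D β 0 F) (a : A) (x : ι → ℚ_[p]) {y : ι → ℚ_[p]} {k : ℕ}
    (hy : In (-k) y) : F a x y =
      ∑ s : ι → ZMod (p ^ k), D.psi ((x + lift s) ⬝ᵥ y) * meas D F k a (x + lift s) := by
  rw [(S.per a).eq_sum k x y]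
  refine Finset.sum_congr rfl fun s _ => ?_
  have := ((S.per a).pj k).pery (x + lift s) 0 y hy
  rw [zero_add] at this
  rw [zero_add, pow_zero, one_smul, this, meas_eq_pj]

theorem Sys.inv_y (S : Sys D β 0 F) (a : A) (x y : ι → ℚ_[p]) : v (F a x y - F a x 0) < 1 := by
  obtain ⟨k, hk⟩ := exists_in y
  rw [S.fourier a x hk, S.fourier a x (In.zero (-(k : ℤ))), ← Finset.sum_sub_distrib]
  refine sum_lt D.na _ _ one_pos fun s _ => ?_
  rw [← sub_mul, dotProduct_zero, AddChar.map_zero_eq_one]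
  exact mul_lt_of_le_one_right (D.v_psi_sub_one _) (S.meas_le_one _ _ _)

theorem Sys.inv_y' (S : Sys D β 0 F) (a : A) (x y y' : ι → ℚ_[p]) :
    v (F a x y - F a x y') < 1 := by
  have := sub_lt D.na (S.inv_y a x y) (S.inv_y a x y')
  rwa [sub_sub_sub_cancel_right] at this

end MTC
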