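import Pool.Agent.Lib.MP_d61fbb_ag.MT.I1
import Pool.Agent.Lib.MP_d61fbb_ag.MT.T1
import Pool.Agent.Lib.MP_d61fbb_ag.MT.CIn2
import Pool.Agent.Lib.MP_d61fbb_ag.MT.CCore

/-! The bridge to block C: definitions. -/

set_option autoImplicit false

noncomputable section

namespace Pool.Agent.MT

open Matrix Polynomial Sum NumberField
open Pool.Agent.Lib.MP_696deb_nt.B2 (Qbar Gam Plc Dec Ine IsFrob Op jC)

variable {τ : Matrix (Fin 4) (Fin 4) ℂ} {K : IntermediateField ℚ ℂ} {M : MumfordType τ K}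
  {A : AR M}

/-- matrices of size four -/
abbrev M4 (R : Type) := Matrix (Fin 4) (Fin 4) R

/-- the inertia group -/
abbrev Frb.I (v : Frb A) : Subgroup (ℂ ≃ₐ[K] ℂ) := (Ine v.w).comap A.res

/-- the component at `p` of the additive character -/
def Frb.psi (v : Frb A) : AddChar ℚ_[v.p] Qbar := A.S.e.compAddMonoidHom (sg v.p)

theorem Frb.psi_apply (v : Frb A) (x : ℚ_[v.p]) : v.psi x = A.S.e (sg v.p x) := rfl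

theorem Frb.psi_eq_one (v : Frb A) (x : ℚ_[v.p]) : v.psi x = 1 ↔ ‖x‖ ≤ 1 := by
  rw [v.psi_apply, A.S.ker]
  refine ⟨fun h => by simpa [cp_sg] using h v.p v.p.2.ne_zero, fun h l _ => ?_⟩
  by_cases e : l = v.p
  · subst e; rwa [cp_sg]
  · simp [cp_sg_ne e]

theorem Frb.cyc_surj (v : Frb A) (u : ℤ_[v.p]ˣ) : ∃ σ ∈ v.I, cycP v.p (A.res σ) = u := by
  have h : ∀ (q : ℕ) [Fact q.Prime], v.w.p = q → ∀ u : ℤ_[q]ˣ, ∃ g ∈ Ine v.w, cycP q g = u := by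
    intro q _ h
    subst h
    exact cycP_ine_surj v.w
  obtain ⟨g, hg, e⟩ := h v.p v.hp u
  obtain ⟨σ, rfl⟩ := v.ine hg
  exact ⟨σ, hg, e⟩

/-- the inertia data -/
def Frb.D (v : Frb A) : MTC.Inert (abv v.w) v.p v.I where
  na := abv_na v.w
  odd := fun h => by have := v.big; omega
  p0 := by exact_mod_cast v.p.2.ne_zero
  p1 := v.hp ▸ abv_p_lt v.w
  act := ((MulSemiringAction.toRingAut Gam Qbar).comp A.res).comp v.I.subtype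
  iso s x := abv_dec s.2.1 x
  near s _ hx := abv_ine s.2 hx
  fix _ hx h := v.hp ▸ abv_fix v.w (fun g hg => by
    obtain ⟨σ, rfl⟩ := v.ine hg
    exact hx ⟨σ, hg⟩) h
  chi s := ((cycP v.p (A.res s)).val : ℚ_[v.p])
  chi_norm s := PadicInt.norm_units _
  neg := by
    obtain ⟨σ, hσ, h⟩ := v.cyc_surj (-1)
    exact ⟨⟨σ, hσ⟩, by simp [h]⟩
  psi := v.psi
  psi_one x := (v.psi_eq_one x).2
  psi_ne h := by
    have := (v.psi_eq_one _).1 h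
    rw [norm_inv, Padic.norm_p, inv_inv] at this
    exact absurd this (not_le.2 (by exact_mod_cast v.p.2.one_lt))
  psi_act s x := gal_psi v.psi (fun x => (v.psi_eq_one x).2) (A.res s) x

theorem Frb.D_act (v : Frb A) (s : v.I) (x : Qbar) : v.D.act s x = A.res s x := rfl

theorem Frb.D_psi (v : Frb A) : v.D.psi = v.psi := rfl

/-- the Galois action at `p` -/
def Frb.rp (v : Frb A) (σ : ℂ ≃ₐ[K] ℂ) : M8 ℚ_[v.p] := (M.ρ σ v.p).val.map (↑)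

/-- An integral symplectic basis at `p` that is adapted to the ordinary filtration. -/
structure Adp (v : Frb A) (V0 : Submodule ℚ_[v.p] (Vl v.p)) {P : ℤ[X]} {E : Type} [Field E]
    [NumberField E] (d : DF P v.p E) where
  g : M8 ℚ_[v.p]
  g' : M8 ℚ_[v.p]
  mul_inv : g * g' = 1
  inv_mul : g' * g = 1
  int : ∀ i j, ‖g i j‖ ≤ 1
  int' : ∀ i j, ‖g' i j‖ ≤ 1
  symp : ∀ x y, Ef (g *ᵥ x) (g *ᵥ y) = Ef x y
  b : v.I → M4 ℚ_[v.p]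
  b_int : ∀ σ i j, ‖b σ i j‖ ≤ 1
  ine : ∀ (σ : v.I) x y, v.rp σ *ᵥ g *ᵥ Sum.elim x y = g *ᵥ Sum.elim x (v.D.chi σ • y + b σ *ᵥ x)
  mem : ∀ x y, g *ᵥ Sum.elim x y ∈ V0 ↔ x = 0
  a : M4 ℚ_[v.p]
  a_int : ∀ i j, ‖a i j‖ ≤ 1
  poly : ∀ (q : ℚ[X]) x,
    aeval (v.rp v.φ) q *ᵥ g *ᵥ Sum.elim x 0 - g *ᵥ Sum.elim (aeval a q *ᵥ x) 0 ∈ V0
  aP : aeval a (P.map (Int.castRingHom ℚ)) = 0
  alt : (∀ σ, b σ = 0) ∨ ∃ (S : M4 ℚ_[v.p]) (κ : v.I → ℚ_[v.p]) (w₀ : Fin 4 → ℚ_[v.p]),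
    (∀ i j, ‖S i j‖ ≤ 1) ∧ (∀ σ, ‖κ σ‖ ≤ 1 ∧ b σ = κ σ • S) ∧
      ‖w₀‖ ≤ 1 ∧ ‖w₀ ⬝ᵥ S *ᵥ w₀ / 2‖ = 1
  j : E →+* ℚ_[v.p]
  form : ∀ σ x, x ≠ 0 → (aeval a (d.f x))ᵀ * b σ * aeval a (d.f x) =
    (((Algebra.norm ℚ x : ℚ) : ℚ_[v.p]) * (j x / j (d.c x))) • b σ

/-- The function of a point in the coordinates of block C. -/
def Phi (v : Frb A) (g : M8 ℚ_[v.p]) (N : ℕ) (F : W → Qbar) (α : Wp v.p ≃+ Wp v.p)
    (B B' : M4 ℚ_[v.p]) (a : Wp v.p) (x y : Fin 4 → ℚ_[v.p]) : Qbar :=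
  v.psi (x ⬝ᵥ y / 2) *
    F (α a + sgv v.p (g *ᵥ Sum.elim (B *ᵥ x) ((N : ℚ_[v.p])⁻¹ • B'ᵀ *ᵥ y)))

/-- A normalised theta function of a lattice that is standard at `p`. -/
structure NPt (v : Frb A) (N : ℕ) (h : M8 AF) (F : W → Qbar) : Prop where
  pt : Pt N h
  std : StdAt v.p h
  vec : A.S.IsVec N h F
  le : ∀ x, v.w.V (F x) ≤ 1
  one : ∃ x ∈ Wp v.p, F x = 1

/-- the adapted basis exists -/
def CM1 : Prop := ∀ τ K (M : MumfordType τ K) (A : AR M) (v : Frb A) (R) (_ : RedOf v R)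
  (P : ℤ[X]) (_ : IsCh v.p (M.ρ v.φ) P) (_ : Good P v.p) (_ : Ordi v.p P)
  (V0 : Submodule ℚ_[v.p] (Vl v.p)) (_ : Fil v R V0)
  (_ : ∀ Q : ℚ_[v.p][X], (∀ x : Vl v.p, aeval (v.rp v.φ) Q *ᵥ x ∈ V0) →
    ∀ u : PadicAlgCl v.p, aeval u P = 0 → ‖u‖ = 1 → aeval u Q = 0)
  (E : Type) [Field E] [NumberField E] (d : DF P v.p E), Nonempty (Adp v V0 d)

/-- a point gives a theta system -/
def CM2 : Prop := ∀ τ K (M : MumfordType τ K) (A : AR M) (_ : Sieg τ) (v : Frb A) (R)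
  (V0 : Submodule ℚ_[v.p] (Vl v.p)) (_ : Fil v R V0) (P : ℤ[X])
  (E : Type) [Field E] [NumberField E] (d : DF P v.p E) (ad : Adp v V0 d)
  (N : ℕ) (h : M8 AF) (F : W → Qbar) (_ : NPt v N h F) (α : Wp v.p ≃+ Wp v.p)
  (B B' : M4 ℚ_[v.p]), B * B' = 1 → (∀ i j, ‖B i j‖ ≤ 1) → (∀ i j, ‖B' i j‖ ≤ 1) →
    MTC.SysU v.D (fun a : Wp v.p => (v.p : ℕ) • a) (fun σ => (N : ℚ_[v.p]) • (Bᵀ * ad.b σ * B))
      (Phi v ad.g N F α B B')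

/-- partners have the same reduction -/
def CM3 : Prop := ∀ τ K (M : MumfordType τ K) (A : AR M) (_ : Sieg τ) (v : Frb A) (R)
  (_ : RedOf v R) (P : ℤ[X]) (_ : IsCh v.p (M.ρ v.φ) P) (_ : Good P v.p)
  (V0 : Submodule ℚ_[v.p] (Vl v.p)) (_ : Fil v R V0)
  (E : Type) [Field E] [NumberField E] (d : DF P v.p E), ∃ f : ℕ, f ≠ 0 ∧ (v.p : ℕ) ∣ f ∧
  d.D ^ 2 ∣ f ∧ ∀ (N N' : ℕ) (h h' : M8 AF) (F F' : W → Qbar) (a β : 𝓞 E) (r : ℚ),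
    NPt v N h F → NPt v N' h' F' → IsCoprime a (f : 𝓞 E) → (f : 𝓞 E) ∣ β - a →
    (N' : ℚ) * r ^ 2 * Algebra.norm ℚ (β : E) = N * Algebra.norm ℚ (a : E) →
    (∀ x ∈ Wp v.p, ∀ y ∈ Wp v.p, nuA d (M.ρ v.φ) a *ᵥ h' *ᵥ y =
      r • nuA d (M.ρ v.φ) β *ᵥ h *ᵥ x → (x ∈ L0 ↔ y ∈ L0)) →
    ∃ u : Qbar, v.w.V u = 1 ∧ ∀ z ∈ Wp v.p, ∀ z' ∈ Wp v.p, ∀ y y' : Vl v.p,
      nuA d (M.ρ v.φ) a *ᵥ z' = r • nuA d (M.ρ v.φ) β *ᵥ z →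
      aeval (v.rp v.φ) (d.f a) *ᵥ y' - r • aeval (v.rp v.φ) (d.f β) *ᵥ y ∈ V0 →
      v.w.V (F' (z' + sgv v.p y') - u * F (z + sgv v.p y)) < 1

/-- the shape of the four theorems -/
def T_CM1 : Prop := VAN → CM1
def T_CM2 : Prop := UNIQ → GH → CM2
def T_CM3 : Prop := UNIQ → VAN → ALPHA → REDG → CM3
def T_CM4 : Prop := CM1 → CM2 → CM3 → REDS → LAT → ORD → CM

end Pool.Agent.MT
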