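import Pool.Agent.Lib.MP_d61fbb_ag.MT.CM0
import Pool.Agent.Lib.MP_d61fbb_ag.MT.BO1
import Pool.Agent.Lib.MP_d61fbb_ag.MT.CBas
import Pool.Agent.Lib.MP_d61fbb_ag.MT.D3
import Pool.Agent.Lib.MP_d61fbb_ag.MT.A6

/-! The bridge to block C: the adapted basis. -/

set_option autoImplicit false

noncomputable section

namespace Pool.Agent.MT

open Matrix Polynomial Sum NumberField
open Pool.Agent.Lib.MP_696deb_nt.B2 (Qbar Gam Plc Dec Ine IsFrob Op jC)

theorem cm1_blocks {R : Type} [CommRing R] {μ : R} {a c d : M4 R} (h : GS μ (fromBlocks a 0 c d)) :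
    aᵀ * d = μ • 1 ∧ cᵀ * a = aᵀ * c := by
  rw [gs_iff, J, fromBlocks_transpose, fromBlocks_multiply, fromBlocks_multiply, fromBlocks_smul,
    fromBlocks_inj] at h
  exact ⟨by simpa using h.2.1, by simpa [add_neg_eq_zero] using h.1⟩

theorem cm1_shape {R : Type} [CommRing R] {X : M8 R} (h : ∀ y, (X *ᵥ Sum.elim 0 y) ∘ inl = 0) :
    X = fromBlocks X.toBlocks₁₁ 0 X.toBlocks₂₁ X.toBlocks₂₂ := by
  have : X.toBlocks₁₂ = 0 := ext_iff_mulVec.2 fun y => by
    have := h y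
    rw [← fromBlocks_toBlocks X, fromBlocks_mulVec] at this
    simpa using this
  rw [← this, fromBlocks_toBlocks]

theorem cm1_tw {F R m n : Type} [CommRing F] [CommRing R] [Algebra F R] [Fintype m] [Fintype n]
    [DecidableEq m] [DecidableEq n] {T : Matrix m n R} {X : Matrix n n R} {a : Matrix m m R}
    (h : T * X = a * T) (q : F[X]) : T * aeval X q = aeval a q * T := by
  induction q using Polynomial.induction_on with
  | C c => simp [Algebra.algebraMap_eq_smul_one]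
  | add p q hp hq => rw [map_add, map_add, Matrix.mul_add, Matrix.add_mul, hp, hq]
  | monomial n c ih =>
    rw [pow_succ, ← mul_assoc, map_mul (aeval X), map_mul (aeval a), aeval_X, aeval_X,
      ← Matrix.mul_assoc, ih, Matrix.mul_assoc, h, Matrix.mul_assoc]

theorem cm1_dvd {K L : Type} [Field K] [Field L] [Algebra K L] {Q P : K[X]} (hQ : Q.Monic)
    {s : Finset L} (hs : s.card = Q.natDegree) (h : ∀ u ∈ s, aeval u Q = 0)
    (h' : ∀ u ∈ s, aeval u P = 0) : Q ∣ P := by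
  have k : ∀ F : K[X], (∀ u ∈ s, aeval u F = 0) →
      ∏ u ∈ s, (X - C u) ∣ F.map (algebraMap K L) := fun F hF =>
    Finset.prod_dvd_of_coprime ((pairwise_coprime_X_sub_C Function.injective_id).set_pairwise _)
      fun u hu => dvd_iff_isRoot.2 (by rw [IsRoot.def, eval_map_algebraMap, hF u hu])
  rw [← map_dvd_map' (algebraMap K L), eq_of_monic_of_dvd_of_natDegree_le
    (monic_prod_of_monic _ _ fun u _ => monic_X_sub_C u) (hQ.map _) (k Q h) (by
      rw [natDegree_map, natDegree_finsetProd_X_sub_C_eq_card, hs])]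
  exact k P h'

theorem cm1_sep {P : ℤ[X]} {p : ℕ} {E : Type} [Field E] [NumberField E] (d : DF P p E)
    (G : Good P p) : (P.map (Int.castRingHom ℚ)).Separable := by
  obtain ⟨w, u, h⟩ := G.pres
  rw [← separable_map (algebraMap ℚ ℂ), Polynomial.map_map, RingHom.eq_intCast' (RingHom.comp _ _),
    h.fac, separable_prod_X_sub_C_iff]
  exact (d.emb ℂ w u h).1

theorem t_cm1 : T_CM1 := by
  intro _ τ K M A v R _ P _ hG hO V0 hF hK E _ _ d
  have hp : (v.p : ℕ) ≠ 2 := v.D.odd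
  let φ : ℤ_[v.p] →+* ℚ_[v.p] := PadicInt.Coe.ringHom
  have φi : Function.Injective φ := Subtype.val_injective
  have sub : ∀ σ : v.I, ∀ x, v.rp σ *ᵥ x - x ∈ V0 := fun σ => (hF.ine σ σ.2).choose_spec.2.2
  have gs : ∀ σ, GS (cycP v.p (A.res σ)).val (M.ρ σ v.p).val := fun σ =>
    gs_iff.2 (Matrix.map_injective φi (by
      have := gs_iff.1 (show GS _ _ from BO.Ef_loc (A := A) σ v.p)
      rw [← map_J _ φ] at this
      simp only [Matrix.map_mul, transpose_map]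
      refine this.trans ?_
      ext i j
      exact (φ.map_mul _ _).symm))
  obtain ⟨s, hs, h2⟩ := v.cyc_surj (PadicInt.isUnit_iff.2 (show ‖(2 : ℤ_[v.p])‖ = 1 from
    MTC.norm_two hp)).unit
  replace h2 : (cycP v.p (A.res s)).val = 2 := by rw [h2, IsUnit.unit_spec]
  have h3 : ∀ y ∈ V0, v.rp s *ᵥ y = (2 : ℚ_[v.p]) • y := fun y hy => by
    have := BO.eig (A := A) fun x => hF.iso _ (sub ⟨s, hs⟩ x) y hy
    rwa [BO.chi, h2] at this
  have eJ : (fromBlocks 0 1 (-1) 0 : M8 ℤ_[v.p]) = -J (Fin 4) ℤ_[v.p] := by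
    rw [J, fromBlocks_neg, neg_zero, neg_neg]
  obtain ⟨g, g1, g2⟩ := MTC.exists_adapted (M.ρ s v.p).val 2 (by norm_num) two_ne_zero
    (Matrix.map_injective φi (by
      change φ.mapMatrix _ = φ.mapMatrix _
      rw [map_mul, map_sub, map_sub, two_smul, map_add, map_one, map_zero]
      refine ext_iff_mulVec.2 fun x => ?_
      have := h3 _ (sub ⟨s, hs⟩ x)
      change ((v.rp s - 1) * (v.rp s - (1 + 1))) *ᵥ x = _
      simp only [← mulVec_mulVec, sub_mulVec, add_mulVec, one_mulVec, mulVec_sub, mulVec_add,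
        zero_mulVec] at this ⊢
      linear_combination (norm := module) this))
    (by rw [eJ, mul_neg, neg_mul, gs_iff.1 (gs s), h2, smul_neg])
  rw [eJ, mul_neg, neg_mul, neg_inj] at g1
  obtain ⟨g', g3⟩ : ∃ g', g' * g = 1 :=
    ⟨-J _ _ * gᵀ * J _ _, by rw [mul_assoc, mul_assoc, ← mul_assoc gᵀ, g1, neg_mul, J_squared, neg_neg]⟩
  have g4 := mul_eq_one_comm.1 g3
  have g5 : GS 1 g := gs_iff.2 (by rw [g1, one_smul])
  have g6 : GS 1 g' := fun x y => by rw [← one_mul (Ef _ _), ← g5, mulVec_mulVec, mulVec_mulVec,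
    g4, one_mulVec, one_mulVec, one_mul]
  have G3 : g'.map φ * g.map φ = 1 := by
    rw [← Matrix.map_mul, g3, Matrix.map_one _ (map_zero _) (map_one _)]
  have G4 := mul_eq_one_comm.1 G3
  let X : (ℂ ≃ₐ[K] ℂ) → M8 ℚ_[v.p] := fun σ => (g' * (M.ρ σ v.p).val * g).map φ
  have X1 : ∀ σ, X σ = g'.map φ * v.rp σ * g.map φ := fun σ => by
    simp only [X, Matrix.map_mul]; rfl
  have X2 : ∀ σ, GS (BO.chi A σ v.p) (X σ) := fun σ => by
    have := ((g6.mul (gs σ)).mul g5).map φ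
    rwa [one_mul, mul_one] at this
  have X3 : ∀ σ i j, ‖X σ i j‖ ≤ 1 := fun σ i j => PadicInt.norm_le_one _
  have X4 : ∀ σ z, v.rp σ *ᵥ g.map φ *ᵥ z = g.map φ *ᵥ X σ *ᵥ z := fun σ z => by
    rw [X1, mulVec_mulVec, mulVec_mulVec, ← mul_assoc, ← mul_assoc, G4, one_mul]
  have X0 : X s = fromBlocks 1 0 0 ((2 : ℚ_[v.p]) • 1) := by
    change Matrix.map _ _ = _
    rw [mul_assoc, g2, ← mul_assoc, g3, one_mul, fromBlocks_map, two_smul, two_smul,
      Matrix.map_add _ (map_add φ), Matrix.map_one _ (map_zero _) (map_one _),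
      Matrix.map_zero _ (map_zero _)]
  have G2 : ∀ x y, v.rp s *ᵥ g.map φ *ᵥ Sum.elim x y =
      g.map φ *ᵥ Sum.elim x ((2 : ℚ_[v.p]) • y) := fun x y => by
    rw [X4, X0, fromBlocks_mulVec]
    simp [smul_mulVec]
  have inj : ∀ {x y}, g.map φ *ᵥ x = g.map φ *ᵥ y → x = y := fun h => by
    simpa only [mulVec_mulVec, ← Matrix.mul_assoc, G3, one_mulVec] using congrArg (g'.map φ *ᵥ ·) h
  have mem : ∀ x y, g.map φ *ᵥ Sum.elim x y ∈ V0 ↔ x = 0 := fun x y => by
    refine ⟨fun h => funext fun i => ?_, ?_⟩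
    · have := h3 _ h
      rw [G2, ← mulVec_smul] at this
      have := congrFun (inj this) (inl i)
      simp only [elim_inl, Pi.smul_apply, smul_eq_mul] at this
      rw [Pi.zero_apply]
      linear_combination -this
    · rintro rfl
      have := sub ⟨s, hs⟩ (g.map φ *ᵥ Sum.elim 0 y)
      rwa [G2, ← mulVec_sub, show Sum.elim (0 : Fin 4 → ℚ_[v.p]) ((2 : ℚ_[v.p]) • y) -
        Sum.elim (0 : Fin 4 → ℚ_[v.p]) y = Sum.elim (0 : Fin 4 → ℚ_[v.p]) y by
          ext (i | i) <;> simp [two_mul]] at this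
  have mem' : ∀ z, z ∈ V0 ↔ (g'.map φ *ᵥ z) ∘ inl = 0 := fun z => by
    rw [← mem _ ((g'.map φ *ᵥ z) ∘ inr), Sum.elim_comp_inl_inr, mulVec_mulVec, G4, one_mulVec]
  have X5 : ∀ σ, (∀ x ∈ V0, v.rp σ *ᵥ x ∈ V0) →
      X σ = fromBlocks (X σ).toBlocks₁₁ 0 (X σ).toBlocks₂₁ (X σ).toBlocks₂₂ := fun σ h =>
    cm1_shape fun y => by
      have := h _ ((mem 0 y).2 rfl)
      rwa [X4, ← Sum.elim_comp_inl_inr (X σ *ᵥ _), mem] at this
  have X6 : ∀ σ : v.I, X σ = fromBlocks 1 0 (X σ).toBlocks₂₁ (v.D.chi σ • 1) ∧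
      (X σ).toBlocks₂₁ᵀ = (X σ).toBlocks₂₁ := fun σ => by
    have e := X5 σ fun x hx => by simpa using V0.add_mem (sub σ x) hx
    have e1 : (X σ).toBlocks₁₁ = 1 := ext_iff_mulVec.2 fun x => by
      have := sub σ (g.map φ *ᵥ Sum.elim x 0)
      rw [X4, ← mulVec_sub, ← Sum.elim_comp_inl_inr (_ - _), mem, e, fromBlocks_mulVec] at this
      funext i
      simpa [sub_eq_zero] using congrFun this i
    rw [e1] at e
    obtain ⟨e2, e3⟩ := cm1_blocks (e ▸ X2 σ)
    rw [transpose_one, one_mul] at e2 e3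
    rw [mul_one] at e3
    exact ⟨by rw [e2] at e; exact e, e3⟩
  let al := algebraMap ℚ_[v.p] (PadicAlgCl v.p)
  have A4 : (g.map φ).map al * (g'.map φ).map al = 1 := by
    rw [← Matrix.map_mul, G4, Matrix.map_one _ (map_zero _) (map_one _)]
  have X7 : ∀ σ, MTC.IsKp ((g'.map φ).map al * (M.D v.p).U) ((X σ).map al) := fun σ => by
    obtain ⟨c, h, e⟩ := M.sub σ v.p v.notS
    refine ⟨algebraMap _ _ (c : ℤ_[v.p]), fun i => h.val.map ((M.D v.p).σ i), ?_⟩
    have e1 : (v.rp σ).map al = algebraMap _ (PadicAlgCl v.p) (c : ℤ_[v.p]) • ((M.D v.p).U *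
        kp (fun i => h.val.map ((M.D v.p).σ i)) * (M.D v.p).U') := by
      rw [← (M.D v.p).nm, Frb.rp, e]
      ext i j
      exact (algebraMap ℤ_[v.p] (PadicAlgCl v.p)).map_mul _ _
    rw [X1, Matrix.map_mul, Matrix.map_mul, e1, Matrix.mul_assoc, ← Matrix.mul_assoc (Matrix.map _ al),
      A4, Matrix.one_mul]
    simp only [Matrix.mul_smul, Matrix.smul_mul, Matrix.mul_assoc, (M.D v.p).inv_mul,
      Matrix.mul_one]
  have e := X5 v.φ hF.frob
  set a := (X v.φ).toBlocks₁₁ with ha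
  obtain ⟨e2, -⟩ := cm1_blocks (e ▸ X2 v.φ)
  have tw : ∀ (F : Type) [CommRing F] [Algebra F ℚ_[v.p]] (q : F[X]) z,
      (g'.map φ *ᵥ aeval (v.rp v.φ) q *ᵥ z) ∘ inl = aeval a q *ᵥ (g'.map φ *ᵥ z) ∘ inl :=
    fun F _ _ q z => by
    have k : (g'.map φ).toRows₁ * v.rp v.φ = a * (g'.map φ).toRows₁ :=
      ext_iff_mulVec.2 fun z => by
        have : g'.map φ *ᵥ v.rp v.φ *ᵥ z = X v.φ *ᵥ g'.map φ *ᵥ z := by
          rw [X1, mulVec_mulVec, mulVec_mulVec, mul_assoc, G4, mul_one]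
        rw [e, fromBlocks_mulVec, zero_mulVec, add_zero] at this
        rw [← mulVec_mulVec, ← mulVec_mulVec]
        exact congrArg (· ∘ inl) this
    have := congrArg (· *ᵥ z) (cm1_tw k q)
    simp only [← mulVec_mulVec] at this
    exact this
  obtain ⟨t, t1, t2⟩ := BO.four_unit_roots v.p hO (cm1_sep d hG)
  have hP : a.charpoly ∣ P.map (Int.castRingHom _) := cm1_dvd a.charpoly_monic (s := t)
    (by rw [t1, charpoly_natDegree_eq_dim, Fintype.card_fin])
    (fun u hu => hK _ (fun x => by rw [mem', tw, aeval_self_charpoly, zero_mulVec]) u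
      (t2 u hu).1 (t2 u hu).2)
    fun u hu => by rw [← algebraMap_int_eq, aeval_map_algebraMap, (t2 u hu).1]
  have c1 : ∀ σ, ‖BO.chi A σ v.p‖ = 1 := fun σ => PadicInt.norm_units _
  have hd : ‖a.det‖ = 1 := by
    have k : ∀ x : M4 ℤ_[v.p], ‖(x.map φ).det‖ ≤ 1 := fun x => by
      rw [← RingHom.mapMatrix_apply, ← RingHom.map_det]; exact PadicInt.norm_le_one _
    have k1 := congrArg (‖det ·‖) e2
    simp only [det_mul, det_transpose, det_smul, det_one, norm_mul, norm_pow, c1, one_pow,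
      norm_one] at k1
    have k2 : ‖a.det‖ ≤ 1 := k (g' * (M.ρ v.φ v.p).val * g).toBlocks₁₁
    have k3 : ‖(X v.φ).toBlocks₂₂.det‖ ≤ 1 := k (g' * (M.ρ v.φ v.p).val * g).toBlocks₂₂
    nlinarith [norm_nonneg a.det]
  have c2 : v.D.chi ⟨s, hs⟩ = 2 := congrArg φ h2
  obtain ⟨j, -, hj⟩ := d.d3 hG (Fintype.card_fin 4) a hd hP
  have alt := MTC.mum_rat hp ((g'.map φ).map al * (M.D v.p).U) ((M.D v.p).U' * (g.map φ).map al)
    (by rw [Matrix.mul_assoc, ← Matrix.mul_assoc (M.D v.p).U, (M.D v.p).mul_inv, Matrix.one_mul,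
      mul_eq_one_comm.1 A4])
    (by rw [Matrix.mul_assoc, ← Matrix.mul_assoc (Matrix.map _ al), A4, Matrix.one_mul,
      (M.D v.p).inv_mul]) (fun σ : v.I => (X σ).toBlocks₂₁) v.D.chi
    (fun σ => norm_ne_zero_iff.1 (by rw [v.D.chi_norm]; exact one_ne_zero)) (fun σ i j => X3 σ _ _)
    (fun σ => (X6 σ).2) (fun σ => (X6 σ).1 ▸ X7 σ) ⟨s, hs⟩
    (by simp only [X0, toBlocks_fromBlocks₂₁]) (by rw [c2]; norm_num) (by rw [c2]; norm_num)
    a _ _ _ (norm_ne_zero_iff.1 (by rw [c1]; exact one_ne_zero)) e2 (e ▸ X7 v.φ)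
  refine ⟨⟨g.map φ, g'.map φ, G4, G3, fun i j => PadicInt.norm_le_one _,
    fun i j => PadicInt.norm_le_one _, fun x y => by simpa using g5.map φ x y,
    fun σ => (X σ).toBlocks₂₁, fun σ i j => X3 σ _ _, fun σ x y => ?_, mem, a, fun i j => X3 _ _ _,
    fun q x => ?_, ?_, alt.imp id ?_, j, fun σ x hx => ?_⟩⟩
  · rw [X4, (X6 σ).1, fromBlocks_mulVec]
    simp [add_comm, smul_mulVec]
  · rw [mem', mulVec_sub, Pi.sub_comp, tw]
    simp only [mulVec_mulVec, G3, one_mulVec, elim_comp_inl, sub_self]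
  · have := aeval_eq_zero_of_dvd_aeval_eq_zero hP a.aeval_self_charpoly
    rwa [← algebraMap_int_eq, aeval_map_algebraMap, ← aeval_map_algebraMap ℚ] at this
  · rintro ⟨S, κ, μ, w₀, -, h1, h2, -, h3⟩
    exact ⟨S, κ, w₀, h1, h2, h3⟩
  · rcases alt with h | ⟨S, κ, μ, w₀, h0, -, h2, h3, -⟩
    · simp [h σ]
    · have ks : ∀ (c : ℚ_[v.p]) (x : M4 ℚ_[v.p]), (c • x).map al = al c • x.map al := fun c x => by
        ext i j; exact al.map_mul _ _
      have := hj (S.map al) (al μ)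
        (by rwa [← RingHom.mapMatrix_apply, ← RingHom.map_det, _root_.map_ne_zero])
        (by rw [← transpose_map, ← Matrix.map_mul, ← Matrix.map_mul, h3, ks]) x hx
      rw [← transpose_map, ← Matrix.map_mul, ← Matrix.map_mul, ← ks] at this
      rw [(h2 σ).2, Matrix.mul_smul, Matrix.smul_mul, Matrix.map_injective al.injective this,
        smul_comm]

end Pool.Agent.MT
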