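import Pool.Agent.Lib.MP_d61fbb_ag.MT.CMu
import Pool.Agent.Lib.MP_d61fbb_ag.MT.BO1a

/-! The bridge to block C: the integral polynomial in the Frobenius operator that relates two
partners. -/

set_option autoImplicit false

noncomputable section

namespace Pool.Agent.MT

open Matrix Polynomial Sum NumberField

theorem cm3b_unit {l : ℕ} [Fact l.Prime] {ι : Type} [Fintype ι] [DecidableEq ι] {n : ℤ_[l]}
    (hn : ‖n‖ = 1) (X : Matrix ι ι ℤ_[l]) : IsUnit (n • (1 : Matrix ι ι ℤ_[l]) + (l : ℤ_[l]) • X) := by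
  have h : ∀ x : ℤ_[l], IsUnit x ↔ PadicInt.toZMod x ≠ 0 := fun x => by
    rw [Ne, ← RingHom.mem_ker, PadicInt.ker_toZMod, IsLocalRing.notMem_maximalIdeal]
  rw [isUnit_iff_isUnit_det, h, RingHom.map_det, map_add, RingHom.mapMatrix_apply,
    RingHom.mapMatrix_apply, gn_map_smul, gn_map_smul, map_natCast, ZMod.natCast_self, zero_smul,
    add_zero, Matrix.map_one _ (map_zero _) (map_one _), det_smul, det_one, mul_one]
  exact pow_ne_zero _ ((h n).1 (PadicInt.isUnit_iff.2 hn))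

theorem cm3b_int {l : ℕ} [Fact l.Prime] {ι : Type} [Fintype ι] (X : Matrix ι ι ℤ_[l])
    {y : ι → ℚ_[l]} (hy : ∀ i, ‖y i‖ ≤ 1) (i : ι) : ‖(X.map (↑) *ᵥ y) i‖ ≤ 1 :=
  IsUltrametricDist.norm_sum_le_of_forall_le_of_nonneg zero_le_one fun j _ => by
    rw [norm_mul]; exact mul_le_one₀ (X i j).2 (norm_nonneg _) (hy j)

theorem cm3b_inv {l : Pr} (g : (M8 ℤ_[l])ˣ) (x : Vl l) :
    g.val.map ((↑) : ℤ_[l] → ℚ_[l]) *ᵥ (g⁻¹).val.map (↑) *ᵥ x = x := by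
  have := Matrix.map_mul (L := g.val) (M := (g⁻¹).val) (f := PadicInt.Coe.ringHom)
  rw [Units.mul_inv, Matrix.map_one _ (map_zero _) (map_one _)] at this
  exact (mulVec_mulVec _ _ _).trans ((congrArg (· *ᵥ x) this.symm).trans (one_mulVec x))

theorem cm3b_cp (π : ∀ l : Pr, GL (I2 4) ℤ_[l]) (l : Pr) (q : ℤ[X]) :
    (aeval (mA π) q).map (cp l) = (aeval (π l).val q).map (↑) :=
  (hom_aeval (cpM l) (mA π) q).trans (hom_aeval PadicInt.Coe.ringHom.mapMatrix (π l).val q).symm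

variable {p : Pr} {π : ∀ l : Pr, GL (I2 4) ℤ_[l]} {P : ℤ[X]} {E : Type} [Field E] [NumberField E]

theorem cm3b (H : FrD p π P) (d : DF P p E) {a β : 𝓞 E} (k0 : ℕ)
    (h : ((d.D ^ 2 * (2 * ((p : ℕ) : ℤ) ^ (k0 + 1)) : ℤ) : 𝓞 E) ∣ β - a)
    (hc : IsCoprime a ((2 * p : ℕ) : 𝓞 E)) (hpos : 0 < Algebra.norm ℤ a * Algebra.norm ℤ β) :
    ∃ (B : ℤ[X]) (m : ℕ) (q : ℤ[X]) (g : M8 AF),
      q = C (Algebra.norm ℤ a) + C (((p : ℕ) : ℤ) ^ k0) * B ∧ g = aeval (mA π) q ∧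
      (m : ℤ) = Algebra.norm ℤ a * Algebra.norm ℤ β ∧
      (∀ l ≠ p, ∀ x y : I2 4 → ℤ_[l],
        Ef (aeval (π l).val q *ᵥ x) (aeval (π l).val q *ᵥ y) = m * Ef x y) ∧
      (∀ l ≠ p, GS (m : ℚ_[l]) (g.map (cp l))) ∧
      (∀ x ∈ Wp p, g *ᵥ x = nuA d π (d.cO a) *ᵥ nuA d π β *ᵥ x) ∧
      (∀ l : Pr, (l : ℕ) ∣ 2 * p → ∃ X : M8 ℤ_[l], g.map (cp l) =
        ((Algebra.norm ℤ a : ℤ) : ℚ_[l]) • (1 : M8 ℚ_[l]) + ((l : ℕ) : ℚ_[l]) • X.map (↑)) ∧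
      P.map (Int.castRingHom ℚ) ∣ d.f β * d.f (d.c a) - q.map (Int.castRingHom ℚ) ∧
      Function.Surjective g.mulVec ∧
      (∀ s : W, (∀ i, ‖cp p ((g *ᵥ s) i)‖ ≤ 1) → ∀ i, ‖cp p (s i)‖ ≤ 1) := by
  obtain ⟨G, hG⟩ := d.exists_cong h
  obtain ⟨m, hm⟩ := Int.eq_ofNat_of_zero_le hpos.le
  obtain ⟨q, hq⟩ : ∃ q : ℤ[X], q = C (Algebra.norm ℤ a) + C (((p : ℕ) : ℤ) ^ k0) *
    (C (2 * ((p : ℕ) : ℤ)) * G) := ⟨_, rfl⟩
  have hd : P.map (Int.castRingHom ℚ) ∣ d.f β * d.f (d.c a) - q.map (Int.castRingHom ℚ) := by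
    convert hG using 2
    rw [hq, ← mul_assoc, ← C_mul, Polynomial.map_add, Polynomial.map_mul, map_C, map_C, eq_intCast,
      eq_intCast, show ((p : ℕ) : ℤ) ^ k0 * (2 * (p : ℕ)) = 2 * ((p : ℕ) : ℤ) ^ (k0 + 1) by ring]
  have h1 : ∀ l ≠ p, (aeval (mA π) q).map (cp l) = d.nu ((π l).val.map ((↑) : ℤ_[l] → ℚ_[l])) β *
      d.nu ((π l).val.map ((↑) : ℤ_[l] → ℚ_[l])) (d.c a) := fun l hl => by
    rw [cm3b_cp, DF.nu, DF.nu, ← map_mul, aeval_of_dvd (H.root hl) hd]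
    exact (aeval_int_map PadicInt.Coe.ringHom _ q).symm
  have hmq : (m : ℚ) = Algebra.norm ℚ (β : E) * Algebra.norm ℚ (d.c a) := by
    rw [Algebra.norm_eq_of_algEquiv, ← Algebra.coe_norm_int, ← Algebra.coe_norm_int, mul_comm]
    exact_mod_cast hm.symm
  have hm0 : (m : ℚ) ≠ 0 := by
    have : (m : ℤ) ≠ 0 := hm ▸ hpos.ne'
    exact_mod_cast this
  have h2 : ∀ l ≠ p, GS (m : ℚ_[l]) ((aeval (mA π) q).map (cp l)) := fun l hl => by
    rw [h1 l hl, ← map_natCast (algebraMap ℚ ℚ_[l]), hmq, map_mul]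
    exact (gs_iff.2 (d.nu_sim (H.root hl) (gs_iff.1 (H.sim l hl)) _)).mul
      (gs_iff.2 (d.nu_sim (H.root hl) (gs_iff.1 (H.sim l hl)) _))
  have h3 : ∀ l : Pr, (l : ℕ) ∣ 2 * p → ∃ X : M8 ℤ_[l], aeval (π l).val q =
      ((Algebra.norm ℤ a : ℤ) : ℤ_[l]) • (1 : M8 ℤ_[l]) + ((l : ℕ) : ℤ_[l]) • X := by
    rintro l ⟨c, hc⟩
    refine ⟨aeval (π l).val (C (((p : ℕ) : ℤ) ^ k0 * c) * G), ?_⟩
    have : (2 * (p : ℕ) : ℤ) = (l : ℕ) * c := by exact_mod_cast hc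
    rw [hq, this]
    simp only [map_add, map_mul, aeval_C, Algebra.algebraMap_eq_smul_one, smul_mul_assoc, one_mul,
      Int.cast_smul_eq_zsmul, ← Int.cast_natCast (R := ℤ_[l]), smul_smul, mul_one, mul_smul_comm]
    congr 2
    ring
  obtain ⟨X, hX⟩ := h3 p (dvd_mul_left _ _)
  obtain ⟨u, hu⟩ := cm3b_unit (n := ((Algebra.norm ℤ a : ℤ) : ℤ_[p]))
    (cm_int_unit (cm_norm_cop hc) (dvd_mul_left _ _)) X
  rw [← hX] at hu
  have h4 : ∀ y : Vl p, (aeval (mA π) q).map (cp p) *ᵥ (u⁻¹).val.map (↑) *ᵥ y = y := fun y => by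
    rw [cm3b_cp, ← hu]; exact cm3b_inv u y
  have h5 : ∀ y : Vl p, (u⁻¹).val.map (↑) *ᵥ (aeval (mA π) q).map (cp p) *ᵥ y = y := fun y => by
    rw [cm3b_cp, ← hu]; exact cm3b_inv u⁻¹ y
  have h6 : ∀ x ∈ Wp p, cpv p x = 0 := fun x hx => funext fun i => hx i p rfl
  refine ⟨_, m, q, _, hq, rfl, hm.symm, fun l hl x y => Subtype.ext ?_, h2,
    fun x hx => BO.cpv_ext fun l => ?_, fun l hl => ?_, hd, fun w => ?_, fun s hs i => ?_⟩
  · have := h2 l hl (fun i => x i) fun i => y i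
    rw [cm3b_cp] at this
    refine (Ef_map _ _ PadicInt.Coe.ringHom).trans (Eq.trans ?_ (this.trans ?_))
    · exact congrArg₂ _ (funext fun i => RingHom.map_mulVec PadicInt.Coe.ringHom _ _ i)
        (funext fun i => RingHom.map_mulVec PadicInt.Coe.ringHom _ _ i)
    · rw [PadicInt.coe_mul, PadicInt.coe_natCast]
      exact congrArg _ (Ef_map _ _ PadicInt.Coe.ringHom).symm
  · rw [cm_cp_mulVec, cm_cp_mulVec, cm_cp_mulVec]
    by_cases hl : l = p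
    · subst hl; rw [h6 x hx, mulVec_zero, mulVec_zero, mulVec_zero]
    · rw [h1 l hl, mulVec_mulVec, nuA_eq, nuA_eq, cp_nu, cp_nu, d.nu_comm, d.cO_coe]
  · obtain ⟨Y, hY⟩ := h3 l hl
    refine ⟨Y, ?_⟩
    rw [cm3b_cp, hY]
    ext i j
    by_cases e : i = j <;> simp [e]
  · refine ⟨(m : ℚ)⁻¹ • nuA d π a *ᵥ nuA d π (d.cO β) *ᵥ (w - sgv p (cpv p w)) +
      sgv p ((u⁻¹).val.map (↑) *ᵥ cpv p w), BO.cpv_ext fun l => ?_⟩
    have e1 : ∀ x y : W, cpv l (x + y) = cpv l x + cpv l y := fun x y =>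
      funext fun i => map_add _ _ _
    have e2 : ∀ x y : W, cpv l (x - y) = cpv l x - cpv l y := fun x y =>
      funext fun i => map_sub _ _ _
    have e3 : ∀ (c : ℚ) (x : W), cpv l (c • x) = c • cpv l x := fun c x =>
      funext fun i => map_smul (cp l) c (x i)
    rw [cm_cp_mulVec, e1, e3, cm_cp_mulVec, cm_cp_mulVec, e2]
    by_cases hl : l = p
    · subst hl
      rw [BO.cpv_sgv, BO.cpv_sgv, sub_self, mulVec_zero, mulVec_zero, smul_zero, zero_add, h4]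
    · rw [BO.cpv_sgv_ne hl, BO.cpv_sgv_ne hl, sub_zero, add_zero, h1 l hl, nuA_eq, nuA_eq, cp_nu,
        cp_nu, mulVec_smul, mulVec_mulVec, mulVec_mulVec, d.cO_coe, mul_assoc (d.nu _ _),
        d.nu_comm _ (d.c a), d.nu_cj (H.root hl), ← Algebra.commutes, mul_assoc,
        d.nu_cj (H.root hl), ← map_mul, Algebra.algebraMap_eq_smul_one, smul_mulVec, one_mulVec,
        smul_smul, hmq, Algebra.norm_eq_of_algEquiv, mul_comm (Algebra.norm ℚ (a : E)),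
        inv_mul_cancel₀ (by rwa [hmq, Algebra.norm_eq_of_algEquiv] at hm0), one_smul]
  · have := cm3b_int (u⁻¹).val (y := cpv p (aeval (mA π) q *ᵥ s)) hs i
    rwa [cm_cp_mulVec, h5] at this

end Pool.Agent.MT
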