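import Pool.Agent.Lib.MP_d61fbb_ag.MT.GN1
import Pool.Agent.Lib.MP_d61fbb_ag.MT.CIn

/-! The interpolation estimate for points of the adelic group. -/

set_option autoImplicit false

noncomputable section

namespace Pool.Agent.MT

open Matrix Polynomial Sum NumberField
open Pool.Agent.Lib.MP_696deb_nt.B2 (Qbar Gam Plc jC)

section norm
variable {E : Type} [Field E] [NumberField E]

/-- the norm of an integer prime to `p` is prime to `p` -/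
theorem gi_not_dvd {p : ℕ} (hp : p.Prime) {a : 𝓞 E} (h : IsCoprime a (p : 𝓞 E)) :
    ¬ (p : ℤ) ∣ Algebra.norm ℤ a := by
  classical
  have := Fact.mk hp
  let b := Module.Free.chooseBasis ℤ (𝓞 E)
  let φ := (Int.castRingHom (ZMod p)).mapMatrix.comp (Algebra.leftMulMatrix b).toRingHom
  obtain ⟨u, v, huv⟩ := h
  have h1 := congrArg φ huv
  rw [map_add, map_mul, map_mul, map_natCast, map_one, ← Matrix.diagonal_natCast,
    ZMod.natCast_self, diagonal_zero, mul_zero, add_zero] at h1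
  have h2 := congrArg det h1
  rw [det_mul, det_one] at h2
  rw [← ZMod.intCast_zmod_eq_zero_iff_dvd, Algebra.norm_eq_matrix_det b]
  have h3 : det (φ a) = ((Algebra.leftMulMatrix b a).det : ZMod p) :=
    ((Int.castRingHom (ZMod p)).map_det _).symm
  rw [← h3]
  exact right_ne_zero_of_mul_eq_one h2

theorem gi_ne_zero {p : ℕ} (hp : p.Prime) {a : 𝓞 E} (h : IsCoprime a (p : 𝓞 E)) : a ≠ 0 :=
  fun e => gi_not_dvd hp h (by rw [e, Algebra.norm_zero]; exact dvd_zero _)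

theorem gi_norm_one {p : Pr} {a : 𝓞 E} (h : IsCoprime a ((p : ℕ) : 𝓞 E)) :
    ‖((Algebra.norm ℚ (a : E) : ℚ) : ℚ_[p])‖ = 1 := by
  rw [← Algebra.coe_norm_int, Rat.cast_intCast]
  exact le_antisymm (Padic.norm_int_le_one _)
    (not_lt.1 fun e => gi_not_dvd p.2 h (Padic.norm_intCast_lt_one_iff.1 e))

/-- norms from the sextic field are positive -/
theorem DF.gi_norm_pos {P : ℤ[X]} {p : ℕ} (d : DF P p E) (hP : Good P p) {a : E} (ha : a ≠ 0) :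
    0 < Algebra.norm ℚ a := by
  obtain ⟨w, u, h⟩ := hP.pres
  obtain ⟨-, φ, -, -, h1⟩ := d.emb ℂ w u h
  have h2 : ((Algebra.norm ℚ a : ℚ) : ℝ) = ∏ i, Complex.normSq (φ i a) := by
    refine Complex.ofReal_injective ?_
    rw [Complex.ofReal_ratCast, h1, Complex.ofReal_prod]
    exact Finset.prod_congr rfl fun i _ => by rw [map_mul, d.cj, Complex.mul_conj]
  have h3 : (0 : ℝ) < (Algebra.norm ℚ a : ℚ) :=
    h2 ▸ Finset.prod_pos fun i _ => Complex.normSq_pos.2 ((_root_.map_ne_zero _).2 ha)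
  exact_mod_cast h3

/-- positive rational numbers with the same size at all primes are equal -/
theorem gi_rat_eq {x y : ℚ} (hx : 0 < x) (hy : 0 < y)
    (h : ∀ l : Pr, ‖(x : ℚ_[l])‖ = ‖(y : ℚ_[l])‖) : x = y := by
  have key : ∀ {x y : ℚ}, 0 < x → 0 < y → (∀ l : Pr, ‖(x : ℚ_[l])‖ = ‖(y : ℚ_[l])‖) → y ≤ x :=
    fun {x y} hx hy h => by
      obtain ⟨n, hn⟩ := int_of_padic_norm (x / y) fun l => by
        rw [Rat.cast_div, norm_div, h, div_self (norm_ne_zero_iff.2 (Rat.cast_ne_zero.2 hy.ne'))]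
      have h1 : (0 : ℚ) < n := hn ▸ div_pos hx hy
      have h2 : (1 : ℚ) ≤ n := by exact_mod_cast (show 0 < n by exact_mod_cast h1)
      exact (one_le_div hy).1 (hn ▸ h2)
  exact le_antisymm (key hy hx fun l => (h l).symm) (key hx hy h)

end norm

theorem gi_smul_mulVec (c : ℚ) (g : M8 AF) (x : W) : (c • g) *ᵥ x = c • g *ᵥ x :=
  smul_mulVec c g x

/-- the multiplier of a polarised lattice -/
theorem Pt.gi_norm {N : ℕ} {c : ℚ} {g : GG} (h : Pt N (c • gm g)) (l : Pr) :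
    ‖(((N : ℚ) * c ^ 2 : ℚ) : ℚ_[l])‖ * ‖cp l (mulG g)‖ = 1 := by
  obtain ⟨u, hu⟩ := h.sim
  have h1 := hu (Pi.single (inl 0) 1) (Pi.single (inr 0) 1)
  rw [gi_smul_mulVec, gi_smul_mulVec, ← algebraMap_smul AF c, ← algebraMap_smul AF c,
    Ef_smul_left, Ef_smul_right, mulG_spec, gn_Ef_base, mul_one, mul_one] at h1
  have h2 := congrArg (fun x => ‖cp l x‖) h1
  simp only [map_mul, map_natCast, AlgHom.commutes, gn_cp_zA, eq_ratCast] at h2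
  have h3 : ‖((u : ∀ l : Pr, ℤ_[l]) l : ℚ_[l])‖ = 1 :=
    PadicInt.isUnit_iff.1 (u.isUnit.map (Pi.evalMonoidHom (fun l : Pr => ℤ_[l]) l))
  rw [← h3, ← h2, ← norm_mul]
  congr 1
  push_cast
  ring

theorem Pt.gi_pos {N : ℕ} {c : ℚ} {g : GG} (h : Pt N (c • gm g)) : 0 < N ∧ c ≠ 0 := by
  have h1 := h.gi_norm ⟨2, Nat.prime_two⟩
  refine ⟨h.odd.pos, fun e => ?_⟩
  simp [e] at h1

theorem gi_Wp {q : ℕ} (g : M8 AF) {x : W} (hx : x ∈ Wp q) : g *ᵥ x ∈ Wp q := fun i l hl => by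
  simp only [mulVec, dotProduct, map_sum, map_mul, hx _ l hl, mul_zero, Finset.sum_const_zero]

theorem gi_sgv_mem {l p : Pr} (h : l ≠ p) (x : Vl l) : sgv l x ∈ Wp p := fun i l' hl => by
  obtain rfl : l' = p := Subtype.ext hl
  exact gn_cp_sg_ne h.symm _

section
variable {p : Pr} {π : ∀ l : Pr, GL (I2 4) ℤ_[l]} {P : ℤ[X]} {E : Type} [Field E] [NumberField E]
  (d : DF P p E) (H : FrD p π P) {a β : 𝓞 E} {N N' : ℕ} {c c' : ℚ} {g : GG}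

theorem gi_nuG_conj (ha : a ≠ 0) (hβ : β ≠ 0) (g : GG) :
    nuG d H a * (nuG d H β * (nuG d H a)⁻¹ * g) = nuG d H β * g := by
  rw [← mul_assoc, ← mul_assoc, ← nuG_mul d H ha hβ, mul_comm a, nuG_mul d H hβ ha,
    mul_inv_cancel_right]

/-- the points of a partner -/
theorem gi_point (ha : a ≠ 0) (hβ : β ≠ 0) (hc : c ≠ 0) {x : W} (hx : x ∈ Wp p) :
    nuA d π a *ᵥ (c' • gm (nuG d H β * (nuG d H a)⁻¹ * g)) *ᵥ x =
      (c' / c) • nuA d π β *ᵥ (c • gm g) *ᵥ x := by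
  rw [← gm_nuG_mulVec d H ha (gi_Wp _ hx), ← gm_nuG_mulVec d H hβ (gi_Wp _ hx), gi_smul_mulVec,
    gi_smul_mulVec, mulVec_smul, mulVec_smul, mulVec_mulVec, mulVec_mulVec, ← map_mul, ← map_mul,
    gi_nuG_conj d H ha hβ, smul_smul, div_mul_cancel₀ _ hc]

/-- the lattice of a partner -/
theorem gi_lat (ha : a ≠ 0) (hβ : β ≠ 0) (hc : c ≠ 0)
    (h' : IsUnit (c' • gm (nuG d H β * (nuG d H a)⁻¹ * g))) {x y : W} (hx : x ∈ Wp p)
    (hy : y ∈ Wp p) (e : nuA d π a *ᵥ (c' • gm (nuG d H β * (nuG d H a)⁻¹ * g)) *ᵥ y =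
      (c' / c) • nuA d π β *ᵥ (c • gm g) *ᵥ x) : x = y := by
  rw [← gi_point d H ha hβ hc hx, ← gm_nuG_mulVec d H ha (gi_Wp _ hx),
    ← gm_nuG_mulVec d H ha (gi_Wp _ hy), mulVec_mulVec, mulVec_mulVec] at e
  obtain ⟨u, hu⟩ := (gm_isUnit (nuG d H a)).mul h'
  have h1 := congrArg (fun z => (u⁻¹).val *ᵥ z) e
  simpa only [← hu, mulVec_mulVec, Units.inv_mul, one_mulVec] using h1.symm

/-- the level of a partner -/
theorem gi_level (hP : Good P p) (ha : IsCoprime a ((p : ℕ) : 𝓞 E))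
    (hβ : IsCoprime β ((p : ℕ) : 𝓞 E)) (h : Pt N (c • gm g))
    (h' : Pt N' (c' • gm (nuG d H β * (nuG d H a)⁻¹ * g))) :
    (N' : ℚ) * (c' / c) ^ 2 * Algebra.norm ℚ (β : E) = N * Algebra.norm ℚ (a : E) := by
  have ha0 := gi_ne_zero p.2 ha
  have hβ0 := gi_ne_zero p.2 hβ
  have pa := d.gi_norm_pos hP (RingOfIntegers.coe_ne_zero_iff.2 ha0)
  have pβ := d.gi_norm_pos hP (RingOfIntegers.coe_ne_zero_iff.2 hβ0)
  obtain ⟨hN, hc⟩ := h.gi_pos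
  obtain ⟨hN', hc'⟩ := h'.gi_pos
  have key : (N' : ℚ) * c' ^ 2 * Algebra.norm ℚ (β : E) = N * c ^ 2 * Algebra.norm ℚ (a : E) := by
    refine gi_rat_eq (by positivity) (by positivity) fun l => ?_
    have h1 := h.gi_norm l
    have h2 := h'.gi_norm l
    have h3 := congrArg (fun x : GG => ‖cp l (mulG x)‖) (gi_nuG_conj d H ha0 hβ0 g)
    have h4 : ∀ b : 𝓞 E, IsCoprime b ((p : ℕ) : 𝓞 E) →
        ‖cp l (mulG (nuG d H b))‖ = ‖((Algebra.norm ℚ (b : E) : ℚ) : ℚ_[l])‖ := fun b hb => by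
      rw [mulG_nuG d H (gi_ne_zero p.2 hb)]
      by_cases hl : l = p
      · subst hl
        rw [cp_off_self, norm_one, gi_norm_one hb]
      · rw [cp_off_ne hl, AlgHom.commutes, eq_ratCast]
    have h5 : ∀ x y : GG, ‖cp l (mulG (x * y))‖ = ‖cp l (mulG x)‖ * ‖cp l (mulG y)‖ :=
      fun x y => by rw [map_mul, Units.val_mul, map_mul, norm_mul]
    rw [h5 (nuG d H a), h5 (nuG d H β) g, h4 a ha, h4 β hβ] at h3
    rw [Rat.cast_mul, Rat.cast_mul _ (Algebra.norm ℚ _), norm_mul, norm_mul]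
    generalize ‖cp l (mulG (nuG d H β * (nuG d H a)⁻¹ * g))‖ = m' at *
    generalize ‖cp l (mulG g)‖ = m at *
    generalize ‖(((N : ℚ) * c ^ 2 : ℚ) : ℚ_[l])‖ = s at *
    generalize ‖(((N' : ℚ) * c' ^ 2 : ℚ) : ℚ_[l])‖ = s' at *
    generalize ‖((Algebra.norm ℚ (a : E) : ℚ) : ℚ_[l])‖ = A at *
    generalize ‖((Algebra.norm ℚ (β : E) : ℚ) : ℚ_[l])‖ = B at *
    linear_combination (-(s' * B)) * h1 + s * A * h2 - s * s' * h3
  rw [div_pow]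
  field_simp
  linear_combination key

end

/-- the quartic form as a polynomial, with signs -/
def qP {J : Type} {r : ℕ} (z : Fin r → ℤ) (ch : Fin r → Fin 4 → J) (s : J → ℤ) :
    MvPolynomial J ℤ := ∑ i, MvPolynomial.C (z i * ∏ k, s (ch i k)) * ∏ k, MvPolynomial.X (ch i k)

theorem qP_hom {J : Type} {r : ℕ} (z : Fin r → ℤ) (ch : Fin r → Fin 4 → J) (s : J → ℤ) :
    (qP z ch s).IsHomogeneous 4 :=
  MvPolynomial.IsHomogeneous.sum _ _ _ fun i _ => MvPolynomial.IsHomogeneous.C_mul (by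
    simpa using MvPolynomial.IsHomogeneous.prod Finset.univ (fun k => MvPolynomial.X (ch i k))
      (fun _ => 1) fun k _ => MvPolynomial.isHomogeneous_X ℤ (ch i k)) _

theorem qP_eval {J : Type} {r : ℕ} (z : Fin r → ℤ) (ch : Fin r → Fin 4 → J) (s : J → ℤ)
    (F : J → Qbar) :
    jC (MvPolynomial.aeval F (qP z ch s)) = qv z ch fun j => s j * jC (F j) := by
  simp only [qP, qv, map_sum, map_mul, map_prod, MvPolynomial.aeval_X, Finset.prod_mul_distrib,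
    eq_intCast, map_intCast, mul_assoc]

section
variable {τ : Matrix (Fin 4) (Fin 4) ℂ} {K : IntermediateField ℚ ℂ} {M : MumfordType τ K}
  {A : AR M} {v : Frb A} {P : ℤ[X]} {E : Type} [Field E] [NumberField E]

/-- The conclusion of `CM` for the modulus `f`. -/
def CMAt (v : Frb A) (d : DF P v.p E) (cj : 𝓞 E ≃+* 𝓞 E) (f : ℕ) : Prop :=
  ∀ (N : ℕ) (h : M8 AF) (F : W → Qbar), Pt N h → StdAt v.p h → A.S.IsVec N h F →
    (∀ x, v.w.V (F x) ≤ 1) →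
  ∀ (k : ℕ) (a β : Fin k → 𝓞 E) (r : Fin k → ℚ) (N' : Fin k → ℕ) (h' : Fin k → M8 AF)
    (F' : Fin k → W → Qbar),
    (∀ i, IsCoprime (a i) (f : 𝓞 E) ∧ (f : 𝓞 E) ∣ β i - a i) →
    (∀ i, Pt (N' i) (h' i) ∧ StdAt v.p (h' i) ∧ A.S.IsVec (N' i) (h' i) (F' i) ∧ F' i ≠ 0) →
    (∀ i, (N' i : ℚ) * r i ^ 2 * Algebra.norm ℚ (β i : E) = N * Algebra.norm ℚ (a i : E)) →
    (∀ i, ∀ x ∈ Wp v.p, ∀ y ∈ Wp v.p, nuA d (M.ρ v.φ) (a i) *ᵥ h' i *ᵥ y =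
      r i • nuA d (M.ρ v.φ) (β i) *ᵥ h *ᵥ x → (x ∈ L0 ↔ y ∈ L0)) →
    (∀ i i', i ≠ i' → Dif cj (a i) (β i) (a i') (β i')) →
  ∀ (J : Type) (Q : MvPolynomial J ℤ) (n : ℕ) (x : J → W) (x' : Fin k → J → W),
    Q.IsHomogeneous n → (∀ j, x j ∈ Wp v.p) → (∀ i j, x' i j ∈ Wp v.p) →
    (∀ i j, nuA d (M.ρ v.φ) (a i) *ᵥ x' i j = r i • nuA d (M.ρ v.φ) (β i) *ᵥ x j) →
    (∀ i, MvPolynomial.aeval (fun j => F' i (x' i j)) Q = 0) →
    v.w.V (MvPolynomial.aeval (fun j => F (x j)) Q) ≤ v.w.V v.w.p ^ k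

theorem CM.at (h : CM) (hτ : Sieg τ) (hP : IsCh v.p (M.ρ v.φ) P) (hG : Good P v.p)
    (hO : Ordi v.p P) (d : DF P v.p E) {cj : 𝓞 E ≃+* 𝓞 E} (hcj : ∀ a, (cj a : E) = d.c a) :
    ∃ f : ℕ, f ≠ 0 ∧ CMAt v d cj f := h τ K M A hτ v P hP hG hO E d cj hcj

/-- The interpolation estimate on the adelic group. -/
theorem CMAt.interp {d : DF P v.p E} {cj : 𝓞 E ≃+* 𝓞 E} {f₀ f : ℕ} (hC : CMAt v d cj f₀)
    (H : FrD v.p (M.ρ v.φ) P) (hG : Good P v.p) (hf : f₀ ∣ f) (hp : (v.p : ℕ) ∣ f)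
    {g : GG} {N : ℕ} {c : ℚ} {F : W → Qbar} (h1 : Pt N (c • gm g)) (h2 : StdAt v.p (c • gm g))
    (h3 : A.S.IsVec N (c • gm g) F) (h4 : ∀ x, v.w.V (F x) ≤ 1)
    {n : ℕ} {a β : Fin n → 𝓞 E} {N' : Fin n → ℕ} {c' : Fin n → ℚ} {F' : Fin n → W → Qbar}
    (h5 : ∀ i, IsCoprime (a i) (f : 𝓞 E) ∧ (f : 𝓞 E) ∣ β i - a i)
    (h6 : ∀ i, Pt (N' i) (c' i • gm (nuG d H (β i) * (nuG d H (a i))⁻¹ * g)) ∧
      StdAt v.p (c' i • gm (nuG d H (β i) * (nuG d H (a i))⁻¹ * g)) ∧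
      A.S.IsVec (N' i) (c' i • gm (nuG d H (β i) * (nuG d H (a i))⁻¹ * g)) (F' i) ∧ F' i ≠ 0)
    (h7 : ∀ i i', i ≠ i' → Dif cj (a i) (β i) (a i') (β i'))
    {J : Type} {r : ℕ} (z : Fin r → ℤ) (ch : Fin r → Fin 4 → J) (s : J → ℤ) {y : J → W}
    (hy : ∀ j, y j ∈ Wp v.p)
    (h8 : ∀ i, qv z ch (fun j => s j *
      jC (F' i ((c' i • gm (nuG d H (β i) * (nuG d H (a i))⁻¹ * g)) *ᵥ y j))) = 0) :
    szC jC v.w (qv z ch fun j => s j * jC (F ((c • gm g) *ᵥ y j))) ≤ ((v.p : ℕ) : ℝ)⁻¹ ^ n := by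
  have ha : ∀ i, IsCoprime (a i) (((v.p : ℕ) : ℕ) : 𝓞 E) := fun i =>
    (h5 i).1.of_isCoprime_of_dvd_right (Nat.cast_dvd_cast hp)
  have hβ : ∀ i, IsCoprime (β i) (((v.p : ℕ) : ℕ) : 𝓞 E) := fun i => by
    obtain ⟨t, ht⟩ := (Nat.cast_dvd_cast hp).trans (h5 i).2
    rw [eq_add_of_sub_eq' ht]
    exact (ha i).add_mul_left_left t
  have ha0 := fun i => gi_ne_zero v.p.2 (ha i)
  have hβ0 := fun i => gi_ne_zero v.p.2 (hβ i)
  have hc := h1.gi_pos.2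
  have key := hC N _ F h1 h2 h3 h4 n a β (fun i => c' i / c) N' _ F'
    (fun i => ⟨(h5 i).1.of_isCoprime_of_dvd_right (Nat.cast_dvd_cast hf),
      (Nat.cast_dvd_cast hf).trans (h5 i).2⟩) h6
    (fun i => gi_level d H hG (ha i) (hβ i) h1 (h6 i).1)
    (fun i x hx y hy e => by rw [gi_lat d H (ha0 i) (hβ0 i) hc (h6 i).1.unit hx hy e]) h7
    J (qP z ch s) 4 (fun j => (c • gm g) *ᵥ y j)
    (fun i j => (c' i • gm (nuG d H (β i) * (nuG d H (a i))⁻¹ * g)) *ᵥ y j) (qP_hom z ch s)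
    (fun j => gi_Wp _ (hy j)) (fun i j => gi_Wp _ (hy j))
    (fun i j => gi_point d H (ha0 i) (hβ0 i) hc (hy j))
    (fun i => (map_eq_zero jC).1 (by rw [qP_eval, h8]))
  rw [← qP_eval z ch s fun j => F ((c • gm g) *ᵥ y j), szC_j, ← v.hp, ← abv_p, abv_apply,
    abv_apply]
  exact_mod_cast key

end

end Pool.Agent.MT
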