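import Pool.Agent.Lib.MP_d61fbb_ag.MT.CMu
import Pool.Agent.Lib.MP_d61fbb_ag.MT.GI1

/-! The bridge to block C: assembly. -/

set_option autoImplicit false

noncomputable section

namespace Pool.Agent.MT

open Matrix Polynomial Sum NumberField
open Pool.Agent.Lib.MP_696deb_nt.B2 (Qbar Gam Plc jC)

theorem cm4_hom {J : Type} {Q : MvPolynomial J ℤ} {n : ℕ} (h : Q.IsHomogeneous n)
    (c : Qbar) (y : J → Qbar) :
    MvPolynomial.aeval (fun j => c * y j) Q = c ^ n * MvPolynomial.aeval y Q := by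
  rw [MvPolynomial.aeval_def, MvPolynomial.aeval_def, MvPolynomial.eval₂_eq, MvPolynomial.eval₂_eq,
    Finset.mul_sum]
  refine Finset.sum_congr rfl fun m hm => ?_
  have h1 : ∑ i ∈ m.support, m i = n := by
    simpa [Finsupp.weight_apply, Finsupp.sum] using h (MvPolynomial.mem_support_iff.1 hm)
  simp only [mul_pow, Finset.prod_mul_distrib, Finset.prod_pow_eq_pow_sum, h1]
  ring

theorem cm4_le (w : Plc) {J : Type} (Q : MvPolynomial J ℤ) {y : J → Qbar}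
    (hy : ∀ j, w.V (y j) ≤ 1) : w.V (MvPolynomial.aeval y Q) ≤ 1 := by
  induction Q using MvPolynomial.induction_on with
  | C a => exact w.V_le_one_of_isIntegral (by rw [MvPolynomial.aeval_C]; exact isIntegral_algebraMap)
  | add p q hp hq => rw [map_add]; exact w.V.map_add_le hp hq
  | mul_X p j hp => rw [map_mul, map_mul, MvPolynomial.aeval_X]; exact mul_le_one' hp (hy j)

theorem cm4_eval {J : Type} (Q : MvPolynomial J ℤ) (y : J → Qbar) :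
    MvPolynomial.eval y (Q.map (Int.castRingHom Qbar)) = MvPolynomial.aeval y Q := by
  rw [MvPolynomial.eval_map, MvPolynomial.aeval_def, RingHom.ext_int (Int.castRingHom Qbar)]

section
variable {E : Type} [Field E] [NumberField E] {p : Pr}

omit [NumberField E] in
theorem cm4_int (j : E →+* ℚ_[p]) (a : 𝓞 E) : ‖j a‖ ≤ 1 := by
  obtain ⟨y, hy⟩ := (IsIntegrallyClosed.isIntegral_iff (R := ℤ_[p])).1
    (a.isIntegral_coe.map j.toIntAlgHom).tower_top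
  exact (show (y : ℚ_[p]) = j a from hy) ▸ y.2

omit [NumberField E] in
theorem cm4_unit (j : E →+* ℚ_[p]) {a : 𝓞 E} {f : ℕ} (h : IsCoprime a (f : 𝓞 E))
    (hp : (p : ℕ) ∣ f) : ‖j a‖ = 1 := by
  obtain ⟨u, w, e⟩ := h
  refine le_antisymm (cm4_int j a) (not_lt.1 fun h1 => ?_)
  have h2 := congrArg (fun x : 𝓞 E => ‖j (algebraMap (𝓞 E) E x)‖) e
  simp only [map_add, map_mul, map_natCast, map_one, norm_one] at h2
  refine h2.not_lt ((IsUltrametricDist.norm_add_le_max _ _).trans_lt (max_lt ?_ ?_))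
  · rw [norm_mul]
    exact mul_lt_one_of_nonneg_of_lt_one_right (cm4_int j u) (norm_nonneg _) h1
  · rw [norm_mul]
    exact mul_lt_one_of_nonneg_of_lt_one_right (cm4_int j w) (norm_nonneg _)
      (Padic.norm_natCast_lt_one_iff.2 hp)

/-- the type norm of a quotient that is congruent to one is integral -/
theorem cm4_nu_int {P : ℤ[X]} {q : ℕ} (d : DF P q E) {x : M4 ℚ_[p]} (hx : ∀ i j, ‖x i j‖ ≤ 1)
    (hP : aeval x (P.map (Int.castRingHom ℚ)) = 0) {a β : 𝓞 E} {f : ℕ}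
    (h : IsCoprime a (f : 𝓞 E)) (hp : (p : ℕ) ∣ f) (hD : ((d.D ^ 2 * 1 : ℤ) : 𝓞 E) ∣ β - a)
    {r : ℚ} (hr : ‖(r : ℚ_[p])‖ = 1) (i j : Fin 4) : ‖(r • d.nu x ((β : E) / a)) i j‖ ≤ 1 := by
  obtain ⟨G, hG⟩ := d.nu_cong hD
  have h1 := cm_norm_unit h hp
  have h0 : (a : E) ≠ 0 := fun e => by simp [e] at h1
  have h2 : (Algebra.norm ℚ (a : E)) • d.nu x ((β : E) / a) = d.nu x β * d.nu x (d.c a) := by
    rw [Algebra.smul_def, Algebra.commutes, ← d.nu_cj hP, ← mul_assoc, ← d.nu_mul hP,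
      div_mul_cancel₀ _ h0]
  let y : M4 ℤ_[p] := of fun i j => ⟨x i j, hx i j⟩
  have h3 : x = y.map PadicInt.Coe.ringHom := rfl
  have h5 := aeval_int_map PadicInt.Coe.ringHom y G
  have h6 := map_intCast (PadicInt.Coe.ringHom (p := p)).mapMatrix (α := M4 ℤ_[p])
    (Algebra.norm ℤ a)
  rw [hG _ x hP, one_smul, ← h6, h3, h5, ← h3] at h2
  have h4 := congrArg (fun z : M4 ℚ_[p] => ‖z i j‖) h2
  simp only [Matrix.smul_apply, Rat.smul_def, norm_mul, h1, hr, one_mul] at h4 ⊢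
  rw [h4, Matrix.add_apply]
  exact padic_add_le (PadicInt.norm_le_one _) (PadicInt.norm_le_one _)

/-- an element of the adelic group as an automorphism of the vectors prime to `p` -/
def cm4_al (q : ℕ) (g : GG) {r : ℚ} (hr : r ≠ 0) : Wp q ≃+ Wp q where
  toFun z := ⟨r • gm g *ᵥ z, Wp_qsmul r (gi_Wp _ z.2)⟩
  invFun z := ⟨r⁻¹ • gm g⁻¹ *ᵥ z, Wp_qsmul _ (gi_Wp _ z.2)⟩
  left_inv z := Subtype.ext (by
    change r⁻¹ • gm g⁻¹ *ᵥ r • gm g *ᵥ (z : W) = z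
    rw [mulVec_smul, mulVec_mulVec, ← map_mul, inv_mul_cancel, map_one, one_mulVec,
      inv_smul_smul₀ hr])
  right_inv z := Subtype.ext (by
    change r • gm g *ᵥ r⁻¹ • gm g⁻¹ *ᵥ (z : W) = z
    rw [mulVec_smul, mulVec_mulVec, ← map_mul, mul_inv_cancel, map_one, one_mulVec,
      smul_inv_smul₀ hr])
  map_add' x y := Subtype.ext (by
    change r • gm g *ᵥ ((x : W) + y) = r • gm g *ᵥ (x : W) + r • gm g *ᵥ (y : W)
    rw [mulVec_add, smul_add])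

theorem cm4_al_apply (q : ℕ) (g : GG) {r : ℚ} (hr : r ≠ 0) (z : Wp q) :
    (cm4_al q g hr z : W) = r • gm g *ᵥ z := rfl

variable {π : ∀ l : Pr, GL (I2 4) ℤ_[l]} {P : ℤ[X]} (d : DF P p E) (H : FrD p π P) {a β : 𝓞 E}

theorem cm4_al_iff (ha : a ≠ 0) (hβ : β ≠ 0) {r : ℚ} (hr : r ≠ 0) (z : Wp p) {z' : W}
    (hz : z' ∈ Wp p) : nuA d π a *ᵥ z' = r • nuA d π β *ᵥ z ↔
      z' = cm4_al p ((nuG d H a)⁻¹ * nuG d H β) hr z := by
  rw [cm4_al_apply, ← gm_nuG_mulVec d H ha hz, ← gm_nuG_mulVec d H hβ z.2]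
  constructor
  · intro e
    rw [map_mul, ← mulVec_mulVec, ← mulVec_smul, ← e, mulVec_mulVec, ← map_mul, inv_mul_cancel,
      map_one, one_mulVec]
  · rintro rfl
    rw [mulVec_smul, mulVec_mulVec, ← map_mul, mul_inv_cancel_left]

end

variable {τ : Matrix (Fin 4) (Fin 4) ℂ} {K : IntermediateField ℚ ℂ} {M : MumfordType τ K}
  {A : AR M} {v : Frb A}

/-- normalisation -/
theorem cm4_norm (hL : LAT) (hτ : Sieg τ) {N : ℕ} {h : M8 AF} {F : W → Qbar} (h1 : Pt N h)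
    (h2 : StdAt v.p h) (h3 : A.S.IsVec N h F) (h4 : F ≠ 0) :
    ∃ (x₀ : W) (G : W → Qbar), F x₀ ≠ 0 ∧ NPt v N h G ∧ ∀ x, F x = F x₀ * G x := by
  obtain ⟨x₀, hx, hle⟩ := hL τ K M A hτ v N F h3.mem
  have h0 : F x₀ ≠ 0 := fun e => h4 (funext fun x => by
    simpa [e] using hle x)
  refine ⟨x₀, (F x₀)⁻¹ • F, h0, ⟨h1, h2, ⟨Submodule.smul_mem _ _ h3.mem, fun t ht ht' => ?_⟩,
    fun x => ?_, x₀, hx, inv_mul_cancel₀ h0⟩, fun x => (mul_inv_cancel_left₀ h0 _).symm⟩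
  · rw [gx_Rt_smul, h3.inv t ht ht', smul_comm]
  · rw [Pi.smul_apply, smul_eq_mul, map_mul, map_inv₀,
      inv_mul_le_iff₀ (pos_iff_ne_zero.2 ((_root_.map_ne_zero _).2 h0)), mul_one]
    exact hle x

theorem cm4_Phi (g : M8 ℚ_[v.p]) (N : ℕ) (F : W → Qbar) (α : Wp v.p ≃+ Wp v.p)
    (B B' : M4 ℚ_[v.p]) (a : Wp v.p) (x : Fin 4 → ℚ_[v.p]) :
    Phi v g N F α B B' a x 0 = F (α a + sgv v.p (g *ᵥ Sum.elim (B *ᵥ x) 0)) := by
  rw [Phi, dotProduct_zero, zero_div, AddChar.map_zero_eq_one, one_mul, mulVec_zero, smul_zero]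

theorem cm4_Phi0 (g : M8 ℚ_[v.p]) (N : ℕ) (F : W → Qbar) (α : Wp v.p ≃+ Wp v.p)
    (B B' : M4 ℚ_[v.p]) (a : Wp v.p) : Phi v g N F α B B' a 0 0 = F (α a) := by
  rw [cm4_Phi, mulVec_zero, Sum.elim_zero_zero, mulVec_zero,
    show sgv v.p 0 = 0 from funext fun _ => map_zero (sg v.p), add_zero]

variable {P : ℤ[X]} {E : Type} [Field E] [NumberField E] {d : DF P v.p E}
  {V0 : Submodule ℚ_[v.p] (Vl v.p)} (ad : Adp v V0 d)

theorem Adp.cm4_mem {a β : E} (ha : a ≠ 0) (r : ℚ) (w : Fin 4 → ℚ_[v.p]) :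
    aeval (v.rp v.φ) (d.f a) *ᵥ ad.g *ᵥ Sum.elim ((r • d.nu ad.a (β / a)) *ᵥ w) 0 -
      r • aeval (v.rp v.φ) (d.f β) *ᵥ ad.g *ᵥ Sum.elim ((1 : M4 ℚ_[v.p]) *ᵥ w) 0 ∈ V0 := by
  have h1 := ad.poly (d.f a) ((r • d.nu ad.a (β / a)) *ᵥ w)
  have h2 := V0.smul_of_tower_mem r (ad.poly (d.f β) w)
  have h3 : aeval ad.a (d.f a) *ᵥ (r • d.nu ad.a (β / a)) *ᵥ w = r • aeval ad.a (d.f β) *ᵥ w := by
    change d.nu ad.a a *ᵥ _ = r • d.nu ad.a β *ᵥ w
    rw [smul_mulVec, mulVec_smul, mulVec_mulVec, ← d.nu_mul ad.aP, mul_div_cancel₀ _ ha]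
  have h4 : ∀ x : Fin 4 → ℚ_[v.p], Sum.elim (r • x) (0 : Fin 4 → ℚ_[v.p]) = r • Sum.elim x 0 :=
    fun x => funext fun i => by cases i <;> simp
  rw [h3, h4, mulVec_smul] at h1
  rw [smul_sub] at h2
  rw [one_mulVec]
  convert V0.sub_mem h1 h2 using 1
  abel

theorem Adp.cm4_form {a β : E} (ha : a ≠ 0) (hβ : β ≠ 0) {r : ℚ} {N N' : ℕ}
    (e : (N' : ℚ) * r ^ 2 * Algebra.norm ℚ β = N * Algebra.norm ℚ a) (σ : v.I) :
    (N' : ℚ_[v.p]) • ((r • d.nu ad.a (β / a))ᵀ * ad.b σ * (r • d.nu ad.a (β / a))) =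
      ((N : ℚ_[v.p]) * (ad.j (β / a) / ad.j (d.c (β / a)))) • ad.b σ := by
  have h1 : (N' : ℚ) * r ^ 2 * Algebra.norm ℚ (β / a) = N :=
    mul_right_cancel₀ (Algebra.norm_ne_zero_iff.2 ha) (by
      rw [mul_assoc, ← map_mul, div_mul_cancel₀ _ ha, e])
  have h2 := congrArg (Rat.cast : ℚ → ℚ_[v.p]) h1
  push_cast at h2
  rw [transpose_smul, smul_mul_assoc, smul_mul_smul_comm, DF.nu,
    ad.form σ _ (div_ne_zero hβ ha), ← Rat.cast_smul_eq_qsmul ℚ_[v.p], smul_smul, smul_smul, ← h2]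
  congr 1
  push_cast
  ring

theorem t_cm4 : T_CM4 := by
  intro h1 h2 h3 hR hL hO τ K M A hτ v P hP hG hOr E _ _ d cj hcj
  obtain ⟨R, hR⟩ := hR τ K M A v
  obtain ⟨V0, hF, hQ⟩ := hO τ K M A hτ v R hR P (hR.π ▸ hP) hOr (cm_sep hG d)
  obtain ⟨ad⟩ := h1 τ K M A v R hR P hP hG hOr V0 hF hQ E d
  obtain ⟨f, hf0, hpf, hDf, h3⟩ := h3 τ K M A hτ v R hR P hP hG V0 hF E d
  have h2 := h2 τ K M A hτ v R V0 hF P E d ad
  have H := v.frD hP
  refine ⟨f, hf0, ?_⟩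
  intro N h F a1 a2 a3 a4 k a β r N' h' F' b1 b2 b3 b4 b5 J Q n x x' c1 c2 c3 c4 c5
  by_cases hF0 : F = 0
  · rcases k with _ | k
    · rw [pow_zero]
      exact cm4_le v.w Q fun j => a4 _
    · have := cm4_hom c1 0 fun j => F' 0 (x' 0 j)
      simp only [c5, zero_mul, mul_zero] at this
      simp only [hF0, Pi.zero_apply, this, map_zero, zero_le]
  obtain ⟨x₀, G, -, hG1, hG2⟩ := cm4_norm hL hτ a1 a2 a3 hF0
  choose y₀ G' hy₀ hG1' hG2' using fun i =>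
    cm4_norm hL hτ (b2 i).1 (b2 i).2.1 (b2 i).2.2.1 (b2 i).2.2.2
  have ha := fun i => (b1 i).1
  have hβ := fun i => cm_cop (b1 i).1 (b1 i).2
  have hN := a1.norm_N a2
  have hr : ∀ i, ‖(r i : ℚ_[v.p])‖ = 1 := fun i =>
    cm_r_unit (ha i) (b1 i).2 hpf hN ((b2 i).1.norm_N (b2 i).2.1) (b3 i)
  have hr0 : ∀ i, r i ≠ 0 := fun i e => by simpa [e] using hr i
  have nz : ∀ {b : 𝓞 E}, IsCoprime b (f : 𝓞 E) → b ≠ 0 := fun hb =>
    gi_ne_zero v.p.2 (hb.of_isCoprime_of_dvd_right (Nat.cast_dvd_cast hpf))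
  have ha0 : ∀ i, (a i : E) ≠ 0 := fun i => RingOfIntegers.coe_ne_zero_iff.2 (nz (ha i))
  have hβ0 : ∀ i, (β i : E) ≠ 0 := fun i => RingOfIntegers.coe_ne_zero_iff.2 (nz (hβ i))
  have hD : ∀ i, ((d.D ^ 2 * 1 : ℤ) : 𝓞 E) ∣ β i - a i := fun i => by
    rw [mul_one]
    exact (by simpa using Int.cast_dvd_cast (α := 𝓞 E) _ _ hDf : ((d.D ^ 2 : ℤ) : 𝓞 E) ∣ f).trans
      (b1 i).2
  let α := fun i => cm4_al v.p ((nuG d H (a i))⁻¹ * nuG d H (β i)) (hr0 i)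
  have hα := fun i => cm4_al_iff d H (nz (ha i)) (nz (hβ i)) (hr0 i)
  have one : ∀ i j, ‖(1 : M4 ℚ_[v.p]) i j‖ ≤ 1 := fun i j => by
    rw [one_apply]
    split_ifs <;> simp
  have hu : ∀ (j : E →+* ℚ_[v.p]) i, ‖j ((β i : E) / a i)‖ = 1 := fun j i => by
    rw [map_div₀, norm_div, cm4_unit j (ha i) hpf, cm4_unit j (hβ i) hpf, div_one]
  have key := MTC.sys_interp v.D (fr := fun z : Wp v.p => (v.p : ℕ) • z)
    (fun z => ⟨⟨((v.p : ℕ) : ℚ)⁻¹ • z, Wp_qsmul _ z.2⟩, Subtype.ext (by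
      change (v.p : ℕ) • ((v.p : ℕ) : ℚ)⁻¹ • (z : W) = z
      rw [← Nat.cast_smul_eq_nsmul ℚ, smul_inv_smul₀ (Nat.cast_ne_zero.2 v.p.2.ne_zero)])⟩)
    ad.b ad.alt N hN.le
    (fun i => (N : ℚ_[v.p]) * (ad.j ((β i : E) / a i) / ad.j (d.c ((β i : E) / a i))))
    (fun i => by
      rw [norm_mul, norm_div, hN, hu, show ‖ad.j (d.c ((β i : E) / a i))‖ = 1 from
        hu (ad.j.comp d.c.toRingEquiv.toRingHom) i, div_one, one_mul])
    (fun i i' e => by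
      by_contra hne
      refine b5 i i' hne (RingOfIntegers.coe_injective ?_)
      have e1 := mul_left_cancel₀ (norm_ne_zero_iff.1 (hN ▸ one_ne_zero)) e
      rw [← map_div₀ ad.j, ← map_div₀ ad.j] at e1
      have e2 := ad.j.injective e1
      have hc : ∀ {x : E}, x ≠ 0 → d.c x ≠ 0 := fun hx => (_root_.map_ne_zero _).2 hx
      have := ha0 i
      have := ha0 i'
      have := hc (ha0 i)
      have := hc (ha0 i')
      have := hc (hβ0 i)
      have := hc (hβ0 i')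
      simp only [map_mul, ← RingOfIntegers.coe_eq_algebraMap, hcj]
      rw [map_div₀, map_div₀] at e2
      field_simp at e2
      linear_combination e2)
    (Phi v ad.g N G (AddEquiv.refl _) 1 1)
    (by simpa only [transpose_one, one_mul, mul_one] using
      h2 N h G hG1 (AddEquiv.refl _) 1 1 (one_mul 1) one one)
    (fun i => Phi v ad.g (N' i) (G' i) (α i) (r i • d.nu ad.a ((β i : E) / a i))
      ((r i)⁻¹ • d.nu ad.a ((a i : E) / β i)))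
    (fun i => by
      simpa only [ad.cm4_form (ha0 i) (hβ0 i) (b3 i)] using h2 (N' i) (h' i) (G' i) (hG1' i) (α i)
        (r i • d.nu ad.a ((β i : E) / a i)) ((r i)⁻¹ • d.nu ad.a ((a i : E) / β i)) (by
          rw [smul_mul_smul_comm, mul_inv_cancel₀ (hr0 i), one_smul, ← d.nu_mul ad.aP,
            div_mul_div_cancel₀ (ha0 i), div_self (hβ0 i), d.nu_one])
        (cm4_nu_int d ad.a_int ad.aP (ha i) hpf (hD i) (hr i))
        (cm4_nu_int d ad.a_int ad.aP (hβ i) hpf (dvd_sub_comm.1 (hD i))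
          (by rw [Rat.cast_inv, norm_inv, hr, inv_one])))
    (fun i => by
      obtain ⟨u, hu1, hu2⟩ := h3 N (N' i) h (h' i) G (G' i) (a i) (β i) (r i) hG1 (hG1' i) (ha i)
        (b1 i).2 (b3 i) (b4 i)
      refine ⟨u, by rw [abv_apply, hu1, NNReal.coe_one], fun z w => ?_⟩
      rw [cm4_Phi, cm4_Phi, abv_apply]
      exact_mod_cast hu2 z z.2 (α i z) (α i z).2 _ _ ((hα i z (α i z).2).2 rfl)
        (ad.cm4_mem (ha0 i) (r i) w))
    (Q.map (Int.castRingHom Qbar)) (c1.map _)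
    (fun m => by
      rw [MvPolynomial.coeff_map, abv_apply]
      exact_mod_cast v.w.V_le_one_of_isIntegral isIntegral_algebraMap)
    (fun j => ⟨x j, c2 j⟩) fun i => by
      have e := c5 i
      simp only [hG2' i (x' i _), cm4_hom c1] at e
      simp only [cm4_Phi0, cm4_eval, α, ← (hα i ⟨x _, c2 _⟩ (c3 i _)).1 (c4 i _)]
      exact (mul_eq_zero.1 e).resolve_left (pow_ne_zero _ (hy₀ i))
  simp only [cm4_Phi0, cm4_eval, abv_apply, AddEquiv.refl_apply] at key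
  simp only [hG2 (x _), cm4_hom c1, map_mul, map_pow]
  refine (mul_le_of_le_one_left' (pow_le_one' (a4 x₀) n)).trans ?_
  rw [v.hp]
  exact_mod_cast key

end Pool.Agent.MT
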