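import Pool.Agent.Lib.MP_d61fbb_ag.MT.C0

/-! Block C of the MT project: the abstract measure system and the interpolation theorem. -/

namespace MTC

variable {Ω : Type*} [Field Ω]

/-- the standard lift of residues to `p`-adic vectors -/
noncomputable def lift {p : ℕ} [Fact p.Prime] {ι : Type*} {n : ℕ} (s : ι → ZMod n) : ι → ℚ_[p] :=
  fun i => ((s i).val : ℚ_[p])

/-- `M k a w` is the mass of the ball `w + p ^ k T` for the theta measure attached to the prime to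
`p` point `a`; `fr` is multiplication by `p` on those points. -/
structure Meas (v : AbsoluteValue Ω ℝ) (p : ℕ) [Fact p.Prime] (ι : Type*) [Fintype ι]
    [DecidableEq ι] {A : Type*} (fr : A → A) {I : Type*} (act : I → Ω →+* Ω)
    (ψ : AddChar ℚ_[p] Ω) where
  M : ℕ → A → (ι → ℚ_[p]) → Ω
  q : I → (ι → ℚ_[p]) → ℚ_[p]
  th : ℕ → Ω
  le_one : ∀ k a w, v (M k a w) ≤ 1
  nv : ∀ w, ∃ a, v (M 0 a w) = 1
  add : ∀ k j a w, M k a w =
    ∑ s : ι → ZMod (p ^ j), M (k + j) a (w + (p : ℚ_[p]) ^ k • lift s)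
  frob : ∀ k a w, cf (p ^ 2) (fun s : ι → ZMod (p ^ 2) =>
    M (k + 2) a (w + (p : ℚ_[p]) ^ k • lift s)) = th k * M (k + 1) (fr a) ((p : ℚ_[p]) • w)
  gal : ∀ σ k j a w t, ‖w‖ ≤ (p : ℝ) ^ k → ‖t‖ ≤ (p : ℝ)⁻¹ ^ k →
    act σ (M (k + j) a (w + t)) = ψ (q σ w) * M (k + j) a (w + t)

end MTC
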