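import Pool.Agent.Lib.MP_d61fbb_ag.MT.CMeas

/-! Block C of the MT project: lifting the exponent, evaluation of integral polynomials,
approximation of `p`-adic integers. -/

namespace MTC

variable {Ω : Type*} [Field Ω] {v : AbsoluteValue Ω ℝ}

theorem div_sub_div_le (hv : IsNonarchimedean v) {a a' b b' : Ω} {r : ℝ} (ha' : v a' ≤ 1)
    (hb : v b = 1) (hb' : v b' = 1) (h1 : v (a - a') ≤ r) (h2 : v (b - b') ≤ r) :
    v (a / b - a' / b') ≤ r := by
  have hb0 : b ≠ 0 := fun h => by simp [h] at hb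
  have hb0' : b' ≠ 0 := fun h => by simp [h] at hb'
  have : a / b - a' / b' = ((a - a') * b' - a' * (b - b')) / (b * b') := by
    field_simp; ring
  rw [this, map_div₀, map_mul, hb, hb', mul_one, div_one]
  exact sub_le hv (mul_le_of_le_one_right h1 hb'.le) (mul_le_of_le_one_left ha' h2)

theorem scalar_le (hv : IsNonarchimedean v) {m x u u' : Ω} {r : ℝ} (hm : v m = 1)
    (h1 : v (x - u * m) ≤ r) (h2 : v (x - u' * m) ≤ r) : v (u - u') ≤ r := by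
  have := sub_le hv h2 h1
  rwa [show x - u' * m - (x - u * m) = (u - u') * m by ring, map_mul, hm, mul_one] at this

theorem scalar_lt (hv : IsNonarchimedean v) {m x u u' : Ω} {r : ℝ} (hm : v m = 1)
    (h1 : v (x - u * m) < r) (h2 : v (x - u' * m) < r) : v (u - u') < r := by
  have := sub_lt hv h2 h1
  rwa [show x - u' * m - (x - u * m) = (u - u') * m by ring, map_mul, hm, mul_one] at this

theorem natCast_eq_one (hv : IsNonarchimedean v) {p : ℕ} (hp : p.Prime) (hp1 : v (p : Ω) < 1)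
    {N : ℕ} (hN : ¬ p ∣ N) : v (N : Ω) = 1 := by
  refine le_antisymm (natCast_le_one hv N) (not_lt.1 fun h => ?_)
  have hc : IsCoprime (p : ℤ) (N : ℤ) := Nat.isCoprime_iff_coprime.2 (hp.coprime_iff_not_dvd.2 hN)
  obtain ⟨a, b, hab⟩ := hc
  have hab' : (a : Ω) * p + (b : Ω) * N = 1 := by exact_mod_cast congrArg (Int.cast : ℤ → Ω) hab
  have hi : ∀ z : ℤ, v (z : Ω) ≤ 1 := fun z => (intCast_mem (O hv) z : (z : Ω) ∈ O hv)
  have := add_lt hv (mul_lt_of_le_one_left (hi a) hp1) (mul_lt_of_le_one_left (hi b) h)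
  rw [hab', map_one] at this
  exact lt_irrefl _ this

theorem pow_sub_one_coprime (hv : IsNonarchimedean v) {p : ℕ} (hp : p.Prime)
    (hp1 : v (p : Ω) < 1) {N : ℕ} (hN : ¬ p ∣ N) {s : Ω} (hs : v (s - 1) < 1) :
    v (s ^ N - 1) = v (s - 1) := by
  have hs1 : v s = 1 := eq_one_of_sub_lt hv (map_one v) hs
  have h1 : v (∑ i ∈ Finset.range N, s ^ i - (N : Ω)) < 1 := by
    have : ∑ i ∈ Finset.range N, s ^ i - (N : Ω) = ∑ i ∈ Finset.range N, (s ^ i - 1 ^ i) := by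
      simp [Finset.sum_sub_distrib]
    rw [this]
    exact sum_lt hv _ _ one_pos fun i _ => pow_sub_pow_lt hv hs1.le (by simp) hs i
  rw [← geom_sum_mul, map_mul, eq_one_of_sub_lt hv (natCast_eq_one hv hp hp1 hN) h1, one_mul]

theorem pow_p_sub_one (hv : IsNonarchimedean v) {p : ℕ} (hp : p.Prime) (hp2 : p ≠ 2)
    (hp0 : (p : Ω) ≠ 0) (hp1 : v (p : Ω) < 1) {s : Ω} (hs : v (s - 1) ≤ v (p : Ω)) :
    v (s ^ p - 1) = v (p : Ω) * v (s - 1) := by
  have hb : (s - 1) / p ∈ O hv := by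
    rw [mem_O, map_div₀]; exact div_le_one_of_le₀ hs (v.nonneg _)
  have h1 := odd_sq_dvd_geom_sum₂_sub (R := O hv) (p := p) 1 ⟨_, hb⟩ (hp.odd_of_ne_two hp2)
  obtain ⟨e, he⟩ := h1
  have he' := congrArg (fun z : O hv => (z : Ω)) he
  push_cast at he'
  have h2 : (1 : Ω) + p * ((s - 1) / p) = s := by field_simp; ring
  simp only [h2, one_pow, mul_one] at he'
  have h3 : ∑ i ∈ Finset.range p, s ^ i = p * (1 + p * e) := by linear_combination he'
  have h4 : v (1 + (p : Ω) * e) = 1 :=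
    eq_one_of_sub_lt hv (map_one v) (by
      rw [add_sub_cancel_left]; exact mul_lt_of_le_one_right hp1 e.2)
  rw [← geom_sum_mul, h3, map_mul, map_mul, h4, mul_one]

theorem pow_pow_sub_one (hv : IsNonarchimedean v) {p : ℕ} (hp : p.Prime) (hp2 : p ≠ 2)
    (hp0 : (p : Ω) ≠ 0) (hp1 : v (p : Ω) < 1) {s : Ω} (hs : v (s - 1) ≤ v (p : Ω)) (f : ℕ) :
    v (s ^ p ^ f - 1) = v (p : Ω) ^ f * v (s - 1) := by
  induction f with
  | zero => simp
  | succ f ih =>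
    rw [pow_succ, pow_mul, pow_p_sub_one hv hp hp2 hp0 hp1, ih]
    · ring
    · rw [ih]
      exact (_root_.mul_le_of_le_one_left (v.nonneg _) (pow_le_one₀ (v.nonneg _) hp1.le)).trans hs

theorem lte (hv : IsNonarchimedean v) {p : ℕ} [Fact p.Prime] (hp2 : p ≠ 2)
    (hp0 : (p : Ω) ≠ 0) (hp1 : v (p : Ω) < 1) {s : Ω} (hs : v (s - 1) ≤ v (p : Ω)) {N e : ℕ}
    (hN : (p : ℝ)⁻¹ ^ e ≤ ‖(N : ℚ_[p])‖) : v (p : Ω) ^ e * v (s - 1) ≤ v (s ^ N - 1) := by
  have hp : p.Prime := Fact.out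
  have hpR : (1 : ℝ) < p := by exact_mod_cast hp.one_lt
  have hN0 : N ≠ 0 := by
    rintro rfl
    have : (0 : ℝ) < (p : ℝ)⁻¹ ^ e := by positivity
    simp only [Nat.cast_zero, norm_zero] at hN
    linarith
  obtain ⟨f, m, hm, rfl⟩ := Nat.exists_eq_pow_mul_and_not_dvd hN0 p hp.ne_one
  have h1 : ‖((p ^ f * m : ℕ) : ℚ_[p])‖ ≤ (p : ℝ)⁻¹ ^ f := by
    push_cast
    rw [norm_mul, norm_pow, Padic.norm_p]
    exact _root_.mul_le_of_le_one_right (by positivity)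
      (IsUltrametricDist.norm_natCast_le_one ℚ_[p] m)
  have hfe : f ≤ e := by
    have := hN.trans h1
    exact (pow_le_pow_iff_right_of_lt_one₀ (by positivity) (inv_lt_one_of_one_lt₀ hpR)).1 this
  have h2 := pow_pow_sub_one hv hp hp2 hp0 hp1 hs f
  have h3 : v (s ^ p ^ f - 1) < 1 := by
    rw [h2]
    exact ((_root_.mul_le_of_le_one_left (v.nonneg _)
      (pow_le_one₀ (v.nonneg _) hp1.le)).trans hs).trans_lt hp1
  rw [pow_mul, pow_sub_one_coprime hv hp hp1 hm h3, h2]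
  exact mul_le_mul_of_nonneg_right (pow_le_pow_of_le_one (v.nonneg _) hp1.le hfe) (v.nonneg _)

theorem exists_nat_approx {p : ℕ} [Fact p.Prime] (x : ℚ_[p]) (hx : ‖x‖ ≤ 1) (N : ℕ) :
    ∃ n : ℕ, ‖x - n‖ ≤ (p : ℝ)⁻¹ ^ N := by
  obtain ⟨z, rfl⟩ : ∃ z : ℤ_[p], (z : ℚ_[p]) = x := ⟨⟨x, hx⟩, rfl⟩
  refine ⟨PadicInt.appr z N, ?_⟩
  have := (PadicInt.norm_le_pow_iff_mem_span_pow _ N).2 (PadicInt.appr_spec N z)
  rw [PadicInt.norm_def, PadicInt.coe_sub, PadicInt.coe_natCast, zpow_neg, zpow_natCast,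
    ← inv_pow] at this
  exact this

section eval

open MvPolynomial

variable {J : Type*}

theorem eval_sub_le (hv : IsNonarchimedean v) (P : MvPolynomial J Ω) (hP1 : ∀ m, v (P.coeff m) ≤ 1)
    {y y' : J → Ω} (hy : ∀ j, v (y j) ≤ 1) (hy' : ∀ j, v (y' j) ≤ 1) {r : ℝ} (hr : 0 ≤ r)
    (h : ∀ j, v (y j - y' j) ≤ r) : v (eval y P - eval y' P) ≤ r := by
  rw [eval_eq, eval_eq, ← Finset.sum_sub_distrib]
  refine sum_le hv _ _ hr fun m _ => ?_
  rw [← mul_sub]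
  exact mul_le_of_le_one_left (hP1 m) (prod_sub_prod_le hv _ _ _ hr
    (fun j _ => pow_le_one (hy j) _) (fun j _ => pow_le_one (hy' j) _)
    fun j _ => pow_sub_pow_le hv (hy j) (hy' j) (h j) _)

theorem eval_mul_homog (P : MvPolynomial J Ω) {d : ℕ} (hP : P.IsHomogeneous d) (c : Ω)
    (y : J → Ω) : eval (fun j => c * y j) P = c ^ d * eval y P := by
  rw [eval_eq, eval_eq, Finset.mul_sum]
  refine Finset.sum_congr rfl fun m hm => ?_
  simp only [mul_pow, Finset.prod_mul_distrib, Finset.prod_pow_eq_pow_sum]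
  rw [← hP.degree_eq_sum_deg_support hm]
  ring

theorem exists_comp_poly (hv : IsNonarchimedean v) (P : MvPolynomial J Ω)
    (hP1 : ∀ m, v (P.coeff m) ≤ 1) (f : J → Polynomial (O hv)) :
    ∃ g : Polynomial (O hv), ∀ s : O hv,
      ((g.eval s : O hv) : Ω) = eval (fun j => (((f j).eval s : O hv) : Ω)) P := by
  refine ⟨∑ m ∈ P.support, Polynomial.C ⟨P.coeff m, hP1 m⟩ * ∏ j ∈ m.support, f j ^ m j,
    fun s => ?_⟩
  rw [eval_eq, Polynomial.eval_finsetSum]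
  simp [Polynomial.eval_prod]

theorem poly_lip (hv : IsNonarchimedean v) (g : Polynomial (O hv)) (s s' : O hv) :
    v (((g.eval s : O hv) : Ω) - ((g.eval s' : O hv) : Ω)) ≤ v ((s : Ω) - s') := by
  obtain ⟨e, he⟩ := Polynomial.sub_dvd_eval_sub s s' g
  have he' := congrArg (fun z : O hv => (z : Ω)) he
  push_cast at he'
  rw [he']
  exact mul_le_of_le_one_right le_rfl e.2

end eval

section norms

variable {p : ℕ} [Fact p.Prime] {ι : Type*} [Fintype ι]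

theorem norm_lift {n : ℕ} (s : ι → ZMod n) : ‖(lift s : ι → ℚ_[p])‖ ≤ 1 :=
  (pi_norm_le_iff_of_nonneg zero_le_one).2 fun _ => IsUltrametricDist.norm_natCast_le_one ℚ_[p] _

theorem norm_pow_smul (k : ℕ) (w : ι → ℚ_[p]) :
    ‖(p : ℚ_[p]) ^ k • w‖ = (p : ℝ)⁻¹ ^ k * ‖w‖ := by
  rw [norm_smul, norm_pow, Padic.norm_p]

theorem norm_inv_pow_smul (k : ℕ) (w : ι → ℚ_[p]) :
    ‖((p : ℚ_[p]) ^ k)⁻¹ • w‖ = (p : ℝ) ^ k * ‖w‖ := by
  rw [norm_smul, norm_inv, norm_pow, Padic.norm_p, inv_pow, inv_inv]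

theorem norm_pow_smul_lift (k : ℕ) {n : ℕ} (s : ι → ZMod n) :
    ‖(p : ℚ_[p]) ^ k • (lift s : ι → ℚ_[p])‖ ≤ (p : ℝ)⁻¹ ^ k := by
  rw [norm_pow_smul]
  exact _root_.mul_le_of_le_one_right (by positivity) (norm_lift s)

omit [Fintype ι] in
theorem pow_smul_inv (k : ℕ) (w : ι → ℚ_[p]) :
    (p : ℚ_[p]) ^ k • ((p : ℚ_[p]) ^ k)⁻¹ • w = w :=
  smul_inv_smul₀ (pow_ne_zero _ (Nat.cast_ne_zero.2 (Fact.out : p.Prime).ne_zero)) w

theorem one_lt_pR : (1 : ℝ) < p := by exact_mod_cast (Fact.out : p.Prime).one_lt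

theorem inv_pow_anti {a b : ℕ} (h : a ≤ b) : (p : ℝ)⁻¹ ^ b ≤ (p : ℝ)⁻¹ ^ a :=
  pow_le_pow_of_le_one (by positivity) (inv_le_one_of_one_le₀ one_lt_pR.le) h

theorem p_pow_mono {a b : ℕ} (h : a ≤ b) : (p : ℝ) ^ a ≤ (p : ℝ) ^ b :=
  pow_le_pow_right₀ one_lt_pR.le h

end norms

end MTC
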