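import Pool.Agent.Lib.MP_d61fbb_ag.MT.CT1

/-! Block C of the MT project: contraction for pairs of measure systems. -/

namespace MTC

variable {Ω : Type*} [Field Ω] {v : AbsoluteValue Ω ℝ} {p : ℕ} [Fact p.Prime]
  {ι : Type*} [Fintype ι] [DecidableEq ι] {A : Type*} {fr : A → A} {I : Type*}
  {act : I → Ω →+* Ω} {ψ : AddChar ℚ_[p] Ω}

/-- standing hypotheses -/
structure Hyp (v : AbsoluteValue Ω ℝ) (p : ℕ) {A : Type*} (fr : A → A) {I : Type*}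
    (act : I → Ω →+* Ω) : Prop where
  hv : IsNonarchimedean v
  p0 : (p : Ω) ≠ 0
  p1 : v (p : Ω) < 1
  surj : Function.Surjective fr
  fix : ∀ x, (∀ σ, act σ x = x) → v x < 1 → v x ≤ v (p : Ω)

theorem ne_zero_of_eq_one {x : Ω} (h : v x = 1) : x ≠ 0 := fun h0 => by simp [h0] at h

omit [Fact p.Prime] in
theorem vp_pow_anti (H : Hyp v p fr act) {a b : ℕ} (h : a ≤ b) :
    v (p : Ω) ^ b ≤ v (p : Ω) ^ a := pow_le_pow_of_le_one (v.nonneg _) H.p1.le h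

omit [Fact p.Prime] in
theorem vp_pow_lt (H : Hyp v p fr act) {a : ℕ} (h : 1 ≤ a) : v (p : Ω) ^ a < 1 :=
  pow_lt_one₀ (v.nonneg _) H.p1 (by omega)

theorem psi_ne (x : ℚ_[p]) : ψ x ≠ 0 := by
  intro h
  have := ψ.map_add_eq_mul x (-x)
  rw [add_neg_cancel, h, zero_mul, AddChar.map_zero_eq_one] at this
  exact one_ne_zero this

namespace Meas

variable (μ μ' : Meas v p ι fr act ψ)

theorem frob_mod (H : Hyp v p fr act) (k : ℕ) (a : A) (w : ι → ℚ_[p]) :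
    v (μ.th k * μ.M (k + 1) (fr a) ((p : ℚ_[p]) • w) - μ.M k a w ^ p ^ 2) < 1 := by
  rw [← μ.frob, μ.add k 2 a w]
  refine (cf_sub_pow_le H.hv Fact.out H.p0 2 (fun s => ?_) fun s => μ.le_one _ _ _).trans_lt H.p1
  ext i
  simp only [Pi.smul_apply, nsmul_eq_mul, Pi.zero_apply]
  rw [ZMod.natCast_self, zero_mul]

theorem exists_unit (H : Hyp v p fr act) (k : ℕ) : ∃ a w, v (μ.M k a w) = 1 := by
  obtain ⟨a, ha⟩ := μ.nv 0
  by_contra h
  push Not at h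
  have h1 := μ.add 0 k a 0
  rw [zero_add] at h1
  have h2 : v (μ.M 0 a 0) < 1 := by
    rw [h1]
    exact sum_lt H.hv _ _ one_pos fun s _ => lt_of_le_of_ne (μ.le_one _ _ _) (h _ _)
  exact h2.ne ha

omit [Fintype ι] [DecidableEq ι] in
theorem smul_inv_p (w : ι → ℚ_[p]) : (p : ℚ_[p]) • ((p : ℚ_[p])⁻¹ • w) = w :=
  smul_inv_smul₀ (Nat.cast_ne_zero.2 (Fact.out : p.Prime).ne_zero) w

theorem th_unit (H : Hyp v p fr act) (k : ℕ) : v (μ.th k) = 1 := by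
  apply le_antisymm
  · obtain ⟨a, w, h⟩ := μ.exists_unit H (k + 1)
    obtain ⟨a, rfl⟩ := H.surj a
    have h1 := μ.frob k a ((p : ℚ_[p])⁻¹ • w)
    rw [smul_inv_p] at h1
    have h2 := cf_le_one H.hv (p ^ 2) (X := fun s : ι → ZMod (p ^ 2) =>
      μ.M (k + 2) a ((p : ℚ_[p])⁻¹ • w + (p : ℚ_[p]) ^ k • lift s)) fun s => μ.le_one _ _ _
    rwa [h1, map_mul, h, mul_one] at h2
  · obtain ⟨a, w, h⟩ := μ.exists_unit H k
    have h1 := eq_one_of_sub_lt H.hv (by rw [map_pow, h, one_pow]) (μ.frob_mod H k a w)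
    rw [map_mul] at h1
    rw [← h1]
    exact _root_.mul_le_of_le_one_right (v.nonneg _) (μ.le_one _ _ _)

theorem nvk (H : Hyp v p fr act) (k : ℕ) : ∀ w, ∃ a, v (μ.M k a w) = 1 := by
  induction k with
  | zero => exact μ.nv
  | succ k ih =>
    intro w
    obtain ⟨a, ha⟩ := ih ((p : ℚ_[p])⁻¹ • w)
    have h1 := eq_one_of_sub_lt H.hv (by rw [map_pow, ha, one_pow])
      (μ.frob_mod H k a ((p : ℚ_[p])⁻¹ • w))
    rw [map_mul, μ.th_unit H, one_mul, smul_inv_p] at h1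
    exact ⟨_, h1⟩

/-- the two systems agree modulo the maximal ideal up to the unit `u` -/
def Red (u : Ω) : Prop := v u = 1 ∧ ∀ a w, v (μ'.M 0 a w - u * μ.M 0 a w) < 1

variable {μ μ'}

theorem red_aux (H : Hyp v p fr act) {u : Ω} (h : Red μ μ' u) (k : ℕ) :
    ∃ u', v u' = 1 ∧ ∀ a w, v (μ'.M k a w - u' * μ.M k a w) < 1 := by
  induction k with
  | zero => exact ⟨u, h⟩
  | succ k ih =>
    obtain ⟨u', hu', h'⟩ := ih
    have ht := μ.th_unit H k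
    have ht' := μ'.th_unit H k
    refine ⟨u' ^ p ^ 2 * μ.th k / μ'.th k, by simp [hu', ht, ht'], fun a w => ?_⟩
    obtain ⟨a, rfl⟩ := H.surj a
    obtain ⟨w, rfl⟩ : ∃ w', w = (p : ℚ_[p]) • w' := ⟨_, (smul_inv_p w).symm⟩
    have h1 := μ'.frob_mod H k a w
    have h2 := pow_sub_pow_lt H.hv (μ'.le_one k a w)
      (mul_le_of_le_one_left hu'.le (μ.le_one k a w)) (h' a w) (p ^ 2)
    have h3 := mul_lt_of_le_one_left (x := u' ^ p ^ 2) (pow_le_one hu'.le _) (μ.frob_mod H k a w)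
    have h4 := sub_lt H.hv (trans_lt H.hv h1 h2) h3
    have h0 := ne_zero_of_eq_one ht'
    have h5 : μ'.M (k + 1) (fr a) ((p : ℚ_[p]) • w) -
        u' ^ p ^ 2 * μ.th k / μ'.th k * μ.M (k + 1) (fr a) ((p : ℚ_[p]) • w) =
        (μ'.th k * μ'.M (k + 1) (fr a) ((p : ℚ_[p]) • w) - (u' * μ.M k a w) ^ p ^ 2 -
          u' ^ p ^ 2 * (μ.th k * μ.M (k + 1) (fr a) ((p : ℚ_[p]) • w) - μ.M k a w ^ p ^ 2)) /
          μ'.th k := by
      field_simp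
      ring
    rw [h5, map_div₀, ht', div_one]
    exact h4

theorem sub_eq_sum (u : Ω) (k j : ℕ) (a : A) (w : ι → ℚ_[p]) :
    μ'.M k a w - u * μ.M k a w = ∑ s : ι → ZMod (p ^ j),
      (μ'.M (k + j) a (w + (p : ℚ_[p]) ^ k • lift s) -
        u * μ.M (k + j) a (w + (p : ℚ_[p]) ^ k • lift s)) := by
  rw [μ'.add k j, μ.add k j, Finset.mul_sum, ← Finset.sum_sub_distrib]

theorem red_k (H : Hyp v p fr act) {u : Ω} (h : Red μ μ' u) (k : ℕ) (a : A) (w : ι → ℚ_[p]) :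
    v (μ'.M k a w - u * μ.M k a w) < 1 := by
  obtain ⟨u', _, h'⟩ := red_aux H h k
  obtain ⟨a0, ha0⟩ := μ.nv 0
  have h1 : v (μ'.M 0 a0 0 - u' * μ.M 0 a0 0) < 1 := by
    rw [sub_eq_sum u' 0 k]
    refine sum_lt H.hv _ _ one_pos fun s _ => ?_
    rw [zero_add]
    exact h' _ _
  have h2 := scalar_lt H.hv ha0 h1 (h.2 a0 0)
  have h3 := add_lt H.hv (h' a w) (mul_lt_of_le_one_right h2 (μ.le_one k a w))
  rwa [show μ'.M k a w - u' * μ.M k a w + (u' - u) * μ.M k a w = μ'.M k a w - u * μ.M k a w by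
    ring] at h3

variable (μ μ')

/-- the measures agree up to the unit `u` on the ball `w + p ^ k T` to precision `p ^ r` -/
def E (w : ι → ℚ_[p]) (k r : ℕ) (u : Ω) : Prop :=
  v u = 1 ∧ ∀ a j t, ‖t‖ ≤ (p : ℝ)⁻¹ ^ k →
    v (μ'.M (k + j) a (w + t) - u * μ.M (k + j) a (w + t)) ≤ v (p : Ω) ^ r

/-- a point where the mass of the ball is a unit -/
noncomputable def pt (H : Hyp v p fr act) (k : ℕ) (w : ι → ℚ_[p]) : A := (μ.nvk H k w).choose

theorem pt_spec (H : Hyp v p fr act) (k : ℕ) (w : ι → ℚ_[p]) :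
    v (μ.M k (μ.pt H k w) w) = 1 := (μ.nvk H k w).choose_spec

/-- the ratio of the masses -/
noncomputable def c (H : Hyp v p fr act) (k : ℕ) (w : ι → ℚ_[p]) : Ω :=
  μ'.M k (μ.pt H k w) w / μ.M k (μ.pt H k w) w

theorem c_mul (H : Hyp v p fr act) (k : ℕ) (w : ι → ℚ_[p]) :
    c μ μ' H k w * μ.M k (μ.pt H k w) w = μ'.M k (μ.pt H k w) w :=
  div_mul_cancel₀ _ (ne_zero_of_eq_one (μ.pt_spec H k w))

variable {μ μ'}

theorem c_sub_lt (H : Hyp v p fr act) {u : Ω} (h : Red μ μ' u) (k : ℕ) (w : ι → ℚ_[p]) :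
    v (c μ μ' H k w - u) < 1 :=
  scalar_lt H.hv (μ.pt_spec H k w) (by rw [c_mul]; simp) (red_k H h k _ w)

theorem c_unit (H : Hyp v p fr act) {u : Ω} (h : Red μ μ' u) (k : ℕ) (w : ι → ℚ_[p]) :
    v (c μ μ' H k w) = 1 := eq_one_of_sub_lt H.hv h.1 (c_sub_lt H h k w)

theorem gal0 (μ : Meas v p ι fr act ψ) (σ : I) (k : ℕ) (a : A) {w : ι → ℚ_[p]}
    (hw : ‖w‖ ≤ (p : ℝ) ^ k) : act σ (μ.M k a w) = ψ (μ.q σ w) * μ.M k a w := by
  have := μ.gal σ k 0 a w 0 hw (by rw [norm_zero]; positivity)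
  rwa [add_zero, add_zero] at this

theorem c_gal (H : Hyp v p fr act) (σ : I) (k : ℕ) {w : ι → ℚ_[p]} (hw : ‖w‖ ≤ (p : ℝ) ^ k) :
    act σ (c μ μ' H k w) = ψ (μ'.q σ w - μ.q σ w) * c μ μ' H k w := by
  rw [c, map_div₀, μ.gal0 σ k _ hw, μ'.gal0 σ k _ hw, AddChar.map_sub_eq_div]
  have h1 : ψ (μ.q σ w) ≠ 0 := psi_ne _
  have h2 := ne_zero_of_eq_one (μ.pt_spec H k w)
  field_simp

theorem E_base (H : Hyp v p fr act) {u : Ω} (h : Red μ μ' u) (k : ℕ) {w : ι → ℚ_[p]}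
    (hw : ‖w‖ ≤ (p : ℝ) ^ k) : E μ μ' w k 1 (c μ μ' H k w) := by
  refine ⟨c_unit H h k w, fun a j t ht => ?_⟩
  have hu : v (μ'.M k (μ.pt H k w) w) = 1 := by
    rw [← c_mul, map_mul, c_unit H h, μ.pt_spec, one_mul]
  have h1 : v (μ'.M (k + j) a (w + t) - c μ μ' H k w * μ.M (k + j) a (w + t)) < 1 := by
    have := sub_lt H.hv (red_k H h (k + j) a (w + t))
      (mul_lt_of_le_one_right (c_sub_lt H h k w) (μ.le_one (k + j) a (w + t)))
    convert this using 2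
    ring
  have h2 := H.fix ((μ'.M (k + j) a (w + t) - c μ μ' H k w * μ.M (k + j) a (w + t)) /
    μ'.M k (μ.pt H k w) w) (fun σ => ?_) (by rwa [map_div₀, hu, div_one])
  · rwa [map_div₀, hu, div_one, ← pow_one (v (p : Ω))] at h2
  · rw [map_div₀, map_sub, map_mul, c_gal H σ k hw, μ.gal σ k j a w t hw ht,
      μ'.gal σ k j a w t hw ht, μ'.gal0 σ k _ hw, AddChar.map_sub_eq_div]
    have h1 : ψ (μ.q σ w) ≠ 0 := psi_ne _
    have h1' : ψ (μ'.q σ w) ≠ 0 := psi_ne _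
    have h2 := ne_zero_of_eq_one hu
    field_simp

theorem E_step_aux (H : Hyp v p fr act) {w : ι → ℚ_[p]} {k r : ℕ} (hr : 1 ≤ r) {u : Ω}
    (h : E μ μ' w k r u) (j : ℕ) (a : A) (t : ι → ℚ_[p]) (ht : ‖t‖ ≤ (p : ℝ)⁻¹ ^ (k + 1)) :
    v (μ'.M (k + 1 + j) a ((p : ℚ_[p]) • w + t) - u ^ p ^ 2 * μ.th (k + j) / μ'.th (k + j) *
      μ.M (k + 1 + j) a ((p : ℚ_[p]) • w + t)) ≤ v (p : Ω) ^ (r + 1) := by
  obtain ⟨a, rfl⟩ := H.surj a
  obtain ⟨t, rfl⟩ : ∃ t', t = (p : ℚ_[p]) • t' := ⟨_, (smul_inv_p t).symm⟩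
  have ht0 : ‖t‖ ≤ (p : ℝ)⁻¹ ^ k := by
    rw [norm_smul, Padic.norm_p, pow_succ'] at ht
    have : (0 : ℝ) < (p : ℝ)⁻¹ := inv_pos.2 (zero_lt_one.trans one_lt_pR)
    exact le_of_mul_le_mul_left ht this
  have h1 := μ.frob (k + j) a (w + t)
  have h1' := μ'.frob (k + j) a (w + t)
  have h2 := cf_sub_le H.hv Fact.out H.p0 hr
    (X := fun s : ι → ZMod (p ^ 2) => μ'.M (k + j + 2) a (w + t + (p : ℚ_[p]) ^ (k + j) • lift s))
    (Y := fun s : ι → ZMod (p ^ 2) =>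
      u * μ.M (k + j + 2) a (w + t + (p : ℚ_[p]) ^ (k + j) • lift s))
    (fun s => μ'.le_one _ _ _) (fun s => mul_le_of_le_one_left h.1.le (μ.le_one _ _ _))
    (fun s => ?_) 2
  · rw [cf_mul, h1, h1'] at h2
    have ht' := μ'.th_unit H (k + j)
    have h0 := ne_zero_of_eq_one ht'
    rw [← smul_add, show k + 1 + j = k + j + 1 by ring]
    have h5 : μ'.M (k + j + 1) (fr a) ((p : ℚ_[p]) • (w + t)) -
        u ^ p ^ 2 * μ.th (k + j) / μ'.th (k + j) * μ.M (k + j + 1) (fr a) ((p : ℚ_[p]) • (w + t)) =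
        (μ'.th (k + j) * μ'.M (k + j + 1) (fr a) ((p : ℚ_[p]) • (w + t)) -
          u ^ p ^ 2 * (μ.th (k + j) * μ.M (k + j + 1) (fr a) ((p : ℚ_[p]) • (w + t)))) /
          μ'.th (k + j) := by
      field_simp
    rw [h5, map_div₀, ht', div_one]
    exact h2.trans (vp_pow_anti H (by omega))
  · have := h.2 a (j + 2) (t + (p : ℚ_[p]) ^ (k + j) • lift s)
      ((IsUltrametricDist.norm_add_le_max _ _).trans (max_le ht0
        ((norm_pow_smul_lift _ s).trans (inv_pow_anti (by omega)))))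
    rwa [← add_assoc, ← add_assoc] at this

theorem E_step (H : Hyp v p fr act) {w : ι → ℚ_[p]} {k r : ℕ} (hr : 1 ≤ r) {u : Ω}
    (h : E μ μ' w k r u) :
    E μ μ' ((p : ℚ_[p]) • w) (k + 1) (r + 1) (u ^ p ^ 2 * μ.th k / μ'.th k) := by
  refine ⟨by simp [h.1, μ.th_unit H, μ'.th_unit H], fun a j t ht => ?_⟩
  obtain ⟨a0, ha0⟩ := μ.nvk H (k + 1) ((p : ℚ_[p]) • w)
  have h1 : v (μ'.M (k + 1) a0 ((p : ℚ_[p]) • w) - u ^ p ^ 2 * μ.th (k + j) / μ'.th (k + j) *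
      μ.M (k + 1) a0 ((p : ℚ_[p]) • w)) ≤ v (p : Ω) ^ (r + 1) := by
    rw [sub_eq_sum _ (k + 1) j]
    exact sum_le H.hv _ _ (by positivity) fun s _ =>
      E_step_aux H hr h j a0 _ (norm_pow_smul_lift _ s)
  have h2 := E_step_aux H hr h 0 a0 0 (by rw [norm_zero]; positivity)
  simp only [add_zero] at h2
  have h3 := scalar_le H.hv ha0 h1 h2
  have h4 := add_le H.hv (E_step_aux H hr h j a t ht)
    (mul_le_of_le_one_right h3 (μ.le_one (k + 1 + j) a ((p : ℚ_[p]) • w + t)))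
  convert h4 using 2
  ring

theorem E.c_sub (H : Hyp v p fr act) {w : ι → ℚ_[p]} {k r : ℕ} {u : Ω} (h : E μ μ' w k r u) :
    v (c μ μ' H k w - u) ≤ v (p : Ω) ^ r := by
  have h1 := h.2 (μ.pt H k w) 0 0 (by rw [norm_zero]; positivity)
  simp only [add_zero] at h1
  exact scalar_le H.hv (μ.pt_spec H k w) (by rw [c_mul]; simp) h1

theorem E.to_c (H : Hyp v p fr act) {w : ι → ℚ_[p]} {k r : ℕ} (hr : 1 ≤ r) {u : Ω}
    (h : E μ μ' w k r u) : E μ μ' w k r (c μ μ' H k w) := by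
  refine ⟨eq_one_of_sub_lt H.hv h.1 ((h.c_sub H).trans_lt (vp_pow_lt H hr)), fun a j t ht => ?_⟩
  have := sub_le H.hv (h.2 a j t ht)
    (mul_le_of_le_one_right (h.c_sub H) (μ.le_one (k + j) a (w + t)))
  convert this using 2
  ring

theorem E_iter (H : Hyp v p fr act) {u : Ω} (h : Red μ μ' u) (k : ℕ) {w : ι → ℚ_[p]}
    (hw : ‖w‖ ≤ (p : ℝ) ^ k) (r : ℕ) :
    E μ μ' ((p : ℚ_[p]) ^ r • w) (k + r) (r + 1) (c μ μ' H (k + r) ((p : ℚ_[p]) ^ r • w)) := by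
  induction r with
  | zero => simpa using E_base H h k hw
  | succ r ih =>
    have := (E_step H (by omega) ih).to_c H (by omega)
    rwa [smul_smul, ← pow_succ', add_assoc] at this

theorem E_good (H : Hyp v p fr act) {u : Ω} (h : Red μ μ' u) {K i r : ℕ} (hK : i + 2 * r ≤ K)
    {w : ι → ℚ_[p]} (hw : ‖w‖ ≤ (p : ℝ) ^ i) : E μ μ' w K (r + 1) (c μ μ' H K w) := by
  obtain ⟨k, rfl⟩ : ∃ k, K = k + r := ⟨K - r, by omega⟩
  have := E_iter H h k (w := ((p : ℚ_[p]) ^ r)⁻¹ • w) (by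
    rw [norm_inv_pow_smul]
    refine (mul_le_mul_of_nonneg_left hw (by positivity)).trans ?_
    rw [← pow_add]
    exact p_pow_mono (by omega)) r
  rwa [pow_smul_inv] at this

end Meas

end MTC
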