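import Pool.Agent.Lib.MP_d61fbb_ag.MT.CT2

/-! Block C of the MT project: the normalised ratio of two measure systems. -/

namespace MTC

variable {Ω : Type*} [Field Ω] {v : AbsoluteValue Ω ℝ} {p : ℕ} [Fact p.Prime]
  {ι : Type*} [Fintype ι] [DecidableEq ι] {A : Type*} {fr : A → A} {I : Type*}
  {act : I → Ω →+* Ω} {ψ : AddChar ℚ_[p] Ω}

namespace Meas

variable (μ μ' : Meas v p ι fr act ψ)

/-- the ratio of masses normalised at the origin -/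
noncomputable def d (H : Hyp v p fr act) (k : ℕ) (w : ι → ℚ_[p]) : Ω :=
  c μ μ' H k w / c μ μ' H k 0

variable {μ μ'}

theorem d_unit (H : Hyp v p fr act) {u : Ω} (h : Red μ μ' u) (k : ℕ) (w : ι → ℚ_[p]) :
    v (d μ μ' H k w) = 1 := by
  rw [d, map_div₀, c_unit H h, c_unit H h, div_one]

theorem d_sub_lt (H : Hyp v p fr act) {u : Ω} (h : Red μ μ' u) (k : ℕ) (w : ι → ℚ_[p]) :
    v (d μ μ' H k w - 1) < 1 := by
  have h0 := ne_zero_of_eq_one (c_unit H h k 0)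
  have h1 : d μ μ' H k w - 1 = (c μ μ' H k w - u - (c μ μ' H k 0 - u)) / c μ μ' H k 0 := by
    rw [d]; field_simp; ring
  rw [h1, map_div₀, c_unit H h, div_one]
  exact sub_lt H.hv (c_sub_lt H h k w) (c_sub_lt H h k 0)

theorem c_eq (H : Hyp v p fr act) {u : Ω} (h : Red μ μ' u) (k : ℕ) (w : ι → ℚ_[p]) :
    c μ μ' H k w = c μ μ' H k 0 * d μ μ' H k w := by
  have h0 := ne_zero_of_eq_one (c_unit H h k 0)
  rw [d]; field_simp

theorem d_step (H : Hyp v p fr act) {u : Ω} (h : Red μ μ' u) {K i r : ℕ} (hK : i + 2 * r ≤ K)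
    {w : ι → ℚ_[p]} (hw : ‖w‖ ≤ (p : ℝ) ^ i) :
    v (d μ μ' H (K + 1) ((p : ℚ_[p]) • w) - d μ μ' H K w ^ p ^ 2) ≤ v (p : Ω) ^ (r + 1) := by
  have h1 := (E_step H (by omega) (E_good H h hK hw)).c_sub H
  have h2 := (E_step H (by omega) (E_good H h hK (w := 0)
    (by rw [norm_zero]; positivity))).c_sub H
  rw [smul_zero] at h2
  have ht := μ.th_unit H K
  have ht' := μ'.th_unit H K
  have h3 := div_sub_div_le H.hv (by simp [c_unit H h, ht, ht']) (c_unit H h _ _)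
    (by simp [c_unit H h, ht, ht']) h1 h2
  have h4 : c μ μ' H K w ^ p ^ 2 * μ.th K / μ'.th K / (c μ μ' H K 0 ^ p ^ 2 * μ.th K / μ'.th K) =
      d μ μ' H K w ^ p ^ 2 := by
    have h0 := ne_zero_of_eq_one (c_unit H h K 0)
    have h5 := ne_zero_of_eq_one ht
    have h6 := ne_zero_of_eq_one ht'
    rw [d, div_pow]
    field_simp
  rw [h4] at h3
  exact h3.trans (vp_pow_anti H (by omega))

theorem d_iter (H : Hyp v p fr act) {u : Ω} (h : Red μ μ' u) {K i r : ℕ} (hK : i + 2 * r ≤ K)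
    {w : ι → ℚ_[p]} (hw : ‖w‖ ≤ (p : ℝ) ^ i) (m : ℕ) :
    v (d μ μ' H (K + m) ((p : ℚ_[p]) ^ m • w) - d μ μ' H K w ^ p ^ (2 * m)) ≤
      v (p : Ω) ^ (r + 1) := by
  induction m with
  | zero => simp
  | succ m ih =>
    have h1 := d_step H h (K := K + m) (i := i) (r := r) (by omega)
      (w := (p : ℚ_[p]) ^ m • w) (by
        rw [norm_pow_smul]
        exact (_root_.mul_le_of_le_one_left (norm_nonneg _)
          ((inv_pow_anti (Nat.zero_le m)).trans (by simp))).trans hw)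
    have h2 := pow_sub_pow_le H.hv (d_unit H h _ _).le (pow_le_one (d_unit H h _ _).le _) ih
      (p ^ 2)
    have h3 := trans_le H.hv h1 h2
    rwa [smul_smul, ← pow_succ', add_assoc, ← pow_mul, ← pow_add,
      show 2 * m + 2 = 2 * (m + 1) by ring] at h3

theorem d_gal (H : Hyp v p fr act) {Q : (ι → ℚ_[p]) → ℚ_[p]} (hQ0 : Q 0 = 0) {b : I → ℚ_[p]}
    (mum : ∀ σ w, μ'.q σ w - μ.q σ w = b σ * Q w) (σ : I) (k : ℕ) {w : ι → ℚ_[p]}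
    (hw : ‖w‖ ≤ (p : ℝ) ^ k) : act σ (d μ μ' H k w) = ψ (b σ * Q w) * d μ μ' H k w := by
  rw [d, map_div₀, c_gal H σ k hw, c_gal H σ k (w := 0) (by rw [norm_zero]; positivity), mum, mum,
    hQ0, mul_zero, AddChar.map_zero_eq_one, one_mul, mul_div_assoc]

theorem key (H : Hyp v p fr act) (hψ : ∀ x : ℚ_[p], ‖x‖ ≤ 1 → ψ x = 1)
    {Q : (ι → ℚ_[p]) → ℚ_[p]} (hQ : ∀ (c : ℚ_[p]) w, Q (c • w) = c ^ 2 * Q w)
    {κ : I → ℚ_[p]} (hκ : ∀ σ, ‖κ σ‖ ≤ 1) {μ1 μ2 : Meas v p ι fr act ψ} {u1 u2 : Ω}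
    (h1 : Red μ μ1 u1) (h2 : Red μ μ2 u2) {c1 c2 : ℚ_[p]}
    (m1 : ∀ σ w, μ1.q σ w - μ.q σ w = c1 * κ σ * Q w)
    (m2 : ∀ σ w, μ2.q σ w - μ.q σ w = c2 * κ σ * Q w) {w1 w2 : ι → ℚ_[p]} (hw1 : ‖w1‖ ≤ 1)
    (hw2 : ‖w2‖ ≤ 1) {n1 n2 r : ℕ}
    (hn : ‖n1 * c1 * Q w1 - n2 * c2 * Q w2‖ ≤ (p : ℝ)⁻¹ ^ (2 * r)) :
    v (d μ μ1 H (4 * r) w1 ^ n1 - d μ μ2 H (4 * r) w2 ^ n2) ≤ v (p : Ω) ^ (r + 1) := by
  have hQ0 : Q 0 = 0 := by simpa using hQ 0 0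
  have hz : ∀ w : ι → ℚ_[p], ‖w‖ ≤ 1 → ‖((p : ℚ_[p]) ^ r)⁻¹ • w‖ ≤ (p : ℝ) ^ r := by
    intro w hw
    rw [norm_inv_pow_smul]
    exact _root_.mul_le_of_le_one_right (by positivity) hw
  set x1 := d μ μ1 H (3 * r) (((p : ℚ_[p]) ^ r)⁻¹ • w1) with hx1
  set x2 := d μ μ2 H (3 * r) (((p : ℚ_[p]) ^ r)⁻¹ • w2) with hx2
  have u1 : v x1 = 1 := d_unit H h1 _ _
  have u2 : v x2 = 1 := d_unit H h2 _ _
  have e1 := d_iter H h1 (K := 3 * r) (i := r) (r := r) (by omega) (hz w1 hw1) r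
  have e2 := d_iter H h2 (K := 3 * r) (i := r) (r := r) (by omega) (hz w2 hw2) r
  rw [pow_smul_inv, show 3 * r + r = 4 * r by ring] at e1 e2
  rw [← hx1] at e1
  rw [← hx2] at e2
  have x20 : x2 ^ n2 ≠ 0 := pow_ne_zero _ (ne_zero_of_eq_one u2)
  have hy1 : v (x1 ^ n1 / x2 ^ n2) = 1 := by simp [u1, u2]
  have hy : v (x1 ^ n1 / x2 ^ n2 - 1) < 1 := by
    have a1 := pow_sub_pow_lt H.hv u1.le (by simp) (d_sub_lt H h1 _ _) n1
    have a2 := pow_sub_pow_lt H.hv u2.le (by simp) (d_sub_lt H h2 _ _) n2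
    have a3 := sub_lt H.hv a1 a2
    rw [one_pow, one_pow, sub_sub_sub_cancel_right] at a3
    rw [div_sub_one x20, map_div₀, map_pow, u2, one_pow, div_one]
    exact a3
  have hf := H.fix (x1 ^ n1 / x2 ^ n2 - 1) (fun σ => ?_) hy
  · have a1 := pow_pow_sub_le H.hv Fact.out H.p0 le_rfl hy1.le (y := 1) (by simp)
      (by rwa [pow_one]) (2 * r)
    have a2 : v ((x1 ^ p ^ (2 * r)) ^ n1 - (x2 ^ p ^ (2 * r)) ^ n2) ≤ v (p : Ω) ^ (r + 1) := by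
      have : (x1 ^ p ^ (2 * r)) ^ n1 - (x2 ^ p ^ (2 * r)) ^ n2 =
          ((x1 ^ n1 / x2 ^ n2) ^ p ^ (2 * r) - 1 ^ p ^ (2 * r)) * (x2 ^ n2) ^ p ^ (2 * r) := by
        rw [sub_mul, ← mul_pow, div_mul_cancel₀ _ x20, one_pow, one_mul, pow_right_comm,
          pow_right_comm x2]
      rw [this]
      exact mul_le_of_le_one_right (a1.trans (vp_pow_anti H (by omega)))
        (pow_le_one (pow_le_one u2.le _) _)
    have a3 := pow_sub_pow_le H.hv (d_unit H h1 _ _).le (pow_le_one u1.le _) e1 n1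
    have a4 := pow_sub_pow_le H.hv (d_unit H h2 _ _).le (pow_le_one u2.le _) e2 n2
    rw [v.map_sub] at a4
    exact trans_le H.hv (trans_le H.hv a3 a2) a4
  · have g1 := d_gal H hQ0 (b := fun σ => c1 * κ σ) m1 σ (3 * r)
      ((hz w1 hw1).trans (p_pow_mono (by omega)))
    have g2 := d_gal H hQ0 (b := fun σ => c2 * κ σ) m2 σ (3 * r)
      ((hz w2 hw2).trans (p_pow_mono (by omega)))
    rw [← hx1] at g1
    rw [← hx2] at g2
    rw [map_sub, map_one, map_div₀, map_pow, map_pow, g1, g2, mul_pow, mul_pow, mul_div_mul_comm,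
      ← AddChar.map_nsmul_eq_pow, ← AddChar.map_nsmul_eq_pow, ← AddChar.map_sub_eq_div, hψ, one_mul]
    have : n1 • (c1 * κ σ * Q (((p : ℚ_[p]) ^ r)⁻¹ • w1)) -
        n2 • (c2 * κ σ * Q (((p : ℚ_[p]) ^ r)⁻¹ • w2)) =
        κ σ * (((p : ℚ_[p]) ^ (2 * r))⁻¹ * (n1 * c1 * Q w1 - n2 * c2 * Q w2)) := by
      rw [hQ, hQ, nsmul_eq_mul, nsmul_eq_mul, mul_comm 2 r, pow_mul, inv_pow]
      ring
    rw [this, norm_mul, norm_mul, norm_inv, norm_pow, Padic.norm_p]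
    refine mul_le_one₀ (hκ σ) (by positivity) ?_
    have hpos : (0 : ℝ) < (p : ℝ)⁻¹ ^ (2 * r) :=
      pow_pos (inv_pos.2 (zero_lt_one.trans one_lt_pR)) _
    rw [inv_mul_le_iff₀ hpos, mul_one]
    exact hn

theorem d_sub_le (H : Hyp v p fr act) (hψ : ∀ x : ℚ_[p], ‖x‖ ≤ 1 → ψ x = 1)
    {Q : (ι → ℚ_[p]) → ℚ_[p]} (hQ0 : Q 0 = 0) {b : I → ℚ_[p]} (hb : ∀ σ, ‖b σ‖ ≤ 1) {u : Ω}
    (h : Red μ μ' u) (mum : ∀ σ w, μ'.q σ w - μ.q σ w = b σ * Q w) (k : ℕ) {w : ι → ℚ_[p]}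
    (hw : ‖w‖ ≤ 1) (hQw : ‖Q w‖ ≤ 1) : v (d μ μ' H k w - 1) ≤ v (p : Ω) := by
  refine H.fix _ (fun σ => ?_) (d_sub_lt H h k w)
  rw [map_sub, map_one, d_gal H hQ0 mum σ k (hw.trans (one_le_pow₀ one_lt_pR.le)), hψ, one_mul]
  rw [norm_mul]
  exact mul_le_one₀ (hb σ) (norm_nonneg _) hQw

/-- the total mass of the second system is a fixed integral polynomial in one number -/
theorem approx (H : Hyp v p fr act) (hψ : ∀ x : ℚ_[p], ‖x‖ ≤ 1 → ψ x = 1)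
    {Q : (ι → ℚ_[p]) → ℚ_[p]} (hQ : ∀ (c : ℚ_[p]) w, Q (c • w) = c ^ 2 * Q w)
    {κ : I → ℚ_[p]} (hκ : ∀ σ, ‖κ σ‖ ≤ 1) {u : Ω} (h : Red μ μ' u) {c1 : ℚ_[p]} (hc : ‖c1‖ ≤ 1)
    (m1 : ∀ σ w, μ'.q σ w - μ.q σ w = c1 * κ σ * Q w) {w0 : ι → ℚ_[p]} (hw0 : ‖w0‖ ≤ 1) {r : ℕ}
    (N : (ι → ZMod (p ^ (4 * r))) → ℕ)
    (hN : ∀ s, ‖Q (lift s) - N s * Q w0‖ ≤ (p : ℝ)⁻¹ ^ (2 * r)) (a : A) :
    v (μ'.M 0 a 0 - c μ μ' H (4 * r) 0 *
      ∑ s, μ.M (4 * r) a (lift s) * d μ μ' H (4 * r) w0 ^ N s) ≤ v (p : Ω) ^ (r + 1) := by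
  rw [μ'.add 0 (4 * r), Finset.mul_sum, ← Finset.sum_sub_distrib]
  refine sum_le H.hv _ _ (by positivity) fun s _ => ?_
  rw [zero_add, zero_add, pow_zero, one_smul]
  have h1 := (E_good H h (K := 4 * r) (i := 0) (r := r) (by omega) (w := lift s)
    (by simpa using norm_lift s)).2 a 0 0 (by rw [norm_zero]; positivity)
  simp only [add_zero] at h1
  have h2 := key H hψ hQ hκ h h m1 m1 (norm_lift s) hw0 (n1 := 1) (n2 := N s) (r := r) (by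
    have : ((1 : ℕ) : ℚ_[p]) * c1 * Q (lift s) - N s * c1 * Q w0 =
        c1 * (Q (lift s) - N s * Q w0) := by push_cast; ring
    rw [this, norm_mul]
    exact (_root_.mul_le_of_le_one_left (norm_nonneg _) hc).trans (hN s))
  rw [pow_one] at h2
  have h3 := add_le H.hv h1 (mul_le_of_le_one_left (c_unit H h (4 * r) 0).le
    (mul_le_of_le_one_left (μ.le_one (4 * r) a (lift s)) h2))
  convert h3 using 2
  rw [c_eq H h (4 * r) (lift s)]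
  ring

end Meas

end MTC
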