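import Pool.Agent.Lib.MP_d61fbb_ag.MT.D0a
import Pool.Agent.Lib.MP_d61fbb_ag.MT.DCheb

/-! Choice of the place at one inert prime. -/

set_option autoImplicit false

open Matrix

namespace Pool.Agent.MT

open Pool.Agent.Lib.MP_696deb_nt.B2

variable {l : ℕ} [Fact l.Prime] {R Ω n : Type*} [CommRing R] [Algebra ℤ_[l] R] [Field Ω]
  [Algebra ℤ_[l] Ω] [Fintype n] [DecidableEq n]

theorem d0_unit [Module.Finite ℤ_[l] R] (hm : (Ideal.span {(l : R)}).IsMaximal) {z : R}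
    (hz : ¬ (l : R) ∣ z) : IsUnit z := by
  by_contra h
  obtain ⟨M, hM, hz'⟩ := exists_max_ideal_of_mem_nonunits h
  have h1 : (M.comap (algebraMap ℤ_[l] R)).IsMaximal :=
    Ideal.isMaximal_comap_of_isIntegral_of_isMaximal M
  have h2 : (l : R) ∈ M := by
    have : (l : ℤ_[l]) ∈ M.comap (algebraMap ℤ_[l] R) := by
      rw [IsLocalRing.eq_maximalIdeal h1, PadicInt.maximalIdeal_eq_span_p]
      exact Ideal.mem_span_singleton_self _
    simpa using this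
  rw [← hm.eq_of_le hM.ne_top ((Ideal.span_singleton_le_iff_mem _).2 h2)] at hz'
  exact hz (Ideal.mem_span_singleton.1 hz')

theorem d0_not_one : ¬ (l : ℤ_[l]) ∣ 1 := fun h =>
  PadicInt.irreducible_p.not_isUnit (isUnit_of_dvd_one h)

theorem d0_gen (b : Module.Basis (Fin 3) ℤ_[l] R) :
    ∃ y : R, ∀ r : ℤ_[l], ¬ (l : R) ∣ y - algebraMap ℤ_[l] R r := by
  by_contra h
  push Not at h
  have k : ∀ i, ∃ r : ℤ_[l], ∀ j, (l : ℤ_[l]) ∣ b.repr (b i) j - r * b.repr 1 j := fun i => by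
    obtain ⟨r, w, hw⟩ := h (b i)
    refine ⟨r, fun j => ⟨b.repr w j, ?_⟩⟩
    have := congrArg (fun z => b.repr z j) hw
    rw [Algebra.algebraMap_eq_smul_one, ← nsmul_eq_mul, map_sub, map_smul, map_nsmul] at this
    simpa using this
  obtain ⟨r, hr⟩ := k 0
  obtain ⟨s, hs⟩ := k 1
  obtain ⟨a1, h1⟩ := hr 0
  obtain ⟨a2, h2⟩ := hr 1
  obtain ⟨a3, h3⟩ := hs 1
  simp only [Module.Basis.repr_self, Finsupp.single_eq_same, ne_eq, one_ne_zero,
    not_false_eq_true, Finsupp.single_eq_of_ne] at h1 h2 h3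
  exact d0_not_one (l := l) ⟨a1 + r * b.repr 1 0 * a3 - a2 * s * b.repr 1 0, by
    linear_combination h1 + r * b.repr 1 0 * h3 - s * b.repr 1 0 * h2⟩

theorem d0_split {A : Type*} [CommRing A] (π y : A) (k : ℕ) (h : ¬ π ^ k ∣ y) :
    ∃ j, j < k ∧ ∃ z, y = π ^ j * z ∧ ¬ π ∣ z := by
  induction k with
  | zero => exact absurd (by simp) h
  | succ k ih =>
    by_cases h1 : π ^ k ∣ y
    · obtain ⟨z, rfl⟩ := h1
      exact ⟨k, k.lt_succ_self, z, rfl, fun h2 => h (pow_succ π k ▸ mul_dvd_mul_left _ h2)⟩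
    · obtain ⟨j, hj, hz⟩ := ih h1
      exact ⟨j, hj.trans k.lt_succ_self, hz⟩

theorem d0_small (hl : l ≠ 2) {k : ℕ} {m : ℤ} (h : (l : ℤ_[l]) ^ k ∣ m) (hm : |m| < 3 ^ k) :
    m = 0 := by
  have h3 : 3 ≤ l := by
    have := (Fact.out : l.Prime).two_le
    omega
  refine Int.eq_zero_of_abs_lt_dvd ((PadicInt.pow_p_dvd_int_iff k m).1 h) (hm.trans_le ?_)
  exact pow_le_pow_left₀ (by norm_num) (by exact_mod_cast h3) k

theorem d0_six (hl : l ≠ 2) {k j : ℕ} {u : ℤ_[l]} (hu : IsUnit u) (hj : j + 2 ≤ k) :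
    ¬ (l : ℤ_[l]) ^ k ∣ 6 * (l ^ j * u) := by
  intro h
  have h1 : (l : ℤ_[l]) ^ j * l ^ 2 ∣ l ^ j * (6 * u) := by
    rw [← pow_add, mul_left_comm]
    exact (pow_dvd_pow _ hj).trans h
  rw [mul_dvd_mul_iff_left (pow_ne_zero _ PadicInt.irreducible_p.ne_zero), hu.dvd_mul_right] at h1
  have := d0_small hl (k := 2) (m := 6) (by exact_mod_cast h1) (by norm_num)
  omega

variable {σ : Fin 3 → R →ₐ[ℤ_[l]] Ω} {Nm : Matrix (Fin 2) (Fin 2) R →* Matrix n n ℤ_[l]}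
  {J : Matrix n n ℤ_[l]}

/-- What is asked of the Frobenius element at the inert prime. -/
def Gen0 [Algebra ℚ_[l] Ω] (σ : Fin 3 → R →ₐ[ℤ_[l]] Ω) (s : ℤ_[l]) (t : R) : Prop :=
  s ≠ 0 ∧ (∀ i (r : ℚ_[l]), σ i t ≠ algebraMap ℚ_[l] Ω r) ∧
    ∀ k : ℤ, 0 ≤ k → k ≤ 12 → σ 0 t + σ 1 t + σ 2 t ≠ k

theorem TrNm.loc [Algebra ℚ_[l] Ω] [IsScalarTower ℤ_[l] ℚ_[l] Ω] (H : TrNm σ Nm J) (h5 : 5 ≤ l)
    (b : Module.Basis (Fin 3) ℤ_[l] R) (hm : (Ideal.span {(l : R)}).IsMaximal) :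
    ∃ h : Matrix (Fin 2) (Fin 2) R, h.det = 1 ∧ ∀ (a : ℕ) (c : ℤ_[l])
      (g : Matrix (Fin 2) (Fin 2) R) (t : R), ¬ l ∣ a → t * g.det = g.trace ^ 2 →
      (c • Nm g).map (PadicInt.toZModPow 14) = (Nm h ^ a).map (PadicInt.toZModPow 14) →
      Gen0 σ (c • Nm g).trace t ∧ (σ 0 t + σ 1 t + σ 2 t - 4) ^ 2 ≠ σ 0 t * σ 1 t * σ 2 t := by
  have hl : l ≠ 2 := by omega
  have := Module.Finite.of_basis b
  have := Module.Free.of_basis b
  have hp := PadicInt.prime_p (p := l)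
  have hR : ¬ (l : R) ∣ 1 := fun h => hm.ne_top (Ideal.span_singleton_eq_top.2 (isUnit_of_dvd_one h))
  have hc : ∀ {k : ℕ} {u v : R}, (l : R) ^ k * u = l ^ k * v → u = v := fun {k u v} e => by
    refine smul_right_injective R (pow_ne_zero k hp.ne_zero) ?_
    simpa [Algebra.smul_def] using e
  have hun : ∀ {u : ℤ_[l]}, ¬ (l : ℤ_[l]) ∣ u → IsUnit u := fun {u} e => by
    by_contra f7
    exact e (Ideal.mem_span_singleton.1 (PadicInt.maximalIdeal_eq_span_p (p := l) ▸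
      (IsLocalRing.mem_maximalIdeal _).2 f7))
  have h3 : IsUnit (3 : ℤ_[l]) := by
    rw [PadicInt.isUnit_iff]
    exact_mod_cast PadicInt.norm_natCast_eq_one_iff.2
      ((Nat.coprime_primes Fact.out Nat.prime_three).2 (by omega))
  obtain ⟨x, T, E, hx, hT, hE, hT1, hE1⟩ : ∃ (x : R) (T E : ℤ_[l]),
      (∀ r : ℤ_[l], ¬ (l : R) ∣ x - algebraMap ℤ_[l] R r) ∧
      algebraMap ℤ_[l] Ω T = σ 0 x + σ 1 x + σ 2 x ∧
      algebraMap ℤ_[l] Ω E = σ 0 x * σ 1 x + σ 0 x * σ 2 x + σ 1 x * σ 2 x ∧ IsUnit T ∧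
      ¬ (l : ℤ_[l]) ∣ T ^ 2 - 4 * E := by
    obtain ⟨y, hy⟩ := d0_gen b
    obtain ⟨T, E, -, hT, hE, -⟩ := H.esym hl y
    obtain ⟨v, hv⟩ := h3.exists_right_inv
    obtain ⟨s, s1, s2⟩ : ∃ s : ℤ_[l], IsUnit s ∧ ¬ (l : ℤ_[l]) ∣ 4 * (E - v * T ^ 2) + 3 * s ^ 2 := by
      by_cases h : (l : ℤ_[l]) ∣ 4 * (E - v * T ^ 2) + 3 * 1 ^ 2
      · refine ⟨2, d0_two hl, fun e => hp.not_isUnit (isUnit_of_dvd_unit ?_ (h3.pow 2))⟩
        convert e.sub h using 1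
        ring
      · exact ⟨1, isUnit_one, h⟩
    refine ⟨y + algebraMap ℤ_[l] R (s - v * T), T + 3 * (s - v * T),
      E + 2 * (s - v * T) * T + 3 * (s - v * T) ^ 2, fun r e => hy (r - (s - v * T)) ?_, ?_, ?_,
      ?_, fun e => s2 ?_⟩
    · rwa [map_sub, ← sub_add, sub_add_eq_add_sub]
    · simp only [map_add, map_mul, map_ofNat, hT, AlgHom.commutes]
      ring
    · simp only [map_add, map_mul, map_ofNat, map_pow, hT, hE, AlgHom.commutes]
      ring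
    · convert h3.mul s1 using 1
      linear_combination -T * hv
    · convert e.neg_right using 1
      linear_combination (2 * s * T - T ^ 2 - v * T ^ 2) * hv
  have hT2 : ¬ (l : ℤ_[l]) ^ 2 ∣ T := fun e =>
    hp.not_isUnit (isUnit_of_dvd_unit ((dvd_pow_self _ two_ne_zero).trans e) hT1)
  have hd : (!![1 + l ^ 4 * x, l ^ 2; l ^ 2 * x, 1] : Matrix (Fin 2) (Fin 2) R).det = 1 := by
    rw [det_fin_two_of]
    ring
  refine ⟨_, hd, fun a c g t ha ht hcong => ?_⟩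
  obtain ⟨y, hy⟩ := d0_cheb _ (l ^ 4 * x) hd (by rw [trace_fin_two_of]; ring) a
  have hd' := congrArg (· ^ a) hd
  simp only [← det_pow, one_pow] at hd'
  rw [← map_pow] at hcong
  generalize (!![1 + l ^ 4 * x, l ^ 2; l ^ 2 * x, 1] : Matrix (Fin 2) (Fin 2) R) ^ a = h
    at hy hd' hcong
  obtain ⟨w, hw⟩ : ∃ w : R, h.trace ^ 2 = 4 + l ^ 4 * (4 * a ^ 2 * x + l ^ 4 * w) :=
    ⟨4 * x ^ 2 * y + (a ^ 2 * x + l ^ 4 * x ^ 2 * y) ^ 2, by rw [hy]; ring⟩
  obtain ⟨d, hdd⟩ := H.nrm g.det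
  obtain ⟨e1, e2, e3, k1, k2, k3⟩ := H.esym hl t
  obtain ⟨e1', e2', e3', k1', k2', k3'⟩ := H.esym hl (h.trace ^ 2)
  obtain ⟨a1, a2, a3⟩ := H.ids c ht hdd k1 k2 k3
  obtain ⟨b1, b2, b3⟩ := H.ids (g := h) (d := 1) 1 (by rw [hd', mul_one]) (by simp [hd'])
    k1' k2' k3'
  simp only [one_smul, one_pow, one_mul] at b1 b2 b3
  have kk : ∀ u v : ℤ_[l], PadicInt.toZModPow 14 u = PadicInt.toZModPow 14 v →
      (l : ℤ_[l]) ^ 14 ∣ u - v := fun u v e => by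
    rw [← Ideal.mem_span_singleton, ← PadicInt.ker_toZModPow, RingHom.mem_ker, map_sub, e, sub_self]
  have ktr : ∀ k : ℕ, (l : ℤ_[l]) ^ 14 ∣ ((c • Nm g) ^ k).trace - (Nm h ^ k).trace := fun k =>
    kk _ _ (by rw [AddMonoidHom.map_trace, AddMonoidHom.map_trace, Matrix.map_pow, Matrix.map_pow,
      hcong])
  have kq : (l : ℤ_[l]) ^ 14 ∣ c ^ 2 * d - 1 := by
    obtain ⟨i, j, hu⟩ := H.un
    have s1 : (c • Nm g)ᵀ * J * (c • Nm g) = (c ^ 2 * d) • J := by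
      rw [transpose_smul, smul_mul_assoc, smul_mul_assoc, mul_smul_comm, H.sim g d hdd, smul_smul,
        smul_smul, sq]
    have s2 := H.sim h 1 (by simp [hd'])
    have s3 : ((c ^ 2 * d) • J).map (PadicInt.toZModPow 14) =
        ((1 : ℤ_[l]) • J).map (PadicInt.toZModPow 14) := by
      rw [← s1, ← s2, Matrix.map_mul, Matrix.map_mul, Matrix.map_mul, Matrix.map_mul,
        transpose_map, transpose_map, hcong]
    have s4 := kk _ _ (congrFun (congrFun s3 i) j)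
    rwa [Matrix.smul_apply, Matrix.smul_apply, ← sub_smul, smul_eq_mul, hu.dvd_mul_right] at s4
  have h4 : IsUnit (4 * a ^ 2 : ℤ_[l]) := by
    refine ((show (4 : ℤ_[l]) = 2 ^ 2 by norm_num) ▸ (d0_two hl).pow 2).mul (IsUnit.pow 2 ?_)
    rw [PadicInt.isUnit_iff]
    exact PadicInt.norm_natCast_eq_one_iff.2 ((Fact.out : l.Prime).coprime_iff_not_dvd.2 ha)
  have hu : IsUnit e3' := by
    refine H.nrm_unit (x := h.trace ^ 2) (d0_unit hm fun e => hR ?_)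
      (by rw [k3', Fin.prod_univ_three])
    rw [hw, dvd_add_left ((dvd_pow_self _ (by norm_num)).mul_right _)] at e
    have h2 : IsUnit (algebraMap ℤ_[l] R (2 ^ 2)) := ((d0_two hl).pow 2).map _
    rw [map_pow, map_ofNat, show (2 : R) ^ 2 = 4 by norm_num] at h2
    exact e.trans h2.dvd
  have c1 := ktr 1
  rw [pow_one, pow_one] at c1
  obtain ⟨d3, d2, d1⟩ := d0_cong a1 a2 a3 b1 b2 b3 hu c1 (ktr 2) (ktr 3) kq
  refine ⟨⟨fun e => ?_, fun i r e => ?_, fun k k0 k12 e => ?_⟩, fun e => ?_⟩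
  · rw [e, zero_sub, dvd_neg] at c1
    exact hp.not_isUnit (isUnit_of_dvd_unit
      (((dvd_pow_self _ (by norm_num)).trans c1).pow (n := 2) (by norm_num)) (b1 ▸ hu))
  · obtain ⟨r, rfl⟩ : ∃ y, algebraMap ℤ_[l] ℚ_[l] y = r := by
      refine IsIntegrallyClosed.isIntegral_iff.1 ?_
      rw [← isIntegral_algHom_iff (IsScalarTower.toAlgHom ℤ_[l] ℚ_[l] Ω)
        (algebraMap ℚ_[l] Ω).injective, IsScalarTower.coe_toAlgHom', ← e]
      exact (Algebra.IsIntegral.isIntegral t).map _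
    rw [← IsScalarTower.algebraMap_apply] at e
    have f1 : r ^ 3 - e1 * r ^ 2 + e2 * r - e3 = 0 := H.inj (by
      simp only [map_sub, map_add, map_mul, map_pow, k1, k2, k3, map_zero, ← e]
      fin_cases i <;> simp only [Fin.zero_eta, Fin.mk_one, Fin.reduceFinMk] <;> ring)
    have f2 : ¬ (l : R) ^ 5 ∣ algebraMap ℤ_[l] R r - h.trace ^ 2 := by
      rintro ⟨z, hz⟩
      by_cases f3 : (l : ℤ_[l]) ^ 4 ∣ r - 4
      · obtain ⟨r', hr'⟩ := f3
        obtain ⟨v, hv⟩ := h4.exists_right_inv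
        have f4 := congrArg (algebraMap ℤ_[l] R) hr'
        have f5 := congrArg (algebraMap ℤ_[l] R) hv
        simp only [map_sub, map_mul, map_pow, map_natCast, map_ofNat, map_one] at f4 f5
        have f6 : algebraMap ℤ_[l] R r' - (4 * a ^ 2 * x + l ^ 4 * w) = l * z :=
          hc (k := 4) (by linear_combination hz + hw - f4)
        refine hx (v * r') ⟨-(algebraMap ℤ_[l] R v * (z + l ^ 3 * w)), ?_⟩
        rw [map_mul]
        linear_combination -algebraMap ℤ_[l] R v * f6 - x * f5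
      · obtain ⟨j, hj, u, f4, f5⟩ := d0_split _ _ _ f3
        have f6 : IsUnit u := by
          by_contra f7
          exact f5 (Ideal.mem_span_singleton.1 (PadicInt.maximalIdeal_eq_span_p (p := l) ▸
            (IsLocalRing.mem_maximalIdeal _).2 f7))
        have f7 := congrArg (algebraMap ℤ_[l] R) f4
        simp only [map_sub, map_mul, map_pow, map_natCast, map_ofNat] at f7
        obtain ⟨m, hm⟩ : ∃ m, 4 = j + (m + 1) := ⟨3 - j, by omega⟩
        have f8 : (l : R) ^ 4 = l ^ j * (l * l ^ m) := by rw [← pow_succ', ← pow_add, ← hm]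
        have f9 : algebraMap ℤ_[l] R u = l * (l ^ m * (4 * a ^ 2 * x + l ^ 4 * w + l * z)) :=
          hc (k := j) (by
            linear_combination hz + hw - f7 + (4 * a ^ 2 * x + l ^ 4 * w + l * z) * f8)
        exact hR ((Dvd.intro _ f9.symm).trans (f6.map _).dvd)
    obtain ⟨j, hj, z, f3, f4⟩ := d0_split _ _ _ f2
    obtain ⟨u, f5⟩ := H.nrm z
    have f6 : r ^ 3 - e1' * r ^ 2 + e2' * r - e3' = l ^ (3 * j) * u := H.inj (by
      have f7 : ∀ i, algebraMap ℤ_[l] Ω r - σ i (h.trace ^ 2) = l ^ j * σ i z := fun i => by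
        simpa using congrArg (σ i) f3
      simp only [map_sub, map_add, map_mul, map_pow (algebraMap ℤ_[l] Ω), k1', k2', k3', f5,
        map_natCast, Fin.prod_univ_three]
      calc _ = (algebraMap ℤ_[l] Ω r - σ 0 (h.trace ^ 2)) * (algebraMap ℤ_[l] Ω r -
            σ 1 (h.trace ^ 2)) * (algebraMap ℤ_[l] Ω r - σ 2 (h.trace ^ 2)) := by ring
        _ = _ := by
          rw [f7, f7, f7]
          ring)
    refine d0_six hl (H.nrm_unit (d0_unit hm f4) f5) (j := 3 * j) (k := 14) (by omega) ?_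
    rw [← f6, show 6 * (r ^ 3 - e1' * r ^ 2 + e2' * r - e3') = 6 * (e1 - e1') * r ^ 2 -
      6 * (e2 - e2') * r + 6 * (e3 - e3') by linear_combination 6 * f1]
    exact ((d1.mul_right _).sub (d2.mul_right _)).add (d3.mul_left _)
  · obtain ⟨T', -, -, hT', -⟩ := H.esym hl w
    have f1 : e1 = k := H.inj (by rw [k1, e, map_intCast])
    have f2 : e1' = 12 + l ^ 4 * (4 * a ^ 2 * T + l ^ 4 * T') := H.inj (by
      simp only [k1', hw, map_add, map_mul, map_pow, map_natCast, map_ofNat, hT, hT']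
      ring)
    rw [f1, f2] at d1
    have f3 : 6 * (k - 12) = 0 := by
      refine d0_small hl (k := 4) ?_ (by rw [abs_lt]; constructor <;> omega)
      have := ((pow_dvd_pow _ (by norm_num : 4 ≤ 14)).trans d1).add
        (Dvd.intro (6 * (4 * a ^ 2 * T + l ^ 4 * T')) rfl)
      convert this using 1
      push_cast
      ring
    obtain rfl : k = 12 := by omega
    obtain ⟨j, hj, u, f4, f5⟩ := d0_split _ _ _ hT2
    obtain ⟨m, hm⟩ : ∃ m, 4 = j + (m + 1) := ⟨3 - j, by omega⟩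
    have f8 : (l : ℤ_[l]) ^ 4 = l ^ j * (l * l ^ m) := by rw [← pow_succ', ← pow_add, ← hm]
    have f6 : IsUnit (4 * a ^ 2 * u + l * (l ^ m * T')) := by
      by_contra f7
      have f9 := Ideal.mem_span_singleton.1 (PadicInt.maximalIdeal_eq_span_p (p := l) ▸
        (IsLocalRing.mem_maximalIdeal _).2 f7)
      rw [dvd_add_left (dvd_mul_right _ _), h4.dvd_mul_left] at f9
      exact f5 f9
    refine d0_six hl f6 (j := 4 + j) (k := 14) (by omega) ?_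
    rw [← dvd_neg] at d1
    convert d1 using 1
    rw [f4, pow_add]
    push_cast
    linear_combination -6 * l ^ 4 * T' * f8
  · obtain ⟨T', E', -, hT', hE', -⟩ := H.esym hl w
    obtain ⟨-, E2, -, -, hE2, -⟩ := H.esym hl (x + w)
    obtain ⟨-, -, Z, -, -, hZ⟩ := H.esym hl (4 * a ^ 2 * x + l ^ 4 * w)
    have f1 : (e1 - 4) ^ 2 = e3 := H.inj (by rw [map_pow, map_sub, map_ofNat, k1, k3, e])
    have f2 : (e1' - 4) ^ 2 - e3' = l ^ 8 * ((4 * a ^ 2) ^ 2 * (T ^ 2 - 4 * E) + l * (l ^ 3 *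
        (8 * a ^ 2 * T * T' + l ^ 4 * T' ^ 2 - 16 * a ^ 2 * (E2 - E - E') - 4 * l ^ 4 * E' - Z))) :=
      H.inj (by
        simp only [k1', k3', hw, map_add, map_sub, map_mul, map_pow, map_natCast, map_ofNat, hT,
          hT', hE, hE', hE2, hZ]
        ring)
    generalize l ^ 3 * (8 * a ^ 2 * T * T' + l ^ 4 * T' ^ 2 - 16 * a ^ 2 * (E2 - E - E') -
      4 * l ^ 4 * E' - Z) = Y at f2
    refine d0_six hl (hun (u := (4 * a ^ 2) ^ 2 * (T ^ 2 - 4 * E) + l * Y) fun f3 => hE1 ?_)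
      (j := 8) (k := 14) (by omega) ?_
    · rwa [dvd_add_left (dvd_mul_right _ _), (h4.pow 2).dvd_mul_left] at f3
    · rw [← f2, show 6 * ((e1' - 4) ^ 2 - e3') = 6 * (e3 - e3') - 6 * (e1 - e1') * (e1 + e1' - 8) by
        linear_combination 6 * f1]
      exact (d3.mul_left _).sub (d1.mul_right _)

/-- The density theorem for a homomorphism to a finite group. -/
theorem d_cheb_fin {H : Subgroup Gam} {G : Type*} [Group G] [Finite G] (r : H →* G)
    (hr : Op (r.ker.map H.subtype)) (s : H) (hl : l ≠ 2) (B : Finset ℕ) :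
    ∃ (w : Plc) (φ : H) (a : ℕ), w.p ∉ B ∧ IsFrob w w.p φ ∧ ¬ l ∣ a ∧ r φ = r s ^ a := by
  have hp : l.Prime := Fact.out
  obtain ⟨k, m, hm, e⟩ := Nat.exists_eq_pow_mul_and_not_dvd (orderOf_pos (r s)).ne' l hp.ne_one
  obtain ⟨w, φ, a, h1, h2, h3, h4⟩ := d_cheb r hr (s ^ m) (k := k) hp
    (by have := hp.two_le; omega)
    (by rw [map_pow, ← pow_mul, mul_comm, ← e, pow_orderOf_eq_one]) B
  exact ⟨w, φ, m * a, h1, h2, fun h => (hp.dvd_mul.1 h).elim hm h3, by rw [h4, map_pow, pow_mul]⟩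

/-- The choice of the place. -/
theorem TrNm.choice [Algebra ℚ_[l] Ω] [IsScalarTower ℤ_[l] ℚ_[l] Ω] (H : TrNm σ Nm J)
    (h5 : 5 ≤ l) (b : Module.Basis (Fin 3) ℤ_[l] R) (hm : (Ideal.span {(l : R)}).IsMaximal)
    {G : Subgroup Gam} (ρ : G →* Matrix n n ℤ_[l])
    (cont : ∀ N : ℕ, ∃ U : Subgroup Gam, Op U ∧ U ≤ G ∧
      ∀ s : G, s.1 ∈ U → ∀ i j, (l : ℤ_[l]) ^ N ∣ (ρ s - 1) i j)
    (big : ∀ h : Matrix (Fin 2) (Fin 2) R, h.det = 1 → ∃ s, ρ s = Nm h) (B : Finset ℕ) :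
    ∃ (w : Plc) (φ : G), w.p ∉ B ∧ IsFrob w w.p φ ∧ ∀ (c : ℤ_[l]) (g : Matrix (Fin 2) (Fin 2) R)
      (t : R), ρ φ = c • Nm g → t * g.det = g.trace ^ 2 → Gen0 σ (ρ φ).trace t ∧
        (σ 0 t + σ 1 t + σ 2 t - 4) ^ 2 ≠ σ 0 t * σ 1 t * σ 2 t := by
  obtain ⟨h, h1, h2⟩ := H.loc h5 b hm
  obtain ⟨s, hs⟩ := big h h1
  obtain ⟨U, u1, u2, u3⟩ := cont 14
  let f : Matrix n n ℤ_[l] →+* Matrix n n (ZMod (l ^ 14)) := (PadicInt.toZModPow 14).mapMatrix
  let r := (f.toMonoidHom.comp ρ).toHomUnits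
  have hr : Op (r.ker.map G.subtype) := by
    refine Subgroup.isOpen_mono (fun x hx => ⟨⟨x, u2 hx⟩, Units.ext ?_, rfl⟩) u1
    change f (ρ _) = 1
    rw [← sub_eq_zero, ← map_one f, ← map_sub]
    ext i j
    have := u3 ⟨x, u2 hx⟩ hx i j
    rwa [← Ideal.mem_span_singleton, ← PadicInt.ker_toZModPow] at this
  obtain ⟨w, φ, a, k1, k2, k3, k4⟩ := d_cheb_fin (l := l) r hr s (by omega) B
  refine ⟨w, φ, k1, k2, fun c g t e ht => e ▸ h2 a c g t k3 ht ?_⟩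
  have k5 : f (ρ φ) = f (ρ s) ^ a :=
    (congrArg Units.val k4).trans (Units.val_pow_eq_pow_val _ _)
  rw [e, hs, ← map_pow] at k5
  exact k5

end Pool.Agent.MT
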