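import Pool.Agent.Lib.MP_d61fbb_ag.MT.DOrd

/-! The sextic field attached to a good Weil polynomial. -/

set_option autoImplicit false

open Polynomial Finset QuadraticAlgebra

namespace Pool.Agent.MT

variable {P : ℤ[X]} {p : ℕ}

theorem d_norm_prod {F Ω ι : Type} [Field F] [NumberField F] [Field Ω] [CharZero Ω] [Fintype ι]
    (hc : Fintype.card ι = Module.finrank ℚ F) (φ : ι → F →+* Ω) (hφ : Function.Injective φ)
    (a : F) : ((Algebra.norm ℚ a : ℚ) : Ω) = ∏ i, φ i a := by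
  let j := algebraMap Ω (AlgebraicClosure Ω)
  refine j.injective ?_
  rw [map_ratCast, ← eq_ratCast (algebraMap ℚ _), Algebra.norm_eq_prod_embeddings, map_prod]
  refine (Fintype.prod_bijective (fun i => (j.comp (φ i)).toRatAlgHom)
    ((Fintype.bijective_iff_injective_and_card _).2 ⟨fun i k e => hφ (RingHom.ext fun x =>
      j.injective (DFunLike.congr_fun e x)), hc.trans (AlgHom.card ..).symm⟩) _ _
    fun _ => rfl).symm

theorem d_ext {F Ω : Type} [Field F] [CharZero F] [Field Ω] [CharZero Ω] {t : F}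
    (ht : Algebra.adjoin ℚ {t} = ⊤) {φ ψ : F →+* Ω} (e : φ t = ψ t) (a : F) : φ a = ψ a :=
  DFunLike.congr_fun (AlgHom.ext_of_adjoin_eq_top (φ₁ := φ.toRatAlgHom) (φ₂ := ψ.toRatAlgHom) ht
    fun _ hx => hx ▸ e) a

theorem d_root_map {F Ω : Type} [Field F] [CharZero F] [Field Ω] [CharZero Ω] (φ : F →+* Ω)
    (g : ℚ[X]) (a : F) : aeval (φ a) g = φ (aeval a g) :=
  aeval_algHom_apply φ.toRatAlgHom a g

theorem map_tt {F Ω : Type} [Field F] [Field Ω] (φ : F →+* Ω) (a : F) :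
    φ (tt a) = tt (φ a) := by
  simp [tt, map_ofNat]

theorem Good.norm_u (h : Good P p) {w : ℂ} {u : Fin 3 → ℂ} (k : Pres P p w u) (i : Fin 3) :
    ‖u i‖ = 1 := by
  have h2 : lam w u (Pi.single i 1) = lam w u 0 * u i := by
    rw [lam, prod_eq_single i (fun j _ hj => by simp [hj]) (by simp)]
    simp [lam]
  have h3 := h.weil _ (k.root (Pi.single i 1))
  rw [h2, norm_mul, mul_pow, h.weil _ (k.root 0),
    mul_eq_left₀ (Nat.cast_ne_zero.2 h.prime.ne_zero)] at h3
  exact (pow_eq_one_iff_of_nonneg (norm_nonneg _) two_ne_zero).1 h3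

theorem Good.norm_root (h : Good P p) {x : ℂ} (h0 : x ≠ 0) (hx : aeval (tt x) (cub P p) = 0) :
    (starRingEnd ℂ) x = x⁻¹ ∧ (starRingEnd ℂ) (tt x) = tt x := by
  obtain ⟨w, u, k⟩ := h.pres
  rw [aeval_def, eval₂_eq_eval_map, (k.cubic h.prime.ne_zero h.s1).1, eval_prod,
    prod_eq_zero_iff] at hx
  obtain ⟨i, -, hi⟩ := hx
  have h1 := (k.ne h.prime.ne_zero).2 i
  have h2 : (x - u i) * (x - (u i)⁻¹) = 0 := by
    simp only [eval_sub, eval_X, eval_C, tt] at hi
    field_simp at hi ⊢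
    linear_combination hi
  have h3 : ‖x‖ = 1 := by
    rcases mul_eq_zero.1 h2 with e | e <;> simp [sub_eq_zero.1 e, h.norm_u k]
  have h4 := (Complex.inv_eq_conj h3).symm
  exact ⟨h4, by simp [tt, h4, add_comm, map_ofNat]⟩

theorem Good.cubFld (h : Good P p) : ∃ (F : Type) (_ : Field F) (_ : NumberField F) (t : F),
    Module.finrank ℚ F = 3 ∧ Algebra.adjoin ℚ {t} = ⊤ ∧ aeval t (cub P p) = 0 ∧
    ∀ (Ω : Type) [Field Ω] [CharZero Ω] (x : Ω), aeval x (cub P p) = 0 →
      ∃ ψ : F →+* Ω, ψ t = x := by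
  have := Fact.mk h.irred.1
  refine ⟨AdjoinRoot (cub P p), inferInstance, inferInstance, AdjoinRoot.root _, ?_, ?_, ?_,
    fun Ω _ _ x hx => ⟨AdjoinRoot.lift _ x hx, AdjoinRoot.lift_root _⟩⟩
  · exact ((AdjoinRoot.powerBasis h.irred.2.1.ne_zero).finrank).trans h.irred.2.2
  · exact AdjoinRoot.adjoinRoot_eq_top
  · exact (AdjoinRoot.aeval_eq _).trans AdjoinRoot.mk_self

theorem Good.fld (h : Good P p) : ∃ (E : Type) (_ : Field E) (_ : NumberField E)
    (c : E ≃ₐ[ℚ] E) (U : E) (ν : E → ℚ), Module.finrank ℚ E = 6 ∧ (∀ a, c (c a) = a) ∧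
    c U * U = 1 ∧ Algebra.adjoin ℚ {U} = ⊤ ∧ aeval (tt U) (cub P p) = 0 ∧
    ∀ (Ω : Type) [Field Ω] [CharZero Ω] (w : Ω) (u : Fin 3 → Ω), Pres P p w u →
      ∃ φ : Fin 3 → E →+* Ω, (∀ i, φ i U = u i) ∧ (∀ a, (ν a : Ω) = ∏ i, φ i (c a + a)) ∧
        ∀ a, ((Algebra.norm ℚ a : ℚ) : Ω) = ∏ i, φ i (a * c a) := by
  obtain ⟨F, _, _, t, h3, ht, hr, hl⟩ := h.cubFld
  have : Fact (∀ r : F, r ^ 2 ≠ -1 + (t - 2) * r) := ⟨fun r e => by
    obtain ⟨w, u, k⟩ := h.pres
    obtain ⟨ψ, -⟩ := hl ℂ _ (h.tt_root k 0)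
    have h0 : r ≠ 0 := by
      rintro rfl
      simp at e
    have h1 : tt r = t := by
      rw [tt]
      field_simp
      linear_combination e
    obtain ⟨h2, h4⟩ := h.norm_root ((map_ne_zero ψ).2 h0)
      (by rw [← map_tt, d_root_map, h1, hr, map_zero])
    rw [← map_tt, h1] at h4
    have h5 : r = r⁻¹ := ψ.injective (by
      rw [map_inv₀, ← h2]
      exact (d_ext ht (φ := (starRingEnd ℂ).comp ψ) h4 r).symm)
    have h6 : ∀ q : ℚ, t ≠ q := fun q e => h.irr q ((algebraMap ℚ F).injective (by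
      rw [← aeval_algebraMap_apply_eq_algebraMap_eval, eq_ratCast, ← e, hr, map_zero]))
    rcases mul_self_eq_one_iff.1 ((mul_eq_one_iff_eq_inv₀ h0).2 h5) with rfl | rfl
    · exact h6 4 (by rw [← h1, tt]; norm_num)
    · exact h6 0 (by rw [← h1, tt]; norm_num)⟩
  let E := QuadraticAlgebra F (-1) (t - 2)
  have h6 : Module.finrank ℚ E = 6 := by
    rw [← Module.finrank_mul_finrank ℚ F E, h3, finrank_eq_two]
  have : NumberField E := @NumberField.mk _ _ _ (Module.finite_of_finrank_eq_succ h6)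
  let c : E ≃ₐ[ℚ] E := { (starRingAut : E ≃+* E) with
    commutes' := fun q => by ext <;> simp }
  have hc : ∀ a, c a = star a := fun _ => rfl
  have h1 : c ω * ω = 1 := by ext <;> simp [hc, E]
  have h2 : tt (ω : E) = algebraMap F E t := by
    rw [tt, ← eq_inv_of_mul_eq_one_left h1]
    ext <;> simp [hc, E]
  refine ⟨E, inferInstance, inferInstance, c, ω, fun a => Algebra.norm ℚ (trace a), h6,
    fun a => star_star a, h1, ?_, ?_, fun Ω _ _ w u k => ?_⟩
  · have h4 := Algebra.self_mem_adjoin_singleton ℚ (ω : E)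
    have h5 : ∀ y : F, algebraMap F E y ∈ Algebra.adjoin ℚ {(ω : E)} := fun y => by
      refine (Algebra.adjoin_le (S := (Algebra.adjoin ℚ {(ω : E)}).comap
        (IsScalarTower.toAlgHom ℚ F E)) ?_) (ht ▸ Algebra.mem_top : y ∈ Algebra.adjoin ℚ {t})
      rw [Set.singleton_subset_iff]
      change algebraMap F E t ∈ Algebra.adjoin ℚ {(ω : E)}
      rw [← h2]
      exact add_mem (add_mem h4 (Subalgebra.inv_mem_of_algebraic _ (x := ⟨_, h4⟩)
        (Algebra.IsAlgebraic.isAlgebraic _))) (ofNat_mem _ 2)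
    refine eq_top_iff.2 fun z _ => ?_
    rw [← mk_eta z, mk_eq_add_smul_omega, Algebra.smul_def]
    exact add_mem (h5 _) (mul_mem (h5 _) h4)
  · rw [h2, aeval_algebraMap_apply, hr, map_zero]
  · choose ψ hψ using fun i => hl Ω _ (h.tt_root k i)
    have h4 : ∀ i, ∃ φ : E →+* Ω, φ ω = u i ∧ ∀ y, φ (algebraMap F E y) = ψ i y := fun i => by
      let _ := (ψ i).toAlgebra
      let φ := QuadraticAlgebra.lift (R := F) (a := -1) (b := t - 2) ⟨u i, by
        have := (k.ne h.prime.ne_zero).2 i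
        simp only [Algebra.smul_def, RingHom.algebraMap_toAlgebra, map_sub, hψ, tt, map_ofNat,
          map_neg, map_one]
        field_simp
        ring⟩
      exact ⟨φ.toRingHom, congrArg Subtype.val (lift.left_inv _), φ.commutes⟩
    choose φ h4 h5 using h4
    have h7 := d_norm_prod (by simp [h3]) ψ fun i j e => h.tt_inj k (by simp only [← hψ, e])
    refine ⟨φ, h4, fun a => ?_, fun a => ?_⟩
    · rw [h7]
      exact prod_congr rfl fun i _ => (h5 i _).symm.trans
        (congrArg _ ((algebraMap_trace_eq_add_star a).trans (add_comm ..)))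
    · have h8 : Algebra.norm F a = a.norm := det_toLinearMap_eq_norm a
      rw [← Algebra.norm_norm (S := F), h7, h8]
      exact prod_congr rfl fun i _ => (h5 i _).symm.trans
        (congrArg _ (algebraMap_norm_eq_mul_star a))

end Pool.Agent.MT
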