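import Pool.Agent.Lib.MP_d61fbb_ag.MT.GCub

/-! A generator of the cubic algebra in general position. -/

set_option autoImplicit false

noncomputable section

open Matrix Polynomial

namespace Pool.Agent.MT

variable {l : ℕ} [Fact l.Prime]

theorem dn0_norm (x : ℤ_[l]) : ‖algebraMap ℤ_[l] (PadicAlgCl l) x‖ = ‖x‖ :=
  PadicAlgCl.norm_extends l x

theorem dn0_le {z : PadicAlgCl l} (h : IsIntegral ℤ_[l] z) : ‖z‖ ≤ 1 := by
  let O := (NormedField.valuation (K := PadicAlgCl l)).integer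
  let f : ℤ_[l] →+* O := (algebraMap ℤ_[l] (PadicAlgCl l)).codRestrict O fun x =>
    (show ‖_‖ ≤ 1 from (dn0_norm x).trans_le x.2)
  obtain ⟨p, hp, h0⟩ := h
  refine (Valuation.integer.integers (NormedField.valuation (K := PadicAlgCl l))).mem_of_integral
    ⟨p.map f, hp.map f, ?_⟩
  rw [eval₂_map]
  exact h0

theorem dn0_one {a b : PadicAlgCl l} (ha : ‖a‖ ≤ 1) (hb : ‖b‖ ≤ 1) (h : 1 ≤ ‖a * b‖) :
    ‖a‖ = 1 ∧ ‖b‖ = 1 := by
  rw [norm_mul] at h
  have := norm_nonneg a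
  have := norm_nonneg b
  constructor <;> nlinarith

theorem dn0_avoid (h7 : 7 ≤ l) (α : Fin 6 → PadicAlgCl l) :
    ∃ r : ℕ, ∀ k, 1 ≤ ‖(r : PadicAlgCl l) - α k‖ := by
  by_contra hc
  push Not at hc
  choose f hf using hc
  obtain ⟨r, s, hrs, h⟩ := Fintype.exists_ne_map_eq_of_card_lt (fun r : Fin 7 => f r) (by simp)
  have h1 : ‖(((r : ℕ) - (s : ℕ) : ℤ) : PadicAlgCl l)‖ < 1 := by
    have : (((r : ℕ) - (s : ℕ) : ℤ) : PadicAlgCl l) = (r - α (f r)) + -(s - α (f s)) := by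
      rw [h]; push_cast; ring
    rw [this]
    exact (IsUltrametricDist.norm_add_le_max _ _).trans_lt
      (max_lt (hf _) (by rw [norm_neg]; exact hf _))
  rw [← map_intCast (algebraMap ℤ_[l] (PadicAlgCl l)), dn0_norm,
    PadicInt.norm_int_lt_one_iff_dvd] at h1
  have h2 := Int.eq_zero_of_abs_lt_dvd h1 (by rw [abs_lt]; constructor <;> omega)
  exact hrs (Fin.ext (by omega))

namespace Cub

variable (D : Cub l)

theorem sig_le (i : Fin 3) (x : AdjoinRoot D.c) : ‖D.σ i x‖ ≤ 1 := by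
  have := Module.Finite.of_basis D.bas
  exact dn0_le ((Algebra.IsIntegral.isIntegral x).map _)

theorem sig_mk (i : Fin 3) (q : ℤ_[l][X]) :
    D.σ i (AdjoinRoot.mk _ q) = aeval (D.σ i (AdjoinRoot.root _)) q := by
  rw [aeval_algHom_apply, AdjoinRoot.aeval_eq]

theorem c_fac : D.c.map (algebraMap ℤ_[l] (PadicAlgCl l)) =
    ∏ i, (X - C (D.σ i (AdjoinRoot.root _))) := by
  have hi : Function.Injective fun i => D.σ i (AdjoinRoot.root _) := fun i j h =>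
    D.inj (AdjoinRoot.algHom_ext h)
  refine eq_of_monic_of_dvd_of_natDegree_le (monic_prod_X_sub_C _ _) (D.monic.map _)
    (Finset.prod_dvd_of_coprime (fun i _ j _ h => pairwise_coprime_X_sub_C hi h) fun i _ => ?_) ?_
  · rw [dvd_iff_isRoot, IsRoot, eval_map_algebraMap, ← sig_mk, AdjoinRoot.mk_self, map_zero]
  · rw [D.monic.natDegree_map, D.deg, natDegree_finsetProd_X_sub_C_eq_card]
    simp

theorem der_norm (i : Fin 3) : ‖aeval (D.σ i (AdjoinRoot.root _)) D.c.derivative‖ = 1 := by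
  have hs : Function.Surjective (Polynomial.map (PadicInt.toZMod (p := l))) :=
    map_surjective _ (ZMod.ringHom_surjective _)
  obtain ⟨a, b, h⟩ := D.sep
  obtain ⟨a, rfl⟩ := hs a
  obtain ⟨b, rfl⟩ := hs b
  have h2 : C (l : ℤ_[l]) ∣ a * D.c + b * D.c.derivative - 1 := (C_dvd_iff_dvd_coeff _ _).2 fun i => by
    rw [← Ideal.mem_span_singleton, ← PadicInt.maximalIdeal_eq_span_p, ← PadicInt.ker_toZMod,
      RingHom.mem_ker, ← coeff_map, Polynomial.map_sub, Polynomial.map_add, Polynomial.map_mul,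
      Polynomial.map_mul, ← derivative_map, h, Polynomial.map_one, sub_self, coeff_zero]
  obtain ⟨s, e⟩ := h2
  have h3 := congrArg (fun q => D.σ i (AdjoinRoot.mk _ q)) e
  simp only [map_sub, map_add, map_mul, map_one, AdjoinRoot.mk_self, mul_zero, zero_add,
    map_natCast] at h3
  rw [← sig_mk]
  refine (dn0_one (D.sig_le i (AdjoinRoot.mk _ b)) (D.sig_le i _) ?_).2
  rw [eq_add_of_sub_eq h3]
  have h4 : ‖(l : PadicAlgCl l) * D.σ i (AdjoinRoot.mk _ s)‖ < ‖(1 : PadicAlgCl l)‖ := by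
    rw [norm_mul, norm_one, ← map_natCast (algebraMap ℤ_[l] (PadicAlgCl l)), dn0_norm]
    exact mul_lt_one_of_nonneg_of_lt_one_left (norm_nonneg _)
      (by rw [PadicInt.norm_p]; exact inv_lt_one_of_one_lt₀ (by exact_mod_cast (Fact.out : l.Prime).one_lt))
      (D.sig_le i _)
  rw [IsUltrametricDist.norm_add_eq_max_of_norm_ne_norm h4.ne, max_eq_right h4.le, norm_one]

theorem sig_sub_le (i j : Fin 3) (x y : AdjoinRoot D.c) : ‖D.σ i x - D.σ j y‖ ≤ 1 := by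
  rw [sub_eq_add_neg]
  exact (IsUltrametricDist.norm_add_le_max _ _).trans
    (max_le (D.sig_le i x) (by rw [norm_neg]; exact D.sig_le j y))

theorem sep_norm {i j : Fin 3} (h : i ≠ j) :
    ‖D.σ i (AdjoinRoot.root _) - D.σ j (AdjoinRoot.root _)‖ = 1 := by
  have key : ∀ i, ‖eval (D.σ i (AdjoinRoot.root _)) (derivative
      (∏ i, (X - C (D.σ i (AdjoinRoot.root _)))))‖ = 1 := fun i => by
    rw [← D.c_fac, derivative_map, eval_map_algebraMap, D.der_norm]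
  have k0 := key 0
  have k1 := key 1
  simp only [Fin.prod_univ_three, derivative_mul, derivative_sub, derivative_X, derivative_C,
    eval_add, eval_mul, eval_sub, eval_X, eval_C, sub_self, sub_zero, mul_zero,
    zero_mul, add_zero, zero_add, one_mul, mul_one] at k0 k1
  obtain ⟨a1, a2⟩ := dn0_one (D.sig_sub_le _ _ _ _) (D.sig_sub_le _ _ _ _) k0.ge
  obtain ⟨a3, a4⟩ := dn0_one (D.sig_sub_le _ _ _ _) (D.sig_sub_le _ _ _ _) k1.ge
  fin_cases i <;> fin_cases j <;>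
    first | exact absurd rfl h | assumption | (rw [norm_sub_rev]; assumption)

/-- A generator in general position. -/
theorem exists_x (h7 : 7 ≤ l) : ∃ (x : AdjoinRoot D.c) (T E : ℤ_[l]),
    algebraMap ℤ_[l] (PadicAlgCl l) T = D.σ 0 x + D.σ 1 x + D.σ 2 x ∧
    algebraMap ℤ_[l] (PadicAlgCl l) E = D.σ 0 x * D.σ 1 x + D.σ 0 x * D.σ 2 x + D.σ 1 x * D.σ 2 x ∧
    IsUnit T ∧ IsUnit (T ^ 2 - 4 * E) ∧ (∀ i, ‖D.σ i x‖ = 1) ∧
    ∀ i j, i ≠ j → ‖D.σ i x - D.σ j x‖ = 1 := by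
  obtain ⟨θ, hθ⟩ : ∃ θ : Fin 3 → PadicAlgCl l, ∀ i, D.σ i (AdjoinRoot.root _) = θ i :=
    ⟨_, fun _ => rfl⟩
  obtain ⟨δ, hδ⟩ := IsAlgClosed.exists_eq_mul_self
    (4 * (θ 0 + θ 1 + θ 2) ^ 2 - 12 * (θ 0 * θ 1 + θ 0 * θ 2 + θ 1 * θ 2))
  obtain ⟨r, hr⟩ := dn0_avoid h7 ![-θ 0, -θ 1, -θ 2, -(θ 0 + θ 1 + θ 2) / 3,
    (-(θ 0 + θ 1 + θ 2) + δ) / 3, (-(θ 0 + θ 1 + θ 2) - δ) / 3]
  obtain ⟨T, E, -, hT, hE, -⟩ := D.trNm.esym (by omega) (AdjoinRoot.root D.c + (r : AdjoinRoot D.c))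
  have h3 : ‖(3 : PadicAlgCl l)‖ = 1 := by
    rw [← map_ofNat (algebraMap ℤ_[l] (PadicAlgCl l)), dn0_norm]
    exact_mod_cast PadicInt.norm_natCast_eq_one_iff.2
      ((Nat.coprime_primes Fact.out Nat.prime_three).2 (by omega))
  have hu : ∀ u : ℤ_[l], 1 ≤ ‖algebraMap ℤ_[l] (PadicAlgCl l) u‖ → IsUnit u := fun u h =>
    PadicInt.isUnit_iff.2 (le_antisymm u.2 (dn0_norm u ▸ h))
  have hx : ∀ i, D.σ i (AdjoinRoot.root D.c + (r : AdjoinRoot D.c)) = θ i + r := fun i => by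
    rw [map_add, map_natCast, hθ]
  refine ⟨_, T, E, hT, hE, hu _ ?_, hu _ ?_, fun i => le_antisymm (D.sig_le i _) ?_,
    fun i j h => ?_⟩
  · have : algebraMap ℤ_[l] (PadicAlgCl l) T = 3 * (r - -(θ 0 + θ 1 + θ 2) / 3) := by
      rw [hT, hx, hx, hx]; ring
    rw [this, norm_mul, h3, one_mul]
    exact hr 3
  · have : algebraMap ℤ_[l] (PadicAlgCl l) (T ^ 2 - 4 * E) = -(3 * ((r -
        (-(θ 0 + θ 1 + θ 2) + δ) / 3) * (r - (-(θ 0 + θ 1 + θ 2) - δ) / 3))) := by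
      rw [map_sub, map_pow, map_mul, map_ofNat, hT, hE, hx, hx, hx]
      linear_combination (1 / 3 : PadicAlgCl l) * hδ
    rw [this, norm_neg, norm_mul, h3, one_mul, norm_mul]
    exact one_le_mul_of_one_le_of_one_le (hr 4) (hr 5)
  · rw [hx, add_comm, ← sub_neg_eq_add]
    fin_cases i
    exacts [hr 0, hr 1, hr 2]
  · rw [hx, hx, add_sub_add_right_eq_sub, ← hθ, ← hθ, D.sep_norm h]

end Cub

end Pool.Agent.MT
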