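import Pool.Agent.Lib.MP_d61fbb_ag.MT.D0c

/-! From the minimal polynomial to the characteristic polynomial. -/

set_option autoImplicit false

open Matrix Polynomial Finset

namespace Pool.Agent.MT

section

variable {Ω : Type} [Field Ω] [CharZero Ω] {w : Ω} {u : Fin 3 → Ω} {p : ℕ}

omit [CharZero Ω] in
theorem lam_rev (d : Fin 3 → Fin 2) :
    lam w u d * lam w u (fun i => (d i).rev) = w ^ 2 * ∏ i, u i := by
  rw [lam, lam, mul_mul_mul_comm, ← prod_mul_distrib, sq]
  refine congrArg _ (prod_congr rfl fun i _ => ?_)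
  generalize d i = j
  fin_cases j <;> simp

theorem d_neg_root (hp : p.Prime) {z : Ω} (hz : z * z = p) {m : ℤ[X]} (h : aeval z m = 0) :
    aeval (-z) m = 0 := by
  have h1 : Irreducible (X ^ 2 - C (p : ℚ)) := X_pow_sub_C_irreducible_of_prime Nat.prime_two
    fun b e => hp.prime.not_isSquare (Rat.isSquare_natCast_iff.1 ⟨b, by rw [← e, sq]⟩)
  have h2 := minpoly.dvd ℚ z ((aeval_map_algebraMap ℚ z m).trans h)
  rw [← minpoly.eq_of_irreducible_of_monic h1 (by simp [sq, hz])
    (monic_X_pow_sub_C _ two_ne_zero)] at h2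
  rw [← aeval_map_algebraMap ℚ]
  exact aeval_eq_zero_of_dvd_aeval_eq_zero h2 (by simp [sq, hz])

theorem lam_inj_of (hp : p.Prime) (hm : w ^ 2 * ∏ i, u i = p)
    (h1 : Function.Injective fun i => tt (u i)) (h2 : ∀ i, tt (u i) ≠ 4) (h3 : ∀ i, tt (u i) ≠ 0)
    {m : ℤ[X]} (h4 : ∀ z, aeval z m = 0 ↔ ∃ d, z = lam w u d) :
    Function.Injective (lam w u) := by
  have h0 : ∀ d, lam w u d ≠ 0 := fun d =>
    left_ne_zero_of_mul ((lam_rev d).trans hm ▸ Nat.cast_ne_zero.2 hp.ne_zero)
  have hw : w ≠ 0 := left_ne_zero_of_mul (h0 0)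
  have hu : ∀ i, u i ≠ 0 := fun i => by
    simpa using prod_ne_zero_iff.1 (right_ne_zero_of_mul (h0 1)) i (mem_univ i)
  have h6 : ∀ j, u j ≠ 1 := fun j e => h2 j (by rw [e, tt]; norm_num)
  have h5 : ∀ j, u j ≠ -1 := fun j e => h3 j (by rw [e, tt]; norm_num)
  have h7 : ∀ j l, j ≠ l → u j ≠ u l ∧ u j * u l ≠ 1 := fun j l hjl =>
    ⟨fun e => hjl (h1 (by simp only [e])), fun e => hjl (h1 (by
      simp only [eq_inv_of_mul_eq_one_left e, tt, inv_inv, add_comm]))⟩
  have h8 : ∀ (i : Fin 3) (d e : Fin 3 → Fin 2), (∀ j, j ≠ i → e j = d j) →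
      lam w u e ≠ -lam w u d := fun i d e k k1 => by
    have k2 : ∏ j ∈ univ.erase i, u j ^ (e j : ℕ) = ∏ j ∈ univ.erase i, u j ^ (d j : ℕ) :=
      prod_congr rfl fun j hj => by rw [k j (ne_of_mem_erase hj)]
    rw [lam, lam, ← mul_neg, mul_right_inj' hw, ← mul_prod_erase _ _ (mem_univ i),
      ← mul_prod_erase _ _ (mem_univ i), k2, ← neg_mul,
      mul_left_inj' (prod_ne_zero_iff.2 fun j _ => pow_ne_zero _ (hu j))] at k1
    have := h5 i
    have := hu i
    generalize d i = a at k1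
    generalize e i = b at k1
    fin_cases a <;> fin_cases b <;> simp_all [eq_neg_iff_add_eq_zero, add_comm]
  intro d d' e
  by_cases k : ∃ i, d i = d' i
  · obtain ⟨i, e2⟩ := k
    have e1 := mul_left_cancel₀ hw e
    obtain ⟨j, l, hjl, hp, hf⟩ : ∃ j l : Fin 3, j ≠ l ∧ (∀ g : Fin 3 → Ω,
        ∏ x, g x = g i * (g j * g l)) ∧ ∀ x, x = i ∨ x = j ∨ x = l := by
      fin_cases i
      · exact ⟨1, 2, by decide, fun g => by simp [Fin.prod_univ_three, mul_assoc], by decide⟩
      · exact ⟨0, 2, by decide, fun g => by simp [Fin.prod_univ_three]; ring, by decide⟩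
      · exact ⟨0, 1, by decide, fun g => by simp [Fin.prod_univ_three]; ring, by decide⟩
    rw [hp, hp, e2] at e1
    have e3 := mul_left_cancel₀ (pow_ne_zero _ (hu i)) e1
    have e4 : d j = d' j ∧ d l = d' l := by
      have := h6 j
      have := h6 l
      have := h7 j l hjl
      have := hu j
      have := hu l
      generalize d j = a at e3
      generalize d' j = b at e3
      generalize d l = a' at e3
      generalize d' l = b' at e3
      fin_cases a <;> fin_cases b <;> fin_cases a' <;> fin_cases b' <;> simp_all [eq_comm]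
    funext x
    rcases hf x with rfl | rfl | rfl
    exacts [e2, e4.1, e4.2]
  · obtain rfl := (by decide : ∀ d d' : Fin 3 → Fin 2, (¬ ∃ i, d i = d' i) →
      d' = fun i => (d i).rev) d d' k
    have k1 : lam w u d * lam w u d = p := by
      nth_rw 2 [e]
      exact (lam_rev d).trans hm
    obtain ⟨x, k2⟩ := (h4 _).1 (d_neg_root hp k1 ((h4 _).2 ⟨d, rfl⟩))
    have k3 : lam w u (fun i => (x i).rev) = -lam w u d := mul_left_cancel₀ (h0 x) (by
      rw [lam_rev, hm, ← k2, neg_mul_neg, k1])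
    obtain ⟨i, k4 | k4⟩ := (by decide : ∀ d x : Fin 3 → Fin 2,
      ∃ i, (∀ j, j ≠ i → x j = d j) ∨ ∀ j, j ≠ i → (x j).rev = d j) d x
    exacts [(h8 i d x k4 k2.symm).elim, (h8 i d _ k4 k3).elim]

end

variable {l : ℕ} [Fact l.Prime] {R n : Type*} [CommRing R] [Algebra ℤ_[l] R] [Fintype n]
  [DecidableEq n]

theorem charpoly_of_min {A : Matrix n n ℤ_[l]} {m : ℤ[X]}
    (hm : minpoly ℚ_[l] (A.map (algebraMap ℤ_[l] ℚ_[l])) = m.map (Int.castRingHom _))
    (h8 : m.natDegree = Fintype.card n) : A.charpoly = m.map (Int.castRingHom _) := by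
  refine Polynomial.map_injective _ (IsFractionRing.injective ℤ_[l] ℚ_[l]) ?_
  rw [Polynomial.map_map, RingHom.eq_intCast' (RingHom.comp _ _), ← charpoly_map, ← hm]
  refine eq_of_monic_of_dvd_of_natDegree_le (minpoly.monic (Algebra.IsIntegral.isIntegral _))
    (charpoly_monic _) (minpoly_dvd_charpoly _) ?_
  rw [hm, natDegree_map_eq_of_injective (RingHom.injective_int _), h8, charpoly_natDegree_eq_dim]

variable {Ω : Type} [Field Ω] [Algebra ℤ_[l] Ω] [Algebra ℚ_[l] Ω] [IsScalarTower ℤ_[l] ℚ_[l] Ω]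
  [IsAlgClosed Ω] [CharZero Ω]

/-- At the inert prime the eigenvalues are distinct. -/
theorem min_of_gen0 {σ : Fin 3 → R →ₐ[ℤ_[l]] Ω}
    {Nm : Matrix (Fin 2) (Fin 2) R →* Matrix n n ℤ_[l]} {J : Matrix n n ℤ_[l]} (H : TrNm σ Nm J)
    (hl : l ≠ 2) {A : Matrix n n ℤ_[l]} {c : ℤ_[l]}
    {g : Matrix (Fin 2) (Fin 2) R} {t : R} (hc : Fintype.card n = 8)
    {C : Matrix n (Fin 3 → Fin 2) Ω} {C' : Matrix (Fin 3 → Fin 2) n Ω} (h1 : C * C' = 1)
    (h2 : C' * C = 1) (h3 : A.map (algebraMap ℤ_[l] Ω) * C =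
      C * (algebraMap ℤ_[l] Ω c • kp fun i : Fin 3 => g.map (σ i)))
    {m : ℤ[X]} {p : ℕ} (hp : p.Prime)
    (hm : minpoly ℚ_[l] (A.map (algebraMap ℤ_[l] ℚ_[l])) = m.map (Int.castRingHom _))
    (hq : algebraMap ℤ_[l] Ω c ^ 2 * ∏ i, σ i g.det = p) (ht : t * g.det = g.trace ^ 2)
    (hg : Gen0 σ A.trace t) : m.natDegree = 8 := by
  have e1 := charpoly_of_conj (by simpa using hc) h1 h2 h3
  have e2 : ∀ i, σ i g.det = (g.map (σ i)).det := fun i => (σ i).toRingHom.map_det g
  have e3 : ∀ i, σ i g.trace = (g.map (σ i)).trace := fun i => AddMonoidHom.map_trace (σ i) g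
  choose a b k1 k2 using fun i => eig_two (g.map (σ i)).trace (g.map (σ i)).det
  simp only [e2, k2] at hq
  have h0 := prod_ne_zero_iff.1 (right_ne_zero_of_mul (hq ▸ Nat.cast_ne_zero.2 hp.ne_zero))
  have ha := fun i => left_ne_zero_of_mul (h0 i (mem_univ i))
  have hb := fun i => right_ne_zero_of_mul (h0 i (mem_univ i))
  set z := algebraMap ℤ_[l] Ω c
  have k3 : (A.map (algebraMap ℤ_[l] Ω)).charpoly =
      ∏ d, (X - Polynomial.C (lam (z * ∏ i, b i) (fun i => a i / b i) d)) := by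
    rw [e1, kp_charpoly z _ (fun i => ![b i, a i]) (fun i => by simp [k1, add_comm])
      (fun i => by simp [k2, mul_comm])]
    refine prod_congr rfl fun d _ => ?_
    rw [lam, mul_assoc, ← prod_mul_distrib]
    congr 3
    refine prod_congr rfl fun i _ => ?_
    generalize d i = e
    fin_cases e <;> simp [mul_div_cancel₀ _ (hb i)]
  have k4 : ∀ i, tt (a i / b i) = σ i t := fun i => by
    have := congrArg (σ i) ht
    rw [map_mul, map_pow, e2, e3, k1, k2] at this
    have := ha i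
    have := hb i
    rw [tt]
    field_simp
    linear_combination -‹σ i t * _ = _›
  have k5 : (z * ∏ i, b i) ^ 2 * ∏ i, a i / b i = p := by
    rw [← hq, mul_pow, mul_assoc, ← prod_pow, ← prod_mul_distrib]
    refine congrArg _ (prod_congr rfl fun i _ => ?_)
    have := hb i
    field_simp
  have k6 : (A.map (algebraMap ℤ_[l] ℚ_[l])).map (algebraMap ℚ_[l] Ω) =
      A.map (algebraMap ℤ_[l] Ω) := by
    rw [Matrix.map_map, ← RingHom.coe_comp, ← IsScalarTower.algebraMap_eq]
  have k7 := minpoly_dvd_charpoly (A.map (algebraMap ℤ_[l] ℚ_[l]))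
  have k8 : ∀ x : Ω, aeval x m = 0 ↔ ∃ d, x = lam (z * ∏ i, b i) (fun i => a i / b i) d := by
    have : Nonempty n := Fintype.card_pos_iff.1 (by omega)
    refine fun x => ⟨fun e => ?_, ?_⟩
    · have := aeval_eq_zero_of_dvd_aeval_eq_zero (hm ▸ k7) ((aeval_map_algebraMap ℚ_[l] x m).trans e)
      rw [aeval_def, eval₂_eq_eval_map, ← charpoly_map, k6, k3, eval_prod, prod_eq_zero_iff] at this
      obtain ⟨d, -, hd⟩ := this
      exact ⟨d, by simpa [sub_eq_zero] using hd⟩
    · rintro ⟨d, rfl⟩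
      have f0 := (isRoot_prod ..).2 ⟨d, mem_univ d, root_X_sub_C.2 rfl⟩ |> (k3 ▸ ·)
      have f1 := spectrum.subset_polynomial_aeval _ (m.map (algebraMap ℤ Ω))
        ⟨_, mem_spectrum_of_isRoot_charpoly f0, rfl⟩
      have f2 := minpoly.aeval ℚ_[l] (A.map (algebraMap ℤ_[l] ℚ_[l]))
      rw [hm, ← algebraMap_int_eq, aeval_map_algebraMap] at f2
      have f3 := aeval_algHom_apply (algebraMap ℚ_[l] Ω).mapMatrix.toIntAlgHom
        (A.map (algebraMap ℤ_[l] ℚ_[l])) m
      rw [f2, map_zero] at f3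
      rw [aeval_map_algebraMap, ← k6] at f1
      erw [f3] at f1
      rw [spectrum.zero_eq] at f1
      exact (eval_map_algebraMap ..).symm.trans f1
  have k9 : Function.Injective fun i => σ i t := by
    obtain ⟨s1, s2, s3, f1, f2, f3⟩ := H.esym hl t
    let q : ℚ_[l][X] := X ^ 3 - Polynomial.C (s1 : ℚ_[l]) * X ^ 2 + Polynomial.C (s2 : ℚ_[l]) * X -
      Polynomial.C (s3 : ℚ_[l])
    have f4 : q.map (algebraMap ℚ_[l] Ω) = ∏ i, (X - Polynomial.C (σ i t)) := by
      rw [IsScalarTower.algebraMap_apply ℤ_[l] ℚ_[l] Ω, PadicInt.algebraMap_apply] at f1 f2 f3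
      simp only [q, Polynomial.map_sub, Polynomial.map_add, Polynomial.map_mul, Polynomial.map_pow,
        map_X, map_C, f1, f2, f3, Fin.prod_univ_three, map_add, map_mul]
      ring
    have f5 : q.natDegree = 3 := by
      unfold q
      compute_degree!
    refine separable_prod_X_sub_C_iff.1 (f4 ▸ (irreducible_of_degree_le_three_of_not_isRoot
      (by simp [f5]) fun r e => ?_).separable.map)
    have := e.map (f := algebraMap ℚ_[l] Ω)
    rw [f4, isRoot_prod] at this
    obtain ⟨i, -, hi⟩ := this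
    exact hg.2.1 i r (root_X_sub_C.1 hi)
  have k10 := lam_inj_of hp k5 (by simpa only [k4] using k9)
    (fun i e => hg.2.1 i 4 (by rw [← k4, e, map_ofNat]))
    (fun i e => hg.2.1 i 0 (by rw [← k4, e, map_zero])) k8
  have m0 : m ≠ 0 := fun e => minpoly.ne_zero (Algebra.IsIntegral.isIntegral _)
    (hm.trans (by rw [e, Polynomial.map_zero]))
  refine le_antisymm ?_ ?_
  · have := natDegree_le_of_dvd k7 (charpoly_monic _).ne_zero
    rwa [hm, natDegree_map_eq_of_injective (RingHom.injective_int _), charpoly_natDegree_eq_dim,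
      hc] at this
  · classical
    have := card_le_degree_of_subset_roots (p := m.map (algebraMap ℤ Ω))
      (Z := univ.image (lam (z * ∏ i, b i) fun i => a i / b i)) fun x hx => by
        obtain ⟨d, -, hd⟩ := mem_image.1 (mem_def.2 hx)
        rw [mem_roots ((Polynomial.map_ne_zero_iff (RingHom.injective_int _)).2 m0), IsRoot,
          eval_map_algebraMap]
        exact (k8 _).2 ⟨d, hd.symm⟩
    rw [card_image_of_injective _ k10, natDegree_map_eq_of_injective (RingHom.injective_int _)] at this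
    simpa using this

end Pool.Agent.MT
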