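import Pool.Agent.Lib.MP_d61fbb_ag.MT.EIdl

/-! Block E: infinitely many ideals of the class in a ray class. -/

open NumberField Ideal

namespace Pool.Agent.MT

section
variable {E : Type} [Field E] [NumberField E]

omit [NumberField E] in
theorem Mv.of_dvd {f m : ℕ} (hfm : f ∣ m) {A B : Ideal (𝓞 E)} {a β : 𝓞 E} (h : Mv m A B a β) :
    Mv f A B a β :=
  ⟨h.1, h.2.1.of_isCoprime_of_dvd_right (Nat.cast_dvd_cast hfm),
    (Nat.cast_dvd_cast hfm).trans h.2.2.1, h.2.2.2⟩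

omit [NumberField E] in
theorem Mv.drop {m k : ℕ} {A B : Ideal (𝓞 E)} {a β : 𝓞 E}
    (h : Mv m (A * span {((1 + m * k : ℕ) : 𝓞 E)}) B a β) :
    Mv m A B a (β * ((1 + m * k : ℕ) : 𝓞 E)) := by
  refine ⟨h.1, h.2.1, ?_, ?_⟩
  · obtain ⟨c, hc⟩ := h.2.2.1
    exact ⟨c + β * k, by push_cast; linear_combination hc⟩
  · rw [← h.2.2.2, ← span_singleton_mul_span_singleton]
    ring

omit [NumberField E] in
theorem Mv.mul {m : ℕ} {A B B' : Ideal (𝓞 E)} {a β a' β' : 𝓞 E} (h : Mv m A B a β)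
    (h' : Mv m 1 B' a' β') : Mv m A (B * B') (a * a') (β * β') := by
  refine ⟨mul_ne_zero h.1 h'.1, h.2.1.mul_left h'.2.1, ?_, ?_⟩
  · obtain ⟨c, hc⟩ := h.2.2.1
    obtain ⟨c', hc'⟩ := h'.2.2.1
    exact ⟨c * β' + a * c', by linear_combination β' * hc + a * hc'⟩
  · have h1 := h.2.2.2
    have h2 := h'.2.2.2
    rw [mul_one] at h2
    rw [← span_singleton_mul_span_singleton, ← span_singleton_mul_span_singleton, h2]
    calc span {β} * (span {a'} * B') * A = span {β} * A * (span {a'} * B') := by ring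
      _ = _ := by rw [h1]; ring

theorem absNorm_span_nat (t : ℕ) :
    absNorm (span {(t : 𝓞 E)}) = t ^ Module.finrank ℚ E := by
  rw [absNorm_span_natCast, RingOfIntegers.rank]

end

theorem einf_size (c d w w' : ℕ) (hw : w < w') :
    d * (c + 2) * w ^ 3 + (c + 2 * w ^ 2) * d ≤ d * (c + 2) * w' ^ 3 := by
  have h1 : (w + 1) ^ 3 ≤ w' ^ 3 := Nat.pow_le_pow_left hw 3
  have h2 : (c + 2) * w ^ 3 + (c + 2 * w ^ 2) ≤ (c + 2) * (w + 1) ^ 3 := by
    have : (c + 2) * (w + 1) ^ 3 = (c + 2) * w ^ 3 + (c + 2 * w ^ 2) +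
      (3 * c * w ^ 2 + 4 * w ^ 2 + 3 * c * w + 6 * w + 2) := by ring
    omega
  calc d * (c + 2) * w ^ 3 + (c + 2 * w ^ 2) * d
      = d * ((c + 2) * w ^ 3 + (c + 2 * w ^ 2)) := by ring
    _ ≤ d * ((c + 2) * w' ^ 3) :=
      Nat.mul_le_mul_left _ (h2.trans (Nat.mul_le_mul_left _ h1))
    _ = _ := by ring

theorem eInf_of (h : ECount) : EInf := by
  intro E _ _ cj δ f g m hf hg hm hfm hmg hδ hδf
  obtain ⟨f', Y₀, hf', hmf', hf'g, hcount⟩ := h E m g 1 hm hg hmg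
  refine ⟨f', hf', hf'g, fun A hA hAc => ?_⟩
  set d := Module.finrank ℚ E with hd
  have hd0 : d ≠ 0 := Module.finrank_pos.ne'
  -- one ideal in the ray class of `I`, prime to the set `G`
  have one : ∀ I : Ideal (𝓞 E), I ≠ 0 → (absNorm I).Coprime f' → ∀ G : Finset ℕ,
      (∀ l ∈ G, l.Prime) → ∃ (B : Ideal (𝓞 E)) (a β : 𝓞 E),
        absNorm B ≤ absNorm I * (1 + f' * ((Y₀ + 1) * 3 ^ G.card ^ 2)) ^ d ∧
        Squarefree (absNorm B) ∧ (absNorm B).Coprime (f' * g) ∧ (∀ l ∈ G, ¬ l ∣ absNorm B) ∧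
        1 ≤ (absNorm B).primeFactors.card ∧ Mv m I B a β := by
    intro I hI hIc G hG
    obtain ⟨u, hu⟩ := hmf'
    set k := (Y₀ + 1) * 3 ^ G.card ^ 2 with hk
    set t := 1 + f' * k with ht
    have hI1 : 1 ≤ absNorm I := Nat.pos_of_ne_zero (absNorm_eq_zero_iff.not.2 hI)
    have hN : absNorm (I * span {(t : 𝓞 E)}) = absNorm I * t ^ d := by
      rw [map_mul, absNorm_span_nat]
    have h3 : 1 ≤ 3 ^ G.card ^ 2 := Nat.one_le_pow _ _ (by norm_num)
    have hkt : k < t := by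
      have := Nat.mul_le_mul_right k (Nat.pos_of_ne_zero hf')
      omega
    have htN : t ≤ absNorm I * t ^ d :=
      (Nat.le_self_pow hd0 t).trans (Nat.le_mul_of_pos_left _ hI1)
    have hk1 : Y₀ + 1 ≤ k := Nat.le_mul_of_pos_right _ h3
    have hk2 : 3 ^ G.card ^ 2 ≤ k := Nat.le_mul_of_pos_left _ (Nat.succ_pos _)
    have hcop : t.Coprime f' := by rw [ht]; simp
    have hlog : (G.card : ℝ) ^ 2 ≤ Real.log (absNorm (I * span {(t : 𝓞 E)}) : ℕ) := by
      rw [hN, Real.le_log_iff_exp_le (by exact_mod_cast (by omega))]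
      have h4 : Real.exp ((G.card : ℝ) ^ 2) = Real.exp 1 ^ G.card ^ 2 := by
        rw [← Real.exp_nat_mul]; push_cast; rw [mul_one]
      have h5 : ((3 ^ G.card ^ 2 : ℕ) : ℝ) ≤ (absNorm I * t ^ d : ℕ) := by
        exact_mod_cast (by omega)
      rw [h4]
      refine le_trans ?_ h5
      push_cast
      exact pow_le_pow_left₀ (Real.exp_pos _).le Real.exp_one_lt_three.le _
    obtain ⟨S, hS, hSB⟩ := hcount (I * span {(t : 𝓞 E)})
      (by rw [hN]; exact hIc.mul_left (hcop.pow_left d)) (by rw [hN]; omega) G hG hlog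
    have hpos : (0 : ℝ) < S.card := by
      refine lt_of_lt_of_le ?_ hS
      have h6 : (1 : ℝ) < (absNorm (I * span {(t : 𝓞 E)}) : ℕ) := by
        rw [hN]; exact_mod_cast (by omega)
      exact div_pos (by linarith) (Real.log_pos h6)
    obtain ⟨B, hB⟩ := Finset.card_pos.1 (by exact_mod_cast hpos : 0 < S.card)
    obtain ⟨b1, b2, b3, b4, b5, a, β, b6⟩ := hSB B hB
    have ht' : t = 1 + m * (u * k) := by rw [ht, hu]; ring
    rw [ht'] at b6
    exact ⟨B, a, _, by rw [← hN]; exact b1.le, b2, b3, b4, b5, b6.drop⟩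
  obtain ⟨c, hc⟩ : ∃ c : ℕ, 1 + f' * (Y₀ + 1) ≤ 2 ^ c := ⟨_, Nat.lt_two_pow_self.le⟩
  obtain ⟨B₀, a₀, β₀, -, s₀, c₀, -, -, m₀⟩ := one A hA hAc ∅ (by simp)
  let P : Ideal (𝓞 E) × 𝓞 E × 𝓞 E → Prop := fun x =>
    Squarefree (absNorm x.1) ∧ (absNorm x.1).Coprime (f' * g) ∧ Mv m A x.1 x.2.1 x.2.2 ∧
      absNorm x.1 ≤ 2 ^ (absNorm B₀ + d * (c + 2) * (absNorm x.1).primeFactors.card ^ 3)
  have step : ∀ x : {x // P x}, ∃ y : {x // P x},
      (absNorm x.1.1).primeFactors.card < (absNorm y.1.1).primeFactors.card := by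
    rintro ⟨⟨B, a, β⟩, s1, c1, m1, n1⟩
    dsimp only at s1 c1 m1 n1 ⊢
    obtain ⟨B', a', β', n2, s2, c2, g2, w2, m2⟩ := one 1 one_ne_zero (by simp)
      (absNorm B).primeFactors fun l hl => Nat.prime_of_mem_primeFactors hl
    have hcop : (absNorm B).Coprime (absNorm B') := Nat.coprime_of_dvd fun l hl h1 =>
      g2 l (Nat.mem_primeFactors.2 ⟨hl, h1, s1.ne_zero⟩)
    have hw : (absNorm B).primeFactors.card < (absNorm (B * B')).primeFactors.card := by
      rw [map_mul, hcop.primeFactors_mul, Finset.card_union_of_disjoint hcop.disjoint_primeFactors]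
      omega
    refine ⟨⟨(B * B', a * a', β * β'), ?_, ?_, m1.mul m2, ?_⟩, hw⟩
    · dsimp only
      rw [map_mul]
      exact (Nat.squarefree_mul hcop).2 ⟨s1, s2⟩
    · dsimp only
      rw [map_mul]
      exact c1.mul_left c2
    · dsimp only
      set w := (absNorm B).primeFactors.card
      have h3 : 1 ≤ 3 ^ w ^ 2 := Nat.one_le_pow _ _ (by norm_num)
      have h4 : 3 ^ w ^ 2 ≤ 2 ^ (2 * w ^ 2) := by
        rw [pow_mul]
        exact Nat.pow_le_pow_left (by norm_num) _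
      have h5 : 1 + f' * ((Y₀ + 1) * 3 ^ w ^ 2) ≤ 2 ^ (c + 2 * w ^ 2) := by
        calc 1 + f' * ((Y₀ + 1) * 3 ^ w ^ 2) ≤ (1 + f' * (Y₀ + 1)) * 3 ^ w ^ 2 := by
              rw [add_mul 1, one_mul, mul_assoc]; omega
          _ ≤ _ := by rw [pow_add]; exact Nat.mul_le_mul hc h4
      rw [map_one, one_mul] at n2
      have h6 : absNorm B' ≤ 2 ^ ((c + 2 * w ^ 2) * d) := by
        rw [pow_mul]
        exact n2.trans (Nat.pow_le_pow_left h5 d)
      refine le_trans ?_ (Nat.pow_le_pow_right two_pos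
        (Nat.add_le_add_left (einf_size c d w _ hw) _))
      rw [map_mul, ← add_assoc, pow_add]
      exact Nat.mul_le_mul n1 h6
  choose nx hnx using step
  let x₀ : {x // P x} := ⟨(B₀, a₀, β₀), s₀, c₀, m₀,
    Nat.lt_two_pow_self.le.trans (Nat.pow_le_pow_right two_pos (Nat.le_add_right _ _))⟩
  let q : ℕ → {x // P x} := fun n => nx^[n] x₀
  have hmono : StrictMono fun n => (absNorm (q n).1.1).primeFactors.card :=
    strictMono_nat_of_lt_succ fun n => by
      simp only [q, Function.iterate_succ_apply']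
      exact hnx _
  set n₀ := absNorm B₀ + d * (c + 2) + 1 with hn₀
  have hcf : ∀ n, (absNorm (q n).1.1).Coprime (m * g) := fun n =>
    (q n).2.2.1.coprime_dvd_right (Nat.mul_dvd_mul_right hmf' g)
  refine ⟨fun i => (q (n₀ + i)).1.1, fun i => (q (n₀ + i)).1.2.1, fun i => (q (n₀ + i)).1.2.2,
    fun i => ⟨⟨(q _).2.1, hcf _, ?_⟩, (q _).2.2.2.1.of_dvd hfm⟩, fun i i' hii' => ?_⟩
  · refine (q _).2.2.2.2.trans (Nat.pow_le_pow_right two_pos ?_)
    have h1 : n₀ + i ≤ (absNorm (q (n₀ + i)).1.1).primeFactors.card := hmono.le_apply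
    generalize (absNorm (q (n₀ + i)).1.1).primeFactors.card = w at h1 ⊢
    have h2 : 1 ≤ w ^ 3 := Nat.one_le_pow _ _ (by omega)
    calc absNorm B₀ + d * (c + 2) * w ^ 3 ≤ (absNorm B₀ + d * (c + 2)) * w ^ 3 := by
          rw [add_mul]
          exact Nat.add_le_add_right (Nat.le_mul_of_pos_right _ h2) _
      _ ≤ w * w ^ 3 := Nat.mul_le_mul_right _ (by omega)
      _ = w ^ 4 := by ring
  · by_contra e
    have hc' : ∀ n, (absNorm (q n).1.1).Coprime f := fun n =>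
      (hcf n).coprime_dvd_right (hfm.mul_right g)
    have h1 := (eq_of_not_dif hδ hδf ((q (n₀ + i)).2.2.2.1.of_dvd hfm)
      ((q (n₀ + i')).2.2.2.1.of_dvd hfm) e hA hA).1 rfl (q _).2.1 (q _).2.1 (hc' _) (hc' _)
    have h2 : n₀ + i = n₀ + i' := hmono.injective (by simp only [h1])
    omega

end Pool.Agent.MT
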