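import Pool.Agent.Lib.MP_d61fbb_ag.MT.ECount
import Pool.Agent.Lib.MP_d61fbb_ag.MT.EInd
import Pool.Agent.Lib.MP_d61fbb_ag.MT.EInf

/-! Block E: the abstract statements. -/

namespace Pool.Agent.MT

theorem eInd : EInd := eInd_of eCount

theorem eInf : EInf := eInf_of eCount

end Pool.Agent.MT
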