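import Mathlib

/-! Block E: integers of a number field in a box whose norm avoids small primes. -/

open NumberField Ideal Finset

namespace Pool.Agent.MT

variable {E : Type} [Field E] [NumberField E]

theorem box_roots (γ : 𝓞 E) {M l : ℕ} (hl : l.Prime) (hM : ¬ l ∣ M) :
    l - Module.finrank ℚ E ≤
      ((range l).filter fun t : ℕ => ¬ (l : ℤ) ∣ Algebra.norm ℤ (γ + M * t)).card := by
  classical
  have := Fact.mk hl
  let b := RingOfIntegers.basis E
  let χ := (Algebra.leftMulMatrix b (-γ)).charpoly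
  have e : ∀ u : ℤ, Algebra.norm ℤ (γ + u) = χ.eval u := fun u => by
    rw [Matrix.eval_charpoly, Algebra.norm_eq_matrix_det b, map_add, map_neg, sub_neg_eq_add,
      add_comm]
    congr 2
    exact (Algebra.leftMulMatrix b).commutes u
  have hm : (χ.map (Int.castRingHom (ZMod l))).Monic := (Matrix.charpoly_monic _).map _
  have hd : (χ.map (Int.castRingHom (ZMod l))).natDegree = Module.finrank ℚ E := by
    rw [(Matrix.charpoly_monic _).natDegree_map, Matrix.charpoly_natDegree_eq_dim,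
      ← Module.finrank_eq_card_basis b, RingOfIntegers.rank]
  have h : ((range l).filter fun t : ℕ => (l : ℤ) ∣ Algebra.norm ℤ (γ + M * t)).card ≤
      Module.finrank ℚ E := by
    refine le_trans (card_le_card_of_injOn (t := (χ.map (Int.castRingHom (ZMod l))).roots.toFinset)
      (fun t => ((M * t : ℕ) : ZMod l)) (fun t ht => ?_) fun t ht t' ht' h => ?_)
      ((Multiset.toFinset_card_le _).trans ((Polynomial.card_roots' _).trans hd.le))
    · have h1 := (mem_filter.1 ht).2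
      rw [show (M : 𝓞 E) * t = ((M * t : ℕ) : ℤ) by simp, e, ← ZMod.intCast_zmod_eq_zero_iff_dvd]
        at h1
      refine Multiset.mem_toFinset.2 ((Polynomial.mem_roots hm.ne_zero).2 ?_)
      have h2 := Polynomial.eval_intCast_map (Int.castRingHom (ZMod l)) χ ((M * t : ℕ) : ℤ)
      rw [Int.cast_natCast] at h2
      exact h2.trans h1
    · have h2 : (M : ZMod l) ≠ 0 := by rwa [Ne, ZMod.natCast_eq_zero_iff]
      simp only [Nat.cast_mul, mul_right_inj' h2] at h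
      exact ((ZMod.natCast_eq_natCast_iff _ _ _).1 h).eq_of_lt_of_lt
        (mem_range.1 (mem_filter.1 ht).1) (mem_range.1 (mem_filter.1 ht').1)
  have := card_filter_add_card_filter_not (s := range l)
    fun t : ℕ => (l : ℤ) ∣ Algebra.norm ℤ (γ + M * t)
  rw [card_range] at this
  omega

theorem box_crt (T : Finset ℕ) (hT : ∀ l ∈ T, l.Prime) (Q : ℕ → ℕ → Prop) [∀ l t, Decidable (Q l t)]
    (hQ : ∀ l t t', t ≡ t' [MOD l] → Q l t' → Q l t) :
    ∏ l ∈ T, ((range l).filter (Q l)).card ≤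
      ((range (∏ l ∈ T, l)).filter fun t => ∀ l ∈ T, Q l t).card := by
  classical
  have h0 : ∀ i ∈ (univ : Finset T), (i : ℕ) ≠ 0 := fun i _ => (hT i i.2).ne_zero
  have h1 : Set.Pairwise (univ : Finset T) (Function.onFun Nat.Coprime fun i : T => (i : ℕ)) :=
    fun i _ j _ h => (Nat.coprime_primes (hT i i.2) (hT j j.2)).2 fun e => h (Subtype.ext e)
  rw [← prod_coe_sort, ← Fintype.card_piFinset]
  refine card_le_card_of_injOn (fun a => (Nat.chineseRemainderOfFinset a _ univ h0 h1 : ℕ))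
    (fun a ha => ?_) fun a ha a' ha' h => funext fun i => ?_
  · refine mem_filter.2 ⟨mem_range.2 ?_, fun l hl => hQ l _ _
      ((Nat.chineseRemainderOfFinset a _ univ h0 h1).2 ⟨l, hl⟩ (mem_univ _))
      (mem_filter.1 (Fintype.mem_piFinset.1 ha ⟨l, hl⟩)).2⟩
    rw [← prod_coe_sort T fun l => l]
    exact Nat.chineseRemainderOfFinset_lt_prod a _ h0 h1
  · have e := (Nat.chineseRemainderOfFinset a _ univ h0 h1).2 i (mem_univ _)
    have e' := (Nat.chineseRemainderOfFinset a' _ univ h0 h1).2 i (mem_univ _)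
    dsimp only at h
    rw [h] at e
    exact (e.symm.trans e').eq_of_lt_of_lt
      (mem_range.1 (mem_filter.1 (Fintype.mem_piFinset.1 ha i)).1)
      (mem_range.1 (mem_filter.1 (Fintype.mem_piFinset.1 ha' i)).1)

theorem norm_modEq {x y : 𝓞 E} {l : ℕ} (h : (l : 𝓞 E) ∣ x - y) :
    (l : ℤ) ∣ Algebra.norm ℤ x - Algebra.norm ℤ y := by
  classical
  let b := RingOfIntegers.basis E
  obtain ⟨u, hu⟩ := h
  rw [← ZMod.intCast_zmod_eq_zero_iff_dvd, Int.cast_sub, sub_eq_zero,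
    Algebra.norm_eq_matrix_det b, Algebra.norm_eq_matrix_det b, Int.cast_det, Int.cast_det,
    eq_add_of_sub_eq hu, map_add, ← nsmul_eq_mul, map_nsmul]
  congr 1
  ext i j
  simp [-nsmul_eq_mul, Matrix.smul_apply]

variable (E) in
theorem box_lower : ∃ c : ℕ, 1 ≤ c ∧ ∀ (M H : ℕ) (b₀ : 𝓞 E) (T : Finset ℕ), M ≠ 0 →
    (∀ l ∈ T, l.Prime ∧ ¬ l ∣ M ∧ Module.finrank ℚ E ≤ l) → ∏ l ∈ T, l ≤ H →
    ∃ S : Finset (𝓞 E), (H : ℝ) ^ Module.finrank ℚ E *
      ∏ l ∈ T, (1 - Module.finrank ℚ E / l : ℝ) ≤ S.card ∧ ∀ β ∈ S, (M : 𝓞 E) ∣ β - b₀ ∧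
        (∀ l ∈ T, ¬ (l : ℤ) ∣ Algebra.norm ℤ β) ∧
        ∀ σ : E →+* ℂ, (c * M * H : ℝ) ≤ ‖σ β‖ ∧ ‖σ β‖ ≤ 3 * (c * M * H) := by
  classical
  let b := RingOfIntegers.basis E
  obtain ⟨C, hC⟩ := exists_nat_ge (∑ i, house (b i : E))
  refine ⟨2 * C + 1, by omega, fun M H b₀ T hM hT hH => ?_⟩
  have hP : 0 < ∏ l ∈ T, l := prod_pos fun l hl => (hT l hl).1.pos
  have hb : ∀ (σ : E →+* ℂ) (n : _ → ℤ) (B : ℝ), 0 ≤ B → (∀ i, |(n i : ℝ)| ≤ B) →
      ‖σ (∑ i, n i • b i : 𝓞 E)‖ ≤ B * C := fun σ n B hB hn => by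
    simp only [zsmul_eq_mul, map_sum, map_mul, map_intCast]
    refine (norm_sum_le _ _).trans (le_trans (sum_le_sum fun i _ => ?_)
      ((mul_sum _ _ _).symm.le.trans (mul_le_mul_of_nonneg_left hC hB)))
    rw [norm_mul, Complex.norm_intCast]
    exact mul_le_mul (hn i) (norm_embedding_le_house _ σ) (norm_nonneg _) hB
  let b₁ : 𝓞 E := ∑ i, (b.repr b₀ i % M) • b i
  have h1 : (M : 𝓞 E) ∣ b₁ - b₀ := by
    refine ⟨-∑ i, (b.repr b₀ i / M) • b i, ?_⟩
    conv_lhs => rw [← b.sum_repr b₀]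
    rw [mul_neg, mul_sum, ← sum_sub_distrib, ← sum_neg_distrib]
    refine sum_congr rfl fun i _ => ?_
    rw [← sub_smul, Int.emod_def, sub_sub_cancel_left, neg_smul, mul_smul, natCast_zsmul,
      nsmul_eq_mul]
  let γ := fun n : _ → ℕ => b₁ + M * ((2 * (2 * C + 1) * H : ℕ) + ∑ i, (n i : ℤ) • b i)
  let P := (Fintype.piFinset (fun _ => range H) ×ˢ range (∏ l ∈ T, l)).filter
    fun z => ∀ l ∈ T, ¬ (l : ℤ) ∣ Algebra.norm ℤ (γ z.1 + M * z.2)
  have hM' : (M : 𝓞 E) ≠ 0 := Nat.cast_ne_zero.2 hM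
  have c1 : P.card ≤ (∏ l ∈ T, l) * (P.image fun z => γ z.1 + M * z.2).card := by
    refine card_le_mul_card_image _ _ fun β _ => ?_
    refine (card_le_card_of_injOn Prod.snd (fun z hz => (mem_product.1
      (mem_filter.1 (mem_filter.1 hz).1).1).2) fun z hz z' hz' h => Prod.ext ?_ h).trans
      (card_range _).le
    have e := (mem_filter.1 hz).2.trans (mem_filter.1 hz').2.symm
    simp only [γ, h, add_left_inj, add_right_inj, mul_right_inj' hM'] at e
    funext i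
    have := congrArg (fun x => b.repr x i) e
    simpa [Finsupp.single_apply, -zsmul_eq_mul, -natCast_zsmul] using this
  have c2 : H ^ Module.finrank ℚ E * ∏ l ∈ T, (l - Module.finrank ℚ E) ≤ P.card := by
    rw [card_eq_sum_card_fiberwise (f := Prod.fst) (t := Fintype.piFinset fun _ => range H)
      fun z hz => (mem_product.1 (mem_filter.1 hz).1).1]
    refine le_trans (le_of_eq ?_) (card_nsmul_le_sum _ _ (∏ l ∈ T, (l - Module.finrank ℚ E))
      fun n hn => ?_)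
    · rw [Fintype.card_piFinset, prod_const, card_range, card_univ,
        ← Module.finrank_eq_card_basis b, RingOfIntegers.rank, smul_eq_mul]
    refine ((prod_le_prod' fun l hl => box_roots (γ n) (hT l hl).1 (hT l hl).2.1).trans
      (box_crt T (fun l hl => (hT l hl).1) _ fun l t t' h h' h'' => h' ?_)).trans
      (card_le_card_of_injOn (fun t => (n, t)) (fun t ht => ?_) fun t _ t' _ h =>
        congrArg Prod.snd h)
    · have : (l : 𝓞 E) ∣ γ n + M * t' - (γ n + M * t) := by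
        obtain ⟨u, hu⟩ := h.dvd
        refine ⟨M * u, ?_⟩
        have := congrArg (Int.cast (R := 𝓞 E)) hu
        push_cast at this
        linear_combination M * this
      simpa using dvd_add (norm_modEq this) h''
    · exact mem_filter.2 ⟨mem_filter.2 ⟨mem_product.2 ⟨hn, (mem_filter.1 ht).1⟩,
        (mem_filter.1 ht).2⟩, rfl⟩
  refine ⟨P.image fun z => γ z.1 + M * z.2, ?_, fun β hβ => ?_⟩
  · have c3 := (Nat.cast_le (α := ℝ)).2 (c2.trans c1)
    have hP' : (0 : ℝ) < ∏ l ∈ T, (l : ℝ) := prod_pos fun l hl => Nat.cast_pos.2 (hT l hl).1.pos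
    rw [Nat.cast_mul, Nat.cast_mul, Nat.cast_pow, Nat.cast_prod, Nat.cast_prod] at c3
    refine le_of_mul_le_mul_left (le_trans (le_of_eq ?_) c3) hP'
    rw [mul_left_comm, ← prod_mul_distrib]
    refine congrArg _ (prod_congr rfl fun l hl => ?_)
    have : (l : ℝ) ≠ 0 := Nat.cast_ne_zero.2 (hT l hl).1.ne_zero
    rw [Nat.cast_sub (hT l hl).2.2]
    field_simp
  obtain ⟨⟨n, t⟩, hz, rfl⟩ := mem_image.1 hβ
  obtain ⟨hz, hz'⟩ := mem_filter.1 hz
  obtain ⟨hn, ht⟩ := mem_product.1 hz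
  refine ⟨?_, hz', fun σ => ?_⟩
  · have : γ n + M * t - b₀ = b₁ - b₀ + M * ((2 * (2 * C + 1) * H : ℕ) +
        ∑ i, (n i : ℤ) • b i + t) := by simp only [γ]; ring
    exact this ▸ dvd_add h1 (dvd_mul_right _ _)
  have hM0 : (0 : ℤ) < M := by exact_mod_cast Nat.pos_of_ne_zero hM
  have n1 := hb σ (fun i => b.repr b₀ i % M) M M.cast_nonneg fun i => by
    have h1 := Int.emod_nonneg (b.repr b₀ i) hM0.ne'
    have h2 := Int.emod_lt_of_pos (b.repr b₀ i) hM0
    rw [← Int.cast_abs, abs_of_nonneg h1]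
    exact_mod_cast h2.le
  have n2 := hb σ (fun i => n i) H H.cast_nonneg fun i => by
    have := (mem_range.1 (Fintype.mem_piFinset.1 hn i)).le
    rw [Int.cast_natCast, Nat.abs_cast]
    exact_mod_cast this
  have n3 : (t : ℝ) ≤ H := by exact_mod_cast (mem_range.1 ht).le.trans hH
  have n4 : (1 : ℝ) ≤ H := by exact_mod_cast hP.trans_le hH
  have e : σ (γ n + M * t : 𝓞 E) = ((M * (2 * (2 * C + 1) * H) : ℕ) : ℂ) +
      (σ b₁ + M * σ (∑ i, (n i : ℤ) • b i : 𝓞 E) + M * t) := by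
    simp only [γ, RingOfIntegers.coe_eq_algebraMap, map_add, map_mul, map_natCast]
    push_cast
    ring
  have n5 : ‖σ b₁ + M * σ (∑ i, (n i : ℤ) • b i : 𝓞 E) + M * t‖ ≤ (2 * C + 1) * M * H := by
    refine norm_add₃_le.trans ?_
    rw [norm_mul, norm_mul, Complex.norm_natCast, Complex.norm_natCast]
    have := mul_le_mul_of_nonneg_left n2 (M.cast_nonneg (α := ℝ))
    have := mul_le_mul_of_nonneg_left n3 (M.cast_nonneg (α := ℝ))
    have := mul_le_mul_of_nonneg_left n4 (mul_nonneg (M.cast_nonneg (α := ℝ)) C.cast_nonneg)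
    nlinarith
  have n6 := norm_add_le ((M * (2 * (2 * C + 1) * H) : ℕ) : ℂ)
    (σ b₁ + M * σ (∑ i, (n i : ℤ) • b i : 𝓞 E) + M * t)
  have n7 := norm_sub_le (σ (γ n + M * t : 𝓞 E))
    (σ b₁ + M * σ (∑ i, (n i : ℤ) • b i : 𝓞 E) + M * t)
  rw [e, add_sub_cancel_right, ← e] at n7
  rw [← e] at n6
  rw [Complex.norm_natCast] at n6 n7
  dsimp only
  generalize ‖σ (γ n + M * t : 𝓞 E)‖ = x at n6 n7 ⊢
  generalize ‖σ b₁ + M * σ (∑ i, (n i : ℤ) • b i : 𝓞 E) + M * t‖ = y at n5 n6 n7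
  push_cast at n6 n7 ⊢
  constructor <;> nlinarith

variable (E) in
theorem box_fibre : ∃ K : ℕ, 1 ≤ K ∧ ∀ (R : ℝ) (S : Finset (𝓞 E)), 0 < R →
    (∀ β ∈ S, ∀ σ : E →+* ℂ, R ≤ ‖σ β‖ ∧ ‖σ β‖ ≤ 3 * R) →
    (∀ β ∈ S, ∀ β' ∈ S, span {β} = span {β'}) → S.card ≤ K := by
  classical
  have hf := Embeddings.finite_of_norm_le E ℂ 3
  refine ⟨hf.toFinset.card + 1, by omega, fun R S hR h h' => ?_⟩
  rcases S.eq_empty_or_nonempty with rfl | ⟨β₀, h0⟩
  · simp
  obtain ⟨τ⟩ : Nonempty (E →+* ℂ) := inferInstance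
  have hn : (β₀ : E) ≠ 0 := fun e => by
    have := (h β₀ h0 τ).1
    rw [e, map_zero, norm_zero] at this
    linarith
  refine (card_le_card_of_injOn (fun β : 𝓞 E => (β : E) / β₀) (fun β hβ => hf.mem_toFinset.2 ⟨?_,
    fun σ => ?_⟩) fun β _ β' _ e => ?_).trans (Nat.le_succ _)
  · obtain ⟨u, rfl⟩ := mem_span_singleton.1 (h' β hβ β₀ h0 ▸ mem_span_singleton_self β)
    simpa [hn] using u.isIntegral_coe
  · have h1 := (h β₀ h0 σ).1
    rw [map_div₀, norm_div, div_le_iff₀ (hR.trans_le h1)]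
    linarith [(h β hβ σ).2]
  · exact RingOfIntegers.ext ((div_left_inj' hn).1 e)

theorem absNorm_le_of_emb {β : 𝓞 E} {R : ℝ} (h : ∀ σ : E →+* ℂ, ‖σ β‖ ≤ R) :
    (absNorm (span {β}) : ℝ) ≤ R ^ Module.finrank ℚ E := by
  have e := congrArg norm (Algebra.norm_eq_prod_embeddings ℚ ℂ (β : E))
  rw [← Algebra.coe_norm_int, norm_prod] at e
  rw [absNorm_span_singleton, Nat.cast_natAbs, Int.cast_abs]
  refine le_trans (le_of_eq ?_) (e.le.trans ((prod_le_prod (g := fun _ => R)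
    (fun _ _ => norm_nonneg _) fun (σ : E →ₐ[ℚ] ℂ) _ => h σ).trans (le_of_eq ?_)))
  · simp
  · rw [prod_const, card_univ, AlgHom.card]

end Pool.Agent.MT
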