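import Pool.Agent.Lib.MP_d61fbb_ag.MT.EInt
import Pool.Agent.Lib.MP_d61fbb_ag.MT.EIdl
import Pool.Agent.Lib.MP_d61fbb_ag.MT.EBox

/-! Block E: the count of partners. -/

open NumberField Ideal Filter

namespace Pool.Agent.MT

variable {E : Type} [Field E] [NumberField E]

theorem ec_cop {I : Ideal (𝓞 E)} {m : ℕ} :
    (absNorm I).Coprime m ↔ ∀ P : Ideal (𝓞 E), P.IsMaximal → I ≤ P → (m : 𝓞 E) ∉ P := by
  refine ⟨fun h P hP h1 h2 => hP.ne_top ((eq_top_iff_one _).2 ?_), fun h => ?_⟩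
  · obtain ⟨u, v, e⟩ := (Nat.isCoprime_iff_coprime.2 h).map (Int.castRingHom (𝓞 E))
    rw [← e]
    exact add_mem (mul_mem_left _ _ (by simpa using h1 (absNorm_mem I)))
      (mul_mem_left _ _ (by simpa using h2))
  · refine Nat.coprime_of_dvd fun l hl h1 ⟨u, h2⟩ => ?_
    obtain ⟨P, hP, h3, h4⟩ := exists_isMaximal_dvd_of_dvd_absNorm
      (Nat.prime_iff_prime_int.1 hl) I (Int.natCast_dvd_natCast.2 h1)
    refine h P hP (le_of_dvd h4) ?_
    have : ((l : ℤ) : 𝓞 E) ∈ P := by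
      change (l : ℤ) ∈ P.under ℤ
      rw [h3]
      exact mem_span_singleton_self _
    rw [h2, Nat.cast_mul]
    exact mul_mem_right _ _ (by simpa using this)

theorem ec_move {A c : Ideal (𝓞 E)} {a β : 𝓞 E} {f u n g : ℕ} (hA : A ≠ 0) (hn : n ≠ 0)
    (e : A * c = span {a}) (hc : absNorm c ∣ n) (hf : f ∣ u) (h1 : n.Coprime u)
    (h2 : (absNorm A).Coprime (u * n ^ 2)) (h3 : ((u * n ^ 2 : ℕ) : 𝓞 E) ∣ β - a)
    (h4 : (g : 𝓞 E) ∣ β - 1) : ∃ B, span {β} = c * B ∧ Mv f A B a β ∧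
      (absNorm B).Coprime (u * n ^ 2 * g) := by
  obtain ⟨k, hk⟩ := h3
  have hβ : β = a + u * n ^ 2 * k := by
    push_cast at hk
    linear_combination hk
  have hnc : (n : 𝓞 E) ∈ c := by
    obtain ⟨t, rfl⟩ := hc
    rw [Nat.cast_mul]
    exact mul_mem_right _ _ (absNorm_mem c)
  have hc0 : c ≠ 0 := by
    rintro rfl
    exact hn (by simpa using hc)
  have hac : a ∈ A * c := e ▸ mem_span_singleton_self a
  have hu : ∀ P : Ideal (𝓞 E), P.IsMaximal → (u : 𝓞 E) ∈ P → a ∉ P := fun P hP h h' => by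
    rcases hP.isPrime.mul_le.1 (e.le.trans ((span_singleton_le_iff_mem _).2 h')) with t | t
    · exact ec_cop.1 (h2.coprime_dvd_right (dvd_mul_right _ _)) P hP t h
    · exact ec_cop.1 (h1.coprime_dvd_left hc) P hP t h
  obtain ⟨B, hB⟩ : c ∣ span {β} := dvd_span_singleton.2 (hβ ▸ add_mem (mul_le_right hac)
    (mul_mem_right _ _ (mul_mem_left _ _ (pow_mem_of_mem _ hnc 2 two_pos))))
  have hb : β ∈ c * B := hB ▸ mem_span_singleton_self β
  refine ⟨B, hB, ⟨fun t => mul_ne_zero hA hc0 (by simp [e, t]), ?_, ?_, by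
    rw [hB, ← e]; ring⟩, ec_cop.2 fun P hP t h => ?_⟩
  · rw [← isCoprime_span_singleton_iff, isCoprime_iff_sup_eq]
    by_contra t
    obtain ⟨P, hP, t⟩ := exists_le_maximal _ t
    obtain ⟨v, rfl⟩ := hf
    refine hu P hP ?_ (t (mem_sup_left (mem_span_singleton_self _)))
    rw [Nat.cast_mul]
    exact mul_mem_right _ _ (t (mem_sup_right (mem_span_singleton_self _)))
  · obtain ⟨v, rfl⟩ := hf
    exact ⟨v * n ^ 2 * k, by rw [hk]; push_cast; ring⟩
  have hP' : β ∈ P := t (mul_le_right hb)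
  push_cast at h
  rcases hP.isPrime.mem_or_mem h with h | h
  · rcases hP.isPrime.mem_or_mem h with h' | h'
    · refine hu P hP h' ?_
      have := sub_mem hP' (mul_mem_right k _ h)
      rwa [hβ, add_sub_cancel_right] at this
    · have h5 := hP.isPrime.mem_of_pow_mem _ h'
      have h6 : a ∈ c * P := by
        have := sub_mem (mul_mono_right t hb) (mul_mem_right k _ (mul_mem_left _ (u : 𝓞 E)
          (mul_mem_mul hnc h5)))
        rwa [hβ, ← sq, add_sub_cancel_right] at this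
      have h7 : c * P ∣ c * A := by
        rw [mul_comm c A, e]
        exact dvd_span_singleton.2 h6
      refine ec_cop.1 h2 P hP (le_of_dvd ((mul_dvd_mul_iff_left hc0).1 h7)) ?_
      push_cast
      exact mul_mem_left _ _ h'
  · obtain ⟨v, hv⟩ := h4
    refine hP.ne_top ((eq_top_iff_one _).2 ?_)
    have := sub_mem hP' (mul_mem_right v _ h)
    rwa [← hv, sub_sub_cancel] at this

variable (E) in
/-- The ideals that are removed. -/
theorem ec_bad (j : ℕ) : ∃ C : ℝ, 0 ≤ C ∧ ∀ᶠ Y : ℕ in atTop, ∀ (z : ℕ) (G : Finset ℕ)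
    (S : Finset (Ideal (𝓞 E))), 1 ≤ z → (∀ l ∈ G, l.Prime) →
    (∀ B ∈ S, B ≠ 0 ∧ absNorm B < Y ∧ (∀ l, l.Prime → l ∣ absNorm B → z < l) ∧
      ¬ (Squarefree (absNorm B) ∧ (∀ l ∈ G, ¬ l ∣ absNorm B) ∧
        j ≤ (absNorm B).primeFactors.card)) →
    (S.card : ℝ) ≤ C * Y * ((G.card + 1) / z + 1 / Real.sqrt (Real.log Y)) := by
  classical
  obtain ⟨C, hC, h⟩ := card_ideals_dvd E
  refine ⟨C + Module.finrank ℚ E ^ j, by positivity, (few_primes j).mono
    fun Y hY z G S hz hG hS => ?_⟩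
  let G' := G.filter (z < ·)
  let T := (Finset.range Y).filter fun l => l.Prime ∧ z < l
  let W := (Finset.range Y).filter fun n => Squarefree n ∧ n.primeFactors.card < j
  have hz' : (0 : ℝ) < z := by exact_mod_cast hz
  have sub : S ⊆ (G'.biUnion fun l => S.filter fun B => l ∣ absNorm B) ∪
      (T.biUnion fun l => S.filter fun B => l ^ 2 ∣ absNorm B) ∪
      W.biUnion fun n => S.filter fun B => absNorm B = n := fun B hB => by
    obtain ⟨h0, h1, h2, h3⟩ := hS B hB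
    simp only [Finset.mem_union, Finset.mem_biUnion, Finset.mem_filter, G', T, W, Finset.mem_range]
    by_cases c1 : Squarefree (absNorm B)
    · by_cases c2 : ∀ l ∈ G, ¬ l ∣ absNorm B
      · exact .inr ⟨_, ⟨h1, c1, not_le.1 fun c3 => h3 ⟨c1, c2, c3⟩⟩, hB, rfl⟩
      · push Not at c2
        obtain ⟨l, a, b⟩ := c2
        exact .inl (.inl ⟨l, ⟨a, h2 l (hG l a) b⟩, hB, b⟩)
    · rw [Nat.squarefree_iff_prime_squarefree] at c1
      push Not at c1
      obtain ⟨l, a, b⟩ := c1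
      have b' : l ∣ absNorm B := (dvd_mul_right _ _).trans b
      exact .inl (.inr ⟨l, ⟨(Nat.le_of_dvd (Nat.pos_of_ne_zero (absNorm_eq_zero_iff.not.2 h0))
        b').trans_lt h1, a, h2 l a b'⟩, hB, sq l ▸ b⟩)
  have hY0 : (0 : ℝ) ≤ Y := Y.cast_nonneg
  have m : ∀ B ∈ S, (absNorm B : ℝ) ≤ Y := fun B hB => by exact_mod_cast (hS B hB).2.1.le
  have c1 : ((G'.biUnion fun l => S.filter fun B => l ∣ absNorm B).card : ℝ) ≤
      G.card * (C * Y / z) := by
    refine le_trans (Nat.cast_le.2 Finset.card_biUnion_le) ?_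
    rw [Nat.cast_sum]
    refine (Finset.sum_le_card_nsmul _ _ (C * Y / z) fun l hl => ?_).trans ?_
    · obtain ⟨a, b⟩ := Finset.mem_filter.1 hl
      refine ((h Y l _ hY0 (hG l a)).1 fun B hB => have t := Finset.mem_filter.1 hB
        ⟨(hS B t.1).1, m B t.1, t.2⟩).trans ?_
      gcongr
    · rw [nsmul_eq_mul]
      gcongr
      exact Finset.filter_subset _ _
  have c2 : ((T.biUnion fun l => S.filter fun B => l ^ 2 ∣ absNorm B).card : ℝ) ≤ C * Y / z := by
    refine le_trans (Nat.cast_le.2 Finset.card_biUnion_le) ?_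
    rw [Nat.cast_sum]
    refine (Finset.sum_le_sum fun l hl => (h Y l _ hY0 (Finset.mem_filter.1 hl).2.1).2 fun B hB =>
      have t := Finset.mem_filter.1 hB
      ⟨(hS B t.1).1, m B t.1, t.2⟩).trans ?_
    have := mul_le_mul_of_nonneg_left (sum_inv_sq_tail z hz T fun l hl =>
      (Finset.mem_filter.1 hl).2.2) (mul_nonneg hC hY0)
    simpa only [Finset.mul_sum, mul_one_div] using this
  have c3 : ((W.biUnion fun n => S.filter fun B => absNorm B = n).card : ℝ) ≤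
      Y / Real.sqrt (Real.log Y) * Module.finrank ℚ E ^ j := by
    refine le_trans (Nat.cast_le.2 (Finset.card_biUnion_le.trans (Finset.sum_le_card_nsmul _ _
      (Module.finrank ℚ E ^ j) fun n hn => ?_))) ?_
    · obtain ⟨-, a, b⟩ := Finset.mem_filter.1 hn
      exact (card_ideals_eq E a _ fun B hB => (Finset.mem_filter.1 hB).2).trans
        (Nat.pow_le_pow_right Module.finrank_pos b.le)
    · rw [smul_eq_mul, Nat.cast_mul, Nat.cast_pow]
      gcongr
  have c4 := (Nat.cast_le (α := ℝ)).2 ((Finset.card_le_card sub).trans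
    ((Finset.card_union_le _ _).trans (Nat.add_le_add_right (Finset.card_union_le _ _) _)))
  rw [Nat.cast_add, Nat.cast_add] at c4
  refine (c4.trans (add_le_add (add_le_add c1 c2) c3)).trans ?_
  have p1 : (0 : ℝ) ≤ Module.finrank ℚ E ^ j * Y * ((G.card + 1) / z) := by positivity
  have p2 : (0 : ℝ) ≤ C * Y * (1 / Real.sqrt (Real.log Y)) := by positivity
  refine le_of_sub_nonneg (le_trans (add_nonneg p1 p2) (le_of_eq ?_))
  ring

/-- The choice of the side of the box and of the sieve level. -/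
theorem ec_num (d K z₀ : ℕ) (hd : 1 ≤ d) (hK : 1 ≤ K) (c C : ℝ) (hc : 0 < c) (hC : 0 ≤ C) :
    ∀ᶠ Y : ℕ in atTop, ∃ H z : ℕ, (K * H) ^ d < Y ∧ 4 ^ z ≤ H ∧ z₀ ≤ z ∧ ∀ r : ℝ, 0 ≤ r →
      r ^ 2 ≤ Real.log Y → Y / Real.log Y + C * Y * ((r + 1) / z + 1 / Real.sqrt (Real.log Y)) ≤
        c * (H ^ d * (z : ℝ) ^ (-(1 / 4 : ℝ))) := by
  have hd' : (1 : ℝ) ≤ d := by exact_mod_cast hd
  have hK' : (1 : ℝ) ≤ K := by exact_mod_cast hK
  have t1 : Tendsto (fun Y : ℕ => Real.log Y) atTop atTop :=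
    Real.tendsto_log_atTop.comp tendsto_natCast_atTop_atTop
  have t2 : Tendsto (fun Y : ℕ => Real.log Y ^ (1 / 4 : ℝ)) atTop atTop :=
    (tendsto_rpow_atTop (by norm_num)).comp t1
  filter_upwards [eventually_gt_atTop (K ^ d), t1.eventually_ge_atTop (4 * d * (z₀ + 1)),
    t1.eventually_ge_atTop (8 * d), t1.eventually_ge_atTop (2 * d * Real.log (2 * K)),
    t2.eventually_ge_atTop ((1 + C * (16 * d + 1)) * (2 * K) ^ d / c),
    t2.eventually_ge_atTop 1] with Y y1 y2 y3 y4 y5 y6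
  have ex : ∃ h : ℕ, Y ≤ (K * (h + 1)) ^ d := ⟨Y, (Nat.le_self_pow (by omega) Y).trans
    (Nat.pow_le_pow_left (by nlinarith) d)⟩
  have h1 := Nat.find_spec ex
  have h0 : Nat.find ex ≠ 0 := fun e => by
    rw [e, zero_add, mul_one] at h1
    omega
  have h2 := Nat.find_min ex (Nat.sub_one_lt h0)
  rw [Nat.sub_one_add_one h0, not_le] at h2
  generalize Nat.find ex = H at h0 h1 h2
  have hH : (1 : ℝ) ≤ H := by exact_mod_cast Nat.pos_of_ne_zero h0
  have hY : (0 : ℝ) < Y := by exact_mod_cast (Nat.zero_le _).trans_lt y1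
  have h3 : (Y : ℝ) ≤ (2 * K) ^ d * H ^ d := by
    rw [← mul_pow]
    refine le_trans (by exact_mod_cast h1) (pow_le_pow_left₀ (a := (K * (H + 1) : ℝ))
      (by positivity) (by nlinarith) d)
  have h4 : Real.log Y ≤ d * Real.log (2 * K) + d * Real.log H := by
    rw [← Real.log_pow, ← Real.log_pow, ← Real.log_mul (by positivity) (by positivity)]
    exact Real.log_le_log hY h3
  generalize Real.log Y = L at *
  have hL : 0 < L := by linarith
  have z1 := Nat.floor_le (a := L / (4 * d)) (by positivity)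
  have z2 := Nat.lt_floor_add_one (L / (4 * d))
  generalize ⌊L / (4 * d)⌋₊ = z at z1 z2
  rw [le_div_iff₀ (by positivity)] at z1
  rw [div_lt_iff₀ (by positivity)] at z2
  have z3 : L ≤ 8 * d * z := by nlinarith
  have z4 : (0 : ℝ) < z := by nlinarith
  have z5 : (z : ℝ) ≤ L := by nlinarith
  refine ⟨H, z, h2, ?_, ?_, fun r hr hr' => ?_⟩
  · have l4 : Real.log 4 ≤ 2 := by
      rw [show (4 : ℝ) = 2 ^ 2 by norm_num, Real.log_pow]
      have := Real.log_two_lt_d9
      push_cast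
      linarith
    have : Real.log ((4 : ℝ) ^ z) ≤ Real.log H := by
      rw [Real.log_pow]
      refine le_of_mul_le_mul_left ?_ (show (0 : ℝ) < d by linarith)
      nlinarith [mul_le_mul_of_nonneg_left l4 (mul_pos z4 (show (0 : ℝ) < d by linarith)).le]
    exact_mod_cast (Real.log_le_log_iff (by positivity) (by positivity)).1 this
  · have : (z₀ : ℝ) < z := by nlinarith
    exact_mod_cast this.le
  have u4 : (L ^ (1 / 4 : ℝ)) ^ 4 = L := by
    rw [← Real.rpow_natCast, ← Real.rpow_mul hL.le]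
    norm_num
  have u1 : (L ^ (1 / 4 : ℝ))⁻¹ ≤ (z : ℝ) ^ (-(1 / 4 : ℝ)) := by
    rw [Real.rpow_neg z4.le]
    gcongr
  generalize L ^ (1 / 4 : ℝ) = u at *
  subst u4
  have hu : 0 < u := by linarith
  have s1 : Real.sqrt (u ^ 4) = u ^ 2 := by
    rw [show u ^ 4 = (u ^ 2) ^ 2 by ring, Real.sqrt_sq (by positivity)]
  have r1 : r ≤ u ^ 2 := (abs_le_of_sq_le_sq' (by nlinarith) (by positivity)).2
  have u2 : 1 ≤ u ^ 2 := one_le_pow₀ y6
  have r2 : (r + 1) / z ≤ 16 * d / u ^ 2 := by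
    rw [div_le_div_iff₀ z4 (by positivity)]
    nlinarith
  have r3 : (Y : ℝ) / u ^ 4 ≤ Y / u ^ 2 := by
    gcongr
    norm_num
  rw [div_le_iff₀ hc] at y5
  calc _ ≤ Y / u ^ 2 + C * Y * (16 * d / u ^ 2 + 1 / u ^ 2) := by rw [s1]; gcongr
    _ = (1 + C * (16 * d + 1)) * Y / u ^ 2 := by ring
    _ ≤ (1 + C * (16 * d + 1)) * ((2 * K) ^ d * H ^ d) / u ^ 2 := by gcongr
    _ ≤ u * c * H ^ d / u ^ 2 := by rw [← mul_assoc]; gcongr
    _ = c * (H ^ d * u⁻¹) := by field_simp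
    _ ≤ _ := by gcongr

theorem eCount : ECount := by
  classical
  intro E _ _ f g j hf hg hfg
  let d := Module.finrank ℚ E
  let s := ∏ l ∈ (Finset.range (2 * d + 1)).filter fun l => l.Prime ∧ ¬ l ∣ g, l
  have hs : s ≠ 0 := Finset.prod_ne_zero_iff.2 fun l hl => (Finset.mem_filter.1 hl).2.1.ne_zero
  have hsg : s.Coprime g := Nat.Coprime.prod_left fun l hl =>
    (Nat.Prime.coprime_iff_not_dvd (Finset.mem_filter.1 hl).2.1).2 (Finset.mem_filter.1 hl).2.2
  obtain ⟨n, hn, hn', hmul⟩ := exists_multipliers E (f * s * g) (by positivity)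
  obtain ⟨c, hc, hbox⟩ := box_lower E
  obtain ⟨K, hK, hfib⟩ := box_fibre E
  obtain ⟨C, hC, hbad⟩ := ec_bad E j
  obtain ⟨z₀, hz₀⟩ := eventually_atTop.1 (sieve_density d)
  have hM : f * s * n ^ 2 * g ≠ 0 := by positivity
  obtain ⟨Y₀, hY⟩ := eventually_atTop.1 (hbad.and (ec_num d (3 * (c * (f * s * n ^ 2 * g)))
    (z₀ + 1) Module.finrank_pos (Nat.pos_of_ne_zero (by positivity)) (1 / K) C (by positivity) hC))
  have hcop : (f * s * n ^ 2).Coprime g := (hfg.mul_left hsg).mul_left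
    ((hn'.coprime_dvd_right (dvd_mul_left _ _)).pow_left 2)
  refine ⟨f * s * n ^ 2, Y₀ + 1, by positivity, (dvd_mul_right _ _).mul_right _, hcop,
    fun A hA hA' G hG hG' => ?_⟩
  have hA0 : A ≠ 0 := fun e => by simp [e] at hA'
  obtain ⟨hb, H, z, h1, h2, h3, h4⟩ := hY _ ((Nat.le_succ _).trans hA')
  obtain ⟨𝔠, a, e, h𝔠⟩ := hmul A hA0
  obtain ⟨u, v, huv⟩ := (Nat.isCoprime_iff_coprime.2 hcop).map (Int.castRingHom (𝓞 E))
  simp only [eq_intCast, Int.cast_natCast] at huv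
  generalize hm : f * s * n ^ 2 * g = M at *
  let T := (Finset.range (z + 1)).filter fun l => l.Prime ∧ ¬ l ∣ M
  have hT : ∀ l ∈ T, l.Prime ∧ 2 * d < l ∧ l ≤ z := fun l hl => by
    obtain ⟨t1, t2, t3⟩ := Finset.mem_filter.1 hl
    refine ⟨t2, not_le.1 fun t4 => t3 (hm ▸ ?_), Nat.lt_succ_iff.1 (Finset.mem_range.1 t1)⟩
    by_cases t5 : l ∣ g
    · exact t5.mul_left _
    · exact (((Finset.dvd_prod_of_mem _ (Finset.mem_filter.2 ⟨Finset.mem_range.2
        (Nat.lt_succ_iff.2 t4), t2, t5⟩)).mul_left f).mul_right _).mul_right _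
  obtain ⟨S, hS, hS'⟩ := hbox M H (a * (v * g) + u * (f * s * n ^ 2 : ℕ)) T hM
    (fun l hl => ⟨(hT l hl).1, (Finset.mem_filter.1 hl).2.2, by have := (hT l hl).2.1; omega⟩)
    (le_trans (Finset.prod_le_prod_of_subset_of_one_le' (fun l hl => Finset.mem_filter.2
      ⟨(Finset.mem_filter.1 hl).1, (hT l hl).1⟩) fun l hl _ => (Finset.mem_filter.1 hl).2.one_le)
      ((primorial_le_four_pow z).trans h2))
  have key : ∀ β ∈ S, ∃ B, span {β} = 𝔠 * B ∧ Mv f A B a β ∧ (absNorm B).Coprime M := fun β hβ => by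
    obtain ⟨k, hk⟩ := (hS' β hβ).1
    rw [← hm, Nat.cast_mul _ g] at hk
    exact hm ▸ ec_move hA0 hn e h𝔠 (dvd_mul_right f s) (hn'.coprime_dvd_right (dvd_mul_right _ _))
      hA ⟨g * k + u - a * u, by linear_combination hk + a * huv⟩
      ⟨(f * s * n ^ 2 : ℕ) * k + a * v - v, by linear_combination hk + huv⟩
  choose! B hB using key
  have hH : (0 : ℝ) < c * M * H := by
    have : 0 < H := (pow_pos four_pos z).trans_le h2
    have := Nat.pos_of_ne_zero hM
    positivity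
  have n1 : ∀ β ∈ S, absNorm (B β) ∣ absNorm (span {β}) := fun β hβ => by
    rw [(hB β hβ).1, map_mul]
    exact dvd_mul_left _ _
  have n2 : ∀ β ∈ S, β ≠ 0 := fun β hβ t => by
    obtain ⟨τ⟩ : Nonempty (E →+* ℂ) := inferInstance
    have := ((hS' β hβ).2.2 τ).1
    simp only [t, map_zero, norm_zero] at this
    linarith
  have n3 : ∀ β ∈ S, absNorm (B β) < absNorm A := fun β hβ => by
    refine ((Nat.le_of_dvd (Nat.pos_of_ne_zero (absNorm_eq_zero_iff.not.2
      (span_singleton_eq_bot.not.2 (n2 β hβ)))) (n1 β hβ)).trans ?_).trans_lt h1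
    have := absNorm_le_of_emb (β := β) (R := ((3 * (c * M) * H : ℕ) : ℝ)) fun σ =>
      ((hS' β hβ).2.2 σ).2.trans_eq (by push_cast; ring)
    exact_mod_cast this
  have c1 : S.card ≤ K * (S.image B).card := Finset.card_le_mul_card_image _ _ fun I _ =>
    hfib _ _ hH (fun β hβ => (hS' β (Finset.mem_filter.1 hβ).1).2.2) fun β hβ β' hβ' => by
      obtain ⟨t1, t2⟩ := Finset.mem_filter.1 hβ
      obtain ⟨t3, t4⟩ := Finset.mem_filter.1 hβ'
      rw [(hB β t1).1, (hB β' t3).1, t2, t4]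
  let Q := fun I : Ideal (𝓞 E) => Squarefree (absNorm I) ∧ (∀ l ∈ G, ¬ l ∣ absNorm I) ∧
    j ≤ (absNorm I).primeFactors.card
  refine ⟨(S.image B).filter Q, ?_, fun I hI => ?_⟩
  · have c2 := hb z G ((S.image B).filter fun I => ¬ Q I) (by omega) hG fun I hI => by
      obtain ⟨t1, t2⟩ := Finset.mem_filter.1 hI
      obtain ⟨β, hβ, rfl⟩ := Finset.mem_image.1 t1
      refine ⟨fun t => n2 β hβ (span_singleton_eq_bot.1 (by rw [(hB β hβ).1, t, mul_zero]; rfl)),
        n3 β hβ, fun l hl hl' => not_le.1 fun t => (hS' β hβ).2.1 l (Finset.mem_filter.2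
          ⟨Finset.mem_range.2 (Nat.lt_succ_iff.2 t), hl, fun t' => hl.ne_one
            (Nat.eq_one_of_dvd_coprimes (hB β hβ).2.2 hl' t')⟩) ?_, t2⟩
      have := hl'.trans (n1 β hβ)
      rwa [absNorm_span_singleton, ← Int.natCast_dvd] at this
    have c3 := congrArg (Nat.cast (R := ℝ)) (Finset.card_filter_add_card_filter_not
      (s := S.image B) Q)
    have c4 := h4 G.card G.card.cast_nonneg hG'
    have c5 := mul_le_mul_of_nonneg_left (hz₀ z (by omega) T hT) (pow_nonneg (H.cast_nonneg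
      (α := ℝ)) d)
    have c6 : (S.card : ℝ) ≤ K * (S.image B).card := by exact_mod_cast c1
    have hK' : (0 : ℝ) < K := by exact_mod_cast hK
    have c7 : 1 / K * ((H : ℝ) ^ d * (z : ℝ) ^ (-(1 / 4 : ℝ))) ≤ (S.image B).card := by
      rw [one_div_mul_eq_div, div_le_iff₀' hK']
      exact (c5.trans hS).trans c6
    rw [Nat.cast_add] at c3
    linarith
  · obtain ⟨t1, t2⟩ := Finset.mem_filter.1 hI
    obtain ⟨β, hβ, rfl⟩ := Finset.mem_image.1 t1
    exact ⟨n3 β hβ, t2.1, (hB β hβ).2.2, t2.2.1, t2.2.2, a, β, (hB β hβ).2.1⟩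

end Pool.Agent.MT
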