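import Pool.Agent.Lib.MP_d61fbb_ag.MT.EG0
import Pool.Agent.Lib.MP_d61fbb_ag.MT.EIdl

/-! The glue of block E: local generators and moves. -/

open NumberField Ideal

namespace Pool.Agent.MT

variable {E : Type} [Field E] [NumberField E] {l : ℕ} {A B : Ideal (𝓞 E)} {a a' β : 𝓞 E}

omit [NumberField E] in
theorem eg_span_ne {x : 𝓞 E} (hx : x ≠ 0) : (span {x} : Ideal (𝓞 E)) ≠ 0 := by
  simpa [span_singleton_eq_bot] using hx

theorem eg_ne_of_not_dvd {b : 𝓞 E} (h : ¬ l ∣ absNorm (span {b})) : b ≠ 0 := by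
  rintro rfl
  simp at h

theorem eg_nat (hl : l.Prime) {n : ℕ} (h : ¬ l ∣ n) : ¬ l ∣ absNorm (span {(n : 𝓞 E)}) := by
  rw [absNorm_span_natCast]
  exact fun e => h (hl.dvd_of_dvd_pow e)

theorem gen_one (hl : l.Prime) (h : ¬ l ∣ absNorm A) : Gen l A 1 :=
  ⟨one_ne_zero, 1, A, by simp, by simpa using hl.one_lt.ne', h⟩

theorem Gen.norm (h : Gen l A a) (hl : l.Prime) (k : ℕ) :
    l ^ k ∣ absNorm A ↔ l ^ k ∣ absNorm (span {a}) := by
  obtain ⟨-, c, d, e, hc, hd⟩ := h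
  have e' := congrArg absNorm e
  rw [map_mul, map_mul] at e'
  rw [← Nat.Coprime.dvd_mul_right (Nat.Coprime.pow_left k ((Nat.Prime.coprime_iff_not_dvd hl).2 hc)),
    e', Nat.Coprime.dvd_mul_right (Nat.Coprime.pow_left k ((Nat.Prime.coprime_iff_not_dvd hl).2 hd))]

theorem Gen.of_mul (hl : l.Prime) (h : Gen l (A * B) a) (hA : ¬ l ∣ absNorm A) : Gen l B a := by
  obtain ⟨h0, c, d, e, hc, hd⟩ := h
  refine ⟨h0, A * c, d, by rw [← e]; ring, ?_, hd⟩
  rw [map_mul, hl.dvd_mul]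
  tauto

theorem Gen.mul (hl : l.Prime) (h : Gen l B a) (hA : ¬ l ∣ absNorm A) : Gen l (A * B) a := by
  obtain ⟨h0, c, d, e, hc, hd⟩ := h
  refine ⟨h0, c, A * d, by rw [mul_assoc, e]; ring, hc, ?_⟩
  rw [map_mul, hl.dvd_mul]
  tauto

theorem eg_compl {d : Ideal (𝓞 E)} (hl : l.Prime) (hd : ¬ l ∣ absNorm d) :
    ∃ d', span {((absNorm d : ℕ) : 𝓞 E)} = d * d' ∧ ¬ l ∣ absNorm d' := by
  obtain ⟨d', e⟩ := Ideal.dvd_iff_le.2 (span_singleton_absNorm_le d)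
  exact ⟨d', e, fun h => eg_nat hl hd (e ▸ h.trans (map_dvd absNorm (dvd_mul_left d' d)))⟩

/-- a relation `(β) A = (a) B` moves a local generator of `A` to a local generator of `B` -/
theorem Gen.move (hl : l.Prime) (ha : a ≠ 0) (hB : B ≠ 0) (e : span {β} * A = span {a} * B)
    (h : Gen l A a') : ∃ b n : 𝓞 E, β * a' * n = a * b ∧ ¬ l ∣ absNorm (span {n}) ∧ Gen l B b := by
  obtain ⟨h0, c, d, e1, hc, hd⟩ := h
  obtain ⟨d', e2, hd'⟩ := eg_compl hl hd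
  have e3 : span {β * a' * (absNorm d : ℕ)} = span {a} * (B * (c * d')) := by
    rw [← span_singleton_mul_span_singleton, ← span_singleton_mul_span_singleton, e2]
    calc span {β} * span {a'} * (d * d') = span {β} * (span {a'} * d) * d' := by ring
      _ = span {β} * A * (c * d') := by rw [← e1]; ring
      _ = _ := by rw [e]; ring
  obtain ⟨b, hb⟩ : a ∣ β * a' * (absNorm d : ℕ) :=
    span_singleton_le_span_singleton.1 (e3 ▸ Ideal.mul_le_left)
  have e4 : B * (c * d') = span {b} := by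
    rw [hb, ← span_singleton_mul_span_singleton] at e3
    exact (mul_left_cancel₀ (eg_span_ne ha) e3).symm
  have hcd : ¬ l ∣ absNorm (c * d') := by
    rw [map_mul, hl.dvd_mul]
    tauto
  refine ⟨b, _, hb, eg_nat hl hd, ?_, c * d', 1, by rw [e4, mul_one], hcd,
    by simpa using hl.one_lt.ne'⟩
  rintro rfl
  rw [span_singleton_zero, ← Ideal.zero_eq_bot, mul_eq_zero] at e4
  rcases e4 with e4 | e4
  · exact hB e4
  · rw [e4] at hcd
    simp at hcd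

theorem Gen.ne (h : Gen l A a) : A ≠ 0 := by
  obtain ⟨h0, c, d, e, -, hd⟩ := h
  rintro rfl
  rw [zero_mul, eq_comm, mul_eq_zero] at e
  rcases e with e | e
  · exact eg_span_ne h0 e
  · rw [e] at hd
    simp at hd

/-- the part of an ideal at `l` -/
theorem exists_lpart (hl : l.Prime) (I : Ideal (𝓞 E)) (hI : I ≠ 0) :
    ∃ A c j, I = A * c ∧ absNorm A = l ^ j ∧ ¬ l ∣ absNorm c := by
  induction I using UniqueFactorizationMonoid.induction_on_prime with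
  | h₁ => exact absurd rfl hI
  | h₂ I hu =>
    exact ⟨1, 1, 0, by simpa using hu, by simp, by simpa using hl.one_lt.ne'⟩
  | h₃ I P h0 hP ih =>
    obtain ⟨A, c, j, e, h1, h2⟩ := ih h0
    have hmax : P.IsMaximal := (Ideal.isPrime_of_prime hP).isMaximal hP.ne_zero
    obtain ⟨q, n, -, -, hq, h3⟩ := Ideal.exists_prime_and_absNorm_eq_pow P
    by_cases hql : q = l
    · exact ⟨P * A, c, n + j, by rw [e, mul_assoc], by rw [map_mul, h3, h1, hql, pow_add], h2⟩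
    · refine ⟨A, P * c, j, by rw [e]; ring, h1, ?_⟩
      rw [map_mul, hl.dvd_mul, h3]
      rintro (h | h)
      · exact hql ((Nat.prime_dvd_prime_iff_eq hl hq).1 (hl.dvd_of_dvd_pow h)).symm
      · exact h2 h

namespace Loc

variable {f l₀ : ℕ} {Γ GG : Type} [Group Γ] [Group GG] (D : Loc E f l₀ Γ GG)

theorem ν_one : D.ν 1 = 1 := by
  have := D.ν_mul 1 1 one_ne_zero one_ne_zero
  rw [one_mul] at this
  exact (mul_eq_left.1 this.symm)

theorem ν_comm (ha : a ≠ 0) (ha' : a' ≠ 0) : D.ν a * D.ν a' = D.ν a' * D.ν a := by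
  rw [← D.ν_mul _ _ ha ha', mul_comm, D.ν_mul _ _ ha' ha]

theorem ν_move (hl : l.Prime) (hf : ¬ l ∣ f) (ha : a ≠ 0) (hB : B ≠ 0)
    (e : span {β} * A = span {a} * B) (h : Gen l A a') :
    ∃ b, Gen l B b ∧ (D.ν b)⁻¹ * (D.ν β * (D.ν a)⁻¹ * D.ν a') ∈ D.N l := by
  obtain ⟨b, n, e1, hn, hb⟩ := h.move hl ha hB e
  have hn0 := eg_ne_of_not_dvd hn
  have hβ : β ≠ 0 := by
    rintro rfl
    exact mul_ne_zero ha hb.1 (by rw [← e1, zero_mul, zero_mul])
  have e2 : D.ν β * D.ν a' * D.ν n = D.ν a * D.ν b := by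
    rw [← D.ν_mul _ _ hβ h.1, ← D.ν_mul _ _ (mul_ne_zero hβ h.1) hn0, e1, D.ν_mul _ _ ha hb.1]
  have e3 : D.ν β * (D.ν a)⁻¹ = (D.ν a)⁻¹ * D.ν β := by
    rw [eq_inv_mul_iff_mul_eq, ← mul_assoc, D.ν_comm ha hβ, mul_inv_cancel_right]
  refine ⟨b, hb, ?_⟩
  have e4 : (D.ν b)⁻¹ * (D.ν β * (D.ν a)⁻¹ * D.ν a') = (D.ν n)⁻¹ := by
    rw [e3, mul_assoc, eq_mul_inv_of_mul_eq e2]
    group
  rw [e4]
  exact inv_mem (D.ν_N n l hl hf hn)

theorem ν_unit (hl : l.Prime) (hf : ¬ l ∣ f) (h : Gen l A a) (hA : ¬ l ∣ absNorm A) :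
    D.ν a ∈ D.N l :=
  D.ν_N a l hl hf fun e => hA (by simpa using (h.norm hl 1).2 (by simpa using e))

theorem ν_eq (hl : l.Prime) (hf : ¬ l ∣ f) (h : Gen l A a) (h' : Gen l A a') :
    (D.ν a)⁻¹ * D.ν a' ∈ D.N l := by
  obtain ⟨h0, c, d, e, hc, hd⟩ := h
  obtain ⟨b, hb, h1⟩ := D.ν_move (β := 1) (A := c * A) (B := d) hl hf h0
    (by rintro rfl; simp at hd) (by rw [← e, span_singleton_one, top_mul, mul_comm]) (h'.mul hl hc)
  rw [D.ν_one, one_mul] at h1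
  simpa using mul_mem (D.ν_unit hl hf hb hd) h1

end Loc

end Pool.Agent.MT
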