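import Pool.Agent.Lib.MP_d61fbb_ag.MT.EG1
import Pool.Agent.Lib.MP_d61fbb_ag.MT.ELoc
import Pool.Agent.Lib.MP_d61fbb_ag.MT.EInt

/-! The glue of block E: points, their number, density and moves. -/

open NumberField Ideal

namespace Pool.Agent.MT

namespace Loc

variable {E : Type} [Field E] [NumberField E] {l : ℕ} {A B : Ideal (𝓞 E)} {a a' β : 𝓞 E}
  {f l₀ : ℕ} {Γ GG : Type} [Group Γ] [Group GG] (D : Loc E f l₀ Γ GG) {e : ℕ} {g g' : GG}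

/-- the level subgroup -/
def KK (e : ℕ) : Subgroup GG := D.Kn e ⊓ ⨅ l : {l : ℕ // l.Prime}, D.K l

theorem mem_KK : g ∈ D.KK e ↔ g ∈ D.Kn e ∧ ∀ l, l.Prime → g ∈ D.K l := by
  simp [KK, Subgroup.mem_iInf]

/-- points of type `A` -/
def Val (e : ℕ) (A : Ideal (𝓞 E)) (g : GG) : Prop := D.In A g ∧ ∃ h ∈ D.N l₀, h⁻¹ * g ∈ D.Kn e

variable {D}

theorem In.congr (h : D.In A g) (hk : ∀ l, l.Prime → g⁻¹ * g' ∈ D.K l) : D.In A g' := by
  intro l hl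
  refine ⟨fun hf => by simpa using mul_mem ((h l hl).1 hf) (hk l hl), fun hf => ?_⟩
  obtain ⟨a, ha, u, hu, h1⟩ := (h l hl).2 hf
  exact ⟨a, ha, u, hu, by simpa [mul_assoc] using mul_mem h1 (hk l hl)⟩

theorem Val.congr (h : D.Val e A g) (hk : g⁻¹ * g' ∈ D.KK e) : D.Val e A g' := by
  obtain ⟨h1, u, hu, h2⟩ := h
  exact ⟨h1.congr (D.mem_KK.1 hk).2, u, hu,
    by simpa [mul_assoc] using mul_mem h2 (D.mem_KK.1 hk).1⟩

theorem In.gal (h : D.In A g) (σ : Γ) : D.In A (D.ρ σ * g) := by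
  intro l hl
  refine ⟨fun hf => mul_mem (D.ρ_K σ l hl) ((h l hl).1 hf), fun hf => ?_⟩
  obtain ⟨a, ha, u, hu, h1⟩ := (h l hl).2 hf
  exact ⟨a, ha, D.ρ σ * u, mul_mem (D.ρ_N σ l hl hf) hu, by simpa [mul_assoc] using h1⟩

theorem In.mem_K (h : D.In A g) (hl : l.Prime) (hA : ¬ l ∣ absNorm A) : g ∈ D.K l := by
  by_cases hf : l ∣ f
  · exact (h l hl).1 hf
  obtain ⟨a, ha, u, hu, h1⟩ := (h l hl).2 hf
  simpa only [mul_inv_cancel_left] using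
    mul_mem (D.N_le l hl hf (mul_mem hu (D.ν_unit hl hf ha hA))) h1

theorem move_N (hl : l.Prime) (hf : ¬ l ∣ f) (hm : Mv f A B a β) (hA : ¬ l ∣ absNorm A)
    (hB : ¬ l ∣ absNorm B) : D.ν β * (D.ν a)⁻¹ ∈ D.N l := by
  obtain ⟨b, hb, h1⟩ := D.ν_move hl hf hm.1 (by rintro rfl; simp at hB) hm.2.2.2 (gen_one hl hA)
  simpa [D.ν_one] using mul_mem (D.ν_unit hl hf hb hB) h1

theorem in_move {A₁ : Ideal (𝓞 E)} (hm : Mv f A B a β) (hB : B ≠ 0)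
    (h1 : ∀ l, l.Prime → l ∣ f → g ∈ D.K l)
    (h2 : ∀ l, l.Prime → ¬ l ∣ f →
      (¬ l ∣ absNorm A₁ ∧ ∃ a', Gen l A a' ∧ (D.ν a')⁻¹ * g ∈ D.K l) ∨
      (¬ l ∣ absNorm A ∧ ¬ l ∣ absNorm B ∧
        ∃ a', Gen l A₁ a' ∧ ∃ h ∈ D.N l, (h * D.ν a')⁻¹ * g ∈ D.K l)) :
    D.In (A₁ * B) (D.ν β * (D.ν a)⁻¹ * g) := by
  intro l hl
  refine ⟨fun hf => mul_mem (D.ν_K a β l hl hf hm.2.1 hm.2.2.1) (h1 l hl hf), fun hf => ?_⟩
  rcases h2 l hl hf with ⟨h3, a', ha', h4⟩ | ⟨h3, h4, a', ha', u, hu, h5⟩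
  · obtain ⟨b, hb, h5⟩ := D.ν_move hl hf hm.1 hB hm.2.2.2 ha'
    exact ⟨b, hb.mul hl h3, 1, one_mem _,
      by simpa [mul_assoc] using mul_mem (D.N_le l hl hf h5) h4⟩
  · exact ⟨a', mul_comm B A₁ ▸ ha'.mul hl h4, _, mul_mem (move_N hl hf hm h3 h4) hu,
      by simpa [mul_assoc] using h5⟩

variable (D)

theorem sph_in (hl : l.Prime) (hf : ¬ l ∣ f) (h1 : l ∣ absNorm A) (h2 : ¬ l ^ 2 ∣ absNorm A) :
    ∃ T : Finset (GG ⧸ D.K l), T.card ≤ l + 1 ∧ ∀ g, D.In A g → (g : GG ⧸ D.K l) ∈ T := by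
  by_cases h : ∃ a, Gen l A a
  · obtain ⟨a, ha⟩ := h
    obtain ⟨T, hT, h3⟩ := D.sph a l hl hf (by simpa using (ha.norm hl 1).1 (by simpa using h1))
      fun e => h2 ((ha.norm hl 2).2 e)
    refine ⟨T, hT, fun g hg => ?_⟩
    obtain ⟨a', ha', u, hu, h4⟩ := (hg l hl).2 hf
    have : ((u * D.ν a : GG) : GG ⧸ D.K l) = g := QuotientGroup.eq.2 (by
      simpa [mul_assoc] using mul_mem (D.N_le l hl hf (D.ν_eq hl hf ha ha')) h4)
    exact this ▸ h3 u hu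
  · exact ⟨∅, Nat.zero_le _, fun g hg => (h ⟨_, ((hg l hl).2 hf).choose_spec.1⟩).elim⟩

theorem card_val {n : ℕ} (T₀ : Finset (GG ⧸ D.Kn e)) (h₀ : T₀.card ≤ n)
    (hT₀ : ∀ h ∈ D.N l₀, (h : GG ⧸ D.Kn e) ∈ T₀) (hs : Squarefree (absNorm A))
    (hc : (absNorm A).Coprime f) : ∃ S : Finset (GG ⧸ D.KK e),
      S.card ≤ absNorm A ^ 2 * n ∧ ∀ g, D.Val e A g → (g : GG ⧸ D.KK e) ∈ S := by
  classical
  have hT : ∀ l : (absNorm A).primeFactors, ∃ T : Finset (GG ⧸ D.K l), T.card ≤ l + 1 ∧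
      ∀ g, D.In A g → (g : GG ⧸ D.K l) ∈ T := fun l => by
    have hl := Nat.prime_of_mem_primeFactors l.2
    have h1 := Nat.dvd_of_mem_primeFactors l.2
    exact D.sph_in hl ((Nat.Prime.coprime_iff_not_dvd hl).1 (hc.coprime_dvd_left h1)) h1
      (idl_not_sq hl hs)
  choose T hT1 hT2 using hT
  let U : Set (GG ⧸ D.KK e) := {x | D.Val e A x.out}
  let Φ : GG ⧸ D.KK e → (∀ l : (absNorm A).primeFactors, GG ⧸ D.K l) × (GG ⧸ D.Kn e) :=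
    fun x => (fun _ => x.out, x.out)
  have hm : Set.MapsTo Φ U (Fintype.piFinset T ×ˢ T₀ : Finset _) := fun x hx => by
    obtain ⟨h1, u, hu, h2⟩ := hx
    exact Finset.mem_coe.2 (Finset.mem_product.2 ⟨Fintype.mem_piFinset.2 fun l => hT2 l _ h1,
      (congrArg (· ∈ T₀) (QuotientGroup.eq.2 h2)).mp (hT₀ u hu)⟩)
  have hi : Set.InjOn Φ U := fun x hx y hy h => by
    rw [← x.out_eq, ← y.out_eq]
    refine QuotientGroup.eq.2 (D.mem_KK.2 ⟨QuotientGroup.eq.1 (congrArg Prod.snd h),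
      fun l hl => ?_⟩)
    by_cases h1 : l ∣ absNorm A
    · exact QuotientGroup.eq.1 (congrFun (congrArg Prod.fst h)
        ⟨l, Nat.mem_primeFactors.2 ⟨hl, h1, hs.ne_zero⟩⟩)
    · exact mul_mem (inv_mem (hx.1.mem_K hl h1)) (hy.1.mem_K hl h1)
  have hU : U.Finite := Set.Finite.of_injOn hm hi (Finset.finite_toSet _)
  refine ⟨hU.toFinset, ?_, fun g hg => hU.mem_toFinset.2
    (hg.congr (QuotientGroup.eq.1 (QuotientGroup.out_eq' _).symm))⟩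
  refine (Finset.card_le_card_of_injOn Φ (hU.coe_toFinset.symm ▸ hm)
    (hU.coe_toFinset.symm ▸ hi)).trans ?_
  rw [Finset.card_product, Fintype.card_piFinset]
  refine Nat.mul_le_mul ((Finset.prod_le_prod' fun l _ => hT1 l).trans ?_) h₀
  rw [Finset.prod_coe_sort (absNorm A).primeFactors fun l => l + 1, sq]
  exact (prod_succ_le hs).1.trans (Nat.mul_le_mul_right _
    (Nat.lt_two_pow_self.trans_le (prod_succ_le hs).2))

/-- points whose level lies in the class -/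
def Pt (m e : ℕ) : Type :=
  {x : ℕ × (GG ⧸ D.KK e) // Cls m x.1 ∧ ∃ A, absNorm A = x.1 ∧ D.Val e A x.2.out}

variable {D} {m : ℕ}

/-- the level -/
def Pt.lev (x : D.Pt m e) : ℕ := x.1.1

/-- a representative -/
noncomputable def Pt.rep (x : D.Pt m e) : GG := x.1.2.out

/-- the point of a group element -/
noncomputable def Pt.mk (h : Cls m (absNorm A)) (hg : D.Val e A g) : D.Pt m e :=
  ⟨(absNorm A, g), h, A, rfl, hg.congr (QuotientGroup.eq.1 (QuotientGroup.out_eq' _).symm)⟩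

theorem Pt.rep_mk (h : Cls m (absNorm A)) (hg : D.Val e A g) :
    g⁻¹ * (Pt.mk h hg).rep ∈ D.KK e := QuotientGroup.eq.1 (QuotientGroup.out_eq' _).symm

theorem card_pts (D : Loc E f l₀ Γ GG) : ∃ c : ℕ, ∀ m e X : ℕ, f ∣ m → 1 ≤ e → 2 ≤ X →
    Finite {x : D.Pt m e // x.lev ≤ X} ∧
      Nat.card {x : D.Pt m e // x.lev ≤ X} ≤ X ^ c * (l₀ ^ e) ^ 23 := by
  classical
  obtain ⟨c, hc⟩ := D.cnt
  obtain ⟨C, hC0, hC⟩ := card_ideals_le E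
  obtain ⟨k, hk⟩ : ∃ k : ℕ, ⌈C⌉₊ * c ≤ 2 ^ k := ⟨_, Nat.lt_two_pow_self.le⟩
  refine ⟨k + 3, fun m e X hm he hX => ?_⟩
  obtain ⟨T₀, h₀, hT₀⟩ := hc e he
  have h1 : ∀ A : Ideal (𝓞 E), ∃ S : Finset (GG ⧸ D.KK e), Cls m (absNorm A) →
      S.card ≤ absNorm A ^ 2 * (c * (l₀ ^ e) ^ 23) ∧
        ∀ g, D.Val e A g → (g : GG ⧸ D.KK e) ∈ S := fun A => by
    by_cases h : Cls m (absNorm A)
    · obtain ⟨S, hS⟩ := D.card_val T₀ h₀ hT₀ h.1 (h.2.1.coprime_dvd_right hm)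
      exact ⟨S, fun _ => hS⟩
    · exact ⟨∅, fun h' => (h h').elim⟩
  choose S hS using h1
  let I : Finset (Ideal (𝓞 E)) :=
    (finite_setOfPred_absNorm_le X).toFinset.filter fun A => Cls m (absNorm A)
  have hI : ∀ A, A ∈ I ↔ absNorm A ≤ X ∧ Cls m (absNorm A) := fun A => by simp [I]
  let W := I.biUnion fun A => (S A).image fun u => (absNorm A, u)
  let j : {x : D.Pt m e // x.lev ≤ X} → W := fun x => ⟨x.1.1, by
    obtain ⟨h1, A, h2, h3⟩ := x.1.2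
    refine Finset.mem_biUnion.2 ⟨A, (hI A).2 ⟨h2 ▸ x.2, h2 ▸ h1⟩,
      Finset.mem_image.2 ⟨_, (hS A (h2 ▸ h1)).2 _ h3, ?_⟩⟩
    rw [QuotientGroup.out_eq', h2]⟩
  have hj : Function.Injective j := fun x y h =>
    Subtype.ext (Subtype.ext (congrArg (fun z : W => z.1) h))
  refine ⟨Finite.of_injective j hj, (Nat.card_le_card_of_injective j hj).trans ?_⟩
  rw [Nat.card_eq_fintype_card, Fintype.card_coe]
  have h2 : I.card ≤ ⌈C⌉₊ * X := by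
    have := hC X I (Nat.cast_nonneg _) fun A hA =>
      ⟨fun h => ((hI A).1 hA).2.1.ne_zero (by simp [h]), by exact_mod_cast ((hI A).1 hA).1⟩
    exact_mod_cast this.trans (mul_le_mul_of_nonneg_right (Nat.le_ceil C) (Nat.cast_nonneg _))
  calc W.card ≤ I.card * (X ^ 2 * (c * (l₀ ^ e) ^ 23)) :=
        Finset.card_biUnion_le_card_mul _ _ _ fun A hA => Finset.card_image_le.trans
          ((hS A ((hI A).1 hA).2).1.trans
            (Nat.mul_le_mul_right _ (Nat.pow_le_pow_left ((hI A).1 hA).1 2)))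
    _ ≤ ⌈C⌉₊ * X * (X ^ 2 * (c * (l₀ ^ e) ^ 23)) := Nat.mul_le_mul_right _ h2
    _ = ⌈C⌉₊ * c * X ^ 3 * (l₀ ^ e) ^ 23 := by ring
    _ ≤ X ^ k * X ^ 3 * (l₀ ^ e) ^ 23 := Nat.mul_le_mul_right _
        (Nat.mul_le_mul_right _ (hk.trans (Nat.pow_le_pow_left hX k)))
    _ = _ := by rw [pow_add]

variable [h₀ : Fact l₀.Prime] [hf₀ : Fact (¬ l₀ ∣ f)]

theorem Val.gal (h : D.Val e A g) (σ : Γ) : D.Val e A (D.ρ σ * g) := by
  obtain ⟨h1, u, hu, h2⟩ := h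
  exact ⟨h1.gal σ, D.ρ σ * u, mul_mem (D.ρ_N σ _ h₀.out hf₀.out) hu,
    by simpa [mul_assoc] using h2⟩

omit h₀ hf₀ in
theorem out_smul (u : GG) (x : GG ⧸ D.KK e) : (u * x.out)⁻¹ * (u • x).out ∈ D.KK e :=
  QuotientGroup.eq.1 (by
    rw [QuotientGroup.out_eq', ← smul_eq_mul, MulAction.Quotient.mk_smul_out])

noncomputable instance : MulAction Γ (D.Pt m e) where
  smul σ x := ⟨(x.1.1, D.ρ σ • x.1.2), x.2.1, x.2.2.imp fun _ h =>
    ⟨h.1, (h.2.gal σ).congr (out_smul _ _)⟩⟩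
  one_smul x := Subtype.ext (Prod.ext rfl (by
    change D.ρ 1 • x.1.2 = _
    rw [map_one, one_smul]))
  mul_smul σ τ x := Subtype.ext (Prod.ext rfl (by
    change D.ρ (σ * τ) • x.1.2 = D.ρ σ • D.ρ τ • x.1.2
    rw [map_mul, mul_smul]))

theorem Pt.rep_smul (σ : Γ) (x : D.Pt m e) : (D.ρ σ * x.rep)⁻¹ * (σ • x).rep ∈ D.KK e :=
  out_smul _ _

theorem Pt.lev_smul (σ : Γ) (x : D.Pt m e) : (σ • x).lev = x.lev := rfl

/-- alignment with the torus -/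
def Pt.Al (x : D.Pt m e) (A : Ideal (𝓞 E)) : Prop :=
  ∀ l, l.Prime → l ∣ absNorm A → ∃ a, Gen l A a ∧ (D.ν a)⁻¹ * x.rep ∈ D.K l

/-- partners -/
def Pt.Par (a β : 𝓞 E) (x y : D.Pt m e) : Prop :=
  IsCoprime a (f : 𝓞 E) ∧ (f : 𝓞 E) ∣ β - a ∧
    (D.ν β * (D.ν a)⁻¹ * x.rep)⁻¹ * y.rep ∈ D.KK e

theorem Pt.dens (hm : f ∣ m) (x : D.Pt m e) (O : Finset (D.Pt m e))
    (hO : ∀ y, y ∈ O ↔ ∃ σ : Γ, σ • x = y) :
    ∃ A₀ : Ideal (𝓞 E), absNorm A₀ = x.lev ∧ ∀ A, A ∣ A₀ → ∃ T ⊆ O, (∀ y ∈ T, y.Al A) ∧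
      O.card ≤ T.card * ∏ l ∈ (absNorm A).primeFactors, (l + 1) := by
  classical
  obtain ⟨hc, A₀, h1, h2, -⟩ := x.2
  refine ⟨A₀, h1, ?_⟩
  rintro A ⟨A', rfl⟩
  rw [← h1] at hc
  have hp : ∀ l ∈ (absNorm A).primeFactors, l.Prime ∧ ¬ l ∣ f ∧ l ∣ absNorm (A * A') ∧
      ¬ l ^ 2 ∣ absNorm (A * A') ∧ ¬ l ∣ absNorm A' := fun l h => by
    have hl := Nat.prime_of_mem_primeFactors h
    have h3 := Nat.dvd_of_mem_primeFactors h
    have h4 := h3.trans (map_dvd absNorm (dvd_mul_right A A'))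
    exact ⟨hl, (Nat.Prime.coprime_iff_not_dvd hl).1
      ((hc.2.1.coprime_dvd_right hm).coprime_dvd_left h4), h4, idl_not_sq hl hc.1,
      fun h5 => idl_not_sq hl hc.1 (by rw [map_mul, sq]; exact mul_dvd_mul h3 h5)⟩
  have h3 : ∀ l, ∃ a u, l ∈ (absNorm A).primeFactors → Gen l (A * A') a ∧ u ∈ D.N l ∧
      (u * D.ν a)⁻¹ * x.rep ∈ D.K l := fun l => by
    by_cases h : l ∈ (absNorm A).primeFactors
    · obtain ⟨a, ha, u, hu⟩ := (h2 l (hp l h).1).2 (hp l h).2.1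
      exact ⟨a, u, fun _ => ⟨ha, hu⟩⟩
    · exact ⟨1, 1, fun h' => (h h').elim⟩
  choose a u h3 using h3
  choose F hF1 hF2 using fun l : (absNorm A).primeFactors =>
    D.sph_in (hp l l.2).1 (hp l l.2).2.1 (hp l l.2).2.2.1 (hp l l.2).2.2.2.1
  have hπ : ∀ (l : (absNorm A).primeFactors) (σ : Γ) (y : D.Pt m e),
      (((σ • y).rep : GG) : GG ⧸ D.K l) = (D.ρ σ * y.rep : GG) := fun l σ y =>
    (QuotientGroup.eq.2 ((D.mem_KK.1 (y.rep_smul σ)).2 l (hp l l.2).1)).symm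
  obtain ⟨σ, hσ⟩ := D.align (absNorm A).primeFactors a u fun l h =>
    ⟨(hp l h).1, (hp l h).2.1,
      by simpa using ((h3 l h).1.norm (hp l h).1 1).1 (by simpa using (hp l h).2.2.1),
      fun e => (hp l h).2.2.2.1 (((h3 l h).1.norm (hp l h).1 2).2 e), (h3 l h).2.1⟩
  obtain ⟨T, hT, h4, h5⟩ := dens_abs O x hO (ι := (absNorm A).primeFactors)
    (Y := fun l => GG ⧸ D.K l) (fun l y => y.rep)
    (fun l σ y y' h => by
      rw [hπ, hπ]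
      exact QuotientGroup.eq.2 (by simpa [mul_assoc] using QuotientGroup.eq.1 h))
    Finset.univ (fun l => D.ν (a l)) F (fun l => l + 1)
    (fun y hy l _ => by
      obtain ⟨τ, rfl⟩ := (hO y).1 hy
      rw [hπ]
      exact hF2 l _ (h2.gal τ))
    (fun l _ => hF1 l) ⟨σ, fun l _ => by
      rw [hπ, eq_comm]
      exact QuotientGroup.eq.2 (by simpa [mul_assoc] using mul_mem (hσ l l.2) (h3 l l.2).2.2)⟩
  refine ⟨T, hT, fun y hy l hl hd => ?_,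
    by rwa [Finset.prod_coe_sort (absNorm A).primeFactors fun l => l + 1] at h5⟩
  have h : l ∈ (absNorm A).primeFactors := Nat.mem_primeFactors.2 ⟨hl, hd, fun h0 =>
    hc.1.ne_zero (by rw [map_mul, h0, zero_mul])⟩
  exact ⟨a l, Gen.of_mul hl (mul_comm A A' ▸ (h3 l h).1) (hp l h).2.2.2.2,
    QuotientGroup.eq.1 (h4 y hy ⟨l, h⟩ (Finset.mem_univ _)).symm⟩

theorem Pt.move (hm : l₀ ∣ m) (x : D.Pt m e) (hal : x.Al A) (hd : absNorm A ∣ x.lev)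
    (hmv : Mv f A B a β) (hc : Cls m (x.lev / absNorm A * absNorm B)) :
    ∃ y, Pt.Par a β x y ∧ y.lev = x.lev / absNorm A * absNorm B := by
  obtain ⟨hx, A₀, h1, h2, u, hu, h3⟩ := x.2
  change absNorm A₀ = x.lev at h1
  change Cls m x.lev at hx
  rw [← h1] at hx hd hc ⊢
  obtain ⟨A₁, ⟨A₂, rfl⟩, h4⟩ := exists_dvd_norm hx.1 (Nat.div_dvd_of_dvd hd)
  have h5 : absNorm A₂ = absNorm A := by
    have h6 := Nat.div_mul_cancel hd
    rw [← h4, map_mul] at h6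
    exact (Nat.eq_of_mul_eq_mul_left (Nat.pos_of_ne_zero fun h0 =>
      hx.1.ne_zero (by rw [map_mul, h0, zero_mul])) h6).symm
  rw [← h4, ← map_mul] at hc ⊢
  have sq : ∀ {l x y : ℕ}, l.Prime → Squarefree (x * y) → l ∣ x → ¬ l ∣ y := fun hl hs hx hy =>
    hl.not_isUnit (hs _ (mul_dvd_mul hx hy))
  have hB : B ≠ 0 := fun h => hc.1.ne_zero (by simp [h])
  have hn : ∀ {n : ℕ}, Cls m n → ¬ l₀ ∣ n := fun h =>
    (Nat.Prime.coprime_iff_not_dvd h₀.out).1 (h.2.1.coprime_dvd_right hm).symm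
  have hv : D.Val e (A₁ * B) (D.ν β * (D.ν a)⁻¹ * x.rep) := by
    refine ⟨in_move hmv hB (fun l hl => (h2 l hl).1) fun l hl hf => ?_, _,
      mul_mem (move_N h₀.out hf₀.out hmv (fun h => hn hx (h.trans hd))
        fun h => hn hc (h.trans (map_dvd absNorm (dvd_mul_left B A₁)))) hu,
      by simpa [mul_assoc, Pt.rep] using h3⟩
    by_cases h6 : l ∣ absNorm A₁
    · have h7 : ¬ l ∣ absNorm A₂ := sq hl (map_mul absNorm A₁ A₂ ▸ hx.1) h6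
      obtain ⟨a', ha', h8⟩ := (h2 l hl).2 hf
      exact Or.inr ⟨h5 ▸ h7, sq hl (map_mul absNorm A₁ B ▸ hc.1) h6, a',
        Gen.of_mul hl (mul_comm A₁ A₂ ▸ ha') h7, h8⟩
    · refine Or.inl ⟨h6, ?_⟩
      by_cases h7 : l ∣ absNorm A
      · exact hal l hl h7
      · refine ⟨1, gen_one hl h7, ?_⟩
        rw [D.ν_one, inv_one, one_mul]
        refine h2.mem_K hl ?_
        rw [map_mul, hl.dvd_mul, h5]
        tauto
  exact ⟨Pt.mk hc hv, ⟨hmv.2.1, hmv.2.2.1, Pt.rep_mk hc hv⟩, rfl⟩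

end Loc

end Pool.Agent.MT
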