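import Pool.Agent.Lib.MP_d61fbb_ag.MT.FDefs
import Pool.Agent.Lib.MP_d61fbb_ag.MT.FC
import Pool.Agent.Lib.MP_d61fbb_ag.MT.ENorm2

/-! Block F: the auxiliary quartic form. -/

namespace Pool.Agent.MT

open Complex

theorem f_ind : FInd := by
  classical
  intro m hm
  obtain ⟨s, hs, hli⟩ := mon_indep 4 (m := m) hm
  let eq := s.equivFin.symm
  let ch : Fin s.card → Fin 4 → I2 4 → ℤ := fun i k =>
    Sum.elim (fun j => (((eq i).1 k).1 j : ℕ)) fun j => (((eq i).1 k).2 j : ℕ)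
  refine ⟨s.card, ch, ?_, ?_, fun c hc => ?_⟩
  · rw [← pow_mul] at hs; exact hs
  · refine (Finset.card_le_univ s).trans (le_of_eq ?_)
    simp only [Fintype.card_pi, Fintype.card_prod, Fintype.card_fin, Finset.prod_const,
      Finset.card_univ]
    ring
  · let u : Fin s.card → ℂ := fun i => ∏ k, ee (-(Qf (fun j => (ch i k j : ℂ) / m) / 2))
    have hu : ∀ i, u i ≠ 0 := fun i => Finset.prod_ne_zero_iff.2 fun k _ => ee_ne _
    have h1 : ∀ i τ, ∏ k, Thm m τ (ch i k) = u i * fcMon m (eq i).1 τ := by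
      intro i τ
      simp only [Thm, Th, Finset.prod_mul_distrib, u, fcMon]
      congr 1
    have h2 := Fintype.linearIndependent_iff.1 (hli.comp eq eq.injective) (fun i => c i * u i) (by
      funext τ
      have := hc τ.1 τ.2
      simp only [h1, ← mul_assoc] at this
      simpa using this)
    funext i
    exact (mul_eq_zero.1 (h2 i)).resolve_right (hu i)

theorem f_out : FOut := by
  classical
  intro K _ l c hl
  obtain ⟨d, hd⟩ : ∃ d, d = Module.finrank ℚ K := ⟨_, rfl⟩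
  obtain ⟨a, ha⟩ : ∃ a : ℕ, 4 * d * 3 ^ 16 ≤ 2 ^ a := ⟨_, (Nat.lt_two_pow_self).le⟩
  obtain ⟨b, hb⟩ : ∃ b : ℕ, l ≤ 2 ^ b := ⟨_, (Nat.lt_two_pow_self).le⟩
  refine ⟨3 + 4 * c * (a + c + b + 1) + 64 * (a + c + b) + (a + c + b), fun X₀ hX => ?_⟩
  have hX1 : 1 ≤ X₀ := by omega
  obtain ⟨e, he1, he2⟩ : ∃ e, X₀ ^ (a + c) < l ^ (e + 1) ∧ l ^ e ≤ X₀ ^ (a + c) :=
    ⟨Nat.log l (X₀ ^ (a + c)), Nat.lt_pow_succ_log_self hl _,
      Nat.pow_log_le_self l (by positivity)⟩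
  obtain ⟨m, hm⟩ : ∃ m, m = l ^ (e + 1) := ⟨_, rfl⟩
  have hm1 : 1 ≤ m := by rw [hm]; exact Nat.one_le_pow _ _ (by omega)
  have hmX : m ≤ X₀ ^ (a + c + b) := by
    rw [hm, pow_succ, pow_add _ (a + c)]
    exact Nat.mul_le_mul he2 (hb.trans (Nat.pow_le_pow_left hX b))
  obtain ⟨r, ch, hr1, hr2, hind⟩ := f_ind m hm1
  refine ⟨e + 1, by omega, ?_, r, ch, ?_⟩
  · rw [← hm]; exact hmX.trans (Nat.pow_le_pow_right hX1 (by omega))
  rw [← hm] at he1 ⊢
  intro X _ θ hcard hint hhouse hperm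
  let _ := Fintype.ofFinite X
  have hr0 : 0 < r := by
    have : 0 < m ^ 24 := by positivity
    omega
  have : Nonempty (Fin r) := ⟨⟨0, hr0⟩⟩
  have hH0 : (1 : ℝ) ≤ ((m * X₀ : ℕ) : ℝ) ^ c :=
    one_le_pow₀ (by exact_mod_cast Nat.mul_pos hm1 hX1)
  have hN : 4 * (Module.finrank ℚ K * Fintype.card X) ≤ Fintype.card (Fin r) := by
    rw [Fintype.card_fin, ← hd, ← Nat.card_eq_fintype_card]
    have h1 : 3 ^ 16 * (4 * (d * Nat.card X)) ≤ 3 ^ 16 * r := by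
      refine le_trans ?_ hr1
      have h2 : 2 ^ a * X₀ ^ c ≤ m := by
        refine le_trans ?_ he1.le
        rw [pow_add]
        exact Nat.mul_le_mul_right _ (Nat.pow_le_pow_left hX a)
      calc 3 ^ 16 * (4 * (d * Nat.card X)) = (4 * d * 3 ^ 16) * Nat.card X := by ring
        _ ≤ 2 ^ a * (X₀ ^ c * m ^ 23) := Nat.mul_le_mul ha hcard
        _ = (2 ^ a * X₀ ^ c) * m ^ 23 := by ring
        _ ≤ m * m ^ 23 := Nat.mul_le_mul_right _ h2
        _ = m ^ 24 := by ring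
    exact Nat.le_of_mul_le_mul_left h1 (by positivity)
  obtain ⟨z, hz0, hz1, hz2⟩ := siegel_int K (fun x i => ∏ k, θ x (ch i k))
    (fun x i => IsIntegral.prod _ fun k _ => hint x _) (H := (((m * X₀ : ℕ) : ℝ) ^ c) ^ 4)
    (one_le_pow₀ hH0)
    (fun σ x i => by
      rw [map_prod, norm_prod]
      calc ∏ k, ‖σ (θ x (ch i k))‖ ≤ ∏ _k : Fin 4, ((m * X₀ : ℕ) : ℝ) ^ c :=
            Finset.prod_le_prod (fun _ _ => norm_nonneg _) fun k _ => hhouse σ x _
        _ = _ := by simp)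
    (fun σ hσ x => by
      obtain ⟨x', u, hu⟩ := hperm σ hσ x
      exact ⟨x', u ^ 4, fun i => by simp [map_prod, hu, Finset.prod_mul_distrib]⟩) hN
  refine ⟨z, ?_, hz2, ?_⟩
  · have h1 : ((∑ i, |z i| : ℤ) : ℝ) ≤ r * (8 * (((m * X₀ : ℕ) : ℝ) ^ c) ^ 4 * r) := by
      push_cast
      have := Finset.sum_le_card_nsmul Finset.univ (fun i => ((|z i| : ℤ) : ℝ)) _
        fun i _ => hz1 i
      simpa using this
    have h2 : r * (8 * ((m * X₀) ^ c) ^ 4 * r) ≤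
        X₀ ^ (3 + 4 * c * (a + c + b + 1) + 64 * (a + c + b) + (a + c + b)) := by
      have h3 : r ≤ X₀ ^ (32 * (a + c + b)) := by
        rw [mul_comm, pow_mul]; exact hr2.trans (Nat.pow_le_pow_left hmX 32)
      have h4 : m * X₀ ≤ X₀ ^ (a + c + b + 1) := by
        rw [pow_succ]; exact Nat.mul_le_mul_right _ hmX
      have h5 : ((m * X₀) ^ c) ^ 4 ≤ X₀ ^ (4 * c * (a + c + b + 1)) := by
        rw [← pow_mul, mul_comm (4 * c), pow_mul X₀, mul_comm 4 c]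
        exact Nat.pow_le_pow_left h4 _
      have h6 : 8 ≤ X₀ ^ 3 := Nat.pow_le_pow_left hX 3
      calc r * (8 * ((m * X₀) ^ c) ^ 4 * r)
          ≤ X₀ ^ (32 * (a + c + b)) * (X₀ ^ 3 * X₀ ^ (4 * c * (a + c + b + 1)) *
              X₀ ^ (32 * (a + c + b))) :=
            Nat.mul_le_mul h3 (Nat.mul_le_mul (Nat.mul_le_mul h6 h5) h3)
        _ = X₀ ^ (3 + 4 * c * (a + c + b + 1) + 64 * (a + c + b)) := by
            rw [← pow_add, ← pow_add, ← pow_add]; congr 1; ring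
        _ ≤ _ := Nat.pow_le_pow_right hX1 (by omega)
    have h7 : ((∑ i, |z i| : ℤ) : ℝ) ≤
        (X₀ : ℝ) ^ (3 + 4 * c * (a + c + b + 1) + 64 * (a + c + b) + (a + c + b)) :=
      h1.trans (by exact_mod_cast h2)
    exact_mod_cast h7
  · by_contra hc
    refine hz0 ?_
    have := hind (fun i => (z i : ℂ)) fun τ hτ => by
      by_contra h0
      exact hc ⟨τ, hτ, h0⟩
    funext i
    have h1 : (z i : ℂ) = 0 := congrFun this i
    exact Int.cast_eq_zero.1 h1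

end Pool.Agent.MT
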