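import Pool.Agent.Lib.MP_d61fbb_ag.MT.EG2
import Pool.Agent.Lib.MP_d61fbb_ag.MT.EAll
import Pool.Agent.Lib.MP_d61fbb_ag.MT.FFin

/-! The glue of block E: the system of points and the conclusion. -/

open NumberField Ideal

namespace Pool.Agent.MT

section
variable {r : ℕ} (z : Fin r → ℤ) (ch : Fin r → Fin 4 → I2 4 → ℤ) {θ θ' : (I2 4 → ℤ) → ℂ}

theorem qv_int (h : ∀ a, IsIntegral ℤ (θ a)) : IsIntegral ℤ (qv z ch θ) :=
  IsIntegral.sum _ fun i _ => (isIntegral_algebraMap (x := z i)).mul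
    (IsIntegral.prod _ fun _ _ => h _)

theorem qv_map (σ : ℂ ≃+* ℂ) : σ (qv z ch θ) = qv z ch fun a => σ (θ a) := by
  simp [qv, map_sum, map_prod]

theorem qv_smul {u : ℂ} (h : ∀ a, θ a = u * θ' a) : qv z ch θ = u ^ 4 * qv z ch θ' := by
  simp [qv, h, Finset.prod_mul_distrib, Finset.mul_sum, mul_left_comm]

theorem qv_norm {H : ℝ} (h : ∀ a, ‖θ a‖ ≤ H) : ‖qv z ch θ‖ ≤ (∑ i, |z i| : ℤ) * H ^ 4 := by
  rw [qv, Int.cast_sum, Finset.sum_mul]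
  refine (norm_sum_le _ _).trans (Finset.sum_le_sum fun i _ => ?_)
  rw [norm_mul, Complex.norm_intCast, Int.cast_abs, norm_prod]
  refine mul_le_mul_of_nonneg_left ?_ (abs_nonneg _)
  simpa using Finset.prod_le_prod (s := Finset.univ) (fun k _ => norm_nonneg (θ (ch i k)))
    fun k _ => h (ch i k)

end

theorem FinSize.eq_zero {w : ℂ → ℝ} (hw : FinSize w) {y : ℂ} (hy : IsIntegral ℤ y) {t : ℝ}
    (ht0 : 0 < t) (ht1 : t < 1) (h : ∀ n : ℕ, w y ≤ t ^ n) : y = 0 := by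
  classical
  by_contra h0
  have h1 : w y = 0 := le_antisymm (ge_of_tendsto' (tendsto_pow_atTop_nhds_zero_of_lt_one ht0.le
    ht1) h) (hw.nonneg y hy)
  obtain ⟨n, hn, e⟩ := prod_conjs hy h0
  have hq : IsIntegral ℚ y := hy.tower_top
  have h2 := hw.prod_le (conjs y) fun r hr => by
    obtain ⟨σ, rfl⟩ := (mem_conjs hq).1 hr
    exact isIntegral_aut σ hy
  rw [e, Finset.prod_eq_zero ((mem_conjs hq).2 ⟨RingEquiv.refl ℂ, rfl⟩) h1] at h2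
  have := hw.int n hn
  nlinarith [abs_nonneg (n : ℝ)]

namespace Glob

variable {E : Type} [Field E] [NumberField E] {cj : 𝓞 E ≃+* 𝓞 E} {k : Subfield ℂ} {f l₀ : ℕ}
  {t : ℝ} {Γ GG : Type} [Group Γ] [Group GG] (D : Glob E cj k f l₀ t Γ GG) {e m r : ℕ}
  (z : Fin r → ℤ) (ch : Fin r → Fin 4 → I2 4 → ℤ) {g g' : GG} {θ : (I2 4 → ℤ) → ℂ}

theorem inv' (h : g⁻¹ * g' ∈ D.KK e) (hθ : D.Th e g θ) : D.Th e g' θ :=
  D.inv e g g' θ (D.mem_KK.1 h).2 (D.mem_KK.1 h).1 hθ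

/-- zeros -/
def Z (x : D.Pt m e) : Prop := ∀ θ, D.Th e x.rep θ → qv z ch θ = 0

/-- sizes -/
noncomputable def sz (x : D.Pt m e) : ℝ := sSup ((fun θ => D.w (qv z ch θ)) '' {θ | D.Th e x.rep θ})

theorem le_sz {x : D.Pt m e} (h : D.Th e x.rep θ) : D.w (qv z ch θ) ≤ D.sz z ch x :=
  le_csSup ⟨1, by
    rintro _ ⟨θ', h', rfl⟩
    exact D.fin.le_one _ (qv_int z ch (D.int _ _ _ h'))⟩ ⟨θ, h, rfl⟩

theorem cls_ne {A : Ideal (𝓞 E)} (h : Cls m (absNorm A)) : A ≠ 0 :=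
  fun e => h.1.ne_zero (by simp [e])

theorem interp' (hm : f ∣ m) (ht : 0 < t) (x : D.Pt m e) (n : ℕ) (a β : Fin n → 𝓞 E)
    (y : Fin n → D.Pt m e) (h : ∀ i, Loc.Pt.Par (a i) (β i) x (y i) ∧ D.Z z ch (y i))
    (hd : ∀ i i', i ≠ i' → Dif cj (a i) (β i) (a i') (β i')) : D.sz z ch x ≤ t ^ n := by
  obtain ⟨c, hc⟩ := D.ex
  obtain ⟨h1, A, h2, h3, -⟩ := x.2
  rw [← h2] at h1
  refine Real.sSup_le ?_ (pow_nonneg ht.le n)
  rintro _ ⟨θ, hθ, rfl⟩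
  have : ∀ i, ∃ B θ', IsCoprime (a i) (f : 𝓞 E) ∧ (f : 𝓞 E) ∣ β i - a i ∧ B ≠ 0 ∧
      (absNorm B).Coprime f ∧ D.In B (D.ν (β i) * (D.ν (a i))⁻¹ * x.rep) ∧
      D.Th e (D.ν (β i) * (D.ν (a i))⁻¹ * x.rep) θ' ∧ qv z ch θ' = 0 := fun i => by
    obtain ⟨⟨h4, h5, h6⟩, h7⟩ := h i
    obtain ⟨h8, B, h9, h10, -⟩ := (y i).2
    rw [← h9] at h8
    have h11 : D.In B (D.ν (β i) * (D.ν (a i))⁻¹ * x.rep) := h10.congr fun l hl => by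
      simpa [Loc.Pt.rep] using inv_mem ((D.mem_KK.1 h6).2 l hl)
    obtain ⟨θ', h12, -⟩ := hc e B _ (cls_ne h8) (h8.2.1.coprime_dvd_right hm) h11
    exact ⟨B, θ', h4, h5, cls_ne h8, h8.2.1.coprime_dvd_right hm, h11, h12, h7 _ (D.inv' h6 h12)⟩
  choose B θ' h4 using this
  exact D.interp e r z ch A _ θ n a β B θ' (cls_ne h1) (h1.2.1.coprime_dvd_right hm) h3 hθ h4 hd

variable [h₀ : Fact l₀.Prime] [hf₀ : Fact (¬ l₀ ∣ f)]

theorem gal' {x : D.Pt m e} (h : D.Th e x.rep θ) (σ : Γ) :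
    D.Th e (σ • x).rep fun a => D.act σ (θ a) := D.inv' (x.rep_smul σ) (D.gal _ _ _ σ h)

theorem liou [Module.Finite ℚ k] {c c' X₀ : ℕ} (hX : 2 ≤ X₀)
    (hz : ∑ i, |z i| ≤ (X₀ : ℤ) ^ c') (x : D.Pt m e) (hx : X₀ ≤ x.lev) (O : Finset (D.Pt m e))
    (hO : ∀ y, y ∈ O ↔ ∃ σ : Γ, σ • x = y) (hθ : D.Th e x.rep θ)
    (hh : ∀ (σ : ℂ ≃+* ℂ) a, ‖σ (θ a)‖ ≤ ((2 * x.lev : ℕ) : ℝ) ^ c) (hZ : ¬ D.Z z ch x) :
    1 ≤ ((x.lev : ℝ) ^ ((Module.finrank ℚ k * (c' + 8 * c) : ℕ) : ℝ)) ^ O.card *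
      ∏ y ∈ O, D.sz z ch y := by
  classical
  have h0 : qv z ch θ ≠ 0 := fun h => hZ fun θ' h' => by
    obtain ⟨u, hu⟩ := D.uniq _ _ _ _ h' hθ
    rw [qv_smul z ch hu, h, mul_zero]
  have hO' : ∀ y, y ∈ O ↔ y ∈ MulAction.orbit Γ x := fun y => hO y
  let _ : Fintype (MulAction.orbit Γ x) := Fintype.subtype O hO'
  have h2 : (2 : ℝ) ≤ x.lev := by exact_mod_cast hX.trans hx
  have := norm_ineq k D.act D.full (X := MulAction.orbit Γ x) ⟨x, MulAction.mem_orbit_self x⟩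
    (fun y => y.2.imp fun σ h => Subtype.ext h) D.fin (qv_int z ch (D.int _ _ _ hθ)) h0
    (M := (x.lev : ℝ) ^ (c' + 8 * c)) (one_le_pow₀ (by linarith)) (fun σ => by
      rw [qv_map]
      refine (qv_norm z ch (hh σ)).trans ?_
      rw [pow_add, show 8 * c = 2 * c * 4 by ring, pow_mul, pow_mul]
      refine mul_le_mul ?_ (pow_le_pow_left₀ (by positivity) (pow_le_pow_left₀ (by positivity)
        (by push_cast; nlinarith) _) _) (by positivity) (by positivity)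
      exact_mod_cast hz.trans (pow_le_pow_left₀ (by positivity) (Nat.cast_le.2 hx) _))
    (fun y => D.sz z ch y.1) fun σ =>
      (congrArg D.w (qv_map z ch _)).trans_le (D.le_sz z ch (x := σ • x) (D.gal' hθ σ))
  rw [Fintype.card_of_subtype O hO', ← Finset.prod_subtype O hO'] at this
  rw [Real.rpow_natCast, ← pow_mul]
  rwa [← pow_mul, show (c' + 8 * c) * (Module.finrank ℚ k * O.card) =
    Module.finrank ℚ k * (c' + 8 * c) * O.card by ring] at this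

/-- the form kills the class -/
theorem out_cls [Module.Finite ℚ k] (δ : 𝓞 E) (hf : f ≠ 0) (hδ : cj δ = -δ)
    (hδf : 2 * δ ∣ (f : 𝓞 E)) (ht0 : 0 < t) (ht1 : t < 1) :
    ∃ (m e r : ℕ) (z : Fin r → ℤ) (ch : Fin r → Fin 4 → I2 4 → ℤ), m ≠ 0 ∧ f ∣ m ∧
      m.Coprime l₀ ∧ 1 ≤ e ∧ (∃ τ, Sieg τ ∧ qv z ch (Thm (l₀ ^ e) τ) ≠ 0) ∧
      ∀ x : D.Pt (m * l₀) e, D.Z z ch x := by
  classical
  obtain ⟨c, hc⟩ := D.ex
  obtain ⟨c₁, hc₁⟩ := D.card_pts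
  obtain ⟨c', hc'⟩ := f_out k l₀ (c + c₁) h₀.out.two_le
  obtain ⟨m, X₁, hm0, hm, hml, H⟩ := eInd E cj δ f l₀ t
    ((Module.finrank ℚ k * (c' + 8 * c) : ℕ) : ℝ) hf h₀.out.ne_zero
    ((Nat.Prime.coprime_iff_not_dvd h₀.out).2 hf₀.out).symm hδ hδf ht0 ht1
  obtain ⟨X₀, hX1, hX⟩ : ∃ X₀, X₁ ≤ X₀ ∧ 2 ≤ X₀ := ⟨max X₁ 2, le_max_left _ _, le_max_right _ _⟩
  obtain ⟨e, he, -, r, ch, hF⟩ := hc' X₀ hX
  have hm' : f ∣ m * l₀ := hm.mul_right _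
  have hex : ∀ x : D.Pt (m * l₀) e, ∃ θ, D.Th e x.rep θ ∧
      ∀ (σ : ℂ ≃+* ℂ) a, ‖σ (θ a)‖ ≤ ((2 * x.lev : ℕ) : ℝ) ^ c := fun x => by
    obtain ⟨h1, A, h2, h3, -⟩ := x.2
    have h4 : absNorm A = x.lev := h2
    rw [← h2] at h1
    rw [← h4]
    exact hc e A _ (cls_ne h1) (h1.2.1.coprime_dvd_right hm') h3
  choose θ hθ hh using hex
  obtain ⟨hfin, hcard⟩ := hc₁ (m * l₀) e X₀ hm' he hX
  have hl : 2 ≤ l₀ ^ e := h₀.out.two_le.trans (Nat.le_self_pow (by omega) _)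
  obtain ⟨z, hz, hz0, hz1⟩ := hF {x : D.Pt (m * l₀) e // x.lev ≤ X₀} (fun x => θ x)
    (hcard.trans (Nat.mul_le_mul_right _ (Nat.pow_le_pow_right (by omega) (by omega))))
    (fun x => D.int _ _ _ (hθ x))
    (fun σ x a => (hh x σ a).trans (by
      exact_mod_cast (Nat.pow_le_pow_left (Nat.mul_le_mul hl x.2) c).trans
        (Nat.pow_le_pow_right (Nat.mul_pos (by omega) (by omega)) (by omega))))
    (fun σ hσ x => by
      obtain ⟨s, rfl⟩ := D.full σ hσ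
      exact ⟨⟨s • x.1, x.2⟩, D.uniq _ _ _ _ (D.gal' (hθ x) s) (hθ _)⟩)
  have hfo : ∀ x : D.Pt (m * l₀) e, {y | ∃ σ : Γ, σ • x = y}.Finite := fun x => by
    refine Set.Finite.subset (s := {y : D.Pt (m * l₀) e | y.lev ≤ max x.lev 2})
      (hc₁ (m * l₀) e (max x.lev 2) hm' he (le_max_right _ _)).1 ?_
    rintro _ ⟨σ, rfl⟩
    exact le_max_left x.lev 2
  have hO : ∀ x y, y ∈ (hfo x).toFinset ↔ ∃ σ : Γ, σ • x = y := fun x y => (hfo x).mem_toFinset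
  refine ⟨m, e, r, z, ch, hm0, hm, hml, he, hz1, fun x => H X₀ hX1
    { X := D.Pt (m * l₀) e
      lev := Loc.Pt.lev
      orb := fun x => (hfo x).toFinset
      Al := Loc.Pt.Al
      Par := Loc.Pt.Par
      Z := D.Z z ch
      sz := D.sz z ch
      sz_nonneg := fun x => (D.fin.nonneg _ (qv_int z ch (D.int _ _ _ (hθ x)))).trans
        (D.le_sz z ch (hθ x))
      orb_ne := fun x => ⟨x, (hO x x).2 ⟨1, one_smul _ _⟩⟩
      lev_orb := fun x y hy => by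
        obtain ⟨σ, rfl⟩ := (hO x y).1 hy
        rfl
      dens := fun x _ => x.dens hm' _ (hO x)
      move := fun x A B a β _ h1 h2 h3 h4 => x.move (dvd_mul_left _ _) h1 h2 h3 h4
      interp := fun x n a β y _ h1 h2 => D.interp' z ch hm' ht0 x n a β y h1 h2
      liou := fun x _ h1 h2 => D.liou z ch hX hz x h1 _ (hO x) (hθ x) (hh x) h2 }
    (fun x _ hx θ' h' => ?_) x x.2.1⟩
  obtain ⟨u, hu⟩ := D.uniq _ _ _ _ h' (hθ x)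
  rw [qv_smul z ch hu, hz0 ⟨x, hx⟩, mul_zero]

end Glob

theorem glue : GlueStmt := by
  intro E _ _ cj δ k _ f l₀ t Γ GG _ _ D hf hl hlf hδ hδf ht0 ht1
  have := Fact.mk hl
  have := Fact.mk hlf
  obtain ⟨m, e, r, z, ch, hm0, hm, hml, he, hz, hZ⟩ := D.out_cls δ (by omega) hδ hδf ht0 ht1
  have h1 : ∀ A g θ, Cls (m * l₀) (absNorm A) → D.In A g → (∃ h ∈ D.N l₀, h⁻¹ * g ∈ D.Kn e) →
      D.Th e g θ → qv z ch θ = 0 := fun A g θ hA h2 h3 hθ =>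
    hZ (Loc.Pt.mk hA ⟨h2, h3⟩) θ (D.inv' (Loc.Pt.rep_mk hA ⟨h2, h3⟩) hθ)
  refine ⟨m, e, r, z, ch, hm0, hm, hml, he, hz, h1, ?_⟩
  suffices h : ∀ a g θ, a ≠ 0 → (∀ l, l.Prime → l ≠ l₀ → g ∈ D.K l) →
      (∃ h ∈ D.N l₀, (D.ν a * h)⁻¹ * g ∈ D.Kn e) → D.Th e g θ → qv z ch θ = 0 by
    rintro a g θ σ ha h2 ⟨u, hu, h3⟩ hθ
    have := h a _ _ ha (fun l h4 h5 => mul_mem (D.ρ_K σ⁻¹ l h4) (h2 l h4 h5))
      ⟨u, hu, by simpa [mul_assoc] using h3⟩ (D.gal e g θ σ⁻¹ hθ)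
    rw [← qv_map] at this
    exact (map_eq_zero _).1 this
  rintro a g θ ha h2 ⟨u, hu, h3⟩ hθ
  obtain ⟨c, hc⟩ := D.ex
  obtain ⟨A, d, j, h4, h5, h6⟩ := exists_lpart hl _ (eg_span_ne ha)
  have hA : Gen l₀ A a := ⟨ha, d, 1, by rw [h4, mul_one], h6, by simpa using hl.one_lt.ne'⟩
  obtain ⟨m', -, hm', H⟩ := eInf E cj δ f l₀ m (by omega) hl.ne_zero hm0 hm hml hδ hδf
  obtain ⟨B, a', β, h7, h8⟩ := H A hA.ne (h5 ▸ hm'.symm.pow_left j)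
  have h9 : ∀ l, l.Prime → l ∣ f → g ∈ D.K l := fun l h h' => h2 l h (by rintro rfl; exact hlf h')
  have h10 : ∀ l, l.Prime → ¬ l ∣ f → ∃ a', Gen l A a' ∧ (D.ν a')⁻¹ * g ∈ D.K l := fun l h _ => by
    by_cases hll : l = l₀
    · subst hll
      exact ⟨a, hA, by
        simpa [mul_assoc] using mul_mem (D.N_le l hl hlf hu) (D.Kn_le e h3)⟩
    · refine ⟨1, gen_one h fun h' => hll ?_, by simpa [D.ν_one] using h2 l h hll⟩
      exact (Nat.prime_dvd_prime_iff_eq h hl).1 (h.dvd_of_dvd_pow (h5 ▸ h'))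
  have h11 : ∀ i, ∃ θ', IsCoprime (a' i) (f : 𝓞 E) ∧ (f : 𝓞 E) ∣ β i - a' i ∧ B i ≠ 0 ∧
      (absNorm (B i)).Coprime f ∧ D.In (B i) (D.ν (β i) * (D.ν (a' i))⁻¹ * g) ∧
      D.Th e (D.ν (β i) * (D.ν (a' i))⁻¹ * g) θ' ∧ qv z ch θ' = 0 := fun i => by
    obtain ⟨hB, hv⟩ := h7 i
    have hB0 := Glob.cls_ne hB
    have hBf := hB.2.1.coprime_dvd_right (hm.mul_right _)
    have hI : D.In (B i) (D.ν (β i) * (D.ν (a' i))⁻¹ * g) := one_mul (B i) ▸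
      Loc.in_move hv hB0 h9 fun l h h' => Or.inl ⟨by simpa using h.one_lt.ne', h10 l h h'⟩
    obtain ⟨θ', hθ', -⟩ := hc e _ _ hB0 hBf hI
    obtain ⟨b, hb, h12⟩ := D.ν_move hl hlf hv.1 hB0 hv.2.2.2 hA
    have h13 := D.ν_unit hl hlf hb ((Nat.Prime.coprime_iff_not_dvd hl).1
      (hB.2.1.coprime_dvd_right (dvd_mul_left _ _)).symm)
    exact ⟨θ', hv.2.1, hv.2.2.1, hB0, hBf, hI, hθ', h1 _ _ _ hB hI
      ⟨_, mul_mem (mul_mem h13 h12) hu, by simpa [mul_assoc] using h3⟩ hθ'⟩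
  choose θ' h11 using h11
  refine D.fin.eq_zero (qv_int z ch (D.int _ _ _ hθ)) ht0 ht1 fun n =>
    D.interp e r z ch A g θ n (fun i => a' i) (fun i => β i) (fun i => B i) (fun i => θ' i) hA.ne
      (h5 ▸ ((Nat.Prime.coprime_iff_not_dvd hl).2 hlf).pow_left j) (fun l h => ⟨h9 l h, fun h' => ?_⟩)
      hθ (fun i => h11 i) fun i i' h => h8 _ _ fun e => h (Fin.ext e)
  obtain ⟨b, hb, h12⟩ := h10 l h h'
  exact ⟨b, hb, 1, one_mem _, by rwa [one_mul]⟩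

end Pool.Agent.MT
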