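import Mathlib

/-! Counting algebraic integers in boxes: packing bound for cosets of ideals, residue classes,
generators of one ideal. -/

namespace Pool.Agent.MT

open Finset NumberField Module

section box
variable {ι : Type*} [Fintype ι] [DecidableEq ι]

/-- integer points of the cube with centre `m` and half side `H` -/
noncomputable def ebox (m : ι → ℤ) (H : ℕ) : Finset (ι → ℤ) :=
  Fintype.piFinset fun i => Finset.Icc (m i - H) (m i + H)

theorem mem_ebox {m x : ι → ℤ} {H : ℕ} : x ∈ ebox m H ↔ ∀ i, |x i - m i| ≤ H := by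
  simp only [ebox, Fintype.mem_piFinset, Finset.mem_Icc, abs_le]
  exact forall_congr' fun i => by constructor <;> rintro ⟨h1, h2⟩ <;> constructor <;> omega

theorem card_ebox (m : ι → ℤ) (H : ℕ) : (ebox m H).card = (2 * H + 1) ^ Fintype.card ι := by
  simp only [ebox, Fintype.card_piFinset, Int.card_Icc]
  rw [Finset.prod_congr rfl (g := fun _ => 2 * H + 1) fun i _ => by omega]
  simp

/-- a set of points of a cube at mutual sup distance at least `s` is small -/
theorem card_le_of_sep (m : ι → ℤ) (H s : ℕ) (hs : 0 < s) (S : Finset (ι → ℤ))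
    (hS : S ⊆ ebox m H) (hsep : ∀ x ∈ S, ∀ y ∈ S, (∀ i, |x i - y i| < s) → x = y) :
    S.card ≤ (2 * H / s + 1) ^ Fintype.card ι := by
  have hs' : (0 : ℤ) < s := by exact_mod_cast hs
  let U : Finset (ι → ℤ) := Fintype.piFinset fun _ => Finset.Icc (0 : ℤ) ((2 * H / s : ℕ) : ℤ)
  have hU : U.card = (2 * H / s + 1) ^ Fintype.card ι := by
    simp only [U, Fintype.card_piFinset, Int.card_Icc, prod_const, card_univ]
    congr 1
  rw [← hU]
  refine Finset.card_le_card_of_injOn (fun x i => (x i - m i + H) / s) (fun x hx => ?_)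
    (fun x hx y hy hxy => hsep x hx y hy fun i => ?_)
  · have h := mem_ebox.1 (hS hx)
    refine Finset.mem_coe.2 (Fintype.mem_piFinset.2 fun i => Finset.mem_Icc.2 ?_)
    have hi := abs_le.1 (h i)
    refine ⟨Int.ediv_nonneg (by omega) hs'.le, ?_⟩
    push_cast
    exact Int.ediv_le_ediv hs' (by omega)
  · have e : (x i - m i + H) / s = (y i - m i + H) / s := congrFun hxy i
    have h1 := Int.emod_add_mul_ediv (x i - m i + H) s
    have h2 := Int.emod_add_mul_ediv (y i - m i + H) s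
    have h3 := Int.emod_nonneg (x i - m i + H) hs'.ne'
    have h4 := Int.emod_nonneg (y i - m i + H) hs'.ne'
    have h5 := Int.emod_lt_of_pos (x i - m i + H) hs'
    have h6 := Int.emod_lt_of_pos (y i - m i + H) hs'
    rw [e] at h1
    rw [abs_lt]
    constructor <;> omega

/-- every residue class modulo `q` meets a cube in at least `((2 H + 1) / q) ^ d` points -/
theorem card_class_ge (m r : ι → ℤ) (H q : ℕ) (hq : 0 < q) :
    ((2 * H + 1) / q) ^ Fintype.card ι ≤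
      ((ebox m H).filter fun x => ∀ i, (q : ℤ) ∣ x i - r i).card := by
  have hq' : (0 : ℤ) < q := by exact_mod_cast hq
  let U : Finset (ι → ℕ) := Fintype.piFinset fun _ => Finset.range ((2 * H + 1) / q)
  have hU : U.card = ((2 * H + 1) / q) ^ Fintype.card ι := by
    simp [U, Fintype.card_piFinset]
  rw [← hU]
  refine Finset.card_le_card_of_injOn
    (fun t i => m i - H + (r i - (m i - H)) % q + q * t i) (fun t ht => ?_)
    (fun t _ t' _ h => funext fun i => ?_)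
  · have ht' : ∀ i, t i < (2 * H + 1) / q := by
      simpa [U] using ht
    simp only [Finset.coe_filter, Set.mem_ofPred_eq, mem_ebox]
    refine ⟨fun i => ?_, fun i => ?_⟩
    · have h3 := Int.emod_nonneg (r i - (m i - H)) hq'.ne'
      have h5 := Int.emod_lt_of_pos (r i - (m i - H)) hq'
      have h1 : q * (t i + 1) ≤ 2 * H + 1 :=
        (Nat.mul_le_mul_left q (ht' i)).trans (Nat.mul_div_le _ _)
      have h2 : (q : ℤ) * t i + q ≤ 2 * H + 1 := by exact_mod_cast h1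
      have h4 : (0 : ℤ) ≤ q * t i := by positivity
      rw [abs_le]
      constructor <;> omega
    · have h1 := Int.emod_add_mul_ediv (r i - (m i - H)) q
      exact ⟨t i - (r i - (m i - H)) / q, by rw [mul_sub]; omega⟩
  · have e : m i - H + (r i - (m i - H)) % q + q * t i =
        m i - H + (r i - (m i - H)) % q + q * t' i := congrFun h i
    have : (q : ℤ) * t i = q * t' i := by omega
    exact_mod_cast mul_left_cancel₀ hq'.ne' this

/-- a union of residue classes modulo `q` -/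
theorem card_classes_ge (m : ι → ℤ) (H q : ℕ) (hq : 0 < q) (p : (ι → ℤ) → Prop) [DecidablePred p]
    (hp : ∀ x y, (∀ i, (q : ℤ) ∣ x i - y i) → p y → p x) :
    ((Fintype.piFinset fun _ : ι => Finset.Ico (0 : ℤ) q).filter p).card *
        ((2 * H + 1) / q) ^ Fintype.card ι ≤ ((ebox m H).filter p).card := by
  have hq' : (0 : ℤ) < q := by exact_mod_cast hq
  rw [mul_comm]
  refine Finset.mul_card_image_le_card_of_maps_to (f := fun (x : ι → ℤ) i => x i % (q : ℤ))
    (fun x hx => ?_) _ (fun r hr => ?_)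
  · rw [Finset.mem_filter] at hx ⊢
    refine ⟨Fintype.mem_piFinset.2 fun i => Finset.mem_Ico.2
      ⟨Int.emod_nonneg _ hq'.ne', Int.emod_lt_of_pos _ hq'⟩, hp _ x (fun i => ?_) hx.2⟩
    exact ⟨-(x i / q), by have := Int.emod_add_mul_ediv (x i) q; rw [mul_neg]; omega⟩
  · rw [Finset.mem_filter, Fintype.mem_piFinset] at hr
    refine (card_class_ge m r H q hq).trans (Finset.card_le_card fun x hx => ?_)
    rw [Finset.mem_filter] at hx
    rw [Finset.mem_filter, Finset.mem_filter]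
    refine ⟨⟨hx.1, hp x r hx.2 hr.2⟩, funext fun i => ?_⟩
    have h1 := Finset.mem_Ico.1 (hr.1 i)
    rw [← Int.emod_eq_of_lt h1.1 h1.2]
    exact Int.emod_eq_emod_iff_emod_sub_eq_zero.2 (Int.emod_eq_zero_of_dvd (hx.2 i))

end box

section nf
variable {E : Type*} [Field E] [NumberField E] {ι : Type*} [Fintype ι] [DecidableEq ι]

theorem abs_norm_eq_prod (γ : 𝓞 E) :
    |((Algebra.norm ℤ γ : ℤ) : ℝ)| = ∏ σ : E →ₐ[ℚ] ℂ, ‖σ (γ : E)‖ := by
  rw [← norm_prod, ← Algebra.norm_eq_prod_embeddings, ← Algebra.coe_norm_int]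
  simp

omit [DecidableEq ι] in
theorem card_basis (b : Basis ι ℤ (𝓞 E)) : Fintype.card ι = finrank ℚ E := by
  rw [← RingOfIntegers.rank, finrank_eq_card_basis b]

theorem card_algHom : Fintype.card (E →ₐ[ℚ] ℂ) = finrank ℚ E := AlgHom.card ℚ E ℂ

theorem abs_norm_le (γ : 𝓞 E) {t : ℝ} (h : ∀ σ : E →ₐ[ℚ] ℂ, ‖σ (γ : E)‖ ≤ t) :
    |((Algebra.norm ℤ γ : ℤ) : ℝ)| ≤ t ^ finrank ℚ E := by
  rw [abs_norm_eq_prod, ← card_algHom, ← Finset.card_univ, ← Finset.prod_const]
  exact Finset.prod_le_prod (fun _ _ => norm_nonneg _) fun σ _ => h σ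

theorem le_abs_norm (γ : 𝓞 E) {t : ℝ} (ht : 0 ≤ t) (h : ∀ σ : E →ₐ[ℚ] ℂ, t ≤ ‖σ (γ : E)‖) :
    t ^ finrank ℚ E ≤ |((Algebra.norm ℤ γ : ℤ) : ℝ)| := by
  rw [abs_norm_eq_prod, ← card_algHom, ← Finset.card_univ, ← Finset.prod_const]
  exact Finset.prod_le_prod (fun _ _ => ht) fun σ _ => h σ

omit [DecidableEq ι] in
/-- conjugates of an integer with small coordinates are small -/
theorem exists_conj_bound (b : Basis ι ℤ (𝓞 E)) : ∃ c : ℕ, 1 ≤ c ∧
    ∀ (x : ι → ℤ) (R : ℝ), (∀ i, |(x i : ℝ)| ≤ R) → 0 ≤ R →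
      ∀ σ : E →ₐ[ℚ] ℂ, ‖σ ((b.equivFun.symm x : 𝓞 E) : E)‖ ≤ c * R := by
  obtain ⟨c, hc⟩ := exists_nat_ge (∑ i, house ((b i : 𝓞 E) : E))
  refine ⟨c + 1, by omega, fun x R hx hR σ => ?_⟩
  rw [Basis.equivFun_symm_apply]
  have e : σ (((∑ i, x i • b i : 𝓞 E)) : E) = ∑ i, (x i : ℂ) * σ ((b i : 𝓞 E) : E) := by
    simp [map_sum]
  rw [e]
  calc ‖∑ i, (x i : ℂ) * σ ((b i : 𝓞 E) : E)‖ ≤ ∑ i, R * house ((b i : 𝓞 E) : E) := by
        refine (norm_sum_le _ _).trans (Finset.sum_le_sum fun i _ => ?_)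
        rw [norm_mul, Complex.norm_intCast]
        exact mul_le_mul (hx i) (norm_embedding_le_house _ σ.toRingHom) (norm_nonneg _) hR
    _ = (∑ i, house ((b i : 𝓞 E) : E)) * R := by rw [← Finset.mul_sum, mul_comm]
    _ ≤ _ := by
        push_cast
        exact mul_le_mul_of_nonneg_right (by linarith) hR

theorem absNorm_le_abs_norm {I : Ideal (𝓞 E)} {γ : 𝓞 E} (h : γ ∈ I) (h0 : γ ≠ 0) :
    (Ideal.absNorm I : ℝ) ≤ |((Algebra.norm ℤ γ : ℤ) : ℝ)| := by
  have h1 := Int.le_of_dvd (abs_pos.2 (Algebra.norm_ne_zero_iff.2 h0))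
    ((dvd_abs _ _).2 (Ideal.absNorm_dvd_norm_of_mem h))
  exact_mod_cast h1

open Classical in
/-- PACKING: a coset of a nonzero ideal meets a cube in few points -/
theorem exists_pack (b : Basis ι ℤ (𝓞 E)) : ∃ C : ℝ, 1 ≤ C ∧
    ∀ (I : Ideal (𝓞 E)), I ≠ ⊥ → ∀ (a : 𝓞 E) (m : ι → ℤ) (H : ℕ),
      (((ebox m H).filter fun x => b.equivFun.symm x - a ∈ I).card : ℝ) ≤
        C * ((H : ℝ) ^ finrank ℚ E / Ideal.absNorm I + 1) := by
  obtain ⟨c, hc1, hc⟩ := exists_conj_bound b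
  set d := finrank ℚ E with hd
  have d0 : d ≠ 0 := finrank_pos.ne'
  have c0 : (1 : ℝ) ≤ c := by exact_mod_cast hc1
  refine ⟨(4 * c) ^ d, one_le_pow₀ (by linarith), fun I hI a m H => ?_⟩
  have hN : 0 < Ideal.absNorm I := Nat.pos_of_ne_zero fun h => hI (Ideal.absNorm_eq_zero_iff.1 h)
  have hN' : (0 : ℝ) < Ideal.absNorm I := by exact_mod_cast hN
  have hex : ∃ s : ℕ, Ideal.absNorm I ≤ (c * s) ^ d :=
    ⟨Ideal.absNorm I, (Nat.le_mul_of_pos_left _ hc1).trans (Nat.le_self_pow d0 _)⟩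
  set s := Nat.find hex with hs
  have s1 : Ideal.absNorm I ≤ (c * s) ^ d := Nat.find_spec hex
  have s0 : 0 < s := by
    by_contra h
    have : s = 0 := by omega
    rw [this, mul_zero, zero_pow d0] at s1
    omega
  have s2 : (c * (s - 1)) ^ d < Ideal.absNorm I := by
    have := Nat.find_min hex (m := s - 1) (by omega)
    omega
  have h1 := card_le_of_sep m H s s0 ((ebox m H).filter fun x => b.equivFun.symm x - a ∈ I)
    (Finset.filter_subset _ _) (fun x hx y hy hxy => by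
      by_contra hne
      have hm : b.equivFun.symm (x - y) ∈ I := by
        have := I.sub_mem (Finset.mem_filter.1 hx).2 (Finset.mem_filter.1 hy).2
        rwa [sub_sub_sub_cancel_right, ← map_sub] at this
      have h0 : b.equivFun.symm (x - y) ≠ 0 := fun h =>
        hne (sub_eq_zero.1 (b.equivFun.symm.map_eq_zero_iff.1 h))
      have h2 := absNorm_le_abs_norm hm h0
      have h3 := abs_norm_le _ (hc (x - y) ((s - 1 : ℕ) : ℝ) (fun i => by
        have : |x i - y i| ≤ ((s - 1 : ℕ) : ℤ) := by have := hxy i; omega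
        exact_mod_cast this) (Nat.cast_nonneg _))
      have h4 : ((c : ℝ) * ((s - 1 : ℕ) : ℝ)) ^ d < Ideal.absNorm I := by exact_mod_cast s2
      linarith)
  rw [card_basis b, ← hd] at h1
  have s0' : (0 : ℝ) < s := by exact_mod_cast s0
  have h2 : (((2 * H / s + 1) ^ d : ℕ) : ℝ) ≤ (2 * H / s + 1) ^ d := by
    push_cast
    gcongr
    exact_mod_cast Nat.cast_div_le
  have h3 : (2 * H / s + 1 : ℝ) ^ d ≤ 2 ^ d * ((2 * H / s) ^ d + 1) := by
    have := add_pow_le (a := (2 * H / s : ℝ)) (b := 1) (by positivity) zero_le_one d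
    rw [one_pow] at this
    refine this.trans (mul_le_mul_of_nonneg_right ?_ (by positivity))
    exact pow_le_pow_right₀ one_le_two (Nat.sub_le _ _)
  have h4 : (2 * H / s : ℝ) ^ d ≤ (2 * c) ^ d * ((H : ℝ) ^ d / Ideal.absNorm I) := by
    have s1' : (Ideal.absNorm I : ℝ) ≤ (c * s) ^ d := by exact_mod_cast s1
    calc (2 * H / s : ℝ) ^ d = (2 * c) ^ d * ((H : ℝ) ^ d / (c * s) ^ d) := by
          rw [← div_pow, ← mul_pow]; congr 1; field_simp
      _ ≤ _ := by gcongr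
  have h5 : (1 : ℝ) ≤ (2 * c) ^ d := one_le_pow₀ (by linarith)
  calc _ ≤ (((2 * H / s + 1) ^ d : ℕ) : ℝ) := by exact_mod_cast h1
    _ ≤ 2 ^ d * ((2 * H / s) ^ d + 1) := h2.trans h3
    _ ≤ 2 ^ d * ((2 * c) ^ d * ((H : ℝ) ^ d / Ideal.absNorm I) + (2 * c) ^ d * 1) := by
        gcongr; linarith
    _ = _ := by rw [← mul_add, ← mul_assoc, ← mul_pow]; congr 2; ring

omit [DecidableEq ι] in
/-- in a cube centred at a rational integer `t` all conjugates are within `c H` of `t` -/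
theorem conj_near (b : Basis ι ℤ (𝓞 E)) {c : ℕ}
    (hc : ∀ (x : ι → ℤ) (R : ℝ), (∀ i, |(x i : ℝ)| ≤ R) → 0 ≤ R →
      ∀ σ : E →ₐ[ℚ] ℂ, ‖σ ((b.equivFun.symm x : 𝓞 E) : E)‖ ≤ c * R)
    (t : ℤ) (H : ℕ) (x : ι → ℤ) (hx : ∀ i, |x i - b.equivFun (t : 𝓞 E) i| ≤ H)
    (σ : E →ₐ[ℚ] ℂ) : ‖σ ((b.equivFun.symm x : 𝓞 E) : E) - t‖ ≤ c * H := by
  have h := hc (x - b.equivFun (t : 𝓞 E)) H (fun i => by exact_mod_cast hx i) (Nat.cast_nonneg _) σ
  rw [map_sub, LinearEquiv.symm_apply_apply] at h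
  simpa using h

open Classical in
/-- cubes centred at `2 c H`: norms are of size `H ^ d` and every ideal has a bounded number of
generators -/
theorem exists_centred (b : Basis ι ℤ (𝓞 E)) : ∃ (c : ℕ) (C : ℝ), 1 ≤ c ∧ 1 ≤ C ∧
    ∀ H : ℕ, 1 ≤ H →
      (∀ x ∈ ebox (b.equivFun ((2 * c * H : ℕ) : 𝓞 E)) H,
        ((c : ℝ) * H) ^ finrank ℚ E ≤ Ideal.absNorm (Ideal.span {b.equivFun.symm x}) ∧
        (Ideal.absNorm (Ideal.span {b.equivFun.symm x}) : ℝ) ≤ (3 * c * H) ^ finrank ℚ E) ∧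
      ∀ I : Ideal (𝓞 E), (((ebox (b.equivFun ((2 * c * H : ℕ) : 𝓞 E)) H).filter
        fun x => Ideal.span {b.equivFun.symm x} = I).card : ℝ) ≤ C := by
  obtain ⟨c, hc1, hc⟩ := exists_conj_bound b
  obtain ⟨C, hC1, hC⟩ := exists_pack b
  have c0 : (1 : ℝ) ≤ c := by exact_mod_cast hc1
  refine ⟨c, 2 * C, hc1, by linarith, fun H hH => ?_⟩
  have H0 : (1 : ℝ) ≤ H := by exact_mod_cast hH
  have key : ∀ x ∈ ebox (b.equivFun ((2 * c * H : ℕ) : 𝓞 E)) H,
      ((c : ℝ) * H) ^ finrank ℚ E ≤ Ideal.absNorm (Ideal.span {b.equivFun.symm x}) ∧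
      (Ideal.absNorm (Ideal.span {b.equivFun.symm x}) : ℝ) ≤ (3 * c * H) ^ finrank ℚ E := by
    intro x hx
    have h1 := conj_near b hc ((2 * c * H : ℕ) : ℤ) H x (by simpa using mem_ebox.1 hx)
    have e : (Ideal.absNorm (Ideal.span {b.equivFun.symm x}) : ℝ) =
        |((Algebra.norm ℤ (b.equivFun.symm x) : ℤ) : ℝ)| := by
      rw [Ideal.absNorm_span_singleton, Nat.cast_natAbs]; push_cast; rfl
    have e2 : ‖(((2 * c * H : ℕ) : ℤ) : ℂ)‖ = 2 * c * H := by
      rw [Int.cast_natCast, Complex.norm_natCast]; push_cast; ring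
    rw [e]
    refine ⟨le_abs_norm _ (by positivity) fun σ => ?_, abs_norm_le _ fun σ => ?_⟩
    · have := norm_sub_norm_le (((2 * c * H : ℕ) : ℤ) : ℂ) (σ ((b.equivFun.symm x : 𝓞 E) : E))
      rw [norm_sub_rev, e2] at this
      linarith [h1 σ]
    · have := norm_sub_norm_le (σ ((b.equivFun.symm x : 𝓞 E) : E)) (((2 * c * H : ℕ) : ℤ) : ℂ)
      rw [e2] at this
      linarith [h1 σ]
  refine ⟨key, fun I => ?_⟩
  rcases ((ebox (b.equivFun ((2 * c * H : ℕ) : 𝓞 E)) H).filter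
    fun x => Ideal.span {b.equivFun.symm x} = I).eq_empty_or_nonempty with h | ⟨x0, hx0⟩
  · rw [h, Finset.card_empty]; push_cast; linarith
  obtain ⟨hx1, hx2⟩ := Finset.mem_filter.1 hx0
  have h1 := (key x0 hx1).1
  rw [hx2] at h1
  have h2 : (H : ℝ) ^ finrank ℚ E ≤ Ideal.absNorm I :=
    le_trans (pow_le_pow_left₀ (by linarith) (by nlinarith) _) h1
  have h3 : (0 : ℝ) < Ideal.absNorm I := lt_of_lt_of_le (by positivity) h2
  have hI : I ≠ ⊥ := fun h => by rw [h] at h3; simp at h3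
  refine le_trans ?_ ((hC I hI 0 (b.equivFun ((2 * c * H : ℕ) : 𝓞 E)) H).trans ?_)
  · refine Nat.cast_le.2 (Finset.card_le_card fun x hx => ?_)
    rw [Finset.mem_filter] at hx ⊢
    exact ⟨hx.1, by rw [sub_zero, ← hx.2]; exact Ideal.mem_span_singleton_self _⟩
  · have : (H : ℝ) ^ finrank ℚ E / Ideal.absNorm I ≤ 1 := (div_le_one h3).2 h2
    nlinarith

end nf

end Pool.Agent.MT
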