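import Pool.Agent.Lib.MP_d61fbb_ag.MT.GDefs
import Pool.Agent.Lib.MP_d61fbb_ag.MT.A6

/-! Block G: the Siegel space in coordinates, identity theorems. -/

noncomputable section

namespace Pool.Agent.MT.G

open Matrix Complex Filter Topology Set Metric

variable {g : ℕ}

theorem mk_symm (z : EE g) : (mk z)ᵀ = mk z := by
  ext i j; simp [mk, Sym2.eq_swap]

theorem un_mk (z : EE g) : un (mk z) = z := by
  funext p
  induction p using Sym2.ind with
  | _ i j => rcases le_total i j with h | h <;> simp [un, mk, h, Sym2.eq_swap]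

theorem mk_un {τ : Matrix (Fin g) (Fin g) ℂ} (h : τᵀ = τ) : mk (un τ) = τ := by
  ext i j
  rcases le_total i j with k | k <;> simp [un, mk, k]
  exact congrFun (congrFun h i) j

theorem mk_add (z w : EE g) : mk (z + w) = mk z + mk w := by
  rfl

theorem mk_smul (c : ℂ) (z : EE g) : mk (c • z) = c • mk z := by
  rfl

theorem mem_HH {z : EE g} : z ∈ HH g ↔ (Ym z).PosDef := by
  exact ⟨Sieg.posDef, fun h => ⟨mk_symm z, fun y hy => by
    simpa [im_dot, imM, Ym] using h.dotProduct_mulVec_pos hy⟩⟩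

theorem isOpen_HH : IsOpen (HH g) := by
  exact isOpen_iff_mem_nhds.2 fun z hz => Sieg.eventually (x := z)
    (t := fun (w : EE g) i j => w s(i, j)) hz mk_symm (Continuous.continuousAt (by fun_prop))

theorem convex_HH : Convex ℝ (HH g) := by
  intro z hz w hw a b ha hb hab
  refine ⟨mk_symm _, fun y hy => ?_⟩
  have e : (rc y ⬝ᵥ mk (a • z + b • w) *ᵥ rc y).im =
      a * (rc y ⬝ᵥ mk z *ᵥ rc y).im + b * (rc y ⬝ᵥ mk w *ᵥ rc y).im := by
    simp [mk, dotProduct, mulVec, Finset.mul_sum, mul_add, add_mul, Finset.sum_add_distrib,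
      mul_assoc, mul_left_comm]
  have h1 := hz.pos y hy
  have h2 := hw.pos y hy
  rw [e]
  rcases ha.eq_or_lt with rfl | ha
  · rw [zero_add] at hab; simpa [hab] using h2
  · positivity

theorem smul_mem_HH {z : EE g} (hz : z ∈ HH g) {c : ℝ} (hc : 0 < c) : (c : ℂ) • z ∈ HH g := by
  exact Sieg.smul hz hc

lemma convex_line {E : Type} [AddCommGroup E] [Module ℂ E] [Module ℝ E] [IsScalarTower ℝ ℂ E]
    {U : Set E} (hc : Convex ℝ U) (x v : E) : Convex ℝ ((fun t : ℂ => x + t • v) ⁻¹' U) :=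
  fun s hs t ht a b ha hb hab => by
    have := hc hs ht ha hb hab
    rwa [smul_add, smul_add, add_add_add_comm, ← add_smul, hab, one_smul, ← smul_assoc, ← smul_assoc,
      ← add_smul] at this

/-- the identity theorem on a convex open set -/
theorem idt {E F : Type} [NormedAddCommGroup E] [NormedSpace ℂ E] [NormedAddCommGroup F]
    [NormedSpace ℂ F] [CompleteSpace F] {U : Set E} (ho : IsOpen U) (hc : Convex ℝ U) {f : E → F}
    (hf : DifferentiableOn ℂ f U) {x y : E} (hx : x ∈ U) (hy : y ∈ U)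
    (h : ∀ᶠ w in 𝓝 x, f w = 0) : f y = 0 := by
  have d : Differentiable ℂ fun t : ℂ => x + t • (y - x) := by fun_prop
  have h1 := convex_line hc x (y - x)
  have := ((hf.comp d.differentiableOn (mapsTo_preimage _ _)).analyticOnNhd
    (ho.preimage d.continuous)).eqOn_zero_of_preconnected_of_eventuallyEq_zero h1.isPreconnected
    (z₀ := 0) (by simpa using hx) (d.continuous.continuousAt.eventually (p := fun w => f w = 0)
      (by simpa using h)) (show (1 : ℂ) ∈ _ by simpa using hy)
  simpa using this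

/-- the identity theorem along a connected set -/
theorem idt_conn {E F : Type} [NormedAddCommGroup E] [NormedSpace ℂ E] [NormedAddCommGroup F]
    [NormedSpace ℂ F] [CompleteSpace F] {U T : Set E} (ho : IsOpen U) (hT : IsPreconnected T)
    (hTU : T ⊆ U) {f : E → F} (hf : DifferentiableOn ℂ f U) {x y : E} (hx : x ∈ T) (hy : y ∈ T)
    (h : ∀ᶠ w in 𝓝 x, f w = 0) : ∀ᶠ w in 𝓝 y, f w = 0 := by
  refine hT.subset_of_closure_inter_subset (u := {w | ∀ᶠ v in 𝓝 w, f v = 0})
    isOpen_setOfPred_eventually_nhds ⟨x, hx, h⟩ (fun w ⟨h1, h2⟩ => ?_) hy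
  obtain ⟨r, hr, hb⟩ := Metric.isOpen_iff.1 ho w (hTU h2)
  obtain ⟨v, h3, h4⟩ := mem_closure_iff_nhds.1 h1 _ (ball_mem_nhds w hr)
  filter_upwards [ball_mem_nhds w hr] with u hu
  exact idt isOpen_ball (convex_ball w r) (hf.mono hb) h3 hu h4

/-- germs of holomorphic functions form a domain -/
theorem germ_dom {E : Type} [NormedAddCommGroup E] [NormedSpace ℂ E] {f f' : E → ℂ} {x : E}
    (hf : ∀ᶠ w in 𝓝 x, DifferentiableAt ℂ f w) (hf' : ∀ᶠ w in 𝓝 x, DifferentiableAt ℂ f' w)
    (h : ∀ᶠ w in 𝓝 x, f w * f' w = 0) : (∀ᶠ w in 𝓝 x, f w = 0) ∨ ∀ᶠ w in 𝓝 x, f' w = 0 := by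
  obtain ⟨r, hr, hb⟩ := Metric.eventually_nhds_iff_ball.1 (hf'.and (h.and hf))
  refine or_iff_not_imp_left.2 fun h1 => ?_
  obtain ⟨v, h2, h3⟩ := ((not_eventually.1 h1).and_eventually (ball_mem_nhds x hr)).exists
  filter_upwards [ball_mem_nhds x hr] with u hu
  refine idt isOpen_ball (convex_ball x r) (fun w hw => (hb w hw).1.differentiableWithinAt) h3 hu ?_
  filter_upwards [(hb v h3).2.2.continuousAt.eventually_ne h2, isOpen_ball.mem_nhds h3] with w h4 h5
  exact (mul_eq_zero.1 (hb w h5).2.1).resolve_left h4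

/-- a holomorphic function that vanishes on a dense set of real translates is zero -/
theorem zero_of_transl {l : ℕ} (hl : 2 ≤ l) {F : EE g → ℂ} (hF : DifferentiableOn ℂ F (HH g))
    {z₀ : EE g} (h₀ : z₀ ∈ HH g)
    (h : ∀ (m : ℕ) (B : Sym2 (Fin g) → ℤ), F (z₀ + fun p => 32 * (B p : ℂ) / (l : ℂ) ^ m) = 0) :
    ∀ z ∈ HH g, F z = 0 := by
  have m1 : ∀ a : Sym2 (Fin g) → ℝ, z₀ + rc a ∈ HH g := fun a => by
    rw [mem_HH] at h₀ ⊢
    convert h₀ using 1
    ext i j; simp [Ym, mk]
  have h1 : ∀ a : Sym2 (Fin g) → ℝ, F (z₀ + rc a) = 0 := fun a => by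
    have l1 : (1 : ℝ) < l := by exact_mod_cast hl
    have t : Tendsto (fun m : ℕ => z₀ + fun p => 32 * ((⌊a p / 32 * l ^ m⌋ : ℤ) : ℂ) / (l : ℂ) ^ m)
        atTop (𝓝 (z₀ + rc a)) := by
      refine tendsto_const_nhds.add (tendsto_pi_nhds.2 fun p => ?_)
      have t0 := tendsto_pow_atTop_atTop_of_one_lt l1
      have t1 : Tendsto (fun m : ℕ => 32 * ((⌊a p / 32 * l ^ m⌋ : ℤ) : ℝ) / (l : ℝ) ^ m) atTop
          (𝓝 (a p)) := by
        refine tendsto_of_tendsto_of_tendsto_of_le_of_le (g := fun m => a p - 32 * ((l : ℝ) ^ m)⁻¹)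
          (by simpa using (t0.inv_tendsto_atTop.const_mul 32).const_sub (a p)) tendsto_const_nhds
          (fun m => ?_) fun m => ?_
        · have := Int.sub_one_lt_floor (a p / 32 * l ^ m)
          beta_reduce
          rw [le_div_iff₀ (by positivity), sub_mul, mul_assoc, inv_mul_cancel₀ (by positivity)]
          linarith
        · have := Int.floor_le (a p / 32 * l ^ m)
          beta_reduce
          rw [div_le_iff₀ (by positivity)]
          linarith
      simpa [Function.comp_def] using (continuous_ofReal.tendsto _).comp t1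
    have := ((hF.differentiableAt (isOpen_HH.mem_nhds (m1 a))).continuousAt.tendsto).comp t
    simp only [Function.comp_def, h] at this
    exact tendsto_nhds_unique this tendsto_const_nhds
  intro z hz
  let a := rc fun p => (z p - z₀ p).re
  let b := rc fun p => (z p - z₀ p).im
  have d : Differentiable ℂ fun t : ℂ => z₀ + a + t • b := by fun_prop
  have e : ∀ s : ℝ, z₀ + a + (s : ℂ) • b = z₀ + rc fun p => (z p - z₀ p).re + s * (z p - z₀ p).im :=
    fun s => by funext p; simp [a, b, add_assoc]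
  have h2 := convex_line convex_HH (z₀ + a) b
  have e1 : z₀ + a + I • b = z := by funext p; apply Complex.ext <;> simp [a, b]
  have := ((hF.comp d.differentiableOn (mapsTo_preimage _ _)).analyticOnNhd
    (isOpen_HH.preimage d.continuous)).eqOn_zero_of_preconnected_of_frequently_eq_zero
    h2.isPreconnected (z₀ := 0) (by simpa [a] using m1 _) (by
      have : Tendsto (fun s : ℝ => (s : ℂ)) (𝓝[≠] 0) (𝓝[≠] 0) :=
        tendsto_nhdsWithin_iff.2 ⟨(continuous_ofReal.tendsto' 0 0 rfl).mono_left nhdsWithin_le_nhds,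
          eventually_nhdsWithin_of_forall fun s hs => by simpa using hs⟩
      exact this.frequently (Eventually.of_forall fun s => by
        simp only [Function.comp_apply, e, h1]).frequently) (show I ∈ _ by simpa [e1] using hz)
  simpa [e1] using this

end Pool.Agent.MT.G
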