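import Pool.Agent.Lib.MP_d61fbb_ag.MT.GDefs

/-! Block G: reduction of positive quadratic forms. -/

set_option linter.unusedSectionVars false

noncomputable section

namespace Pool.Agent.MT.G

open Matrix Finset

variable {ι : Type} [Fintype ι] [DecidableEq ι]

/-- a lower bound for a positive form -/
theorem pd_low {Y : Matrix ι ι ℝ} (h : Y.PosDef) :
    ∃ c : ℝ, 0 < c ∧ ∀ v : ι → ℝ, c * ‖v‖ ^ 2 ≤ v ⬝ᵥ Y *ᵥ v := by
  have hc : Continuous fun v : ι → ℝ => v ⬝ᵥ Y *ᵥ v := by fun_prop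
  have key : ∃ c : ℝ, 0 < c ∧ ∀ v ∈ Metric.sphere (0 : ι → ℝ) 1, c ≤ v ⬝ᵥ Y *ᵥ v := by
    rcases (Metric.sphere (0 : ι → ℝ) 1).eq_empty_or_nonempty with e | e
    · exact ⟨1, one_pos, fun v hv => by simp [e] at hv⟩
    · obtain ⟨v, hv, hm⟩ := (isCompact_sphere (0 : ι → ℝ) 1).exists_isMinOn e hc.continuousOn
      refine ⟨_, ?_, fun w hw => hm hw⟩
      have : v ≠ 0 := by rintro rfl; simp at hv
      simpa using h.dotProduct_mulVec_pos this
  obtain ⟨c, hc0, hc1⟩ := key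
  refine ⟨c, hc0, fun v => ?_⟩
  by_cases hv : v = 0
  · simp [hv]
  have hn : 0 < ‖v‖ := norm_pos_iff.2 hv
  have := hc1 (‖v‖⁻¹ • v) (by simp [norm_smul, hn.ne'])
  rw [mulVec_smul, smul_dotProduct, dotProduct_smul, smul_eq_mul, smul_eq_mul] at this
  calc c * ‖v‖ ^ 2 ≤ (‖v‖⁻¹ * (‖v‖⁻¹ * v ⬝ᵥ Y *ᵥ v)) * ‖v‖ ^ 2 := by gcongr
    _ = _ := by field_simp

theorem pd_fin {Y : Matrix ι ι ℝ} (h : Y.PosDef) (R : ℝ) :
    {u : ι → ℤ | (fun i => (u i : ℝ)) ⬝ᵥ Y *ᵥ (fun i => (u i : ℝ)) ≤ R}.Finite := by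
  obtain ⟨c, hc, h1⟩ := pd_low h
  obtain ⟨N, hN⟩ := exists_nat_ge (R / c + 1)
  refine (Set.Finite.pi' fun _ : ι => Set.finite_Icc (-(N : ℤ)) N).subset fun u hu i => ?_
  have h2 := (h1 _).trans hu
  have h3 : |(u i : ℝ)| ≤ ‖fun i => (u i : ℝ)‖ := norm_le_pi_norm (fun i => (u i : ℝ)) i
  have h4 : ‖fun i => (u i : ℝ)‖ ^ 2 ≤ R / c := by rwa [le_div_iff₀ hc, mul_comm]
  have h5 : |(u i : ℝ)| ≤ N := by nlinarith [abs_nonneg (u i : ℝ), sq_nonneg (|(u i : ℝ)| - 1)]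
  rw [abs_le] at h5
  exact ⟨by exact_mod_cast h5.1, by exact_mod_cast h5.2⟩

/-- the minimum on nonzero integral vectors -/
theorem pd_min {Y : Matrix ι ι ℝ} (h : Y.PosDef) : ∃ c : ℝ, 0 < c ∧ ∀ u : ι → ℤ, u ≠ 0 →
    c ≤ (fun i => (u i : ℝ)) ⬝ᵥ Y *ᵥ (fun i => (u i : ℝ)) := by
  obtain ⟨c, hc, h1⟩ := pd_low h
  refine ⟨c, hc, fun u hu => le_trans ?_ (h1 _)⟩
  obtain ⟨i, hi⟩ := Function.ne_iff.1 hu
  have h3 : |(u i : ℝ)| ≤ ‖fun i => (u i : ℝ)‖ := norm_le_pi_norm (fun i => (u i : ℝ)) i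
  have h4 : (1 : ℝ) ≤ |(u i : ℝ)| := by exact_mod_cast Int.one_le_abs hi
  exact le_mul_of_one_le_right hc.le (one_le_pow₀ (h4.trans h3))

theorem conj_diag (Y : Matrix ι ι ℝ) (U : Matrix ι ι ℤ) (j : ι) : ((zm U)ᵀ * Y * zm U) j j =
    (fun i => (U i j : ℝ)) ⬝ᵥ Y *ᵥ (fun i => (U i j : ℝ)) := by
  simp only [mul_apply, dotProduct, mulVec, transpose_apply, map_apply, sum_mul, mul_sum]
  rw [sum_comm]
  exact sum_congr rfl fun _ _ => sum_congr rfl fun _ _ => by ring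

theorem zm_mul (U V : Matrix ι ι ℤ) : zm (U * V) = zm U * zm V :=
  Matrix.map_mul (f := Int.castRingHom ℝ)

theorem zm_det (U : Matrix ι ι ℤ) : (zm U).det = U.det := ((Int.castRingHom ℝ).map_det U).symm

theorem pd_conj {Y : Matrix ι ι ℝ} (h : Y.PosDef) {U : Matrix ι ι ℤ} (hU : IsUnit U.det) :
    ((zm U)ᵀ * Y * zm U).PosDef := by
  have : (zm U).det ≠ 0 := by rw [zm_det]; exact_mod_cast hU.ne_zero
  have := h.conjTranspose_mul_mul_same (B := zm U)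
    (mulVec_injective_iff_isUnit.2 ((isUnit_iff_isUnit_det _).2 this.isUnit))
  rwa [conjTranspose_eq_transpose_of_trivial] at this

/-- a basis whose first vector is minimal among the vectors of all bases -/
theorem exists_first {Y : Matrix ι ι ℝ} (h : Y.PosDef) (o : ι) : ∃ U : Matrix ι ι ℤ,
    IsUnit U.det ∧ ∀ V : Matrix ι ι ℤ, IsUnit V.det → ∀ j,
      ((zm U)ᵀ * Y * zm U) o o ≤ ((zm V)ᵀ * Y * zm V) j j := by
  let f : (ι → ℤ) → ℝ := fun u => (fun i => (u i : ℝ)) ⬝ᵥ Y *ᵥ (fun i => (u i : ℝ))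
  let S : Set (ι → ℤ) := {u | ∃ V : Matrix ι ι ℤ, IsUnit V.det ∧ ∃ j, u = fun i => V i j}
  have h1 : (fun i => (1 : Matrix ι ι ℤ) i o) ∈ S := ⟨1, by simp, o, rfl⟩
  obtain ⟨u, ⟨⟨V, hV, j, rfl⟩, hu⟩, hm⟩ := Set.exists_min_image (S ∩ {u | f u ≤ f fun i => (1 : Matrix ι ι ℤ) i o})
    f ((pd_fin h _).subset Set.inter_subset_right) ⟨_, h1, le_refl (f _)⟩
  refine ⟨V.submatrix id (Equiv.swap o j), ?_, fun W hW k => ?_⟩
  · rw [det_permute']; exact (Units.isUnit _).mul hV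
  · rw [conj_diag, conj_diag]
    simp only [submatrix_apply, id, Equiv.swap_apply_left]
    by_cases e : f (fun i => W i k) ≤ f fun i => (1 : Matrix ι ι ℤ) i o
    · exact hm _ ⟨⟨W, hW, k, rfl⟩, e⟩
    · exact le_trans hu (not_le.1 e).le

variable {n : ℕ}

/-- extension by zero -/
def ext0 (Y : Matrix (Fin n) (Fin n) ℝ) : Matrix (Fin (n + 1)) (Fin (n + 1)) ℝ :=
  of fun i j => Fin.cases 0 (fun i => Fin.cases 0 (Y i) j) i

/-- reduced forms -/
def RF (C : ℝ) (Y : Matrix ι ι ℝ) : Prop :=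
  (∀ i j, |Y i j| ≤ C * Y j j) ∧ ∀ v : ι → ℝ, ∑ i, Y i i * v i ^ 2 ≤ C * (v ⬝ᵥ Y *ᵥ v)

theorem quad_ext (m : ℝ) (b : Fin n → ℝ) (Y : Matrix (Fin n) (Fin n) ℝ) (v : Fin (n + 1) → ℝ) :
    v ⬝ᵥ (m • vecMulVec (Fin.cons 1 b) (Fin.cons 1 b) + ext0 Y) *ᵥ v =
      m * (v 0 + b ⬝ᵥ Fin.tail v) ^ 2 + Fin.tail v ⬝ᵥ Y *ᵥ Fin.tail v := by
  rw [add_mulVec, dotProduct_add, smul_mulVec, dotProduct_smul, vecMulVec_mulVec]
  congr 1
  · have : v ⬝ᵥ Fin.cons 1 b = v 0 + b ⬝ᵥ Fin.tail v := by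
      simp [dotProduct, Fin.sum_univ_succ, Fin.tail, mul_comm]
    rw [dotProduct_smul, dotProduct_comm _ v, this, op_smul_eq_mul, smul_eq_mul, sq]
  · simp [dotProduct, mulVec, Fin.sum_univ_succ, Fin.tail, ext0]

theorem rf_step {C m : ℝ} (hC : 0 < C) (hm : 0 < m) {b : Fin n → ℝ} (hb : ∀ i, |b i| ≤ 1 / 2)
    {Y : Matrix (Fin n) (Fin n) ℝ} (hY : Y.PosDef) (h : RF C Y) (h0 : ∀ j, m ≤ m * b j ^ 2 + Y j j) :
    RF ((2 + n) * C + 2) (m • vecMulVec (Fin.cons 1 b) (Fin.cons 1 b) + ext0 Y) := by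
  have hb2 : ∀ i, b i ^ 2 ≤ 1 / 4 := fun i => by
    have := sq_le_sq' (abs_le.1 (hb i)).1 (abs_le.1 (hb i)).2
    linarith
  have hn : (0 : ℝ) ≤ n := Nat.cast_nonneg n
  have hnC : 0 ≤ n * C := by positivity
  have h1 : ∀ j, 3 / 4 * m ≤ Y j j := fun j => by nlinarith [hb2 j, h0 j]
  refine ⟨fun i j => ?_, fun v => ?_⟩
  · refine Fin.cases ?_ (fun i => ?_) i <;> refine Fin.cases ?_ (fun j => ?_) j <;>
      simp only [Matrix.add_apply, Matrix.smul_apply, vecMulVec_apply, Fin.cons_zero, Fin.cons_succ, ext0,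
        of_apply, Fin.cases_zero, Fin.cases_succ, smul_eq_mul, mul_one, one_mul, add_zero]
    · rw [abs_of_pos hm]; nlinarith
    · rw [abs_mul, abs_of_pos hm]
      have := h0 j
      have h3 : m * |b j| ≤ m := by nlinarith [hb j]
      nlinarith
    · rw [abs_mul, abs_of_pos hm]
      have h3 : m * |b i| ≤ m := by nlinarith [hb i]
      nlinarith
    · have h3 : |m * (b i * b j)| ≤ m := by
        rw [abs_mul, abs_mul, abs_of_pos hm]
        nlinarith [mul_le_mul (hb i) (hb j) (abs_nonneg _) (by norm_num)]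
      have h4 := (abs_add_le (m * (b i * b j)) (Y i j)).trans (add_le_add h3 (h.1 i j))
      have h5 : 0 ≤ m * (b j * b j) := mul_nonneg hm.le (mul_self_nonneg _)
      have h6 := h1 j
      have h7 : 0 ≤ Y j j := by linarith
      nlinarith [mul_nonneg hnC h7, mul_nonneg hnC h5, mul_nonneg hC.le h5, mul_nonneg hC.le h7]
  · rw [quad_ext, Fin.sum_univ_succ]
    simp only [Matrix.add_apply, Matrix.smul_apply, vecMulVec_apply, Fin.cons_zero, Fin.cons_succ, ext0,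
      of_apply, Fin.cases_zero, Fin.cases_succ, smul_eq_mul, mul_one, add_zero]
    set w := Fin.tail v with hw
    have e : ∀ i, v (Fin.succ i) = w i := fun _ => rfl
    simp only [e]
    have k1 := h.2 w
    have k2 : 0 ≤ w ⬝ᵥ Y *ᵥ w := by simpa using hY.posSemidef.dotProduct_mulVec_nonneg w
    have k3 : ∑ i, (m * (b i * b i) + Y i i) * w i ^ 2 ≤ 4 / 3 * ∑ i, Y i i * w i ^ 2 := by
      rw [mul_sum]
      refine sum_le_sum fun i _ => ?_
      rw [← mul_assoc (4 / 3)]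
      exact mul_le_mul_of_nonneg_right (by nlinarith [hb2 i, h1 i]) (sq_nonneg _)
    have k4 : (b ⬝ᵥ w) ^ 2 ≤ n * ∑ i, (b i * w i) ^ 2 := by
      simpa [dotProduct] using sq_sum_le_card_mul_sum_sq (s := univ) (f := fun i => b i * w i)
    have k5 : m * ∑ i, (b i * w i) ^ 2 ≤ 1 / 3 * ∑ i, Y i i * w i ^ 2 := by
      rw [mul_sum, mul_sum]
      refine sum_le_sum fun i _ => ?_
      rw [mul_pow, ← mul_assoc, ← mul_assoc]
      exact mul_le_mul_of_nonneg_right (by nlinarith [hb2 i, h1 i]) (sq_nonneg _)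
    have k6 : m * v 0 ^ 2 ≤ 2 * (m * (v 0 + b ⬝ᵥ w) ^ 2) + 2 * (m * (b ⬝ᵥ w) ^ 2) := by
      nlinarith [mul_nonneg hm.le (sq_nonneg (v 0 + 2 * b ⬝ᵥ w))]
    have k7 : m * (b ⬝ᵥ w) ^ 2 ≤ n * (1 / 3 * (C * w ⬝ᵥ Y *ᵥ w)) := by
      calc m * (b ⬝ᵥ w) ^ 2 ≤ m * (n * ∑ i, (b i * w i) ^ 2) := by gcongr
        _ = n * (m * ∑ i, (b i * w i) ^ 2) := by ring
        _ ≤ _ := mul_le_mul_of_nonneg_left (by linarith) hn
    have k8 : 0 ≤ m * (v 0 + b ⬝ᵥ w) ^ 2 := by positivity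
    nlinarith [mul_nonneg hnC k8, mul_nonneg hC.le k8, mul_nonneg hnC k2, mul_nonneg hC.le k2]

theorem rf_all (n : ℕ) : ∃ C : ℝ, 0 < C ∧ ∀ Y : Matrix (Fin n) (Fin n) ℝ, Y.PosDef →
    ∃ U : Matrix (Fin n) (Fin n) ℤ, IsUnit U.det ∧ RF C ((zm U)ᵀ * Y * zm U) := by
  induction n with
  | zero => exact ⟨1, one_pos, fun Y _ => ⟨1, by simp, fun i => i.elim0, fun v => by simp⟩⟩
  | succ n ih =>
    obtain ⟨C, hC, ih⟩ := ih
    refine ⟨(2 + n) * C + 2, by positivity, fun Y0 hY0 => ?_⟩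
    obtain ⟨U0, hU0, hmin⟩ := exists_first hY0 0
    have hY := pd_conj hY0 hU0
    set Y := (zm U0)ᵀ * Y0 * zm U0 with hYd
    have hm : 0 < Y 0 0 := hY.diag_pos
    have hs : ∀ i j, Y j i = Y i j := fun i j => by simpa using hY.isHermitian.apply i j
    let b : Fin n → ℝ := fun i => Y 0 i.succ / Y 0 0
    let Y' : Matrix (Fin n) (Fin n) ℝ := of fun i j => Y i.succ j.succ - Y 0 0 * (b i * b j)
    have e : Y = Y 0 0 • vecMulVec (Fin.cons 1 b) (Fin.cons 1 b) + ext0 Y' := by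
      ext i j
      refine Fin.cases ?_ (fun i => ?_) i <;> refine Fin.cases ?_ (fun j => ?_) j <;>
        simp [vecMulVec_apply, ext0, Y', b, hs 0, mul_div_cancel₀ _ hm.ne']
    have hY' : Y'.PosDef := PosDef.of_dotProduct_mulVec_pos (by
      ext i j; simp [Y', hs i.succ, mul_comm]) fun w hw => by
        have := hY.dotProduct_mulVec_pos (x := Fin.cons (-(b ⬝ᵥ w)) w) fun h0 =>
          hw (funext fun i => by simpa using congrFun h0 i.succ)
        rw [star_trivial, e, quad_ext] at this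
        simpa using this
    obtain ⟨U', hU', hr⟩ := ih Y' hY'
    let k : Fin n → ℤ := fun j => -round ((b ᵥ* zm U') j)
    let W : Matrix (Fin (n + 1)) (Fin (n + 1)) ℤ :=
      of fun i j => Fin.cases (Fin.cases 1 k j) (fun i => Fin.cases 0 (U' i) j) i
    have hW : W.det = U'.det := by
      rw [det_succ_column_zero, Fin.sum_univ_succ]
      simp [W]
      rfl
    let b' : Fin n → ℝ := fun j => (b ᵥ* zm U') j - round ((b ᵥ* zm U') j)
    have e1 : (Fin.cons 1 b : Fin (n + 1) → ℝ) ᵥ* zm W = Fin.cons 1 b' := by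
      funext j
      refine Fin.cases ?_ (fun j => ?_) j <;>
        simp [vecMul, dotProduct, Fin.sum_univ_succ, W, b', k]
      ring
    have e2 : (zm W)ᵀ * ext0 Y' * zm W = ext0 ((zm U')ᵀ * Y' * zm U') := by
      ext i j
      refine Fin.cases ?_ (fun i => ?_) i <;> refine Fin.cases ?_ (fun j => ?_) j <;>
        simp [mul_apply, Fin.sum_univ_succ, W, ext0]
    have e3 : (zm (U0 * W))ᵀ * Y0 * zm (U0 * W) = Y 0 0 • vecMulVec (Fin.cons 1 b') (Fin.cons 1 b') +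
        ext0 ((zm U')ᵀ * Y' * zm U') := by
      rw [zm_mul, transpose_mul, show (zm W)ᵀ * (zm U0)ᵀ * Y0 * (zm U0 * zm W) = (zm W)ᵀ * Y * zm W by
        simp only [hYd, Matrix.mul_assoc]]
      conv_lhs => rw [e]
      rw [Matrix.mul_add, Matrix.add_mul, e2, Matrix.mul_smul, Matrix.smul_mul, mul_vecMulVec,
        vecMulVec_mul, mulVec_transpose, e1]
    have hu : IsUnit (U0 * W).det := by rw [det_mul, hW]; exact hU0.mul hU'
    refine ⟨U0 * W, hu, ?_⟩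
    rw [e3]
    refine rf_step hC hm (fun i => abs_sub_round _) (pd_conj hY' hU') hr fun j => ?_
    have := hmin _ hu j.succ
    rw [e3] at this
    simpa [vecMulVec_apply, ext0, sq] using this

/-- a lower bound for the determinant -/
theorem det_low {Y : Matrix ι ι ℝ} (h : Y.IsHermitian) {c : ℝ} (hc : 0 ≤ c)
    (h1 : ∀ v : ι → ℝ, c * (v ⬝ᵥ v) ≤ v ⬝ᵥ Y *ᵥ v) : c ^ Fintype.card ι ≤ Y.det := by
  rw [h.det_eq_prod_eigenvalues, ← card_univ, ← prod_const]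
  refine prod_le_prod (fun _ _ => hc) fun i _ => ?_
  have h2 := h1 (h.eigenvectorBasis i)
  rw [h.mulVec_eigenvectorBasis, dotProduct_smul, smul_eq_mul] at h2
  have h3 : (0 : ℝ) < (h.eigenvectorBasis i).ofLp ⬝ᵥ (h.eigenvectorBasis i).ofLp := by
    refine lt_of_le_of_ne (Finset.sum_nonneg fun _ _ => mul_self_nonneg _) fun h0 => ?_
    have := dotProduct_self_eq_zero.1 h0.symm
    exact h.eigenvectorBasis.orthonormal.ne_zero i (by ext j; exact congrFun this j)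
  simpa using le_of_mul_le_mul_right h2 h3

end Pool.Agent.MT.G
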