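import Pool.Agent.Lib.MP_d61fbb_ag.MT.GU2
import Pool.Agent.Lib.MP_d61fbb_ag.MT.GDefs

/-! The covering cut out by a family of algebraic equations. -/

set_option autoImplicit false
set_option linter.unusedSectionVars false

noncomputable section

namespace Pool.Agent.MT.G

open Polynomial Filter Topology Set Metric GU

variable {σ L Γ D : Type} [Fintype σ] [Fintype L] [Group Γ] [Fintype D]

theorem Ctx.an (c : Ctx σ L Γ) {φ : (σ → ℂ) → ℂ} (h : φ ∈ c.K) {z : σ → ℂ} (hz : z ∈ c.U) :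
    AnalyticAt ℂ φ z := WT.osgood c.opn (c.diff φ h) z hz

theorem Ctx.an_b (c : Ctx σ L Γ) {z : σ → ℂ} (hz : z ∈ c.U) : AnalyticAt ℂ c.b z :=
  analyticAt_pi_iff.2 fun y => c.an (c.b_mem y) hz

theorem Ctx.eval_mem (c : Ctx σ L Γ) (P : MvPolynomial L ℂ) :
    (fun z => MvPolynomial.eval (c.b z) P) ∈ c.K := by
  induction P using MvPolynomial.induction_on with
  | C k => simp only [MvPolynomial.eval_C]; exact c.K.algebraMap_mem k
  | add p q hp hq => simp only [map_add]; exact c.K.add_mem hp hq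
  | mul_X p i hp => simp only [map_mul, MvPolynomial.eval_X]; exact c.K.mul_mem hp (c.b_mem i)

/-- Equations for the coordinates over a space of parameters. -/
structure Eqs (c : Ctx σ L Γ) (D : Type) where
  /-- the parameters -/
  d : D → L
  /-- the equations of the coordinates -/
  Q : L → (MvPolynomial D ℂ)[X]
  /-- the equation of the cusp form -/
  Qc : (MvPolynomial D ℂ)[X]
  /-- the hypersurface -/
  Δ : MvPolynomial D ℂ
  ne : Δ ≠ 0
  lead : ∀ u, MvPolynomial.eval u Δ ≠ 0 → ∀ y, MvPolynomial.eval u (Q y).leadingCoeff ≠ 0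
  simple : ∀ u, MvPolynomial.eval u Δ ≠ 0 → ∀ y w, ev (Q y) u w = 0 → ev (Q y).derivative u w ≠ 0
  low : ∀ u, MvPolynomial.eval u Δ ≠ 0 → MvPolynomial.eval u (Qc.coeff 0) ≠ 0

namespace Eqs

variable {c : Ctx σ L Γ} (e : Eqs c D)

/-- the projection -/
def t (z : σ → ℂ) : D → ℂ := fun i => c.b z (e.d i)

/-- the sections -/
structure Sec (s : (D → ℂ) → σ → ℂ) (W : Set (D → ℂ)) : Prop where
  opn : IsOpen W
  diff : DifferentiableOn ℂ s W
  maps : MapsTo s W c.U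
  proj : ∀ u ∈ W, e.t (s u) = u
  off : ∀ u ∈ W, MvPolynomial.eval u e.Δ ≠ 0
  eq : ∀ u ∈ W, ∀ y, ev (e.Q y) u (c.b (s u) y) = 0
  eqc : ∀ u ∈ W, ev e.Qc u (MvPolynomial.eval (c.b (s u)) c.χ) = 0

theorem an_t {z : σ → ℂ} (hz : z ∈ c.U) : AnalyticAt ℂ e.t z :=
  analyticAt_pi_iff.2 fun i => c.an (c.b_mem (e.d i)) hz

variable {e} {s s' : (D → ℂ) → σ → ℂ} {W W' : Set (D → ℂ)} {u : D → ℂ}

theorem Sec.mono (h : e.Sec s W) (ho : IsOpen W') (hs : W' ⊆ W) : e.Sec s W' :=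
  ⟨ho, h.diff.mono hs, h.maps.mono_left hs, fun u hu => h.proj u (hs hu),
    fun u hu => h.off u (hs hu), fun u hu => h.eq u (hs hu), fun u hu => h.eqc u (hs hu)⟩

theorem Sec.act (h : e.Sec s W) (γ : Γ) : e.Sec (fun u => c.a γ (s u)) W :=
  ⟨h.opn, (c.a_diff γ).comp h.diff h.maps, (c.a_maps γ).comp h.maps,
    fun u hu => (funext fun i => congrFun (c.b_a γ _ (h.maps hu)) (e.d i)).trans (h.proj u hu),
    h.off, fun u hu y => by rw [c.b_a γ _ (h.maps hu)]; exact h.eq u hu y,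
    fun u hu => by rw [c.b_a γ _ (h.maps hu)]; exact h.eqc u hu⟩

theorem Sec.cont (h : e.Sec s W) (hu : u ∈ W) : ContinuousAt s u :=
  (h.diff.differentiableAt (h.opn.mem_nhds hu)).continuousAt

/-- The local form of the solutions of the equations. -/
theorem loc {z : σ → ℂ} (hz : z ∈ c.U) (hΔ : MvPolynomial.eval (e.t z) e.Δ ≠ 0)
    (h : ∀ y, ev (e.Q y) (e.t z) (c.b z y) = 0) :
    ∃ (S : (D → ℂ) → σ → ℂ) (β : (D → ℂ) → L → ℂ), AnalyticAt ℂ S (e.t z) ∧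
      AnalyticAt ℂ β (e.t z) ∧ S (e.t z) = z ∧ (∀ᶠ u in 𝓝 (e.t z), ∀ y, ev (e.Q y) u (β u y) = 0) ∧
      ∀ᶠ w in 𝓝 z, (∀ y, ev (e.Q y) (e.t w) (c.b w y) = 0) → c.b w = β (e.t w) ∧ w = S (e.t w) := by
  choose β b1 b2 b3 b4 using fun y => branch (e.Q y) (h y) (e.simple _ hΔ y _ (h y))
  obtain ⟨Ψ, p1, p2⟩ := left_inv (c.an_b hz) (c.imm z hz)
  have hβ : AnalyticAt ℂ (fun u y => β y u) (e.t z) := analyticAt_pi_iff.2 b1
  have h0 : (fun y => β y (e.t z)) = c.b z := funext b2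
  refine ⟨fun u => Ψ fun y => β y u, fun u y => β y u, p1.comp_of_eq hβ h0, hβ,
    (congrArg Ψ h0).trans p2.self_of_nhds, eventually_all.2 b3, ?_⟩
  have h1 : ∀ y, ∀ᶠ w in 𝓝 z, ev (e.Q y) (e.t w) (c.b w y) = 0 → c.b w y = β y (e.t w) := fun y =>
    ((e.an_t hz).continuousAt.prodMk (c.an (c.b_mem y) hz).continuousAt).tendsto.eventually (b4 y)
  filter_upwards [eventually_all.2 h1, p2] with w h2 h3 h4
  have h5 : c.b w = fun y => β y (e.t w) := funext fun y => h2 y (h4 y)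
  exact ⟨h5, by rw [← h5, h3]⟩

theorem Sec.eq' (h : e.Sec s W) (hu : u ∈ W) (y : L) :
    ev (e.Q y) (e.t (s u)) (c.b (s u) y) = 0 := by rw [h.proj u hu]; exact h.eq u hu y

theorem Sec.uniq (h : e.Sec s W) (h' : e.Sec s' W') (hu : u ∈ W) (hu' : u ∈ W') (e0 : s u = s' u) :
    s =ᶠ[𝓝 u] s' := by
  obtain ⟨S, β, -, -, -, -, h5⟩ := loc (e := e) (h.maps hu)
    (by rw [h.proj u hu]; exact h.off u hu) (h.eq' hu)
  filter_upwards [(h.cont hu).tendsto.eventually h5, (h'.cont hu').tendsto.eventually (e0 ▸ h5),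
    h.opn.mem_nhds hu, h'.opn.mem_nhds hu'] with v a a' hv hv'
  rw [(a (h.eq' hv)).2, (a' (h'.eq' hv')).2, h.proj v hv, h'.proj v hv']

variable (e) in
/-- the values of the sections -/
def Val : Set (σ → ℂ) := {z | ∃ s W u, e.Sec s W ∧ u ∈ W ∧ s u = z}

/-- Near a limit of values, the values lie on one section. -/
theorem near {w : σ → ℂ} (hw : w ∈ c.U) (hΔ : MvPolynomial.eval (e.t w) e.Δ ≠ 0)
    (hc : w ∈ closure e.Val) : ∃ r > 0, ∃ S, e.Sec S (ball (e.t w) r) ∧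
      ∀ᶠ z in 𝓝 w, z ∈ e.Val → z = S (e.t z) := by
  have hv : ∀ z ∈ e.Val, ∀ y, ev (e.Q y) (e.t z) (c.b z y) = 0 := by
    rintro _ ⟨s, W, u, h, hu, rfl⟩
    exact h.eq' hu
  have h0 : ∀ y, ev (e.Q y) (e.t w) (c.b w y) = 0 := fun y => by
    have h1 := ca_ev (e.an_t hw).continuousAt (c.an (c.b_mem y) hw).continuousAt (e.Q y)
    by_contra h2
    obtain ⟨z, h3, h4⟩ := ((mem_closure_iff_frequently.1 hc).and_eventually
      (h1.eventually_ne h2)).exists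
    exact h4 (hv z h3 y)
  obtain ⟨S, β, a1, a2, a3, a4, a5⟩ := loc hw hΔ h0
  have a6 : ∀ᶠ u in 𝓝 (e.t w), S u ∈ c.U :=
    a1.continuousAt.tendsto.eventually (c.opn.mem_nhds (a3.symm ▸ hw))
  obtain ⟨r, hr, hb⟩ := Metric.eventually_nhds_iff_ball.1 (a1.eventually_analyticAt.and
    (a2.eventually_analyticAt.and (a4.and (a6.and
      ((ca_eval continuousAt_id e.Δ).eventually_ne hΔ)))))
  have a7 : ∀ᶠ z in 𝓝 w, e.t z ∈ ball (e.t w) r :=
    (e.an_t hw).continuousAt.tendsto.eventually (ball_mem_nhds _ hr)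
  obtain ⟨_, ⟨s, W, u, h, hu, rfl⟩, h5, h7⟩ := ((mem_closure_iff_frequently.1 hc).and_eventually
    (a5.eventually_nhds.and a7)).exists
  rw [h.proj u hu] at h7
  have k : ∀ᶠ v in 𝓝 u, v ∈ W ∧ c.b (s v) = β v ∧ s v = S v := by
    filter_upwards [(h.cont hu).tendsto.eventually h5, h.opn.mem_nhds hu] with v a hv
    have := a (h.eq' hv)
    rw [h.proj v hv] at this
    exact ⟨hv, this⟩
  have pc : IsPreconnected (ball (e.t w) r) := (convex_ball _ _).isPreconnected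
  have aS : AnalyticOnNhd ℂ S (ball (e.t w) r) := fun v hv => (hb v hv).1
  have ab : AnalyticOnNhd ℂ (fun v => c.b (S v)) (ball (e.t w) r) := fun v hv =>
    (c.an_b (hb v hv).2.2.2.1).comp (aS v hv)
  have e1 : EqOn (fun v => c.b (S v)) β (ball (e.t w) r) :=
    ab.eqOn_of_preconnected_of_eventuallyEq (fun v hv => (hb v hv).2.1) pc h7
      (k.mono fun v hv => by simp only [← hv.2.2, hv.2.1])
  have e2 : EqOn (fun v => e.t (S v)) id (ball (e.t w) r) :=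
    AnalyticOnNhd.eqOn_of_preconnected_of_eventuallyEq
      (fun v hv => (e.an_t (hb v hv).2.2.2.1).comp (aS v hv)) analyticOnNhd_id pc h7
      (k.mono fun v hv => by simp only [← hv.2.2, h.proj v hv.1, id])
  have e3 : EqOn (fun v => ev e.Qc v (MvPolynomial.eval (c.b (S v)) c.χ)) 0 (ball (e.t w) r) :=
    AnalyticOnNhd.eqOn_zero_of_preconnected_of_eventuallyEq_zero
      (fun v hv => an_ev (analyticAt_pi_iff.1 analyticAt_id)
        (an_eval (analyticAt_pi_iff.1 (ab v hv)) c.χ) e.Qc) pc h7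
      (k.mono fun v hv => by simp only [← hv.2.2, h.eqc v hv.1, Pi.zero_apply])
  refine ⟨r, hr, S, ⟨isOpen_ball, aS.differentiableOn, fun v hv => (hb v hv).2.2.2.1, e2,
    fun v hv => (hb v hv).2.2.2.2, fun v hv y => ?_, e3⟩, a5.mono fun z a hz => (a (hv z hz)).2⟩
  rw [show c.b (S v) = β v from e1 hv]
  exact (hb v hv).2.2.1 y

theorem triv {u₀ : D → ℂ} (h₀ : MvPolynomial.eval u₀ e.Δ ≠ 0) :
    ∃ r > 0, ∃ (n : ℕ) (S : Fin n → (D → ℂ) → σ → ℂ), (∀ i, e.Sec (S i) (ball u₀ r)) ∧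
      ∀ s W u, e.Sec s W → u ∈ W → u ∈ ball u₀ r → ∃ γ i, s u = c.a γ (S i u) := by
  choose R R0 hR using fun y => root_up (e.Q y) (e.lead _ h₀ y)
  obtain ⟨δ, δ0, hδ⟩ := root_low e.Qc (e.low _ h₀)
  obtain ⟨C, hC, hCU, hp⟩ := c.prop ‖R‖ δ δ0
  obtain ⟨r₀, hr₀, hb⟩ := Metric.eventually_nhds_iff_ball.1 ((eventually_all.2 hR).and hδ)
  have key : ∃ r > 0, ∃ T : Set ((D → ℂ) → σ → ℂ), T.Finite ∧ (∀ S ∈ T, e.Sec S (ball u₀ r)) ∧
      ∀ z ∈ C, z ∈ e.Val → e.t z ∈ ball u₀ r → ∃ S ∈ T, z = S (e.t z) := by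
    refine hC.induction_on (p := fun A => ∃ r > 0, ∃ T : Set ((D → ℂ) → σ → ℂ), T.Finite ∧
      (∀ S ∈ T, e.Sec S (ball u₀ r)) ∧
      ∀ z ∈ A, z ∈ e.Val → e.t z ∈ ball u₀ r → ∃ S ∈ T, z = S (e.t z)) ?_ ?_ ?_ ?_
    · exact ⟨1, one_pos, ∅, finite_empty, by simp, by simp⟩
    · rintro A B hAB ⟨r, hr, T, h1, h2, h3⟩
      exact ⟨r, hr, T, h1, h2, fun z hz => h3 z (hAB hz)⟩
    · rintro A B ⟨r, hr, T, h1, h2, h3⟩ ⟨r', hr', T', h1', h2', h3'⟩
      have m := ball_subset_ball (x := u₀) (min_le_left r r')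
      have m' := ball_subset_ball (x := u₀) (min_le_right r r')
      refine ⟨min r r', lt_min hr hr', T ∪ T', h1.union h1', fun S hS => hS.elim
        (fun h => (h2 S h).mono isOpen_ball m) fun h => (h2' S h).mono isOpen_ball m', ?_⟩
      rintro z (hz | hz) hv ht
      · exact (h3 z hz hv (m ht)).imp fun S h => ⟨Or.inl h.1, h.2⟩
      · exact (h3' z hz hv (m' ht)).imp fun S h => ⟨Or.inr h.1, h.2⟩
    · intro w hw
      by_cases h1 : e.t w = u₀
      · by_cases h2 : w ∈ closure e.Val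
        · obtain ⟨r, hr, S, h3, h4⟩ := near (hCU hw) (h1.symm ▸ h₀) h2
          exact ⟨_, nhdsWithin_le_nhds h4, r, hr, {S}, finite_singleton _,
            by rintro _ rfl; exact h1 ▸ h3, fun z hz hv _ => ⟨S, rfl, hz hv⟩⟩
        · exact ⟨_, nhdsWithin_le_nhds (isClosed_closure.isOpen_compl.mem_nhds h2), 1, one_pos, ∅,
            finite_empty, by simp, fun z hz hv _ => (hz (subset_closure hv)).elim⟩
      · have h2 : 0 < dist (e.t w) u₀ / 2 := half_pos (dist_pos.2 h1)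
        have h3 : ∀ᶠ z in 𝓝 w, dist (e.t w) u₀ / 2 < dist (e.t z) u₀ :=
          Tendsto.eventually (f := fun z => dist (e.t z) u₀)
            ((e.an_t (hCU hw)).continuousAt.tendsto.dist tendsto_const_nhds)
            (lt_mem_nhds (half_lt_self (dist_pos.2 h1)))
        exact ⟨_, nhdsWithin_le_nhds h3, _, h2, ∅, finite_empty, by simp,
          fun z hz _ ht => (lt_asymm (mem_ball.1 ht) hz).elim⟩
  obtain ⟨r, hr, T, h1, h2, h3⟩ := key
  obtain ⟨n, S, -, rfl⟩ := h1.fin_param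
  have m := ball_subset_ball (x := u₀) (min_le_left r r₀)
  have m' := ball_subset_ball (x := u₀) (min_le_right r r₀)
  refine ⟨min r r₀, lt_min hr hr₀, n, S, fun i => (h2 _ ⟨i, rfl⟩).mono isOpen_ball m,
    fun s W u h hu hur => ?_⟩
  obtain ⟨γ, hγ⟩ := hp (s u) (h.maps hu) ((pi_norm_le_iff_of_nonneg (norm_nonneg _)).2 fun y =>
    ((hb u (m' hur)).1 y _ (h.eq u hu y)).trans ((le_abs_self _).trans (norm_le_pi_norm R y)))
    ((hb u (m' hur)).2 _ (h.eqc u hu))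
  have h4 := (h.act γ).proj u hu
  obtain ⟨_, ⟨i, rfl⟩, h5⟩ := h3 _ hγ ⟨_, W, u, h.act γ, hu, rfl⟩ (by rw [h4]; exact m hur)
  refine ⟨γ⁻¹, i, ?_⟩
  rw [h4] at h5
  rw [← h5, ← c.a_mul _ _ _ (h.maps hu), inv_mul_cancel, c.a_one _ (h.maps hu)]

variable (e) in
/-- the covering -/
def cov : Cov c D where
  t := e.t
  Δ := e.Δ
  Sec := e.Sec
  Δ_ne := e.ne
  opn := Sec.opn
  diff := Sec.diff
  maps := Sec.maps
  proj := Sec.proj
  off := Sec.off
  mono := Sec.mono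
  act γ h := h.act γ
  uniq := Sec.uniq
  triv _ := triv

end Eqs

end Pool.Agent.MT.G
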