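import Pool.Agent.Lib.MP_d61fbb_ag.MT.G0a
import Pool.Agent.Lib.MP_d61fbb_ag.MT.GU3

/-! Block G: charts and fibres. -/

noncomputable section

namespace Pool.Agent.MT.G

open Matrix Complex Filter Topology Set Metric

variable {σ L Γ : Type} [Fintype σ] [Fintype L] [Group Γ]

theorem Ctx.fderiv_x (c : Ctx σ L Γ) (x : σ → L) {z : σ → ℂ} (hz : z ∈ c.U) (v : σ → ℂ) :
    fderiv ℂ (fun w i => c.b w (x i)) z v = fun i => fderiv ℂ c.b z v (x i) := by
  have h := (c.an_b hz).differentiableAt.hasFDerivAt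
  rw [(hasFDerivAt_pi.2 fun i => hasFDerivAt_pi'.1 h (x i)).fderiv]
  rfl

theorem Ctx.chart_ex (c : Ctx σ L Γ) {z : σ → ℂ} (hz : z ∈ c.U) : ∃ x, c.Chart x z := by
  classical
  let f : L → Module.Dual ℂ (σ → ℂ) := fun y =>
    (LinearMap.proj y).comp (fderiv ℂ c.b z : (σ → ℂ) →ₗ[ℂ] L → ℂ)
  have h0 : ∀ v, (∀ y, f y v = 0) → v = 0 := fun v h =>
    c.imm z hz ((funext h).trans (map_zero _).symm)
  have h1 : Submodule.span ℂ (range f) = ⊤ := Submodule.span_eq_top_of_ne_zero fun v hv => by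
    by_contra! h
    exact hv (h0 v fun y => h _ ⟨y, rfl⟩)
  obtain ⟨κ, a, ha, h2, h3⟩ := exists_linearIndependent' ℂ f
  have := Finite.of_injective a ha
  let _ := Fintype.ofFinite κ
  have h4 : Fintype.card σ = Fintype.card κ := by
    rw [← Module.finrank_eq_card_basis (Module.Basis.mk h3 (h2.trans h1).ge),
      Subspace.dual_finrank_eq, Module.finrank_fintype_fun_eq_card]
  let e := Fintype.equivOfCardEq h4
  refine ⟨a ∘ e, (injective_iff_map_eq_zero _).2 fun v hv => h0 v fun y => ?_⟩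
  rw [c.fderiv_x _ hz] at hv
  have h5 : Submodule.span ℂ (range (f ∘ a)) ≤ LinearMap.ker (Module.Dual.eval ℂ _ v) := by
    rw [Submodule.span_le]
    rintro _ ⟨k, rfl⟩
    simpa [f] using congrFun hv (e.symm k)
  exact h5 (x := f y) (by rw [h2, h1]; trivial)

theorem Ctx.chart_a (c : Ctx σ L Γ) {x : σ → L} {z : σ → ℂ} (hz : z ∈ c.U) (h : c.Chart x z)
    (γ : Γ) : c.Chart x (c.a γ z) := by
  have hz' := c.a_maps γ hz
  have e0 : c.a γ⁻¹ (c.a γ z) = z := by rw [← c.a_mul _ _ z hz, inv_mul_cancel, c.a_one z hz]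
  have d1 := ((c.a_diff γ⁻¹).differentiableAt (c.opn.mem_nhds hz')).hasFDerivAt
  have d2 := ((c.a_diff γ).differentiableAt (c.opn.mem_nhds hz)).hasFDerivAt
  have d3 : HasFDerivAt (fun w i => c.b w (x i)) (fderiv ℂ (fun w i => c.b w (x i)) z) z :=
    (differentiableAt_pi.2 fun i => (c.an (c.b_mem (x i)) hz).differentiableAt).hasFDerivAt
  rw [← e0] at d2 d3
  have e1 := ((d2.comp _ d1).congr_of_eventuallyEq (f₁ := id) (by
    filter_upwards [c.opn.mem_nhds hz'] with w hw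
    rw [Function.comp_apply, ← c.a_mul _ _ w hw, mul_inv_cancel, c.a_one w hw, id])).unique
      (hasFDerivAt_id _)
  have e2 := ((d3.comp _ d1).congr_of_eventuallyEq (f₁ := fun w i => c.b w (x i)) (by
    filter_upwards [c.opn.mem_nhds hz'] with w hw
    simp only [Function.comp_apply, c.b_a _ w hw])).fderiv
  rw [Ctx.Chart, e2, e0]
  exact h.comp (Function.LeftInverse.injective fun v => DFunLike.congr_fun e1 v)

theorem Ctx.fibre (c : Ctx σ L Γ) {p : L → ℂ} (hp : MvPolynomial.eval p c.χ ≠ 0) :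
    ∃ W : Set (σ → ℂ), W.Finite ∧ W ⊆ c.U ∧ ∀ z ∈ c.U, c.b z = p → ∃ γ, ∃ w ∈ W, z = c.a γ w := by
  obtain ⟨C, hC, hU, h⟩ := c.prop ‖p‖ _ (norm_pos_iff.2 hp)
  have hK : IsCompact (C ∩ c.b ⁻¹' {p}) := hC.of_isClosed_subset
    (ContinuousOn.preimage_isClosed_of_isClosed
      (fun w hw => (c.an_b (hU hw)).continuousAt.continuousWithinAt) hC.isClosed isClosed_singleton)
    inter_subset_left
  choose! Ψ _ hΨ using fun w (hw : w ∈ c.U) => GU.left_inv (c.an_b hw) (c.imm w hw)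
  obtain ⟨t, -, ht⟩ := hK.elim_nhds_subcover (fun w => {w' | Ψ w (c.b w') = w'})
    fun w hw => hΨ w (hU hw.1)
  refine ⟨_, (t.finite_toSet.image fun w => Ψ w p).subset fun w hw => ?_,
    fun w (hw : w ∈ C ∩ c.b ⁻¹' {p}) => hU hw.1, fun z hz e => ?_⟩
  · obtain ⟨w', h1, h2⟩ := mem_iUnion₂.1 (ht hw)
    exact ⟨w', h1, by rw [← show c.b w = p from hw.2]; exact h2⟩
  · obtain ⟨γ, hγ⟩ := h z hz (by rw [e]) (by rw [e])
    exact ⟨γ⁻¹, _, ⟨hγ, (c.b_a γ z hz).trans e⟩, by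
      rw [← c.a_mul _ _ z hz, inv_mul_cancel, c.a_one z hz]⟩

end Pool.Agent.MT.G
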