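import Pool.Agent.Lib.MP_d61fbb_ag.MT.GFg

/-! Block G: the theorem of the fixed part. -/

noncomputable section

namespace Pool.Agent.MT.G

open Matrix Complex Filter Topology Set Metric

variable {g : ℕ} {Γ : Subgroup (Sp g ℤ)}

theorem tp_mul (κ : Type) [Fintype κ] [DecidableEq κ] {ι R : Type} [Fintype ι] [CommRing R]
    (A B : Matrix ι ι R) : tp κ (A * B) = tp κ A * tp κ B := by
  exact kp_mul (fun _ => A) fun _ => B

theorem Cov1.mon_sub (C : Cov1 Γ) {z : EE g} (hz : C.Pt z) :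
    ∃ G₀ : Subgroup (Sp g ℤ), (G₀ : Set (Sp g ℤ)) = C.Mon z := by
  obtain ⟨s, W, u, a, b, rfl⟩ := hz
  have hH := C.maps a b
  refine ⟨⟨⟨⟨C.Mon (s u), fun {x y} hx hy => ⟨Γ.mul_mem hx.1 hy.1, ?_⟩⟩, Γ.one_mem, ?_⟩,
    fun {x} hx => ⟨Γ.inv_mem hx.1, ?_⟩⟩, rfl⟩
  · rw [az_mul _ _ hH]
    exact hx.2.trans (GF.conn_az hx.1 hy.2)
  · rw [az_one]
    exact .refl
  · have := GF.conn_az (Γ.inv_mem hx.1) hx.2
    rw [← az_mul _ _ hH, inv_mul_cancel, az_one] at this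
    exact GF.conn_symm this

/-- the theorem of the fixed part -/
theorem Cov1.fixed (C : Cov1 Γ) {z : EE g} (hz : C.Pt z) (κ : Type) [Fintype κ] [DecidableEq κ]
    (v : (κ → I2 g) → ℝ)
    (hv : ∀ γ ∈ C.Mon z, tp κ (zm γ.1) *ᵥ v = v ∨ tp κ (zm γ.1) *ᵥ v = -v) {z' : EE g}
    (h : C.Conn z z') (θ : ℝ) : tp κ (hh z' θ) *ᵥ v = tp κ (hh z θ) *ᵥ v := by
  obtain ⟨s, W, u, a⟩ := hz
  exact GF.fixed ⟨s, W, a⟩ hv h θ

theorem Cov1.conn_ne (C : Cov1 Γ) {z : EE g} (hz : C.Pt z) :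
    ∃ z', C.Conn z z' ∧ Jm z' ≠ Jm z := by
  obtain ⟨s, W, u, a, b, rfl⟩ := hz
  obtain ⟨r, r0, hr⟩ := Metric.isOpen_iff.1 (C.opn a) u b
  have h : u + (r / 2 : ℝ) ∈ ball u r := by
    rw [mem_ball_iff_norm, add_sub_cancel_left, norm_real, Real.norm_of_nonneg (half_pos r0).le]
    exact half_lt_self r0
  refine ⟨s (u + (r / 2 : ℝ)), .single ⟨s, u, r, _, _, C.mono a isOpen_ball hr, mem_ball_self r0, h,
    rfl, rfl⟩, fun e => ?_⟩
  have := congrArg C.t (Jm_inj (C.maps a (hr h)) (C.maps a b) e)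
  rw [C.proj a _ (hr h), C.proj a _ b, add_eq_left, ofReal_eq_zero] at this
  exact (half_pos r0).ne' this

theorem Cov1.conn_mem (C : Cov1 Γ) {z z' : EE g} (hz : C.Pt z) (h : C.Conn z z') :
    z' ∈ HH g ∧ C.Pt z' := by
  have : C.Pt z' := by
    induction h with
    | refl => exact hz
    | tail _ k _ =>
      obtain ⟨s, c, r, u, u', a, -, b, -, e⟩ := k
      exact ⟨s, _, u', a, b, e⟩
  obtain ⟨s, W, u, a, b, rfl⟩ := id this
  exact ⟨C.maps a b, this⟩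

end Pool.Agent.MT.G
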