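import Pool.Agent.Lib.MP_d61fbb_ag.MT.G7b

/-! Block G: the germs of the sections and the Noetherian induction. -/

noncomputable section

namespace Pool.Agent.MT.G

open Matrix Complex Filter Topology Set Metric

variable {g l : ℕ} {e : Fin g → ℕ} {k : ℕ → Sp g ℤ} {τ : EE g}

theorem Claim.union {S T : Set ℤ} (hS : Claim l e k τ S) (hT : Claim l e k τ T) :
    Claim l e k τ (S ∪ T) := by
  obtain ⟨s, a1, a2, a3⟩ := hS
  obtain ⟨t, b1, b2, b3⟩ := hT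
  refine ⟨s ∪ t, a1.union b1, fun B hB => hB.elim (a2 B) (b2 B), fun F hF => ?_⟩
  simp only [mem_union, or_imp, forall_and, a3 F hF, b3 F hF]

theorem Claim.fin {S : Set ℤ} (hS : S.Finite) : Claim l e k τ S :=
  ⟨orb l e k τ '' S, hS.image _, fun _ ⟨j, _, h⟩ => .inr ⟨j, h.symm⟩,
    fun _ _ => ⟨fun h _ ⟨j, hj, e⟩ => e ▸ h j hj, fun h j hj => h _ ⟨j, hj, rfl⟩⟩⟩

lemma e7_map {A : Filter (EE g)} (hA : A ≤ 𝓟 (HH g)) (γ γ' : Sp g ℤ) :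
    map (az γ) (map (az γ') A) = map (az (γ * γ')) A := by
  rw [Filter.map_map]
  exact map_congr (mem_of_superset (le_principal_iff.1 hA) fun z hz => (az_mul γ γ' hz).symm)

/-- the ideal is stable under a congruence subgroup -/
def Stab (l n : ℕ) (A : Filter (EE g)) : Prop :=
  ∀ γ ∈ Gam g (32 * l ^ n), Van l (map (az γ) A) = Van l A

lemma Stab.az {n : ℕ} {A : Filter (EE g)} (hA : A ≤ 𝓟 (HH g)) (h : Stab l n A) (γ : Sp g ℤ) :
    Stab l n (map (az γ) A) := fun δ hδ => by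
  have := Van_az_eq (map_az_le hA _) hA (h _ (Gam_conj hδ γ⁻¹)) γ
  rw [e7_map hA] at this ⊢
  rw [← this]
  congr 3
  group

lemma Stab.fin (hl : 0 < l) {n : ℕ} {A : Filter (EE g)} (hA : A ≤ 𝓟 (HH g)) (h : Stab l n A) :
    (range fun γ => Van l (map (G.az γ) A)).Finite := by
  obtain ⟨R, h1, -, h2⟩ := Gam_fin (g := g) (M := 32 * l ^ n) (by positivity) univ
  refine (h1.image fun γ => Van l (map (G.az γ) A)).subset ?_
  rintro _ ⟨γ, rfl⟩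
  obtain ⟨r, hr, h3⟩ := h2 γ trivial
  refine ⟨r, hr, (h.az hA r _ h3).symm.trans ?_⟩
  rw [e7_map hA, inv_mul_cancel_right]

lemma e7_fin (hg : 0 < g) (hl : 2 ≤ l) (hτ : τ ∈ HH g) (h : Gen τ) (hk : Cau l k)
    (he : ∀ i, 0 < e i) {W : Set (EE g)} (hW : W.Finite) (hH : W ⊆ HH g) {S : Set ℤ}
    (hS : ∀ j ∈ S, ∃ m γ, ∃ w ∈ W, pt l e k τ j m = az γ w) : S.Finite := by
  choose! m γ w hw h1 using hS
  refine Finite.of_finite_image (hW.subset (image_subset_iff.2 hw)) fun a ha b hb hab => ?_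
  refine pt_inj hg hl hτ h hk he (m := m a) (m' := m b) (γ := γ a * (γ b)⁻¹) ?_
  rw [h1 a ha, h1 b hb, ← az_mul _ _ (hH (hw b hb)), inv_mul_cancel_right, hab]

lemma Claim.cover {ι : Type} {t : Set ι} (ht : t.Finite) (f : ι → Set ℤ)
    (h : ∀ i ∈ t, Claim l e k τ (f i)) : Claim l e k τ (⋃ i ∈ t, f i) := by
  induction t, ht using Set.Finite.induction_on with
  | empty => exact Claim.fin (by simp)
  | insert _ _ ih =>
    rw [biUnion_insert]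
    exact (h _ (mem_insert _ _)).union (ih fun i hi => h i (mem_insert_of_mem _ hi))

lemma Claim.fib {ι : Type} {t : Set ι} (ht : t.Finite) {S : Set ℤ} (r : ℤ → ι → Prop)
    (hS : ∀ j ∈ S, ∃ i ∈ t, r j i) (h : ∀ i ∈ t, Claim l e k τ {j ∈ S | r j i}) :
    Claim l e k τ S := by
  convert Claim.cover ht _ h
  ext j
  simp only [mem_iUnion, mem_ofPred_eq]
  exact ⟨fun hj => let ⟨i, a, b⟩ := hS j hj; ⟨i, a, hj, b⟩, fun ⟨_, _, a, _⟩ => a⟩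

variable {L D : Type} [Fintype L] [Fintype D] {G : Subgroup (Sp g ℤ)}
  {c : Ctx (Sym2 (Fin g)) L G} {V : Cov c D} {z : EE g} {B B' : Filter (EE g)}

/-- `B` is the germ of a section through `z` -/
def Cov.Ger (V : Cov c D) (z : EE g) (B : Filter (EE g)) : Prop :=
  ∃ s W u, V.Sec s W ∧ u ∈ W ∧ s u = z ∧ B = map s (𝓝 u)

namespace Cov.Ger

lemma uniq (h : V.Ger z B) (h' : V.Ger z B') : B = B' := by
  obtain ⟨s, W, u, a, b, rfl, rfl⟩ := h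
  obtain ⟨s', W', u', a', b', h1, rfl⟩ := h'
  obtain rfl : u' = u := by rw [← V.proj a' _ b', h1, V.proj a _ b]
  exact map_congr (V.uniq a a' b b' h1.symm)

lemma act (ha : ∀ γ : G, c.a γ = az γ.1) (h : V.Ger z B) (γ : G) :
    V.Ger (az γ.1 z) (map (az γ.1) B) := by
  obtain ⟨s, W, u, a, b, rfl, rfl⟩ := h
  exact ⟨_, W, u, ha γ ▸ V.act γ a, b, rfl, rfl⟩

lemma le (h : V.Ger z B) : B ≤ 𝓟 c.U := by
  obtain ⟨s, W, u, a, b, rfl, rfl⟩ := h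
  exact le_principal_iff.2 (mem_map.2 (mem_of_superset ((V.opn a).mem_nhds b) (V.maps a)))

lemma pur (h : V.Ger z B) : pure z ≤ B := by
  obtain ⟨s, W, u, a, b, rfl, rfl⟩ := h
  exact map_mono (m := s) (pure_le_nhds u)

variable (hU : c.U ⊆ HH g)
include hU

lemma le' (h : V.Ger z B) : B ≤ 𝓟 (HH g) := h.le.trans (principal_mono.2 hU)

lemma pri (h : V.Ger z B) : Pri l B := by
  refine ⟨?_, h.le' hU, fun F F' hF hF' h1 => ?_⟩ <;> obtain ⟨s, W, u, a, b, rfl, rfl⟩ := h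
  · exact map_neBot
  have key : ∀ F, Fm l F → ∀ᶠ w in 𝓝 u, DifferentiableAt ℂ (fun w => F (s w)) w := fun F hF =>
    mem_of_superset ((V.opn a).mem_nhds b) fun w hw =>
      (hF.diff.differentiableAt (isOpen_HH.mem_nhds (hU (V.maps a hw)))).comp w
        ((V.diff a).differentiableAt ((V.opn a).mem_nhds hw))
  exact (germ_dom (key F hF) (key F' hF') h1.2).imp (fun h => ⟨hF, h⟩) fun h => ⟨hF', h⟩

variable (ha : ∀ γ : G, c.a γ = az γ.1) (hl : l.Prime) (h2 : l ≠ 2) (hG : G ≤ Gam g (32 * l))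
include ha hl h2 hG

lemma stab [Nonempty D] (h : V.Ger z B) (hz : Gen z) : ∃ n, Stab l n B := by
  have hB := h.le' hU
  obtain ⟨s, W, u, a, b, rfl, rfl⟩ := h
  obtain ⟨C, h3, h4⟩ := V.line hU ha a b
  obtain ⟨n, hn⟩ := mon_open hl h2 hG C h3 hz
  refine ⟨n, fun γ hγ => Van_closed hB fun m => ?_⟩
  obtain ⟨γ₀, h5, h6⟩ := hn m γ hγ
  exact ⟨γ₀, h6, Set.ext fun F => and_congr_right fun hF => h4 γ₀ h5 F (hF.diff.mono hU)⟩

lemma fin [Nonempty D] (V : Cov c D) : {I | ∃ z B, Gen z ∧ V.Ger z B ∧ I = Van l B}.Finite := by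
  obtain ⟨n, S, W₀, u₀, h0, hS, H⟩ := V.fin
  have hA : ∀ i, map (S i) (𝓝 u₀) ≤ 𝓟 (HH g) := fun i => le' hU ⟨_, _, _, hS i, h0, rfl, rfl⟩
  have key : ∀ z B, V.Ger z B → ∃ i γ, Van l B = Van l (map (az γ) (map (S i) (𝓝 u₀))) := by
    rintro _ _ ⟨s, W, u, a, b, rfl, rfl⟩
    obtain ⟨γ, i, h⟩ := H s W u a b
    exact ⟨i, γ.1, Set.ext fun F => and_congr_right fun hF => ha γ ▸ h F (hF.diff.mono hU)⟩
  refine (finite_iUnion (ι := Fin n) (f := fun i => {I | ∃ z B γ, Gen z ∧ V.Ger z B ∧ I = Van l B ∧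
    I = Van l (map (az γ) (map (S i) (𝓝 u₀)))}) fun i => ?_).subset ?_
  · refine (em _).elim id fun h => ?_
    obtain ⟨_, z, B, γ₀, a, b, rfl, h⟩ := Set.Infinite.nonempty h
    obtain ⟨n, hn⟩ := b.stab hU ha hl h2 hG a
    refine (hn.fin hl.pos (b.le' hU)).subset ?_
    rintro _ ⟨-, -, γ, -, -, -, rfl⟩
    refine ⟨γ * γ₀⁻¹, (Van_az_eq (b.le' hU) (map_az_le (hA i) _) h _).trans ?_⟩
    rw [e7_map (hA i), inv_mul_cancel_right]
  · rintro _ ⟨z, B, a, b, rfl⟩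
    obtain ⟨i, γ, h⟩ := key z B b
    exact mem_iUnion.2 ⟨i, z, B, γ, a, b, rfl, h⟩

end Cov.Ger

lemma Cov.pts [IsEmpty D] (V : Cov c D) : ∃ W : Set (EE g), W.Finite ∧ W ⊆ c.U ∧
    ∀ s W' u, V.Sec s W' → u ∈ W' → ∃ γ, ∃ w ∈ W, s u = c.a γ w := by
  by_cases h : MvPolynomial.eval default V.Δ = 0
  · exact ⟨∅, finite_empty, empty_subset _, fun s W u a b =>
      (V.off a u b (Subsingleton.elim u default ▸ h)).elim⟩
  obtain ⟨r, hr, n, S, hS, H⟩ := V.triv _ h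
  refine ⟨range fun i => S i default, finite_range _, ?_, fun s W u a b => ?_⟩
  · rintro _ ⟨i, rfl⟩
    exact V.maps (hS i) (mem_ball_self hr)
  · obtain rfl := Subsingleton.elim default u
    obtain ⟨γ, i, h⟩ := H s W _ a b (mem_ball_self hr)
    exact ⟨γ, _, ⟨i, rfl⟩, h⟩

attribute [local irreducible] pt az in
theorem claim_ctx (hg : 0 < g) (hl : l.Prime) (h2 : l ≠ 2) (hτ : τ ∈ HH g) (h : Gen τ)
    (hk : Cau l k) (he : ∀ i, 0 < e i) (c : Ctx (Sym2 (Fin g)) L (Gam g (32 * l ^ 1)))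
    (hU : c.U ⊆ HH g) (ha : ∀ γ, c.a γ = az γ.1)
    (hK : ∀ F, Fm l F → ∃ φ ∈ c.K, ∀ z ∈ c.U, (φ z = 0 ↔ F z = 0)) (x : Sym2 (Fin g) → L)
    (m₀ : ℤ → ℕ) (hm : ∀ j, ∀ m ≥ m₀ j, ∃ γ ∈ Gam g (32 * l ^ 1),
      pt l e k τ j m = az γ (pt l e k τ j (m₀ j))) (S : Set ℤ)
    (hS : ∀ j ∈ S, pt l e k τ j (m₀ j) ∈ c.U ∧ c.Chart x (pt l e k τ j (m₀ j)) ∧
      MvPolynomial.eval (c.b (pt l e k τ j (m₀ j))) c.χ ≠ 0) : Claim l e k τ S := by
  obtain ⟨I, hI⟩ : ∃ I : Set ℤ → Ideal (MvPolynomial L ℂ), ∀ S P, P ∈ I S ↔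
      ∀ j ∈ S, MvPolynomial.eval (c.b (pt l e k τ j (m₀ j))) P = 0 :=
    ⟨fun S => ⨅ j ∈ S, RingHom.ker (MvPolynomial.eval (c.b (pt l e k τ j (m₀ j)))), by
      simp⟩
  induction hq : I S using IsNoetherian.induction generalizing S with
  | hgt q ih => ?_
  subst hq
  have sub : ∀ T ⊆ S, ∀ P ∈ I T, P ∉ I S → Claim l e k τ T := fun T hT P a b =>
    ih (I T) (lt_of_le_of_ne (fun P h => (hI _ _).2 fun j hj => (hI _ _).1 h j (hT hj))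
      fun h => b (h ▸ a)) T (fun j hj => hS j (hT hj)) rfl
  have sub' : ∀ P ∉ I S, Claim l e k τ
      {j ∈ S | MvPolynomial.eval (c.b (pt l e k τ j (m₀ j))) P = 0} := fun P hP =>
    sub _ (sep_subset _ _) P ((hI _ _).2 fun j hj => hj.2) hP
  by_cases hp : (I S).IsPrime
  swap
  · obtain h | ⟨P, a, P', b, h⟩ := Ideal.not_isPrime_iff.1 hp
    · refine Claim.fin (finite_empty.subset fun j hj => ?_)
      simpa using (hI S 1).1 (h ▸ trivial) j hj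
    · convert (sub' P a).union (sub' P' b)
      ext j
      exact ⟨fun hj => (mul_eq_zero.1 ((map_mul _ _ _).symm.trans ((hI _ _).1 h j hj))).imp
        (fun h => ⟨hj, h⟩) fun h => ⟨hj, h⟩, fun h => h.elim And.left And.left⟩
  have tw : ∀ j ∈ S, ∀ m ≥ m₀ j, pt l e k τ j m ∈ c.U ∧ c.Chart x (pt l e k τ j m) ∧
      c.b (pt l e k τ j m) = c.b (pt l e k τ j (m₀ j)) := fun j hj m h => by
    obtain ⟨γ, a, b⟩ := hm j m h
    rw [b, ← ha ⟨γ, a⟩]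
    exact ⟨c.a_maps _ (hS j hj).1, c.chart_a (hS j hj).1 (hS j hj).2.1 _, c.b_a _ _ (hS j hj).1⟩
  obtain ⟨D, _, V, E, hE, h3, h4⟩ := cover c x {z | ∃ j ∈ S, ∃ m ≥ m₀ j, pt l e k τ j m = z}
    (by rintro _ ⟨j, a, m, b, rfl⟩; exact (tw j a m b).1)
    (by rintro _ ⟨j, a, m, b, rfl⟩; exact (tw j a m b).2.1)
    (by rintro _ ⟨j, a, m, b, rfl⟩; rw [(tw j a m b).2.2]; exact (hS j a).2.2) _ hp fun P => by
      rw [hI]
      exact ⟨by rintro h _ ⟨j, a, m, b, rfl⟩; rw [(tw j a m b).2.2]; exact h j a,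
        fun h j a => h _ ⟨j, a, _, le_rfl, rfl⟩⟩
  obtain ⟨T, hT⟩ : ∃ T : Set ℤ, ∀ j, j ∈ T ↔
      j ∈ S ∧ MvPolynomial.eval (c.b (pt l e k τ j (m₀ j))) E ≠ 0 := ⟨_, fun _ => Iff.rfl⟩
  simp only [iff_iff_implies_and_implies, forall_and] at hT
  obtain ⟨⟨hT, hT'⟩, hT''⟩ := hT
  suffices Claim l e k τ T by
    convert (sub' E hE).union this
    ext j
    exact ⟨fun hj => (em _).imp (fun h => ⟨hj, h⟩) fun h => hT'' j ⟨hj, h⟩,
      fun h => h.elim And.left (hT j)⟩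
  have sec : ∀ j ∈ T, ∀ m ≥ m₀ j, ∃ s W u, V.Sec s W ∧ u ∈ W ∧ s u = pt l e k τ j m :=
    fun j a m b => h3 _ ⟨j, hT j a, m, b, rfl⟩ ((tw j (hT j a) m b).2.2 ▸ hT' j a)
  cases isEmpty_or_nonempty D
  · obtain ⟨W, a, b, H⟩ := V.pts
    refine Claim.fin (e7_fin hg hl.two_le hτ h hk he a (b.trans hU) fun j hj => ?_)
    obtain ⟨s, W', u, a, b, h5⟩ := sec j hj _ le_rfl
    obtain ⟨γ, w, hw, h6⟩ := H s W' u a b
    exact ⟨_, γ.1, w, hw, by rw [← h5, h6, ha]⟩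
  have hG : Gam g (32 * l ^ 1) ≤ Gam g (32 * l) := Gam_mono (by simp)
  have ev : ∀ j ∈ T, ∃ B M, m₀ j ≤ M ∧ Good l B ∧ V.Ger (pt l e k τ j M) B ∧
      ∀ m ≥ M, ∀ B', V.Ger (pt l e k τ j m) B' → Van l B' = Van l B := fun j hj => by
    obtain ⟨s, W, u, a, b, h5⟩ := sec j hj _ le_rfl
    have h6 : V.Ger _ _ := ⟨s, W, u, a, b, h5, rfl⟩
    obtain ⟨n, hn⟩ := h6.stab hU ha hl h2 hG (pt_gen hl.pos hτ h _ _)
    obtain ⟨M, hM⟩ := pt_tower (e := e) hl.pos hτ hk j (n + 1)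
    obtain ⟨γ, a, b⟩ := hm j (max M (m₀ j)) (le_max_right _ _)
    have h7 := h6.act ha ⟨γ, a⟩
    have h8 := hn.az (h6.le' hU) γ
    rw [← b] at h7
    refine ⟨_, _, le_max_right _ _, ⟨h7.pri hU, ⟨_, h7.pur⟩, n, h8⟩, h7, fun m h9 B' hB => ?_⟩
    obtain ⟨δ, a, b⟩ := hM _ (le_max_left M (m₀ j)) m ((le_max_left _ _).trans h9)
    have := h7.act ha ⟨δ, Gam_mono (mul_dvd_mul_left _ (pow_dvd_pow _ (by omega))) a⟩
    rw [← b] at this
    rw [hB.uniq this]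
    exact h8 δ (Gam_mono (mul_dvd_mul_left _ (pow_dvd_pow _ (by omega))) a)
  choose! B M b1 b2 b3 b4 using ev
  refine Claim.fib (Cov.Ger.fin hU ha hl h2 hG V) (fun j I => Van l (B j) = I)
    (fun j hj => ⟨_, ⟨_, _, pt_gen hl.pos hτ h _ _, b3 j hj, rfl⟩, rfl⟩) fun J _ => ?_
  by_cases h5 : I {j ∈ T | Van l (B j) = J} ≤ I S
  swap
  · obtain ⟨P, a, b⟩ := SetLike.not_le_iff_exists.1 h5
    exact sub _ (fun j hj => hT j hj.1) P a b
  have ex : ∀ P ∉ I S, ∃ j, (j ∈ T ∧ Van l (B j) = J) ∧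
      MvPolynomial.eval (c.b (pt l e k τ j (m₀ j))) P ≠ 0 := fun P hP => by
    by_contra! h
    exact hP (h5 ((hI _ _).2 h))
  obtain ⟨j₀, ⟨a₀, rfl⟩, -⟩ := ex 1 hp.one_notMem
  refine ⟨{B j₀}, finite_singleton _, fun _ hB => hB ▸ .inl (b2 j₀ a₀), fun F hF => ?_⟩
  simp only [mem_singleton_iff, forall_eq]
  constructor
  · intro H
    obtain ⟨φ, a, b⟩ := hK F hF
    obtain ⟨E', h6, h7⟩ := h4 φ a
    obtain ⟨j, hj, h8⟩ := ex E' h6
    obtain ⟨m, h9, h10⟩ := ((eventually_map.1 (H j hj).2).and (eventually_ge_atTop (M j))).exists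
    have h11 := (b1 j hj.1).trans h10
    obtain ⟨s, W, u, a, a', h12⟩ := sec j hj.1 m h11
    rw [← hj.2, ← b4 j hj.1 m h10 _ ⟨s, W, u, a, a', h12, rfl⟩]
    refine ⟨hF, eventually_map.2 ?_⟩
    filter_upwards [h7 s W u a a' ⟨j, hT j hj.1, m, h11, h12.symm⟩
      (by rw [h12, (tw j (hT j hj.1) m h11).2.2]; exact h8) ((b _ (V.maps a a')).2 (h12 ▸ h9)),
      (V.opn a).mem_nhds a'] with w h13 h14
    exact (b _ (V.maps a h14)).1 h13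
  · intro H j hj
    refine ⟨hF, eventually_map.2 ((eventually_ge_atTop (M j)).mono fun m h6 => ?_)⟩
    obtain ⟨s, W, u, a, a', h7⟩ := sec j hj.1 m ((b1 j hj.1).trans h6)
    have h8 : V.Ger _ _ := ⟨s, W, u, a, a', h7, rfl⟩
    rw [← hj.2, ← b4 j hj.1 m h6 _ h8] at H
    exact h8.pur H.2

theorem claim_univ2 (hg : 0 < g) (hl : l.Prime) (h2 : l ≠ 2) (hτ : τ ∈ HH g) (h : Gen τ)
    (hk : Cau l k) (he : ∀ i, 0 < e i) : Claim l e k τ univ := by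
  choose m₀ hm using fun j => pt_tower (e := e) hl.pos hτ hk j 1
  refine Claim.fib (toFinite univ) (fun j p => {y | th (ch 1 y) (pt l e k τ j (m₀ j)) ≠ 0} = p)
    (fun j _ => ⟨_, trivial, rfl⟩) fun p _ => ?_
  refine (em _).elim Claim.fin fun h' => ?_
  obtain ⟨j₀, -, rfl⟩ := Set.Infinite.nonempty h'
  have hz := fun j => pt_mem (e := e) (k := k) hl.pos hτ j (m₀ j)
  obtain ⟨y₀, hy₀⟩ := exists_th_ne (hz j₀)
  obtain ⟨c, hU, -, hK, ha, hχ⟩ := mk_ctx l (l ^ 1) (pow_pos hl.pos 1) (hz j₀) (y₀ := y₀)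
  have h1 : ∀ j, {y | th (ch 1 y) (pt l e k τ j (m₀ j)) ≠ 0} =
      {y | th (ch 1 y) (pt l e k τ j₀ (m₀ j₀)) ≠ 0} → pt l e k τ j (m₀ j) ∈ c.U := fun j hj =>
    hU ▸ ⟨hz j, hj.superset hy₀⟩
  refine Claim.fib (toFinite univ) (fun j x => c.Chart x (pt l e k τ j (m₀ j)))
    (fun j hj => let ⟨x, hx⟩ := c.chart_ex (h1 j hj.2); ⟨x, trivial, hx⟩) fun x _ => ?_
  refine claim_ctx hg hl h2 hτ h hk he c (hU ▸ sep_subset _ _) ha (fun F ⟨m, n, hF⟩ =>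
    ⟨_, hK _ ⟨m, n, F, hF, rfl⟩, fun z hz => ?_⟩) x m₀ (fun j => hm j _ le_rfl) _ fun j hj =>
      ⟨h1 j hj.1.2, hj.2, (hχ _ (h1 j hj.1.2)).2 fun y hy => hj.1.2.superset hy⟩
  rw [hU] at hz
  simp [hz.2]

end Pool.Agent.MT.G
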