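import Mathlib

/-! Block G, fixed part: maximum principles for subharmonic functions in the plane. -/

noncomputable section

namespace Pool.Agent.MT.GF

open Filter Topology Complex Metric Set

section
variable {F : Type*} [NormedAddCommGroup F] [NormedSpace ℝ F]

lemma ld_shift {f : ℂ → F} {f' : F} {s e : ℂ} {t : ℝ} (h : HasLineDerivAt ℝ f f' (s + t • e) e) :
    HasDerivAt (fun r : ℝ => f (s + r • e)) f' t := by
  have h1 : HasDerivAt (fun r : ℝ => f (s + t • e + r • e)) f' (t - t) := by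
    rw [sub_self]; exact h
  refine (h1.comp_sub_const t t).congr_of_eventuallyEq (Eventually.of_forall fun r => ?_)
  simp only [sub_smul]; congr 1; abel

lemma ld_tendsto (s e : ℂ) : Tendsto (fun r : ℝ => s + r • e) (𝓝 0) (𝓝 s) :=
  Continuous.tendsto' (by fun_prop) _ _ (by simp)

/-- vanishing line derivatives on a ball -/
lemma ld_const {f : ℂ → F} {c : ℂ} {R : ℝ} (h : ∀ s ∈ ball c R, ∀ e, HasLineDerivAt ℝ f 0 s e)
    {z : ℂ} (hz : z ∈ ball c R) : f z = f c := by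
  have hc : c ∈ ball c R := mem_ball_self (pos_of_mem_ball hz)
  have h1 : ∀ t ∈ Icc (0 : ℝ) 1, HasDerivAt (fun r : ℝ => f (c + r • (z - c))) 0 t := fun t ht =>
    ld_shift (h _ ((convex_ball c R).add_smul_sub_mem hc hz ht) _)
  have := constant_of_has_deriv_right_zero (f := fun r : ℝ => f (c + r • (z - c))) (a := 0) (b := 1)
    (fun t ht => (h1 t ht).continuousAt.continuousWithinAt)
    (fun t ht => (h1 t (Ico_subset_Icc_self ht)).hasDerivWithinAt) 1 ⟨zero_le_one, le_rfl⟩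
  simpa using this

lemma ld_hol {g : ℂ → ℂ} {g' s : ℂ} (h : HasDerivAt g g' s) (e : ℂ) :
    HasLineDerivAt ℝ g (e * g') s e := by
  have := (h.hasFDerivAt.restrictScalars ℝ).hasLineDerivAt e
  simpa using this

end

/-- the Laplacian at a point, from second derivatives along two lines -/
def Lap (φ : ℂ → ℝ) (s : ℂ) (L : ℝ) : Prop := ∃ (φ₁ φ₂ : ℂ → ℝ) (p q : ℝ),
  (∀ᶠ z in 𝓝 s, HasLineDerivAt ℝ φ (φ₁ z) z 1 ∧ HasLineDerivAt ℝ φ (φ₂ z) z I) ∧
  HasLineDerivAt ℝ φ₁ p s 1 ∧ HasLineDerivAt ℝ φ₂ q s I ∧ p + q = L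

variable {φ ψ u : ℂ → ℝ} {s : ℂ} {L L' : ℝ}

lemma line_nonpos {φ₁ : ℂ → ℝ} {e : ℂ} {p : ℝ} (h1 : ∀ᶠ z in 𝓝 s, HasLineDerivAt ℝ φ (φ₁ z) z e)
    (h2 : HasLineDerivAt ℝ φ₁ p s e) (hm : IsLocalMax φ s) : p ≤ 0 := by
  by_contra hp
  have h3 : ∀ᶠ t : ℝ in 𝓝 0, HasDerivAt (fun r : ℝ => φ (s + r • e)) (φ₁ (s + t • e)) t :=
    ((ld_tendsto s e).eventually h1).mono fun t ht => ld_shift ht
  have h4 : deriv (fun r : ℝ => φ (s + r • e)) =ᶠ[𝓝 0] fun t => φ₁ (s + t • e) :=
    h3.mono fun t ht => ht.deriv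
  have h5 : deriv (deriv fun r : ℝ => φ (s + r • e)) 0 = p := by
    rw [h4.deriv_eq]; exact HasDerivAt.deriv h2
  have h6 : IsLocalMax (fun r : ℝ => φ (s + r • e)) 0 := by
    have := (ld_tendsto s e).eventually hm
    simpa [IsLocalMax, IsMaxFilter] using this
  have h7 := isLocalMin_of_deriv_deriv_pos (h5 ▸ not_le.1 hp) h6.deriv_eq_zero
    h3.self_of_nhds.continuousAt
  have h8 : (fun r : ℝ => φ (s + r • e)) =ᶠ[𝓝 0] fun _ => φ (s + (0 : ℝ) • e) :=
    (h6.and h7).mono fun t ht => le_antisymm ht.1 ht.2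
  rw [h8.deriv.deriv_eq] at h5
  simp at h5
  exact hp h5.ge

lemma Lap.nonpos (h : Lap φ s L) (hm : IsLocalMax φ s) : L ≤ 0 := by
  obtain ⟨φ₁, φ₂, p, q, h1, h2, h3, rfl⟩ := h
  exact add_nonpos (line_nonpos (h1.mono fun _ h => h.1) h2 hm)
    (line_nonpos (h1.mono fun _ h => h.2) h3 hm)

lemma Lap.add (h : Lap φ s L) (h' : Lap ψ s L') : Lap (fun z => φ z + ψ z) s (L + L') := by
  obtain ⟨φ₁, φ₂, p, q, h1, h2, h3, rfl⟩ := h
  obtain ⟨ψ₁, ψ₂, p', q', k1, k2, k3, rfl⟩ := h'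
  exact ⟨fun z => φ₁ z + ψ₁ z, fun z => φ₂ z + ψ₂ z, p + p', q + q',
    (h1.and k1).mono fun _ h => ⟨HasDerivAt.add h.1.1 h.2.1, HasDerivAt.add h.1.2 h.2.2⟩,
    HasDerivAt.add h2 k2, HasDerivAt.add h3 k3, by ring⟩

lemma Lap.const_mul (h : Lap φ s L) (c : ℝ) : Lap (fun z => c * φ z) s (c * L) := by
  obtain ⟨φ₁, φ₂, p, q, h1, h2, h3, rfl⟩ := h
  exact ⟨fun z => c * φ₁ z, fun z => c * φ₂ z, c * p, c * q,
    h1.mono fun _ h => ⟨HasDerivAt.const_mul c h.1, HasDerivAt.const_mul c h.2⟩,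
    HasDerivAt.const_mul c h2, HasDerivAt.const_mul c h3, by ring⟩

lemma Lap.congr (h : Lap φ s L) (e : ψ =ᶠ[𝓝 s] φ) : Lap ψ s L := by
  obtain ⟨φ₁, φ₂, p, q, h1, h2, h3, rfl⟩ := h
  exact ⟨φ₁, φ₂, p, q, (h1.and e.eventually_nhds).mono fun _ h =>
    ⟨h.1.1.congr_of_eventuallyEq h.2, h.1.2.congr_of_eventuallyEq h.2⟩, h2, h3, rfl⟩

lemma ld_re {g : ℂ → ℂ} {g' s e : ℂ} (h : HasLineDerivAt ℝ g g' s e) :
    HasLineDerivAt ℝ (fun z => (g z).re) g'.re s e :=
  reCLM.hasFDerivAt.comp_hasDerivAt (0 : ℝ) h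

lemma lap_re {g : ℂ → ℂ} (h : AnalyticAt ℂ g s) : Lap (fun z => (g z).re) s 0 := by
  have h1 := h.deriv.differentiableAt.hasDerivAt
  refine ⟨fun z => (1 * deriv g z).re, fun z => (I * deriv g z).re, _, _,
    h.eventually_analyticAt.mono fun z hz => ⟨ld_re (ld_hol hz.differentiableAt.hasDerivAt 1),
      ld_re (ld_hol hz.differentiableAt.hasDerivAt I)⟩,
    ld_re (ld_hol (h1.const_mul 1) 1), ld_re (ld_hol (h1.const_mul I) I), ?_⟩
  simp

lemma lap_log {a : ℂ} (h : s ≠ a) : Lap (fun z => Real.log ‖z - a‖) s 0 := by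
  have h0 : s - a ≠ 0 := sub_ne_zero.2 h
  have h1 : AnalyticAt ℂ (fun z => log ((z - a) / (s - a)) + Real.log ‖s - a‖) s :=
    (AnalyticAt.clog (by fun_prop) (by simp [div_self h0])).add analyticAt_const
  refine (lap_re h1).congr ((eventually_ne_nhds h).mono fun z hz => ?_)
  simp only [add_re, log_re, ofReal_re, norm_div]
  rw [Real.log_div (norm_ne_zero_iff.2 (sub_ne_zero.2 hz)) (norm_ne_zero_iff.2 h0)]
  ring

lemma lap_sq (s : ℂ) : Lap (fun z => z.re ^ 2) s 2 := by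
  have h : ∀ z e : ℂ, HasLineDerivAt ℝ (fun z : ℂ => z.re) e.re z e := fun z e => by
    simpa using ld_re (ld_hol (hasDerivAt_id z) e)
  refine ⟨fun z => 2 * z.re, fun _ => 0, 2, 0, Eventually.of_forall fun z => ⟨?_, ?_⟩, ?_,
    hasDerivAt_const _ _, by ring⟩
  · exact (HasDerivAt.fun_pow (h z 1) 2).congr_deriv (by simp)
  · exact (HasDerivAt.fun_pow (h z I) 2).congr_deriv (by simp)
  · exact (HasDerivAt.const_mul 2 (h s 1)).congr_deriv (by simp)

/-- `u` is touched from below by a smooth subharmonic function -/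
def Sub (u : ℂ → ℝ) (s : ℂ) : Prop :=
  ∃ φ L, Lap φ s L ∧ 0 ≤ L ∧ φ s = u s ∧ ∀ᶠ z in 𝓝 s, φ z ≤ u z

lemma Sub.add (h : Sub u s) (h' : Lap ψ s 0) : Sub (fun z => u z + ψ z) s := by
  obtain ⟨φ, L, h1, h2, h3, h4⟩ := h
  exact ⟨_, _, h1.add h', by linarith, by rw [h3], h4.mono fun z hz => by linarith⟩

/-- the weak maximum principle -/
theorem wmp {K : Set ℂ} (hK : IsCompact K) (hu : ContinuousOn u K) {M : ℝ}
    (h : ∀ s ∈ K, u s ≤ M ∨ (K ∈ 𝓝 s ∧ Sub u s)) : ∀ s ∈ K, u s ≤ M := by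
  intro s₁ hs₁
  by_contra hM
  rw [not_le] at hM
  obtain ⟨R, hR⟩ := (hK.image_of_continuousOn (f := fun z : ℂ => z.re ^ 2) (by fun_prop)).bddAbove
  have hR' : ∀ z ∈ K, z.re ^ 2 ≤ R := fun z hz => hR ⟨z, hz, rfl⟩
  have R0 : 0 < R + 1 := by linarith [hR' _ hs₁, sq_nonneg s₁.re]
  set δ := (u s₁ - M) / (R + 1) with hδ
  have δ0 : 0 < δ := div_pos (by linarith) R0
  have δ1 : δ * (R + 1) = u s₁ - M := div_mul_cancel₀ _ R0.ne'
  obtain ⟨s₂, hs₂, hmax⟩ := hK.exists_isMaxOn ⟨s₁, hs₁⟩ (f := fun z => u z + δ * z.re ^ 2)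
    (hu.add (by fun_prop))
  have h1 : u s₁ + δ * s₁.re ^ 2 ≤ u s₂ + δ * s₂.re ^ 2 := hmax hs₁
  obtain h2 | ⟨h2, φ, L, h3, h4, h5, h6⟩ := h s₂ hs₂
  · nlinarith [hR' _ hs₂, sq_nonneg s₁.re]
  · have := (h3.add ((lap_sq s₂).const_mul δ)).nonpos (by
      filter_upwards [h2, h6] with z hz hz'
      have : u z + δ * z.re ^ 2 ≤ u s₂ + δ * s₂.re ^ 2 := hmax hz
      linarith)
    linarith

lemma smp_ball {c : ℂ} {R M : ℝ} (hu : ContinuousOn u (closedBall c R))
    (hs : ∀ z ∈ ball c R, Sub u z) (hM : ∀ z ∈ closedBall c R, u z ≤ M) (hc : u c < M) :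
    ∀ z ∈ ball c R, u z < M := by
  intro z hz
  have R0 : 0 < R := pos_of_mem_ball hz
  obtain ⟨m, m1, m2⟩ := exists_between hc
  obtain ⟨r, r0, hr⟩ := Metric.mem_nhds_iff.1
    ((hu.continuousAt (closedBall_mem_nhds c R0)).eventually_lt_const m1)
  by_cases hzr : z ∈ ball c r
  · exact (hr hzr).trans m2
  have rR : r < R := (not_lt.1 hzr).trans_lt hz
  have l0 : 0 < Real.log R - Real.log (r / 2) := sub_pos.2 (Real.log_lt_log (by linarith) (by linarith))
  set ε := (M - m) / (Real.log R - Real.log (r / 2)) with hε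
  have ε0 : 0 < ε := div_pos (by linarith) l0
  have ε1 : ε * (Real.log R - Real.log (r / 2)) = M - m := div_mul_cancel₀ _ l0.ne'
  have hne : ∀ w ∈ closedBall c R \ ball c (r / 2), w ≠ c := fun w hw e =>
    hw.2 (e ▸ mem_ball_self (by linarith))
  have := wmp (u := fun w => u w + -ε * Real.log ‖w - c‖) (K := closedBall c R \ ball c (r / 2))
    ((isCompact_closedBall c R).diff isOpen_ball) ((hu.mono sdiff_subset).add
      (continuousOn_const.mul (ContinuousOn.log (by fun_prop) fun w hw =>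
        norm_ne_zero_iff.2 (sub_ne_zero.2 (hne w hw))))) (M := M - ε * Real.log R) (fun w hw => by
    have a1 : ‖w - c‖ ≤ R := mem_closedBall_iff_norm.1 hw.1
    have a2 : r / 2 ≤ ‖w - c‖ := not_lt.1 fun e => hw.2 (mem_ball_iff_norm.2 e)
    rcases a1.eq_or_lt with a | a
    · left; rw [a]; linarith [hM w hw.1]
    rcases a2.eq_or_lt with b | b
    · left
      have : u w < m := hr (mem_ball_iff_norm.2 (by linarith))
      rw [← b]; linarith
    · have hw' : w ∈ ball c R := mem_ball_iff_norm.2 a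
      refine Or.inr ⟨?_, (hs w hw').add (by simpa using (lap_log (hne w hw)).const_mul (-ε))⟩
      refine mem_of_superset ((isOpen_ball.sdiff isClosed_closedBall).mem_nhds
        ⟨hw', fun e => b.not_ge (mem_closedBall_iff_norm.1 e)⟩)
        (sdiff_subset_sdiff ball_subset_closedBall ball_subset_closedBall))
    z ⟨ball_subset_closedBall hz, fun e => hzr (ball_subset_ball (by linarith) e)⟩
  have a : Real.log ‖z - c‖ < Real.log R :=
    Real.log_lt_log (r0.trans_le (not_lt.1 fun e => hzr (mem_ball_iff_norm.2 e)))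
      (mem_ball_iff_norm.1 hz)
  nlinarith

/-- the strong maximum principle, local form -/
theorem smp {M : ℝ} (hu : ∀ᶠ z in 𝓝 s, ContinuousAt u z ∧ Sub u z ∧ u z ≤ M) (h : u s = M) :
    ∀ᶠ z in 𝓝 s, u z = M := by
  obtain ⟨R, R0, hR⟩ := Metric.mem_nhds_iff.1 hu
  filter_upwards [ball_mem_nhds s (by linarith : 0 < R / 3)] with c hc
  have hsub : closedBall c (R / 2) ⊆ ball s R :=
    closedBall_subset_ball' (by linarith [mem_ball.1 hc])
  by_contra hne
  exact (smp_ball (fun z hz => (hR (hsub hz)).1.continuousWithinAt)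
    (fun z hz => (hR (hsub (ball_subset_closedBall hz))).2.1) (fun z hz => (hR (hsub hz)).2.2)
    ((hR (hsub (mem_closedBall_self (by linarith)))).2.2.lt_of_ne hne) s
    (by rw [mem_ball, dist_comm]; linarith [mem_ball.1 hc])).ne h

lemma tendsto_neg_log (a : ℂ) : Tendsto (fun z => -Real.log ‖z - a‖) (𝓝[≠] a) atTop :=
  tendsto_neg_atBot_atTop.comp (Real.tendsto_log_nhdsGT_zero.comp (tendsto_norm_sub_self_nhdsNE a))

/-- a subharmonic function off a finite set, of growth less than logarithmic, has a maximum -/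
theorem liou (F : Finset ℂ) (hc : ∀ s ∉ F, ContinuousAt u s) (hs : ∀ s ∉ F, Sub u s)
    (ga : ∀ a ∈ F, ∀ ε > 0, ∀ᶠ z in 𝓝[≠] a, u z ≤ ε * -Real.log ‖z - a‖)
    (gi : ∀ ε > 0, ∀ᶠ z in Bornology.cobounded ℂ, u z ≤ ε * Real.log ‖z‖) :
    ∃ s ∉ F, ∀ z ∉ F, u z ≤ u s := by
  classical
  obtain ⟨s₀, hs₀⟩ := Infinite.exists_notMem_finset F
  obtain ⟨r, r0, hr⟩ := Metric.nhds_basis_closedBall.mem_iff.1
    (F.finite_toSet.isClosed.isOpen_compl.mem_nhds hs₀)
  obtain ⟨s, hs1, hs2⟩ := (isCompact_closedBall s₀ r).exists_isMaxOn ⟨s₀, mem_closedBall_self r0.le⟩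
    (fun z hz => (hc z (hr hz)).continuousWithinAt)
  refine ⟨s, hr hs1, fun z hz => ?_⟩
  by_cases hzr : z ∈ ball s₀ r
  · exact hs2 (ball_subset_closedBall hzr)
  let k : Finset ℂ → ℂ → ℝ := fun G w =>
    ∑ a ∈ G, Real.log ‖w - a‖ - (F.card + 1) * Real.log ‖w - s₀‖
  have lc : ∀ a w : ℂ, w ≠ a → ContinuousAt (fun w => Real.log ‖w - a‖) w := fun a w h =>
    ContinuousAt.log (by fun_prop) (norm_ne_zero_iff.2 (sub_ne_zero.2 h))
  have kc : ∀ G : Finset ℂ, ∀ w ∉ G, w ≠ s₀ → ContinuousAt (k G) w := fun G w h h' =>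
    (tendsto_finsetSum G fun a ha => lc a w fun e => h (e ▸ ha)).sub
      (continuousAt_const.mul (lc _ _ h'))
  have kl : ∀ G : Finset ℂ, ∀ w ∉ G, Lap (fun w => ∑ a ∈ G, Real.log ‖w - a‖) w 0 := by
    intro G w
    induction G using Finset.induction_on with
    | empty => exact fun _ => by simpa using (lap_sq w).const_mul 0
    | insert a G ha ih =>
      intro h
      rw [Finset.mem_insert, not_or] at h
      simpa [Finset.sum_insert ha] using (lap_log h.1).add (ih h.2)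
  have kl' : ∀ w ∉ F, w ≠ s₀ → ∀ ε, Lap (fun w => ε * k F w) w 0 := fun w h h' ε => by
    have := ((kl F w h).add ((lap_log h').const_mul (-(F.card + 1)))).const_mul ε
    rw [mul_zero, add_zero, mul_zero] at this
    exact this.congr (Eventually.of_forall fun w => by simp only [k]; ring)
  have hne : ∀ w ∉ ball s₀ r, w ≠ s₀ := fun w hw e => hw (e ▸ mem_ball_self r0)
  obtain ⟨C, hC⟩ := ((isCompact_sphere s₀ r).image_of_continuousOn (f := k F) fun w hw =>
    (kc F w (hr (sphere_subset_closedBall hw)) (ne_of_mem_sphere hw r0.ne')).continuousWithinAt).bddAbove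
  have main : ∀ ε > 0, u z + ε * k F z ≤ u s + ε * C := by
    intro ε ε0
    have h1 : ∀ a ∈ F, ∀ᶠ w in 𝓝[≠] a, u w + ε * k F w ≤ u s + ε * C := by
      intro a ha
      have h2 := ((kc (F.erase a) a (F.notMem_erase a) fun e => hs₀ (e ▸ ha)).eventually_le_const
        (lt_add_one _)).filter_mono (nhdsWithin_le_nhds (s := {a}ᶜ))
      filter_upwards [ga a ha (ε / 2) (by linarith), h2, (tendsto_neg_log a).eventually_ge_atTop
        (2 * (k (F.erase a) a + 1 - C - u s / ε))] with w w1 w2 w3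
      have e : k F w = Real.log ‖w - a‖ + k (F.erase a) w := by
        simp only [k]; rw [← Finset.add_sum_erase F _ ha]; ring
      have e' : ε * (u s / ε) = u s := mul_div_cancel₀ _ ε0.ne'
      rw [e]; nlinarith
    have h2 : ∀ᶠ w in Bornology.cobounded ℂ, u w + ε * k F w ≤ u s + ε * C := by
      have t := tendsto_norm_cobounded_atTop (E := ℂ)
      filter_upwards [gi (ε / 2) (by linarith), t.eventually_ge_atTop (2 * ‖s₀‖),
        (F.eventually_all).2 fun a _ => t.eventually_gt_atTop ‖a‖, t.eventually_gt_atTop 0,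
        (Real.tendsto_log_atTop.comp t).eventually_ge_atTop
          (2 * ((2 * F.card + 1) * Real.log 2 - C - u s / ε))] with w w1 w2 w3 w4 w5
      have a1 : Real.log ‖w‖ - Real.log 2 ≤ Real.log ‖w - s₀‖ := by
        rw [← Real.log_div w4.ne' two_ne_zero]
        exact Real.log_le_log (by linarith) (by linarith [norm_sub_norm_le w s₀])
      have a2 : ∑ a ∈ F, Real.log ‖w - a‖ ≤ F.card * (Real.log ‖w‖ + Real.log 2) := by
        rw [← nsmul_eq_mul]
        refine Finset.sum_le_card_nsmul _ _ _ fun a ha => ?_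
        rw [← Real.log_mul w4.ne' two_ne_zero]
        exact Real.log_le_log (norm_pos_iff.2 (sub_ne_zero.2 fun e => (w3 a ha).ne (e ▸ rfl)))
          (by linarith [norm_sub_le w a, w3 a ha])
      have a3 : k F w ≤ (2 * F.card + 1) * Real.log 2 - Real.log ‖w‖ := by
        have := mul_le_mul_of_nonneg_left a1 (by positivity : (0 : ℝ) ≤ F.card + 1)
        simp only [k]; linarith
      have e' : ε * (u s / ε) = u s := mul_div_cancel₀ _ ε0.ne'
      simp only [Function.comp] at w5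
      nlinarith
    obtain ⟨R, -, hR⟩ := (Metric.hasBasis_cobounded_compl_ball (0 : ℂ)).mem_iff.1 h2
    obtain ⟨ρ, hρ, ρ0⟩ := (((F.eventually_all).2 fun a ha => eventually_closedBall_subset
      (eventually_nhdsWithin_iff.1 (h1 a ha))).filter_mono
        (nhdsWithin_le_nhds (s := Ioi 0))).and self_mem_nhdsWithin |>.exists
    have hF : ∀ w ∉ ⋃ a ∈ F, ball a ρ, w ∉ F := fun w hw h =>
      hw (mem_biUnion h (mem_ball_self ρ0))
    by_contra hz'
    refine hz' (wmp (u := fun w => u w + ε * k F w)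
      (K := closedBall 0 R \ (ball s₀ r ∪ ⋃ a ∈ F, ball a ρ))
      ((isCompact_closedBall 0 R).diff (isOpen_ball.union (isOpen_biUnion fun _ _ => isOpen_ball)))
      (fun w hw => ((hc w (hF w fun e => hw.2 (Or.inr e))).add (continuousAt_const.mul
        (kc F w (hF w fun e => hw.2 (Or.inr e)) (hne w fun e => hw.2 (Or.inl e))))).continuousWithinAt)
      (fun w hw => ?_) z ⟨?_, ?_⟩)
    · have wF := hF w fun e => hw.2 (Or.inr e)
      have wr : w ∉ ball s₀ r := fun e => hw.2 (Or.inl e)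
      refine or_iff_not_imp_left.2 fun hw' => ⟨?_, (hs w wF).add (kl' w wF (hne w wr) ε)⟩
      refine mem_of_superset ((isOpen_ball.sdiff (isClosed_closedBall.union
        (isClosed_biUnion_finset fun _ _ => isClosed_closedBall))).mem_nhds
        (⟨by_contra fun e => hw' (hR e), ?_⟩ :
          w ∈ ball 0 R \ (closedBall s₀ r ∪ ⋃ a ∈ F, closedBall a ρ)))
        (sdiff_subset_sdiff ball_subset_closedBall (union_subset_union ball_subset_closedBall
          (iUnion₂_mono fun _ _ => ball_subset_closedBall)))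
      rintro (e | e)
      · have : w ∈ sphere s₀ r := by rw [← closedBall_sdiff_ball]; exact ⟨e, wr⟩
        exact hw' (add_le_add (hs2 e) (mul_le_mul_of_nonneg_left (hC ⟨w, this, rfl⟩) ε0.le))
      · obtain ⟨a, ha, e⟩ := mem_iUnion₂.1 e
        exact hw' (hρ a ha e fun e' => wF (e' ▸ ha))
    · exact by_contra fun e => hz' (hR fun e' => e (ball_subset_closedBall e'))
    · rintro (e | e)
      · exact hzr e
      · obtain ⟨a, ha, e⟩ := mem_iUnion₂.1 e
        exact hz' (hρ a ha (ball_subset_closedBall e) fun e' => hz (e' ▸ ha))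
  refine le_of_forall_pos_le_add fun δ δ0 => ?_
  have p0 : 0 < |C - k F z| + 1 := by positivity
  have := main (δ / (|C - k F z| + 1)) (by positivity)
  have e : δ / (|C - k F z| + 1) * (|C - k F z| + 1) = δ := div_mul_cancel₀ _ p0.ne'
  nlinarith [le_abs_self (C - k F z), div_pos δ0 p0]

end Pool.Agent.MT.GF
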