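import Pool.Agent.Lib.MP_d61fbb_ag.MT.GFa

/-! Block G, fixed part: holomorphic families of complex structures in a normed algebra. -/

noncomputable section

namespace Pool.Agent.MT.GF

open Filter Topology Complex Metric Set

variable {A B : Type*} [NormedRing A] [NormedAlgebra ℝ A] [NormedRing B] [NormedAlgebra ℝ B]

/-- the complex number `e` read in the complex structure `K` -/
def ek (K : A) (e : ℂ) : A := e.re • (1 : A) + e.im • K

@[simp] lemma ek_one (K : A) : ek K 1 = 1 := by simp [ek]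

@[simp] lemma ek_I (K : A) : ek K I = K := by simp [ek]

/-- the moving complex structure -/
def JJ (K : A) (S : ℂ → A) (s : ℂ) : A := Ring.inverse (S s) * K * S s

/-- the logarithmic derivative -/
def sg (S T : ℂ → A) (s : ℂ) : A := Ring.inverse (S s) * T s

/-- the derivative of the moving complex structure -/
def bb (K : A) (S T : ℂ → A) (s : ℂ) : A := JJ K S s * sg S T s - sg S T s * JJ K S s

/-- `S` is invertible and holomorphic for `K` at `s`, with derivative `T s` -/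
structure K1 (K : A) (S T : ℂ → A) (s : ℂ) : Prop where
  sq : K * K = -1
  unit : IsUnit (S s)
  der : ∀ e, HasLineDerivAt ℝ S (ek K e * T s) s e

lemma ld_mul {f g : ℂ → A} {f' g' : A} {s e : ℂ} (hf : HasLineDerivAt ℝ f f' s e)
    (hg : HasLineDerivAt ℝ g g' s e) :
    HasLineDerivAt ℝ (fun z => f z * g z) (f' * g s + f s * g') s e :=
  (HasDerivAt.fun_mul hf hg).congr_deriv (by simp)

lemma ld_rho {ρ : A →* B} {dρ : A →L[ℝ] B} (hρ : HasFDerivAt ρ dρ 1) {P : ℂ → A} {α : A} {s e : ℂ}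
    (hu : IsUnit (P s)) (h : HasLineDerivAt ℝ P (P s * α) s e) :
    HasLineDerivAt ℝ (fun z => ρ (P z)) (ρ (P s) * dρ α) s e := by
  have h1 : HasDerivAt (fun t : ℝ => Ring.inverse (P s) * P (s + t • e)) α 0 :=
    (HasDerivAt.const_mul (Ring.inverse (P s)) h).congr_deriv
      (by rw [← mul_assoc, Ring.inverse_mul_cancel _ hu, one_mul])
  have h2 := (hρ.comp_hasDerivAt_of_eq (0 : ℝ) h1
    (by simp [Ring.inverse_mul_cancel _ hu])).const_mul (ρ (P s))
  refine h2.congr_of_eventuallyEq (Eventually.of_forall fun t => ?_)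
  simp only [Function.comp]
  rw [← map_mul, ← mul_assoc, Ring.mul_inverse_cancel _ hu, one_mul]

variable [CompleteSpace A] {K : A} {S T : ℂ → A} {s : ℂ}

lemma ld_inv {S' : A} {e : ℂ} (hu : IsUnit (S s)) (h : HasLineDerivAt ℝ S S' s e) :
    HasLineDerivAt ℝ (fun z => Ring.inverse (S z))
      (-(Ring.inverse (S s) * S' * Ring.inverse (S s))) s e := by
  obtain ⟨u, hu⟩ := hu
  refine ((hasFDerivAt_ringInverse (𝕜 := ℝ) u).comp_hasDerivAt_of_eq (0 : ℝ) h
    (by simp [hu])).congr_deriv ?_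
  simp [← hu]

omit [CompleteSpace A] in
lemma K1.JJ_sq (h : K1 K S T s) : JJ K S s * JJ K S s = -1 := by
  calc _ = Ring.inverse (S s) * K * (S s * Ring.inverse (S s)) * K * S s := by
        simp only [JJ, mul_assoc]
    _ = -1 := by
        rw [Ring.mul_inverse_cancel _ h.unit, mul_one, mul_assoc _ K K, h.sq, mul_neg_one, neg_mul,
          Ring.inverse_mul_cancel _ h.unit]

omit [CompleteSpace A] in
lemma K1.inv_ek (h : K1 K S T s) (e : ℂ) :
    Ring.inverse (S s) * ek K e = ek (JJ K S s) e * Ring.inverse (S s) := by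
  simp only [ek, JJ, mul_add, add_mul, mul_smul_comm, smul_mul_assoc, mul_one, one_mul, mul_assoc,
    Ring.mul_inverse_cancel _ h.unit]

lemma K1.dJ (h : K1 K S T s) (e : ℂ) :
    HasLineDerivAt ℝ (JJ K S) (ek (JJ K S s) e * bb K S T s) s e := by
  refine HasDerivAt.congr_deriv
    (ld_mul (f := fun z => Ring.inverse (S z) * K)
    (HasDerivAt.mul_const (ld_inv h.unit (h.der e)) K) (h.der e)) ?_
  have h1 := h.inv_ek I
  have h2 : JJ K S s * ek (JJ K S s) e = ek (JJ K S s) e * JJ K S s := by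
    simp [ek, mul_add, add_mul]
  rw [ek_I, ek_I] at h1
  rw [← mul_assoc _ (ek K e), h.inv_ek, h1, mul_assoc (JJ K S s), ← mul_assoc _ (ek K e), h.inv_ek,
    ← mul_assoc (JJ K S s), ← mul_assoc (JJ K S s), h2, bb, sg, JJ]
  noncomm_ring

lemma K1.dsg (h : K1 K S T s) {U : A} {e : ℂ} (h' : HasLineDerivAt ℝ T (ek K e * U) s e) :
    HasLineDerivAt ℝ (sg S T)
      (ek (JJ K S s) e * (Ring.inverse (S s) * U - sg S T s * sg S T s)) s e := by
  refine HasDerivAt.congr_deriv (ld_mul (ld_inv h.unit (h.der e)) h') ?_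
  rw [← mul_assoc _ (ek K e), ← mul_assoc _ (ek K e), h.inv_ek, sg]
  noncomm_ring

/-- the harmonic map equation -/
lemma K1.harm (h : K1 K S T s) {U : A} (h' : ∀ e, HasLineDerivAt ℝ T (ek K e * U) s e) :
    ∃ c, HasLineDerivAt ℝ (fun z => -(JJ K S z * bb K S T z)) c s 1 ∧
      HasLineDerivAt ℝ (bb K S T) (-c) s I := by
  have hb := fun e => HasDerivAt.sub (ld_mul (h.dJ e) (h.dsg (h' e))) (ld_mul (h.dsg (h' e)) (h.dJ e))
  refine ⟨_, HasDerivAt.neg (ld_mul (h.dJ 1) (hb 1)), HasDerivAt.congr_deriv (hb I) ?_⟩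
  have h1 := h.JJ_sq
  simp only [ek_one, ek_I, bb]
  generalize JJ K S s = J at h1
  generalize sg S T s = σ
  generalize Ring.inverse (S s) * U = μ
  have h2 : ∀ x, J * (J * x) = -x := fun x => by rw [← mul_assoc, h1, neg_one_mul]
  simp only [mul_sub, sub_mul, mul_add, mul_assoc, h2, one_mul, mul_neg, neg_mul, neg_neg]
  abel

variable {ρ : A →* B} {dρ : A →L[ℝ] B}

lemma K1.dQ (h : K1 K S T s) (hρ : HasFDerivAt ρ dρ 1) {E : A} (hE : IsUnit E) (e : ℂ) :
    HasLineDerivAt ℝ (fun z => ρ (E * JJ K S z))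
      (ρ (E * JJ K S s) * dρ (-(JJ K S s * (ek (JJ K S s) e * bb K S T s)))) s e := by
  have h1 := h.JJ_sq
  have hJ : IsUnit (JJ K S s) := ⟨⟨JJ K S s, -JJ K S s, by simp [h1], by simp [h1]⟩, rfl⟩
  refine ld_rho hρ (P := fun z => E * JJ K S z) (hE.mul hJ)
    ((HasDerivAt.const_mul E (h.dJ e)).congr_deriv ?_)
  rw [mul_neg, mul_assoc E, ← mul_assoc (JJ K S s) (JJ K S s), h1, neg_one_mul, mul_neg, neg_neg]

lemma K1.dh (h : K1 K S T s) (hρ : HasFDerivAt ρ dρ 1) {u : ℂ} (hu : u ≠ 0) (e : ℂ) :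
    ∃ x y : ℝ, HasLineDerivAt ℝ (fun z => ρ (ek (JJ K S z) u))
      (ρ (ek (JJ K S s) u) * (x • dρ (bb K S T s) + y • dρ (-(JJ K S s * bb K S T s)))) s e := by
  have h1 := h.JJ_sq
  have hm : ∀ x y : ℂ, ek (JJ K S s) x * ek (JJ K S s) y = ek (JJ K S s) (x * y) := fun x y => by
    simp only [ek, mul_add, add_mul, mul_smul_comm, smul_mul_assoc, mul_one, one_mul, h1, mul_re,
      mul_im]
    module
  have hU : IsUnit (ek (JJ K S s) u) := ⟨⟨ek (JJ K S s) u, ek (JJ K S s) u⁻¹,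
    by rw [hm, mul_inv_cancel₀ hu, ek_one], by rw [hm, inv_mul_cancel₀ hu, ek_one]⟩, rfl⟩
  refine ⟨u.im * (u⁻¹ * e).re, -(u.im * (u⁻¹ * e).im), ?_⟩
  rw [← map_smul, ← map_smul, ← map_add]
  refine ld_rho hρ (P := fun z => ek (JJ K S z) u) hU
    (((HasDerivAt.const_smul u.im (h.dJ e)).const_add (u.re • (1 : A))).congr_deriv ?_)
  have : e = u * (u⁻¹ * e) := by rw [← mul_assoc, mul_inv_cancel₀ hu, one_mul]
  generalize u⁻¹ * e = w at this
  rw [this, ← hm, mul_assoc, ← mul_smul_comm]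
  congr 1
  simp only [ek, add_mul, smul_mul_assoc, one_mul]
  module

end Pool.Agent.MT.GF
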