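import Pool.Agent.Lib.MP_d61fbb_ag.MT.GFb

/-! Block G, fixed part: the norm of a flat vector is subharmonic. -/

set_option linter.unusedSectionVars false

noncomputable section

namespace Pool.Agent.MT.GF

open Filter Topology Complex Metric Set Matrix
open scoped Matrix.Norms.Operator

variable {ι κ : Type} [Fintype ι] [DecidableEq ι] [Fintype κ] [DecidableEq κ]

open scoped MatrixOrder in
lemma fac_of_posDef {P : Matrix ι ι ℝ} (h : P.PosDef) : ∃ R : Matrix ι ι ℝ, IsUnit R ∧ P = Rᵀ * R := by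
  obtain ⟨y, hy, e⟩ := CStarAlgebra.isStrictlyPositive_iff_eq_star_mul_self.mp h.isStrictlyPositive
  exact ⟨y, hy, e⟩

lemma ld_lin {F : Type*} [NormedAddCommGroup F] [NormedSpace ℝ F] (l : Matrix κ κ ℝ →ₗ[ℝ] F)
    {Q : ℂ → Matrix κ κ ℝ} {Q' : Matrix κ κ ℝ} {s e : ℂ} (h : HasLineDerivAt ℝ Q Q' s e) :
    HasLineDerivAt ℝ (fun z => l (Q z)) (l Q') s e :=
  l.toContinuousLinearMap.hasFDerivAt.comp_hasDerivAt (0 : ℝ) h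

/-- a matrix coefficient -/
def qf (x y : κ → ℝ) : Matrix κ κ ℝ →ₗ[ℝ] ℝ where
  toFun M := x ⬝ᵥ M *ᵥ y
  map_add' M N := by rw [add_mulVec, dotProduct_add]
  map_smul' c M := by rw [smul_mulVec, dotProduct_smul]; rfl

lemma qf_fac (R : Matrix κ κ ℝ) (x y : κ → ℝ) : qf x y (Rᵀ * R) = R *ᵥ x ⬝ᵥ R *ᵥ y := by
  change x ⬝ᵥ (Rᵀ * R) *ᵥ y = _
  rw [← mulVec_mulVec, dotProduct_mulVec, vecMul_transpose]

lemma qf_mul (Q α : Matrix κ κ ℝ) (x y : κ → ℝ) : qf x y (Q * α) = qf x (α *ᵥ y) Q := by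
  change x ⬝ᵥ (Q * α) *ᵥ y = x ⬝ᵥ Q *ᵥ α *ᵥ y
  rw [mulVec_mulVec]

variable {ρ : Matrix ι ι ℝ →* Matrix κ κ ℝ} {dρ : Matrix ι ι ℝ →L[ℝ] Matrix κ κ ℝ}
  {K E U : Matrix ι ι ℝ} {S T : ℂ → Matrix ι ι ℝ} {s : ℂ}

lemma rho_fac (ht : ∀ M, ρ Mᵀ = (ρ M)ᵀ) {P : Matrix ι ι ℝ} (h : P.PosDef) :
    ∃ R : Matrix κ κ ℝ, IsUnit R ∧ ρ P = Rᵀ * R := by
  obtain ⟨R, h1, rfl⟩ := fac_of_posDef h
  exact ⟨ρ R, h1.map ρ, by rw [map_mul, ht]⟩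

lemma rho_pos (ht : ∀ M, ρ Mᵀ = (ρ M)ᵀ) {P : Matrix ι ι ℝ} (h : P.PosDef) {v : κ → ℝ} (hv : v ≠ 0) :
    0 < qf v v (ρ P) := by
  obtain ⟨R, h1, e⟩ := rho_fac ht h
  rw [e, qf_fac]
  refine (dotProduct_self_star_nonneg _).lt_of_ne' fun e => hv ?_
  exact mulVec_injective_iff_isUnit.2 h1 ((dotProduct_self_eq_zero.1 e).trans (mulVec_zero _).symm)

theorem psi_lap (hρ : HasFDerivAt ρ dρ 1) (ht : ∀ M, ρ Mᵀ = (ρ M)ᵀ) (hE : IsUnit E)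
    (h : ∀ᶠ z in 𝓝 s, K1 K S T z ∧ (E * JJ K S z).PosDef)
    (h' : ∀ e, HasLineDerivAt ℝ T (ek K e * U) s e) (v : κ → ℝ) :
    ∃ (φ₁ φ₂ : ℂ → ℝ) (p q : ℝ) (R : Matrix κ κ ℝ) (x y : κ → ℝ), IsUnit R ∧
      (∀ᶠ z in 𝓝 s, HasLineDerivAt ℝ (fun z => qf v v (ρ (E * JJ K S z))) (φ₁ z) z 1 ∧
        HasLineDerivAt ℝ (fun z => qf v v (ρ (E * JJ K S z))) (φ₂ z) z I) ∧
      HasLineDerivAt ℝ φ₁ p s 1 ∧ HasLineDerivAt ℝ φ₂ q s I ∧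
      x = R *ᵥ dρ (-(JJ K S s * bb K S T s)) *ᵥ v ∧ y = R *ᵥ dρ (bb K S T s) *ᵥ v ∧
      p + q = x ⬝ᵥ x + y ⬝ᵥ y ∧ φ₁ s = R *ᵥ v ⬝ᵥ x ∧ φ₂ s = R *ᵥ v ⬝ᵥ y ∧
      qf v v (ρ (E * JJ K S s)) = R *ᵥ v ⬝ᵥ R *ᵥ v := by
  obtain ⟨k, hP⟩ := h.self_of_nhds
  obtain ⟨R, hR, e⟩ := rho_fac ht hP
  have d1 : ∀ z, K1 K S T z → HasLineDerivAt ℝ (fun z => ρ (E * JJ K S z))
      (ρ (E * JJ K S z) * dρ (-(JJ K S z * bb K S T z))) z 1 := fun z hz =>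
    HasDerivAt.congr_deriv (hz.dQ hρ hE 1) (by rw [ek_one, one_mul]; rfl)
  have d2 : ∀ z, K1 K S T z → HasLineDerivAt ℝ (fun z => ρ (E * JJ K S z))
      (ρ (E * JJ K S z) * dρ (bb K S T z)) z I := fun z hz =>
    HasDerivAt.congr_deriv (hz.dQ hρ hE I)
      (by rw [ek_I, ← mul_assoc (JJ K S z), hz.JJ_sq, neg_one_mul, neg_neg]; rfl)
  have sy : ∀ α d, HasLineDerivAt ℝ (fun z => ρ (E * JJ K S z)) (ρ (E * JJ K S s) * α) s d →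
      qf v v (ρ (E * JJ K S s) * α * α) = R *ᵥ α *ᵥ v ⬝ᵥ R *ᵥ α *ᵥ v := fun α d hα => by
    rw [qf_mul, ← qf_fac, ← e, ← qf_mul (x := α *ᵥ v)]
    refine (ld_lin (qf v (α *ᵥ v)) hα).unique
      ((ld_lin (qf (α *ᵥ v) v) hα).congr_of_eventuallyEq (h.mono fun z hz => ?_))
    obtain ⟨R', -, e'⟩ := rho_fac ht hz.2
    simp only [e', qf_fac, dotProduct_comm]
  obtain ⟨c, c1, c2⟩ := k.harm h'
  have c3 : HasLineDerivAt ℝ (fun z => dρ (-(JJ K S z * bb K S T z))) (dρ c) s 1 :=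
    dρ.hasFDerivAt.comp_hasDerivAt (0 : ℝ) c1
  have c4 : HasLineDerivAt ℝ (fun z => dρ (bb K S T z)) (dρ (-c)) s I :=
    dρ.hasFDerivAt.comp_hasDerivAt (0 : ℝ) c2
  refine ⟨_, _, _, _, R, _, _, hR, h.mono fun z hz => ⟨ld_lin _ (d1 z hz.1), ld_lin _ (d2 z hz.1)⟩,
    ld_lin (qf v v) (ld_mul (d1 s k) c3), ld_lin (qf v v) (ld_mul (d2 s k) c4), rfl, rfl, ?_, ?_, ?_,
    by rw [e, qf_fac]⟩
  · simp only [map_add, sy _ _ (d1 s k), sy _ _ (d2 s k), map_neg dρ c, mul_neg, map_neg (qf v v)]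
    ring
  · rw [qf_mul, e, qf_fac]
  · rw [qf_mul, e, qf_fac]

lemma dot_sq_le (x y : κ → ℝ) : (x ⬝ᵥ y) ^ 2 ≤ x ⬝ᵥ x * y ⬝ᵥ y := by
  simpa only [dotProduct, sq] using Finset.sum_mul_sq_le_sq_mul_sq Finset.univ x y

/-- the logarithm of the norm is subharmonic -/
theorem log_lap (hρ : HasFDerivAt ρ dρ 1) (ht : ∀ M, ρ Mᵀ = (ρ M)ᵀ) (hE : IsUnit E)
    (h : ∀ᶠ z in 𝓝 s, K1 K S T z ∧ (E * JJ K S z).PosDef)
    (h' : ∀ e, HasLineDerivAt ℝ T (ek K e * U) s e) {v : κ → ℝ} (hv : v ≠ 0) :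
    ∃ L, 0 ≤ L ∧ Lap (fun z => Real.log (qf v v (ρ (E * JJ K S z)))) s L := by
  obtain ⟨φ₁, φ₂, p, q, R, x, y, -, h1, h2, h3, -, -, h4, h5, h6, h7⟩ := psi_lap hρ ht hE h h' v
  have hp := h.mono fun z hz => rho_pos ht hz.2 hv
  have h0 := hp.self_of_nhds
  have hne : qf v v (ρ (E * JJ K S s)) ≠ 0 := h0.ne'
  have lg : ∀ {z e φ}, HasLineDerivAt ℝ (fun z => qf v v (ρ (E * JJ K S z))) φ z e →
      0 < qf v v (ρ (E * JJ K S z)) → HasLineDerivAt ℝ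
        (fun z => Real.log (qf v v (ρ (E * JJ K S z)))) (φ / qf v v (ρ (E * JJ K S z))) z e :=
    fun a b => (HasDerivAt.log a (by simpa using b.ne')).congr_deriv (by simp)
  refine ⟨_, ?_, fun z => φ₁ z / qf v v (ρ (E * JJ K S z)), fun z => φ₂ z / qf v v (ρ (E * JJ K S z)),
    _, _, (h1.and hp).mono fun z hz => ⟨lg hz.1.1 hz.2, lg hz.1.2 hz.2⟩,
    HasDerivAt.fun_div h2 h1.self_of_nhds.1 (by simpa using hne),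
    HasDerivAt.fun_div h3 h1.self_of_nhds.2 (by simpa using hne), rfl⟩
  simp only [zero_smul, add_zero]
  rw [← add_div]
  refine div_nonneg ?_ (sq_nonneg _)
  have a := dot_sq_le (R *ᵥ v) x
  have b := dot_sq_le (R *ᵥ v) y
  rw [← h7, ← h5] at a
  rw [← h7, ← h6] at b
  have : p * qf v v (ρ (E * JJ K S s)) + q * qf v v (ρ (E * JJ K S s)) =
      (x ⬝ᵥ x + y ⬝ᵥ y) * qf v v (ρ (E * JJ K S s)) := by rw [← h4]; ring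
  linarith

/-- where the norm is constant the vector is fixed to first order -/
theorem fix_ld (hρ : HasFDerivAt ρ dρ 1) (ht : ∀ M, ρ Mᵀ = (ρ M)ᵀ) (hE : IsUnit E)
    (h : ∀ᶠ z in 𝓝 s, K1 K S T z ∧ (E * JJ K S z).PosDef)
    (h' : ∀ e, HasLineDerivAt ℝ T (ek K e * U) s e) {v : κ → ℝ} {M : ℝ}
    (hM : ∀ᶠ z in 𝓝 s, qf v v (ρ (E * JJ K S z)) = M) {u : ℂ} (hu : u ≠ 0) (e : ℂ) :
    HasLineDerivAt ℝ (fun z => ρ (ek (JJ K S z) u) *ᵥ v) 0 s e := by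
  obtain ⟨φ₁, φ₂, p, q, R, x, y, hR, h1, h2, h3, hx, hy, h4, -⟩ := psi_lap hρ ht hE h h' v
  have z0 : ∀ {φ : ℂ → ℝ} {p : ℝ} {e : ℂ}, (∀ᶠ z in 𝓝 s, HasLineDerivAt ℝ
      (fun z => qf v v (ρ (E * JJ K S z))) (φ z) z e) → HasLineDerivAt ℝ φ p s e → p = 0 :=
    fun {φ p e} a b => b.unique (HasLineDerivAt.congr_of_eventuallyEq (f := fun _ => 0)
      (hasDerivAt_const (0 : ℝ) (0 : ℝ)) ((a.and hM.eventually_nhds).mono fun z hz => hz.1.unique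
        (HasLineDerivAt.congr_of_eventuallyEq (f := fun _ => M) (hasDerivAt_const (0 : ℝ) M) hz.2)))
  rw [z0 (h1.mono fun _ h => h.1) h2, z0 (h1.mono fun _ h => h.2) h3] at h4
  have x0 : 0 ≤ x ⬝ᵥ x := dotProduct_self_star_nonneg x
  have y0 : 0 ≤ y ⬝ᵥ y := dotProduct_self_star_nonneg y
  have inj := mulVec_injective_iff_isUnit.2 hR
  have a : dρ (-(JJ K S s * bb K S T s)) *ᵥ v = 0 :=
    inj ((hx.symm.trans (dotProduct_self_eq_zero.1 (by linarith))).trans (mulVec_zero _).symm)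
  have b : dρ (bb K S T s) *ᵥ v = 0 :=
    inj ((hy.symm.trans (dotProduct_self_eq_zero.1 (by linarith))).trans (mulVec_zero _).symm)
  obtain ⟨r, t, hd⟩ := h.self_of_nhds.1.dh hρ hu e
  refine HasDerivAt.congr_deriv (ld_lin ((mulVecBilin ℝ ℝ).flip v) hd) ?_
  change (ρ _ * (r • dρ (bb K S T s) + t • dρ (-(JJ K S s * bb K S T s)))) *ᵥ v = 0
  rw [← mulVec_mulVec, add_mulVec, smul_mulVec, smul_mulVec, a, b]
  simp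

end Pool.Agent.MT.GF
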