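import Pool.Agent.Lib.MP_d61fbb_ag.MT.GFc
import Pool.Agent.Lib.MP_d61fbb_ag.MT.G0b

/-! Block G, fixed part: the Harnack inequality for the Hodge metric. -/

noncomputable section

namespace Pool.Agent.MT.GF

open Filter Topology Complex Metric Set Matrix G

lemma schwarz_uhp {φ : ℂ → ℂ} {c w : ℂ} {R l : ℝ} (hd : DifferentiableOn ℂ φ (ball c R))
    (hp : ∀ z ∈ ball c R, 0 < (φ z).im) (hw : w ∈ ball c R) (hl : 4 * R ≤ l * (R - dist w c)) :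
    (φ w).im ≤ (l + 2) * (φ c).im ∧ (φ c).im ≤ (l + 2) * (φ w).im ∧
      |(φ c).re - (φ w).re| ≤ (l + 2) * (φ w).im := by
  have R0 : 0 < R := pos_of_mem_ball hw
  have hc := hp c (mem_ball_self R0)
  have hq := hp w hw
  have hn : ∀ z ∈ ball c R, 0 < ‖φ z - (starRingEnd ℂ) (φ c)‖ := fun z hz =>
    norm_pos_iff.2 fun e => by
      have := congrArg im e
      simp only [sub_im, conj_im, zero_im] at this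
      linarith [hp z hz]
  have hs : ∀ z, ‖φ z - (starRingEnd ℂ) (φ c)‖ ^ 2 = ‖φ z - φ c‖ ^ 2 + 4 * ((φ c).im * (φ z).im) :=
    fun z => by simp only [Complex.sq_norm, normSq_apply, sub_re, sub_im, conj_re, conj_im]; ring
  have h1 := dist_le_div_mul_dist_of_mapsTo_ball (R₂ := 1)
    (f := fun z => (φ z - φ c) / (φ z - (starRingEnd ℂ) (φ c)))
    ((hd.sub_const _).div (hd.sub_const _) fun z hz => norm_pos_iff.1 (hn z hz)) (fun z hz => by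
      rw [sub_self, zero_div, mem_closedBall_zero_iff, norm_div, div_le_one (hn z hz)]
      refine le_of_sq_le_sq ?_ (norm_nonneg _)
      rw [hs]
      nlinarith [hp z hz]) hw
  rw [sub_self, zero_div, dist_zero_right, norm_div, div_le_iff₀ (hn w hw)] at h1
  have h2 := pow_le_pow_left₀ (norm_nonneg _) h1 2
  rw [mul_pow, hs] at h2
  have d0 : 0 ≤ 1 / R * dist w c := by positivity
  have d1 : 1 / R * dist w c * R = dist w c := by field_simp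
  have d2 : dist w c < R := hw
  generalize 1 / R * dist w c = ρ at h2 d0 d1
  have ρ1 : ρ < 1 := by nlinarith
  have l1 : 4 ≤ l * (1 - ρ) := by
    refine le_of_mul_le_mul_right ?_ R0
    rw [← d1] at hl; linarith
  have l0 : 0 ≤ l := by nlinarith
  have hI := mul_pos hc hq
  have h3 : ‖φ w - φ c‖ ^ 2 ≤ l * ((φ c).im * (φ w).im) := by
    have A0 := sq_nonneg ‖φ w - φ c‖
    generalize ‖φ w - φ c‖ ^ 2 = A at h2 A0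
    generalize (φ c).im * (φ w).im = B at h2 hI
    have a1 : ρ ^ 2 ≤ ρ := by nlinarith
    have a2 : A * (1 - ρ) ≤ 4 * B := by nlinarith
    nlinarith
  simp only [Complex.sq_norm, normSq_apply, sub_re, sub_im] at h3
  generalize (φ c).im = p at *
  generalize (φ w).im = q at *
  have a : q ≤ (l + 2) * p := le_of_mul_le_mul_right
    (by nlinarith [mul_self_nonneg ((φ w).re - (φ c).re)]) hq
  have b : p ≤ (l + 2) * q := le_of_mul_le_mul_right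
    (by nlinarith [mul_self_nonneg ((φ w).re - (φ c).re)]) hc
  refine ⟨a, b, abs_le_of_sq_le_sq ?_ (by positivity)⟩
  nlinarith [mul_self_nonneg (q - p), mul_le_mul_of_nonneg_left b (mul_nonneg l0 hq.le)]

section
variable {n : Type} [Fintype n] [DecidableEq n]

omit [DecidableEq n] in
lemma dsymm {Y : Matrix n n ℝ} (h : Yᵀ = Y) (u v : n → ℝ) : u ⬝ᵥ Y *ᵥ v = v ⬝ᵥ Y *ᵥ u := by
  rw [dotProduct_mulVec, ← mulVec_transpose, h, dotProduct_comm]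

lemma pd_inv {Y : Matrix n n ℝ} (h : Y.PosDef) (z : n → ℝ) : Y *ᵥ Y⁻¹ *ᵥ z = z := by
  rw [mulVec_mulVec, mul_nonsing_inv _ ((isUnit_iff_isUnit_det _).1 h.isUnit), one_mulVec]

lemma two_dot_le {Y : Matrix n n ℝ} (h : Y.PosDef) (x z : n → ℝ) (t : ℝ) :
    2 * t * (x ⬝ᵥ z) ≤ x ⬝ᵥ Y *ᵥ x + t ^ 2 * (z ⬝ᵥ Y⁻¹ *ᵥ z) := by
  have h0 := h.posSemidef.dotProduct_mulVec_nonneg (x - t • Y⁻¹ *ᵥ z)
  have hs : Yᵀ = Y := h.isHermitian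
  simp only [star_trivial, mulVec_sub, mulVec_smul, sub_dotProduct, dotProduct_sub, smul_dotProduct,
    dotProduct_smul, smul_eq_mul, pd_inv h, dsymm hs (Y⁻¹ *ᵥ z) x,
    dotProduct_comm (Y⁻¹ *ᵥ z) z] at h0
  linarith

lemma harn {Y₀ Y₁ D : Matrix n n ℝ} (h₀ : Y₀.PosDef) (h₁ : Y₁.PosDef) (hD : Dᵀ = D) {μ : ℝ}
    (μ1 : 1 ≤ μ) (a1 : ∀ y, y ⬝ᵥ Y₁ *ᵥ y ≤ μ * y ⬝ᵥ Y₀ *ᵥ y) (a2 : ∀ y, y ⬝ᵥ Y₀ *ᵥ y ≤ μ * y ⬝ᵥ Y₁ *ᵥ y)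
    (a3 : ∀ y, |y ⬝ᵥ D *ᵥ y| ≤ μ * y ⬝ᵥ Y₁ *ᵥ y) (a z : n → ℝ) :
    a ⬝ᵥ Y₀ *ᵥ a + (z + D *ᵥ a) ⬝ᵥ Y₀⁻¹ *ᵥ (z + D *ᵥ a) ≤
      3 * μ ^ 3 * (a ⬝ᵥ Y₁ *ᵥ a + z ⬝ᵥ Y₁⁻¹ *ᵥ z) := by
  have hs : Y₁ᵀ = Y₁ := h₁.isHermitian
  have e1 : (Y₀⁻¹ *ᵥ (z + D *ᵥ a)) ⬝ᵥ Y₀ *ᵥ Y₀⁻¹ *ᵥ (z + D *ᵥ a) =
      (z + D *ᵥ a) ⬝ᵥ Y₀⁻¹ *ᵥ (z + D *ᵥ a) := by rw [pd_inv h₀, dotProduct_comm]
  have e2 : (z + D *ᵥ a) ⬝ᵥ Y₀⁻¹ *ᵥ (z + D *ᵥ a) = (Y₀⁻¹ *ᵥ (z + D *ᵥ a)) ⬝ᵥ z +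
      (Y₀⁻¹ *ᵥ (z + D *ᵥ a)) ⬝ᵥ D *ᵥ a := by rw [← dotProduct_add, dotProduct_comm]
  generalize (z + D *ᵥ a) ⬝ᵥ Y₀⁻¹ *ᵥ (z + D *ᵥ a) = N at e1 e2
  generalize Y₀⁻¹ *ᵥ (z + D *ᵥ a) = x at e1 e2
  have b1 := a1 x
  have b2 := a2 a
  have b3 := two_dot_le h₁ x z (2 * μ)
  have b4 := (abs_le.1 (a3 (x + (2 * μ ^ 2) • a))).2
  have b5 := (abs_le.1 (a3 (x - (2 * μ ^ 2) • a))).1
  simp only [mulVec_add, mulVec_sub, mulVec_smul, add_dotProduct, sub_dotProduct, dotProduct_add,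
    dotProduct_sub, smul_dotProduct, dotProduct_smul, smul_eq_mul, dsymm hD a x, dsymm hs a x] at b4 b5
  have c1 : 0 ≤ a ⬝ᵥ Y₁ *ᵥ a := h₁.posSemidef.dotProduct_mulVec_nonneg a
  have c2 : 0 ≤ z ⬝ᵥ Y₁⁻¹ *ᵥ z := h₁.inv.posSemidef.dotProduct_mulVec_nonneg z
  rw [e1] at b1
  have μ0 : 0 < μ := by linarith
  have b6 : 4 * μ * (x ⬝ᵥ D *ᵥ a) ≤ x ⬝ᵥ Y₁ *ᵥ x + 4 * μ ^ 4 * (a ⬝ᵥ Y₁ *ᵥ a) :=
    le_of_mul_le_mul_left (by nlinarith) (by positivity : 0 < 2 * μ)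
  have b7 : N ≤ 2 * μ * (z ⬝ᵥ Y₁⁻¹ *ᵥ z) + 2 * μ ^ 3 * (a ⬝ᵥ Y₁ *ᵥ a) :=
    le_of_mul_le_mul_left (by nlinarith) (by positivity : 0 < 2 * μ)
  have m : μ ≤ μ ^ 3 := le_self_pow₀ μ1 (by norm_num)
  nlinarith [mul_le_mul_of_nonneg_right m c1, mul_le_mul_of_nonneg_right m c2]

end

variable {g : ℕ}

lemma Xm_symm (z : EE g) : (Xm z)ᵀ = Xm z := by
  ext i j; simp [Xm, G.mk, Sym2.eq_swap]

lemma Pm_form (z : EE g) (x : I2 g → ℝ) : x ⬝ᵥ Pm z *ᵥ x =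
    (x ∘ Sum.inl) ⬝ᵥ Ym z *ᵥ (x ∘ Sum.inl) + (Xm z *ᵥ (x ∘ Sum.inl) + x ∘ Sum.inr) ⬝ᵥ (Ym z)⁻¹ *ᵥ
      (Xm z *ᵥ (x ∘ Sum.inl) + x ∘ Sum.inr) := by
  have h : ∀ u v, Xm z *ᵥ u ⬝ᵥ v = u ⬝ᵥ Xm z *ᵥ v := fun u v => by
    rw [dotProduct_comm, dsymm (Xm_symm z)]
  conv_lhs => rw [Pm_eq, ← Sum.elim_comp_inl_inr x]
  simp only [fromBlocks_mulVec, sumElim_dotProduct_sumElim, Sum.elim_comp_inl, Sum.elim_comp_inr,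
    add_mulVec, ← mulVec_mulVec, dotProduct_add, add_dotProduct, mulVec_add, h]
  ring

lemma dot_mk (z : EE g) (y : Fin g → ℝ) : (rc y ⬝ᵥ G.mk z *ᵥ rc y).im = y ⬝ᵥ Ym z *ᵥ y ∧
    (rc y ⬝ᵥ G.mk z *ᵥ rc y).re = y ⬝ᵥ Xm z *ᵥ y := by
  simp [dotProduct, mulVec, Xm, Ym, Finset.mul_sum]

/-- the Harnack inequality -/
theorem harnack {τ : ℂ → EE g} {c w : ℂ} {R l : ℝ} (hd : DifferentiableOn ℂ τ (ball c R))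
    (hm : MapsTo τ (ball c R) (HH g)) (hw : w ∈ ball c R) (hl : 4 * R ≤ l * (R - dist w c))
    (x : I2 g → ℝ) : x ⬝ᵥ Pm (τ c) *ᵥ x ≤ 3 * (l + 2) ^ 3 * x ⬝ᵥ Pm (τ w) *ᵥ x := by
  have R0 : 0 < R := pos_of_mem_ball hw
  have l0 : 0 < l := by nlinarith [mem_ball.1 hw]
  have k : ∀ y : Fin g → ℝ, y ⬝ᵥ Ym (τ w) *ᵥ y ≤ (l + 2) * y ⬝ᵥ Ym (τ c) *ᵥ y ∧
      y ⬝ᵥ Ym (τ c) *ᵥ y ≤ (l + 2) * y ⬝ᵥ Ym (τ w) *ᵥ y ∧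
      |y ⬝ᵥ (Xm (τ c) - Xm (τ w)) *ᵥ y| ≤ (l + 2) * y ⬝ᵥ Ym (τ w) *ᵥ y := fun y => by
    by_cases hy : y = 0
    · simp [hy]
    have := schwarz_uhp (φ := fun z => rc y ⬝ᵥ G.mk (τ z) *ᵥ rc y)
      (by simp only [dotProduct, mulVec, G.mk, of_apply]; fun_prop) (fun z hz => (hm hz).pos y hy) hw hl
    simpa only [(dot_mk _ y).1, (dot_mk _ y).2, sub_mulVec, dotProduct_sub] using this
  have := harn (mem_HH.1 (hm (mem_ball_self R0))) (mem_HH.1 (hm hw))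
    (by rw [transpose_sub, Xm_symm, Xm_symm]) (by linarith) (fun y => (k y).1) (fun y => (k y).2.1)
    (fun y => (k y).2.2) (x ∘ Sum.inl) (Xm (τ w) *ᵥ (x ∘ Sum.inl) + x ∘ Sum.inr)
  rwa [Pm_form, Pm_form, show Xm (τ c) *ᵥ (x ∘ Sum.inl) + x ∘ Sum.inr = Xm (τ w) *ᵥ (x ∘ Sum.inl) +
    x ∘ Sum.inr + (Xm (τ c) - Xm (τ w)) *ᵥ (x ∘ Sum.inl) by rw [sub_mulVec]; abel]

end Pool.Agent.MT.GF
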