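import Pool.Agent.Lib.MP_d61fbb_ag.MT.GFd
import Pool.Agent.Lib.MP_d61fbb_ag.MT.DKp

/-! Block G, fixed part: the Hodge norm of a tensor along a holomorphic curve. -/

noncomputable section

namespace Pool.Agent.MT.GF

open Filter Topology Complex Metric Set Matrix G
open scoped Matrix.Norms.Operator

variable {g : ℕ} {κ : Type} [Fintype κ] [DecidableEq κ]

/-- the linear part of the real period matrix -/
def Lm : EE g →ₗ[ℝ] MM g ℝ where
  toFun y := fromBlocks (Xm y) 0 (Ym y) 0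
  map_add' x y := by ext (i | i) (j | j) <;> simp [Xm, Ym, G.mk]
  map_smul' c y := by ext (i | i) (j | j) <;> simp [Xm, Ym, G.mk]

/-- the real period matrix -/
def Sm (z : EE g) : MM g ℝ := Lm z + fromBlocks 0 1 0 0

lemma Lm_smul (e : ℂ) (y : EE g) : Lm (e • y) = ek (J (Fin g) ℝ) e * Lm y := by
  have : J (Fin g) ℝ * Lm y = fromBlocks (-Ym y) 0 (Xm y) 0 := by
    simp [Lm, J, fromBlocks_multiply]
  rw [ek, add_mul, smul_mul_assoc, smul_mul_assoc, this, one_mul]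
  ext (i | i) (j | j) <;> simp [Lm, Xm, Ym, G.mk, sub_eq_add_neg]

lemma Sm_eq (z : EE g) : Sm z = fromBlocks (Xm z) 1 (Ym z) 0 := by
  simp [Sm, Lm, fromBlocks_add]

lemma Ym_inv {z : EE g} (hz : z ∈ HH g) : Ym z * (Ym z)⁻¹ = 1 :=
  mul_nonsing_inv _ ((isUnit_iff_isUnit_det _).1 (mem_HH.1 hz).isUnit)

lemma Sm_unit {z : EE g} (hz : z ∈ HH g) : IsUnit (Sm z) :=
  IsUnit.of_mul_eq_one (fromBlocks 0 (Ym z)⁻¹ 1 (-(Xm z * (Ym z)⁻¹)))
    (by simp [Sm_eq, fromBlocks_multiply, Ym_inv hz])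

lemma JJ_eq {σ : ℂ → EE g} {s : ℂ} (hz : σ s ∈ HH g) :
    JJ (J (Fin g) ℝ) (fun s => Sm (σ s)) s = Jm (σ s) := by
  have : J (Fin g) ℝ * Sm (σ s) = Sm (σ s) * Jm (σ s) := by
    simp [Sm_eq, Jm, J, fromBlocks_multiply, ← Matrix.mul_assoc, Ym_inv hz]
  rw [JJ, mul_assoc, this, ← mul_assoc, Ring.inverse_mul_cancel _ (Sm_unit hz), one_mul]

lemma ld_Lm {σ : ℂ → EE g} {σ' : EE g} {s : ℂ} (h : HasDerivAt σ σ' s) (e : ℂ) :
    HasLineDerivAt ℝ (fun s => Lm (σ s)) (ek (J (Fin g) ℝ) e * Lm σ') s e := by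
  have h1 := (h.hasFDerivAt.restrictScalars ℝ).hasLineDerivAt e
  refine HasDerivAt.congr_deriv
    ((Lm (g := g)).toContinuousLinearMap.hasFDerivAt.comp_hasDerivAt (0 : ℝ) h1) ?_
  exact Lm_smul e σ'

lemma sec_k1 {σ : ℂ → EE g} {W : Set ℂ} (ho : IsOpen W) (hd : DifferentiableOn ℂ σ W)
    (hm : MapsTo σ W (HH g)) {s : ℂ} (hs : s ∈ W) :
    (∀ᶠ z in 𝓝 s, K1 (J (Fin g) ℝ) (fun s => Sm (σ s)) (fun s => Lm (deriv σ s)) z ∧
      (J (Fin g) ℝ * JJ (J (Fin g) ℝ) (fun s => Sm (σ s)) z).PosDef) ∧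
    (∀ᶠ z in 𝓝 s, JJ (J (Fin g) ℝ) (fun s => Sm (σ s)) z = Jm (σ z)) ∧
    ∀ e, HasLineDerivAt ℝ (fun s => Lm (deriv σ s))
      (ek (J (Fin g) ℝ) e * Lm (deriv (deriv σ) s)) s e := by
  refine ⟨?_, ?_, ld_Lm ((hd.deriv ho).differentiableAt (ho.mem_nhds hs)).hasDerivAt⟩
  · filter_upwards [ho.mem_nhds hs] with z hz
    exact ⟨⟨J_squared _ _, Sm_unit (hm hz), fun e => HasDerivAt.add_const _
      (ld_Lm (hd.differentiableAt (ho.mem_nhds hz)).hasDerivAt e)⟩,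
      by rw [JJ_eq (hm hz)]; exact Pm_posDef (hm hz)⟩
  · filter_upwards [ho.mem_nhds hs] with z hz using JJ_eq (hm hz)

/-- the tensor power as a homomorphism -/
def tpH (κ ι : Type) [Fintype κ] [DecidableEq κ] [Fintype ι] [DecidableEq ι] :
    Matrix ι ι ℝ →* Matrix (κ → ι) (κ → ι) ℝ where
  toFun := tp κ
  map_one' := kp_one
  map_mul' g h := kp_mul (fun _ => g) fun _ => h

lemma tp_diff {ι : Type} [Fintype ι] [DecidableEq ι] : DifferentiableAt ℝ (tpH κ ι) 1 := by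
  have h : ∀ i j : ι, DifferentiableAt ℝ (fun M : Matrix ι ι ℝ => M i j) 1 := fun i j =>
    (entryLinearMap ℝ ℝ i j).toContinuousLinearMap.differentiableAt
  exact (differentiableAt_pi (𝕜 := ℝ) (Φ := fun (M : Matrix ι ι ℝ) (a b : κ → ι) =>
    ∏ i, M (a i) (b i))).2 fun a => differentiableAt_pi.2 fun b =>
      (HasFDerivAt.finsetProd fun i _ => (h _ _).hasFDerivAt).differentiableAt

lemma J_unit : IsUnit (J (Fin g) ℝ) := IsUnit.of_mul_eq_one (-J (Fin g) ℝ) (by simp [J_squared])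

/-- the Hodge norm -/
def psi (v : (κ → I2 g) → ℝ) (z : EE g) : ℝ := qf v v (tpH κ (I2 g) (Pm z))

variable {v : (κ → I2 g) → ℝ}

lemma psi_pos (hv : v ≠ 0) {z : EE g} (hz : z ∈ HH g) : 0 < psi v z :=
  rho_pos (fun _ => rfl) (Pm_posDef hz) hv

lemma psi_sub (hv : v ≠ 0) {σ : ℂ → EE g} {W : Set ℂ} (ho : IsOpen W) (hd : DifferentiableOn ℂ σ W)
    (hm : MapsTo σ W (HH g)) {s : ℂ} (hs : s ∈ W) :
    ∃ L, 0 ≤ L ∧ Lap (fun z => Real.log (psi v (σ z))) s L := by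
  obtain ⟨h1, h2, h3⟩ := sec_k1 ho hd hm hs
  obtain ⟨L, a, b⟩ := log_lap (tp_diff (κ := κ)).hasFDerivAt (fun _ => rfl) J_unit h1 h3 hv
  exact ⟨L, a, b.congr (h2.mono fun z hz => by simp only [hz]; rfl)⟩

lemma hh_const {σ : ℂ → EE g} {c : ℂ} {r M : ℝ} (hd : DifferentiableOn ℂ σ (ball c r))
    (hm : MapsTo σ (ball c r) (HH g)) (hM : ∀ z ∈ ball c r, psi v (σ z) = M) (θ : ℝ) {z : ℂ}
    (hz : z ∈ ball c r) : tp κ (hh (σ z) θ) *ᵥ v = tp κ (hh (σ c) θ) *ᵥ v := by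
  refine ld_const (f := fun z => tp κ (hh (σ z) θ) *ᵥ v) (fun s hs e => ?_) hz
  obtain ⟨h1, h2, h3⟩ := sec_k1 isOpen_ball hd hm hs
  refine (fix_ld (tp_diff (κ := κ)).hasFDerivAt (fun _ => rfl) J_unit h1 h3 (v := v) (M := M) ?_
    (exp_ne_zero (θ * I)) e).congr_of_eventuallyEq (h2.mono fun z hz => ?_)
  · filter_upwards [h2, isOpen_ball.mem_nhds hs] with z hz hz'
    rw [hz]; exact hM z hz'
  · simp only [hz, ek, exp_ofReal_mul_I_re, exp_ofReal_mul_I_im]; rfl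

lemma psi_cont {z : EE g} (hz : z ∈ HH g) : ContinuousAt (psi v) z := by
  have hY : ContinuousAt (fun z : EE g => Ym z) z := by
    refine Continuous.continuousAt (continuous_matrix fun i j => ?_)
    simp only [Ym, G.mk, map_apply, of_apply]; fun_prop
  have hX : ContinuousAt (fun z : EE g => Xm z) z := by
    refine Continuous.continuousAt (continuous_matrix fun i j => ?_)
    simp only [Xm, G.mk, map_apply, of_apply]; fun_prop
  have hW : ContinuousAt (fun z : EE g => (Ym z)⁻¹) z := (continuousAt_matrix_inv _ (by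
    rw [Ring.inverse_eq_inv']
    exact continuousAt_inv₀ (mem_HH.1 hz).det_pos.ne')).comp hY
  have h1 : Continuous fun p : Matrix (Fin g) (Fin g) ℝ × Matrix (Fin g) (Fin g) ℝ ×
      Matrix (Fin g) (Fin g) ℝ => fromBlocks (p.1 + p.2.1 * p.2.2 * p.2.1) (p.2.1 * p.2.2)
        (p.2.2 * p.2.1) p.2.2 := by fun_prop
  have h2 : Continuous fun M : MM g ℝ => qf v v (tpH κ (I2 g) M) := by
    have : ∀ M : MM g ℝ, qf v v (tpH κ (I2 g) M) = ∑ a, v a * ∑ b, (∏ i, M (a i) (b i)) * v b :=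
      fun _ => rfl
    simp only [this]; fun_prop
  have := h2.continuousAt.comp (h1.continuousAt.comp (hY.prodMk (hX.prodMk hW)))
  exact this.congr (Eventually.of_forall fun z => by simp only [Function.comp, psi, Pm_eq])

lemma qf_conj {ι : Type} [Fintype ι] [DecidableEq ι] (v : (κ → ι) → ℝ) (R M : Matrix ι ι ℝ) :
    qf v v (tpH κ ι (Rᵀ * M * R)) = tp κ R *ᵥ v ⬝ᵥ tp κ M *ᵥ tp κ R *ᵥ v := by
  rw [map_mul (tpH κ ι), map_mul (tpH κ ι)]
  change v ⬝ᵥ ((tp κ R)ᵀ * tp κ M * tp κ R) *ᵥ v = _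
  rw [← mulVec_mulVec, ← mulVec_mulVec, dotProduct_mulVec, vecMul_transpose]

lemma psi_az {γ : Sp g ℤ} (h : tp κ (zm γ.1) *ᵥ v = v ∨ tp κ (zm γ.1) *ᵥ v = -v) {z : EE g}
    (hz : z ∈ HH g) : psi v (az γ z) = psi v z := by
  have e := Pm_ac (zsp γ) hz
  have : psi v z = (tp κ (zm γ.1) *ᵥ v) ⬝ᵥ tp κ (Pm (az γ z)) *ᵥ tp κ (zm γ.1) *ᵥ v := by
    rw [psi, ← e, qf_conj]; rfl
  rw [this]
  rcases h with h | h <;> rw [h]
  · rfl
  · rw [mulVec_neg, neg_dotProduct_neg]; rfl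

lemma entry_le {ι : Type} [Fintype ι] [DecidableEq ι] {M : Matrix ι ι ℝ} (h : M.PosSemidef) {c : ℝ}
    (hc : ∀ x, x ⬝ᵥ M *ᵥ x ≤ c * x ⬝ᵥ x) (i j : ι) : |M i j| ≤ c := by
  have a := h.dotProduct_mulVec_nonneg (Pi.single i 1 + Pi.single j 1)
  have b := h.dotProduct_mulVec_nonneg (Pi.single i 1 - Pi.single j 1)
  have hi := hc (Pi.single i 1)
  have hj := hc (Pi.single j 1)
  have e : M j i = M i j := by simpa using h.isHermitian.apply i j
  simp [mulVec_add, mulVec_sub, e] at a b hi hj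
  exact abs_le.2 ⟨by linarith, by linarith⟩

lemma form_le {ι : Type} [Fintype ι] {N : Matrix ι ι ℝ} {C : ℝ} (h : ∀ a b, |N a b| ≤ C)
    (x : ι → ℝ) : x ⬝ᵥ N *ᵥ x ≤ Fintype.card ι * C * x ⬝ᵥ x := by
  calc x ⬝ᵥ N *ᵥ x = ∑ a, ∑ b, x a * (N a b * x b) := by
        simp only [dotProduct, mulVec, Finset.mul_sum]
    _ ≤ ∑ a, ∑ b, (C / 2 * (x a * x a) + C / 2 * (x b * x b)) :=
        Finset.sum_le_sum fun a _ => Finset.sum_le_sum fun b _ => by
          obtain ⟨h1, h2⟩ := abs_le.1 (h a b)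
          nlinarith [mul_nonneg (sub_nonneg.2 h2) (sq_nonneg (x a + x b)),
            mul_nonneg (sub_nonneg.2 h1) (sq_nonneg (x a - x b))]
    _ = _ := by
        simp only [Finset.sum_add_distrib, Finset.sum_const, Finset.card_univ, nsmul_eq_mul,
          ← Finset.mul_sum, dotProduct]
        ring

lemma psi_le {z w : EE g} (hz : z ∈ HH g) (hw : w ∈ HH g) {c : ℝ}
    (h : ∀ x, x ⬝ᵥ Pm z *ᵥ x ≤ c * x ⬝ᵥ Pm w *ᵥ x) :
    psi v z ≤ Fintype.card (κ → I2 g) * c ^ Fintype.card κ * psi v w := by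
  obtain ⟨R, hR, e⟩ := fac_of_posDef (Pm_posDef hw)
  obtain ⟨Q, hQ⟩ := hR.exists_left_inv
  have hQ' : R * Q = 1 := mul_eq_one_comm.1 hQ
  have e0 : Pm z = Rᵀ * (Qᵀ * Pm z * Q) * R := by
    rw [← Matrix.mul_assoc, ← Matrix.mul_assoc, ← transpose_mul, hQ, Matrix.mul_assoc, hQ]; simp
  have h1 := entry_le (c := c) ((Pm_posDef hz).posSemidef.conjTranspose_mul_mul_same Q) fun x => by
    have := h (Q *ᵥ x)
    rw [e, ← mulVec_mulVec, mulVec_mulVec x R, hQ', dotProduct_mulVec _ Rᵀ, vecMul_transpose,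
      mulVec_mulVec x R, hQ', one_mulVec] at this
    rwa [← mulVec_mulVec, ← mulVec_mulVec, conjTranspose_eq_transpose_of_trivial, dotProduct_mulVec,
      vecMul_transpose]
  rw [conjTranspose_eq_transpose_of_trivial] at h1
  have h2 := form_le (N := tp κ (Qᵀ * Pm z * Q)) (C := c ^ Fintype.card κ) (fun a b => by
    rw [tp, of_apply, Finset.abs_prod, ← Finset.card_univ, ← Finset.prod_const]
    exact Finset.prod_le_prod (fun _ _ => abs_nonneg _) fun _ _ => h1 _ _) (tp κ R *ᵥ v)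
  have h3 : psi v w = tp κ R *ᵥ v ⬝ᵥ tp κ R *ᵥ v := by
    rw [psi, e, map_mul]; exact qf_fac (tp κ R) v v
  have h4 : psi v z = tp κ R *ᵥ v ⬝ᵥ tp κ (Qᵀ * Pm z * Q) *ᵥ tp κ R *ᵥ v := by
    rw [psi, ← qf_conj, ← e0]
  rw [h3, h4]; exact h2

end Pool.Agent.MT.GF
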