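import Pool.Agent.Lib.MP_d61fbb_ag.MT.GFe

/-! Block G, fixed part: lifts to the covering. -/

noncomputable section

namespace Pool.Agent.MT.GF

open Filter Topology Complex Metric Set Matrix G

variable {g : ℕ} {Γ : Subgroup (Sp g ℤ)} {C : Cov1 Γ}

lemma clopen {D : Set ℂ} (hD : IsPreconnected D) {p : ℂ → Prop}
    (h : ∀ x ∈ D, p x → ∀ᶠ y in 𝓝 x, p y) (h' : ∀ x ∈ D, ¬ p x → ∀ᶠ y in 𝓝 x, ¬ p y)
    {x y : ℂ} (hx : x ∈ D) (hy : y ∈ D) : p x → p y :=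
  hD.induction₂' (fun x y => p x → p y) (fun x hx => by
    by_cases e : p x
    · exact ((h x hx e).filter_mono nhdsWithin_le_nhds).mono fun y hy => ⟨fun _ => hy, fun _ => e⟩
    · exact ((h' x hx e).filter_mono nhdsWithin_le_nhds).mono fun y hy =>
        ⟨fun a => (e a).elim, fun a => (hy a).elim⟩) (fun _ _ _ _ _ _ a b => b ∘ a) hx hy

/-- the points above `u` -/
def Over (C : Cov1 Γ) (z : EE g) (u : ℂ) : Prop := ∃ s W, C.Sec s W ∧ u ∈ W ∧ s u = z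

/-- local lifts of `E` -/
def Lf (C : Cov1 Γ) (E : ℂ → ℂ) (τ : ℂ → EE g) (w : ℂ) : Prop :=
  ∃ s W, C.Sec s W ∧ E w ∈ W ∧ τ =ᶠ[𝓝 w] fun x => s (E x)

variable {E : ℂ → ℂ} {τ τ' : ℂ → EE g} {w : ℂ} {z z' : EE g}

lemma Over.mem {u : ℂ} (h : Over C z u) : z ∈ HH g ∧ u ∉ C.B := by
  obtain ⟨s, W, h1, h2, rfl⟩ := h
  exact ⟨C.maps h1 h2, C.off h1 u h2⟩

lemma Lf.over (h : Lf C E τ w) : Over C (τ w) (E w) := by
  obtain ⟨s, W, h1, h2, h3⟩ := h
  exact ⟨s, W, h1, h2, h3.self_of_nhds.symm⟩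

lemma Lf.diffAt (hE : Differentiable ℂ E) (h : Lf C E τ w) : DifferentiableAt ℂ τ w := by
  obtain ⟨s, W, h1, h2, h3⟩ := h
  exact (((C.diff h1).differentiableAt ((C.opn h1).mem_nhds h2)).comp w (hE w)).congr_of_eventuallyEq h3

lemma Lf.uniq (hE : Differentiable ℂ E) {D : Set ℂ} (hD : IsPreconnected D)
    (h : ∀ w ∈ D, Lf C E τ w) (h' : ∀ w ∈ D, Lf C E τ' w) {x y : ℂ} (hx : x ∈ D) (hy : y ∈ D) :
    τ x = τ' x → τ y = τ' y := by
  refine clopen hD (p := fun x => τ x = τ' x) (fun x hx e => ?_) (fun x hx e =>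
    ((h x hx).diffAt hE).continuousAt.ne_iff_eventually_ne ((h' x hx).diffAt hE).continuousAt |>.1 e)
    hx hy
  obtain ⟨s, W, h1, h2, h3⟩ := h x hx
  obtain ⟨s', W', k1, k2, k3⟩ := h' x hx
  filter_upwards [h3, k3, (hE x).continuousAt.tendsto.eventually (C.uniq h1 k1 h2 k2
    (h3.self_of_nhds.symm.trans (e.trans k3.self_of_nhds)))] with y a b c
  rw [a, b, c]

lemma conn_symm (h : C.Conn z z') : C.Conn z' z := by
  induction h with
  | refl => exact .refl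
  | tail _ h ih =>
    obtain ⟨s, c, r, u, u', a, b, d, e, f⟩ := h
    exact .head ⟨s, c, r, u', u, a, d, b, f, e⟩ ih

lemma conn_az {γ : Sp g ℤ} (hγ : γ ∈ Γ) (h : C.Conn z z') : C.Conn (az γ z) (az γ z') := by
  induction h with
  | refl => exact .refl
  | tail _ h ih =>
    obtain ⟨s, c, r, u, u', a, b, d, rfl, rfl⟩ := h
    exact .tail ih ⟨_, c, r, u, u', C.act γ hγ a, b, d, rfl, rfl⟩

lemma Lf.conn (hE : Differentiable ℂ E) {D : Set ℂ} (hD : IsPreconnected D)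
    (h : ∀ w ∈ D, Lf C E τ w) {x y : ℂ} (hx : x ∈ D) (hy : y ∈ D) : C.Conn (τ x) (τ y) := by
  refine hD.induction₂' (fun x y => C.Conn (τ x) (τ y)) (fun x hx => ?_)
    (fun _ _ _ _ _ _ a b => Relation.ReflTransGen.trans a b) hx hy
  obtain ⟨s, W, h1, h2, h3⟩ := h x hx
  obtain ⟨r, r0, hr⟩ := Metric.isOpen_iff.1 (C.opn h1) _ h2
  refine Eventually.filter_mono nhdsWithin_le_nhds ?_
  filter_upwards [h3, (hE x).continuousAt.tendsto.eventually (ball_mem_nhds _ r0)] with y a b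
  have : C.Conn (τ x) (τ y) := .single ⟨s, _, r, _, _, C.mono h1 isOpen_ball hr, mem_ball_self r0, b,
    h3.self_of_nhds.symm, a.symm⟩
  exact ⟨this, conn_symm this⟩

/-- the monodromy theorem on a disc -/
theorem lift (hE : Differentiable ℂ E) {c : ℂ} {R : ℝ} (R0 : 0 < R)
    (hB : ∀ w ∈ closedBall c R, E w ∉ C.B) (hz : Over C z (E c)) :
    ∃ τ, τ c = z ∧ ∀ w ∈ ball c R, Lf C E τ w := by
  choose r r0 n S hS hS' using fun x : closedBall c R => C.triv _ (hB x x.2)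
  obtain ⟨δ, δ0, hδ⟩ := lebesgue_number_lemma_of_metric (isCompact_closedBall c R)
    (c := fun x : closedBall c R => E ⁻¹' ball (E x) (r x))
    (fun x => isOpen_ball.preimage hE.continuous)
    (fun x hx => mem_iUnion.2 ⟨⟨x, hx⟩, mem_ball_self (r0 _)⟩)
  have loc : ∀ x ∈ closedBall c R, ∀ p ∈ ball x δ, ∀ z, Over C z (E p) →
      ∃ τ, τ p = z ∧ ∀ w ∈ ball x δ, Lf C E τ w := by
    rintro x hx p hp _ ⟨s, W, h1, h2, rfl⟩
    obtain ⟨i, hi⟩ := hδ x hx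
    obtain ⟨γ, hγ, j, e⟩ := hS' i s W _ h1 h2 (hi hp)
    exact ⟨fun w => az γ (S i j (E w)), e.symm, fun w hw =>
      ⟨_, _, C.act γ hγ (hS i j), hi hw, EventuallyEq.rfl⟩⟩
  have main : ∀ m : ℕ, ∃ τ, τ c = z ∧ ∀ w ∈ ball c (min R ((m + 1) * (δ / 2))), Lf C E τ w := by
    intro m
    induction m with
    | zero =>
      obtain ⟨τ, h1, h2⟩ := loc c (mem_closedBall_self R0.le) c (mem_ball_self δ0) z hz
      exact ⟨τ, h1, fun w hw => h2 w (ball_subset_ball ((min_le_right _ _).trans (by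
        push_cast; linarith)) hw)⟩
    | succ m ih =>
      obtain ⟨τ, h1, h2⟩ := ih
      have ρ0 : 0 < min R ((m + 1) * (δ / 2)) := lt_min R0 (by positivity)
      have ρ1 : min R (((m + 1 : ℕ) + 1) * (δ / 2)) ≤ δ / 2 + min R ((m + 1) * (δ / 2)) := by
        rw [add_min]; exact min_le_min (by linarith) (by push_cast; linarith)
      have ρ2 := min_le_left R (((m + 1 : ℕ) + 1) * (δ / 2))
      generalize min R ((m + 1) * (δ / 2)) = ρ at h2 ρ0 ρ1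
      generalize min R (((m + 1 : ℕ) + 1) * (δ / 2)) = ρ' at ρ1 ρ2
      have st : ∀ w, ∃ σ : ℂ → EE g, w ∈ ball c ρ' → (∀ y ∈ ball w δ, Lf C E σ y) ∧
          (∀ y ∈ ball w δ ∩ ball c ρ, σ y = τ y) ∧ ∃ p ∈ ball c ρ, p ∈ ball w (δ / 2) := fun w => by
        by_cases hw : w ∈ ball c ρ'
        · obtain ⟨p, p1, p2⟩ := exists_dist_lt_lt (x := c) (z := w) ρ0 (half_pos δ0)
            ((mem_ball'.1 hw).trans_le ρ1)
          have p3 : p ∈ ball w δ := ball_subset_ball (half_le_self δ0.le) p2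
          obtain ⟨σ, s1, s2⟩ := loc w (ball_subset_closedBall (ball_subset_ball ρ2 hw)) p p3 _
            (h2 p (mem_ball'.2 p1)).over
          exact ⟨σ, fun _ => ⟨s2, fun y hy => Lf.uniq hE
            ((convex_ball w δ).inter (convex_ball c ρ)).isPreconnected (fun y hy => s2 y hy.1)
            (fun y hy => h2 y hy.2) ⟨p3, mem_ball'.2 p1⟩ hy s1, p, mem_ball'.2 p1, p2⟩⟩
        · exact ⟨τ, fun h => (hw h).elim⟩
      choose σ hσ using st
      by_cases hc : c ∈ ball c ρ'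
      swap
      · exact ⟨τ, h1, fun w hw => (hc (mem_ball_self (pos_of_mem_ball hw))).elim⟩
      refine ⟨fun w => σ w w, ((hσ c hc).2.1 c ⟨mem_ball_self δ0, mem_ball_self ρ0⟩).trans h1,
        fun w hw => ?_⟩
      obtain ⟨a1, a2, p, p1, p2⟩ := hσ w hw
      obtain ⟨s, W, b1, b2, b3⟩ := a1 w (mem_ball_self δ0)
      refine ⟨s, W, b1, b2, EventuallyEq.trans ?_ b3⟩
      filter_upwards [isOpen_ball.mem_nhds hw, ball_mem_nhds w (half_pos δ0)] with y y1 y2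
      obtain ⟨c1, c2, -⟩ := hσ y y1
      have p3 : p ∈ ball w δ := ball_subset_ball (half_le_self δ0.le) p2
      have p4 : p ∈ ball y δ := by
        rw [mem_ball] at p2 y2 ⊢
        linarith [dist_triangle_right p y w]
      exact Lf.uniq hE ((convex_ball y δ).inter (convex_ball w δ)).isPreconnected
        (fun x hx => c1 x hx.1) (fun x hx => a1 x hx.2) ⟨p4, p3⟩
        ⟨mem_ball_self δ0, ball_subset_ball (half_le_self δ0.le) y2⟩
        ((c2 p ⟨p4, p1⟩).trans (a2 p ⟨p3, p1⟩).symm)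
  obtain ⟨m, hm⟩ := exists_nat_ge (R / (δ / 2))
  obtain ⟨τ, h1, h2⟩ := main m
  rw [div_le_iff₀ (half_pos δ0)] at hm
  exact ⟨τ, h1, fun w hw => h2 w (by rwa [min_eq_left (by linarith)])⟩

variable {κ : Type} [Fintype κ] [DecidableEq κ] {v : (κ → I2 g) → ℝ} {z₁ : EE g}

lemma loc_fin (hv : ∀ γ ∈ C.Mon z₁, tp κ (zm γ.1) *ᵥ v = v ∨ tp κ (zm γ.1) *ᵥ v = -v) {s₀ : ℂ}
    (h : s₀ ∉ C.B) : ∃ r > 0, ∃ (ι : Type) (_ : Finite ι) (S : ι → ℂ → EE g),
      (∀ i, C.Sec (S i) (ball s₀ r)) ∧ (∀ i, ∀ s ∈ ball s₀ r, C.Conn z₁ (S i s)) ∧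
      ∀ s ∈ ball s₀ r, ∀ z, C.Conn z₁ z → Over C z s → ∃ i, psi v z = psi v (S i s) := by
  obtain ⟨r, r0, n, S, hS, hS'⟩ := C.triv _ h
  have rel : ∀ γ ∈ Γ, ∀ i, ∀ s ∈ ball s₀ r, C.Conn (az γ (S i s₀)) (az γ (S i s)) :=
    fun γ hγ i s hs => .single ⟨_, s₀, r, s₀, s, C.act γ hγ (hS i), mem_ball_self r0, hs, rfl, rfl⟩
  choose γ hγ hγ' using fun i : {i // ∃ γ ∈ Γ, C.Conn z₁ (az γ (S i s₀))} => i.2
  refine ⟨r, r0, _, inferInstance, fun i s => az (γ i) (S i s), fun i => C.act _ (hγ i) (hS i),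
    fun i s hs => (hγ' i).trans (rel _ (hγ i) i s hs), ?_⟩
  rintro s hs _ hz ⟨σ, W, a, b, rfl⟩
  obtain ⟨δ, hδ, i, e⟩ := hS' σ W s a b hs
  rw [e] at hz ⊢
  let j : {i // ∃ γ ∈ Γ, C.Conn z₁ (az γ (S i s₀))} := ⟨i, δ, hδ, hz.trans (conn_symm (rel δ hδ i s hs))⟩
  have hH := C.maps (hS i) hs
  have e' : az δ (S i s) = az (δ * (γ j)⁻¹) (az (γ j) (S i s)) := by
    rw [← az_mul _ _ hH, inv_mul_cancel_right]
  have hm := Γ.mul_mem hδ (Γ.inv_mem (hγ j))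
  refine ⟨j, e' ▸ psi_az (hv _ ⟨hm, (e' ▸ hz).trans (conn_symm (conn_az hm
    ((hγ' j).trans (rel _ (hγ j) i s hs))))⟩) (az_mem _ hH)⟩

end Pool.Agent.MT.GF
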