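import Pool.Agent.Lib.MP_d61fbb_ag.MT.GFf

/-! Block G, fixed part: the Hodge norm of an invariant tensor has a maximum. -/

noncomputable section

namespace Pool.Agent.MT.GF

open Filter Topology Complex Metric Set Matrix G

lemma max_fin {ι : Type} [Finite ι] {F : ι → ℂ → ℝ} {u : ℂ → ℝ} {s : ℂ}
    (h : ∀ᶠ z in 𝓝 s, IsGreatest (range fun i => F i z) (u z)) (hc : ∀ i, ContinuousAt (F i) s)
    (hs : ∀ i, ∃ L, 0 ≤ L ∧ Lap (F i) s L) : ContinuousAt u s ∧ Sub u s := by
  obtain ⟨⟨i, hi⟩, hi'⟩ := h.self_of_nhds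
  refine ⟨tendsto_order.2 ⟨fun a ha => ?_, fun a ha => ?_⟩, ?_⟩
  · filter_upwards [h, continuousAt_const.eventually_lt (hc i) (ha.trans_eq hi.symm)] with z a b
    exact b.trans_le (a.2 ⟨i, rfl⟩)
  · filter_upwards [h, eventually_all.2 fun j => (hc j).eventually_lt continuousAt_const
      ((hi' ⟨j, rfl⟩).trans_lt ha)] with z a b
    obtain ⟨j, hj⟩ := a.1
    exact hj ▸ b j
  · obtain ⟨L, a, b⟩ := hs i
    exact ⟨F i, L, b, a, hi, h.mono fun z hz => hz.2 ⟨i, rfl⟩⟩

lemma ev_log (K N c : ℝ) {ε : ℝ} (ε0 : 0 < ε) :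
    ∀ᶠ L : ℝ in atTop, 1 ≤ c + L ∧ K + N * Real.log (c + L) ≤ ε * L := by
  have t : Tendsto (fun L : ℝ => c + L) atTop atTop := tendsto_atTop_add_const_left _ _ tendsto_id
  filter_upwards [t.eventually_ge_atTop 1, t.eventually
    ((Real.isLittleO_log_id_atTop.const_mul_left N).bound (half_pos ε0)),
    eventually_ge_atTop (2 * (K / ε) + c)] with L a b d
  refine ⟨a, ?_⟩
  rw [Real.norm_eq_abs, id, Real.norm_of_nonneg (by linarith)] at b
  have e : ε * (K / ε) = K := mul_div_cancel₀ _ ε0.ne'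
  nlinarith [le_abs_self (N * Real.log (c + L))]

variable {g : ℕ} {Γ : Subgroup (Sp g ℤ)} {C : Cov1 Γ} {κ : Type} [Fintype κ] [DecidableEq κ]
  {v : (κ → I2 g) → ℝ} {z₁ : EE g}

/-- the values above `s` -/
def vals (C : Cov1 Γ) (v : (κ → I2 g) → ℝ) (z₁ : EE g) (m : ℝ) (s : ℂ) : Set ℝ :=
  insert m ((fun z => Real.log (psi v z)) '' {z | C.Conn z₁ z ∧ Over C z s})

lemma sec_cont (hv : v ≠ 0) {σ : ℂ → EE g} {W : Set ℂ} (h : C.Sec σ W) {s : ℂ} (hs : s ∈ W) :
    ContinuousAt (fun s => Real.log (psi v (σ s))) s :=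
  ((psi_cont (C.maps h hs)).comp ((C.diff h).continuousOn.continuousAt
    ((C.opn h).mem_nhds hs))).log (psi_pos hv (C.maps h hs)).ne'

lemma vals_loc (hv : ∀ γ ∈ C.Mon z₁, tp κ (zm γ.1) *ᵥ v = v ∨ tp κ (zm γ.1) *ᵥ v = -v)
    (h0 : v ≠ 0) (m : ℝ) {s : ℂ} (h : s ∉ C.B) :
    IsGreatest (vals C v z₁ m s) (sSup (vals C v z₁ m s)) ∧
      ContinuousAt (fun s => sSup (vals C v z₁ m s)) s ∧ Sub (fun s => sSup (vals C v z₁ m s)) s := by
  obtain ⟨r, r0, ι, _, S, h1, h2, h3⟩ := loc_fin hv h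
  let F : Option ι → ℂ → ℝ := fun o s => o.elim m fun i => Real.log (psi v (S i s))
  have e : ∀ z ∈ ball s r, vals C v z₁ m z = range fun o => F o z := fun z hz => by
    ext t
    constructor
    · rintro (rfl | ⟨y, hy, rfl⟩)
      · exact ⟨none, rfl⟩
      · obtain ⟨i, hi⟩ := h3 z hz y hy.1 hy.2
        exact ⟨some i, congrArg Real.log hi.symm⟩
    · rintro ⟨_ | i, rfl⟩
      · exact Or.inl rfl
      · exact Or.inr ⟨S i z, ⟨h2 i z hz, _, _, h1 i, hz, rfl⟩, rfl⟩
  have k : ∀ z ∈ ball s r, IsGreatest (range fun o => F o z) (sSup (vals C v z₁ m z)) :=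
    fun z hz => by
      rw [e z hz]
      exact ⟨(range_nonempty _).csSup_mem (finite_range _),
        fun _ => le_csSup (finite_range _).bddAbove⟩
  have hs := mem_ball_self (x := s) r0
  refine ⟨by have := k s hs; rwa [← e s hs] at this,
    max_fin (eventually_of_mem (ball_mem_nhds s r0) k) ?_ ?_⟩
  · rintro (_ | i)
    · exact continuousAt_const
    · exact sec_cont h0 (h1 i) hs
  · rintro (_ | i)
    · exact ⟨0, le_rfl, (lap_re (g := fun _ => (m : ℂ)) analyticAt_const).congr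
        (Eventually.of_forall fun _ => rfl)⟩
    · exact psi_sub h0 isOpen_ball (C.diff (h1 i)) (C.maps (h1 i)) hs

lemma vals_grow (hv : ∀ γ ∈ C.Mon z₁, tp κ (zm γ.1) *ᵥ v = v ∨ tp κ (zm γ.1) *ᵥ v = -v)
    (h0 : v ≠ 0) (m : ℝ) {E : ℂ → ℂ} (hE : Differentiable ℂ E) (hB : ∀ w, 0 < w.re → E w ∉ C.B)
    {a : ℂ} {r : ℝ} (hS : ∀ s ∈ sphere a r, s ∉ C.B) (hS' : ∀ w, w.re = 1 → E w ∈ sphere a r) :
    ∃ K N : ℝ, ∀ w, 1 ≤ w.re → sSup (vals C v z₁ m (E w)) ≤ K + N * Real.log w.re := by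
  obtain ⟨K, hK⟩ := ((isCompact_sphere a r).image_of_continuousOn fun s hs =>
    (vals_loc hv h0 m (hS s hs)).2.1.continuousWithinAt).bddAbove
  have l0 := Real.log_natCast_nonneg (Fintype.card (κ → I2 g))
  have l1 : 0 ≤ Real.log 3000 := Real.log_nonneg (by norm_num)
  refine ⟨Real.log (Fintype.card (κ → I2 g)) + Fintype.card κ * Real.log 3000 + K,
    Fintype.card κ * 3, fun w hw => ?_⟩
  have l2 := Real.log_nonneg hw
  have w1 : (w - (w.re - 1 : ℝ)).re = 1 := by simp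
  have k1 := (vals_loc hv h0 m (hS _ (hS' _ w1))).1.2
  have k2 : sSup (vals C v z₁ m (E (w - (w.re - 1 : ℝ)))) ≤ K := hK ⟨_, hS' _ w1, rfl⟩
  obtain e | ⟨z, ⟨a1, a2⟩, e⟩ := (vals_loc hv h0 m (hB w (by linarith))).1.1
  · rw [e]
    have := (k1 (Or.inl rfl)).trans k2
    have : (0 : ℝ) ≤ Fintype.card κ * Real.log 3000 := by positivity
    have : (0 : ℝ) ≤ Fintype.card κ * 3 * Real.log w.re := by positivity
    linarith
  obtain ⟨τ, rfl, hτ⟩ := lift hE (R := w.re - 1 / 2) (by linarith) (fun y hy => hB y (by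
    have := (abs_le.1 ((abs_re_le_norm (y - w)).trans (mem_closedBall_iff_norm.1 hy))).1
    rw [sub_re] at this; linarith)) a2
  have d : dist (w - (w.re - 1 : ℝ)) w = w.re - 1 := by
    rw [dist_eq_norm, sub_sub_cancel_left, norm_neg, norm_real, Real.norm_of_nonneg (by linarith)]
  have hb : w - (w.re - 1 : ℝ) ∈ ball w (w.re - 1 / 2) := by rw [mem_ball, d]; linarith
  have hc : w ∈ ball w (w.re - 1 / 2) := mem_ball_self (by linarith)
  have hH := (hτ _ hb).over.mem.1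
  have p1 := psi_pos h0 hH
  have p2 := psi_pos h0 a2.mem.1
  have b := psi_le (v := v) a2.mem.1 hH (c := 3000 * w.re ^ 3) fun x =>
    (harnack (l := 8 * w.re) (fun y hy => ((hτ y hy).diffAt hE).differentiableWithinAt)
      (fun y hy => (hτ y hy).over.mem.1) hb (by rw [d]; linarith) x).trans
      (mul_le_mul_of_nonneg_right (by
        have := pow_le_pow_left₀ (by linarith) (by linarith : 8 * w.re + 2 ≤ 10 * w.re) 3
        rw [mul_pow] at this; linarith)
        ((Pm_posDef hH).posSemidef.dotProduct_mulVec_nonneg x))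
  have c0 : (Fintype.card (κ → I2 g) : ℝ) ≠ 0 := fun e => by
    rw [e, zero_mul, zero_mul] at b; exact b.not_gt p2
  have b' := Real.log_le_log p2 b
  rw [Real.log_mul (by positivity) p1.ne', Real.log_mul c0 (by positivity), Real.log_pow,
    Real.log_mul (by norm_num) (by positivity), Real.log_pow] at b'
  have := (k1 (Or.inr ⟨_, ⟨a1.trans (Lf.conn hE (convex_ball _ _).isPreconnected hτ hc hb),
    (hτ _ hb).over⟩, rfl⟩)).trans k2
  rw [← e]
  simp only [Nat.cast_ofNat] at b' this ⊢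
  linarith

theorem psi_max (hv : ∀ γ ∈ C.Mon z₁, tp κ (zm γ.1) *ᵥ v = v ∨ tp κ (zm γ.1) *ᵥ v = -v)
    (h0 : v ≠ 0) {s₁ : ℂ} (h1 : Over C z₁ s₁) : ∃ z₀, C.Conn z₁ z₀ ∧
      ∀ z s, C.Conn z₁ z → Over C z s → Real.log (psi v z) ≤ Real.log (psi v z₀) := by
  have loc := fun s => vals_loc (s := s) hv h0 (Real.log (psi v z₁) - 1)
  obtain ⟨s, hs, hmax⟩ := liou (u := fun s => sSup (vals C v z₁ (Real.log (psi v z₁) - 1) s)) C.B
    (fun s hs => (loc s hs).2.1) (fun s hs => (loc s hs).2.2) (fun a ha ε ε0 => by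
      classical
      obtain ⟨r, r0, hr⟩ := Metric.nhds_basis_closedBall.mem_iff.1
        ((C.B.erase a).finite_toSet.isClosed.isOpen_compl.mem_nhds (C.B.notMem_erase a))
      have n : ∀ w : ℂ, ‖a + r * exp (-w) - a‖ = r * Real.exp (-w.re) := fun w => by
        rw [add_sub_cancel_left, norm_mul, norm_exp, norm_real, Real.norm_of_nonneg r0.le, neg_re]
      have nb : ∀ s t, ‖s - a‖ = r * Real.exp (-t) → 0 < t → s ∉ C.B := fun s t e t0 hs => by
        have p := Real.exp_pos (-t)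
        have q := Real.exp_le_one_iff.2 (neg_nonpos.2 t0.le)
        refine hr (mem_closedBall_iff_norm.2 (by nlinarith)) (Finset.mem_erase.2 ⟨fun e' => ?_, hs⟩)
        rw [e', sub_self, norm_zero] at e
        nlinarith
      obtain ⟨K, N, hK⟩ := vals_grow hv h0 (Real.log (psi v z₁) - 1)
        (E := fun w => a + r * exp (-w)) (by fun_prop) (fun w hw => nb _ _ (n w) hw)
        (a := a) (r := r * Real.exp (-1)) (fun s hs => nb s 1 (mem_sphere_iff_norm.1 hs) one_pos)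
        (fun w hw => mem_sphere_iff_norm.2 (hw ▸ n w))
      filter_upwards [(tendsto_neg_log a).eventually (ev_log K N (Real.log r) ε0),
        self_mem_nhdsWithin] with z z1 z2
      have z3 : z - a ≠ 0 := sub_ne_zero.2 z2
      have r1 : (r : ℂ) ≠ 0 := ofReal_ne_zero.2 r0.ne'
      have e : (-log ((z - a) / r)).re = Real.log r + -Real.log ‖z - a‖ := by
        rw [neg_re, log_re, norm_div, Real.log_div (norm_ne_zero_iff.2 z3) (norm_ne_zero_iff.2 r1),
          norm_real, Real.norm_of_nonneg r0.le]; ring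
      have := hK (-log ((z - a) / r)) (e ▸ z1.1)
      rw [e, neg_neg, exp_log (div_ne_zero z3 r1), mul_div_cancel₀ _ r1, add_sub_cancel] at this
      exact this.trans z1.2) (fun ε ε0 => by
      obtain ⟨r, r0, hr⟩ := C.B.finite_toSet.isBounded.exists_pos_norm_le
      have n : ∀ w : ℂ, ‖r * exp w‖ = r * Real.exp w.re := fun w => by
        rw [norm_mul, norm_exp, norm_real, Real.norm_of_nonneg r0.le]
      have nb : ∀ s t, ‖s‖ = r * Real.exp t → 0 < t → s ∉ C.B := fun s t e t0 hs => by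
        nlinarith [hr s hs, Real.one_lt_exp_iff.2 t0]
      obtain ⟨K, N, hK⟩ := vals_grow hv h0 (Real.log (psi v z₁) - 1)
        (E := fun w => r * exp w) (by fun_prop) (fun w hw => nb _ _ (n w) hw)
        (a := 0) (r := r * Real.exp 1) (fun s hs => nb s 1 (mem_sphere_zero_iff_norm.1 hs) one_pos)
        (fun w hw => mem_sphere_zero_iff_norm.2 (hw ▸ n w))
      have t := tendsto_norm_cobounded_atTop (E := ℂ)
      filter_upwards [(Real.tendsto_log_atTop.comp t).eventually (ev_log K N (-Real.log r) ε0),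
        t.eventually_gt_atTop 0] with z z1 z2
      have r1 : (r : ℂ) ≠ 0 := ofReal_ne_zero.2 r0.ne'
      have e : (log (z / r)).re = -Real.log r + Real.log ‖z‖ := by
        rw [log_re, norm_div, Real.log_div z2.ne' (norm_ne_zero_iff.2 r1),
          norm_real, Real.norm_of_nonneg r0.le]; ring
      have := hK (log (z / r)) (e ▸ z1.1)
      rw [e, exp_log (div_ne_zero (norm_pos_iff.1 z2) r1), mul_div_cancel₀ _ r1] at this
      exact this.trans z1.2)
  have k : ∀ z t, C.Conn z₁ z → Over C z t → Real.log (psi v z) ≤ _ := fun z t a b =>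
    ((loc t b.mem.2).1.2 (Or.inr ⟨z, ⟨a, b⟩, rfl⟩)).trans (hmax t b.mem.2)
  obtain e | ⟨z, ⟨a1, -⟩, e⟩ := (loc s hs).1.1
  · have := (k z₁ s₁ .refl h1).trans_eq e
    linarith
  · exact ⟨z, a1, fun y t a b => (k y t a b).trans_eq e.symm⟩

theorem fixed {s₁ : ℂ} (h1 : Over C z₁ s₁)
    (hv : ∀ γ ∈ C.Mon z₁, tp κ (zm γ.1) *ᵥ v = v ∨ tp κ (zm γ.1) *ᵥ v = -v) {z : EE g}
    (h : C.Conn z₁ z) (θ : ℝ) : tp κ (hh z θ) *ᵥ v = tp κ (hh z₁ θ) *ᵥ v := by
  by_cases h0 : v = 0
  · simp [h0]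
  obtain ⟨z₀, a, b⟩ := psi_max hv h0 h1
  have main : ∀ z, C.Conn z₀ z → Real.log (psi v z) = Real.log (psi v z₀) ∧
      tp κ (hh z θ) *ᵥ v = tp κ (hh z₀ θ) *ᵥ v := by
    intro z hz
    induction hz with
    | refl => exact ⟨rfl, rfl⟩
    | tail hz k ih =>
      obtain ⟨σ, c, r, u, u', k1, k2, k3, rfl, rfl⟩ := k
      have l : ∀ y ∈ ball c r, Real.log (psi v (σ y)) = Real.log (psi v z₀) := fun y hy =>
        clopen (convex_ball c r).isPreconnected
          (p := fun y => Real.log (psi v (σ y)) = Real.log (psi v z₀))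
          (fun x hx e => smp (eventually_of_mem (isOpen_ball.mem_nhds hx) fun w hw => by
            obtain ⟨L, l1, l2⟩ := psi_sub h0 isOpen_ball (C.diff k1) (C.maps k1) hw
            exact ⟨sec_cont h0 k1 hw, ⟨_, L, l2, l1, rfl, Eventually.of_forall fun _ => le_rfl⟩,
              b _ w ((a.trans hz).tail ⟨σ, c, r, u, w, k1, k2, hw, rfl, rfl⟩)
                ⟨σ, _, k1, hw, rfl⟩⟩) e)
          (fun x hx e => (sec_cont h0 k1 hx).eventually_ne e) k2 hy ih.1
      have l' := fun y hy => hh_const (C.diff k1) (C.maps k1) (M := Real.exp (Real.log (psi v z₀)))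
        (fun y hy => by rw [← l y hy, Real.exp_log (psi_pos h0 (C.maps k1 hy))]) θ (z := y) hy
      exact ⟨l _ k3, (l' _ k3).trans ((l' _ k2).symm.trans ih.2)⟩
  exact (main z ((conn_symm a).trans h)).2.trans (main z₁ (conn_symm a)).2.symm

end Pool.Agent.MT.GF
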