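import Pool.Agent.Lib.MP_d61fbb_ag.MT.GN2
import Pool.Agent.Lib.MP_d61fbb_ag.MT.GB1
import Pool.Agent.Lib.MP_d61fbb_ag.MT.EG1

/-! The polarised lattice of a point of a given type. -/

set_option autoImplicit false

noncomputable section

namespace Pool.Agent.MT

open Matrix Polynomial Sum NumberField Ideal

theorem gn_gs_int {l : Pr} {u : M8 ℤ_[l]} {q : ℤ_[l]}
    (h : GS (q : ℚ_[l]) (u.map ((↑) : ℤ_[l] → ℚ_[l]))) : GS q u := fun x y => by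
  have e := fun x => _root_.funext (RingHom.map_mulVec PadicInt.Coe.ringHom u x)
  refine Subtype.val_injective ((Ef_map _ _ PadicInt.Coe.ringHom).trans ?_)
  rw [e, e]
  exact (h _ _).trans (congrArg _ (Ef_map x y PadicInt.Coe.ringHom).symm)

theorem stdAt_of_KG {l : Pr} {g : GG} (h : g ∈ KG l) : StdAt l (gm g) :=
  let ⟨u, e⟩ := mem_KG.1 h
  stdAt_of_eq u e

theorem norm_mulG_KG {l : Pr} {g : GG} (h : g ∈ KG l) : ‖cp l (mulG g)‖ = 1 :=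
  norm_mulG (stdAt_of_KG h)

theorem gn_norm_nat {l : Pr} {a b : ℕ} (h : ∀ k, (l : ℕ) ^ k ∣ a ↔ (l : ℕ) ^ k ∣ b) :
    ‖(a : ℚ_[l])‖ = ‖(b : ℚ_[l])‖ := by
  have key : ∀ {a b : ℕ}, (∀ k, (l : ℕ) ^ k ∣ b → (l : ℕ) ^ k ∣ a) → b ≠ 0 →
      ‖(a : ℚ_[l])‖ ≤ ‖(b : ℚ_[l])‖ := fun {a b} h hb => by
    obtain ⟨k, m, hm, rfl⟩ := Nat.exists_eq_pow_mul_and_not_dvd hb l l.2.one_lt.ne'
    obtain ⟨c, rfl⟩ := h k (dvd_mul_right _ _)
    rw [Nat.cast_mul, Nat.cast_mul, norm_mul, norm_mul, Padic.norm_natCast_eq_one_iff.2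
      ((Nat.Prime.coprime_iff_not_dvd l.2).2 hm)]
    exact mul_le_mul_of_nonneg_left (padic_nat_le l c) (norm_nonneg _)
  have z : ∀ {a b : ℕ}, (∀ k, (l : ℕ) ^ k ∣ b → (l : ℕ) ^ k ∣ a) → b = 0 → a = 0 :=
    fun {a b} h hb => Nat.eq_zero_of_dvd_of_lt (h a (hb ▸ dvd_zero _)) (Nat.lt_pow_self l.2.one_lt)
  by_cases ha : a = 0
  · rw [ha, z (fun k => (h k).1) ha]
  · exact le_antisymm (key (fun k => (h k).2) fun e => ha (z (fun k => (h k).2) e))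
      (key (fun k => (h k).1) ha)

variable {τ : Matrix (Fin 4) (Fin 4) ℂ} {K : IntermediateField ℚ ℂ} {M : MumfordType τ K}
  {A : AR M} {v : Frb A} {P : ℤ[X]} {E : Type} [Field E] [NumberField E] {d : DF P v.p E}
  {H : FrD v.p (M.ρ v.φ) P} {f : ℕ} {l₀ : Pr} {D : Loc E f l₀ (ℂ ≃ₐ[K] ℂ) GG}

theorem norm_mulG_nuG (d : DF P v.p E) (H : FrD v.p (M.ρ v.φ) P) {a : 𝓞 E} (ha : a ≠ 0) {l : Pr}
    (hl : l ≠ v.p) : ‖cp l (mulG (nuG d H a))‖ = ‖(absNorm (span {a}) : ℚ_[l])‖ := by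
  rw [mulG_nuG d H ha, cp_off_ne hl, AlgHom.commutes, ← Algebra.coe_norm_int, map_intCast,
    absNorm_span_singleton, Nat.cast_natAbs]
  rcases abs_choice (Algebra.norm ℤ a) with e | e <;> rw [e]
  rw [Int.cast_neg, norm_neg]

/-- the local embedding at a good prime -/
theorem exists_j_nuG (d : DF P v.p E) (H : FrD v.p (M.ρ v.φ) P) {l : Pr} (h1 : l ∉ M.S)
    (h2 : l ≠ v.p) (h3 : ¬ (l : ℕ) ∣ d.den) : ∃ j : 𝓞 E →+* M2 (AdjoinRoot (M.D l).c),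
      (∀ a, a ≠ 0 → cpG l (nuG d H a) = upM l ((M.D l).Nm (j a))) ∧
      (∀ a, Algebra.norm ℤ_[l] (j a).det = (Algebra.norm ℤ a : ℤ)) ∧
      ∀ a, j (a * d.cO a) = (j a).det • 1 := by
  obtain ⟨c, g, e⟩ := M.sub v.φ l h1
  obtain ⟨j, k1, k2⟩ := (M.D l).loc d h3 g.isUnit e (H.ch l h2) (gn_gs_int (H.sim l h2))
  exact ⟨j, fun a ha => (cpG_nuG d H ha h2).trans (k1 a).symm, k2⟩

theorem LocSpec.dvd (hD : LocSpec v d H D) : 2 ∣ f ∧ (v.p : ℕ) ∣ f :=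
  ⟨by_contra fun h => absurd (hD.bad p2 h).2.2.1 (by decide),
    by_contra fun h => (hD.bad v.p h).2.1 rfl⟩

theorem gn_pt (hD : LocSpec v d H D) {I : Ideal (𝓞 E)} {g : GG}
    (hI : (absNorm I).Coprime f) (hg : D.In I g) :
    Pt (absNorm I) (sc (absNorm I) g) ∧ StdAt v.p (sc (absNorm I) g) ∧
      ∀ t ∈ L0, gm g *ᵥ t ∈ L0 := by
  have h1 : ∀ l : Pr, (l : ℕ) ∣ f → g ∈ KG l ∧ ‖(absNorm I : ℚ_[l])‖ = 1 := fun l hl =>
    ⟨hD.K ▸ (hg l l.2).1 hl, Padic.norm_natCast_eq_one_iff.2 (hI.symm.coprime_dvd_left hl)⟩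
  have h2 : ∀ l : Pr, ‖cp l (mulG g)‖ = ‖(absNorm I : ℚ_[l])‖ ∧ ∃ u, cpG l g = upM l u :=
    fun l => by
      by_cases hl : (l : ℕ) ∣ f
      · obtain ⟨a, b⟩ := h1 l hl
        exact ⟨(norm_mulG_KG a).trans b.symm, (mem_KG.1 a).elim fun u e => ⟨u, e⟩⟩
      obtain ⟨a, ha, h, hh, hk⟩ := (hg l l.2).2 hl
      rw [hD.N] at hh
      rw [hD.K, hD.ν] at hk
      obtain ⟨b1, b2, -, b3⟩ := hD.bad l hl
      obtain ⟨j, hj, -⟩ := exists_j_nuG d H b1 b2 b3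
      obtain ⟨u, hu⟩ := mem_KG.1 (NmG_le _ l hh)
      obtain ⟨w, hw⟩ := mem_KG.1 hk
      rw [← mul_inv_cancel_left (h * nuG d H a) g]
      refine ⟨?_, u * (M.D l).Nm (j a) * w, by
        rw [map_mul, map_mul, hu, hw, hj a ha.1, map_mul, map_mul]⟩
      rw [map_mul, map_mul, Units.val_mul, Units.val_mul, map_mul, map_mul, norm_mul, norm_mul,
        norm_mulG_KG hk, norm_mulG_KG (NmG_le _ l hh), one_mul, mul_one,
        norm_mulG_nuG d H ha.1 b2, gn_norm_nat (ha.norm l.2)]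
  refine ⟨pt_inv_iff.2 ⟨Nat.coprime_two_right.1 (hI.coprime_dvd_right hD.dvd.1),
    stdAt_of_KG (h1 p2 hD.dvd.1).1, fun l => (h2 l).1⟩,
    (stdAt_of_KG (h1 _ hD.dvd.2).1).smul ?_, fun t ht => mem_L0.2 fun i l => ?_⟩
  · rw [Rat.cast_inv, Rat.cast_natCast, norm_inv, (h1 _ hD.dvd.2).2, inv_one]
  · obtain ⟨u, hu⟩ := (h2 l).2
    have := gn_int_mulVec u (x := cpv l t) (fun i => mem_L0.1 ht i l) i
    rwa [show u.map ((↑) : ℤ_[l] → ℚ_[l]) = (gm g).map (cp l) from hu.symm, ← gn_cpv] at this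

end Pool.Agent.MT
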