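import Mathlib

/-! Primes that split completely; two by two matrices over the `l`-adic integers. -/

set_option autoImplicit false

open Polynomial Matrix

namespace Pool.Agent.MT

theorem go_schur (G : ℤ[X]) (hG : 0 < G.natDegree) (h0 : G.coeff 0 ≠ 0) (B : ℕ) (hB : B ≠ 0) :
    ∃ (l : ℕ) (n : ℤ), l.Prime ∧ ¬ l ∣ B ∧ (l : ℤ) ∣ G.eval n := by
  set c := G.coeff 0 with hc
  have hne : ∀ d : ℤ, G - C d ≠ 0 := fun d h => by
    rw [sub_eq_zero.1 h, natDegree_C] at hG; exact lt_irrefl _ hG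
  have hinj : Function.Injective fun k : ℕ => c * B * (k : ℤ) := fun a b h => by
    simpa [h0, hB] using h
  obtain ⟨k, hk⟩ : ∃ k : ℕ, ¬ ((G - C c) * (G - C (-c))).IsRoot (c * B * k) := by
    by_contra h
    push Not at h
    exact mul_ne_zero (hne c) (hne (-c))
      (eq_zero_of_infinite_isRoot _ (Set.infinite_of_injective_forall_mem hinj h))
  obtain ⟨y, hy⟩ : ∃ y, G.eval (c * B * k) = c * (1 + B * y) := by
    refine ⟨k * G.divX.eval (c * B * k), ?_⟩
    conv_lhs => rw [← G.X_mul_divX_add]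
    simp only [eval_add, eval_mul, eval_X, eval_C, ← hc]; ring
  have h1 : (1 + B * y).natAbs ≠ 1 := fun h => by
    apply hk
    rcases Int.natAbs_eq_iff.1 h with h | h <;> simp [IsRoot, hy, h]
  obtain ⟨l, hl, hd⟩ := Nat.exists_prime_and_dvd h1
  rw [← Int.natCast_dvd] at hd
  refine ⟨l, _, hl, fun h => ?_, hy ▸ hd.mul_left c⟩
  have : (l : ℤ) ∣ 1 := (dvd_add_left ((Int.natCast_dvd_natCast.2 h).mul_right y)).1 hd
  exact hl.not_dvd_one (by exact_mod_cast this)

/-- Every number field embeds in `ℚ_l` for infinitely many `l`. -/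
theorem exists_emb (L : Type*) [Field L] [NumberField L] (B : ℕ) (hB : B ≠ 0) :
    ∃ (l : ℕ) (_ : Fact l.Prime), ¬ l ∣ B ∧ Nonempty (L →+* ℚ_[l]) := by
  let pb := Field.powerBasisOfFiniteOfSeparable ℚ L
  by_cases hz : pb.gen = 0
  · obtain ⟨l, hlB, hl⟩ := Nat.exists_infinite_primes (B + 1)
    have : Fact l.Prime := ⟨hl⟩
    refine ⟨l, this, fun h => absurd (Nat.le_of_dvd (Nat.pos_of_ne_zero hB) h) (by omega),
      ⟨(pb.lift 0 (by rw [hz, minpoly.zero]; simp)).toRingHom⟩⟩
  obtain ⟨d, hd, hi⟩ := ((IsFractionRing.isAlgebraic_iff ℤ ℚ L).2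
    (Algebra.IsAlgebraic.isAlgebraic pb.gen)).exists_integral_multiple
  set G := minpoly ℤ (d • pb.gen) with hG
  have hx : d • pb.gen ≠ 0 := smul_ne_zero hd hz
  have hm : minpoly ℚ (d • pb.gen) = G.map (algebraMap ℤ ℚ) :=
    minpoly.isIntegrallyClosed_eq_field_fractions' ℚ hi
  have h0 : G.coeff 0 ≠ 0 := fun h => by
    have := minpoly.coeff_zero_ne_zero (hi.tower_top (A := ℚ)) hx
    rw [hm, coeff_map, h, map_zero] at this
    exact this rfl
  have hs : (G.map (algebraMap ℤ ℚ)).Separable := hm ▸ Algebra.IsSeparable.isSeparable ℚ _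
  obtain ⟨a, b, hab⟩ := hs
  obtain ⟨r, hr, ha⟩ := IsLocalization.integerNormalization_spec (nonZeroDivisors ℤ) a
  obtain ⟨r', hr', hb⟩ := IsLocalization.integerNormalization_spec (nonZeroDivisors ℤ) b
  set a' := IsLocalization.integerNormalization (nonZeroDivisors ℤ) a
  set b' := IsLocalization.integerNormalization (nonZeroDivisors ℤ) b
  have hrr : r * r' ≠ 0 := mul_ne_zero (nonZeroDivisors.ne_zero hr) (nonZeroDivisors.ne_zero hr')
  have hbz : C r' * a' * G + C r * b' * derivative G = C (r * r') := by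
    apply map_injective (algebraMap ℤ ℚ) (algebraMap ℤ ℚ).injective_int
    rw [derivative_map] at hab
    simp only [Polynomial.map_add, Polynomial.map_mul, ha, hb, zsmul_eq_mul, map_mul,
      eq_intCast, Polynomial.map_intCast]
    linear_combination ((r : ℚ[X]) * r') * hab
  obtain ⟨l, n, hl, hlB, hn⟩ := go_schur G (minpoly.natDegree_pos hi) h0 (B * (r * r').natAbs)
    (mul_ne_zero hB (Int.natAbs_ne_zero.2 hrr))
  have : Fact l.Prime := ⟨hl⟩
  have h1 : ¬ (l : ℤ) ∣ (derivative G).eval n := fun h => by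
    have e := congrArg (eval n) hbz
    simp only [eval_add, eval_mul, eval_C] at e
    exact hlB ((Int.natCast_dvd.1 (e ▸ dvd_add (hn.mul_left _) (h.mul_left _))).mul_left B)
  have ev : ∀ Q : ℤ[X], aeval (n : ℤ_[l]) Q = (Q.eval n : ℤ) := fun Q => by
    rw [← eq_intCast (algebraMap ℤ ℤ_[l]) n, aeval_algebraMap_apply, coe_aeval_eq_eval,
      eq_intCast]
  obtain ⟨z, hz1, -⟩ := hensels_lemma (F := G) (a := (n : ℤ_[l])) (by
    rw [ev, ev, le_antisymm (PadicInt.norm_le_one _)
      (not_lt.1 fun h => h1 (PadicInt.norm_int_lt_one_iff_dvd _ |>.1 h)), one_pow]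
    exact (PadicInt.norm_int_lt_one_iff_dvd _).2 hn)
  refine ⟨l, this, fun h => hlB (h.mul_right _), ⟨(pb.lift ((d : ℚ_[l])⁻¹ * z) ?_).toRingHom⟩⟩
  have hd' : (d : ℚ_[l]) ≠ 0 := Int.cast_ne_zero.2 hd
  have hdv : minpoly ℚ pb.gen ∣ (G.map (algebraMap ℤ ℚ)).comp (C (d : ℚ) * X) :=
    minpoly.dvd ℚ _ (by
      rw [aeval_comp, ← hm]
      simp)
  have hdg : ((G.map (algebraMap ℤ ℚ)).comp (C (d : ℚ) * X)).natDegree ≤
      (minpoly ℚ pb.gen).natDegree := by
    rw [natDegree_comp, natDegree_C_mul_X _ (Int.cast_ne_zero.2 hd), mul_one, ← hm,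
      pb.natDegree_minpoly, ← pb.finrank]
    exact minpoly.natDegree_le _
  have hG0 : (G.map (algebraMap ℤ ℚ)).comp (C (d : ℚ) * X) ≠ 0 := by
    intro h
    have := congrArg (eval 0) h
    simp only [eval_comp, eval_mul, eval_X, mul_zero, eval_zero, ← coeff_zero_eq_eval_zero,
      coeff_map, eq_intCast, Int.cast_eq_zero] at this
    exact h0 this
  obtain ⟨u, hu⟩ := associated_of_dvd_of_natDegree_le hdv hG0 hdg
  have e : aeval ((d : ℚ_[l])⁻¹ * z) ((G.map (algebraMap ℤ ℚ)).comp (C (d : ℚ) * X)) = 0 := by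
    rw [aeval_comp, aeval_map_algebraMap]
    simp only [map_mul, aeval_C, aeval_X, eq_ratCast, Rat.cast_intCast, mul_inv_cancel_left₀ hd']
    rw [show (z : ℚ_[l]) = algebraMap ℤ_[l] ℚ_[l] z from rfl, aeval_algebraMap_apply, hz1, map_zero]
  rw [← hu, map_mul] at e
  exact (mul_eq_zero.1 e).resolve_right (u.isUnit.map _).ne_zero

/-- A nonzero algebraic integer divides a nonzero integer. -/
theorem go_dvd_nat {L : Type*} [Field L] [NumberField L] {x : NumberField.RingOfIntegers L}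
    (hx : x ≠ 0) : ∃ n : ℕ, n ≠ 0 ∧ x ∣ n :=
  ⟨Ideal.absNorm (Ideal.span {x}), by simpa [Ideal.absNorm_eq_zero_iff] using hx,
    Ideal.mem_span_singleton.1 (Ideal.absNorm_mem _)⟩

/-- the roots of `Q` are `l`-adic integers that are distinct modulo `l` -/
def Spl (Q : ℤ[X]) (l : ℕ) [Fact l.Prime] : Prop :=
  ∃ T : Finset ℤ_[l], (∀ y : PadicAlgCl l, aeval y Q = 0 → ∃ r ∈ T, y = algebraMap _ _ r) ∧
    ∀ r ∈ T, ∀ r' ∈ T, r ≠ r' → IsUnit (r - r')

theorem exists_spl (Q : ℤ[X]) (hQ : Q.Monic) (B : ℕ) (hB : B ≠ 0) :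
    ∃ (l : ℕ) (_ : Fact l.Prime), ¬ l ∣ B ∧ Spl Q l := by
  classical
  let L := (Q.map (algebraMap ℤ ℚ)).SplittingField
  have : CharZero L := algebraRat.charZero L
  have : NumberField L := ⟨⟩
  let O := NumberField.RingOfIntegers L
  have hsp : (Q.map (algebraMap ℤ L)).Splits := by
    have := SplittingField.splits (Q.map (algebraMap ℤ ℚ))
    rw [Polynomial.map_map] at this
    exact RingHom.ext_int _ (algebraMap ℤ L) ▸ this
  let S : Finset O := (Q.map (algebraMap ℤ O)).roots.toFinset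
  obtain ⟨n, hn, hd⟩ := go_dvd_nat (x := ∏ q ∈ S.offDiag, (q.1 - q.2))
    (Finset.prod_ne_zero_iff.2 fun q hq => sub_ne_zero.2 (Finset.mem_offDiag.1 hq).2.2)
  obtain ⟨l, hl, hlB, ⟨ι⟩⟩ := exists_emb L (B * n) (mul_ne_zero hB hn)
  have hi : ∀ x : O, ∃ r : ℤ_[l], algebraMap ℤ_[l] ℚ_[l] r = ι x := fun x =>
    IsIntegrallyClosed.isIntegral_iff.1
      ((x.isIntegral_coe.map (ι.toIntAlgHom)).tower_top (A := ℤ_[l]))
  choose κ hκ using hi
  have inj := IsFractionRing.injective ℤ_[l] ℚ_[l]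
  let κ' : O →+* ℤ_[l] :=
    { toFun := κ
      map_one' := inj (by simp [hκ])
      map_mul' := fun a b => inj (by simp only [hκ, map_mul])
      map_zero' := inj (by simp [hκ])
      map_add' := fun a b => inj (by simp only [hκ, map_add]) }
  refine ⟨l, hl, fun h => hlB (h.mul_right _), S.image κ', fun y hy => ?_, ?_⟩
  · let j : L →+* PadicAlgCl l := (algebraMap ℚ_[l] _).comp ι
    have hm := hQ.map (algebraMap ℤ L)
    have e : eval₂ j y (Q.map (algebraMap ℤ L)) = 0 := by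
      rwa [eval₂_map, RingHom.ext_int (j.comp _) (algebraMap ℤ _)]
    rw [hsp.eq_prod_roots_of_monic hm, eval₂_multiset_prod, Multiset.map_map,
      Multiset.prod_eq_zero_iff, Multiset.mem_map] at e
    obtain ⟨x, hx, e⟩ := e
    have hx0 : aeval x Q = 0 := by
      rwa [mem_roots hm.ne_zero, IsRoot, eval_map_algebraMap] at hx
    let x' : O := ⟨x, Q, hQ, hx0⟩
    refine ⟨κ' x', Finset.mem_image_of_mem _ ?_, ?_⟩
    · rw [Multiset.mem_toFinset, mem_roots (hQ.map _).ne_zero, IsRoot, eval_map_algebraMap]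
      apply NumberField.RingOfIntegers.coe_injective
      rw [← aeval_algebraMap_apply, map_zero]
      exact hx0
    · simp only [Function.comp_apply, eval₂_sub, eval₂_X, eval₂_C, sub_eq_zero] at e
      rw [e, IsScalarTower.algebraMap_apply ℤ_[l] ℚ_[l]]
      exact congrArg (algebraMap ℚ_[l] (PadicAlgCl l)) (hκ x').symm
  · simp only [Finset.mem_image]
    rintro _ ⟨x, hx, rfl⟩ _ ⟨y, hy, rfl⟩ hxy
    have h1 : x - y ∣ n := (Finset.dvd_prod_of_mem (fun q : O × O => q.1 - q.2) (a := (x, y))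
      (Finset.mem_offDiag.2 ⟨hx, hy, fun h => hxy (congrArg κ' h)⟩)).trans hd
    have h2 := map_dvd κ' h1
    rw [map_sub, map_natCast] at h2
    refine isUnit_of_dvd_unit h2 (PadicInt.isUnit_iff.2 ?_)
    exact PadicInt.norm_natCast_eq_one_iff.2
      ((Nat.Prime.coprime_iff_not_dvd hl.out).2 fun h => hlB (h.mul_left _))

section two
variable {R : Type*} [CommRing R]

/-- diagonalisation over a local ring -/
theorem go_eig [IsLocalRing R] (g : Matrix (Fin 2) (Fin 2) R) {a b : R} (ht : g.trace = a + b)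
    (hd : g.det = a * b) (h : IsUnit (a - b)) :
    ∃ k : Matrix (Fin 2) (Fin 2) R, IsUnit k.det ∧ g * k = k * diagonal ![a, b] := by
  rw [trace_fin_two] at ht
  rw [det_fin_two] at hd
  have hs : IsUnit ((g 0 0 - b) + (g 1 1 - b)) := by
    convert h using 1; linear_combination ht
  rcases IsLocalRing.isUnit_or_isUnit_of_isUnit_add hs with hx | hx
  · refine ⟨!![g 0 0 - b, g 0 1; g 1 0, -(g 0 0 - b)], ?_, ?_⟩
    · convert (hx.mul h).neg using 1
      rw [det_fin_two_of]; linear_combination hd - (g 0 0) * ht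
    · ext i j; fin_cases i <;> fin_cases j <;> simp [mul_apply, Fin.sum_univ_two]
      · linear_combination (g 0 0) * ht - hd
      · ring
      · linear_combination (g 1 0) * ht
      · linear_combination b * ht - hd
  · refine ⟨!![g 0 1, -(g 1 1 - b); g 1 1 - b, g 1 0], ?_, ?_⟩
    · convert hx.mul h using 1
      rw [det_fin_two_of]; linear_combination (g 1 1) * ht - hd
    · ext i j; fin_cases i <;> fin_cases j <;> simp [mul_apply, Fin.sum_univ_two]
      · linear_combination (g 0 1) * ht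
      · linear_combination b * ht - hd
      · linear_combination (g 1 1) * ht - hd
      · ring

/-- the normal form over a valuation ring -/
theorem go_smith [IsDomain R] [ValuationRing R] (m : Matrix (Fin 2) (Fin 2) R) :
    ∃ (k k' : Matrix (Fin 2) (Fin 2) R) (x y : R), IsUnit k.det ∧ IsUnit k'.det ∧
      m = k * diagonal ![x, y] * k' := by
  let Q : Matrix (Fin 2) (Fin 2) R → Prop := fun m => ∃ (k k' : Matrix (Fin 2) (Fin 2) R) (x y : R),
    IsUnit k.det ∧ IsUnit k'.det ∧ m = k * diagonal ![x, y] * k'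
  have base : ∀ a b c d : R, a ∣ b → a ∣ c → Q !![a, b; c, d] := by
    rintro a _ _ d ⟨b, rfl⟩ ⟨c, rfl⟩
    refine ⟨!![1, 0; c, 1], !![1, b; 0, 1], a, d - a * b * c, by simp, by simp, ?_⟩
    ext i j; fin_cases i <;> fin_cases j <;> simp [mul_apply, Fin.sum_univ_two, vecMul_diagonal] <;> ring
  have row : ∀ a b c d : R, Q !![c, d; a, b] → Q !![a, b; c, d] := by
    rintro a b c d ⟨k, k', x, y, h, h', e⟩
    refine ⟨!![0, 1; 1, 0] * k, k', x, y, by rw [det_mul]; simpa using h, h', ?_⟩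
    rw [mul_assoc, mul_assoc, ← mul_assoc k, ← e]; simp
  have col : ∀ a b c d : R, Q !![b, a; d, c] → Q !![a, b; c, d] := by
    rintro a b c d ⟨k, k', x, y, h, h', e⟩
    refine ⟨k, k' * !![0, 1; 1, 0], x, y, h, by rw [det_mul]; simpa using h', ?_⟩
    rw [← mul_assoc, ← e]; simp
  rw [eta_fin_two m]
  generalize m 0 0 = a, m 0 1 = b, m 1 0 = c, m 1 1 = d
  rcases ValuationRing.dvd_total a b with h1 | h1 <;> rcases ValuationRing.dvd_total a c with h2 | h2
  · exact base _ _ _ _ h1 h2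
  · rcases ValuationRing.dvd_total c d with h3 | h3
    · exact row _ _ _ _ (base _ _ _ _ h3 h2)
    · exact row _ _ _ _ (col _ _ _ _ (base _ _ _ _ h3 ((h3.trans h2).trans h1)))
  · rcases ValuationRing.dvd_total b d with h3 | h3
    · exact col _ _ _ _ (base _ _ _ _ h1 h3)
    · exact row _ _ _ _ (col _ _ _ _ (base _ _ _ _ ((h3.trans h1).trans h2) h3))
  · rcases ValuationRing.dvd_total b d with h3 | h3
    · exact col _ _ _ _ (base _ _ _ _ h1 h3)
    · rcases ValuationRing.dvd_total c d with h4 | h4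
      · exact row _ _ _ _ (base _ _ _ _ h4 h2)
      · exact row _ _ _ _ (col _ _ _ _ (base _ _ _ _ h4 h3))

end two

end Pool.Agent.MT
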