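import Pool.Agent.Lib.MP_d61fbb_ag.MT.GR0

/-! The lemma of Hermite. -/

noncomputable section

namespace Pool.Agent.MT

open Matrix Complex

variable {g : ℕ} {Y : Matrix (Fin g) (Fin g) ℝ} {c : ℝ}

lemma cg_mul (U V : Matrix (Fin g) (Fin g) ℤ) : cg (U * V) Y = cg V (cg U Y) := by
  have : (U * V).map ((↑) : ℤ → ℝ) = U.map (↑) * V.map (↑) := Matrix.map_mul (f := Int.castRingHom ℝ)
  simp only [cg, this, transpose_mul, Matrix.mul_assoc]

lemma cg_quad (U : Matrix (Fin g) (Fin g) ℤ) (y z : Fin g → ℝ) :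
    y ⬝ᵥ cg U Y *ᵥ z = (U.map (↑) *ᵥ y) ⬝ᵥ Y *ᵥ (U.map (↑) *ᵥ z) := by
  rw [cg, ← mulVec_mulVec, ← mulVec_mulVec, dotProduct_mulVec y, vecMul_transpose]

lemma cg_symm (U : Matrix (Fin g) (Fin g) ℤ) (h : Yᵀ = Y) : (cg U Y)ᵀ = cg U Y := by
  simp only [cg, transpose_mul, transpose_transpose, h, Matrix.mul_assoc]

lemma cg_det {U : Matrix (Fin g) (Fin g) ℤ} (h : IsUnit U.det) : (cg U Y).det = Y.det := by
  have : (U.map ((↑) : ℤ → ℝ)).det = (U.det : ℤ) := ((Int.castRingHom ℝ).map_det U).symm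
  rw [cg, det_mul, det_mul, det_transpose, this]
  rcases Int.isUnit_iff.1 h with e | e <;> simp [e]

lemma Lo.cg (h : Lo 0 Y) (U : Matrix (Fin g) (Fin g) ℤ) : Lo 0 (cg U Y) := fun y => by
  simpa [cg_quad] using h (U.map (↑) *ᵥ y)

lemma diag_eq (Y : Matrix (Fin g) (Fin g) ℝ) (i j : Fin g) :
    Y i j = Pi.single i 1 ⬝ᵥ Y *ᵥ Pi.single j 1 := by simp

/-- a block triangular matrix -/
def blk (k : Fin g → ℤ) (U : Matrix (Fin g) (Fin g) ℤ) : Matrix (Fin (g + 1)) (Fin (g + 1)) ℤ :=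
  of (vecCons (vecCons 1 k) fun i => vecCons 0 (U i))

lemma blk_det (k : Fin g → ℤ) (U : Matrix (Fin g) (Fin g) ℤ) : (blk k U).det = U.det := by
  rw [det_succ_column_zero, Fin.sum_univ_succ]
  simp [blk]
  rfl

lemma blk_mulVec (k : Fin g → ℤ) (U : Matrix (Fin g) (Fin g) ℤ) (a : ℝ) (y : Fin g → ℝ) :
    (blk k U).map (↑) *ᵥ vecCons a y =
      vecCons (a + (fun i => (k i : ℝ)) ⬝ᵥ y) (U.map (↑) *ᵥ y) := by
  funext i
  refine Fin.cases ?_ (fun i => ?_) i <;> simp [blk, mulVec, dotProduct, Fin.sum_univ_succ]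

/-- the complement of Schur -/
def schur (Z : Matrix (Fin (g + 1)) (Fin (g + 1)) ℝ) : Matrix (Fin g) (Fin g) ℝ :=
  of fun i j => Z i.succ j.succ - Z 0 i.succ * Z 0 j.succ / Z 0 0

lemma schur_quad {Z : Matrix (Fin (g + 1)) (Fin (g + 1)) ℝ} (h : Zᵀ = Z) (h0 : Z 0 0 ≠ 0) (a : ℝ)
    (y : Fin g → ℝ) : vecCons a y ⬝ᵥ Z *ᵥ vecCons a y =
      Z 0 0 * (a + (fun i => Z 0 i.succ) ⬝ᵥ y / Z 0 0) ^ 2 + y ⬝ᵥ schur Z *ᵥ y := by
  have e : ∀ i, Z i 0 = Z 0 i := fun i => congrFun (congrFun h 0) i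
  have e1 : y ⬝ᵥ schur Z *ᵥ y = ∑ i, y i * ∑ j, Z i.succ j.succ * y j -
      (∑ i, Z 0 i.succ * y i) * (∑ i, Z 0 i.succ * y i) / Z 0 0 := by
    rw [Finset.sum_mul_sum]
    simp only [dotProduct, mulVec, schur, of_apply, Finset.mul_sum,
      Finset.sum_div, ← Finset.sum_sub_distrib]
    exact Finset.sum_congr rfl fun _ _ => Finset.sum_congr rfl fun _ _ => by ring
  have e2 : ∑ i : Fin g, y i * (Z 0 i.succ * a) = a * ∑ i, Z 0 i.succ * y i := by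
    rw [Finset.mul_sum]; exact Finset.sum_congr rfl fun _ _ => by ring
  rw [e1]
  simp only [dotProduct, mulVec, Fin.sum_univ_succ, cons_val_zero, cons_val_succ, e, mul_add,
    Finset.sum_add_distrib, e2]
  field_simp
  ring

theorem hermite (g : ℕ) : ∃ c : ℝ, 0 < c ∧ ∀ (Y : Matrix (Fin g) (Fin g) ℝ) (m : ℝ), Yᵀ = Y →
    Lo 0 Y → 0 < m → (∀ U : Matrix (Fin g) (Fin g) ℤ, IsUnit U.det → ∀ i, m ≤ cg U Y i i) →
    ∃ U : Matrix (Fin g) (Fin g) ℤ, IsUnit U.det ∧ Lo (c * m) (cg U Y) := by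
  induction g with
  | zero => exact ⟨1, one_pos, fun Y m _ _ _ _ => ⟨1, by simp, fun y => by simp [dotProduct]⟩⟩
  | succ g ih =>
  obtain ⟨c, hc, ih⟩ := ih
  refine ⟨min (1 / 2) (c / (2 + g)), by positivity, fun Y m hY h0 hm H => ?_⟩
  let S : Set ℝ := {t | ∃ U : Matrix _ _ ℤ, IsUnit U.det ∧ ∃ i, cg U Y i i = t}
  have hS : S.Nonempty := ⟨_, 1, by simp, 0, rfl⟩
  have hb : m ∈ lowerBounds S := by rintro _ ⟨U, hU, i, rfl⟩; exact H U hU i
  have h1 : m ≤ sInf S := le_csInf hS hb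
  obtain ⟨_, ⟨U, hU, i, rfl⟩, h2⟩ := exists_lt_of_csInf_lt hS (show sInf S < 2 * sInf S by linarith)
  let U₀ := U.submatrix id (Equiv.swap 0 i)
  have hU₀ : IsUnit U₀.det := by
    rw [det_permute']; exact ((Units.isUnit _).map (Int.castRingHom ℤ)).mul hU
  have h3 : cg U₀ Y 0 0 = cg U Y i i := by simp [U₀, cg, mul_apply]
  have h4 : ∀ V : Matrix _ _ ℤ, IsUnit V.det → ∀ j, sInf S ≤ cg V (cg U₀ Y) j j := fun V hV j =>
    csInf_le ⟨m, hb⟩ ⟨U₀ * V, by rw [det_mul]; exact hU₀.mul hV, j, by rw [cg_mul]⟩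
  rw [← h3] at h2
  have hZ := cg_symm U₀ hY
  have hZ0 := h0.cg U₀
  suffices ∃ V : Matrix _ _ ℤ, IsUnit V.det ∧
      Lo (min (1 / 2) (c / (2 + g)) * m) (cg V (cg U₀ Y)) from
    let ⟨V, hV, h⟩ := this
    ⟨U₀ * V, by rw [det_mul]; exact hU₀.mul hV, by rwa [cg_mul]⟩
  generalize cg U₀ Y = Z at *
  generalize sInf S = μ at *
  have h5 : μ ≤ Z 0 0 := by simpa [cg] using h4 1 (by simp) 0
  have h6 : 0 < Z 0 0 := by linarith
  have key : ∀ V : Matrix (Fin g) (Fin g) ℤ, ∃ (k : Fin g → ℤ) (r : Fin g → ℝ),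
      (∀ j, |r j| ≤ 1 / 2) ∧ ∀ a y, vecCons a y ⬝ᵥ cg (blk k V) Z *ᵥ vecCons a y =
        Z 0 0 * (a + r ⬝ᵥ y) ^ 2 + y ⬝ᵥ cg V (schur Z) *ᵥ y := fun V => by
    let β : Fin g → ℝ := (Z 0 0)⁻¹ • ((fun i => Z 0 i.succ) ᵥ* V.map (↑))
    refine ⟨fun j => -round (β j), fun j => β j - round (β j), fun j => abs_sub_round _,
      fun a y => ?_⟩
    rw [cg_quad, cg_quad, blk_mulVec, schur_quad hZ h6.ne', dotProduct_mulVec _ (V.map _) y]
    congr 3
    have : β ⬝ᵥ y = ((fun i => Z 0 i.succ) ᵥ* V.map (↑)) ⬝ᵥ y / Z 0 0 := by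
      rw [smul_dotProduct, smul_eq_mul, inv_mul_eq_div]
    rw [← this, add_assoc]
    simp [dotProduct, add_comm, sub_eq_add_neg, add_mul, Finset.sum_add_distrib]
  obtain ⟨V, hV, h7⟩ := ih (schur Z) (μ / 2) (by
      ext i j
      simp [schur, mul_comm, show Z j.succ i.succ = Z i.succ j.succ from congrFun (congrFun hZ _) _])
    (fun y => by
      simpa [schur_quad hZ h6.ne'] using hZ0 (vecCons (-((fun i => Z 0 i.succ) ⬝ᵥ y / Z 0 0)) y))
    (by linarith) fun V hV j => by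
      obtain ⟨k, r, hr, e⟩ := key V
      have h8 := h4 (blk k V) (by rwa [blk_det]) j.succ
      have h9 : (Pi.single j.succ 1 : Fin (g + 1) → ℝ) = vecCons 0 (Pi.single j 1) := by
        funext i
        refine Fin.cases ?_ (fun i => ?_) i <;> simp [Pi.single_apply]
      rw [diag_eq (cg _ Z), h9, e, ← diag_eq, dotProduct_single_one, zero_add] at h8
      have : r j ^ 2 ≤ 1 / 4 := by have := abs_le.1 (hr j); nlinarith
      nlinarith
  obtain ⟨k, r, hr, e⟩ := key V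
  refine ⟨blk k V, by rwa [blk_det], fun y => ?_⟩
  rw [← cons_head_tail y, e, cons_dotProduct_cons]
  generalize vecHead y = a
  generalize vecTail y = y
  have h8 := h7 y
  have h9 : (r ⬝ᵥ y) ^ 2 ≤ g / 4 * (y ⬝ᵥ y) := by
    refine (Finset.sum_mul_sq_le_sq_mul_sq _ r y).trans (mul_le_mul ?_ ?_ (by positivity)
      (by positivity))
    · simpa [div_eq_mul_inv] using Finset.sum_le_card_nsmul Finset.univ (fun i => r i ^ 2) (1 / 4)
        fun j _ => by have := abs_le.1 (hr j); nlinarith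
    · simp [dotProduct, sq]
  have hn : 0 ≤ y ⬝ᵥ y := Finset.sum_nonneg fun _ _ => mul_self_nonneg _
  have hd : min (1 / 2) (c / (2 + g)) * (2 + g) ≤ c :=
    (le_div_iff₀ (by positivity)).1 (min_le_right _ _)
  have hd' := min_le_left (1 / 2) (c / (2 + g))
  have hd0 : 0 < min (1 / 2) (c / (2 + g)) := by positivity
  generalize min (1 / 2) (c / (2 + g)) = d at *
  generalize r ⬝ᵥ y = s at *
  generalize y ⬝ᵥ y = n at *
  have h10 : a * a + n ≤ 2 * (a + s) ^ 2 + (2 + g) / 2 * n := by nlinarith [sq_nonneg (a + 2 * s)]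
  calc d * m * (a * a + n) ≤ d * μ * (2 * (a + s) ^ 2 + (2 + g) / 2 * n) := by
        have := mul_self_nonneg a
        have : 0 < μ := by linarith
        gcongr
    _ = μ * (2 * d) * (a + s) ^ 2 + d * (2 + g) * (μ / 2) * n := by ring
    _ ≤ Z 0 0 * 1 * (a + s) ^ 2 + c * (μ / 2) * n := by
        have : 0 < μ := by linarith
        gcongr
        linarith
    _ ≤ _ := by linarith

theorem Lo.det_ge (h : Lo c Y) (hY : Yᵀ = Y) (hc : 0 ≤ c) : c ^ g ≤ Y.det := by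
  have hH : Y.IsHermitian := by rwa [IsHermitian, conjTranspose_eq_transpose_of_trivial]
  rw [hH.det_eq_prod_eigenvalues, ← Fin.prod_const]
  refine Finset.prod_le_prod (fun _ _ => hc) fun i _ => ?_
  have h1 := h (hH.eigenvectorBasis i)
  have h2 : ⇑(hH.eigenvectorBasis i) ⬝ᵥ ⇑(hH.eigenvectorBasis i) = 1 := by
    have := real_inner_self_eq_norm_sq (hH.eigenvectorBasis i)
    rwa [hH.eigenvectorBasis.orthonormal.1 i, EuclideanSpace.inner_eq_star_dotProduct,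
      star_trivial, one_pow] at this
  rw [hH.mulVec_eigenvectorBasis, dotProduct_smul, h2] at h1
  simpa using h1

theorem Lo.inv_le (h : Lo c Y) (hY : Yᵀ = Y) (hc : 0 < c) (i j : Fin g) : |Y⁻¹ i j| ≤ c⁻¹ := by
  have hd : Y.det ≠ 0 := ((pow_pos hc g).trans_le (h.det_ge hY hc.le)).ne'
  have h1 := h (Y⁻¹ *ᵥ Pi.single j 1)
  rw [mulVec_mulVec, mul_nonsing_inv _ hd.isUnit, one_mulVec, dotProduct_single_one] at h1
  have h2 : ∀ k, Y⁻¹ k j ^ 2 ≤ (Y⁻¹ *ᵥ Pi.single j 1) ⬝ᵥ (Y⁻¹ *ᵥ Pi.single j 1) := fun k => by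
    simpa [dotProduct, sq] using Finset.single_le_sum (f := fun k => Y⁻¹ k j * Y⁻¹ k j)
      (fun _ _ => mul_self_nonneg _) (Finset.mem_univ k)
  have h3 : (Y⁻¹ *ᵥ Pi.single j 1) j = Y⁻¹ j j := by simp
  rw [h3] at h1
  have h4 := h2 i
  have h5 := h2 j
  generalize (Y⁻¹ *ᵥ Pi.single j 1) ⬝ᵥ (Y⁻¹ *ᵥ Pi.single j 1) = n at *
  have h6 : Y⁻¹ j j ≤ c⁻¹ := by
    by_contra! h7
    have := inv_pos.2 hc
    have h8 : 1 < c * Y⁻¹ j j := (mul_inv_cancel₀ hc.ne').symm.trans_lt (by gcongr)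
    nlinarith
  refine abs_le_of_sq_le_sq' ?_ (inv_pos.2 hc).le |> abs_le.2
  have : n ≤ c⁻¹ * c⁻¹ := by rw [le_inv_mul_iff₀ hc]; linarith
  nlinarith

theorem lo_of_pos {ι : Type} [Fintype ι] {Y : Matrix ι ι ℝ} (h : ∀ y, y ≠ 0 → 0 < y ⬝ᵥ Y *ᵥ y) :
    ∃ c, 0 < c ∧ ∀ y, c * (y ⬝ᵥ y) ≤ y ⬝ᵥ Y *ᵥ y := by
  have hK : IsCompact {y : ι → ℝ | y ⬝ᵥ y = 1} :=
    (isCompact_closedBall 0 1).of_isClosed_subset (isClosed_eq (by fun_prop) continuous_const)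
      fun y hy => mem_closedBall_zero_iff.2 ((pi_norm_le_iff_of_nonneg one_pos.le).2 fun i =>
        abs_le_one_iff_mul_self_le_one.2 ((Finset.single_le_sum (f := fun i => y i * y i)
          (fun _ _ => mul_self_nonneg _) (Finset.mem_univ i)).trans_eq hy))
  obtain ⟨c, hc, h1⟩ := hK.exists_forall_le' (f := fun y => y ⬝ᵥ Y *ᵥ y) (by fun_prop) (a := 0)
    fun y hy => h y (by rintro rfl; simp at hy)
  refine ⟨c, hc, fun y => ?_⟩
  rcases eq_or_ne y 0 with rfl | hy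
  · simp
  have h2 : 0 < y ⬝ᵥ y := by simpa using dotProduct_star_self_pos_iff.2 hy
  have h3 : (√(y ⬝ᵥ y))⁻¹ * (√(y ⬝ᵥ y))⁻¹ = (y ⬝ᵥ y)⁻¹ := by
    rw [← mul_inv, Real.mul_self_sqrt h2.le]
  have := h1 ((√(y ⬝ᵥ y))⁻¹ • y) (by
    simp only [Set.mem_ofPred_eq, smul_dotProduct, dotProduct_smul, smul_eq_mul, ← mul_assoc, h3]
    exact inv_mul_cancel₀ h2.ne')
  simp only [mulVec_smul, smul_dotProduct, dotProduct_smul, smul_eq_mul, ← mul_assoc, h3] at this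
  rwa [le_inv_mul_iff₀ h2, mul_comm] at this

theorem Sieg.lo {τ : Matrix (Fin g) (Fin g) ℂ} (h : Sieg τ) : ∃ c, 0 < c ∧ Lo c (imM τ) :=
  lo_of_pos fun y hy => im_dot y ▸ h.pos y hy

lemma Sieg.imM_symm {τ : Matrix (Fin g) (Fin g) ℂ} (h : Sieg τ) : (imM τ)ᵀ = imM τ := by
  rw [imM, ← transpose_map, h.symm]

theorem compact_box (C : ℝ) {d : ℝ} (hd : 0 < d) : IsCompact {τ : Matrix (Fin g) (Fin g) ℂ |
    Sieg τ ∧ (∀ i j, |(τ i j).re| ≤ C ∧ |(τ i j).im| ≤ C) ∧ d ≤ (imM τ).det} := by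
  have h1 : IsCompact {τ : Matrix (Fin g) (Fin g) ℂ | ∀ i j, τ i j ∈ Metric.closedBall 0 (C + C)} :=
    (isCompact_closedBall (0 : ℂ) (C + C)).matrix
  have h2 : Continuous (imM (g := g)) := continuous_id.matrix_map continuous_im
  have h3 : {τ : Matrix (Fin g) (Fin g) ℂ | Sieg τ ∧ (∀ i j, |(τ i j).re| ≤ C ∧ |(τ i j).im| ≤ C) ∧
      d ≤ (imM τ).det} = {τ | τᵀ = τ} ∩ (⋂ y : Fin g → ℝ, {τ | 0 ≤ y ⬝ᵥ imM τ *ᵥ y}) ∩
        (⋂ i, ⋂ j, {τ | |(τ i j).re| ≤ C} ∩ {τ | |(τ i j).im| ≤ C}) ∩ {τ | d ≤ (imM τ).det} := by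
    ext τ
    simp only [Set.mem_inter_iff, Set.mem_ofPred_eq, Set.mem_iInter, and_assoc]
    refine ⟨fun h => ⟨h.1.1, fun y => by
      simpa using h.1.posDef.posSemidef.dotProduct_mulVec_nonneg y, h.2⟩,
      fun h => ⟨⟨h.1, fun y hy => ?_⟩, h.2.2⟩⟩
    have h4 : (imM τ).PosSemidef := PosSemidef.of_dotProduct_mulVec_nonneg (by
      rw [IsHermitian, conjTranspose_eq_transpose_of_trivial, imM, ← transpose_map, h.1]) fun y => by
        simpa using h.2.1 y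
    simpa [im_dot] using (h4.posDef_iff_det_ne_zero.2 (hd.trans_le h.2.2.2).ne').dotProduct_mulVec_pos hy
  refine h1.of_isClosed_subset ?_ fun τ h i j => mem_closedBall_zero_iff.2
    ((norm_le_abs_re_add_abs_im _).trans (add_le_add (h.2.1 i j).1 (h.2.1 i j).2))
  rw [h3]
  refine (((isClosed_eq (by fun_prop) continuous_id).inter (isClosed_iInter fun y =>
    isClosed_le continuous_const ?_)).inter (isClosed_iInter fun i => isClosed_iInter fun j =>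
      (isClosed_le (by fun_prop) continuous_const).inter (isClosed_le (by fun_prop)
        continuous_const))).inter (isClosed_le continuous_const h2.matrix_det)
  exact continuous_const.dotProduct (h2.matrix_mulVec continuous_const)

end Pool.Agent.MT
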