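import Pool.Agent.Lib.MP_d61fbb_ag.MT.GR1

/-! Uniform estimates for theta constants. -/

noncomputable section

namespace Pool.Agent.MT

open Matrix Complex Sum MeasureTheory

variable {g : ℕ} {τ : Matrix (Fin g) (Fin g) ℂ} {c : ℝ}

lemma gr2_norm_ee (x : ℂ) : ‖ee x‖ = Real.exp (-(2 * Real.pi * x.im)) := by
  rw [ee, norm_exp]; congr 1; simp

lemma gr2_ee_real (x : ℝ) : ‖ee x‖ = 1 := by simp [gr2_norm_ee]

lemma gr2_sq (v : Fin g → ℝ) : 0 ≤ v ⬝ᵥ v := Finset.sum_nonneg fun _ _ => mul_self_nonneg _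

lemma gr2_tm (a w : Fin g → ℝ) (n : Fin g → ℤ) : ‖tm τ (rc a) (rc w) n‖ = Real.exp (-(Real.pi *
    (((fun i => (n i : ℝ)) + a) ⬝ᵥ imM τ *ᵥ ((fun i => (n i : ℝ)) + a)))) := by
  have e : zc n + rc a = rc ((fun i => (n i : ℝ)) + a) := by funext i; simp [zc, rc]
  rw [tm, gr2_norm_ee, e, ← im_dot]
  generalize (fun i => (n i : ℝ)) + a = v
  have : (rc v ⬝ᵥ rc w).im = 0 := by simp [dotProduct]
  rw [add_im, this, div_ofNat_im]
  congr 1; ring

lemma gr2_Th (x : I2 g → ℝ) : ‖Th τ (rc x)‖ = ‖T τ (rc (x ∘ inl)) (rc (x ∘ inr))‖ := by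
  have : -(Qf (rc x) / 2) = ((-(Qf x / 2) : ℝ) : ℂ) := by
    have := Qf_map x ofRealHom
    simp only [ofRealHom_eq_coe] at this
    push_cast; rw [this]
  rw [Th, norm_mul, this, gr2_ee_real, one_mul]; rfl

theorem decay (g : ℕ) (hc : 0 < c) : ∃ C : ℝ, ∀ τ : Matrix (Fin g) (Fin g) ℂ, Sieg τ →
    Lo c (imM τ) → ∀ (x : I2 g → ℝ) (R : ℝ), (∀ n : Fin g → ℤ,
      R ≤ ((fun i => (n i : ℝ)) + x ∘ inl) ⬝ᵥ imM τ *ᵥ ((fun i => (n i : ℝ)) + x ∘ inl)) →
    ‖Th τ (rc x)‖ ≤ C * Real.exp (-R) := by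
  refine ⟨Real.exp (∑ _i : Fin g, (1 / (4 * c) + 1)) *
    ∑' l : Fin g → ℤ, Real.exp (-∑ i, |(l i : ℝ)|), fun τ h hl x R hR => ?_⟩
  let m : Fin g → ℤ := fun i => ⌊x (inl i)⌋
  have hs := (Equiv.addRight m).summable_iff.2 (WT.a1_sum g)
  rw [gr2_Th, ← (Equiv.addRight m).tsum_eq, mul_right_comm, ← tsum_mul_left]
  refine tsum_of_norm_bounded (hs.mul_left _).hasSum fun n => ?_
  rw [gr2_tm, Function.comp_apply, ← Real.exp_add, ← Real.exp_add, Real.exp_le_exp]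
  have h1 := hR n
  have h2 := hl ((fun i => (n i : ℝ)) + x ∘ inl)
  generalize ((fun i => (n i : ℝ)) + x ∘ inl) ⬝ᵥ imM τ *ᵥ ((fun i => (n i : ℝ)) + x ∘ inl) = q at *
  have h3 : ∑ i, |(((n + m) i : ℤ) : ℝ)| ≤ ∑ _i : Fin g, (1 / (4 * c) + 1) +
      c * (((fun i => (n i : ℝ)) + x ∘ inl) ⬝ᵥ ((fun i => (n i : ℝ)) + x ∘ inl)) := by
    rw [dotProduct, Finset.mul_sum, ← Finset.sum_add_distrib]
    refine Finset.sum_le_sum fun i _ => ?_
    have a1 := Int.floor_le (x (inl i))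
    have a2 := Int.lt_floor_add_one (x (inl i))
    simp only [Pi.add_apply, Function.comp_apply, m, Int.cast_add]
    generalize (⌊x (inl i)⌋ : ℝ) = f at *
    have a3 : |(n i : ℝ) + f| ≤ |n i + x (inl i)| + 1 := by
      rw [abs_le]; constructor <;> linarith [le_abs_self (n i + x (inl i)), neg_abs_le (n i + x (inl i))]
    rw [← abs_mul_abs_self]
    generalize |n i + x (inl i)| = t at *
    have a4 : t ≤ 1 / (4 * c) + c * (t * t) := by
      rw [← sub_nonneg, show 1 / (4 * c) + c * (t * t) - t = (2 * c * t - 1) ^ 2 / (4 * c) by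
        field_simp; ring]
      positivity
    linarith
  have h4 : 0 ≤ q := le_trans (mul_nonneg hc.le (gr2_sq _)) h2
  have h5 := mul_le_mul_of_nonneg_right Real.two_le_pi h4
  simp only [Equiv.coe_addRight]
  linarith

lemma gr2_bd (g : ℕ) (hc : 0 < c) : ∃ C : ℝ, ∀ τ : Matrix (Fin g) (Fin g) ℂ, Sieg τ →
    Lo c (imM τ) → ∀ x : I2 g → ℝ, ‖Th τ (rc x)‖ ≤ C := by
  obtain ⟨C, hC⟩ := decay g hc
  refine ⟨C, fun τ h hl x => ?_⟩
  simpa using hC τ h hl x 0 fun n => le_trans (mul_nonneg hc.le (gr2_sq _)) (hl _)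

theorem Sieg.le_nu (h : Sieg τ) (x : I2 g → ℝ) : ‖Th τ (rc x)‖ ≤ nuT τ := by
  obtain ⟨c, hc, hl⟩ := h.lo
  obtain ⟨C, hC⟩ := gr2_bd g hc
  exact le_ciSup (f := fun x => ‖Th τ (rc x)‖) ⟨C, by rintro _ ⟨y, rfl⟩; exact hC τ h hl y⟩ x

theorem Sieg.one_le_nu (h : Sieg τ) : 1 ≤ nuT τ := by
  have h1 := h.cf_T
  simp only [cf, zc_zero, zero_dotProduct, neg_zero, ee_zero, one_mul] at h1
  have h2 := norm_integral_le_of_norm_le_const (μ := tM g) (C := nuT τ)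
    (f := fun x => T τ 0 (rc (tout x))) (Filter.Eventually.of_forall fun x => by
      have := h.le_nu (Sum.elim 0 (tout x))
      rw [gr2_Th, elim_comp_inl, elim_comp_inr, show rc (0 : Fin g → ℝ) = 0 by
        funext i; simp [rc]] at this
      exact this)
  simpa [h1] using h2

theorem nu_le (g : ℕ) (hc : 0 < c) : ∃ C : ℝ, ∀ τ : Matrix (Fin g) (Fin g) ℂ, Sieg τ →
    Lo c (imM τ) → nuT τ ≤ C :=
  let ⟨C, hC⟩ := gr2_bd g hc
  ⟨C, fun τ h hl => ciSup_le (hC τ h hl)⟩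

theorem th_low (g : ℕ) (hc : 0 < c) : ∃ e : ℝ, 0 < e ∧ ∀ τ : Matrix (Fin g) (Fin g) ℂ, Sieg τ →
    Lo c (imM τ) → ∃ y, e ≤ ‖th4 τ y‖ := by
  obtain ⟨C, hC⟩ := nu_le g hc
  let K : ℝ := Fintype.card (I2 g → ZMod 2) * (|C| + 1) + 1
  have hK : 1 ≤ K := le_add_of_nonneg_left (by positivity)
  refine ⟨1 / (16 * K), by positivity, fun τ h hl => ?_⟩
  by_contra! h0
  obtain ⟨x, hx⟩ : ∃ x : I2 g → ℝ, 1 / 2 < ‖Th τ (rc x)‖ :=
    exists_lt_of_lt_ciSup (lt_of_lt_of_le (by norm_num) h.one_le_nu)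
  let r : (I2 g → ZMod 2) → I2 g → ℝ := fun η i => (η i).val / 2
  have e0 : ∀ η, hv η = rc (r η) := fun η => by
    funext i
    simp only [hv, vz, zc, rc, r, Pi.smul_apply, smul_eq_mul]
    push_cast; ring
  have R := h.riemann' (rc x) (rc x) (rc x) (rc x)
  have e1 : ∀ η, (1 / 2 : ℂ) • (rc x + rc x + rc x + rc x) + hv η = rc ((2 : ℝ) • x + r η) :=
    fun η => by rw [e0]; funext i; simp [rc]; ring
  have e2 : rc x + rc x - rc x - rc x = 0 := by abel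
  have e3 : rc x - rc x + rc x - rc x = 0 := by abel
  have e4 : rc x - rc x - rc x + rc x = 0 := by abel
  simp only [e1, e2, e3, e4, smul_zero, zero_add] at R
  have hb : ∀ η, ‖Th τ (hv η)‖ ≤ 1 / (16 * K) := fun η => by
    have := (h0 (2 • vz η)).le
    rwa [th4, show (1 / 4 : ℂ) • zc (2 • vz η) = hv η by funext i; simp [hv, zc]; ring] at this
  have h1 : 1 / (16 * K) ≤ 1 := by rw [div_le_one (by positivity)]; linarith
  have h2 : ‖(2 : ℂ) ^ g * (Th τ (rc x) * Th τ (rc x) * Th τ (rc x) * Th τ (rc x))‖ ≤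
      Fintype.card (I2 g → ZMod 2) * ((|C| + 1) * (1 / (16 * K))) := by
    rw [R, ← nsmul_eq_mul, ← Finset.card_univ, ← Finset.sum_const]
    refine norm_sum_le_of_le _ fun η _ => ?_
    have a1 : ‖ee (2 * Qf (hv η))‖ = 1 := by
      have := Qf_map (r η) ofRealHom
      simp only [ofRealHom_eq_coe] at this
      rw [e0, ← gr2_ee_real (2 * Qf (r η))]; push_cast; rw [this]
    have a2 : ‖ee (Ef (hv η) (rc x))‖ = 1 := by
      have := Ef_map (r η) x ofRealHom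
      simp only [ofRealHom_eq_coe] at this
      rw [e0, ← gr2_ee_real (Ef (r η) x), this]
    have a3 : ‖Th τ (rc ((2 : ℝ) • x + r η))‖ ≤ |C| + 1 := by
      linarith [h.le_nu ((2 : ℝ) • x + r η), hC τ h hl, le_abs_self C]
    simp only [norm_mul, a1, a2, one_mul]
    calc _ ≤ (|C| + 1) * (1 / (16 * K)) * 1 * 1 := by
          gcongr
          exacts [hb η, (hb η).trans h1, (hb η).trans h1]
      _ = _ := by ring
  have h3 : (1 : ℝ) * (1 / 2 * (1 / 2) * (1 / 2) * (1 / 2)) ≤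
      ‖(2 : ℂ) ^ g * (Th τ (rc x) * Th τ (rc x) * Th τ (rc x) * Th τ (rc x))‖ := by
    simp only [norm_mul, norm_pow, Complex.norm_two]
    gcongr
    exact one_le_pow₀ one_le_two
  have h4 : Fintype.card (I2 g → ZMod 2) * ((|C| + 1) * (1 / (16 * K))) < K * (1 / (16 * K)) := by
    rw [← mul_assoc]
    exact mul_lt_mul_of_pos_right (lt_add_one _) (by positivity)
  rw [show K * (1 / (16 * K)) = 1 / 16 by field_simp] at h4
  linarith

end Pool.Agent.MT
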