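import Pool.Agent.Lib.MP_d61fbb_ag.MT.GR0

/-! The theta constants of level four give an immersion. -/

noncomputable section

namespace Pool.Agent.MT

open Matrix Complex Sum

variable {g : ℕ} {τ : Matrix (Fin g) (Fin g) ℂ}

lemma gr3_pair (w : I2 g → ℤ) (i : I2 g) : ∃ y, Ef w y = w i := by
  rcases i with i | i
  · exact ⟨Sum.elim 0 (Pi.single i 1), by
      rw [Ef, Sum.elim_comp_inl, Sum.elim_comp_inr]; simp⟩
  · exact ⟨Sum.elim (-Pi.single i 1) 0, by simp [Ef]⟩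

theorem Sieg.cusp (h : Sieg τ) : Cusp {y | th4 τ y ≠ 0} := by
  rintro w ⟨i, hi⟩
  obtain ⟨y, hy⟩ := gr3_pair w i
  obtain ⟨η, hη⟩ := h.exists_ne ((1 / 4 : ℂ) • zc y)
  refine ⟨y + (2 : ℤ) • vz η, ?_, ?_⟩
  · have e : (1 / 4 : ℂ) • zc (y + (2 : ℤ) • vz η) = (1 / 4 : ℂ) • zc y + hv η := by
      rw [two_smul, zc_add, zc_add, hv]
      module
    rwa [Set.mem_ofPred_eq, th4, e]
  · rw [Ef_add_right, Ef_smul_right, hy]
    exact hi.add_even (even_two_mul _)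

section
open Filter Topology

variable {A : Matrix (Fin g) (Fin g) ℂ} {c : ℂ}

lemma gr3_symm (h : Sieg τ) (hA : Aᵀ = A) (s : ℂ) : (τ + s • A)ᵀ = τ + s • A := by
  rw [transpose_add, transpose_smul, h.symm, hA]

lemma gr3_ev (h : Sieg τ) (hA : Aᵀ = A) : ∀ᶠ s : ℂ in 𝓝 0, Sieg (τ + s • A) :=
  Sieg.eventually (t := fun (s : ℂ) i j => τ i j + s * A i j) (x := 0)
    (by simpa using (show Sieg (of fun i j => τ i j) from h)) (gr3_symm h hA) (by fun_prop)

lemma gr3_T (h : Sieg τ) (hA : Aᵀ = A) {X : Type} [NormedAddCommGroup X] [NormedSpace ℂ X]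
    {a w : X → Fin g → ℂ} (ha : Differentiable ℂ a) (hw : Differentiable ℂ w) {p : ℂ × X}
    (hp : Sieg (τ + p.1 • A)) :
    DifferentiableAt ℂ (fun q : ℂ × X => T (τ + q.1 • A) (a q.2) (w q.2)) p :=
  T_diffAt (t := fun (q : ℂ × X) i j => τ i j + q.1 * A i j) hp (fun q => gr3_symm h hA q.1)
    (by fun_prop) (by fun_prop) (by fun_prop)

lemma gr3_Th (h : Sieg τ) (hA : Aᵀ = A) {p : ℂ × (I2 g → ℂ)} (hp : Sieg (τ + p.1 • A)) :
    DifferentiableAt ℂ (fun q : ℂ × (I2 g → ℂ) => Th (τ + q.1 • A) q.2) p := by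
  refine DifferentiableAt.mul (ee_diff.differentiableAt.comp p ?_)
    (gr3_T h hA (a := fun x => x ∘ inl) (w := fun x => x ∘ inr) ?_ ?_ hp) <;>
    simp only [Qf, dotProduct, Function.comp_def] <;> fun_prop

lemma gr3_line {X : Type} [NormedAddCommGroup X] [NormedSpace ℂ X] {Φ : ℂ × X → ℂ} {u : X}
    (h : DifferentiableAt ℂ Φ (0, u)) (b : X) :
    HasDerivAt (fun s : ℂ => Φ (s, u + s • b)) (fderiv ℂ Φ (0, u) (1, b)) 0 := by
  have h1 : HasDerivAt (fun s : ℂ => (s, u + s • b)) (1, b) 0 :=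
    (hasDerivAt_id 0).prodMk (by simpa using ((hasDerivAt_id (0 : ℂ)).smul_const b).const_add u)
  exact h.hasFDerivAt.comp_hasDerivAt_of_eq 0 h1 (by simp)

variable (τ A c) in
/-- the logarithmic derivative at the point `x` is `c` -/
def gr3P (x : I2 g → ℂ) : Prop := HasDerivAt (fun s : ℂ => Th (τ + s • A) x) (c * Th τ x) 0

lemma gr3_rie (h : Sieg τ) (hA : Aᵀ = A) {x y z w : I2 g → ℂ}
    (h1 : ∀ η, gr3P τ A c ((1 / 2 : ℂ) • (x + y + z + w) + hv η))
    (h2 : ∀ η, gr3P τ A c ((1 / 2 : ℂ) • (x + y - z - w) + hv η))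
    (h3 : ∀ η, gr3P τ A c ((1 / 2 : ℂ) • (x - y + z - w) + hv η))
    (h4 : ∀ η, gr3P τ A c ((1 / 2 : ℂ) • (x - y - z + w) + hv η)) :
    HasDerivAt (fun s : ℂ => Th (τ + s • A) x * Th (τ + s • A) y * Th (τ + s • A) z *
      Th (τ + s • A) w) (4 * c * (Th τ x * Th τ y * Th τ z * Th τ w)) 0 := by
  have h0 : (2 : ℂ) ^ g ≠ 0 := pow_ne_zero _ two_ne_zero
  have k := (HasDerivAt.fun_sum (u := Finset.univ) fun η _ =>
    ((((h1 η).fun_mul (h2 η)).fun_mul (h3 η)).fun_mul (h4 η)).const_mul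
      (ee (2 * Qf (hv η)) * ee (Ef (hv η) x))).const_mul ((2 : ℂ) ^ g)⁻¹
  refine (k.congr_of_eventuallyEq ((gr3_ev h hA).mono fun s hs => ?_)).congr_deriv ?_
  · simp only [← hs.riemann', inv_mul_cancel_left₀ h0]
  · rw [inv_mul_eq_iff_eq_mul₀ h0, mul_left_comm, h.riemann', Finset.mul_sum]
    refine Finset.sum_congr rfl fun η _ => ?_
    simp only [zero_smul, add_zero]
    ring

/-- points of level `2 ^ (k + 2)` -/
def gr3L (k : ℕ) (x : I2 g → ℂ) : Prop := ∀ i, ∃ m : ℤ, 2 ^ (k + 2) * x i = m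

lemma gr3L.add {k : ℕ} {x y : I2 g → ℂ} (h : gr3L k x) (h' : gr3L k y) : gr3L k (x + y) := fun i =>
  let ⟨m, e⟩ := h i
  let ⟨n, e'⟩ := h' i
  ⟨m + n, by rw [Pi.add_apply, mul_add, e, e', Int.cast_add]⟩

lemma gr3_hv (k : ℕ) (n : ℤ) (η : I2 g → ZMod 2) : gr3L k ((n / 2 : ℂ) • hv η) := fun i =>
  ⟨2 ^ k * n * vz η i, by simp only [hv, Pi.smul_apply, smul_eq_mul, zc]; push_cast; ring⟩

lemma gr3_step (h : Sieg τ) (hA : Aᵀ = A) {k : ℕ} (H : ∀ x, gr3L k x → gr3P τ A c x)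
    {x : I2 g → ℂ} (hx : gr3L (k + 1) x) : gr3P τ A c x := by
  have d : ∀ x, ∃ G, HasDerivAt (fun s : ℂ => Th (τ + s • A) x) G 0 := fun x =>
    ⟨_, by simpa using gr3_line (gr3_Th h hA (p := (0, x)) (by simpa using h)) 0⟩
  have l0 : ∀ η : I2 g → ZMod 2, gr3L k (hv η) := fun η => by simpa using gr3_hv k 2 η
  have l2 : gr3L k ((2 : ℂ) • x) := fun i =>
    (hx i).imp fun m e => by rw [← e, Pi.smul_apply, smul_eq_mul]; ring
  obtain ⟨η₀, h0⟩ := h.exists_ne x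
  have p1 : gr3P τ A c (x + hv η₀) := by
    obtain ⟨G, hG⟩ := d (x + hv η₀)
    have e := (((hG.fun_mul hG).fun_mul hG).fun_mul hG).unique (gr3_rie h hA (c := c)
      (fun η => H _ (by
        convert (l2.add (gr3_hv k 4 η₀)).add (l0 η) using 2
        push_cast
        module))
      (fun η => H _ (by simpa using l0 η)) (fun η => H _ (by simpa using l0 η))
      (fun η => H _ (by simpa using l0 η)))
    simp only [zero_smul, add_zero] at e
    refine hG.congr_deriv (mul_left_cancel₀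
      (mul_ne_zero (show (4 : ℂ) ≠ 0 by norm_num) (pow_ne_zero 3 h0)) ?_)
    linear_combination e
  obtain ⟨G, hG⟩ := d x
  have l3 : ∀ η y, y = ((-1 : ℤ) / 2 : ℂ) • hv η₀ → gr3P τ A c (y + hv η) := fun η y e =>
    H _ (e ▸ (gr3_hv k (-1) η₀).add (l0 η))
  have e := (((hG.fun_mul p1).fun_mul p1).fun_mul p1).unique (gr3_rie h hA (c := c)
    (fun η => H _ (by
      convert (l2.add (gr3_hv k 3 η₀)).add (l0 η) using 2
      push_cast
      module))
    (fun η => l3 η _ (by push_cast; module)) (fun η => l3 η _ (by push_cast; module))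
    (fun η => l3 η _ (by push_cast; module)))
  simp only [zero_smul, add_zero] at e
  refine hG.congr_deriv (mul_left_cancel₀ (pow_ne_zero 3 h0) ?_)
  linear_combination e

lemma gr3_dya {f : (I2 g → ℂ) → ℂ} (hf : Differentiable ℂ f) (H : ∀ k x, gr3L k x → f x = 0)
    (v : I2 g → ℂ) : f v = 0 := by
  by_contra h0
  obtain ⟨q, hq⟩ := exists_rat hf h0
  have h1 : ∀ y : ℝ, Tendsto (fun k : ℕ => (⌊2 ^ (k + 2) * y⌋ : ℝ) / 2 ^ (k + 2)) atTop (𝓝 y) := by
    intro y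
    have h2 : Tendsto (fun k : ℕ => y - (1 / 2 : ℝ) ^ (k + 2)) atTop (𝓝 y) := by
      simpa using ((tendsto_pow_atTop_nhds_zero_of_lt_one (r := (1 / 2 : ℝ)) (by norm_num)
        (by norm_num)).comp (tendsto_add_atTop_nat 2)).const_sub y
    refine tendsto_of_tendsto_of_tendsto_of_le_of_le h2 tendsto_const_nhds (fun k => ?_) fun k => ?_
    · have := Int.sub_one_lt_floor (2 ^ (k + 2) * y)
      rw [le_div_iff₀ (by positivity), sub_mul, ← mul_pow]
      norm_num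
      linarith
    · rw [div_le_iff₀ (by positivity), mul_comm y]
      exact Int.floor_le _
  have h3 : Tendsto (fun k : ℕ => rc fun i => (⌊2 ^ (k + 2) * (q i : ℝ)⌋ : ℝ) / 2 ^ (k + 2)) atTop
      (𝓝 (qc q)) := tendsto_pi_nhds.2 fun i => by
    simpa [rc, qc, Function.comp_def] using (continuous_ofReal.tendsto _).comp (h1 (q i))
  refine hq (tendsto_nhds_unique ((hf.continuous.tendsto _).comp h3) ?_)
  refine tendsto_const_nhds.congr fun k => (H k _ fun i => ⟨⌊2 ^ (k + 2) * (q i : ℝ)⌋, ?_⟩).symm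
  simp only [rc]
  push_cast
  field_simp

lemma gr3_all (h : Sieg τ) (hA : Aᵀ = A) (H : ∀ x, gr3L 0 x → gr3P τ A c x) (x : I2 g → ℂ) :
    gr3P τ A c x := by
  have H1 : ∀ k x, gr3L k x → gr3P τ A c x := fun k => by
    induction k with
    | zero => exact H
    | succ k ih => exact fun x => gr3_step h hA ih
  obtain ⟨V, hV, oV, h0⟩ := eventually_nhds_iff.1 (gr3_ev h hA)
  have d : ∀ x, HasDerivAt (fun s : ℂ => Th (τ + s • A) x)
      (fderiv ℂ (fun q : ℂ × (I2 g → ℂ) => Th (τ + q.1 • A) q.2) (0, x) (1, 0)) 0 := fun x => by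
    simpa using gr3_line (gr3_Th h hA (p := (0, x)) (by simpa using h)) 0
  have oU : IsOpen {q : ℂ × (I2 g → ℂ) | q.1 ∈ V} := oV.preimage continuous_fst
  have d2 := Lib.MP_7906d6_an.differentiableOn_fderiv_apply oU
    (fun p hp => (gr3_Th h hA (hV _ hp)).differentiableWithinAt) (1, 0)
  refine (d x).congr_deriv (sub_eq_zero.1 (gr3_dya (f := fun x => fderiv ℂ
    (fun q : ℂ × (I2 g → ℂ) => Th (τ + q.1 • A) q.2) (0, x) (1, 0) - c * Th τ x) ?_ ?_ x))
  · refine Differentiable.sub (fun x => ?_) (h.diff_Th.const_mul c)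
    exact (d2.differentiableAt (oU.mem_nhds (x := (0, x)) h0)).comp x
      (f := fun x => ((0 : ℂ), x)) (by fun_prop)
  · exact fun k x hx => sub_eq_zero.2 ((d x).unique (H1 k x hx))

end

theorem Sieg.imm (h : Sieg τ) {A : Matrix (Fin g) (Fin g) ℂ} (hA : Aᵀ = A) (c : ℂ)
    (H : ∀ y, HasDerivAt (fun s : ℂ => th4 (τ + s • A) y) (c * th4 τ y) 0) : A = 0 := by
  have H1 : ∀ x, gr3P τ A c x := gr3_all h hA fun x hx => by
    choose m hm using hx
    have e : x = (1 / 4 : ℂ) • zc m := funext fun i => by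
      rw [Pi.smul_apply, zc, ← hm i, smul_eq_mul]
      ring
    rw [e]
    exact H m
  have H2 : ∀ a w, HasDerivAt (fun s : ℂ => T (τ + s • A) a w) (c * T τ a w) 0 := fun a w => by
    have := (H1 (Sum.elim a w)).const_mul (ee (-(Qf (Sum.elim a w) / 2)))⁻¹
    simpa only [Th, mul_left_comm c, inv_mul_cancel_left₀ (ee_ne _), Sum.elim_comp_inl,
      Sum.elim_comp_inr] using this
  obtain ⟨u, hu⟩ := h.T_ne
  have d := gr3_line (gr3_T h hA (a := fun _ => 0) (w := fun w => w) (differentiable_const _)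
    differentiable_id (p := (0, u)) (by simpa using h))
  generalize fderiv ℂ (fun q : ℂ × (Fin g → ℂ) => T (τ + q.1 • A) 0 q.2) (0, u) = L at d
  have H3 : ∀ a, L (1, A *ᵥ a) = (c - Real.pi * I * (a ⬝ᵥ A *ᵥ a)) * T τ 0 u := fun a => by
    have d1 : HasDerivAt (fun s : ℂ => ee (a ⬝ᵥ τ *ᵥ a / 2 + a ⬝ᵥ (u - τ *ᵥ a) +
        s * (a ⬝ᵥ A *ᵥ a / 2))) (ee (a ⬝ᵥ τ *ᵥ a / 2 + a ⬝ᵥ (u - τ *ᵥ a)) *
          (Real.pi * I * (a ⬝ᵥ A *ᵥ a))) 0 := by
      refine ((((hasDerivAt_id (0 : ℂ)).mul_const _).const_add _).const_mul _).cexp.congr_deriv ?_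
      simp only [id, zero_mul, add_zero, ee]
      ring
    have e : ∀ s : ℂ, T (τ + s • A) a (u - τ *ᵥ a) = ee (a ⬝ᵥ τ *ᵥ a / 2 + a ⬝ᵥ (u - τ *ᵥ a) +
        s * (a ⬝ᵥ A *ᵥ a / 2)) * T (τ + s • A) 0 (u + s • A *ᵥ a) := fun s => by
      have := T_shift (gr3_symm h hA s) 0 a (u - τ *ᵥ a)
      rw [zero_add] at this
      rw [this, add_mulVec, smul_mulVec, ← add_assoc, sub_add_cancel, dotProduct_add,
        dotProduct_smul, smul_eq_mul]
      congr 2
      ring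
    have e0 := e 0
    have e1 := H2 a (u - τ *ᵥ a)
    simp only [e] at e1
    have e2 := (d1.fun_mul (d (A *ᵥ a))).unique e1
    simp only [zero_smul, add_zero, zero_mul] at e0 e2
    rw [e0] at e2
    refine mul_left_cancel₀ (ee_ne (a ⬝ᵥ τ *ᵥ a / 2 + a ⬝ᵥ (u - τ *ᵥ a))) ?_
    linear_combination e2
  have H4 : ∀ a, a ⬝ᵥ A *ᵥ a = 0 := fun a => by
    have e1 := H3 a
    have e2 := H3 (-a)
    have e3 := H3 0
    have e4 : L (1, A *ᵥ a) + L (1, A *ᵥ (-a)) = L (1, A *ᵥ 0) + L (1, A *ᵥ 0) := by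
      rw [← map_add, ← map_add]
      simp [mulVec_neg]
    simp only [mulVec_neg, neg_dotProduct, dotProduct_neg, neg_neg, zero_dotProduct] at e1 e2 e3 e4
    have e5 : (2 * Real.pi * I * T τ 0 u) * (a ⬝ᵥ A *ᵥ a) = 0 := by
      linear_combination e1 + e2 - 2 * e3 - e4
    exact (mul_eq_zero.1 e5).resolve_left (mul_ne_zero two_pi_I_ne_zero hu)
  ext i j
  have e1 := H4 (Pi.single i 1 + Pi.single j 1)
  have e2 : A j i = A i j := congrFun (congrFun hA i) j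
  simp only [mulVec_add, add_dotProduct, dotProduct_add, H4] at e1
  simp only [mulVec_single_one, single_one_dotProduct, col_apply, e2] at e1
  rw [Matrix.zero_apply]
  linear_combination e1 / 2

end Pool.Agent.MT
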