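import Pool.Agent.Lib.MP_d61fbb_ag.MT.GR1
import Pool.Agent.Lib.MP_d61fbb_ag.MT.G0b

/-! Reduction theory for the integral symplectic group. -/

noncomputable section

namespace Pool.Agent.MT

open Matrix Complex Sum

variable {g : ℕ}

lemma cg_diag (U : Matrix (Fin g) (Fin g) ℤ) (Y : Matrix (Fin g) (Fin g) ℝ) (i : Fin g) :
    cg U Y i i = (fun k => (U k i : ℝ)) ⬝ᵥ Y *ᵥ fun k => (U k i : ℝ) := by
  rw [diag_eq (cg U Y), cg_quad, mulVec_single_one]; rfl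

lemma col_odd {U : Matrix (Fin g) (Fin g) ℤ} (h : IsUnit U.det) (i : Fin g) : ∃ k, Odd (U k i) := by
  by_contra! h1
  have := congrFun (congrFun (nonsing_inv_mul U h) i) i
  rw [mul_apply, one_apply_eq] at this
  exact Int.not_even_one (this ▸ Finset.even_sum _ fun k _ =>
    (Int.not_odd_iff_even.1 (h1 k)).mul_left _)

lemma ex_gl {U : Matrix (Fin g) (Fin g) ℤ} (hU : IsUnit U.det) {B : Matrix (Fin g) (Fin g) ℤ}
    (hB : Bᵀ = B) : ∃ γ : Matrix (I2 g) (I2 g) ℤ, GS 1 γ ∧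
      ∀ τ, act (γ.map (↑)) τ = (U.map (↑))ᵀ * τ * U.map (↑) + B.map (↑) := by
  have h : U⁻¹.map ((↑) : ℤ → ℂ) * U.map (↑) = 1 :=
    (Matrix.map_mul (f := Int.castRingHom ℂ)).symm.trans (by simp [nonsing_inv_mul _ hU])
  refine ⟨fromBlocks Uᵀ (B * U⁻¹) 0 U⁻¹, gs_one_iff.2 ?_, fun τ => ?_⟩
  · simp [SymplecticGroup.mem_iff, J, fromBlocks_multiply, fromBlocks_transpose, hU,
      ← transpose_mul, Matrix.mul_assoc, hB]
  · have e : (B * U⁻¹).map ((↑) : ℤ → ℂ) = B.map (↑) * U⁻¹.map (↑) :=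
      Matrix.map_mul (f := Int.castRingHom ℂ)
    simp [act, cj, fromBlocks_map, inv_eq_right_inv h, transpose_map, add_mul, e,
      Matrix.mul_assoc, h]

lemma imM_gl (U B : Matrix (Fin g) (Fin g) ℤ) (τ : Matrix (Fin g) (Fin g) ℂ) :
    imM ((U.map (↑))ᵀ * τ * U.map (↑) + B.map (↑)) = cg U (imM τ) := by
  ext i j; simp [imM, cg, mul_apply]

/-- change of basis and reduction of the real part -/
lemma ex_red {U : Matrix (Fin g) (Fin g) ℤ} (hU : IsUnit U.det) {τ : Matrix (Fin g) (Fin g) ℂ}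
    (h : τᵀ = τ) : ∃ γ : Matrix (I2 g) (I2 g) ℤ, GS 1 γ ∧
      imM (act (γ.map (↑)) τ) = cg U (imM τ) ∧ ∀ i j, |(act (γ.map (↑)) τ i j).re| ≤ 1 / 2 := by
  let σ := (U.map ((↑) : ℤ → ℂ))ᵀ * τ * U.map (↑)
  have hσ : σᵀ = σ := by simp [σ, h, Matrix.mul_assoc]
  obtain ⟨γ, h1, h2⟩ := ex_gl hU (B := of fun i j => -round (σ i j).re) (by
    ext i j; simp [show σ j i = σ i j from congrFun (congrFun hσ _) _])
  refine ⟨γ, h1, by rw [h2, imM_gl], fun i j => ?_⟩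
  simpa [h2, ← sub_eq_add_neg] using abs_sub_round (σ i j).re

lemma ex_inv (i : Fin g) : ∃ γ : Matrix (I2 g) (I2 g) ℤ, GS 1 γ ∧
    ∀ τ, (cj (γ.map (↑)) τ).det = τ i i := by
  let E : Matrix (Fin g) (Fin g) ℤ := single i i 1
  have h1 : E * E = E := by simp [E]
  have h2 : Eᵀ = E := by simp [E]
  refine ⟨fromBlocks (1 - E) (-E) E (1 - E), gs_one_iff.2 ?_, fun τ => ?_⟩
  · simp [SymplecticGroup.mem_iff, J, fromBlocks_multiply, fromBlocks_transpose, h1, h2, mul_sub,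
      sub_mul]
    abel
  · have : cj ((fromBlocks (1 - E) (-E) E (1 - E)).map (↑)) τ = updateRow 1 i (τ i) := by
      ext a b
      by_cases h : a = i <;> simp [cj, fromBlocks_map, E, mul_apply, single_apply, h, one_apply,
        updateRow_apply, eq_comm (a := i)]
    rw [this, ← cramer_transpose_apply]; simp

lemma det_bdd {τ : Matrix (Fin g) (Fin g) ℂ} (h : Sieg τ) : ∃ C, ∀ γ : Matrix (I2 g) (I2 g) ℤ,
    GS 1 γ → (imM (act (γ.map (↑)) τ)).det ≤ C := by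
  have hz : G.un τ ∈ G.HH g := by rwa [G.HH, Set.mem_ofPred_eq, G.mk_un h.symm]
  obtain ⟨μ, hμ, h1⟩ := lo_of_pos (Y := G.Pm (G.un τ)) fun y hy => by
    simpa using (G.Pm_posDef hz).dotProduct_mulVec_pos hy
  obtain ⟨c, hc, H⟩ := hermite g
  refine ⟨((c * μ) ^ g)⁻¹, fun γ hγ => ?_⟩
  have h2 := (hγ.rs_int one_pos).sieg h
  let δ : G.Sp g ℤ := ⟨dl γ, gs_one_iff.1 hγ.dl⟩
  have h3 : G.mk (G.az δ (G.un τ)) = act (γ.map (↑)) τ := by
    refine (G.mk_ac (G.zsp δ) _).trans ?_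
    rw [G.mk_un h.symm]
    congr 1
    exact (congrArg dl (dl_map (Int.castRingHom ℂ) γ)).trans (dl_dl _)
  have h4 : (G.zm (dl γ))ᵀ * G.Pm (G.az δ (G.un τ)) * G.zm (dl γ) = _ := G.Pm_ac (G.zsp δ) hz
  have h5 := h2.posDef.inv
  obtain ⟨U, hU, h6⟩ := H (imM (act (γ.map (↑)) τ))⁻¹ μ (by rw [transpose_nonsing_inv, h2.imM_symm])
    (fun y => by simpa using h5.posSemidef.dotProduct_mulVec_nonneg y) hμ fun U hU i => by
      let n : I2 g → ℤ := Sum.elim 0 fun k => U k i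
      have e : dl γ *ᵥ γᵀ *ᵥ n = n := by
        rw [mulVec_mulVec, mul_eq_one_comm.1 (by simpa using hγ.transpose_mul_dl), one_mulVec]
      have e1 : G.zm (dl γ) *ᵥ (fun k => ((γᵀ *ᵥ n) k : ℝ)) =
          Sum.elim (0 : Fin g → ℝ) fun k => (U k i : ℝ) := by
        funext k
        refine ((Int.castRingHom ℝ).map_mulVec _ _ k).symm.trans ?_
        rw [e]; cases k <;> simp [n]
      have e2 := h1 fun k => ((γᵀ *ᵥ n) k : ℝ)
      rw [← h4, ← mulVec_mulVec, ← mulVec_mulVec, dotProduct_mulVec _ _ᵀ, vecMul_transpose, e1,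
        G.Pm_eq, fromBlocks_mulVec, sumElim_dotProduct_sumElim] at e2
      have e3 : γᵀ *ᵥ n ≠ 0 := fun e3 => by
        obtain ⟨k, hk⟩ := col_odd hU i
        rw [e3, mulVec_zero] at e
        rw [show U k i = 0 from (congrFun e (inr k)).symm] at hk
        exact Int.not_odd_zero hk
      obtain ⟨k, hk⟩ := Function.ne_iff.1 e3
      have e4 : (1 : ℝ) ≤ (fun k => ((γᵀ *ᵥ n) k : ℝ)) ⬝ᵥ fun k => ((γᵀ *ᵥ n) k : ℝ) :=
        le_trans (by exact_mod_cast mul_self_pos.2 hk) (Finset.single_le_sum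
          (f := fun k => ((γᵀ *ᵥ n) k : ℝ) * (γᵀ *ᵥ n) k) (fun _ _ => mul_self_nonneg _)
          (Finset.mem_univ k))
      rw [cg_diag, ← h3]
      exact (le_mul_of_one_le_right hμ.le e4).trans (by simpa [imM, G.Ym] using e2)
  have h7 := h6.det_ge (cg_symm _ (by rw [transpose_nonsing_inv, h2.imM_symm])) (by positivity)
  rw [cg_det hU, det_nonsing_inv, Ring.inverse_eq_inv'] at h7
  exact (le_inv_comm₀ (by positivity) h2.posDef.det_pos).1 h7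

theorem red (g : ℕ) : ∃ c : ℝ, 0 < c ∧ ∀ τ : Matrix (Fin g) (Fin g) ℂ, Sieg τ →
    ∃ γ : Matrix (I2 g) (I2 g) ℤ, GS 1 γ ∧ Lo c (imM (act (γ.map (↑)) τ)) := by
  obtain ⟨c, hc, H⟩ := hermite g
  refine ⟨c * (1 / 2), by positivity, fun τ h => ?_⟩
  let S : Set ℝ := {t | ∃ γ : Matrix _ _ ℤ, GS 1 γ ∧ (imM (act (γ.map (↑)) τ)).det = t}
  have hb : BddAbove S := let ⟨C, hC⟩ := det_bdd h; ⟨C, by rintro _ ⟨γ, hγ, rfl⟩; exact hC γ hγ⟩
  have h1 : (imM τ).det ∈ S := ⟨1, gs_one, by simp⟩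
  have h2 : 0 < sSup S := h.posDef.det_pos.trans_le (le_csSup hb h1)
  obtain ⟨_, ⟨γ, hγ, rfl⟩, h3⟩ := exists_lt_of_lt_csSup ⟨_, h1⟩ (half_lt_self h2)
  have m : ∀ {γ δ : Matrix (I2 g) (I2 g) ℤ}, GS 1 γ → GS 1 δ → GS 1 (γ * δ) ∧
      act ((γ * δ).map (↑)) τ = act (γ.map (↑)) (act (δ.map (↑)) τ) := fun hγ hδ =>
    ⟨by simpa using hγ.mul hδ, (congrArg (act · τ) (Matrix.map_mul (f := Int.castRingHom ℂ))).trans
      ((hγ.rs_int one_pos).act_mul (hδ.rs_int one_pos) h)⟩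
  have h4 := (hγ.rs_int one_pos).sieg h
  obtain ⟨U, hU, h5⟩ := H _ (1 / 2) h4.imM_symm
    (fun y => by simpa using h4.posDef.posSemidef.dotProduct_mulVec_nonneg y) one_half_pos
    fun U hU i => by
      obtain ⟨δ, hδ, e1, e2⟩ := ex_red hU h4.symm
      obtain ⟨β, hβ, e3⟩ := ex_inv i
      have h6 := (hδ.rs_int one_pos).sieg h4
      have h7 := (hβ.rs_int one_pos).det_im h6
      have h8 := le_csSup hb ⟨_, (m hβ (m hδ hγ).1).1, rfl⟩
      rw [(m hβ (m hδ hγ).1).2, (m hδ hγ).2] at h8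
      rw [e3, e1, cg_det hU, Int.cast_one, one_pow, one_mul, Complex.sq_norm, normSq_apply] at h7
      have h9 := h6.posDef.diag_pos (i := i)
      have h10 := abs_le.1 (e2 i i)
      rw [← e1]
      change 0 < (_ : ℂ).im at h9
      change _ ≤ (_ : ℂ).im
      generalize act (δ.map (↑)) (act (γ.map (↑)) τ) i i = t at *
      by_contra! h11
      have : t.re * t.re + t.im * t.im ≤ 1 / 2 := by nlinarith
      have := mul_le_mul this h8 ((hβ.rs_int one_pos).sieg h6).posDef.det_pos.le one_half_pos.le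
      linarith
  obtain ⟨δ, hδ, e1, -⟩ := ex_red hU h4.symm
  exact ⟨δ * γ, (m hδ hγ).1, by rwa [(m hδ hγ).2, e1]⟩

/-- either a short integral vector or a compact set -/
theorem short_or_compact (g : ℕ) {c e : ℝ} (hc : 0 < c) (he : 0 < e) :
    ∃ K : Set (Matrix (Fin g) (Fin g) ℂ), IsCompact K ∧ (∀ τ ∈ K, Sieg τ) ∧
      ∀ τ, Sieg τ → Lo c (imM τ) →
        (∃ w : Fin g → ℤ, (∃ i, Odd (w i)) ∧ ∀ v : Fin g → ℝ,
          ((fun i => (w i : ℝ)) ⬝ᵥ v) ^ 2 ≤ e * (v ⬝ᵥ imM τ *ᵥ v)) ∨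
        ∃ γ : Matrix (I2 g) (I2 g) ℤ, GS 1 γ ∧ act (γ.map (↑)) τ ∈ K := by
  obtain ⟨κ, hκ, H⟩ := hermite g
  refine ⟨_, compact_box (max (1 / 2) (κ * e)⁻¹) (pow_pos hc g), fun τ h => h.1, fun τ h hl => ?_⟩
  have h1 := h.posDef.inv
  have h2 : (imM τ)⁻¹ᵀ = (imM τ)⁻¹ := by rw [transpose_nonsing_inv, h.imM_symm]
  have hd := h.posDef.det_pos.ne'.isUnit
  by_cases h3 : ∀ U : Matrix (Fin g) (Fin g) ℤ, IsUnit U.det → ∀ i, e ≤ cg U (imM τ)⁻¹ i i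
  · obtain ⟨U, hU, h4⟩ := H _ e h2
      (fun y => by simpa using h1.posSemidef.dotProduct_mulVec_nonneg y) he h3
    have hV : IsUnit (U⁻¹ᵀ).det := by rw [det_transpose]; exact isUnit_nonsing_inv_det U hU
    obtain ⟨γ, hγ, e1, e2⟩ := ex_red hV h.symm
    have e3 : (cg U (imM τ)⁻¹)⁻¹ = cg U⁻¹ᵀ (imM τ) := by
      have e4 : U.map ((↑) : ℤ → ℝ) * U⁻¹.map (↑) = 1 :=
        (Matrix.map_mul (f := Int.castRingHom ℝ)).symm.trans (by simp [mul_nonsing_inv _ hU])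
      refine inv_eq_right_inv ?_
      rw [cg, cg, transpose_map, transpose_transpose]
      simp only [Matrix.mul_assoc]
      rw [← Matrix.mul_assoc (U.map _), e4, Matrix.one_mul, nonsing_inv_mul_cancel_left _ _ hd,
        ← transpose_mul, mul_eq_one_comm.1 e4, transpose_one]
    refine Or.inr ⟨γ, hγ, (hγ.rs_int one_pos).sieg h, fun i j => ⟨(e2 i j).trans (le_max_left _ _),
      le_trans ?_ (le_max_right _ _)⟩, by rw [e1, cg_det hV]; exact hl.det_ge h.imM_symm hc.le⟩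
    have := h4.inv_le (cg_symm _ h2) (mul_pos hκ he) i j
    rwa [e3, ← e1] at this
  push Not at h3
  obtain ⟨U, hU, i, h4⟩ := h3
  refine Or.inl ⟨fun k => U k i, col_odd hU i, fun v => ?_⟩
  rw [cg_diag] at h4
  generalize (fun k => (U k i : ℝ)) = w at *
  have h5 : ∀ t : ℝ, 0 ≤ (v ⬝ᵥ imM τ *ᵥ v) * (t * t) + 2 * (w ⬝ᵥ v) * t + w ⬝ᵥ (imM τ)⁻¹ *ᵥ w :=
    fun t => by
      have := h.posDef.posSemidef.dotProduct_mulVec_nonneg (t • v + (imM τ)⁻¹ *ᵥ w)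
      have e : ((imM τ)⁻¹ *ᵥ w) ⬝ᵥ imM τ *ᵥ v = w ⬝ᵥ v := by
        rw [dotProduct_mulVec, ← mulVec_transpose, h.imM_symm, mulVec_mulVec,
          mul_nonsing_inv _ hd, one_mulVec]
      simp only [star_trivial, mulVec_add, mulVec_smul, mulVec_mulVec, mul_nonsing_inv _ hd,
        one_mulVec, add_dotProduct, dotProduct_add, smul_dotProduct, dotProduct_smul, e,
        smul_eq_mul, dotProduct_comm _ w] at this
      linarith
  have h6 := discrim_le_zero h5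
  have h7 : 0 ≤ v ⬝ᵥ imM τ *ᵥ v := by simpa using h.posDef.posSemidef.dotProduct_mulVec_nonneg v
  rw [discrim] at h6
  nlinarith [mul_le_mul_of_nonneg_right h4.le h7]

lemma cast_mul' (γ δ : Matrix (I2 g) (I2 g) ℤ) :
    ((γ * δ).map (↑) : Matrix (I2 g) (I2 g) ℂ) = γ.map (↑) * δ.map (↑) :=
  Matrix.map_mul (f := Int.castRingHom ℂ)

lemma GS.act_act {γ δ : Matrix (I2 g) (I2 g) ℤ} (h : GS 1 γ) (h' : GS 1 δ)
    {τ : Matrix (Fin g) (Fin g) ℂ} (hτ : Sieg τ) :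
    act ((γ * δ).map (↑)) τ = act (γ.map (↑)) (act (δ.map (↑)) τ) := by
  rw [cast_mul', (h.rs_int one_pos).act_mul (h'.rs_int one_pos) hτ]

lemma GS.exists_inv {γ : Matrix (I2 g) (I2 g) ℤ} (h : GS 1 γ) :
    ∃ δ, GS 1 δ ∧ δ * γ = 1 ∧ γ * δ = 1 := by
  have e : (MT.dl γ)ᵀ * γ = 1 := by simpa using congrArg transpose h.transpose_mul_dl
  have e' := mul_eq_one_comm.1 e
  exact ⟨_, fun x y => by
    rw [one_mul, ← one_mul (Ef _ _), ← h, mulVec_mulVec, mulVec_mulVec, e', one_mulVec,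
      one_mulVec], e, e'⟩

lemma RS.act_cont {ν : ℝ} {γ : Matrix (I2 g) (I2 g) ℂ} (h : RS ν γ) :
    ContinuousOn (act γ) {τ | Sieg τ} := fun τ hτ =>
  (act_diffAt (γ := γ) (t := fun y : Fin g → Fin g → ℂ => y) (x := of.symm τ) differentiableAt_id
    (h.det_ne hτ)).continuousAt.continuousWithinAt

/-- passage to a congruence subgroup -/
theorem compact_level {K : Set (Matrix (Fin g) (Fin g) ℂ)} (hK : IsCompact K)
    (hS : ∀ τ ∈ K, Sieg τ) {N : ℕ} (hN : 0 < N) :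
    ∃ K' : Set (Matrix (Fin g) (Fin g) ℂ), IsCompact K' ∧ (∀ τ ∈ K', Sieg τ) ∧
      ∀ τ, Sieg τ → ∀ γ : Matrix (I2 g) (I2 g) ℤ, GS 1 γ → act (γ.map (↑)) τ ∈ K →
        ∃ δ : Matrix (I2 g) (I2 g) ℤ, GS 1 δ ∧ (∀ i j, (N : ℤ) ∣ (δ - 1) i j) ∧
          act (δ.map (↑)) τ ∈ K' := by
  have : NeZero N := ⟨hN.ne'⟩
  have key : ∀ r : Matrix (I2 g) (I2 g) (ZMod N), ∃ ρ : Matrix (I2 g) (I2 g) ℤ, GS 1 ρ ∧
      ∀ γ : Matrix (I2 g) (I2 g) ℤ, GS 1 γ → γ.map (↑) = r → ∀ i j, (N : ℤ) ∣ (ρ * γ - 1) i j := by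
    intro r
    by_cases h : ∃ γ₀ : Matrix (I2 g) (I2 g) ℤ, GS 1 γ₀ ∧ γ₀.map (↑) = r
    · obtain ⟨γ₀, h0, rfl⟩ := h
      obtain ⟨ρ, h1, h2, -⟩ := h0.exists_inv
      refine ⟨ρ, h1, fun γ _ e i j => ?_⟩
      rw [← h2, ← Matrix.mul_sub, mul_apply]
      exact Finset.dvd_sum fun k _ => Dvd.dvd.mul_left
        ((ZMod.intCast_eq_intCast_iff_dvd_sub _ _ _).1 (congrFun (congrFun e k) j).symm) _
    · exact ⟨1, gs_one, fun γ h1 h2 => absurd ⟨γ, h1, h2⟩ h⟩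
  choose ρ h1 h2 using key
  refine ⟨⋃ r, act ((ρ r).map (↑)) '' K, isCompact_iUnion fun r =>
    hK.image_of_continuousOn (((h1 r).rs_int one_pos).act_cont.mono hS), ?_, fun τ hτ γ hγ h => ?_⟩
  · simp only [Set.mem_iUnion]
    rintro _ ⟨r, τ, hτ, rfl⟩
    exact ((h1 r).rs_int one_pos).sieg (hS τ hτ)
  · exact ⟨ρ (γ.map (↑)) * γ, by simpa using (h1 _).mul hγ, h2 _ γ hγ rfl,
      Set.mem_iUnion.2 ⟨_, _, h, ((h1 _).act_act hγ hτ).symm⟩⟩

end Pool.Agent.MT
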