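import Pool.Agent.Lib.MP_d61fbb_ag.MT.GR2

/-! Expansions at infinity and the lemma of Schwarz. -/

noncomputable section

namespace Pool.Agent.MT

open Matrix Complex Filter Asymptotics

variable {g : ℕ}

/-- the exponents of the expansions -/
def Tx (T : Matrix (Fin g) (Fin g) ℤ) : Prop := Tᵀ = T ∧ ∀ i j, |T i j| ≤ T.trace

/-- the exponentials -/
def ex (M : ℕ) (T : Matrix (Fin g) (Fin g) ℤ) (τ : Matrix (Fin g) (Fin g) ℂ) : ℂ :=
  ee ((T.map ((↑) : ℤ → ℂ) * τ).trace / M)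

/-- the span of the exponentials of trace less than `N` -/
def Wx (g M N : ℕ) : Submodule ℂ (Matrix (Fin g) (Fin g) ℂ → ℂ) :=
  Submodule.span ℂ (ex M '' {T | Tx T ∧ T.trace < N})

/-- functions that vanish to order `N` at infinity -/
def Ox (g M N : ℕ) : Submodule ℂ (Matrix (Fin g) (Fin g) ℂ → ℂ) where
  carrier := {f | ∀ τ, Sieg τ → (fun s : ℝ => f (τ + (s * I : ℂ) • 1)) =O[atTop]
    fun s : ℝ => Real.exp (-(2 * Real.pi * s * N / M))}
  add_mem' hf hh τ hτ := (hf τ hτ).add (hh τ hτ)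
  zero_mem' _ _ := isBigO_zero _ _
  smul_mem' c _ hf τ hτ := (hf τ hτ).const_smul_left c

lemma g5_le (g M N : ℕ) : Wx g M N ≤ Submodule.span ℂ (Set.range
    fun c : Sym2 (Fin g) → Finset.Icc (-N : ℤ) N => ex M (of fun i j => c s(i, j))) := by
  refine Submodule.span_mono ?_
  rintro _ ⟨T, ⟨⟨h1, h2⟩, h3⟩, rfl⟩
  exact ⟨Sym2.lift ⟨fun i j => ⟨T i j, Finset.mem_Icc.2 (abs_le.1 ((h2 i j).trans h3.le))⟩,
    fun i j => Subtype.ext (congrFun (congrFun h1 j) i)⟩, rfl⟩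

lemma Tx.nonneg {T : Matrix (Fin g) (Fin g) ℤ} (h : Tx T) : 0 ≤ T.trace := by
  rcases isEmpty_or_nonempty (Fin g) with e | ⟨⟨i⟩⟩
  · simp [trace]
  · exact (abs_nonneg _).trans (h.2 i i)

lemma ex_add (M : ℕ) (T T' : Matrix (Fin g) (Fin g) ℤ) : ex M T * ex M T' = ex M (T + T') := by
  funext τ
  rw [Pi.mul_apply, ex, ex, ex, ← ee_add, Matrix.map_add _ Int.cast_add, add_mul, trace_add,
    add_div]

lemma ex_norm (M : ℕ) {T : Matrix (Fin g) (Fin g) ℤ} (τ : Matrix (Fin g) (Fin g) ℂ) {s : ℝ}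
    (hs : 0 ≤ s) {N : ℕ} (h : N ≤ T.trace) : ‖ex M T (τ + (s * I : ℂ) • 1)‖ ≤
      ‖ex M T τ‖ * Real.exp (-(2 * Real.pi * s * N / M)) := by
  have e : 2 * Real.pi * I * (s * I * (T.trace : ℤ) / M) =
      ((-(2 * Real.pi * s * (T.trace : ℤ) / M) : ℝ) : ℂ) := by
    push_cast
    linear_combination 2 * Real.pi * s * (T.trace : ℤ) / M * I_mul_I
  have e' : (T.map ((↑) : ℤ → ℂ)).trace = (T.trace : ℤ) := by simp [trace]
  rw [ex, mul_add, trace_add, add_div, ee_add, norm_mul, Matrix.mul_smul, mul_one, trace_smul,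
    smul_eq_mul, e', ee.eq_1 (s * I * _ / _), e, norm_exp_ofReal]
  have h' : (N : ℝ) ≤ (T.trace : ℤ) := by exact_mod_cast h
  have := Real.pi_pos
  unfold ex
  gcongr

lemma ex_O (M : ℕ) {T : Matrix (Fin g) (Fin g) ℤ} {N : ℕ} (h : N ≤ T.trace) :
    ex M T ∈ Ox g M N := fun τ _ =>
  .of_bound ‖ex M T τ‖ ((eventually_ge_atTop 0).mono fun s hs => by
    rw [Real.norm_of_nonneg (Real.exp_pos _).le]
    exact ex_norm M τ hs h)

lemma ex_mem (M N : ℕ) {T : Matrix (Fin g) (Fin g) ℤ} (h : Tx T) :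
    ex M T ∈ Wx g M N ⊔ Ox g M N := by
  rcases lt_or_ge T.trace N with k | k
  · exact Submodule.mem_sup_left (Submodule.subset_span ⟨T, ⟨h, k⟩, rfl⟩)
  · exact Submodule.mem_sup_right (ex_O M k)

lemma g5_bdd (g M N : ℕ) : Wx g M N ⊔ Ox g M N ≤ Ox g M 0 := by
  refine sup_le (Submodule.span_le.2 ?_) fun f hf τ hτ => (hf τ hτ).trans ?_
  · rintro _ ⟨T, h, rfl⟩
    exact ex_O M h.1.nonneg
  · refine .of_bound' ((eventually_ge_atTop 0).mono fun s hs => ?_)
    have := Real.pi_pos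
    rw [Real.norm_of_nonneg (Real.exp_pos _).le, Real.norm_of_nonneg (Real.exp_pos _).le]
    gcongr
    exact N.zero_le

lemma g5_mul {M N : ℕ} {f h : Matrix (Fin g) (Fin g) ℂ → ℂ} (hf : f ∈ Ox g M N)
    (hh : h ∈ Ox g M 0) : f * h ∈ Ox g M N := fun τ hτ => by
  simpa using (hf τ hτ).mul (hh τ hτ)

lemma g5_tsum {ι : Type} {M N : ℕ} (u : ι → ℂ) (T : ι → Matrix (Fin g) (Fin g) ℤ)
    (hT : ∀ n, Tx (T n)) (fin : {n | (T n).trace < N}.Finite)
    (hs : ∀ τ, Sieg τ → Summable fun n => ‖u n * ex M (T n) τ‖) :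
    (fun τ => ∑' n, u n * ex M (T n) τ) ∈ Wx g M N ⊔ Ox g M N := by
  refine Submodule.mem_sup.2 ⟨∑ n ∈ fin.toFinset, u n • ex M (T n), Submodule.sum_mem _
    fun n hn => Submodule.smul_mem _ _ (Submodule.subset_span ⟨_, ⟨hT n, by simpa using hn⟩, rfl⟩),
    _, fun τ hτ => ?_, add_sub_cancel _ _⟩
  refine .of_bound (∑' n : ↑(fin.toFinset : Set ι)ᶜ, ‖u n * ex M (T n) τ‖)
    ((eventually_ge_atTop 0).mono fun s h0 => ?_)
  have k : ∀ n (L : ℕ), L ≤ (T n).trace → ‖u n * ex M (T n) (τ + (s * I : ℂ) • 1)‖ ≤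
      ‖u n * ex M (T n) τ‖ * Real.exp (-(2 * Real.pi * s * L / M)) := fun n L h => by
    rw [norm_mul, norm_mul, mul_assoc]
    exact mul_le_mul_of_nonneg_left (ex_norm M τ h0 h) (norm_nonneg _)
  have k' : Summable fun n => u n * ex M (T n) (τ + (s * I : ℂ) • 1) :=
    .of_norm_bounded ((hs τ hτ).mul_right _) fun n => k n 0 (hT n).nonneg
  rw [Pi.sub_apply, ← k'.sum_add_tsum_compl (s := fin.toFinset), Finset.sum_apply,
    Real.norm_of_nonneg (Real.exp_pos _).le]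
  simp only [Pi.smul_apply, smul_eq_mul, add_sub_cancel_left]
  exact tsum_of_norm_bounded (((hs τ hτ).subtype _).hasSum.mul_right _) fun n =>
    k n N (by simpa using n.2)

theorem Wx_finite (g M N : ℕ) : Module.Finite ℂ (Wx g M N) := by
  have := FiniteDimensional.span_of_finite ℂ (Set.finite_range
    fun c : Sym2 (Fin g) → Finset.Icc (-N : ℤ) N => ex M (of fun i j => c s(i, j)))
  exact Submodule.finiteDimensional_of_le (g5_le g M N)

theorem Wx_rank (g M N : ℕ) :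
    Module.finrank ℂ (Wx g M N) ≤ (2 * N + 1) ^ Fintype.card (Sym2 (Fin g)) := by
  have := FiniteDimensional.span_of_finite ℂ (Set.finite_range
    fun c : Sym2 (Fin g) → Finset.Icc (-N : ℤ) N => ex M (of fun i j => c s(i, j)))
  refine (Submodule.finrank_mono (g5_le g M N)).trans ((finrank_range_le_card _).trans_eq ?_)
  rw [Fintype.card_fun, Fintype.card_coe, Int.card_Icc]
  congr 1
  omega

theorem exp_one (g M N : ℕ) : (1 : Matrix (Fin g) (Fin g) ℂ → ℂ) ∈ Wx g M N ⊔ Ox g M N := by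
  convert ex_mem M N (T := (0 : Matrix (Fin g) (Fin g) ℤ)) ⟨transpose_zero, by simp⟩
  funext τ
  simp [ex]

theorem exp_mul {M N : ℕ} {f h : Matrix (Fin g) (Fin g) ℂ → ℂ} (hf : f ∈ Wx g M N ⊔ Ox g M N)
    (hh : h ∈ Wx g M N ⊔ Ox g M N) : f * h ∈ Wx g M N ⊔ Ox g M N := by
  obtain ⟨f1, a1, f2, a2, rfl⟩ := Submodule.mem_sup.1 hf
  obtain ⟨h1, b1, h2, b2, rfl⟩ := Submodule.mem_sup.1 hh
  rw [add_mul, mul_add, mul_comm f1 h2]
  refine add_mem (add_mem ?_ (Submodule.mem_sup_right (g5_mul b2 (g5_bdd g M N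
    (Submodule.mem_sup_left a1))))) (Submodule.mem_sup_right (g5_mul a2 (g5_bdd g M N hh)))
  have := Submodule.mul_mem_mul a1 b1
  rw [Wx, Submodule.span_mul_span] at this
  refine Submodule.span_le.2 ?_ this
  rintro _ ⟨_, ⟨T, h, rfl⟩, _, ⟨T', h', rfl⟩, rfl⟩
  beta_reduce
  rw [ex_add]
  refine ex_mem M N ⟨by rw [transpose_add, h.1.1, h'.1.1], fun i j => ?_⟩
  rw [trace_add]
  exact (abs_add_le _ _).trans (add_le_add (h.1.2 i j) (h'.1.2 i j))

theorem exp_Th {M : ℕ} (hM : 0 < M) (N : ℕ) (y : I2 g → ℤ) :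
    (fun τ => Th τ ((1 / M : ℂ) • zc y)) ∈ Wx g (2 * M ^ 2) N ⊔ Ox g (2 * M ^ 2) N := by
  have h0 : (M : ℂ) ≠ 0 := Nat.cast_ne_zero.2 hM.ne'
  set x : I2 g → ℂ := (1 / M : ℂ) • zc y
  let p : (Fin g → ℤ) → Fin g → ℤ := fun n => (M : ℤ) • n + y ∘ .inl
  have hp : ∀ n, zc (p n) = (M : ℂ) • (zc n + x ∘ .inl) := fun n => funext fun i => by
    simp [p, x, zc, mul_add, h0]
  have e : ∀ τ n, tm τ (x ∘ .inl) (x ∘ .inr) n =
      ee ((zc n + x ∘ .inl) ⬝ᵥ x ∘ .inr) * ex (2 * M ^ 2) (vecMulVec (p n) (p n)) τ := fun τ n => by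
    have : (vecMulVec (p n) (p n)).map ((↑) : ℤ → ℂ) = vecMulVec (zc (p n)) (zc (p n)) := by
      ext i j
      simp [vecMulVec_apply]
    rw [tm, ex, this, vecMulVec_mul, trace_vecMulVec, hp, dotProduct_comm _ (_ ᵥ* τ),
      ← dotProduct_mulVec, mulVec_smul, smul_dotProduct, dotProduct_smul, ← ee_add, add_comm, smul_eq_mul, smul_eq_mul]
    congr 2
    push_cast
    field_simp
  have sq : ∀ (q : Fin g → ℤ) i, q i * q i ≤ (vecMulVec q q).trace := fun q i =>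
    Finset.single_le_sum (f := fun i => q i * q i) (fun i _ => mul_self_nonneg _)
      (Finset.mem_univ i)
  have k := g5_tsum (M := 2 * M ^ 2) (N := N) (fun n => ee ((zc n + x ∘ .inl) ⬝ᵥ x ∘ .inr))
    (fun n => vecMulVec (p n) (p n)) (fun n => ⟨transpose_vecMulVec _ _, fun i j => by
      have h1 := sq (p n) i
      have h2 := sq (p n) j
      rw [vecMulVec_apply, abs_le]
      constructor <;> nlinarith [sq_nonneg (p n i + p n j), sq_nonneg (p n i - p n j)]⟩)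
    (((Set.Finite.pi' fun _ : Fin g => Set.finite_Icc (-N : ℤ) N).preimage (f := p)
      fun n _ n' _ h => smul_right_injective _ (Int.natCast_ne_zero.2 hM.ne')
        (add_right_cancel h)).subset fun n hn i => by
      have h1 := (sq (p n) i).trans_lt hn
      constructor <;> nlinarith [sq_nonneg (p n i + 1), sq_nonneg (p n i - 1)])
    fun τ hτ => by simpa only [e] using hτ.summable (x ∘ .inl) (x ∘ .inr)
  simp only [Th, T, e]
  exact Submodule.smul_mem _ (ee (-(Qf x / 2))) k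

/-- the lemma of Schwarz on a half plane -/
theorem schwarz_half {f : ℂ → ℂ} {c B r : ℝ} (hc : 0 < c) (hr : 0 ≤ r)
    (hd : ∀ t : ℂ, -c ≤ t.im → DifferentiableAt ℂ f t) (hB : ∀ t : ℂ, -c ≤ t.im → ‖f t‖ ≤ B)
    (hO : (fun s : ℝ => f (s * I)) =O[atTop] fun s : ℝ => Real.exp (-(r * s))) :
    ‖f 0‖ ≤ B * Real.exp (-(r * c)) := by
  have im : ∀ z : ℂ, 0 ≤ z.re → -c ≤ ((z - c) * I).im := fun z hz => by simpa using hz
  have nm : ∀ z : ℂ, ‖f ((z - c) * I) * exp (r * (z - c))‖ =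
      ‖f ((z - c) * I)‖ * Real.exp (r * (z.re - c)) := fun z => by
    simp [norm_exp]
  have k := PhragmenLindelof.right_half_plane_of_bounded_on_real
    (f := fun z => f ((z - c) * I) * exp (r * (z - c))) (C := B * Real.exp (-(r * c))) (z := c)
    (DifferentiableOn.diffContOnCl fun z hz => ?_) ⟨1, one_lt_two, r, .of_bound B ?_⟩ ?_
    (fun x => ?_) hc.le
  · simpa using k
  · rw [closure_setOfPred_lt_re] at hz
    exact (((hd _ (im z hz)).comp z (by fun_prop)).mul (by fun_prop)).differentiableWithinAt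
  · refine eventually_inf_principal.2 (.of_forall fun z hz => ?_)
    rw [nm, Real.norm_of_nonneg (Real.exp_pos _).le, Real.rpow_one]
    have h1 := hB _ (im z hz.le)
    have h2 := re_le_norm z
    gcongr
    · exact (norm_nonneg _).trans h1
    · linarith
  · obtain ⟨C, hC⟩ := (hO.comp_tendsto (tendsto_atTop_add_const_right _ (-c) tendsto_id)).bound
    refine ⟨C, eventually_map.2 (hC.mono fun x hx => ?_)⟩
    show _ ≤ C
    rw [nm, ← le_div_iff₀ (Real.exp_pos _), div_eq_mul_inv, ← Real.exp_neg]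
    simpa [sub_eq_add_neg] using hx
  · rw [nm, show r * (((x : ℂ) * I).re - c) = -(r * c) by simp]
    exact mul_le_mul_of_nonneg_right (hB _ (im _ (by simp))) (Real.exp_pos _).le

end Pool.Agent.MT
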