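import Pool.Agent.Lib.MP_d61fbb_ag.MT.GR4
import Pool.Agent.Lib.MP_d61fbb_ag.MT.GR5
import Pool.Agent.Lib.MP_d61fbb_ag.MT.A6b

/-! The vanishing theorem of Siegel for polynomials in theta constants. -/

noncomputable section

namespace Pool.Agent.MT

open Matrix Complex MvPolynomial Filter Asymptotics

variable {g M : ℕ} {τ : Matrix (Fin g) (Fin g) ℂ} {V : Type} [Fintype V]

lemma hom_smul {G : MvPolynomial V ℂ} {n : ℕ} (h : G.IsHomogeneous n) (j : ℂ) (v : V → ℂ) :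
    eval (fun a => j * v a) G = j ^ n * eval v G := by
  rw [eval_eq', eval_eq', Finset.mul_sum]
  refine Finset.sum_congr rfl fun d hd => ?_
  have : ∑ a, d a = n := by
    rw [← Finsupp.degree_eq_sum]
    by_contra e
    exact mem_support_iff.1 hd (h.coeff_eq_zero e)
  simp only [mul_pow, Finset.prod_mul_distrib, Finset.prod_pow_eq_pow_sum, this]
  ring

lemma hom_bound {G : MvPolynomial V ℂ} {n : ℕ} (h : G.IsHomogeneous n) : ∃ b : ℝ, 0 ≤ b ∧
    ∀ (ν : ℝ) (v : V → ℂ), 0 < ν → (∀ a, ‖v a‖ ≤ ν) → ‖eval v G‖ ≤ b * ν ^ n := by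
  obtain ⟨b, hb⟩ := (isCompact_closedBall (0 : V → ℂ) 1).exists_bound_of_continuousOn
    (MvPolynomial.continuous_eval G).continuousOn
  refine ⟨b, (norm_nonneg _).trans (hb 0 (by simp)), fun ν v hν hv => ?_⟩
  have h1 : (ν : ℂ) ≠ 0 := by exact_mod_cast hν.ne'
  have : v = fun a => ν * ((ν : ℂ)⁻¹ * v a) := by funext a; field_simp
  rw [this, hom_smul h, norm_mul, norm_pow, norm_real, Real.norm_of_nonneg hν.le, mul_comm]
  refine mul_le_mul_of_nonneg_right (hb _ (mem_closedBall_zero_iff.2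
    ((pi_norm_le_iff_of_nonneg one_pos.le).2 fun a => ?_))) (by positivity)
  rw [norm_mul, norm_inv, norm_real, Real.norm_of_nonneg hν.le]
  exact (inv_mul_le_one₀ hν).2 (hv a)

/-- theta constants times roots of unity -/
def vl (M : ℕ) (τ : Matrix (Fin g) (Fin g) ℂ) (a : ℤ) (y : I2 g → ℤ) : ℂ :=
  ee (a / (4 * M)) * Th τ ((1 / M : ℂ) • zc y)

/-- a finite set of representatives -/
abbrev SV (g M : ℕ) := Fin (4 * M) × (I2 g → Fin (2 * M ^ 2))

/-- the values at the representatives -/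
def vs (τ : Matrix (Fin g) (Fin g) ℂ) (s : SV g M) : ℂ :=
  vl M τ (s.1 : ℕ) fun i => (s.2 i : ℕ)

lemma vl_red (hM : 0 < M) (a : ℤ) (y : I2 g → ℤ) : ∃ s : SV g M, ∀ τ, vl M τ a y = vs τ s := by
  have h0 : (M : ℂ) ≠ 0 := Nat.cast_ne_zero.2 hM.ne'
  have k : ∀ (N : ℕ), 0 < N → ∀ a : ℤ, ∃ (b : Fin N) (c : ℤ), a = (b : ℕ) + N * c := fun N hN a => by
    have h1 : (0 : ℤ) < N := by exact_mod_cast hN
    have h2 := Int.emod_nonneg a h1.ne'
    exact ⟨⟨(a % N).toNat, by have := Int.emod_lt_of_pos a h1; omega⟩, a / N, by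
      rw [Int.toNat_of_nonneg h2, Int.emod_add_mul_ediv]⟩
  obtain ⟨b, c, rfl⟩ := k (4 * M) (by omega) a
  choose z m hz using fun i => k (2 * M ^ 2) (by positivity) (y i)
  refine ⟨(b, z), fun τ => ?_⟩
  have e : (1 / M : ℂ) • zc y = (1 / M : ℂ) • zc (fun i => (z i : ℕ)) + zc ((2 * M : ℤ) • m) := by
    funext i; simp [zc, hz i]; field_simp
  have e1 : zc ((2 * M : ℤ) • m) = (2 * M : ℂ) • zc m := by funext i; simp [zc]
  rw [vl, vs, vl, e, Th_int, ← mul_assoc, ← ee_add, ← ee_add]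
  congr 1
  refine ee_congr (c + (2 * M ^ 2 * Qf m + Ef (fun i => ((z i : ℕ) : ℤ)) m)) ?_
  rw [e1, Ef_smul_left, Ef_smul_right, Ef_zc, Qf, Pi.smul_comp, Pi.smul_comp, smul_dotProduct,
    dotProduct_smul, ← Qf, Qf_zc]
  push_cast
  simp only [smul_eq_mul]
  field_simp
  ring

lemma vl_rc (y : I2 g → ℤ) : (1 / M : ℂ) • zc y = rc fun i => y i / M := by
  funext i; simp [zc, rc, div_eq_inv_mul]

lemma vs_le (h : Sieg τ) (s : SV g M) : ‖vs τ s‖ ≤ nuT τ := by
  rw [vs, vl, norm_mul, vl_rc, show ((((s.1 : ℕ) : ℤ) : ℂ) / (4 * M)) =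
    (((s.1 : ℕ) / (4 * M) : ℝ) : ℂ) by simp, gr2_ee_real, one_mul]
  exact h.le_nu _

lemma vl_act (hM : 0 < M) {γ : Matrix (I2 g) (I2 g) ℤ} (hγ : GS 1 γ) (h : Sieg τ) :
    ∃ j : ℂ, ‖j‖ * nuT (act (γ.map (↑)) τ) ≤ nuT τ ∧ ∀ a y, ∃ a' y',
      vl (2 * M) τ a y = j * vl (2 * M) (act (γ.map (↑)) τ) a' y' := by
  obtain ⟨η, j, -, H⟩ := hγ.trans_hv
  obtain ⟨hj, H⟩ := H τ h
  have h0 : (M : ℂ) ≠ 0 := Nat.cast_ne_zero.2 hM.ne'
  refine ⟨(j τ)⁻¹, ?_, fun a y => ⟨a - Ef (vz η) y, dl γ *ᵥ (y - (M : ℤ) • vz η), ?_⟩⟩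
  · rw [norm_inv, inv_mul_le_iff₀ (norm_pos_iff.2 hj)]
    refine ciSup_le fun x => ?_
    let x' := (γ.map ((↑) : ℤ → ℝ))ᵀ *ᵥ x
    let r : I2 g → ℝ := fun i => (vz η i : ℝ) / 2
    have e : rc x = dl (γ.map (↑)) *ᵥ rc x' := by
      have : rc x' = (γ.map ((↑) : ℤ → ℂ))ᵀ *ᵥ rc x := by
        funext i; simp [x', rc, mulVec, dotProduct]
      rw [this, mulVec_mulVec, mul_eq_one_comm.1 (by
        simpa using (hγ.map (Int.castRingHom ℂ)).transpose_mul_dl), one_mulVec]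
    have e1 : hv η = rc r := by funext i; simp [hv, r, rc, zc, div_eq_inv_mul]
    have e2 : Ef (rc r) (rc x') / 2 = (Ef r x' / 2 : ℝ) := by
      rw [ofReal_div]; exact congrArg (· / 2) (Ef_map r x' ofRealHom).symm
    rw [e, H, norm_mul, Uc, norm_mul, e1, e2, gr2_ee_real, one_mul,
      show rc x' + rc r = rc (x' + r) by funext i; simp [rc]]
    exact mul_le_mul_of_nonneg_left (h.le_nu _) (norm_nonneg _)
  · have e : (1 / (2 * M : ℕ) : ℂ) • zc (dl γ *ᵥ (y - (M : ℤ) • vz η)) =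
        dl (γ.map (↑)) *ᵥ ((1 / (2 * M : ℕ) : ℂ) • zc y - hv η) := by
      have : (1 / (2 * M : ℕ) : ℂ) • zc y - hv η =
          (1 / (2 * M : ℕ) : ℂ) • zc (y - (M : ℤ) • vz η) := by
        funext i; simp [hv, zc]; field_simp
      rw [this, mulVec_smul]
      congr 1
      funext i
      exact ((Int.castRingHom ℂ).map_mulVec _ _ i).trans (by rw [dl_map]; rfl)
    rw [vl, vl, e, H, Uc, sub_add_cancel, Ef_sub_right, Ef_self, sub_zero, hv, Ef_smul_left,
      Ef_smul_right, Ef_zc, mul_left_comm (ee _), inv_mul_cancel_left₀ hj, ← mul_assoc, ← ee_add]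
    congr 2
    push_cast
    field_simp
    ring

lemma line_sieg (h : Sieg τ) {c : ℝ} (hc : 0 < c) (hl : Lo c (imM τ)) {t : ℂ}
    (ht : -(c / 2) ≤ t.im) : Sieg (τ + t • 1) ∧ Lo (c / 2) (imM (τ + t • 1)) := by
  have e : imM (τ + t • 1) = imM τ + t.im • 1 := by
    ext i j; by_cases k : i = j <;> simp [imM, k]
  have h1 : Lo (c / 2) (imM (τ + t • 1)) := fun y => by
    have := hl y
    rw [e, add_mulVec, smul_mulVec, one_mulVec, dotProduct_add, dotProduct_smul, smul_eq_mul]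
    nlinarith [gr2_sq y]
  refine ⟨⟨by simp [h.symm], fun y hy => ?_⟩, h1⟩
  rw [im_dot]
  exact (mul_pos (half_pos hc) (by simpa using dotProduct_star_self_pos_iff.2 hy)).trans_le (h1 y)

lemma line_diff {t : ℂ} (h0 : τᵀ = τ) (h : Sieg (τ + t • 1)) (s : SV g M) :
    DifferentiableAt ℂ (fun t : ℂ => vs (τ + t • 1) s) t := by
  simp only [vs, vl, Th]
  refine DifferentiableAt.const_mul (DifferentiableAt.const_mul ?_ _) _
  generalize ((1 / M : ℂ) • zc fun i => ((s.2 i : ℕ) : ℤ)) = x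
  have := T_diffAt (t := fun t : ℂ => of.symm (τ + t • 1)) (x := t) (a := fun _ => x ∘ Sum.inl)
    (w := fun _ => x ∘ Sum.inr) h (fun _ => by simp [h0])
    (differentiableAt_pi.2 fun i => differentiableAt_pi.2 fun j => by
      simp only [of_symm_apply, Matrix.add_apply, Matrix.smul_apply, smul_eq_mul]; fun_prop)
    (differentiableAt_const _) (differentiableAt_const _)
  simpa only [Equiv.apply_symm_apply] using this

omit [Fintype V] in
lemma eval_diff {f : ℂ → V → ℂ} {t : ℂ} (h : ∀ a, DifferentiableAt ℂ (f · a) t)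
    (G : MvPolynomial V ℂ) : DifferentiableAt ℂ (fun t => eval (f t) G) t := by
  induction G using MvPolynomial.induction_on with
  | C a => simp
  | add p q hp hq => simpa using hp.fun_add hq
  | mul_X p a hp => simpa using hp.fun_mul (h a)

theorem vanish (g : ℕ) (hM : 0 < M) : ∃ A : ℕ, ∀ (n : ℕ) (G : MvPolynomial V ℂ),
    G.IsHomogeneous n → (∀ r : V → SV g (2 * M),
      (fun τ => eval (fun a => vs τ (r a)) G) ∈ Ox g (2 * (2 * M) ^ 2) (A * (n + 1))) →
    ∀ (r : V → SV g (2 * M)) τ, Sieg τ → eval (fun a => vs τ (r a)) G = 0 := by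
  obtain ⟨c, hc, hred⟩ := red g
  obtain ⟨C, hC⟩ := nu_le g (half_pos hc)
  let ρ : ℝ := 2 * Real.pi / (2 * (2 * M) ^ 2 : ℕ)
  have hρ : 0 < ρ := by positivity
  obtain ⟨A, hA⟩ := exists_nat_ge ((|C| + 1) / (ρ * (c / 2)))
  rw [div_le_iff₀ (by positivity)] at hA
  refine ⟨A, fun n G hG hO => ?_⟩
  have hs : |C| ^ n * Real.exp (-(ρ * (A * (n + 1) : ℕ) * (c / 2))) ≤ 1 / 2 := by
    have h1 : |C| ^ n ≤ Real.exp (n * |C|) := by
      rw [Real.exp_nat_mul]; gcongr; linarith [Real.add_one_le_exp |C|]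
    refine (mul_le_mul_of_nonneg_right h1 (Real.exp_pos _).le).trans ?_
    rw [← Real.exp_add]
    refine (Real.exp_le_exp.2 (show _ ≤ (-1 : ℝ) from ?_)).trans ?_
    · push_cast
      nlinarith [mul_le_mul_of_nonneg_right hA (show (0 : ℝ) ≤ n + 1 by positivity), abs_nonneg C,
        n.cast_nonneg (α := ℝ)]
    · rw [Real.exp_neg, one_div]
      exact inv_anti₀ two_pos (by linarith [Real.add_one_le_exp 1])
  obtain ⟨b, hb, h1⟩ := hom_bound hG
  have key : ∀ (k : ℕ) (r : V → SV g (2 * M)) τ, Sieg τ →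
      ‖eval (fun a => vs τ (r a)) G‖ ≤ b * (1 / 2) ^ k * nuT τ ^ n := by
    refine Nat.rec (fun r τ h => ?_) fun k ih r τ h => ?_
    · simpa using h1 _ _ (one_pos.trans_le h.one_le_nu) fun a => vs_le h _
    obtain ⟨γ, hγ, hl⟩ := hred τ h
    obtain ⟨j, hj, H⟩ := vl_act hM hγ h
    have h2 := (hγ.rs_int one_pos).sieg h
    generalize act (γ.map (↑)) τ = σ at *
    have : ∀ a, ∃ s : SV g (2 * M), vs τ (r a) = j * vs σ s := fun a => by
      obtain ⟨a', y', e⟩ := H (r a).1 fun i => (r a).2 i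
      obtain ⟨s, e'⟩ := vl_red (M := 2 * M) (by omega) a' y'
      exact ⟨s, e.trans (by rw [e'])⟩
    choose r' hr' using this
    have h3 := schwarz_half (f := fun t => eval (fun a => vs (σ + t • 1) (r' a)) G)
      (B := b * (1 / 2) ^ k * |C| ^ n) (r := ρ * (A * (n + 1) : ℕ)) (half_pos hc) (by positivity)
      (fun t ht => eval_diff (fun a => line_diff h2.symm (line_sieg h2 hc hl ht).1 _) G)
      (fun t ht => by
        obtain ⟨e1, e2⟩ := line_sieg h2 hc hl ht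
        refine (ih r' _ e1).trans ?_
        have := one_pos.trans_le e1.one_le_nu
        gcongr
        exact (hC _ e1 e2).trans (le_abs_self C))
      (by convert hO r' σ h2 using 4; simp only [ρ]; ring)
    rw [zero_smul, add_zero, mul_assoc _ (_ ^ n)] at h3
    rw [funext hr', hom_smul hG, norm_mul, norm_pow]
    have h4 : ‖j‖ ≤ nuT τ := (le_mul_of_one_le_right (norm_nonneg _) h2.one_le_nu).trans hj
    calc _ ≤ nuT τ ^ n * (b * (1 / 2) ^ k * (1 / 2)) := by
          have := (norm_nonneg _).trans h4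
          gcongr
          exact h3.trans (by gcongr)
      _ = _ := by rw [pow_succ]; ring
  refine fun r τ h => norm_le_zero_iff.1 (ge_of_tendsto' (x := atTop) ?_ fun k => key k r τ h)
  simpa using ((tendsto_pow_atTop_nhds_zero_of_lt_one (r := (1 / 2 : ℝ)) (by norm_num)
    (by norm_num)).const_mul b).mul_const (nuT τ ^ n)

omit [Fintype V] in
lemma eval_exp (hM : 0 < M) (N : ℕ) (r : V → SV g M) (G : MvPolynomial V ℂ) :
    (fun τ => eval (fun a => vs τ (r a)) G) ∈ Wx g (2 * M ^ 2) N ⊔ Ox g (2 * M ^ 2) N := by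
  induction G using MvPolynomial.induction_on with
  | C a => convert Submodule.smul_mem _ a (exp_one g (2 * M ^ 2) N) using 2; simp
  | add p q hp hq => convert Submodule.add_mem _ hp hq using 2; simp
  | mul_X p a hp =>
    convert exp_mul hp (Submodule.smul_mem _ (ee ((((r a).1 : ℕ) : ℤ) / (4 * M)))
      (exp_Th hM N fun i => ((r a).2 i : ℕ))) using 2
    simp [vs, vl]

theorem trdeg_core {κ : Type} [Fintype κ] (hκ : Fintype.card (Sym2 (Fin g)) < Fintype.card κ)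
    (hM : 0 < M) {D : ℕ} {P₀ : MvPolynomial V ℂ} {P : κ → MvPolynomial V ℂ}
    (h₀ : P₀.IsHomogeneous D) (h : ∀ i, (P i).IsHomogeneous D) : ∃ Q : MvPolynomial κ ℂ, Q ≠ 0 ∧
      ∀ (r : V → SV g (2 * M)) τ, Sieg τ → eval (fun a => vs τ (r a)) P₀ ≠ 0 →
        eval (fun i => eval (fun a => vs τ (r a)) (P i) / eval (fun a => vs τ (r a)) P₀) Q = 0 := by
  classical
  obtain ⟨A, hA⟩ := vanish (V := V) g hM
  set e := Fintype.card κ
  set n₀ := Fintype.card (Sym2 (Fin g))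
  let L := 2 * A * (D * e + 1) + 1
  let k := Fintype.card (V → SV g (2 * M)) * L ^ n₀
  let N := A * (D * (e * k) + 1)
  let G : (κ → Fin (k + 1)) → MvPolynomial V ℂ := fun m =>
    P₀ ^ (e * k - ∑ i, (m i : ℕ)) * ∏ i, P i ^ (m i : ℕ)
  have hm : ∀ m : κ → Fin (k + 1), ∑ i, (m i : ℕ) ≤ e * k := fun m => by
    simpa using Finset.sum_le_card_nsmul Finset.univ (fun i => (m i : ℕ)) k
      fun i _ => Nat.le_of_lt_succ (m i).2
  have hG : ∀ m, (G m).IsHomogeneous (D * (e * k)) := fun m => by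
    convert (h₀.pow _).mul (IsHomogeneous.prod _ _ _ fun i _ => (h i).pow (m i)) using 1
    rw [← Finset.mul_sum, ← mul_add, Nat.sub_add_cancel (hm m)]
  have := fun m r => Submodule.mem_sup.1 (eval_exp (g := g) (M := 2 * M) (by omega) N r (G m))
  choose p hp o ho e1 using this
  have := Wx_finite g (2 * (2 * M) ^ 2) N
  obtain ⟨c, hc, m₀, hm₀⟩ := Fintype.not_linearIndependent_iff.1 (show ¬ LinearIndependent ℂ
      fun m r => (⟨p m r, hp m r⟩ : Wx g (2 * (2 * M) ^ 2) N) from fun hl => by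
    have h1 := hl.fintype_card_le_finrank
    rw [Module.finrank_pi_fintype, Finset.sum_const, Finset.card_univ, smul_eq_mul,
      Fintype.card_fun, Fintype.card_fin] at h1
    have h2 : 2 * N + 1 ≤ L * (k + 1) := by
      simp only [N, L]; nlinarith [Nat.zero_le (A * k), Nat.zero_le (A * (D * e))]
    have h3 := (Wx_rank g (2 * (2 * M) ^ 2) N).trans (Nat.pow_le_pow_left h2 n₀)
    have h4 : (k + 1) ^ (n₀ + 1) ≤ k * (k + 1) ^ n₀ :=
      (Nat.pow_le_pow_right k.succ_pos hκ).trans (h1.trans ((Nat.mul_le_mul_left _ h3).trans_eq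
        (by rw [mul_pow L, ← mul_assoc])))
    rw [pow_succ'] at h4
    exact absurd (Nat.le_of_mul_le_mul_right h4 (by positivity)) (by omega))
  have h5 := hA _ (∑ m, C (c m) * G m) (IsHomogeneous.sum _ _ _ fun m _ => (hG m).C_mul _)
    fun r => by
      have e2 : ∑ m, c m • p m r = 0 := by simpa using congrArg Subtype.val (congrFun hc r)
      convert Submodule.sum_mem _ fun m (_ : m ∈ Finset.univ) =>
        Submodule.smul_mem _ (c m) (ho m r) using 1
      rw [← zero_add (∑ m, c m • o m r), ← e2, ← Finset.sum_add_distrib]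
      funext τ
      simp only [← smul_add, e1]
      simp
  let d : (κ → Fin (k + 1)) → κ →₀ ℕ := fun m => Finsupp.equivFunOnFinite.symm fun i => m i
  refine ⟨∑ m, monomial (d m) (c m), fun e2 => hm₀ ?_, fun r τ hτ h6 => ?_⟩
  · have := congrArg (coeff (d m₀)) e2
    rw [coeff_sum, Finset.sum_eq_single m₀ (fun m _ hne => by
      rw [coeff_monomial, if_neg fun e3 => hne (funext fun i => Fin.ext (congrArg (· i) e3))])
      (by simp)] at this
    simpa using this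
  · refine mul_left_cancel₀ (pow_ne_zero (e * k) h6) ?_
    rw [mul_zero, ← h5 r τ hτ, map_sum, map_sum, Finset.mul_sum]
    refine Finset.sum_congr rfl fun m _ => ?_
    rw [eval_monomial, Finsupp.prod_fintype _ _ (by simp)]
    conv_lhs => rw [← Nat.sub_add_cancel (hm m), pow_add]
    simp [G, d, div_pow, Finset.prod_div_distrib, Finset.prod_pow_eq_pow_sum]
    field_simp

theorem trdeg' {κ : Type} [Fintype κ] (hκ : Fintype.card (Sym2 (Fin g)) < Fintype.card κ) {D : ℕ}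
    {F₀ : Matrix (Fin g) (Fin g) ℂ → ℂ} {F : κ → Matrix (Fin g) (Fin g) ℂ → ℂ} (h₀ : Form D F₀)
    (h : ∀ i, Form D (F i)) : ∃ P : MvPolynomial κ ℂ, P ≠ 0 ∧
      ∀ τ, Sieg τ → F₀ τ ≠ 0 → eval (fun i => F i τ / F₀ τ) P = 0 := by
  classical
  obtain ⟨P₀, h₀, e₀⟩ := h₀
  choose P h e using h
  let Y : Finset (I2 g → ℚ) := P₀.vars ∪ Finset.univ.biUnion fun i => (P i).vars
  have hv : Function.Injective (Subtype.val : Y → _) := Subtype.val_injective
  obtain ⟨Q₀, hQ₀⟩ := exists_rename_eq_of_vars_subset_range P₀ _ hv fun x hx =>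
    ⟨⟨x, Finset.mem_union_left _ hx⟩, rfl⟩
  choose Q hQ using fun i => exists_rename_eq_of_vars_subset_range (P i) _ hv fun x hx =>
    ⟨⟨x, Finset.mem_union_right _ (Finset.mem_biUnion.2 ⟨i, Finset.mem_univ _, hx⟩)⟩, rfl⟩
  let M := ∏ x : Y, ∏ i, (x.1 i).den
  have hM : 0 < M := Finset.prod_pos fun x _ => Finset.prod_pos fun i _ => (x.1 i).den_pos
  have : ∀ x : Y, ∃ s : SV g (2 * M), ∀ τ, Th τ (qc x.1) = vs τ s := fun x => by
    have k : ∀ i, ∃ c : ℕ, M = (x.1 i).den * c := fun i =>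
      (Finset.dvd_prod_of_mem _ (Finset.mem_univ i)).trans (Finset.dvd_prod_of_mem
        (fun x : Y => ∏ i, (x.1 i).den) (Finset.mem_univ x))
    choose c hc using k
    obtain ⟨s, hs⟩ := vl_red (M := 2 * M) (by omega) 0 fun i => 2 * c i * (x.1 i).num
    refine ⟨s, fun τ => ?_⟩
    rw [← hs, vl, Int.cast_zero, zero_div, ee_zero, one_mul]
    congr 1
    funext i
    have h1 : (c i : ℂ) ≠ 0 := Nat.cast_ne_zero.2 fun e => hM.ne' (by rw [hc i, e, mul_zero])
    have h2 : ((x.1 i).den : ℂ) ≠ 0 := Nat.cast_ne_zero.2 (x.1 i).den_nz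
    simp only [qc, zc, Pi.smul_apply, smul_eq_mul, hc i, Rat.cast_def]
    push_cast
    field_simp
  choose r hr using this
  obtain ⟨R, hR, H⟩ := trdeg_core hκ hM (P₀ := Q₀) (P := Q)
    ((IsHomogeneous.rename_isHomogeneous_iff hv).1 (hQ₀ ▸ h₀))
    fun i => (IsHomogeneous.rename_isHomogeneous_iff hv).1 (hQ i ▸ h i)
  refine ⟨R, hR, fun τ hτ => ?_⟩
  simp only [e₀ τ hτ, fun i => e i τ hτ, ← hQ₀, ← hQ, eval_rename, Function.comp_def, hr]
  exact H r τ hτ

end Pool.Agent.MT
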