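import Pool.Agent.Lib.MP_d61fbb_ag.MT.DKp

/-! Tensor powers of a matrix and the action of the Lie algebra on them. -/

set_option autoImplicit false

open Matrix

namespace Pool.Agent.MT

variable {κ n R R' : Type*} [Fintype κ] [DecidableEq κ] [Fintype n] [DecidableEq n]
  [CommRing R] [CommRing R']

/-- the tensor power -/
def tk (κ : Type*) [Fintype κ] (g : Matrix n n R) : Matrix (κ → n) (κ → n) R := kp fun _ : κ => g

/-- the action in one slot -/
def sl (i : κ) (X : Matrix n n R) : Matrix (κ → n) (κ → n) R :=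
  kp (Pi.mulSingle (M := fun _ : κ => Matrix n n R) i X)

/-- the action as a derivation -/
def dp (κ : Type*) [Fintype κ] [DecidableEq κ] (X : Matrix n n R) : Matrix (κ → n) (κ → n) R :=
  ∑ i : κ, sl i X

omit [DecidableEq κ] [Fintype n] [DecidableEq n] in
theorem tk_apply (g : Matrix n n R) (a b : κ → n) : tk κ g a b = ∏ i, g (a i) (b i) := rfl

omit [DecidableEq n] in
theorem tk_mul (g h : Matrix n n R) : tk κ (g * h) = tk κ g * tk κ h :=
  kp_mul (fun _ => g) fun _ => h

omit [DecidableEq κ] [Fintype n] in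
theorem tk_one : tk κ (1 : Matrix n n R) = 1 := kp_one

omit [DecidableEq κ] [Fintype n] [DecidableEq n] in
theorem tk_map (f : R →+* R') (g : Matrix n n R) : (tk κ g).map f = tk κ (g.map f) := kp_map f _

omit [Fintype n] in
theorem sl_apply (i : κ) (X : Matrix n n R) (a b : κ → n) :
    sl i X a b = X (a i) (b i) * ∏ j ∈ Finset.univ.erase i, (1 : Matrix n n R) (a j) (b j) := by
  rw [sl, kp_apply, ← Finset.mul_prod_erase _ _ (Finset.mem_univ i), Pi.mulSingle_eq_same]
  congr 1
  refine Finset.prod_congr rfl fun j hj => ?_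
  rw [Pi.mulSingle_eq_of_ne (Finset.ne_of_mem_erase hj)]

omit [Fintype n] in
theorem dp_apply (X : Matrix n n R) (a b : κ → n) : dp κ X a b =
    ∑ i, X (a i) (b i) * ∏ j ∈ Finset.univ.erase i, (1 : Matrix n n R) (a j) (b j) := by
  simp only [dp, Matrix.sum_apply, sl_apply]

theorem sl_mul (i : κ) (X Y : Matrix n n R) : sl i (X * Y) = sl i X * sl i Y := by
  rw [sl, Pi.mulSingle_mul]
  exact kp_mul _ _

theorem sl_comm {i j : κ} (h : i ≠ j) (X Y : Matrix n n R) : sl i X * sl j Y = sl j Y * sl i X :=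
  ((Pi.mulSingle_commute (f := fun _ : κ => Matrix n n R) h X Y).map kpHom).eq

omit [Fintype n] in
theorem dp_add (X Y : Matrix n n R) : dp κ (X + Y) = dp κ X + dp κ Y := by
  ext a b
  simp only [dp_apply, Matrix.add_apply, add_mul, Finset.sum_add_distrib]

omit [Fintype n] in
theorem dp_sub (X Y : Matrix n n R) : dp κ (X - Y) = dp κ X - dp κ Y := by
  ext a b
  simp only [dp_apply, Matrix.sub_apply, sub_mul, Finset.sum_sub_distrib]

omit [Fintype n] in
theorem dp_smul (c : R) (X : Matrix n n R) : dp κ (c • X) = c • dp κ X := by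
  ext a b
  simp only [dp_apply, Matrix.smul_apply, smul_eq_mul, Finset.mul_sum, mul_assoc]

omit [Fintype n] in
theorem dp_zero : dp κ (0 : Matrix n n R) = 0 := by
  ext a b
  simp [dp_apply]

omit [Fintype n] in
theorem dp_map (f : R →+* R') (X : Matrix n n R) : (dp κ X).map f = dp κ (X.map f) := by
  ext a b
  simp [dp_apply, Matrix.one_apply, apply_ite f]

theorem dp_lie (X Y : Matrix n n R) :
    dp κ (X * Y - Y * X) = dp κ X * dp κ Y - dp κ Y * dp κ X := by
  rw [dp_sub]
  simp only [dp, Finset.sum_mul_sum, sl_mul]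
  rw [Finset.sum_comm (f := fun i j => sl i Y * sl j X), ← Finset.sum_sub_distrib,
    ← Finset.sum_sub_distrib]
  refine Finset.sum_congr rfl fun i _ => ?_
  rw [← Finset.sum_sub_distrib, Finset.sum_eq_single i]
  · intro j _ hj
    rw [sl_comm hj.symm, sub_self]
  · simp

theorem tk_dp {g X X' : Matrix n n R} (h : g * X = X' * g) :
    tk κ g * dp κ X = dp κ X' * tk κ g := by
  simp only [dp, Finset.mul_sum, Finset.sum_mul]
  refine Finset.sum_congr rfl fun i _ => ?_
  rw [tk, sl, sl, ← kp_mul, ← kp_mul]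
  congr 1
  funext j
  by_cases hj : j = i
  · subst hj
    simp [h]
  · simp [Pi.mulSingle_eq_of_ne hj]

omit [Fintype κ] in
theorem prod_eps {ε : R} (hε : ε * ε = 0) (s : Finset κ) (a b : κ → R) :
    ∏ i ∈ s, (a i + ε * b i) = ∏ i ∈ s, a i + ε * ∑ i ∈ s, b i * ∏ j ∈ s.erase i, a j := by
  induction s using Finset.induction_on with
  | empty => simp
  | insert k s hk ih =>
    rw [Finset.prod_insert hk, ih, Finset.prod_insert hk, Finset.sum_insert hk,
      Finset.erase_insert hk]
    have : ∑ i ∈ s, b i * ∏ j ∈ (insert k s).erase i, a j =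
        a k * ∑ i ∈ s, b i * ∏ j ∈ s.erase i, a j := by
      rw [Finset.mul_sum]
      refine Finset.sum_congr rfl fun i hi => ?_
      rw [Finset.erase_insert_of_ne (by rintro rfl; exact hk hi),
        Finset.prod_insert fun h => hk (Finset.mem_of_mem_erase h)]
      ring
    rw [this]
    linear_combination (b k * ∑ i ∈ s, b i * ∏ j ∈ s.erase i, a j) * hε

omit [Fintype n] in
theorem tk_eps {ε : R} (hε : ε * ε = 0) (X : Matrix n n R) :
    tk κ (1 + ε • X) = 1 + ε • dp κ X := by
  ext a b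
  simp only [tk_apply, Matrix.add_apply, Matrix.smul_apply, smul_eq_mul, prod_eps hε, dp_apply]
  rw [← tk_apply, tk_one]

omit [Fintype n] in
theorem hasDerivAt_tk (J : Matrix n n ℝ) (a b : κ → n) :
    HasDerivAt (fun t : ℝ => tk κ (Real.cos t • (1 : Matrix n n ℝ) + Real.sin t • J) a b)
      (dp κ J a b) 0 := by
  have h : ∀ i ∈ (Finset.univ : Finset κ), HasDerivAt (fun t : ℝ =>
      (Real.cos t • (1 : Matrix n n ℝ) + Real.sin t • J) (a i) (b i)) (J (a i) (b i)) 0 := by
    intro i _
    simpa using ((Real.hasDerivAt_cos 0).mul_const ((1 : Matrix n n ℝ) (a i) (b i))).fun_add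
      ((Real.hasDerivAt_sin 0).mul_const (J (a i) (b i)))
  have := HasDerivAt.fun_finsetProd h
  simpa [tk_apply, dp_apply, mul_comm] using this

/-- from the circle to its Lie algebra -/
theorem dp_of_circle (J J' : Matrix n n ℝ) (v : (κ → n) → ℝ)
    (h : ∀ t : ℝ, tk κ (Real.cos t • (1 : Matrix n n ℝ) + Real.sin t • J) *ᵥ v =
      tk κ (Real.cos t • (1 : Matrix n n ℝ) + Real.sin t • J') *ᵥ v) :
    dp κ J *ᵥ v = dp κ J' *ᵥ v := by
  funext a
  have k : ∀ J : Matrix n n ℝ, HasDerivAt (fun t : ℝ =>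
      (tk κ (Real.cos t • (1 : Matrix n n ℝ) + Real.sin t • J) *ᵥ v) a) ((dp κ J *ᵥ v) a) 0 :=
    fun J => HasDerivAt.fun_sum fun b _ => (hasDerivAt_tk J a b).mul_const (v b)
  have k' := k J'
  simp only [← h] at k'
  exact (k J).unique k'

end Pool.Agent.MT
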