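import Pool.Agent.Lib.MP_d61fbb_ag.MT.GT2

/-! Pluecker coordinates of a space of matrices. -/

set_option autoImplicit false

open Matrix

namespace Pool.Agent.MT

variable {ρ κ n m m' R R' : Type*} [Fintype ρ] [DecidableEq ρ] [Fintype κ] [DecidableEq κ]
  [Fintype n] [DecidableEq n] [CommRing R] [CommRing R']

/-- the Pluecker coordinates -/
def pl (e : ρ → Matrix m m' R) (b : ρ → m') (a : ρ → m) : R :=
  (Matrix.of fun i j => e i (a j) (b j)).det

theorem pl_mul [Fintype m] (g : Matrix m m R) (e : ρ → Matrix m m' R) (b : ρ → m') :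
    tk ρ g *ᵥ pl e b = pl (fun i => g * e i) b := by
  funext a
  simp only [mulVec, dotProduct, tk_apply, pl, det_apply', of_apply, mul_apply, Finset.mul_sum,
    Finset.prod_univ_sum, Fintype.piFinset_univ, Finset.prod_mul_distrib]
  rw [Finset.sum_comm]
  refine Finset.sum_congr rfl fun σ _ => Finset.sum_congr rfl fun x _ => by ring

theorem pl_comb (C : Matrix ρ ρ R) (e : ρ → Matrix m m' R) (b : ρ → m') :
    pl (fun i => ∑ k, C i k • e k) b = C.det • pl e b := by
  funext a
  rw [Pi.smul_apply, pl, pl, smul_eq_mul, ← det_mul]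
  congr 1
  ext i j
  simp [mul_apply, Matrix.sum_apply]

theorem pl_map (f : R →+* R') (e : ρ → Matrix m m' R) (b : ρ → m') (a : ρ → m) :
    f (pl e b a) = pl (fun i => (e i).map f) b a := by
  rw [pl, RingHom.map_det]
  rfl

omit [DecidableEq n] in
theorem tk_curry (g : Matrix n n R) (v : (ρ → κ → n) → R) (x : ρ × κ → n) :
    (tk (ρ × κ) g *ᵥ fun y => v (Function.curry y)) x =
      (tk ρ (tk κ g) *ᵥ v) (Function.curry x) := by
  simp only [mulVec, dotProduct, tk_apply, Fintype.prod_prod_type]
  exact (Equiv.curry ρ κ n).sum_comp fun a => (∏ i, ∏ j, g (x (i, j)) (a i j)) * v a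

theorem exists_minor {P : Type*} [Fintype P] {e : ρ → P → ℚ} (he : LinearIndependent ℚ e) :
    ∃ p : ρ → P, (Matrix.of fun i j => e i (p j)).det ≠ 0 := by
  obtain ⟨κ, a, ha, hs, hl⟩ := exists_linearIndependent' ℚ (Matrix.of e).col
  have := Finite.of_injective a ha
  have := Fintype.ofFinite κ
  have hc : Fintype.card ρ = Fintype.card κ := by
    rw [linearIndependent_iff_card_eq_finrank_span.1 hl, Set.finrank, hs,
      ← rank_eq_finrank_span_cols, LinearIndependent.rank_matrix (M := Matrix.of e) he]
  let u := Fintype.equivOfCardEq hc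
  refine ⟨a ∘ u, ?_⟩
  have : LinearIndependent ℚ (Matrix.of fun i j => e i ((a ∘ u) j)).col := hl.comp u u.injective
  exact ((isUnit_iff_isUnit_det _).1 (linearIndependent_cols_iff_isUnit.1 this)).ne_zero

open DualNumber TrivSqZeroExt in
/-- a derivation that kills the Pluecker vector preserves the space -/
theorem pl_lie [Fintype m'] {e : ρ → Matrix (κ → n) m' ℚ} (he : LinearIndependent ℚ e)
    (X : Matrix n n ℚ)
    (h : ∀ b, (dp (ρ × κ) X *ᵥ fun y => pl e b (Function.curry y)) = 0) (i : ρ) :
    dp κ X * e i ∈ Submodule.span ℚ (Set.range e) := by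
  let φ : ℚ →+* ℚ[ε] := algebraMap _ _
  let e' : ρ → Matrix (κ → n) m' ℚ[ε] := fun i => (e i).map φ + (ε : ℚ[ε]) • (dp κ X * e i).map φ
  have k1 : ∀ b a, pl e' b a = φ (pl e b a) := by
    intro b a
    have h1 : e' = fun i => tk κ (1 + (ε : ℚ[ε]) • X.map φ) * (e i).map φ := by
      funext i
      rw [tk_eps eps_mul_eps, Matrix.add_mul, Matrix.one_mul, Matrix.smul_mul, ← dp_map,
        ← Matrix.map_mul]
    rw [h1, ← pl_mul, ← Function.curry_uncurry a, ← tk_curry, tk_eps eps_mul_eps, add_mulVec,
      one_mulVec, smul_mulVec, ← dp_map]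
    have h2 : ((dp (ρ × κ) X).map φ *ᵥ fun y =>
        pl (fun i => (e i).map φ) b (Function.curry y)) = 0 := by
      funext x
      have := congrArg φ (congrFun (h b) x)
      rw [RingHom.map_mulVec] at this
      simpa only [Function.comp_def, pl_map, Pi.zero_apply, map_zero] using this
    rw [h2, smul_zero, add_zero, pl_map]
  obtain ⟨p, hp⟩ := exists_minor (e := fun i => Function.uncurry (e i))
    (he.map' (LinearEquiv.curry ℚ ℚ _ _).symm.toLinearMap (LinearEquiv.ker _))
  set M : Matrix ρ ρ ℚ := Matrix.of fun i j => Function.uncurry (e i) (p j) with hM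
  have k2 : ∀ {S : Type} [CommRing S] (f : ρ → Matrix (κ → n) m' S) (q : (κ → n) × m') (j : ρ),
      cramer (Matrix.of fun i j => f i (p j).1 (p j).2) (fun i => f i q.1 q.2) j =
        pl f (fun k => (Function.update p j q k).2) fun k => (Function.update p j q k).1 := by
    intro S _ f q j
    rw [cramer_apply, pl]
    congr 1
    ext i k
    by_cases hk : k = j
    · subst hk; simp
    · simp [updateCol_ne hk, Function.update_of_ne hk]
  have k3 : dp κ X * e i =
      M.det⁻¹ • ∑ j, (dp κ X * e i) (p j).1 (p j).2 • ∑ k, M.adjugate j k • e k := by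
    ext a b
    have := congrFun (mulVec_cramer (Matrix.of fun i j => e' i (p j).1 (p j).2)
      fun i => e' i a b) i
    simp only [mulVec, dotProduct, k2 e' (a, b), k1, ← k2 e (a, b), cramer_eq_adjugate_mulVec,
      of_apply] at this
    rw [show (Matrix.of fun i j => e' i (p j).1 (p j).2).det = φ M.det from k1 _ _] at this
    replace this := congrArg snd this
    simp only [snd_sum, e', φ, Matrix.add_apply, Matrix.smul_apply, map_apply, smul_eq_mul,
      Pi.smul_apply, DualNumber.snd_mul, snd_add, fst_add, fst_mul, algebraMap_eq_inl, fst_inl,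
      snd_inl, fst_eps, snd_eps, mul_zero, zero_mul, add_zero, zero_add, one_mul] at this
    simp only [Matrix.smul_apply, Matrix.sum_apply, smul_eq_mul]
    rw [eq_inv_mul_iff_mul_eq₀ hp, ← this]
    rfl
  rw [k3]
  exact Submodule.smul_mem _ _ (Submodule.sum_mem _ fun j _ => Submodule.smul_mem _ _
    (Submodule.sum_mem _ fun k _ => Submodule.smul_mem _ _ (Submodule.subset_span ⟨k, rfl⟩)))

end Pool.Agent.MT
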