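import Mathlib

/-! Polynomials over a polynomial ring, read as functions of a parameter and a variable. -/

set_option autoImplicit false

noncomputable section

namespace Pool.Agent.MT.GU

open Polynomial Filter Topology

variable {D : Type}

/-- the value of `Q` at the parameter `t` and the point `w` -/
def ev (Q : (MvPolynomial D ℂ)[X]) (t : D → ℂ) (w : ℂ) : ℂ := Q.eval₂ (MvPolynomial.eval t) w

/-- evaluation as a ring homomorphism -/
def evH (t : D → ℂ) (w : ℂ) : (MvPolynomial D ℂ)[X] →+* ℂ := eval₂RingHom (MvPolynomial.eval t) w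

theorem evH_apply (Q : (MvPolynomial D ℂ)[X]) (t : D → ℂ) (w : ℂ) : evH t w Q = ev Q t w := rfl

theorem ev_mul (P Q : (MvPolynomial D ℂ)[X]) (t : D → ℂ) (w : ℂ) :
    ev (P * Q) t w = ev P t w * ev Q t w := map_mul (evH t w) P Q

theorem ev_add (P Q : (MvPolynomial D ℂ)[X]) (t : D → ℂ) (w : ℂ) :
    ev (P + Q) t w = ev P t w + ev Q t w := map_add (evH t w) P Q

theorem ev_pow (P : (MvPolynomial D ℂ)[X]) (n : ℕ) (t : D → ℂ) (w : ℂ) :
    ev (P ^ n) t w = ev P t w ^ n := map_pow (evH t w) P n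

theorem ev_C (c : MvPolynomial D ℂ) (t : D → ℂ) (w : ℂ) :
    ev (C c) t w = MvPolynomial.eval t c := eval₂_C _ _

theorem ev_X (t : D → ℂ) (w : ℂ) : ev (X : (MvPolynomial D ℂ)[X]) t w = w := eval₂_X _ _

theorem ev_zero (Q : (MvPolynomial D ℂ)[X]) (t : D → ℂ) :
    ev Q t 0 = MvPolynomial.eval t (Q.coeff 0) := eval₂_at_zero _

theorem an_eval {F : Type} [NormedAddCommGroup F] [NormedSpace ℂ F] {t : F → D → ℂ} {x : F}
    (ht : ∀ i, AnalyticAt ℂ (t · i) x) (c : MvPolynomial D ℂ) :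
    AnalyticAt ℂ (fun y => MvPolynomial.eval (t y) c) x := by
  simpa [MvPolynomial.aeval_eq_eval] using AnalyticAt.aeval_mvPolynomial ht c

theorem an_ev {F : Type} [NormedAddCommGroup F] [NormedSpace ℂ F] {t : F → D → ℂ} {w : F → ℂ}
    {x : F} (ht : ∀ i, AnalyticAt ℂ (t · i) x) (hw : AnalyticAt ℂ w x)
    (Q : (MvPolynomial D ℂ)[X]) : AnalyticAt ℂ (fun y => ev Q (t y) (w y)) x := by
  refine Q.induction_on (fun k => ?_) (fun p q hp hq => ?_) fun n k h => ?_
  · simp only [ev_C]; exact an_eval ht k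
  · simp only [ev_add]; exact hp.add hq
  · simp only [pow_succ, ← mul_assoc, ev_mul _ X, ev_X]; exact h.mul hw

theorem ca_eval {F : Type} [TopologicalSpace F] {t : F → D → ℂ} {x : F}
    (ht : ContinuousAt t x) (c : MvPolynomial D ℂ) :
    ContinuousAt (fun y => MvPolynomial.eval (t y) c) x :=
  (MvPolynomial.continuous_eval c).continuousAt.comp ht

theorem ca_ev {F : Type} [TopologicalSpace F] {t : F → D → ℂ} {w : F → ℂ}
    {x : F} (ht : ContinuousAt t x) (hw : ContinuousAt w x)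
    (Q : (MvPolynomial D ℂ)[X]) : ContinuousAt (fun y => ev Q (t y) (w y)) x := by
  refine Q.induction_on (fun k => ?_) (fun p q hp hq => ?_) fun n k h => ?_
  · simp only [ev_C]; exact ca_eval ht k
  · simp only [ev_add]; exact hp.add hq
  · simp only [pow_succ, ← mul_assoc, ev_mul _ X, ev_X]; exact h.mul hw

/-- Near a parameter where the constant coefficient is not zero, the roots stay away from zero. -/
theorem root_low (Q : (MvPolynomial D ℂ)[X]) {t0 : D → ℂ}
    (h : MvPolynomial.eval t0 (Q.coeff 0) ≠ 0) :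
    ∃ δ : ℝ, 0 < δ ∧ ∀ᶠ t in 𝓝 t0, ∀ w, ev Q t w = 0 → δ ≤ ‖w‖ := by
  have hc : ContinuousAt (fun y : (D → ℂ) × ℂ => ev Q y.1 y.2) (t0, 0) :=
    ca_ev continuousAt_fst continuousAt_snd Q
  have h1 := hc.eventually_ne (y := 0) (by simpa [ev_zero] using h)
  rw [nhds_prod_eq, eventually_prod_iff] at h1
  obtain ⟨pa, ha, pb, hb, hab⟩ := h1
  obtain ⟨δ, hδ, hb⟩ := Metric.eventually_nhds_iff.1 hb
  refine ⟨δ, hδ, ha.mono fun t ht w hw => not_lt.1 fun hlt => ?_⟩
  exact hab ht (hb (by simpa using hlt)) hw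

/-- Near a parameter where the leading coefficient is not zero, the roots stay bounded. -/
theorem root_up (Q : (MvPolynomial D ℂ)[X]) {t0 : D → ℂ}
    (h : MvPolynomial.eval t0 Q.leadingCoeff ≠ 0) :
    ∃ c : ℝ, 0 < c ∧ ∀ᶠ t in 𝓝 t0, ∀ w, ev Q t w = 0 → ‖w‖ ≤ c := by
  obtain ⟨δ, hδ, h1⟩ := root_low Q.reverse (t0 := t0) (by rwa [coeff_zero_reverse])
  refine ⟨δ⁻¹, inv_pos.2 hδ, h1.mono fun t ht w hw => ?_⟩
  rcases eq_or_ne w 0 with rfl | h0
  · simpa using hδ.le
  letI := invertibleOfNonzero h0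
  have h2 := ht (⅟w) ((eval₂_reverse_eq_zero_iff _ w Q).2 hw)
  rw [invOf_eq_inv, norm_inv] at h2
  exact (le_inv_comm₀ (norm_pos_iff.2 h0) hδ).2 h2

/-- Removing the factor `X ^ a`. -/
theorem strip (Q : (MvPolynomial D ℂ)[X]) (h : Q ≠ 0) : ∃ Q' : (MvPolynomial D ℂ)[X],
    Q'.coeff 0 ≠ 0 ∧ ∀ t w, ev Q t w = 0 → w = 0 ∨ ev Q' t w = 0 := by
  obtain ⟨Q', h1, h2⟩ := exists_eq_pow_rootMultiplicity_mul_and_not_dvd Q h 0
  rw [C_0, sub_zero] at h1 h2
  refine ⟨Q', fun h0 => h2 (X_dvd_iff.2 h0), fun t w hw => ?_⟩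
  rw [h1, ev_mul, ev_pow, ev_X, mul_eq_zero] at hw
  exact hw.imp (fun h => (pow_eq_zero_iff'.1 h).1) id

/-- The squarefree part, away from a hypersurface of parameters. -/
theorem sqfree (Q : (MvPolynomial D ℂ)[X]) (h : Q ≠ 0) : ∃ (Q' : (MvPolynomial D ℂ)[X])
    (Δ : MvPolynomial D ℂ), Δ ≠ 0 ∧ ∀ t, MvPolynomial.eval t Δ ≠ 0 →
      MvPolynomial.eval t Q'.leadingCoeff ≠ 0 ∧ (∀ w, ev Q t w = 0 → ev Q' t w = 0) ∧
      ∀ w, ev Q' t w = 0 → ev Q'.derivative t w ≠ 0 := by
  set R := MvPolynomial D ℂ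
  let K := FractionRing R
  have inj : Function.Injective (algebraMap R K) := IsFractionRing.injective R K
  have minj := map_injective _ inj
  haveI : CharZero K := algebraRat.charZero K
  have h0 : Q.map (algebraMap R K) ≠ 0 := fun e => h (minj (by simpa using e))
  obtain ⟨y, n, hy, -, g, hg⟩ := exists_squarefree_dvd_pow_of_ne_zero h0
  obtain ⟨a, b, hab⟩ := (separable_def y).1 (PerfectField.separable_iff_squarefree.2 hy)
  have cl : ∀ p : K[X], ∃ (p' : R[X]) (c : R), c ≠ 0 ∧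
      p'.map (algebraMap R K) = C (algebraMap R K c) * p := fun p => by
    obtain ⟨c, hc, e⟩ := IsLocalization.integerNormalization_spec (nonZeroDivisors R) p
    exact ⟨_, c, nonZeroDivisors.ne_zero hc, by rw [e, Algebra.smul_def, Polynomial.algebraMap_apply]⟩
  obtain ⟨y', cy, hcy, ey⟩ := cl y
  obtain ⟨g', cg, hcg, eg⟩ := cl g
  obtain ⟨a', ca, hca, ea⟩ := cl a
  obtain ⟨b', cb, hcb, eb⟩ := cl b
  have y0 : y' ≠ 0 := fun e => by
    rw [e, Polynomial.map_zero, eq_comm, mul_eq_zero, C_eq_zero, map_eq_zero_iff _ inj] at ey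
    exact ey.elim hcy hy.ne_zero
  have e1 : C cg * y' ^ n = Q * (C (cy ^ n) * g') := minj (by
    simp only [Polynomial.map_mul, Polynomial.map_pow, map_C, ey, eg, mul_pow, hg, map_pow]
    ring)
  have e2 : C cb * a' * y' + C ca * b' * y'.derivative = C (ca * cb * cy) := minj (by
    simp only [Polynomial.map_mul, Polynomial.map_add, map_C, ← derivative_map, ey, ea, eb,
      derivative_C_mul, map_mul]
    linear_combination (C (algebraMap R K ca) * C (algebraMap R K cb) * C (algebraMap R K cy)) * hab)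
  refine ⟨y', y'.leadingCoeff * cg * (ca * cb * cy), mul_ne_zero (mul_ne_zero
    (leadingCoeff_ne_zero.2 y0) hcg) (mul_ne_zero (mul_ne_zero hca hcb) hcy), fun t ht => ?_⟩
  rw [map_mul, map_mul, mul_ne_zero_iff, mul_ne_zero_iff] at ht
  refine ⟨ht.1.1, fun w hw => ?_, fun w hw hd => ht.2 ?_⟩
  · have : ev (C cg * y' ^ n) t w = ev (Q * (C (cy ^ n) * g')) t w := by rw [e1]
    rw [ev_mul, ev_mul, ev_pow, ev_C, hw, zero_mul, mul_eq_zero] at this
    exact (pow_eq_zero_iff'.1 (this.resolve_left ht.1.2)).1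
  · have : ev (C cb * a' * y' + C ca * b' * y'.derivative) t w = ev (C (ca * cb * cy)) t w := by
      rw [e2]
    rw [ev_add, ev_mul _ y', ev_mul _ y'.derivative, hw, hd, ev_C] at this
    simpa using this.symm

section
variable {N : Type} (p : N → Prop) [DecidablePred p]

/-- extension by zero -/
def ext0 (t : {i // p i} → ℂ) : N → ℂ := fun i => if h : p i then t ⟨i, h⟩ else 0

/-- substitution of a line in the remaining variables -/
def lineH (c : N → ℂ) : MvPolynomial (Option N) ℂ →+* (MvPolynomial {i // p i} ℂ)[X][X] :=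
  MvPolynomial.eval₂Hom (R := ℂ) (S₁ := (MvPolynomial {i // p i} ℂ)[X][X])
    (C.comp (C.comp MvPolynomial.C)) fun o : Option N => o.elim (C X) fun i =>
    if h : p i then C (C (MvPolynomial.X ⟨i, h⟩)) else C (C (MvPolynomial.C (c i))) * X

theorem lineH_eval (c : N → ℂ) (t : {i // p i} → ℂ) (w e : ℂ) (P : MvPolynomial (Option N) ℂ) :
    (lineH p c P).eval₂ (evH t w) e = MvPolynomial.eval
      (fun o : Option N => o.elim w fun i => ext0 p t i + e * if p i then 0 else c i) P := by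
  have : (eval₂RingHom (evH t w) e).comp (lineH p c) = MvPolynomial.eval
      (fun o : Option N => o.elim w fun i => ext0 p t i + e * if p i then 0 else c i) := by
    refine MvPolynomial.ringHom_ext (fun r => ?_) fun o => ?_
    · simp [lineH, evH]
    · rcases o with _ | i
      · simp [lineH, evH]
      · by_cases h : p i <;> simp [lineH, evH, ext0, h, mul_comm]
  exact DFunLike.congr_fun this P

/-- The universal polynomial: a relation between `u` and `φ` gives one along `u = (t, 0)`. -/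
theorem univ_poly [Finite N] (P : MvPolynomial (Option N) ℂ) (hP : P ≠ 0) :
    ∃ Q : (MvPolynomial {i // p i} ℂ)[X], Q ≠ 0 ∧ ∀ (t : {i // p i} → ℂ) (φ : (N → ℂ) → ℂ),
      ContinuousAt φ (ext0 p t) →
      (∀ᶠ u in 𝓝 (ext0 p t), MvPolynomial.eval (fun o : Option N => o.elim (φ u) u) P = 0) →
      ev Q t (φ (ext0 p t)) = 0 := by
  obtain ⟨c, hc⟩ : ∃ c, lineH p c P ≠ 0 := by
    by_contra! h
    refine hP (MvPolynomial.funext fun x => ?_)
    have := lineH_eval p (fun i => x (some i)) (fun i => x (some i)) (x none) 1 P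
    rw [h, eval₂_zero] at this
    rw [map_zero, this]
    congr 2
    funext o
    rcases o with _ | i
    · rfl
    · by_cases h : p i <;> simp [ext0, h]
  obtain ⟨G, h1, h2⟩ := exists_eq_pow_rootMultiplicity_mul_and_not_dvd _ hc 0
  rw [C_0, sub_zero] at h1 h2
  refine ⟨G.coeff 0, fun h0 => h2 (X_dvd_iff.2 h0), fun t φ hφ h => ?_⟩
  let L : ℂ → N → ℂ := fun e i => ext0 p t i + e * if p i then 0 else c i
  have L0 : L 0 = ext0 p t := by funext i; simp [L]
  have hL : ContinuousAt L 0 := (continuous_pi fun i => by fun_prop : Continuous L).continuousAt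
  have hφL : ContinuousAt (fun e => φ (L e)) 0 := ContinuousAt.comp (L0 ▸ hφ) hL
  have hG : ∀ G : (MvPolynomial {i // p i} ℂ)[X][X],
      ContinuousAt (fun e => G.eval₂ (evH t (φ (L e))) e) 0 := fun G => by
    refine G.induction_on (fun k => ?_) (fun a b ha hb => ?_) fun n k h => ?_
    · simp only [eval₂_C, evH_apply]; exact ca_ev continuousAt_const hφL k
    · simp only [eval₂_add]; exact ha.add hb
    · simp only [pow_succ, ← mul_assoc, eval₂_mul_X]; exact h.mul continuousAt_id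
  have h3 : ∀ᶠ e in 𝓝[≠] (0 : ℂ), G.eval₂ (evH t (φ (L e))) e = 0 := by
    have h4 := hL.tendsto.eventually (L0.symm ▸ h)
    filter_upwards [nhdsWithin_le_nhds h4, self_mem_nhdsWithin] with e he h0
    have := lineH_eval p c t (φ (L e)) e P
    rw [h1, eval₂_mul, eval₂_pow, eval₂_X] at this
    exact (mul_eq_zero.1 (this.trans he)).resolve_left (pow_ne_zero _ h0)
  have h5 := tendsto_nhds_unique ((hG G).tendsto.mono_left nhdsWithin_le_nhds)
    (tendsto_const_nhds.congr' (h3.mono fun e he => he.symm))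
  simpa [L0, evH_apply] using h5

end

end Pool.Agent.MT.GU
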