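import Pool.Agent.Lib.MP_d61fbb_ag.MT.GU1
import Pool.Agent.Lib.MP_0d42ed_ag.WT.NA

/-! Local inverses, branches of algebraic functions, maximal independent families. -/

set_option autoImplicit false

noncomputable section

namespace Pool.Agent.MT.GU

open Polynomial Filter Topology

section
variable {E F : Type} [NormedAddCommGroup E] [NormedSpace ℂ E] [FiniteDimensional ℂ E]
  [NormedAddCommGroup F] [NormedSpace ℂ F]

theorem inv_loc {u : E → E} {z : E} (hu : AnalyticAt ℂ u z)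
    (hi : Function.Injective (fderiv ℂ u z)) : ∃ s : E → E, AnalyticAt ℂ s (u z) ∧ s (u z) = z ∧
      (∀ᶠ v in 𝓝 (u z), u (s v) = v) ∧ ∀ᶠ w in 𝓝 z, s (u w) = w := by
  have : CompleteSpace E := FiniteDimensional.complete ℂ E
  let T : E ≃L[ℂ] E :=
    ((fderiv ℂ u z : E →ₗ[ℂ] E).linearEquivOfInjective hi rfl).toContinuousLinearEquiv
  have hT : ContDiffAt ℂ ⊤ u z := hu.contDiffAt
  have hT' : HasFDerivAt u (T : E →L[ℂ] E) z :=
    hu.differentiableAt.hasFDerivAt.congr_fderiv (ContinuousLinearMap.ext fun _ => rfl)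
  have s := hT.hasStrictFDerivAt' hT' (by simp)
  exact ⟨s.localInverse u T _, (hT.to_localInverse hT' (by simp)).analyticAt,
    s.localInverse_apply_image, s.eventually_right_inverse, s.eventually_left_inverse⟩

theorem left_inv [FiniteDimensional ℂ F] {b : E → F} {z : E} (hb : AnalyticAt ℂ b z)
    (hi : Function.Injective (fderiv ℂ b z)) :
    ∃ Ψ : F → E, AnalyticAt ℂ Ψ (b z) ∧ ∀ᶠ w in 𝓝 z, Ψ (b w) = w := by
  obtain ⟨l, hl⟩ := (fderiv ℂ b z : E →ₗ[ℂ] F).exists_leftInverse_of_injective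
    (LinearMap.ker_eq_bot.2 hi)
  let L : F →L[ℂ] E := LinearMap.toContinuousLinearMap l
  have h1 : AnalyticAt ℂ (fun w => L (b w)) z := (L.analyticAt _).comp hb
  have h2 : fderiv ℂ (fun w => L (b w)) z = L.comp (fderiv ℂ b z) :=
    (L.hasFDerivAt.comp z hb.differentiableAt.hasFDerivAt).fderiv
  obtain ⟨s, hs, -, -, h⟩ := inv_loc h1 (by
    rw [h2]
    exact Function.LeftInverse.injective (g := id) fun v => LinearMap.congr_fun hl v)
  exact ⟨fun v => s (L v), hs.comp (L.analyticAt _), h⟩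

end

variable {D : Type}

theorem ev_hasDerivAt (Q : (MvPolynomial D ℂ)[X]) (t : D → ℂ) (w : ℂ) :
    HasDerivAt (fun a => ev Q t a) (ev Q.derivative t w) w := by
  simpa only [ev, eval₂_eq_eval_map, derivative_map] using
    (Q.map (MvPolynomial.eval t)).hasDerivAt w

/-- The branch of an algebraic function through a simple root. -/
theorem branch [Fintype D] (Q : (MvPolynomial D ℂ)[X]) {t0 : D → ℂ} {w0 : ℂ} (h0 : ev Q t0 w0 = 0)
    (h1 : ev Q.derivative t0 w0 ≠ 0) : ∃ β : (D → ℂ) → ℂ, AnalyticAt ℂ β t0 ∧ β t0 = w0 ∧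
      (∀ᶠ t in 𝓝 t0, ev Q t (β t) = 0) ∧
      ∀ᶠ p in 𝓝 (t0, w0), ev Q p.1 p.2 = 0 → p.2 = β p.1 := by
  have hΦ : AnalyticAt ℂ (fun p : (D → ℂ) × ℂ => ev Q p.1 p.2) (t0, w0) :=
    an_ev (analyticAt_pi_iff.1 analyticAt_fst) analyticAt_snd Q
  obtain ⟨Ψ, a1, a2, a3, a4⟩ := WT.ift_par hΦ _ ((ev_hasDerivAt Q t0 w0).hasFDerivAt_equiv h1)
  simp only [h0] at a1 a2 a3
  have c : AnalyticAt ℂ (fun t : D → ℂ => (t, (0 : ℂ))) t0 := analyticAt_id.prod analyticAt_const
  refine ⟨fun t => Ψ (t, 0), a1.comp_of_eq c rfl, a2, c.continuousAt.tendsto.eventually a3,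
    a4.mono fun p hp h => ?_⟩
  rw [h] at hp
  exact hp.symm

/-- A maximal independent subfamily, with separable equations for the other members. -/
theorem exists_basis {B N : Type} [CommRing B] [IsDomain B] [Algebra ℂ B] [Finite N] (v : N → B) :
    ∃ p : N → Prop, (∀ g : MvPolynomial {i // p i} ℂ, g ≠ 0 →
      MvPolynomial.aeval (fun i : {i // p i} => v i) g ≠ 0) ∧
      ∀ i, ¬ p i → ∃ f : (MvPolynomial {i // p i} ℂ)[X],
        f.eval₂ (MvPolynomial.aeval fun i : {i // p i} => v i).toRingHom (v i) = 0 ∧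
        f.derivative.eval₂ (MvPolynomial.aeval fun i : {i // p i} => v i).toRingHom (v i) ≠ 0 := by
  obtain ⟨s, hs⟩ := (Set.toFinite {s : Set N | AlgebraicIndepOn ℂ v s}).exists_maximal
    ⟨∅, algebraicIndependent_empty_type⟩
  have h1 : AlgebraicIndependent ℂ fun i : s => v i := hs.1
  have ind := algebraicIndependent_iff.1 h1
  refine ⟨(· ∈ s), fun g hg h => hg (ind g h), fun i hi => ?_⟩
  set φ := (MvPolynomial.aeval fun i : s => v i : MvPolynomial s ℂ →ₐ[ℂ] B).toRingHom with hφ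
  have ex : ∃ n, ∃ f : (MvPolynomial s ℂ)[X], f ≠ 0 ∧ f.eval₂ φ (v i) = 0 ∧ f.natDegree = n := by
    have h2 : ¬ AlgebraicIndependent ℂ fun o : Option s => o.elim (v i) fun j => v j := fun h => by
      rw [h1.option_iff_transcendental, ← Set.image_eq_range] at h
      exact hi (hs.2 ((AlgebraicIndepOn.insert_iff hi).2 ⟨h1, h⟩) (Set.subset_insert i s)
        (Set.mem_insert i s))
    rw [algebraicIndependent_iff] at h2
    push Not at h2
    obtain ⟨P, h3, h4⟩ := h2
    refine ⟨_, MvPolynomial.optionEquivLeft ℂ s P, by simpa using h4, ?_, rfl⟩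
    have : (eval₂RingHom φ (v i)).comp (MvPolynomial.optionEquivLeft ℂ s).toRingEquiv.toRingHom =
        (MvPolynomial.aeval fun o : Option s => o.elim (v i) fun j => v j).toRingHom := by
      refine MvPolynomial.ringHom_ext (fun r => ?_) fun o => ?_
      · simp [hφ, MvPolynomial.optionEquivLeft_C]
      · rcases o with _ | j <;>
          simp [hφ, MvPolynomial.optionEquivLeft_X_none, MvPolynomial.optionEquivLeft_X_some]
    exact (DFunLike.congr_fun this P).trans h3
  classical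
  obtain ⟨f, f0, f1, f2⟩ := Nat.find_spec ex
  have hd : f.natDegree ≠ 0 := fun h => by
    rw [eq_C_of_natDegree_eq_zero h, eval₂_C] at f1
    exact f0 (by rw [eq_C_of_natDegree_eq_zero h, ind _ f1, C_0])
  refine ⟨f, f1, fun h => Nat.find_min ex (f2 ▸ natDegree_derivative_lt hd) ⟨_, fun h0 => ?_, h, rfl⟩⟩
  exact hd (Polynomial.derivative_eq_zero.1 h0)

end Pool.Agent.MT.GU
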