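import Pool.Agent.Lib.MP_d61fbb_ag.MT.GX3
import Pool.Agent.Lib.MP_d61fbb_ag.MT.GB0

/-! The fields `ex`, `int` and `gal` of the global data. -/

set_option autoImplicit false

noncomputable section

namespace Pool.Agent.MT

open Matrix Polynomial Sum NumberField Ideal
open Pool.Agent.Lib.MP_696deb_nt.B2 (Qbar Gam jC)

theorem gx_sign (a : I2 4 → ℤ) : ∃ s : ℤ, ‖(s : ℂ)‖ = 1 ∧ ee (Qf (zc a) / 2) = s := by
  have h1 : ee (Qf (zc a) / 2) = (-1) ^ (Qf a : ℤ) := by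
    rw [← ee_half, ee, ee, ← Complex.exp_int_mul, Qf_zc]
    congr 1
    ring
  rcases Int.even_or_odd (Qf a) with h | h
  · exact ⟨1, by simp, by rw [h1, h.neg_one_zpow, Int.cast_one]⟩
  · exact ⟨-1, by simp, by rw [h1, h.neg_one_zpow, Int.cast_neg, Int.cast_one]⟩

/-- the field `int` -/
theorem thG_int {S : TSys Qbar 0} {l₀ : Pr} {e : ℕ} {g : GG} {θ : (I2 4 → ℤ) → ℂ}
    (h : ThG S l₀ e g θ) (a : I2 4 → ℤ) : IsIntegral ℤ (θ a) := by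
  obtain ⟨N, r, F, -, H, hθ⟩ := h
  obtain ⟨s, -, hs⟩ := gx_sign a
  rw [hθ, hs]
  exact (isIntegral_algebraMap (x := s)).mul (map_isIntegral_int jC (H.int _))

/-- the component at `l` is integral -/
def IntG (l : Pr) (g : GG) : Prop := ∀ i j, ‖cpG l g i j‖ ≤ 1

theorem IntG.mul {l : Pr} {g g' : GG} (h : IntG l g) (h' : IntG l g') : IntG l (g * g') :=
  fun i j => by
    rw [map_mul]
    exact gx_mulVec_mem (PadicInt.subring l) (y := fun k => cpG l g' k j) h (fun k => h' k j) i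

theorem IntG.of_K {l : Pr} {g : GG} (h : g ∈ KG l) : IntG l g := fun i j => by
  obtain ⟨u, e⟩ := mem_KG.1 h
  rw [e]
  exact (u.val i j).2

theorem IntG.mulG_le {l : Pr} {g : GG} (h : IntG l g) : ‖cp l (mulG g)‖ ≤ 1 := by
  have h1 := cpG_sim l g (Pi.single (inl 0) 1) (Pi.single (inr 0) 1)
  rw [gn_Ef_base, mul_one, mulVec_single_one, mulVec_single_one] at h1
  rw [← h1]
  exact gx_Ef_mem (PadicInt.subring l) (fun i => h i _) fun i => h i _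

theorem KG_norm {l : Pr} {g : GG} (h : g ∈ KG l) : ‖cp l (mulG g)‖ = 1 := by
  have h2 := (IntG.of_K (inv_mem h)).mulG_le
  have h3 : ‖cp l (mulG g)‖ * ‖cp l (mulG g⁻¹)‖ = 1 := by
    rw [← norm_mul, ← map_mul, ← Units.val_mul, ← map_mul, mul_inv_cancel, map_one,
      Units.val_one, map_one, norm_one]
  exact le_antisymm (IntG.of_K h).mulG_le
    (h3.ge.trans (mul_le_of_le_one_right (norm_nonneg _) h2))

theorem stdAt_of_K {l : Pr} {g : GG} (h : g ∈ KG l) {r : ℚ} (hr : ‖(r : ℚ_[l])‖ = 1) :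
    StdAt l (r • gm g) := fun x => by
  obtain ⟨u, e⟩ := mem_KG.1 h
  have h1 : (r • gm g).map (cp l) = (r : ℚ_[l]) • u.val.map ((↑) : ℤ_[l] → ℚ_[l]) := by
    ext i j
    have h2 := congrFun (congrFun e i) j
    rw [cpG_apply] at h2
    rw [map_apply, Matrix.smul_apply, map_smul, h2, Rat.smul_def]
    rfl
  rw [h1, smul_mulVec, ← gx_int_iff u x]
  simp only [Pi.smul_apply, norm_smul, hr, one_mul]

theorem gx_nat_norm {l : Pr} {n : ℕ} (h : ¬ (l : ℕ) ∣ n) : ‖(n : ℚ_[l])‖ = 1 :=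
  Padic.norm_natCast_eq_one_iff.2 ((Nat.Prime.coprime_iff_not_dvd l.2).2 h)

/-- the polarised lattice of an element whose multiplier has the size of `N` -/
theorem pt_of_mul {g : GG} {N : ℕ} (hN : Odd N)
    (hm : ∀ l : Pr, ‖cp l (mulG g)‖ = ‖(N : ℚ_[l])‖) (h2 : g ∈ KG 2) :
    Pt N ((N : ℚ)⁻¹ • gm g) := by
  have h0 : N ≠ 0 := hN.pos.ne'
  have h1 : ∀ l : Pr, ‖cp l (mulG g) / (N : ℚ_[l])‖ = 1 := fun l => by
    rw [norm_div, hm, div_self (norm_ne_zero_iff.2 (Nat.cast_ne_zero.2 h0))]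
  let μ : ∀ l : Pr, ℤ_[l] := fun l => ⟨_, (h1 l).le⟩
  obtain ⟨w, hw⟩ : IsUnit μ := Pi.isUnit_iff.2 fun l => PadicInt.isUnit_iff.2 (h1 l)
  have h3 : zA w * N = mulG g := gn_ext fun l => by
    rw [hw, map_mul, map_natCast]
    exact div_mul_cancel₀ _ (Nat.cast_ne_zero.2 h0)
  have h4 : qa (N : ℚ)⁻¹ * (N : AF) = 1 := by
    rw [← map_natCast (algebraMap ℚ AF), qa, ← map_mul, inv_mul_cancel₀ (Nat.cast_ne_zero.2 h0),
      map_one]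
  refine ⟨hN, ?_, ⟨w, fun x y => ?_⟩, stdAt_of_K (l := p2) h2 ?_⟩
  · rw [Algebra.smul_def]
    exact ((IsUnit.mk0 _ (inv_ne_zero (Nat.cast_ne_zero.2 h0))).map _).mul (gm_isUnit g)
  · rw [smul_mulVec, smul_mulVec, gx_qsmul', gx_qsmul', Ef_smul_left, Ef_smul_right, mulG_spec,
      ← h3]
    linear_combination (zA w * Ef x y * (qa (N : ℚ)⁻¹ * N + 1)) * h4
  · rw [Rat.cast_inv, Rat.cast_natCast, norm_inv, gx_nat_norm hN.not_two_dvd_nat, inv_one]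

section
variable {τ : Matrix (Fin 4) (Fin 4) ℂ} {K : IntermediateField ℚ ℂ} {M : MumfordType τ K}
  (A : AR M) (l₀ : Pr)

theorem IntVec.gal {N : ℕ} {h : M8 AF} {F : W → Qbar} (H : IntVec A.S N h F) (σ : ℂ ≃ₐ[K] ℂ) :
    IntVec A.S N (mA (M.ρ σ) * h) (A.cj σ F) :=
  ⟨H.pt.gal A σ, H.vec.gal σ H.pt, A.cj_ne σ H.ne, A.cj_int σ H.int⟩

/-- the field `gal` -/
theorem thG_gal {e : ℕ} {g : GG} {θ : (I2 4 → ℤ) → ℂ} (σ : ℂ ≃ₐ[K] ℂ)
    (h : ThG A.S l₀ e g θ) : ThG A.S l₀ e (rhoG A σ * g) fun a => σ (θ a) := by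
  obtain ⟨N, r, F, hr, H, hθ⟩ := h
  have h1 : r • gm (rhoG A σ * g) = mA (M.ρ σ) * r • gm g := by
    rw [map_mul, gm_rhoG, mul_smul_comm]
  refine ⟨N, r, A.cj σ F, hr, h1 ▸ H.gal A σ, fun a => ?_⟩
  obtain ⟨s, -, hs⟩ := gx_sign a
  beta_reduce
  rw [hθ, hs, h1, ← mulVec_mulVec, A.cj_apply, A.res_spec, map_mul, map_intCast]

theorem thG_ex : ∃ c : ℕ, ∀ (e : ℕ) (g : GG) (N : ℕ), Odd N → (∀ l, IntG l g) →
    (∀ l : Pr, ‖cp l (mulG g)‖ = ‖(N : ℚ_[l])‖) → g ∈ KG 2 → ∃ θ, ThG A.S l₀ e g θ ∧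
      ∀ (σ : ℂ ≃+* ℂ) a, ‖σ (θ a)‖ ≤ ((2 * N : ℕ) : ℝ) ^ c := by
  obtain ⟨C, hC⟩ := A.ex_vec
  refine ⟨C + 8, fun e g N hN hi hm h2 => ?_⟩
  have h0 : (N : ℚ) ≠ 0 := Nat.cast_ne_zero.2 hN.pos.ne'
  have P := pt_of_mul hN hm h2
  obtain ⟨F, h3, h4, h5, h6⟩ := hC N _ N P hN.pos.ne' fun t ht => by
    rw [smul_mulVec, ← Nat.cast_smul_eq_nsmul ℚ, smul_inv_smul₀ h0]
    exact gx_L0.2 (gx_mulVec_mem Zh (fun i j l => hi l i j) (gx_L0.1 ht))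
  refine ⟨_, ⟨N, _, F, inv_pos.2 (Nat.cast_pos.2 hN.pos), ⟨P, h3, h4, h5⟩, fun a => rfl⟩,
    fun σ a => ?_⟩
  obtain ⟨s, hs1, hs⟩ := gx_sign a
  rw [hs, map_mul, map_intCast, norm_mul, hs1, one_mul]
  refine (h6 (σ.toRingHom.comp jC) _).trans ?_
  have h7 : C * N ^ 8 ≤ (2 * N) ^ (C + 8) := by
    rw [pow_add]
    exact Nat.mul_le_mul (Nat.lt_pow_self (by have := hN.pos; omega)).le
      (Nat.pow_le_pow_left (by omega) 8)
  exact_mod_cast h7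

variable {E : Type} [Field E] [NumberField E]

theorem Gen.gx_norm {l : Pr} {B : Ideal (𝓞 E)} {a : 𝓞 E} (h : Gen l B a) :
    ‖(absNorm (span {a}) : ℚ_[l])‖ = ‖(absNorm B : ℚ_[l])‖ := by
  obtain ⟨-, c, d, e, hc, hd⟩ := h
  have h1 := congrArg (fun I => ‖(absNorm I : ℚ_[l])‖) e
  simpa only [map_mul, Nat.cast_mul, norm_mul, gx_nat_norm hc, gx_nat_norm hd, mul_one,
    eq_comm] using h1

/-- what membership in the sphere of an ideal says about an element of the adelic group -/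
theorem Loc.In.gx {f n₀ : ℕ} {Γ : Type} [Group Γ] {D : Loc E f n₀ Γ GG} (hK : D.K = KG)
    (hν : ∀ a ≠ 0, ∀ l : Pr, ¬ (l : ℕ) ∣ f → IntG l (D.ν a) ∧
      ‖cp l (mulG (D.ν a))‖ = ‖(absNorm (span {a}) : ℚ_[l])‖)
    {B : Ideal (𝓞 E)} {g : GG} (hB : (absNorm B).Coprime f) (h : D.In B g) (l : Pr) :
    IntG l g ∧ ‖cp l (mulG g)‖ = ‖(absNorm B : ℚ_[l])‖ := by
  by_cases hl : (l : ℕ) ∣ f
  · have h1 : g ∈ KG l := hK ▸ (h l l.2).1 hl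
    refine ⟨.of_K h1, (KG_norm h1).trans (gx_nat_norm fun h2 => ?_).symm⟩
    exact l.2.one_lt.ne' (Nat.eq_one_of_dvd_coprimes hB h2 hl)
  · obtain ⟨a, ha, k, hk, h1⟩ := (h l l.2).2 hl
    have h2 : k ∈ KG l := hK ▸ D.N_le l l.2 hl hk
    rw [hK] at h1
    obtain ⟨h3, h4⟩ := hν a ha.1 l hl
    rw [← mul_inv_cancel_left (k * D.ν a) g]
    refine ⟨((IntG.of_K h2).mul h3).mul (.of_K h1), ?_⟩
    rw [map_mul, map_mul, Units.val_mul, Units.val_mul, map_mul, map_mul, norm_mul, norm_mul,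
      KG_norm h2, KG_norm h1, one_mul, mul_one, h4, ha.gx_norm]

/-- the field `ex` -/
theorem glob_ex {f n₀ : ℕ} {Γ : Type} [Group Γ] (D : Loc E f n₀ Γ GG) (hK : D.K = KG) (h2 : 2 ∣ f)
    (hν : ∀ a ≠ 0, ∀ l : Pr, ¬ (l : ℕ) ∣ f → IntG l (D.ν a) ∧
      ‖cp l (mulG (D.ν a))‖ = ‖(absNorm (span {a}) : ℚ_[l])‖) :
    ∃ c : ℕ, ∀ e B g, B ≠ 0 → (absNorm B).Coprime f → D.In B g →
      ∃ θ, ThG A.S l₀ e g θ ∧ ∀ (σ : ℂ ≃+* ℂ) a, ‖σ (θ a)‖ ≤ ((2 * absNorm B : ℕ) : ℝ) ^ c := by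
  obtain ⟨c, hc⟩ := thG_ex A l₀
  exact ⟨c, fun e B g _ hB h => hc e g _ (Nat.coprime_two_right.1 (hB.coprime_dvd_right h2))
    (fun l => (h.gx hK hν hB l).1) (fun l => (h.gx hK hν hB l).2)
    (hK ▸ (h 2 Nat.prime_two).1 h2)⟩

theorem nuG_norm {p : Pr} {π : ∀ l : Pr, GL (I2 4) ℤ_[l]} {P : ℤ[X]} (d : DF P p E)
    (H : FrD p π P) {a : 𝓞 E} (ha : a ≠ 0) {l : Pr} (hl : l ≠ p) :
    ‖cp l (mulG (nuG d H a))‖ = ‖(absNorm (span {a}) : ℚ_[l])‖ := by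
  rw [mulG_nuG d H ha, cp_off_ne hl, qa, AlgHom.commutes, ← Algebra.coe_norm_int,
    absNorm_span_singleton, map_intCast, Nat.cast_natAbs]
  rcases abs_choice (Algebra.norm ℤ a) with h | h <;> rw [h]
  rw [Int.cast_neg, norm_neg]

/-- the type norm satisfies the hypothesis of `glob_ex` -/
theorem nuG_int {p : Pr} {π : ∀ l : Pr, GL (I2 4) ℤ_[l]} {P : ℤ[X]} (d : DF P p E) (H : FrD p π P)
    {a : 𝓞 E} (ha : a ≠ 0) {l : Pr} (hl : l ≠ p) (hD : ¬ ((l : ℕ) : ℤ) ∣ d.D) :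
    IntG l (nuG d H a) ∧ ‖cp l (mulG (nuG d H a))‖ = ‖(absNorm (span {a}) : ℚ_[l])‖ := by
  refine ⟨fun i j => ?_, ?_⟩
  · obtain ⟨G, hG⟩ := d.nu_int (A := M8 ℚ_[l]) a
    have h1 := (hG _).trans (aeval_int_map PadicInt.Coe.ringHom (π l).val G)
    have h2 : ‖(d.D : ℚ_[l])‖ = 1 := le_antisymm (Padic.norm_int_le_one _)
      (not_lt.1 fun h => hD (Padic.norm_intCast_lt_one_iff.1 h))
    have h3 := congrArg (fun m : M8 ℚ_[l] => ‖m i j‖) h1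
    beta_reduce at h3
    rw [Matrix.smul_apply, zsmul_eq_mul, norm_mul, h2, one_mul] at h3
    rw [cpG_nuG d H ha hl]
    exact h3.trans_le (aeval (π l).val G i j).2
  · exact nuG_norm d H ha hl

end

end Pool.Agent.MT
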