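import Pool.Agent.Lib.MP_d61fbb_ag.MT.H0

/-! Closure properties of the Heisenberg modules. -/

noncomputable section

namespace Pool.Agent.MT

open Matrix Complex Sum

variable {ι κ : Type} [Fintype ι] [Fintype κ] {τ : Matrix ι ι ℂ} {r s : ℚ} {f h : VV ι → ℂ}

lemma UU_apply (r : ℚ) (y : VV ι) (f : VV ι → ℂ) (x : VV ι) :
    UU r y f x = eps r y x * f (x + y) := rfl

lemma eps_add_left (r : ℚ) (x y z : VV ι) : eps r (x + y) z = eps r x z * eps r y z := by
  rw [eps, Ef_add_left, smul_add, AddChar.map_add_eq_mul, eps, eps]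

lemma eps_add_right (r : ℚ) (x y z : VV ι) : eps r x (y + z) = eps r x y * eps r x z := by
  rw [eps, Ef_add_right, smul_add, AddChar.map_add_eq_mul, eps, eps]

lemma eps_add (r s : ℚ) (x y : VV ι) : eps (r + s) x y = eps r x y * eps s x y := by
  rw [eps, add_div, add_smul, AddChar.map_add_eq_mul, eps, eps]

lemma eps_ne (r : ℚ) (x y : VV ι) : eps r x y ≠ 0 := psi_ne _

lemma Ef_qv (x y : ι ⊕ ι → ℚ) : Ef (qv' x) (qv' y) = qa (Ef x y) :=
  (Ef_map x y (algebraMap ℚ AF)).symm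

lemma eps_qv (r : ℚ) (x y : ι ⊕ ι → ℚ) :
    eps r (qv' x) (qv' y) = ee (r / 2 * Ef (qc x) (qc y)) := by
  have := Ef_map x y (Rat.castHom ℂ)
  rw [eps, Ef_qv, Algebra.smul_def, ← map_mul, psi_qa, Rat.cast_mul, Rat.cast_div, Rat.cast_ofNat]
  exact congrArg (fun t => ee (r / 2 * t)) this

lemma qv'_add {α : Type} (x y : α → ℚ) : qv' (x + y) = qv' x + qv' y :=
  funext fun _ => map_add _ _ _

lemma mem_Lam {α : Type} {m : α → AF} : m ∈ Lam α ↔ ∀ i, m i ∈ Zh :=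
  ⟨fun h i => h i trivial, fun h i _ => h i⟩

lemma Ef_mem {x y : VV ι} (hx : x ∈ Lam (ι ⊕ ι)) (hy : y ∈ Lam (ι ⊕ ι)) : Ef x y ∈ Zh :=
  Zh.sub_mem (Zh.sum_mem fun _ _ => Zh.mul_mem (mem_Lam.1 hx _) (mem_Lam.1 hy _))
    (Zh.sum_mem fun _ _ => Zh.mul_mem (mem_Lam.1 hx _) (mem_Lam.1 hy _))

lemma vec_den {α : Type} [Finite α] (x : α → AF) : ∃ N : ℕ, N ≠ 0 ∧ N • x ∈ Lam α := by
  have := Fintype.ofFinite α
  choose N hN h using fun i => af_den (x i)
  refine ⟨∏ i, N i, Finset.prod_ne_zero_iff.2 fun i _ => hN i, mem_Lam.2 fun i => ?_⟩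
  obtain ⟨k, hk⟩ := Finset.dvd_prod_of_mem N (Finset.mem_univ i)
  rw [hk, mul_comm, mul_smul, Pi.smul_apply, Pi.smul_apply, nsmul_eq_mul (N i)]
  exact nsmul_mem (h i) k

/-- strong approximation for vectors -/
lemma vec_approx {α : Type} (x : α → AF) {N : ℕ} (hN : N ≠ 0) :
    ∃ q : α → ℚ, ∃ m ∈ Lam α, x = qv' q + N • m := by
  choose q m hm e using fun i => strong_approx (x i) N hN
  exact ⟨q, m, mem_Lam.2 hm, funext fun i => by simpa using e i⟩

/-- an identity between symplectic forms extends from the rationals to every algebra -/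
lemma Ef_pull {A : Type} [CommRing A] [Algebra ℚ A] (γ : Matrix (κ ⊕ κ) (ι ⊕ ι) ℚ)
    (h1 : ∀ x y, s * Ef (γ *ᵥ x) (γ *ᵥ y) = r * Ef x y) (x y : ι ⊕ ι → A) :
    s • Ef (γ.map (algebraMap ℚ A) *ᵥ x) (γ.map (algebraMap ℚ A) *ᵥ y) = r • Ef x y := by
  classical
  let B : ∀ (α : Type) [Fintype α], (α ⊕ α → A) →ₗ[A] (α ⊕ α → A) →ₗ[A] A := fun α _ =>
    LinearMap.mk₂ A Ef Ef_add_left (fun c x y => Ef_smul_left x y c) Ef_add_right
      fun c x y => Ef_smul_right x y c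
  have k : ∀ i : ι ⊕ ι, (Pi.single i 1 : ι ⊕ ι → A) =
      algebraMap ℚ A ∘ (Pi.single i 1 : ι ⊕ ι → ℚ) := fun i => by
    funext j
    simp [Pi.single_apply]
  have : s • (B κ).compl₁₂ (γ.map (algebraMap ℚ A)).mulVecLin (γ.map (algebraMap ℚ A)).mulVecLin =
      r • B ι := by
    refine LinearMap.ext_basis (Pi.basisFun A _) (Pi.basisFun A _) fun i j => ?_
    have := congrArg (algebraMap ℚ A) (h1 (Pi.single i 1) (Pi.single j 1))
    rw [map_mul, map_mul, Ef_map, Ef_map, ← Algebra.smul_def, ← Algebra.smul_def] at this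
    simp only [RingHom.map_mulVec] at this
    rw [Pi.basisFun_apply, Pi.basisFun_apply, k, k]
    exact this
  exact LinearMap.congr_fun₂ this x y

theorem UU_UU (r : ℚ) (y z : VV ι) (f : VV ι → ℂ) :
    UU r y (UU r z f) = eps r z y • UU r (y + z) f := by
  funext x
  simp only [UU_apply, Pi.smul_apply, smul_eq_mul, eps_add_left, eps_add_right, add_assoc]
  ring

theorem UU_comm (r : ℚ) (y z : VV ι) (f : VV ι → ℂ) :
    UU r y (UU r z f) = psi (r • Ef z y) • UU r z (UU r y f) := by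
  rw [UU_UU, UU_UU, smul_smul, add_comm, eps, eps, ← AddChar.map_add_eq_mul, Ef_swap y z]
  congr 2
  module

theorem HH_UU (hf : f ∈ HH τ r) (y : VV ι) : UU r y f ∈ HH τ r := by
  obtain ⟨⟨N, hN, a⟩, F, hF, e⟩ := hf
  refine ⟨?_, ?_⟩
  · obtain ⟨M, hM, b⟩ := vec_den (qa r • y)
    refine ⟨N * M, mul_ne_zero hN hM, fun m hm => ?_⟩
    rw [UU_comm, mul_smul, a _ (nsmul_mem hm _), psi_eq_one_iff.2, one_smul]
    convert Ef_mem b (nsmul_mem hm N) using 1
    simp only [← Nat.cast_smul_eq_nsmul AF, Ef_smul_left, Ef_smul_right]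
    rw [Algebra.smul_def]
    ring
  · obtain ⟨q, m, hm, rfl⟩ := vec_approx y hN
    have k := UU_UU r (qv' q) (N • m) f
    rw [a m hm] at k
    refine ⟨fun x => (eps r (N • m) (qv' q))⁻¹ * (ee (r / 2 * Ef (qc q) x) * F (x + qc q)),
      ⟨((ee_diff.comp ?_).mul (hF.1.comp (differentiable_id.add_const _))).const_mul _,
        fun u hu x => ?_⟩, fun x => ?_⟩
    · simp only [Ef, dotProduct, Function.comp_def]
      fun_prop
    · rw [add_right_comm, hF.2 u hu, ← mul_assoc (ee _), ← ee_add, mul_left_comm (ee _),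
        ← mul_assoc (ee _), ← ee_add, Ef_add_right, Ef_add_right, Ef_swap u (qc q)]
      congr 3
      ring
    · rw [eq_inv_mul_iff_mul_eq₀ (eps_ne _ _ _), show qc x + qc q = qc (x + q) from
        funext fun _ => (Rat.cast_add _ _).symm, ← e, ← eps_qv, qv'_add, ← UU_apply, k]
      rfl

lemma UU_mul (r s : ℚ) (y : VV ι) (f h : VV ι → ℂ) :
    UU (r + s) y (f * h) = UU r y f * UU s y h := by
  funext x
  simp only [UU_apply, Pi.mul_apply, eps_add]
  ring

theorem HH_mul (hf : f ∈ HH τ r) (hh : h ∈ HH τ s) : f * h ∈ HH τ (r + s) := by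
  obtain ⟨a, F, hF, e⟩ := hf
  obtain ⟨b, G, hG, e'⟩ := hh
  obtain ⟨N, hN, c⟩ := a.common b
  refine ⟨⟨N, hN, fun m hm => by rw [UU_mul, (c m hm).1, (c m hm).2]⟩, F * G,
    ⟨hF.1.mul hG.1, fun u hu x => ?_⟩, fun q => by simp only [Pi.mul_apply, e, e']⟩
  simp only [Pi.mul_apply, hF.2 u hu, hG.2 u hu, Rat.cast_add, add_div, add_mul, ee_add]
  ring

theorem one_mem_HH (τ : Matrix ι ι ℂ) : (1 : VV ι → ℂ) ∈ HH τ 0 :=
  ⟨⟨1, one_ne_zero, fun _ _ => funext fun _ => by simp [UU_apply, eps]⟩, 1,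
    ⟨differentiable_const _, fun _ _ _ => by simp⟩, fun _ => rfl⟩

/-- pull back along a rational map that respects the forms and the complex structures -/
theorem HH_pull {τ' : Matrix κ κ ℂ} {f : VV κ → ℂ} (hf : f ∈ HH τ' s)
    (γ : Matrix (κ ⊕ κ) (ι ⊕ ι) ℚ) (h1 : ∀ x y, s * Ef (γ *ᵥ x) (γ *ᵥ y) = r * Ef x y)
    (h2 : ∀ u, zz τ u = 0 → zz τ' (γ.map (↑) *ᵥ u) = 0) :
    (fun x => f (γ.map qa *ᵥ x)) ∈ HH τ r := by
  obtain ⟨⟨N, hN, a⟩, F, hF, e⟩ := hf
  have h3 : ∀ x y, s / 2 * Ef (γ *ᵥ x) (γ *ᵥ y) = r / 2 * Ef x y := fun x y => by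
    linear_combination h1 x y / 2
  refine ⟨?_, fun x => F (γ.map (↑) *ᵥ x), ⟨hF.1.comp ?_, fun u hu x => ?_⟩, fun q => ?_⟩
  · obtain ⟨M, hM, b⟩ := vec_den fun i : (κ ⊕ κ) × (ι ⊕ ι) => qa (γ i.1 i.2)
    refine ⟨N * M, mul_ne_zero hN hM, fun m hm => funext fun x => ?_⟩
    have k : M • γ.map qa *ᵥ m ∈ Lam (κ ⊕ κ) := by
      rw [← smul_mulVec]
      exact mem_Lam.2 fun i => Zh.sum_mem fun j _ =>
        Zh.mul_mem (mem_Lam.1 b (i, j)) (mem_Lam.1 hm j)
    rw [← congrFun (a _ k) (γ.map qa *ᵥ x), UU_apply, UU_apply, ← mul_smul, ← mulVec_smul,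
      mulVec_add, eps, eps, Ef_pull γ h3]
  · exact (γ.map ((↑) : ℚ → ℂ)).mulVecLin.toContinuousLinearMap.differentiable
  · have := Ef_pull γ h3 u x
    rw [Algebra.smul_def, Algebra.smul_def, eq_ratCast, eq_ratCast] at this
    push_cast at this
    rw [mulVec_add, hF.2 _ (h2 u hu), ← this]
    rfl
  · refine (congrArg f ?_).trans ((e (γ *ᵥ q)).trans (congrArg F ?_))
    · exact funext fun i => (RingHom.map_mulVec (algebraMap ℚ AF) γ q i).symm
    · exact funext fun i => RingHom.map_mulVec (Rat.castHom ℂ) γ q i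

theorem HH_scale (hf : f ∈ HH τ r) (q : ℚ) : (fun x => f (q • x)) ∈ HH τ (q ^ 2 * r) := by
  classical
  have := HH_pull (τ := τ) (r := q ^ 2 * r) hf (diagonal fun _ => q) (fun x y => by
    rw [diagonal_const_mulVec, diagonal_const_mulVec, Ef_smul_left, Ef_smul_right]
    ring) fun u hu => by
      rw [diagonal_map Rat.cast_zero, diagonal_const_mulVec, zz, Pi.smul_comp, Pi.smul_comp,
        mulVec_smul, ← smul_add, ← zz, hu, smul_zero]
  simpa only [diagonal_map (map_zero _), diagonal_const_mulVec, algebraMap_smul] using this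

/-- a function of the module that vanishes at the rational points is zero -/
theorem Smooth.eq_zero (hf : Smooth r f) (h0 : ∀ q, f (qv' q) = 0) : f = 0 := by
  obtain ⟨N, hN, a⟩ := hf
  funext x
  obtain ⟨q, m, hm, rfl⟩ := vec_approx x hN
  exact (mul_eq_zero.1 ((congrFun (a m hm) (qv' q)).trans (h0 q))).resolve_left (eps_ne _ _ _)

/-- no zero divisors, with generic rational points -/
theorem HH_generic {α : Type} [Finite α] {r : α → ℚ} {f : α → VV ι → ℂ}
    (hf : ∀ i, f i ∈ HH τ (r i)) (h0 : ∀ i, f i ≠ 0) : ∃ q, ∀ i, f i (qv' q) ≠ 0 := by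
  classical
  have := Fintype.ofFinite α
  choose F hF e using fun i => (hf i).2
  choose v hv using fun i => not_forall.1 (mt (hf i).1.eq_zero (h0 i))
  obtain ⟨w, hw⟩ := (dense_iInter_of_isOpen
    (fun i => isOpen_ne_fun (hF i).1.continuous continuous_const)
    fun i => WT.dense_ne_of_entire (hF i).1 (v := qc (v i)) (e i _ ▸ hv i)).nonempty
  obtain ⟨q, hq⟩ := exists_rat (f := fun w => ∏ i, F i w) (v := w)
    (fun v => (HasFDerivAt.finsetProd fun i _ => ((hF i).1 v).hasFDerivAt).differentiableAt)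
    (Finset.prod_ne_zero_iff.2 fun i _ => Set.mem_iInter.1 hw i)
  exact ⟨q, fun i => e i q ▸ Finset.prod_ne_zero_iff.1 hq i (Finset.mem_univ _)⟩

end Pool.Agent.MT
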