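import Pool.Agent.Lib.MP_d61fbb_ag.MT.S1

/-! Independence of the local images: statements. -/

set_option autoImplicit false

namespace Pool.Agent.MT

open Matrix

/-- A ring with at most three maximal ideals, whose residue fields are finite of characteristic
`l`, and in which the integers prime to `l` are units. -/
structure SL3 (l : ℕ) (R : Type) [CommRing R] where
  P : Fin 3 → Ideal R
  prime : ∀ i, (P i).IsPrime
  mem : ∀ i, (l : R) ∈ P i
  fin : ∀ i, Finite (R ⧸ P i)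
  unit : ∀ x : R, (∀ i, x ∉ P i) → IsUnit x

/-- upper unipotent matrices -/
def uu {R : Type} [CommRing R] (x : R) : SpecialLinearGroup (Fin 2) R :=
  ⟨!![1, x; 0, 1], by simp [det_fin_two_of]⟩

/-- lower unipotent matrices -/
def ll {R : Type} [CommRing R] (x : R) : SpecialLinearGroup (Fin 2) R :=
  ⟨!![1, 0; x, 1], by simp [det_fin_two_of]⟩

/-- every cubic algebra is of this kind -/
def SI_A : Prop := ∀ (l : Pr) (D : Cub l), Nonempty (SL3 l (AdjoinRoot D.c))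

/-- generation, perfectness and normal subgroups -/
def SI_B : Prop := ∀ (l : ℕ), l.Prime → 17 ≤ l → ∀ (R : Type) [CommRing R] (H : SL3 l R),
  (∀ N : Subgroup (SpecialLinearGroup (Fin 2) R), (∀ x, uu x ∈ N) → (∀ x, ll x ∈ N) → N = ⊤) ∧
  commutator (SpecialLinearGroup (Fin 2) R) = ⊤ ∧
  ∀ N : Subgroup (SpecialLinearGroup (Fin 2) R), N.Normal → N ≠ ⊤ →
    ∃ i, ∀ g ∈ N, g.val 1 0 ∈ H.P i ∧ g.val 0 1 ∈ H.P i ∧ g.val 0 0 - g.val 1 1 ∈ H.P i

/-- no common quotient -/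
def SI_C : Prop := ∀ (l l' : ℕ), l.Prime → l'.Prime → 17 ≤ l → 17 ≤ l' → l ≠ l' →
  ∀ (R R' : Type) [CommRing R] [CommRing R'], SL3 l R → SL3 l' R' →
  ∀ (Q : Type) [Group Q] (f : SpecialLinearGroup (Fin 2) R →* Q)
    (f' : SpecialLinearGroup (Fin 2) R' →* Q), f.range = f'.range → ∀ g, f g = 1

/-- independence -/
def SI_D : Prop := ∀ (Γ : Type) [Group Γ] (ρ : Γ →* ∀ l : Pr, GL (I2 4) ℤ_[l])
  (D : ∀ l : Pr, Cub l) (T : Finset Pr), (∀ l ∈ T, 17 ≤ (l : ℕ) ∧ (D l).Between fun σ => ρ σ l) →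
  ∀ g : ∀ l : Pr, SpecialLinearGroup (Fin 2) (AdjoinRoot (D l).c),
    ∃ σ ∈ commutator Γ, ∀ l ∈ T, (ρ σ l).val = (D l).Nm (g l).val

/-- existence of cubic data -/
def SI_E : Prop := ∀ l : Pr, Nonempty (Cub l)

end Pool.Agent.MT
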