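import Mathlib

/-! The definitions used in the final statement; they rest on Mathlib only. -/

set_option autoImplicit false

noncomputable section

namespace Pool.Agent.MT.St

open Matrix Polynomial Sum

/-- the index set of a symplectic basis -/
abbrev I8 := Fin 4 ⊕ Fin 4

/-- the Siegel upper half space of degree four -/
def Siegel (τ : Matrix (Fin 4) (Fin 4) ℂ) : Prop := τᵀ = τ ∧ (τ.map Complex.im).PosDef

/-- the point `τ a₁ + a₂` of `ℂ ^ 4` -/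
def point (τ : Matrix (Fin 4) (Fin 4) ℂ) (a : I8 → ℝ) : Fin 4 → ℂ :=
  τ *ᵥ (fun i => (a (inl i) : ℂ)) + fun i => (a (inr i) : ℂ)

/-- the theta series `∑ exp (2 π i ((n + a) τ (n + a) / 2 + (n + a) w))` -/
def theta (τ : Matrix (Fin 4) (Fin 4) ℂ) (a w : Fin 4 → ℂ) : ℂ :=
  ∑' n : Fin 4 → ℤ, Complex.exp (2 * Real.pi * Complex.I *
    ((fun i => n i + a i) ⬝ᵥ τ *ᵥ (fun i => n i + a i) / 2 + (fun i => n i + a i) ⬝ᵥ w))

/-- the projective coordinates `θ[η / 2](2 z, τ)` on the abelian fourfold -/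
def coord (τ : Matrix (Fin 4) (Fin 4) ℂ) (z : Fin 4 → ℂ) (η : I8 → Fin 2) : ℂ :=
  theta τ (fun i => (η (inl i) : ℕ) / 2) fun i => 2 * z i + (η (inr i) : ℕ) / 2

/-- `ρ` is the action of the automorphisms of `ℂ` over `K` on the torsion points -/
def TorsionRep (τ : Matrix (Fin 4) (Fin 4) ℂ) (K : IntermediateField ℚ ℂ)
    (ρ : ∀ (l : ℕ) [Fact l.Prime], (ℂ ≃ₐ[K] ℂ) →* GL I8 ℤ_[l]) : Prop :=
  ∀ (σ : ℂ ≃ₐ[K] ℂ) (a b : I8 → ℚ),
    (∀ (l : ℕ) [Fact l.Prime] (i : I8), ‖∑ j, ((ρ l σ).val i j : ℚ_[l]) * a j - b i‖ ≤ 1) →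
      ∃ c : ℂ, ∀ η, σ (coord τ (point τ fun i => a i) η) = c * coord τ (point τ fun i => b i) η

/-- the tensor product of three matrices of size two -/
def tens {R : Type} [CommRing R] (g : Fin 3 → Matrix (Fin 2) (Fin 2) R) :
    Matrix (Fin 3 → Fin 2) (Fin 3 → Fin 2) R := of fun x y => ∏ i, g i (x i) (y i)

/-- A cubic étale algebra `R = ℤ_l [X] / c` with its three embeddings `s` and a symplectic
identification `U` of `ℤ_l ^ 8` with the tensor induction of `R ^ 2`. -/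
structure Cubic (l : ℕ) [Fact l.Prime] where
  c : ℤ_[l][X]
  monic : c.Monic
  deg : c.natDegree = 3
  sep : (c.map PadicInt.toZMod).Separable
  s : Fin 3 → AdjoinRoot c →ₐ[ℤ_[l]] PadicAlgCl l
  inj : Function.Injective s
  U : Matrix I8 (Fin 3 → Fin 2) (PadicAlgCl l)
  U' : Matrix (Fin 3 → Fin 2) I8 (PadicAlgCl l)
  mul_inv : U * U' = 1
  inv_mul : U' * U = 1
  int : ∀ i j, ‖U i j‖ ≤ 1
  int' : ∀ i j, ‖U' i j‖ ≤ 1
  symp : ∃ u : PadicAlgCl l, Uᵀ * J (Fin 4) (PadicAlgCl l) * U = u • tens fun _ => !![0, 1; -1, 0]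
  Nm : Matrix (Fin 2) (Fin 2) (AdjoinRoot c) → Matrix I8 I8 ℤ_[l]
  nm : ∀ g, (Nm g).map (algebraMap _ _) = U * tens (fun i => g.map (s i)) * U'

/-- The set `G` lies between `Nm (SL₂ R)` and `ℤ_l ˣ Nm (GL₂ R)`. -/
def Cubic.Between {l : ℕ} [Fact l.Prime] (D : Cubic l) (G : Set (GL I8 ℤ_[l])) : Prop :=
  (∀ g : Matrix (Fin 2) (Fin 2) (AdjoinRoot D.c), g.det = 1 → ∃ x ∈ G, x.val = D.Nm g) ∧
    ∀ x ∈ G, ∃ (u : ℤ_[l]) (g : Matrix (Fin 2) (Fin 2) (AdjoinRoot D.c)),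
      IsUnit u ∧ IsUnit g.det ∧ x.val = u • D.Nm g

/-- `J` is multiplication by `i` on `ℝ ^ 8 = ℂ ^ 4` -/
def IsCx (τ : Matrix (Fin 4) (Fin 4) ℂ) (J : Matrix I8 I8 ℝ) : Prop :=
  ∀ a, point τ (J *ᵥ a) = Complex.I • point τ a

/-- subgroups of `GL₈ (ℂ)` defined by polynomials with rational coefficients -/
def OverQ (H : Subgroup (GL I8 ℂ)) : Prop :=
  ∃ s : Set (MvPolynomial (I8 × I8) ℚ), ∀ g : GL I8 ℂ,
    g ∈ H ↔ ∀ f ∈ s, MvPolynomial.aeval (fun ij : I8 × I8 => g.val ij.1 ij.2) f = 0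

/-- The complex points of the Hodge group: the smallest group defined over `ℚ` that contains the
circle `cos t + sin t J`. -/
def Hodge (J : Matrix I8 I8 ℝ) : Subgroup (GL I8 ℂ) :=
  sInf {H | OverQ H ∧ ∀ t : ℝ, ∃ g ∈ H, g.val =
    (Real.cos t • (1 : Matrix I8 I8 ℝ) + Real.sin t • J).map (↑)}

end Pool.Agent.MT.St
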