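import Pool.Agent.Lib.MP_d61fbb_ag.MT.St

/-! The Zariski closure of a local image. -/

set_option autoImplicit false

noncomputable section

namespace Pool.Agent.MT.St

/-- The complex points, through `i`, of the Zariski closure over `ℚ_l` of the set `G`. -/
def Closure {l : ℕ} [Fact l.Prime] (i : ℚ_[l] →+* ℂ) (G : Set (GL I8 ℤ_[l])) : Set (GL I8 ℂ) :=
  {g | ∀ f : MvPolynomial (I8 × I8) ℚ_[l],
    (∀ x ∈ G, MvPolynomial.eval (fun ij : I8 × I8 => (x.val ij.1 ij.2 : ℚ_[l])) f = 0) →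
      MvPolynomial.eval₂ i (fun ij : I8 × I8 => g.val ij.1 ij.2) f = 0}

end Pool.Agent.MT.St
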