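import Pool.Agent.Lib.MP_d61fbb_ag.MT.UG
import Pool.Agent.Lib.MP_d61fbb_ag.MT.GCub
import Pool.Agent.Lib.MP_d61fbb_ag.MT.SI0

/-! Stage three: the Zariski closure of the local image. -/

set_option autoImplicit false

noncomputable section

namespace Pool.Agent.MT.U

open Matrix

variable {l : ℕ} [Fact l.Prime] (D : Cub l) {F : Type} [Field F] (i : PadicAlgCl l →+* F)

/-- the map from the `l`-adic integers -/
def zi : ℤ_[l] →+* F := i.comp (algebraMap ℤ_[l] (PadicAlgCl l))

/-- the vectors of conjugates of the multiples of `N` -/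
def cubA (N : ℕ) : AddSubgroup (Fin 3 → F) where
  carrier := {t | ∃ x : AdjoinRoot D.c, t = fun k => i (D.σ k (N * x))}
  add_mem' := by
    rintro _ _ ⟨x, rfl⟩ ⟨y, rfl⟩
    exact ⟨x + y, funext fun k => by simp [mul_add]⟩
  zero_mem' := ⟨0, funext fun k => by simp⟩
  neg_mem' := by
    rintro _ ⟨x, rfl⟩
    exact ⟨-x, funext fun k => by simp⟩

theorem cub_span {N : ℕ} (hN : N ≠ 0) :
    Submodule.span F (cubA D i N : Set (Fin 3 → F)) = ⊤ := by
  have hN' : (N : F) ≠ 0 := by
    rw [← map_natCast i, map_ne_zero]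
    exact_mod_cast hN
  have hv : (vandermonde fun k => i (D.σ k (AdjoinRoot.root D.c))).det ≠ 0 :=
    det_vandermonde_ne_zero_iff.2 fun a b e => D.inj (AdjoinRoot.algHom_ext (i.injective e))
  refine eq_top_iff.2 fun v _ => ?_
  obtain ⟨c, rfl⟩ := mulVec_surjective_iff_isUnit.2 ((isUnit_iff_isUnit_det _).2 hv.isUnit) v
  have e : (vandermonde fun k => i (D.σ k (AdjoinRoot.root D.c))) *ᵥ c =
      ∑ j : Fin 3, (c j / N) • fun k => i (D.σ k (N * AdjoinRoot.root D.c ^ (j : ℕ))) := by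
    funext k
    simp only [mulVec, dotProduct, vandermonde_apply, Finset.sum_apply, Pi.smul_apply, smul_eq_mul,
      map_mul, map_natCast, map_pow]
    exact Finset.sum_congr rfl fun j _ => by field_simp
  rw [e]
  exact Submodule.sum_mem _ fun j _ => Submodule.smul_mem _ _ (Submodule.subset_span ⟨_, rfl⟩)

theorem cub_Nm (g : M2 (AdjoinRoot D.c)) : (D.Nm g).map (zi i) =
    ((cubFr D).map i).U * kp (fun k => g.map fun x => i (D.σ k x)) * ((cubFr D).map i).U' := by
  rw [show (D.Nm g).map (zi i) = ((D.Nm g).map (algebraMap ℤ_[l] (PadicAlgCl l))).map i from rfl,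
    D.nm, Matrix.map_mul, Matrix.map_mul, kp_map]
  rfl

theorem uz_uu {R : Type} [CommRing R] (N : ℕ) (x : R) :
    (!![1, x; 0, 1] : M2 R) ^ N = !![1, N * x; 0, 1] := by
  induction N with
  | zero => simp [one_fin_two]
  | succ n ih => rw [pow_succ, ih]; simp [add_mul, add_comm]

theorem uz_ll {R : Type} [CommRing R] (N : ℕ) (x : R) :
    (!![1, 0; x, 1] : M2 R) ^ N = !![1, 0; N * x, 1] := by
  induction N with
  | zero => simp [one_fin_two]
  | succ n ih => rw [pow_succ, ih]; simp [add_mul]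

theorem cub_uu (N : ℕ) (x : AdjoinRoot D.c) : (D.Nm (uu x).val ^ N).map (zi i) =
    ((cubFr D).map i).U * kp (fun k => !![1, i (D.σ k (N * x)); 0, 1]) * ((cubFr D).map i).U' := by
  rw [← Cub.NmH_apply, ← map_pow, Cub.NmH_apply, cub_Nm]
  congr 3
  funext k
  rw [show (uu x).val = !![1, x; 0, 1] from rfl, uz_uu]
  ext a b
  fin_cases a <;> fin_cases b <;> simp

theorem cub_ll (N : ℕ) (x : AdjoinRoot D.c) : (D.Nm (ll x).val ^ N).map (zi i) =
    ((cubFr D).map i).U * kp (fun k => !![1, 0; i (D.σ k (N * x)), 1]) * ((cubFr D).map i).U' := by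
  rw [← Cub.NmH_apply, ← map_pow, Cub.NmH_apply, cub_Nm]
  congr 3
  funext k
  rw [show (ll x).val = !![1, 0; x, 1] from rfl, uz_ll]
  ext a b
  fin_cases a <;> fin_cases b <;> simp

/-- the generic matrix -/
def uzX : M8 (MvPolynomial (I2 4 × I2 4) ℂ) := of fun a b => MvPolynomial.X (a, b)

/-- evaluation at a matrix -/
abbrev uzE (a : M8 ℂ) : MvPolynomial (I2 4 × I2 4) ℂ →+* ℂ :=
  MvPolynomial.eval fun ij => a ij.1 ij.2

theorem uzX_map (a : M8 ℂ) : uzX.map (uzE a) = a := by
  ext i j; simp [uzX]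

theorem uzC_map {m n σ : Type} (t : σ → ℂ) (b : Matrix m n ℂ) :
    (b.map MvPolynomial.C).map (MvPolynomial.eval t) = b := by
  ext i j; simp

theorem uz_aeval {S : Type} [CommRing S] [Algebra ℂ S] (e : S →+* ℂ)
    (he : ∀ c, e (algebraMap ℂ S c) = c) (P : M8 S) (f : MvPolynomial (I2 4 × I2 4) ℂ) :
    e (MvPolynomial.aeval (fun ij => P ij.1 ij.2) f) = uzE (P.map e) f := by
  induction f using MvPolynomial.induction_on with
  | C c => simp [he]
  | add p q hp hq => simp only [map_add, hp, hq]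
  | mul_X p n hp => simp only [map_mul, hp, MvPolynomial.aeval_X, MvPolynomial.eval_X, map_apply]

theorem uz_sub {A : Set (M8 ℂ)} {a : M8 ℂ} (h : a ∈ A) : a ∈ Zar A := fun _ hf => hf a h

theorem zar_map {A B : Set (M8 ℂ)} (P : M8 (MvPolynomial (I2 4 × I2 4) ℂ))
    (h : ∀ a ∈ A, P.map (uzE a) ∈ Zar B) {g : M8 ℂ} (hg : g ∈ Zar A) : P.map (uzE g) ∈ Zar B := by
  intro f hf
  refine (uz_aeval (uzE g) (by simp) P f).symm.trans (hg _ fun a ha => ?_)
  exact (uz_aeval (uzE a) (by simp) P f).trans (h a ha f hf)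

theorem zar_line {B : Set (M8 ℂ)} (P : M8 (Polynomial ℂ))
    (h : ∀ n : ℕ, P.map (Polynomial.evalRingHom (n : ℂ)) ∈ Zar B) (c : ℂ) :
    P.map (Polynomial.evalRingHom c) ∈ Zar B := by
  intro f hf
  refine (uz_aeval (Polynomial.evalRingHom c) (by simp) P f).symm.trans ?_
  rw [Polynomial.eq_zero_of_infinite_isRoot (MvPolynomial.aeval (fun ij => P ij.1 ij.2) f)
    ((Set.infinite_range_of_injective (Nat.cast_injective (R := ℂ))).mono ?_), map_zero]
  rintro _ ⟨n, rfl⟩
  exact (uz_aeval (Polynomial.evalRingHom (n : ℂ)) (by simp) P f).trans (h n f hf)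

theorem zar_submodule (V : Submodule ℂ (M8 ℂ)) {x : M8 ℂ} (h : x ∈ Zar V) : x ∈ V := by
  by_contra hx
  obtain ⟨f, h1, h2⟩ := V.exists_le_ker_of_notMem hx
  have e : ∀ a : M8 ℂ, uzE a (∑ i, ∑ j, MvPolynomial.X (i, j) *
      MvPolynomial.C (f (single i j 1))) = f a := fun a => by
    conv_rhs => rw [matrix_eq_sum_single a]
    simp only [map_sum, map_mul, MvPolynomial.eval_X, MvPolynomial.eval_C]
    refine Finset.sum_congr rfl fun i _ => Finset.sum_congr rfl fun j _ => ?_
    rw [← smul_eq_mul, ← map_smul, smul_single, smul_eq_mul, mul_one]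
  exact h1 ((e x).symm.trans (h _ fun a ha => (e a).trans (h2 ha)))

theorem zar_mul {A : Set (M8 ℂ)} (h : ∀ a ∈ A, ∀ b ∈ A, a * b ∈ A) {x y : M8 ℂ} (hx : x ∈ Zar A)
    (hy : y ∈ Zar A) : x * y ∈ Zar A := by
  have h1 : ∀ a ∈ A, a * y ∈ Zar A := fun a ha => by
    have := zar_map (B := A) (a.map MvPolynomial.C * uzX) (fun b hb => by
      rw [Matrix.map_mul, uzC_map, uzX_map]; exact uz_sub (h a ha b hb)) hy
    rwa [Matrix.map_mul, uzC_map, uzX_map] at this
  have := zar_map (B := A) (uzX * y.map MvPolynomial.C) (fun b hb => by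
    rw [Matrix.map_mul, uzC_map, uzX_map]; exact h1 b hb) hx
  rwa [Matrix.map_mul, uzC_map, uzX_map] at this

theorem zar_unip (φ : Fr3 ℂ) {B : Set (M8 ℂ)} (h : ∀ a ∈ B, ∀ b ∈ B, a * b ∈ B) (n : M2 ℂ)
    (hn : n * n = 0) {A : AddSubgroup (Fin 3 → ℂ)}
    (hA : Submodule.span ℂ (A : Set (Fin 3 → ℂ)) = ⊤)
    (hB : ∀ t ∈ A, φ.U * kp (fun k => 1 + t k • n) * φ.U' ∈ B) (k : Fin 3) (x : ℂ) :
    φ.s k (1 + x • n) ∈ Zar B := by
  have key : ∀ t ∈ Submodule.span ℂ (A : Set (Fin 3 → ℂ)), ∀ c : ℂ,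
      φ.U * kp (fun k => 1 + (c * t k) • n) * φ.U' ∈ Zar B := by
    intro t ht
    induction ht using Submodule.span_induction with
    | mem t ht =>
      have e : ∀ c : ℂ, (φ.U.map Polynomial.C * kp (fun k => 1 + (Polynomial.X *
          Polynomial.C (t k)) • n.map Polynomial.C) * φ.U'.map Polynomial.C).map
          (Polynomial.evalRingHom c) = φ.U * kp (fun k => 1 + (c * t k) • n) * φ.U' := fun c => by
        rw [Matrix.map_mul, Matrix.map_mul, kp_map]
        congr 2
        · ext a b; simp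
        · congr 1; funext k; ext a b; simp [one_apply, apply_ite, mul_comm c]
        · ext a b; simp
      intro c
      rw [← e]
      refine zar_line _ (fun m => ?_) c
      rw [e]
      exact uz_sub (by simpa using hB _ (A.nsmul_mem ht m))
    | zero => intro c; exact uz_sub (by simpa using hB 0 A.zero_mem)
    | add s t _ _ hs ht =>
      intro c
      have := zar_mul h (hs c) (ht c)
      rw [φ.kp_mul_kp] at this
      refine (congrArg (fun y => φ.U * kp y * φ.U' ∈ Zar B) (funext fun k => ?_)).mpr this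
      simp only [Pi.add_apply, mul_add, add_mul, add_smul, mul_one, one_mul, smul_mul_smul_comm, hn,
        smul_zero, add_zero]
      abel
    | smul a t _ ht => intro c; simpa [mul_assoc] using ht (c * a)
  have := key (Pi.single k 1) (hA ▸ Submodule.mem_top) x
  rw [φ.s_apply, sl]
  refine (congrArg (fun y => φ.U * kp y * φ.U' ∈ Zar B) (funext fun j => ?_)).mpr this
  by_cases e : j = k
  · subst e; simp
  · simp [e]

theorem zar_iff {Γ : Type} [Group Γ] (r : Γ →* GL (I2 4) ℤ_[l]) (h : D.Between r)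
    (i : PadicAlgCl l →+* ℂ) (g : M8 ℂ) :
    (GS 1 g ∧ g ∈ Zar (Set.range fun σ => (r σ).val.map (zi i))) ↔ g ∈ ((cubFr D).map i).H := by
  set φ := (cubFr D).map i with hφ
  constructor
  · rintro ⟨h1, h2⟩
    have hd : g.det ≠ 0 := fun h0 => by
      have := congrArg det h1.transpose_mul_dl
      rw [det_mul, det_transpose, h0, zero_mul, one_smul, det_one] at this
      exact zero_ne_one this
    refine φ.mem_H h1 fun k X hX => ⟨g.det⁻¹ • (g * X * adjugate g), Submodule.smul_mem _ _ ?_, ?_⟩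
    · have e : ∀ a : M8 ℂ, (uzX * X.map MvPolynomial.C * adjugate uzX).map (uzE a) =
          a * X * adjugate a := fun a => by
        rw [Matrix.map_mul, Matrix.map_mul, uzC_map, ← RingHom.mapMatrix_apply _ (adjugate _),
          RingHom.map_adjugate, RingHom.mapMatrix_apply, uzX_map]
      rw [← e]
      refine zar_submodule _ (zar_map _ ?_ h2)
      rintro _ ⟨σ, rfl⟩
      obtain ⟨c, u, hu⟩ := h.2 σ
      obtain ⟨X', hX', e'⟩ := φ.kp_norm (g := fun k => u.val.map fun x => i (D.σ k x))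
        (fun k => by
          have := (((isUnit_iff_isUnit_det _).1 u.isUnit).map
            (i.comp (D.σ k : AdjoinRoot D.c →+* PadicAlgCl l))).ne_zero
          rwa [RingHom.map_det] at this) k hX
      have e2 : (r σ).val.map (zi i) * X = X' * (r σ).val.map (zi i) := by
        rw [hu, Matrix.map_smul' _ _ _ (map_mul _), cub_Nm, smul_mul_assoc, mul_smul_comm, e']
      refine uz_sub ?_
      beta_reduce
      rw [e, e2, Matrix.mul_assoc, mul_adjugate, mul_smul_comm, Matrix.mul_one]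
      exact Submodule.smul_mem _ _ hX'
    · rw [smul_mul_assoc, Matrix.mul_assoc _ _ g, adjugate_mul, mul_smul_comm, Matrix.mul_one,
        smul_smul, inv_mul_cancel₀ hd, one_smul]
  · intro hg
    refine ⟨φ.H_gs hg, ?_⟩
    obtain ⟨x, hx, rfl⟩ := hg
    have hm : ∀ a ∈ Set.range fun σ => (r σ).val.map (zi i),
        ∀ b ∈ Set.range fun σ => (r σ).val.map (zi i),
          a * b ∈ Set.range fun σ => (r σ).val.map (zi i) := by
      rintro _ ⟨σ, rfl⟩ _ ⟨τ, rfl⟩
      exact ⟨σ * τ, by simp only [map_mul, Units.val_mul, Matrix.map_mul]⟩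
    have hs : ∀ k, φ.s k (x k) ∈ Zar (Set.range fun σ => (r σ).val.map (zi i)) := fun k => by
      let S : Submonoid (M2 ℂ) :=
        { carrier := {y | φ.s k y ∈ Zar (Set.range fun σ => (r σ).val.map (zi i))}
          mul_mem' := fun ha hb => by
            rw [Set.mem_ofPred_eq, φ.s_mul]; exact zar_mul hm ha hb
          one_mem' := by
            rw [Set.mem_ofPred_eq, φ.s_one]
            exact uz_sub ⟨1, by simp⟩ }
      have eu : ∀ y : ℂ, (!![1, y; 0, 1] : M2 ℂ) = 1 + y • !![0, 1; 0, 0] := fun y => by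
        ext a b; fin_cases a <;> fin_cases b <;> simp
      have el : ∀ y : ℂ, (!![1, 0; y, 1] : M2 ℂ) = 1 + y • !![0, 0; 1, 0] := fun y => by
        ext a b; fin_cases a <;> fin_cases b <;> simp
      refine sl2_elem S (fun y => ?_) (fun y => ?_) (hx k)
      · rw [eu]
        refine zar_unip φ hm _ (by ext a b; fin_cases a <;> fin_cases b <;> simp)
          (cub_span D i one_ne_zero) ?_ k y
        rintro _ ⟨z, rfl⟩
        obtain ⟨σ, hσ⟩ := h.1 (uu z)
        refine ⟨σ, ?_⟩
        simp only [← eu]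
        rw [hσ, ← cub_uu, pow_one]
      · rw [el]
        refine zar_unip φ hm _ (by ext a b; fin_cases a <;> fin_cases b <;> simp)
          (cub_span D i one_ne_zero) ?_ k y
        rintro _ ⟨z, rfl⟩
        obtain ⟨σ, hσ⟩ := h.1 (ll z)
        refine ⟨σ, ?_⟩
        simp only [← el]
        rw [hσ, ← cub_ll, pow_one]
    rw [φ.kp_eq]
    exact zar_mul hm (zar_mul hm (hs 0) (hs 1)) (hs 2)

theorem exists_ext (i : ℚ_[l] →+* ℂ) :
    ∃ i' : PadicAlgCl l →+* ℂ, ∀ x : ℤ_[l], zi i' x = i x := by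
  let _ : Algebra ℚ_[l] ℂ := i.toAlgebra
  let f : PadicAlgCl l →ₐ[ℚ_[l]] ℂ := IsAlgClosed.lift
  refine ⟨f, fun x => ?_⟩
  rw [zi, RingHom.comp_apply, IsScalarTower.algebraMap_apply ℤ_[l] ℚ_[l] (PadicAlgCl l)]
  exact f.commutes _

end Pool.Agent.MT.U
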