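import Pool.Agent.Lib.MP_d61fbb_ag.MT.St3
import Pool.Agent.Lib.MP_d61fbb_ag.MT.StZ
import Pool.Agent.Lib.MP_d61fbb_ag.MT.StC
import Pool.Agent.Lib.MP_d61fbb_ag.MT.SIF
import Pool.Agent.Lib.MP_d61fbb_ag.MT.UZ

/-! The bridge from stage three to the final statement. -/

set_option autoImplicit false

noncomputable section

namespace Pool.Agent.MT

open Matrix IntermediateField

/-- the adelic data with a prescribed good prime -/
theorem sif_type3 (hD : SI_D) {τ : Matrix (Fin 4) (Fin 4) ℂ}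
    {K : IntermediateField ℚ ℂ} {ρ : (ℂ ≃ₐ[K] ℂ) →* ∀ l : Pr, GL (I2 4) ℤ_[l]}
    (h : TorsionRep τ K ρ)
    (hM : ∀ᶠ l : Pr in Filter.cofinite, ∃ D : Cub l, D.Between fun σ => ρ σ l)
    (D₀ : ∀ l : Pr, Cub l) :
    ∃ M : MumfordType τ (K ⊔ ℚ⟮ee (1 / 8)⟯), M.ρ = ρ.comp (sifRes le_sup_left) ∧
      ∀ l : Pr, (D₀ l).Between (fun σ => ρ σ l) → 17 ≤ (l : ℕ) → M.D l = D₀ l ∧ l ∉ M.S := by
  classical
  have h1 : ∀ l : Pr, ∃ D : Cub l, ((∃ D : Cub l, D.Between fun σ => ρ σ l) →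
      D.Between fun σ => ρ σ l) ∧ ((D₀ l).Between (fun σ => ρ σ l) → D = D₀ l) := fun l => by
    by_cases h0 : (D₀ l).Between fun σ => ρ σ l
    · exact ⟨D₀ l, fun _ => h0, fun _ => rfl⟩
    by_cases h1 : ∃ D : Cub l, D.Between fun σ => ρ σ l
    · exact ⟨h1.choose, fun _ => h1.choose_spec, fun e => absurd e h0⟩
    · exact ⟨D₀ l, fun e => absurd e h1, fun _ => rfl⟩
  choose D hD1 hD2 using h1
  have h2 : ∀ᶠ l : Pr in Filter.cofinite, 17 ≤ (l : ℕ) ∧ (D l).Between fun σ => ρ σ l := by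
    refine Filter.Eventually.and ?_ (hM.mono fun l => hD1 l)
    refine Filter.eventually_cofinite.2 (((Set.finite_lt_nat 17).preimage
      Subtype.val_injective.injOn).subset fun l hl => not_le.1 hl)
  have h3 : ∀ l ∉ (Filter.eventually_cofinite.1 h2).toFinset,
      17 ≤ (l : ℕ) ∧ (D l).Between fun σ => ρ σ l := fun l hl => by simpa using hl
  refine ⟨⟨ρ.comp (sifRes le_sup_left), fun σ => h (sifRes le_sup_left σ), _, D,
    fun σ l hl => (h3 l hl).2.2 _, fun T g => ?_⟩, rfl, fun l hl h17 => ⟨hD2 l hl, ?_⟩⟩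
  · obtain ⟨σ, h4, h5⟩ := hD _ ρ D (T \ (Filter.eventually_cofinite.1 h2).toFinset)
      (fun l hl => h3 l (Finset.mem_sdiff.1 hl).2) g
    obtain ⟨s, rfl⟩ := sif_lift (sif_comm h4)
    exact ⟨s, fun l hl hl' => h5 l (Finset.mem_sdiff.2 ⟨hl, hl'⟩)⟩
  · simpa using ⟨h17, hD1 l ⟨_, hl⟩⟩

theorem stc3_final (hD : SI_D) (hE : SI_E) (h3 : U.Stage3) (τ : Matrix (Fin 4) (Fin 4) ℂ)
    (hτ : St.Siegel τ) (K : IntermediateField ℚ ℂ) (hK : FiniteDimensional ℚ K)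
    (ρ : ∀ (l : ℕ) [Fact l.Prime], (ℂ ≃ₐ[K] ℂ) →* GL St.I8 ℤ_[l]) (hρ : St.TorsionRep τ K ρ)
    (B : ℕ) (hB : 16 ≤ B)
    (hM : ∀ (l : ℕ) [Fact l.Prime], B < l → ∃ D : St.Cubic l, D.Between (Set.range (ρ l)))
    (J₀ : Matrix St.I8 St.I8 ℝ) (hJ : St.IsCx τ J₀) (l : ℕ) [hl : Fact l.Prime] (hBl : B < l)
    (i : ℚ_[l] →+* ℂ) (g : GL St.I8 ℂ) :
    g ∈ St.Hodge J₀ ↔
      g.val ∈ symplecticGroup (Fin 4) ℂ ∧ g ∈ St.Closure i (Set.range (ρ l)) := by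
  classical
  obtain ⟨D, hD'⟩ := hM l hBl
  have hb : D.toCub.Between fun σ => stcRho ρ σ ⟨l, hl.out⟩ := stc_between hD'
  obtain ⟨M, -, hM2⟩ := sif_type3 hD (stc_rep hρ) (stc_cofinite hM)
    (Function.update (fun l => (hE l).some) ⟨l, hl.out⟩ D.toCub)
  obtain ⟨e1, e2⟩ := hM2 ⟨l, hl.out⟩ (by rw [Function.update_self]; exact hb)
    (show 17 ≤ l by omega)
  rw [Function.update_self] at e1
  let := i.toAlgebra
  let i' : PadicAlgCl l →ₐ[ℚ_[l]] ℂ := IsAlgClosed.lift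
  have h4 := h3 τ (stc_sieg hτ) _ (sif_fin hK) (le_sup_right (a := K) (mem_adjoin_simple_self ℚ _))
    M J₀ (stc_cx hJ) ⟨l, hl.out⟩ e2 i'.toRingHom g
  rw [h4, e1, ← U.zar_iff D.toCub (ρ l) (stc_between hD') i'.toRingHom]
  refine and_congr ?_ ?_
  · rw [gs_one_iff]
  · have := stz_base i (Set.range fun σ (ij : St.I8 × St.I8) => ((ρ l σ).val ij.1 ij.2 : ℚ_[l]))
      fun ij => g.val ij.1 ij.2
    simp only [Set.forall_mem_range] at this
    simp only [U.Zar, St.Closure, Set.mem_setOf_eq, Set.forall_mem_range]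
    rw [this]
    have e : ∀ x : ℤ_[l], U.zi i'.toRingHom x = i x := fun x => i'.commutes (x : ℚ_[l])
    simp only [map_apply, e]

end Pool.Agent.MT
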