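import Pool.Agent.Lib.MP_d61fbb_ag.MT.T1
import Pool.Agent.Lib.MP_d61fbb_ag.MT.I1

/-! Abstract theta systems: irreducibility and multiplicity one. -/

set_option autoImplicit false

noncomputable section

namespace Pool.Agent.MT

open Module

section
variable {k M A ι : Type} [Field k] [AddCommGroup M] [Module k M] (T : A → M →ₗ[k] M)
  (χ : ι → A → k) (H : Submodule k M) (hH : ∀ a, ∀ v ∈ H, T a v ∈ H)
include hH

/-- a stable subspace contains the components of its elements -/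
lemma eig_comp (s : Finset ι) (hχ : ∀ i ∈ s, ∀ j ∈ s, χ i = χ j → i = j) : ∀ v : ι → M,
    (∀ i ∈ s, ∀ a, T a (v i) = χ i a • v i) → ∑ i ∈ s, v i ∈ H → ∀ i ∈ s, v i ∈ H := by
  classical
  induction s using Finset.induction_on with
  | empty => simp
  | insert j s hj ih =>
    intro v hv hs
    have h1 : ∀ i ∈ s, v i ∈ H := fun i hi => by
      obtain ⟨a, ha⟩ : ∃ a, χ i a ≠ χ j a := by
        by_contra! h
        exact hj (hχ i (by simp [hi]) j (by simp) (funext h) ▸ hi)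
      have h2 := ih (fun i hi j hj => hχ i (by simp [hi]) j (by simp [hj]))
        (fun i => (χ i a - χ j a) • v i) (fun i hi b => by
          rw [map_smul, hv i (by simp [hi]), smul_comm]) (by
          have h3 := H.sub_mem (hH a _ hs) (H.smul_mem (χ j a) hs)
          rw [map_sum, Finset.sum_congr rfl fun i hi => hv i hi a, Finset.smul_sum,
            ← Finset.sum_sub_distrib, Finset.sum_insert hj, sub_self, zero_add] at h3
          simpa only [sub_smul] using h3) i hi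
      exact (H.smul_mem_iff (sub_ne_zero.2 ha)).1 h2
    rw [Finset.sum_insert hj] at hs
    intro i hi
    rcases Finset.mem_insert.1 hi with rfl | hi
    · simpa using H.sub_mem hs (H.sum_mem h1)
    · exact h1 i hi

open Classical in
lemma eig_fib [Fintype ι] (w : ι → M) (hw : ∀ i a, T a (w i) = χ i a • w i) (hs : ∑ i, w i ∈ H)
    (ξ : A → k) : ∑ i with χ i = ξ, w i ∈ H := by
  by_cases h : ξ ∈ Finset.univ.image χ
  · refine eig_comp T id H hH (Finset.univ.image χ) (fun _ _ _ _ h => h)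
      (fun ξ => ∑ i with χ i = ξ, w i) (fun ξ _ a => ?_) ?_ ξ h
    · rw [map_sum, Finset.smul_sum]
      exact Finset.sum_congr rfl fun i hi => by rw [hw, (Finset.mem_filter.1 hi).2]; rfl
    · rwa [Finset.sum_fiberwise_of_maps_to fun i _ => Finset.mem_image_of_mem χ (Finset.mem_univ i)]
  · rw [Finset.filter_eq_empty_iff.2 fun i _ e => h (Finset.mem_image.2 ⟨i, Finset.mem_univ i, e⟩)]
    simp

end

lemma card_le_sq {k V A ι : Type} [Field k] [AddCommGroup V] [Module k V] [FiniteDimensional k V]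
    [Fintype ι] (u u' : A → End k V) (w : ι → End k V) (χ : ι → A → k)
    (h1 : ∀ i a, u a * w i * u' a = χ i a • w i) (h2 : Function.Injective χ) (h3 : ∀ i, w i ≠ 0) :
    Fintype.card ι ≤ finrank k V ^ 2 := by
  have hu : LinearIndependent k w := linearIndependent_iff'.2 fun s g hg a ha =>
    (smul_eq_zero.1 (eig_comp (fun t => LinearMap.mulLeftRight k (u t, u' t)) χ ⊥ (by simp) s
      (fun _ _ _ _ h => h2 h) (fun a => g a • w a) (fun a _ t => by
        rw [map_smul, smul_comm, LinearMap.mulLeftRight_apply, h1]) hg a ha)).resolve_right (h3 a)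
  simpa only [finrank_linearMap, ← sq] using hu.fintype_card_le_finrank

namespace TSys
variable {k : Type} [Field k] {q : ℕ} (S : TSys k q)

lemma e_sub {a b : AF} (h : S.e a = S.e b) : S.e (a - b) = 1 := by
  rw [AddChar.map_sub_eq_div, h, div_self (e_ne _ _)]

lemma perp_L0 {x : W} (h : ∀ t ∈ L0, t ∈ Wp q → S.e (Ef t x) = 1) (i : I2 4) : x i ∈ Zq q :=
  mem_of_Ef (fun t a b => (S.ker _).1 (h t a b)) i

/-- the lower bound of Heisenberg -/
theorem heis {m : ℕ} (hm : (m : k) ≠ 0) (X : Submodule k (W → k)) [FiniteDimensional k X]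
    (h0 : X ≠ ⊥) (hX : ∀ t ∈ Wp q, (2 * m : ℕ) • t ∈ L0 → ∀ f ∈ X, Rt S.e m t f ∈ X) :
    (4 * m) ^ 4 ≤ finrank k X := by
  classical
  have m0 : (m : ℚ) ≠ 0 := by rintro h; rw [Nat.cast_eq_zero.1 h] at hm; simp at hm
  let Γ := {t : W // t ∈ Wp q ∧ (2 * m : ℕ) • t ∈ L0}
  let u : Γ → End k X := fun t => (RtL S.e m t.1).restrict (hX t.1 t.2.1 t.2.2)
  let ng : Γ → Γ := fun t => ⟨-t.1, neg_mem t.2.1, by rw [smul_neg]; exact neg_mem t.2.2⟩
  have hΓ : ∀ t ∈ L0, t ∈ Wp q → (2 * m : ℚ)⁻¹ • t ∈ Wp q ∧ (2 * m : ℕ) • (2 * m : ℚ)⁻¹ • t ∈ L0 :=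
    fun t a b => ⟨Wp_qsmul _ b, by
      rwa [← Nat.cast_smul_eq_nsmul ℚ, Nat.cast_mul, Nat.cast_ofNat,
        smul_inv_smul₀ (mul_ne_zero two_ne_zero m0)]⟩
  let z : (I2 4 → Fin (4 * m)) → W := fun a => iq q • fun i => ((a i : ℕ) : AF)
  have hz : ∀ a, z a ∈ L0 := fun a => iq_L0 q (mem_L0q.2 fun i => natCast_mem _ _)
  let tt : (I2 4 → Fin (4 * m)) → Γ := fun a => ⟨_, hΓ _ (hz a) (iq_mem q _)⟩
  have h1 := card_le_sq u (fun t => u (ng t)) (fun a => u (tt a))
    (fun a t => S.e ((m : ℚ) • Ef (tt a).1 t.1)) (fun a t => ?_) (fun a b h => ?_) fun a h => ?_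
  · rw [Fintype.card_fun, Fintype.card_fin, Fintype.card_sum, Fintype.card_fin,
      show 4 + 4 = 4 * 2 from rfl, pow_mul] at h1
    exact (pow_le_pow_iff_left₀ (Nat.zero_le _) (Nat.zero_le _) two_ne_zero).1 h1
  · refine LinearMap.ext fun f => Subtype.ext ?_
    exact (Rt_comm m t.1 (tt a).1 (Rt S.e m (-t.1) f)).trans (by rw [Rt_Rt_neg]; rfl)
  · funext i
    have h1 := S.perp_L0 (x := (4 * m : ℚ)⁻¹ • (z b - z a)) (fun t a' b' => ?_) i
    · obtain ⟨n, hn⟩ := int_of_padic_norm ((4 * m : ℚ)⁻¹ * ((b i : ℕ) - (a i : ℕ))) fun l => by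
        by_cases e : (l : ℕ) = q
        · have h4 := S.norm_cast (m := 4 * m) (by
            rw [Nat.cast_mul, show ((4 : ℕ) : k) = 2 * 2 by norm_num]
            exact mul_ne_zero (mul_ne_zero S.two S.two) hm) l e
          push_cast at h4 ⊢
          rw [norm_mul, norm_inv, h4, inv_one, one_mul]
          exact_mod_cast Padic.norm_int_le_one (p := l) (((b i : ℕ) : ℤ) - (a i : ℕ))
        · have h5 := h1 l e
          simp only [z, Pi.smul_apply, Pi.sub_apply, map_smul, smul_eq_mul, map_sub, map_mul,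
            cp_iq, e, if_false, one_mul, map_natCast, Rat.smul_def] at h5
          push_cast at h5 ⊢
          exact h5
      rw [inv_mul_eq_iff_eq_mul₀ (mul_ne_zero four_ne_zero m0)] at hn
      have h6 : ((b i : ℕ) : ℤ) - (a i : ℕ) = (4 * m : ℕ) * n := by exact_mod_cast hn
      have h7 := Int.eq_zero_of_abs_lt_dvd ⟨n, h6⟩ (by
        have := (a i).2; have := (b i).2; rw [abs_lt]; omega)
      exact Fin.ext (by omega)
    · rw [← S.e_sub (congrFun h ⟨_, hΓ t a' b'⟩)]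
      congr 1
      rw [Ef_q_right, Ef_sub_right, Ef_swap t, Ef_swap t]
      simp only [tt, Ef_q_left, Ef_q_right]
      match_scalars <;> field_simp <;> ring
  · obtain ⟨f, hf, f0⟩ := Submodule.exists_mem_ne_zero_of_ne_bot h0
    exact Rt_ne _ f0 (congrArg Subtype.val (LinearMap.congr_fun h ⟨f, hf⟩))

lemma G_eq {m : ℕ} (hm : m ≠ 0) : S.G m =
    Submodule.span k {f | ∃ t ∈ Wp q, ∃ g ∈ Sp S.e S.Θ m, f = Rt S.e m t g} := by
  refine le_antisymm (Submodule.span_le.2 ?_) (Submodule.span_le.2 ?_)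
  · rintro _ ⟨L, a, b, rfl⟩
    obtain ⟨g, hg, e⟩ := gen_eq (e := S.e) (Θ := S.Θ) hm a b
    exact Submodule.subset_span ⟨_, Wp_qsmul _ (iq_mem q _), g, hg, e⟩
  · rintro _ ⟨t, ht, g, hg, rfl⟩
    exact Gs_Rt ht (S.Sp_le m hg)

end TSys

theorem irr_of : IRR := by
  classical
  intro k _ q S m hm H hG h0 hH
  have m0 : m ≠ 0 := by rintro rfl; simp at hm
  have := S.fin_Sp m0
  have h1 : H ⊓ Sp S.e S.Θ m ≠ ⊥ := by
    obtain ⟨f, hf, f0⟩ := Submodule.exists_mem_ne_zero_of_ne_bot h0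
    have h2 := hG hf
    rw [S.G_eq m0, Submodule.mem_span_set'] at h2
    obtain ⟨n, c, g, rfl⟩ := h2
    choose t ht g' hg' e using fun i => (g i).2
    let A := {s : W // s ∈ L0 ∧ s ∈ Wp q}
    let χ : Fin n → A → k := fun i s => S.e ((m : ℚ) • Ef (t i) ((2 : ℤ) • s.1))
    have h3 := eig_fib (fun s : A => RtL S.e m ((2 : ℤ) • s.1)) χ H
      (fun s => hH _ (zsmul_mem s.2.2 _)) (fun i => c i • (g i : W → k)) (fun i s => by
        rw [map_smul, smul_comm, e i, RtL_apply, Rt_comm, S.Sp_per s.2.1 (hg' i)]) hf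
    obtain ⟨j, -, hj⟩ := Finset.exists_ne_zero_of_sum_ne_zero (s := Finset.univ.image χ)
      (f := fun ξ => ∑ i with χ i = ξ, c i • (g i : W → k)) (by
        rwa [Finset.sum_fiberwise_of_maps_to
          fun i _ => Finset.mem_image_of_mem χ (Finset.mem_univ i)])
    obtain ⟨i0, hi0, -⟩ := Finset.exists_ne_zero_of_sum_ne_zero hj
    refine (Submodule.ne_bot_iff _).2 ⟨_, ⟨hH _ (neg_mem (ht i0)) _ (h3 j), ?_⟩, Rt_ne _ hj⟩
    rw [← RtL_apply, map_sum]
    refine Submodule.sum_mem _ fun i hi => ?_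
    rw [map_smul, e i, RtL_apply, Rt_Rt]
    refine Submodule.smul_mem _ _ (Submodule.smul_mem _ _ (Sp_Rt ?_ (hg' i)))
    refine Wp_L0 (nsmul_mem (add_mem (neg_mem (ht i0)) (ht i)) _) (S.perp_L0 fun s a b => ?_)
    rw [← S.e_sub (congrFun ((Finset.mem_filter.1 hi0).2.trans (Finset.mem_filter.1 hi).2.symm)
      ⟨s, a, b⟩)]
    congr 1
    rw [Ef_n_right, Ef_add_right, Ef_neg_right, Ef_swap s, Ef_swap s]
    simp only [Ef_z_right]
    push_cast
    module
  have : FiniteDimensional k ↥(H ⊓ Sp S.e S.Θ m) := Submodule.finiteDimensional_inf_right _ _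
  have h4 := Submodule.eq_of_le_of_finrank_le (inf_le_right : H ⊓ Sp S.e S.Θ m ≤ _)
    ((S.finrank_Sp m0).trans (S.heis hm _ h1 fun t a b f hf => ⟨hH t a f hf.1, Sp_Rt b hf.2⟩))
  refine le_antisymm hG ?_
  rw [S.G_eq m0, Submodule.span_le]
  rintro _ ⟨t, ht, g, hg, rfl⟩
  exact hH t ht g (inf_eq_right.1 h4 hg)

/-- the translates of one function span -/
theorem TSys.G_span {k : Type} [Field k] {q : ℕ} (S : TSys k q) {m : ℕ} (hm : (m : k) ≠ 0)
    {f : W → k} (hf : f ∈ S.G m) (f0 : f ≠ 0) :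
    Submodule.span k {g | ∃ t ∈ Wp q, g = Rt S.e m t f} = S.G m := by
  refine irr_of k q S m hm _ (Submodule.span_le.2 ?_) ((Submodule.ne_bot_iff _).2
    ⟨f, Submodule.subset_span ⟨0, zero_mem _, (Rt_zero _ _).symm⟩, f0⟩) fun t ht g hg => ?_
  · rintro _ ⟨t, ht, rfl⟩
    exact Gs_Rt ht hf
  · refine span_Rt_mem ?_ hg
    rintro _ ⟨s, hs, rfl⟩
    rw [Rt_Rt]
    exact Submodule.smul_mem _ _ (Submodule.subset_span ⟨_, add_mem ht hs, rfl⟩)

theorem uniq_of : UNIQ := by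
  classical
  intro k _ q S m hm L hL hP ξ f g hf hg f0 ef eg
  rw [← S.G_span hm hf f0, Submodule.mem_span_set'] at hg
  obtain ⟨n, c, w, rfl⟩ := hg
  choose t ht e using fun i => (w i).2
  let χ : Fin n → L → k := fun i s => S.e ((m : ℚ) • Ef (t i) s.1) * ξ s.1
  have hw : ∀ i (s : L), RtL S.e m s.1 (c i • (w i : W → k)) = χ i s • c i • (w i : W → k) :=
    fun i s => by
      rw [map_smul, smul_comm, e i, RtL_apply, Rt_comm, ef _ s.2, Rt_smul, smul_smul (S.e _)]
  let E : Submodule k (W → k) := ⨅ s : L, End.eigenspace (RtL S.e m s.1) (ξ s.1)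
  have hE : ∀ v, v ∈ E ↔ ∀ s : L, RtL S.e m s.1 v = ξ s.1 • v := fun v => by
    simp only [E, Submodule.mem_iInf, End.mem_eigenspace_iff]
  have ξ0 : ∀ s ∈ L, ξ s ≠ 0 := fun s hs h => Rt_ne (e := S.e) (m := m) s f0 (by
    rw [ef s hs, h, zero_smul])
  have iso : ∀ s ∈ L, ∀ s' ∈ L, S.e ((m : ℚ) • Ef s s') = 1 := fun s a s' b => by
    have h := Rt_comm (e := S.e) m s' s f
    rw [ef s a, ef s' b, Rt_smul, Rt_smul, ef s a, ef s' b, smul_comm (ξ s')] at h
    have h1 : (1 - S.e ((m : ℚ) • Ef s s')) • ξ s • ξ s' • f = 0 := by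
      rw [sub_smul, one_smul, ← h, sub_self]
    exact (sub_eq_zero.1 ((smul_eq_zero.1 h1).resolve_right
      (smul_ne_zero (ξ0 s a) (smul_ne_zero (ξ0 s' b) f0)))).symm
  have h3 := eig_fib (fun s : L => RtL S.e m s.1) χ E (fun s v hv => (hE _).2 fun s' => by
    rw [RtL_apply, RtL_apply, Rt_comm, iso _ s.2 _ s'.2, one_smul, ← RtL_apply m s', (hE v).1 hv,
      Rt_smul]) _ hw ((hE _).2 fun s => eg _ s.2)
  rw [← Finset.sum_fiberwise_of_maps_to (g := χ)
    fun i _ => Finset.mem_image_of_mem χ (Finset.mem_univ i)]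
  simp only [eq_comm (b := _ • f)]
  rw [← Submodule.mem_span_singleton]
  refine Submodule.sum_mem _ fun j _ => ?_
  by_cases hj : j = fun s : L => ξ s.1
  · refine Submodule.sum_mem _ fun i hi => Submodule.smul_mem _ _ ?_
    have h4 : t i ∈ L := hP _ (ht i) fun s hs => by
      have h5 := congrFun ((Finset.mem_filter.1 hi).2.trans hj) ⟨s, hs⟩
      rw [Ef_swap, smul_neg, AddChar.map_neg_eq_inv, (mul_eq_right₀ (ξ0 s hs)).1 h5, inv_one]
    rw [e i, ef _ h4]
    exact Submodule.smul_mem _ _ (Submodule.mem_span_singleton_self f)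
  · obtain ⟨s, hs⟩ := Function.ne_iff.1 hj
    have h6 := (hE _).1 (h3 j) s
    rw [map_sum, Finset.sum_congr rfl fun i hi => by
      rw [hw i s, (Finset.mem_filter.1 hi).2], ← Finset.smul_sum, ← sub_eq_zero, ← sub_smul] at h6
    rw [(smul_eq_zero.1 h6).resolve_left (sub_ne_zero.2 hs)]
    exact zero_mem _

end Pool.Agent.MT
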