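import Pool.Agent.Lib.MP_d61fbb_ag.MT.I0
import Pool.Agent.Lib.MP_d61fbb_ag.MT.H2
import Pool.Agent.Lib.MP_d61fbb_ag.MT.A6b
import Pool.Agent.Lib.MP_d61fbb_ag.MT.GDen
import Pool.Agent.Lib.MP_d61fbb_ag.MT.GCub
import Pool.Agent.Lib.MP_d61fbb_ag.MT.FDefs

/-! From adelic theta functions to theta constants at the points of a Hecke orbit. -/

set_option autoImplicit false

noncomputable section

namespace Pool.Agent.MT

open Matrix Sum

theorem ts_cp_sg (l : Pr) (a : ℚ_[l]) : cp l (sg l a) = a := Pi.single_eq_same _ _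

theorem ts_cp_sg_ne {l l' : Pr} (h : l' ≠ l) (a : ℚ_[l]) : cp l' (sg l a) = 0 :=
  Pi.single_eq_of_ne h _

theorem ts_ext {x y : AF} (h : ∀ l, cp l x = cp l y) : x = y := Subtype.ext (funext h)

theorem ts_L0 {x : W} : x ∈ L0 ↔ ∀ i, x i ∈ Zh := ⟨fun h i => h i trivial, fun h i _ => h i⟩

theorem ts_Ef {x y : W} (hx : x ∈ L0) (hy : y ∈ L0) : Ef x y ∈ Zh :=
  Zh.sub_mem (sum_mem fun _ _ => Zh.mul_mem (hx _ trivial) (hy _ trivial))
    (sum_mem fun _ _ => Zh.mul_mem (hx _ trivial) (hy _ trivial))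

theorem ts_Qf {x : W} (hx : x ∈ L0) : Qf x ∈ Zh :=
  lam_dot (fun _ => hx _ trivial) fun _ => hx _ trivial

theorem ts_Zh {x : AF} : x ∈ Zh ↔ ∀ l : Pr, ‖cp l x‖ ≤ 1 := Iff.rfl

theorem ts_mulVec {s : M8 AF} (hs : ∀ i j, s i j ∈ Zh) {x : W} (hx : x ∈ L0) : s *ᵥ x ∈ L0 :=
  ts_L0.2 fun i => lam_dot (hs i) fun j => hx j trivial

theorem ts_chi {t u : W} (ht : t ∈ L0) (hu : u ∈ L0) : chi0 (t + (2 : AF) • u) = chi0 t := by
  refine psi_congr ?_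
  rw [← smul_sub, show Qf (t + (2 : AF) • u) - Qf t =
    2 * (2 * Qf u + Ef t u + 2 * (t ∘ inr) ⬝ᵥ (u ∘ inl)) by
      rw [Qf_add, Qf_smul, Ef_smul_right, Pi.smul_comp, dotProduct_smul, smul_eq_mul]; ring,
    half_two]
  exact Zh.add_mem (Zh.add_mem (Zh.mul_mem (ofNat_mem Zh 2) (ts_Qf hu)) (ts_Ef ht hu))
    (Zh.mul_mem (ofNat_mem Zh 2) (lam_dot (fun _ => ht _ trivial) fun _ => hu _ trivial))

theorem ts_norm_inv {l l' : Pr} (h : l' ≠ l) (e : ℕ) : ‖(((l : ℕ) : ℚ_[l']) ^ e)⁻¹‖ = 1 := by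
  rw [norm_inv, norm_pow, padic_norm_prime_ne h, one_pow, inv_one]

/-- the value of the adelic theta function at a point of order `l ^ e` -/
theorem Theta_sgv (τ : Matrix (Fin 4) (Fin 4) ℂ) {l : Pr} (hl : (l : ℕ) ≠ 2) (e : ℕ)
    (a : I2 4 → ℤ) : ee (Qf (zc a) / 2) *
      Theta τ (sgv l fun n => (a n : ℚ_[l]) / ((l : ℕ) : ℚ_[l]) ^ e) = Thm ((l : ℕ) ^ e) τ a := by
  set q : I2 4 → ℚ := fun n => (a n : ℚ) / ((l : ℕ) : ℚ) ^ e with hq
  have hx : (sgv l fun n => (a n : ℚ_[l]) / ((l : ℕ) : ℚ_[l]) ^ e) =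
      qv' q + (sg l 1 - 1) • qv' q := funext fun i => ts_ext fun l' => by
    simp only [sgv, Pi.add_apply, Pi.smul_apply, smul_eq_mul, map_add, map_mul, map_sub, map_one,
      AlgHom.commutes, hq]
    by_cases h : l' = l
    · subst h; simp [ts_cp_sg]
    · simp [ts_cp_sg_ne h]
  have hm : ∀ i, ((sg l 1 - 1) • qv' q) i ∈ Zh := fun i => ts_Zh.2 fun l' => by
    simp only [Pi.smul_apply, smul_eq_mul, map_mul, map_sub, map_one, AlgHom.commutes, hq]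
    by_cases h : l' = l
    · subst h; simp [ts_cp_sg]
    · rw [ts_cp_sg_ne h, eq_ratCast]
      push_cast
      rw [zero_sub, neg_one_mul, norm_neg, div_eq_mul_inv, norm_mul, ts_norm_inv h, mul_one]
      exact Padic.norm_int_le_one _
  obtain ⟨c, hc⟩ : Odd ((l : ℕ) ^ (2 * e)) := (l.2.odd_of_ne_two hl).pow
  have hQ : Qf q = (Qf a : ℤ) / ((l : ℕ) : ℚ) ^ (2 * e) := by
    rw [show q = (((l : ℕ) : ℚ) ^ e)⁻¹ • fun n => (a n : ℚ) from funext fun n => by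
      simp [hq, div_eq_inv_mul], Qf_smul]
    have := Qf_map a (Int.castRingHom ℚ)
    simp only [eq_intCast] at this
    rw [← this, pow_mul', inv_pow, div_eq_inv_mul]
  have h1 : psi ((1 / 2 : ℚ) • (Qf ((sg l 1 - 1) • qv' q) + Ef (qv' q) ((sg l 1 - 1) • qv' q))) =
      ee (-(Qf (zc a) / 2)) := by
    rw [Qf_zc, show -(((Qf a : ℤ) : ℂ) / 2) = ((-(Qf a : ℤ) / 2 : ℚ) : ℂ) by push_cast; ring]
    refine psi_eq (ts_Zh.2 fun l' => ?_)
    rw [Ef_smul_right, Ef_self, mul_zero, add_zero, Qf_smul, Qf_qa, hQ]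
    simp only [map_sub, map_smul, map_mul, map_pow, map_one, AlgHom.commutes, eq_ratCast]
    by_cases h : l' = l
    · subst h
      have h2 : ‖((2 : ℕ) : ℚ_[l'])‖ = 1 :=
        padic_norm_prime_ne (m := ⟨2, Nat.prime_two⟩) fun h => hl (congrArg Subtype.val h)
      rw [ts_cp_sg, sub_self, zero_pow two_ne_zero, zero_mul, smul_zero, zero_sub, norm_neg]
      push_cast at h2 ⊢
      rw [norm_div, h2, div_one, norm_neg]
      exact Padic.norm_int_le_one _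
    · have h0 : ((l : ℕ) : ℚ_[l']) ≠ 0 := Nat.cast_ne_zero.2 l.2.ne_zero
      have hc' : ((l : ℕ) : ℚ_[l']) ^ (2 * e) = 2 * c + 1 := by exact_mod_cast congrArg Nat.cast hc
      rw [ts_cp_sg_ne h, Rat.smul_def]
      push_cast
      rw [show (1 / 2 : ℚ_[l']) * ((0 - 1) ^ 2 * (((Qf a : ℤ) : ℚ_[l']) / (l : ℕ) ^ (2 * e))) -
        -((Qf a : ℤ) : ℚ_[l']) / 2 = (((Qf a * (c + 1) : ℤ) : ℚ_[l'])) *
          (((l : ℕ) : ℚ_[l']) ^ (2 * e))⁻¹ by
          push_cast; field_simp; rw [hc']; ring, norm_mul, ts_norm_inv h, mul_one]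
      exact Padic.norm_int_le_one _
  rw [hx, Theta_eq τ q hm, h1, ← mul_assoc, mul_comm (ee _), ee_neg_mul, one_mul, Thm]
  refine congrArg (Th τ) (funext fun n => ?_)
  simp [hq]

/-- The pull back of the theta function of `γ τ`. -/
theorem ts_core {τ : Matrix (Fin 4) (Fin 4) ℂ} (hτ : Sieg τ) {γ : M8 ℚ} (hγ : GS 1 γ) {l : Pr}
    (hl : (l : ℕ) ≠ 2) (e : ℕ) {h s : M8 AF} (hs : ∀ i j, s i j ∈ Zh)
    (hh : (dl γ).map qa * h = 1 + (2 * ((l : ℕ) : AF) ^ (2 * e)) • s) :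
    ∃ F ∈ HH τ 1, (∀ t ∈ L0, UU 1 (h *ᵥ t) F = chi0 t • F) ∧ ∀ a : I2 4 → ℤ,
      ee (Qf (zc a) / 2) * F (h *ᵥ sgv l fun n => (a n : ℚ_[l]) / ((l : ℕ) : ℚ_[l]) ^ e) =
        Thm ((l : ℕ) ^ e) (act (γ.map (↑)) τ) a := by
  have hr : RS 1 (γ.map (↑)) := by simpa using hγ.rs_rat one_pos
  have hl' : ∀ n : ℕ, ((l : ℕ) : AF) ^ n ∈ Zh := fun n => pow_mem (natCast_mem _ _) _
  have hsm : ∀ (n : ℕ) {x : W}, x ∈ L0 → ((l : ℕ) : AF) ^ n • x ∈ L0 := fun n x hx =>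
    ts_L0.2 fun i => Zh.mul_mem (hl' n) (hx i trivial)
  have h2 : ∀ {x : W}, x ∈ L0 → (2 : AF) • x ∈ L0 := fun hx => by
    rw [two_smul]; exact add_mem hx hx
  refine ⟨fun x => Theta (act (γ.map (↑)) τ) ((dl γ).map qa *ᵥ x),
    HH_pull (Theta_mem (hr.sieg hτ)) (dl γ) (fun x y => by rw [hγ.dl x y, one_mul]) fun u hu => ?_,
    fun t ht => funext fun x => ?_, fun a => ?_⟩
  · have e1 : u = kv τ (u ∘ inl) := by
      rw [kv, ← eq_neg_of_add_eq_zero_right hu, Sum.elim_comp_inl_inr]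
    have e2 : (dl γ).map ((↑) : ℚ → ℂ) = dl (γ.map (↑)) := dl_map (Rat.castHom ℂ) γ
    rw [e1, e2, dl_kv (hr.det_ne hτ)]
    exact add_neg_cancel _
  · have e1 : (dl γ).map qa *ᵥ h *ᵥ t = t + (2 : AF) • ((l : ℕ) : AF) ^ (2 * e) • s *ᵥ t := by
      rw [mulVec_mulVec, hh, add_mulVec, one_mulVec, smul_mulVec, mul_smul]
    have hu := hsm (2 * e) (ts_mulVec hs ht)
    have e2 := congrFun (Theta_eig (act (γ.map (↑)) τ) _ (add_mem ht (h2 hu)))
      ((dl γ).map qa *ᵥ x)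
    rw [ts_chi ht hu, ← e1, UU_apply] at e2
    rw [UU_apply, mulVec_add]
    refine Eq.trans (congrArg₂ (fun a b : ℂ => a * b) ?_ rfl) e2
    have := (hγ.dl.map (algebraMap ℚ AF)) (h *ᵥ t) x
    rw [map_one, one_mul] at this
    rw [eps, eps, ← this]
  · rw [← Theta_sgv _ hl]
    refine congrArg₂ (fun a b : ℂ => a * b) rfl ?_
    set x := sgv l fun n => (a n : ℚ_[l]) / ((l : ℕ) : ℚ_[l]) ^ e with hx
    have hy : ((l : ℕ) : AF) ^ e • x ∈ L0 := mem_L0.2 fun i l' => by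
      simp only [hx, sgv, Pi.smul_apply, smul_eq_mul, map_mul, map_pow, map_natCast]
      by_cases h : l' = l
      · subst h
        rw [ts_cp_sg, mul_div_cancel₀ _ (pow_ne_zero _ (Nat.cast_ne_zero.2 l'.2.ne_zero))]
        exact Padic.norm_int_le_one _
      · simp [ts_cp_sg_ne h]
    have hu := hsm e (ts_mulVec hs hy)
    have e1 : (dl γ).map qa *ᵥ h *ᵥ x =
        x + (2 : AF) • ((l : ℕ) : AF) ^ e • s *ᵥ (((l : ℕ) : AF) ^ e • x) := by
      rw [mulVec_mulVec, hh, add_mulVec, one_mulVec, smul_mulVec, mul_smul, mulVec_smul, smul_smul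
        (_ ^ e), ← pow_add, two_mul]
    have e2 := congrFun (Theta_eig (act (γ.map (↑)) τ) _ (h2 hu)) x
    have e3 := ts_chi (zero_mem L0) hu
    rw [zero_add] at e3
    rw [UU_apply, e3, eps, psi_eq_one_iff.2, one_mul, ← e1] at e2
    · refine e2.trans ?_
      simp [chi0, Qf]
    · rw [Ef_smul_left, half_two, Ef_smul_left, ← Ef_smul_right]
      exact ts_Ef (ts_mulVec hs hy) hy

/-- the adelic matrix with one component -/
def hA1 (l : Pr) (H : M8 ℚ_[l]) : M8 AF := 1 + (H - 1).map (sg l)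

theorem hA1_self (l : Pr) (H : M8 ℚ_[l]) : (hA1 l H).map (cp l) = H := by
  ext i j
  by_cases h : i = j <;> simp [hA1, ts_cp_sg, one_apply, h]

theorem hA1_ne {l l' : Pr} (h : l' ≠ l) (H : M8 ℚ_[l]) : (hA1 l H).map (cp l') = 1 := by
  ext i j
  by_cases h' : i = j <;> simp [hA1, ts_cp_sg_ne h, one_apply, h']

theorem Cub.gs_div {l : Pr} (D : Cub l) {j : ℕ} {g : M2 (AdjoinRoot D.c)}
    (hg : g.det = ((l : ℕ) : AdjoinRoot D.c) ^ (2 * j)) :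
    GS 1 ((((l : ℕ) : ℚ_[l]) ^ (3 * j))⁻¹ • (D.Nm g).map ((↑) : ℤ_[l] → ℚ_[l])) := by
  have h := ((D.gs_Nm g).map (PadicInt.Coe.ringHom)).smul (((l : ℕ) : ℚ_[l]) ^ (3 * j))⁻¹
  have h0 : ((l : ℕ) : ℚ_[l]) ≠ 0 := Nat.cast_ne_zero.2 l.2.ne_zero
  rw [hg, ← map_natCast (algebraMap ℤ_[l] (AdjoinRoot D.c)), ← map_pow,
    Algebra.norm_algebraMap_of_basis D.bas, map_pow, map_pow, map_natCast, Fintype.card_fin] at h
  have e : (((l : ℕ) : ℚ_[l]) ^ (3 * j))⁻¹ ^ 2 * (((l : ℕ) : ℚ_[l]) ^ (2 * j)) ^ 3 = 1 := by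
    field_simp
    ring
  rw [e] at h
  exact h

/-- The relation of `ZL` at a rational symplectic matrix that is close to the local element. -/
theorem zl_at {τ : Matrix (Fin 4) (Fin 4) ℂ} (hτ : Sieg τ) {l : Pr} (hl : (l : ℕ) ≠ 2)
    {e r : ℕ} {z : Fin r → ℤ} {ch : Fin r → Fin 4 → I2 4 → ℤ} {H : M8 ℚ_[l]}
    (hz : ∀ F ∈ HH τ 1, (∀ t ∈ L0, UU 1 (hA1 l H *ᵥ t) F = chi0 t • F) →
      qv z ch (fun a => ee (Qf (zc a) / 2) *
        F (hA1 l H *ᵥ sgv l fun n => (a n : ℚ_[l]) / ((l : ℕ) : ℚ_[l]) ^ e)) = 0)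
    {γ : M8 ℚ} (hγ : GS 1 γ)
    (hc : ∀ l' : Pr, ∃ s : M8 ℤ_[l'], (dl γ).map (↑) * (hA1 l H).map (cp l') =
      1 + (2 * ((l : ℕ) : ℚ_[l']) ^ (2 * e)) • s.map ((↑) : ℤ_[l'] → ℚ_[l'])) :
    qv z ch (Thm ((l : ℕ) ^ e) (act (γ.map (↑)) τ)) = 0 := by
  choose s hs using hc
  obtain ⟨F, h1, h2, h3⟩ := ts_core hτ hγ hl e (h := hA1 l H)
    (s := of fun i j => zA fun l' => s l' i j) (fun i j l' => (s l' i j).2) (by
      ext i j : 1
      refine ts_ext fun l' => ?_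
      have h := congrFun (congrFun (hs l') i) j
      have e1 : cp l' (((dl γ).map qa * hA1 l H) i j) =
          ((dl γ).map ((↑) : ℚ → ℚ_[l']) * (hA1 l H).map (cp l')) i j := by
        simp [mul_apply]
      rw [e1, h]
      have e2 : cp l' (zA fun l' => s l' i j) = s l' i j := rfl
      have e3 : cp l' 2 = 2 := map_ofNat _ 2
      rw [Matrix.add_apply, Matrix.add_apply, Matrix.smul_apply, Matrix.smul_apply, smul_eq_mul,
        smul_eq_mul, map_add, map_mul, map_mul, map_pow, map_natCast, of_apply, e2, e3,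
        one_apply, one_apply, apply_ite (cp l'), map_one, map_zero]
      rfl)
  rw [← funext h3]
  exact hz F h1 h2

end Pool.Agent.MT
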