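import Pool.Agent.Lib.MP_d61fbb_ag.MT.U0

/-! Stage three: the tensor model. -/

set_option autoImplicit false

noncomputable section

namespace Pool.Agent.MT.U

open Matrix

namespace Fr3

variable {F F' : Type} [Field F] [Field F'] (φ : Fr3 F)

theorem s_apply (i : Fin 3) (x : M2 F) : φ.s i x = φ.U * sl i x * φ.U' := rfl

theorem ua_mul (A B : Matrix T3 T3 F) :
    φ.U * A * φ.U' * (φ.U * B * φ.U') = φ.U * (A * B) * φ.U' := by
  simp only [Matrix.mul_assoc]
  rw [← Matrix.mul_assoc φ.U', φ.inv_mul, Matrix.one_mul]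

theorem ua_inj {A B : Matrix T3 T3 F} (h : φ.U * A * φ.U' = φ.U * B * φ.U') : A = B := by
  have := congrArg (fun Y => φ.U' * Y * φ.U) h
  simpa only [Matrix.mul_assoc, φ.inv_mul, Matrix.mul_one, ← Matrix.mul_assoc φ.U',
    Matrix.one_mul] using this

theorem ua_form (A B : Matrix T3 T3 F) :
    (φ.U * A * φ.U')ᵀ * J (Fin 4) F * (φ.U * B * φ.U') =
      φ.U'ᵀ * (Aᵀ * (φ.Uᵀ * J (Fin 4) F * φ.U) * B) * φ.U' := by
  simp only [transpose_mul, Matrix.mul_assoc]

theorem ua_one : φ.U * (1 : Matrix T3 T3 F) * φ.U' = 1 := by rw [Matrix.mul_one, φ.mul_inv]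

theorem mem_h {i : Fin 3} {X : M8 F} : X ∈ φ.h i ↔ ∃ x : M2 F, x.trace = 0 ∧ X = φ.s i x := by
  simp only [h, Submodule.mem_map, LinearMap.mem_ker, traceLinearMap_apply, eq_comm (a := X)]

theorem mem_hh {X : M8 F} :
    X ∈ φ.hh ↔ ∃ x : Fin 3 → M2 F, (∀ i, (x i).trace = 0) ∧ X = ∑ i, φ.s i (x i) := by
  constructor
  · intro hX
    induction hX using Submodule.iSup_induction' with
    | mem i X hX =>
      obtain ⟨x, h1, rfl⟩ := φ.mem_h.1 hX
      refine ⟨Pi.single i x, fun j => ?_, ?_⟩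
      · by_cases e : j = i
        · subst e; simpa using h1
        · simp [e]
      · rw [Finset.sum_eq_single i (fun j _ e => by simp [e]) (by simp), Pi.single_eq_same]
    | zero => exact ⟨0, by simp, by simp⟩
    | add X Y _ _ hX hY =>
      obtain ⟨x, h1, rfl⟩ := hX
      obtain ⟨y, h2, rfl⟩ := hY
      exact ⟨x + y, fun i => by simp [h1, h2], by simp [Finset.sum_add_distrib]⟩
  · rintro ⟨x, h1, rfl⟩
    exact Submodule.sum_mem _ fun i _ => le_iSup φ.h i (φ.mem_h.2 ⟨_, h1 i, rfl⟩)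

theorem h_le (i : Fin 3) : φ.h i ≤ φ.hh := le_iSup φ.h i

theorem s_mul (i : Fin 3) (x y : M2 F) : φ.s i (x * y) = φ.s i x * φ.s i y := by
  simp only [s_apply, ua_mul, sl_mul]

theorem s_one (i : Fin 3) : φ.s i 1 = 1 := by
  rw [s_apply, sl, Pi.mulSingle_one]
  exact (congrArg (fun Y => φ.U * Y * φ.U') kp_one).trans φ.ua_one

theorem s_comm {i j : Fin 3} (h : i ≠ j) (x y : M2 F) : φ.s i x * φ.s j y = φ.s j y * φ.s i x := by
  simp only [s_apply, ua_mul, sl_comm h]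

theorem s_inj (i : Fin 3) : Function.Injective (φ.s i) := by
  intro x y e
  ext p q
  have := congrFun (congrFun (φ.ua_inj e) (Pi.single i p)) (Pi.single i q)
  rw [sl_apply, sl_apply, Finset.prod_eq_one fun j hj => by
    rw [Pi.single_eq_of_ne (Finset.ne_of_mem_erase hj),
      Pi.single_eq_of_ne (Finset.ne_of_mem_erase hj), one_apply_eq]] at this
  simpa using this

theorem kp_eq (g : Fin 3 → M2 F) :
    φ.U * kp g * φ.U' = φ.s 0 (g 0) * φ.s 1 (g 1) * φ.s 2 (g 2) := by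
  simp only [s_apply, ua_mul, sl, ← kp_mul]
  congr 3
  funext j
  fin_cases j <;> simp

theorem kp_mul_kp (g g' : Fin 3 → M2 F) :
    φ.U * kp g * φ.U' * (φ.U * kp g' * φ.U') = φ.U * kp (fun i => g i * g' i) * φ.U' := by
  rw [ua_mul, kp_mul]

theorem kp_gs (g : Fin 3 → M2 F) : GS (∏ i, (g i).det) (φ.U * kp g * φ.U') := by
  obtain ⟨u, hu⟩ := φ.symp
  have e := φ.ua_form 1 1
  rw [ua_one, transpose_one, Matrix.one_mul, Matrix.mul_one, transpose_one, Matrix.one_mul,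
    Matrix.mul_one, hu] at e
  rw [gs_iff, ua_form, hu, Matrix.mul_smul, Matrix.smul_mul, kp_sim, smul_comm, Matrix.mul_smul,
    Matrix.smul_mul, ← e]

theorem s_gs {i : Fin 3} {x : M2 F} : GS 1 (φ.s i x) ↔ x.det = 1 := by
  have h := φ.kp_gs (Pi.mulSingle (M := fun _ => M2 F) i x)
  rw [Finset.prod_eq_single i (fun j _ e => by simp [e]) (by simp), Pi.mulSingle_eq_same] at h
  refine ⟨fun h' => ?_, fun e => e ▸ h⟩
  simpa [J] using congrFun (congrFun ((gs_iff.1 h).symm.trans (gs_iff.1 h')) (.inr 0)) (.inl 0)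

theorem s_mem_H (i : Fin 3) {x : M2 F} (h : x.det = 1) : φ.s i x ∈ φ.H := by
  refine ⟨Pi.mulSingle (M := fun _ => M2 F) i x, fun j => ?_, rfl⟩
  by_cases e : j = i
  · subst e; simpa using h
  · simp [e]

theorem H_gs {X : M8 F} (h : X ∈ φ.H) : GS 1 X := by
  obtain ⟨g, hg, rfl⟩ := h
  simpa [hg] using φ.kp_gs g

theorem kp_norm {g : Fin 3 → M2 F} (hg : ∀ i, (g i).det ≠ 0) (i : Fin 3) {X : M8 F}
    (h : X ∈ φ.h i) : ∃ X' ∈ φ.h i, φ.U * kp g * φ.U' * X = X' * (φ.U * kp g * φ.U') := by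
  obtain ⟨x, hx, rfl⟩ := φ.mem_h.1 h
  refine ⟨φ.s i (g i * x * (g i)⁻¹), φ.mem_h.2 ⟨_, ?_, rfl⟩, ?_⟩
  · rw [trace_mul_cycle, nonsing_inv_mul _ (hg i).isUnit, Matrix.one_mul, hx]
  · simp only [s_apply, ua_mul, sl, ← kp_mul]
    congr 3
    funext j
    by_cases e : j = i
    · subst e
      simp [nonsing_inv_mul_cancel_right _ _ (hg j).isUnit]
    · simp [e]

theorem hh_le : φ.hh ≤ spL F := by
  refine iSup_le fun i X hX => ?_
  obtain ⟨x, hx, rfl⟩ := φ.mem_h.1 hX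
  obtain ⟨u, hu⟩ := φ.symp
  have e1 := φ.ua_form (sl i x) 1
  have e2 := φ.ua_form 1 (sl i x)
  rw [ua_one, Matrix.mul_one, Matrix.mul_one, hu] at e1
  rw [ua_one, transpose_one, Matrix.one_mul, transpose_one, Matrix.one_mul, hu] at e2
  have e : (sl i x)ᵀ * (kp fun _ : Fin 3 => J2 F) = -((kp fun _ : Fin 3 => J2 F) * sl i x) := by
    have h1 : ∏ j, Pi.mulSingle (M := fun _ : Fin 3 => F) i (-1) j = -1 := by
      rw [Finset.prod_eq_single i (fun j _ e => by simp [e]) (by simp), Pi.mulSingle_eq_same]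
    rw [sl, kp_transpose, ← kp_mul, ← kp_mul, ← neg_one_smul F, ← h1, ← kp_smul]
    congr 1
    funext j
    by_cases e : j = i
    · subst e
      rw [trace_fin_two] at hx
      ext a b
      fin_cases a <;> fin_cases b <;>
        simp [J2, mul_apply, vecMul, dotProduct, eq_neg_of_add_eq_zero_left hx]
    · simp [e]
  show (φ.U * sl i x * φ.U')ᵀ * _ + _ * (φ.U * sl i x * φ.U') = 0
  rw [e1, e2, Matrix.mul_smul, Matrix.smul_mul, e]
  simp

theorem h_ad (i : Fin 3) : AdSt φ.hh (φ.h i) := by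
  intro X hX Y hY
  obtain ⟨x, -, rfl⟩ := φ.mem_hh.1 hX
  obtain ⟨y, -, rfl⟩ := φ.mem_h.1 hY
  rw [Finset.sum_mul, Finset.mul_sum, ← Finset.sum_sub_distrib,
    Finset.sum_eq_single i (fun j _ e => by rw [φ.s_comm e, sub_self]) (by simp),
    ← s_mul, ← s_mul, ← map_sub]
  exact φ.mem_h.2 ⟨_, by rw [trace_sub, trace_mul_comm, sub_self], rfl⟩

theorem hh_ad : AdSt φ.hh φ.hh := by
  intro X hX Y hY
  obtain ⟨y, hy, rfl⟩ := φ.mem_hh.1 hY
  rw [Finset.sum_mul, Finset.mul_sum, ← Finset.sum_sub_distrib]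
  exact Submodule.sum_mem _ fun i _ => φ.h_le i (φ.h_ad i X hX _ (φ.mem_h.2 ⟨_, hy i, rfl⟩))

theorem h_ne (i : Fin 3) : φ.h i ≠ ⊥ := by
  intro e
  have h1 : φ.s i !![0, 1; 0, 0] ∈ φ.h i := φ.mem_h.2 ⟨_, by simp, rfl⟩
  rw [e, Submodule.mem_bot, ← map_zero (φ.s i)] at h1
  simpa using congrFun (congrFun (φ.s_inj i h1) 0) 1

theorem h_sq {i : Fin 3} {X : M8 F} (h : X ∈ φ.h i) : ∃ c : F, X * X = c • 1 := by
  obtain ⟨x, hx, rfl⟩ := φ.mem_h.1 h
  refine ⟨-x.det, ?_⟩
  rw [← s_mul, ← φ.s_one i, ← map_smul]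
  congr 1
  rw [trace_fin_two] at hx
  ext a b
  fin_cases a <;> fin_cases b <;>
    simp [mul_apply, det_fin_two, eq_neg_of_add_eq_zero_left hx] <;> ring

theorem map_s (f : F →+* F') (i : Fin 3) (x : M2 F) :
    (φ.s i x).map f = (φ.map f).s i (x.map f) := by
  rw [s_apply, s_apply, Matrix.map_mul, Matrix.map_mul]
  congr 2
  ext a b
  simp [sl_apply, one_apply, apply_ite f]

theorem mem_hh_map (f : F →+* F') {X : M8 F} : X.map f ∈ (φ.map f).hh ↔ X ∈ φ.hh := by
  constructor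
  · intro h
    obtain ⟨x, hx, e⟩ := (φ.map f).mem_hh.1 h
    let _ := f.toAlgebra
    obtain ⟨g, hg⟩ := (Algebra.linearMap F F').exists_leftInverse_of_injective
      (LinearMap.ker_eq_bot.2 f.injective)
    have g1 : ∀ (c : F) (y : F'), g (f c * y) = c * g y := fun c y => g.map_smul c y
    have g2 : ∀ (c : F) (y : F'), g (y * f c) = g y * c := fun c y => by
      rw [mul_comm, g1, mul_comm]
    have g3 : ∀ c, g (f c) = c := fun c => DFunLike.congr_fun hg c
    refine φ.mem_hh.2 ⟨fun i => (x i).map g, fun i => ?_, ?_⟩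
    · have := congrArg g (hx i)
      rw [trace_fin_two, map_add, map_zero] at this
      rw [trace_fin_two]
      exact this
    · ext a b
      have := congrArg (fun Y : M8 F' => g (Y a b)) e
      simp only [map_apply, g3, Matrix.sum_apply, map_sum] at this
      rw [this, Matrix.sum_apply]
      refine Finset.sum_congr rfl fun i _ => ?_
      have e1 : ∀ p q : T3, g (sl i (x i) p q) = sl i ((x i).map g) p q := fun p q => by
        rw [sl_apply, sl_apply, map_apply, ← g2]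
        simp [one_apply, apply_ite f]
      simp only [s_apply, map, mul_apply, map_apply, map_sum, g1, g2, e1]
  · intro h
    obtain ⟨x, hx, rfl⟩ := φ.mem_hh.1 h
    refine (φ.map f).mem_hh.2 ⟨fun i => (x i).map f, fun i => ?_, ?_⟩
    · have := congrArg f (hx i)
      rw [trace_fin_two, map_add, map_zero] at this
      rw [trace_fin_two]
      exact this
    · rw [← RingHom.mapMatrix_apply, map_sum]
      exact Finset.sum_congr rfl fun i _ => φ.map_s f i _

theorem cj_s (a : symplecticGroup (Fin 4) F) (i : Fin 3) (x : M2 F) :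
    (φ.cj a).s i x = a.1 * φ.s i x * (a⁻¹).1 := by
  simp only [s_apply, cj, Matrix.mul_assoc]

theorem mem_hh_cj (a : symplecticGroup (Fin 4) F) {X : M8 F} :
    X ∈ (φ.cj a).hh ↔ (a⁻¹).1 * X * a.1 ∈ φ.hh := by
  have h1 : a.1 * (a⁻¹).1 = 1 := congrArg Subtype.val (mul_inv_cancel a)
  have h2 : (a⁻¹).1 * a.1 = 1 := congrArg Subtype.val (inv_mul_cancel a)
  simp only [mem_hh, cj_s, ← Finset.sum_mul, ← Finset.mul_sum]
  refine exists_congr fun x => and_congr_right fun _ => ⟨fun e => ?_, fun e => ?_⟩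
  · rw [e, ← mul_assoc, ← mul_assoc, h2, one_mul, mul_assoc, h2, mul_one]
  · rw [← e, ← mul_assoc, ← mul_assoc, h1, one_mul, mul_assoc, h1, mul_one]

end Fr3

theorem sp_ad {F : Type} [Field F] : AdSt (spL F) (spL F) := fun _ hX _ hY => IsLie.lie hX hY

theorem sp_conj {F : Type} [Field F] (a : symplecticGroup (Fin 4) F) {X : M8 F} (h : X ∈ spL F) :
    a.1 * X * (a⁻¹).1 ∈ spL F := by
  have h1 : a.1 * (a⁻¹).1 = 1 := congrArg Subtype.val (mul_inv_cancel a)
  have h2 : (a⁻¹).1 * a.1 = 1 := congrArg Subtype.val (inv_mul_cancel a)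
  have e1 : a.1ᵀ * J (Fin 4) F = J (Fin 4) F * (a⁻¹).1 := by
    conv_rhs => rw [← SymplecticGroup.mem_iff'.1 a.2, mul_assoc, h1, mul_one]
  have e2 : J (Fin 4) F * a.1 = (a⁻¹).1ᵀ * J (Fin 4) F := by
    conv_lhs => rw [← SymplecticGroup.mem_iff'.1 (a⁻¹).2, mul_assoc, h2, mul_one]
  have h3 : Xᵀ * J (Fin 4) F + J (Fin 4) F * X = 0 := h
  show (a.1 * X * (a⁻¹).1)ᵀ * _ + _ * (a.1 * X * (a⁻¹).1) = 0
  calc _ = (a⁻¹).1ᵀ * (Xᵀ * J (Fin 4) F + J (Fin 4) F * X) * (a⁻¹).1 := by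
        rw [transpose_mul, transpose_mul, mul_assoc, mul_assoc, e1, ← mul_assoc (J _ _),
          ← mul_assoc (J _ _), e2]
        noncomm_ring
    _ = 0 := by rw [h3, mul_zero, zero_mul]

theorem sp_map {F F' : Type} [Field F] [Field F'] (f : F →+* F') {X : M8 F} :
    X.map f ∈ spL F' ↔ X ∈ spL F := by
  have e : (X.map f)ᵀ * J (Fin 4) F' + J (Fin 4) F' * X.map f =
      (Xᵀ * J (Fin 4) F + J (Fin 4) F * X).map f := by
    rw [Matrix.map_add _ f.map_add, Matrix.map_mul, Matrix.map_mul, map_J, transpose_map]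
  show _ + _ = _ ↔ _ + _ = _
  rw [e, ← Matrix.map_zero f f.map_zero]
  exact (Matrix.map_injective f.injective).eq_iff

theorem closed_sub {F : Type} [Field F] [TopologicalSpace F] [IsTopologicalRing F] [T1Space F]
    (V : Submodule F (M8 F)) : IsClosed (V : Set (M8 F)) := by
  refine isOpen_compl_iff.1 (isOpen_iff_forall_mem_open.2 fun x hx => ?_)
  obtain ⟨f, h1, h2⟩ := V.exists_le_ker_of_notMem hx
  have e : (f : M8 F → F) = fun a => ∑ i, ∑ j, a i j * f (single i j 1) := funext fun a => by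
    conv_lhs => rw [matrix_eq_sum_single a]
    simp only [map_sum]
    refine Finset.sum_congr rfl fun i _ => Finset.sum_congr rfl fun j _ => ?_
    rw [← smul_eq_mul, ← map_smul, smul_single, smul_eq_mul, mul_one]
  have hc : Continuous f := by
    rw [e]
    fun_prop
  exact ⟨f ⁻¹' {0}ᶜ, fun y hy hV => hy (h2 hV), isOpen_compl_singleton.preimage hc, h1⟩

end Pool.Agent.MT.U
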