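import Pool.Agent.Lib.MP_d61fbb_ag.MT.UGal
import Pool.Agent.Lib.MP_d61fbb_ag.MT.UZ
import Pool.Agent.Lib.MP_d61fbb_ag.MT.G6

/-! Stage three: endomorphisms. -/

set_option autoImplicit false

noncomputable section

namespace Pool.Agent.MT.U

open Matrix G

variable {τ : Matrix (Fin 4) (Fin 4) ℂ} {K : IntermediateField ℚ ℂ}

theorem exists_pow {D : ℕ} (hD : D ≠ 0) : ∃ N : ℕ, N ≠ 0 ∧ ∀ (l : Pr) (u : GL (I2 4) ℤ_[l]) a b,
    (D : ℤ_[l]) ∣ ((u ^ N).val - 1) a b := by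
  refine ⟨(D ^ 64).factorial, (Nat.factorial_pos _).ne', fun l u a b => ?_⟩
  obtain ⟨k, m, hm, e⟩ := Nat.exists_eq_pow_mul_and_not_dvd hD l l.2.ne_one
  have h1 : IsUnit (m : ℤ_[l]) := PadicInt.isUnit_iff.2
    (Padic.norm_natCast_eq_one_iff.2 ((Nat.Prime.coprime_iff_not_dvd l.2).2 hm))
  let f := Units.map (RingHom.mapMatrix (m := I2 4) (PadicInt.toZModPow (p := l) k)).toMonoidHom
  have h2 : Nat.card (GL (I2 4) (ZMod (l ^ k))) ≤ D ^ 64 := by
    refine (Nat.card_le_card_of_injective _ Units.val_injective).trans ?_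
    rw [Matrix, Nat.card_fun, Nat.card_fun, Nat.card_zmod, ← pow_mul]
    simpa using Nat.pow_le_pow_left (Nat.le_of_dvd (Nat.pos_of_ne_zero hD) ⟨m, e⟩) 64
  have h3 : f (u ^ (D ^ 64).factorial) = 1 := by
    obtain ⟨c, hc⟩ := Nat.dvd_factorial Nat.card_pos h2
    rw [map_pow, hc, pow_mul, pow_card_eq_one', one_pow]
  have h4 : PadicInt.toZModPow k (((u ^ (D ^ 64).factorial).val - 1) a b) = 0 := by
    have := congrArg (fun v : GL (I2 4) (ZMod (l ^ k)) => v.val a b) h3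
    rw [Matrix.sub_apply, map_sub, sub_eq_zero]
    exact this.trans (by simp [one_apply])
  rw [← RingHom.mem_ker, PadicInt.ker_toZModPow, Ideal.mem_span_singleton] at h4
  nth_rewrite 1 [e]
  rw [Nat.cast_mul, h1.mul_right_dvd, Nat.cast_pow]
  exact h4

/-- congruent to one -/
def Cg (n : ℕ) (k : M8 AF) : Prop := ∀ t ∈ L0, ∃ s ∈ L0, k *ᵥ t = t + n • s

theorem Cg.mul {n : ℕ} {k k' : M8 AF} (h : Cg n k) (h' : Cg n k') : Cg n (k * k') := fun t ht => by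
  obtain ⟨s, a, b⟩ := h' t ht
  obtain ⟨s', a', b'⟩ := h _ (add_mem ht (nsmul_mem a n))
  exact ⟨s + s', add_mem a a', by rw [← mulVec_mulVec, b, b', smul_add, add_assoc]⟩

theorem Cg.two {k : M8 AF} (h : Cg 8 k) : Cg 2 k := fun t ht => by
  obtain ⟨s, a, b⟩ := h t ht
  exact ⟨4 • s, nsmul_mem a 4, b.trans (congrArg _ (mul_smul 2 4 s))⟩

theorem Cg.surj {k k' : M8 AF} (h : Cg 8 k') (e : k * k' = 1) : ∀ t ∈ L0, ∃ s ∈ L0, k *ᵥ s = t :=
  fun t ht => by
    obtain ⟨s, a, b⟩ := h t ht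
    exact ⟨_, add_mem ht (nsmul_mem a 8), by rw [← b, mulVec_mulVec, e, one_mulVec]⟩

theorem ue_mA_mul (g h : ∀ l : Pr, GL (I2 4) ℤ_[l]) : mA (g * h) = mA g * mA h := by
  refine Matrix.ext fun i j => ?_
  rw [mul_apply]
  simp only [mA, of_apply, ← map_mul, ← map_sum]
  congr 1

theorem ue_mA_one : mA 1 = 1 := by
  refine Matrix.ext fun i j => ?_
  by_cases h : i = j
  · subst h
    rw [one_apply_eq, ← map_one zA]
    exact congrArg zA (funext fun l => one_apply_eq i)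
  · rw [one_apply_ne h, ← map_zero zA]
    exact congrArg zA (funext fun l => one_apply_ne h)

theorem cg_mA {D : ℕ} {g : ∀ l : Pr, GL (I2 4) ℤ_[l]}
    (h : ∀ (l : Pr) a b, (D : ℤ_[l]) ∣ ((g l).val - 1) a b) : Cg D (mA g) := fun t ht => by
  choose y hy using h
  have e : mA g = 1 + D • of fun a b => zA fun l => y l a b := by
    rw [← ue_mA_one]
    refine Matrix.ext fun a b => ?_
    simp only [mA, Matrix.add_apply, Matrix.smul_apply, of_apply, ← map_nsmul, ← map_add]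
    exact congrArg zA (funext fun l => by
      simpa [sub_eq_iff_eq_add'] using hy l a b)
  refine ⟨(of fun a b => zA fun l => y l a b) *ᵥ t, mem_Lam.2 fun a => ?_, by
    rw [e, add_mulVec, one_mulVec, smul_mulVec]⟩
  exact Zh.sum_mem (t := Finset.univ) fun b _ => Zh.mul_mem (x := zA fun l => y l a b) (fun l => (y l a b).2)
    (mem_Lam.1 ht b)

theorem exists_cg {P Q : M8 AF} (e : P * Q = 1) :
    ∃ D : ℕ, D ≠ 0 ∧ ∀ k, Cg (8 * D) k → Cg 8 k ∧ Cg 8 (P * k * Q) := by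
  obtain ⟨d, d0, hd⟩ := gx_den P
  obtain ⟨c, c0, hc⟩ := gx_den Q
  refine ⟨c * d, mul_ne_zero c0 d0, fun k h => ⟨fun t ht => ?_, fun t ht => ?_⟩⟩
  · obtain ⟨s, a, b⟩ := h t ht
    exact ⟨_, nsmul_mem a (c * d), by rw [b, mul_smul]⟩
  · obtain ⟨s, a, b⟩ := h _ (hc t ht)
    refine ⟨_, hd s a, smul_right_injective W (Nat.cast_ne_zero.2 c0 : (c : ℚ) ≠ 0) ?_⟩
    simp only [Nat.cast_smul_eq_nsmul]
    rw [← mulVec_mulVec, ← mulVec_mulVec, ← mulVec_smul, ← mulVec_smul, b, mulVec_add, mulVec_smul,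
      mulVec_smul, mulVec_mulVec, e, one_mulVec, smul_add, smul_smul, smul_smul, mul_comm c 8,
      mul_assoc]

theorem ue_zero {k : M8 AF} (h : ∀ x : W, (1 / 2 : ℚ) • (k *ᵥ x - x) ∈ L0) : k = 1 := by
  refine Matrix.ext fun a b => sub_eq_zero.1 (Subtype.ext (funext fun l => ?_))
  have e : ∀ c : ℚ_[l], ‖c * cp l (k a b - (1 : M8 AF) a b)‖ ≤ 1 := fun c => by
    have := mem_L0.1 (h (Pi.single b (2 * sg l c))) a l
    rw [← one_mulVec (Pi.single b _ : W), mulVec_mulVec, Matrix.mul_one, ← sub_mulVec] at this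
    simp only [mulVec_single, Pi.smul_apply, MulOpposite.smul_eq_mul_unop, MulOpposite.unop_op,
      col_apply, map_smul, map_mul, cp_sg, map_ofNat, Rat.smul_def, Matrix.sub_apply] at this
    convert this using 2
    push_cast
    ring
  by_contra h0
  replace h0 : cp l (k a b - (1 : M8 AF) a b) ≠ 0 := h0
  have := e ((l : ℚ_[l])⁻¹ * (cp l (k a b - (1 : M8 AF) a b))⁻¹)
  rw [inv_mul_cancel_right₀ h0, norm_inv, Padic.norm_p, inv_inv] at this
  exact this.not_gt (by exact_mod_cast l.2.one_lt)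

theorem ue_comm (hτ : Sieg τ) (h8 : ee (1 / 8) ∈ K) (M : MumfordType τ K) {γ : G.Sp 4 ℚ}
    (h : tr τ γ = un τ) : ∃ N : ℕ, N ≠ 0 ∧ ∀ σ,
      γ.1.map qa * mA (M.ρ (σ ^ N)) = mA (M.ρ (σ ^ N)) * γ.1.map qa := by
  have i1 : ∀ δ : G.Sp 4 ℚ, δ.1.map qa * (δ⁻¹).1.map qa = 1 := fun δ => by
    rw [← Matrix.map_mul (f := algebraMap ℚ AF), show δ.1 * (δ⁻¹).1 = 1 from
      congrArg Subtype.val (mul_inv_cancel δ), Matrix.map_one _ (map_zero _) (map_one _)]
  have i2 := i1 γ⁻¹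
  rw [inv_inv] at i2
  obtain ⟨D, D0, hD⟩ := exists_cg (i1 γ)
  obtain ⟨N, N0, hN⟩ := exists_pow (mul_ne_zero (by norm_num : 8 ≠ 0) D0)
  refine ⟨N, N0, fun σ => ?_⟩
  have c : ∀ σ, _ := fun σ => hD (mA (M.ρ (σ ^ N))) (cg_mA fun l => map_pow M.ρ σ N ▸ hN l _)
  have j1 : mA (M.ρ (σ ^ N)) * mA (M.ρ (σ⁻¹ ^ N)) = 1 := by
    rw [← ue_mA_mul, ← map_mul, inv_pow, mul_inv_cancel, map_one, ue_mA_one]
  have j2 := mul_eq_one_comm.1 j1
  obtain ⟨⟨b, b0, g1⟩, g2⟩ := gal_ad hτ h8 M (σ ^ N) γ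
    (r := γ.1.map qa * mA (M.ρ (σ ^ N)) * (γ⁻¹).1.map qa)
    (by rw [Matrix.mul_assoc, i2, Matrix.mul_one]) (c σ).2.two ((c σ⁻¹).2.surj (by
      simp only [Matrix.mul_assoc]
      rw [← Matrix.mul_assoc ((γ⁻¹).1.map qa), i2, Matrix.one_mul, ← Matrix.mul_assoc (mA _), j1,
        Matrix.one_mul, i1]))
  obtain ⟨⟨b', -, g3⟩, g4⟩ := gal_ad hτ h8 M (σ ^ N) 1 (r := mA (M.ρ (σ ^ N))) (by
    rw [show (1 : G.Sp 4 ℚ).1.map qa = 1 from Matrix.map_one _ (map_zero _) (map_one _),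
      Matrix.mul_one, Matrix.one_mul]) (c σ).1.two ((c σ⁻¹).1.surj j1)
  rw [h, mk_un hτ.symm] at g1
  rw [show tr τ 1 = un τ from (congrArg (ac · _) qr_one).trans (ac_one _), mk_un hτ.symm] at g3
  have k := ue_zero fun x => sep_ad hτ (fun x y => by
    rw [← mulVec_mulVec x, ← mulVec_mulVec y, ← g2, g4, mulVec_mulVec, mulVec_mulVec, j1,
      one_mulVec, one_mulVec]) ((c σ).2.mul (c σ⁻¹).1) (c := b' / b) (x := x) fun η => by
    rw [← mulVec_mulVec, div_mul_eq_mul_div, eq_div_iff b0, mul_comm, ← g1, g3, mulVec_mulVec, j1,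
      one_mulVec]
  have k2 := congrArg (· * (mA (M.ρ (σ ^ N)) * γ.1.map qa)) k
  simp only [Matrix.mul_assoc, Matrix.one_mul] at k2
  rwa [← Matrix.mul_assoc (mA (M.ρ (σ⁻¹ ^ N))), j2, Matrix.one_mul, i2, Matrix.mul_one] at k2

theorem end_sp (hτ : Sieg τ) (h8 : ee (1 / 8) ∈ K) (M : MumfordType τ K) {γ : G.Sp 4 ℚ}
    (h : tr τ γ = un τ) : ∃ c : ℚ, γ.1 = c • 1 := by
  obtain ⟨N, N0, hN⟩ := ue_comm hτ h8 M h
  obtain ⟨l, hl⟩ := Infinite.exists_notMem_finset M.S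
  let i := RingHom.id (PadicAlgCl l)
  let φ := (cubFr (M.D l)).map i
  let X : M8 (PadicAlgCl l) := γ.1.map (↑)
  have k : ∀ g : SpecialLinearGroup (Fin 2) (AdjoinRoot (M.D l).c),
      ((M.D l).Nm g.val ^ N).map (zi i) * X = X * ((M.D l).Nm g.val ^ N).map (zi i) := fun g => by
    classical
    obtain ⟨σ, hσ⟩ := M.big {l} (Pi.mulSingle l g)
    have e := hσ l (Finset.mem_singleton_self l) hl
    let f : AF →+* PadicAlgCl l := (algebraMap ℚ_[l] _).comp (cp l).toRingHom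
    have := congrArg (·.map f) (hN σ)
    simp only [Matrix.map_mul] at this
    rw [Pi.mulSingle_eq_same] at e
    rw [← e, ← Units.val_pow_eq_pow_val, ← Pi.pow_apply, ← map_pow,
      show X = (γ.1.map qa).map f from Matrix.ext fun a b => (eq_ratCast (f.comp (algebraMap ℚ AF)) _).symm]
    exact this.symm
  have kk : ∀ (n : PadicAlgCl l → M2 (PadicAlgCl l)) (t : Fin 3 → PadicAlgCl l),
      (∀ c, n c * n (-c) = 1) → φ.U * kp (fun k => n (t k)) * φ.U' * X =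
        X * (φ.U * kp (fun k => n (t k)) * φ.U') → φ.U * kp (fun k => n (t k)) * φ.U' * X *
          (φ.U * kp (fun k => n (-t k)) * φ.U') - X ∈ (⊥ : Submodule (PadicAlgCl l) _) :=
    fun n t h1 h2 => by
      rw [h2, Matrix.mul_assoc X, φ.kp_mul_kp, show (fun k => n (t k) * n (-t k)) = fun _ => 1 from
        funext fun k => h1 _, kp_one, φ.ua_one, Matrix.mul_one, sub_self]
      exact zero_mem _
  obtain ⟨c, hc⟩ := φ.scalar_of (X := X)
    (fun j => sub_eq_zero.1 (φ.ad_up (cub_span (M.D l) i N0) (V := ⊥) (by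
      rintro _ ⟨x, rfl⟩
      exact kk (fun c => !![1, c; 0, 1]) _ (fun c => by simp [one_fin_two])
        (cub_uu (M.D l) i N x ▸ k _)) j))
    fun j => sub_eq_zero.1 (φ.ad_low (cub_span (M.D l) i N0) (V := ⊥) (by
      rintro _ ⟨x, rfl⟩
      exact kk (fun c => !![1, 0; c, 1]) _ (fun c => by simp [one_fin_two])
        (cub_ll (M.D l) i N x ▸ k _)) j)
  refine ⟨γ.1 (.inl 0) (.inl 0), Matrix.ext fun a b => Rat.cast_injective (α := PadicAlgCl l) ?_⟩
  have e1 := congrFun₂ hc a b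
  have e2 := congrFun₂ hc (.inl 0) (.inl 0)
  simp only [X, map_apply, Matrix.smul_apply, one_apply, smul_eq_mul, if_true, mul_one] at e1 e2 ⊢
  split_ifs at e1 ⊢ <;> simp_all

theorem ue_cay {n : Type} [Fintype n] [DecidableEq n] {E X : Matrix n n ℚ} (hX : IsLie E X) :
    ∃ (t : ℚ) (g P : Matrix n n ℚ), t ≠ 0 ∧ gᵀ * E * g = E ∧ g * (t • 1 - X) = t • 1 + X ∧
      (t • 1 - X) * P = 1 := by
  obtain ⟨t, ht⟩ := Infinite.exists_notMem_finset (Polynomial.X * X.charpoly).roots.toFinset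
  rw [Multiset.mem_toFinset, Polynomial.mem_roots (mul_ne_zero Polynomial.X_ne_zero
    X.charpoly_monic.ne_zero), Polynomial.IsRoot, Polynomial.eval_mul, Polynomial.eval_X,
    mul_eq_zero, not_or, eval_charpoly, scalar_apply, ← smul_one_eq_diagonal] at ht
  have u : IsUnit (t • (1 : Matrix n n ℚ) - X).det := Ne.isUnit ht.2
  have e : (t • 1 + X)ᵀ * E * (t • 1 + X) = (t • 1 - X)ᵀ * E * (t • 1 - X) := by
    have := congrArg ((2 * t) • ·) hX
    simp only [transpose_add, transpose_sub, transpose_smul, transpose_one, Matrix.add_mul,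
      Matrix.sub_mul, Matrix.mul_add, Matrix.mul_sub, Matrix.smul_mul, Matrix.mul_smul,
      Matrix.one_mul, Matrix.mul_one, smul_zero] at this ⊢
    linear_combination (norm := module) this
  refine ⟨t, (t • 1 + X) * (t • 1 - X)⁻¹, _, ht.1, ?_, nonsing_inv_mul_cancel_right _ _ u,
    mul_nonsing_inv _ u⟩
  rw [transpose_mul, Matrix.mul_assoc, Matrix.mul_assoc, ← Matrix.mul_assoc E,
    ← Matrix.mul_assoc _ᵀ (E * _), ← Matrix.mul_assoc _ E, e, Matrix.mul_assoc,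
    mul_nonsing_inv _ u, Matrix.mul_one, ← Matrix.mul_assoc, ← transpose_mul, mul_nonsing_inv _ u,
    transpose_one, Matrix.one_mul]

theorem noEnd (hτ : Sieg τ) (h8 : ee (1 / 8) ∈ K) (M : MumfordType τ K) :
    NoEnd (Jm (un τ)) := by
  intro X hX h
  obtain ⟨t, g, P, t0, g0, g1, u⟩ := ue_cay hX
  obtain ⟨γ, rfl⟩ : ∃ γ : G.Sp 4 ℚ, γ.1 = g := ⟨⟨g, SymplecticGroup.mem_iff'.2 g0⟩, rfl⟩
  have hz : un τ ∈ G.HH 4 := by rwa [← mk_un hτ.symm] at hτ
  have c0 : ∀ s : ℚ, Commute (qr (t • 1 + s • X)) (Jm (un τ)) := fun s => by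
    have : qr (t • 1 + s • X) = (t : ℝ) • 1 + (s : ℝ) • qr X := by
      ext a b
      by_cases q : a = b <;> simp [one_apply, q]
    rw [this]
    exact ((Commute.one_left _).smul_left _).add_left (Commute.smul_left h _)
  have c1 : qr γ.1 * Jm (un τ) = Jm (un τ) * qr γ.1 := by
    have a := c0 1
    have b := c0 (-1)
    rw [one_smul] at a
    rw [neg_one_smul, ← sub_eq_add_neg] at b
    have v : qr (t • 1 - X) * qr P = 1 := by rw [← qr_mul, u, qr_one]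
    rw [← Matrix.mul_one (_ * Jm _), ← v, ← Matrix.mul_assoc, Matrix.mul_assoc _ (Jm _), ← b.eq,
      ← Matrix.mul_assoc, ← qr_mul, g1, a.eq, Matrix.mul_assoc, ← qr_mul, ← g1, Matrix.mul_assoc γ.1,
      u, Matrix.mul_one]
  obtain ⟨c, hc⟩ := end_sp hτ h8 M (γ := γ) (Jm_inj (tr_mem hτ γ) hz (by
    have v : qr γ.1 * qr (γ⁻¹).1 = 1 := by
      rw [← qr_mul, ← qr_one]
      exact congrArg (fun x : G.Sp 4 ℚ => qr x.1) (mul_inv_cancel γ)
    have w : Jm (tr τ γ) * qr γ.1 = qr γ.1 * Jm (un τ) := Jm_ac (qsp γ) hz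
    rw [← Matrix.mul_one (Jm (tr τ γ)), ← v, ← Matrix.mul_assoc, w, c1, Matrix.mul_assoc, v,
      Matrix.mul_one]))
  rw [hc, Matrix.smul_mul, Matrix.one_mul] at g1
  have g2 : (1 + c) • X = ((c - 1) * t) • 1 := by linear_combination (norm := module) -g1
  have g3 : IsLie _ _ := g2 ▸ (lieSub (J (Fin 4) ℚ)).smul_mem (1 + c) hX
  rw [IsLie, transpose_smul, transpose_one, Matrix.smul_mul, Matrix.mul_smul, Matrix.one_mul,
    Matrix.mul_one, ← add_smul, smul_eq_zero, add_self_eq_zero, mul_eq_zero, sub_eq_zero] at g3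
  have g4 : c = 1 := (g3.resolve_right fun q => by
    simpa [q] using J_squared (Fin 4) ℚ).resolve_right t0
  rw [g4, sub_self, zero_mul, zero_smul] at g2
  exact (smul_eq_zero.1 g2).resolve_left (by norm_num)

end Pool.Agent.MT.U
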