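import Pool.Agent.Lib.MP_d61fbb_ag.MT.UP

/-! Stage three: the Hodge group lies in the tensor group. -/

set_option autoImplicit false

noncomputable section

namespace Pool.Agent.MT.U

open Matrix G MvPolynomial

/-- evaluation of a polynomial at a matrix -/
abbrev evM (g : M8 ℂ) : MvPolynomial (I2 4 × I2 4) ℂ →+* ℂ := eval fun ij => g ij.1 ij.2

/-- the generic matrix -/
def genM : M8 (MvPolynomial (I2 4 × I2 4) ℂ) := of fun i j => X (i, j)

theorem genM_map (g : M8 ℂ) : genM.map (evM g) = g := by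
  ext i j; simp [genM]

theorem C_map (g Y : M8 ℂ) : (Y.map C).map (evM g) = Y := by
  ext i j; simp

theorem subset_zar (A : Set (M8 ℂ)) : A ⊆ Zar A := fun a ha _ h => h a ha

/-- polynomial maps into a subspace -/
theorem uh_zar_sub {A : Set (M8 ℂ)} (P : M8 (MvPolynomial (I2 4 × I2 4) ℂ))
    (V : Submodule ℂ (M8 ℂ)) (h : ∀ a ∈ A, P.map (evM a) ∈ V) {g : M8 ℂ} (hg : g ∈ Zar A) :
    P.map (evM g) ∈ V := by
  by_contra hc
  obtain ⟨l, hl, h0⟩ := V.exists_dual_map_eq_bot_of_notMem hc inferInstance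
  have key : ∀ a : M8 ℂ, evM a (∑ i, ∑ j, P i j * C (l (single i j 1))) = l (P.map (evM a)) := by
    intro a
    rw [matrix_eq_sum_single (P.map (evM a))]
    simp only [map_sum, map_mul, eval_C, map_apply]
    refine Finset.sum_congr rfl fun i _ => Finset.sum_congr rfl fun j _ => ?_
    rw [← smul_eq_mul, ← map_smul, smul_single, smul_eq_mul, mul_one]
  refine hl ?_
  rw [← key]
  refine hg _ fun a ha => (key a).trans ?_
  exact (Submodule.eq_bot_iff _).1 h0 _ (Submodule.mem_map_of_mem (h a ha))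

/-- a closed group that is stable under all automorphisms is defined over the rationals -/
theorem overQ_of {H : Subgroup (GL (I2 4) ℂ)} {A : Set (M8 ℂ)} (hA : ∀ g, g ∈ H ↔ g.val ∈ A)
    (hc : ∀ g : GL (I2 4) ℂ, g.val ∈ Zar A → g.val ∈ A)
    (hs : ∀ (α : ℂ ≃+* ℂ), ∀ a ∈ A, a.map α ∈ A) : St.OverQ H := by
  classical
  refine ⟨{f | ∀ a ∈ A, aeval (fun ij : I2 4 × I2 4 => a ij.1 ij.2) f = 0}, fun g =>
    ⟨fun hg f hf => hf _ ((hA g).1 hg), fun hg => (hA g).2 (hc g fun f hf => ?_)⟩⟩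
  let L : M8 ℂ → (f.support → ℂ) →ₗ[ℂ] ℂ := fun a =>
    { toFun := fun v => ∑ m, v m * m.1.prod fun ij e => a ij.1 ij.2 ^ e
      map_add' := fun v w => by simp only [Pi.add_apply, add_mul, Finset.sum_add_distrib]
      map_smul' := fun c v => by
        simp only [Pi.smul_apply, smul_eq_mul, RingHom.id_apply, Finset.mul_sum, mul_assoc] }
  have hL : ∀ a : M8 ℂ, L a (fun m => coeff m.1 f) = eval (fun ij => a ij.1 ij.2) f := by
    intro a
    rw [eval_eq, ← Finset.sum_coe_sort]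
    rfl
  let V : Submodule ℂ (f.support → ℂ) := ⨅ a ∈ A, LinearMap.ker (L a)
  have hV : ∀ v, v ∈ V ↔ ∀ a ∈ A, L a v = 0 := fun v => by
    simp only [V, Submodule.mem_iInf, LinearMap.mem_ker]
  have hd := desc (V := V) (v := fun m => coeff m.1 f) (fun α v hv => (hV _).2 fun a ha => by
    have h1 := congrArg α ((hV v).1 hv _ (hs α.symm a ha))
    rw [map_zero] at h1
    rw [← h1]
    simp only [L, LinearMap.coe_mk, AddHom.coe_mk, map_sum, map_mul, Finsupp.prod, map_prod,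
      map_pow, map_apply, RingEquiv.apply_symm_apply])
    ((hV _).2 fun a ha => (hL a).trans (hf a ha))
  rw [← hL]
  refine (Submodule.span_le.2 ?_ : _ ≤ LinearMap.ker (L g.val)) hd
  rintro w ⟨hw, q, rfl⟩
  have e : ∀ a : M8 ℂ, aeval (fun ij : I2 4 × I2 4 => a ij.1 ij.2)
      (∑ m : f.support, monomial m.1 (q m)) = L a fun i => (q i : ℂ) := by
    intro a
    simp only [map_sum, aeval_monomial, L, LinearMap.coe_mk, AddHom.coe_mk, eq_ratCast]
  exact (e _).symm.trans (hg _ fun a ha => (e a).trans ((hV _).1 hw a ha))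

theorem Fr3.H_inv {F : Type} [Field F] (φ : Fr3 F) {a : M8 F} (h : a ∈ φ.H) :
    ∃ b ∈ φ.H, a * b = 1 := by
  obtain ⟨g, hg, rfl⟩ := h
  refine ⟨_, ⟨fun i => (g i).adjugate, fun i => by rw [det_adjugate, hg, one_pow], rfl⟩, ?_⟩
  rw [φ.kp_mul_kp]
  simp only [mul_adjugate, hg, one_smul]
  rw [show (kp fun _ : Fin 3 => (1 : M2 F)) = 1 from kp_one, Matrix.mul_one, φ.mul_inv]

theorem Fr3.H_unit {F : Type} [Field F] (φ : Fr3 F) {a : M8 F} (h : a ∈ φ.H) : IsUnit a :=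
  (φ.H_inv h).elim fun _ hb => IsUnit.of_mul_eq_one _ hb.2

/-- the tensor group as a subgroup -/
def Fr3.grp {F : Type} [Field F] (φ : Fr3 F) : Subgroup (GL (I2 4) F) where
  carrier := {g | g.val ∈ φ.H}
  one_mem' := by
    have := φ.s_mem_H 0 (x := 1) det_one
    rwa [φ.s_one] at this
  mul_mem' := by
    rintro a b ⟨g, hg, e⟩ ⟨g', hg', e'⟩
    exact ⟨fun i => g i * g' i, fun i => by rw [det_mul, hg, hg', one_mul], by
      rw [Units.val_mul, e, e', φ.kp_mul_kp]⟩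
  inv_mem' := by
    intro a ha
    obtain ⟨b, hb, e⟩ := φ.H_inv ha
    show (a⁻¹).val ∈ φ.H
    rwa [Units.inv_eq_of_mul_eq_one_right e]

theorem Fr3.H_norm {F : Type} [Field F] (φ : Fr3 F) {a : M8 F} (h : a ∈ φ.H) (i : Fin 3)
    {X : M8 F} (hX : X ∈ φ.h i) : ∃ X' ∈ φ.h i, a * X = X' * a := by
  obtain ⟨g, hg, rfl⟩ := h
  exact φ.kp_norm (fun i => by rw [hg]; exact one_ne_zero) i hX

theorem Fr3.H_closed (φ : Fr3 ℂ) {g : M8 ℂ} (hg : g ∈ Zar φ.H) : g ∈ φ.H := by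
  have h1 : GS 1 g := by
    have e : ∀ a : M8 ℂ, (genMᵀ * (J (Fin 4) ℂ).map C * genM - (J (Fin 4) ℂ).map C).map (evM a) =
        aᵀ * J (Fin 4) ℂ * a - J (Fin 4) ℂ := by
      intro a
      rw [Matrix.map_sub _ (map_sub _), Matrix.map_mul, Matrix.map_mul, transpose_map, genM_map,
        C_map]
    have := uh_zar_sub _ ⊥ (fun a ha => by
      rw [e, gs_iff.1 (φ.H_gs ha), one_smul, sub_self]; exact Submodule.zero_mem _) hg
    rw [e, Submodule.mem_bot, sub_eq_zero] at this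
    rw [gs_iff, this, one_smul]
  have hd : g.det ≠ 0 := (SymplecticGroup.symplectic_det (gs_one_iff.1 h1)).ne_zero
  refine φ.mem_H h1 fun i Y hY => ?_
  have e : ∀ a : M8 ℂ, (genM * Y.map C * genM.adjugate).map (evM a) = a * Y * a.adjugate := by
    intro a
    rw [Matrix.map_mul, Matrix.map_mul, C_map]
    have := (evM a).map_adjugate genM
    rw [RingHom.mapMatrix_apply, RingHom.mapMatrix_apply] at this
    rw [this, genM_map]
  have := uh_zar_sub _ (φ.h i) (fun a ha => by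
    obtain ⟨X', hX', e'⟩ := φ.H_norm ha i hY
    rw [e, e', Matrix.mul_assoc, mul_adjugate, Matrix.mul_smul, Matrix.mul_one]
    exact Submodule.smul_mem _ _ hX') hg
  rw [e] at this
  refine ⟨_, Submodule.smul_mem _ g.det⁻¹ this, ?_⟩
  rw [Matrix.smul_mul, Matrix.mul_assoc _ _ g, adjugate_mul, Matrix.mul_smul, Matrix.mul_one,
    smul_smul, inv_mul_cancel₀ hd, one_smul]

theorem Fr3.H_map (φ : Fr3 ℂ) (h : Rat φ.hh) (α : ℂ ≃+* ℂ) {a : M8 ℂ} (ha : a ∈ φ.H) :
    a.map α ∈ φ.H := by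
  refine φ.mem_H (by simpa using (φ.H_gs ha).map α.toRingHom) fun j Y hY => ?_
  obtain ⟨i, hi⟩ := φ.perm h α.symm j
  obtain ⟨X', hX', e⟩ := φ.H_norm ha i (hi Y hY)
  refine ⟨_, φ.perm_symm h hi X' hX', ?_⟩
  have := congrArg (fun M : M8 ℂ => M.map α) e
  simp only [Matrix.map_mul] at this
  rwa [show (Y.map α.symm).map α = Y by ext a b; simp] at this

theorem Fr3.overQ (φ : Fr3 ℂ) (h : Rat φ.hh) :
    ∃ H : Subgroup (GL (I2 4) ℂ), St.OverQ H ∧ ∀ g, g ∈ H ↔ g.val ∈ φ.H :=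
  ⟨φ.grp, overQ_of (A := φ.H) (fun _ => Iff.rfl) (fun _ => φ.H_closed)
    fun α _ => φ.H_map h α, fun _ => Iff.rfl⟩

theorem Fr3.hodge_le (φ : Fr3 ℂ) (h : Rat φ.hh) {J₀ : M8 ℝ} (h1 : cm J₀ ∈ φ.hh)
    (h2 : J₀ * J₀ = -1) {g : GL (I2 4) ℂ} (hg : g ∈ St.Hodge J₀) : g.val ∈ φ.H := by
  obtain ⟨H, hH, e⟩ := φ.overQ h
  refine (e g).1 (Subgroup.mem_sInf.1 hg H ⟨hH, fun t => ?_⟩)
  have h3 : cm J₀ * cm J₀ = (-1 : ℂ) • 1 := by
    have := congrArg (fun M : M8 ℝ => M.map Complex.ofRealHom) h2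
    simp only [Matrix.map_mul] at this
    refine this.trans ?_
    ext a b
    by_cases c : a = b <;> simp [one_apply, c]
  obtain ⟨i, hi⟩ := φ.sq h1 h3
  obtain ⟨j, hj, ej⟩ := φ.mem_h.1 hi
  have h4 : j * j = (-1 : ℂ) • 1 := φ.s_inj i (by rw [φ.s_mul, ← ej, h3, map_smul, φ.s_one])
  have h5 : ((Real.cos t : ℂ) • (1 : M2 ℂ) + (Real.sin t : ℂ) • j).det = 1 := by
    have a := congrFun (congrFun h4 0) 0
    have b : (Real.cos t : ℂ) ^ 2 + (Real.sin t : ℂ) ^ 2 = 1 := by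
      exact_mod_cast Real.cos_sq_add_sin_sq t
    rw [trace_fin_two] at hj
    simp only [mul_apply, Fin.sum_univ_two, Matrix.smul_apply, one_apply_eq, smul_eq_mul,
      mul_one] at a
    rw [det_fin_two]
    simp only [Matrix.add_apply, Matrix.smul_apply, one_apply_eq, smul_eq_mul, mul_one,
      one_apply_ne (show (0 : Fin 2) ≠ 1 by decide), one_apply_ne (show (1 : Fin 2) ≠ 0 by decide)]
    linear_combination b + ((Real.cos t : ℂ) * (Real.sin t : ℂ) + (Real.sin t : ℂ) ^ 2 * j 0 0) * hj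
      - (Real.sin t : ℂ) ^ 2 * a
  have h6 := φ.s_mem_H i h5
  rw [map_add, map_smul, map_smul, φ.s_one, ← ej] at h6
  refine ⟨(φ.H_unit h6).unit, (e _).2 h6, ?_⟩
  ext a b
  by_cases c : a = b <;> simp [one_apply, c]

end Pool.Agent.MT.U
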