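import Pool.Agent.Lib.MP_d61fbb_ag.MT.UE
import Pool.Agent.Lib.MP_d61fbb_ag.MT.G8

/-! Stage three: the orbit. -/

set_option autoImplicit false

noncomputable section

namespace Pool.Agent.MT.U

open Matrix G Filter Topology

variable {τ : Matrix (Fin 4) (Fin 4) ℂ} {K : IntermediateField ℚ ℂ}

/-- A sequence of points on which all translates of a form vanish. -/
structure Orb (τ : Matrix (Fin 4) (Fin 4) ℂ) (l : ℕ) where
  /-- the matrices -/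
  γ : ℕ → G.Sp 4 ℚ
  /-- the weights -/
  e : Fin 4 → ℕ
  /-- the form -/
  F : EE 4 → ℂ
  int : ∀ j, ∀ p : Pr, (p : ℕ) ≠ l → ∀ a b, ‖((γ j).1 a b : ℚ_[p])‖ ≤ 1
  inj : ∀ j j' (δ : G.Sp 4 ℤ), tr τ (γ j) = az δ (tr τ (γ j')) → j = j'
  pos : ∀ i, 0 < e i
  form : Fm l F
  ne : ∃ z ∈ G.HH 4, F z ≠ 0
  van : ∀ i : ℤ, ∀ᶠ j in atTop, F (G.sc l e i (tr τ (γ j))) = 0

/-- one more excluded prime -/
def enl (M : MumfordType τ K) (l : Pr) : MumfordType τ K :=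
  { M with
    S := insert l M.S
    sub := fun σ l' h => M.sub σ l' fun h' => h (Finset.mem_insert_of_mem h')
    big := fun T g => (M.big T g).imp fun _ h l' h1 h2 =>
      h l' h1 fun h' => h2 (Finset.mem_insert_of_mem h') }

theorem orb_core (zl : ZL) (hτ : Sieg τ) (hK : FiniteDimensional ℚ K) (h8 : ee (1 / 8) ∈ K)
    (M : MumfordType τ K) : ∃ l ∉ M.S, (l : ℕ) ≠ 2 ∧ ∃ (e : Fin 4 → ℕ) (k : ℕ → G.Sp 4 ℤ)
      (F : EE 4 → ℂ), (∀ i, 0 < e i) ∧ Cau l k ∧ Fm l F ∧ (∃ z ∈ G.HH 4, F z ≠ 0) ∧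
        ∀ j, ∀ᶠ m in atTop, F (G.pt l e k (un τ) j m) = 0 := by
  obtain ⟨l, hl, h2, e0, r, z, ch, ⟨τ', hτ', ne⟩, H⟩ := zl τ hτ K hK h8 M
  have m1 : G.un τ ∈ G.HH 4 := by rwa [← G.mk_un hτ.symm] at hτ
  have m2 : G.un τ' ∈ G.HH 4 := by rwa [← G.mk_un hτ'.symm] at hτ'
  obtain ⟨k, e, hk, he, car⟩ := g8_cartan (M.D l) h2
  obtain ⟨γ, c1, c2, c3⟩ := g8_seq h2 hk.dl.transpose_one
  obtain ⟨δ, -, d2, d3⟩ := g8_seq h2 hk
  have l0 : 0 < (l : ℕ) := l.2.pos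
  have near : ∀ {X : ℕ → M8 ℚ_[l]}, Tendsto X atTop (𝓝 0) →
      ∀ᶠ m in atTop, ∀ i j, ‖X m i j‖ ≤ ((l : ℕ) : ℝ)⁻¹ ^ (2 * e0) := fun h =>
    eventually_all.2 fun i => eventually_all.2 fun j =>
      (tendsto_pi_nhds.1 (tendsto_pi_nhds.1 h i) j).norm.eventually_le_const (by simp; positivity)
  set K : M8 ℚ_[l] := k.map (↑)
  set K' : M8 ℚ_[l] := (dl k)ᵀ.map (↑)
  have kk : K * K' = 1 := (Matrix.map_mul (f := PadicInt.Coe.ringHom)).symm.trans (by simp [hk.mul_dlT])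
  obtain ⟨m0, hm0⟩ := (near (X := fun m => (δ m).1.map (↑) * K' - 1)
    (by simpa [kk] using (d3.mul_const K').sub_const 1)).exists
  obtain ⟨F, hF, eF⟩ := G.Fm.az ⟨e0, _, g8_form ((l : ℕ) ^ e0) r z ch⟩ (δ m0)
  refine ⟨l, hl, h2, e, γ, F, he, c1, hF, ⟨_, G.az_mem (δ m0)⁻¹ m2, fun h => ne ?_⟩, fun j => ?_⟩
  · have := (eF _ (G.az_mem (δ m0)⁻¹ m2)).2 h
    rwa [← G.az_mul _ _ m2, mul_inv_cancel, G.az_one, G.mk_un hτ'.symm] at this
  obtain ⟨n, g, g1, g2⟩ := car j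
  let c : ℚ →+* ℚ_[l] := Rat.castHom _
  let d : G.Sp 4 ℚ := ⟨_, G.dgm_mem l0 e j⟩
  have dd : (G.dgm l e j).map c * (G.dgm l e (-j)).map c = 1 := by
    rw [← Matrix.map_mul, ← G.dgm_add l0]; simp [G.dgm]
  filter_upwards [near (X := fun m => (δ m0).1.map (↑) * (G.dgm l e j).map c *
    ((γ m).1.map (↑) - K') * (K * (G.dgm l e (-j)).map c * K'))
    (by simpa using ((c3.sub_const K').const_mul _).mul_const _)] with m hm
  let β := G.zqsp (δ m0) * d * G.zqsp (γ m)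
  obtain ⟨h, F', f1, f2, f3, f4, f5⟩ := g8_transfer hτ h2 e0 (gs_one_iff.2 β.2)
    (K * (G.dgm l e (-j)).map c * K') (fun l' hl' => by
      let A := (PadicInt.subring l').comap (Rat.castHom ℚ_[l'])
      exact (g8_two A).mul_mem ((g8_two A).mul_mem (g8_two_int A (d2 m0))
        (g8_two_dgm (l.2.odd_of_ne_two h2) (show ‖_‖ ≤ 1 by simp [padic_norm_prime_ne hl']) e j))
        (g8_two_int A (c2 m))) fun a b => by
      have e1 : ∀ x : G.Sp 4 ℤ, (G.zqsp x).1.map c = x.1.map (↑) := fun x => by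
        simp [G.zqsp, Matrix.map_map, Function.comp_def]
      refine le_trans (le_of_eq ?_) ((Padic.nonarchimedean _ _).trans (max_le (hm a b) (hm0 a b)))
      rw [← Matrix.add_apply, show β.1.map Rat.cast = (((G.zqsp (δ m0)).1 * d.1) * (G.zqsp (γ m)).1).map c
        from rfl, Matrix.map_mul, Matrix.map_mul, e1, e1]
      exact congrArg (fun X : M8 ℚ_[l] => ‖X a b‖) (g8_ring (mul_eq_one_comm.1 kk) dd)
  have := H n g h F' g1 f1 (f2 ▸ g2) f3 f4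
  simp only [f5] at this
  have m3 := G.az_mem (γ m) m1
  have e1 : ∀ x : G.Sp 4 ℤ, G.az x = G.ac (G.qsp (G.zqsp x)).1 := fun x => by
    funext w; simp [G.az, G.qsp, G.zqsp, Matrix.map_map, Function.comp_def]
  have e2 : ∀ x y : G.Sp 4 ℚ, G.qsp (x * y) = G.qsp x * G.qsp y := fun x y =>
    Subtype.ext (Matrix.map_mul (f := Rat.castHom ℝ))
  have e3 : G.ac (G.qsp β).1 (G.un τ) = G.az (δ m0) (G.pt l e γ (G.un τ) j m) := by
    rw [e2, Submonoid.coe_mul, G.ac_mul _ _ m1, ← e1, e2, Submonoid.coe_mul, G.ac_mul _ _ m3, ← e1]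
    rfl
  refine (eF _ (G.sc_mem l0 e j m3)).1 (Eq.trans ?_ this)
  congr 2
  refine (congrArg G.mk e3.symm).trans ((G.mk_ac _ _).trans ?_)
  simp [G.qsp, Matrix.map_map, Function.comp_def, G.mk_un hτ.symm]

theorem pt_inj' {l : ℕ} {e : Fin 4 → ℕ} {k : ℕ → G.Sp 4 ℤ} {z : EE 4} (hl : 2 ≤ l) (hz : z ∈ G.HH 4)
    (h : ∀ γ : G.Sp 4 ℚ, ac (qm γ.1) z = z → ∃ c : ℚ, γ.1 = c • 1) (hk : Cau l k)
    (he : ∀ i, 0 < e i) {j j' : ℤ} {m m' : ℕ} {γ : G.Sp 4 ℤ}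
    (h' : G.pt l e k z j m = az γ (G.pt l e k z j' m')) : j = j' := by
  have hl0 : 0 < l := by omega
  have hq : (l : ℚ) ≠ 0 := by exact_mod_cast hl0.ne'
  rw [pt_eq hl0 hz, pt_eq hl0 hz, az_eq_ac, ← qac_mul _ _ hz] at h'
  set a := dsp hl0 e j * zqsp (k m) with ha
  set b := zqsp γ * (dsp hl0 e j' * zqsp (k m')) with hb
  have h1 : ac (qm (a⁻¹ * b).1) z = z := by
    rw [qac_mul _ _ hz, ← h', ← qac_mul _ _ hz, inv_mul_cancel, qac_one]
  obtain ⟨c, hc⟩ := h _ h1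
  have i : Fin 4 := 0
  have hc2 : c * c = 1 := by
    have h2 := (a⁻¹ * b).2
    rw [hc, SymplecticGroup.mem_iff] at h2
    have := congrFun (congrFun h2 (Sum.inr i)) (Sum.inl i)
    simpa [J] using this
  obtain ⟨κ, hκ⟩ : ∃ κ, κ = k m * (k m')⁻¹ := ⟨_, rfl⟩
  have hκ1 : κ ∈ G.Gam 4 (32 * l ^ (0 + 1)) := hκ ▸ hk.two (Nat.zero_le _) (Nat.zero_le _)
  have h3 : zq γ.1 * dgm l e j' = c • (dgm l e j * zq κ.1) := by
    have h4 : zqsp γ * dsp hl0 e j' = a * (a⁻¹ * b) * (zqsp (k m'))⁻¹ := by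
      rw [hb]; group
    have h5 : dsp hl0 e j * zqsp κ = a * (zqsp (k m'))⁻¹ := by
      have : zqsp (k m) = zqsp κ * zqsp (k m') := by
        rw [← zqsp_mul, hκ]; congr 1; group
      rw [ha, this]; group
    have h6 := congrArg Subtype.val h4
    have h7 := congrArg Subtype.val h5
    change zq γ.1 * dgm l e j' = a.1 * (a⁻¹ * b).1 * ((zqsp (k m'))⁻¹).1 at h6
    change dgm l e j * zq κ.1 = a.1 * ((zqsp (k m'))⁻¹).1 at h7
    rw [h6, h7, hc, Matrix.mul_smul, Matrix.mul_one, Matrix.smul_mul]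
  have key : ∀ x : I2 4, j * dwt e x - j' * dwt e x < 0 → False := fun x hx => by
    have h4 := congrFun (congrFun h3 x) x
    rw [dgm_eq, dgm_eq, Matrix.smul_apply, mul_diagonal, diagonal_mul, smul_eq_mul] at h4
    change ((γ.1 x x : ℤ) : ℚ) * _ = _ * (_ * ((κ.1 x x : ℤ) : ℚ)) at h4
    obtain ⟨n, hn⟩ : ∃ n : ℕ, j' * dwt e x = j * dwt e x + (n + 1 : ℕ) :=
      ⟨(j' * dwt e x - j * dwt e x - 1).toNat, by push_cast; omega⟩
    rw [hn, zpow_add₀ hq, zpow_natCast] at h4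
    have h5 : (γ.1 x x : ℚ) * l ^ (n + 1) = c * κ.1 x x := by
      have := zpow_ne_zero (j * dwt e x) hq
      refine mul_left_cancel₀ this ?_
      linear_combination h4
    have h6 : (l : ℤ) ∣ κ.1 x x := by
      rcases mul_self_eq_one_iff.1 hc2 with rfl | rfl
      · have : γ.1 x x * l ^ (n + 1) = κ.1 x x := by exact_mod_cast (h5.trans (one_mul _))
        exact ⟨γ.1 x x * l ^ n, by rw [← this]; ring⟩
      · have : γ.1 x x * l ^ (n + 1) = -κ.1 x x := by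
          exact_mod_cast (h5.trans (neg_one_mul _))
        exact ⟨-(γ.1 x x * l ^ n), by linear_combination this⟩
    have h7 : (l : ℤ) ∣ κ.1 x x - 1 := by
      have := hκ1 x x
      rw [one_apply_eq] at this
      exact Dvd.dvd.trans ⟨32, by push_cast; ring⟩ this
    have h8 : (l : ℤ) ∣ 1 := by simpa using dvd_sub h6 h7
    have := Int.le_of_dvd one_pos h8
    omega
  have hi : (0 : ℤ) < e i := by exact_mod_cast he i
  by_contra hne
  rcases lt_or_gt_of_ne hne with hlt | hlt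
  · exact key (Sum.inr i) (by simp only [dwt, Sum.elim_inr]; nlinarith)
  · exact key (Sum.inl i) (by simp only [dwt, Sum.elim_inl]; nlinarith)

theorem exists_orb (zl : ZL) (hτ : Sieg τ) (hK : FiniteDimensional ℚ K) (h8 : ee (1 / 8) ∈ K)
    (M : MumfordType τ K) (l : Pr) :
    ∃ l₀ ∉ M.S, l₀ ≠ l ∧ (l₀ : ℕ) ≠ 2 ∧ Nonempty (Orb τ l₀) := by
  obtain ⟨l₀, h1, h2, e, k, F, he, hk, hF, ne, van⟩ := orb_core zl hτ hK h8 (enl M l)
  have l0 : 0 < (l₀ : ℕ) := l₀.2.pos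
  have m1 : G.un τ ∈ G.HH 4 := by rwa [← G.mk_un hτ.symm] at hτ
  choose m hm using fun j : ℕ => ((eventually_all_finset (Finset.Icc (-(j : ℤ)) j)).2
    fun i _ => van (i + j)).exists
  have e1 : ∀ j : ℕ, tr τ (dsp l0 e j * zqsp (k (m j))) = G.pt l₀ e k (un τ) j (m j) :=
    fun j => (pt_eq l0 m1 j (m j)).symm
  refine ⟨l₀, fun h => h1 (Finset.mem_insert_of_mem h), fun h => h1 (h ▸ Finset.mem_insert_self _ _),
    h2, ⟨⟨fun j => dsp l0 e j * zqsp (k (m j)), e, F, fun j p hp a b => ?_, fun j j' δ h => ?_, he,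
      hF, ne, fun i => ?_⟩⟩⟩
  · change ‖((dgm l₀ e j * G.zq (k (m j)).1) a b : ℚ_[p])‖ ≤ 1
    have : ‖((l₀ : ℕ) : ℚ_[p])‖ = 1 := padic_norm_prime_ne fun h => hp (by rw [h])
    rw [dgm_eq, diagonal_mul, Rat.cast_mul, norm_mul, Rat.cast_zpow, norm_zpow, Rat.cast_natCast,
      this, _root_.one_zpow, one_mul]
    exact (congrArg norm (Rat.cast_intCast _)).trans_le (Padic.norm_int_le_one ((k (m j)).1 a b))
  · rw [e1, e1] at h
    exact_mod_cast pt_inj' l₀.2.two_le m1 (fun _ => end_sp hτ h8 M) hk he h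
  · filter_upwards [eventually_ge_atTop i.natAbs] with j hj
    rw [e1, G.pt, ← sc_add l0]
    exact hm j i (Finset.mem_Icc.2 ⟨by omega, by omega⟩)

end Pool.Agent.MT.U
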