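import Pool.Agent.Lib.MP_d61fbb_ag.MT.UX
import Pool.Agent.Lib.MP_d61fbb_ag.MT.UO

/-! Stage three: the monodromy group of the component is small. -/

set_option autoImplicit false

noncomputable section

namespace Pool.Agent.MT.U

open Matrix G Filter

theorem ux_class {g M : ℕ} (hM : 0 < M) (𝒰 : Ultrafilter ℕ) {c : ℕ → G.Sp g ℤ}
    (hc : ∀ j, c j ∈ G.Gam g 32) : ∃ δ ∈ G.Gam g 32, ∀ᶠ j in 𝒰, (c j)⁻¹ * δ⁻¹ ∈ G.Gam g M := by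
  obtain ⟨R, h1, h2, h3⟩ := Gam_fin hM (G.Gam g 32 : Set (G.Sp g ℤ))
  exact ((Ultrafilter.eventually_exists_mem_iff h1).1
    (Eventually.of_forall fun j => h3 _ (inv_mem (hc j)))).imp fun δ h => ⟨h2 h.1, h.2⟩

theorem Cmp.form {g l : ℕ} {z : ℕ → EE g} {𝒰 : Ultrafilter ℕ} (C : Cmp z 𝒰) (hl : 0 < l)
    {F : EE g → ℂ} (hF : Fm l F) {δ : G.Sp g ℤ} (hδ : δ ∈ G.Gam g 32)
    (h : ∀ᶠ j in 𝒰, F (az δ (az (C.c j) (z j))) = 0) : ∀ w ∈ C.Y, F (az δ w) = 0 := by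
  obtain ⟨m, k, hF⟩ := hF
  obtain ⟨P, hP⟩ := pM_form C.y₀ hF
  have h0 : ∀ w ∈ C.Y, th (ch 1 C.y₀) (az δ w) ≠ 0 := fun w hw => by
    obtain ⟨j, h1, h2⟩ := b7_az (N := 1) ⟨δ, hδ⟩ (C.sub w hw).1
    rw [h2]
    exact mul_ne_zero h1 (C.sub w hw).2
  intro w hw
  rw [hP _ (h0 w hw), C.dense _ (pow_pos hl m) δ hδ P ?_ w hw, mul_zero]
  filter_upwards [h, C.ev] with j h1 h2
  rw [hP _ (h0 _ h2)] at h1
  exact (mul_eq_zero.1 h1).resolve_left (pow_ne_zero _ (h0 _ h2))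

theorem not_full {τ : Matrix (Fin 4) (Fin 4) ℂ} (hτ : Sieg τ) {l : ℕ} (hl : l.Prime) (h2 : l ≠ 2)
    (O : Orb τ l) (C : Cmp (fun j => tr τ (O.γ j)) (hyperfilter ℕ)) : ¬ Full C.G₀ := by
  intro h
  obtain ⟨w, hw, gen⟩ := C.gen h
  obtain ⟨n, hn⟩ := h.open C.le hl h2
  obtain ⟨z₀, h0, ne⟩ := O.ne
  have l0 := hl.pos
  have hH := (C.sub w hw).1
  obtain ⟨δ, -, hδ⟩ := ux_class (M := 32 * l ^ n) (by positivity) (hyperfilter ℕ) C.c_mem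
  refine ne (dense_orbit (k := fun _ => δ) (by norm_num) hl h2 hH gen
    (fun m => by simp) O.pos O.form (fun i => Eventually.of_forall fun _ => ?_) z₀ h0)
  obtain ⟨F, hF, e⟩ := O.form.sc l0 O.e i
  obtain ⟨N, hN⟩ := hF.level
  obtain ⟨ε, h1, hε⟩ := ux_class (M := 32 * l ^ (n + N)) (by positivity) (hyperfilter ℕ) C.c_mem
  have m1 : G.Gam 4 (32 * l ^ (n + N)) ≤ G.Gam 4 (32 * l ^ N) :=
    Gam_mono (mul_dvd_mul_left _ (pow_dvd_pow _ le_add_self))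
  have m2 : G.Gam 4 (32 * l ^ (n + N)) ≤ G.Gam 4 (32 * l ^ n) :=
    Gam_mono (mul_dvd_mul_left _ (pow_dvd_pow _ le_self_add))
  have h3 := C.form l0 hF h1 (by
    filter_upwards [hε, Nat.hyperfilter_le_atTop (O.van i)] with j a b
    have hz := tr_mem hτ (O.γ j)
    rw [← hN _ (m1 a) _ (az_mem _ (az_mem _ hz)), ← az_mul _ _ hz, ← az_mul _ _ hz,
      show (C.c j)⁻¹ * ε⁻¹ * (ε * C.c j) = 1 by group, az_one]
    exact (e _ hz).1 b)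
  obtain ⟨j, a, b⟩ := (hδ.and hε).exists
  obtain ⟨γ, h4, h5⟩ := hn N (ε⁻¹ * δ) (by
    convert Gam_conj (mul_mem (m2 b) (inv_mem a)) (C.c j) using 1
    group)
  refine (e _ (az_mem δ hH)).2 ?_
  have h6 := (hN _ (Gam_conj h5 ε) _ (az_mem ε (az_mem γ hH))).2 (h3 _ (C.stab γ h4 w hw))
  rwa [← az_mul _ _ hH, ← az_mul _ _ hH,
    show ε * (ε⁻¹ * δ * γ⁻¹) * ε⁻¹ * (ε * γ) = δ by group] at h6

end Pool.Agent.MT.U
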