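import Pool.Agent.Lib.MP_d61fbb_ag.MT.UY2
import Pool.Agent.Lib.MP_d61fbb_ag.MT.UY3
import Pool.Agent.Lib.MP_d61fbb_ag.MT.US
import Pool.Agent.Lib.MP_d61fbb_ag.MT.G7b

/-! Stage three: the component of the orbit closure. -/

set_option autoImplicit false

noncomputable section

namespace Pool.Agent.MT.U

open Matrix G Filter Topology Set Metric

variable {g : ℕ}

lemma y4_lev (x : I2 g → ℚ) : ∃ M, 0 < M ∧ x ∈ ChL g M := by
  refine ⟨∏ i, (x i).den, Finset.prod_pos fun i _ => (x i).pos, fun i => ?_⟩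
  obtain ⟨c, hc⟩ := Finset.dvd_prod_of_mem (fun i => (x i).den) (Finset.mem_univ i)
  refine ⟨4 * c * (x i).num, ?_⟩
  rw [hc]
  push_cast
  rw [← Rat.mul_den_eq_num]
  ring

lemma y4_ri {z : EE g} (hz : z ∈ G.HH g) (x : I2 g → ℚ) {S m : ℝ} (hS : 0 ≤ S)
    (h1 : ∀ η, ‖th ((2 : ℚ) • x + hq η) z‖ ≤ S) (h2 : ∀ η, ‖th (hq η) z‖ ≤ m) :
    ‖th x z‖ ^ 4 ≤ 2 ^ g * (S * m ^ 3) := by
  have R := Sieg.riemann' hz (qc x) (qc x) (qc x) (qc x)
  have e1 : ∀ η, (1 / 2 : ℂ) • (qc x + qc x + qc x + qc x) + hv η = qc ((2 : ℚ) • x + hq η) :=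
    fun η => by rw [← qc_hq]; funext i; simp [qc]; ring
  have e2 : qc x + qc x - qc x - qc x = 0 := by abel
  have e3 : qc x - qc x + qc x - qc x = 0 := by abel
  have e4 : qc x - qc x - qc x + qc x = 0 := by abel
  simp only [e1, e2, e3, e4, smul_zero, zero_add] at R
  have k : ∀ q : ℚ, ‖ee q‖ = 1 := fun q => by exact_mod_cast gr2_ee_real q
  have h3 := (congrArg norm R).trans_le ((norm_sum_le _ _).trans
    (Finset.sum_le_card_nsmul _ _ (S * m ^ 3) fun η _ => by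
      have a := h2 η
      have b := norm_nonneg (th (hq η) z)
      rw [← qc_hq, Qf_qc, Ef_qc, ← Rat.cast_ofNat, ← Rat.cast_mul]
      simp only [norm_mul, k, one_mul]
      change ‖th _ z‖ * ‖th _ z‖ * ‖th _ z‖ * ‖th _ z‖ ≤ _
      rw [show S * m ^ 3 = S * m * m * m by ring]
      have := b.trans a
      gcongr
      exact h1 η))
  simp only [norm_mul, norm_pow, Complex.norm_ofNat, Finset.card_univ, Fintype.card_fun, ZMod.card,
    Fintype.card_sum, Fintype.card_fin, nsmul_eq_mul, Nat.cast_mul, Nat.cast_pow, Nat.cast_ofNat,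
    pow_add, mul_assoc] at h3
  refine le_of_eq_of_le ?_ (le_of_mul_le_mul_left h3 (by positivity))
  rw [th]; ring

theorem th_bound : ∃ C : ℝ, ∀ z ∈ G.HH g, ∀ x, ∃ y : LL g 1, ‖th x z‖ ≤ C * ‖th (ch 1 y) z‖ := by
  refine ⟨2 ^ g, fun z hz x => ?_⟩
  obtain ⟨M, hM, hx⟩ := y4_lev x
  have : NeZero (4 * M) := ⟨by omega⟩
  obtain ⟨y, hy⟩ := Finite.exists_max fun y : LL g 1 => ‖th (ch 1 y) z‖
  obtain ⟨u, hu⟩ := Finite.exists_max fun u : LL g M => ‖th (ch M u) z‖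
  have k : ∀ {N : ℕ} {v : LL g N}, 0 < N → (∀ v', ‖th (ch N v') z‖ ≤ ‖th (ch N v) z‖) →
      ∀ x ∈ ChL g N, ‖th x z‖ ≤ ‖th (ch N v) z‖ := fun hN hv x hx => by
    obtain ⟨v', c, hc, -, e⟩ := th_red hN hx
    rw [e, norm_mul, hc, one_mul]
    exact hv v'
  have h := y4_ri hz (ch M u) (norm_nonneg _)
    (fun η => k hM hu _ fun i => ⟨2 * (u i : ℕ) + 2 * M * (η i).val, by
      have : (M : ℚ) ≠ 0 := by positivity
      simp only [Pi.add_apply, Pi.smul_apply, ch, hq, smul_eq_mul]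
      push_cast; field_simp; ring⟩)
    fun η => k one_pos hy _ fun i => ⟨2 * (η i).val, by simp only [hq]; push_cast; ring⟩
  refine ⟨y, (k hM hu x hx).trans ?_⟩
  have m0 := norm_nonneg (th (ch 1 y) z)
  generalize ‖th (ch 1 y) z‖ = m at h m0 ⊢
  rcases (norm_nonneg (th (ch M u) z)).eq_or_lt with h0 | h0
  · rw [← h0]; positivity
  generalize ‖th (ch M u) z‖ = S at h h0 ⊢
  refine le_of_pow_le_pow_left₀ three_ne_zero (by positivity) (le_of_mul_le_mul_left ?_ h0)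
  have h1 : (2 : ℝ) ^ g ≤ (2 ^ g) ^ 3 := le_self_pow₀ (one_le_pow₀ one_le_two) three_ne_zero
  calc S * S ^ 3 = S ^ 4 := by ring
    _ ≤ (2 ^ g) ^ 3 * (S * m ^ 3) := h.trans (by gcongr)
    _ = _ := by ring

theorem mk_ctx' {z₀ : EE g} (hz₀ : z₀ ∈ G.HH g) (y₀ : LL g 1) :
    ∃ c : Ctx (Sym2 (Fin g)) (LL g 1) (G.Gam g 32),
      c.U = {z ∈ G.HH g | th (ch 1 y₀) z ≠ 0} ∧ (∀ z y, c.b z y = th (ch 1 y) z / th (ch 1 y₀) z) ∧
      (∀ x, (fun z => th x z / th (ch 1 y₀) z) ∈ c.K) ∧ (∀ γ, c.a γ = az γ.1) ∧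
      ∀ z ∈ c.U, (MvPolynomial.eval (c.b z) c.χ ≠ 0 ↔
        ∀ y, th (ch 1 y) z₀ ≠ 0 → th (ch 1 y) z ≠ 0) := by
  choose c h1 h2 h3 h4 h5 using fun l => mk_ctx l 1 one_pos hz₀ (y₀ := y₀)
  let K := Algebra.adjoin ℂ (range fun (x : I2 g → ℚ) z => th x z / th (ch 1 y₀) z)
  have k : ∀ φ ∈ K, ∃ M, 0 < M ∧ ∀ N, M ∣ N → φ ∈ (c N).K := fun φ h => by
    induction h using Algebra.adjoin_induction with
    | mem φ h =>
      obtain ⟨x, rfl⟩ := h
      obtain ⟨M, hM, hx⟩ := y4_lev x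
      exact ⟨M, hM, fun N hN => h3 N _
        ⟨1, 1, _, RL_mono (by rwa [pow_one]) 1 (th_mem hx), by simp⟩⟩
    | algebraMap r => exact ⟨1, one_pos, fun N _ => Subalgebra.algebraMap_mem _ r⟩
    | add φ ψ _ _ a b =>
      obtain ⟨M, hM, a⟩ := a
      obtain ⟨M', hM', b⟩ := b
      exact ⟨M * M', by positivity, fun N hN => add_mem (a N (dvd_of_mul_right_dvd hN))
        (b N (dvd_of_mul_left_dvd hN))⟩
    | mul φ ψ _ _ a b =>
      obtain ⟨M, hM, a⟩ := a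
      obtain ⟨M', hM', b⟩ := b
      exact ⟨M * M', by positivity, fun N hN => mul_mem (a N (dvd_of_mul_right_dvd hN))
        (b N (dvd_of_mul_left_dvd hN))⟩
  refine ⟨{ c 1 with K := K, b_mem := fun y => ?_, diff := fun φ h => ?_, alg := fun φ h => ?_ },
    h1 1, h2 1, fun x => Algebra.subset_adjoin ⟨x, rfl⟩, h4 1, h5 1⟩
  · exact Algebra.subset_adjoin ⟨ch 1 y, funext fun z => (h2 1 z y).symm⟩
  · obtain ⟨M, -, a⟩ := k φ h
    rw [h1, ← h1 M]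
    exact (c M).diff φ (a M dvd_rfl)
  · choose M _ a using fun i => k _ (h i)
    rw [h1, ← h1 (∏ i, M i)]
    exact (c _).alg φ fun i => a i _ (Finset.dvd_prod_of_mem M (Finset.mem_univ i))

lemma y4_poly (y₀ : LL g 1) {M : ℕ} {D : Type} (d : D → LL g 1) (a : LL g M → ℂ)
    (Q : Polynomial (MvPolynomial D ℂ)) : ∃ P : MvPolynomial (ChL g M) ℂ, ∀ w,
      MvPolynomial.eval (pM y₀ M w) P = GU.ev Q (fun i => th (ch 1 (d i)) w / th (ch 1 y₀) w)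
        (∑ x, a x * pM y₀ M w ⟨ch M x, ch_mem x⟩) := by
  have k : ∀ y : LL g 1, ch 1 y ∈ ChL g M := fun y i =>
    ⟨M * (y i : ℕ), by simp only [ch]; push_cast; ring⟩
  refine ⟨Q.eval₂ (MvPolynomial.rename fun i => ⟨_, k (d i)⟩).toRingHom
    (∑ x, .C (a x) * .X ⟨ch M x, ch_mem x⟩), fun w => ?_⟩
  rw [Polynomial.hom_eval₂, GU.ev]
  congr 1
  · exact RingHom.ext fun f => MvPolynomial.eval_rename _ _ f
  · simp

lemma y4_ext (y₀ : LL g 1) {M : ℕ} (hM : 0 < M) {w w' : EE g}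
    (h : ∀ x, pM y₀ M w ⟨ch M x, ch_mem x⟩ = pM y₀ M w' ⟨ch M x, ch_mem x⟩) :
    pM y₀ M w = pM y₀ M w' := by
  funext x
  obtain ⟨y, c, -, -, e⟩ := th_red hM x.2
  have := h y
  simp only [pM] at this ⊢
  rw [e, e, mul_div_assoc, mul_div_assoc, this]

theorem exists_cmp (z : ℕ → EE g) (hz : ∀ j, z j ∈ G.HH g)
    (inj : ∀ j j' (δ : G.Sp g ℤ), z j = az δ (z j') → j = j') :
    Nonempty (Cmp z (hyperfilter ℕ)) := by
  obtain ⟨S, hS⟩ : ∃ S : Set (LL g 1), ∀ᶠ j in hyperfilter ℕ, {y | th (ch 1 y) (z j) ≠ 0} = S :=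
    Ultrafilter.eventually_exists_iff.1 (Eventually.of_forall fun j => ⟨_, rfl⟩)
  obtain ⟨j₀, rfl⟩ := hS.exists
  obtain ⟨y₀, h0⟩ := exists_th_ne (hz j₀)
  obtain ⟨c, hU, hb, hK, ha, hχ⟩ := mk_ctx' (hz j₀) y₀
  have hH : c.U ⊆ G.HH g := hU ▸ sep_subset _ _
  obtain ⟨D, _, _, e, z₁, k, h₁, h2, h3⟩ := c.exists_comp z (hyperfilter ℕ)
    (hS.mono fun j hj => by
      have a : z j ∈ c.U := hU ▸ ⟨hz j, (Set.ext_iff.1 hj y₀).2 h0⟩
      exact ⟨a, (hχ _ a).2 fun y => (Set.ext_iff.1 hj y).2⟩)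
    fun w => by
      refine mem_hyperfilter_of_finite_compl (Set.Subsingleton.finite fun j hj j' hj' => ?_)
      simp only [mem_compl_iff, mem_ofPred_eq, not_forall, not_not, ha] at hj hj'
      obtain ⟨γ, a⟩ := hj
      obtain ⟨γ', a'⟩ := hj'
      refine inj j j' (γ.1⁻¹ * γ'.1) ?_
      rw [az_mul _ _ (hz j'), a', ← a, ← az_mul _ _ (hz j), inv_mul_cancel, az_one]
  obtain ⟨G₀, hG⟩ := Cov.exists_mon h₁
  obtain ⟨n, hn⟩ := Cov.index h₁
  have hY : ∀ w, e.cov.Conn z₁ w → w ∈ c.U := fun w h => (h.pt h₁).mem.1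
  have hz₁ := hH h₁.mem.1
  simp only [ha] at h2 h3 hG hn
  refine ⟨{
    y₀ := y₀
    Y := {w | e.cov.Conn z₁ w}
    G₀ := G₀.map (G.Gam g 32).subtype
    c := fun j => (k j).1
    z₁ := z₁
    mem₁ := Cov.Conn.refl
    sub := fun w h => by have := hY w h; rwa [hU] at this
    le := Subgroup.map_subtype_le _
    stab := ?_
    c_mem := fun j => (k j).2
    ev := h2
    dense := fun M _ δ hδ P h => h3 (fun w => MvPolynomial.eval (pM y₀ M w) P) ?_ ⟨δ, hδ⟩ h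
    index := ⟨n, fun M hM δ hδ H => ?_⟩
    fixed := fun κ _ _ v hv w hw => Cov.fixed hH ha h₁ κ
      (fun γ h => hv γ.1 ⟨γ, (hG γ).2 (ha γ ▸ h), rfl⟩) hw
    ne := Cov.exists_ne hH h₁
    baire := fun f hf => Cov.baire h₁ f fun n => (hf n).mono hH }⟩
  · rintro _ ⟨γ, hγ, rfl⟩ w hw
    exact ((hG γ).1 hγ).trans (ha γ ▸ Cov.Conn.act hw γ)
  · clear h
    induction P using MvPolynomial.induction_on with
    | C r => simp only [MvPolynomial.eval_C]; exact c.K.algebraMap_mem r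
    | add P Q a b => simp only [map_add]; exact add_mem a b
    | mul_X P x a => simp only [map_mul, MvPolynomial.eval_X]; exact mul_mem a (hK x.1)
  obtain ⟨C, hC⟩ := th_bound (g := g)
  obtain ⟨R, R1, R2, R3⟩ := Gam_fin (g := g) (M := 32 * M ^ 2) (by positivity) (G.Gam g 32)
  choose w w1 w2 w3 using fun a => e.norm_pt h₁ (fun x w => pM y₀ M w ⟨ch M x, ch_mem x⟩)
    (fun x => c.diff _ (hK _))
    ⟨max C 0, fun x u hu => by
      obtain ⟨y, hy⟩ := hC u (hH hu) (ch M x)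
      have a : ‖c.b u y‖ ≤ 1 + ‖c.b u‖ := (norm_le_pi_norm _ y).trans (by linarith)
      refine le_trans ?_ (mul_le_mul_of_nonneg_left a (le_max_right C 0))
      rw [hb, pM, norm_div, norm_div, ← mul_div_assoc]
      gcongr
      exact hy.trans (by gcongr; exact le_max_left _ _)⟩
    ⟨Subtype.val ⁻¹' R, R1.preimage Subtype.val_injective.injOn, fun γ => by
      obtain ⟨r, hr, h⟩ := R3 γ.1 γ.2
      refine ⟨⟨r, R2 hr⟩, hr, fun x u hu => ?_⟩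
      rw [ha, ha, ← pM_level y₀ hM h (az_mem r (hH hu)), ← az_mul _ _ (hH hu), inv_mul_cancel_right]⟩
    h₁.mem.2 (fun x => pM y₀ M (az (δ a) z₁) ⟨ch M x, ch_mem x⟩) fun b Q hQ => by
      obtain ⟨P, hP⟩ := y4_poly y₀ e.d b Q
      have t : ∀ u, e.t u = fun i => th (ch 1 (e.d i)) u / th (ch 1 y₀) u :=
        fun u => funext fun i => hb _ _
      have t1 : e.cov.t z₁ = e.t (az (δ a) z₁) := ha ⟨δ a, hδ a⟩ ▸ (h₁.act ⟨δ a, hδ a⟩).2.symm
      rw [t1, t, ← hP]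
      exact H a P fun u hu => by rw [hP, ← t]; exact hQ u hu
  obtain ⟨a, a', ne, γ, g1, g2⟩ := hn w fun a => ⟨w1 a, w2 a⟩
  refine ⟨a, a', ne, γ.1, ⟨γ, (hG γ).2 g1, rfl⟩, ?_⟩
  rw [← y4_ext y₀ hM (w3 a'), g2, az_mul _ _ hz₁]
  funext x
  rw [pM_az y₀ γ.2 (hH (hY _ (w1 a))), pM_az y₀ γ.2 (az_mem _ hz₁), y4_ext y₀ hM (w3 a)]

end Pool.Agent.MT.U
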