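import Pool.Agent.Lib.MP_d61fbb_ag.MT.UB
import Pool.Agent.Lib.MP_d61fbb_ag.MT.UX2
import Pool.Agent.Lib.MP_d61fbb_ag.MT.UY4
import Pool.Agent.Lib.MP_d61fbb_ag.MT.UH

/-! Stage three: the assembly. -/

set_option autoImplicit false

noncomputable section

namespace Pool.Agent.MT.U

open Matrix G Filter Topology

/-- extension of scalars for symplectic matrices -/
def spM {R S : Type} [CommRing R] [CommRing S] (f : R →+* S) : G.Sp 4 R →* G.Sp 4 S where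
  toFun a := ⟨a.1.map f, SymplecticGroup.map_mem a.2 f⟩
  map_one' := Subtype.ext (Matrix.map_one _ f.map_zero f.map_one)
  map_mul' _ _ := Subtype.ext (Matrix.map_mul (f := f))

theorem spM_inv {R S : Type} [CommRing R] [CommRing S] (f : R →+* S) (a : G.Sp 4 R) :
    ((spM f a)⁻¹).1 = (a⁻¹).1.map f := congrArg Subtype.val (map_inv (spM f) a).symm

theorem uf_rat {ψ : Fr3 ℂ} (h : Rat ψ.hh) (γ : G.Sp 4 ℚ) :
    Rat (ψ.cj (spM (Rat.castHom ℂ) γ)⁻¹).hh := fun α X hX => by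
  rw [Fr3.mem_hh_cj, inv_inv, spM_inv] at hX ⊢
  have := h α _ hX
  rwa [Matrix.map_mul (f := α), Matrix.map_mul (f := α),
    show (spM (Rat.castHom ℂ) γ).1.map α = _ from rat_map_cast α γ.1,
    show ((γ⁻¹).1.map (Rat.castHom ℂ)).map α = _ from rat_map_cast α (γ⁻¹).1] at this

theorem uf_J {ψ : Fr3 ℂ} {τ : Matrix (Fin 4) (Fin 4) ℂ} (hτ : un τ ∈ G.HH 4) {γ : G.Sp 4 ℚ}
    (h : cm (Jm (tr τ γ)) ∈ ψ.hh) : cm (Jm (un τ)) ∈ (ψ.cj (spM (Rat.castHom ℂ) γ)⁻¹).hh := by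
  have e : (spM (Rat.castHom ℂ) γ).1 = cm (qsp γ).1 := by ext; simp [spM, qsp]
  rw [Fr3.mem_hh_cj, inv_inv]
  conv => enter [2, 1, 1]; rw [e]
  rw [← cm_mul, ← Jm_ac (qsp γ) hτ, cm_mul, ← e, Matrix.mul_assoc,
    show _ * _ = (1 : M8 ℂ) from congrArg Subtype.val (mul_inv_cancel (spM (Rat.castHom ℂ) γ)),
    Matrix.mul_one]
  exact h

theorem uf_lim {l : ℕ} [Fact l.Prime] (φ : Fr3 ℂ) (b : ℚ_[l] →+* ℂ)
    {A : Filter ℕ} [A.NeBot] {γ : ℕ → G.Sp 4 ℚ} {k : G.Sp 4 ℤ_[l]}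
    (hk : Tendsto (fun j => (γ j).1.map (Rat.cast : ℚ → ℚ_[l])) A (𝓝 (k.1.map (↑)))) {Q : M8 ℚ}
    (h : ∀ᶠ j in A, Q.map (↑) ∈ ((φ.cj (spM b (spM PadicInt.Coe.ringHom k))).cj
      (spM (Rat.castHom ℂ) (γ j))⁻¹).hh) :
    Q.map (↑) ∈ φ.hh := by
  let V : Submodule ℚ_[l] (M8 ℚ_[l]) :=
    { carrier := {X | X.map b ∈ φ.hh}
      add_mem' := fun {X Y} hX hY => by
        have := φ.hh.add_mem hX hY
        rwa [← Matrix.map_add _ (map_add b)] at this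
      zero_mem' := by
        change (0 : M8 ℚ_[l]).map b ∈ φ.hh
        rw [Matrix.map_zero _ b.map_zero]
        exact φ.hh.zero_mem
      smul_mem' := fun c X hX => by
        have := φ.hh.smul_mem (b c) hX
        rwa [show b c • X.map b = (c • X).map b by ext; simp] at this }
  have hV : ∀ X : M8 ℚ_[l], X ∈ V ↔ X.map b ∈ φ.hh := fun X => Iff.rfl
  set k' := spM PadicInt.Coe.ringHom k with hk'
  let c := Rat.castHom ℚ_[l]
  have e2 : ∀ x : G.Sp 4 ℚ, spM b (spM c x) = spM (Rat.castHom ℂ) x := fun x =>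
    Subtype.ext (by ext; simp [spM])
  have e3 : (Q.map c).map b = Q.map (↑) := by ext; simp
  have t : Tendsto (fun j => (k'⁻¹).1 * ((spM c (γ j)).1 * Q.map c * ((spM c (γ j))⁻¹).1) * k'.1) A
      (𝓝 ((k'⁻¹).1 * (k'.1 * Q.map c * (k'⁻¹).1) * k'.1)) := by
    refine (((hk.mul_const _).mul ?_).const_mul _).mul_const _
    simp only [SymplecticGroup.coe_inv]
    exact (((continuous_id.matrix_transpose.tendsto _).comp hk).const_mul _).mul_const _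
  have e4 : (k'⁻¹).1 * k'.1 = 1 := congrArg Subtype.val (inv_mul_cancel k')
  rw [← Matrix.mul_assoc, ← Matrix.mul_assoc, e4, Matrix.one_mul, Matrix.mul_assoc, e4,
    Matrix.mul_one] at t
  rw [← e3, ← hV]
  refine (closed_sub V).mem_of_tendsto t (h.mono fun j hj => (hV _).2 ?_)
  rw [Fr3.mem_hh_cj, Fr3.mem_hh_cj, inv_inv, ← e2, spM_inv b k', spM_inv b (spM c _),
    ← e3] at hj
  simp only [Matrix.map_mul]
  exact hj

theorem uu_inv {R : Type} [CommRing R] (x : R) : (uu x)⁻¹ = uu (-x) :=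
  Subtype.ext (show adjugate !![1, x; 0, 1] = !![1, -x; 0, 1] by simp [adjugate_fin_two])

theorem ll_inv {R : Type} [CommRing R] (x : R) : (ll x)⁻¹ = ll (-x) :=
  Subtype.ext (show adjugate !![1, 0; x, 1] = !![1, 0; -x, 1] by simp [adjugate_fin_two])

theorem uf_sigma {τ : Matrix (Fin 4) (Fin 4) ℂ} {K : IntermediateField ℚ ℂ} (M : MumfordType τ K)
    {l l₀ : Pr} (hl : l ∉ M.S) (h0 : l₀ ∉ M.S) (hne : l₀ ≠ l)
    (u : SpecialLinearGroup (Fin 2) (AdjoinRoot (M.D l).c)) :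
    ∃ σ, (M.ρ σ l).val = (M.D l).Nm u.val ∧ M.ρ σ l₀ = 1 := by
  obtain ⟨σ, h⟩ := M.big {l, l₀} (Pi.mulSingle l u)
  refine ⟨σ, by simpa using h l (by simp) hl, Units.ext ?_⟩
  rw [h l₀ (by simp) h0, Pi.mulSingle_eq_of_ne hne]
  exact (M.D l₀).Nm_one

theorem stage3 (zl : ZL) : Stage3 := by
  intro τ hτ K hK h8 M J₀ hJ l hl i g
  have m1 : un τ ∈ G.HH 4 := by rwa [← mk_un hτ.symm] at hτ
  rw [← mk_un hτ.symm] at hJ
  obtain rfl := g8_cx m1 hJ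
  obtain ⟨l₀, h0, hne, h2, ⟨O⟩⟩ := exists_orb zl hτ hK h8 M l
  obtain ⟨C⟩ := exists_cmp (fun j => tr τ (O.γ j)) (fun j => tr_mem hτ _) O.inj
  obtain ⟨k, hk⟩ := exists_lim O C hne.symm
  obtain ⟨n, hn, H⟩ := cong O C hτ h8 M hne.symm h2 hk
  obtain ⟨κ, _, _, hκ⟩ : ∃ (κ : Type) (_ : Fintype κ) (_ : DecidableEq κ), Ann C.G₀ κ ≠ spL ℂ := by
    by_contra! h
    exact not_full hτ l₀.2 h2 O C fun κ _ _ => h κ _ _
  obtain ⟨N, hN, hp⟩ := exists_pow (D := 32) (by norm_num)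
  set φ := (cubFr (M.D l)).map i with hφ
  set ψ := φ.cj (spM (zi i) k) with hψ
  have ek : spM (zi i) k = spM (i.comp (algebraMap ℚ_[l] _)) (spM PadicInt.Coe.ringHom k) :=
    Subtype.ext (Matrix.ext fun a b =>
      congrArg i (IsScalarTower.algebraMap_apply ℤ_[l] ℚ_[l] (PadicAlgCl l) (k.1 a b)))
  have cj : ∀ u : SpecialLinearGroup (Fin 2) (AdjoinRoot (M.D l).c), ∀ X ∈ Ann C.G₀ κ,
      (k.1 * (M.D l).Nm u.val ^ N * (k⁻¹).1).map (zi i) * X *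
        (k.1 * (M.D l).Nm (u⁻¹).val ^ N * (k⁻¹).1).map (zi i) - X ∈ Ann C.G₀ κ := fun u X hX => by
    obtain ⟨σ, s1, s2⟩ := uf_sigma M hl h0 hne u
    have s3 : (M.ρ (σ ^ N) l).val = (M.D l).Nm u.val ^ N := by
      rw [map_pow, Pi.pow_apply, Units.val_pow_eq_pow_val, s1]
    have s4 : ∀ v : SpecialLinearGroup (Fin 2) (AdjoinRoot (M.D l).c),
        (M.D l).Nm v.val ^ N = (M.D l).Nm (v ^ N).val := fun v => (map_pow (M.D l).NmH _ _).symm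
    have s5 : GS 1 ((M.D l).Nm u.val ^ N) := by
      simpa [s4] using (M.D l).gs_Nm (u ^ N).val
    have e4 : (k⁻¹).1 * k.1 = 1 := congrArg Subtype.val (inv_mul_cancel k)
    refine sub_mem (ann_conj κ C.le (zi i) ?_ ?_ hn (s3 ▸ H (σ ^ N) (s3 ▸ s5)
      (by rw [map_pow, Pi.pow_apply, s2, one_pow]) fun p a b => ?_) hX) hX
    · have e5 : (M.D l).Nm u.val ^ N * (M.D l).Nm (u⁻¹).val ^ N = 1 := by
        rw [s4, s4, ← (M.D l).Nm_mul, inv_pow, ← (M.D l).Nm_one]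
        exact congrArg (fun v => (M.D l).Nm (Subtype.val v)) (mul_inv_cancel (u ^ N))
      generalize (M.D l).Nm u.val ^ N = a, (M.D l).Nm (u⁻¹).val ^ N = b at e5 ⊢
      calc _ = k.1 * (a * ((k⁻¹).1 * k.1) * b) * (k⁻¹).1 := by simp only [Matrix.mul_assoc]
        _ = 1 := by rw [e4, Matrix.mul_one, e5, Matrix.mul_one]; exact mul_eq_one_comm.1 e4
    · simpa using ((gs_one_iff.2 k.2).mul s5).mul (gs_one_iff.2 (k⁻¹).2)
    · simpa only [map_pow, Pi.pow_apply, Nat.cast_ofNat] using hp p (M.ρ σ p) a b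
  have fr : ∀ (x : M8 ℤ_[l]) (y : Fin 3 → M2 ℂ), x.map (zi i) = φ.U * kp y * φ.U' →
      (k.1 * x * (k⁻¹).1).map (zi i) = ψ.U * kp y * ψ.U' := fun x y h => by
    rw [Matrix.map_mul, Matrix.map_mul, h, ← spM_inv]
    simp only [hψ, Fr3.cj, Matrix.mul_assoc]
    rfl
  have ad : AdSt ψ.hh (Ann C.G₀ κ) := ψ.adSt_of
    (fun a X hX => ψ.ad_up (cub_span (M.D l) i hN) (by
      rintro _ ⟨x, rfl⟩
      have := cj (uu x) X hX
      rw [uu_inv, fr _ _ (cub_uu _ i N x),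
        fr _ _ (cub_uu _ i N (-x))] at this
      simpa only [mul_neg, map_neg] using this) a)
    fun a X hX => ψ.ad_low (cub_span (M.D l) i hN) (by
      rintro _ ⟨x, rfl⟩
      have := cj (ll x) X hX
      rw [ll_inv, fr _ _ (cub_ll _ i N x),
        fr _ _ (cub_ll _ i N (-x))] at this
      simpa only [mul_neg, map_neg] using this) a
  have le : ψ.hh ≤ nor (Ann C.G₀ κ) := fun X hX => ⟨ψ.hh_le hX, ad X hX⟩
  have nr : nor (Ann C.G₀ κ) = ψ.hh :=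
    (ψ.max le (fun _ h => h.1) fun X hX => nor_lie _ X (le hX)).resolve_right fun h =>
      hκ (sp_simple (ann_le κ) (C.ann_ne κ) fun X hX => (h.ge hX).2)
  have rψ : Rat ψ.hh := nr ▸ (ann_rat κ).nor
  have A : ∀ᶠ j in hyperfilter ℕ,
      cm (Jm (un τ)) ∈ (ψ.cj (spM (Rat.castHom ℂ) (gt O C j))⁻¹).hh :=
    (gt_mem O C hτ).mono fun j hj => uf_J m1 (nr ▸ ⟨(sp_map Complex.ofRealHom).2 (by
      have := Jm_lie (C.sub _ hj).1
      rwa [show qr (J (Fin 4) ℚ) = J (Fin 4) ℝ from Matrix.map_J _ (Rat.castHom ℝ)] at this),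
      fun X hX => C.ann_J κ hj hX⟩)
  have B : cjs (cm (Jm (un τ))) ≤ φ.hh := fun X hX =>
    Submodule.span_le.2 (by
      rintro _ ⟨hQ, Q, rfl⟩
      refine uf_lim _ (i.comp (algebraMap ℚ_[l] _)) hk ?_
      rw [← ek]
      exact A.mono fun j hj => Submodule.span_le.2 (by
        rintro _ ⟨α, rfl⟩
        exact uf_rat rψ _ α _ hj) hQ) ((rat_cjs _).span hX)
  have B' : ∀ α : ℂ ≃+* ℂ, (cm (Jm (un τ))).map α ∈ φ.hh := fun α =>
    B (Submodule.subset_span ⟨α, rfl⟩)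
  obtain ⟨j, hj⟩ := A.exists
  have ne := noEnd hτ h8 M
  obtain ⟨_, _, _, _, P⟩ := Fr3.pos _ (uf_rat rψ _) hj (Jm_sq m1) ne
  have le' := P.lie φ.hh_ad B'
  have e := (Fr3.max _ le' φ.hh_le fun X hX => φ.hh_ad X (le' hX)).resolve_right φ.hh_ne
  have rφ : Rat φ.hh := e ▸ uf_rat rψ _
  obtain ⟨_, _, _, _, P'⟩ := φ.pos rφ (e ▸ hj) (Jm_sq m1) ne
  exact ⟨φ.hodge_le rφ (e ▸ hj) (Jm_sq m1), P'.le_hodge⟩

end Pool.Agent.MT.U
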