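import Pool.Agent.Lib.MP_d61fbb_ag.MT.UP

/-! Stage three: the tensor group lies in the Hodge group. -/

set_option autoImplicit false

noncomputable section

namespace Pool.Agent.MT.U

open Matrix G

theorem sl2_elem {F : Type} [Field F] (S : Submonoid (M2 F)) (hu : ∀ x, !![1, x; 0, 1] ∈ S)
    (hl : ∀ x, !![1, 0; x, 1] ∈ S) {g : M2 F} (hg : g.det = 1) : g ∈ S := by
  have key : ∀ g : M2 F, g.det = 1 → g 1 0 ≠ 0 → g ∈ S := fun g hg h0 => by
    rw [det_fin_two] at hg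
    have e : g = !![1, (g 0 0 - 1) / g 1 0; 0, 1] * !![1, 0; g 1 0, 1] *
        !![1, (g 1 1 - 1) / g 1 0; 0, 1] := by
      ext a b
      fin_cases a <;> fin_cases b <;> simp [mul_apply, Fin.sum_univ_two] <;> field_simp
      · ring
      · linear_combination -hg
      · ring
    rw [e]
    exact mul_mem (mul_mem (hu _) (hl _)) (hu _)
  by_cases h0 : g 1 0 = 0
  · have e : g = !![1, 0; -1, 1] * (!![1, 0; 1, 1] * g) := by
      rw [← Matrix.mul_assoc, mul_fin_two]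
      simp [← one_fin_two]
    rw [e]
    refine mul_mem (hl _) (key _ (by rw [det_mul, hg, det_fin_two_of]; ring) fun k => ?_)
    rw [det_fin_two, h0] at hg
    simp only [mul_apply, Fin.sum_univ_two, h0] at k
    simp at k
    simp [k] at hg
  · exact key g hg h0

theorem ug_tri {S : Submonoid (M2 ℂ)} (hD : ∀ l m : ℂ, l * m = 1 → !![l, 0; 0, m] ∈ S)
    {g : M2 ℂ} (hg : g ∈ S) (h1 : g.det = 1) (h2 : g 1 0 = 0) (h3 : g 0 1 ≠ 0) (x : ℂ) :
    !![1, x; 0, 1] ∈ S := by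
  rcases eq_or_ne x 0 with rfl | x0
  · exact hD 1 1 (mul_one 1)
  rw [det_fin_two, h2, mul_zero, sub_zero] at h1
  obtain ⟨l, hl⟩ := IsAlgClosed.exists_pow_nat_eq (x * g 1 1 / g 0 1) two_pos
  have l0 : l ≠ 0 := fun e => by
    rw [e, zero_pow two_ne_zero, eq_comm, div_eq_zero_iff, mul_eq_zero] at hl
    rcases hl with (k | k) | k
    exacts [x0 k, right_ne_zero_of_mul_eq_one h1 k, h3 k]
  rw [eq_div_iff h3] at hl
  convert mul_mem (mul_mem (hD l l⁻¹ (mul_inv_cancel₀ l0)) hg) (hD (l⁻¹ * g 1 1) (l * g 0 0)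
    (by field_simp; linear_combination h1)) using 1
  rw [eta_fin_two g, mul_fin_two, mul_fin_two]
  ext a b
  fin_cases a <;> fin_cases b <;> simp [h2]
  · field_simp
    linear_combination -h1
  · linear_combination -g 0 0 * hl - x * h1
  · field_simp
    linear_combination -h1

theorem ug_up {S : Submonoid (M2 ℂ)} (hD : ∀ l m : ℂ, l * m = 1 → !![l, 0; 0, m] ∈ S)
    {k : M2 ℂ} (tr : k.trace = 0) (sq : k * k = -1) (h0 : k 0 1 ≠ 0)
    (h : ∀ a b : ℂ, a ^ 2 + b ^ 2 = 1 → a • 1 + b • k ∈ S) (x : ℂ) : !![1, x; 0, 1] ∈ S := by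
  rw [trace_fin_two] at tr
  have s0 : k 0 0 * k 0 0 + k 0 1 * k 1 0 = -1 := by
    simpa [mul_apply, Fin.sum_univ_two] using congrFun₂ sq 0 0
  by_cases h1 : k 1 0 = 0
  · refine ug_tri hD (by simpa using h 0 1 (by simp)) ?_ h1 h0 x
    rw [det_fin_two]
    linear_combination k 0 0 * tr - s0
  have key : ∀ t : ℂ, ∃ g ∈ S, g 0 1 * g 1 0 = t ∧ g 0 0 * g 1 1 = 1 + t := fun t => by
    obtain ⟨b, hb⟩ := IsAlgClosed.exists_pow_nat_eq (t / (k 0 1 * k 1 0)) two_pos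
    obtain ⟨a, ha⟩ := IsAlgClosed.exists_pow_nat_eq (1 - b ^ 2) two_pos
    rw [eq_div_iff (mul_ne_zero h0 h1)] at hb
    refine ⟨_, h a b (by linear_combination ha), ?_, ?_⟩
    · simp
      linear_combination hb
    · simp
      linear_combination ha + hb + (a * b + b ^ 2 * k 0 0) * tr - b ^ 2 * s0
  obtain ⟨g, hg, g1, g2⟩ := key 1
  obtain ⟨f, hf, f1, f2⟩ := key 2
  have n1 : g 1 0 ≠ 0 := right_ne_zero_of_mul_eq_one g1
  have n2 : g 1 1 ≠ 0 := right_ne_zero_of_mul (g2.trans_ne (by norm_num))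
  have n3 : f 1 0 ≠ 0 := right_ne_zero_of_mul (f1.trans_ne two_ne_zero)
  have n4 : f 0 0 ≠ 0 := left_ne_zero_of_mul (f2.trans_ne (by norm_num))
  obtain ⟨l, hl⟩ := IsAlgClosed.exists_pow_nat_eq (-(g 1 1 * f 1 0) / (g 1 0 * f 0 0)) two_pos
  rw [eq_div_iff (mul_ne_zero n1 n4)] at hl
  have l0 : l ≠ 0 := fun e => mul_ne_zero n2 n3 (by rw [e] at hl; linear_combination hl)
  refine ug_tri hD (mul_mem (mul_mem hg (hD l l⁻¹ (mul_inv_cancel₀ l0))) hf) ?_ ?_ (fun e => ?_) x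
  · rw [det_mul, det_mul, det_fin_two g, det_fin_two f, g1, g2, f1, f2, det_fin_two_of,
      mul_inv_cancel₀ l0]
    ring
  · simp [mul_apply, Fin.sum_univ_two]
    field_simp
    linear_combination hl
  · simp [mul_apply, Fin.sum_univ_two] at e
    field_simp at e
    refine one_ne_zero (α := ℂ) ?_
    linear_combination -(g 1 0 * f 0 0) * e + g 0 0 * f 0 1 * hl - f 0 1 * f 1 0 * g2 - 2 * f1 +
      f 0 0 * f 1 1 * g1 + f2

theorem ug_diag {j : M2 ℂ} (tr : j.trace = 0) (sq : j * j = -1) :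
    ∃ p q : M2 ℂ, p * q = 1 ∧ q * p = 1 ∧ j = p * !![Complex.I, 0; 0, -Complex.I] * q := by
  rw [trace_fin_two] at tr
  have s0 : j 0 0 * j 0 0 + j 0 1 * j 1 0 = -1 := by
    simpa [mul_apply, Fin.sum_univ_two] using congrFun₂ sq 0 0
  have key : ∀ x y : ℂ, j 1 0 * x ^ 2 - 2 * j 0 0 * x * y - j 0 1 * y ^ 2 ≠ 0 →
      ∃ p q : M2 ℂ, p * q = 1 ∧ q * p = 1 ∧ j = p * !![Complex.I, 0; 0, -Complex.I] * q :=
    fun x y h => by
      let p : M2 ℂ := !![j 0 0 * x + j 0 1 * y + Complex.I * x, j 0 0 * x + j 0 1 * y - Complex.I * x;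
        j 1 0 * x + j 1 1 * y + Complex.I * y, j 1 0 * x + j 1 1 * y - Complex.I * y]
      have hp : IsUnit p.det := Ne.isUnit fun e => mul_ne_zero (mul_ne_zero two_ne_zero
        Complex.I_ne_zero) h (by
          rw [det_fin_two_of] at e
          linear_combination e - 2 * Complex.I * x * y * tr)
      refine ⟨p, p⁻¹, mul_nonsing_inv p hp, nonsing_inv_mul p hp, ?_⟩
      rw [← mul_nonsing_inv_cancel_right p j hp]
      congr 1
      have i2 := Complex.I_mul_I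
      ext a b
      fin_cases a <;> fin_cases b <;> simp [p, mul_apply, Fin.sum_univ_two]
      · linear_combination x * s0 + j 0 1 * y * tr - x * i2
      · linear_combination x * s0 + j 0 1 * y * tr - x * i2
      · linear_combination y * s0 + (j 1 0 * x + (j 1 1 - j 0 0) * y) * tr - y * i2
      · linear_combination y * s0 + (j 1 0 * x + (j 1 1 - j 0 0) * y) * tr - y * i2
  by_contra hn
  have h1 := not_not.1 (mt (key 1 0) hn)
  have h2 := not_not.1 (mt (key 0 1) hn)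
  have h3 := not_not.1 (mt (key 1 1) hn)
  refine one_ne_zero (α := ℂ) ?_
  linear_combination s0 - j 0 1 * h1 + (j 0 0 / 2) * (h3 - h1 - h2)

namespace Gp

theorem sl2_gen (S : Submonoid (M2 ℂ)) {j j' j'' : M2 ℂ}
    (tr : j.trace = 0 ∧ j'.trace = 0 ∧ j''.trace = 0)
    (sq : j * j = -1 ∧ j' * j' = -1 ∧ j'' * j'' = -1) (up : off Complex.I j j' ≠ 0)
    (low : off (-Complex.I) j j'' ≠ 0)
    (h : ∀ a b : ℂ, a ^ 2 + b ^ 2 = 1 → a • 1 + b • j ∈ S ∧ a • 1 + b • j' ∈ S ∧ a • 1 + b • j'' ∈ S)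
    {g : M2 ℂ} (hg : g.det = 1) : g ∈ S := by
  obtain ⟨p, q, h1, h2, rfl⟩ := ug_diag tr.1 sq.1
  have c1 : ∀ x : M2 ℂ, p * (q * x * p) * q = x := fun x => by
    rw [← Matrix.mul_assoc, ← Matrix.mul_assoc, h1, Matrix.one_mul, Matrix.mul_assoc, h1,
      Matrix.mul_one]
  have c2 : ∀ x y : M2 ℂ, p * (x * y) * q = p * x * q * (p * y * q) := fun x y => by
    simp only [Matrix.mul_assoc, ← Matrix.mul_assoc q p, h2, Matrix.one_mul]
  have c3 : ∀ (a b : ℂ) (x : M2 ℂ), p * (a • 1 + b • x) * q = a • 1 + b • (p * x * q) :=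
    fun a b x => by
      simp only [Matrix.mul_add, Matrix.add_mul, Matrix.mul_smul, Matrix.smul_mul, Matrix.mul_one, h1]
  have c4 : ∀ (c : ℂ) (d x : M2 ℂ), off c (p * d * q) x = p * off c d (q * x * p) * q :=
    fun c d x => by
      have e1 := c3 1 (-c) d
      have e2 := c3 1 c d
      rw [one_smul, neg_smul, neg_smul, ← sub_eq_add_neg, ← sub_eq_add_neg] at e1
      rw [one_smul] at e2
      rw [off, off, c2, c2, c1, e1, e2]
  have c5 : ∀ x : M2 ℂ, x.trace = 0 → (q * x * p).trace = 0 := fun x hx => by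
    rw [trace_mul_cycle, h1, Matrix.one_mul, hx]
  have c6 : ∀ x : M2 ℂ, x * x = -1 → q * x * p * (q * x * p) = -1 := fun x hx => by
    simp only [Matrix.mul_assoc, ← Matrix.mul_assoc p q, h1, Matrix.one_mul,
      ← Matrix.mul_assoc x x, hx, Matrix.neg_mul, Matrix.mul_neg, h2]
  let S1 : Submonoid (M2 ℂ) := ⟨⟨{x | p * x * q ∈ S}, fun {x y} a b =>
    show p * (x * y) * q ∈ S from (c2 x y).symm ▸ mul_mem a b⟩,
    show p * 1 * q ∈ S by rw [Matrix.mul_one, h1]; exact one_mem S⟩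
  let S2 : Submonoid (M2 ℂ) := ⟨⟨{x | xᵀ ∈ S1}, fun {x y} a b =>
    show (x * y)ᵀ ∈ S1 from (transpose_mul x y).symm ▸ mul_mem b a⟩,
    show 1ᵀ ∈ S1 by rw [transpose_one]; exact one_mem S1⟩
  have hD : ∀ l m : ℂ, l * m = 1 → !![l, 0; 0, m] ∈ S1 := fun l m e => by
    have i2 := Complex.I_mul_I
    have := (h ((l + m) / 2) ((m - l) / 2 * Complex.I)
      (by linear_combination e + ((m - l) / 2) ^ 2 * i2)).1
    rw [← c3] at this
    refine Set.mem_of_eq_of_mem (s := (S1 : Set (M2 ℂ))) (Matrix.ext fun a b => ?_) this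
    fin_cases a <;> fin_cases b <;> simp
    · linear_combination (l - m) / 2 * i2
    · linear_combination (m - l) / 2 * i2
  rw [← c1 g]
  refine sl2_elem S1 (ug_up hD (c5 _ tr.2.1) (c6 _ sq.2.1) (fun e => up ?_) fun a b e => ?_)
    (fun x => ?_) (by rw [det_mul, det_mul, hg, mul_one, ← det_mul, h2, det_one])
  · rw [c4, show off _ _ (q * j' * p) = 0 from ?_, Matrix.mul_zero, Matrix.zero_mul]
    generalize q * j' * p = k at e
    ext a b
    fin_cases a <;> fin_cases b <;> simp [off, mul_apply, Fin.sum_univ_two, e]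
  · show p * _ * q ∈ S
    rw [c3, c1]
    exact (h a b e).2.1
  have := ug_up (S := S2) (k := (q * j'' * p)ᵀ) (fun l m e =>
      Set.mem_of_eq_of_mem (s := (S1 : Set (M2 ℂ))) (Matrix.ext fun a b => by
        fin_cases a <;> fin_cases b <;> rfl) (hD l m e))
    (by rw [trace_transpose, c5 _ tr.2.2])
    (by rw [← transpose_mul, c6 _ sq.2.2, transpose_neg, transpose_one]) (fun e => low ?_)
    (fun a b e => ?_) x
  · exact Set.mem_of_eq_of_mem (s := (S1 : Set (M2 ℂ))) (Matrix.ext fun a b => by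
      fin_cases a <;> fin_cases b <;> rfl) this
  · rw [c4, show off _ _ (q * j'' * p) = 0 from ?_, Matrix.mul_zero, Matrix.zero_mul]
    rw [transpose_apply] at e
    generalize q * j'' * p = k at e
    ext a b
    fin_cases a <;> fin_cases b <;> simp [off, mul_apply, Fin.sum_univ_two, e]
  · show p * _ * q ∈ S
    rw [transpose_add, transpose_smul, transpose_smul, transpose_one, transpose_transpose, c3, c1]
    exact (h a b e).2.2

end Gp

theorem overQ_torus {H : Subgroup (GL (I2 4) ℂ)} (h : St.OverQ H) {J₀ : M8 ℝ}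
    (hc : ∀ t : ℝ, ∃ g ∈ H, g.val = (Real.cos t • (1 : M8 ℝ) + Real.sin t • J₀).map (↑))
    {a b : ℂ} (hab : a ^ 2 + b ^ 2 = 1) {g : GL (I2 4) ℂ} (e : g.val = a • 1 + b • cm J₀) :
    g ∈ H := by
  obtain ⟨s, hs⟩ := h
  refine (hs g).2 fun f hf => ?_
  have h1 : AnalyticOnNhd ℂ (fun z : ℂ => MvPolynomial.aeval (fun ij : I2 4 × I2 4 =>
      (Complex.cos z • (1 : M8 ℂ) + Complex.sin z • cm J₀) ij.1 ij.2) f) Set.univ := fun z _ =>
    AnalyticAt.aeval_mvPolynomial (fun ij => by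
      simp only [Matrix.add_apply, Matrix.smul_apply, smul_eq_mul]
      fun_prop) f
  have h2 : Filter.Tendsto (fun t : ℝ => (t : ℂ)) (nhdsWithin 0 {0}ᶜ) (nhdsWithin 0 {0}ᶜ) :=
    tendsto_nhdsWithin_iff.2 ⟨(Complex.continuous_ofReal.tendsto' 0 0 rfl).mono_left
      nhdsWithin_le_nhds, eventually_mem_nhdsWithin.mono fun t ht => by simpa using ht⟩
  have h3 := h1.eq_of_frequently_eq analyticOnNhd_const (h2.frequently (.of_forall fun t => by
    obtain ⟨γ, g1, g2⟩ := hc t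
    refine Eq.trans ?_ ((hs γ).1 g1 f hf)
    rw [g2]
    congr 2
    funext ij
    simp [cm, one_apply, apply_ite]))
  have i2 := Complex.I_mul_I
  have h4 : (a + b * Complex.I) * (a - b * Complex.I) = 1 := by
    linear_combination hab - b ^ 2 * i2
  obtain ⟨z, hz⟩ : ∃ z, Complex.exp (z * Complex.I) = a + b * Complex.I :=
    ⟨Complex.log (a + b * Complex.I) / Complex.I, by
      rw [div_mul_cancel₀ _ Complex.I_ne_zero, Complex.exp_log (left_ne_zero_of_mul_eq_one h4)]⟩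
  have h5 : Complex.exp (-z * Complex.I) = a - b * Complex.I := by
    rw [neg_mul, Complex.exp_neg, hz, inv_eq_of_mul_eq_one_right h4]
  have h6 := congrFun h3 z
  rw [show Complex.cos z = a by rw [Complex.cos, hz, h5]; ring,
    show Complex.sin z = b by rw [Complex.sin, hz, h5]; linear_combination -b * i2] at h6
  rw [e]
  exact h6

theorem Pos.le_hodge {φ : Fr3 ℂ} {J₀ : M8 ℝ} {i₀ : Fin 3} {j j' j'' : M2 ℂ}
    (P : Pos φ J₀ i₀ j j' j'') {g : GL (I2 4) ℂ} (hg : g.val ∈ φ.H) : g ∈ St.Hodge J₀ := by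
  refine Subgroup.mem_sInf.2 fun H ⟨hH, hc⟩ => ?_
  have u1 : ∀ i (x y : M2 ℂ), x * y = 1 → ∃ γ : GL (I2 4) ℂ, γ.val = φ.s i x := fun i x y e =>
    (IsUnit.of_mul_eq_one (φ.s i y) (by rw [← φ.s_mul, e, φ.s_one]) : IsUnit (φ.s i x))
  have u2 : ∀ i (x : M2 ℂ), x.det = 1 → ∃ γ : GL (I2 4) ℂ, γ.val = φ.s i x := fun i x e =>
    u1 i x x.adjugate (by rw [mul_adjugate, e, one_smul])
  have u3 : ∀ (k : M2 ℂ), k * k = -1 → ∀ a b : ℂ, a ^ 2 + b ^ 2 = 1 →
      ∃ γ : GL (I2 4) ℂ, γ.val = φ.s i₀ (a • 1 + b • k) := fun k hk a b e =>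
    u1 _ _ (a • 1 - b • k) (by
      simp only [Matrix.mul_sub, Matrix.add_mul, Matrix.mul_smul, Matrix.smul_mul, Matrix.mul_one,
        Matrix.one_mul, hk]
      linear_combination (norm := module) e • (1 : M2 ℂ))
  let S : Submonoid (M2 ℂ) := ⟨⟨{x | ∃ γ ∈ H, γ.val = φ.s i₀ x}, by
    rintro x y ⟨γ, a1, a2⟩ ⟨δ, b1, b2⟩
    exact ⟨γ * δ, mul_mem a1 b1, by rw [Units.val_mul, a2, b2, φ.s_mul]⟩⟩,
    1, one_mem H, (φ.s_one _).symm⟩
  have u4 : ∀ (k : M2 ℂ) (α : ℂ ≃+* ℂ), k * k = -1 → (cm J₀).map α = φ.s i₀ k → ∀ a b : ℂ,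
      a ^ 2 + b ^ 2 = 1 → a • 1 + b • k ∈ S := fun k α hk e a b hab => by
    have h1 : α.symm a ^ 2 + α.symm b ^ 2 = 1 := by rw [← map_pow, ← map_pow, ← map_add, hab, map_one]
    obtain ⟨γ, hγ⟩ := u3 j P.sq.1 _ _ h1
    obtain ⟨δ, hδ⟩ := u3 k hk a b hab
    rw [map_add, map_smul, map_smul, φ.s_one, ← P.eq] at hγ
    refine ⟨δ, overQ_map hH α (overQ_torus hH hc h1 hγ) ?_, hδ⟩
    rw [hδ, hγ, Matrix.map_add _ (map_add α), up_smul, up_smul, e, α.apply_symm_apply,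
      α.apply_symm_apply, Matrix.map_one _ (map_zero α) (map_one α), map_add, map_smul, map_smul,
      φ.s_one]
  obtain ⟨α', e'⟩ := P.eq'
  obtain ⟨α'', e''⟩ := P.eq''
  have u5 : ∀ i (x : M2 ℂ), x.det = 1 → ∃ γ ∈ H, γ.val = φ.s i x := fun i x hx => by
    obtain ⟨α, hα⟩ := P.tran i
    obtain ⟨y, -, hy⟩ := φ.mem_h.1 (hα _ (φ.mem_h.2 ⟨x - (x.trace / 2) • 1, by simp, rfl⟩))
    have h1 : (φ.s i x).map α = φ.s i₀ (y + α (x.trace / 2) • 1) := by
      rw [map_add, ← hy, map_sub, map_smul, map_smul, φ.s_one, φ.s_one,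
        Matrix.map_sub _ (map_sub α), up_smul, Matrix.map_one α (map_zero α) (map_one α),
        sub_add_cancel]
    obtain ⟨γ, a1, a2⟩ := Gp.sl2_gen S P.tr P.sq P.up P.low (fun a b e =>
      ⟨u4 j (.refl ℂ) P.sq.1 P.eq a b e, u4 j' α' P.sq.2.1 e' a b e, u4 j'' α'' P.sq.2.2 e'' a b e⟩)
      (g := y + α (x.trace / 2) • 1) (φ.s_gs.1 (by
        rw [← h1]
        simpa using (φ.s_gs.2 hx).map α.toRingHom))
    obtain ⟨δ, hδ⟩ := u2 i x hx
    exact ⟨δ, overQ_map hH α.symm a1 (by rw [hδ, a2, ← h1, up_symm]), hδ⟩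
  obtain ⟨x, hx, e⟩ := hg
  choose γ a1 a2 using fun i => u5 i (x i) (hx i)
  rw [show g = γ 0 * γ 1 * γ 2 from Units.ext (by
    rw [e, φ.kp_eq, Units.val_mul, Units.val_mul, a2, a2, a2])]
  exact mul_mem (mul_mem (a1 0) (a1 1)) (a1 2)

end Pool.Agent.MT.U
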