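import Pool.Agent.Lib.MP_d61fbb_ag.MT.GT1

/-! Subspaces of the matrices on a tensor power of the plane that are stable under the traceless
matrices in every slot. -/

set_option autoImplicit false

open Matrix Function

namespace Pool.Agent.MT.UM

/-- matrices of size two -/
abbrev N2 (F : Type*) := Matrix (Fin 2) (Fin 2) F

/-- matrices on the tensor power -/
abbrev TM (ι F : Type*) := Matrix (ι → Fin 2) (ι → Fin 2) F

variable {ι F : Type*} [Fintype ι] [DecidableEq ι] [Field F]

/-- an operator on matrices of size two, acting in one slot -/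
def so (i : ι) (φ : N2 F →ₗ[F] N2 F) : TM ι F →ₗ[F] TM ι F where
  toFun A := of fun x y => φ (of fun s t => A (update x i s) (update y i t)) (x i) (y i)
  map_add' A B := by
    ext x y
    simp only [of_apply, Matrix.add_apply]
    rw [← Matrix.add_apply, ← map_add]
    rfl
  map_smul' c A := by
    ext x y
    simp only [of_apply, Matrix.smul_apply, RingHom.id_apply]
    rw [← Matrix.smul_apply, ← map_smul]
    rfl

theorem kp_update (g : ι → N2 F) (i : ι) (X : N2 F) (x y : ι → Fin 2) :
    kp (update g i X) x y = X (x i) (y i) * ∏ j ∈ Finset.univ.erase i, g j (x j) (y j) := by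
  rw [kp_apply, ← Finset.mul_prod_erase _ _ (Finset.mem_univ i), update_self]
  congr 1
  refine Finset.prod_congr rfl fun j hj => ?_
  rw [update_of_ne (Finset.ne_of_mem_erase hj)]

theorem so_kp (i : ι) (φ : N2 F →ₗ[F] N2 F) (g : ι → N2 F) :
    so i φ (kp g) = kp (update g i (φ (g i))) := by
  ext x y
  have e : (of fun s t => kp g (update x i s) (update y i t)) =
      (∏ j ∈ Finset.univ.erase i, g j (x j) (y j)) • g i := by
    ext s t
    rw [of_apply, kp_apply, ← Finset.mul_prod_erase _ _ (Finset.mem_univ i), update_self,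
      update_self, Matrix.smul_apply, smul_eq_mul, mul_comm]
    congr 1
    refine Finset.prod_congr rfl fun j hj => ?_
    rw [update_of_ne (Finset.ne_of_mem_erase hj), update_of_ne (Finset.ne_of_mem_erase hj)]
  change φ _ (x i) (y i) = _
  rw [e, map_smul, kp_update, Matrix.smul_apply, smul_eq_mul, mul_comm]

theorem kp_single (x y : ι → Fin 2) :
    (kp fun i => (single (x i) (y i) 1 : N2 F)) = single x y 1 := by
  ext a b
  rw [kp_apply]
  by_cases h : x = a ∧ y = b
  · obtain ⟨rfl, rfl⟩ := h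
    simp
  · rw [single_apply_of_ne _ _ _ _ _ h]
    have : ∃ i, ¬(x i = a i ∧ y i = b i) := by
      by_contra k
      push Not at k
      exact h ⟨funext fun i => (k i).1, funext fun i => (k i).2⟩
    obtain ⟨i, hi⟩ := this
    exact Finset.prod_eq_zero (Finset.mem_univ i) (single_apply_of_ne _ _ _ _ _ hi)

theorem kp_ext {W : Type*} [AddCommGroup W] [Module F W] {f f' : TM ι F →ₗ[F] W}
    (h : ∀ g : ι → N2 F, f (kp g) = f' (kp g)) : f = f' := by
  refine (Matrix.stdBasis F (ι → Fin 2) (ι → Fin 2)).ext fun p => ?_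
  obtain ⟨x, y⟩ := p
  rw [Matrix.stdBasis_eq_single, ← kp_single, h]

/-- the bracket with a matrix -/
def ad2 (X : N2 F) : N2 F →ₗ[F] N2 F := LinearMap.mulLeft F X - LinearMap.mulRight F X

theorem ad2_apply (X A : N2 F) : ad2 X A = X * A - A * X := rfl

theorem sl_mul_kp (i : ι) (X : N2 F) (g : ι → N2 F) :
    sl i X * kp g = kp (update g i (X * g i)) := by
  rw [sl, ← kp_mul]
  congr 1
  funext j
  by_cases hj : j = i
  · subst hj
    simp
  · simp [Pi.mulSingle_eq_of_ne hj, update_of_ne hj]

theorem kp_mul_sl (i : ι) (X : N2 F) (g : ι → N2 F) :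
    kp g * sl i X = kp (update g i (g i * X)) := by
  rw [sl, ← kp_mul]
  congr 1
  funext j
  by_cases hj : j = i
  · subst hj
    simp
  · simp [Pi.mulSingle_eq_of_ne hj, update_of_ne hj]

theorem so_ad (i : ι) (X : N2 F) (A : TM ι F) : so i (ad2 X) A = sl i X * A - A * sl i X := by
  have : so i (ad2 X) = LinearMap.mulLeft F (sl i X) - LinearMap.mulRight F (sl i X) := by
    refine kp_ext fun g => ?_
    rw [so_kp, LinearMap.sub_apply, LinearMap.mulLeft_apply, LinearMap.mulRight_apply, sl_mul_kp,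
      kp_mul_sl]
    ext x y
    simp only [Matrix.sub_apply, kp_update, ad2_apply, sub_mul]
  rw [this]
  rfl

theorem so_comp (i : ι) (φ ψ : N2 F →ₗ[F] N2 F) : so i (φ ∘ₗ ψ) = so i φ ∘ₗ so i ψ := by
  refine kp_ext fun g => ?_
  simp only [LinearMap.comp_apply, so_kp, update_self, update_idem]

theorem so_id (i : ι) : so i (LinearMap.id : N2 F →ₗ[F] N2 F) = LinearMap.id := by
  refine kp_ext fun g => ?_
  simp only [so_kp, LinearMap.id_apply, update_eq_self]

/-- stable under the bracket with the traceless matrices of every slot -/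
def Stable (N : Submodule F (TM ι F)) : Prop :=
  ∀ (i : ι) (X : N2 F), X.trace = 0 → ∀ A ∈ N, sl i X * A - A * sl i X ∈ N

/-- the operators in one slot that preserve a subspace -/
def pres (N : Submodule F (TM ι F)) (i : ι) : Submodule F (N2 F →ₗ[F] N2 F) where
  carrier := {φ | ∀ A ∈ N, so i φ A ∈ N}
  zero_mem' A _ := N.zero_mem
  add_mem' {φ ψ} hφ hψ A hA := N.add_mem (hφ A hA) (hψ A hA)
  smul_mem' c φ hφ A hA := N.smul_mem c (hφ A hA)

theorem pres_comp {N : Submodule F (TM ι F)} {i : ι} {φ ψ : N2 F →ₗ[F] N2 F}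
    (h : φ ∈ pres N i) (h' : ψ ∈ pres N i) : φ ∘ₗ ψ ∈ pres N i := fun A hA => by
  rw [so_comp]
  exact h _ (h' A hA)

theorem pres_id (N : Submodule F (TM ι F)) (i : ι) : LinearMap.id ∈ pres N i := fun A hA => by
  rw [so_id]
  exact hA

theorem Stable.ad {N : Submodule F (TM ι F)} (h : Stable N) (i : ι) {X : N2 F}
    (hX : X.trace = 0) : ad2 X ∈ pres N i := fun A hA => by
  rw [so_ad]
  exact h i X hX A hA

theorem pres_all {N : Submodule F (TM ι F)} {φ : ι → N2 F →ₗ[F] N2 F}
    (h : ∀ i, φ i ∈ pres N i) : ∃ T : TM ι F →ₗ[F] TM ι F, (∀ A ∈ N, T A ∈ N) ∧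
      ∀ g : ι → N2 F, T (kp g) = kp fun i => φ i (g i) := by
  have key : ∀ s : Finset ι, ∃ T : TM ι F →ₗ[F] TM ι F, (∀ A ∈ N, T A ∈ N) ∧
      ∀ g : ι → N2 F, T (kp g) = kp fun i => if i ∈ s then φ i (g i) else g i := by
    intro s
    induction s using Finset.induction_on with
    | empty => exact ⟨LinearMap.id, fun A hA => hA, fun g => by simp⟩
    | insert k s hk ih =>
      obtain ⟨T, h1, h2⟩ := ih
      refine ⟨so k (φ k) ∘ₗ T, fun A hA => h k _ (h1 A hA), fun g => ?_⟩
      rw [LinearMap.comp_apply, h2, so_kp]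
      congr 1
      funext j
      by_cases hj : j = k
      · subst hj
        simp [hk]
      · simp [update_of_ne hj, hj]
  simpa using key Finset.univ

/-- the operator `A ↦ tr (A y) x` -/
def rk (x y : N2 F) : N2 F →ₗ[F] N2 F :=
  ((Matrix.traceLinearMap (Fin 2) F F) ∘ₗ LinearMap.mulRight F y).smulRight x

theorem rk_apply (x y A : N2 F) : rk x y A = (A * y).trace • x := rfl

/-- a basis of the matrices of size two -/
def pb (F : Type*) [Field F] : Fin 4 → N2 F :=
  ![1, !![0, 1; 0, 0], !![0, 0; 1, 0], !![1, 0; 0, -1]]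

/-- the dual basis up to scalars -/
def qb (F : Type*) [Field F] : Fin 4 → N2 F :=
  ![1, !![0, 0; 1, 0], !![0, 1; 0, 0], !![1, 0; 0, -1]]

variable [CharZero F]

theorem Stable.one {N : Submodule F (TM ι F)} (h : Stable N) (i : ι) :
    rk (1 : N2 F) 1 ∈ pres N i := by
  have t1 : (pb F 1).trace = 0 := by simp [pb, trace_fin_two]
  have t2 : (pb F 2).trace = 0 := by simp [pb, trace_fin_two]
  have t3 : (pb F 3).trace = 0 := by simp [pb, trace_fin_two]
  have e : rk (1 : N2 F) 1 = (2 : F) • LinearMap.id - (2 : F)⁻¹ •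
      (ad2 (pb F 1) ∘ₗ ad2 (pb F 2) + ad2 (pb F 2) ∘ₗ ad2 (pb F 1) +
        (2 : F)⁻¹ • ad2 (pb F 3) ∘ₗ ad2 (pb F 3)) := by
    refine LinearMap.ext fun A => ?_
    ext a b
    fin_cases a <;> fin_cases b <;>
      simp [rk_apply, ad2_apply, pb, trace_fin_two, mul_apply, Fin.sum_univ_two, vecMul,
        dotProduct] <;> ring
  rw [e]
  exact Submodule.sub_mem _ (Submodule.smul_mem _ _ (pres_id N i)) (Submodule.smul_mem _ _
    (Submodule.add_mem _ (Submodule.add_mem _ (pres_comp (h.ad i t1) (h.ad i t2))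
      (pres_comp (h.ad i t2) (h.ad i t1)))
      (Submodule.smul_mem _ _ (pres_comp (h.ad i t3) (h.ad i t3)))))

theorem Stable.rk {N : Submodule F (TM ι F)} (h : Stable N) (i : ι) {x y : N2 F}
    (hx : x.trace = 0) (hy : y.trace = 0) : rk x y ∈ pres N i := by
  have e : UM.rk x y = (x * y).trace • (LinearMap.id - (2 : F)⁻¹ • UM.rk (1 : N2 F) 1) -
      (2 : F)⁻¹ • ad2 y ∘ₗ ad2 x := by
    have hx' : x 1 1 = -x 0 0 := by
      rw [trace_fin_two] at hx
      linear_combination hx
    have hy' : y 1 1 = -y 0 0 := by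
      rw [trace_fin_two] at hy
      linear_combination hy
    refine LinearMap.ext fun A => ?_
    ext a b
    fin_cases a <;> fin_cases b <;>
      simp [rk_apply, ad2_apply, trace_fin_two, mul_apply, Fin.sum_univ_two, hx', hy'] <;> ring
  rw [e]
  exact Submodule.sub_mem _ (Submodule.smul_mem _ _ (Submodule.sub_mem _ (pres_id N i)
    (Submodule.smul_mem _ _ (h.one i))))
    (Submodule.smul_mem _ _ (pres_comp (h.ad i hy) (h.ad i hx)))

/-- traceless in the slots of `I`, the identity in the others -/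
def Ty (I : Finset ι) (x : ι → N2 F) : Prop :=
  ∀ i, (i ∈ I → (x i).trace = 0) ∧ (i ∉ I → x i = 1)

/-- the part of type `I` -/
def P (F : Type*) [Field F] (I : Finset ι) : Submodule F (TM ι F) :=
  Submodule.span F (kp '' {x : ι → N2 F | Ty I x})

omit [DecidableEq ι] [CharZero F] in
theorem kp_mem_P {I : Finset ι} {x : ι → N2 F} (h : Ty I x) : kp x ∈ P F I :=
  Submodule.subset_span ⟨x, h, rfl⟩

/-- irreducibility of the parts -/
theorem Stable.P_le {N : Submodule F (TM ι F)} (h : Stable N) {A : TM ι F} (hA : A ∈ N)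
    {I : Finset ι} {y : ι → N2 F} (hy : Ty I y) (h0 : (A * kp y).trace ≠ 0) : P F I ≤ N := by
  rw [P, Submodule.span_le]
  rintro _ ⟨x, hx, rfl⟩
  obtain ⟨T, h1, h2⟩ := pres_all (N := N) (φ := fun i => UM.rk (x i) (y i)) fun i => by
    by_cases hi : i ∈ I
    · exact h.rk i ((hx i).1 hi) ((hy i).1 hi)
    · rw [(hx i).2 hi, (hy i).2 hi]
      exact h.one i
  have e : T = ((Matrix.traceLinearMap (ι → Fin 2) F F) ∘ₗ
      LinearMap.mulRight F (kp y)).smulRight (kp x) := by
    refine kp_ext fun g => ?_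
    rw [h2]
    simp only [rk_apply, kp_smul, LinearMap.smulRight_apply, LinearMap.comp_apply,
      LinearMap.mulRight_apply, Matrix.traceLinearMap_apply, ← kp_mul, kp_trace]
  have := h1 A hA
  rw [e] at this
  exact (N.smul_mem_iff h0).1 this

/-- the support of a word -/
def supp (a : ι → Fin 4) : Finset ι := Finset.univ.filter fun i => a i ≠ 0

omit [DecidableEq ι] [CharZero F] in
theorem ty_pb (a : ι → Fin 4) : Ty (supp a) fun i => pb F (a i) := by
  intro i
  simp only [supp, Finset.mem_filter, Finset.mem_univ, true_and, not_not]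
  generalize a i = c
  fin_cases c <;> simp [pb, trace_fin_two]

omit [DecidableEq ι] [CharZero F] in
theorem ty_qb (a : ι → Fin 4) : Ty (supp a) fun i => qb F (a i) := by
  intro i
  simp only [supp, Finset.mem_filter, Finset.mem_univ, true_and, not_not]
  generalize a i = c
  fin_cases c <;> simp [qb, trace_fin_two]

/-- expansion in the basis of words -/
theorem expand : ∃ w : (ι → Fin 4) → F, ∀ A : TM ι F, A = ∑ a : ι → Fin 4,
    (w a * (A * kp fun i => qb F (a i)).trace) • kp fun i => pb F (a i) := by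
  let v : Fin 4 → F := ![2⁻¹, 1, 1, 2⁻¹]
  have e2 : ∀ g : N2 F, g = ∑ c : Fin 4, (v c * (g * qb F c).trace) • pb F c := by
    intro g
    ext a b
    fin_cases a <;> fin_cases b <;>
      simp [v, pb, qb, Fin.sum_univ_four, trace_fin_two, mul_apply, Fin.sum_univ_two] <;> ring
  refine ⟨fun a => ∏ i, v (a i), fun A => ?_⟩
  have e : (LinearMap.id : TM ι F →ₗ[F] TM ι F) = ∑ a : ι → Fin 4, (∏ i, v (a i)) •
      ((Matrix.traceLinearMap (ι → Fin 2) F F) ∘ₗ
        LinearMap.mulRight F (kp fun i => qb F (a i))).smulRight (kp fun i => pb F (a i)) := by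
    refine kp_ext fun g => ?_
    simp only [LinearMap.id_apply, LinearMap.sum_apply, LinearMap.smul_apply,
      LinearMap.smulRight_apply, LinearMap.comp_apply, LinearMap.mulRight_apply,
      Matrix.traceLinearMap_apply, ← kp_mul, kp_trace, smul_smul, ← Finset.prod_mul_distrib,
      ← kp_smul]
    ext x y
    rw [Matrix.sum_apply]
    simp only [kp_apply]
    rw [← Fintype.piFinset_univ, ← Finset.prod_univ_sum (fun _ => Finset.univ)
      fun i c => ((v c * (g i * qb F c).trace) • pb F c) (x i) (y i)]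
    refine Finset.prod_congr rfl fun i _ => ?_
    rw [← Matrix.sum_apply, ← e2]
  have := LinearMap.congr_fun e A
  simpa only [LinearMap.id_apply, LinearMap.sum_apply, LinearMap.smul_apply,
    LinearMap.smulRight_apply, LinearMap.comp_apply, LinearMap.mulRight_apply,
    Matrix.traceLinearMap_apply, smul_smul] using this

/-- a stable subspace is the sum of the parts it contains -/
theorem Stable.le_of {N N' : Submodule F (TM ι F)} (h : Stable N)
    (h' : ∀ I : Finset ι, P F I ≤ N → P F I ≤ N') : N ≤ N' := by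
  intro A hA
  obtain ⟨w, hw⟩ := expand (ι := ι) (F := F)
  rw [hw A]
  refine N'.sum_mem fun a _ => ?_
  by_cases h0 : (A * kp fun i => qb F (a i)).trace = 0
  · rw [h0, mul_zero, zero_smul]
    exact N'.zero_mem
  · exact N'.smul_mem _ (h' _ (h.P_le hA (ty_qb a) h0) (kp_mem_P (ty_pb a)))

theorem Stable.eq_iSup {N : Submodule F (TM ι F)} (h : Stable N) :
    N = ⨆ (I : Finset ι) (_ : P F I ≤ N), P F I :=
  le_antisymm (h.le_of fun I hI => le_iSup₂_of_le (f := fun I (_ : P F I ≤ N) => P F I) I hI le_rfl)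
    (iSup₂_le fun _ hI => hI)

end Pool.Agent.MT.UM
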