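import Pool.Agent.Lib.MP_d61fbb_ag.MT.UM2

/-! Subalgebras that contain the traceless matrices of all slots: blocks. -/

set_option autoImplicit false

open Matrix Function

namespace Pool.Agent.MT.UM

variable {ι F : Type*} [Fintype ι] [DecidableEq ι] [Field F] [CharZero F]

/-- two slots that occur in one part -/
def Blk (N : Submodule F (TM ι F)) (i j : ι) : Prop := ∃ I : Finset ι, P F I ≤ N ∧ i ∈ I ∧ j ∈ I

variable {N : Submodule F (TM ι F)}

theorem sub_part (hs : Stable N) (h : Br N N N) {I S : Finset ι} (hI : P F I ≤ N) (hS : S ⊆ I)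
    (ho : Odd S.card) : P F S ≤ N := hs.br (h.mono hI hI) hS hS ho fun i => by simp

theorem blk_three (hs : Stable N) (h : Br N N N) {i j k : ι} (h1 : Blk N i j) (h2 : Blk N j k) :
    ∃ K : Finset ι, P F K ≤ N ∧ ((i ∈ K ∧ j ∈ K) ∧ k ∈ K) := by
  obtain ⟨I, hI, a1, a2⟩ := h1
  obtain ⟨J, hJ, b1, b2⟩ := h2
  by_cases c1 : k ∈ I
  · exact ⟨I, hI, ⟨a1, a2⟩, c1⟩
  by_cases c2 : i ∈ J
  · exact ⟨J, hJ, ⟨c2, b1⟩, b2⟩
  refine ⟨Finset.univ.filter fun x => x ∈ ({j} : Finset ι) ∨ (x ∈ I ∧ x ∉ J) ∨ (x ∉ I ∧ x ∈ J),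
    hs.br (S := {j}) (h.mono hI hJ) (by simpa using a2) (by simpa using b1) (by simp)
      fun x => by simp, ?_⟩
  simp [a1, b2, c1, c2]

omit [CharZero F] in
theorem blk_refl (hh : hT ι F ≤ N) (i : ι) : Blk N i i :=
  ⟨{i}, (le_iSup (fun i => P F {i}) i).trans hh, by simp, by simp⟩

omit [DecidableEq ι] [CharZero F] in
theorem Blk.symm {i j : ι} (h : Blk N i j) : Blk N j i := by
  obtain ⟨I, hI, a, b⟩ := h
  exact ⟨I, hI, b, a⟩

theorem Blk.trans (hs : Stable N) (h : Br N N N) {i j k : ι} (h1 : Blk N i j) (h2 : Blk N j k) :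
    Blk N i k := by
  obtain ⟨K, hK, ⟨a, -⟩, b⟩ := blk_three hs h h1 h2
  exact ⟨K, hK, a, b⟩

/-- the parts of a subalgebra are the odd subsets of the blocks -/
theorem part_of_blk (hh : hT ι F ≤ N) (h : Br N N N) (m : ℕ) : ∀ T : Finset ι,
    T.card = 2 * m + 1 → (∀ i ∈ T, ∀ j ∈ T, Blk N i j) → P F T ≤ N := by
  have hs := h.stable hh
  induction m with
  | zero =>
    intro T hT _
    obtain ⟨i, rfl⟩ := Finset.card_eq_one.1 hT
    exact (le_iSup (fun i => P F {i}) i).trans hh
  | succ m ih =>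
    intro T hT hb
    obtain ⟨S, hS, h3⟩ := Finset.exists_subset_card_eq (s := T) (n := 3) (by omega)
    obtain ⟨a, b, c, ab, ac, bc, rfl⟩ := Finset.card_eq_three.1 h3
    have ha : a ∈ T := hS (by simp)
    have hb' : b ∈ T := hS (by simp)
    have hc : c ∈ T := hS (by simp)
    obtain ⟨K, hK, ⟨k1, k2⟩, k3⟩ := blk_three hs h (hb a ha b hb') (hb b hb' c hc)
    have p3 : P F {a, b, c} ≤ N := sub_part hs h hK
      (by simp [Finset.insert_subset_iff, k1, k2, k3]) (by rw [h3]; decide)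
    have p1 : P F ((T.erase a).erase b) ≤ N := ih _ (by
      rw [Finset.card_erase_of_mem (by simp [hb', ab.symm]), Finset.card_erase_of_mem ha, hT]
      omega) fun i hi j hj => hb i (Finset.mem_of_mem_erase (Finset.mem_of_mem_erase hi)) j
        (Finset.mem_of_mem_erase (Finset.mem_of_mem_erase hj))
    refine hs.br (S := {c}) (h.mono p1 p3) (by simp [hc, ac.symm, bc.symm]) (by simp) (by simp)
      fun x => ?_
    simp only [Finset.mem_singleton, Finset.mem_erase, Finset.mem_insert]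
    grind

theorem part_iff (hh : hT ι F ≤ N) (hN : N ≤ spT ι F) (h : Br N N N) (T : Finset ι) :
    P F T ≤ N ↔ Odd T.card ∧ ∀ i ∈ T, ∀ j ∈ T, Blk N i j :=
  ⟨fun k => ⟨odd_of_le (k.trans hN), fun _ hi _ hj => ⟨T, k, hi, hj⟩⟩,
    fun ⟨⟨m, hm⟩, k⟩ => part_of_blk hh h m T hm k⟩

/-- maximality for a prime number of slots and a transitive group of symmetries -/
theorem max_prime {G : Type*} [Group G] [MulAction G ι] [MulAction.IsPretransitive G ι]
    (hp : (Nat.card ι).Prime) (hh : hT ι F ≤ N) (hN : N ≤ spT ι F) (h : Br N N N)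
    (hG : ∀ (g : G) (i j : ι), Blk N i j → Blk N (g • i) (g • j)) :
    N = hT ι F ∨ N = spT ι F := by
  have hs := h.stable hh
  have := MulAction.IsPreprimitive.of_prime_card (G := G) hp
  by_cases k : ∀ i j, Blk N i j → i = j
  · refine .inl (le_antisymm (hs.le_of fun I hI => ?_) hh)
    obtain ⟨i, hi⟩ := Finset.card_pos.1 (odd_of_le (hI.trans hN)).pos
    rw [show I = {i} from Finset.eq_singleton_iff_unique_mem.2
      ⟨hi, fun j hj => k j i ⟨I, hI, hj, hi⟩⟩]
    exact le_iSup (fun i => P F {i}) i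
  push Not at k
  obtain ⟨i, j, hij, hne⟩ := k
  have hB : MulAction.IsBlock G {x | Blk N i x} := by
    rw [MulAction.isBlock_iff_smul_eq_of_mem]
    intro g a ha hga
    ext x
    rw [Set.mem_smul_set_iff_inv_smul_mem]
    have e : Blk N (g • i) i := (hG g i a ha).trans hs h (Blk.symm hga)
    constructor
    · intro hx
      have := hG g _ _ hx
      rw [smul_inv_smul] at this
      exact e.symm.trans hs h this
    · intro hx
      have := hG g⁻¹ _ _ (e.trans hs h hx)
      rwa [inv_smul_smul] at this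
  rcases MulAction.IsPreprimitive.isTrivialBlock_of_isBlock hB with t | t
  · exact (hne (t (blk_refl hh i) hij)).elim
  · have all : ∀ x, Blk N i x := fun x => (t ▸ Set.mem_univ x : x ∈ {x | Blk N i x})
    exact .inr (le_antisymm hN (spT_le fun T hT => (part_iff hh hN h T).2
      ⟨hT, fun a _ b _ => (all a).symm.trans hs h (all b)⟩))

end Pool.Agent.MT.UM
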