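import Pool.Agent.Lib.MP_d61fbb_ag.MT.G0a
import Pool.Agent.Lib.MP_d61fbb_ag.MT.GU1
import Pool.Agent.Lib.MP_0d42ed_ag.WT.B1

/-! The norm polynomial of a multivalued function with finitely many branches. -/

set_option autoImplicit false

noncomputable section

namespace Pool.Agent.MT.U

open Polynomial Filter Topology Set Metric

theorem un_bound (m : Multiset ℂ) {A : ℝ} (hA : 0 ≤ A) (h : ∀ a ∈ m, ‖a‖ ≤ A) (k : ℕ) :
    ‖(m.map fun a => X - C a).prod.coeff k‖ ≤ (1 + A) ^ m.card := by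
  induction m using Multiset.induction_on generalizing k with
  | empty =>
    simp only [Multiset.map_zero, Multiset.prod_zero, coeff_one, Multiset.card_zero, pow_zero]
    split_ifs <;> simp
  | cons a m ih =>
    have ih' := ih fun b hb => h b (Multiset.mem_cons_of_mem hb)
    have ha := h a (Multiset.mem_cons_self a m)
    have hp : (0 : ℝ) ≤ (1 + A) ^ m.card := by positivity
    rw [Multiset.map_cons, Multiset.prod_cons, Multiset.card_cons, sub_mul, coeff_sub, coeff_C_mul,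
      pow_succ]
    refine (norm_sub_le _ _).trans ?_
    have h1 : ‖(X * (m.map fun a => X - C a).prod).coeff k‖ ≤ (1 + A) ^ m.card := by
      rcases k with _ | k
      · simpa using hp
      · rw [coeff_X_mul]; exact ih' k
    have h2 := mul_le_mul ha (ih' k) (norm_nonneg _) hA
    rw [norm_mul]
    linarith

theorem un_diff {E I : Type} [NormedAddCommGroup E] [NormedSpace ℂ E] {W : Set E} (s : Finset I)
    (f : I → E → ℂ) (h : ∀ i ∈ s, DifferentiableOn ℂ (f i) W) (k : ℕ) :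
    DifferentiableOn ℂ (fun u => (∏ i ∈ s, (X - C (f i u))).coeff k) W := by
  classical
  induction s using Finset.induction_on generalizing k with
  | empty => simp only [Finset.prod_empty]; exact differentiableOn_const _
  | insert a s ha ih =>
    have ih' := ih fun b hb => h b (Finset.mem_insert_of_mem hb)
    simp only [Finset.prod_insert ha, sub_mul, coeff_sub, coeff_C_mul]
    refine DifferentiableOn.sub ?_ ((h a (Finset.mem_insert_self a s)).mul (ih' k))
    rcases k with _ | k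
    · simp only [coeff_X_mul_zero]; exact differentiableOn_const _
    · simp only [coeff_X_mul]; exact ih' k

variable {D : Type} [Fintype D]

/-- A multiset of values that is locally given by holomorphic functions of polynomial growth is
the zero set of a polynomial. -/
theorem un_multi (Del Lam : MvPolynomial D ℂ) (M : (D → ℂ) → Multiset ℂ)
    (loc : ∀ u0, MvPolynomial.eval u0 Del ≠ 0 → ∃ (W : Set (D → ℂ)) (I : Type) (s : Finset I)
      (f : I → (D → ℂ) → ℂ), W ∈ 𝓝 u0 ∧ (∀ i ∈ s, DifferentiableOn ℂ (f i) W) ∧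
        ∀ u ∈ W, M u = s.val.map fun i => f i u)
    (hL : ∀ u, MvPolynomial.eval u Del ≠ 0 → MvPolynomial.eval u Lam ≠ 0) {c : ℝ} {N : ℕ}
    (gr : ∀ u, MvPolynomial.eval u Del ≠ 0 → ∀ a ∈ M u,
      ‖MvPolynomial.eval u Lam * a‖ ≤ c * (1 + ‖u‖) ^ N) :
    ∃ P : (MvPolynomial D ℂ)[X], ∀ u, MvPolynomial.eval u Del ≠ 0 → ∀ a,
      GU.ev P u a = 0 ↔ a ∈ M u := by
  obtain ⟨e, he⟩ := WT.const_of_locally (a := Del) (φ := fun u => (M u).card) fun y hy => by
    obtain ⟨W, I, s, f, hW, -, h⟩ := loc y hy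
    filter_upwards [hW] with z hz
    simp [h z hz, h y (mem_of_mem_nhds hW)]
  let R : (D → ℂ) → ℂ[X] := fun u =>
    (((M u).map fun a => MvPolynomial.eval u Lam * a).map fun a => X - C a).prod
  have hB : ∀ k, ∃ B : MvPolynomial D ℂ, ∀ y, MvPolynomial.eval y Del ≠ 0 →
      (R y).coeff k = MvPolynomial.eval y B := fun k => by
    refine WT.poly_of_growth (b := fun y => (R y).coeff k) (C := (1 + |c|) ^ e) (k := N * e)
      (fun y hy => ?_) fun y hy => ?_
    · obtain ⟨W, I, s, f, hW, hf, h⟩ := loc y hy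
      have d : DifferentiableOn ℂ (fun u : D → ℂ => MvPolynomial.eval u Lam) W := fun u _ =>
        (GU.an_eval (t := fun u => u) (fun i => (ContinuousLinearMap.proj (R := ℂ)
          (φ := fun _ : D => ℂ) i).analyticAt u) Lam).differentiableAt.differentiableWithinAt
      have := ((un_diff s (fun i u => MvPolynomial.eval u Lam * f i u)
        (fun i hi => d.mul (hf i hi)) k).differentiableAt hW).congr_of_eventuallyEq
        (f₁ := fun y => (R y).coeff k) (by
          filter_upwards [hW] with z hz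
          simp only [R, h z hz, Multiset.map_map, Function.comp_def, Finset.prod_eq_multiset_prod])
      exact this.differentiableWithinAt
    · have h1 : (1 : ℝ) ≤ (1 + ‖y‖) ^ N := one_le_pow₀ (by simp)
      refine (un_bound _ (A := |c| * (1 + ‖y‖) ^ N) (by positivity) (fun a ha => ?_) k).trans ?_
      · obtain ⟨b, hb, rfl⟩ := Multiset.mem_map.1 ha
        exact (gr y hy b hb).trans (by gcongr; exact le_abs_self c)
      · rw [Multiset.card_map, he y hy, pow_mul, ← mul_pow]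
        gcongr
        nlinarith [abs_nonneg c]
  choose B hB using hB
  refine ⟨∑ k ∈ Finset.range (e + 1), C (B k * Lam ^ k) * X ^ k, fun u hu a => ?_⟩
  have hd : (R u).natDegree < e + 1 := by
    simp only [R]
    rw [natDegree_multiset_prod_X_sub_C_eq_card, Multiset.card_map, he u hu]
    exact Nat.lt_succ_self e
  have e1 : GU.ev (∑ k ∈ Finset.range (e + 1), C (B k * Lam ^ k) * X ^ k) u a =
      (R u).eval (MvPolynomial.eval u Lam * a) := by
    rw [eval_eq_sum_range' hd, ← GU.evH_apply, map_sum]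
    refine Finset.sum_congr rfl fun k _ => ?_
    rw [GU.evH_apply, GU.ev_mul, GU.ev_C, GU.ev_pow, GU.ev_X, hB k u hu, map_mul, map_pow, mul_pow,
      mul_assoc]
  rw [e1]
  simp only [R, eval_multiset_prod, Multiset.map_map, Function.comp_def, eval_sub, eval_X, eval_C,
    Multiset.prod_eq_zero_iff, Multiset.mem_map, sub_eq_zero, mul_right_inj' (hL u hu)]
  exact ⟨fun ⟨b, hb, h⟩ => h ▸ hb, fun h => ⟨a, h, rfl⟩⟩

/-- The norm polynomial. -/
theorem un_norm (Del Lam : MvPolynomial D ℂ) (Br : ((D → ℂ) → ℂ) → Set (D → ℂ) → Prop)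
    (off : ∀ f W, Br f W → ∀ u ∈ W, MvPolynomial.eval u Del ≠ 0)
    (dif : ∀ f W, Br f W → DifferentiableOn ℂ f W)
    (loc : ∀ u0, MvPolynomial.eval u0 Del ≠ 0 → ∃ r : ℝ, 0 < r ∧ ∃ (n : ℕ)
      (g : Fin n → (D → ℂ) → ℂ), (∀ i, Br (g i) (ball u0 r)) ∧
        ∀ f W u, Br f W → u ∈ W → u ∈ ball u0 r → ∃ i, f =ᶠ[𝓝 u] g i)
    (hL : ∀ u, MvPolynomial.eval u Del ≠ 0 → MvPolynomial.eval u Lam ≠ 0)
    (gr : ∃ (c : ℝ) (N : ℕ), ∀ f W u, Br f W → u ∈ W →
      ‖MvPolynomial.eval u Lam * f u‖ ≤ c * (1 + ‖u‖) ^ N) :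
    ∃ P : (MvPolynomial D ℂ)[X], (∀ f W u, Br f W → u ∈ W → GU.ev P u (f u) = 0) ∧
      ∀ u a, MvPolynomial.eval u Del ≠ 0 → GU.ev P u a = 0 →
        ∃ f W, Br f W ∧ u ∈ W ∧ f u = a := by
  classical
  obtain ⟨c, N, gr⟩ := gr
  let G : ∀ u : D → ℂ, Set (Germ (𝓝 u) ℂ) := fun u => {γ | ∃ f W, Br f W ∧ u ∈ W ∧ γ = ↑f}
  have fin : ∀ u, MvPolynomial.eval u Del ≠ 0 → (G u).Finite := fun u hu => by
    obtain ⟨r, hr, n, g, -, h⟩ := loc u hu
    refine (finite_range fun i => (↑(g i) : Germ (𝓝 u) ℂ)).subset ?_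
    rintro _ ⟨f, W, hf, hW, rfl⟩
    obtain ⟨i, hi⟩ := h f W u hf hW (mem_ball_self hr)
    exact ⟨i, (Germ.coe_eq.2 hi).symm⟩
  let M : (D → ℂ) → Multiset ℂ := fun u =>
    if h : (G u).Finite then h.toFinset.val.map Germ.value else 0
  have mem : ∀ u, MvPolynomial.eval u Del ≠ 0 → ∀ a, a ∈ M u ↔ ∃ f W, Br f W ∧ u ∈ W ∧ f u = a :=
    fun u hu a => by
      simp only [M, dif_pos (fin u hu), Multiset.mem_map, Finset.mem_val, Finite.mem_toFinset]
      exact ⟨fun ⟨_, ⟨f, W, h1, h2, e⟩, h⟩ => ⟨f, W, h1, h2, by subst e; exact h⟩,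
        fun ⟨f, W, h1, h2, h⟩ => ⟨_, ⟨f, W, h1, h2, rfl⟩, h⟩⟩
  refine (un_multi Del Lam M (c := c) (N := N) (fun u0 h0 => ?_) hL fun u hu a ha => ?_).imp
    fun P hP => ⟨fun f W u h1 h2 => (hP u (off f W h1 u h2) _).2 ((mem u (off f W h1 u h2) _).2
      ⟨f, W, h1, h2, rfl⟩), fun u a hu h => (mem u hu a).1 ((hP u hu a).1 h)⟩
  swap
  · obtain ⟨f, W, h1, h2, rfl⟩ := (mem u hu a).1 ha
    exact gr f W u h1 h2
  obtain ⟨r, hr, n, g, hg, h⟩ := loc u0 h0
  have idt : ∀ i j, ∀ u ∈ ball u0 r, ∀ v ∈ ball u0 r, g i =ᶠ[𝓝 u] g j → g i =ᶠ[𝓝 v] g j :=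
    fun i j u hu v hv e => by
      have := Pool.Agent.MT.G.idt_conn isOpen_ball (convex_ball u0 r).isPreconnected subset_rfl
        ((dif _ _ (hg i)).sub (dif _ _ (hg j))) hu hv (e.mono fun w hw => sub_eq_zero.2 hw)
      exact this.mono fun w hw => sub_eq_zero.1 hw
  let s : Finset (Fin n) := Finset.univ.filter fun i => ∀ j, g i =ᶠ[𝓝 u0] g j → i ≤ j
  refine ⟨ball u0 r, Fin n, s, g, ball_mem_nhds u0 hr, fun i _ => dif _ _ (hg i), fun u hu => ?_⟩
  have h0 := mem_ball_self (x := u0) hr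
  have e : G u = ↑(s.image fun i => (↑(g i) : Germ (𝓝 u) ℂ)) := by
    ext γ
    simp only [Finset.coe_image, mem_image, Finset.mem_coe]
    refine ⟨fun ⟨f, W, h1, h2, e⟩ => ?_, fun ⟨i, _, e⟩ => ⟨g i, _, hg i, hu, e.symm⟩⟩
    obtain ⟨i, hi⟩ := h f W u h1 h2 hu
    obtain ⟨j, hj, hm⟩ := (Finset.univ.filter fun j => g i =ᶠ[𝓝 u0] g j).exists_min_image id
      ⟨i, by simp⟩
    simp only [Finset.mem_filter, Finset.mem_univ, true_and, id] at hj hm
    refine ⟨j, Finset.mem_filter.2 ⟨Finset.mem_univ _, fun k hk => hm k (hj.trans hk)⟩, ?_⟩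
    rw [e]
    exact Germ.coe_eq.2 (hi.trans (idt i j u0 h0 u hu hj)).symm
  have hf : (G u).Finite := e ▸ Finset.finite_toSet _
  have e' : hf.toFinset = s.image fun i => (↑(g i) : Germ (𝓝 u) ℂ) :=
    Finset.coe_injective (by rw [Finite.coe_toFinset, e])
  simp only [M, dif_pos hf, e']
  rw [Finset.image_val_of_injOn, Multiset.map_map]
  · rfl
  intro i hi j hj hij
  have := idt i j u hu u0 h0 (Germ.coe_eq.1 hij)
  exact le_antisymm ((Finset.mem_filter.1 hi).2 j this) ((Finset.mem_filter.1 hj).2 i this.symm)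

end Pool.Agent.MT.U
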