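import Pool.Agent.Lib.MP_d61fbb_ag.MT.UD
import Pool.Agent.Lib.MP_d61fbb_ag.MT.UA
import Pool.Agent.Lib.MP_d61fbb_ag.MT.UT
import Pool.Agent.Lib.MP_d61fbb_ag.MT.G6

/-! Stage three: the annihilator of the invariant tensors. -/

set_option autoImplicit false

noncomputable section

namespace Pool.Agent.MT.U

open Matrix G

section inv

variable {g : ℕ} {G₀ : Subgroup (Sp g ℤ)} {κ : Type} [Fintype κ] [DecidableEq κ]

theorem uw_apply (S : Type) [CommRing S] (A : MM g ℤ) (w : (κ → I2 g) → S) (a : κ → I2 g) :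
    (tk κ (A.map (Int.cast : ℤ → S)) *ᵥ w) a = ∑ b, tk κ A a b • w b := by
  simp [mulVec, dotProduct, tk_apply]

theorem uw_map {R R' : Type} [CommRing R] [CommRing R'] (f : R →+ R') {v : (κ → I2 g) → R}
    (h : v ∈ Inv G₀ κ R) : (fun a => f (v a)) ∈ Inv G₀ κ R' := fun γ hγ => by
  funext a
  rw [uw_apply, ← congrFun (h γ hγ) a, uw_apply, map_sum]
  simp only [map_zsmul]

theorem uw_of_map {R R' : Type} [CommRing R] [CommRing R'] (f : R →+ R')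
    (hf : Function.Injective f) {v : (κ → I2 g) → R} (h : (fun a => f (v a)) ∈ Inv G₀ κ R') :
    v ∈ Inv G₀ κ R := fun γ hγ => by
  funext a
  refine hf ?_
  rw [← congrFun (h γ hγ) a, uw_apply, uw_apply, map_sum]
  simp only [map_zsmul]

theorem uw_split (A : Matrix (κ → I2 g) (κ → I2 g) ℝ) (v : (κ → I2 g) → ℂ) :
    cm A *ᵥ v = (fun a => ((A *ᵥ fun b => (v b).re) a : ℂ)) +
      Complex.I • fun a => ((A *ᵥ fun b => (v b).im) a : ℂ) := by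
  funext a
  simp only [mulVec, dotProduct, map_apply, Pi.add_apply, Pi.smul_apply, smul_eq_mul,
    Complex.ofReal_sum, Complex.ofReal_mul, Finset.mul_sum, ← Finset.sum_add_distrib]
  refine Finset.sum_congr rfl fun b _ => ?_
  conv_lhs => rw [← Complex.re_add_im (v b)]
  ring

theorem uw_dp (X : MM g ℝ) : dp κ (cm X) = cm (dp κ X) := (dp_map Complex.ofRealHom X).symm

theorem uw_pow {n R : Type} [Fintype n] [DecidableEq n] [CommRing R] (A : Matrix n n R) (N : ℕ) :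
    tk κ (A ^ N) = tk κ A ^ N := by
  induction N with
  | zero => rw [pow_zero, pow_zero, tk_one]
  | succ N ih => rw [pow_succ, pow_succ, tk_mul, ih]

variable {z : ℕ → EE g} {𝒰 : Ultrafilter ℕ} (C : Cmp z 𝒰)

/-- the complex structures on the set keep the invariant tensors -/
theorem Cmp.uw_keep {w : EE g} (hw : w ∈ C.Y) {v : (κ → I2 g) → ℂ} (hv : v ∈ Inv C.G₀ κ ℂ) :
    dp κ (cm (Jm w)) *ᵥ v ∈ Inv C.G₀ κ ℂ := by
  have key : ∀ u ∈ Inv C.G₀ κ ℝ, (fun a => ((dp κ (Jm w) *ᵥ u) a : ℂ)) ∈ Inv C.G₀ κ ℂ :=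
    fun u hu => uw_map Complex.ofRealHom.toAddMonoidHom (v := dp κ (Jm w) *ᵥ u) fun γ hγ => by
      rw [mulVec_mulVec, tk_dp (g := γ.1.map Int.cast) (Jm_ac (zsp γ) (C.sub w hw).1).symm,
        ← mulVec_mulVec, hu γ hγ]
      exact (C.fixed κ u hu _ (C.stab γ hγ w hw)).trans (C.fixed κ u hu w hw).symm
  rw [uw_dp, uw_split]
  exact add_mem (key _ (uw_map Complex.reLm.toAddMonoidHom hv))
    (Submodule.smul_mem _ _ (key _ (uw_map Complex.imLm.toAddMonoidHom hv)))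

theorem Cmp.uw_fixed {w : EE g} (hw : w ∈ C.Y) {v : (κ → I2 g) → ℂ} (hv : v ∈ Inv C.G₀ κ ℂ) :
    dp κ (cm (Jm w)) *ᵥ v = dp κ (cm (Jm C.z₁)) *ᵥ v := by
  rw [uw_dp, uw_dp, uw_split, uw_split,
    C.fixed κ (fun b => (v b).re) (uw_map Complex.reLm.toAddMonoidHom hv) w hw,
    C.fixed κ (fun b => (v b).im) (uw_map Complex.imLm.toAddMonoidHom hv) w hw]

end inv

theorem uw_sp {w : EE 4} (hw : w ∈ HH 4) : cm (Jm w) ∈ spL ℂ := by
  refine (sp_map Complex.ofRealHom).2 ?_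
  have := congrArg (· * Jm w) (SymplecticGroup.mem_iff'.1 (Jm_mem hw))
  simp only [Matrix.mul_assoc, Jm_sq hw, Matrix.mul_neg, Matrix.mul_one] at this
  change _ + _ = 0
  rw [← this, add_neg_cancel]

variable {G₀ : Subgroup (G.Sp 4 ℤ)} (κ : Type) [Fintype κ] [DecidableEq κ]

theorem inv_span {v : (κ → I2 4) → ℂ} (h : v ∈ Inv G₀ κ ℂ) :
    v ∈ Submodule.span ℂ {w | ∃ u ∈ Inv G₀ κ ℤ, w = fun a => (u a : ℂ)} := by
  refine Submodule.span_le.2 ?_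
    (desc (V := Inv G₀ κ ℂ) (fun α v hv => uw_map α.toAddEquiv.toAddMonoidHom hv) h)
  rintro _ ⟨h1, q, rfl⟩
  obtain ⟨d, hd⟩ := IsLocalization.exist_integer_multiples_of_finite (nonZeroDivisors ℤ) q
  choose u hu using hd
  have d0 : ((d : ℤ) : ℂ) ≠ 0 := Int.cast_ne_zero.2 (nonZeroDivisors.coe_ne_zero d)
  have e : (fun a => (u a : ℂ)) = ((d : ℤ) : ℂ) • fun a => (q a : ℂ) := funext fun a => by
    have := congrArg (Rat.cast : ℚ → ℂ) (hu a)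
    simpa using this
  rw [← inv_smul_smul₀ d0 fun a => (q a : ℂ), ← e]
  refine Submodule.smul_mem _ _ (Submodule.subset_span ⟨u, ?_, rfl⟩)
  refine uw_of_map (Int.castAddHom ℂ) Int.cast_injective ?_
  exact (show (fun a => (u a : ℂ)) ∈ _ from e ▸ Submodule.smul_mem _ _ h1)

theorem inv_neat (h32 : G₀ ≤ G.Gam 4 32) {R : Type} [Field R] [CharZero R] {v : (κ → I2 4) → R}
    (h : ∀ γ ∈ G₀, ∃ n : ℕ, n ≠ 0 ∧ tk κ ((γ ^ n).1.map (Int.cast : ℤ → R)) *ᵥ v = v) :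
    v ∈ Inv G₀ κ R := by
  intro γ hγ
  obtain ⟨n, hn, h1⟩ := h γ hγ
  obtain ⟨Y, hY⟩ := mem_Gam.1 (h32 hγ)
  obtain ⟨Y', hY'⟩ := tk_cong κ hY
  have e : ∀ A : M8 ℤ, tk κ (A.map (Int.cast : ℤ → R)) = (tk κ A).map (↑) := fun A =>
    (tk_map (Int.castRingHom R) A).symm
  rw [e]
  refine neat hn (Y := (8 : ℤ) • Y') (by rw [hY', smul_smul]; rfl) ?_
  rw [← e, ← uw_pow, ← h1]
  congr 2
  exact (map_pow (Int.castRingHom R).mapMatrix γ.1 n).symm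

theorem ann_le : Ann G₀ κ ≤ spL ℂ := fun _ h => h.1

theorem ann_rat : Rat (Ann G₀ κ) := by
  refine fun α X hX => ⟨(sp_map (α : ℂ →+* ℂ)).2 hX.1, fun v hv => ?_⟩
  have := hX.2 _ (uw_map α.symm.toAddEquiv.toAddMonoidHom hv)
  funext a
  have h := congrArg α (congrFun this a)
  rw [show dp κ (X.map α) = (dp κ X).map α from (dp_map (α : ℂ →+* ℂ) X).symm]
  simpa [mulVec, dotProduct] using h

theorem ann_lie : AdSt (Ann G₀ κ) (Ann G₀ κ) := by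
  refine fun X hX Y hY => ⟨sp_ad _ hX.1 _ hY.1, fun v hv => ?_⟩
  rw [dp_lie, sub_mulVec, ← mulVec_mulVec, ← mulVec_mulVec, hX.2 v hv, hY.2 v hv, mulVec_zero,
    mulVec_zero, sub_zero]

theorem ann_conj (h32 : G₀ ≤ G.Gam 4 32) {l : ℕ} [Fact l.Prime] (f : ℤ_[l] →+* ℂ)
    {h h' : M8 ℤ_[l]} (e : h * h' = 1) (hs : GS 1 h) {n : ℕ} (hn : n ≠ 0)
    (H : ∀ γ ∈ G₀, ∀ m : ℕ, ∃ γ₁ ∈ G₀, ∀ a b, (l : ℤ_[l]) ^ m ∣
      (h * (γ ^ n).1.map (Int.cast : ℤ → ℤ_[l]) - γ₁.1.map (Int.cast : ℤ → ℤ_[l]) * h) a b)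
    {X : M8 ℂ} (hX : X ∈ Ann G₀ κ) : h.map f * X * h'.map f ∈ Ann G₀ κ := by
  have e' : h' * h = 1 := mul_eq_one_comm.1 e
  have m1 : h.map f * h'.map f = 1 := by
    rw [← Matrix.map_mul, e, Matrix.map_one _ f.map_zero f.map_one]
  have m2 : h'.map f * h.map f = 1 := mul_eq_one_comm.1 m1
  have key : ∀ u ∈ Inv G₀ κ ℤ, tk κ (h'.map f) *ᵥ (fun a => (u a : ℂ)) ∈ Inv G₀ κ ℂ := by
    intro u hu
    refine inv_neat κ h32 fun γ hγ => ⟨n, hn, ?_⟩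
    have k1 : tk κ (h * (γ ^ n).1.map (Int.cast : ℤ → ℤ_[l]) * h') *ᵥ (fun a => (u a : ℤ_[l])) =
        fun a => (u a : ℤ_[l]) := by
      funext a
      refine PadicInt.ext_of_toZModPow.1 fun m => ?_
      obtain ⟨γ₁, h1, h2⟩ := H γ hγ m
      have h3 : (h * (γ ^ n).1.map (Int.cast : ℤ → ℤ_[l])).map (PadicInt.toZModPow m) =
          (γ₁.1.map (Int.cast : ℤ → ℤ_[l]) * h).map (PadicInt.toZModPow m) := by
        ext a b
        rw [map_apply, map_apply, ← sub_eq_zero, ← map_sub, ← RingHom.mem_ker,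
          PadicInt.ker_toZModPow, Ideal.mem_span_singleton]
        exact h2 a b
      rw [RingHom.map_mulVec, tk_map, Matrix.map_mul, h3, ← Matrix.map_mul, Matrix.mul_assoc, e,
        Matrix.mul_one, ← tk_map, ← RingHom.map_mulVec]
      exact congrArg _ (congrFun (uw_map (Int.castAddHom ℤ_[l]) hu γ₁ h1) a)
    have k2 : tk κ (h.map f * (γ ^ n).1.map (Int.cast : ℤ → ℂ) * h'.map f) *ᵥ
        (fun a => (u a : ℂ)) = fun a => (u a : ℂ) := by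
      funext a
      have := congrArg f (congrFun k1 a)
      rw [RingHom.map_mulVec, tk_map, Matrix.map_mul, Matrix.map_mul, Matrix.map_map] at this
      simpa [Function.comp_def] using this
    conv_rhs => rw [← k2]
    simp only [mulVec_mulVec, ← tk_mul, ← Matrix.mul_assoc, m2, Matrix.one_mul]
  let a : symplecticGroup (Fin 4) ℂ := ⟨h.map f, gs_one_iff.1 (by simpa using hs.map f)⟩
  have ea : (a⁻¹).1 = h'.map f :=
    left_inv_eq_right_inv (congrArg Subtype.val (inv_mul_cancel a)) m1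
  refine ⟨ea ▸ sp_conj a hX.1, fun v hv => ?_⟩
  have k : dp κ (h.map f * X * h'.map f) = tk κ (h.map f) * dp κ X * tk κ (h'.map f) := by
    rw [tk_dp (X' := h.map f * X * h'.map f) (by
      rw [Matrix.mul_assoc (_ * X), m2, Matrix.mul_one]), Matrix.mul_assoc (dp κ _), ← tk_mul, m1, tk_one,
      Matrix.mul_one]
  have k' : Submodule.span ℂ {w | ∃ u ∈ Inv G₀ κ ℤ, w = fun a => (u a : ℂ)} ≤
      (Inv G₀ κ ℂ).comap (mulVecLin (tk κ (h'.map f))) := Submodule.span_le.2 <| by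
    rintro _ ⟨u, hu, rfl⟩
    exact key u hu
  rw [k, ← mulVec_mulVec, ← mulVec_mulVec,
    hX.2 (tk κ (h'.map f) *ᵥ v) (k' (inv_span κ hv)), mulVec_zero]

variable {z : ℕ → EE 4} {𝒰 : Ultrafilter ℕ} (C : Cmp z 𝒰)

theorem Cmp.ann_ne : Ann C.G₀ κ ≠ ⊥ := by
  obtain ⟨w, hw, h⟩ := C.ne
  refine (Submodule.ne_bot_iff _).2 ⟨cm (Jm w) - cm (Jm C.z₁),
    ⟨sub_mem (uw_sp (C.sub w hw).1) (uw_sp (C.sub _ C.mem₁).1), fun v hv => ?_⟩, fun e => h ?_⟩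
  · rw [dp_sub, sub_mulVec, C.uw_fixed hw hv, sub_self]
  · exact Matrix.map_injective Complex.ofReal_injective (sub_eq_zero.1 e)

theorem Cmp.ann_J {w : EE 4} (hw : w ∈ C.Y) {X : M8 ℂ} (hX : X ∈ Ann C.G₀ κ) :
    cm (Jm w) * X - X * cm (Jm w) ∈ Ann C.G₀ κ := by
  refine ⟨sp_ad _ (uw_sp (C.sub w hw).1) _ hX.1, fun v hv => ?_⟩
  rw [dp_lie, sub_mulVec, ← mulVec_mulVec, ← mulVec_mulVec, hX.2 v hv,
    hX.2 _ (C.uw_keep hw hv), mulVec_zero, sub_zero]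

/-- the normaliser in the symplectic Lie algebra -/
def nor (V : Submodule ℂ (M8 ℂ)) : Submodule ℂ (M8 ℂ) where
  carrier := {X | X ∈ spL ℂ ∧ ∀ Y ∈ V, X * Y - Y * X ∈ V}
  add_mem' hx hy := ⟨add_mem hx.1 hy.1, fun Y h => by
    convert add_mem (hx.2 Y h) (hy.2 Y h) using 1; noncomm_ring⟩
  zero_mem' := ⟨zero_mem _, fun Y _ => by simp⟩
  smul_mem' c _ hx := ⟨Submodule.smul_mem _ c hx.1, fun Y h => by
    rw [Matrix.smul_mul, Matrix.mul_smul, ← smul_sub]; exact V.smul_mem c (hx.2 Y h)⟩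

theorem Rat.nor {V : Submodule ℂ (M8 ℂ)} (h : Rat V) : Rat (nor V) := by
  refine fun α X hX => ⟨(sp_map (α : ℂ →+* ℂ)).2 hX.1, fun Y hY => ?_⟩
  have := h α _ (hX.2 _ (h α.symm Y hY))
  have e : (Y.map α.symm).map α = Y := by ext; simp
  rwa [Matrix.map_sub _ (map_sub α), Matrix.map_mul, Matrix.map_mul, e] at this

theorem nor_lie (V : Submodule ℂ (M8 ℂ)) : AdSt (nor V) (nor V) := by
  refine fun X hX Y hY => ⟨sp_ad _ hX.1 _ hY.1, fun Z hZ => ?_⟩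
  convert sub_mem (hX.2 _ (hY.2 Z hZ)) (hY.2 _ (hX.2 Z hZ)) using 1
  noncomm_ring

end Pool.Agent.MT.U
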