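import Pool.Agent.Lib.MP_d61fbb_ag.MT.GT4

/-! Stage three: the adjoint action lies in the group algebra. -/

set_option autoImplicit false

open Matrix

namespace Pool.Agent.MT

variable {n : Type*} [Fintype n] [DecidableEq n]

theorem ux_ad {G : Type*} [Group G] (io : G →* Matrix n n ℤ) (E : Matrix n n ℤ) (hE : E * E = -1)
    (hsp : ∀ γ, (io γ)ᵀ * E * io γ = E) (X : Matrix n n ℚ) (hX : Xᵀ * zq E + zq E * X = 0)
    (hk : ∀ (κ : Type) [Fintype κ] [DecidableEq κ] (v : (κ → n) → ℚ),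
      (∀ γ, tk κ (zq (io γ)) *ᵥ v = v ∨ tk κ (zq (io γ)) *ᵥ v = -v) → dp κ X *ᵥ v = 0) :
    ∃ c : G →₀ ℚ, ∀ Y : Matrix n n ℚ,
      X * Y - Y * X = c.sum fun γ a => a • (zq (io γ) * Y * zq (io γ⁻¹)) := by
  let A : Submodule ℤ (Matrix (Fin 2 → n) (Fin 2 → n) ℤ) :=
    Submodule.span ℤ (Set.range fun γ => tk (Fin 2) (io γ))
  have hA : ∀ γ, ∀ x ∈ A, LinearMap.mulLeft ℤ (tk (Fin 2) (io γ)) x ∈ A := by
    intro γ x hx
    refine Submodule.span_mono ?_ (Submodule.apply_mem_span_image_of_mem_span _ hx)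
    rintro _ ⟨_, ⟨δ, rfl⟩, rfl⟩
    exact ⟨γ * δ, by simp [tk_mul]⟩
  let L : G → A →ₗ[ℤ] A := fun γ => (LinearMap.mulLeft ℤ (tk (Fin 2) (io γ))).restrict (hA γ)
  have hL : ∀ γ, LinearMap.det (L γ) = 1 ∨ LinearMap.det (L γ) = -1 := by
    intro γ
    refine Int.eq_one_or_neg_one_of_mul_eq_one (v := LinearMap.det (L γ⁻¹)) ?_
    rw [← map_mul, ← map_one (LinearMap.det : (A →ₗ[ℤ] A) →* ℤ)]
    congr 1
    ext x : 2
    simp [L, ← Matrix.mul_assoc, ← tk_mul, ← map_mul, tk_one]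
  let b := Module.finBasis ℤ A
  let zL : Matrix (Fin 2 → n) (Fin 2 → n) ℤ →ₗ[ℤ] Matrix (Fin 2 → n) (Fin 2 → n) ℚ :=
    ((Int.castRingHom ℚ).mapMatrix.toAddMonoidHom).toIntLinearMap
  have hz : ∀ x, zL x = zq x := fun x => rfl
  let e : Fin (Module.finrank ℤ A) → Matrix (Fin 2 → n) (Fin 2 → n) ℚ := fun i => zq (b i).1
  have he : LinearIndependent ℚ e := (LinearIndependent.iff_fractionRing ℤ ℚ).1
    (b.linearIndependent.map' (zL ∘ₗ A.subtype) (LinearMap.ker_eq_bot.2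
      ((Matrix.map_injective Int.cast_injective).comp A.injective_subtype)))
  have hb : ∀ x : A, zq x.1 = ∑ k, (b.repr x k : ℚ) • e k := by
    intro x
    conv_lhs => rw [← b.sum_repr x, ← hz]
    simp only [e, AddSubmonoidClass.coe_finsetSum, SetLike.val_smul, ← hz, map_sum, map_smul,
      Int.cast_smul_eq_zsmul]
  have tq : ∀ γ, tk (Fin 2) (zq (io γ)) = zq (tk (Fin 2) (io γ)) :=
    fun γ => (tk_map (Int.castRingHom ℚ) _).symm
  have hp : ∀ γ bb, (tk (Fin (Module.finrank ℤ A) × Fin 2) (zq (io γ)) *ᵥ fun y =>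
      pl e bb (Function.curry y)) =
      ((LinearMap.det (L γ) : ℤ) : ℚ) • fun y => pl e bb (Function.curry y) := by
    intro γ bb
    funext x
    have : (fun i => tk (Fin 2) (zq (io γ)) * e i) =
        fun i => ∑ k, (zq (LinearMap.toMatrix b b (L γ)))ᵀ i k • e k := by
      funext i
      rw [tq, ← zq_mul]
      simpa [LinearMap.toMatrix_apply, L] using hb (L γ (b i))
    rw [tk_curry, pl_mul, this, pl_comb, det_transpose, ← LinearMap.det_toMatrix b]
    rw [show (zq (LinearMap.toMatrix b b (L γ))).det = _ from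
      ((Int.castRingHom ℚ).map_det _).symm]
    rfl
  have h1 : ∀ i, dp (Fin 2) X * e i ∈ Submodule.span ℚ (Set.range e) := pl_lie he X fun bb =>
    hk _ _ fun γ => by rw [hp]; rcases hL γ with h | h <;> simp [h]
  have h2 : dp (Fin 2) X ∈ Submodule.span ℚ (Set.range fun γ => tk (Fin 2) (zq (io γ))) := by
    have h3 : Submodule.span ℚ (Set.range e) ≤
        Submodule.span ℚ (Set.range fun γ => tk (Fin 2) (zq (io γ))) := by
      rw [Submodule.span_le]
      rintro _ ⟨i, rfl⟩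
      refine Submodule.span_le_restrictScalars ℤ ℚ _ (Submodule.span_mono ?_
        (Submodule.apply_mem_span_image_of_mem_span zL (b i).2))
      rintro _ ⟨_, ⟨δ, rfl⟩, rfl⟩
      exact ⟨δ, tq δ⟩
    have := hb ⟨_, Submodule.subset_span ⟨1, rfl⟩⟩
    simp only [map_one, tk_one, zq_one] at this
    rw [← Matrix.mul_one (dp _ X), this, Matrix.mul_sum]
    exact Submodule.sum_mem _ fun k _ => by
      rw [Matrix.mul_smul]; exact Submodule.smul_mem _ _ (h3 (h1 k))
  obtain ⟨c, hc⟩ := Finsupp.mem_span_range_iff_exists_finsupp.1 h2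
  refine ⟨c, fun Y => ?_⟩
  have hEq : zq E * zq E = -1 := by
    rw [← zq_mul, hE, ← zq_one]; ext; simp only [map_apply, Matrix.neg_apply, Int.cast_neg]
  have e1 : zq E * Xᵀ * zq E = X := by
    rw [Matrix.mul_assoc, eq_neg_of_add_eq_zero_left hX, Matrix.mul_neg, ← Matrix.mul_assoc, hEq]
    simp
  have e2 : ∀ γ, zq E * (zq (io γ))ᵀ * zq E = -zq (io γ⁻¹) := by
    intro γ
    have : zq ((io γ)ᵀ * E * io γ * io γ⁻¹) = zq (E * io γ⁻¹) := by rw [hsp]
    rw [Matrix.mul_assoc, ← map_mul, mul_inv_cancel, map_one, Matrix.mul_one, zq_mul, zq_mul] at this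
    rw [Matrix.mul_assoc, show (zq (io γ))ᵀ * zq E = _ from this, ← Matrix.mul_assoc, hEq]
    simp
  have e3 : X * (Y * zq E) + Y * zq E * Xᵀ =
      c.sum fun γ a => a • (zq (io γ) * (Y * zq E) * (zq (io γ))ᵀ) := by
    ext i j
    rw [← dp_two, ← hc]
    simp only [Finsupp.sum, sum_mulVec, smul_mulVec, Finset.sum_apply, Pi.smul_apply, tk_two,
      Matrix.sum_apply, Matrix.smul_apply]
  have e4 := congrArg (fun M => -(M * zq E)) e3
  simp only [Finsupp.sum, Matrix.add_mul, Matrix.sum_mul, Matrix.smul_mul, Matrix.mul_assoc, hEq,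
    ← Finset.sum_neg_distrib, ← smul_neg] at e4
  simp only [← Matrix.mul_assoc (zq E), e1, e2] at e4
  simpa [Finsupp.sum, Matrix.mul_assoc, sub_eq_add_neg, add_comm] using e4

end Pool.Agent.MT
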