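import Pool.Agent.Lib.MP_d61fbb_ag.MT.U0
import Pool.Agent.Lib.MP_d61fbb_ag.MT.G6

/-! Stage three: a component with large monodromy contains a generic point. -/

set_option autoImplicit false

noncomputable section

namespace Pool.Agent.MT.U

open Matrix G

section

variable {E : Type} [NormedAddCommGroup E] [NormedSpace ℝ E] {a b c : Type} {x : E}

/-- matrices with analytic entries -/
def AnM (A : E → Matrix a b ℝ) (x : E) : Prop := ∀ i j, AnalyticAt ℝ (fun w => A w i j) x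

theorem AnM.mul [Fintype b] {A : E → Matrix a b ℝ} {B : E → Matrix b c ℝ} (hA : AnM A x)
    (hB : AnM B x) : AnM (fun w => A w * B w) x := fun i j => by
  simp only [mul_apply]
  exact Finset.analyticAt_fun_sum _ fun k _ => (hA i k).mul (hB k j)

theorem AnM.det [Fintype a] [DecidableEq a] {A : E → Matrix a a ℝ} (hA : AnM A x) :
    AnalyticAt ℝ (fun w => (A w).det) x := by
  simp only [det_apply']
  exact Finset.analyticAt_fun_sum _ fun σ _ =>
    analyticAt_const.mul (Finset.analyticAt_fun_prod _ fun i _ => hA _ _)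

theorem AnM.inv [Fintype a] [DecidableEq a] {A : E → Matrix a a ℝ} (hA : AnM A x)
    (h : (A x).det ≠ 0) : AnM (fun w => (A w)⁻¹) x := fun i j => by
  simp only [inv_def, Ring.inverse_eq_inv, Matrix.smul_apply, smul_eq_mul, adjugate_apply]
  refine (hA.det.inv h).mul (AnM.det fun k l => ?_)
  simp only [updateRow_apply]
  split_ifs
  · exact analyticAt_const
  · exact hA k l

end

variable {g : ℕ}

theorem anM_Jm {x : EE g} (hx : x ∈ HH g) : AnM Jm x := by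
  have hX : AnM Xm x := fun i j =>
    (Complex.reCLM.comp (ContinuousLinearMap.proj (R := ℝ) (φ := fun _ => ℂ) s(i, j))).analyticAt x
  have hY : AnM Ym x := fun i j =>
    (Complex.imCLM.comp (ContinuousLinearMap.proj (R := ℝ) (φ := fun _ => ℂ) s(i, j))).analyticAt x
  have hI := hY.inv (Ym_unit hx).ne_zero
  rintro (i | i) (j | j)
  · exact hI.mul hX i j
  · exact hI i j
  · exact ((hY i j).add ((hX.mul hI).mul hX i j)).neg
  · exact (hX.mul hI i j).neg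

/-- the real extension of a rational functional -/
def rf (φ : MM g ℚ →ₗ[ℚ] ℚ) (A : MM g ℝ) : ℝ := ∑ i, ∑ j, A i j * φ (single i j 1)

theorem rf_map (φ : MM g ℚ →ₗ[ℚ] ℚ) (A : MM g ℝ) (lam : ℝ →ₗ[ℚ] ℚ) :
    lam (rf φ A) = φ (A.map lam) := by
  conv_rhs => rw [matrix_eq_sum_single (A.map lam)]
  simp only [rf, map_sum]
  refine Finset.sum_congr rfl fun i _ => Finset.sum_congr rfl fun j _ => ?_
  rw [mul_comm, ← Rat.smul_def, map_smul, smul_eq_mul, mul_comm, ← smul_eq_mul, ← map_smul,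
    smul_single, smul_eq_mul, mul_one, map_apply]

theorem map_mem_of_span {hh : Submodule ℚ (MM g ℚ)} {A : MM g ℝ}
    (h : A ∈ Submodule.span ℝ (qr '' (hh : Set (MM g ℚ)))) (lam : ℝ →ₗ[ℚ] ℚ) : A.map lam ∈ hh := by
  induction h using Submodule.span_induction generalizing lam with
  | mem _ k =>
    obtain ⟨Y, hY, rfl⟩ := k
    convert hh.smul_mem (lam 1) hY using 1
    ext i j
    show lam (Y i j : ℝ) = lam 1 * Y i j
    rw [mul_comm, ← smul_eq_mul, ← map_smul, Rat.smul_def, mul_one]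
  | zero => rw [Matrix.map_zero _ (map_zero lam)]; exact zero_mem _
  | add X Y _ _ hX hY => rw [Matrix.map_add _ (map_add lam)]; exact add_mem (hX _) (hY _)
  | smul r X _ hX => exact hX (lam ∘ₗ (LinearMap.mulLeft ℚ r))

theorem gen_of_ad {z : ℕ → EE g} {𝒰 : Ultrafilter ℕ} (C : Cmp z 𝒰)
    (had : ∀ X, IsLie (J (Fin g) ℚ) X → ∃ c : C.G₀ →₀ ℚ, ∀ Y : MM g ℚ,
      X * Y - Y * X = c.sum fun γ a => a • (G.zq γ.1.1 * Y * G.zq (γ.1⁻¹).1))
    (hs : ∀ m : Submodule ℚ (MM g ℚ), m ≤ lieSub (J (Fin g) ℚ) → m ≠ ⊥ →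
      (∀ X ∈ lieSub (J (Fin g) ℚ), ∀ Y ∈ m, X * Y - Y * X ∈ m) → m = lieSub (J (Fin g) ℚ)) :
    ∃ w ∈ C.Y, Gen w := by
  by_contra! hc
  have h1 : ∀ w ∈ C.Y, ∃ p : {φ : MM g ℚ →ₗ[ℚ] ℚ // ¬ lieSub (J (Fin g) ℚ) ≤ LinearMap.ker φ},
      rf p.1 (Jm w) = 0 := fun w hw => by
    obtain ⟨hh, a1, a2, ⟨X₀, a3, a4⟩, a5⟩ := not_not.1 (hc w hw)
    obtain ⟨X, b1, Y, b2, b3⟩ : ∃ X ∈ lieSub (J (Fin g) ℚ), ∃ Y ∈ hh, X * Y - Y * X ∉ hh := by
      by_contra! k
      exact a4 ((hs hh a1 a2 k).ge a3)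
    obtain ⟨f, f1, f2⟩ := hh.exists_le_ker_of_notMem b3
    refine ⟨⟨f ∘ₗ (LinearMap.mulRight ℚ Y - LinearMap.mulLeft ℚ Y), fun k => f1 (k b1)⟩,
      (Module.forall_dual_apply_eq_zero_iff ℚ _).1 fun lam => ?_⟩
    have := map_mem_of_span (a5 Y b2) lam
    rw [Matrix.map_sub _ (map_sub lam), map_mul_qr, map_qr_mul] at this
    exact (rf_map _ _ lam).trans (f2 this)
  have : Nonempty _ := ⟨(h1 _ C.mem₁).choose⟩
  have : Countable (MM g ℚ →ₗ[ℚ] ℚ) := Finsupp.Countable.of_moduleFinite (R := ℚ)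
  obtain ⟨e, he⟩ := exists_surjective_nat
    {φ : MM g ℚ →ₗ[ℚ] ℚ // ¬ lieSub (J (Fin g) ℚ) ≤ LinearMap.ker φ}
  obtain ⟨n, hn⟩ := C.baire (fun n w => rf (e n).1 (Jm w))
    (fun n x hx => Finset.analyticAt_fun_sum _ fun i _ => Finset.analyticAt_fun_sum _ fun j _ =>
      (anM_Jm hx i j).mul analyticAt_const) fun w hw => by
      obtain ⟨p, hp⟩ := h1 w hw
      obtain ⟨n, rfl⟩ := he p
      exact ⟨n, hp⟩
  let m : Submodule ℚ (MM g ℚ) :=
    Submodule.span ℚ {A | ∃ w ∈ C.Y, ∃ lam : ℝ →ₗ[ℚ] ℚ, A = (Jm w).map lam}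
  have hm : ∀ γ : C.G₀, ∀ Y ∈ m, G.zq γ.1.1 * Y * G.zq (γ.1⁻¹).1 ∈ m := fun γ Y hY => by
    refine (Submodule.span_le (p := m.comap (LinearMap.mulRight ℚ (G.zq (γ.1⁻¹).1) ∘ₗ
      LinearMap.mulLeft ℚ (G.zq γ.1.1)))).2 ?_ hY
    rintro _ ⟨w, hw, lam, rfl⟩
    refine Submodule.subset_span ⟨_, C.stab _ γ.2 w hw, lam, ?_⟩
    have ez : ∀ A : MM g ℤ, qr (G.zq A) = zm A := fun A => by ext; simp
    have e1 := congrArg (fun A => A.map lam * G.zq (γ.1⁻¹).1) (Jm_ac (zsp γ.1) (C.sub w hw).1)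
    simp only [show (zsp γ.1).1 = qr (G.zq γ.1.1) from (ez _).symm, map_mul_qr, map_qr_mul] at e1
    rw [Matrix.mul_assoc, ← zq_mul, show γ.1.1 * (γ.1⁻¹).1 = 1 from
      congrArg Subtype.val (mul_inv_cancel γ.1), zq_one, Matrix.mul_one, ez] at e1
    exact e1.symm
  refine (e n).2 ((hs m (Submodule.span_le.2 ?_) (fun k => ?_) fun X hX Y hY => ?_).ge.trans
    (Submodule.span_le.2 ?_))
  · rintro _ ⟨w, hw, lam, rfl⟩
    exact (Jm_lie (C.sub w hw).1).map lam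
  · have k1 : ∀ w ∈ C.Y, Jm w = 0 := fun w hw => Matrix.ext fun i j =>
      (Module.forall_dual_apply_eq_zero_iff ℚ _).1 fun lam =>
        congrFun (congrFun ((Submodule.span_eq_bot.1 k) _ ⟨w, hw, lam, rfl⟩) i) j
    obtain ⟨w, hw, k2⟩ := C.ne
    exact k2 ((k1 w hw).trans (k1 _ C.mem₁).symm)
  · obtain ⟨c, hc⟩ := had X hX
    rw [hc]
    exact Submodule.sum_mem _ fun γ _ => m.smul_mem _ (hm γ Y hY)
  · rintro _ ⟨w, hw, lam, rfl⟩
    exact (rf_map _ _ lam).symm.trans (by rw [hn w hw, map_zero])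

end Pool.Agent.MT.U
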