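import Pool.Agent.Lib.MP_d61fbb_ag.MT.UW
import Pool.Agent.Lib.MP_d61fbb_ag.MT.UM
import Pool.Agent.Lib.MP_d61fbb_ag.MT.UX0
import Pool.Agent.Lib.MP_d61fbb_ag.MT.UXg

/-! Stage three: components with large monodromy. -/

set_option autoImplicit false

noncomputable section

namespace Pool.Agent.MT.U

open Matrix G

/-- all invariant tensors are invariants of the symplectic group -/
def Full (G₀ : Subgroup (G.Sp 4 ℤ)) : Prop :=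
  ∀ (κ : Type) [Fintype κ] [DecidableEq κ], Ann G₀ κ = spL ℂ

variable {G₀ : Subgroup (G.Sp 4 ℤ)}

theorem Full.ad (h32 : G₀ ≤ G.Gam 4 32) (h : Full G₀) {X : M8 ℚ} (hX : IsLie (J (Fin 4) ℚ) X) :
    ∃ c : G₀ →₀ ℚ, ∀ Y : M8 ℚ,
      X * Y - Y * X = c.sum fun γ a => a • (G.zq γ.1.1 * Y * G.zq (γ.1⁻¹).1) := by
  have eJ : MT.zq (J (Fin 4) ℤ) = J (Fin 4) ℚ := Matrix.map_J _ (Int.castRingHom ℚ)
  refine ux_ad ((symplecticGroup (Fin 4) ℤ).subtype.comp G₀.subtype) (J (Fin 4) ℤ) (J_squared _ _)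
    (fun γ => SymplecticGroup.mem_iff'.1 γ.1.2) X (eJ ▸ hX) fun κ _ _ v hv => ?_
  have h1 : v ∈ Inv G₀ κ ℚ := inv_neat κ h32 fun γ hγ => ⟨2, two_ne_zero, by
    have e : ((γ ^ 2).1.map (Int.cast : ℤ → ℚ)) = MT.zq γ.1 * MT.zq γ.1 := by
      rw [sq, ← zq_mul]
      rfl
    rw [e, tk_mul, ← mulVec_mulVec]
    rcases hv ⟨γ, hγ⟩ with k | k
    · exact (congrArg _ k).trans k
    · exact (congrArg _ k).trans (by rw [mulVec_neg]; exact neg_eq_iff_eq_neg.2 k)⟩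
  have h2 : X.map (Rat.castHom ℂ) ∈ Ann G₀ κ := h κ ▸ (sp_map _).2 hX
  have h3 := h2.2 (Rat.castHom ℂ ∘ v) fun γ hγ => funext fun a => by
    have := congrArg (Rat.castHom ℂ) (congrFun (h1 γ hγ) a)
    rw [RingHom.map_mulVec, tk_map, Matrix.map_map] at this
    simpa [Function.comp_def] using this
  funext a
  have := congrFun h3 a
  rw [← dp_map, ← RingHom.map_mulVec] at this
  simpa using this

theorem ux_pow {g N : ℕ} (hN : 0 < N) (γ : G.Sp g ℤ) : ∃ n, n ≠ 0 ∧ γ ^ n ∈ G.Gam g N := by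
  obtain ⟨R, h1, -, h2⟩ := Gam_fin hN (Set.univ : Set (G.Sp g ℤ))
  choose r hr hr' using fun n : ℕ => h2 (γ ^ n) trivial
  obtain ⟨a, b, ab, e⟩ := Set.Finite.exists_lt_map_eq_of_forall_mem hr h1
  refine ⟨b - a, by omega, ?_⟩
  have := mul_mem (hr' b) (inv_mem (hr' a))
  rwa [e, _root_.mul_inv_rev, inv_inv, mul_assoc, inv_mul_cancel_left, ← pow_sub _ ab.le] at this

theorem Full.inf (h32 : G₀ ≤ G.Gam 4 32) (h : Full G₀) {N : ℕ} (hN : 0 < N) :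
    Full (G₀ ⊓ G.Gam 4 N) := by
  intro κ _ _
  refine le_antisymm (ann_le κ) fun X hX => ⟨hX, fun v hv => ?_⟩
  refine (show X ∈ Ann G₀ κ from h κ ▸ hX).2 v (inv_neat κ h32 fun γ hγ => ?_)
  obtain ⟨n, n0, hn⟩ := ux_pow hN γ
  exact ⟨n, n0, hv _ ⟨pow_mem hγ n, hn⟩⟩

theorem Full.open (h32 : G₀ ≤ G.Gam 4 32) (h : Full G₀) {l : ℕ} (hl : l.Prime) (h2 : l ≠ 2) :
    ∃ n, ∀ m, ∀ γ ∈ G.Gam 4 (32 * l ^ n), ∃ γ₀ ∈ G₀, γ * γ₀⁻¹ ∈ G.Gam 4 (32 * l ^ m) := by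
  have eJ : (J (Fin 4) ℤ).map (Int.castRingHom ℚ) = J (Fin 4) ℚ := Matrix.map_J _ _
  obtain ⟨n, hn⟩ := g6b ((symplecticGroup (Fin 4) ℤ).subtype.comp (G₀ ⊓ G.Gam 4 l).subtype)
    (J (Fin 4) ℤ) (J_transpose _ _) (J_squared _ _) l hl h2
    (fun γ => SymplecticGroup.mem_iff'.1 γ.1.2) (fun γ => mem_Gam.1 γ.2.2) fun X hX =>
      ((h.inf h32 hl.pos).ad (inf_le_left.trans h32) (X := X) (eJ ▸ hX)).imp fun c hc Y _ => hc Y
  refine ⟨n, fun m γ hγ => ?_⟩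
  obtain ⟨δ, g1, -, a2, a3⟩ := hn m γ.1 (SymplecticGroup.mem_iff'.1 γ.2)
    (by exact_mod_cast mem_Gam.1 (Gam_mono (dvd_mul_left _ 32) hγ))
  refine ⟨δ.1, δ.2.1, ?_⟩
  have b1 : (δ.1⁻¹ * γ).1 = g1 := by
    rw [Submonoid.coe_mul, a3, ← Matrix.mul_assoc]
    exact (congrArg (· * g1) (congrArg Subtype.val (inv_mul_cancel δ.1))).trans (Matrix.one_mul _)
  have b2 : δ.1⁻¹ * γ ∈ G.Gam 4 (32 * l ^ m) := Gam_inf
    (Nat.Coprime.pow 5 m ((Nat.coprime_primes Nat.prime_two hl).2 h2.symm))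
    (mul_mem (inv_mem (h32 δ.2.1)) (Gam_mono (dvd_mul_right 32 _) hγ))
    (mem_Gam.2 (by rw [b1]; exact_mod_cast a2))
  simpa [← mul_assoc] using Gam_conj b2 δ.1

theorem Cmp.gen {z : ℕ → EE 4} {𝒰 : Ultrafilter ℕ} (C : Cmp z 𝒰) (h : Full C.G₀) :
    ∃ w ∈ C.Y, G.Gen w :=
  gen_of_ad C (fun _ hX => h.ad C.le hX) fun _ => sp_simple

end Pool.Agent.MT.U
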