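import Pool.Agent.Lib.MP_d61fbb_ag.MT.GU4
import Pool.Agent.Lib.MP_d61fbb_ag.MT.G3
import Pool.Agent.Lib.MP_d61fbb_ag.MT.G4b

/-! Stage three: connected components of a finite covering. -/

set_option autoImplicit false

noncomputable section

namespace Pool.Agent.MT.G

open Filter Topology Set Metric

variable {σ L Γ D : Type} [Fintype σ] [Fintype L] [Group Γ] [Fintype D] {c : Ctx σ L Γ}

namespace Cov

variable (V : Cov c D)

/-- the values of the sections -/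
def Pt (z : σ → ℂ) : Prop := ∃ s W u, V.Sec s W ∧ u ∈ W ∧ s u = z

/-- two values of one section over a ball -/
def Rel (z z' : σ → ℂ) : Prop :=
  ∃ s x r u u', V.Sec s (ball x r) ∧ u ∈ ball x r ∧ u' ∈ ball x r ∧ s u = z ∧ s u' = z'

/-- the connected components -/
def Conn : (σ → ℂ) → (σ → ℂ) → Prop := Relation.ReflTransGen V.Rel

variable {V} {z z' z'' : σ → ℂ}

theorem Conn.refl : V.Conn z z := Relation.ReflTransGen.refl

theorem Conn.trans (h : V.Conn z z') (h' : V.Conn z' z'') : V.Conn z z'' :=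
  Relation.ReflTransGen.trans h h'

theorem Conn.symm (h : V.Conn z z') : V.Conn z' z := by
  induction h with
  | refl => exact .refl
  | tail _ h ih =>
    obtain ⟨s, c, r, u, u', a, b, d, e, f⟩ := h
    exact Relation.ReflTransGen.head ⟨s, c, r, u', u, a, d, b, f, e⟩ ih

theorem Conn.act (h : V.Conn z z') (γ : Γ) : V.Conn (c.a γ z) (c.a γ z') := by
  induction h with
  | refl => exact .refl
  | tail _ h ih =>
    obtain ⟨s, x, r, u, u', a, b, d, rfl, rfl⟩ := h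
    exact Relation.ReflTransGen.tail ih ⟨_, x, r, u, u', V.act γ a, b, d, rfl, rfl⟩

theorem Conn.pt (h : V.Conn z z') (hz : V.Pt z) : V.Pt z' := by
  induction h with
  | refl => exact hz
  | tail _ k _ =>
    obtain ⟨s, c, r, u, u', a, -, b, -, e⟩ := k
    exact ⟨s, _, u', a, b, e⟩

theorem Pt.mem (hz : V.Pt z) : z ∈ c.U ∧ MvPolynomial.eval (V.t z) V.Δ ≠ 0 := by
  obtain ⟨s, W, u, a, b, rfl⟩ := hz
  rw [V.proj a u b]
  exact ⟨V.maps a b, V.off a u b⟩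

theorem Pt.act (hz : V.Pt z) (γ : Γ) : V.Pt (c.a γ z) ∧ V.t (c.a γ z) = V.t z := by
  obtain ⟨s, W, u, a, b, rfl⟩ := hz
  exact ⟨⟨_, W, u, V.act γ a, b, rfl⟩, (V.proj (V.act γ a) u b).trans (V.proj a u b).symm⟩

theorem conn_sec {s : (D → ℂ) → σ → ℂ} {W T : Set (D → ℂ)} (hs : V.Sec s W)
    (hT : IsPreconnected T) (hW : T ⊆ W) {u u' : D → ℂ} (hu : u ∈ T) (hu' : u' ∈ T) :
    V.Conn (s u) (s u') := by
  refine hT.induction₂' (fun x y => V.Conn (s x) (s y)) (fun x hx => ?_)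
    (fun _ _ _ _ _ _ a b => a.trans b) hu hu'
  obtain ⟨r, r0, hr⟩ := Metric.isOpen_iff.1 (V.opn hs) _ (hW hx)
  filter_upwards [mem_nhdsWithin_of_mem_nhds (ball_mem_nhds x r0)] with y hy
  have : V.Conn (s x) (s y) := Relation.ReflTransGen.single
    ⟨s, x, r, x, y, V.mono hs isOpen_ball hr, mem_ball_self r0, hy, rfl, rfl⟩
  exact ⟨this, this.symm⟩

theorem Conn.Z (h : V.Conn z z') {φ : (σ → ℂ) → ℂ} (hφ : DifferentiableOn ℂ φ c.U) :
    V.Z φ z ↔ V.Z φ z' := by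
  induction h with
  | refl => rfl
  | tail _ h ih =>
    obtain ⟨s, x, r, u, u', a, b, d, rfl, rfl⟩ := h
    exact ih.trans (V.Z_conn hφ a (convex_ball x r).isPreconnected subset_rfl b d)

theorem Z.eq {φ : (σ → ℂ) → ℂ} (h : V.Z φ z) (hz : V.Pt z) : φ z = 0 := by
  obtain ⟨s, W, u, a, b, rfl⟩ := hz
  exact (h s W u a b rfl).self_of_nhds

theorem Pt.sec (h : V.Pt z) : ∃ s r, 0 < r ∧ V.Sec s (ball (V.t z) r) ∧ s (V.t z) = z := by
  obtain ⟨s, W, u, a, b, rfl⟩ := h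
  obtain ⟨r, r0, hr⟩ := Metric.isOpen_iff.1 (V.opn a) u b
  rw [V.proj a u b]
  exact ⟨s, r, r0, V.mono a isOpen_ball hr, rfl⟩

/-- a component meets every fibre -/
theorem Pt.reach (hz : V.Pt z) {u : D → ℂ} (hu : MvPolynomial.eval u V.Δ ≠ 0) :
    ∃ w, V.Conn z w ∧ V.t w = u := by
  let P : (D → ℂ) → Prop := fun u => ∃ w, V.Conn z w ∧ V.t w = u
  refine ((conn_off V.Δ).induction₂ (fun x y => P x ↔ P y) (fun x hx => ?_)
    (fun _ _ _ _ _ _ => Iff.trans) (fun _ _ _ _ => Iff.symm) hz.mem.2 hu).1 ⟨z, .refl, rfl⟩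
  obtain ⟨r, hr, n, S, hS, hall⟩ := V.triv x hx
  have aux : ∀ y ∈ ball x r, ∀ y' ∈ ball x r, P y → P y' := by
    rintro _ hy y' hy' ⟨w, h1, rfl⟩
    obtain ⟨s, W, u, a, b, rfl⟩ := h1.pt hz
    rw [V.proj a u b] at hy
    obtain ⟨γ, i, e⟩ := hall s W u a b hy
    exact ⟨_, Relation.ReflTransGen.tail h1 ⟨_, x, r, u, y', V.act γ (hS i), hy, hy', e.symm, rfl⟩,
      V.proj (V.act γ (hS i)) _ hy'⟩
  filter_upwards [mem_nhdsWithin_of_mem_nhds (ball_mem_nhds x hr)] with y hy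
  exact ⟨aux _ (mem_ball_self hr) _ hy, aux _ hy _ (mem_ball_self hr)⟩

/-- the fibres are finite up to the group -/
theorem fib (V : Cov c D) {u : D → ℂ} (hu : MvPolynomial.eval u V.Δ ≠ 0) :
    ∃ (n : ℕ) (p : Fin n → σ → ℂ),
    (∀ i, V.Pt (p i) ∧ V.t (p i) = u) ∧ ∀ w, V.Pt w → V.t w = u → ∃ γ i, w = c.a γ (p i) := by
  obtain ⟨r, hr, n, S, hS, hall⟩ := V.triv u hu
  refine ⟨n, fun i => S i u, fun i => ⟨⟨_, _, u, hS i, mem_ball_self hr, rfl⟩,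
    V.proj (hS i) u (mem_ball_self hr)⟩, ?_⟩
  rintro _ ⟨s, W, v, a, b, rfl⟩ e
  obtain rfl : v = u := (V.proj a v b).symm.trans e
  exact hall s W v a b (mem_ball_self hr)

theorem Conn.stab {γ : Γ} (h : V.Conn z z') (h' : V.Conn z (c.a γ z')) : V.Conn z (c.a γ z) :=
  h'.trans (h.act γ).symm

variable (V) in
theorem fin' : ∃ T : Set (σ → ℂ), T.Finite ∧ (∀ w ∈ T, V.Pt w) ∧
    ∀ z, V.Pt z → ∃ γ, ∃ w ∈ T, V.Conn w (c.a γ z) := by
  obtain ⟨u₀, h₀⟩ : ∃ u₀ : D → ℂ, MvPolynomial.eval u₀ V.Δ ≠ 0 := by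
    by_contra! h
    exact V.Δ_ne (MvPolynomial.funext fun x => by simpa using h x)
  obtain ⟨n, p, h1, h2⟩ := V.fib h₀
  refine ⟨range p, finite_range _, by rintro _ ⟨i, rfl⟩; exact (h1 i).1, fun z hz => ?_⟩
  obtain ⟨w, h3, h4⟩ := hz.reach h₀
  obtain ⟨γ, i, rfl⟩ := h2 w (h3.pt hz) h4
  refine ⟨γ⁻¹, _, ⟨i, rfl⟩, ?_⟩
  have := h3.symm.act γ⁻¹
  rwa [← c.a_mul _ _ _ (h1 i).1.mem.1, inv_mul_cancel, c.a_one _ (h1 i).1.mem.1] at this

theorem exists_mon (hz : V.Pt z) : ∃ G₀ : Subgroup Γ, ∀ γ, γ ∈ G₀ ↔ V.Conn z (c.a γ z) := by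
  have hH := hz.mem.1
  refine ⟨⟨⟨⟨{γ | V.Conn z (c.a γ z)}, fun {x y} hx hy => ?_⟩, ?_⟩, fun {x} hx => ?_⟩,
    fun _ => Iff.rfl⟩
  · change V.Conn _ _
    rw [c.a_mul _ _ _ hH]
    exact Conn.trans hx (Conn.act hy x)
  · change V.Conn _ _
    rw [c.a_one _ hH]
    exact .refl
  · have := Conn.act hx x⁻¹
    rw [← c.a_mul _ _ _ hH, inv_mul_cancel, c.a_one _ hH] at this
    exact this.symm

theorem index (hz : V.Pt z) : ∃ n : ℕ, ∀ w : Fin (n + 1) → σ → ℂ,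
    (∀ a, V.Conn z (w a) ∧ V.t (w a) = V.t z) →
      ∃ a a', a ≠ a' ∧ ∃ γ, V.Conn z (c.a γ z) ∧ w a' = c.a γ (w a) := by
  obtain ⟨n, p, h1, h2⟩ := V.fib hz.mem.2
  refine ⟨n, fun w hw => ?_⟩
  choose γ i e using fun a => h2 (w a) ((hw a).1.pt hz) (hw a).2
  obtain ⟨a, a', h3, h4⟩ := Fintype.exists_ne_map_eq_of_card_lt i (by simp)
  have h5 : w a' = c.a (γ a' * (γ a)⁻¹) (w a) := by
    rw [e a, e a', ← c.a_mul _ _ _ (h1 _).1.mem.1, inv_mul_cancel_right, h4]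
  exact ⟨a, a', h3, _, (hw a).1.stab (h5 ▸ (hw a').1), h5⟩

theorem baire (hz : V.Pt z) (f : ℕ → (σ → ℂ) → ℝ) (hf : ∀ n, AnalyticOnNhd ℝ (f n) c.U)
    (h : ∀ w, V.Conn z w → ∃ n, f n w = 0) : ∃ n, ∀ w, V.Conn z w → f n w = 0 := by
  have an : ∀ {s x r} n, V.Sec s (ball x r) → AnalyticOnNhd ℝ (fun u => f n (s u)) (ball x r) :=
    fun {s x r} n a u hu => (hf n _ (V.maps a hu)).comp
      (analyticAt_pi_iff.2 fun i => (WT.osgood isOpen_ball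
        (differentiableOn_pi.1 (V.diff a) i) u hu).restrictScalars)
  have id : ∀ {s x r} n, V.Sec s (ball x r) → ∀ u ∈ ball x r, ∀ u' ∈ ball x r,
      V.Z (fun w => f n w) (s u) → V.Z (fun w => f n w) (s u') := fun n a u hu u' hu' h0 => by
    rw [V.Z_iff a hu] at h0
    rw [V.Z_iff a hu']
    filter_upwards [isOpen_ball.mem_nhds hu'] with y hy
    exact Complex.ofReal_eq_zero.2 ((an n a).eqOn_zero_of_preconnected_of_eventuallyEq_zero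
      (convex_ball _ _).isPreconnected hu (h0.mono fun y hy => Complex.ofReal_eq_zero.1 hy) hy)
  obtain ⟨s, r, r0, a, e⟩ := hz.sec
  have cs : ∀ y ∈ ball (V.t z) r, V.Conn z (s y) := fun y hy => by
    have := conn_sec a (convex_ball _ _).isPreconnected subset_rfl (mem_ball_self r0) hy
    rwa [e] at this
  have hb : BaireSpace (ball (V.t z) r) := isOpen_ball.baireSpace
  have hn : Nonempty (ball (V.t z) r) := ⟨⟨_, mem_ball_self r0⟩⟩
  obtain ⟨n, y, hy⟩ := nonempty_interior_of_iUnion_of_closed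
    (f := fun n => {y : ball (V.t z) r | f n (s y) = 0})
    (fun n => isClosed_eq (continuousOn_iff_continuous_domRestrict.1 (an n a).continuousOn)
      continuous_const) (eq_univ_of_forall fun y => mem_iUnion.2 (h _ (cs _ y.2)))
  have h1 : V.Z (fun w => f n w) (s y) := by
    rw [V.Z_iff a y.2, ← isOpen_ball.isOpenEmbedding_subtypeVal.map_nhds_eq y]
    exact eventually_map.2 <| mem_of_superset (mem_interior_iff_mem_nhds.1 hy) fun y hy =>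
      Complex.ofReal_eq_zero.2 hy
  have h2 : ∀ w, V.Conn z w → V.Z (fun w => f n w) w := fun w hw => by
    induction hw with
    | refl => exact e ▸ id n a _ y.2 _ (mem_ball_self r0) h1
    | tail _ k ih =>
      obtain ⟨s, x, r, u, u', a, b, d, rfl, rfl⟩ := k
      exact id n a _ b _ d ih
  exact ⟨n, fun w hw => Complex.ofReal_eq_zero.1 ((h2 w hw).eq (hw.pt hz))⟩

end Cov

theorem Eqs.van (e : Eqs c D) {φ : (σ → ℂ) → ℂ} (hφ : φ ∈ c.K)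
    {Q : Polynomial (MvPolynomial D ℂ)} (Q0 : Q ≠ 0) : ∃ g : MvPolynomial D ℂ, g ≠ 0 ∧
      ∀ s W u, e.Sec s W → u ∈ W → (∀ᶠ v in 𝓝 u, GU.ev Q v (φ (s v)) = 0) → φ (s u) = 0 →
        MvPolynomial.eval u g ≠ 0 → ∀ᶠ v in 𝓝 u, φ (s v) = 0 := by
  obtain ⟨R, R0, hR⟩ := GU.strip Q Q0
  refine ⟨_, R0, fun s W u h hu hQ h0 hg => ?_⟩
  obtain ⟨ε, ε0, hε⟩ := GU.root_low _ hg
  have h2 : ∀ᶠ v in 𝓝 u, ‖φ (s v)‖ < ε := Tendsto.eventually (f := fun u => ‖φ (s u)‖)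
    ((c.an hφ (h.maps hu)).continuousAt.comp (h.cont hu)).norm.tendsto
    (gt_mem_nhds (by simpa only [Function.comp, h0, norm_zero] using ε0))
  filter_upwards [hQ, hε, h2] with u a1 a2 a3
  exact (hR u _ a1).resolve_right fun h => (a2 _ h).not_gt a3

theorem Ctx.Gp.act {x : σ → L} {q : Ideal (MvPolynomial L ℂ)} {δ : MvPolynomial L ℂ} {z : σ → ℂ}
    (h : c.Gp x q δ z) (γ : Γ) : c.Gp x q δ (c.a γ z) :=
  ⟨c.a_maps γ h.1, c.chart_a h.1 h.2.1 γ, by rw [c.b_a γ z h.1]; exact h.2.2⟩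

theorem Ctx.exists_comp (c : Ctx σ L Γ) (z : ℕ → σ → ℂ) (𝒰 : Ultrafilter ℕ)
    (h1 : ∀ᶠ j in 𝒰, z j ∈ c.U ∧ MvPolynomial.eval (c.b (z j)) c.χ ≠ 0)
    (h2 : ∀ w, ∀ᶠ j in 𝒰, ∀ γ, c.a γ (z j) ≠ w) :
    ∃ (D : Type) (_ : Fintype D) (_ : Nonempty D) (e : Eqs c D) (z₁ : σ → ℂ) (k : ℕ → Γ),
      e.cov.Pt z₁ ∧ (∀ᶠ j in 𝒰, e.cov.Conn z₁ (c.a (k j) (z j))) ∧
      ∀ φ ∈ c.K, ∀ δ, (∀ᶠ j in 𝒰, φ (c.a δ (c.a (k j) (z j))) = 0) →
        ∀ w, e.cov.Conn z₁ w → φ (c.a δ w) = 0 := by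
  obtain ⟨x, hx⟩ := Ultrafilter.eventually_exists_iff.1 (h1.mono fun j hj => c.chart_ex hj.1)
  let q : Ideal (MvPolynomial L ℂ) :=
    { carrier := {P | ∀ᶠ j in 𝒰, MvPolynomial.eval (c.b (z j)) P = 0}
      add_mem' := fun a b => (a.and b).mono fun j h => by rw [map_add, h.1, h.2, add_zero]
      zero_mem' := Eventually.of_forall fun j => map_zero _
      smul_mem' := fun r _ a => a.mono fun j h => by rw [smul_eq_mul, map_mul, h, mul_zero] }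
  have hq : ∀ P, P ∈ q ↔ ∀ᶠ j in 𝒰, MvPolynomial.eval (c.b (z j)) P = 0 := fun _ => Iff.rfl
  have nq : ∀ P ∉ q, ∀ᶠ j in 𝒰, MvPolynomial.eval (c.b (z j)) P ≠ 0 := fun P h =>
    Ultrafilter.eventually_not.2 h
  have pr : q.IsPrime := ⟨fun h => by simpa using ((hq 1).1 (h ▸ trivial)).exists, fun {a b} h =>
    Ultrafilter.eventually_or.1 (((hq _).1 h).mono fun j hj => by
      rwa [map_mul, mul_eq_zero] at hj)⟩
  obtain ⟨D, _, e, δ₀, k1, k2, k3, k4⟩ := c.exists_eqs x q pr fun h =>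
    let ⟨_, a, b⟩ := (h1.and ((hq _).1 h)).exists; a.2 b
  obtain ⟨s, hs⟩ := IsNoetherian.noetherian q
  have gp : ∀ᶠ j in 𝒰, c.Gp x q δ₀ (z j) := by
    filter_upwards [h1, hx, nq _ k1, (eventually_all_finset s).2 fun P hP =>
      (hq P).1 (hs ▸ Submodule.subset_span hP)] with j a b d f
    exact ⟨a.1, b, fun P hP => (Submodule.span_le (p := RingHom.ker
      (MvPolynomial.eval (c.b (z j))))).2 f (hs.ge hP), d⟩
  have pt : ∀ z, c.Gp x q δ₀ z → e.cov.Pt z := fun z h =>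
    let ⟨s, W, a⟩ := k3 z h; ⟨s, W, _, a⟩
  obtain ⟨T, t1, t2, t3⟩ := e.cov.fin'
  obtain ⟨z₁, t4, t5⟩ := (Ultrafilter.eventually_exists_mem_iff
    (P := fun w j => ∃ γ, e.cov.Conn w (c.a γ (z j))) t1).1 (gp.mono fun j hj =>
      let ⟨γ, w, a, b⟩ := t3 _ (pt _ hj); ⟨w, a, γ, b⟩)
  have : ∀ j, ∃ γ, (∃ γ, e.cov.Conn z₁ (c.a γ (z j))) → e.cov.Conn z₁ (c.a γ (z j)) := fun j =>
    (em _).elim (fun ⟨γ, h⟩ => ⟨γ, fun _ => h⟩) fun h => ⟨1, fun h' => (h h').elim⟩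
  choose k hk using this
  have t6 : ∀ᶠ j in 𝒰, e.cov.Conn z₁ (c.a (k j) (z j)) := t5.mono hk
  refine ⟨D, inferInstance, not_isEmpty_iff.1 fun h0 => ?_, e, z₁, k, t2 _ t4, t6,
    fun φ hφ δ h w hw => ?_⟩
  · obtain ⟨j, a, b⟩ := (t6.and (h2 z₁)).exists
    refine b (k j) ?_
    generalize c.a (k j) (z j) = w at a
    induction a with
    | refl => rfl
    | tail _ h ih =>
      obtain ⟨s, x, r, u, u', -, -, -, rfl, rfl⟩ := h
      rwa [Subsingleton.elim u' u]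
  obtain ⟨Q, Q0, hQ⟩ := k4 φ hφ
  obtain ⟨g, g0, hg⟩ := e.van hφ Q0
  obtain ⟨j, ⟨a1, a2⟩, a3, a4⟩ := ((gp.and t6).and (h.and (nq _ (k2 g g0)))).exists
  have a5 := (a1.act (k j)).act δ
  obtain ⟨s, W, b1, b2, b3⟩ := k3 _ a5
  have b4 := (e.cov.Z_iff (φ := φ) b1 b2).2 (hg s W _ b1 b2 (hQ _ s W a5 b1 b2 b3) (b3.symm ▸ a3) (by
    rw [MvPolynomial.eval_rename, ← c.b_a (k j) _ a1.1, ← c.b_a δ _ (a1.act _).1] at a4
    exact a4))
  rw [b3] at b4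
  exact ((((a2.symm.trans hw).act δ).Z (c.diff φ hφ)).1 b4).eq ((hw.pt (t2 _ t4)).act δ).1

end Pool.Agent.MT.G
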