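import Pool.Agent.Lib.MP_d61fbb_ag.MT.UY1
import Pool.Agent.Lib.MP_d61fbb_ag.MT.UN

/-! Stage three: the Zariski closure of a component. -/

set_option autoImplicit false

noncomputable section

namespace Pool.Agent.MT.G

open Polynomial Filter Topology Set Metric GU

variable {σ L Γ D : Type} [Fintype σ] [Fintype L] [Group Γ] [Fintype D] {c : Ctx σ L Γ}

/-- polynomial growth -/
def PG (f : (D → ℂ) → ℝ) : Prop := ∃ (C : ℝ) (N : ℕ), 0 ≤ C ∧ ∀ u, f u ≤ C * (1 + ‖u‖) ^ N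

theorem PG.add {f g : (D → ℂ) → ℝ} (h : PG f) (h' : PG g) : PG fun u => f u + g u := by
  obtain ⟨C, N, h0, h⟩ := h
  obtain ⟨C', N', h0', h'⟩ := h'
  refine ⟨C + C', N + N', add_nonneg h0 h0', fun u => ?_⟩
  have h1 : 1 ≤ 1 + ‖u‖ := by simp
  rw [add_mul]
  exact add_le_add ((h u).trans (by gcongr; omega)) ((h' u).trans (by gcongr; omega))

theorem PG.sum {ι : Type} (s : Finset ι) {f : ι → (D → ℂ) → ℝ} (h : ∀ i, PG (f i)) :
    PG fun u => ∑ i ∈ s, f i u := by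
  classical
  induction s using Finset.induction_on with
  | empty => exact ⟨0, 0, le_rfl, by simp⟩
  | insert a s ha ih => simpa only [Finset.sum_insert ha] using (h a).add ih

theorem pg_eval (P : MvPolynomial D ℂ) : PG fun u => ‖MvPolynomial.eval u P‖ := by
  induction P using MvPolynomial.induction_on with
  | C k => exact ⟨‖k‖, 0, norm_nonneg _, by simp⟩
  | add p q hp hq =>
    obtain ⟨C, N, h0, h⟩ := hp.add hq
    exact ⟨C, N, h0, fun u => by simp only [map_add]; exact (norm_add_le _ _).trans (h u)⟩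
  | mul_X p i hp =>
    obtain ⟨C, N, h0, h⟩ := hp
    refine ⟨C, N + 1, h0, fun u => ?_⟩
    simp only [map_mul, MvPolynomial.eval_X, norm_mul, pow_succ, ← mul_assoc]
    exact mul_le_mul (h u) ((norm_le_pi_norm u i).trans (by simp)) (norm_nonneg _) (by positivity)

omit [Fintype D] in
theorem root_bd (Q : (MvPolynomial D ℂ)[X]) (u : D → ℂ) {w : ℂ} (h : ev Q u w = 0) :
    ‖MvPolynomial.eval u Q.leadingCoeff‖ * ‖w‖ ≤
      ∑ i ∈ Finset.range (Q.natDegree + 1), ‖MvPolynomial.eval u (Q.coeff i)‖ := by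
  rw [ev, eval₂_eq_sum_range, Finset.sum_range_succ, add_comm, add_eq_zero_iff_eq_neg] at h
  rw [Finset.sum_range_succ, leadingCoeff]
  have h0 := Finset.sum_nonneg (s := Finset.range Q.natDegree)
    fun i _ => norm_nonneg (MvPolynomial.eval u (Q.coeff i))
  rcases le_total ‖w‖ 1 with h1 | h1
  · exact (mul_le_of_le_one_right (norm_nonneg _) h1).trans (le_add_of_nonneg_left h0)
  refine le_trans ?_ (le_add_of_nonneg_right (norm_nonneg _))
  refine le_of_mul_le_mul_right ?_ (show 0 < ‖w‖ ^ Q.natDegree by positivity)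
  rw [mul_right_comm, ← norm_pow, ← norm_mul, h, norm_neg, Finset.sum_mul]
  refine (mul_le_mul_of_nonneg_right (norm_sum_le _ _) (norm_nonneg _)).trans ?_
  rw [Finset.sum_mul]
  refine Finset.sum_le_sum fun i hi => ?_
  rw [norm_mul, norm_pow, norm_pow, mul_assoc, ← pow_succ]
  gcongr
  exact Finset.mem_range.1 hi

theorem Eqs.growth (e : Eqs c D) : ∃ Lam : MvPolynomial D ℂ,
    (∀ u, MvPolynomial.eval u e.Δ ≠ 0 → MvPolynomial.eval u Lam ≠ 0) ∧ ∃ (C : ℝ) (N : ℕ),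
      ∀ s W u, e.Sec s W → u ∈ W →
        ‖MvPolynomial.eval u Lam‖ * (1 + ‖c.b (s u)‖) ≤ C * (1 + ‖u‖) ^ N := by
  classical
  obtain ⟨C, N, -, h⟩ := (pg_eval (∏ y, (e.Q y).leadingCoeff)).add (PG.sum Finset.univ fun y =>
    PG.sum (Finset.range ((e.Q y).natDegree + 1)) fun i =>
      pg_eval ((e.Q y).coeff i * ∏ y' ∈ Finset.univ.erase y, (e.Q y').leadingCoeff))
  refine ⟨∏ y, (e.Q y).leadingCoeff, fun u hu => ?_, C, N, fun s W u hs hu => le_trans ?_ (h u)⟩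
  · rw [map_prod]
    exact Finset.prod_ne_zero_iff.2 fun y _ => e.lead u hu y
  have h1 : ‖c.b (s u)‖ ≤ ∑ y, ‖c.b (s u) y‖ :=
    (pi_norm_le_iff_of_nonneg (by positivity)).2 fun y =>
      Finset.single_le_sum (f := fun y => ‖c.b (s u) y‖) (fun _ _ => norm_nonneg _) (Finset.mem_univ y)
  rw [mul_add, mul_one]
  refine add_le_add le_rfl ((mul_le_mul_of_nonneg_left h1 (norm_nonneg _)).trans ?_)
  rw [Finset.mul_sum]
  refine Finset.sum_le_sum fun y _ => ?_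
  simp only [map_mul, norm_mul, ← Finset.sum_mul]
  rw [← Finset.mul_prod_erase _ _ (Finset.mem_univ y), map_mul, norm_mul, mul_right_comm]
  exact mul_le_mul_of_nonneg_right (root_bd _ u (hs.eq u hu y)) (norm_nonneg _)

theorem Eqs.norm_pt (e : Eqs c D) {z₁ : σ → ℂ} (h₁ : e.cov.Pt z₁) {X : Type} [Fintype X]
    (β : X → (σ → ℂ) → ℂ) (hd : ∀ x, DifferentiableOn ℂ (β x) c.U)
    (hg : ∃ C : ℝ, ∀ x, ∀ z ∈ c.U, ‖β x z‖ ≤ C * (1 + ‖c.b z‖))
    (hf : ∃ R : Set Γ, R.Finite ∧ ∀ γ, ∃ r ∈ R, ∀ x, ∀ z ∈ c.U, β x (c.a γ z) = β x (c.a r z))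
    {u : D → ℂ} (hu : MvPolynomial.eval u e.Δ ≠ 0) (p : X → ℂ)
    (hp : ∀ (a : X → ℂ) (Q : (MvPolynomial D ℂ)[X]),
      (∀ w, e.cov.Conn z₁ w → ev Q (e.t w) (∑ x, a x * β x w) = 0) → ev Q u (∑ x, a x * p x) = 0) :
    ∃ w, e.cov.Conn z₁ w ∧ e.t w = u ∧ ∀ x, β x w = p x := by
  classical
  obtain ⟨Lam, hL, C, N, hC⟩ := e.growth
  obtain ⟨C', hg⟩ := hg
  obtain ⟨R, hR, hf⟩ := hf
  have key : ∀ a : X → ℂ, ∃ w, e.cov.Conn z₁ w ∧ e.cov.Pt w ∧ e.t w = u ∧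
      ∑ x, a x * β x w = ∑ x, a x * p x := fun a => by
    let φ : (σ → ℂ) → ℂ := fun w => ∑ x, a x * β x w
    refine (U.un_norm e.Δ Lam (fun f W => ∃ s, e.Sec s W ∧
      (∀ v ∈ W, e.cov.Conn z₁ (s v)) ∧ EqOn f (fun v => φ (s v)) W)
      (fun f W ⟨s, hs, _⟩ => hs.off)
      (fun f W ⟨s, hs, _, h⟩ => DifferentiableOn.congr ((DifferentiableOn.fun_sum fun x _ =>
        (hd x).const_mul (a x)).comp hs.diff hs.maps) h) (fun u0 h0 => ?_) hL
      ⟨(∑ x, ‖a x‖) * |C'| * C, N, ?_⟩).elim fun P ⟨h1, h2⟩ => ?_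
    rotate_right
    · refine (h2 u _ hu (hp a P fun w hw => ?_)).elim fun f ⟨W, ⟨s, hs, h3, h4⟩, h5, h6⟩ =>
        ⟨s u, h3 u h5, ⟨s, W, u, hs, h5, rfl⟩, hs.proj u h5, (h4 h5).symm.trans h6⟩
      obtain ⟨s, W, v, hs : e.Sec s W, hv, rfl⟩ := hw.pt h₁
      obtain ⟨r, hr, hb⟩ := Metric.isOpen_iff.1 hs.opn v hv
      rw [hs.proj v hv]
      exact h1 _ _ v ⟨s, hs.mono isOpen_ball hb, fun v' hv' => hw.trans (Cov.conn_sec (V := e.cov)
        hs (convex_ball v r).isPreconnected hb (mem_ball_self hr) hv'), fun _ _ => rfl⟩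
        (mem_ball_self hr)
    · obtain ⟨r, hr, n, S, hS, H⟩ := Eqs.triv h0
      obtain ⟨m, g, -, hm⟩ := ((hR.prod (finite_univ (α := Fin n))).image
        fun q v => φ (c.a q.1 (S q.2 v))).inter_of_left {f | ∃ s, e.Sec s (ball u0 r) ∧
          (∀ v ∈ ball u0 r, e.cov.Conn z₁ (s v)) ∧ EqOn f (fun v => φ (s v)) (ball u0 r)} |>.fin_param
      refine ⟨r, hr, m, g, fun i => (hm.le ⟨i, rfl⟩).2, ?_⟩
      rintro f W v ⟨s, hs, h1, h2⟩ hv hv'
      obtain ⟨γ, i, h3⟩ := H s W v hs hv hv'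
      obtain ⟨ρ, h4, h5⟩ := hf γ
      have h6 : EqOn (fun v => φ (c.a ρ (S i v))) (fun v => φ (c.a γ (S i v))) (ball u0 r) :=
        fun v hv => Finset.sum_congr rfl fun x _ => by rw [h5 x _ ((hS i).maps hv)]
      obtain ⟨j, hj⟩ := hm.ge ⟨⟨(ρ, i), ⟨h4, trivial⟩, rfl⟩, _, (hS i).act γ, fun v' h =>
        (h3 ▸ h1 v hv).trans (Cov.conn_sec (V := e.cov) ((hS i).act γ)
          (convex_ball u0 r).isPreconnected subset_rfl hv' h), h6⟩
      refine ⟨j, ?_⟩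
      filter_upwards [hs.uniq ((hS i).act γ) hv hv' h3, hs.opn.mem_nhds hv,
        isOpen_ball.mem_nhds hv'] with v' a1 a2 a3
      rw [hj, h2 a2]
      exact (congrArg φ a1).trans (h6 a3).symm
    · rintro f W v ⟨s, hs, -, h⟩ hv
      have h1 : ‖φ (s v)‖ ≤ (∑ x, ‖a x‖) * |C'| * (1 + ‖c.b (s v)‖) := by
        rw [mul_assoc, Finset.sum_mul]
        refine (norm_sum_le _ _).trans (Finset.sum_le_sum fun x _ => ?_)
        rw [norm_mul]
        exact mul_le_mul_of_nonneg_left ((hg x _ (hs.maps hv)).trans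
          (mul_le_mul_of_nonneg_right (le_abs_self _) (by positivity))) (norm_nonneg _)
      rw [h hv, norm_mul, mul_assoc _ C]
      refine (mul_le_mul_of_nonneg_left h1 (norm_nonneg _)).trans ?_
      rw [mul_left_comm]
      exact mul_le_mul_of_nonneg_left (hC s W v hs hv) (by positivity)
  obtain ⟨r, hr, n, S, hS, H⟩ := Eqs.triv hu
  have fin : {v : X → ℂ | ∃ w, e.cov.Conn z₁ w ∧ e.cov.Pt w ∧ e.t w = u ∧
      (fun x => β x w) = v}.Finite := by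
    refine ((hR.prod (finite_univ (α := Fin n))).image
      fun q x => β x (c.a q.1 (S q.2 u))).subset ?_
    rintro _ ⟨_, -, ⟨s, W, v, hs : e.Sec s W, hv, rfl⟩, h1, rfl⟩
    obtain rfl : v = u := (hs.proj v hv).symm.trans h1
    obtain ⟨γ, i, h3⟩ := H s W v hs hv (mem_ball_self hr)
    obtain ⟨ρ, h4, h5⟩ := hf γ
    exact ⟨(ρ, i), ⟨h4, trivial⟩, funext fun x => by
      rw [h3, h5 x _ ((hS i).maps (mem_ball_self hr))]⟩
  by_contra! hc
  have := fin.to_subtype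
  obtain ⟨l, hl⟩ := Module.exists_dual_forall_apply_ne_zero (K := ℂ)
    (fun v : {v : X → ℂ | ∃ w, e.cov.Conn z₁ w ∧ e.cov.Pt w ∧ e.t w = u ∧ (fun x => β x w) = v} =>
      v.1 - p) (by
    rintro ⟨_, w, h1, h2, h3, rfl⟩ h
    obtain ⟨x, hx⟩ := hc w h1 h3
    exact hx (congrFun (sub_eq_zero.1 h) x))
  obtain ⟨w, h1, h2, h3, h4⟩ := key fun x => l fun j => if x = j then 1 else 0
  refine hl ⟨_, w, h1, h2, h3, rfl⟩ ?_
  rw [map_sub, sub_eq_zero, LinearMap.pi_apply_eq_sum_univ, LinearMap.pi_apply_eq_sum_univ l p]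
  simpa only [smul_eq_mul, mul_comm] using h4

end Pool.Agent.MT.G
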