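import Pool.Agent.Lib.MP_d61fbb_ag.MT.ASys
import Pool.Agent.Lib.MP_d61fbb_ag.MT.AGH
import Pool.Agent.Lib.MP_d61fbb_ag.MT.T5
import Pool.Agent.Lib.MP_d61fbb_ag.MT.BD1
import Pool.Agent.Lib.MP_d61fbb_ag.MT.BV3
import Pool.Agent.Lib.MP_d61fbb_ag.MT.BAl5
import Pool.Agent.Lib.MP_d61fbb_ag.MT.BLat
import Pool.Agent.Lib.MP_d61fbb_ag.MT.BO3
import Pool.Agent.Lib.MP_d61fbb_ag.MT.DN3
import Pool.Agent.Lib.MP_d61fbb_ag.MT.CMT
import Pool.Agent.Lib.MP_d61fbb_ag.MT.ZT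

/-! The assembly. -/

set_option autoImplicit false

namespace Pool.Agent.MT

theorem zl_all (h2 : T_CM2) : ZL :=
  zl_of t_a t_gh t_b0 van_of weil_of t_alpha t_red ord_of t_dpl2 (t_cm_of h2) (t_zl_of uniq_of)

end Pool.Agent.MT
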