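import Pool.Agent.Lib.MP_d61fbb_ag.MT.ZAll
import Pool.Agent.Lib.MP_d61fbb_ag.MT.CM2
import Pool.Agent.Lib.MP_d61fbb_ag.MT.TS1
import Pool.Agent.Lib.MP_d61fbb_ag.MT.G8

/-! The two stages. -/

set_option autoImplicit false

namespace Pool.Agent.MT

theorem zl : ZL := zl_all t_cm2

theorem stage1 : Stage1 := t_s1 zl

theorem stage2 : Stage2 := t_s2 zl

end Pool.Agent.MT
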