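import Pool.Agent.Lib.MP_d61fbb_ag.MT.GB1
import Pool.Agent.Lib.MP_d61fbb_ag.MT.GX4
import Pool.Agent.Lib.MP_d61fbb_ag.MT.GDen

/-! Existence of integral theta constants. -/

set_option autoImplicit false

noncomputable section

namespace Pool.Agent.MT

open Matrix Polynomial Sum NumberField
open Pool.Agent.Lib.MP_696deb_nt.B2 (Qbar Gam Plc Dec Ine IsFrob Op jC)

variable {τ : Matrix (Fin 4) (Fin 4) ℂ} {K : IntermediateField ℚ ℂ} {M : MumfordType τ K}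
  {A : AR M} {v : Frb A} {P : ℤ[X]} {E : Type} [Field E] [NumberField E] {d : DF P v.p E}
  {H : FrD v.p (M.ρ v.φ) P} {f : ℕ} {l₀ : Pr} {D : Loc E f l₀ (ℂ ≃ₐ[K] ℂ) GG}

/-- the lattice of a point of type `I` -/
theorem zt_pt (hD : LocSpec v d H D) {I : Ideal (𝓞 E)} {g : GG} (h0 : I ≠ 0)
    (hI : (Ideal.absNorm I).Coprime f) (hg : D.In I g) :
    Pt (Ideal.absNorm I) (sc (Ideal.absNorm I) g) ∧ StdAt v.p (sc (Ideal.absNorm I) g) ∧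
      ∀ t ∈ L0, gm g *ᵥ t ∈ L0 := by
  have hb : ∀ l : Pr, l = v.p ∨ (l : ℕ) < 5 → (l : ℕ) ∣ f := fun l hl => by
    by_contra h
    exact hl.elim (hD.bad l h).2.1 (not_lt.2 (hD.bad l h).2.2.1)
  have h1 := hg.gx hD.K (fun a ha l hl => by
    rw [hD.ν]
    obtain ⟨b1, b2, -, b3⟩ := hD.bad l hl
    refine ⟨fun i i' => ?_, nuG_norm d H ha b2⟩
    obtain ⟨c, k, e⟩ := M.sub v.φ l b1
    obtain ⟨j, hj, -⟩ := (M.D l).loc d b3 k.isUnit e (H.ch l b2)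
      (GS.of_map2 (φ := algebraMap ℤ_[l] ℚ_[l]) Subtype.val_injective
        (by rw [map_natCast]; exact H.sim l b2))
    rw [cpG_nuG d H ha b2]
    exact (congrArg (fun m : M8 ℚ_[l] => ‖m i i'‖) (hj a)).ge.trans ((M.D l).Nm (j a) i i').2) hI
  have h2 : ∀ l : Pr, (l : ℕ) ∣ f → g ∈ KG l := fun l hl => hD.K ▸ (hg l l.2).1 hl
  have h3 : ∀ l : Pr, (l : ℕ) ∣ f → ¬ (l : ℕ) ∣ Ideal.absNorm I := fun l hl h =>
    l.2.one_lt.ne' (Nat.eq_one_of_dvd_coprimes hI h hl)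
  have h4 := hb p2 (.inr (by decide))
  refine ⟨pt_of_mul (Nat.not_even_iff_odd.1 fun h => h3 p2 h4 h.two_dvd) (fun l => (h1 l).2)
    (h2 p2 h4), stdAt_of_K (h2 _ (hb _ (.inl rfl))) ?_,
    fun t ht => gx_L0.2 (gx_mulVec_mem Zh (fun i j l => (h1 l).1 i j) (gx_L0.1 ht))⟩
  rw [Rat.cast_inv, Rat.cast_natCast, norm_inv, gx_nat_norm (h3 _ (hb _ (.inl rfl))), inv_one]

theorem zt_ex (hD : LocSpec v d H D) : ∃ c : ℕ, ∀ e I g, I ≠ 0 → (Ideal.absNorm I).Coprime f →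
    D.In I g → ∃ θ, ThN A.S v.p l₀ e g θ ∧
      ∀ (σ : ℂ ≃+* ℂ) a, ‖σ (θ a)‖ ≤ ((2 * Ideal.absNorm I : ℕ) : ℝ) ^ c := by
  obtain ⟨C, hC⟩ := A.ex_vec
  refine ⟨C + 8, fun e I g h0 hI hg => ?_⟩
  obtain ⟨P, h1, h2⟩ := zt_pt hD h0 hI hg
  generalize Ideal.absNorm I = N at P h1 ⊢
  have hN := P.odd.pos
  obtain ⟨F, h3, h4, h5, h6⟩ := hC N _ N P hN.ne' fun t ht => by
    rw [sc, smul_mulVec, ← Nat.cast_smul_eq_nsmul ℚ, smul_inv_smul₀ (Nat.cast_ne_zero.2 hN.ne')]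
    exact h2 t ht
  refine ⟨_, ⟨N, F, ⟨P, h3, h4, h5⟩, h1, fun a => rfl⟩, fun σ a => ?_⟩
  obtain ⟨s, hs1, hs⟩ := gx_sign a
  rw [hs, map_mul, map_intCast, norm_mul, hs1, one_mul]
  refine (h6 (σ.toRingHom.comp jC) _).trans ?_
  have h7 : C * N ^ 8 ≤ (2 * N) ^ (C + 8) := by
    rw [pow_add]
    exact Nat.mul_le_mul (Nat.lt_pow_self (by omega)).le (Nat.pow_le_pow_left (by omega) 8)
  exact_mod_cast h7

theorem zt_int {p l : Pr} {e : ℕ} {g : GG} {θ : (I2 4 → ℤ) → ℂ} (h : ThN A.S p l e g θ) (a) :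
    IsIntegral ℤ (θ a) := by
  obtain ⟨N, F, h1, -, h2⟩ := h
  obtain ⟨s, -, hs⟩ := gx_sign a
  rw [h2, hs]
  exact (isIntegral_algebraMap (x := s)).mul (map_isIntegral_int jC (h1.int _))

theorem zt_gal' {p l : Pr} {e : ℕ} {g : GG} {θ : (I2 4 → ℤ) → ℂ} (σ : ℂ ≃ₐ[K] ℂ)
    (h : ThN A.S p l e g θ) : ThN A.S p l e (rhoG A σ * g) fun a => σ (θ a) := by
  obtain ⟨N, F, h1, h2, hθ⟩ := h
  have h3 : sc N (rhoG A σ * g) = mA (M.ρ σ) * sc N g := by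
    rw [sc, sc, map_mul, gm_rhoG, mul_smul_comm]
  refine ⟨N, A.cj σ F, h3 ▸ h1.gal A σ, h3 ▸ h2.gx_mA _, fun a => ?_⟩
  obtain ⟨s, -, hs⟩ := gx_sign a
  beta_reduce
  rw [hθ, hs, h3, ← mulVec_mulVec, A.cj_apply, A.res_spec, map_mul, map_intCast]

end Pool.Agent.MT
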