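import Pool.Agent.Lib.MP_d61fbb_ag.MT.GB1
import Pool.Agent.Lib.MP_d61fbb_ag.MT.GI1

/-! Interpolation. -/

set_option autoImplicit false

noncomputable section

namespace Pool.Agent.MT

open Matrix Polynomial Sum NumberField
open Pool.Agent.Lib.MP_696deb_nt.B2 (Qbar Gam Plc Dec Ine IsFrob Op jC)

variable {τ : Matrix (Fin 4) (Fin 4) ℂ} {K : IntermediateField ℚ ℂ} {M : MumfordType τ K}
  {A : AR M} {v : Frb A} {P : ℤ[X]} {E : Type} [Field E] [NumberField E] {d : DF P v.p E}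
  {H : FrD v.p (M.ρ v.φ) P} {f : ℕ} {l₀ : Pr} {D : Loc E f l₀ (ℂ ≃ₐ[K] ℂ) GG}

theorem zt4_sign (n : ℤ) : ∃ s : ℤ, ee (n / 2) = s := by
  obtain ⟨m, rfl | rfl⟩ := Int.even_or_odd' n
  · exact ⟨1, (ee_congr (y := 0) m (by push_cast; ring)).trans (by simp)⟩
  · exact ⟨-1, (ee_congr (y := 1 / 2) m (by push_cast; ring)).trans (by rw [ee_half]; simp)⟩

theorem zt_interp (hC : CM) (hτ : Sieg τ) (v : Frb A) (hG : Good P v.p) (hO : Ordi v.p P)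
    (d : DF P v.p E) (H : FrD v.p (M.ρ v.φ) P) : ∃ f₂ : ℕ, f₂ ≠ 0 ∧ ∀ (f : ℕ) (l : Pr), f₂ ∣ f →
    l ≠ v.p → ∀ (e r : ℕ) (z : Fin r → ℤ) (ch : Fin r → Fin 4 → I2 4 → ℤ) (g : GG) θ (n : ℕ)
      (a β : Fin n → 𝓞 E) (θ' : Fin n → (I2 4 → ℤ) → ℂ), 2 ≤ f → ThN A.S v.p l e g θ →
      (∀ i, IsCoprime (a i) (f : 𝓞 E) ∧ (f : 𝓞 E) ∣ β i - a i ∧
        ThN A.S v.p l e (nuG d H (β i) * (nuG d H (a i))⁻¹ * g) (θ' i) ∧ qv z ch (θ' i) = 0) →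
      (∀ i i', i ≠ i' → Dif d.cO (a i) (β i) (a i') (β i')) →
      szC jC v.w (qv z ch θ) ≤ ((v.p : ℕ) : ℝ)⁻¹ ^ n := by
  obtain ⟨f₀, h0, hf₀⟩ := hC.at hτ H.ch hG hO d d.cO_coe
  refine ⟨f₀ * v.p, mul_ne_zero h0 v.p.2.ne_zero, ?_⟩
  rintro f l hf hl e r z ch g θ n a β θ' - ⟨N, F, h1, h2, h3⟩ h4 h5
  choose s hs using fun a : I2 4 → ℤ => zt4_sign (Qf a)
  choose N' F' h6 h7 h8 using fun i => (h4 i).2.2.1
  have key := hf₀.interp H hG ((dvd_mul_right _ _).trans hf) ((dvd_mul_left _ _).trans hf)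
    h1.pt h2 h1.vec (fun x => v.w.V_le_one_of_isIntegral (h1.int x))
    (fun i => ⟨(h4 i).1, (h4 i).2.1⟩) (fun i => ⟨(h6 i).pt, h7 i, (h6 i).vec, (h6 i).ne⟩) h5 z ch s
    (y := io l e) (fun j => gi_sgv_mem hl _) fun i => by
      rw [← (h4 i).2.2.2]
      exact congrArg _ (funext fun j => by rw [h8, Qf_zc, hs, sc])
  rwa [show θ = _ from funext fun j => by rw [h3, Qf_zc, hs, sc]]

end Pool.Agent.MT
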