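import Pool.Agent.Lib.MP_d61fbb_ag.MT.GB1
import Pool.Agent.Lib.MP_d61fbb_ag.MT.ZC1
import Pool.Agent.Lib.MP_d61fbb_ag.MT.CM2r
import Pool.Agent.Lib.MP_d61fbb_ag.MT.GX3
import Pool.Agent.Lib.MP_d61fbb_ag.MT.EG3

/-! From the output of the glue to the orbit. -/

set_option autoImplicit false

noncomputable section

namespace Pool.Agent.MT

open Matrix Polynomial Sum NumberField
open Pool.Agent.Lib.MP_696deb_nt.B2 (Qbar Gam Plc Dec Ine IsFrob Op jC)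

theorem zo_gs {l : Pr} {μ : ℤ_[l]} {g : M8 ℤ_[l]} (h : GS (μ : ℚ_[l]) (upM l g)) : GS μ g :=
  gs_iff.2 (upM_inj l (by
    have e : upM l (J (Fin 4) ℤ_[l]) = J (Fin 4) ℚ_[l] := map_J _ (algebraMap ℤ_[l] ℚ_[l])
    rw [map_mul, map_mul, e, upM_apply l (μ • _), gn_map_smul, ← upM_apply, e]
    exact gs_iff.1 h))

theorem zo_map (l : Pr) (q : ℚ) (h : M8 AF) : (q • h).map (cp l) = (q : ℚ_[l]) • h.map (cp l) := by
  ext i j
  simp [Rat.smul_def]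

theorem zo_std {l : Pr} {q : ℕ} (hq : (l : ℕ).Coprime q) {h : M8 AF} (e : h.map (cp l) = 1) :
    StdAt l ((q : ℚ)⁻¹ • h) := fun x => by
  simp [zo_map, e, smul_mulVec, Padic.norm_natCast_eq_one_iff.2 hq]

theorem zo_chi {q : ℕ} (hq : Odd q) {h : M8 AF} (e : h.map (cp p2) = 1) {t : W} (ht : t ∈ L0) :
    psi (e2 * (1 / 2 : ℚ) • Qf ((q : ℚ)⁻¹ • h *ᵥ t)) = psi ((1 / 2 : ℚ) • Qf t) := by
  have h1 : e2 * Qf (h *ᵥ t) = e2 * Qf t := vr_ext fun l => by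
    by_cases hl : l = p2
    · subst hl
      have : ∀ i, cp p2 ((h *ᵥ t) i) = cp p2 (t i) := fun i =>
        (RingHom.map_mulVec (cp p2).toRingHom _ _ i).trans (by
          rw [show h.map (cp p2).toRingHom = 1 from e, one_mulVec]; rfl)
      simp [Qf, dotProduct, this]
    · simp [cp_e2_ne hl]
  have h2 : Qf ((q : ℚ)⁻¹ • h *ᵥ t) = qa ((q * q : ℕ) : ℚ)⁻¹ * Qf (h *ᵥ t) := by
    simp only [Qf, Pi.smul_comp, smul_dotProduct, dotProduct_smul, gx_qsmul]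
    rw [← mul_assoc, ← map_mul, ← mul_inv, Nat.cast_mul]
  obtain ⟨n, hn⟩ := hq.mul hq
  have h3 : qa ((q * q : ℕ) : ℚ)⁻¹ * (2 * n + 1) = 1 := by
    rw [show (2 * n + 1 : AF) = qa ((q * q : ℕ) : ℚ) by rw [hn, qa, map_natCast]; push_cast; rfl,
      ← map_mul, inv_mul_cancel₀ (by rw [hn]; positivity), map_one]
  have h4 : qa (1 / 2) * 2 = 1 := by
    rw [← map_ofNat (algebraMap ℚ AF), ← map_mul, one_div_mul_cancel two_ne_zero, map_one]
  refine (psi_congr ?_).symm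
  convert Zh.mul_mem (Zh.add_mem e2_half (Zh.mul_mem (e2_odd (hq.mul hq)) (natCast_mem Zh n)))
    (gx_Qf_mem Zh (gx_L0.1 ht)) using 1
  rw [gx_qsmul, gx_qsmul, h2]
  linear_combination -qa (1 / 2) * qa ((q * q : ℕ) : ℚ)⁻¹ * h1 - e2 * qa (1 / 2) * Qf t * h3 +
    e2 * qa ((q * q : ℕ) : ℚ)⁻¹ * n * Qf t * h4

variable {τ : Matrix (Fin 4) (Fin 4) ℂ} {K : IntermediateField ℚ ℂ} {M : MumfordType τ K}
  {A : AR M} {v : Frb A} {P : ℤ[X]} {E : Type} [Field E] [NumberField E] {d : DF P v.p E}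
  {H : FrD v.p (M.ρ v.φ) P} {f : ℕ} {l₀ : Pr} {D : Loc E f l₀ (ℂ ≃ₐ[K] ℂ) GG}

/-- an analytic theta vector is a multiple of an integral one -/
theorem zo_vec (hG : GH) (hτ : Sieg τ) (A : AR M) {q : ℕ} (hq : Odd q) (g : GG)
    (hs : GS 1 (gm g)) (e : (gm g).map (cp p2) = 1) {F : W → ℂ} (hF : F ∈ HH τ 1)
    (hF' : ∀ t ∈ L0, UU 1 (gm g *ᵥ t) F = chi0 t • F) : ∃ (F' : W → Qbar) (c : ℂ),
      IntVec A.S (q * q) ((q : ℚ)⁻¹ • gm g) F' ∧ ∀ x, F x = c * jC (F' ((q : ℚ)⁻¹ • x)) := by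
  have hq0 : (q : ℚ) ≠ 0 := Nat.cast_ne_zero.2 hq.pos.ne'
  have h0 : ∀ x y : W, ((q * q : ℕ) : ℚ) • Ef ((q : ℚ)⁻¹ • x) ((q : ℚ)⁻¹ • y) = Ef x y :=
    fun x y => by
      simp only [Ef, Pi.smul_comp, smul_dotProduct, dotProduct_smul, smul_smul, smul_sub]
      rw [show ((q * q : ℕ) : ℚ) * ((q : ℚ)⁻¹ * (q : ℚ)⁻¹) = 1 by push_cast; field_simp]
      simp
  have P : Pt (q * q) ((q : ℚ)⁻¹ • gm g) :=
    { odd := hq.mul hq
      unit := by
        rw [Algebra.smul_def]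
        exact ((inv_ne_zero hq0).isUnit.map _).mul (gm_isUnit g)
      sim := ⟨1, fun x y => by
        rw [smul_mulVec, smul_mulVec, Units.val_one, map_one, ← hs, ← h0 (gm g *ᵥ x), gx_qsmul, qa,
          map_natCast]⟩
      two := zo_std (Nat.coprime_two_left.2 hq) e }
  obtain ⟨F', h1, h2, h3⟩ := A.ex_int P
  let φ : Frame 1 (Fin 4) := ⟨lin g, 1, fun x y => by
    rw [one_smul, lin_apply, lin_apply, hs]; rfl⟩
  have h4 : ∀ t, φ.chi (φ.γ t) = psi ((1 / 2 : ℚ) • Qf t) := fun t => by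
    rw [Frame.chi, φ.γ.symm_apply_apply]
    exact congrArg (fun a => psi ((1 / 2 : ℚ) • a)) (one_mul _)
  have h5 : φ.IsTh τ fun x => jC (F' ((q : ℚ)⁻¹ • x)) := by
    refine ⟨?_, fun e => h2 (funext fun x => jC.injective ?_), fun m hm => funext fun x => ?_⟩
    · convert HH_scale ((hG τ hτ K M A _ P.odd.pos F').1 h1.mem) (q : ℚ)⁻¹ using 2
      push_cast; field_simp
    · simpa [smul_smul, hq0] using congrFun e ((q : ℚ) • x)
    · obtain ⟨t, rfl⟩ := φ.γ.surjective m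
      have ht := φ.map_mem_L.1 hm
      have := congrArg jC (congrFun (h1.inv t ht fun i l hl => absurd hl l.2.ne_zero)
        ((q : ℚ)⁻¹ • x))
      rw [Rt, Pi.smul_apply, smul_eq_mul, map_mul, map_mul, sgn, A.cxe, A.cxe, smul_mulVec,
        div_eq_inv_mul, mul_smul, h0, ← smul_add] at this
      rw [h4, ← zo_chi hq e ht, Pi.smul_apply, smul_eq_mul]
      refine Eq.trans ?_ this
      rw [UU_apply, eps, one_div]
      rfl
  obtain ⟨c, hc⟩ := h5.uniq (siegI_iff.2 hτ) one_pos hF fun m hm => by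
    obtain ⟨t, rfl⟩ := φ.γ.surjective m
    rw [h4]
    exact hF' t (φ.map_mem_L.1 hm)
  exact ⟨F', c, ⟨P, h1, h2, h3⟩, fun x => congrFun hc x⟩

theorem zt_out (hA : AStmt) (hG : GH) (h : OutG) : ZL := by
  classical
  intro τ hτ K hK h8 M
  obtain ⟨A⟩ := hA τ hτ K hK h8 M
  obtain ⟨v, P, H, E, _, _, d, f, hf, h⟩ := h τ hτ K hK M A
  obtain ⟨l, ⟨hl⟩, hlf, θ, φ, hφ, hθ⟩ := split_prime E hf
  obtain ⟨l, rfl⟩ : ∃ l' : Pr, (l' : ℕ) = l := ⟨⟨l, hl⟩, rfl⟩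
  obtain ⟨⟨hS, hp, h5, hden⟩, e, r, z, ch, hne, h⟩ := h l hlf
  refine ⟨l, hS, by omega, e, r, z, ch, hne, fun m g s F hg hs hs' hF hF' => ?_⟩
  have hl0 : ((l : ℕ) : ℚ_[l]) ^ (3 * m) ≠ 0 := pow_ne_zero _ (Nat.cast_ne_zero.2 hl.ne_zero)
  have hco : ∀ l' : Pr, l' ≠ l → (l' : ℕ).Coprime ((l : ℕ) ^ (3 * m)) := fun l' h =>
    ((Nat.coprime_primes l'.2 l.2).2 fun e => h (Subtype.ext e)).pow_right _
  have h2 : p2 ≠ l := fun e => by rw [← e] at h5; exact absurd h5 (by decide)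
  have hq : Odd ((l : ℕ) ^ (3 * m)) := Nat.coprime_two_left.1 (hco _ h2)
  have h1 : GS 1 s := gs_of_cp fun l' => by
    rw [map_one]
    by_cases hl' : l' = l
    · subst hl'
      have := (((M.D l').gs_Nm g).map (algebraMap ℤ_[l'] ℚ_[l'])).smul
        (((l' : ℕ) : ℚ_[l']) ^ (3 * m))⁻¹
      rw [show ((M.D l').Nm g).map (algebraMap ℤ_[l'] ℚ_[l']) = _ from hs'.symm,
        inv_smul_smul₀ hl0, hg, ← map_natCast (algebraMap ℤ_[l'] (AdjoinRoot (M.D l').c)),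
        ← map_pow, Algebra.norm_algebraMap_of_basis (M.D l').bas] at this
      convert this using 1
      simp only [map_pow, map_natCast, Fintype.card_fin]
      field_simp
      ring
    · rw [hs l' hl']; exact gs_one
  have hu : IsUnit s := (isUnit_iff_isUnit_det _).2 (SymplecticGroup.symplectic_det (gs_one_iff.1 h1))
  let g₁ : GG := ⟨hu.unit, mem_GSp (μ := 1) h1⟩
  obtain ⟨F', c, h3, h4⟩ := zo_vec hG hτ A hq g₁ h1 (hs _ h2) hF hF'
  set q : ℕ := (l : ℕ) ^ (3 * m) with hq'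
  have hq0 : (q : ℚ) ≠ 0 := Nat.cast_ne_zero.2 hq.pos.ne'
  have hu' : IsUnit ((q : ℚ) • s) := by
    rw [Algebra.smul_def]
    exact (hq0.isUnit.map _).mul hu
  let g₂ : GG := ⟨hu'.unit, mem_GSp (μ := qa q ^ 2 * 1) (by
    convert h1.smul (qa q) using 1
    exact Matrix.ext fun i j => gx_qsmul _ _)⟩
  have h6 : ∀ l', cpG l' g₂ = (q : ℚ_[l']) • s.map (cp l') := fun l' =>
    (zo_map l' q s).trans (by rw [Rat.cast_natCast])
  have h7 : sc (q * q) g₂ = (q : ℚ)⁻¹ • gm g₁ := by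
    show _ • (q : ℚ) • s = _ • s
    rw [smul_smul]
    congr 1
    push_cast; field_simp
  obtain ⟨u, g₀, h8⟩ := M.sub v.φ l hS
  obtain ⟨j, h9, h10, -⟩ := (M.D l).loc d hden g₀.isUnit h8 (H.ch l hp)
    (zo_gs (by rw [PadicInt.coe_natCast]; exact H.sim l hp))
  obtain ⟨a, k, k', ha, hk, ⟨k', rfl⟩, h11⟩ := (M.D l).cartan hφ hθ j h10 hg
  obtain ⟨σ, hσ⟩ := M.big {l} (Function.update 1 l ⟨k, hk⟩)
  have h12 := h a g₂ _ σ ha (fun l' hl' => by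
    have : IsUnit (q : ℤ_[l']) := PadicInt.isUnit_iff.2 (Padic.norm_natCast_eq_one_iff.2 (hco l' hl'))
    refine mem_KG.2 ⟨(this.map (algebraMap _ (M8 ℤ_[l']))).unit, ?_⟩
    rw [h6, hs l' hl', IsUnit.unit_spec, map_natCast, map_natCast, Nat.cast_smul_eq_nsmul,
      nsmul_one]) (mem_NmG.2 ⟨Units.map (M.D l).NmH k', ⟨1, k', by simp⟩, by
    have e1 : cpG l (rhoG A σ * nuG d H a) * upM l ((M.D l).Nm k') = cpG l g₂ := by
      rw [h6, map_mul, cpG_rhoG, hσ l (Finset.mem_singleton_self l) hS, Function.update_self, cpG_nuG d H ha hp, hq',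
        Nat.cast_pow, hs', h11, Cub.Nm_mul, Cub.Nm_mul]
      exact (congrArg (fun x => _ * x * _) (h9 a).symm).trans
        ((map_mul (upM l) _ _).trans (congrArg (· * _) (map_mul (upM l) _ _))).symm
    rw [map_mul, ← e1, ← mul_assoc, ← map_mul, inv_mul_cancel, map_one, one_mul]
    rfl⟩) ⟨q * q, F', h7 ▸ h3, h7 ▸ zo_std (hco _ hp.symm) (hs _ hp.symm), fun _ => rfl⟩
  refine (qv_smul z ch (u := c) fun a => ?_).trans (by rw [h12, mul_zero])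
  rw [h4, h7, smul_mulVec, mul_left_comm]
  rfl

end Pool.Agent.MT
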