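import Pool.Agent.Lib.MP_d61fbb_ag.MT.ZT1
import Pool.Agent.Lib.MP_d61fbb_ag.MT.ZT2
import Pool.Agent.Lib.MP_d61fbb_ag.MT.ZT3
import Pool.Agent.Lib.MP_d61fbb_ag.MT.ZT4
import Pool.Agent.Lib.MP_d61fbb_ag.MT.ZT5
import Pool.Agent.Lib.MP_d61fbb_ag.MT.EG3
import Pool.Agent.Lib.MP_d61fbb_ag.MT.DAlg
import Pool.Agent.Lib.MP_d61fbb_ag.MT.Top

/-! Blocks E and F with their glue. -/

set_option autoImplicit false

noncomputable section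

namespace Pool.Agent.MT

open Matrix Polynomial Sum NumberField
open Pool.Agent.Lib.MP_696deb_nt.B2 (Qbar Gam Plc Dec Ine IsFrob Op jC)

theorem DF.exists_delta {P : ℤ[X]} {p : ℕ} (hp : p.Prime) {E : Type} [Field E] [NumberField E]
    (d : DF P p E) : ∃ (δ : 𝓞 E) (n : ℕ), n ≠ 0 ∧ d.cO δ = -δ ∧ 2 * δ ∣ (n : 𝓞 E) := by
  let u : 𝓞 E := ⟨_, d.intU⟩
  have h0 : u - d.cO u ≠ 0 := fun h => d.cne (by
    have h1 : (p : E) * d.U = d.c (p * d.U) := congrArg ((↑) : 𝓞 E → E) (sub_eq_zero.1 h)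
    rw [map_mul, map_natCast] at h1
    exact (mul_left_cancel₀ (Nat.cast_ne_zero.2 hp.ne_zero) h1).symm)
  refine ⟨u - d.cO u, Ideal.absNorm (Ideal.span {2 * (u - d.cO u)}),
    idl_norm_ne E (eg_span_ne (mul_ne_zero two_ne_zero h0)), by rw [map_sub, d.cO_cO, neg_sub],
    Ideal.mem_span_singleton.1 (Ideal.absNorm_mem _)⟩

theorem outG_of (hU : UNIQ) (hD : DPL) (hC : CM) : OutG := by
  intro τ hτ K hK M A
  obtain ⟨v, P, hP, hG, hO⟩ := hD τ K M A hτ hK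
  obtain ⟨E, _, _, ⟨d⟩⟩ := d_alg P v.p hG
  have H := v.frD hP
  obtain ⟨f₁, h1, H1⟩ := zt_loc v d H
  obtain ⟨f₂, h2, H2⟩ := zt_interp hC hτ v hG hO d H
  obtain ⟨δ, f₃, h3, hδ, hδf⟩ := d.exists_delta v.p.2
  obtain ⟨f, hf⟩ : ∃ f, f = 2 * (f₁ * f₂ * f₃) := ⟨_, rfl⟩
  have hf2 : 2 ≤ f := by
    have := Nat.pos_of_ne_zero (mul_ne_zero (mul_ne_zero h1 h2) h3)
    omega
  refine ⟨v, P, H, E, _, _, d, f, by omega, fun l hl => ?_⟩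
  obtain ⟨D, hD⟩ := H1 f l ⟨2 * f₂ * f₃, by rw [hf]; ring⟩ hl
  have hb := hD.bad l hl
  have : Module.Finite ℚ K.toSubfield := hK
  have hp1 : (1 : ℝ) < (v.p : ℕ) := by exact_mod_cast v.p.2.one_lt
  let G : Glob E d.cO K.toSubfield f l ((v.p : ℕ) : ℝ)⁻¹ (ℂ ≃ₐ[K] ℂ) GG :=
    { D with
      act := MulSemiringAction.toRingAut _ ℂ
      full := fun σ hσ => ⟨AlgEquiv.ofRingEquiv (f := σ) fun c => hσ c c.2, rfl⟩
      w := szC jC v.w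
      fin := finSize_szC jC v.w
      Th := ThN A.S v.p l
      ex := zt_ex hD
      int := fun _ _ _ h => zt_int h
      uniq := fun _ _ _ _ => zt_uniq hU
      inv := fun e g g' θ h4 h5 => zt_inv (by have := hb.2.2.1; omega)
        (fun l' => hD.K ▸ h4 l' l'.2) (hD.Kn ▸ h5)
      gal := fun e g θ σ h => hD.ρ ▸ zt_gal σ h
      interp := fun e r z ch _ g θ n a β _ θ' _ _ _ h4 h5 =>
        H2 f l ⟨2 * f₁ * f₃, by rw [hf]; ring⟩ hb.2.1 e r z ch g θ n a β θ' hf2 h4 fun i =>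
          ⟨(h5 i).1, (h5 i).2.1, hD.ν ▸ (h5 i).2.2.2.2.2.1, (h5 i).2.2.2.2.2.2⟩ }
  obtain ⟨m, e, r, z, ch, -, -, -, -, h4, -, h5⟩ := glue E d.cO δ K.toSubfield f l _ _ _ G hf2
    l.2 hl hδ (hδf.trans (Nat.cast_dvd_cast ⟨2 * f₁ * f₂, by rw [hf]; ring⟩))
    (inv_pos.2 (by linarith)) (inv_lt_one_of_one_lt₀ hp1)
  refine ⟨hb, e, r, z, ch, h4, fun a g θ σ ha h6 h7 => h5 a g θ σ ha (fun l' h h' => ?_)
    ⟨(D.ρ σ * D.ν a)⁻¹ * g, ?_, ?_⟩⟩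
  · exact hD.K ▸ h6 ⟨l', h⟩ fun e => h' (congrArg Subtype.val e)
  · change _ ∈ D.N l
    rwa [hD.N, hD.ρ, hD.ν]
  · change (D.ρ σ * D.ν a * _)⁻¹ * g ∈ D.Kn e
    rw [mul_inv_cancel_left, inv_mul_cancel]
    exact one_mem _

theorem t_zl_of (hU : UNIQ) : T_ZL := fun hA hG hD hC => zt_out hA hG (outG_of hU hD hC)

end Pool.Agent.MT
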